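import Pool.Agent.Lib.P45dba8.AvgFive

/-! # MP_45dba8: the unit of the certificate A6 -/

set_option autoImplicit false

namespace Pool.Agent.P45

/-- The unit of the certificate A6: `15 C_1 + 6 C_2 + 6 C_3 + C_4 + C_5 ≤ 4 k`. -/
theorem exists_unit_A6 {k : ℕ} (hk : 3 ≤ k) (S : Finset ℕ) (hS : S ⊆ Finset.Icc 1 (2 * k))
    (hc : S.card = k) : ∃ v : ZMod (4 * k + 1), IsUnit v ∧
      15 * (2 * wcor (LW k S v) (2 * k) 1 + wedge (LW k S v) (2 * k) 1) +
      6 * (2 * wcor (LW k S v) (2 * k) 2 + wedge (LW k S v) (2 * k) 2) +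
      6 * (2 * wcor (LW k S v) (2 * k) 3 + wedge (LW k S v) (2 * k) 3) +
      (2 * wcor (LW k S v) (2 * k) 4 + wedge (LW k S v) (2 * k) 4) +
      (2 * wcor (LW k S v) (2 * k) 5 + wedge (LW k S v) (2 * k) 5) ≤ 4 * (k : ℤ) := by
  obtain ⟨v, hv, h⟩ := exists_unit_five hk S hS hc 15 6 6 1 1 1 (by norm_num) (by norm_num)
    (by norm_num) (by norm_num) (by norm_num) (by norm_num) (by norm_num) (by norm_num)
    (by norm_num) (by norm_num) (by norm_num) (by norm_num)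
  refine ⟨v, hv, ?_⟩
  rw [← Int.cast_le (R := ℝ)]
  push_cast
  linarith

end Pool.Agent.P45
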