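import Pool.Agent.Lib.P45dba8.WordLag

/-! # MP_45dba8: the averaging bound of the certificate with the lags `1..5` -/

set_option autoImplicit false

namespace Pool.Agent.P45

open ArithmeticFunction

namespace A8Aux

/-- `μ(m) / φ(m)`. -/
noncomputable def cc (m : ℕ) : ℝ := (moebius m : ℝ) / Nat.totient m

theorem cc_one : cc 1 = 1 := by
  unfold cc
  simp

theorem cc_mul {a b : ℕ} (h : a.Coprime b) : cc (a * b) = cc a * cc b := by
  unfold cc
  rw [isMultiplicative_moebius.map_mul_of_coprime h, Nat.totient_mul h]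
  push_cast
  rw [mul_div_mul_comm]

theorem cc_prime {p : ℕ} (hp : p.Prime) : cc p = -1 / ((p : ℝ) - 1) := by
  unfold cc
  rw [moebius_apply_prime hp, Nat.totient_prime hp, Nat.cast_sub hp.one_le]
  push_cast
  ring

theorem cc_sq {p m : ℕ} (hp : p.Prime) (h : p * p ∣ m) : cc m = 0 := by
  unfold cc
  have : moebius m = 0 := by
    apply moebius_eq_zero_of_not_squarefree
    intro hs
    have := hs p h
    exact hp.not_isUnit this
  rw [this]
  simp

theorem cc_abs {m : ℕ} (hm : 0 < m) : |cc m| ≤ 1 / (Nat.totient m : ℝ) := by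
  unfold cc
  have h0 : (0 : ℝ) < Nat.totient m := by exact_mod_cast Nat.totient_pos.2 hm
  rw [abs_div, abs_of_pos h0]
  apply div_le_div_of_nonneg_right _ h0.le
  have : |moebius m| ≤ 1 := abs_moebius_le_one
  exact_mod_cast this

/-- A number prime to `30` other than `1` has totient at least `6`. -/
theorem totient_ge_six {m : ℕ} (h0 : m ≠ 0) (h1 : m ≠ 1) (h2 : ¬ 2 ∣ m) (h3 : ¬ 3 ∣ m)
    (h5 : ¬ 5 ∣ m) : 6 ≤ Nat.totient m := by
  obtain ⟨p, hp, hpm⟩ := Nat.exists_prime_and_dvd h1
  have hp7 : 7 ≤ p := by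
    have a2 : p ≠ 2 := fun h => h2 (h ▸ hpm)
    have a3 : p ≠ 3 := fun h => h3 (h ▸ hpm)
    have a5 : p ≠ 5 := fun h => h5 (h ▸ hpm)
    have a := hp.two_le
    by_contra hcon
    have : p = 4 ∨ p = 6 := by omega
    rcases this with h | h
    · rw [h] at hp; revert hp; decide
    · rw [h] at hp; revert hp; decide
  have h := Nat.totient_dvd_of_dvd hpm
  have h' := Nat.le_of_dvd (Nat.totient_pos.2 (Nat.pos_of_ne_zero h0)) h
  rw [Nat.totient_prime hp] at h'
  omega

/-- The bounds for a number prime to `30`. -/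
theorem cc_coprime {m : ℕ} (h0 : m ≠ 0) (h2 : ¬ 2 ∣ m) (h3 : ¬ 3 ∣ m) (h5 : ¬ 5 ∣ m) :
    cc m ≤ 1 ∧ -(1 / 6) ≤ cc m := by
  by_cases h1 : m = 1
  · rw [h1, cc_one]
    norm_num
  · have h := cc_abs (Nat.pos_of_ne_zero h0)
    have h6 := totient_ge_six h0 h1 h2 h3 h5
    have h6' : (6 : ℝ) ≤ Nat.totient m := by exact_mod_cast h6
    have : 1 / (Nat.totient m : ℝ) ≤ 1 / 6 := one_div_le_one_div_of_le (by norm_num) h6'
    have h7 := abs_le.1 (h.trans this)
    constructor
    · linarith [h7.2]
    · linarith [h7.1]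

/-- The lower bound for a number prime to `210`. -/
theorem cc_coprime7 {m : ℕ} (h0 : m ≠ 0) (h2 : ¬ 2 ∣ m) (h3 : ¬ 3 ∣ m) (h5 : ¬ 5 ∣ m)
    (h7 : ¬ 7 ∣ m) : -(1 / 10) ≤ cc m := by
  by_cases h1 : m = 1
  · rw [h1, cc_one]
    norm_num
  · have h := cc_abs (Nat.pos_of_ne_zero h0)
    obtain ⟨p, hp, hpm⟩ := Nat.exists_prime_and_dvd h1
    have hp11 : 11 ≤ p := by
      have a2 : p ≠ 2 := fun h => h2 (h ▸ hpm)
      have a3 : p ≠ 3 := fun h => h3 (h ▸ hpm)
      have a5 : p ≠ 5 := fun h => h5 (h ▸ hpm)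
      have a7 : p ≠ 7 := fun h => h7 (h ▸ hpm)
      have a := hp.two_le
      by_contra hcon
      have : p = 4 ∨ p = 6 ∨ p = 8 ∨ p = 9 ∨ p = 10 := by omega
      rcases this with h | h | h | h | h <;>
      · rw [h] at hp; revert hp; decide
    have h8 := Nat.totient_dvd_of_dvd hpm
    have h9 := Nat.le_of_dvd (Nat.totient_pos.2 (Nat.pos_of_ne_zero h0)) h8
    rw [Nat.totient_prime hp] at h9
    have h6' : (10 : ℝ) ≤ Nat.totient m := by exact_mod_cast (by omega : 10 ≤ Nat.totient m)
    have : 1 / (Nat.totient m : ℝ) ≤ 1 / 10 := one_div_le_one_div_of_le (by norm_num) h6'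
    have h7 := abs_le.1 (h.trans this)
    linarith [h7.1]

/-- The upper bound for a number prime to `30` other than `1`. -/
theorem cc_upper {m : ℕ} (h0 : m ≠ 0) (h1 : m ≠ 1) (h2 : ¬ 2 ∣ m) (h3 : ¬ 3 ∣ m) (h5 : ¬ 5 ∣ m) :
    cc m ≤ 1 / 36 := by
  obtain ⟨p, hp, hpm⟩ := Nat.exists_prime_and_dvd h1
  obtain ⟨e, he⟩ := hpm
  have hp7 : 7 ≤ p := by
    have hpm : p ∣ m := ⟨e, he⟩
    have a2 : p ≠ 2 := fun h => h2 (h ▸ hpm)
    have a3 : p ≠ 3 := fun h => h3 (h ▸ hpm)
    have a5 : p ≠ 5 := fun h => h5 (h ▸ hpm)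
    have a := hp.two_le
    by_contra hcon
    have : p = 4 ∨ p = 6 := by omega
    rcases this with h | h
    · rw [h] at hp; revert hp; decide
    · rw [h] at hp; revert hp; decide
  by_cases hpe : p ∣ e
  · rw [cc_sq hp (by rw [he]; exact mul_dvd_mul_left p hpe)]
    norm_num
  · have hcop : p.Coprime e := (Nat.Prime.coprime_iff_not_dvd hp).2 hpe
    have hp6 : (6 : ℝ) ≤ (p : ℝ) - 1 := by
      have : (7 : ℝ) ≤ p := by exact_mod_cast hp7
      linarith
    rw [he, cc_mul hcop, cc_prime hp]
    have he0 : e ≠ 0 := by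
      rintro rfl
      exact h0 (by rw [he, mul_zero])
    have h4 := (cc_coprime he0 (fun h => h2 (he ▸ h.mul_left p)) (fun h => h3 (he ▸ h.mul_left p))
      (fun h => h5 (he ▸ h.mul_left p))).2
    have e1 : -1 / ((p : ℝ) - 1) * cc e = (-cc e) / ((p : ℝ) - 1) := by ring
    rw [e1, div_le_iff₀ (by linarith)]
    by_cases hneg : -cc e ≤ 0
    · nlinarith
    · nlinarith

theorem cc_three : cc 3 = -(1 / 2) := by
  rw [cc_prime Nat.prime_three]
  norm_num

theorem cc_five : cc 5 = -(1 / 4) := by
  rw [cc_prime Nat.prime_five]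
  norm_num

/-- The combination `33 c_d(1) + 10 c_d(3) + c_d(5)`. -/
noncomputable def RR (d : ℕ) : ℝ :=
  33 * cc d + 10 * cc (d / Nat.gcd d 3) + cc (d / Nat.gcd d 5)

theorem gcd_not_dvd {d p : ℕ} (hp : p.Prime) (h : ¬ p ∣ d) : Nat.gcd d p = 1 := by
  rw [Nat.gcd_comm]
  exact (Nat.Prime.coprime_iff_not_dvd hp).2 h

/-- The bound `13/8`, and `5/4` if `35` does not divide `d`. -/
theorem RR_le {d : ℕ} (h0 : d ≠ 0) (h1 : d ≠ 1) (h2 : ¬ 2 ∣ d) :
    RR d ≤ 13 / 8 ∧ (¬ 35 ∣ d → RR d ≤ 5 / 4) := by
  have p3 := Nat.prime_three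
  have p5 := Nat.prime_five
  by_cases h3 : 3 ∣ d
  · obtain ⟨m, rfl⟩ := h3
    have hm0 : m ≠ 0 := by rintro rfl; exact h0 rfl
    have hm2 : ¬ 2 ∣ m := fun h => h2 (h.mul_left 3)
    by_cases h5 : 5 ∣ m
    · -- 15 divides d
      obtain ⟨q, rfl⟩ := h5
      have hq0 : q ≠ 0 := by rintro rfl; exact hm0 rfl
      have hq2 : ¬ 2 ∣ q := fun h => hm2 (h.mul_left 5)
      have g3 : 3 * (5 * q) / Nat.gcd (3 * (5 * q)) 3 = 5 * q := by
        rw [Nat.gcd_eq_right (Dvd.intro _ rfl), Nat.mul_div_cancel_left _ (by norm_num)]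
      have g5 : 3 * (5 * q) / Nat.gcd (3 * (5 * q)) 5 = 3 * q := by
        have : 3 * (5 * q) = 5 * (3 * q) := by ring
        rw [this, Nat.gcd_eq_right (Dvd.intro _ rfl), Nat.mul_div_cancel_left _ (by norm_num)]
      unfold RR
      rw [g3, g5]
      by_cases hq3 : 3 ∣ q
      · have z1 : cc (3 * (5 * q)) = 0 := cc_sq p3 (by
          obtain ⟨t, rfl⟩ := hq3
          exact ⟨5 * t, by ring⟩)
        have z2 : cc (3 * q) = 0 := cc_sq p3 (mul_dvd_mul_left 3 hq3)
        rw [z1, z2]
        by_cases hq5 : 5 ∣ q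
        · have z3 : cc (5 * q) = 0 := cc_sq p5 (mul_dvd_mul_left 5 hq5)
          rw [z3]
          constructor
          · norm_num
          · intro _; norm_num
        · obtain ⟨t, rfl⟩ := hq3
          have ht0 : t ≠ 0 := by rintro rfl; exact hq0 rfl
          by_cases ht3 : 3 ∣ t
          · have z3 : cc (5 * (3 * t)) = 0 := cc_sq p3 (by
              obtain ⟨s, rfl⟩ := ht3
              exact ⟨5 * s, by ring⟩)
            rw [z3]
            constructor
            · norm_num
            · intro _; norm_num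
          · have c5 : Nat.Coprime 5 (3 * t) := (Nat.Prime.coprime_iff_not_dvd p5).2 hq5
            have c3 : Nat.Coprime 3 t := (Nat.Prime.coprime_iff_not_dvd p3).2 ht3
            rw [cc_mul c5, cc_mul c3, cc_five, cc_three]
            have b := cc_coprime ht0 (fun h => hq2 (h.mul_left 3)) ht3 (fun h => hq5 (h.mul_left 3))
            constructor
            · linarith [b.1]
            · intro _; linarith [b.1]
      · have c3' : Nat.Coprime 3 q := (Nat.Prime.coprime_iff_not_dvd p3).2 hq3
        have c35 : Nat.Coprime 3 (5 * q) := Nat.Coprime.mul_right (by norm_num) c3'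
        rw [cc_mul c35, cc_mul c3', cc_three]
        by_cases hq5 : 5 ∣ q
        · have z3 : cc (5 * q) = 0 := cc_sq p5 (mul_dvd_mul_left 5 hq5)
          rw [z3]
          obtain ⟨t, rfl⟩ := hq5
          have ht0 : t ≠ 0 := by rintro rfl; exact hq0 rfl
          by_cases ht5 : 5 ∣ t
          · have z4 : cc (5 * t) = 0 := cc_sq p5 (mul_dvd_mul_left 5 ht5)
            rw [z4]
            constructor
            · norm_num
            · intro _; norm_num
          · have c5 : Nat.Coprime 5 t := (Nat.Prime.coprime_iff_not_dvd p5).2 ht5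
            rw [cc_mul c5, cc_five]
            have b := cc_coprime ht0 (fun h => hq2 (h.mul_left 5)) (fun h => hq3 (h.mul_left 5)) ht5
            constructor
            · linarith [b.1]
            · intro _; linarith [b.1]
        · have c5 : Nat.Coprime 5 q := (Nat.Prime.coprime_iff_not_dvd p5).2 hq5
          rw [cc_mul c5, cc_five]
          have b := cc_coprime hq0 hq2 hq3 hq5
          constructor
          · linarith [b.1]
          · intro _; linarith [b.1]
    · -- 3 divides d, 5 does not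
      have g3 : 3 * m / Nat.gcd (3 * m) 3 = m := by
        rw [Nat.gcd_eq_right (Dvd.intro _ rfl), Nat.mul_div_cancel_left _ (by norm_num)]
      have hd5 : ¬ 5 ∣ 3 * m := by
        intro h
        rcases (Nat.Prime.dvd_mul p5).1 h with h | h
        · revert h; decide
        · exact h5 h
      have g5 : 3 * m / Nat.gcd (3 * m) 5 = 3 * m := by
        rw [gcd_not_dvd p5 hd5, Nat.div_one]
      unfold RR
      rw [g3, g5]
      by_cases hm3 : 3 ∣ m
      · have z1 : cc (3 * m) = 0 := cc_sq p3 (mul_dvd_mul_left 3 hm3)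
        rw [z1]
        obtain ⟨t, rfl⟩ := hm3
        have ht0 : t ≠ 0 := by rintro rfl; exact hm0 rfl
        by_cases ht3 : 3 ∣ t
        · have z2 : cc (3 * t) = 0 := cc_sq p3 (mul_dvd_mul_left 3 ht3)
          rw [z2]
          constructor
          · norm_num
          · intro _; norm_num
        · have c3 : Nat.Coprime 3 t := (Nat.Prime.coprime_iff_not_dvd p3).2 ht3
          rw [cc_mul c3, cc_three]
          have b := cc_coprime ht0 (fun h => hm2 (h.mul_left 3)) ht3 (fun h => h5 (h.mul_left 3))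
          constructor
          · linarith [b.2]
          · intro _; linarith [b.2]
      · have c3 : Nat.Coprime 3 m := (Nat.Prime.coprime_iff_not_dvd p3).2 hm3
        rw [cc_mul c3, cc_three]
        have b := cc_coprime hm0 hm2 hm3 h5
        constructor
        · linarith [b.2]
        · intro _; linarith [b.2]
  · have g3 : d / Nat.gcd d 3 = d := by rw [gcd_not_dvd p3 h3, Nat.div_one]
    by_cases h5 : 5 ∣ d
    · obtain ⟨m, rfl⟩ := h5
      have hm0 : m ≠ 0 := by rintro rfl; exact h0 rfl
      have hm2 : ¬ 2 ∣ m := fun h => h2 (h.mul_left 5)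
      have hm3 : ¬ 3 ∣ m := fun h => h3 (h.mul_left 5)
      have g5 : 5 * m / Nat.gcd (5 * m) 5 = m := by
        rw [Nat.gcd_eq_right (Dvd.intro _ rfl), Nat.mul_div_cancel_left _ (by norm_num)]
      unfold RR
      rw [g3, g5]
      by_cases hm5 : 5 ∣ m
      · have z1 : cc (5 * m) = 0 := cc_sq p5 (mul_dvd_mul_left 5 hm5)
        rw [z1]
        obtain ⟨t, rfl⟩ := hm5
        have ht0 : t ≠ 0 := by rintro rfl; exact hm0 rfl
        by_cases ht5 : 5 ∣ t
        · have z2 : cc (5 * t) = 0 := cc_sq p5 (mul_dvd_mul_left 5 ht5)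
          rw [z2]
          constructor
          · norm_num
          · intro _; norm_num
        · have c5 : Nat.Coprime 5 t := (Nat.Prime.coprime_iff_not_dvd p5).2 ht5
          rw [cc_mul c5, cc_five]
          have b := cc_coprime ht0 (fun h => hm2 (h.mul_left 5)) (fun h => hm3 (h.mul_left 5)) ht5
          constructor
          · linarith [b.2]
          · intro _; linarith [b.2]
      · have c5 : Nat.Coprime 5 m := (Nat.Prime.coprime_iff_not_dvd p5).2 hm5
        rw [cc_mul c5, cc_five]
        have b := cc_coprime hm0 hm2 hm3 hm5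
        constructor
        · linarith [b.2]
        · intro h35
          have h7 : ¬ 7 ∣ m := by
            rintro ⟨s, rfl⟩
            exact h35 ⟨s, by ring⟩
          have b' := cc_coprime7 hm0 hm2 hm3 hm5 h7
          linarith
    · have g5 : d / Nat.gcd d 5 = d := by rw [gcd_not_dvd p5 h5, Nat.div_one]
      unfold RR
      rw [g3, g5]
      have b := cc_upper h0 h1 h2 h3 h5
      constructor
      · linarith
      · intro _; linarith

theorem RR_prime {p : ℕ} (hp : p.Prime) (h7 : 7 ≤ p) : RR p ≤ 0 := by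
  have h3 : ¬ 3 ∣ p := by
    intro h
    rcases (Nat.dvd_prime hp).1 h with h | h <;> omega
  have h5 : ¬ 5 ∣ p := by
    intro h
    rcases (Nat.dvd_prime hp).1 h with h | h <;> omega
  unfold RR
  rw [gcd_not_dvd Nat.prime_three h3, gcd_not_dvd Nat.prime_five h5, Nat.div_one, cc_prime hp]
  have : (0 : ℝ) < (p : ℝ) - 1 := by
    have : (7 : ℝ) ≤ p := by exact_mod_cast h7
    linarith
  have h : -1 / ((p : ℝ) - 1) ≤ 0 := by
    apply div_nonpos_of_nonpos_of_nonneg <;> linarith
  linarith

theorem RR_five : RR 5 ≤ 0 := by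
  unfold RR
  rw [show Nat.gcd 5 3 = 1 by decide, show Nat.gcd 5 5 = 5 by decide, Nat.div_one,
    show 5 / 5 = 1 by decide, cc_five, cc_one]
  norm_num

theorem RR_three : RR 3 ≤ 0 := by
  unfold RR
  rw [show Nat.gcd 3 3 = 3 by decide, show Nat.gcd 3 5 = 1 by decide, Nat.div_one,
    show 3 / 3 = 1 by decide, cc_three, cc_one]
  norm_num

theorem RR_25 : RR 25 ≤ 0 := by
  unfold RR
  rw [show Nat.gcd 25 3 = 1 by decide, show Nat.gcd 25 5 = 5 by decide, Nat.div_one,
    show 25 / 5 = 5 by decide, cc_five, cc_sq Nat.prime_five (by decide : 5 * 5 ∣ 25)]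
  norm_num

theorem RR_33 : RR 33 ≤ 7 / 10 := by
  unfold RR
  rw [show Nat.gcd 33 3 = 3 by decide, show Nat.gcd 33 5 = 1 by decide, Nat.div_one,
    show 33 / 3 = 11 by decide, show (33 : ℕ) = 3 * 11 by norm_num,
    cc_mul (by norm_num : Nat.Coprime 3 11), cc_three, cc_prime (by norm_num : Nat.Prime 11)]
  norm_num

/-- The bound on the divisors of `4k+1` needed for the certificate. -/
theorem RR_dvd {k : ℕ} (hk : 6 ≤ k) {d : ℕ} (hd : d ∣ 4 * k + 1) (h1 : d ≠ 1) :
    (k : ℝ) * RR d < 2 * k - 7 := by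
  have h0 : d ≠ 0 := by
    rintro rfl
    have := Nat.eq_zero_of_zero_dvd hd
    omega
  have h2 : ¬ 2 ∣ d := by
    intro h
    have := h.trans hd
    omega
  have b := RR_le h0 h1 h2
  have hk0 : (0 : ℝ) < k := by exact_mod_cast (by omega : 0 < k)
  by_cases h19 : 19 ≤ k
  · have : (19 : ℝ) ≤ k := by exact_mod_cast h19
    nlinarith [b.1]
  · have h35 : ¬ 35 ∣ d := by
      intro h
      obtain ⟨s, hs⟩ := h.trans hd
      omega
    have b' := b.2 h35
    by_cases h10 : 10 ≤ k
    · have : (10 : ℝ) ≤ k := by exact_mod_cast h10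
      nlinarith
    · have hk6 : k = 6 ∨ k = 7 ∨ k = 8 ∨ k = 9 := by omega
      rcases hk6 with rfl | rfl | rfl | rfl
      · -- 25
        have hd' : d ∈ Nat.divisors 25 := Nat.mem_divisors.2 ⟨hd, by norm_num⟩
        have hl : Nat.divisors 25 = {1, 5, 25} := by decide
        rw [hl] at hd'
        simp only [Finset.mem_insert, Finset.mem_singleton] at hd'
        rcases hd' with h | h | h
        · exact absurd h h1
        · rw [h]
          have := RR_five
          push_cast
          linarith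
        · rw [h]
          have := RR_25
          push_cast
          linarith
      · -- 29
        have hp : Nat.Prime 29 := by norm_num
        rcases (Nat.dvd_prime hp).1 hd with h | h
        · exact absurd h h1
        · rw [h]
          have := RR_prime hp (by norm_num)
          push_cast
          linarith
      · -- 33
        have hd' : d ∈ Nat.divisors 33 := Nat.mem_divisors.2 ⟨hd, by norm_num⟩
        have hl : Nat.divisors 33 = {1, 3, 11, 33} := by decide
        rw [hl] at hd'
        simp only [Finset.mem_insert, Finset.mem_singleton] at hd'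
        rcases hd' with h | h | h | h
        · exact absurd h h1
        · rw [h]
          have := RR_three
          push_cast
          linarith
        · rw [h]
          have := RR_prime (by norm_num : Nat.Prime 11) (by norm_num)
          push_cast
          linarith
        · rw [h]
          have := RR_33
          push_cast
          linarith
      · -- 37
        have hp : Nat.Prime 37 := by norm_num
        rcases (Nat.dvd_prime hp).1 hd with h | h
        · exact absurd h h1
        · rw [h]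
          have := RR_prime hp (by norm_num)
          push_cast
          linarith

end A8Aux

open A8Aux in
/-- The unit of the certificate A8: for `k ≥ 6` there is a unit `v` with
`19 C_1 + 12 C_2 + 10 C_3 + 2 C_4 + C_5 < 8 k - 28`, `C_l = C(l (2 v))` written in the word of
labels. -/
theorem exists_unit_A8 {k : ℕ} (hk : 6 ≤ k) (S : Finset ℕ) (hS : S ⊆ Finset.Icc 1 (2 * k))
    (hc : S.card = k) : ∃ v : ZMod (4 * k + 1), IsUnit v ∧
      19 * (2 * wcor (LW k S v) (2 * k) 1 + wedge (LW k S v) (2 * k) 1) +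
      12 * (2 * wcor (LW k S v) (2 * k) 2 + wedge (LW k S v) (2 * k) 2) +
      10 * (2 * wcor (LW k S v) (2 * k) 3 + wedge (LW k S v) (2 * k) 3) +
      2 * (2 * wcor (LW k S v) (2 * k) 4 + wedge (LW k S v) (2 * k) 4) +
      (2 * wcor (LW k S v) (2 * k) 5 + wedge (LW k S v) (2 * k) 5) < 8 * (k : ℤ) - 28 := by
  classical
  set c : ℕ → ℝ := fun l => if l = 1 then 19 else if l = 2 then 12 else if l = 3 then 10 else
    if l = 4 then 2 else 1 with hcdef
  -- the largest value of the combination on the divisors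
  have hfin : ∃ M : ℝ, (k : ℝ) * M < 2 * k - 7 ∧ ∀ d, d ∣ 4 * k + 1 → d ≠ 1 → RR d ≤ M := by
    by_cases hne : ((Nat.divisors (4 * k + 1)).filter (fun d => d ≠ 1)).Nonempty
    · obtain ⟨d0, hd0, hmax⟩ := Finset.exists_max_image _ RR hne
      rw [Finset.mem_filter, Nat.mem_divisors] at hd0
      refine ⟨RR d0, RR_dvd hk hd0.1.1 hd0.2, ?_⟩
      intro d hd h1
      exact hmax d (Finset.mem_filter.2 ⟨Nat.mem_divisors.2 ⟨hd, by omega⟩, h1⟩)
    · exfalso
      apply hne
      exact ⟨4 * k + 1, Finset.mem_filter.2 ⟨Nat.mem_divisors.2 ⟨dvd_rfl, by omega⟩, by omega⟩⟩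
  obtain ⟨M, hM1, hM2⟩ := hfin
  have hsum : ∀ F : ℕ → ℝ, ∑ l ∈ Finset.Icc 1 5, c l * F l =
      19 * F 1 + 12 * F 2 + 10 * F 3 + 2 * F 4 + F 5 := by
    intro F
    have e : Finset.Icc 1 5 = {1, 2, 3, 4, 5} := by decide
    rw [e, Finset.sum_insert (by decide), Finset.sum_insert (by decide),
      Finset.sum_insert (by decide), Finset.sum_insert (by decide), Finset.sum_singleton]
    simp only [hcdef]
    norm_num
    ring
  obtain ⟨v, hv, h⟩ := exists_unit_comb S hS hc (Finset.Icc 1 5)
    (fun l hl => by rw [Finset.mem_Icc] at hl; omega) c M (by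
      intro d hd h1
      have h2 : ¬ 2 ∣ d := by
        intro h
        have := h.trans hd
        omega
      have g1 : Nat.gcd d 1 = 1 := Nat.gcd_one_right d
      have g2 : Nat.gcd d 2 = 1 := gcd_not_dvd Nat.prime_two h2
      have g4 : Nat.gcd d 4 = 1 := by
        have : Nat.Coprime d (2 ^ 2) := Nat.Coprime.pow_right 2 g2
        exact this
      have hs := hsum (fun l => (moebius (d / Nat.gcd d l) : ℝ) / Nat.totient (d / Nat.gcd d l))
      rw [hs]
      simp only [g1, g2, g4, Nat.div_one]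
      have h3 := hM2 d hd h1
      unfold RR cc at h3
      linarith)
  refine ⟨v, hv, ?_⟩
  have hs := hsum (fun l => 2 * (wcor (LW k S v) (2 * k) l : ℝ) + (wedge (LW k S v) (2 * k) l : ℝ))
  rw [hs] at h
  have h4 : M * (4 * k) < 8 * (k : ℝ) - 28 := by linarith
  have h5 := h.trans_lt h4
  rw [← Int.cast_lt (R := ℝ)]
  push_cast
  linarith

end Pool.Agent.P45
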