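import Pool.Agent.Lib.P45dba8.Cyc

/-! # Glue data with one thread (the cycles of one type in the classes) -/

set_option autoImplicit false

namespace Pool.Agent.P45

/-- The index function. -/
def ixf (m h : ℕ) (w : ZMod (m * h)) (ci : ZMod h) (v : ZMod (m * h)) : ZMod h :=
  red m h (v - w) * ci - 1

/-- Glue data with one thread. -/
def rowGD (m h : ℕ) (c w : ZMod (m * h)) (ci : ZMod h) (act : ZMod h → Prop)
    (X T : ZMod h → ZMod (m * h)) (M0 : Unit → Bool → ZMod (m * h) → ZMod (m * h) → Prop)
    (rf : Prop) : GD (ZMod (m * h)) Unit h where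
  F := Equiv.addRight c
  idx := ixf m h w ci
  act := fun _ i => act i
  e := fun _ b i => X i + (bif b then T i else 0)
  M0 := M0
  s := ()
  w := w
  rf := rf

section

variable {m h : ℕ} (w c : ZMod (m * h)) (ci : ZMod h) (hci : red m h c * ci = 1)
include hci

theorem ixf_add (v : ZMod (m * h)) : ixf m h w ci (v + c) = ixf m h w ci v + 1 := by
  show red m h (v + c - w) * ci - 1 = red m h (v - w) * ci - 1 + 1
  have : v + c - w = (v - w) + c := by ring
  rw [this, map_add]
  linear_combination hci

omit hci in
theorem ixf_psi (v : ZMod (m * h)) (x : ZMod m) :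
    ixf m h w ci (v + psi m h x) = ixf m h w ci v := by
  show red m h (v + psi m h x - w) * ci - 1 = red m h (v - w) * ci - 1
  have : v + psi m h x - w = (v - w) + psi m h x := by ring
  rw [this, map_add, red_psi, add_zero]

theorem ixf_inj {v v' : ZMod (m * h)} (hv : ixf m h w ci v = ixf m h w ci v') :
    ∃ x, v' = v + psi m h x := by
  have h1 : red m h (v' - v) = 0 := by
    have h2 : red m h (v - w) * ci - 1 = red m h (v' - w) * ci - 1 := hv
    have e : v' - v = (v' - w) - (v - w) := by ring
    rw [e, map_sub]
    linear_combination (-red m h c) * h2 + (red m h (v - w) - red m h (v' - w)) * hci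
  obtain ⟨x, hx⟩ := exists_psi m h h1
  exact ⟨x, by rw [← hx]; ring⟩

omit hci in
theorem ixf_self : ixf m h w ci w = -1 := by
  show red m h (w - w) * ci - 1 = -1
  rw [sub_self, map_zero]; ring

end

/-- The cycle of `psi u'` in one class. -/
theorem row_TS {m h : ℕ} (hm : Odd m) (m3 : 3 ≤ m) (h3 : 3 ≤ h) (w c : ZMod (m * h)) (ci : ZMod h)
    (hci : red m h c * ci = 1) (u' : ZMod m) (hu' : IsUnit u') (X T : ZMod (m * h))
    (hT : T = psi m h u' ∨ T = -psi m h u') :
    TS {v | ixf m h w ci v = ixf m h w ci X} (DE (fun x => x = psi m h u'))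
      (fun (_ : Unit) b => X + (bif b then T else 0)) := by
  have hinj := psi_inj m h (by omega)
  -- first `T = psi u''` with `u'' = ± u'`
  have main : ∀ u'' : ZMod m, IsUnit u'' → (u'' = u' ∨ u'' = -u') →
      TS {v | ixf m h w ci v = ixf m h w ci X} (DE (fun x => x = psi m h u'))
      (fun (_ : Unit) b => X + (bif b then psi m h u'' else 0)) := by
    intro u'' h1 h2
    have hT := cyc_unit hm (by omega) u'' 0 h1
    refine (hT.map (fun x => X + psi m h x) ?_ _ (DE (fun x => x = psi m h u')) ?_ ?_).congr ?_
    · intro a b hab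
      exact hinj (add_left_cancel hab)
    · intro v
      constructor
      · intro hv
        obtain ⟨x, hx⟩ := ixf_inj w c ci hci (v := X) (v' := v) hv.symm
        exact ⟨x, trivial, hx.symm⟩
      · rintro ⟨x, -, rfl⟩
        exact ixf_psi w ci X x
    · rintro a - b - ⟨δ, hδ, hab⟩
      have hδ' : δ = psi m h u' := hδ
      rw [hδ'] at hab
      have e : b = a + u' ∨ a = b + u' := by
        rcases hab with hab | hab
        · left
          apply hinj
          rw [map_add]
          have h5 : X + psi m h b = X + psi m h a + psi m h u' := hab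
          linear_combination h5
        · right
          apply hinj
          rw [map_add]
          have h5 : X + psi m h a = X + psi m h b + psi m h u' := hab
          linear_combination h5
      refine ⟨u'', rfl, ?_⟩
      rcases h2 with rfl | rfl
      · exact e
      · rcases e with e | e
        · right; rw [e]; ring
        · left; rw [e]; ring
    · intro k b
      cases b
      · show X + 0 = X + psi m h (0 + 0)
        rw [add_zero, add_zero, map_zero, add_zero]
      · show X + psi m h u'' = X + psi m h (0 + u'')
        rw [zero_add]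
  rcases hT with rfl | rfl
  · exact main u' hu' (Or.inl rfl)
  · have := main (-u') hu'.neg (Or.inr rfl)
    rwa [map_neg] at this

/-- A system on the class of `X` with the hole `{X, X + T}`. -/
def RowSys (m h : ℕ) (w : ZMod (m * h)) (ci : ZMod h) (u : ZMod (m * h)) (X T : ZMod (m * h))
    (M : Unit → Bool → ZMod (m * h) → ZMod (m * h) → Prop) : Prop :=
  (∀ k b u v, M k b u v → M k b v u) ∧
    (∀ k b u v, M k b u v → u ∈ {v | ixf m h w ci v = ixf m h w ci X} ∧
      v ∈ {v | ixf m h w ci v = ixf m h w ci X}) ∧
    (∀ k b u v v', M k b u v → M k b u v' → v = v') ∧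
    (∀ k b v, ¬ M k b (X + (bif b then T else 0)) v) ∧
    (∀ a ∈ {v | ixf m h w ci v = ixf m h w ci X}, ∀ v ∈ {v | ixf m h w ci v = ixf m h w ci X},
      DE (fun x => x = u) a v →
      (∃ _ : Unit, (a = X + (bif false then T else 0) ∧ v = X + (bif true then T else 0)) ∨
        (a = X + (bif true then T else 0) ∧ v = X + (bif false then T else 0))) ∨
        ∃ k b, M k b a v)

/-- Glue data from given matchings inside the classes. -/
theorem rowGD_ok' {m h : ℕ} (hh : Odd h) (h3 : 3 ≤ h)
    (c w : ZMod (m * h)) (ci : ZMod h) (hci : red m h c * ci = 1) (u' : ZMod m)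
    (act : ZMod h → Prop) (X T : ZMod h → ZMod (m * h)) (rf : Prop)
    (hX : ∀ i, ixf m h w ci (X i) = i) (hT : ∀ i, T i = psi m h u' ∨ T i = -psi m h u')
    (hact : ∀ i, act i → ¬ act (i + 1)) (hXa : ∀ i, act i → X (i + 1) = X i + c)
    (hTa : ∀ i, act i → T (i + 1) = T i)
    (hsp : (rf ∧ (act (-2) → X (-1) = w) ∧ (act 0 → X 0 = w + c) ∧ (act (-1) → X (-1) = w)) ∨
      (¬ act (-2) ∧ ¬ act (-1) ∧ ¬ act 0))
    (M : ZMod h → Unit → Bool → ZMod (m * h) → ZMod (m * h) → Prop)
    (hMs : ∀ i, RowSys m h w ci (psi m h u') (X i) (T i) (M i)) :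
    (rowGD m h c w ci act X T (fun k b u v => M (ixf m h w ci u) k b u v) rf).Ok ∧
      ∀ u v, (v = u + psi m h u' ∨ u = v + psi m h u') →
        (∃ b, u = X (ixf m h w ci u) + (bif b then T (ixf m h w ci u) else 0) ∧
          v = X (ixf m h w ci u) + (bif !b then T (ixf m h w ci u) else 0)) ∨
        ∃ b, M (ixf m h w ci u) () b u v := by
  have m1 := fun i => (hMs i).1
  have m2 := fun i => (hMs i).2.1
  have m3' := fun i => (hMs i).2.2.1
  have m4 := fun i => (hMs i).2.2.2.1
  have m5 := fun i => (hMs i).2.2.2.2
  refine ⟨?_, ?_⟩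
  · exact
      { odd := hh
        three := h3
        idxF := fun v => ixf_add w c ci hci v
        idxe := by
          intro k b i
          show ixf m h w ci (X i + (bif b then T i else 0)) = i
          cases b
          · show ixf m h w ci (X i + 0) = i
            rw [add_zero]; exact hX i
          · show ixf m h w ci (X i + T i) = i
            rcases hT i with h2 | h2
            · rw [h2, ixf_psi]; exact hX i
            · rw [h2, ← map_neg, ixf_psi]; exact hX i
        eF := by
          intro k b i hi
          show X (i + 1) + (bif b then T (i + 1) else 0) = X i + (bif b then T i else 0) + c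
          rw [hXa i hi, hTa i hi]; ring
        act1 := fun _ i hi => hact i hi
        disj := fun k l i hkl => absurd (Subsingleton.elim k l) hkl
        sym := by
          intro k b u v h2
          have h3 : M (ixf m h w ci u) k b u v := h2
          have h4 := m2 _ _ _ _ _ h3
          have h5 : ixf m h w ci v = ixf m h w ci u := by
            have := h4.2
            have h6 : ixf m h w ci v = ixf m h w ci (X (ixf m h w ci u)) := this
            rw [hX] at h6
            exact h6
          show M (ixf m h w ci v) k b v u
          rw [h5]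
          exact m1 _ _ _ _ _ h3
        func := fun k b u v v' h2 h3 => m3' _ _ _ _ _ _ h2 h3
        inn := by
          intro k b u v h2
          have h3 : M (ixf m h w ci u) k b u v := h2
          have h4 := (m2 _ _ _ _ _ h3).2
          have h6 : ixf m h w ci v = ixf m h w ci (X (ixf m h w ci u)) := h4
          rw [hX] at h6
          exact h6.symm
        miss := by
          intro k b i v h2
          have h5 : ixf m h w ci (X i + (bif b then T i else 0)) = i := by
            cases b
            · show ixf m h w ci (X i + 0) = i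
              rw [add_zero]; exact hX i
            · show ixf m h w ci (X i + T i) = i
              rcases hT i with h2 | h2
              · rw [h2, ixf_psi]; exact hX i
              · rw [h2, ← map_neg, ixf_psi]; exact hX i
          have h3 : M (ixf m h w ci (X i + (bif b then T i else 0))) k b
            (X i + (bif b then T i else 0)) v := h2
          rw [h5] at h3
          exact m4 _ _ _ _ h3
        idxw := ixf_self w ci
        special := by
          rcases hsp with ⟨g0, g1, g2, g3⟩ | hsp
          · left
            refine ⟨g0, ?_, ?_, ?_, fun l b hl => absurd (Subsingleton.elim _ _) hl⟩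
            · intro ha
              show X (-1) + 0 = w
              rw [add_zero]; exact g1 ha
            · intro ha
              show X 0 + 0 = w + c
              rw [add_zero]; exact g2 ha
            · intro ha
              show X (-1) + 0 = w
              rw [add_zero]; exact g3 ha
          · exact Or.inr hsp }
  · intro u v huv
    have hu : ixf m h w ci u = ixf m h w ci (X (ixf m h w ci u)) := (hX _).symm
    have hv : ixf m h w ci v = ixf m h w ci (X (ixf m h w ci u)) := by
      rw [hX]
      rcases huv with rfl | rfl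
      · exact ixf_psi w ci u u'
      · exact (ixf_psi w ci v u').symm
    rcases m5 (ixf m h w ci u) u hu v hv ⟨_, rfl, huv⟩ with ⟨k, ⟨h2, h3⟩ | ⟨h2, h3⟩⟩ | ⟨k, b, h2⟩
    · exact Or.inl ⟨false, h2, h3⟩
    · exact Or.inl ⟨true, h2, h3⟩
    · exact Or.inr ⟨b, h2⟩

/-- The matchings inside the classes exist. -/
theorem rowGD_ok {m h : ℕ} (hm : Odd m) (m3 : 3 ≤ m) (hh : Odd h) (h3 : 3 ≤ h)
    (c w : ZMod (m * h)) (ci : ZMod h) (hci : red m h c * ci = 1) (u' : ZMod m)
    (hu' : IsUnit u') (act : ZMod h → Prop) (X T : ZMod h → ZMod (m * h)) (rf : Prop)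
    (hX : ∀ i, ixf m h w ci (X i) = i) (hT : ∀ i, T i = psi m h u' ∨ T i = -psi m h u')
    (hact : ∀ i, act i → ¬ act (i + 1)) (hXa : ∀ i, act i → X (i + 1) = X i + c)
    (hTa : ∀ i, act i → T (i + 1) = T i)
    (hsp : (rf ∧ (act (-2) → X (-1) = w) ∧ (act 0 → X 0 = w + c) ∧ (act (-1) → X (-1) = w)) ∨
      (¬ act (-2) ∧ ¬ act (-1) ∧ ¬ act 0)) :
    ∃ M0, (rowGD m h c w ci act X T M0 rf).Ok ∧
      ∀ u v, (v = u + psi m h u' ∨ u = v + psi m h u') →
        (∃ b, u = X (ixf m h w ci u) + (bif b then T (ixf m h w ci u) else 0) ∧
          v = X (ixf m h w ci u) + (bif !b then T (ixf m h w ci u) else 0)) ∨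
        ∃ b, M0 () b u v := by
  have h1 : ∀ i, ∃ M, RowSys m h w ci (psi m h u') (X i) (T i) M :=
    fun i => row_TS hm m3 h3 w c ci hci u' hu' (X i) (T i) (hT i)
  choose M hMs using h1
  exact ⟨_, rowGD_ok' hh h3 c w ci hci u' act X T rf hX hT hact hXa hTa hsp M hMs⟩

end Pool.Agent.P45
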