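import Pool.Agent.Lib.P45dba8.Modif
import Pool.Agent.Lib.P45dba8.Row

/-! # MP_45dba8: adding one single type to a colour system by switching squares -/

set_option autoImplicit false

namespace Pool.Agent.P45

/-- ADD LEMMA. `M` is a colour system for the edges `E`; `psi a` is a single type with the hole
`p, p + psi a`. The classes modulo `h` other than the class of `p` are paired by the steps `c i`,
and the parallel edges `q i, q i + c i` and `q i + psi a, q i + c i + psi a` have the same colour.
Then the type `psi a` can be added. -/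
theorem TS.addOne {m h : ℕ} (hm : Odd m) (m3 : 3 ≤ m) (h3 : 3 ≤ h) {Θ ι : Type*}
    {E : ZMod (m * h) → ZMod (m * h) → Prop} {e : Θ → Bool → ZMod (m * h)}
    (M : Θ → Bool → ZMod (m * h) → ZMod (m * h) → Prop)
    (h1 : ∀ k b u v, M k b u v → M k b v u)
    (h2 : ∀ k b u v v', M k b u v → M k b u v' → v = v')
    (h4 : ∀ k b v, ¬ M k b (e k b) v)
    (h5 : ∀ u v, E u v →
      (∃ k, (u = e k false ∧ v = e k true) ∨ (u = e k true ∧ v = e k false)) ∨ ∃ k b, M k b u v)
    (a : ZMod m) (ha : IsUnit a) (p : ZMod (m * h))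
    (q c : ι → ZMod (m * h)) (θ : ι → Θ) (β : ι → Bool)
    (hq : ∀ i, M (θ i) (β i) (q i) (q i + c i))
    (hq' : ∀ i, M (θ i) (β i) (q i + psi m h a) (q i + c i + psi m h a))
    (hinj : ∀ i i' b b', red m h (q i + (bif b then c i else 0)) =
      red m h (q i' + (bif b' then c i' else 0)) → i = i' ∧ b = b')
    (hp : ∀ i b, red m h (q i + (bif b then c i else 0)) ≠ red m h p)
    (hall : ∀ r, r ≠ red m h p → ∃ i b, red m h (q i + (bif b then c i else 0)) = r) :
    TS Set.univ (fun u v => E u v ∨ DE (fun x => x = psi m h a) u v)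
      (Sum.elim e (fun (_ : Unit) (b : Bool) => p + (bif b then psi m h a else 0))) := by
  classical
  have hinjp := psi_inj m h (by omega)
  have hF : Fact (1 < m) := ⟨by omega⟩
  obtain ⟨A, hA⟩ : ∃ A, A = psi m h a := ⟨_, rfl⟩
  rw [← hA] at hq' ⊢
  have A0 : A ≠ 0 := by
    rw [hA]
    intro h'
    exact ha.ne_zero (hinjp (by rw [map_zero]; exact h'))
  have redA : red m h A = 0 := by rw [hA]; exact red_psi m h a
  -- the points of the squares
  obtain ⟨P, hP⟩ : ∃ P : ι → Bool → Bool → ZMod (m * h), ∀ i b1 b2,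
      P i b1 b2 = q i + (bif b1 then c i else 0) + (bif b2 then A else 0) := ⟨_, fun _ _ _ => rfl⟩
  have redP : ∀ i b1 b2, red m h (P i b1 b2) = red m h (q i + (bif b1 then c i else 0)) := by
    intro i b1 b2
    rw [hP]
    cases b2
    · rw [cond_false, add_zero]
    · rw [cond_true, map_add _ _ A, redA, add_zero]
  have Pinj : ∀ i i' b1 b1' b2 b2', P i b1 b2 = P i' b1' b2' → i = i' ∧ b1 = b1' ∧ b2 = b2' := by
    intro i i' b1 b1' b2 b2' hh
    obtain ⟨e1, e2⟩ := hinj i i' b1 b1' (by rw [← redP i b1 b2, ← redP i' b1' b2', hh])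
    subst e1
    subst e2
    refine ⟨rfl, rfl, ?_⟩
    rw [hP, hP] at hh
    have h6 := add_left_cancel hh
    cases b2 <;> cases b2'
    · rfl
    · exact absurd h6.symm A0
    · exact absurd h6 A0
    · rfl
  have PM : ∀ i b1 b2, M (θ i) (β i) (P i b1 b2) (P i (!b1) b2) := by
    intro i b1 b2
    have key : ∀ b2, M (θ i) (β i) (P i false b2) (P i true b2) := by
      intro b2
      rw [hP, hP]
      cases b2
      · simpa using hq i
      · simpa using hq' i
    cases b1
    · exact key b2
    · exact h1 _ _ _ _ (key b2)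
  -- base points of the classes
  have hX : ∀ r, ∃ x, red m h x = r ∧ (r = red m h p → x = p) ∧
      (r ≠ red m h p → ∃ i b, x = P i b false) := by
    intro r
    by_cases hr : r = red m h p
    · exact ⟨p, hr.symm, fun _ => rfl, fun h' => absurd hr h'⟩
    · obtain ⟨i, b, hib⟩ := hall r hr
      exact ⟨P i b false, by rw [redP, hib], fun h' => absurd h' hr, fun _ => ⟨i, b, rfl⟩⟩
  choose X X1 X2 X3 using hX
  have XP : ∀ i b, X (red m h (P i b false)) = P i b false := by
    intro i b
    have hne : red m h (P i b false) ≠ red m h p := by rw [redP]; exact hp i b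
    obtain ⟨i', b', h6⟩ := X3 _ hne
    have h7 : red m h (P i' b' false) = red m h (P i b false) := by rw [← h6, X1]
    rw [redP, redP] at h7
    obtain ⟨e1, e2⟩ := hinj _ _ _ _ h7
    rw [h6, e1, e2]
  have Xp : X (red m h p) = p := X2 _ rfl
  have key : ∀ r, TS {v | red m h v = r} (DE (fun x => x = A))
      (fun (_ : Unit) b => X r + (bif b then A else 0)) := by
    intro r
    have h6 := row_TS hm m3 h3 (0 : ZMod (m * h)) 1 1 (by rw [map_one, mul_one]) a ha (X r) A
      (Or.inl hA)
    have e : {v | ixf m h 0 1 v = ixf m h 0 1 (X r)} = {v | red m h v = r} := by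
      ext v
      show red m h (v - 0) * 1 - 1 = red m h (X r - 0) * 1 - 1 ↔ red m h v = r
      rw [sub_zero, sub_zero, mul_one, mul_one, X1, sub_left_inj]
    rw [e, ← hA] at h6
    exact h6
  choose N n1 n2 n3 n4 n5 using key
  -- the new classes
  obtain ⟨S, hS⟩ : ∃ S : Θ → Bool → ZMod (m * h) → Prop, ∀ k b x, S k b x ↔
      ∃ i, θ i = k ∧ β i = b ∧ ∃ b1 b2, x = P i b1 b2 := ⟨_, fun _ _ _ => Iff.rfl⟩
  obtain ⟨Ad, hAd⟩ : ∃ Ad : Θ → Bool → ZMod (m * h) → ZMod (m * h) → Prop, ∀ k b x y,
      Ad k b x y ↔ ∃ i, θ i = k ∧ β i = b ∧ ∃ b1 b2, x = P i b1 b2 ∧ y = P i b1 (!b2) :=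
    ⟨_, fun _ _ _ _ => Iff.rfl⟩
  have mAd : ∀ k b, Mat (Ad k b) := by
    intro k b
    constructor
    · intro u v hh
      rw [hAd] at hh ⊢
      obtain ⟨i, i1, i2, b1, b2, i3, i4⟩ := hh
      exact ⟨i, i1, i2, b1, !b2, i4, by rw [Bool.not_not]; exact i3⟩
    · intro u v v' hh hh'
      rw [hAd] at hh hh'
      obtain ⟨i, i1, i2, b1, b2, i3, i4⟩ := hh
      obtain ⟨i', i1', i2', b1', b2', i3', i4'⟩ := hh'
      obtain ⟨e1, e2, e3⟩ := Pinj _ _ _ _ _ _ (i3.symm.trans i3')
      rw [i4, i4', e1, e2, e3]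
  have mM : ∀ k b, Mat (M k b) := fun k b => ⟨h1 k b, h2 k b⟩
  have SAd : ∀ k b u v, Ad k b u v → S k b u := by
    intro k b u v hh
    rw [hAd] at hh
    rw [hS]
    obtain ⟨i, i1, i2, b1, b2, i3, i4⟩ := hh
    exact ⟨i, i1, i2, b1, b2, i3⟩
  have mM' : ∀ k b, Mat (modif (M k b) (S k b) (Ad k b)) := fun k b =>
    (mM k b).modif (mAd k b) (SAd k b)
  have NPno : ∀ i b1 b v, ¬ N (red m h (P i b1 b)) () b (P i b1 b) v := by
    intro i b1 b v
    have h6 : ¬ N (red m h (P i b1 b)) () b (X (red m h (P i b1 b)) + (bif b then A else 0)) v :=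
      n4 (red m h (P i b1 b)) () b v
    have e7 : red m h (P i b1 b) = red m h (P i b1 false) := by rw [redP, redP]
    have e8 : X (red m h (P i b1 b)) + (bif b then A else 0) = P i b1 b := by
      rw [e7, XP, hP, hP, cond_false, add_zero]
    rw [e8] at h6
    exact h6
  refine ⟨fun k b u v => Sum.elim (fun k => modif (M k b) (S k b) (Ad k b) u v)
    (fun _ => N (red m h u) () b u v ∨ ∃ i b1, u = P i b1 b ∧ v = P i (!b1) b) k,
    ?_, fun _ _ _ _ _ => ⟨trivial, trivial⟩, ?_, ?_, ?_⟩
  · rintro (k | k) b u v hh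
    · exact (mM' k b).1 _ _ hh
    · rcases hh with hh | ⟨i, b1, i1, i2⟩
      · left
        obtain ⟨k1, k2⟩ := n2 _ _ _ _ _ hh
        have k2' : red m h v = red m h u := k2
        rw [k2']
        exact n1 _ _ _ _ _ hh
      · right
        exact ⟨i, !b1, i2, by rw [Bool.not_not]; exact i1⟩
  · rintro (k | k) b u v v' hh hh'
    · exact (mM' k b).2 _ _ _ hh hh'
    · rcases hh with hh | ⟨i, b1, i1, i2⟩
      · rcases hh' with hh' | ⟨i', b1', i1', i2'⟩
        · exact n3 _ _ _ _ _ _ hh hh'
        · exfalso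
          rw [i1'] at hh
          exact NPno _ _ _ _ hh
      · rcases hh' with hh' | ⟨i', b1', i1', i2'⟩
        · exfalso
          rw [i1] at hh'
          exact NPno _ _ _ _ hh'
        · obtain ⟨e1, e2, -⟩ := Pinj _ _ _ _ _ _ (i1.symm.trans i1')
          rw [i2, i2', e1, e2]
  · rintro (k | k) b v
    · have hnS : ¬ S k b (e k b) := by
        rw [hS]
        rintro ⟨i, i1, i2, b1, b2, i3⟩
        have h6 := PM i b1 b2
        rw [i1, i2, ← i3] at h6
        exact h4 _ _ _ h6
      refine modif_miss_out (fun v => h4 k b v) (fun v hh => hnS (SAd _ _ _ _ hh)) v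
    · rintro (hh | ⟨i, b1, i1, i2⟩)
      · have e7 : red m h (p + (bif b then A else 0)) = red m h p := by
          cases b
          · rw [cond_false, add_zero]
          · rw [cond_true, map_add, redA, add_zero]
        have h6 : ¬ N (red m h p) () b (X (red m h p) + (bif b then A else 0)) v :=
          n4 (red m h p) () b v
        rw [Xp] at h6
        have hh' : N (red m h (p + (bif b then A else 0))) () b (p + (bif b then A else 0)) v := hh
        rw [e7] at hh'
        exact h6 hh'
      · have e7 : red m h (p + (bif b then A else 0)) = red m h p := by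
          cases b
          · rw [cond_false, add_zero]
          · rw [cond_true, map_add, redA, add_zero]
        have i1' : p + (bif b then A else 0) = P i b1 b := i1
        rw [i1', redP] at e7
        exact hp i b1 e7
  · rintro u - v - (hh | hh)
    · rcases h5 u v hh with ⟨k, hk⟩ | ⟨k, b, hk⟩
      · exact Or.inl ⟨Sum.inl k, hk⟩
      · right
        have aux : ∀ u v, M k b u v → S k b u → ∃ b2, ∃ i b1, u = P i b1 b2 ∧
            v = P i (!b1) b2 := by
          intro u v hm hs
          rw [hS] at hs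
          obtain ⟨i, i1, i2, b1, b2, i3⟩ := hs
          refine ⟨b2, i, b1, i3, ?_⟩
          have h6 := PM i b1 b2
          rw [i1, i2, ← i3] at h6
          exact h2 _ _ _ _ _ hm h6
        rcases modif_cov (mM k b) (S := S k b) (Ad := Ad k b) hk with h6 | ⟨h6, h7⟩ | ⟨h6, h7⟩
        · exact ⟨Sum.inl k, b, h6⟩
        · obtain ⟨b2, i, b1, k1, k2⟩ := aux u v h7 h6
          exact ⟨Sum.inr (), b2, Or.inr ⟨i, b1, k1, k2⟩⟩
        · obtain ⟨b2, i, b1, k1, k2⟩ := aux v u h7 h6
          refine ⟨Sum.inr (), b2, Or.inr ⟨i, !b1, k2, by rw [Bool.not_not]; exact k1⟩⟩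
    · have hr : red m h v = red m h u := by
        obtain ⟨δ, hδ, h6 | h6⟩ := hh
        · have hδ' : δ = A := hδ
          rw [h6, map_add, hδ', redA, add_zero]
        · have hδ' : δ = A := hδ
          rw [h6, map_add, hδ', redA, add_zero]
      have fin : ∀ b2, u = X (red m h u) + (bif b2 then A else 0) →
          v = X (red m h u) + (bif !b2 then A else 0) →
          (∃ k, (u = Sum.elim e (fun (_ : Unit) (b : Bool) => p + (bif b then A else 0)) k false ∧
            v = Sum.elim e (fun (_ : Unit) (b : Bool) => p + (bif b then A else 0)) k true) ∨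
            (u = Sum.elim e (fun (_ : Unit) (b : Bool) => p + (bif b then A else 0)) k true ∧
            v = Sum.elim e (fun (_ : Unit) (b : Bool) => p + (bif b then A else 0)) k false)) ∨
          ∃ k b, Sum.elim (fun k => modif (M k b) (S k b) (Ad k b) u v)
            (fun (_ : Unit) => N (red m h u) () b u v ∨ ∃ i b1, u = P i b1 b ∧ v = P i (!b1) b)
            k := by
        intro b2 hu hv
        by_cases hrp : red m h u = red m h p
        · left
          refine ⟨Sum.inr (), ?_⟩
          rw [hrp, Xp] at hu hv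
          cases b2
          · exact Or.inl ⟨hu, hv⟩
          · exact Or.inr ⟨hu, hv⟩
        · right
          obtain ⟨i, b1, h6⟩ := X3 _ hrp
          refine ⟨Sum.inl (θ i), β i, Or.inr ?_⟩
          rw [hAd]
          refine ⟨i, rfl, rfl, b1, b2, ?_, ?_⟩
          · rw [hu, h6, hP, hP, cond_false, add_zero]
          · rw [hv, h6, hP, hP, cond_false, add_zero]
      rcases n5 (red m h u) u rfl v hr hh with ⟨k, hk | hk⟩ | ⟨k, b, hk⟩
      · exact fin false hk.1 hk.2
      · exact fin true hk.1 hk.2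
      · exact Or.inr ⟨Sum.inr (), b, Or.inl hk⟩

end Pool.Agent.P45
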