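import Pool.Agent.Lib.P45dba8.Modif

/-! # Local changes for: base type doubled, carrier type unused -/

set_option autoImplicit false

namespace Pool.Agent.P45

variable {V : Type*}

/-- Assembling a colour system with two holes `{p, p1}`, `{w, q}` from four matchings. -/
theorem TS_four (E A B R S : V → V → Prop) (hA : Mat A) (hB : Mat B) (hR : Mat R) (hS : Mat S)
    (p p1 w q : V) (mA : ∀ v, ¬ A p v) (mB : ∀ v, ¬ B p1 v) (mR : ∀ v, ¬ R w v)
    (mS : ∀ v, ¬ S q v)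
    (cov : ∀ u v, E u v → pr p p1 u v ∨ pr w q u v ∨ A u v ∨ B u v ∨ R u v ∨ S u v) :
    TS Set.univ E (fun (k b : Bool) =>
      bif k then (bif b then q else w) else (bif b then p1 else p)) := by
  refine ⟨fun k b => bif k then (bif b then S else R) else (bif b then B else A),
    ?_, fun _ _ _ _ _ => ⟨trivial, trivial⟩, ?_, ?_, ?_⟩
  · intro k b
    cases k <;> cases b
    exacts [hA.1, hB.1, hR.1, hS.1]
  · intro k b
    cases k <;> cases b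
    exacts [hA.2, hB.2, hR.2, hS.2]
  · intro k b
    cases k <;> cases b
    exacts [mA, mB, mR, mS]
  · intro u _ v _ huv
    rcases cov u v huv with h | h | h | h | h | h
    · exact Or.inl ⟨false, h⟩
    · exact Or.inl ⟨true, h⟩
    · exact Or.inr ⟨false, false, h⟩
    · exact Or.inr ⟨false, true, h⟩
    · exact Or.inr ⟨true, false, h⟩
    · exact Or.inr ⟨true, true, h⟩

/-- Non-adjacent case. -/
theorem l0_abs (E A B R S : V → V → Prop) (hA : Mat A) (hB : Mat B) (hR : Mat R) (hS : Mat S)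
    (p p1 w q w1 : V) (mA : ∀ v, ¬ A p v) (mB : ∀ v, ¬ B p1 v) (mR : ∀ v, ¬ R w v)
    (mS : ∀ v, ¬ S w1 v) (S1 : S w q) (d1 : w ≠ w1) (d2 : q ≠ w1) (d3 : w ≠ q)
    (cov : ∀ u v, E u v → pr w w1 u v ∨ pr p p1 u v ∨ A u v ∨ B u v ∨ R u v ∨ S u v) :
    TS Set.univ E (fun (k b : Bool) =>
      bif k then (bif b then q else w) else (bif b then p1 else p)) := by
  refine TS_four E A B R (modif S (fun x => x = w ∨ x = q ∨ x = w1) (pr w w1)) hA hB hR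
    (hS.modif (Mat.pr1 d1) ?_) p p1 w q mA mB mR ?_ ?_
  · rintro u v (⟨rfl, _⟩ | ⟨rfl, _⟩) <;> simp
  · apply modif_miss_in (by simp)
    rintro v (⟨h, _⟩ | ⟨h, _⟩)
    · exact d3 h.symm
    · exact d2 h
  · intro u v huv
    rcases cov u v huv with h | h | h | h | h | h
    · exact Or.inr (Or.inr (Or.inr (Or.inr (Or.inr (Or.inr h)))))
    · exact Or.inl h
    · exact Or.inr (Or.inr (Or.inl h))
    · exact Or.inr (Or.inr (Or.inr (Or.inl h)))
    · exact Or.inr (Or.inr (Or.inr (Or.inr (Or.inl h))))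
    · have key : ∀ u v, (u = w ∨ u = q ∨ u = w1) → S u v → pr w q u v := by
        rintro u v (rfl | rfl | rfl) h
        · rw [hS.2 _ _ _ h S1]; exact pr_self _ _
        · rw [hS.2 _ _ _ h (hS.1 _ _ S1)]; exact pr_self' _ _
        · exact absurd h (mS v)
      rcases modif_cov hS (S := fun x => x = w ∨ x = q ∨ x = w1) (Ad := pr w w1) h with
        h1 | ⟨h1, h2⟩ | ⟨h1, h2⟩
      · exact Or.inr (Or.inr (Or.inr (Or.inr (Or.inr h1))))
      · exact Or.inr (Or.inl (key u v h1 h2))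
      · exact Or.inr (Or.inl (pr_symm (key v u h1 h2)))

/-- Adjacent case. -/
theorem l0adj_abs (E K1 K0 R S : V → V → Prop) (hK1 : Mat K1) (hK0 : Mat K0) (hR : Mat R)
    (hS : Mat S) (w q q1 x0 y0 x y x1 x2 : V)
    (k1y : ∀ v, ¬ K1 y v) (k1q : ∀ v, ¬ K1 q v) (k1y0 : ∀ v, ¬ K1 y0 v) (k0x : ∀ v, ¬ K0 x v)
    (rw' : ∀ v, ¬ R w v) (sx0 : ∀ v, ¬ S x0 v)
    (s1 : S x x1) (s2 : S y q) (s3 : S x2 q1) (t1 : K0 x1 x2) (t2 : K0 q q1)
    (hy0 : y0 ≠ y) (hy0q : y0 ≠ q)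
    (dxy : x ≠ y) (dxx1 : x ≠ x1) (dxq : x ≠ q) (dxx2 : x ≠ x2) (dxq1 : x ≠ q1)
    (dyx1 : y ≠ x1) (dyq : y ≠ q) (dyx2 : y ≠ x2) (dyq1 : y ≠ q1)
    (dx1q : x1 ≠ q) (dx1x2 : x1 ≠ x2) (dx1q1 : x1 ≠ q1) (dqx2 : q ≠ x2) (dqq1 : q ≠ q1)
    (dx2q1 : x2 ≠ q1)
    (cov : ∀ u v, E u v → pr w q u v ∨ pr x0 y0 u v ∨ pr x y u v ∨ K1 u v ∨ K0 u v ∨ R u v ∨
      S u v) :
    TS Set.univ E (fun (k b : Bool) =>
      bif k then (bif b then q else w) else (bif b then y0 else x0)) := by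
  have hx0 : ∀ a z, S a z → x0 ≠ a := by
    rintro a z h rfl
    exact sx0 _ h
  refine TS_four E
    (modif S (fun z => z = x ∨ z = x1 ∨ z = y ∨ z = q ∨ z = x2 ∨ z = q1)
      (fun u v => pr x y u v ∨ pr x1 x2 u v ∨ pr q q1 u v))
    (modif K1 (fun z => z = y ∨ z = q) (pr y q))
    R
    (modif K0 (fun z => z = x1 ∨ z = x2 ∨ z = q ∨ z = q1 ∨ z = x)
      (fun u v => pr x x1 u v ∨ pr x2 q1 u v))
    (hS.modif (Mat.pr3 dxy dx1x2 dqq1 dxx1 dxx2 dyx1 dyx2 dxq dxq1 dyq dyq1 dx1q dx1q1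
      dqx2.symm dx2q1) ?_)
    (hK1.modif (Mat.pr1 dyq) ?_) hR
    (hK0.modif (Mat.pr2 dxx1 dx2q1 dxx2 dxq1 dx1x2 dx1q1) ?_)
    x0 y0 w q ?_ ?_ rw' ?_ ?_
  · rintro u v ((⟨rfl, _⟩ | ⟨rfl, _⟩) | (⟨rfl, _⟩ | ⟨rfl, _⟩) | (⟨rfl, _⟩ | ⟨rfl, _⟩)) <;> simp
  · rintro u v (⟨rfl, _⟩ | ⟨rfl, _⟩) <;> simp
  · rintro u v ((⟨rfl, _⟩ | ⟨rfl, _⟩) | (⟨rfl, _⟩ | ⟨rfl, _⟩)) <;> simp
  · apply modif_miss_out sx0
    rintro v ((⟨h, _⟩ | ⟨h, _⟩) | (⟨h, _⟩ | ⟨h, _⟩) | (⟨h, _⟩ | ⟨h, _⟩))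
    · exact hx0 _ _ s1 h
    · exact hx0 _ _ s2 h
    · exact hx0 _ _ (hS.1 _ _ s1) h
    · exact hx0 _ _ s3 h
    · exact hx0 _ _ (hS.1 _ _ s2) h
    · exact hx0 _ _ (hS.1 _ _ s3) h
  · apply modif_miss_out k1y0
    rintro v (⟨h, _⟩ | ⟨h, _⟩)
    · exact hy0 h
    · exact hy0q h
  · apply modif_miss_in (by simp)
    rintro v ((⟨h, _⟩ | ⟨h, _⟩) | (⟨h, _⟩ | ⟨h, _⟩))
    · exact dxq h.symm
    · exact dx1q h.symm
    · exact dqx2 h
    · exact dqq1 h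
  · intro u v huv
    rcases cov u v huv with h | h | h | h | h | h | h
    · exact Or.inr (Or.inl h)
    · exact Or.inl h
    · exact Or.inr (Or.inr (Or.inl (Or.inr (Or.inl h))))
    · -- K1
      rcases modif_cov hK1 (S := fun z => z = y ∨ z = q) (Ad := pr y q) h with
        h1 | ⟨h1, h2⟩ | ⟨h1, h2⟩
      · exact Or.inr (Or.inr (Or.inr (Or.inl h1)))
      · exfalso
        rcases h1 with rfl | rfl
        · exact k1y _ h2
        · exact k1q _ h2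
      · exfalso
        rcases h1 with rfl | rfl
        · exact k1y _ h2
        · exact k1q _ h2
    · -- K0
      have key : ∀ u v, (u = x1 ∨ u = x2 ∨ u = q ∨ u = q1 ∨ u = x) → K0 u v →
          pr x1 x2 u v ∨ pr q q1 u v := by
        rintro u v (rfl | rfl | rfl | rfl | rfl) h
        · rw [hK0.2 _ _ _ h t1]; exact Or.inl (pr_self _ _)
        · rw [hK0.2 _ _ _ h (hK0.1 _ _ t1)]; exact Or.inl (pr_self' _ _)
        · rw [hK0.2 _ _ _ h t2]; exact Or.inr (pr_self _ _)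
        · rw [hK0.2 _ _ _ h (hK0.1 _ _ t2)]; exact Or.inr (pr_self' _ _)
        · exact absurd h (k0x v)
      rcases modif_cov hK0 (S := fun z => z = x1 ∨ z = x2 ∨ z = q ∨ z = q1 ∨ z = x)
        (Ad := fun u v => pr x x1 u v ∨ pr x2 q1 u v) h with h1 | ⟨h1, h2⟩ | ⟨h1, h2⟩
      · exact Or.inr (Or.inr (Or.inr (Or.inr (Or.inr h1))))
      · exact Or.inr (Or.inr (Or.inl (Or.inr (Or.inr (key u v h1 h2)))))
      · exact Or.inr (Or.inr (Or.inl (Or.inr (Or.inr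
          ((key v u h1 h2).imp pr_symm pr_symm)))))
    · exact Or.inr (Or.inr (Or.inr (Or.inr (Or.inl h))))
    · -- S
      have key : ∀ u v, (u = x ∨ u = x1 ∨ u = y ∨ u = q ∨ u = x2 ∨ u = q1) → S u v →
          pr x x1 u v ∨ pr y q u v ∨ pr x2 q1 u v := by
        rintro u v (rfl | rfl | rfl | rfl | rfl | rfl) h
        · rw [hS.2 _ _ _ h s1]; exact Or.inl (pr_self _ _)
        · rw [hS.2 _ _ _ h (hS.1 _ _ s1)]; exact Or.inl (pr_self' _ _)
        · rw [hS.2 _ _ _ h s2]; exact Or.inr (Or.inl (pr_self _ _))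
        · rw [hS.2 _ _ _ h (hS.1 _ _ s2)]; exact Or.inr (Or.inl (pr_self' _ _))
        · rw [hS.2 _ _ _ h s3]; exact Or.inr (Or.inr (pr_self _ _))
        · rw [hS.2 _ _ _ h (hS.1 _ _ s3)]; exact Or.inr (Or.inr (pr_self' _ _))
      have key2 : ∀ u v, (pr x x1 u v ∨ pr y q u v ∨ pr x2 q1 u v) →
          modif K1 (fun z => z = y ∨ z = q) (pr y q) u v ∨
          modif K0 (fun z => z = x1 ∨ z = x2 ∨ z = q ∨ z = q1 ∨ z = x)
            (fun u v => pr x x1 u v ∨ pr x2 q1 u v) u v := by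
        rintro u v (h | h | h)
        · exact Or.inr (Or.inr (Or.inl h))
        · exact Or.inl (Or.inr h)
        · exact Or.inr (Or.inr (Or.inr h))
      rcases modif_cov hS (S := fun z => z = x ∨ z = x1 ∨ z = y ∨ z = q ∨ z = x2 ∨ z = q1)
        (Ad := fun u v => pr x y u v ∨ pr x1 x2 u v ∨ pr q q1 u v) h with h1 | ⟨h1, h2⟩ | ⟨h1, h2⟩
      · exact Or.inr (Or.inr (Or.inl h1))
      · rcases key2 u v (key u v h1 h2) with h3 | h3
        · exact Or.inr (Or.inr (Or.inr (Or.inl h3)))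
        · exact Or.inr (Or.inr (Or.inr (Or.inr (Or.inr h3))))
      · rcases key2 u v ((key v u h1 h2).imp pr_symm (Or.imp pr_symm pr_symm)) with h3 | h3
        · exact Or.inr (Or.inr (Or.inr (Or.inl h3)))
        · exact Or.inr (Or.inr (Or.inr (Or.inr (Or.inr h3))))

end Pool.Agent.P45
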