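import Pool.Agent.Lib.P45dba8.XMain
import Pool.Agent.Lib.P45dba8.Modif2

/-! # Pair lemma with leaves, carrier doubled: the local change -/

set_option autoImplicit false

namespace Pool.Agent.P45

theorem l2s_abs {V : Type*} (E A B C K : V → V → Prop) (hA : Mat A) (hB : Mat B) (hC : Mat C)
    (hK : Mat K) (w w1 w' w1' y y1 : V)
    (d1 : w' ≠ w1') (d2 : w' ≠ y) (d3 : w' ≠ y1) (d6 : w1' ≠ y) (d7 : w1' ≠ y1) (d10 : y ≠ y1)
    (mA : ∀ v, ¬ A w' v) (mB : ∀ v, ¬ B w v) (mC : ∀ v, ¬ C w1 v) (mK : ∀ v, ¬ K y v)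
    (B1 : B w' w1') (B2 : B y y1) (k1 : K w1' y1)
    (cov : ∀ u v, E u v → pr w w1 u v ∨ pr w' y u v ∨ A u v ∨ B u v ∨ C u v ∨ K u v) :
    TS Set.univ E (fun (k b : Bool) =>
      bif k then (bif b then w1' else w') else (bif b then w1 else w)) := by
  have hw : ∀ x z, B x z → w ≠ x := by
    rintro x z h rfl
    exact mB _ h
  have mB' := hB.1
  refine TS_four E (modif B (fun x => x = w' ∨ x = w1' ∨ x = y ∨ x = y1)
      (fun u v => pr w' y u v ∨ pr y1 w1' u v)) C A
    (modif K (fun x => x = y ∨ x = y1 ∨ x = w1') (pr y y1)) ?_ hC hA ?_ w w1 w' w1' ?_ mC mA ?_ ?_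
  · apply hB.modif (Mat.pr2 d2 d7.symm d3 d1 d10 d6.symm)
    rintro u v ((⟨rfl, _⟩ | ⟨rfl, _⟩) | (⟨rfl, _⟩ | ⟨rfl, _⟩)) <;> simp
  · apply hK.modif (Mat.pr1 d10)
    rintro u v (⟨rfl, _⟩ | ⟨rfl, _⟩) <;> simp
  · apply modif_miss_out mB
    rintro v ((⟨h, _⟩ | ⟨h, _⟩) | (⟨h, _⟩ | ⟨h, _⟩))
    · exact hw _ _ B1 h
    · exact hw _ _ B2 h
    · exact hw _ _ (mB' _ _ B2) h
    · exact hw _ _ (mB' _ _ B1) h
  · apply modif_miss_in (by simp)
    rintro v (⟨h, _⟩ | ⟨h, _⟩)
    · exact d6 h
    · exact d7 h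
  · intro u v huv
    rcases cov u v huv with h | h | h | h | h | h
    · exact Or.inl h
    · exact Or.inr (Or.inr (Or.inl (Or.inr (Or.inl h))))
    · exact Or.inr (Or.inr (Or.inr (Or.inr (Or.inl h))))
    · -- B
      have key : ∀ u v, (u = w' ∨ u = w1' ∨ u = y ∨ u = y1) → B u v →
          pr w' w1' u v ∨ pr y y1 u v := by
        rintro u v (rfl | rfl | rfl | rfl) h
        · rw [hB.2 _ _ _ h B1]; exact Or.inl (pr_self _ _)
        · rw [hB.2 _ _ _ h (mB' _ _ B1)]; exact Or.inl (pr_self' _ _)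
        · rw [hB.2 _ _ _ h B2]; exact Or.inr (pr_self _ _)
        · rw [hB.2 _ _ _ h (mB' _ _ B2)]; exact Or.inr (pr_self' _ _)
      rcases modif_cov hB (S := fun x => x = w' ∨ x = w1' ∨ x = y ∨ x = y1)
        (Ad := fun u v => pr w' y u v ∨ pr y1 w1' u v) h with h1 | ⟨h1, h2⟩ | ⟨h1, h2⟩
      · exact Or.inr (Or.inr (Or.inl h1))
      · rcases key u v h1 h2 with h3 | h3
        · exact Or.inr (Or.inl h3)
        · exact Or.inr (Or.inr (Or.inr (Or.inr (Or.inr (Or.inr h3)))))
      · rcases key v u h1 h2 with h3 | h3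
        · exact Or.inr (Or.inl (pr_symm h3))
        · exact Or.inr (Or.inr (Or.inr (Or.inr (Or.inr (Or.inr (pr_symm h3))))))
    · exact Or.inr (Or.inr (Or.inr (Or.inl h)))
    · -- K
      have key : ∀ u v, (u = y ∨ u = y1 ∨ u = w1') → K u v → pr y1 w1' u v := by
        rintro u v (rfl | rfl | rfl) h
        · exact absurd h (mK v)
        · rw [hK.2 _ _ _ h (hK.1 _ _ k1)]; exact pr_self _ _
        · rw [hK.2 _ _ _ h k1]; exact pr_self' _ _
      rcases modif_cov hK (S := fun x => x = y ∨ x = y1 ∨ x = w1') (Ad := pr y y1) h with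
        h1 | ⟨h1, h2⟩ | ⟨h1, h2⟩
      · exact Or.inr (Or.inr (Or.inr (Or.inr (Or.inr h1))))
      · exact Or.inr (Or.inr (Or.inl (Or.inr (Or.inr (key u v h1 h2)))))
      · exact Or.inr (Or.inr (Or.inl (Or.inr (Or.inr (pr_symm (key v u h1 h2))))))

/-- The special thread of the form `thE`. -/
theorem thN {m h : ℕ} (w c : ZMod (m * h)) (ci : ZMod h) (hf : ZMod m)
    (Z : ZMod h → ZMod (m * h)) (r : ZMod h) (p : ZMod (m * h)) (t : ZMod m) (f0 : ZMod h → Bool)
    (hix : ∀ b i, ixf m h w ci (thE m h c hf Z r p t f0 b i) = i)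
    (M : ZMod h → Bool → ZMod (m * h) → ZMod (m * h) → Prop)
    (m1 : ∀ i b u v, M i b u v → M i b v u)
    (m2 : ∀ i b u v, M i b u v → ixf m h w ci u = i ∧ ixf m h w ci v = i)
    (m3 : ∀ i b u v v', M i b u v → M i b u v' → v = v')
    (m4 : ∀ i b v, ¬ M i b (thE m h c hf Z r p t (fun _ => false) b i) v)
    (m5 : ∀ i u v, ixf m h w ci u = i → (v = u + psi m h t ∨ u = v + psi m h t) →
      (∃ b, u = thE m h c hf Z r p t (fun _ => false) b i ∧
        v = thE m h c hf Z r p t (fun _ => false) (!b) i) ∨ ∃ b, M i b u v)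
    (N : Bool → ZMod (m * h) → ZMod (m * h) → Prop)
    (hN : N = fun b u v => M (ixf m h w ci u) (xor (f0 (ixf m h w ci u)) b) u v) :
    (∀ b u v, N b u v → N b v u) ∧
    (∀ b u v, N b u v → ixf m h w ci u = ixf m h w ci v) ∧
    (∀ b u v v', N b u v → N b u v' → v = v') ∧
    (∀ b i v, ¬ N b (thE m h c hf Z r p t f0 b i) v) ∧
    (∀ u v, DE (fun x => x = psi m h t) u v →
      (∃ b, u = thE m h c hf Z r p t f0 b (ixf m h w ci u) ∧
        v = thE m h c hf Z r p t f0 (!b) (ixf m h w ci u)) ∨ ∃ b, N b u v) := by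
  subst hN
  refine ⟨?_, ?_, ?_, ?_, ?_⟩
  · intro b u v hM
    have h2 := (m2 _ _ _ _ hM).2
    show M (ixf m h w ci v) (xor (f0 (ixf m h w ci v)) b) v u
    rw [h2]
    exact m1 _ _ _ _ hM
  · intro b u v hM
    exact (m2 _ _ _ _ hM).2.symm
  · intro b u v v' hM hM'
    exact m3 _ _ _ _ _ hM hM'
  · intro b i v hM
    have h1 : M (ixf m h w ci (thE m h c hf Z r p t f0 b i))
      (xor (f0 (ixf m h w ci (thE m h c hf Z r p t f0 b i))) b)
      (thE m h c hf Z r p t f0 b i) v := hM
    rw [hix, thE_xor] at h1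
    exact m4 i _ v h1
  · rintro u v ⟨δ, hδ, h1⟩
    have hδ' : δ = psi m h t := hδ
    rw [hδ'] at h1
    have e : ∀ b, xor (f0 (ixf m h w ci u)) (xor (f0 (ixf m h w ci u)) b) = b := by
      intro b
      cases f0 (ixf m h w ci u) <;> cases b <;> rfl
    have e' : ∀ b, xor (f0 (ixf m h w ci u)) (!(xor (f0 (ixf m h w ci u)) b)) = !b := by
      intro b
      cases f0 (ixf m h w ci u) <;> cases b <;> rfl
    rcases m5 (ixf m h w ci u) u v rfl h1 with ⟨b, h2, h4⟩ | ⟨b, h2⟩
    · left
      refine ⟨xor (f0 (ixf m h w ci u)) b, ?_, ?_⟩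
      · rw [thE_xor, e]; exact h2
      · rw [thE_xor, e']; exact h4
    · right
      refine ⟨xor (f0 (ixf m h w ci u)) b, ?_⟩
      show M (ixf m h w ci u) (xor (f0 (ixf m h w ci u)) (xor (f0 (ixf m h w ci u)) b)) u v
      rw [e]; exact h2

/-- Carrier doubled, for given centres. -/
theorem alpha_core {m h : ℕ} (hm : Odd m) (m3 : 3 ≤ m) (hh : Odd h) (h3 : 3 ≤ h) {Λ : Type*}
    (c w w' : ZMod (m * h)) (ci : ZMod h) (hci : red m h c * ci = 1) (hf : ZMod m)
    (hhf : 2 * hf = 1) (u' : ZMod m) (hu' : IsUnit u')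
    (Z : ZMod h → ZMod (m * h)) (hZ : ∀ i, ixf m h w ci (Z i) = i)
    (hrel : ∀ i, cenZ Z c (i + ci) i - cenZ Z c i (i + ci) ≠ 1)
    (a : Λ → ZMod m) (ha : ∀ l, IsUnit (a l)) (ha2 : ∀ l l', l ≠ l' → a l ≠ a l' ∧ a l ≠ -a l')
    (hau : ∀ l, u' ≠ a l ∧ u' ≠ -a l) (PL : Λ → ZMod (m * h))
    (l : ZMod h) (hl : ixf m h w ci w' = l) (hlo : Odd l.val)
    (hZl : Z l = w' + psi m h (hf * u')) (f0 : ZMod h → Bool) (hf0 : f0 l = false)
    (hf1 : ∀ i, Odd (i - l).val → f0 (i + 1) = f0 i)
    (hw : thE m h c hf Z l w' u' f0 false (-1) = w)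
    (M : ZMod h → Bool → ZMod (m * h) → ZMod (m * h) → Prop)
    (m1 : ∀ i b u v, M i b u v → M i b v u)
    (m2 : ∀ i b u v, M i b u v → ixf m h w ci u = i ∧ ixf m h w ci v = i)
    (m3' : ∀ i b u v v', M i b u v → M i b u v' → v = v')
    (m4 : ∀ i b v, ¬ M i b (thE m h c hf Z l w' u' (fun _ => false) b i) v)
    (m5 : ∀ i u v, ixf m h w ci u = i → (v = u + psi m h u' ∨ u = v + psi m h u') →
      (∃ b, u = thE m h c hf Z l w' u' (fun _ => false) b i ∧
        v = thE m h c hf Z l w' u' (fun _ => false) (!b) i) ∨ ∃ b, M i b u v)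
    (hK : M (l + 1) (xor (f0 (l + 1)) true) (w' + c) (w' + psi m h u' + c)) :
    ∃ V : Λ → Bool,
    TSM Set.univ (DE (fun x => x = c ∨ (∃ l, x = psi m h (a l)) ∨ x = psi m h u'))
      (Sum.elim (fun l b => (bif b then PL l + psi m h (a l) else PL l) + (bif V l then 1 else 0))
        (fun (k b : Bool) => (bif k then w' else w) + (bif b then c else 0)))
      (Sum.elim (fun l u v => u = PL l + (bif V l then 0 else 1) ∧
        v = PL l + psi m h (a l) + (bif V l then 0 else 1)) (fun _ _ _ => False)) := by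
  classical
  have hNZ : NeZero h := ⟨by omega⟩
  have hF1 : Fact (1 < h) := ⟨by omega⟩
  have hFm : Fact (1 < m) := ⟨by omega⟩
  have hinj := psi_inj m h (by omega)
  have h2u : IsUnit (2 : ZMod m) := by
    have : IsUnit ((2 : ℕ) : ZMod m) := by
      rw [ZMod.isUnit_iff_coprime]
      exact Nat.coprime_two_left.2 hm
    exact_mod_cast this
  have hfinj : ∀ x y : ZMod m, hf * x = hf * y → x = y := by
    intro x y hxy
    linear_combination 2 * hxy - (x - y) * hhf
  have hfinjP : ∀ x y : ZMod m, psi m h (hf * x) = psi m h (hf * y) → x = y := by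
    intro x y hxy
    exact hfinj _ _ (hinj hxy)
  have uz : psi m h u' ≠ 0 := by
    intro h'
    exact hu'.ne_zero (hinj (by rw [map_zero]; exact h'))
  have half2 : psi m h u' = psi m h (hf * u') + psi m h (hf * u') := by
    rw [← map_add]
    congr 1
    linear_combination (-u') * hhf
  have l0 : l ≠ 0 := by
    rintro rfl
    rw [ZMod.val_zero] at hlo
    simp at hlo
  have l1 : l ≠ -1 := by
    rintro rfl
    exact not_odd_neg_one hh h3 hlo
  have hal1 : Odd (-1 - l).val := (odd_neg_one_sub hh h3 l).2 hlo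
  have ixe : ∀ b i, ixf m h w ci (thE m h c hf Z l w' u' f0 b i) = i :=
    fun b i => thE_ix hh h3 hhf hci hZ hl b i
  obtain ⟨n1, n2, n3, n4, n5⟩ := thN w c ci hf Z l w' u' f0 ixe M m1 m2 m3' m4 m5 _ rfl
  have hpos : ∀ b i, Odd (i - l).val →
      thE m h c hf Z l w' u' f0 b i = Z i + psi m h (hf * u') ∨
      thE m h c hf Z l w' u' f0 b i = Z i - psi m h (hf * u') := by
    intro b i hi
    rw [thE_low hhf hi]
    cases xor (f0 i) b
    · right; simp only [cond_false]; ring
    · left; rfl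
  have hdis : ∀ l', psi m h (hf * u') ≠ psi m h (hf * a l') ∧
      psi m h (hf * u') ≠ - psi m h (hf * a l') := by
    intro l'
    refine ⟨fun h' => (hau l').1 (hfinjP _ _ h'), fun h' => (hau l').2 (hfinjP _ _ ?_)⟩
    rw [mul_neg, map_neg]; exact h'
  obtain ⟨V, f, ML, G, hG, H, E1, cov, T1⟩ := x_main hm m3 hh h3 c w ci hci hf hhf Z hZ hrel a ha
    ha2 PL True (fun i => Odd (i - l).val) (fun b i => thE m h c hf Z l w' u' f0 b i) _ ixe
    (fun b i hi => thE_step hh h3 hhf hi (hf1 i hi) b)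
    (by
      intro i hi h'
      have e : i + 1 - l = i - l + 1 := by ring
      rw [e] at h'
      exact not_odd_succ hh h3 hi h')
    (by
      intro i hi l' b
      obtain ⟨g1, g2⟩ := hdis l'
      rcases hpos b i hi with h4 | h4
      · rw [h4]
        refine ⟨fun h' => g1 (add_left_cancel h'), fun h' => g2 ?_⟩
        linear_combination h'
      · rw [h4]
        refine ⟨fun h' => g2 ?_, fun h' => g1 ?_⟩
        · linear_combination -h'
        · linear_combination -h')
    n1 n2 n3 n4 (fun x => x = psi m h u') n5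
    (by
      left
      refine ⟨trivial, fun _ => hw, ?_, fun _ => hw, ?_⟩
      · intro h0
        exfalso
        have e : (0 : ZMod h) - l = -1 - l + 1 := by ring
        rw [e] at h0
        exact not_odd_succ hh h3 hal1 h0
      · intro l'
        obtain ⟨g1, g2⟩ := hdis l'
        rcases hpos false (-1) hal1 with h4 | h4
        · rw [hw] at h4
          refine ⟨fun h' => g1 ?_, fun h' => g2 ?_⟩
          · linear_combination -h4 - h'
          · linear_combination -h4 - h'
        · rw [hw] at h4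
          refine ⟨fun h' => g2 ?_, fun h' => g1 ?_⟩
          · linear_combination h' + h4
          · linear_combination h' + h4)
  refine ⟨V, ?_⟩
  -- the classes
  have hact : ∀ i, G.act none i ↔ Odd (i - l).val := by
    intro i; rw [hG]; exact Iff.rfl
  have hs : G.s = none := by rw [hG]; rfl
  have he : ∀ b i, G.e none b i = thE m h c hf Z l w' u' f0 b i := by
    intro b i; rw [hG]; rfl
  have hal : ¬ G.act none l := fun h' => odd_self_sub h l ((hact l).1 h')
  have hal' : ¬ G.act none (l - 1) := fun h' => odd_pred_sub hh h3 l ((hact _).1 h')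
  have mrho : Mat G.rho := ⟨fun _ _ => H.rho_symm, fun _ _ _ => H.rho_fun⟩
  have msgm : Mat G.sgm := ⟨fun _ _ => H.sgm_symm, fun _ _ _ => H.sgm_fun⟩
  have mspc : Mat G.spc := ⟨fun _ _ => H.spc_symm, fun _ _ _ => H.spc_fun⟩
  have mK : Mat (G.nrm none true) := ⟨fun _ _ => H.nrm_symm, fun _ _ _ => H.nrm_fun⟩
  have eN1 : thE m h c hf Z l w' u' f0 false 0 = w + c := by
    have h1 := thE_step (m := m) (c := c) (Z := Z) (p := w') (t := u') (f := f0) hh h3 hhf hal1
      (hf1 _ hal1) false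
    have e0 : (-1 : ZMod h) + 1 = 0 := by ring
    rw [e0, hw] at h1
    exact h1
  have eR : ∀ b, thE m h c hf Z l w' u' f0 b l = w' + (bif b then psi m h u' else 0) :=
    fun b => thE_real hf0 b
  have hLV : ∀ x, ixf m h w ci x = l → (x = w' ∨ x = w' + psi m h u') → G.sgm x (x + c) := by
    intro x hx hxy
    refine Or.inr ⟨l, hlo, Or.inr (Or.inl ⟨by rw [hG]; exact hx, by rw [hG]; rfl, ?_⟩)⟩
    rintro (_ | l') b hact'
    · exact absurd hact' hal
    · intro h'
      obtain ⟨g1, g2⟩ := hdis l'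
      have hact2 : Odd (l - ixf m h w ci (PL l' + (bif V l' then 1 else 0))).val := by
        rw [hG] at hact'; exact hact'
      have h2 : x = thE m h c hf Z (ixf m h w ci (PL l' + (bif V l' then 1 else 0)))
          (PL l' + (bif V l' then 1 else 0)) (a l') (f l') b l := by
        rw [hG] at h'; exact h'
      rw [thE_low hhf hact2, hZl] at h2
      rcases hxy with h4 | h4 <;> rw [h4] at h2
      · cases hb : xor (f l' l) b
        · rw [hb, cond_false] at h2
          exact g1 (by linear_combination -h2)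
        · rw [hb, cond_true] at h2
          exact g2 (by linear_combination -h2)
      · cases hb : xor (f l' l) b
        · rw [hb, cond_false] at h2
          exact g2 (by linear_combination h2 - half2)
        · rw [hb, cond_true] at h2
          exact g1 (by linear_combination h2 - half2)
  set y := w' + psi m h u' with hy
  have ixy : ixf m h w ci y = l := by rw [hy, ixf_psi]; exact hl
  have ixw1 : ixf m h w ci (w' + c) = l + 1 := by rw [ixf_add w c ci hci, hl]
  have ixy1 : ixf m h w ci (y + c) = l + 1 := by rw [ixf_add w c ci hci, ixy]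
  have hsucc : l + 1 ≠ l := H.succ_ne l
  have dne : ∀ {x z : ZMod (m * h)}, ixf m h w ci x = l → ixf m h w ci z = l + 1 → x ≠ z := by
    rintro x z hx hz rfl
    exact hsucc (hz.symm.trans hx)
  have d2 : w' ≠ y := by
    rw [hy]; intro h'; exact uz (left_eq_add.1 h')
  have hKc : G.nrm none true (w' + c) (y + c) := by
    left
    rw [hG]
    show M (ixf m h w ci (w' + c)) (xor (f0 (ixf m h w ci (w' + c))) true) (w' + c) (y + c)
    rw [ixw1]
    exact hK
  have T0 := l2s_abs (fun u v => pr (w + c) w u v ∨ pr w' y u v ∨ G.spc u v ∨ G.sgm u v ∨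
    G.rho u v ∨ G.nrm none true u v) G.spc G.sgm G.rho (G.nrm none true) mspc msgm mrho mK
    (w + c) w w' (w' + c) y (y + c) (dne hl ixw1) d2 (dne hl ixy1) (dne ixy ixw1).symm
    (fun h' => d2 (add_right_cancel h')) (dne ixy ixy1) ?_ ?_ ?_ ?_ (hLV w' hl (Or.inl rfl))
    (hLV y ixy (Or.inr rfl)) hKc (fun _ _ h => h)
  · have T0' := T0.ends (e' := fun (k b : Bool) => (bif k then w' else w) +
      (bif b then c else 0)) (by
        intro k
        cases k
        · show s(w + 0, w + c) = s(w + c, w)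
          rw [add_zero, Sym2.eq_swap]
        · show s(w' + 0, w' + c) = s(w', w' + c)
          rw [add_zero])
    refine (T0'.unionM T1).mono ?_ (fun _ _ _ h => h)
    rintro u - v - huv
    rcases cov u v huv with ⟨_, h1⟩ | ⟨i, h1, h2, h4⟩ | h1 | h1 | h1 | h1 | h1
    · left; left
      exact h1.symm
    · left; right; left
      have hi : i = l := by
        by_contra hi
        rcases odd_or_pred h3 (sub_ne_zero.2 hi) with h5 | h5
        · exact h1 h5
        · have e : i - l - 1 = i - 1 - l := by ring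
          rw [e] at h5
          exact h2 h5
      rw [hi, eR, eR] at h4
      simp only [cond_false, add_zero, cond_true] at h4
      exact h4
    · exact Or.inr h1
    · exact Or.inl (Or.inr (Or.inr (Or.inr (Or.inr (Or.inr h1)))))
    · exact Or.inl (Or.inr (Or.inr (Or.inr (Or.inr (Or.inl h1)))))
    · exact Or.inl (Or.inr (Or.inr (Or.inr (Or.inl h1))))
    · exact Or.inl (Or.inr (Or.inr (Or.inl h1)))
  · intro v
    have h1 := H.spc_miss (i := l) l1 l0 (by rw [hs]; exact hal) (by rw [hs]; exact hal') v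
    rw [hs, he, eR, cond_false, add_zero] at h1
    exact h1
  · intro v
    have h1 := H.sgm_miss v
    rw [hs, he, eN1] at h1
    exact h1
  · intro v
    have h1 := H.rho_miss v
    rw [hs, he, hw] at h1
    exact h1
  · intro v
    have h1 := H.nrm_miss (k := none) (b := true) (i := l) hal hal' v
    rw [he, eR, cond_true] at h1
    exact h1

end Pool.Agent.P45
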