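import Pool.Agent.Lib.P45dba8.AlphaPick

/-! # RULE X', part (alpha): carrier doubled, base type unused, leaves -/

set_option autoImplicit false

namespace Pool.Agent.P45

theorem TSM.endsR {V Λ Θ : Type*} {K : Set V} {E : V → V → Prop} {eL : Λ → Bool → V}
    {e e' : Θ → Bool → V} {mk : Λ → V → V → Prop}
    (h : TSM K E (Sum.elim eL e) (Sum.elim mk (fun _ _ _ => False)))
    (he : ∀ k, s(e' k false, e' k true) = s(e k false, e k true)) :
    TSM K E (Sum.elim eL e') (Sum.elim mk (fun _ _ _ => False)) := by
  classical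
  have h1 : ∀ k, ∃ b : Bool, ∀ c, e' k c = e k (xor b c) := by
    intro k
    have := he k
    rw [Sym2.eq_iff] at this
    rcases this with ⟨a, b⟩ | ⟨a, b⟩
    · exact ⟨false, fun c => by cases c <;> simp [a, b]⟩
    · exact ⟨true, fun c => by cases c <;> simp [a, b]⟩
  choose β hβ using h1
  obtain ⟨M, m1, m2, m3, m4, m5, m6⟩ := h
  refine ⟨Sum.elim (fun l b => M (Sum.inl l) b) (fun k b => M (Sum.inr k) (xor (β k) b)),
    ?_, ?_, ?_, ?_, ?_, ?_⟩
  · rintro (k | k) b u v hm
    · exact m1 _ _ _ _ hm
    · exact m1 _ _ _ _ hm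
  · rintro (k | k) b u v hm
    · exact m2 _ _ _ _ hm
    · exact m2 _ _ _ _ hm
  · rintro (k | k) b u v v' hm hm'
    · exact m3 _ _ _ _ _ hm hm'
    · exact m3 _ _ _ _ _ hm hm'
  · rintro (k | k) b v hm
    · exact m4 (Sum.inl k) b v hm
    · have hm' : M (Sum.inr k) (xor (β k) b) (e' k b) v := hm
      rw [hβ] at hm'
      exact m4 (Sum.inr k) _ v hm'
  · intro u hu v hv huv
    rcases m5 u hu v hv huv with ⟨k | k, hk⟩ | ⟨k | k, b, hk⟩
    · exact Or.inl ⟨Sum.inl k, hk⟩
    · left
      refine ⟨Sum.inr k, ?_⟩
      have hk' : (u = e k false ∧ v = e k true) ∨ (u = e k true ∧ v = e k false) := hk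
      show (u = e' k false ∧ v = e' k true) ∨ (u = e' k true ∧ v = e' k false)
      rw [hβ, hβ]
      cases β k
      · exact hk'
      · exact hk'.symm
    · exact Or.inr ⟨Sum.inl k, b, hk⟩
    · right
      refine ⟨Sum.inr k, xor (β k) b, ?_⟩
      show M (Sum.inr k) (xor (β k) (xor (β k) b)) u v
      have e : xor (β k) (xor (β k) b) = b := by cases β k <;> cases b <;> rfl
      rw [e]; exact hk
  · rintro (k | k) u v hm
    · exact m6 (Sum.inl k) u v hm
    · exact hm.elim

/-- A system of one class around its centre. -/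
theorem rowN {m h : ℕ} {w : ZMod (m * h)} {ci : ZMod h} (hf : ZMod m) (hhf : 2 * hf = 1)
    (t : ZMod m) (Zc X T : ZMod (m * h)) (i : ZMod h) (hXi : ixf m h w ci X = i) (fl : Bool)
    (hX : X = Zc + (bif fl then psi m h (hf * t) else - psi m h (hf * t)))
    (hT : T = bif fl then - psi m h t else psi m h t)
    {M : Unit → Bool → ZMod (m * h) → ZMod (m * h) → Prop}
    (HM : RowSys m h w ci (psi m h t) X T M) (N : Bool → ZMod (m * h) → ZMod (m * h) → Prop)
    (hN : N = fun b => M () (xor fl b)) :
    (∀ b u v, N b u v → N b v u) ∧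
    (∀ b u v, N b u v → ixf m h w ci u = i ∧ ixf m h w ci v = i) ∧
    (∀ b u v v', N b u v → N b u v' → v = v') ∧
    (∀ b v, ¬ N b (Zc + (bif b then psi m h (hf * t) else - psi m h (hf * t))) v) ∧
    (∀ u v, ixf m h w ci u = i → (v = u + psi m h t ∨ u = v + psi m h t) →
      (∃ b, u = Zc + (bif b then psi m h (hf * t) else - psi m h (hf * t)) ∧
        v = Zc + (bif !b then psi m h (hf * t) else - psi m h (hf * t))) ∨
        ∃ b, N b u v) := by
  obtain ⟨m1, m2, m3, m4, m5⟩ := HM
  have half2 : psi m h t = psi m h (hf * t) + psi m h (hf * t) := by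
    rw [← map_add]
    congr 1
    linear_combination (-t) * hhf
  have hend : ∀ b, X + (bif b then T else 0) =
      Zc + (bif xor fl b then psi m h (hf * t) else - psi m h (hf * t)) := by
    intro b
    rw [hX, hT]
    cases fl <;> cases b
    · simp
    · simp only [cond_false, cond_true, Bool.false_xor]
      linear_combination half2
    · simp
    · simp only [cond_true, Bool.xor_true, Bool.not_true, cond_false]
      linear_combination -half2
  subst hN
  refine ⟨fun b u v hM => m1 _ _ _ _ hM, ?_, fun b u v v' hM hM' => m3 _ _ _ _ _ hM hM', ?_, ?_⟩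
  · intro b u v hM
    obtain ⟨g1, g2⟩ := m2 _ _ _ _ hM
    exact ⟨g1.trans hXi, g2.trans hXi⟩
  · intro b v hM
    have h1 := m4 () (xor fl b) v
    rw [hend] at h1
    have e : xor fl (xor fl b) = b := by cases fl <;> cases b <;> rfl
    rw [e] at h1
    exact h1 hM
  · intro u v hu huv
    have hv : ixf m h w ci v = ixf m h w ci X := by
      rw [hXi]
      rcases huv with rfl | rfl
      · rw [ixf_psi]; exact hu
      · rw [ixf_psi] at hu; exact hu
    rcases m5 u (hu.trans hXi.symm) v hv ⟨_, rfl, huv⟩ with ⟨_, ⟨h1, h2⟩ | ⟨h1, h2⟩⟩ |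
      ⟨_, b, h1⟩
    · left
      rw [hend] at h1 h2
      refine ⟨fl, ?_, ?_⟩
      · rw [h1]; cases fl <;> rfl
      · rw [h2]; cases fl <;> rfl
    · left
      rw [hend] at h1 h2
      refine ⟨!fl, ?_, ?_⟩
      · rw [h1]; cases fl <;> rfl
      · rw [h2]; cases fl <;> rfl
    · right
      refine ⟨xor fl b, ?_⟩
      show M () (xor fl (xor fl b)) u v
      have e : xor fl (xor fl b) = b := by cases fl <;> cases b <;> rfl
      rw [e]; exact h1

theorem x_alpha_main {m h : ℕ} (hm : Odd m) (m5 : 5 ≤ m) (hh : Odd h) (h3 : 3 ≤ h) {Λ : Type*}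
    (c w : ZMod (m * h)) (ci : ZMod h) (hci : red m h c * ci = 1) (hcie : ¬ Odd ci.val)
    (u' : ZMod m) (hu' : IsUnit u') (a : Λ → ZMod m) (ha : ∀ l, IsUnit (a l))
    (ha2 : ∀ l l', l ≠ l' → a l ≠ a l' ∧ a l ≠ -a l') (hau : ∀ l, u' ≠ a l ∧ u' ≠ -a l)
    (PL : Λ → ZMod (m * h)) (hc3 : h = 3 → c ≠ 2) :
    ∃ V : Λ → Bool,
    TSM Set.univ (DE (fun x => x = c ∨ (∃ l, x = psi m h (a l)) ∨ x = psi m h u'))
      (Sum.elim (fun l b => (bif b then PL l + psi m h (a l) else PL l) + (bif V l then 1 else 0))
        (fun (k b : Bool) => (bif k then w + 1 else w) + (bif b then c else 0)))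
      (Sum.elim (fun l u v => u = PL l + (bif V l then 0 else 1) ∧
        v = PL l + psi m h (a l) + (bif V l then 0 else 1)) (fun _ _ _ => False)) := by
  classical
  have hNZ : NeZero h := ⟨by omega⟩
  have hNm : NeZero m := ⟨by omega⟩
  have hF1 : Fact (1 < h) := ⟨by omega⟩
  have hFm : Fact (1 < m) := ⟨by omega⟩
  have hinj := psi_inj m h (by omega)
  have h2u : IsUnit (2 : ZMod m) := by
    have : IsUnit ((2 : ℕ) : ZMod m) := by
      rw [ZMod.isUnit_iff_coprime]
      exact Nat.coprime_two_left.2 hm
    exact_mod_cast this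
  obtain ⟨hf, hhf⟩ := h2u.exists_right_inv
  have u2 : ∀ t : ZMod m, IsUnit t → psi m h t + psi m h t ≠ 0 := by
    intro t ht h'
    rw [← map_add, ← map_zero (psi m h)] at h'
    have h4 : (2 : ZMod m) * t = 0 := by linear_combination hinj h'
    exact ht.ne_zero ((h2u.mul_right_eq_zero).1 h4)
  have half2 : ∀ t, psi m h t = psi m h (hf * t) + psi m h (hf * t) := by
    intro t
    rw [← map_add]
    congr 1
    linear_combination (-t) * hhf
  have ci0 : ci ≠ 0 := by
    rintro rfl
    rw [mul_zero] at hci
    exact zero_ne_one hci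
  have red1 : ∀ v : ZMod (m * h), ixf m h w ci (v + 1) = ixf m h w ci v + ci := by
    intro v
    show red m h (v + 1 - w) * ci - 1 = red m h (v - w) * ci - 1 + ci
    have : v + 1 - w = (v - w) + 1 := by ring
    rw [this, map_add, map_one]; ring
  obtain ⟨l, hldef⟩ : ∃ l : ZMod h, l = ci - 1 := ⟨_, rfl⟩
  have hl : ixf m h w ci (w + 1) = l := by rw [red1, ixf_self, hldef]; ring
  have hlo : Odd l.val := by
    rw [hldef, zval_pred h3 ci0]
    have hv0 : ci.val ≠ 0 := fun h' => ci0 ((ZMod.val_eq_zero ci).1 h')
    rw [Nat.not_odd_iff_even] at hcie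
    obtain ⟨k, hk⟩ := hcie
    exact ⟨k - 1, by omega⟩
  have l0 : l ≠ 0 := by
    rintro h'
    rw [h', ZMod.val_zero] at hlo
    simp at hlo
  have l1 : l ≠ -1 := by
    rintro h'
    rw [h'] at hlo
    exact not_odd_neg_one hh h3 hlo
  have z10 : (1 : ZMod h) ≠ 0 := one_ne_zero
  -- base points
  let base : ZMod h → ZMod (m * h) := fun j => w + ((j.val : ZMod (m * h)) + 1) * c
  have hbase : ∀ j, ixf m h w ci (base j) = j := by
    intro j
    show red m h (w + ((j.val : ZMod (m * h)) + 1) * c - w) * ci - 1 = j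
    have : w + ((j.val : ZMod (m * h)) + 1) * c - w = ((j.val : ZMod (m * h)) + 1) * c := by ring
    rw [this, map_mul, map_add, map_natCast, map_one, ZMod.natCast_zmod_val]
    linear_combination (j + 1) * hci
  have hpt : ∀ v, ∃ x, v = base (ixf m h w ci v) + psi m h x := by
    intro v
    obtain ⟨x, hx⟩ := ixf_inj w c ci hci (v := base (ixf m h w ci v)) (v' := v) (hbase _)
    exact ⟨x, hx⟩
  have hκ : ∀ i, ∃ x, base i = base (i + l) + c - 1 + psi m h x := by
    intro i
    apply ixf_inj w c ci hci
    have h1 := red1 (base (i + l) + c - 1)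
    rw [sub_add_cancel, ixf_add w c ci hci, hbase] at h1
    rw [hbase, hldef] at *
    linear_combination -h1
  choose κ hκ using hκ
  have hZrel : ∀ (y : ZMod h → ZMod m) (i : ZMod h), y (i + l) - y i = κ i →
      base (i + l) + psi m h (y (i + l)) + c - 1 = base i + psi m h (y i) := by
    intro y i h1
    have h2 : y (i + l) = y i + κ i := by linear_combination h1
    rw [h2, map_add]
    linear_combination -hκ i
  have hZ : ∀ (y : ZMod h → ZMod m) (i : ZMod h), ixf m h w ci (base i + psi m h (y i)) = i := by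
    intro y i
    rw [ixf_psi]; exact hbase i
  have hrelOf : ∀ (y : ZMod h → ZMod m), RelOn (fun i => i + l) (fun i => i) κ Finset.univ y →
      ∀ i, cenZ (fun i => base i + psi m h (y i)) c (i + ci) i -
        cenZ (fun i => base i + psi m h (y i)) c i (i + ci) ≠ 1 := by
    intro y hy i
    have e1 : ¬ Odd (i + ci - i).val := by
      rw [add_sub_cancel_left]; exact hcie
    have e2 : Odd (i - (i + ci)).val := by
      have e : i - (i + ci) = -ci := by ring
      rw [e, ZMod.neg_val, if_neg ci0]
      have hlt := ci.val_lt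
      rw [Nat.not_odd_iff_even] at hcie
      obtain ⟨k, hk⟩ := hcie
      obtain ⟨k', hk'⟩ := hh
      exact ⟨k' - k, by omega⟩
    unfold cenZ
    rw [if_neg e1, if_pos e2]
    have e3 : i + ci - 1 = i + l := by rw [hldef]; ring
    rw [e3]
    intro h'
    apply hy i (Finset.mem_univ _) (Finset.mem_univ _)
    have h5 : psi m h (y (i + l) - y i) = psi m h (κ i) := by
      rw [map_sub]
      linear_combination h' + hκ i
    exact hinj h5
  have hAB : ∀ i : ZMod h, i + l ≠ i := fun i h' => l0 (add_eq_left.1 h')
  have hcard : ∀ j : ZMod h, (Finset.univ.filter (fun i : ZMod h => i + l = j ∨ i = j)).card ≤ 4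
      := by
    intro j
    have hsub : Finset.univ.filter (fun i : ZMod h => i + l = j ∨ i = j) ⊆ {j - l, j} := by
      intro i hi
      rw [Finset.mem_filter] at hi
      simp only [Finset.mem_insert, Finset.mem_singleton]
      rcases hi.2 with h1 | h1
      · left; rw [← h1]; ring
      · exact Or.inr h1
    exact (Finset.card_le_card hsub).trans (Finset.card_le_two.trans (by norm_num))
  have ext : ∀ (S0 : Finset (ZMod h)) (y0 : ZMod h → ZMod m),
      RelOn (fun i => i + l) (fun i => i) κ S0 y0 →
      ∃ y : ZMod h → ZMod m, (∀ j ∈ S0, y j = y0 j) ∧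
        RelOn (fun i => i + l) (fun i => i) κ Finset.univ y := by
    intro S0 y0 H0
    obtain ⟨y, y1, y2, -⟩ := RelOn.extend m5 hAB κ hcard False (fun h' => h'.elim) 0 1
      (fun h' => z10 h'.symm) 0 S0 y0 H0 (fun h' => h'.elim)
    exact ⟨y, y1, y2⟩
  by_cases hl2 : l + 1 = -1
  · -- the class `l + 1` contains `w`
    have hq : ixf m h w ci (w + 1 + c) = ixf m h w ci w := by
      rw [ixf_add w c ci hci, hl, hl2, ixf_self]
    have h1n : (1 : ZMod (m * h)) ≠ 0 := by
      intro h'
      have := congrArg (red m h) h'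
      rw [map_one, map_zero] at this
      exact z10 this
    obtain ⟨T, u'', hT, hu'', hne, M, HM, hMt⟩ := alpha_pick hm (by omega) h3 w c ci hci hf hhf
      u' hu' (w + 1 + c) hq (if h = 3 then 2 - c else 1) (by
        split_ifs with h33
        · intro h'
          exact hc3 h33 (by linear_combination -h')
        · exact h1n)
    have hu2 : IsUnit u'' := by
      rcases hu'' with rfl | rfl
      · exact hu'
      · exact hu'.neg
    have hTu : T = u'' ∨ T = -u'' := by
      rcases hT with h1 | h1 <;> rcases hu'' with h2 | h2 <;> rw [h1, h2]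
      · exact Or.inl rfl
      · right; rw [neg_neg]
      · exact Or.inr rfl
      · exact Or.inl rfl
    obtain ⟨yl, hyl⟩ := hpt (w + 1 + psi m h (hf * u''))
    rw [ixf_psi, hl] at hyl
    obtain ⟨y1, hy1⟩ := hpt (w + psi m h (hf * T))
    rw [ixf_psi, ixf_self] at hy1
    obtain ⟨y, z1, z2⟩ := ext {l, -1} (fun j => if j = l then yl else y1) (by
      intro i hA hB h'
      rcases Finset.mem_insert.1 hA with hA | hA
      · rcases Finset.mem_insert.1 hB with hB | hB
        · exact hAB i (hA.trans hB.symm)
        · rw [Finset.mem_singleton] at hB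
          apply z10
          linear_combination hB - hA
      · rw [Finset.mem_singleton] at hA
        rcases Finset.mem_insert.1 hB with hB | hB
        · -- `h = 3`
          have h33 : h = 3 := by
            have hd : ((3 : ℕ) : ZMod h) = 0 := by
              push_cast
              linear_combination (-1 : ZMod h) * hA + hB + 2 * hl2
            rw [ZMod.natCast_eq_zero_iff] at hd
            have := Nat.le_of_dvd (by omega) hd
            omega
          rw [if_pos h33] at hne
          apply hne
          have h5 := hZrel (fun j => if j = l then yl else y1) i h'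
          beta_reduce at h5
          have hA' : i + l = -1 := hA
          have hB' : i = l := hB
          rw [hA', if_neg l1.symm, hB', if_pos rfl] at h5
          rw [mul_sub, map_sub]
          linear_combination h5 + hy1 - hyl
        · exact hAB i (hA.trans (Finset.mem_singleton.1 hB).symm))
    have yl' : y l = yl := by
      rw [z1 l (by simp), if_pos rfl]
    have y1' : y (-1) = y1 := by
      rw [z1 (-1) (by simp), if_neg l1.symm]
    have hZm : base (-1) + psi m h (y (-1)) = w + psi m h (hf * T) := by rw [y1', ← hy1]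
    -- the orientation
    obtain ⟨fl, hfl1, hfl2⟩ : ∃ fl : Bool,
        (psi m h (hf * T) + (bif fl then psi m h (hf * u'') else - psi m h (hf * u'')) = 0) ∧
        psi m h T = bif fl then - psi m h u'' else psi m h u'' := by
      rcases hTu with h1 | h1
      · refine ⟨false, ?_, ?_⟩
        · rw [h1]; simp
        · rw [h1]; simp
      · refine ⟨true, ?_, ?_⟩
        · rw [h1, mul_neg, map_neg]; simp
        · rw [h1, map_neg]; simp
    have hrow : RowSys m h w ci (psi m h u'') w (psi m h T) M := by
      rcases hu'' with rfl | h1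
      · exact HM
      · obtain ⟨m1, m2, m3, m4, m5'⟩ := HM
        refine ⟨m1, m2, m3, m4, ?_⟩
        rintro x hx z hz ⟨δ, hδ, hxz⟩
        have hδ' : δ = psi m h u'' := hδ
        refine m5' x hx z hz ⟨psi m h u', rfl, ?_⟩
        rw [hδ', h1, map_neg] at hxz
        rcases hxz with hxz | hxz
        · right; rw [hxz]; ring
        · left; rw [hxz]; ring
    obtain ⟨n1, n2, n3, n4, n5⟩ := rowN (w := w) (ci := ci) hf hhf u''
      (base (-1) + psi m h (y (-1))) w (psi m h T) (-1) (ixf_self w ci) fl
      (by rw [hZm]; linear_combination -hfl1) hfl2 hrow (fun b => M () (xor fl b)) rfl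
    have hau'' : ∀ l, u'' ≠ a l ∧ u'' ≠ -a l := by
      intro l
      obtain ⟨g1, g2⟩ := hau l
      rcases hu'' with h1 | h1
      · rw [h1]; exact ⟨g1, g2⟩
      · rw [h1]
        exact ⟨fun h' => g2 (by rw [← h', neg_neg]), fun h' => g1 (neg_injective h')⟩
    obtain ⟨V, hV⟩ := alpha_core2 hm (by omega) hh h3 c w (w + 1) ci hci hf hhf u'' hu2
      (fun i => base i + psi m h (y i)) (hZ y) (hrelOf y z2) a ha ha2 hau'' PL l hl hlo
      (by show base l + psi m h (y l) = _; rw [yl', ← hyl]) (fun _ => fl)
      (by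
        show base (-1) + psi m h (y (-1)) + _ = w
        rw [hZm]; linear_combination hfl1)
      (fun b => M () (xor fl b)) n1 (by rw [hl2]; exact n2) n3
      (by rw [hl2]; exact n4) (by rw [hl2]; exact n5)
      (by
        show M () (xor fl (xor fl true)) _ _
        have e : xor fl (xor fl true) = true := by cases fl <;> rfl
        rw [e]
        have e2 : w + 1 + psi m h u'' + c = w + 1 + c + psi m h u'' := by ring
        rw [e2]
        exact hMt)
    refine ⟨V, hV.mono ?_ (fun _ _ _ h' => h')⟩
    rintro x - z - ⟨δ, hδ, hxz⟩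
    rcases hδ with hδ | hδ | hδ
    · exact ⟨δ, Or.inl hδ, hxz⟩
    · exact ⟨δ, Or.inr (Or.inl hδ), hxz⟩
    · rcases hu'' with h1 | h1
      · exact ⟨δ, Or.inr (Or.inr (by rw [h1]; exact hδ)), hxz⟩
      · refine ⟨-δ, Or.inr (Or.inr (by rw [h1, map_neg, hδ])), ?_⟩
        rcases hxz with hxz | hxz
        · right; rw [hxz]; ring
        · left; rw [hxz]; ring
  · -- the class `l + 1` is free
    obtain ⟨yl, hyl⟩ := hpt (w + 1 + psi m h (hf * u'))
    rw [ixf_psi, hl] at hyl
    obtain ⟨yp, hyp⟩ := hpt (w + psi m h (hf * u'))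
    rw [ixf_psi, ixf_self] at hyp
    obtain ⟨ym, hym⟩ := hpt (w + psi m h (-(hf * u')))
    rw [ixf_psi, ixf_self] at hym
    obtain ⟨ys, hys⟩ := hpt (w + 1 + c + psi m h (hf * u'))
    rw [ixf_psi, ixf_add w c ci hci, hl] at hys
    have hpm : yp ≠ ym := by
      intro h'
      rw [h'] at hyp
      apply u2 u' hu'
      have h5 := hyp.trans hym.symm
      rw [map_neg] at h5
      rw [half2 u']
      linear_combination 2 * h5
    have H1 : RelOn (fun i : ZMod h => i + l) (fun i => i) κ {l} (fun _ => yl) := by
      intro i hA hB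
      exact absurd ((Finset.mem_singleton.1 hA).trans (Finset.mem_singleton.1 hB).symm) (hAB i)
    obtain ⟨v1, hv1, H2⟩ := H1.step hAB (j := -1) (by
      rw [Finset.mem_singleton]; exact l1.symm) {yp, ym} (by
      rw [Finset.card_pair hpm]
      have : Finset.univ.filter (fun i : ZMod h => (i + l = -1 ∧ i ∈ ({l} : Finset (ZMod h))) ∨
          (i = -1 ∧ i + l ∈ ({l} : Finset (ZMod h)))) ⊆ {l} := by
        intro i hi
        rw [Finset.mem_filter] at hi
        rcases hi.2 with ⟨_, h2⟩ | ⟨h1, h2⟩
        · exact h2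
        · exfalso
          rw [Finset.mem_singleton] at h2
          apply z10
          linear_combination h1 - h2
      have := Finset.card_le_card this
      rw [Finset.card_singleton] at this
      omega)
    obtain ⟨v2, hv2, H3⟩ := H2.step hAB (j := l + 1) (by
      rw [Finset.mem_insert, Finset.mem_singleton]
      rintro (h' | h')
      · exact hl2 h'
      · exact z10 (add_eq_left.1 h')) (Finset.univ.erase ys) (by
      rw [Finset.card_erase_of_mem (Finset.mem_univ _), Finset.card_univ, ZMod.card]
      have hsub : Finset.univ.filter (fun i : ZMod h => (i + l = l + 1 ∧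
          i ∈ insert (-1) ({l} : Finset (ZMod h))) ∨
          (i = l + 1 ∧ i + l ∈ insert (-1) ({l} : Finset (ZMod h)))) ⊆ {1, l + 1} := by
        intro i hi
        rw [Finset.mem_filter] at hi
        simp only [Finset.mem_insert, Finset.mem_singleton]
        rcases hi.2 with ⟨h1, _⟩ | ⟨h1, _⟩
        · left; linear_combination h1
        · exact Or.inr h1
      have := (Finset.card_le_card hsub).trans Finset.card_le_two
      omega)
    obtain ⟨y, z1, z2⟩ := ext _ _ H3
    have hne1 : (-1 : ZMod h) ≠ l + 1 := fun h' => hl2 h'.symm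
    have hnel : l ≠ l + 1 := fun h' => z10 (left_eq_add.1 h')
    have yl' : y l = yl := by
      rw [z1 l (by simp), Function.update_of_ne hnel, Function.update_of_ne l1]
    have y1' : y (-1) = v1 := by
      rw [z1 (-1) (by simp), Function.update_of_ne hne1, Function.update_self]
    have y2' : y (l + 1) = v2 := by
      rw [z1 (l + 1) (by simp), Function.update_self]
    -- the orientation in the class of `w`
    obtain ⟨fl, hfl⟩ : ∃ fl : Bool, base (-1) + psi m h (y (-1)) +
        (bif fl then psi m h (hf * u') else - psi m h (hf * u')) = w := by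
      rw [y1']
      rcases Finset.mem_insert.1 hv1 with h1 | h1
      · refine ⟨false, ?_⟩
        rw [h1, ← hyp, cond_false]; ring
      · refine ⟨true, ?_⟩
        rw [Finset.mem_singleton.1 h1, ← hym, cond_true, map_neg]; ring
    -- the system of the class `l + 1`
    obtain ⟨M, HM⟩ : ∃ M, RowSys m h w ci (psi m h u')
        (base (l + 1) + psi m h (y (l + 1)) + - psi m h (hf * u')) (psi m h u') M :=
      row_TS hm (by omega) h3 w c ci hci u' hu' _ _ (Or.inl rfl)
    obtain ⟨n1, n2, n3, n4, n5⟩ := rowN (w := w) (ci := ci) hf hhf u'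
      (base (l + 1) + psi m h (y (l + 1))) _ (psi m h u') (l + 1)
      (by
        show ixf m h w ci (base (l + 1) + psi m h (y (l + 1)) + - psi m h (hf * u')) = l + 1
        rw [← map_neg, ixf_psi, ixf_psi]; exact hbase _) false rfl rfl HM
      (fun b => M () (xor false b)) rfl
    have hβ : ∃ β, M () (xor false β) (w + 1 + c) (w + 1 + psi m h u' + c) := by
      rcases n5 (w + 1 + c) (w + 1 + psi m h u' + c)
        (by rw [ixf_add w c ci hci, hl]) (Or.inl (by ring)) with ⟨b, h1, h2⟩ | h1
      · exfalso
        cases b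
        · rw [cond_false] at h1
          have hv2' := Finset.ne_of_mem_erase hv2
          apply hv2'
          rw [y2'] at h1
          have h5 : base (l + 1) + psi m h v2 = base (l + 1) + psi m h ys := by
            rw [← hys]
            linear_combination -h1
          exact hinj (add_left_cancel h5)
        · rw [cond_true] at h1
          rw [Bool.not_true, cond_false] at h2
          apply u2 u' hu'
          have h5 := half2 u'
          linear_combination h2 - h1 + h5
      · exact h1
    obtain ⟨β, hβ⟩ := hβ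
    exact alpha_core2 hm (by omega) hh h3 c w (w + 1) ci hci hf hhf u' hu'
      (fun i => base i + psi m h (y i)) (hZ y) (hrelOf y z2) a ha ha2 hau PL l hl hlo
      (by show base l + psi m h (y l) = _; rw [yl', ← hyl])
      (fun i => if i = -1 then fl else !β)
      (by beta_reduce; rw [if_pos rfl]; exact hfl)
      (fun b => M () (xor false b)) n1 n2 n3 n4 n5
      (by
        beta_reduce
        rw [if_neg hl2]
        have e : xor (!β) true = β := by cases β <;> rfl
        rw [e]; exact hβ)

/-- RULE X' (alpha): the type `c` (unit modulo `h`) doubled at `P false` and `P true`, the type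
`psi u'` unused, the leaves at arbitrary squares. -/
theorem x_alpha {m h : ℕ} (hm : Odd m) (m5 : 5 ≤ m) (hh : Odd h) (h3 : 3 ≤ h) {Λ : Type*}
    (c : ZMod (m * h)) (hc : IsUnit (red m h c)) (u' : ZMod m) (hu' : IsUnit u')
    (a : Λ → ZMod m) (ha : ∀ l, IsUnit (a l))
    (ha2 : ∀ l l', l ≠ l' → a l ≠ a l' ∧ a l ≠ -a l') (hau : ∀ l, u' ≠ a l ∧ u' ≠ -a l)
    (hc3 : h = 3 → c ≠ 2 ∧ c ≠ -2) (PL : Λ → ZMod (m * h)) (P : Bool → ZMod (m * h))
    (hP : P true = P false + 1 ∨ P false = P true + 1) :
    TS Set.univ (LeafE PL (fun l => PL l + psi m h (a l))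
        (DE (fun x => x = c ∨ (∃ l, x = psi m h (a l)) ∨ x = psi m h u')))
      (Sum.elim (fun l b => bif b then PL l + 1 else PL l)
        (fun (k b : Bool) => P k + (bif b then c else 0))) := by
  obtain ⟨ci, hci⟩ := hc.exists_right_inv
  have hF1 : Fact (1 < h) := ⟨by omega⟩
  have hNZ : NeZero h := ⟨by omega⟩
  have hFm : Fact (1 < m) := ⟨by omega⟩
  have hinj := psi_inj m h (by omega)
  have hn1 : 1 < m * h := by nlinarith
  have ci0 : ci ≠ 0 := by
    rintro rfl
    rw [mul_zero] at hci
    exact zero_ne_one hci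
  have key : ∀ w : ZMod (m * h), ∃ V : Λ → Bool,
    TSM Set.univ (DE (fun x => x = c ∨ (∃ l, x = psi m h (a l)) ∨ x = psi m h u'))
      (Sum.elim (fun l b => (bif b then PL l + psi m h (a l) else PL l) + (bif V l then 1 else 0))
        (fun (k b : Bool) => (bif k then w + 1 else w) + (bif b then c else 0)))
      (Sum.elim (fun l u v => u = PL l + (bif V l then 0 else 1) ∧
        v = PL l + psi m h (a l) + (bif V l then 0 else 1)) (fun _ _ _ => False)) := by
    intro w
    by_cases ho : Odd ci.val
    · have hme : ¬ Odd (-ci).val := by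
        rw [ZMod.neg_val, if_neg ci0]
        have hlt := ci.val_lt
        obtain ⟨k, hk⟩ := ho
        obtain ⟨k', hk'⟩ := hh
        rw [Nat.not_odd_iff_even]
        exact ⟨k' - k, by omega⟩
      obtain ⟨V, hV⟩ := x_alpha_main hm m5 hh h3 (-c) (w + c) (-ci)
        (by rw [map_neg]; linear_combination hci) hme u' hu' a ha ha2 hau PL (fun h33 h' =>
          (hc3 h33).2 (by rw [← h', neg_neg]))
      refine ⟨V, ((hV.endsR ?_).mono ?_ (fun _ _ _ h' => h'))⟩
      · intro k
        cases k
        · simp only [cond_false, cond_true, add_zero]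
          rw [Sym2.eq_swap]
          congr 2
          ring
        · simp only [cond_false, cond_true, add_zero]
          rw [Sym2.eq_swap]
          have e1 : w + 1 + c = w + c + 1 := by ring
          have e2 : w + 1 = w + c + 1 + -c := by ring
          rw [e1, ← e2]
      · rintro x - z - ⟨δ, hδ, hxz⟩
        rcases hδ with hδ | hδ
        · refine ⟨-c, Or.inl rfl, ?_⟩
          rw [hδ] at hxz
          rcases hxz with hxz | hxz
          · right; rw [hxz]; ring
          · left; rw [hxz]; ring
        · exact ⟨δ, Or.inr hδ, hxz⟩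
    · exact x_alpha_main hm m5 hh h3 c w ci hci ho u' hu' a ha ha2 hau PL
        (fun h33 => (hc3 h33).1)
  have hPQ : ∀ l, PL l ≠ PL l + psi m h (a l) := by
    intro l h4
    exact (ha l).ne_zero (hinj (by rw [map_zero]; exact add_eq_left.1 h4.symm))
  rcases hP with hP | hP
  · obtain ⟨V, hV⟩ := key (P false)
    have h1 := TSM.leafC hn1 PL (fun l => PL l + psi m h (a l)) V hPQ _ _ hV
    refine h1.congr ?_
    rintro (l | k) b
    · rfl
    · cases k
      · rfl
      · show P true + _ = P false + 1 + _
        rw [hP]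
  · obtain ⟨V, hV⟩ := key (P true)
    have h1 := TSM.leafC hn1 PL (fun l => PL l + psi m h (a l)) V hPQ _ _ hV
    refine (h1.reindex (Equiv.sumCongr (Equiv.refl Λ) Equiv.boolNot)).congr ?_
    rintro (l | k) b
    · rfl
    · cases k
      · show P false + _ = P true + 1 + _
        rw [hP]
      · rfl

end Pool.Agent.P45
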