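import Pool.Agent.Lib.P45dba8.Alpha

/-! # Carrier doubled with leaves: the choice of the special class -/

set_option autoImplicit false

namespace Pool.Agent.P45

theorem row_true {m h : ℕ} {w : ZMod (m * h)} {ci : ZMod h} {u X T : ZMod (m * h)}
    (hix : ∀ v, ixf m h w ci (v + u) = ixf m h w ci v) (hu0 : u ≠ 0) (hu2 : u + u ≠ 0)
    (hT : T = u ∨ T = -u)
    {M : Unit → Bool → ZMod (m * h) → ZMod (m * h) → Prop} (HM : RowSys m h w ci u X T M)
    (q : ZMod (m * h)) (hq : ixf m h w ci q = ixf m h w ci X) (hqT : q ≠ X + T) :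
    ∃ s, (s = u ∨ s = -u) ∧ M () true q (q + s) ∧ (q = X → s = -T) := by
  obtain ⟨m1, m2, m3, m4, m5⟩ := HM
  have hedge : ∀ s, (s = u ∨ s = -u) → (q = X ∧ s = T) ∨ M () false q (q + s) ∨
      M () true q (q + s) := by
    intro s hs
    have hz : ixf m h w ci (q + s) = ixf m h w ci X := by
      rcases hs with rfl | rfl
      · rw [hix]; exact hq
      · have := hix (q + -u)
        rw [neg_add_cancel_right] at this
        rw [← this]; exact hq
    rcases m5 q hq (q + s) hz ⟨u, rfl, by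
      rcases hs with rfl | rfl
      · exact Or.inl rfl
      · right; ring⟩ with ⟨_, ⟨h1, h2⟩ | ⟨h1, h2⟩⟩ | ⟨_, b, h1⟩
    · rw [cond_false, add_zero] at h1
      rw [cond_true] at h2
      left
      refine ⟨h1, ?_⟩
      rw [h1] at h2
      exact add_left_cancel h2
    · exact absurd h1 hqT
    · cases b
      · exact Or.inr (Or.inl h1)
      · exact Or.inr (Or.inr h1)
  have hm4 : ∀ v, ¬ M () false X v := by
    intro v hv
    apply m4 () false v
    rw [cond_false, add_zero]; exact hv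
  by_cases hqX : q = X
  · have hs : -T = u ∨ -T = -u := by
      rcases hT with rfl | rfl
      · exact Or.inr rfl
      · exact Or.inl (neg_neg _)
    refine ⟨-T, hs, ?_, fun _ => rfl⟩
    rcases hedge (-T) hs with ⟨_, h1⟩ | h1 | h1
    · exfalso
      rcases hT with rfl | rfl
      · exact hu2 (by linear_combination -h1)
      · exact hu2 (by linear_combination h1)
    · rw [hqX] at h1
      exact absurd h1 (hm4 _)
    · exact h1
  · rcases hedge u (Or.inl rfl) with ⟨h1, _⟩ | h1 | h1
    · exact absurd h1 hqX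
    · rcases hedge (-u) (Or.inr rfl) with ⟨h2, _⟩ | h2 | h2
      · exact absurd h2 hqX
      · exfalso
        have := m3 () false _ _ _ h1 h2
        exact hu2 (by linear_combination this)
      · exact ⟨-u, Or.inr rfl, h2, fun h' => absurd h' hqX⟩
    · exact ⟨u, Or.inl rfl, h1, fun h' => absurd h' hqX⟩

theorem alpha_pick {m h : ℕ} (hm : Odd m) (m3 : 3 ≤ m) (h3 : 3 ≤ h)
    (w c : ZMod (m * h)) (ci : ZMod h) (hci : red m h c * ci = 1) (hf : ZMod m)
    (hhf : 2 * hf = 1) (u' : ZMod m) (hu' : IsUnit u') (q : ZMod (m * h))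
    (hq : ixf m h w ci q = ixf m h w ci w) (κ0 : ZMod (m * h)) (hκ : κ0 ≠ 0) :
    ∃ T u'' : ZMod m, (T = u' ∨ T = -u') ∧ (u'' = u' ∨ u'' = -u') ∧
      psi m h (hf * (T - u'')) ≠ κ0 ∧
      ∃ M, RowSys m h w ci (psi m h u') w (psi m h T) M ∧ M () true q (q + psi m h u'') := by
  have hinj := psi_inj m h (by omega)
  have hFm : Fact (1 < m) := ⟨by omega⟩
  have h2u : IsUnit (2 : ZMod m) := by
    have : IsUnit ((2 : ℕ) : ZMod m) := by
      rw [ZMod.isUnit_iff_coprime]
      exact Nat.coprime_two_left.2 hm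
    exact_mod_cast this
  set u := psi m h u' with hu
  have u0 : u ≠ 0 := by
    intro h'
    exact hu'.ne_zero (hinj (by rw [map_zero]; exact h'))
  have u2 : u + u ≠ 0 := by
    intro h'
    rw [hu, ← map_add, ← map_zero (psi m h)] at h'
    have h4 : (2 : ZMod m) * u' = 0 := by linear_combination hinj h'
    exact hu'.ne_zero ((h2u.mul_right_eq_zero).1 h4)
  have hix : ∀ v, ixf m h w ci (v + u) = ixf m h w ci v := fun v => ixf_psi w ci v u'
  have hrow : ∀ T : ZMod m, (T = u' ∨ T = -u') → ∃ M, RowSys m h w ci u w (psi m h T) M := by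
    intro T hT
    apply row_TS hm m3 h3 w c ci hci u' hu' w (psi m h T)
    rcases hT with rfl | rfl
    · exact Or.inl rfl
    · right; rw [map_neg]
  have hT' : ∀ T : ZMod m, (T = u' ∨ T = -u') → psi m h T = u ∨ psi m h T = -u := by
    rintro T (rfl | rfl)
    · exact Or.inl rfl
    · right; rw [map_neg]
  -- one orientation
  have one : ∀ T : ZMod m, (T = u' ∨ T = -u') → q ≠ w + psi m h T →
      ∃ u'', (u'' = u' ∨ u'' = -u') ∧ ∃ M, RowSys m h w ci u w (psi m h T) M ∧
        M () true q (q + psi m h u'') := by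
    intro T hT hqT
    obtain ⟨M, HM⟩ := hrow T hT
    obtain ⟨s, hs, h1, -⟩ := row_true hix u0 u2 (hT' T hT) HM q hq hqT
    rcases hs with rfl | rfl
    · exact ⟨u', Or.inl rfl, M, HM, h1⟩
    · exact ⟨-u', Or.inr rfl, M, HM, by rw [map_neg]; exact h1⟩
  -- the neighbour of `w`
  have two : ∀ T : ZMod m, (T = u' ∨ T = -u') → q = w - psi m h T →
      ∃ M, RowSys m h w ci u w (psi m h T) M ∧ M () true q (q + psi m h T) := by
    intro T hT hqT
    obtain ⟨M, HM⟩ := hrow T hT
    obtain ⟨s, hs, h1, h2⟩ := row_true hix u0 u2 (hT' T hT) HM w rfl (by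
      intro h'
      rcases hT' T hT with h4 | h4 <;> rw [h4] at h'
      · exact u0 (left_eq_add.1 h')
      · exact u0 (by linear_combination h'))
    have h4 := h2 rfl
    rw [h4] at h1
    refine ⟨M, HM, ?_⟩
    have h5 := HM.1 _ _ _ _ h1
    rw [hqT]
    have e1 : w + -psi m h T = w - psi m h T := by ring
    have e2 : w - psi m h T + psi m h T = w := by ring
    rw [e1] at h5
    rw [e2]; exact h5
  have z0 : ∀ T : ZMod m, psi m h (hf * (T - T)) = 0 := by
    intro T
    rw [sub_self, mul_zero, map_zero]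
  by_cases c1 : q = w + psi m h u'
  · obtain ⟨M, HM, h1⟩ := two (-u') (Or.inr rfl) (by rw [map_neg, c1]; ring)
    exact ⟨-u', -u', Or.inr rfl, Or.inr rfl, by rw [z0]; exact hκ.symm, M, HM, h1⟩
  by_cases c2 : q = w + psi m h (-u')
  · obtain ⟨M, HM, h1⟩ := two u' (Or.inl rfl) (by rw [c2, map_neg]; ring)
    exact ⟨u', u', Or.inl rfl, Or.inl rfl, by rw [z0]; exact hκ.symm, M, HM, h1⟩
  obtain ⟨v1, hv1, M1, HM1, k1⟩ := one u' (Or.inl rfl) c1
  obtain ⟨v2, hv2, M2, HM2, k2⟩ := one (-u') (Or.inr rfl) c2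
  by_cases d1 : psi m h (hf * (u' - v1)) = κ0
  · by_cases d2 : psi m h (hf * (-u' - v2)) = κ0
    · exfalso
      rcases hv1 with e1 | e1
      · rw [e1, z0] at d1
        exact hκ d1.symm
      · rcases hv2 with e2 | e2
        · rw [e1] at d1
          rw [e2] at d2
          have h5 := d1.trans d2.symm
          have h6 := hinj h5
          have h7 : (2 : ZMod m) * u' = 0 := by
            have h8 : hf * (u' - -u') - hf * (-u' - u') = 0 := sub_eq_zero.2 h6
            linear_combination h8 - 2 * u' * hhf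
          exact hu'.ne_zero ((h2u.mul_right_eq_zero).1 h7)
        · rw [e2, z0] at d2
          exact hκ d2.symm
    · exact ⟨-u', v2, Or.inr rfl, hv2, d2, M2, HM2, k2⟩
  · exact ⟨u', v1, Or.inl rfl, hv1, d1, M1, HM1, k1⟩

/-- `alpha_core` with the orientation given on the levels and one given system. -/
theorem alpha_core2 {m h : ℕ} (hm : Odd m) (m3 : 3 ≤ m) (hh : Odd h) (h3 : 3 ≤ h) {Λ : Type*}
    (c w w' : ZMod (m * h)) (ci : ZMod h) (hci : red m h c * ci = 1) (hf : ZMod m)
    (hhf : 2 * hf = 1) (u' : ZMod m) (hu' : IsUnit u')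
    (Z : ZMod h → ZMod (m * h)) (hZ : ∀ i, ixf m h w ci (Z i) = i)
    (hrel : ∀ i, cenZ Z c (i + ci) i - cenZ Z c i (i + ci) ≠ 1)
    (a : Λ → ZMod m) (ha : ∀ l, IsUnit (a l)) (ha2 : ∀ l l', l ≠ l' → a l ≠ a l' ∧ a l ≠ -a l')
    (hau : ∀ l, u' ≠ a l ∧ u' ≠ -a l) (PL : Λ → ZMod (m * h))
    (l : ZMod h) (hl : ixf m h w ci w' = l) (hlo : Odd l.val)
    (hZl : Z l = w' + psi m h (hf * u')) (g : ZMod h → Bool)
    (hw : Z (-1) + (bif g (-1) then psi m h (hf * u') else - psi m h (hf * u')) = w)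
    (N : Bool → ZMod (m * h) → ZMod (m * h) → Prop)
    (n1 : ∀ b u v, N b u v → N b v u)
    (n2 : ∀ b u v, N b u v → ixf m h w ci u = l + 1 ∧ ixf m h w ci v = l + 1)
    (n3 : ∀ b u v v', N b u v → N b u v' → v = v')
    (n4 : ∀ b v, ¬ N b (Z (l + 1) + (bif b then psi m h (hf * u') else - psi m h (hf * u'))) v)
    (n5 : ∀ u v, ixf m h w ci u = l + 1 → (v = u + psi m h u' ∨ u = v + psi m h u') →
      (∃ b, u = Z (l + 1) + (bif b then psi m h (hf * u') else - psi m h (hf * u')) ∧
        v = Z (l + 1) + (bif !b then psi m h (hf * u') else - psi m h (hf * u'))) ∨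
        ∃ b, N b u v)
    (hK : N (xor (g (l + 1)) true) (w' + c) (w' + psi m h u' + c)) :
    ∃ V : Λ → Bool,
    TSM Set.univ (DE (fun x => x = c ∨ (∃ l, x = psi m h (a l)) ∨ x = psi m h u'))
      (Sum.elim (fun l b => (bif b then PL l + psi m h (a l) else PL l) + (bif V l then 1 else 0))
        (fun (k b : Bool) => (bif k then w' else w) + (bif b then c else 0)))
      (Sum.elim (fun l u v => u = PL l + (bif V l then 0 else 1) ∧
        v = PL l + psi m h (a l) + (bif V l then 0 else 1)) (fun _ _ _ => False)) := by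
  classical
  have hF1 : Fact (1 < h) := ⟨by omega⟩
  have hal1 : Odd (-1 - l).val := (odd_neg_one_sub hh h3 l).2 hlo
  have hodd1 : Odd (l + 1 - l).val := by
    rw [add_sub_cancel_left, ZMod.val_one]; exact odd_one
  let f0 : ZMod h → Bool := fun i => if i = l then false else
    if Odd (i - l).val then g i else g (i - 1)
  have hf0 : f0 l = false := if_pos rfl
  have hflow : ∀ i, Odd (i - l).val → f0 i = g i := by
    intro i hi
    have n1 : i ≠ l := by
      rintro rfl
      exact odd_self_sub h _ hi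
    show (if i = l then false else if Odd (i - l).val then g i else g (i - 1)) = g i
    rw [if_neg n1, if_pos hi]
  have hf1 : ∀ i, Odd (i - l).val → f0 (i + 1) = f0 i := by
    intro i hi
    rw [hflow i hi]
    have n1 : i + 1 ≠ l := by
      intro h'
      rw [← h'] at hi
      have : i - (i + 1) = -1 := by ring
      rw [this] at hi
      exact not_odd_neg_one hh h3 hi
    have n2 : ¬ Odd (i + 1 - l).val := by
      have e : i + 1 - l = i - l + 1 := by ring
      rw [e]
      exact not_odd_succ hh h3 hi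
    show (if i + 1 = l then false else if Odd (i + 1 - l).val then g (i + 1) else
      g (i + 1 - 1)) = g i
    rw [if_neg n1, if_neg n2, add_sub_cancel_right]
  obtain ⟨M, m1, m2, m3', m4, m5⟩ := thM_exists hm m3 h3 w c ci hci hf Z l w' u' hu'
    (fun i => thE_ix hh h3 hhf hci hZ hl false i)
  have el1 : ∀ b, thE m h c hf Z l w' u' (fun _ => false) b (l + 1) =
      Z (l + 1) + (bif b then psi m h (hf * u') else - psi m h (hf * u')) := by
    intro b
    rw [thE_low hhf hodd1, Bool.false_xor]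
  let M' : ZMod h → Bool → ZMod (m * h) → ZMod (m * h) → Prop :=
    fun i b => if i = l + 1 then N b else M i b
  have hM1 : ∀ b, M' (l + 1) b = N b := fun b => if_pos rfl
  have hM2 : ∀ i b, i ≠ l + 1 → M' i b = M i b := fun i b hi => if_neg hi
  apply alpha_core hm m3 hh h3 c w w' ci hci hf hhf u' hu' Z hZ hrel a ha ha2 hau PL l hl hlo
    hZl f0 hf0 hf1 ?_ M' ?_ ?_ ?_ ?_ ?_ ?_
  · rw [thE_low hhf hal1, hflow _ hal1, Bool.xor_false]
    exact hw
  · intro i b u v hMM
    by_cases hi : i = l + 1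
    · rw [hi, hM1] at hMM ⊢; exact n1 _ _ _ hMM
    · rw [hM2 i b hi] at hMM ⊢; exact m1 _ _ _ _ hMM
  · intro i b u v hMM
    by_cases hi : i = l + 1
    · rw [hi, hM1] at hMM; rw [hi]; exact n2 _ _ _ hMM
    · rw [hM2 i b hi] at hMM; exact m2 _ _ _ _ hMM
  · intro i b u v v' hMM hMM'
    by_cases hi : i = l + 1
    · rw [hi, hM1] at hMM hMM'; exact n3 _ _ _ _ hMM hMM'
    · rw [hM2 i b hi] at hMM hMM'; exact m3' _ _ _ _ _ hMM hMM'
  · intro i b v hMM
    by_cases hi : i = l + 1
    · rw [hi, hM1, el1] at hMM; exact n4 _ _ hMM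
    · rw [hM2 i b hi] at hMM; exact m4 _ _ _ hMM
  · intro i u v hu huv
    by_cases hi : i = l + 1
    · rw [hi] at hu ⊢
      rcases n5 u v hu huv with ⟨b, h1, h2⟩ | ⟨b, h1⟩
      · left
        refine ⟨b, ?_, ?_⟩
        · rw [el1]; exact h1
        · rw [el1]; exact h2
      · right
        exact ⟨b, by rw [hM1]; exact h1⟩
    · rcases m5 i u v hu huv with h1 | ⟨b, h1⟩
      · exact Or.inl h1
      · exact Or.inr ⟨b, by rw [hM2 i b hi]; exact h1⟩
  · rw [hM1, hflow _ hodd1]
    exact hK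

end Pool.Agent.P45
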