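import Pool.Agent.Lib.P45dba8.TwoCycAll

/-! # MP_45dba8: a doubled unit with an arbitrary unused type, arbitrary displacement -/

set_option autoImplicit false

namespace Pool.Agent.P45

/-- A connected 2-regular relation on `ZMod n`, `n` odd, with a prescribed hole. -/
theorem ham_conn_TS {n : ℕ} (hn : Odd n) (h3 : 3 ≤ n) (Q : ZMod n → ZMod n → Prop)
    (hsym : ∀ u v, Q u v → Q v u) (hirr : ∀ v, ¬ Q v v)
    (hdeg : ∀ v, ∃ a b, a ≠ b ∧ ∀ w, Q v w ↔ w = a ∨ w = b)
    (hconn : ∀ u v, Relation.ReflTransGen Q u v) (p q : ZMod n) (hpq : Q p q) :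
    TS Set.univ Q (fun (_ : Unit) b => bif b then q else p) := by
  have hNZ : NeZero n := ⟨by omega⟩
  obtain ⟨π, -, h2⟩ := cyc_of_conn h3 Q hsym hirr hdeg hconn
  have cov : ∀ (i : ZMod n) (u v : ZMod n), Q u v →
      ∃ k, s(u, v) = s(((Equiv.addRight i).trans π) k, ((Equiv.addRight i).trans π) (k + 1)) := by
    intro i u v huv
    rcases h2 u v huv with h | h
    · refine ⟨π.symm u - i, ?_⟩
      show s(u, v) = s(π (π.symm u - i + i), π (π.symm u - i + 1 + i))
      rw [show π.symm u - i + i = π.symm u by ring,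
        show π.symm u - i + 1 + i = π.symm u + 1 by ring, ← h, π.apply_symm_apply,
        π.apply_symm_apply]
    · refine ⟨π.symm v - i, ?_⟩
      show s(u, v) = s(π (π.symm v - i + i), π (π.symm v - i + 1 + i))
      rw [show π.symm v - i + i = π.symm v by ring,
        show π.symm v - i + 1 + i = π.symm v + 1 by ring, ← h, π.apply_symm_apply,
        π.apply_symm_apply, Sym2.eq_swap]
  rcases h2 p q hpq with h | h
  · have h4 := (ham_TS hn (by omega) ((Equiv.addRight (π.symm p)).trans π)).mono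
      (E' := Q) (fun u _ v _ huv => cov _ u v huv)
    refine h4.congr ?_
    intro _ b
    cases b
    · show p = π (0 + π.symm p)
      rw [zero_add, π.apply_symm_apply]
    · show q = π (1 + π.symm p)
      rw [add_comm, ← h, π.apply_symm_apply]
  · have h4 := (ham_TS hn (by omega) ((Equiv.addRight (π.symm q)).trans π)).mono
      (E' := Q) (fun u _ v _ huv => cov _ u v huv)
    refine h4.ends ?_
    intro _
    show s(p, q) = s(π (0 + π.symm q), π (1 + π.symm q))
    rw [zero_add, π.apply_symm_apply, add_comm, ← h, π.apply_symm_apply, Sym2.eq_swap]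

/-- The set of the switched steps is not invariant under any translation. -/
theorem Grid.sx_change {h : ℕ} {a b : ZMod h} {g L : ℕ} (G : Grid a b g L) (h0 : 0 < h)
    (hg : 2 ≤ g) (hL : 3 ≤ L) (c : ℕ → ℕ) (δ : ZMod h) (hδ : δ ≠ 0) :
    ∃ v, ¬ SX a b g c v ∧ SX a b g c (v + δ) := by
  by_contra hcon
  push Not at hcon
  have H : ∀ u, SX a b g c u → SX a b g c (u - δ) := by
    intro u hu
    by_contra h1
    have h2 := hcon _ h1
    rw [sub_add_cancel] at h2
    exact h2 hu
  obtain ⟨i, j, hi, hj, hij⟩ := G.surj h0 (-δ)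
  have H' : ∀ u, SX a b g c u → SX a b g c (u + gp a b i j) := by
    intro u hu
    rw [← hij, ← sub_eq_add_neg]
    exact H u hu
  have add : ∀ i' j' : ℕ, gp a b i' j' + gp a b i j = gp a b (i' + i) (j' + j) := by
    intro i' j'
    unfold gp
    push_cast
    ring
  by_cases hi0 : i = 0
  · subst hi0
    have e1 := H' _ ((G.sx (c := c) (i := 0) (j := c 0) (by omega)).2
      ⟨by omega, Or.inl (Nat.ModEq.refl _)⟩)
    have e2 := H' _ ((G.sx (c := c) (i := 0) (j := c 0 + 1) (by omega)).2
      ⟨by omega, Or.inr (Nat.ModEq.refl _)⟩)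
    rw [add, Nat.add_zero, G.sx (by omega)] at e1 e2
    have hj0 : j ≠ 0 := by
      rintro rfl
      apply hδ
      have h1 : -δ = 0 := by
        rw [hij]
        unfold gp
        simp
      exact neg_eq_zero.1 h1
    have j1 : j ≡ 1 [MOD L] := by
      rcases e1.2 with h1 | h1
      · exact absurd h1 (not_modEq (by omega) hj)
      · exact Nat.ModEq.add_left_cancel' (c 0) h1
    have j1' : j = 1 := Nat.ModEq.eq_of_lt_of_lt j1 hj (by omega)
    subst j1'
    rcases e2.2 with h1 | h1
    · exact not_modEq (j := c 0) (t := 1 + 1) (by omega) (by omega) h1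
    · exact not_modEq (j := c 0 + 1) (t := 1) (by omega) (by omega) h1
  · have e1 := H' _ ((G.sx (c := c) (i := g - 1 - i) (j := c (g - 1 - i)) (by omega)).2
      ⟨by omega, Or.inl (Nat.ModEq.refl _)⟩)
    rw [add, show g - 1 - i + i = g - 1 by omega, G.sx (by omega)] at e1
    omega

theorem two_unit {n : ℕ} (hn : Odd n) : IsUnit (2 : ZMod n) := by
  have : IsUnit ((2 : ℕ) : ZMod n) := by
    rw [ZMod.isUnit_iff_coprime]
    exact Nat.coprime_two_left.2 hn
  exact_mod_cast this

/-- The normalised form: `u = γ c` with `2 γ < n`. -/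
theorem pair_any_aux {n : ℕ} (hn : Odd n) (h3 : 3 ≤ n) (c u : ZMod n) (hc : IsUnit c)
    (hu0 : u ≠ 0) (hu : ¬ IsUnit u) (γ : ℕ) (hγ : u = (γ : ZMod n) * c) (hγ2 : 2 * γ < n)
    (w w' : ZMod n) (hne : w' ≠ w) :
    TS Set.univ (DE (fun x => x = c ∨ x = u))
      (fun (k b : Bool) => (bif k then w' else w) + (bif b then c else 0)) := by
  have hNZ : NeZero n := ⟨by omega⟩
  obtain ⟨g, hg⟩ : ∃ g, g = Nat.gcd u.val n := ⟨_, rfl⟩
  have hgn : g ∣ n := by rw [hg]; exact Nat.gcd_dvd_right _ _
  have hg0 : 0 < g := Nat.pos_of_dvd_of_pos hgn (by omega)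
  have hgo : Odd g := hn.of_dvd_nat hgn
  have hg1 : g ≠ 1 := by
    intro h1
    apply hu
    rw [← ZMod.natCast_zmod_val u, ZMod.isUnit_iff_coprime]
    show Nat.gcd u.val n = 1
    rw [← hg, h1]
  have hg3 : 3 ≤ g := by
    obtain ⟨r, hr⟩ := hgo
    omega
  have hcv : Nat.Coprime c.val n := by
    rw [← ZMod.isUnit_iff_coprime, ZMod.natCast_zmod_val]
    exact hc
  have G : Grid c u g (n / g) := grid_of (by omega) c u g hg (Nat.Coprime.coprime_dvd_right hgn hcv)
  have G1 : Grid u c 1 n := by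
    have := grid_of (h := n) (by omega) u c 1 (by rw [hcv]) (Nat.coprime_one_right _)
    rwa [Nat.div_one] at this
  have hLg : g * (n / g) = n := Nat.mul_div_cancel' hgn
  obtain ⟨L, hL⟩ : ∃ L, L = n / g := ⟨_, rfl⟩
  rw [← hL] at G hLg
  have hLo : Odd L := by
    rw [← hLg] at hn
    exact (Nat.odd_mul.1 hn).2
  have hugd : g ∣ u.val := by rw [hg]; exact Nat.gcd_dvd_left _ _
  have hL1 : L ≠ 1 := by
    intro h1
    rw [h1, mul_one] at hLg
    have h5 := ZMod.val_lt u
    have h6 : u.val ≠ 0 := fun h' => hu0 ((ZMod.val_eq_zero u).1 h')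
    have := Nat.le_of_dvd (by omega) hugd
    omega
  have hL3 : 3 ≤ L := by
    obtain ⟨r, hr⟩ := hLo
    omega
  have k4 : g ∣ γ := by
    have h4 : ((u.val : ℕ) : ZMod n) = ((γ * c.val : ℕ) : ZMod n) := by
      push_cast
      rw [ZMod.natCast_zmod_val, ZMod.natCast_zmod_val]; exact hγ
    rw [ZMod.natCast_eq_natCast_iff] at h4
    have h5 : u.val ≡ γ * c.val [MOD g] := h4.of_dvd hgn
    have h6 : u.val ≡ 0 [MOD g] := (Nat.modEq_zero_iff_dvd).2 hugd
    have h7 : γ * c.val ≡ 0 [MOD g] := h5.symm.trans h6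
    exact (Nat.Coprime.dvd_mul_right (Nat.Coprime.coprime_dvd_right hgn hcv).symm).1
      ((Nat.modEq_zero_iff_dvd).1 h7)
  have k5 : γ ≠ 0 := by
    rintro rfl
    apply hu0
    rw [hγ, Nat.cast_zero, zero_mul]
  have k6 : g ≤ γ := Nat.le_of_dvd (by omega) k4
  have k7 : g ∣ n - 2 * γ := Nat.dvd_sub hgn (Dvd.dvd.mul_left k4 2)
  have k8 : g ≤ n - 2 * γ := Nat.le_of_dvd (by omega) k7
  have hgo' : g % 2 = 1 := Nat.odd_iff.1 hgo
  have hcc := cc_nmod (u := 0) (L := L) rfl (by omega)
  have hreg := G.reg (c := cc 0) hL3 hcc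
  have hconn1 := G.conn1_one G1 hL3 hg3 hgo' γ hγ k6 (by omega)
  have hconn2 := G.conn2 (c := cc 0) (by omega) hL3 hcc
  have h2 := two_unit hn
  have hneg : ∀ z : ZMod n, z ≠ 0 → z ≠ -z := by
    intro z hz h1
    apply hz
    have : (2 : ZMod n) * z = 0 := by linear_combination h1
    exact (h2.mul_right_eq_zero).1 this
  have hc0 : c ≠ 0 := by
    rintro rfl
    have : Fact (1 < n) := ⟨by omega⟩
    exact not_isUnit_zero hc
  have hcu : c ≠ u := fun h => hu (h ▸ hc)
  have hcu' : c ≠ -u := by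
    intro h
    apply hu
    have : u = -c := by rw [h, neg_neg]
    rw [this]
    exact hc.neg
  have hirr : ∀ (X Y : ZMod n → Prop) (v : ZMod n), ¬ Ed c u X Y v v := by
    intro X Y v
    rw [Ed_iff]
    rintro (⟨-, h1⟩ | ⟨-, h1⟩ | ⟨-, h1⟩ | ⟨-, h1⟩)
    · exact hc0 (by linear_combination -h1)
    · exact hc0 (by linear_combination h1)
    · exact hu0 (by linear_combination -h1)
    · exact hu0 (by linear_combination h1)
  have hreg' : Reg c u (fun v => ¬ ¬ SX c u g (cc 0) v) (fun v => ¬ SY c u g (cc 0) v) :=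
    fun v => (hreg v).compl
  have enn : (fun v => ¬ ¬ SX c u g (cc 0) v) = SX c u g (cc 0) := by
    funext v
    exact propext not_not
  rw [enn] at hreg'
  obtain ⟨v, hv1, hv2⟩ := G.sx_change (by omega) (by omega) hL3 (cc 0) (w' - w) (sub_ne_zero.2 hne)
  have T1 := ham_conn_TS hn h3 (Ed c u (fun v => ¬ SX c u g (cc 0) v) (SY c u g (cc 0)))
    (fun _ _ h' => Ed.symm h') (hirr _ _) (hreg.deg (hneg _ hc0) (hneg _ hu0) hcu hcu')
    (fun x y => ((hconn1 x).trans (Lk.symm (hconn1 y))).rtg) v (v + c) (Or.inl ⟨hv1, rfl⟩)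
  have T2 := ham_conn_TS hn h3 (Ed c u (SX c u g (cc 0)) (fun v => ¬ SY c u g (cc 0) v))
    (fun _ _ h' => Ed.symm h') (hirr _ _) (hreg'.deg (hneg _ hc0) (hneg _ hu0) hcu hcu')
    (fun x y => ((hconn2 x (by omega)).trans (Lk.symm (hconn2 y (by omega)))).rtg)
    (v + (w' - w)) (v + (w' - w) + c) (Or.inl ⟨hv2, rfl⟩)
  have T3 := (T1.union T2).reindex (Θ' := Bool)
    { toFun := fun k => bif k then Sum.inr () else Sum.inl ()
      invFun := fun k => Sum.elim (fun _ => false) (fun _ => true) k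
      left_inv := by rintro (_ | _) <;> rfl
      right_inv := by rintro (_ | _) <;> rfl }
  refine (T3.map (fun x => x + (w - v)) (add_left_injective _) Set.univ
    (DE (fun x => x = c ∨ x = u)) ?_ ?_).congr ?_
  · intro x
    simp only [Set.mem_univ, true_and, true_iff]
    exact ⟨x - (w - v), by ring⟩
  · rintro x - y - ⟨δ, hδ, hxy⟩
    have e1 : y = x + δ ∨ x = y + δ := by
      rcases hxy with h | h
      · left
        have h' : y + (w - v) = x + (w - v) + δ := h
        linear_combination h'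
      · right
        have h' : x + (w - v) = y + (w - v) + δ := h
        linear_combination h'
    rcases hδ with rfl | rfl
    · rcases e1 with h | h
      · by_cases hs : SX δ u g (cc 0) x
        · exact Or.inr (Or.inl ⟨hs, h⟩)
        · exact Or.inl (Or.inl ⟨hs, h⟩)
      · by_cases hs : SX δ u g (cc 0) y
        · exact Or.inr (Or.inr (Or.inl ⟨hs, h⟩))
        · exact Or.inl (Or.inr (Or.inl ⟨hs, h⟩))
    · rcases e1 with h | h
      · by_cases hs : SY c δ g (cc 0) x
        · exact Or.inl (Or.inr (Or.inr (Or.inl ⟨hs, h⟩)))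
        · exact Or.inr (Or.inr (Or.inr (Or.inl ⟨hs, h⟩)))
      · by_cases hs : SY c δ g (cc 0) y
        · exact Or.inl (Or.inr (Or.inr (Or.inr ⟨hs, h⟩)))
        · exact Or.inr (Or.inr (Or.inr (Or.inr ⟨hs, h⟩)))
  · intro k b
    cases k <;> cases b
    · show w + 0 = v + (w - v)
      ring
    · show w + c = v + c + (w - v)
      ring
    · show w' + 0 = v + (w' - w) + (w - v)
      ring
    · show w' + c = v + (w' - w) + c + (w - v)
      ring

/-- A doubled unit `c` with an arbitrary unused type `u` and arbitrary different positions. -/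
theorem pair_any {n : ℕ} (hn : Odd n) (h3 : 3 ≤ n) (c u : ZMod n) (hc : IsUnit c) (hu0 : u ≠ 0)
    (hcu : c ≠ u) (hcu' : c ≠ -u) (w w' : ZMod n) (hne : w' ≠ w) :
    TS Set.univ (DE (fun x => x = c ∨ x = u))
      (fun (k b : Bool) => (bif k then w' else w) + (bif b then c else 0)) := by
  have hNZ : NeZero n := ⟨by omega⟩
  by_cases hu : IsUnit u
  · refine (pair_units hn h3 c u hc hu hcu hcu' w (w' - w) (sub_ne_zero.2 hne)).congr ?_
    intro k b
    cases k
    · show w + (bif b then c else 0) = w + 0 + (bif b then c else 0)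
      ring
    · show w' + (bif b then c else 0) = w + (w' - w) + (bif b then c else 0)
      ring
  obtain ⟨ci, hci⟩ := hc.exists_right_inv
  have e1 : (((u * ci).val : ℕ) : ZMod n) = u * ci := ZMod.natCast_zmod_val _
  by_cases h2 : 2 * (u * ci).val < n
  · exact pair_any_aux hn h3 c u hc hu0 hu (u * ci).val (by
      rw [e1]; linear_combination (-u) * hci) h2 w w' hne
  · have e0 : u * ci ≠ 0 := by
      intro h
      apply hu0
      have h' : u * (c * ci) = 0 := by linear_combination c * h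
      rwa [hci, mul_one] at h'
    have e3 : (-(u * ci)).val = n - (u * ci).val := by rw [ZMod.neg_val, if_neg e0]
    have e4 : (((-(u * ci)).val : ℕ) : ZMod n) = -(u * ci) := ZMod.natCast_zmod_val _
    have e5 := ZMod.val_lt (u * ci)
    have hodd : n % 2 = 1 := Nat.odd_iff.1 hn
    refine (pair_any_aux hn h3 c (-u) hc (neg_ne_zero.2 hu0)
      (fun h => hu (by have := h.neg; rwa [neg_neg] at this)) (-(u * ci)).val (by
      rw [e4]; linear_combination u * hci) (by rw [e3]; omega) w w' hne).mono ?_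
    rintro x - y - ⟨δ, hδ, hxy⟩
    rcases hδ with rfl | rfl
    · exact ⟨δ, Or.inl rfl, hxy⟩
    · refine ⟨-δ, Or.inr rfl, ?_⟩
      rcases hxy with h | h
      · right
        linear_combination -h
      · left
        linear_combination -h

end Pool.Agent.P45
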