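import Pool.Agent.Lib.P45dba8.AsmSide
import Pool.Agent.Lib.P45dba8.PairAny

/-! # MP_45dba8: the assemblies with the label `2k` doubled, arbitrary unused label `u₀` -/

set_option autoImplicit false

namespace Pool.Agent.P45

/-- THE ASSEMBLY FOR EVEN `k`, no condition on `u₀`. -/
theorem asm_even_any (k : ℕ) (hk : 1 ≤ k) (DS US DT UT : Finset ℕ) (u₀ : ℕ)
    (hS : DS ∪ US ⊆ Finset.Icc 1 (2 * k)) (hT : DT ∪ UT ⊆ Finset.Icc 1 (2 * k))
    (hu1 : 1 ≤ u₀) (hu2 : u₀ < 2 * k)
    (X : Finset (ZMod (4 * k + 1))) (hXk : X.card = k) (hadj : ∀ x ∈ X, x + 1 ∉ X)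
    (hDS : 2 * DS.card = k) (hDT : 2 * DT.card + 2 = k)
    (pS pT : ℕ → ZMod (4 * k + 1)) (w w' : ZMod (4 * k + 1))
    (hXS : ∀ x, x ∈ X ↔ ∃ d ∈ DS, x = pS d ∨ x = pS d + 2 * (d : ZMod (4 * k + 1)))
    (hXT : ∀ x, x ∈ X ↔ (∃ d ∈ DT, x = pT d ∨ x = pT d + 2 * (d : ZMod (4 * k + 1))) ∨
      x = w ∨ x = w')
    (σ τ : ℕ → ℕ) (hσ : Set.BijOn σ DS US) (hτ : Set.BijOn τ DT UT)
    (hGS : Good (4 * k + 1) IsUnit
      (fun i : {i // i ∈ (∅ : Finset ℕ)} => ((2 * i.1 : ℕ) : ZMod (4 * k + 1)))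
      (fun d : {d // d ∈ DS} => ((2 * d.1 : ℕ) : ZMod (4 * k + 1)))
      (fun d : {d // d ∈ DS} => ((2 * σ d.1 : ℕ) : ZMod (4 * k + 1))))
    (hGT : Good (4 * k + 1) IsUnit
      (fun i : {i // i ∈ (∅ : Finset ℕ)} => ((2 * i.1 : ℕ) : ZMod (4 * k + 1)))
      (fun d : {d // d ∈ DT} => ((2 * d.1 : ℕ) : ZMod (4 * k + 1)))
      (fun d : {d // d ∈ DT} => ((2 * τ d.1 : ℕ) : ZMod (4 * k + 1)))) :
    ∃ A : Finset (ZMod (4 * k + 1)), A.card = 2 * k ∧ EG (LSet k (DS ∪ US)) A ∧
      EG (LSet k (DT ∪ UT ∪ {2 * k, u₀})) A := by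
  classical
  have hodd : Odd (4 * k + 1) := ⟨2 * k, by ring⟩
  have h2k : (2 : ZMod (4 * k + 1)) * ((2 * k : ℕ) : ZMod (4 * k + 1)) = -1 := by
    have h : ((4 * k + 1 : ℕ) : ZMod (4 * k + 1)) = 0 := ZMod.natCast_self _
    push_cast at h ⊢
    linear_combination h
  refine ⟨dom X, by rw [card_dom hadj, hXk], ?_, ?_⟩
  · refine EG_dom hodd _ (zero_notMem_LSet hS) X hadj (ept DS pS) ?_ ?_
      (Θ := {d // d ∈ DS} × Bool) (fun θ b => (θ.1, b)) (fun θ _ => θ.2) ?_ ?_ _ ?_
      (side_TS hσ hGS pS)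
    · intro x
      rw [hXS]
      constructor
      · rintro ⟨d, hd, rfl | rfl⟩
        · exact ⟨(⟨d, hd⟩, false), add_zero _⟩
        · exact ⟨(⟨d, hd⟩, true), rfl⟩
      · rintro ⟨⟨⟨d, hd⟩, b⟩, rfl⟩
        refine ⟨d, hd, ?_⟩
        cases b
        · exact Or.inl (add_zero _)
        · exact Or.inr rfl
    · rw [Fintype.card_prod, Fintype.card_coe, Fintype.card_bool]
      omega
    · rintro ⟨d, c⟩ b ⟨d', c'⟩ b' h1 h2
      obtain ⟨h3, h4⟩ := Prod.ext_iff.1 h1
      have h3' : d = d' := h3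
      have h4' : b = b' := h4
      have h2' : c = c' := h2
      subst h3' h4' h2'
      exact ⟨rfl, rfl⟩
    · rintro ⟨d, b⟩ c
      exact ⟨(d, c), b, rfl, rfl⟩
    · rintro ⟨d, c⟩ b
      rfl
  · have hw : w' ≠ w := by
      intro h
      have h1 : X ⊆ (Finset.univ : Finset ({d // d ∈ DT} × Bool)).image (ept DT pT) ∪ {w} := by
        intro x hx
        rcases (hXT x).1 hx with ⟨d, hd, rfl | rfl⟩ | rfl | rfl
        · exact Finset.mem_union_left _ (Finset.mem_image.2 ⟨(⟨d, hd⟩, false), Finset.mem_univ _,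
            add_zero _⟩)
        · exact Finset.mem_union_left _ (Finset.mem_image.2 ⟨(⟨d, hd⟩, true), Finset.mem_univ _,
            rfl⟩)
        · exact Finset.mem_union_right _ (Finset.mem_singleton_self _)
        · exact Finset.mem_union_right _ (by rw [h]; exact Finset.mem_singleton_self _)
      have h2 := (Finset.card_le_card h1).trans (Finset.card_union_le _ _)
      have h3 : ((Finset.univ : Finset ({d // d ∈ DT} × Bool)).image (ept DT pT)).card ≤
          DT.card * 2 := by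
        refine Finset.card_image_le.trans ?_
        rw [Finset.card_univ, Fintype.card_prod, Fintype.card_coe, Fintype.card_bool]
      rw [Finset.card_singleton] at h2
      omega
    have hl : ∀ j : ℕ, 1 ≤ j → j ≤ 2 * k → (2 : ZMod (4 * k + 1)) * (j : ZMod (4 * k + 1)) ≠ 0 := by
      intro j h1 h2
      have := label_ne_zero (1 : ZMod (4 * k + 1)) isUnit_one h1 h2
      rwa [one_mul] at this
    have hval : ∀ j : ℕ, j ≤ 2 * k → ((2 * j : ℕ) : ZMod (4 * k + 1)).val = 2 * j := by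
      intro j hj
      exact ZMod.val_cast_of_lt (by omega)
    have hF1 : Fact (1 < 4 * k + 1) := ⟨by omega⟩
    have c1 : (1 : ZMod (4 * k + 1)) ≠ 2 * (u₀ : ZMod (4 * k + 1)) := by
      intro h
      have h1 := congrArg ZMod.val h
      have h2 := hval u₀ hu2.le
      push_cast at h2
      rw [h2, ZMod.val_one] at h1
      omega
    have c2 : (1 : ZMod (4 * k + 1)) ≠ -(2 * (u₀ : ZMod (4 * k + 1))) := by
      intro h
      have h1 : ((2 * u₀ : ℕ) : ZMod (4 * k + 1)) = ((4 * k : ℕ) : ZMod (4 * k + 1)) := by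
        push_cast at h2k ⊢
        linear_combination h - h2k
      have h2 := congrArg ZMod.val h1
      rw [hval u₀ hu2.le, ZMod.val_cast_of_lt (by omega)] at h2
      omega
    have hTS := (side_TS hτ hGT pT).union (pair_any hodd (by omega) 1
      (2 * (u₀ : ZMod (4 * k + 1))) isUnit_one (hl u₀ hu1 hu2.le) c1 c2 w w' hw)
    refine EG_dom hodd _ (zero_notMem_LSet ?_) X hadj
      (α := ({d // d ∈ DT} × Bool) ⊕ Bool)
      (Sum.elim (ept DT pT) (fun c => bif c then w' else w)) ?_ ?_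
      (Θ := ({d // d ∈ DT} × Bool) ⊕ Bool)
      (fun θ b => Sum.elim (fun θ => Sum.inl (θ.1, b)) (fun c => Sum.inr c) θ)
      (fun θ b => Sum.elim (fun θ => θ.2) (fun _ => b) θ) ?_ ?_ _ ?_
      (hTS.mono ?_)
    · intro x hx
      rw [Finset.mem_union] at hx
      rcases hx with hx | hx
      · exact hT hx
      · rw [Finset.mem_insert, Finset.mem_singleton] at hx
        rw [Finset.mem_Icc]
        omega
    · intro x
      rw [hXT]
      constructor
      · rintro (⟨d, hd, rfl | rfl⟩ | rfl | rfl)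
        · exact ⟨Sum.inl (⟨d, hd⟩, false), add_zero _⟩
        · exact ⟨Sum.inl (⟨d, hd⟩, true), rfl⟩
        · exact ⟨Sum.inr false, rfl⟩
        · exact ⟨Sum.inr true, rfl⟩
      · rintro ⟨⟨⟨d, hd⟩, b⟩ | c, rfl⟩
        · left
          refine ⟨d, hd, ?_⟩
          cases b
          · exact Or.inl (add_zero _)
          · exact Or.inr rfl
        · right
          cases c
          · exact Or.inl rfl
          · exact Or.inr rfl
    · rw [Fintype.card_sum, Fintype.card_prod, Fintype.card_coe, Fintype.card_bool]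
      omega
    · rintro (⟨d, c⟩ | c) b (⟨d', c'⟩ | c') b' h1 h2
      · obtain ⟨h3, h4⟩ := Prod.ext_iff.1 (Sum.inl_injective h1)
        have h3' : d = d' := h3
        have h4' : b = b' := h4
        have h2' : c = c' := h2
        subst h3' h4' h2'
        exact ⟨rfl, rfl⟩
      · exact absurd h1 (by simp)
      · exact absurd h1 (by simp)
      · have h3' : c = c' := Sum.inr_injective h1
        have h2' : b = b' := h2
        subst h3' h2'
        exact ⟨rfl, rfl⟩
    · rintro (⟨d, b⟩ | c') c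
      · exact ⟨Sum.inl (d, c), b, rfl, rfl⟩
      · exact ⟨Sum.inr c', c, rfl, rfl⟩
    · rintro (⟨d, c⟩ | c) b
      · rfl
      · rfl
    · rintro x - y - ⟨j, hj, h⟩
      rw [Finset.mem_union, Finset.mem_insert, Finset.mem_singleton] at hj
      rcases hj with hj | rfl | rfl
      · exact Or.inl ⟨j, hj, h⟩
      · right
        refine ⟨1, Or.inl rfl, ?_⟩
        rcases h with h | h
        · rw [h2k] at h
          right
          linear_combination -h
        · rw [h2k] at h
          left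
          linear_combination h
      · right
        refine ⟨_, Or.inr rfl, ?_⟩
        rcases h with h | h
        · left
          linear_combination h
        · right
          linear_combination -h

section side

variable {k : ℕ} {I D D' U : Finset ℕ} {σ : ℕ → ℕ}

/-- A side with the type 1 (label `2 k`) doubled at `{w, w + 1}`, `{w', w' + 1}`, with the unused
label `u₀`, no condition on `u₀`. -/
theorem sideEG_two_any (hk : 1 ≤ k) (hsub : I ∪ (D ∪ D') ∪ U ⊆ Finset.Icc 1 (2 * k))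
    (hDD : Disjoint D D') (hσ : Set.BijOn σ (D ∪ D' : Finset ℕ) U)
    (hG : Good (4 * k + 1) IsUnit
      (fun i : {i // i ∈ I} => ((2 * i.1 : ℕ) : ZMod (4 * k + 1)))
      (fun d : {d // d ∈ D ∪ D'} => ((2 * d.1 : ℕ) : ZMod (4 * k + 1)))
      (fun d : {d // d ∈ D ∪ D'} => ((2 * σ d.1 : ℕ) : ZMod (4 * k + 1))))
    (u₀ : ℕ) (hu1 : 1 ≤ u₀) (hu2 : u₀ < 2 * k)
    (q p p' : ℕ → ZMod (4 * k + 1)) (w w' : ZMod (4 * k + 1)) (hw : w' ≠ w)
    (A : Finset (ZMod (4 * k + 1)))
    (hc : A.card = 2 * (I.card + 2 * (D.card + D'.card) + 2))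
    (hA : ∀ v, v ∈ A ↔ sideM k I D D' σ q p p' v ∨ v = w ∨ v = w + 1 ∨ v = w' ∨ v = w' + 1) :
    EG (LSet k (I ∪ (D ∪ D') ∪ U ∪ {2 * k, u₀})) A := by
  classical
  have hodd : Odd (4 * k + 1) := ⟨2 * k, by ring⟩
  have h2k := two_mul_2k k
  have hl : ∀ j : ℕ, 1 ≤ j → j ≤ 2 * k → (2 : ZMod (4 * k + 1)) * (j : ZMod (4 * k + 1)) ≠ 0 := by
    intro j h1 h2
    have := label_ne_zero (1 : ZMod (4 * k + 1)) isUnit_one h1 h2
    rwa [one_mul] at this
  have hval : ∀ j : ℕ, j ≤ 2 * k → ((2 * j : ℕ) : ZMod (4 * k + 1)).val = 2 * j := by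
    intro j hj
    exact ZMod.val_cast_of_lt (by omega)
  have hF1 : Fact (1 < 4 * k + 1) := ⟨by omega⟩
  have c1 : (1 : ZMod (4 * k + 1)) ≠ 2 * (u₀ : ZMod (4 * k + 1)) := by
    intro h
    have h1 := congrArg ZMod.val h
    have h2 := hval u₀ hu2.le
    push_cast at h2
    rw [h2, ZMod.val_one] at h1
    omega
  have c2 : (1 : ZMod (4 * k + 1)) ≠ -(2 * (u₀ : ZMod (4 * k + 1))) := by
    intro h
    have h1 : ((2 * u₀ : ℕ) : ZMod (4 * k + 1)) = ((4 * k : ℕ) : ZMod (4 * k + 1)) := by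
      push_cast at h2k ⊢
      linear_combination h - h2k
    have h2 := congrArg ZMod.val h1
    rw [hval u₀ hu2.le, ZMod.val_cast_of_lt (by omega)] at h2
    omega
  have h1 := pair_any hodd (by omega) 1
    (2 * (u₀ : ZMod (4 * k + 1))) isUnit_one (hl u₀ hu1 hu2.le) c1 c2 w w' hw
  refine EG_of_cover (by rw [ZMod.card]; exact hodd) _ (zero_notMem_LSet ?_) A
    (Sum.elim (sideE k I D D' σ q p p')
      (fun (c b : Bool) => (bif c then w' else w) + (bif b then 1 else 0))) ?_ ?_
    (((sideTS hσ hG q p p').union h1).mono ?_)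
  · intro x hx
    rcases Finset.mem_union.1 hx with hx | hx
    · exact hsub hx
    · rw [Finset.mem_insert, Finset.mem_singleton] at hx
      rw [Finset.mem_Icc]
      omega
  · rw [hc, Fintype.card_sum, Fintype.card_sum, Fintype.card_prod, Fintype.card_coe,
      Fintype.card_coe, Fintype.card_bool, Finset.card_union_of_disjoint hDD]
    ring
  · intro v
    rw [hA, ← sideE_mem hDD]
    constructor
    · rintro (⟨θ, b, h⟩ | h | h | h | h)
      · exact ⟨Sum.inl θ, b, h⟩
      · exact ⟨Sum.inr false, false, by rw [h]; exact add_zero _⟩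
      · exact ⟨Sum.inr false, true, by rw [h]; rfl⟩
      · exact ⟨Sum.inr true, false, by rw [h]; exact add_zero _⟩
      · exact ⟨Sum.inr true, true, by rw [h]; rfl⟩
    · rintro ⟨θ | c, b, h⟩
      · exact Or.inl ⟨θ, b, h⟩
      · cases c <;> cases b
        · exact Or.inr (Or.inl (by rw [← h]; exact add_zero _))
        · exact Or.inr (Or.inr (Or.inl (by rw [← h]; rfl)))
        · exact Or.inr (Or.inr (Or.inr (Or.inl (by rw [← h]; exact add_zero _))))
        · exact Or.inr (Or.inr (Or.inr (Or.inr (by rw [← h]; rfl))))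
  · rintro x - y - ⟨j, hj, h⟩
    rw [Finset.mem_union, Finset.mem_insert, Finset.mem_singleton] at hj
    rcases hj with hj | rfl | rfl
    · exact Or.inl ⟨j, hj, h⟩
    · right
      refine ⟨1, Or.inl rfl, ?_⟩
      rcases h with h | h
      · rw [h2k] at h
        right
        linear_combination -h
      · rw [h2k] at h
        left
        linear_combination h
    · right
      refine ⟨_, Or.inr rfl, ?_⟩
      rcases h with h | h
      · left
        linear_combination h
      · right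
        linear_combination -h

end side

end Pool.Agent.P45
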