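import Pool.Agent.Lib.P45dba8.L0

/-! # Every pair of types generating `ZMod n` is good; families of such pairs -/

set_option autoImplicit false

namespace Pool.Agent.P45

theorem good_single {n : ℕ} (hn : Odd n) (h2 : 2 ≤ n) (Q : ZMod n → Prop) (t : ZMod n)
    (ht : IsUnit t) :
    Good n Q (fun _ : Unit => t) (fun k : Empty => k.elim) (fun k : Empty => k.elim) := by
  intro P A hA _
  refine (((cyc_unit hn h2 t (P (Sum.inl ())) ht).mono ?_).reindex
    (Θ' := Unit ⊕ Empty × Bool)
    { toFun := fun _ => ()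
      invFun := fun _ => Sum.inl ()
      left_inv := by rintro (_ | ⟨k, _⟩); exacts [rfl, k.elim]
      right_inv := fun _ => rfl }).congr ?_
  · rintro u - v - ⟨δ, ⟨_, hδ⟩ | ⟨k, _⟩, h⟩
    · exact ⟨δ, hδ, h⟩
    · exact k.elim
  · rintro (_ | ⟨k, _⟩) b
    · show P (Sum.inl ()) + (bif b then A (Sum.inl ()) else 0) =
        P (Sum.inl ()) + (bif b then t else 0)
      rw [hA]
    · exact k.elim

/-- One hole of each type. -/
theorem pairTS_11 {m h : ℕ} (hm : Odd m) (m3 : 3 ≤ m) (hh : Odd h) (h3 : 3 ≤ h)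
    (c : ZMod (m * h)) (hc : IsUnit (red m h c)) (u' : ZMod m) (hu' : IsUnit u')
    (p q : ZMod (m * h)) :
    TS Set.univ (DE (fun x => x = c ∨ x = psi m h u'))
      (fun (k b : Bool) => (bif k then q else p) +
        (bif b then (bif k then psi m h u' else c) else 0)) := by
  have hne : Nonempty (Unit ⊕ Empty × Bool) := ⟨Sum.inl ()⟩
  have hG := Good.host hm hh h3 (Q := IsUnit) (fun _ hx => hx)
    (good_single hm (by omega) IsUnit u' hu') (by
      rintro (_ | ⟨k, _⟩) (_ | ⟨k', _⟩) hxy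
      · exact absurd rfl hxy
      · exact k'.elim
      · exact k.elim
      · exact k.elim) c hc
  have h1 := hG (Sum.elim (fun i => i.elim p (fun _ => q)) (fun k => k.1.elim))
    (Sum.elim (fun i => i.elim c (fun _ => psi m h u')) (fun k => k.1.elim))
    (by intro i; cases i <;> rfl) (fun k => k.elim)
  refine ((h1.mono ?_).reindex (Θ' := Bool)
    { toFun := fun k => bif k then Sum.inl (some ()) else Sum.inl none
      invFun := fun k => Sum.elim (fun i => i.elim false (fun _ => true)) (fun k => k.1.elim) k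
      left_inv := by rintro (_ | _) <;> rfl
      right_inv := by
        rintro ((_ | _) | ⟨k, _⟩)
        · rfl
        · rfl
        · exact k.elim }).congr ?_
  · rintro x - y - ⟨δ, hδ, hxy⟩
    rcases hδ with hδ | hδ
    · exact ⟨δ, Or.inl ⟨none, hδ⟩, hxy⟩
    · exact ⟨δ, Or.inl ⟨some (), hδ⟩, hxy⟩
  · intro k b
    cases k <;> rfl

/-- From `Bool`-indexed systems to `Good` of one pair. -/
theorem good_of_three {n : ℕ} (Q : ZMod n → Prop) (d u : ZMod n)
    (h11 : ∀ p q : ZMod n, TS Set.univ (DE (fun x => x = d ∨ x = u))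
      (fun (k b : Bool) => (bif k then q else p) + (bif b then (bif k then u else d) else 0)))
    (h20 : ∀ p q : ZMod n, Q (q - p) → TS Set.univ (DE (fun x => x = d ∨ x = u))
      (fun (k b : Bool) => (bif k then q else p) + (bif b then d else 0)))
    (h02 : ∀ p q : ZMod n, Q (q - p) → TS Set.univ (DE (fun x => x = d ∨ x = u))
      (fun (k b : Bool) => (bif k then q else p) + (bif b then u else 0))) :
    Good n Q (fun k : Empty => k.elim) (fun _ : Unit => d) (fun _ : Unit => u) := by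
  intro P A _ hP
  have key : ∀ (a a' : ZMod n), A (Sum.inr ((), false)) = a → A (Sum.inr ((), true)) = a' →
      TS Set.univ (DE (fun x => x = d ∨ x = u))
        (fun (k b : Bool) => (bif k then P (Sum.inr ((), true)) else P (Sum.inr ((), false))) +
          (bif b then (bif k then a' else a) else 0)) →
      TS Set.univ (DE (FD (fun k : Empty => (k.elim : ZMod n)) (fun _ : Unit => d)
        (fun _ : Unit => u))) (fh P A) := by
    intro a a' ha ha' hT
    refine ((hT.mono ?_).reindex (Θ' := Empty ⊕ Unit × Bool)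
      { toFun := fun k => Sum.elim (fun k => k.elim) (fun k => k.2) k
        invFun := fun k => Sum.inr ((), k)
        left_inv := by
          rintro (k | ⟨_, _⟩)
          · exact k.elim
          · rfl
        right_inv := fun _ => rfl }).congr ?_
    · rintro x - y - ⟨δ, hδ, hxy⟩
      rcases hδ with ⟨k, _⟩ | ⟨_, hδ⟩
      · exact k.elim
      · exact ⟨δ, hδ, hxy⟩
    · rintro (k | ⟨_, k⟩) b
      · exact k.elim
      · cases k
        · show P (Sum.inr ((), false)) + (bif b then A (Sum.inr ((), false)) else 0) =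
            P (Sum.inr ((), false)) + (bif b then a else 0)
          rw [ha]
        · show P (Sum.inr ((), true)) + (bif b then A (Sum.inr ((), true)) else 0) =
            P (Sum.inr ((), true)) + (bif b then a' else 0)
          rw [ha']
  rcases hP () with ⟨h1, h2⟩ | ⟨h1, h2⟩ | ⟨⟨h1, h2⟩ | ⟨h1, h2⟩, h4⟩
  · exact key d u h1 h2 (h11 _ _)
  · apply key u d h1 h2
    refine ((h11 (P (Sum.inr ((), true))) (P (Sum.inr ((), false)))).reindex
      (Θ' := Bool) ⟨not, not, Bool.not_not, Bool.not_not⟩).congr ?_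
    intro k b
    cases k <;> rfl
  · apply key d d h1 h2
    refine (h20 _ _ h4).congr ?_
    intro k b
    cases k <;> rfl
  · apply key u u h1 h2
    refine (h02 _ _ h4).congr ?_
    intro k b
    cases k <;> rfl

/-- Base type `psi u'`, carrier type `c`. -/
theorem good_cb {m h : ℕ} (hm : Odd m) (m3 : 3 ≤ m) (hh : Odd h) (h3 : 3 ≤ h)
    (c : ZMod (m * h)) (hc : IsUnit (red m h c)) (u' : ZMod m) (hu' : IsUnit u') :
    Good (m * h) (fun δ => red m h δ ≠ 0) (fun k : Empty => k.elim) (fun _ : Unit => c)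
      (fun _ : Unit => psi m h u') := by
  apply good_of_three
  · exact pairTS_11 hm m3 hh h3 c hc u' hu'
  · intro p q hpq
    exact pair_L2 hm m3 hh h3 c hc u' hu' p q (fun h' => hpq (by rw [map_sub, h', sub_self]))
  · intro p q hpq
    exact pair_L0 hm m3 hh h3 c hc u' hu' q p (fun h' => hpq (by rw [map_sub, h', sub_self]))

theorem Good.swap_pair {n : ℕ} {Q : ZMod n → Prop} {ι κ : Type*} {t : ι → ZMod n}
    {d u : κ → ZMod n} (hG : Good n Q t d u) : Good n Q t u d := by
  intro P A hA hP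
  refine (hG P A hA ?_).mono ?_
  · intro k
    rcases hP k with h1 | h1 | ⟨h1 | h1, h2⟩
    · exact Or.inr (Or.inl h1)
    · exact Or.inl h1
    · exact Or.inr (Or.inr ⟨Or.inr h1, h2⟩)
    · exact Or.inr (Or.inr ⟨Or.inl h1, h2⟩)
  · rintro x - y - ⟨δ, hδ, hxy⟩
    rcases hδ with hδ | ⟨k, hδ⟩
    · exact ⟨δ, Or.inl hδ, hxy⟩
    · exact ⟨δ, Or.inr ⟨k, hδ.symm⟩, hxy⟩

theorem Good.monoQ {n : ℕ} {Q Q' : ZMod n → Prop} {ι κ : Type*} {t : ι → ZMod n}
    {d u : κ → ZMod n} (hG : Good n Q t d u) (h : ∀ x, Q' x → Q x) : Good n Q' t d u := by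
  intro P A hA hP
  refine hG P A hA ?_
  intro k
  rcases hP k with h1 | h1 | ⟨h1, h2⟩
  · exact Or.inl h1
  · exact Or.inr (Or.inl h1)
  · exact Or.inr (Or.inr ⟨h1, h _ h2⟩)

/-- `d`, `u` generate `ZMod n`. -/
def cop {n : ℕ} (d u : ZMod n) : Prop := Nat.gcd (Nat.gcd d.val u.val) n = 1

/-- An element of `ZMod (m * g)` whose gcd with `m * g` is `g`. -/
theorem exists_psi_unit {m g : ℕ} (hm : 0 < m) (hg : 0 < g) (x : ZMod (m * g))
    (hx : Nat.gcd x.val (m * g) = g) : ∃ x' : ZMod m, IsUnit x' ∧ x = psi m g x' := by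
  have hNZ : NeZero (m * g) := ⟨by positivity⟩
  obtain ⟨a, ha⟩ : g ∣ x.val := by
    have h := Nat.gcd_dvd_left x.val (m * g)
    rw [hx] at h
    exact h
  refine ⟨(a : ZMod m), ?_, ?_⟩
  · rw [ZMod.isUnit_iff_coprime]
    rw [ha, mul_comm m g, Nat.gcd_mul_left] at hx
    exact Nat.eq_of_mul_eq_mul_left hg (by rw [hx, mul_one])
  · rw [psi_natCast, ← ZMod.natCast_zmod_val x, ha]
    push_cast
    ring

theorem isUnit_of_gcd {n : ℕ} (hn : 0 < n) (x : ZMod n) (hx : Nat.gcd x.val n = 1) :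
    IsUnit x := by
  have hNZ : NeZero n := ⟨hn.ne'⟩
  rw [← ZMod.natCast_zmod_val x, ZMod.isUnit_iff_coprime]
  exact hx

/-- Every pair generating `ZMod n` is good, if one of the two is not a unit. -/
theorem good_pair_aux {n : ℕ} (hn : Odd n) (d u : ZMod n) (hu0 : u ≠ 0) (hdu : cop d u)
    (hu : ¬ IsUnit u) :
    Good n IsUnit (fun k : Empty => k.elim) (fun _ : Unit => d) (fun _ : Unit => u) := by
  have hn0 : 0 < n := hn.pos
  obtain ⟨g, hg⟩ : ∃ g, g = Nat.gcd u.val n := ⟨_, rfl⟩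
  obtain ⟨m, hm⟩ : ∃ m, n = m * g := by
    obtain ⟨m, hm⟩ := Nat.gcd_dvd_right u.val n
    exact ⟨m, by rw [hg, mul_comm]; exact hm⟩
  subst hm
  have hg0 : 0 < g := Nat.pos_of_mul_pos_left hn0 |> fun h => h
  have hm0 : 0 < m := Nat.pos_of_ne_zero (by rintro rfl; simp at hn0)
  obtain ⟨hmo, hgo⟩ := Nat.odd_mul.1 hn
  obtain ⟨u', hu', rfl⟩ := exists_psi_unit hm0 hg0 u hg.symm
  have m3 : 3 ≤ m := by
    by_contra h
    have : m = 1 := by
      obtain ⟨k, hk⟩ := hmo
      omega
    subst this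
    apply hu0
    rw [Subsingleton.elim u' 0, map_zero]
  have g3 : 3 ≤ g := by
    by_contra h
    have : g = 1 := by
      obtain ⟨k, hk⟩ := hgo
      omega
    apply hu
    exact isUnit_of_gcd hn0 _ (hg.symm.trans this)
  have hNZ : NeZero (m * g) := ⟨hn0.ne'⟩
  have hc : IsUnit (red m g d) := by
    have h1 : red m g d = ((d.val : ℕ) : ZMod g) := by
      conv_lhs => rw [← ZMod.natCast_zmod_val d]
      rw [map_natCast]
    rw [h1, ZMod.isUnit_iff_coprime]
    apply Nat.Coprime.symm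
    rw [Nat.coprime_iff_gcd_eq_one]
    have h2 : Nat.gcd (Nat.gcd d.val (psi m g u').val) (m * g) = 1 := hdu
    rw [Nat.gcd_assoc, ← hg] at h2
    rw [Nat.gcd_comm]; exact h2
  refine (good_cb hmo m3 hgo g3 d hc u' hu').monoQ ?_
  intro x hx hx'
  have := hx.map (red m g)
  rw [hx'] at this
  have hF : Fact (1 < g) := ⟨by omega⟩
  exact not_isUnit_zero this

theorem cop_symm {n : ℕ} {d u : ZMod n} (h : cop d u) : cop u d := by
  show Nat.gcd (Nat.gcd u.val d.val) n = 1
  rw [Nat.gcd_comm u.val]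
  exact h

/-- Every pair generating `ZMod n` is good. -/
theorem good_pair {n : ℕ} (hn : Odd n) (h3 : 3 ≤ n) (d u : ZMod n) (hd0 : d ≠ 0) (hu0 : u ≠ 0)
    (hdu1 : d ≠ u) (hdu2 : d ≠ -u) (hdu : cop d u) :
    Good n IsUnit (fun k : Empty => k.elim) (fun _ : Unit => d) (fun _ : Unit => u) := by
  by_cases hu : IsUnit u
  · by_cases hd : IsUnit d
    · apply good_of_three
      · exact fun p q => pair_units11 hn h3 d u hd hu p q
      · intro p q hpq
        have hne : q - p ≠ 0 := by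
          have hF : Fact (1 < n) := ⟨by omega⟩
          intro h'; rw [h'] at hpq; exact not_isUnit_zero hpq
        refine (pair_units hn h3 d u hd hu hdu1 hdu2 p (q - p) hne).congr ?_
        intro k b
        cases k
        · show p + (bif b then d else 0) = p + 0 + (bif b then d else 0)
          ring
        · show q + (bif b then d else 0) = p + (q - p) + (bif b then d else 0)
          ring
      · intro p q hpq
        have hne : q - p ≠ 0 := by
          have hF : Fact (1 < n) := ⟨by omega⟩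
          intro h'; rw [h'] at hpq; exact not_isUnit_zero hpq
        refine ((pair_units hn h3 u d hu hd hdu1.symm (fun h' => hdu2 (by rw [h', neg_neg]))
          p (q - p) hne).mono ?_).congr ?_
        · rintro x - y - ⟨δ, hδ, hxy⟩
          exact ⟨δ, hδ.symm, hxy⟩
        · intro k b
          cases k
          · show p + (bif b then u else 0) = p + 0 + (bif b then u else 0)
            ring
          · show q + (bif b then u else 0) = p + (q - p) + (bif b then u else 0)
            ring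
    · exact (good_pair_aux hn u d hd0 (cop_symm hdu) hd).swap_pair
  · exact good_pair_aux hn d u hu0 hdu hu

/-- Union of good families. -/
theorem Good.union {n : ℕ} {Q : ZMod n → Prop} {ι κ ι' κ' : Type*} {t : ι → ZMod n}
    {d u : κ → ZMod n} {t' : ι' → ZMod n} {d' u' : κ' → ZMod n} (hG : Good n Q t d u)
    (hG' : Good n Q t' d' u') :
    Good n Q (Sum.elim t t') (Sum.elim d d') (Sum.elim u u') := by
  intro P A hA hP
  have h1 := hG (fun x => P (Sum.map Sum.inl (Prod.map Sum.inl id) x))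
    (fun x => A (Sum.map Sum.inl (Prod.map Sum.inl id) x)) (fun i => hA (Sum.inl i))
    (fun k => hP (Sum.inl k))
  have h2 := hG' (fun x => P (Sum.map Sum.inr (Prod.map Sum.inr id) x))
    (fun x => A (Sum.map Sum.inr (Prod.map Sum.inr id) x)) (fun i => hA (Sum.inr i))
    (fun k => hP (Sum.inr k))
  refine (((h1.union h2).mono ?_).reindex (Θ' := (ι ⊕ ι') ⊕ (κ ⊕ κ') × Bool)
    { toFun := fun x => Sum.elim (Sum.elim (fun i => Sum.inl (Sum.inl i))
        (fun i => Sum.inr (Sum.inl i)))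
        (fun k => Sum.elim (fun j => Sum.inl (Sum.inr (j, k.2)))
          (fun j => Sum.inr (Sum.inr (j, k.2))) k.1) x
      invFun := fun x => Sum.elim (Sum.map Sum.inl (Prod.map Sum.inl id))
        (Sum.map Sum.inr (Prod.map Sum.inr id)) x
      left_inv := by rintro ((i | i) | ⟨k | k, b⟩) <;> rfl
      right_inv := by rintro ((i | ⟨k, b⟩) | (i | ⟨k, b⟩)) <;> rfl }).congr ?_
  · rintro x - y - ⟨δ, hδ, hxy⟩
    rcases hδ with ⟨i | i, hδ⟩ | ⟨k | k, hδ⟩
    · exact Or.inl ⟨δ, Or.inl ⟨i, hδ⟩, hxy⟩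
    · exact Or.inr ⟨δ, Or.inl ⟨i, hδ⟩, hxy⟩
    · exact Or.inl ⟨δ, Or.inr ⟨k, hδ⟩, hxy⟩
    · exact Or.inr ⟨δ, Or.inr ⟨k, hδ⟩, hxy⟩
  · rintro ((i | i) | ⟨k | k, b⟩) c <;> rfl

/-- A family of units and of coprime pairs is good. -/
theorem good_family {n : ℕ} (hn : Odd n) (h3 : 3 ≤ n) {ι κ : Type*} (t : ι → ZMod n)
    (d u : κ → ZMod n) (ht : ∀ i, IsUnit (t i)) (hd0 : ∀ k, d k ≠ 0) (hu0 : ∀ k, u k ≠ 0)
    (h1 : ∀ k, d k ≠ u k) (h2 : ∀ k, d k ≠ -u k) (hdu : ∀ k, cop (d k) (u k)) :
    Good n IsUnit t d u := by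
  intro P A hA hP
  have hT1 : ∀ i : ι, TS Set.univ (DE (fun x => x = t i))
      (fun (_ : Unit) b => P (Sum.inl i) + (bif b then t i else 0)) :=
    fun i => cyc_unit hn (by omega) (t i) (P (Sum.inl i)) (ht i)
  have hT2 : ∀ k : κ, TS Set.univ (DE (FD (fun k : Empty => (k.elim : ZMod n))
      (fun _ : Unit => d k) (fun _ : Unit => u k)))
      (fh (fun x : Empty ⊕ Unit × Bool => P (Sum.elim (fun e => e.elim)
        (fun y => Sum.inr (k, y.2)) x))
        (fun x => A (Sum.elim (fun e => e.elim) (fun y => Sum.inr (k, y.2)) x))) := by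
    intro k
    exact good_pair hn h3 (d k) (u k) (hd0 k) (hu0 k) (h1 k) (h2 k) (hdu k) _ _
      (fun e => e.elim) (fun _ => hP k)
  refine ((((TS.sigma hT1).union (TS.sigma hT2)).mono ?_).reindex (Θ' := ι ⊕ κ × Bool)
    { toFun := fun x => Sum.elim (fun i => Sum.inl ⟨i, ()⟩)
        (fun k => Sum.inr ⟨k.1, Sum.inr ((), k.2)⟩) x
      invFun := fun x => Sum.elim (fun i => Sum.inl i.1)
        (fun k => Sum.elim (fun e => e.elim) (fun y => Sum.inr (k.1, y.2)) k.2) x
      left_inv := by rintro (i | ⟨k, b⟩) <;> rfl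
      right_inv := by
        rintro (⟨i, _⟩ | ⟨k, e | ⟨_, b⟩⟩)
        · rfl
        · exact e.elim
        · rfl }).congr ?_
  · rintro x - y - ⟨δ, hδ, hxy⟩
    rcases hδ with ⟨i, hδ⟩ | ⟨k, hδ⟩
    · exact Or.inl ⟨i, δ, hδ, hxy⟩
    · exact Or.inr ⟨k, δ, Or.inr ⟨(), hδ⟩, hxy⟩
  · rintro (i | ⟨k, b⟩) c
    · show P (Sum.inl i) + (bif c then A (Sum.inl i) else 0) =
        P (Sum.inl i) + (bif c then t i else 0)
      rw [hA]
    · rfl

end Pool.Agent.P45
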