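import Pool.Agent.Lib.P45dba8.Bridge
import Pool.Agent.Lib.P45dba8.PairGood

/-! # MP_45dba8: the final assembly for even `k` from the geometry

`X` is a set of `k` points of `ZMod (4k+1)`, no two of them adjacent, perfectly matched by distinct
labels of `DS`, and matched by distinct labels of `DT` except for the two points `w`, `w'`, which
are served by the type of the label `2k`, doubled, with the unused label `u0`. -/

set_option autoImplicit false

namespace Pool.Agent.P45

/-- A doubled unit `c` with an unused type `u`: the displacement must not be a multiple of `u`,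
unless `u` is a unit. -/
theorem pair_one {n : ℕ} (hn : Odd n) (h3 : 3 ≤ n) (c u : ZMod n) (hc : IsUnit c) (hu0 : u ≠ 0)
    (hcu : c ≠ u) (hcu' : c ≠ -u) (w w' : ZMod n) (hne : w' ≠ w)
    (h : IsUnit u ∨ ¬ u ∣ (w' - w)) :
    TS Set.univ (DE (fun x => x = c ∨ x = u))
      (fun (k b : Bool) => (bif k then w' else w) + (bif b then c else 0)) := by
  by_cases hu : IsUnit u
  · refine (pair_units hn h3 c u hc hu hcu hcu' w (w' - w) (sub_ne_zero.2 hne)).congr ?_
    intro k b
    cases k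
    · show w + (bif b then c else 0) = w + 0 + (bif b then c else 0)
      ring
    · show w' + (bif b then c else 0) = w + (w' - w) + (bif b then c else 0)
      ring
  have h := h.resolve_left hu
  have hn0 : 0 < n := hn.pos
  obtain ⟨g, hg⟩ : ∃ g, g = Nat.gcd u.val n := ⟨_, rfl⟩
  obtain ⟨m, hm⟩ : ∃ m, n = m * g := by
    obtain ⟨m, hm⟩ := Nat.gcd_dvd_right u.val n
    exact ⟨m, by rw [hg, mul_comm]; exact hm⟩
  subst hm
  have hg0 : 0 < g := Nat.pos_of_mul_pos_left hn0 |> fun h => h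
  have hm0 : 0 < m := Nat.pos_of_ne_zero (by rintro rfl; simp at hn0)
  obtain ⟨hmo, hgo⟩ := Nat.odd_mul.1 hn
  obtain ⟨u', hu', rfl⟩ := exists_psi_unit hm0 hg0 u hg.symm
  have m3 : 3 ≤ m := by
    by_contra h
    have : m = 1 := by
      obtain ⟨k, hk⟩ := hmo
      omega
    subst this
    apply hu0
    rw [Subsingleton.elim u' 0, map_zero]
  have g3 : 3 ≤ g := by
    by_contra h
    have : g = 1 := by
      obtain ⟨k, hk⟩ := hgo
      omega
    apply hu
    exact isUnit_of_gcd hn0 _ (hg.symm.trans this)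
  have hNZ : NeZero (m * g) := ⟨hn0.ne'⟩
  refine pair_L2 hmo m3 hgo g3 c (hc.map (red m g)) u' hu' w w' ?_
  intro h'
  apply h
  have h1 : red m g (w' - w) = 0 := by rw [map_sub, h', sub_self]
  obtain ⟨z, hz⟩ := exists_psi m g h1
  obtain ⟨ui, hui⟩ := hu'.exists_right_inv
  obtain ⟨y, hy⟩ : ∃ y : ZMod (m * g), redm m g y = ui * z := ZMod.castHom_surjective _ _
  have key : ∀ (a : ZMod m) (y : ZMod (m * g)), psi m g a * y = psi m g (a * redm m g y) := by
    intro a y
    obtain ⟨b, rfl⟩ : ∃ b : ZMod (m * g), redm m g b = a := ZMod.castHom_surjective _ _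
    rw [psi_redm, ← map_mul, psi_redm]
    ring
  refine ⟨y, ?_⟩
  rw [hz, key, hy, ← mul_assoc, hui, one_mul]

/-- A set of labels split into pairs: the colour system with dominoes. -/
theorem side_TS {k : ℕ} {D U : Finset ℕ} {σ : ℕ → ℕ} (hσ : Set.BijOn σ D U)
    (hG : Good (4 * k + 1) IsUnit
      (fun i : {i // i ∈ (∅ : Finset ℕ)} => ((2 * i.1 : ℕ) : ZMod (4 * k + 1)))
      (fun d : {d // d ∈ D} => ((2 * d.1 : ℕ) : ZMod (4 * k + 1)))
      (fun d : {d // d ∈ D} => ((2 * σ d.1 : ℕ) : ZMod (4 * k + 1))))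
    (p : ℕ → ZMod (4 * k + 1)) :
    TS Set.univ (fun x y => y - x ∈ LSet k (D ∪ U))
      (fun (c : {d // d ∈ D} × Bool) (b : Bool) =>
        (p c.1.1 + (bif b then 2 * (c.1.1 : ZMod (4 * k + 1)) else 0)) +
          (bif c.2 then 1 else 0)) := by
  have h1 := hG (Sum.elim (fun _ => 0) (fun c => p c.1.1 + (bif c.2 then 1 else 0)))
    (Sum.elim (fun i => ((2 * i.1 : ℕ) : ZMod (4 * k + 1)))
      (fun c => ((2 * c.1.1 : ℕ) : ZMod (4 * k + 1)))) (fun i => rfl) (by
      intro d
      right; right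
      refine ⟨Or.inl ⟨rfl, rfl⟩, ?_⟩
      show IsUnit (p d.1 + 1 - (p d.1 + 0))
      rw [show p d.1 + 1 - (p d.1 + 0) = 1 by ring]
      exact isUnit_one)
  have h2 := (h1.mono (E' := fun x y => y - x ∈ LSet k (D ∪ U)) ?_).reindex
    (Θ' := {d // d ∈ D} × Bool)
    { toFun := fun c => Sum.inr c
      invFun := Sum.elim (fun i => absurd i.2 (Finset.notMem_empty _)) id
      left_inv := fun c => rfl
      right_inv := by
        rintro (i | c)
        · exact absurd i.2 (Finset.notMem_empty _)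
        · rfl }
  · refine h2.congr ?_
    rintro ⟨d, c⟩ b
    show (p d.1 + (bif b then 2 * (d.1 : ZMod (4 * k + 1)) else 0)) + (bif c then 1 else 0) =
      (p d.1 + (bif c then 1 else 0)) + (bif b then ((2 * d.1 : ℕ) : ZMod (4 * k + 1)) else 0)
    push_cast
    ring
  · rintro x - y - ⟨j, hj, h⟩
    have hj' : FD (fun i : {i // i ∈ (∅ : Finset ℕ)} => ((2 * i.1 : ℕ) : ZMod (4 * k + 1)))
        (fun d : {d // d ∈ D} => ((2 * d.1 : ℕ) : ZMod (4 * k + 1)))
        (fun d : {d // d ∈ D} => ((2 * σ d.1 : ℕ) : ZMod (4 * k + 1)))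
        (2 * (j : ZMod (4 * k + 1))) := by
      right
      rcases Finset.mem_union.1 hj with hj | hj
      · refine ⟨⟨j, hj⟩, Or.inl ?_⟩
        push_cast
        rfl
      · obtain ⟨d, hd, rfl⟩ := hσ.surjOn hj
        refine ⟨⟨d, hd⟩, Or.inr ?_⟩
        push_cast
        rfl
    refine ⟨_, hj', ?_⟩
    rcases h with h | h
    · left
      linear_combination h
    · right
      linear_combination -h

/-- The vertices of the dominoes `{x, x+1}`, `x ∈ X`. -/
def dom {n : ℕ} (X : Finset (ZMod n)) : Finset (ZMod n) := X ∪ X.image (fun x => x + 1)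

theorem mem_dom {n : ℕ} {X : Finset (ZMod n)} {v : ZMod n} :
    v ∈ dom X ↔ ∃ x ∈ X, ∃ c : Bool, x + (bif c then 1 else 0) = v := by
  unfold dom
  rw [Finset.mem_union, Finset.mem_image]
  constructor
  · rintro (h | ⟨x, h, rfl⟩)
    · exact ⟨v, h, false, add_zero v⟩
    · exact ⟨x, h, true, rfl⟩
  · rintro ⟨x, hx, c, rfl⟩
    cases c
    · left
      show x + 0 ∈ X
      rw [add_zero]
      exact hx
    · right
      exact ⟨x, hx, rfl⟩

theorem card_dom {n : ℕ} {X : Finset (ZMod n)} (hadj : ∀ x ∈ X, x + 1 ∉ X) :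
    (dom X).card = 2 * X.card := by
  unfold dom
  rw [Finset.card_union_of_disjoint, Finset.card_image_of_injective _ (add_left_injective 1),
    two_mul]
  rw [Finset.disjoint_left]
  intro x hx hx'
  obtain ⟨y, hy, rfl⟩ := Finset.mem_image.1 hx'
  exact hadj y hy hx

theorem inj_of_card {α V : Type*} [Fintype α] [DecidableEq V] (f : α → V) (X : Finset V)
    (hf : ∀ x ∈ X, ∃ a, f a = x) (hc : X.card = Fintype.card α) : Function.Injective f := by
  have h1 : X ⊆ Finset.univ.image f := by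
    intro x hx
    obtain ⟨a, rfl⟩ := hf x hx
    exact Finset.mem_image_of_mem _ (Finset.mem_univ a)
  have h2 := Finset.card_le_card h1
  have h3 : (Finset.univ.image f).card = (Finset.univ : Finset α).card := by
    refine le_antisymm Finset.card_image_le ?_
    rw [Finset.card_univ, ← hc]
    exact h2
  intro a b hab
  exact Finset.card_image_iff.1 h3 (Finset.mem_coe.2 (Finset.mem_univ a))
    (Finset.mem_coe.2 (Finset.mem_univ b)) hab

theorem EG_dom {n : ℕ} [NeZero n] (hn : Odd n) (D : Set (ZMod n)) (hD0 : (0 : ZMod n) ∉ D)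
    (X : Finset (ZMod n)) (hadj : ∀ x ∈ X, x + 1 ∉ X) {α Θ : Type*} [Fintype α]
    (f : α → ZMod n) (hf : ∀ x, x ∈ X ↔ ∃ a, f a = x) (hc : X.card = Fintype.card α)
    (φ : Θ → Bool → α) (ψ : Θ → Bool → Bool)
    (hinj : ∀ θ b θ' b', φ θ b = φ θ' b' → ψ θ b = ψ θ' b' → θ = θ' ∧ b = b')
    (hsurj : ∀ a c, ∃ θ b, φ θ b = a ∧ ψ θ b = c) (e : Θ → Bool → ZMod n)
    (he : ∀ θ b, e θ b = f (φ θ b) + (bif ψ θ b then 1 else 0))
    (h : TS Set.univ (fun x y => y - x ∈ D) e) : EG D (dom X) := by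
  have hfi := inj_of_card f X (fun x hx => (hf x).1 hx) hc
  refine EG_of_TS (by rw [ZMod.card]; exact hn) D hD0 (dom X) e ?_ ?_ h
  · intro θ b θ' b' hh
    rw [he, he] at hh
    have m1 : f (φ θ b) ∈ X := (hf _).2 ⟨_, rfl⟩
    have m2 : f (φ θ' b') ∈ X := (hf _).2 ⟨_, rfl⟩
    by_cases hp : ψ θ b = ψ θ' b'
    · rw [hp] at hh
      exact hinj θ b θ' b' (hfi (add_right_cancel hh)) hp
    · exfalso
      cases h1 : ψ θ b
      · cases h2 : ψ θ' b'
        · exact hp (h1.trans h2.symm)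
        · rw [h1, h2] at hh
          have hh' : f (φ θ b) + 0 = f (φ θ' b') + 1 := hh
          rw [add_zero] at hh'
          exact hadj _ m2 (hh' ▸ m1)
      · cases h2 : ψ θ' b'
        · rw [h1, h2] at hh
          have hh' : f (φ θ b) + 1 = f (φ θ' b') + 0 := hh
          rw [add_zero] at hh'
          exact hadj _ m1 (hh' ▸ m2)
        · exact hp (h1.trans h2.symm)
  · intro v
    rw [mem_dom]
    constructor
    · rintro ⟨x, hx, c, rfl⟩
      obtain ⟨a, rfl⟩ := (hf x).1 hx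
      obtain ⟨θ, b, h1, h2⟩ := hsurj a c
      exact ⟨θ, b, by rw [he, h1, h2]⟩
    · rintro ⟨θ, b, rfl⟩
      exact ⟨f (φ θ b), (hf _).2 ⟨_, rfl⟩, ψ θ b, (he θ b).symm⟩

/-- The edge of the label `d` which starts at `p d`. -/
def ept {k : ℕ} (D : Finset ℕ) (p : ℕ → ZMod (4 * k + 1)) (a : {d // d ∈ D} × Bool) :
    ZMod (4 * k + 1) := p a.1.1 + (bif a.2 then 2 * (a.1.1 : ZMod (4 * k + 1)) else 0)

/-- THE ASSEMBLY FOR EVEN `k`. -/
theorem asm_even (k : ℕ) (hk : 1 ≤ k) (DS US DT UT : Finset ℕ) (u₀ : ℕ)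
    (hS : DS ∪ US ⊆ Finset.Icc 1 (2 * k)) (hT : DT ∪ UT ⊆ Finset.Icc 1 (2 * k))
    (hu1 : 1 ≤ u₀) (hu2 : u₀ < 2 * k)
    (X : Finset (ZMod (4 * k + 1))) (hXk : X.card = k) (hadj : ∀ x ∈ X, x + 1 ∉ X)
    (hDS : 2 * DS.card = k) (hDT : 2 * DT.card + 2 = k)
    (pS pT : ℕ → ZMod (4 * k + 1)) (w w' : ZMod (4 * k + 1))
    (hXS : ∀ x, x ∈ X ↔ ∃ d ∈ DS, x = pS d ∨ x = pS d + 2 * (d : ZMod (4 * k + 1)))
    (hXT : ∀ x, x ∈ X ↔ (∃ d ∈ DT, x = pT d ∨ x = pT d + 2 * (d : ZMod (4 * k + 1))) ∨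
      x = w ∨ x = w')
    (σ τ : ℕ → ℕ) (hσ : Set.BijOn σ DS US) (hτ : Set.BijOn τ DT UT)
    (hGS : Good (4 * k + 1) IsUnit
      (fun i : {i // i ∈ (∅ : Finset ℕ)} => ((2 * i.1 : ℕ) : ZMod (4 * k + 1)))
      (fun d : {d // d ∈ DS} => ((2 * d.1 : ℕ) : ZMod (4 * k + 1)))
      (fun d : {d // d ∈ DS} => ((2 * σ d.1 : ℕ) : ZMod (4 * k + 1))))
    (hGT : Good (4 * k + 1) IsUnit
      (fun i : {i // i ∈ (∅ : Finset ℕ)} => ((2 * i.1 : ℕ) : ZMod (4 * k + 1)))
      (fun d : {d // d ∈ DT} => ((2 * d.1 : ℕ) : ZMod (4 * k + 1)))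
      (fun d : {d // d ∈ DT} => ((2 * τ d.1 : ℕ) : ZMod (4 * k + 1))))
    (hu₀ : Nat.gcd (4 * k + 1) u₀ = 1 ∨ ¬ Nat.gcd (4 * k + 1) u₀ ∣ (w' - w).val) :
    ∃ A : Finset (ZMod (4 * k + 1)), A.card = 2 * k ∧ EG (LSet k (DS ∪ US)) A ∧
      EG (LSet k (DT ∪ UT ∪ {2 * k, u₀})) A := by
  classical
  have hodd : Odd (4 * k + 1) := ⟨2 * k, by ring⟩
  have h2k : (2 : ZMod (4 * k + 1)) * ((2 * k : ℕ) : ZMod (4 * k + 1)) = -1 := by
    have h : ((4 * k + 1 : ℕ) : ZMod (4 * k + 1)) = 0 := ZMod.natCast_self _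
    push_cast at h ⊢
    linear_combination h
  refine ⟨dom X, by rw [card_dom hadj, hXk], ?_, ?_⟩
  · refine EG_dom hodd _ (zero_notMem_LSet hS) X hadj (ept DS pS) ?_ ?_
      (Θ := {d // d ∈ DS} × Bool) (fun θ b => (θ.1, b)) (fun θ _ => θ.2) ?_ ?_ _ ?_
      (side_TS hσ hGS pS)
    · intro x
      rw [hXS]
      constructor
      · rintro ⟨d, hd, rfl | rfl⟩
        · exact ⟨(⟨d, hd⟩, false), add_zero _⟩
        · exact ⟨(⟨d, hd⟩, true), rfl⟩
      · rintro ⟨⟨⟨d, hd⟩, b⟩, rfl⟩
        refine ⟨d, hd, ?_⟩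
        cases b
        · exact Or.inl (add_zero _)
        · exact Or.inr rfl
    · rw [Fintype.card_prod, Fintype.card_coe, Fintype.card_bool]
      omega
    · rintro ⟨d, c⟩ b ⟨d', c'⟩ b' h1 h2
      obtain ⟨h3, h4⟩ := Prod.ext_iff.1 h1
      have h3' : d = d' := h3
      have h4' : b = b' := h4
      have h2' : c = c' := h2
      subst h3' h4' h2'
      exact ⟨rfl, rfl⟩
    · rintro ⟨d, b⟩ c
      exact ⟨(d, c), b, rfl, rfl⟩
    · rintro ⟨d, c⟩ b
      rfl
  · have hw : w' ≠ w := by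
      intro h
      have h1 : X ⊆ (Finset.univ : Finset ({d // d ∈ DT} × Bool)).image (ept DT pT) ∪ {w} := by
        intro x hx
        rcases (hXT x).1 hx with ⟨d, hd, rfl | rfl⟩ | rfl | rfl
        · exact Finset.mem_union_left _ (Finset.mem_image.2 ⟨(⟨d, hd⟩, false), Finset.mem_univ _,
            add_zero _⟩)
        · exact Finset.mem_union_left _ (Finset.mem_image.2 ⟨(⟨d, hd⟩, true), Finset.mem_univ _,
            rfl⟩)
        · exact Finset.mem_union_right _ (Finset.mem_singleton_self _)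
        · exact Finset.mem_union_right _ (by rw [h]; exact Finset.mem_singleton_self _)
      have h2 := (Finset.card_le_card h1).trans (Finset.card_union_le _ _)
      have h3 : ((Finset.univ : Finset ({d // d ∈ DT} × Bool)).image (ept DT pT)).card ≤
          DT.card * 2 := by
        refine Finset.card_image_le.trans ?_
        rw [Finset.card_univ, Fintype.card_prod, Fintype.card_coe, Fintype.card_bool]
      rw [Finset.card_singleton] at h2
      omega
    have hl : ∀ j : ℕ, 1 ≤ j → j ≤ 2 * k → (2 : ZMod (4 * k + 1)) * (j : ZMod (4 * k + 1)) ≠ 0 := by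
      intro j h1 h2
      have := label_ne_zero (1 : ZMod (4 * k + 1)) isUnit_one h1 h2
      rwa [one_mul] at this
    have hval : ∀ j : ℕ, j ≤ 2 * k → ((2 * j : ℕ) : ZMod (4 * k + 1)).val = 2 * j := by
      intro j hj
      exact ZMod.val_cast_of_lt (by omega)
    have hF1 : Fact (1 < 4 * k + 1) := ⟨by omega⟩
    have c1 : (1 : ZMod (4 * k + 1)) ≠ 2 * (u₀ : ZMod (4 * k + 1)) := by
      intro h
      have h1 := congrArg ZMod.val h
      have h2 := hval u₀ hu2.le
      push_cast at h2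
      rw [h2, ZMod.val_one] at h1
      omega
    have c2 : (1 : ZMod (4 * k + 1)) ≠ -(2 * (u₀ : ZMod (4 * k + 1))) := by
      intro h
      have h1 : ((2 * u₀ : ℕ) : ZMod (4 * k + 1)) = ((4 * k : ℕ) : ZMod (4 * k + 1)) := by
        push_cast at h2k ⊢
        linear_combination h - h2k
      have h2 := congrArg ZMod.val h1
      rw [hval u₀ hu2.le, ZMod.val_cast_of_lt (by omega)] at h2
      omega
    have hdisp : IsUnit (2 * (u₀ : ZMod (4 * k + 1))) ∨
        ¬ (2 * (u₀ : ZMod (4 * k + 1))) ∣ (w' - w) := by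
      rcases hu₀ with h | h
      · left
        have h1 : IsUnit ((2 * u₀ : ℕ) : ZMod (4 * k + 1)) := by
          rw [ZMod.isUnit_iff_coprime]
          have h2 : Nat.Coprime 2 (4 * k + 1) := Nat.coprime_two_left.2 hodd
          exact Nat.Coprime.mul_left h2 (Nat.Coprime.symm h)
        push_cast at h1
        exact h1
      · right
        rintro ⟨z, hz⟩
        apply h
        have hg : Nat.gcd (4 * k + 1) u₀ ∣ 4 * k + 1 := Nat.gcd_dvd_left _ _
        have h1 : (ZMod.castHom hg (ZMod (Nat.gcd (4 * k + 1) u₀))) (w' - w) = 0 := by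
          rw [hz, map_mul, map_mul, map_natCast,
            (ZMod.natCast_eq_zero_iff u₀ _).2 (Nat.gcd_dvd_right _ _), mul_zero, zero_mul]
        have h2 : (((w' - w).val : ℕ) : ZMod (Nat.gcd (4 * k + 1) u₀)) = 0 := by
          rw [← h1]
          conv_rhs => rw [← ZMod.natCast_zmod_val (w' - w)]
          rw [map_natCast]
        exact (ZMod.natCast_eq_zero_iff _ _).1 h2
    have hTS := (side_TS hτ hGT pT).union (pair_one hodd (by omega) 1
      (2 * (u₀ : ZMod (4 * k + 1))) isUnit_one (hl u₀ hu1 hu2.le) c1 c2 w w' hw hdisp)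
    refine EG_dom hodd _ (zero_notMem_LSet ?_) X hadj
      (α := ({d // d ∈ DT} × Bool) ⊕ Bool)
      (Sum.elim (ept DT pT) (fun c => bif c then w' else w)) ?_ ?_
      (Θ := ({d // d ∈ DT} × Bool) ⊕ Bool)
      (fun θ b => Sum.elim (fun θ => Sum.inl (θ.1, b)) (fun c => Sum.inr c) θ)
      (fun θ b => Sum.elim (fun θ => θ.2) (fun _ => b) θ) ?_ ?_ _ ?_
      (hTS.mono ?_)
    · intro x hx
      rw [Finset.mem_union] at hx
      rcases hx with hx | hx
      · exact hT hx
      · rw [Finset.mem_insert, Finset.mem_singleton] at hx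
        rw [Finset.mem_Icc]
        omega
    · intro x
      rw [hXT]
      constructor
      · rintro (⟨d, hd, rfl | rfl⟩ | rfl | rfl)
        · exact ⟨Sum.inl (⟨d, hd⟩, false), add_zero _⟩
        · exact ⟨Sum.inl (⟨d, hd⟩, true), rfl⟩
        · exact ⟨Sum.inr false, rfl⟩
        · exact ⟨Sum.inr true, rfl⟩
      · rintro ⟨⟨⟨d, hd⟩, b⟩ | c, rfl⟩
        · left
          refine ⟨d, hd, ?_⟩
          cases b
          · exact Or.inl (add_zero _)
          · exact Or.inr rfl
        · right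
          cases c
          · exact Or.inl rfl
          · exact Or.inr rfl
    · rw [Fintype.card_sum, Fintype.card_prod, Fintype.card_coe, Fintype.card_bool]
      omega
    · rintro (⟨d, c⟩ | c) b (⟨d', c'⟩ | c') b' h1 h2
      · obtain ⟨h3, h4⟩ := Prod.ext_iff.1 (Sum.inl_injective h1)
        have h3' : d = d' := h3
        have h4' : b = b' := h4
        have h2' : c = c' := h2
        subst h3' h4' h2'
        exact ⟨rfl, rfl⟩
      · exact absurd h1 (by simp)
      · exact absurd h1 (by simp)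
      · have h3' : c = c' := Sum.inr_injective h1
        have h2' : b = b' := h2
        subst h3' h2'
        exact ⟨rfl, rfl⟩
    · rintro (⟨d, b⟩ | c') c
      · exact ⟨Sum.inl (d, c), b, rfl, rfl⟩
      · exact ⟨Sum.inr c', c, rfl, rfl⟩
    · rintro (⟨d, c⟩ | c) b
      · rfl
      · rfl
    · rintro x - y - ⟨j, hj, h⟩
      rw [Finset.mem_union, Finset.mem_insert, Finset.mem_singleton] at hj
      rcases hj with hj | rfl | rfl
      · exact Or.inl ⟨j, hj, h⟩
      · right
        refine ⟨1, Or.inl rfl, ?_⟩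
        rcases h with h | h
        · rw [h2k] at h
          right
          linear_combination -h
        · rw [h2k] at h
          left
          linear_combination h
      · right
        refine ⟨_, Or.inr rfl, ?_⟩
        rcases h with h | h
        · left
          linear_combination h
        · right
          linear_combination -h

end Pool.Agent.P45
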