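import Pool.Agent.Lib.P45dba8.AsmSide

/-! # MP_45dba8: the final assembly for odd `k` from the geometry

`X` is a set of `k - 1` points of `ZMod (4k+1)`, no two of them adjacent, perfectly matched by
distinct labels of `DS`, and matched by distinct labels of `DT` except for the two points `w`,
`w'`. The square `{w, w + 1}` is served by the type 1 once. The gadget at `w'`: two more vertices
`x = w' ± 2 t1`, `y = w' + 1 ± 2 t2` joined by the single label `s`. -/

set_option autoImplicit false

namespace Pool.Agent.P45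

section odd

variable {k : ℕ}

/-- The vertices of the dominoes of `X` in terms of a matching of `X`. -/
theorem mem_dom_match (X : Finset (ZMod (4 * k + 1))) (D : Finset ℕ)
    (p : ℕ → ZMod (4 * k + 1)) (R : ZMod (4 * k + 1) → Prop)
    (hX : ∀ x, x ∈ X ↔ (∃ d ∈ D, x = p d ∨ x = p d + 2 * (d : ZMod (4 * k + 1))) ∨ R x)
    (v : ZMod (4 * k + 1)) :
    v ∈ dom X ↔ (∃ d ∈ D, v = p d ∨ v = p d + 2 * (d : ZMod (4 * k + 1)) ∨ v = p d + 1 ∨
      v = p d + 2 * (d : ZMod (4 * k + 1)) + 1) ∨ R v ∨ ∃ x, R x ∧ v = x + 1 := by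
  rw [mem_dom]
  constructor
  · rintro ⟨x, hx, c, rfl⟩
    rcases (hX x).1 hx with ⟨d, hd, h | h⟩ | h
    · left
      refine ⟨d, hd, ?_⟩
      cases c
      · left; rw [h]; exact add_zero _
      · right; right; left; rw [h]; rfl
    · left
      refine ⟨d, hd, ?_⟩
      cases c
      · right; left; rw [h]; exact add_zero _
      · right; right; right; rw [h]; rfl
    · right
      cases c
      · left
        have e : x + (bif false then 1 else 0) = x := add_zero _
        rw [e]; exact h
      · right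
        exact ⟨x, h, rfl⟩
  · rintro (⟨d, hd, h | h | h | h⟩ | h | ⟨x, hx, h⟩)
    · exact ⟨p d, (hX _).2 (Or.inl ⟨d, hd, Or.inl rfl⟩), false, by rw [h]; exact add_zero _⟩
    · exact ⟨p d + 2 * (d : ZMod (4 * k + 1)), (hX _).2 (Or.inl ⟨d, hd, Or.inr rfl⟩), false,
        by rw [h]; exact add_zero _⟩
    · exact ⟨p d, (hX _).2 (Or.inl ⟨d, hd, Or.inl rfl⟩), true, by rw [h]; rfl⟩
    · exact ⟨p d + 2 * (d : ZMod (4 * k + 1)), (hX _).2 (Or.inl ⟨d, hd, Or.inr rfl⟩), true,
        by rw [h]; rfl⟩
    · exact ⟨v, (hX _).2 (Or.inr h), false, add_zero _⟩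
    · exact ⟨x, (hX _).2 (Or.inr hx), true, by rw [h]; rfl⟩

/-- Start point of the hole of a single label joining `a` and `b`. -/
theorem exists_start {a b : ZMod (4 * k + 1)} {t : ℕ}
    (h : b = a + 2 * (t : ZMod (4 * k + 1)) ∨ a = b + 2 * (t : ZMod (4 * k + 1))) :
    ∃ q, ∀ v, (v = q ∨ v = q + 2 * (t : ZMod (4 * k + 1))) ↔ (v = a ∨ v = b) := by
  rcases h with h | h
  · refine ⟨a, fun v => ?_⟩
    rw [h]
  · refine ⟨b, fun v => ?_⟩
    rw [h, or_comm]

/-- THE ASSEMBLY FOR ODD `k`. The labels `t1`, `t2` are two singles (`T1 = {t1, t2}`, `T2 = ∅`) or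
a pair (`T1 = ∅`, `T2 = {t1}`, `τ t1 = t2`). -/
theorem asm_odd (hk : 1 ≤ k) (LS LT DS US DT UT T1 T2 : Finset ℕ) (s t1 t2 : ℕ)
    (hS : {s} ∪ DS ∪ US ⊆ Finset.Icc 1 (2 * k))
    (hT : DT ∪ UT ∪ {t1, t2} ⊆ Finset.Icc 1 (2 * k))
    (hLS : LS ⊆ {s} ∪ DS ∪ US) (hLT : LT ⊆ DT ∪ UT ∪ {t1, t2} ∪ {2 * k})
    (X : Finset (ZMod (4 * k + 1))) (hXk : X.card + 1 = k) (hadj : ∀ x ∈ X, x + 1 ∉ X)
    (hDS : 2 * DS.card + 1 = k) (hDT : 2 * DT.card + 3 = k)
    (pS pT : ℕ → ZMod (4 * k + 1)) (w w' x y : ZMod (4 * k + 1))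
    (hXS : ∀ x, x ∈ X ↔ ∃ d ∈ DS, x = pS d ∨ x = pS d + 2 * (d : ZMod (4 * k + 1)))
    (hXT : ∀ x, x ∈ X ↔ (∃ d ∈ DT, x = pT d ∨ x = pT d + 2 * (d : ZMod (4 * k + 1))) ∨
      x = w ∨ x = w')
    (hx : x ∉ dom X) (hy : y ∉ dom X) (hxy : x ≠ y)
    (hxt : x = w' + 2 * (t1 : ZMod (4 * k + 1)) ∨ w' = x + 2 * (t1 : ZMod (4 * k + 1)))
    (hyt : y = w' + 1 + 2 * (t2 : ZMod (4 * k + 1)) ∨
      w' + 1 = y + 2 * (t2 : ZMod (4 * k + 1)))
    (hst : y = x + 2 * (s : ZMod (4 * k + 1)) ∨ x = y + 2 * (s : ZMod (4 * k + 1)))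
    (σ τ : ℕ → ℕ) (hσ : Set.BijOn σ DS US)
    (hGS : Good (4 * k + 1) IsUnit
      (fun i : {i // i ∈ ({s} : Finset ℕ)} => ((2 * i.1 : ℕ) : ZMod (4 * k + 1)))
      (fun d : {d // d ∈ DS} => ((2 * d.1 : ℕ) : ZMod (4 * k + 1)))
      (fun d : {d // d ∈ DS} => ((2 * σ d.1 : ℕ) : ZMod (4 * k + 1))))
    (hcase : (T1 = {t1, t2} ∧ T2 = ∅ ∧ t1 ≠ t2 ∧ Set.BijOn τ DT UT) ∨
      (T1 = ∅ ∧ T2 = {t1} ∧ t1 ∉ DT ∧ τ t1 = t2 ∧
        Set.BijOn τ (DT ∪ {t1} : Finset ℕ) (UT ∪ {t2} : Finset ℕ)))
    (hGT : Good (4 * k + 1) IsUnit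
      (fun i : {i // i ∈ T1} => ((2 * i.1 : ℕ) : ZMod (4 * k + 1)))
      (fun d : {d // d ∈ DT ∪ T2} => ((2 * d.1 : ℕ) : ZMod (4 * k + 1)))
      (fun d : {d // d ∈ DT ∪ T2} => ((2 * τ d.1 : ℕ) : ZMod (4 * k + 1)))) :
    ∃ A : Finset (ZMod (4 * k + 1)), A.card = 2 * k ∧ EG (LSet k LS) A ∧ EG (LSet k LT) A := by
  classical
  have hAc : (dom X ∪ {x, y}).card = 2 * k := by
    rw [Finset.card_union_of_disjoint, card_dom hadj, Finset.card_pair hxy]
    · omega
    · rw [Finset.disjoint_right]
      intro v hv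
      rw [Finset.mem_insert, Finset.mem_singleton] at hv
      rcases hv with rfl | rfl
      · exact hx
      · exact hy
  have hmemA : ∀ v, v ∈ dom X ∪ {x, y} ↔ v ∈ dom X ∨ v = x ∨ v = y := by
    intro v
    rw [Finset.mem_union, Finset.mem_insert, Finset.mem_singleton]
  have mono : ∀ {L L' : Finset ℕ}, L' ⊆ L → EG (LSet k L) (dom X ∪ {x, y}) →
      EG (LSet k L') (dom X ∪ {x, y}) := by
    intro L L' hL h
    refine h.congr ?_ (fun _ => Iff.rfl)
    rintro δ ⟨j, hj, h'⟩
    exact ⟨j, hL hj, h'⟩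
  refine ⟨dom X ∪ {x, y}, hAc, ?_, ?_⟩
  · -- the side `S`
    obtain ⟨q, hq⟩ := exists_start hst
    have eD : DS ∪ (∅ : Finset ℕ) = DS := Finset.union_empty _
    have key : EG (LSet k ({s} ∪ (DS ∪ ∅) ∪ US)) (dom X ∪ {x, y}) := by
      refine sideEG (I := {s}) (D := DS) (D' := ∅) (U := US) (σ := σ)
        (by rw [eD]; exact hS) (Finset.disjoint_empty_right _)
        (by rw [eD]; exact hσ) ?_ (fun _ => q) pS pS (dom X ∪ {x, y}) ?_ ?_
      · rw [eD]
        exact hGS
      · rw [hAc, Finset.card_singleton, Finset.card_empty]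
        omega
      · intro v
        rw [hmemA, mem_dom_match X DS pS (fun _ => False) (by
          intro x
          rw [hXS x, or_false]) v]
        unfold sideM
        constructor
        · rintro ((h | h | ⟨_, h, _⟩) | h)
          · exact Or.inr (Or.inl h)
          · exact h.elim
          · exact h.elim
          · exact Or.inl ⟨s, Finset.mem_singleton_self _, (hq v).2 h⟩
        · rintro (⟨i, hi, h⟩ | h | ⟨d, hd, _⟩)
          · rw [Finset.mem_singleton] at hi
            rw [hi] at h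
            exact Or.inr ((hq v).1 h)
          · exact Or.inl (Or.inl h)
          · exact absurd hd (Finset.notMem_empty _)
    refine mono ?_ key
    rw [eD]; exact hLS
  · -- the side `T`
    obtain ⟨q1, hq1⟩ := exists_start hxt
    obtain ⟨q2, hq2⟩ := exists_start hyt
    have hdomT := fun v => mem_dom_match X DT pT (fun x => x = w ∨ x = w') hXT v
    rcases hcase with ⟨rfl, rfl, ht, hτ⟩ | ⟨rfl, rfl, ht, hτt, hτ⟩
    · have eD : DT ∪ (∅ : Finset ℕ) = DT := Finset.union_empty _
      obtain ⟨F, f1, f2⟩ : ∃ F : ℕ → ZMod (4 * k + 1), F t1 = q1 ∧ F t2 = q2 :=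
        ⟨fun i => if i = t1 then q1 else q2, if_pos rfl, if_neg ht.symm⟩
      have key : EG (LSet k ({t1, t2} ∪ (DT ∪ ∅) ∪ UT ∪ {2 * k})) (dom X ∪ {x, y}) := by
        refine sideEG_one (I := {t1, t2}) (D := DT) (D' := ∅) (U := UT) (σ := τ) hk
          ?_ (Finset.disjoint_empty_right _)
          (by rw [eD]; exact hτ) hGT F pT pT w
          (dom X ∪ {x, y}) ?_ ?_
        · rw [eD]
          intro z hz
          apply hT
          simp only [Finset.mem_union, Finset.mem_insert, Finset.mem_singleton] at hz ⊢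
          tauto
        · rw [hAc, Finset.card_pair ht, Finset.card_empty]
          omega
        · intro v
          rw [hmemA, hdomT v]
          unfold sideM
          constructor
          · rintro ((h | (h | h) | ⟨z, (hz | hz), h⟩) | h | h)
            · exact Or.inl (Or.inr (Or.inl h))
            · exact Or.inr (Or.inl h)
            · refine Or.inl (Or.inl ⟨t1, by simp, ?_⟩)
              rw [f1]
              exact (hq1 v).2 (Or.inl h)
            · exact Or.inr (Or.inr (by rw [h, hz]))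
            · refine Or.inl (Or.inl ⟨t2, by simp, ?_⟩)
              rw [f2]
              exact (hq2 v).2 (Or.inl (by rw [h, hz]))
            · refine Or.inl (Or.inl ⟨t1, by simp, ?_⟩)
              rw [f1]
              exact (hq1 v).2 (Or.inr h)
            · refine Or.inl (Or.inl ⟨t2, by simp, ?_⟩)
              rw [f2]
              exact (hq2 v).2 (Or.inr h)
          · rintro ((⟨i, hi, h⟩ | h | ⟨d, hd, _⟩) | h | h)
            · rw [Finset.mem_insert, Finset.mem_singleton] at hi
              rcases hi with hi | hi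
              · rw [hi, f1] at h
                rcases (hq1 v).1 h with h1 | h1
                · exact Or.inl (Or.inr (Or.inl (Or.inr h1)))
                · exact Or.inr (Or.inl h1)
              · rw [hi, f2] at h
                rcases (hq2 v).1 h with h1 | h1
                · exact Or.inl (Or.inr (Or.inr ⟨w', Or.inr rfl, h1⟩))
                · exact Or.inr (Or.inr h1)
            · exact Or.inl (Or.inl h)
            · exact absurd hd (Finset.notMem_empty _)
            · exact Or.inl (Or.inr (Or.inl (Or.inl h)))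
            · exact Or.inl (Or.inr (Or.inr ⟨w, Or.inl rfl, h⟩))
      refine mono ?_ key
      intro z hz
      have := hLT hz
      simp only [Finset.mem_union, Finset.mem_insert, Finset.mem_singleton] at this ⊢
      tauto
    · have key : EG (LSet k (∅ ∪ (DT ∪ {t1}) ∪ (UT ∪ {t2}) ∪ {2 * k})) (dom X ∪ {x, y}) := by
        have hdis : Disjoint DT ({t1} : Finset ℕ) := by
          rw [Finset.disjoint_singleton_right]; exact ht
        have hne : ∀ d ∈ DT, d ≠ t1 := by
          rintro d hd rfl
          exact ht hd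
        obtain ⟨F, f1, f2⟩ : ∃ F : ℕ → ZMod (4 * k + 1), F t1 = q1 ∧ ∀ d ∈ DT, F d = pT d :=
          ⟨fun d => if d = t1 then q1 else pT d, if_pos rfl, fun d hd => if_neg (hne d hd)⟩
        refine sideEG_one (I := ∅) (D := DT) (D' := {t1}) (U := UT ∪ {t2}) (σ := τ) hk
          ?_ hdis hτ hGT (fun _ => q1) F (fun _ => q2) w
          (dom X ∪ {x, y}) ?_ ?_
        · intro z hz
          apply hT
          simp only [Finset.mem_union, Finset.mem_insert, Finset.mem_singleton,
            Finset.notMem_empty] at hz ⊢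
          tauto
        · rw [hAc, Finset.card_singleton, Finset.card_empty]
          omega
        · intro v
          rw [hmemA, hdomT v]
          unfold sideM
          constructor
          · rintro ((⟨d, hd, h⟩ | (h | h) | ⟨z, (hz | hz), h⟩) | h | h)
            · refine Or.inl (Or.inr (Or.inl ⟨d, hd, ?_⟩))
              rw [f2 d hd]
              exact h
            · exact Or.inr (Or.inl h)
            · refine Or.inl (Or.inr (Or.inr ⟨t1, Finset.mem_singleton_self _, ?_⟩))
              rw [f1, ← or_assoc]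
              exact Or.inl ((hq1 v).2 (Or.inl h))
            · exact Or.inr (Or.inr (by rw [h, hz]))
            · refine Or.inl (Or.inr (Or.inr ⟨t1, Finset.mem_singleton_self _, ?_⟩))
              rw [hτt, ← or_assoc]
              exact Or.inr ((hq2 v).2 (Or.inl (by rw [h, hz])))
            · refine Or.inl (Or.inr (Or.inr ⟨t1, Finset.mem_singleton_self _, ?_⟩))
              rw [f1, ← or_assoc]
              exact Or.inl ((hq1 v).2 (Or.inr h))
            · refine Or.inl (Or.inr (Or.inr ⟨t1, Finset.mem_singleton_self _, ?_⟩))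
              rw [hτt, ← or_assoc]
              exact Or.inr ((hq2 v).2 (Or.inr h))
          · rintro ((⟨i, hi, _⟩ | ⟨d, hd, h⟩ | ⟨d, hd, h⟩) | h | h)
            · exact absurd hi (Finset.notMem_empty _)
            · rw [f2 d hd] at h
              exact Or.inl (Or.inl ⟨d, hd, h⟩)
            · rw [Finset.mem_singleton] at hd
              rw [hd, f1, hτt, ← or_assoc] at h
              rcases h with h | h
              · rcases (hq1 v).1 h with h1 | h1
                · exact Or.inl (Or.inr (Or.inl (Or.inr h1)))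
                · exact Or.inr (Or.inl h1)
              · rcases (hq2 v).1 h with h1 | h1
                · exact Or.inl (Or.inr (Or.inr ⟨w', Or.inr rfl, h1⟩))
                · exact Or.inr (Or.inr h1)
            · exact Or.inl (Or.inr (Or.inl (Or.inl h)))
            · exact Or.inl (Or.inr (Or.inr ⟨w, Or.inl rfl, h⟩))
      refine mono ?_ key
      intro z hz
      have := hLT hz
      simp only [Finset.mem_union, Finset.mem_insert, Finset.mem_singleton,
        Finset.notMem_empty] at this ⊢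
      tauto

end odd

end Pool.Agent.P45
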