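import Pool.Agent.Lib.P45dba8.AsmOdd

/-! # MP_45dba8: the final assembly for odd `k`, the type 1 as a single of the family -/

set_option autoImplicit false

namespace Pool.Agent.P45

/-- THE ASSEMBLY FOR ODD `k`, the label `2 k` (type 1) is a single label of the family of the side
`T`, the labels `t1`, `t2` are a pair of this family. -/
theorem asm_odd2 {k : ℕ} (hk : 1 ≤ k) (LS LT DS US DT UT : Finset ℕ) (s t1 t2 : ℕ)
    (hS : {s} ∪ DS ∪ US ⊆ Finset.Icc 1 (2 * k))
    (hT : DT ∪ UT ∪ {t1, t2} ⊆ Finset.Icc 1 (2 * k))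
    (hLS : LS ⊆ {s} ∪ DS ∪ US) (hLT : LT ⊆ DT ∪ UT ∪ {t1, t2} ∪ {2 * k})
    (X : Finset (ZMod (4 * k + 1))) (hXk : X.card + 1 = k) (hadj : ∀ x ∈ X, x + 1 ∉ X)
    (hDS : 2 * DS.card + 1 = k) (hDT : 2 * DT.card + 3 = k)
    (pS pT : ℕ → ZMod (4 * k + 1)) (w w' x y : ZMod (4 * k + 1))
    (hXS : ∀ x, x ∈ X ↔ ∃ d ∈ DS, x = pS d ∨ x = pS d + 2 * (d : ZMod (4 * k + 1)))
    (hXT : ∀ x, x ∈ X ↔ (∃ d ∈ DT, x = pT d ∨ x = pT d + 2 * (d : ZMod (4 * k + 1))) ∨
      x = w ∨ x = w')
    (hx : x ∉ dom X) (hy : y ∉ dom X) (hxy : x ≠ y)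
    (hxt : x = w' + 2 * (t1 : ZMod (4 * k + 1)) ∨ w' = x + 2 * (t1 : ZMod (4 * k + 1)))
    (hyt : y = w' + 1 + 2 * (t2 : ZMod (4 * k + 1)) ∨
      w' + 1 = y + 2 * (t2 : ZMod (4 * k + 1)))
    (hst : y = x + 2 * (s : ZMod (4 * k + 1)) ∨ x = y + 2 * (s : ZMod (4 * k + 1)))
    (σ τ : ℕ → ℕ) (hσ : Set.BijOn σ DS US)
    (hGS : Good (4 * k + 1) IsUnit
      (fun i : {i // i ∈ ({s} : Finset ℕ)} => ((2 * i.1 : ℕ) : ZMod (4 * k + 1)))
      (fun d : {d // d ∈ DS} => ((2 * d.1 : ℕ) : ZMod (4 * k + 1)))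
      (fun d : {d // d ∈ DS} => ((2 * σ d.1 : ℕ) : ZMod (4 * k + 1))))
    (ht : t1 ∉ DT) (hτt : τ t1 = t2)
    (hτ : Set.BijOn τ (DT ∪ {t1} : Finset ℕ) (UT ∪ {t2} : Finset ℕ))
    (hGT : Good (4 * k + 1) IsUnit
      (fun i : {i // i ∈ ({2 * k} : Finset ℕ)} => ((2 * i.1 : ℕ) : ZMod (4 * k + 1)))
      (fun d : {d // d ∈ DT ∪ {t1}} => ((2 * d.1 : ℕ) : ZMod (4 * k + 1)))
      (fun d : {d // d ∈ DT ∪ {t1}} => ((2 * τ d.1 : ℕ) : ZMod (4 * k + 1)))) :
    ∃ A : Finset (ZMod (4 * k + 1)), A.card = 2 * k ∧ EG (LSet k LS) A ∧ EG (LSet k LT) A := by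
  classical
  have hAc : (dom X ∪ {x, y}).card = 2 * k := by
    rw [Finset.card_union_of_disjoint, card_dom hadj, Finset.card_pair hxy]
    · omega
    · rw [Finset.disjoint_right]
      intro v hv
      rw [Finset.mem_insert, Finset.mem_singleton] at hv
      rcases hv with rfl | rfl
      · exact hx
      · exact hy
  have hmemA : ∀ v, v ∈ dom X ∪ {x, y} ↔ v ∈ dom X ∨ v = x ∨ v = y := by
    intro v
    rw [Finset.mem_union, Finset.mem_insert, Finset.mem_singleton]
  have mono : ∀ {L L' : Finset ℕ}, L' ⊆ L → EG (LSet k L) (dom X ∪ {x, y}) →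
      EG (LSet k L') (dom X ∪ {x, y}) := by
    intro L L' hL h
    refine h.congr ?_ (fun _ => Iff.rfl)
    rintro δ ⟨j, hj, h'⟩
    exact ⟨j, hL hj, h'⟩
  refine ⟨dom X ∪ {x, y}, hAc, ?_, ?_⟩
  · -- the side `S`
    obtain ⟨q, hq⟩ := exists_start hst
    have eD : DS ∪ (∅ : Finset ℕ) = DS := Finset.union_empty _
    have key : EG (LSet k ({s} ∪ (DS ∪ ∅) ∪ US)) (dom X ∪ {x, y}) := by
      refine sideEG (I := {s}) (D := DS) (D' := ∅) (U := US) (σ := σ)
        (by rw [eD]; exact hS) (Finset.disjoint_empty_right _)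
        (by rw [eD]; exact hσ) ?_ (fun _ => q) pS pS (dom X ∪ {x, y}) ?_ ?_
      · rw [eD]
        exact hGS
      · rw [hAc, Finset.card_singleton, Finset.card_empty]
        omega
      · intro v
        rw [hmemA, mem_dom_match X DS pS (fun _ => False) (by
          intro x
          rw [hXS x, or_false]) v]
        unfold sideM
        constructor
        · rintro ((h | h | ⟨_, h, _⟩) | h)
          · exact Or.inr (Or.inl h)
          · exact h.elim
          · exact h.elim
          · exact Or.inl ⟨s, Finset.mem_singleton_self _, (hq v).2 h⟩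
        · rintro (⟨i, hi, h⟩ | h | ⟨d, hd, _⟩)
          · rw [Finset.mem_singleton] at hi
            rw [hi] at h
            exact Or.inr ((hq v).1 h)
          · exact Or.inl (Or.inl h)
          · exact absurd hd (Finset.notMem_empty _)
    refine mono ?_ key
    rw [eD]; exact hLS
  · -- the side `T`
    obtain ⟨q1, hq1⟩ := exists_start hxt
    obtain ⟨q2, hq2⟩ := exists_start hyt
    have hdomT := fun v => mem_dom_match X DT pT (fun x => x = w ∨ x = w') hXT v
    have h2k := two_mul_2k k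
    have hq0 : ∀ v, (v = w + 1 ∨ v = w + 1 + 2 * ((2 * k : ℕ) : ZMod (4 * k + 1))) ↔
        (v = w ∨ v = w + 1) := by
      intro v
      have e : w + 1 + 2 * ((2 * k : ℕ) : ZMod (4 * k + 1)) = w := by
        rw [h2k]; ring
      rw [e, or_comm]
    have hdis : Disjoint DT ({t1} : Finset ℕ) := by
      rw [Finset.disjoint_singleton_right]; exact ht
    have hne : ∀ d ∈ DT, d ≠ t1 := by
      rintro d hd rfl
      exact ht hd
    obtain ⟨F, f1, f2⟩ : ∃ F : ℕ → ZMod (4 * k + 1), F t1 = q1 ∧ ∀ d ∈ DT, F d = pT d :=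
      ⟨fun d => if d = t1 then q1 else pT d, if_pos rfl, fun d hd => if_neg (hne d hd)⟩
    have key : EG (LSet k ({2 * k} ∪ (DT ∪ {t1}) ∪ (UT ∪ {t2}))) (dom X ∪ {x, y}) := by
      refine sideEG (I := {2 * k}) (D := DT) (D' := {t1}) (U := UT ∪ {t2}) (σ := τ)
        ?_ hdis hτ hGT (fun _ => w + 1) F (fun _ => q2) (dom X ∪ {x, y}) ?_ ?_
      · intro z hz
        simp only [Finset.mem_union, Finset.mem_singleton] at hz
        have hz' : z = 2 * k ∨ z ∈ DT ∪ UT ∪ {t1, t2} := by
          simp only [Finset.mem_union, Finset.mem_insert, Finset.mem_singleton]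
          tauto
        rcases hz' with h | h
        · rw [Finset.mem_Icc]; omega
        · exact hT h
      · rw [hAc, Finset.card_singleton, Finset.card_singleton]
        omega
      · intro v
        rw [hmemA, hdomT v]
        unfold sideM
        constructor
        · rintro ((⟨d, hd, h⟩ | (h | h) | ⟨z, (hz | hz), h⟩) | h | h)
          · refine Or.inr (Or.inl ⟨d, hd, ?_⟩)
            rw [f2 d hd]
            exact h
          · exact Or.inl ⟨2 * k, Finset.mem_singleton_self _, (hq0 v).2 (Or.inl h)⟩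
          · refine Or.inr (Or.inr ⟨t1, Finset.mem_singleton_self _, ?_⟩)
            rw [f1, ← or_assoc]
            exact Or.inl ((hq1 v).2 (Or.inl h))
          · exact Or.inl ⟨2 * k, Finset.mem_singleton_self _,
              (hq0 v).2 (Or.inr (by rw [h, hz]))⟩
          · refine Or.inr (Or.inr ⟨t1, Finset.mem_singleton_self _, ?_⟩)
            rw [hτt, ← or_assoc]
            exact Or.inr ((hq2 v).2 (Or.inl (by rw [h, hz])))
          · refine Or.inr (Or.inr ⟨t1, Finset.mem_singleton_self _, ?_⟩)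
            rw [f1, ← or_assoc]
            exact Or.inl ((hq1 v).2 (Or.inr h))
          · refine Or.inr (Or.inr ⟨t1, Finset.mem_singleton_self _, ?_⟩)
            rw [hτt, ← or_assoc]
            exact Or.inr ((hq2 v).2 (Or.inr h))
        · rintro (⟨i, hi, h⟩ | ⟨d, hd, h⟩ | ⟨d, hd, h⟩)
          · rw [Finset.mem_singleton] at hi
            rw [hi] at h
            rcases (hq0 v).1 h with h1 | h1
            · exact Or.inl (Or.inr (Or.inl (Or.inl h1)))
            · exact Or.inl (Or.inr (Or.inr ⟨w, Or.inl rfl, h1⟩))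
          · rw [f2 d hd] at h
            exact Or.inl (Or.inl ⟨d, hd, h⟩)
          · rw [Finset.mem_singleton] at hd
            rw [hd, f1, hτt, ← or_assoc] at h
            rcases h with h | h
            · rcases (hq1 v).1 h with h1 | h1
              · exact Or.inl (Or.inr (Or.inl (Or.inr h1)))
              · exact Or.inr (Or.inl h1)
            · rcases (hq2 v).1 h with h1 | h1
              · exact Or.inl (Or.inr (Or.inr ⟨w', Or.inr rfl, h1⟩))
              · exact Or.inr (Or.inr h1)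
    refine mono ?_ key
    intro z hz
    have := hLT hz
    simp only [Finset.mem_union, Finset.mem_insert, Finset.mem_singleton] at this ⊢
    tauto

end Pool.Agent.P45
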