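import Pool.Agent.Lib.P45dba8.AsmEven

/-! # MP_45dba8: the sides of the final assembly, general statuses

`I`: single labels; `D`: doubled labels on two parallel edges; `D'`: labels `d` which form with
`σ d` a pair in which both are used once. -/

set_option autoImplicit false

namespace Pool.Agent.P45

theorem EG_of_cover {V Θ : Type*} [AddGroup V] [Fintype V] [Fintype Θ]
    (hV : Odd (Fintype.card V)) (D : Set V) (hD0 : (0 : V) ∉ D) (A : Finset V)
    (e : Θ → Bool → V) (hc : A.card = 2 * Fintype.card Θ) (hA : ∀ v, v ∈ A ↔ ∃ k b, e k b = v)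
    (h : TS Set.univ (fun u v => v - u ∈ D) e) : EG D A := by
  classical
  have h1 : A = (Finset.univ : Finset (Θ × Bool)).image fun p => e p.1 p.2 := by
    ext v
    rw [hA, Finset.mem_image]
    constructor
    · rintro ⟨k, b, h⟩
      exact ⟨(k, b), Finset.mem_univ _, h⟩
    · rintro ⟨p, -, h⟩
      exact ⟨p.1, p.2, h⟩
  have h2 : ((Finset.univ : Finset (Θ × Bool)).image fun p => e p.1 p.2).card =
      (Finset.univ : Finset (Θ × Bool)).card := by
    rw [← h1, hc, Finset.card_univ, Fintype.card_prod, Fintype.card_bool]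
    ring
  have h3 : Function.Injective (fun p : Θ × Bool => e p.1 p.2) := by
    intro a b hab
    exact Finset.card_image_iff.1 h2 (Finset.mem_coe.2 (Finset.mem_univ a))
      (Finset.mem_coe.2 (Finset.mem_univ b)) hab
  refine EG_of_TS hV D hD0 A e ?_ hA h
  intro k b k' b' hkb
  have h4 := h3 (a₁ := (k, b)) (a₂ := (k', b')) hkb
  exact ⟨congrArg Prod.fst h4, congrArg Prod.snd h4⟩

section side

variable {k : ℕ} {I D D' U : Finset ℕ} {σ : ℕ → ℕ}

/-- The holes of a side. -/
def sideE (k : ℕ) (I D D' : Finset ℕ) (σ : ℕ → ℕ) (q p p' : ℕ → ZMod (4 * k + 1)) :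
    {i // i ∈ I} ⊕ {d // d ∈ D ∪ D'} × Bool → Bool → ZMod (4 * k + 1) :=
  Sum.elim (fun i b => q i.1 + (bif b then 2 * (i.1 : ZMod (4 * k + 1)) else 0))
    (fun c b => if c.1.1 ∈ D' then
      (bif c.2 then p' c.1.1 + (bif b then 2 * ((σ c.1.1 : ℕ) : ZMod (4 * k + 1)) else 0)
        else p c.1.1 + (bif b then 2 * (c.1.1 : ZMod (4 * k + 1)) else 0))
      else (p c.1.1 + (bif b then 2 * (c.1.1 : ZMod (4 * k + 1)) else 0)) +
        (bif c.2 then 1 else 0))

/-- The vertices of the holes. -/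
def sideM (k : ℕ) (I D D' : Finset ℕ) (σ : ℕ → ℕ) (q p p' : ℕ → ZMod (4 * k + 1))
    (v : ZMod (4 * k + 1)) : Prop :=
  (∃ i ∈ I, v = q i ∨ v = q i + 2 * (i : ZMod (4 * k + 1))) ∨
  (∃ d ∈ D, v = p d ∨ v = p d + 2 * (d : ZMod (4 * k + 1)) ∨ v = p d + 1 ∨
    v = p d + 2 * (d : ZMod (4 * k + 1)) + 1) ∨
  (∃ d ∈ D', v = p d ∨ v = p d + 2 * (d : ZMod (4 * k + 1)) ∨ v = p' d ∨
    v = p' d + 2 * ((σ d : ℕ) : ZMod (4 * k + 1)))

theorem sideE_mem (hDD : Disjoint D D') (q p p' : ℕ → ZMod (4 * k + 1)) (v : ZMod (4 * k + 1)) :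
    (∃ θ b, sideE k I D D' σ q p p' θ b = v) ↔ sideM k I D D' σ q p p' v := by
  constructor
  · rintro ⟨i | ⟨⟨d, hd⟩, c⟩, b, rfl⟩
    · left
      refine ⟨i.1, i.2, ?_⟩
      cases b
      · left; exact add_zero _
      · right; rfl
    · by_cases h : d ∈ D'
      · right; right
        refine ⟨d, h, ?_⟩
        show (if d ∈ D' then _ else _) = _ ∨ (if d ∈ D' then _ else _) = _ ∨
          (if d ∈ D' then _ else _) = _ ∨ (if d ∈ D' then _ else _) = _
        rw [if_pos h]
        cases c <;> cases b <;> simp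
      · have hD : d ∈ D := by
          rcases Finset.mem_union.1 hd with h1 | h1
          · exact h1
          · exact absurd h1 h
        right; left
        refine ⟨d, hD, ?_⟩
        show (if d ∈ D' then _ else _) = _ ∨ (if d ∈ D' then _ else _) = _ ∨
          (if d ∈ D' then _ else _) = _ ∨ (if d ∈ D' then _ else _) = _
        rw [if_neg h]
        cases c <;> cases b <;> simp
  · rintro (⟨i, hi, h | h⟩ | ⟨d, hd, h | h | h | h⟩ | ⟨d, hd, h | h | h | h⟩)
    · refine ⟨Sum.inl ⟨i, hi⟩, false, ?_⟩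
      rw [h]; exact add_zero _
    · refine ⟨Sum.inl ⟨i, hi⟩, true, ?_⟩
      rw [h]; rfl
    all_goals
      first
      | have hn : d ∉ D' := Finset.disjoint_left.1 hDD hd
        have hU : d ∈ D ∪ D' := Finset.mem_union_left _ hd
        first
        | (refine ⟨Sum.inr (⟨d, hU⟩, false), false, ?_⟩
           rw [h]
           show (if d ∈ D' then _ else _) = _
           rw [if_neg hn]
           simp; done)
        | (refine ⟨Sum.inr (⟨d, hU⟩, false), true, ?_⟩
           rw [h]
           show (if d ∈ D' then _ else _) = _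
           rw [if_neg hn]
           simp; done)
        | (refine ⟨Sum.inr (⟨d, hU⟩, true), false, ?_⟩
           rw [h]
           show (if d ∈ D' then _ else _) = _
           rw [if_neg hn]
           simp; done)
        | (refine ⟨Sum.inr (⟨d, hU⟩, true), true, ?_⟩
           rw [h]
           show (if d ∈ D' then _ else _) = _
           rw [if_neg hn]
           simp; done)
      | have hU : d ∈ D ∪ D' := Finset.mem_union_right _ hd
        first
        | (refine ⟨Sum.inr (⟨d, hU⟩, false), false, ?_⟩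
           rw [h]
           show (if d ∈ D' then _ else _) = _
           rw [if_pos hd]
           simp; done)
        | (refine ⟨Sum.inr (⟨d, hU⟩, false), true, ?_⟩
           rw [h]
           show (if d ∈ D' then _ else _) = _
           rw [if_pos hd]
           simp; done)
        | (refine ⟨Sum.inr (⟨d, hU⟩, true), false, ?_⟩
           rw [h]
           show (if d ∈ D' then _ else _) = _
           rw [if_pos hd]
           simp; done)
        | (refine ⟨Sum.inr (⟨d, hU⟩, true), true, ?_⟩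
           rw [h]
           show (if d ∈ D' then _ else _) = _
           rw [if_pos hd]
           simp; done)

theorem sideTS (hσ : Set.BijOn σ (D ∪ D' : Finset ℕ) U)
    (hG : Good (4 * k + 1) IsUnit
      (fun i : {i // i ∈ I} => ((2 * i.1 : ℕ) : ZMod (4 * k + 1)))
      (fun d : {d // d ∈ D ∪ D'} => ((2 * d.1 : ℕ) : ZMod (4 * k + 1)))
      (fun d : {d // d ∈ D ∪ D'} => ((2 * σ d.1 : ℕ) : ZMod (4 * k + 1))))
    (q p p' : ℕ → ZMod (4 * k + 1)) :
    TS Set.univ (fun x y => y - x ∈ LSet k (I ∪ (D ∪ D') ∪ U)) (sideE k I D D' σ q p p') := by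
  classical
  have h1 := hG (Sum.elim (fun i => q i.1) (fun c => if c.1.1 ∈ D' then
      (bif c.2 then p' c.1.1 else p c.1.1) else p c.1.1 + (bif c.2 then 1 else 0)))
    (Sum.elim (fun i => ((2 * i.1 : ℕ) : ZMod (4 * k + 1)))
      (fun c => if c.1.1 ∈ D' ∧ c.2 = true then ((2 * σ c.1.1 : ℕ) : ZMod (4 * k + 1)) else
        ((2 * c.1.1 : ℕ) : ZMod (4 * k + 1)))) (fun i => rfl) (by
      intro d
      by_cases hd : d.1 ∈ D'
      · left
        refine ⟨?_, ?_⟩
        · show (if d.1 ∈ D' ∧ false = true then _ else _) = _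
          rw [if_neg (by simp)]
        · show (if d.1 ∈ D' ∧ true = true then _ else _) = _
          rw [if_pos ⟨hd, rfl⟩]
      · right; right
        refine ⟨Or.inl ⟨?_, ?_⟩, ?_⟩
        · show (if d.1 ∈ D' ∧ false = true then _ else _) = _
          rw [if_neg (by simp)]
        · show (if d.1 ∈ D' ∧ true = true then _ else _) = _
          rw [if_neg (fun h => hd h.1)]
        · show IsUnit ((if d.1 ∈ D' then (bif true then p' d.1 else p d.1) else
            p d.1 + (bif true then 1 else 0)) - (if d.1 ∈ D' then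
            (bif false then p' d.1 else p d.1) else p d.1 + (bif false then 1 else 0)))
          rw [if_neg hd, if_neg hd]
          have e : p d.1 + (bif true then 1 else 0) - (p d.1 + (bif false then 1 else 0)) =
            (1 : ZMod (4 * k + 1)) := by simp
          rw [e]
          exact isUnit_one)
  refine (h1.mono ?_).congr ?_
  · rintro x - y - ⟨j, hj, h⟩
    have hj' : FD (fun i : {i // i ∈ I} => ((2 * i.1 : ℕ) : ZMod (4 * k + 1)))
        (fun d : {d // d ∈ D ∪ D'} => ((2 * d.1 : ℕ) : ZMod (4 * k + 1)))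
        (fun d : {d // d ∈ D ∪ D'} => ((2 * σ d.1 : ℕ) : ZMod (4 * k + 1)))
        (2 * (j : ZMod (4 * k + 1))) := by
      rcases Finset.mem_union.1 hj with hj | hj
      · rcases Finset.mem_union.1 hj with hj | hj
        · left
          refine ⟨⟨j, hj⟩, ?_⟩
          push_cast
          rfl
        · right
          refine ⟨⟨j, hj⟩, Or.inl ?_⟩
          push_cast
          rfl
      · right
        obtain ⟨d, hd, rfl⟩ := hσ.surjOn hj
        refine ⟨⟨d, Finset.mem_coe.1 hd⟩, Or.inr ?_⟩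
        push_cast
        rfl
    refine ⟨_, hj', ?_⟩
    rcases h with h | h
    · left
      linear_combination h
    · right
      linear_combination -h
  · rintro (i | ⟨⟨d, hd⟩, c⟩) b
    · show q i.1 + (bif b then 2 * (i.1 : ZMod (4 * k + 1)) else 0) =
        q i.1 + (bif b then ((2 * i.1 : ℕ) : ZMod (4 * k + 1)) else 0)
      push_cast
      rfl
    · show (if d ∈ D' then _ else _) = (if d ∈ D' then _ else _) +
        (bif b then (if d ∈ D' ∧ c = true then _ else _) else 0)
      by_cases h : d ∈ D'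
      · rw [if_pos h, if_pos h]
        cases c
        · rw [if_neg (by simp)]
          simp
        · rw [if_pos ⟨h, rfl⟩]
          simp
      · rw [if_neg h, if_neg h, if_neg (fun h' => h h'.1)]
        push_cast
        ring

/-- A side without extra threads. -/
theorem sideEG (hsub : I ∪ (D ∪ D') ∪ U ⊆ Finset.Icc 1 (2 * k)) (hDD : Disjoint D D')
    (hσ : Set.BijOn σ (D ∪ D' : Finset ℕ) U)
    (hG : Good (4 * k + 1) IsUnit
      (fun i : {i // i ∈ I} => ((2 * i.1 : ℕ) : ZMod (4 * k + 1)))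
      (fun d : {d // d ∈ D ∪ D'} => ((2 * d.1 : ℕ) : ZMod (4 * k + 1)))
      (fun d : {d // d ∈ D ∪ D'} => ((2 * σ d.1 : ℕ) : ZMod (4 * k + 1))))
    (q p p' : ℕ → ZMod (4 * k + 1)) (A : Finset (ZMod (4 * k + 1)))
    (hc : A.card = 2 * (I.card + 2 * (D.card + D'.card)))
    (hA : ∀ v, v ∈ A ↔ sideM k I D D' σ q p p' v) :
    EG (LSet k (I ∪ (D ∪ D') ∪ U)) A := by
  classical
  have hodd : Odd (4 * k + 1) := ⟨2 * k, by ring⟩
  refine EG_of_cover (by rw [ZMod.card]; exact hodd) _ (zero_notMem_LSet hsub) A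
    (sideE k I D D' σ q p p') ?_ ?_ (sideTS hσ hG q p p')
  · rw [hc, Fintype.card_sum, Fintype.card_prod, Fintype.card_coe, Fintype.card_coe,
      Fintype.card_bool, Finset.card_union_of_disjoint hDD]
    ring
  · intro v
    rw [hA, sideE_mem hDD]

theorem two_mul_2k (k : ℕ) : (2 : ZMod (4 * k + 1)) * ((2 * k : ℕ) : ZMod (4 * k + 1)) = -1 := by
  have h : ((4 * k + 1 : ℕ) : ZMod (4 * k + 1)) = 0 := ZMod.natCast_self _
  push_cast at h ⊢
  linear_combination h

/-- A side with the type 1 (label `2 k`) used once, at `{w, w + 1}`. -/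
theorem sideEG_one (hk : 1 ≤ k) (hsub : I ∪ (D ∪ D') ∪ U ⊆ Finset.Icc 1 (2 * k))
    (hDD : Disjoint D D') (hσ : Set.BijOn σ (D ∪ D' : Finset ℕ) U)
    (hG : Good (4 * k + 1) IsUnit
      (fun i : {i // i ∈ I} => ((2 * i.1 : ℕ) : ZMod (4 * k + 1)))
      (fun d : {d // d ∈ D ∪ D'} => ((2 * d.1 : ℕ) : ZMod (4 * k + 1)))
      (fun d : {d // d ∈ D ∪ D'} => ((2 * σ d.1 : ℕ) : ZMod (4 * k + 1))))
    (q p p' : ℕ → ZMod (4 * k + 1)) (w : ZMod (4 * k + 1)) (A : Finset (ZMod (4 * k + 1)))
    (hc : A.card = 2 * (I.card + 2 * (D.card + D'.card) + 1))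
    (hA : ∀ v, v ∈ A ↔ sideM k I D D' σ q p p' v ∨ v = w ∨ v = w + 1) :
    EG (LSet k (I ∪ (D ∪ D') ∪ U ∪ {2 * k})) A := by
  classical
  have hodd : Odd (4 * k + 1) := ⟨2 * k, by ring⟩
  have h1 := cyc_unit hodd (by omega) (1 : ZMod (4 * k + 1)) w isUnit_one
  refine EG_of_cover (by rw [ZMod.card]; exact hodd) _ (zero_notMem_LSet ?_) A
    (Sum.elim (sideE k I D D' σ q p p') (fun (_ : Unit) b => w + (bif b then 1 else 0))) ?_ ?_
    (((sideTS hσ hG q p p').union h1).mono ?_)
  · intro x hx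
    rcases Finset.mem_union.1 hx with hx | hx
    · exact hsub hx
    · rw [Finset.mem_singleton] at hx
      rw [Finset.mem_Icc]
      omega
  · rw [hc, Fintype.card_sum, Fintype.card_sum, Fintype.card_prod, Fintype.card_coe,
      Fintype.card_coe, Fintype.card_bool, Fintype.card_unit,
      Finset.card_union_of_disjoint hDD]
    ring
  · intro v
    rw [hA, ← sideE_mem hDD]
    constructor
    · rintro (⟨θ, b, h⟩ | h | h)
      · exact ⟨Sum.inl θ, b, h⟩
      · exact ⟨Sum.inr (), false, by rw [h]; exact add_zero _⟩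
      · exact ⟨Sum.inr (), true, by rw [h]; rfl⟩
    · rintro ⟨θ | _, b, h⟩
      · exact Or.inl ⟨θ, b, h⟩
      · cases b
        · right; left
          rw [← h]; exact add_zero _
        · right; right
          rw [← h]; rfl
  · rintro x - y - ⟨j, hj, h⟩
    rw [Finset.mem_union, Finset.mem_singleton] at hj
    rcases hj with hj | rfl
    · exact Or.inl ⟨j, hj, h⟩
    · right
      refine ⟨1, rfl, ?_⟩
      rcases h with h | h
      · rw [two_mul_2k] at h
        right
        linear_combination -h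
      · rw [two_mul_2k] at h
        left
        linear_combination h

/-- A side with the type 1 (label `2 k`) doubled at `{w, w + 1}`, `{w', w' + 1}`, with the unused
label `u₀`. -/
theorem sideEG_two (hk : 1 ≤ k) (hsub : I ∪ (D ∪ D') ∪ U ⊆ Finset.Icc 1 (2 * k))
    (hDD : Disjoint D D') (hσ : Set.BijOn σ (D ∪ D' : Finset ℕ) U)
    (hG : Good (4 * k + 1) IsUnit
      (fun i : {i // i ∈ I} => ((2 * i.1 : ℕ) : ZMod (4 * k + 1)))
      (fun d : {d // d ∈ D ∪ D'} => ((2 * d.1 : ℕ) : ZMod (4 * k + 1)))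
      (fun d : {d // d ∈ D ∪ D'} => ((2 * σ d.1 : ℕ) : ZMod (4 * k + 1))))
    (u₀ : ℕ) (hu1 : 1 ≤ u₀) (hu2 : u₀ < 2 * k)
    (q p p' : ℕ → ZMod (4 * k + 1)) (w w' : ZMod (4 * k + 1)) (hw : w' ≠ w)
    (hu₀ : Nat.gcd (4 * k + 1) u₀ = 1 ∨ ¬ Nat.gcd (4 * k + 1) u₀ ∣ (w' - w).val)
    (A : Finset (ZMod (4 * k + 1)))
    (hc : A.card = 2 * (I.card + 2 * (D.card + D'.card) + 2))
    (hA : ∀ v, v ∈ A ↔ sideM k I D D' σ q p p' v ∨ v = w ∨ v = w + 1 ∨ v = w' ∨ v = w' + 1) :
    EG (LSet k (I ∪ (D ∪ D') ∪ U ∪ {2 * k, u₀})) A := by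
  classical
  have hodd : Odd (4 * k + 1) := ⟨2 * k, by ring⟩
  have h2k := two_mul_2k k
  have hl : ∀ j : ℕ, 1 ≤ j → j ≤ 2 * k → (2 : ZMod (4 * k + 1)) * (j : ZMod (4 * k + 1)) ≠ 0 := by
    intro j h1 h2
    have := label_ne_zero (1 : ZMod (4 * k + 1)) isUnit_one h1 h2
    rwa [one_mul] at this
  have hval : ∀ j : ℕ, j ≤ 2 * k → ((2 * j : ℕ) : ZMod (4 * k + 1)).val = 2 * j := by
    intro j hj
    exact ZMod.val_cast_of_lt (by omega)
  have hF1 : Fact (1 < 4 * k + 1) := ⟨by omega⟩
  have c1 : (1 : ZMod (4 * k + 1)) ≠ 2 * (u₀ : ZMod (4 * k + 1)) := by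
    intro h
    have h1 := congrArg ZMod.val h
    have h2 := hval u₀ hu2.le
    push_cast at h2
    rw [h2, ZMod.val_one] at h1
    omega
  have c2 : (1 : ZMod (4 * k + 1)) ≠ -(2 * (u₀ : ZMod (4 * k + 1))) := by
    intro h
    have h1 : ((2 * u₀ : ℕ) : ZMod (4 * k + 1)) = ((4 * k : ℕ) : ZMod (4 * k + 1)) := by
      push_cast at h2k ⊢
      linear_combination h - h2k
    have h2 := congrArg ZMod.val h1
    rw [hval u₀ hu2.le, ZMod.val_cast_of_lt (by omega)] at h2
    omega
  have hdisp : IsUnit (2 * (u₀ : ZMod (4 * k + 1))) ∨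
      ¬ (2 * (u₀ : ZMod (4 * k + 1))) ∣ (w' - w) := by
    rcases hu₀ with h | h
    · left
      have h1 : IsUnit ((2 * u₀ : ℕ) : ZMod (4 * k + 1)) := by
        rw [ZMod.isUnit_iff_coprime]
        have h2 : Nat.Coprime 2 (4 * k + 1) := Nat.coprime_two_left.2 hodd
        exact Nat.Coprime.mul_left h2 (Nat.Coprime.symm h)
      push_cast at h1
      exact h1
    · right
      rintro ⟨z, hz⟩
      apply h
      have hg : Nat.gcd (4 * k + 1) u₀ ∣ 4 * k + 1 := Nat.gcd_dvd_left _ _
      have h1 : (ZMod.castHom hg (ZMod (Nat.gcd (4 * k + 1) u₀))) (w' - w) = 0 := by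
        rw [hz, map_mul, map_mul, map_natCast,
          (ZMod.natCast_eq_zero_iff u₀ _).2 (Nat.gcd_dvd_right _ _), mul_zero, zero_mul]
      have h2 : (((w' - w).val : ℕ) : ZMod (Nat.gcd (4 * k + 1) u₀)) = 0 := by
        rw [← h1]
        conv_rhs => rw [← ZMod.natCast_zmod_val (w' - w)]
        rw [map_natCast]
      exact (ZMod.natCast_eq_zero_iff _ _).1 h2
  have h1 := pair_one hodd (by omega) 1
    (2 * (u₀ : ZMod (4 * k + 1))) isUnit_one (hl u₀ hu1 hu2.le) c1 c2 w w' hw hdisp
  refine EG_of_cover (by rw [ZMod.card]; exact hodd) _ (zero_notMem_LSet ?_) A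
    (Sum.elim (sideE k I D D' σ q p p')
      (fun (c b : Bool) => (bif c then w' else w) + (bif b then 1 else 0))) ?_ ?_
    (((sideTS hσ hG q p p').union h1).mono ?_)
  · intro x hx
    rcases Finset.mem_union.1 hx with hx | hx
    · exact hsub hx
    · rw [Finset.mem_insert, Finset.mem_singleton] at hx
      rw [Finset.mem_Icc]
      omega
  · rw [hc, Fintype.card_sum, Fintype.card_sum, Fintype.card_prod, Fintype.card_coe,
      Fintype.card_coe, Fintype.card_bool, Finset.card_union_of_disjoint hDD]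
    ring
  · intro v
    rw [hA, ← sideE_mem hDD]
    constructor
    · rintro (⟨θ, b, h⟩ | h | h | h | h)
      · exact ⟨Sum.inl θ, b, h⟩
      · exact ⟨Sum.inr false, false, by rw [h]; exact add_zero _⟩
      · exact ⟨Sum.inr false, true, by rw [h]; rfl⟩
      · exact ⟨Sum.inr true, false, by rw [h]; exact add_zero _⟩
      · exact ⟨Sum.inr true, true, by rw [h]; rfl⟩
    · rintro ⟨θ | c, b, h⟩
      · exact Or.inl ⟨θ, b, h⟩
      · cases c <;> cases b
        · exact Or.inr (Or.inl (by rw [← h]; exact add_zero _))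
        · exact Or.inr (Or.inr (Or.inl (by rw [← h]; rfl)))
        · exact Or.inr (Or.inr (Or.inr (Or.inl (by rw [← h]; exact add_zero _))))
        · exact Or.inr (Or.inr (Or.inr (Or.inr (by rw [← h]; rfl))))
  · rintro x - y - ⟨j, hj, h⟩
    rw [Finset.mem_union, Finset.mem_insert, Finset.mem_singleton] at hj
    rcases hj with hj | rfl | rfl
    · exact Or.inl ⟨j, hj, h⟩
    · right
      refine ⟨1, Or.inl rfl, ?_⟩
      rcases h with h | h
      · rw [h2k] at h
        right
        linear_combination -h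
      · rw [h2k] at h
        left
        linear_combination h
    · right
      refine ⟨_, Or.inr rfl, ?_⟩
      rcases h with h | h
      · left
        linear_combination h
      · right
        linear_combination -h

end side

end Pool.Agent.P45
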