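import Mathlib

/-! # Averaging an autocorrelation over the units of `ZMod n` -/

set_option autoImplicit false

namespace Pool.Agent.P45

open Finset ArithmeticFunction

namespace AvgAux

variable {n : ℕ} [NeZero n]

/-- The standard additive character. -/
noncomputable abbrev e (n : ℕ) [NeZero n] : AddChar (ZMod n) ℂ := ZMod.stdAddChar (N := n)

theorem sum_e (b : ZMod n) : ∑ x : ZMod n, e n (x * b) = if b = 0 then (n : ℂ) else 0 := by
  have h := AddChar.sum_mulShift b (ZMod.isPrimitive_stdAddChar n)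
  rw [h]
  split_ifs <;> simp [ZMod.card]

theorem e_ne_one {b : ZMod n} (hb : b ≠ 0) : e n b ≠ 1 := by
  intro h
  exact hb (ZMod.injective_stdAddChar (by rw [AddChar.map_zero_eq_one]; exact h))

omit [NeZero n] in
theorem smul_unit (u : (ZMod n)ˣ) (x : ZMod n) (k : ℕ) : k • ((u : ZMod n) * x) = 0 ↔ k • x = 0 := by
  rw [nsmul_eq_mul, nsmul_eq_mul]
  constructor
  · intro h
    have := congrArg (fun z => (↑u⁻¹ : ZMod n) * z) h
    simp only [mul_zero] at this
    rw [← this]
    rw [show (↑u⁻¹ : ZMod n) * ((k : ZMod n) * (↑u * x)) = (k : ZMod n) * ((↑u⁻¹ * ↑u) * x) by ring,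
      Units.inv_mul, one_mul]
  · intro h
    rw [show (k : ZMod n) * (↑u * x) = ↑u * ((k : ZMod n) * x) by ring, h, mul_zero]

omit [NeZero n] in
theorem ord_unit (u : (ZMod n)ˣ) (x : ZMod n) : addOrderOf ((u : ZMod n) * x) = addOrderOf x := by
  apply Nat.dvd_antisymm
  · rw [addOrderOf_dvd_iff_nsmul_eq_zero, smul_unit, addOrderOf_nsmul_eq_zero]
  · rw [addOrderOf_dvd_iff_nsmul_eq_zero, ← smul_unit u, addOrderOf_nsmul_eq_zero]

omit [NeZero n] in
theorem ord_dvd (x : ZMod n) : addOrderOf x ∣ n := by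
  rw [addOrderOf_dvd_iff_nsmul_eq_zero, nsmul_eq_mul]
  simp

/-- elements of the same order differ by a unit -/
theorem exists_unit {x y : ZMod n} (h : addOrderOf x = addOrderOf y) :
    ∃ u : (ZMod n)ˣ, y = u * x := by
  obtain ⟨d, hd, u, hu, hx⟩ := ZMod.eq_unit_mul_divisor x
  obtain ⟨d', hd', u', hu', hy⟩ := ZMod.eq_unit_mul_divisor y
  have h1 : addOrderOf x = n / d := by
    rw [hx, ← hu.unit_spec, ord_unit, ZMod.addOrderOf_coe _ (NeZero.ne n),
      Nat.gcd_eq_right hd]
  have h2 : addOrderOf y = n / d' := by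
    rw [hy, ← hu'.unit_spec, ord_unit, ZMod.addOrderOf_coe _ (NeZero.ne n),
      Nat.gcd_eq_right hd']
  have hdd : d = d' := by
    rw [h1, h2] at h
    have hn : 0 < n := Nat.pos_of_ne_zero (NeZero.ne n)
    obtain ⟨c, hc⟩ := hd
    obtain ⟨c', hc'⟩ := hd'
    have hd0 : 0 < d := Nat.pos_of_ne_zero (by rintro rfl; simp at hc; omega)
    have hd0' : 0 < d' := Nat.pos_of_ne_zero (by rintro rfl; simp at hc'; omega)
    have e1 : n / d = c := by rw [hc]; exact Nat.mul_div_cancel_left c hd0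
    have e2 : n / d' = c' := by
      conv_lhs => rw [hc']
      exact Nat.mul_div_cancel_left c' hd0'
    rw [e1, e2] at h
    subst h
    have hc0 : 0 < c := Nat.pos_of_ne_zero (by rintro rfl; simp at hc; omega)
    exact Nat.eq_of_mul_eq_mul_right hc0 (by rw [← hc, ← hc'])
  refine ⟨hu'.unit * hu.unit⁻¹, ?_⟩
  subst hdd
  rw [hx, hy]
  simp only [Units.val_mul, IsUnit.unit_spec]
  rw [show u' * ↑hu.unit⁻¹ * (u * (d : ZMod n)) = u' * ((↑hu.unit⁻¹ * u) * (d : ZMod n)) by ring,
    IsUnit.val_inv_mul, one_mul]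

/-- elements of order `m` -/
noncomputable def O (n : ℕ) [NeZero n] (m : ℕ) : Finset (ZMod n) :=
  univ.filter fun x => addOrderOf x = m

theorem mem_O {m : ℕ} {x : ZMod n} : x ∈ O n m ↔ addOrderOf x = m := by simp [O]

theorem card_O {m : ℕ} (hm : m ∣ n) : (O n m).card = Nat.totient m := by
  have := IsAddCyclic.card_addOrderOf_eq_totient (α := ZMod n) (d := m) (by rwa [ZMod.card])
  exact this

theorem sum_torsion {m : ℕ} (hm : m ∣ n) :
    ∑ x ∈ univ.filter (fun x : ZMod n => m • x = 0), e n x = if m = 1 then 1 else 0 := by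
  have hn : 0 < n := Nat.pos_of_ne_zero (NeZero.ne n)
  split_ifs with h
  · subst h
    have : univ.filter (fun x : ZMod n => 1 • x = 0) = {0} := by
      ext x; simp
    rw [this]
    simp
  · obtain ⟨c, hc⟩ := hm
    have hm0 : 0 < m := Nat.pos_of_ne_zero (by rintro rfl; simp at hc; omega)
    have hc0 : 0 < c := Nat.pos_of_ne_zero (by rintro rfl; simp at hc; omega)
    set t : ZMod n := (c : ZMod n) with ht
    have ht0 : t ≠ 0 := by
      intro h0
      rw [ht, ZMod.natCast_eq_zero_iff] at h0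
      have := Nat.le_of_dvd hc0 h0
      have : 2 * c ≤ m * c := Nat.mul_le_mul_right c (by omega)
      omega
    have hmt : m • t = 0 := by
      rw [nsmul_eq_mul, ht, ← Nat.cast_mul, ← hc]; simp
    set S := univ.filter (fun x : ZMod n => m • x = 0) with hS
    have key : ∑ x ∈ S, e n x = e n t * ∑ x ∈ S, e n x := by
      rw [Finset.mul_sum]
      refine Finset.sum_bij' (fun x _ => x - t) (fun x _ => x + t) ?_ ?_ ?_ ?_ ?_
      · intro x hx
        simp only [hS, mem_filter, mem_univ, true_and] at hx ⊢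
        rw [smul_sub, hx, hmt, sub_zero]
      · intro x hx
        simp only [hS, mem_filter, mem_univ, true_and] at hx ⊢
        rw [smul_add, hx, hmt, add_zero]
      · intro x _; ring
      · intro x _; ring
      · intro x _
        rw [← AddChar.map_add_eq_mul]; congr 1; ring
    have : (1 - e n t) * ∑ x ∈ S, e n x = 0 := by
      rw [sub_mul, one_mul, ← key, sub_self]
    rcases mul_eq_zero.1 this with h' | h'
    · exact absurd (sub_eq_zero.1 h').symm (e_ne_one ht0)
    · exact h'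

theorem sum_O {m : ℕ} (hm : m ∣ n) : ∑ x ∈ O n m, e n x = (moebius m : ℂ) := by
  have hn : 0 < n := Nat.pos_of_ne_zero (NeZero.ne n)
  have h := (sum_eq_iff_sum_smul_moebius_eq_on (f := fun m => ∑ x ∈ O n m, e n x)
    (g := fun m => if m = 1 then (1 : ℂ) else 0) {m | m ∣ n}
    (fun a b hab hb => hab.trans hb)).1 (by
      intro m hm0 hm
      rw [← sum_torsion hm, ← Finset.sum_fiberwise_of_maps_to (s := univ.filter
        (fun x : ZMod n => m • x = 0)) (t := m.divisors) (g := fun x => addOrderOf x)]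
      · apply Finset.sum_congr rfl
        intro i hi
        apply Finset.sum_congr _ (fun _ _ => rfl)
        ext x
        rw [mem_O]
        simp only [mem_filter, mem_univ, true_and]
        constructor
        · intro h
          refine ⟨?_, h⟩
          rw [← addOrderOf_dvd_iff_nsmul_eq_zero, h]
          exact Nat.dvd_of_mem_divisors hi
        · exact fun h => h.2
      · intro x hx
        simp only [mem_filter, mem_univ, true_and] at hx
        rw [Nat.mem_divisors]
        exact ⟨addOrderOf_dvd_iff_nsmul_eq_zero.2 hx, hm0.ne'⟩)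
  have h2 := h m (Nat.pos_of_dvd_of_pos hm hn) hm
  rw [← h2]
  rw [Finset.sum_eq_single (m, 1)]
  · simp
  · rintro ⟨a, b⟩ hab hne
    rw [Nat.mem_divisorsAntidiagonal] at hab
    have : b ≠ 1 := by
      rintro rfl
      apply hne
      simp at hab
      rw [hab.1]
    simp [this]
  · intro hh
    exfalso
    apply hh
    rw [Nat.mem_divisorsAntidiagonal]
    exact ⟨by simp, (Nat.pos_of_dvd_of_pos hm hn).ne'⟩

/-- The Ramanujan sum. -/
noncomputable def c (n : ℕ) [NeZero n] (b : ZMod n) : ℂ := ∑ u : (ZMod n)ˣ, e n (u * b)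

theorem c_unit (v : (ZMod n)ˣ) (b : ZMod n) : c n (v * b) = c n b := by
  unfold c
  refine Fintype.sum_equiv (Equiv.mulRight v) _ _ ?_
  intro u
  congr 1
  simp [Equiv.mulRight, mul_assoc]

theorem c_eq (b : ZMod n) :
    (Nat.totient (addOrderOf b) : ℂ) * c n b = (moebius (addOrderOf b) : ℂ) * Nat.totient n := by
  set m := addOrderOf b with hm
  have hmn : m ∣ n := ord_dvd b
  have h1 : (Nat.totient m : ℂ) * c n b = ∑ x ∈ O n m, c n x := by
    rw [← card_O hmn, ← nsmul_eq_mul, ← Finset.sum_const]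
    apply Finset.sum_congr rfl
    intro x hx
    rw [mem_O] at hx
    obtain ⟨u, hu⟩ := exists_unit (x := b) (y := x) (by rw [hx])
    rw [hu, c_unit]
  rw [h1]
  unfold c
  rw [Finset.sum_comm]
  have h2 : ∀ u : (ZMod n)ˣ, ∑ x ∈ O n m, e n (u * x) = (moebius m : ℂ) := by
    intro u
    rw [← sum_O hmn]
    refine Finset.sum_bij' (fun x _ => (u : ZMod n) * x) (fun x _ => (↑u⁻¹ : ZMod n) * x) ?_ ?_ ?_ ?_ ?_
    · intro x hx
      rw [mem_O] at hx ⊢
      rw [ord_unit, hx]
    · intro x hx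
      rw [mem_O] at hx ⊢
      rw [ord_unit, hx]
    · intro x _
      rw [← mul_assoc, Units.inv_mul, one_mul]
    · intro x _
      rw [← mul_assoc, Units.mul_inv, one_mul]
    · intro x _; rfl
  rw [Finset.sum_congr rfl (fun u _ => h2 u), Finset.sum_const, Finset.card_univ,
    ZMod.card_units_eq_totient, nsmul_eq_mul, mul_comm]

/-- The Fourier transform of `f`. -/
noncomputable def F (f : ZMod n → ℤ) (b : ZMod n) : ℂ := ∑ x, (f x : ℂ) * e n (x * b)

theorem conj_e (x : ZMod n) : (starRingEnd ℂ) (e n x) = e n (-x) := by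
  rw [AddChar.map_neg_eq_conj]

theorem normSq_F (f : ZMod n → ℤ) (b : ZMod n) :
    ((Complex.normSq (F f b) : ℝ) : ℂ) = ∑ x, ∑ z, (f x : ℂ) * f z * e n ((x - z) * b) := by
  rw [Complex.normSq_eq_conj_mul_self, mul_comm]
  unfold F
  rw [map_sum, Finset.sum_mul_sum]
  apply Finset.sum_congr rfl
  intro x _
  apply Finset.sum_congr rfl
  intro z _
  rw [map_mul (starRingEnd ℂ), conj_e, show (x - z) * b = x * b + -(z * b) by ring,
    AddChar.map_add_eq_mul]
  simp only [map_intCast]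
  ring

/-- autocorrelation through the Fourier transform -/
theorem corr_eq (f : ZMod n → ℤ) (y : ZMod n) :
    (n : ℂ) * (∑ x, f x * f (x + y) : ℤ) =
      ∑ b, ((Complex.normSq (F f b) : ℝ) : ℂ) * e n (y * b) := by
  have h1 : ∀ b, ((Complex.normSq (F f b) : ℝ) : ℂ) * e n (y * b) =
      ∑ x, ∑ z, (f x : ℂ) * f z * e n (b * (x - z + y)) := by
    intro b
    rw [normSq_F, Finset.sum_mul]
    apply Finset.sum_congr rfl
    intro x _
    rw [Finset.sum_mul]
    apply Finset.sum_congr rfl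
    intro z _
    rw [mul_assoc, ← AddChar.map_add_eq_mul]
    congr 2
    ring
  rw [Finset.sum_congr rfl (fun b _ => h1 b), Finset.sum_comm]
  push_cast
  rw [Finset.mul_sum]
  apply Finset.sum_congr rfl
  intro x _
  rw [Finset.sum_comm, Finset.sum_eq_single (x + y)]
  · rw [← Finset.mul_sum, sum_e, if_pos (by ring)]
    ring
  · intro z _ hz
    rw [← Finset.mul_sum, sum_e, if_neg, mul_zero]
    intro h
    apply hz
    linear_combination -h
  · intro h; exact absurd (mem_univ _) h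

theorem c_real (b : ZMod n) : c n b =
    (((moebius (addOrderOf b) : ℝ) * Nat.totient n / Nat.totient (addOrderOf b) : ℝ) : ℂ) := by
  have h := c_eq b
  have hpos : 0 < Nat.totient (addOrderOf b) := by
    rw [Nat.totient_pos]
    exact addOrderOf_pos b
  have hne : (Nat.totient (addOrderOf b) : ℂ) ≠ 0 := by exact_mod_cast hpos.ne'
  push_cast
  rw [eq_div_iff hne, mul_comm, h]

theorem sum_corr (f : ZMod n → ℤ) :
    (n : ℝ) * ∑ u : (ZMod n)ˣ, ((∑ x, f x * f (x + u) : ℤ) : ℝ) =
      ∑ b, Complex.normSq (F f b) *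
        ((moebius (addOrderOf b) : ℝ) * Nat.totient n / Nat.totient (addOrderOf b)) := by
  have : (((n : ℝ) * ∑ u : (ZMod n)ˣ, ((∑ x, f x * f (x + u) : ℤ) : ℝ) : ℝ) : ℂ) =
      ((∑ b, Complex.normSq (F f b) *
        ((moebius (addOrderOf b) : ℝ) * Nat.totient n / Nat.totient (addOrderOf b)) : ℝ) : ℂ) := by
    have h2 : ((∑ b, Complex.normSq (F f b) *
        ((moebius (addOrderOf b) : ℝ) * Nat.totient n / Nat.totient (addOrderOf b)) : ℝ) : ℂ)
        = ∑ b, ((Complex.normSq (F f b) : ℝ) : ℂ) * c n b := by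
      rw [Complex.ofReal_sum]
      apply Finset.sum_congr rfl
      intro b _
      rw [Complex.ofReal_mul, c_real]
    rw [h2]
    have h3 : (((n : ℝ) * ∑ u : (ZMod n)ˣ, ((∑ x, f x * f (x + u) : ℤ) : ℝ) : ℝ) : ℂ) =
        ∑ u : (ZMod n)ˣ, (n : ℂ) * ((∑ x, f x * f (x + u) : ℤ) : ℂ) := by
      rw [Complex.ofReal_mul, Complex.ofReal_sum, Finset.mul_sum]
      apply Finset.sum_congr rfl
      intro u _
      push_cast
      rfl
    rw [h3, Finset.sum_congr rfl (fun u _ => corr_eq f _), Finset.sum_comm]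
    apply Finset.sum_congr rfl
    intro b _
    rw [← Finset.mul_sum]
    rfl
  exact_mod_cast this

theorem parseval (f : ZMod n → ℤ) :
    ∑ b, Complex.normSq (F f b) = (n : ℝ) * ((∑ x, f x * f x : ℤ) : ℝ) := by
  have h := corr_eq f 0
  have : ((∑ b, Complex.normSq (F f b) : ℝ) : ℂ) = (((n : ℝ) * ((∑ x, f x * f x : ℤ) : ℝ) : ℝ) : ℂ) := by
    rw [Complex.ofReal_sum, Complex.ofReal_mul]
    have e1 : ∀ b : ZMod n, e n (0 * b) = 1 := fun b => by
      rw [zero_mul, AddChar.map_zero_eq_one]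
    simp only [e1, mul_one, add_zero] at h
    rw [← h]
    push_cast
    rfl
  exact_mod_cast this

end AvgAux

open AvgAux in
/-- Averaging over the units: some unit has a small autocorrelation. -/
theorem avg_bound (n : ℕ) [NeZero n] (h1 : 1 < n) (f : ZMod n → ℤ) (h0 : f 0 = 0)
    (hf : ∀ x ≠ 0, f x = 1 ∨ f x = -1) (hs : ∑ x, f x = 0)
    (B : ℕ) (hB : ∀ m, m ∣ n → m ≠ 1 → ArithmeticFunction.moebius m = 1 → B ≤ Nat.totient m) :
    ∃ y : ZMod n, IsUnit y ∧ (B : ℤ) * ∑ x, f x * f (x + y) ≤ (n : ℤ) - 1 := by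
  by_contra hcon
  simp only [not_exists, not_and, not_le] at hcon
  have hsq : (∑ x, f x * f x : ℤ) = (n : ℤ) - 1 := by
    have : ∀ x, f x * f x = 1 - (if x = 0 then 1 else 0) := by
      intro x
      split_ifs with hx
      · rw [hx, h0]; norm_num
      · rcases hf x hx with h | h <;> rw [h] <;> norm_num
    rw [Finset.sum_congr rfl (fun x _ => this x), Finset.sum_sub_distrib]
    simp [ZMod.card]
  have hF0 : F f 0 = 0 := by
    unfold F
    simp only [mul_zero, AddChar.map_zero_eq_one, mul_one]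
    rw [← Int.cast_sum, hs]
    simp
  have hpos : (0 : ℝ) < n := by exact_mod_cast (by omega : 0 < n)
  have htot : (0 : ℝ) < Nat.totient n := by exact_mod_cast Nat.totient_pos.2 (by omega)
  -- upper bound
  have hub : (B : ℝ) * ((n : ℝ) * ∑ u : (ZMod n)ˣ, ((∑ x, f x * f (x + u) : ℤ) : ℝ)) ≤
      Nat.totient n * ((n : ℝ) * ((n : ℝ) - 1)) := by
    rw [sum_corr, Finset.mul_sum]
    have : (Nat.totient n : ℝ) * ((n : ℝ) * ((n : ℝ) - 1)) =
        ∑ b, (Nat.totient n : ℝ) * Complex.normSq (F f b) := by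
      rw [← Finset.mul_sum, parseval, hsq]
      push_cast
      ring
    rw [this]
    apply Finset.sum_le_sum
    intro b _
    by_cases hb : b = 0
    · rw [hb, hF0]; simp
    · have hm1 : addOrderOf b ≠ 1 := by
        rw [Ne, AddMonoid.addOrderOf_eq_one_iff]; exact hb
      have hphi : (0 : ℝ) < Nat.totient (addOrderOf b) := by
        exact_mod_cast Nat.totient_pos.2 (addOrderOf_pos b)
      have key : (B : ℝ) * ((moebius (addOrderOf b) : ℝ) * Nat.totient n /
          Nat.totient (addOrderOf b)) ≤ Nat.totient n := by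
        rw [← mul_div_assoc, div_le_iff₀ hphi]
        rcases le_or_gt (moebius (addOrderOf b)) 0 with hmu | hmu
        · have : (moebius (addOrderOf b) : ℝ) ≤ 0 := by exact_mod_cast hmu
          have h5 : (B : ℝ) * ((moebius (addOrderOf b) : ℝ) * Nat.totient n) ≤ 0 := by
            apply mul_nonpos_of_nonneg_of_nonpos (Nat.cast_nonneg _)
            exact mul_nonpos_of_nonpos_of_nonneg this htot.le
          have h6 : 0 ≤ (Nat.totient n : ℝ) * Nat.totient (addOrderOf b) := by positivity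
          linarith
        · have hmu1 : moebius (addOrderOf b) = 1 := by
            have h7 := abs_moebius_le_one (n := addOrderOf b)
            rw [abs_le] at h7
            omega
          have h8 : (B : ℝ) ≤ Nat.totient (addOrderOf b) := by
            exact_mod_cast hB _ (ord_dvd b) hm1 hmu1
          rw [hmu1, Int.cast_one, one_mul, mul_comm]
          exact mul_le_mul_of_nonneg_left h8 htot.le
      have hq := Complex.normSq_nonneg (F f b)
      calc (B : ℝ) * (Complex.normSq (F f b) * ((moebius (addOrderOf b) : ℝ) * Nat.totient n /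
          Nat.totient (addOrderOf b))) = Complex.normSq (F f b) *
            ((B : ℝ) * ((moebius (addOrderOf b) : ℝ) * Nat.totient n /
          Nat.totient (addOrderOf b))) := by ring
        _ ≤ Complex.normSq (F f b) * Nat.totient n := mul_le_mul_of_nonneg_left key hq
        _ = _ := by ring
  have hlow : ∀ u : (ZMod n)ˣ, ((n : ℝ) - 1) + 1 ≤ (B : ℝ) * ((∑ x, f x * f (x + u) : ℤ) : ℝ) := by
    intro u
    have := hcon (u : ZMod n) u.isUnit
    have h9 : ((n : ℤ) - 1) + 1 ≤ (B : ℤ) * ∑ x, f x * f (x + (u : ZMod n)) := by omega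
    exact_mod_cast h9
  have hsum : (Nat.totient n : ℝ) * n ≤
      (B : ℝ) * ∑ u : (ZMod n)ˣ, ((∑ x, f x * f (x + u) : ℤ) : ℝ) := by
    rw [Finset.mul_sum]
    have : (Nat.totient n : ℝ) * n = ∑ u : (ZMod n)ˣ, (((n : ℝ) - 1) + 1) := by
      rw [Finset.sum_const, Finset.card_univ, ZMod.card_units_eq_totient, nsmul_eq_mul]
      ring
    rw [this]
    exact Finset.sum_le_sum (fun u _ => hlow u)
  have h10 : (n : ℝ) * (Nat.totient n * n) ≤ Nat.totient n * ((n : ℝ) * ((n : ℝ) - 1)) := by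
    calc (n : ℝ) * (Nat.totient n * n) ≤ n * ((B : ℝ) * ∑ u : (ZMod n)ˣ,
          ((∑ x, f x * f (x + u) : ℤ) : ℝ)) := mul_le_mul_of_nonneg_left hsum hpos.le
      _ = (B : ℝ) * ((n : ℝ) * ∑ u : (ZMod n)ˣ, ((∑ x, f x * f (x + u) : ℤ) : ℝ)) := by ring
      _ ≤ _ := hub
  have h11 : 0 < (Nat.totient n : ℝ) * n := by positivity
  nlinarith

namespace AvgAux

/-- the shape of the divisors with Moebius value one -/
theorem two_primes {n m : ℕ} (hn : Odd n) (hmn : m ∣ n) (hm1 : m ≠ 1)
    (hmu : ArithmeticFunction.moebius m = 1) :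
    ∃ p q : ℕ, p.Prime ∧ q.Prime ∧ Odd p ∧ Odd q ∧ p ≠ q ∧ p * q ∣ n ∧
      (p - 1) * (q - 1) ≤ Nat.totient m := by
  have hsq : Squarefree m := by
    by_contra h
    rw [ArithmeticFunction.moebius_eq_zero_of_not_squarefree h] at hmu
    norm_num at hmu
  have hm0 : m ≠ 0 := hsq.ne_zero
  have hp := Nat.minFac_prime hm1
  obtain ⟨k, hk⟩ := Nat.minFac_dvd m
  set p := m.minFac with hpdef
  have hk1 : k ≠ 1 := by
    rintro rfl
    rw [mul_one] at hk
    rw [hk, ArithmeticFunction.moebius_apply_prime hp] at hmu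
    norm_num at hmu
  have hq := Nat.minFac_prime hk1
  have hqk := Nat.minFac_dvd k
  set q := k.minFac with hqdef
  have hcop : Nat.Coprime p k := by
    rw [hk] at hsq
    exact Nat.coprime_of_squarefree_mul hsq
  have hpq : p ≠ q := by
    intro h
    have : p ∣ k := h ▸ hqk
    exact hp.one_lt.ne' (Nat.eq_one_of_dvd_coprimes hcop dvd_rfl this)
  have hpqm : p * q ∣ m := by
    rw [hk]; exact Nat.mul_dvd_mul_left p hqk
  have hodd : Odd m := Odd.of_dvd_nat hn hmn
  have hpo : Odd p := Odd.of_dvd_nat hodd (dvd_trans (dvd_mul_right p q) hpqm)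
  have hqo : Odd q := Odd.of_dvd_nat hodd (dvd_trans (dvd_mul_left q p) hpqm)
  refine ⟨p, q, hp, hq, hpo, hqo, hpq, hpqm.trans hmn, ?_⟩
  have hcpq : Nat.Coprime p q := (Nat.coprime_primes hp hq).2 hpq
  rw [← Nat.totient_prime hp, ← Nat.totient_prime hq, ← Nat.totient_mul hcpq]
  exact Nat.le_of_dvd (Nat.totient_pos.2 (Nat.pos_of_ne_zero hm0)) (Nat.totient_dvd_of_dvd hpqm)

theorem three_le {p : ℕ} (hp : p.Prime) (ho : Odd p) : 3 ≤ p := by
  have := hp.two_le
  rcases ho with ⟨k, hk⟩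
  omega

end AvgAux

open AvgAux in
/-- First corollary: the bound `(n-1)/8`. -/
theorem avg_eight (n : ℕ) [NeZero n] (hn : Odd n) (h1 : 1 < n) (f : ZMod n → ℤ) (h0 : f 0 = 0)
    (hf : ∀ x ≠ 0, f x = 1 ∨ f x = -1) (hs : ∑ x, f x = 0) :
    ∃ y : ZMod n, IsUnit y ∧ 8 * ∑ x, f x * f (x + y) ≤ (n : ℤ) - 1 := by
  refine avg_bound n h1 f h0 hf hs 8 ?_
  intro m hmn hm1 hmu
  obtain ⟨p, q, hp, hq, hpo, hqo, hpq, -, hle⟩ := two_primes hn hmn hm1 hmu
  have h3 := three_le hp hpo
  have h3' := three_le hq hqo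
  refine le_trans ?_ hle
  rcases hpo with ⟨a, ha⟩
  rcases hqo with ⟨b, hb⟩
  have ha1 : 1 ≤ a := by omega
  have hb1 : 1 ≤ b := by omega
  have hab : a ≠ b := by omega
  rw [ha, hb, Nat.add_sub_cancel, Nat.add_sub_cancel]
  rcases lt_or_gt_of_ne hab with h | h
  · nlinarith
  · nlinarith

open AvgAux in
/-- Second corollary: the bound `(n-1)/12` if `15` does not divide `n`. -/
theorem avg_twelve (n : ℕ) [NeZero n] (hn : Odd n) (h1 : 1 < n) (h15 : ¬ 15 ∣ n) (f : ZMod n → ℤ)
    (h0 : f 0 = 0) (hf : ∀ x ≠ 0, f x = 1 ∨ f x = -1) (hs : ∑ x, f x = 0) :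
    ∃ y : ZMod n, IsUnit y ∧ 12 * ∑ x, f x * f (x + y) ≤ (n : ℤ) - 1 := by
  refine avg_bound n h1 f h0 hf hs 12 ?_
  intro m hmn hm1 hmu
  obtain ⟨p, q, hp, hq, hpo, hqo, hpq, hdvd, hle⟩ := two_primes hn hmn hm1 hmu
  have h3 := three_le hp hpo
  have h3' := three_le hq hqo
  refine le_trans ?_ hle
  rcases hpo with ⟨a, ha⟩
  rcases hqo with ⟨b, hb⟩
  have ha1 : 1 ≤ a := by omega
  have hb1 : 1 ≤ b := by omega
  have hab : a ≠ b := by omega
  have hx : ¬ (a = 1 ∧ b = 2) := by
    rintro ⟨rfl, rfl⟩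
    apply h15
    rw [ha, hb] at hdvd
    exact hdvd
  have hy : ¬ (a = 2 ∧ b = 1) := by
    rintro ⟨rfl, rfl⟩
    apply h15
    rw [ha, hb] at hdvd
    exact hdvd
  rw [ha, hb, Nat.add_sub_cancel, Nat.add_sub_cancel]
  have : 3 ≤ a * b := by
    rcases lt_or_gt_of_ne hab with h | h
    · rcases Nat.lt_or_ge a 2 with h2 | h2
      · have : a = 1 := by omega
        subst this
        omega
      · nlinarith
    · rcases Nat.lt_or_ge b 2 with h2 | h2
      · have : b = 1 := by omega
        subst this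
        omega
      · nlinarith
  nlinarith

open AvgAux in
/-- Third corollary: prime powers. -/
theorem avg_primePow (n : ℕ) [NeZero n] (hn : IsPrimePow n) (f : ZMod n → ℤ)
    (h0 : f 0 = 0) (hf : ∀ x ≠ 0, f x = 1 ∨ f x = -1) (hs : ∑ x, f x = 0) :
    ∃ y : ZMod n, IsUnit y ∧ ∑ x, f x * f (x + y) ≤ 0 := by
  obtain ⟨y, hy, h⟩ := avg_bound n hn.one_lt f h0 hf hs n (by
    intro m hmn hm1 hmu
    exfalso
    obtain ⟨p, k, hp, hk, rfl⟩ := hn
    rw [← Nat.prime_iff] at hp
    obtain ⟨j, hj, rfl⟩ := (Nat.dvd_prime_pow hp).1 hmn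
    have hsq : Squarefree (p ^ j) := by
      by_contra h
      rw [ArithmeticFunction.moebius_eq_zero_of_not_squarefree h] at hmu
      norm_num at hmu
    have hj1 : j ≠ 0 := by rintro rfl; exact hm1 (pow_zero p)
    have hj2 : j = 1 := by
      by_contra hne
      have h2 : p * p ∣ p ^ j := by
        rw [← pow_two]; exact pow_dvd_pow p (by omega)
      have := hsq p h2
      exact hp.one_lt.ne' (Nat.isUnit_iff.1 this)
    rw [hj2, pow_one, ArithmeticFunction.moebius_apply_prime hp] at hmu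
    norm_num at hmu)
  refine ⟨y, hy, ?_⟩
  by_contra hc
  have hn1 : (1 : ℤ) < n := by exact_mod_cast hn.one_lt
  have h3 : 1 ≤ ∑ x, f x * f (x + y) := by omega
  have h4 : (n : ℤ) * 1 ≤ n * ∑ x, f x * f (x + y) := mul_le_mul_of_nonneg_left h3 (by omega)
  omega

end Pool.Agent.P45
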