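import Pool.Agent.Lib.P45dba8.Avg

/-! # MP_45dba8: a sharper average bound for `15 ∣ n` -/

set_option autoImplicit false

namespace Pool.Agent.P45

open Finset ArithmeticFunction

namespace AvgAux

variable {n : ℕ} [NeZero n]

theorem sum_e_tors (d N : ℕ) (hd : n = d * N) (b : ZMod n) :
    ∑ i ∈ range N, e n (((d * i : ℕ) : ZMod n) * b) =
      if (d : ZMod n) * b = 0 then (N : ℂ) else 0 := by
  have h1 : ∀ i : ℕ, e n (((d * i : ℕ) : ZMod n) * b) = (e n ((d : ZMod n) * b)) ^ i := by
    intro i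
    rw [← AddChar.map_nsmul_eq_pow]
    congr 1
    rw [nsmul_eq_mul]
    push_cast
    ring
  rw [Finset.sum_congr rfl (fun i _ => h1 i)]
  split_ifs with h
  · rw [h, AddChar.map_zero_eq_one]
    simp
  · have hz := e_ne_one h
    rw [geom_sum_eq hz]
    have h2 : (e n ((d : ZMod n) * b)) ^ N = 1 := by
      rw [← AddChar.map_nsmul_eq_pow, nsmul_eq_mul, ← mul_assoc]
      have h3 : ((N : ZMod n) * (d : ZMod n)) = 0 := by
        rw [← Nat.cast_mul, mul_comm, ← hd]
        exact ZMod.natCast_self n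
      rw [h3, zero_mul, AddChar.map_zero_eq_one]
    rw [h2, sub_self, zero_div]

/-- sum over the `d`-torsion -/
theorem tors_sum (f : ZMod n → ℤ) (d N : ℕ) (hN : 0 < N) (hd : n = d * N) :
    ∑ b : ZMod n, (if (d : ZMod n) * b = 0 then Complex.normSq (F f b) else 0) =
      (d : ℝ) * ∑ x, (f x : ℝ) * ∑ i ∈ range N, (f (x + ((d * i : ℕ) : ZMod n)) : ℝ) := by
  have h1 : (n : ℂ) * ∑ i ∈ range N, ((∑ x, f x * f (x + ((d * i : ℕ) : ZMod n)) : ℤ) : ℂ) =
      (N : ℂ) * ∑ b : ZMod n, (if (d : ZMod n) * b = 0 then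
        ((Complex.normSq (F f b) : ℝ) : ℂ) else 0) := by
    rw [Finset.mul_sum, Finset.sum_congr rfl (fun i _ => corr_eq f _), Finset.sum_comm,
      Finset.mul_sum]
    apply Finset.sum_congr rfl
    intro b _
    rw [← Finset.mul_sum, sum_e_tors d N hd]
    split_ifs
    · ring
    · ring
  have h2 : (n : ℝ) * ∑ i ∈ range N, ∑ x, (f x : ℝ) * (f (x + ((d * i : ℕ) : ZMod n)) : ℝ) =
      (N : ℝ) * ∑ b : ZMod n, (if (d : ZMod n) * b = 0 then Complex.normSq (F f b) else 0) := by
    have h3 : (((n : ℝ) * ∑ i ∈ range N, ∑ x, (f x : ℝ) *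
        (f (x + ((d * i : ℕ) : ZMod n)) : ℝ) : ℝ) : ℂ) =
        (((N : ℝ) * ∑ b : ZMod n, (if (d : ZMod n) * b = 0 then
          Complex.normSq (F f b) else 0) : ℝ) : ℂ) := by
      push_cast
      push_cast at h1
      rw [h1]
      congr 1
      apply Finset.sum_congr rfl
      intro b _
      split_ifs
      · rfl
      · simp
    exact_mod_cast h3
  have hNr : (N : ℝ) ≠ 0 := by exact_mod_cast hN.ne'
  have hnr : (n : ℝ) = d * N := by rw [hd]; push_cast; ring
  rw [Finset.sum_comm] at h2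
  apply mul_left_cancel₀ hNr
  rw [← h2, hnr]
  simp only [Finset.mul_sum]
  apply Finset.sum_congr rfl
  intro x _
  apply Finset.sum_congr rfl
  intro i _
  ring

/-- class sums -/
noncomputable def Sd (f : ZMod n → ℤ) (d N : ℕ) (x : ZMod n) : ℝ :=
  ∑ i ∈ range N, (f (x + ((d * i : ℕ) : ZMod n)) : ℝ)

omit [NeZero n] in
theorem Sd_per (f : ZMod n → ℤ) (d N : ℕ) (hd : n = d * N) (x : ZMod n) :
    Sd f d N (x + d) = Sd f d N x := by
  have h1 : Sd f d N (x + d) = ∑ i ∈ range N, (f (x + ((d * (i + 1) : ℕ) : ZMod n)) : ℝ) := by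
    apply Finset.sum_congr rfl
    intro i _
    congr 2
    push_cast
    ring
  have h2 := Finset.sum_range_succ' (fun i => (f (x + ((d * i : ℕ) : ZMod n)) : ℝ)) N
  have h3 := Finset.sum_range_succ (fun i => (f (x + ((d * i : ℕ) : ZMod n)) : ℝ)) N
  have h4 : ((d * N : ℕ) : ZMod n) = 0 := by
    rw [← hd]
    exact ZMod.natCast_self n
  rw [h2] at h3
  rw [h4] at h3
  simp only [mul_zero, Nat.cast_zero] at h3
  rw [h1]
  show _ = ∑ i ∈ range N, (f (x + ((d * i : ℕ) : ZMod n)) : ℝ)
  linarith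

theorem sum_shift (g : ZMod n → ℝ) (c : ZMod n) : ∑ x, g (x + c) = ∑ x, g x :=
  Fintype.sum_equiv (Equiv.addRight c) _ _ (fun _ => rfl)

/-- `N ∑ f T = ∑ S T` for a `d`-periodic `T` -/
theorem sum_mul_per (f : ZMod n → ℤ) (d N : ℕ) (T : ZMod n → ℝ)
    (hT : ∀ x, T (x + d) = T x) :
    (N : ℝ) * ∑ x, (f x : ℝ) * T x = ∑ x, Sd f d N x * T x := by
  have hT' : ∀ (i : ℕ) x, T (x + ((d * i : ℕ) : ZMod n)) = T x := by
    intro i
    induction i with
    | zero => intro x; simp
    | succ i ih =>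
      intro x
      have e1 : x + ((d * (i + 1) : ℕ) : ZMod n) = (x + ((d * i : ℕ) : ZMod n)) + d := by
        push_cast
        ring
      rw [e1, hT, ih]
  have h1 : ∀ x, Sd f d N x * T x =
      ∑ i ∈ range N, (f (x + ((d * i : ℕ) : ZMod n)) : ℝ) * T (x + ((d * i : ℕ) : ZMod n)) := by
    intro x
    unfold Sd
    rw [Finset.sum_mul]
    apply Finset.sum_congr rfl
    intro i _
    rw [hT']
  rw [Finset.sum_congr rfl (fun x _ => h1 x), Finset.sum_comm]
  have h2 : ∀ i ∈ range N, ∑ x, (f (x + ((d * i : ℕ) : ZMod n)) : ℝ) *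
      T (x + ((d * i : ℕ) : ZMod n)) = ∑ x, (f x : ℝ) * T x := fun i _ =>
    sum_shift (fun x => (f x : ℝ) * T x) _
  rw [Finset.sum_congr rfl h2, Finset.sum_const, card_range, nsmul_eq_mul]

theorem three_ineq {x y z M : ℝ} (hx : |x| ≤ M) (hy : |y| ≤ M) (hz : |z| ≤ M) :
    x ^ 2 + y ^ 2 + z ^ 2 - 5 / 3 * (x + y + z) ^ 2 ≤ 2 * M ^ 2 := by
  rw [abs_le] at hx hy hz
  obtain ⟨hx1, hx2⟩ := hx
  obtain ⟨hy1, hy2⟩ := hy
  obtain ⟨hz1, hz2⟩ := hz
  -- the core: two of the same sign
  have core : ∀ p q w : ℝ, 0 ≤ p → 0 ≤ q → p ≤ M → q ≤ M → |w| ≤ M →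
      p ^ 2 + q ^ 2 + w ^ 2 - 5 / 3 * (p + q + w) ^ 2 ≤ 2 * M ^ 2 := by
    intro p q w hp hq hp' hq' hw
    rw [abs_le] at hw
    obtain ⟨hw1, hw2⟩ := hw
    have hM : 0 ≤ M := hp.trans hp'
    have hw3 : w ^ 2 ≤ M ^ 2 := by nlinarith
    rcases le_total (p + q) M with h | h
    · nlinarith [mul_nonneg hp hq, sq_nonneg (p + q + w)]
    · -- v = p + q - M ≥ 0
      have h1 : p ^ 2 + q ^ 2 ≤ M ^ 2 + (p + q - M) ^ 2 := by
        nlinarith [mul_nonneg (sub_nonneg.2 hp') (sub_nonneg.2 hq')]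
      have h2 : (p + q - M) ^ 2 ≤ (p + q + w) ^ 2 := by
        have : 0 ≤ p + q - M := by linarith
        have : p + q - M ≤ p + q + w := by linarith
        nlinarith
      nlinarith [sq_nonneg (p + q + w)]
  rcases le_total 0 x with h1 | h1 <;> rcases le_total 0 y with h2 | h2 <;>
    rcases le_total 0 z with h3 | h3
  · exact core x y z h1 h2 hx2 hy2 (abs_le.2 ⟨hz1, hz2⟩)
  · exact core x y z h1 h2 hx2 hy2 (abs_le.2 ⟨hz1, hz2⟩)
  · have := core x z y h1 h3 hx2 hz2 (abs_le.2 ⟨hy1, hy2⟩)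
    nlinarith
  · have := core (-y) (-z) (-x) (by linarith) (by linarith) (by linarith) (by linarith)
      (abs_le.2 ⟨by linarith, by linarith⟩)
    nlinarith
  · have := core y z x h2 h3 hy2 hz2 (abs_le.2 ⟨hx1, hx2⟩)
    nlinarith
  · have := core (-x) (-z) (-y) (by linarith) (by linarith) (by linarith) (by linarith)
      (abs_le.2 ⟨by linarith, by linarith⟩)
    nlinarith
  · have := core (-x) (-y) (-z) (by linarith) (by linarith) (by linarith) (by linarith)
      (abs_le.2 ⟨by linarith, by linarith⟩)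
    nlinarith
  · have := core (-x) (-y) (-z) (by linarith) (by linarith) (by linarith) (by linarith)
      (abs_le.2 ⟨by linarith, by linarith⟩)
    nlinarith

omit [NeZero n] in
theorem ord_dvd_iff (d : ℕ) (b : ZMod n) : (d : ZMod n) * b = 0 ↔ addOrderOf b ∣ d := by
  rw [addOrderOf_dvd_iff_nsmul_eq_zero, nsmul_eq_mul]

/-- the sum over the `5`-torsion through the classes modulo `15` -/
theorem tors_five (f : ZMod n → ℤ) (N : ℕ) (hN : 0 < N) (hn : n = 15 * N) :
    ∑ b : ZMod n, (if (5 : ZMod n) * b = 0 then Complex.normSq (F f b) else 0) =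
      5 * ∑ x, (f x : ℝ) * (Sd f 15 N x + Sd f 15 N (x + 5) + Sd f 15 N (x + 10)) := by
  have h := tors_sum f 5 (3 * N) (by omega) (by rw [hn]; ring)
  have e1 : ∀ b : ZMod n, ((5 : ℕ) : ZMod n) = 5 := fun _ => by norm_num
  rw [e1 0] at h
  rw [h]
  norm_num
  apply Finset.sum_congr rfl
  intro x _
  congr 1
  -- `∑_{i<3N} g i = ∑_{i<N} (g (3i) + g (3i+1) + g (3i+2))`
  have h3 : ∀ (g : ℕ → ℝ) (N : ℕ), ∑ i ∈ range (3 * N), g i =
      ∑ i ∈ range N, (g (3 * i) + g (3 * i + 1) + g (3 * i + 2)) := by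
    intro g N
    induction N with
    | zero => simp
    | succ N ih =>
      rw [Finset.sum_range_succ, ← ih, show 3 * (N + 1) = 3 * N + 1 + 1 + 1 by ring,
        Finset.sum_range_succ, Finset.sum_range_succ, Finset.sum_range_succ]
      ring
  rw [h3, Finset.sum_add_distrib, Finset.sum_add_distrib]
  unfold Sd
  congr 1
  · congr 1
    · apply Finset.sum_congr rfl
      intro i _
      congr 2
      push_cast
      ring
    · apply Finset.sum_congr rfl
      intro i _
      congr 2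
      push_cast
      ring
  · apply Finset.sum_congr rfl
    intro i _
    congr 2
    push_cast
    ring

end AvgAux

open AvgAux in
/-- The bound `n/10` for `15 ∣ n` if all other divisors with Moebius value one have
totient at least `20`. -/
theorem avg_twenty (n N : ℕ) [NeZero n] (hn : n = 15 * N) (f : ZMod n → ℤ) (h0 : f 0 = 0)
    (hf : ∀ x ≠ 0, f x = 1 ∨ f x = -1) (hs : ∑ x, f x = 0)
    (hB : ∀ m, m ∣ n → m ≠ 1 → m ≠ 15 → ArithmeticFunction.moebius m = 1 →
      20 ≤ Nat.totient m) :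
    ∃ y : ZMod n, IsUnit y ∧ 20 * ∑ x, f x * f (x + y) ≤ 2 * (n : ℤ) - 1 := by
  have hn0 : 0 < n := Nat.pos_of_ne_zero (NeZero.ne n)
  have hN : 0 < N := by
    rcases Nat.eq_zero_or_pos N with h | h
    · rw [h] at hn; omega
    · exact h
  by_contra hcon
  simp only [not_exists, not_and, not_le] at hcon
  have hsq : (∑ x, f x * f x : ℤ) = (n : ℤ) - 1 := by
    have : ∀ x, f x * f x = 1 - (if x = 0 then 1 else 0) := by
      intro x
      split_ifs with hx
      · rw [hx, h0]; norm_num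
      · rcases hf x hx with h | h <;> rw [h] <;> norm_num
    rw [Finset.sum_congr rfl (fun x _ => this x), Finset.sum_sub_distrib]
    simp [ZMod.card]
  have hF0 : F f 0 = 0 := by
    unfold F
    simp only [mul_zero, AddChar.map_zero_eq_one, mul_one]
    rw [← Int.cast_sum, hs]
    simp
  have hpos : (0 : ℝ) < n := by exact_mod_cast hn0
  have htot : (0 : ℝ) < Nat.totient n := by exact_mod_cast Nat.totient_pos.2 hn0
  have hNr : (0 : ℝ) < N := by exact_mod_cast hN
  have hnN : (n : ℝ) = 15 * N := by rw [hn]; push_cast; ring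
  set A : ℝ := ∑ b : ZMod n, (if (15 : ZMod n) * b = 0 then Complex.normSq (F f b) else 0)
    with hA
  set B : ℝ := ∑ b : ZMod n, (if (5 : ZMod n) * b = 0 then Complex.normSq (F f b) else 0)
    with hBd
  -- pointwise bound
  have hub : (n : ℝ) * ∑ u : (ZMod n)ˣ, ((∑ x, f x * f (x + u) : ℤ) : ℝ) ≤
      Nat.totient n * ((n : ℝ) * ((n : ℝ) - 1) / 20 + 3 / 40 * A - 3 / 8 * B) := by
    rw [sum_corr]
    have e1 : (Nat.totient n : ℝ) * ((n : ℝ) * ((n : ℝ) - 1) / 20 + 3 / 40 * A - 3 / 8 * B) =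
        ∑ b, (Nat.totient n : ℝ) * (Complex.normSq (F f b) / 20 +
          3 / 40 * (if (15 : ZMod n) * b = 0 then Complex.normSq (F f b) else 0) -
          3 / 8 * (if (5 : ZMod n) * b = 0 then Complex.normSq (F f b) else 0)) := by
      rw [← Finset.mul_sum, Finset.sum_sub_distrib, Finset.sum_add_distrib, ← Finset.mul_sum,
        ← Finset.mul_sum, ← Finset.sum_div, parseval, hsq]
      push_cast
      ring
    rw [e1]
    apply Finset.sum_le_sum
    intro b _
    by_cases hb : b = 0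
    · rw [hb, hF0]; simp
    have hm1 : addOrderOf b ≠ 1 := by
      rw [Ne, AddMonoid.addOrderOf_eq_one_iff]; exact hb
    have hphi : (0 : ℝ) < Nat.totient (addOrderOf b) := by
      exact_mod_cast Nat.totient_pos.2 (addOrderOf_pos b)
    have hq := Complex.normSq_nonneg (F f b)
    have h15 := ord_dvd_iff (n := n) 15 b
    have h5 := ord_dvd_iff (n := n) 5 b
    have c15 : ((15 : ℕ) : ZMod n) = 15 := by norm_num
    have c5 : ((5 : ℕ) : ZMod n) = 5 := by norm_num
    rw [c15] at h15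
    rw [c5] at h5
    -- the coefficient
    have key : (moebius (addOrderOf b) : ℝ) / Nat.totient (addOrderOf b) ≤
        1 / 20 + 3 / 40 * (if (15 : ZMod n) * b = 0 then 1 else 0) -
          3 / 8 * (if (5 : ZMod n) * b = 0 then 1 else 0) := by
      by_cases g5 : addOrderOf b ∣ 5
      · have e5 : addOrderOf b = 5 := by
          rcases (Nat.dvd_prime (by norm_num)).1 g5 with h | h
          · exact absurd h hm1
          · exact h
        rw [if_pos (h15.2 (g5.trans (by norm_num))), if_pos (h5.2 g5), e5]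
        have m5 : moebius 5 = -1 := moebius_apply_prime (by norm_num)
        have t5 : Nat.totient 5 = 4 := by decide
        rw [m5, t5]
        norm_num
      · rw [if_neg (fun h => g5 (h5.1 h))]
        by_cases g15 : addOrderOf b ∣ 15
        · rw [if_pos (h15.2 g15)]
          have e15 : addOrderOf b = 3 ∨ addOrderOf b = 15 := by
            have : addOrderOf b ∈ Nat.divisors 15 := Nat.mem_divisors.2 ⟨g15, by norm_num⟩
            have hdiv : Nat.divisors 15 = {1, 3, 5, 15} := by decide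
            rw [hdiv] at this
            simp only [Finset.mem_insert, Finset.mem_singleton] at this
            rcases this with h | h | h | h
            · exact absurd h hm1
            · exact Or.inl h
            · exact absurd (h ▸ dvd_rfl) g5
            · exact Or.inr h
          rcases e15 with h | h
          · rw [h]
            have m3 : moebius 3 = -1 := moebius_apply_prime (by norm_num)
            have t3 : Nat.totient 3 = 2 := by decide
            rw [m3, t3]
            norm_num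
          · rw [h]
            have m15 : moebius 15 = 1 := by
              rw [show (15 : ℕ) = 3 * 5 by norm_num,
                isMultiplicative_moebius.map_mul_of_coprime (by norm_num),
                moebius_apply_prime (by norm_num), moebius_apply_prime (by norm_num)]
              norm_num
            have t15 : Nat.totient 15 = 8 := by decide
            rw [m15, t15]
            norm_num
        · rw [if_neg (fun h => g15 (h15.1 h))]
          have hne15 : addOrderOf b ≠ 15 := fun h => g15 (by rw [h])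
          rw [div_le_iff₀ hphi]
          rcases le_or_gt (moebius (addOrderOf b)) 0 with hmu | hmu
          · have : (moebius (addOrderOf b) : ℝ) ≤ 0 := by exact_mod_cast hmu
            have h6 : 0 ≤ (1 / 20 + 3 / 40 * 0 - 3 / 8 * 0 : ℝ) * Nat.totient (addOrderOf b) := by
              norm_num
            linarith
          · have hmu1 : moebius (addOrderOf b) = 1 := by
              have h7 := abs_moebius_le_one (n := addOrderOf b)
              rw [abs_le] at h7
              omega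
            have h8 : (20 : ℝ) ≤ Nat.totient (addOrderOf b) := by
              exact_mod_cast hB _ (ord_dvd b) hm1 hne15 hmu1
            rw [hmu1]
            push_cast
            linarith
    have e2 : ∀ (c : Prop) [Decidable c], (if c then Complex.normSq (F f b) else 0) =
        Complex.normSq (F f b) * (if c then 1 else 0) := by
      intro c _
      split_ifs
      · ring
      · ring
    rw [e2, e2]
    calc Complex.normSq (F f b) * ((moebius (addOrderOf b) : ℝ) * Nat.totient n /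
          Nat.totient (addOrderOf b)) = (Nat.totient n * Complex.normSq (F f b)) *
            ((moebius (addOrderOf b) : ℝ) / Nat.totient (addOrderOf b)) := by ring
      _ ≤ (Nat.totient n * Complex.normSq (F f b)) * (1 / 20 +
          3 / 40 * (if (15 : ZMod n) * b = 0 then 1 else 0) -
          3 / 8 * (if (5 : ZMod n) * b = 0 then 1 else 0)) :=
        mul_le_mul_of_nonneg_left key (by positivity)
      _ = _ := by ring
  -- the torsion sums
  have hSbd : ∀ x, |Sd f 15 N x| ≤ N := by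
    intro x
    unfold Sd
    refine (Finset.abs_sum_le_sum_abs _ _).trans ?_
    have h1 : ∀ i ∈ range N, |(f (x + ((15 * i : ℕ) : ZMod n)) : ℝ)| ≤ 1 := by
      intro i _
      by_cases hx : x + ((15 * i : ℕ) : ZMod n) = 0
      · rw [hx, h0]; norm_num
      · rcases hf _ hx with h | h <;> rw [h] <;> norm_num
    refine (Finset.sum_le_sum h1).trans ?_
    simp
  have hper : ∀ x, Sd f 15 N (x + 15) = Sd f 15 N x := by
    intro x
    have := Sd_per f 15 N hn x
    have c15 : ((15 : ℕ) : ZMod n) = 15 := by norm_num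
    rwa [c15] at this
  set T : ZMod n → ℝ := fun x => Sd f 15 N x + Sd f 15 N (x + 5) + Sd f 15 N (x + 10) with hT
  have hT5 : ∀ x, T (x + 5) = T x := by
    intro x
    show Sd f 15 N (x + 5) + Sd f 15 N (x + 5 + 5) + Sd f 15 N (x + 5 + 10) =
      Sd f 15 N x + Sd f 15 N (x + 5) + Sd f 15 N (x + 10)
    rw [show x + 5 + 5 = x + 10 by ring, show x + 5 + 10 = x + 15 by ring, hper]
    ring
  have hT15 : ∀ x, T (x + ((15 : ℕ) : ZMod n)) = T x := by
    intro x
    have e : x + ((15 : ℕ) : ZMod n) = x + 5 + 5 + 5 := by push_cast; ring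
    rw [e, hT5, hT5, hT5]
  have hA2 : A = 15 * ∑ x, (f x : ℝ) * Sd f 15 N x := by
    have := tors_sum f 15 N hN hn
    have c15 : ((15 : ℕ) : ZMod n) = 15 := by norm_num
    rw [c15] at this
    have e15 : ((15 : ℕ) : ℝ) = 15 := by norm_num
    rw [hA, this, e15]
    rfl
  have hB2 : B = 5 * ∑ x, (f x : ℝ) * T x := tors_five f N hN hn
  have hfS := sum_mul_per f 15 N (Sd f 15 N) (fun x => Sd_per f 15 N hn x)
  have hfT := sum_mul_per f 15 N T hT15
  have sh5 : ∑ x, Sd f 15 N (x + 5) * T x = ∑ x, Sd f 15 N x * T x := by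
    rw [← sum_shift (fun x => Sd f 15 N x * T x) 5]
    apply Finset.sum_congr rfl
    intro x _
    rw [hT5]
  have sh10 : ∑ x, Sd f 15 N (x + 10) * T x = ∑ x, Sd f 15 N x * T x := by
    rw [← sum_shift (fun x => Sd f 15 N x * T x) 10]
    apply Finset.sum_congr rfl
    intro x _
    have : T (x + 10) = T x := by
      rw [show x + 10 = x + 5 + 5 by ring, hT5, hT5]
    rw [this]
  have hTT : ∑ x, T x * T x = 3 * ∑ x, Sd f 15 N x * T x := by
    have : ∀ x, T x * T x = Sd f 15 N x * T x + Sd f 15 N (x + 5) * T x +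
        Sd f 15 N (x + 10) * T x := by
      intro x
      show (Sd f 15 N x + Sd f 15 N (x + 5) + Sd f 15 N (x + 10)) * T x = _
      ring
    rw [Finset.sum_congr rfl (fun x _ => this x), Finset.sum_add_distrib,
      Finset.sum_add_distrib, sh5, sh10]
    ring
  have hSS : ∑ x, (Sd f 15 N x ^ 2 + Sd f 15 N (x + 5) ^ 2 + Sd f 15 N (x + 10) ^ 2) =
      3 * ∑ x, Sd f 15 N x * Sd f 15 N x := by
    rw [Finset.sum_add_distrib, Finset.sum_add_distrib,
      sum_shift (fun x => Sd f 15 N x ^ 2) 5, sum_shift (fun x => Sd f 15 N x ^ 2) 10]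
    have : ∑ x, Sd f 15 N x ^ 2 = ∑ x, Sd f 15 N x * Sd f 15 N x :=
      Finset.sum_congr rfl (fun x _ => sq _)
    rw [this]
    ring
  have hmain : (3 : ℝ) * ∑ x, Sd f 15 N x * Sd f 15 N x - 5 * ∑ x, Sd f 15 N x * T x ≤
      n * (2 * (N : ℝ) ^ 2) := by
    have h1 : (3 : ℝ) * ∑ x, Sd f 15 N x * Sd f 15 N x - 5 * ∑ x, Sd f 15 N x * T x =
        ∑ x, (Sd f 15 N x ^ 2 + Sd f 15 N (x + 5) ^ 2 + Sd f 15 N (x + 10) ^ 2 -
          5 / 3 * (Sd f 15 N x + Sd f 15 N (x + 5) + Sd f 15 N (x + 10)) ^ 2) := by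
      rw [Finset.sum_sub_distrib, hSS, ← Finset.mul_sum]
      have : ∑ x, (Sd f 15 N x + Sd f 15 N (x + 5) + Sd f 15 N (x + 10)) ^ 2 =
          ∑ x, T x * T x := Finset.sum_congr rfl (fun x _ => sq _)
      rw [this, hTT]
      ring
    rw [h1]
    have h2 : ∑ x : ZMod n, (Sd f 15 N x ^ 2 + Sd f 15 N (x + 5) ^ 2 + Sd f 15 N (x + 10) ^ 2 -
          5 / 3 * (Sd f 15 N x + Sd f 15 N (x + 5) + Sd f 15 N (x + 10)) ^ 2) ≤
        ∑ _x : ZMod n, 2 * (N : ℝ) ^ 2 :=
      Finset.sum_le_sum (fun x _ => three_ineq (hSbd x) (hSbd _) (hSbd _))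
    refine h2.trans (le_of_eq ?_)
    rw [Finset.sum_const, Finset.card_univ, ZMod.card, nsmul_eq_mul]
  -- conclusion
  have hbr : 3 / 40 * A - 3 / 8 * B ≤ (n : ℝ) * n / 20 := by
    have h1 : (N : ℝ) * (3 / 40 * A - 3 / 8 * B) =
        3 / 8 * (3 * ∑ x, Sd f 15 N x * Sd f 15 N x - 5 * ∑ x, Sd f 15 N x * T x) := by
      rw [hA2, hB2, ← hfS, ← hfT]
      ring
    have h2 : (N : ℝ) * (3 / 40 * A - 3 / 8 * B) ≤ N * ((n : ℝ) * n / 20) := by
      rw [h1]
      calc 3 / 8 * (3 * ∑ x, Sd f 15 N x * Sd f 15 N x - 5 * ∑ x, Sd f 15 N x * T x) ≤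
            3 / 8 * (n * (2 * (N : ℝ) ^ 2)) := by linarith
        _ = N * ((n : ℝ) * (15 * N) / 20) := by ring
        _ = N * ((n : ℝ) * n / 20) := by rw [← hnN]
    exact le_of_mul_le_mul_left h2 hNr
  have hlow : ∀ u : (ZMod n)ˣ, (2 * (n : ℝ) - 1) + 1 ≤ 20 * ((∑ x, f x * f (x + u) : ℤ) : ℝ) := by
    intro u
    have := hcon (u : ZMod n) u.isUnit
    have h9 : (2 * (n : ℤ) - 1) + 1 ≤ 20 * ∑ x, f x * f (x + (u : ZMod n)) := by omega
    exact_mod_cast h9
  have hsum : (Nat.totient n : ℝ) * (2 * n) ≤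
      20 * ∑ u : (ZMod n)ˣ, ((∑ x, f x * f (x + u) : ℤ) : ℝ) := by
    rw [Finset.mul_sum]
    have : (Nat.totient n : ℝ) * (2 * n) = ∑ u : (ZMod n)ˣ, ((2 * (n : ℝ) - 1) + 1) := by
      rw [Finset.sum_const, Finset.card_univ, ZMod.card_units_eq_totient, nsmul_eq_mul]
      ring
    rw [this]
    exact Finset.sum_le_sum (fun u _ => hlow u)
  have h10 : (n : ℝ) * (Nat.totient n * (2 * n)) ≤
      20 * (Nat.totient n * ((n : ℝ) * ((n : ℝ) - 1) / 20 + (n : ℝ) * n / 20)) := by
    calc (n : ℝ) * (Nat.totient n * (2 * n)) ≤ n * (20 * ∑ u : (ZMod n)ˣ,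
          ((∑ x, f x * f (x + u) : ℤ) : ℝ)) := mul_le_mul_of_nonneg_left hsum hpos.le
      _ = 20 * (n * ∑ u : (ZMod n)ˣ, ((∑ x, f x * f (x + u) : ℤ) : ℝ)) := by ring
      _ ≤ 20 * (Nat.totient n * ((n : ℝ) * ((n : ℝ) - 1) / 20 + 3 / 40 * A - 3 / 8 * B)) :=
        mul_le_mul_of_nonneg_left hub (by norm_num)
      _ ≤ _ := by
        apply mul_le_mul_of_nonneg_left _ (by norm_num)
        apply mul_le_mul_of_nonneg_left _ htot.le
        linarith
  have h11 : 0 < (Nat.totient n : ℝ) * n := by positivity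
  nlinarith

/-- The case `n = 165`. -/
theorem avg_165 (f : ZMod 165 → ℤ) (h0 : f 0 = 0)
    (hf : ∀ x ≠ 0, f x = 1 ∨ f x = -1) (hs : ∑ x, f x = 0) :
    ∃ y : ZMod 165, IsUnit y ∧ ∑ x, f x * f (x + y) ≤ 16 := by
  obtain ⟨y, hy, h⟩ := avg_twenty 165 11 (by norm_num) f h0 hf hs (by
    intro m hm h1 h15 hmu
    have hdiv : m ∈ Nat.divisors 165 := Nat.mem_divisors.2 ⟨hm, by norm_num⟩
    have hd : Nat.divisors 165 = {1, 3, 5, 11, 15, 33, 55, 165} := by decide +kernel
    rw [hd] at hdiv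
    simp only [Finset.mem_insert, Finset.mem_singleton] at hdiv
    have mp : ∀ p : ℕ, p.Prime → moebius p = -1 := fun p hp => moebius_apply_prime hp
    rcases hdiv with h | h | h | h | h | h | h | h
    · exact absurd h h1
    · rw [h, mp 3 (by norm_num)] at hmu
      norm_num at hmu
    · rw [h, mp 5 (by norm_num)] at hmu
      norm_num at hmu
    · rw [h, mp 11 (by norm_num)] at hmu
      norm_num at hmu
    · exact absurd h h15
    · rw [h]; decide +kernel
    · rw [h]; decide +kernel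
    · rw [h]; decide +kernel)
  refine ⟨y, hy, ?_⟩
  push_cast at h
  omega

end Pool.Agent.P45
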