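import Mathlib

/-! # Autocorrelations modulo four, and the case `n = 45` -/

set_option autoImplicit false

namespace Pool.Agent.P45

open Finset

namespace AvgAux

theorem prod_pm {ι : Type*} (T : Finset ι) (t : ι → ℤ) (ht : ∀ i ∈ T, t i = 1 ∨ t i = -1) :
    ∏ i ∈ T, t i = 1 ∨ ∏ i ∈ T, t i = -1 := by
  classical
  induction T using Finset.induction_on with
  | empty => left; simp
  | insert a T ha ih =>
    rw [Finset.prod_insert ha]
    rcases ht a (mem_insert_self a T) with h | h <;>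
      rcases ih (fun i hi => ht i (mem_insert_of_mem hi)) with h' | h' <;> rw [h, h'] <;> simp

theorem sum_mod4 {ι : Type*} (T : Finset ι) (t : ι → ℤ) (ht : ∀ i ∈ T, t i = 1 ∨ t i = -1) :
    (4 : ℤ) ∣ (∑ i ∈ T, t i) - (T.card + ∏ i ∈ T, t i - 1) := by
  classical
  induction T using Finset.induction_on with
  | empty => simp
  | insert a T ha ih =>
    have h1 := ih (fun i hi => ht i (mem_insert_of_mem hi))
    have h2 := prod_pm T t (fun i hi => ht i (mem_insert_of_mem hi))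
    rw [Finset.prod_insert ha, Finset.sum_insert ha, Finset.card_insert_of_notMem ha]
    push_cast
    rcases ht a (mem_insert_self a T) with h | h <;> rcases h2 with h' | h' <;>
      rw [h'] at h1 <;> rw [h, h'] <;> omega

end AvgAux

open AvgAux in
/-- The autocorrelation of an even word is `n - 2` modulo four. -/
theorem corr_mod_four (n : ℕ) [NeZero n] (f : ZMod n → ℤ) (h0 : f 0 = 0)
    (hf : ∀ x ≠ 0, f x = 1 ∨ f x = -1) (he : ∀ x, f (-x) = f x) (y : ZMod n) (hy : y ≠ 0) :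
    (4 : ℤ) ∣ (∑ x, f x * f (x + y)) - (n - 2) := by
  classical
  set T : Finset (ZMod n) := (univ.erase 0).erase (-y) with hT
  have hmem : ∀ x, x ∈ T ↔ x ≠ -y ∧ x ≠ 0 := by
    intro x; simp [hT]
  have hny : -y ≠ 0 := neg_ne_zero.2 hy
  have hcard : (T.card : ℤ) = n - 2 := by
    have h1 : (-y) ∈ (univ.erase 0 : Finset (ZMod n)) := by simp [hy]
    rw [hT, Finset.card_erase_of_mem h1, Finset.card_erase_of_mem (mem_univ _), Finset.card_univ,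
      ZMod.card]
    have : 2 ≤ n := by
      by_contra hlt
      have hn1 : n = 1 := by
        have := Nat.pos_of_ne_zero (NeZero.ne n)
        omega
      subst hn1
      exact hy (Subsingleton.elim _ _)
    omega
  have hsum : ∑ x, f x * f (x + y) = ∑ x ∈ T, f x * f (x + y) := by
    symm
    apply Finset.sum_subset (subset_univ _)
    intro x _ hx
    rw [hmem] at hx
    by_cases h : x = -y
    · rw [h]; simp [h0]
    · have : x = 0 := by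
        by_contra h'
        exact hx ⟨h, h'⟩
      rw [this, h0, zero_mul]
  have hpm : ∀ x ∈ T, f x * f (x + y) = 1 ∨ f x * f (x + y) = -1 := by
    intro x hx
    rw [hmem] at hx
    have h2 : x + y ≠ 0 := fun h => hx.1 (eq_neg_of_add_eq_zero_left h)
    rcases hf x hx.2 with h | h <;> rcases hf _ h2 with h' | h' <;> rw [h, h'] <;> simp
  have hprod : ∏ x ∈ T, (f x * f (x + y)) = 1 := by
    set P := ∏ z ∈ (univ.erase 0 : Finset (ZMod n)), f z with hP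
    have hPpm : P = 1 ∨ P = -1 := prod_pm _ _ (fun i hi => hf i (by simpa using hi))
    have e1 : f (-y) * ∏ x ∈ T, f x = P := by
      rw [hT, hP]
      exact Finset.mul_prod_erase _ _ (by simp [hy])
    have e2 : f y * ∏ x ∈ T, f (x + y) = P := by
      have : ∏ x ∈ T, f (x + y) = ∏ z ∈ (univ.erase 0).erase y, f z := by
        refine Finset.prod_bij' (fun x _ => x + y) (fun z _ => z - y) ?_ ?_ ?_ ?_ ?_
        · intro x hx
          rw [hmem] at hx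
          simp only [mem_erase, mem_univ, and_true, ne_eq]
          refine ⟨fun h => hx.2 (by simpa using h), fun h => hx.1 (eq_neg_of_add_eq_zero_left h)⟩
        · intro z hz
          simp only [mem_erase, mem_univ, and_true, ne_eq] at hz
          rw [hmem]
          refine ⟨fun h => hz.2 ?_, fun h => hz.1 ?_⟩
          · have := congrArg (· + y) h
            simpa using this
          · exact sub_eq_zero.1 h
        · intro x _; simp
        · intro z _; simp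
        · intro x _; rfl
      rw [this, hP]
      exact Finset.mul_prod_erase _ _ (by simp [hy])
    rw [he] at e1
    rw [Finset.prod_mul_distrib]
    have hyy := hf y hy
    rcases hyy with h | h <;> rw [h] at e1 e2 <;> rcases hPpm with h' | h' <;> rw [h'] at e1 e2 <;>
      nlinarith
  have h4 := sum_mod4 T (fun x => f x * f (x + y)) hpm
  rw [hsum]
  rw [hprod, hcard] at h4
  have : (n : ℤ) - 2 + 1 - 1 = n - 2 := by ring
  rw [this] at h4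
  exact h4

namespace AvgAux

/-- the four values of a sum of three signs -/
def Lv : List ℤ := [-3, -1, 1, 3]

/-- the finite check, after the choice of the sign of `f 15` -/
def chk (s0 s1 s2 s3 s4 s5 s6 s7 : ℤ) : Bool :=
  decide (2 * (s0*s1 + s1*s2 + s2*s3 + s3*s4 + s4*s5 + s5*s6 + s6*s7) + s7*s7 ≤ 8) ||
  decide (2 * (s0*s2 + s1*s3 + s2*s4 + s3*s5 + s4*s6 + s5*s7 + s6*s7) + s1*s1 ≤ 8) ||
  decide (2 * (s0*s4 + s1*s3 + s1*s5 + s2*s6 + s3*s7 + s4*s7 + s5*s6) + s2*s2 ≤ 8) ||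
  decide (2 * (s0*s7 + s1*s6 + s1*s7 + s2*s5 + s2*s6 + s3*s4 + s3*s5) + s4*s4 ≤ 8)

/-- all words of class sums -/
def chkAll : Bool :=
  [(-2 : ℤ), 2].all fun s0 => Lv.all fun s1 => Lv.all fun s2 => Lv.all fun s3 => Lv.all fun s4 =>
    Lv.all fun s5 => Lv.all fun s6 => Lv.all fun s7 =>
      !(decide (s0 + 2 * (s1 + s2 + s3 + s4 + s5 + s6 + s7) = 0)) || chk s0 s1 s2 s3 s4 s5 s6 s7

set_option maxRecDepth 100000 in
theorem chkAll_true : chkAll = true := by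
  decide +kernel

/-- index of the class modulo 15 up to sign -/
def ix (x : ZMod 45) : Fin 8 := ⟨min (x.val % 15) (15 - x.val % 15), by omega⟩

/-- representative -/
def rp (i : Fin 8) : ZMod 45 := (i.val : ZMod 45)

theorem ix_spec : ∀ x : ZMod 45, x = rp (ix x) ∨ x = rp (ix x) + 15 ∨ x = rp (ix x) + 30 ∨
    x = -rp (ix x) ∨ x = -rp (ix x) + 15 ∨ x = -rp (ix x) + 30 := by decide +kernel

theorem rp_ne : ∀ i : Fin 8, i ≠ 0 → rp i ≠ 0 ∧ rp i + 15 ≠ 0 ∧ rp i + 30 ≠ 0 := by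
  decide +kernel

theorem unit_all : ∀ a ∈ ([1, 2, 4, 7] : List (ZMod 45)), ∀ j ∈ ([0, 15, 30] : List (ZMod 45)),
    (a + j) * (a + j) ^ 11 = 1 := by decide +kernel

theorem unit_of {a j : ZMod 45} (ha : a ∈ ([1, 2, 4, 7] : List (ZMod 45)))
    (hj : j ∈ ([0, 15, 30] : List (ZMod 45))) : IsUnit (a + j) :=
  IsUnit.of_mul_eq_one _ (unit_all a ha j hj)

variable (f : ZMod 45 → ℤ)

/-- class sums modulo 15 -/
def hh (x : ZMod 45) : ℤ := f x + f (x + 15) + f (x + 30)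

theorem hh_15 (x : ZMod 45) : hh f (x + 15) = hh f x := by
  unfold hh
  rw [show x + 15 + 15 = x + 30 by ring, show x + 15 + 30 = x by
    rw [add_assoc]; rw [show (15 : ZMod 45) + 30 = 0 by decide, add_zero]]
  ring

theorem hh_30 (x : ZMod 45) : hh f (x + 30) = hh f x := by
  rw [show x + 30 = x + 15 + 15 by ring, hh_15, hh_15]

theorem hh_neg (he : ∀ x, f (-x) = f x) (x : ZMod 45) : hh f (-x) = hh f x := by
  unfold hh
  rw [← he (-x), ← he (-x + 15), ← he (-x + 30)]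
  rw [show -(-x + 15) = x + 30 by
      rw [show (30 : ZMod 45) = -15 by decide]; ring,
    show -(-x + 30) = x + 15 by
      rw [show (30 : ZMod 45) = -15 by decide]; ring, neg_neg]
  ring

theorem hh_ix (he : ∀ x, f (-x) = f x) (x : ZMod 45) : hh f x = hh f (rp (ix x)) := by
  rcases ix_spec x with h | h | h | h | h | h
  · exact congrArg _ h
  · exact (congrArg _ h).trans (hh_15 f _)
  · exact (congrArg _ h).trans (hh_30 f _)
  · exact (congrArg _ h).trans (hh_neg f he _)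
  · exact (congrArg _ h).trans ((hh_15 f _).trans (hh_neg f he _))
  · exact (congrArg _ h).trans ((hh_30 f _).trans (hh_neg f he _))

/-- sum of three autocorrelations through the class sums -/
theorem corr_hh (a : ZMod 45) :
    3 * ((∑ x, f x * f (x + a)) + (∑ x, f x * f (x + (a + 15))) + ∑ x, f x * f (x + (a + 30))) =
      ∑ x, hh f x * hh f (x + a) := by
  have h1 : (∑ x, f x * f (x + a)) + (∑ x, f x * f (x + (a + 15))) + (∑ x, f x * f (x + (a + 30)))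
      = ∑ x, f x * hh f (x + a) := by
    rw [← Finset.sum_add_distrib, ← Finset.sum_add_distrib]
    apply Finset.sum_congr rfl
    intro x _
    unfold hh
    rw [add_assoc x a 15, add_assoc x a 30]
    ring
  have hshift : ∀ t : ZMod 45, (∀ x, hh f (x + t) = hh f x) →
      ∑ x, f (x + t) * hh f (x + a) = ∑ x, f x * hh f (x + a) := by
    intro t ht
    refine Fintype.sum_equiv (Equiv.addRight t) _ _ ?_
    intro x
    show f (x + t) * hh f (x + a) = f (x + t) * hh f (x + t + a)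
    rw [show x + t + a = x + a + t by ring, ht]
  rw [h1]
  have h2 : ∑ x, hh f x * hh f (x + a) = (∑ x, f x * hh f (x + a)) +
      (∑ x, f (x + 15) * hh f (x + a)) + ∑ x, f (x + 30) * hh f (x + a) := by
    rw [← Finset.sum_add_distrib, ← Finset.sum_add_distrib]
    apply Finset.sum_congr rfl
    intro x _
    show (f x + f (x + 15) + f (x + 30)) * hh f (x + a) = _
    ring
  rw [h2, hshift 15 (hh_15 f), hshift 30 (hh_30 f)]
  ring

theorem sum_expand_fin (g : Fin 45 → ℤ) : ∑ x, g x =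
    g 0 + g 1 + g 2 + g 3 + g 4 + g 5 + g 6 + g 7 + g 8 + g 9 + g 10 + g 11 + g 12 + g 13 +
    g 14 + g 15 + g 16 + g 17 + g 18 + g 19 + g 20 + g 21 + g 22 + g 23 + g 24 + g 25 + g 26
    + g 27 + g 28 + g 29 + g 30 + g 31 + g 32 + g 33 + g 34 + g 35 + g 36 + g 37 + g 38 + g
    39 + g 40 + g 41 + g 42 + g 43 + g 44 := by
  simp only [Fin.sum_univ_castSucc, Fin.sum_univ_zero, zero_add]
  rfl

theorem sum_expand (g : ZMod 45 → ℤ) : ∑ x, g x =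
    g 0 + g 1 + g 2 + g 3 + g 4 + g 5 + g 6 + g 7 + g 8 + g 9 + g 10 + g 11 + g 12 + g 13 +
    g 14 + g 15 + g 16 + g 17 + g 18 + g 19 + g 20 + g 21 + g 22 + g 23 + g 24 + g 25 + g 26
    + g 27 + g 28 + g 29 + g 30 + g 31 + g 32 + g 33 + g 34 + g 35 + g 36 + g 37 + g 38 + g
    39 + g 40 + g 41 + g 42 + g 43 + g 44 :=
  sum_expand_fin g

/-- the values of `ix` -/
theorem ix_vals : ix 0 = 0 ∧
    ix 1 = 1 ∧
    ix 2 = 2 ∧
    ix 3 = 3 ∧
    ix 4 = 4 ∧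
    ix 5 = 5 ∧
    ix 6 = 6 ∧
    ix 7 = 7 ∧
    ix 8 = 7 ∧
    ix 9 = 6 ∧
    ix 10 = 5 ∧
    ix 11 = 4 ∧
    ix 12 = 3 ∧
    ix 13 = 2 ∧
    ix 14 = 1 ∧
    ix 15 = 0 ∧
    ix 16 = 1 ∧
    ix 17 = 2 ∧
    ix 18 = 3 ∧
    ix 19 = 4 ∧
    ix 20 = 5 ∧
    ix 21 = 6 ∧
    ix 22 = 7 ∧
    ix 23 = 7 ∧
    ix 24 = 6 ∧
    ix 25 = 5 ∧
    ix 26 = 4 ∧
    ix 27 = 3 ∧
    ix 28 = 2 ∧
    ix 29 = 1 ∧
    ix 30 = 0 ∧
    ix 31 = 1 ∧
    ix 32 = 2 ∧
    ix 33 = 3 ∧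
    ix 34 = 4 ∧
    ix 35 = 5 ∧
    ix 36 = 6 ∧
    ix 37 = 7 ∧
    ix 38 = 7 ∧
    ix 39 = 6 ∧
    ix 40 = 5 ∧
    ix 41 = 4 ∧
    ix 42 = 3 ∧
    ix 43 = 2 ∧
    ix 44 = 1 := by
  decide +kernel

theorem ixa1 : ix (0 + 1) = 1 ∧
    ix (1 + 1) = 2 ∧
    ix (2 + 1) = 3 ∧
    ix (3 + 1) = 4 ∧
    ix (4 + 1) = 5 ∧
    ix (5 + 1) = 6 ∧
    ix (6 + 1) = 7 ∧
    ix (7 + 1) = 7 ∧
    ix (8 + 1) = 6 ∧
    ix (9 + 1) = 5 ∧
    ix (10 + 1) = 4 ∧
    ix (11 + 1) = 3 ∧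
    ix (12 + 1) = 2 ∧
    ix (13 + 1) = 1 ∧
    ix (14 + 1) = 0 ∧
    ix (15 + 1) = 1 ∧
    ix (16 + 1) = 2 ∧
    ix (17 + 1) = 3 ∧
    ix (18 + 1) = 4 ∧
    ix (19 + 1) = 5 ∧
    ix (20 + 1) = 6 ∧
    ix (21 + 1) = 7 ∧
    ix (22 + 1) = 7 ∧
    ix (23 + 1) = 6 ∧
    ix (24 + 1) = 5 ∧
    ix (25 + 1) = 4 ∧
    ix (26 + 1) = 3 ∧
    ix (27 + 1) = 2 ∧
    ix (28 + 1) = 1 ∧
    ix (29 + 1) = 0 ∧
    ix (30 + 1) = 1 ∧
    ix (31 + 1) = 2 ∧
    ix (32 + 1) = 3 ∧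
    ix (33 + 1) = 4 ∧
    ix (34 + 1) = 5 ∧
    ix (35 + 1) = 6 ∧
    ix (36 + 1) = 7 ∧
    ix (37 + 1) = 7 ∧
    ix (38 + 1) = 6 ∧
    ix (39 + 1) = 5 ∧
    ix (40 + 1) = 4 ∧
    ix (41 + 1) = 3 ∧
    ix (42 + 1) = 2 ∧
    ix (43 + 1) = 1 ∧
    ix (44 + 1) = 0 := by
  decide +kernel

theorem quad1 (s : Fin 8 → ℤ) : ∑ x : ZMod 45, s (ix x) * s (ix (x + 1)) =
    3 * (2 * (s 0 * s 1 + s 1 * s 2 + s 2 * s 3 + s 3 * s 4 + s 4 * s 5 + s 5 * s 6 + s 6 * s 7) + s 7 * s 7) := by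
  rw [sum_expand]
  obtain ⟨a0, a1, a2, a3, a4, a5, a6, a7, a8, a9, a10, a11, a12, a13, a14, a15, a16, a17, a18, a19, a20, a21, a22, a23, a24, a25, a26, a27, a28, a29, a30, a31, a32, a33, a34, a35, a36, a37, a38, a39, a40, a41, a42, a43, a44⟩ := ix_vals
  obtain ⟨b0, b1, b2, b3, b4, b5, b6, b7, b8, b9, b10, b11, b12, b13, b14, b15, b16, b17, b18, b19, b20, b21, b22, b23, b24, b25, b26, b27, b28, b29, b30, b31, b32, b33, b34, b35, b36, b37, b38, b39, b40, b41, b42, b43, b44⟩ := ixa1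
  simp only [a0, a1, a2, a3, a4, a5, a6, a7, a8, a9, a10, a11, a12, a13, a14, a15, a16, a17, a18, a19, a20, a21, a22, a23, a24, a25, a26, a27, a28, a29, a30, a31, a32, a33, a34, a35, a36, a37, a38, a39, a40, a41, a42, a43, a44, b0, b1, b2, b3, b4, b5, b6, b7, b8, b9, b10, b11, b12, b13, b14, b15, b16, b17, b18, b19, b20, b21, b22, b23, b24, b25, b26, b27, b28, b29, b30, b31, b32, b33, b34, b35, b36, b37, b38, b39, b40, b41, b42, b43, b44]
  ring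

theorem ixa2 : ix (0 + 2) = 2 ∧
    ix (1 + 2) = 3 ∧
    ix (2 + 2) = 4 ∧
    ix (3 + 2) = 5 ∧
    ix (4 + 2) = 6 ∧
    ix (5 + 2) = 7 ∧
    ix (6 + 2) = 7 ∧
    ix (7 + 2) = 6 ∧
    ix (8 + 2) = 5 ∧
    ix (9 + 2) = 4 ∧
    ix (10 + 2) = 3 ∧
    ix (11 + 2) = 2 ∧
    ix (12 + 2) = 1 ∧
    ix (13 + 2) = 0 ∧
    ix (14 + 2) = 1 ∧
    ix (15 + 2) = 2 ∧
    ix (16 + 2) = 3 ∧
    ix (17 + 2) = 4 ∧
    ix (18 + 2) = 5 ∧
    ix (19 + 2) = 6 ∧
    ix (20 + 2) = 7 ∧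
    ix (21 + 2) = 7 ∧
    ix (22 + 2) = 6 ∧
    ix (23 + 2) = 5 ∧
    ix (24 + 2) = 4 ∧
    ix (25 + 2) = 3 ∧
    ix (26 + 2) = 2 ∧
    ix (27 + 2) = 1 ∧
    ix (28 + 2) = 0 ∧
    ix (29 + 2) = 1 ∧
    ix (30 + 2) = 2 ∧
    ix (31 + 2) = 3 ∧
    ix (32 + 2) = 4 ∧
    ix (33 + 2) = 5 ∧
    ix (34 + 2) = 6 ∧
    ix (35 + 2) = 7 ∧
    ix (36 + 2) = 7 ∧
    ix (37 + 2) = 6 ∧
    ix (38 + 2) = 5 ∧
    ix (39 + 2) = 4 ∧
    ix (40 + 2) = 3 ∧
    ix (41 + 2) = 2 ∧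
    ix (42 + 2) = 1 ∧
    ix (43 + 2) = 0 ∧
    ix (44 + 2) = 1 := by
  decide +kernel

theorem quad2 (s : Fin 8 → ℤ) : ∑ x : ZMod 45, s (ix x) * s (ix (x + 2)) =
    3 * (2 * (s 0 * s 2 + s 1 * s 3 + s 2 * s 4 + s 3 * s 5 + s 4 * s 6 + s 5 * s 7 + s 6 * s 7) + s 1 * s 1) := by
  rw [sum_expand]
  obtain ⟨a0, a1, a2, a3, a4, a5, a6, a7, a8, a9, a10, a11, a12, a13, a14, a15, a16, a17, a18, a19, a20, a21, a22, a23, a24, a25, a26, a27, a28, a29, a30, a31, a32, a33, a34, a35, a36, a37, a38, a39, a40, a41, a42, a43, a44⟩ := ix_vals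
  obtain ⟨b0, b1, b2, b3, b4, b5, b6, b7, b8, b9, b10, b11, b12, b13, b14, b15, b16, b17, b18, b19, b20, b21, b22, b23, b24, b25, b26, b27, b28, b29, b30, b31, b32, b33, b34, b35, b36, b37, b38, b39, b40, b41, b42, b43, b44⟩ := ixa2
  simp only [a0, a1, a2, a3, a4, a5, a6, a7, a8, a9, a10, a11, a12, a13, a14, a15, a16, a17, a18, a19, a20, a21, a22, a23, a24, a25, a26, a27, a28, a29, a30, a31, a32, a33, a34, a35, a36, a37, a38, a39, a40, a41, a42, a43, a44, b0, b1, b2, b3, b4, b5, b6, b7, b8, b9, b10, b11, b12, b13, b14, b15, b16, b17, b18, b19, b20, b21, b22, b23, b24, b25, b26, b27, b28, b29, b30, b31, b32, b33, b34, b35, b36, b37, b38, b39, b40, b41, b42, b43, b44]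
  ring

theorem ixa4 : ix (0 + 4) = 4 ∧
    ix (1 + 4) = 5 ∧
    ix (2 + 4) = 6 ∧
    ix (3 + 4) = 7 ∧
    ix (4 + 4) = 7 ∧
    ix (5 + 4) = 6 ∧
    ix (6 + 4) = 5 ∧
    ix (7 + 4) = 4 ∧
    ix (8 + 4) = 3 ∧
    ix (9 + 4) = 2 ∧
    ix (10 + 4) = 1 ∧
    ix (11 + 4) = 0 ∧
    ix (12 + 4) = 1 ∧
    ix (13 + 4) = 2 ∧
    ix (14 + 4) = 3 ∧
    ix (15 + 4) = 4 ∧
    ix (16 + 4) = 5 ∧
    ix (17 + 4) = 6 ∧
    ix (18 + 4) = 7 ∧
    ix (19 + 4) = 7 ∧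
    ix (20 + 4) = 6 ∧
    ix (21 + 4) = 5 ∧
    ix (22 + 4) = 4 ∧
    ix (23 + 4) = 3 ∧
    ix (24 + 4) = 2 ∧
    ix (25 + 4) = 1 ∧
    ix (26 + 4) = 0 ∧
    ix (27 + 4) = 1 ∧
    ix (28 + 4) = 2 ∧
    ix (29 + 4) = 3 ∧
    ix (30 + 4) = 4 ∧
    ix (31 + 4) = 5 ∧
    ix (32 + 4) = 6 ∧
    ix (33 + 4) = 7 ∧
    ix (34 + 4) = 7 ∧
    ix (35 + 4) = 6 ∧
    ix (36 + 4) = 5 ∧
    ix (37 + 4) = 4 ∧
    ix (38 + 4) = 3 ∧
    ix (39 + 4) = 2 ∧
    ix (40 + 4) = 1 ∧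
    ix (41 + 4) = 0 ∧
    ix (42 + 4) = 1 ∧
    ix (43 + 4) = 2 ∧
    ix (44 + 4) = 3 := by
  decide +kernel

theorem quad4 (s : Fin 8 → ℤ) : ∑ x : ZMod 45, s (ix x) * s (ix (x + 4)) =
    3 * (2 * (s 0 * s 4 + s 1 * s 3 + s 1 * s 5 + s 2 * s 6 + s 3 * s 7 + s 4 * s 7 + s 5 * s 6) + s 2 * s 2) := by
  rw [sum_expand]
  obtain ⟨a0, a1, a2, a3, a4, a5, a6, a7, a8, a9, a10, a11, a12, a13, a14, a15, a16, a17, a18, a19, a20, a21, a22, a23, a24, a25, a26, a27, a28, a29, a30, a31, a32, a33, a34, a35, a36, a37, a38, a39, a40, a41, a42, a43, a44⟩ := ix_vals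
  obtain ⟨b0, b1, b2, b3, b4, b5, b6, b7, b8, b9, b10, b11, b12, b13, b14, b15, b16, b17, b18, b19, b20, b21, b22, b23, b24, b25, b26, b27, b28, b29, b30, b31, b32, b33, b34, b35, b36, b37, b38, b39, b40, b41, b42, b43, b44⟩ := ixa4
  simp only [a0, a1, a2, a3, a4, a5, a6, a7, a8, a9, a10, a11, a12, a13, a14, a15, a16, a17, a18, a19, a20, a21, a22, a23, a24, a25, a26, a27, a28, a29, a30, a31, a32, a33, a34, a35, a36, a37, a38, a39, a40, a41, a42, a43, a44, b0, b1, b2, b3, b4, b5, b6, b7, b8, b9, b10, b11, b12, b13, b14, b15, b16, b17, b18, b19, b20, b21, b22, b23, b24, b25, b26, b27, b28, b29, b30, b31, b32, b33, b34, b35, b36, b37, b38, b39, b40, b41, b42, b43, b44]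
  ring

theorem ixa7 : ix (0 + 7) = 7 ∧
    ix (1 + 7) = 7 ∧
    ix (2 + 7) = 6 ∧
    ix (3 + 7) = 5 ∧
    ix (4 + 7) = 4 ∧
    ix (5 + 7) = 3 ∧
    ix (6 + 7) = 2 ∧
    ix (7 + 7) = 1 ∧
    ix (8 + 7) = 0 ∧
    ix (9 + 7) = 1 ∧
    ix (10 + 7) = 2 ∧
    ix (11 + 7) = 3 ∧
    ix (12 + 7) = 4 ∧
    ix (13 + 7) = 5 ∧
    ix (14 + 7) = 6 ∧
    ix (15 + 7) = 7 ∧
    ix (16 + 7) = 7 ∧
    ix (17 + 7) = 6 ∧
    ix (18 + 7) = 5 ∧
    ix (19 + 7) = 4 ∧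
    ix (20 + 7) = 3 ∧
    ix (21 + 7) = 2 ∧
    ix (22 + 7) = 1 ∧
    ix (23 + 7) = 0 ∧
    ix (24 + 7) = 1 ∧
    ix (25 + 7) = 2 ∧
    ix (26 + 7) = 3 ∧
    ix (27 + 7) = 4 ∧
    ix (28 + 7) = 5 ∧
    ix (29 + 7) = 6 ∧
    ix (30 + 7) = 7 ∧
    ix (31 + 7) = 7 ∧
    ix (32 + 7) = 6 ∧
    ix (33 + 7) = 5 ∧
    ix (34 + 7) = 4 ∧
    ix (35 + 7) = 3 ∧
    ix (36 + 7) = 2 ∧
    ix (37 + 7) = 1 ∧
    ix (38 + 7) = 0 ∧
    ix (39 + 7) = 1 ∧
    ix (40 + 7) = 2 ∧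
    ix (41 + 7) = 3 ∧
    ix (42 + 7) = 4 ∧
    ix (43 + 7) = 5 ∧
    ix (44 + 7) = 6 := by
  decide +kernel

theorem quad7 (s : Fin 8 → ℤ) : ∑ x : ZMod 45, s (ix x) * s (ix (x + 7)) =
    3 * (2 * (s 0 * s 7 + s 1 * s 6 + s 1 * s 7 + s 2 * s 5 + s 2 * s 6 + s 3 * s 4 + s 3 * s 5) + s 4 * s 4) := by
  rw [sum_expand]
  obtain ⟨a0, a1, a2, a3, a4, a5, a6, a7, a8, a9, a10, a11, a12, a13, a14, a15, a16, a17, a18, a19, a20, a21, a22, a23, a24, a25, a26, a27, a28, a29, a30, a31, a32, a33, a34, a35, a36, a37, a38, a39, a40, a41, a42, a43, a44⟩ := ix_vals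
  obtain ⟨b0, b1, b2, b3, b4, b5, b6, b7, b8, b9, b10, b11, b12, b13, b14, b15, b16, b17, b18, b19, b20, b21, b22, b23, b24, b25, b26, b27, b28, b29, b30, b31, b32, b33, b34, b35, b36, b37, b38, b39, b40, b41, b42, b43, b44⟩ := ixa7
  simp only [a0, a1, a2, a3, a4, a5, a6, a7, a8, a9, a10, a11, a12, a13, a14, a15, a16, a17, a18, a19, a20, a21, a22, a23, a24, a25, a26, a27, a28, a29, a30, a31, a32, a33, a34, a35, a36, a37, a38, a39, a40, a41, a42, a43, a44, b0, b1, b2, b3, b4, b5, b6, b7, b8, b9, b10, b11, b12, b13, b14, b15, b16, b17, b18, b19, b20, b21, b22, b23, b24, b25, b26, b27, b28, b29, b30, b31, b32, b33, b34, b35, b36, b37, b38, b39, b40, b41, b42, b43, b44]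
  ring

theorem lin (s : Fin 8 → ℤ) : ∑ x : ZMod 45, s (ix x) =
    3 * (s 0 + 2 * (s 1 + s 2 + s 3 + s 4 + s 5 + s 6 + s 7)) := by
  rw [sum_expand]
  obtain ⟨a0, a1, a2, a3, a4, a5, a6, a7, a8, a9, a10, a11, a12, a13, a14, a15, a16, a17, a18, a19, a20, a21, a22, a23, a24, a25, a26, a27, a28, a29, a30, a31, a32, a33, a34, a35, a36, a37, a38, a39, a40, a41, a42, a43, a44⟩ := ix_vals
  simp only [a0, a1, a2, a3, a4, a5, a6, a7, a8, a9, a10, a11, a12, a13, a14, a15, a16, a17, a18, a19, a20, a21, a22, a23, a24, a25, a26, a27, a28, a29, a30, a31, a32, a33, a34, a35, a36, a37, a38, a39, a40, a41, a42, a43, a44]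
  ring

theorem chk_of {s0 s1 s2 s3 s4 s5 s6 s7 : ℤ} (h0 : s0 ∈ [(-2 : ℤ), 2]) (h1 : s1 ∈ Lv)
    (h2 : s2 ∈ Lv) (h3 : s3 ∈ Lv) (h4 : s4 ∈ Lv) (h5 : s5 ∈ Lv) (h6 : s6 ∈ Lv) (h7 : s7 ∈ Lv)
    (hs : s0 + 2 * (s1 + s2 + s3 + s4 + s5 + s6 + s7) = 0) :
    chk s0 s1 s2 s3 s4 s5 s6 s7 = true := by
  have h := chkAll_true
  unfold chkAll at h
  simp only [List.all_eq_true] at h
  have h' := h s0 h0 s1 h1 s2 h2 s3 h3 s4 h4 s5 h5 s6 h6 s7 h7
  rw [decide_eq_true hs] at h'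
  simpa using h'

theorem mem_Lv {a b c : ℤ} (ha : a = 1 ∨ a = -1) (hb : b = 1 ∨ b = -1) (hc : c = 1 ∨ c = -1) :
    a + b + c ∈ Lv := by
  unfold Lv
  rcases ha with h | h <;> rcases hb with h' | h' <;> rcases hc with h'' | h'' <;>
    rw [h, h', h''] <;> decide

theorem final_step (h0 : f 0 = 0) (hf : ∀ x ≠ 0, f x = 1 ∨ f x = -1) (he : ∀ x, f (-x) = f x)
    (a : ZMod 45) (ha : a ∈ ([1, 2, 4, 7] : List (ZMod 45)))
    (hle : ∑ x, hh f x * hh f (x + a) ≤ 3 * 8) :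
    ∃ y : ZMod 45, IsUnit y ∧ ∑ x, f x * f (x + y) ≤ -1 := by
  have hc := corr_hh f a
  have hu : ∀ j ∈ ([0, 15, 30] : List (ZMod 45)), IsUnit (a + j) := fun j hj => unit_of ha hj
  have hmod : ∀ j ∈ ([0, 15, 30] : List (ZMod 45)),
      (4 : ℤ) ∣ (∑ x, f x * f (x + (a + j))) - 43 := by
    intro j hj
    have hne : a + j ≠ 0 := by
      intro h
      have := hu j hj
      rw [h] at this
      exact absurd this (by decide)
    have := corr_mod_four 45 f h0 hf he (a + j) hne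
    norm_num at this
    exact this
  by_contra hcon
  simp only [not_exists, not_and, not_le] at hcon
  have k1 := hcon _ (hu 0 (by simp))
  have k2 := hcon _ (hu 15 (by simp))
  have k3 := hcon _ (hu 30 (by simp))
  have m1 := hmod 0 (by simp)
  have m2 := hmod 15 (by simp)
  have m3 := hmod 30 (by simp)
  rw [add_zero] at k1 m1
  omega

end AvgAux

open AvgAux in
/-- The case `n = 45`: some unit has a negative autocorrelation. -/
theorem corr_fortyfive (f : ZMod 45 → ℤ) (h0 : f 0 = 0) (hf : ∀ x ≠ 0, f x = 1 ∨ f x = -1)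
    (hs : ∑ x, f x = 0) (he : ∀ x, f (-x) = f x) :
    ∃ y : ZMod 45, IsUnit y ∧ ∑ x, f x * f (x + y) ≤ -1 := by
  set s : Fin 8 → ℤ := fun i => hh f (rp i) with hsdef
  have hix : ∀ x, hh f x = s (ix x) := fun x => hh_ix f he x
  have m0 : s 0 ∈ [(-2 : ℤ), 2] := by
    have e1 : s 0 = f 0 + f (0 + 15) + f (0 + 30) := rfl
    have e2 : f (0 + 30) = f (0 + 15) := by
      rw [show (0 : ZMod 45) + 30 = -(0 + 15) by decide, he]
    rw [e1, e2, h0]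
    rcases hf (0 + 15) (by decide) with h | h <;> rw [h] <;> decide
  have mi : ∀ i : Fin 8, i ≠ 0 → s i ∈ Lv := by
    intro i hi
    obtain ⟨n1, n2, n3⟩ := rp_ne i hi
    exact mem_Lv (hf _ n1) (hf _ n2) (hf _ n3)
  have hlin : s 0 + 2 * (s 1 + s 2 + s 3 + s 4 + s 5 + s 6 + s 7) = 0 := by
    have e1 := lin s
    have e2 : ∑ x : ZMod 45, s (ix x) = ∑ x, hh f x :=
      Finset.sum_congr rfl (fun x _ => (hix x).symm)
    have e3 : ∑ x, hh f x = (∑ x, f x) + (∑ x, f (x + 15)) + ∑ x, f (x + 30) := by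
      rw [← Finset.sum_add_distrib, ← Finset.sum_add_distrib]
      rfl
    have e4 : ∀ t : ZMod 45, ∑ x, f (x + t) = ∑ x, f x := fun t =>
      Fintype.sum_equiv (Equiv.addRight t) _ _ (fun _ => rfl)
    rw [e2, e3, e4, e4, hs] at e1
    omega
  have hq : ∀ a : ZMod 45, ∑ x, hh f x * hh f (x + a) = ∑ x, s (ix x) * s (ix (x + a)) := fun a =>
    Finset.sum_congr rfl (fun x _ => by rw [hix x, hix (x + a)])
  have hchk := chk_of m0 (mi 1 (by decide)) (mi 2 (by decide)) (mi 3 (by decide))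
    (mi 4 (by decide)) (mi 5 (by decide)) (mi 6 (by decide)) (mi 7 (by decide)) hlin
  unfold chk at hchk
  simp only [Bool.or_eq_true, decide_eq_true_eq] at hchk
  rcases hchk with ((h | h) | h) | h
  · refine final_step f h0 hf he 1 (by simp) ?_
    rw [hq, quad1]; linarith
  · refine final_step f h0 hf he 2 (by simp) ?_
    rw [hq, quad2]; linarith
  · refine final_step f h0 hf he 4 (by simp) ?_
    rw [hq, quad4]; linarith
  · refine final_step f h0 hf he 7 (by simp) ?_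
    rw [hq, quad7]; linarith

end Pool.Agent.P45
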