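import Pool.Agent.Lib.P45dba8.Avg

/-! # Averaging the autocorrelation at all lags over the units of `ZMod n` -/

set_option autoImplicit false

namespace Pool.Agent.P45

open Finset ArithmeticFunction

namespace AvgAllAux

open AvgAux

variable {n : ℕ} [NeZero n]

theorem sum_corr_lag (f : ZMod n → ℤ) (l : ℕ) :
    (n : ℝ) * ∑ u : (ZMod n)ˣ, ((∑ x, f x * f (x + (l : ZMod n) * u) : ℤ) : ℝ) =
      ∑ b, Complex.normSq (F f b) *
        ((moebius (addOrderOf ((l : ZMod n) * b)) : ℝ) * Nat.totient n /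
          Nat.totient (addOrderOf ((l : ZMod n) * b))) := by
  have : (((n : ℝ) * ∑ u : (ZMod n)ˣ, ((∑ x, f x * f (x + (l : ZMod n) * u) : ℤ) : ℝ) : ℝ) : ℂ) =
      ((∑ b, Complex.normSq (F f b) *
        ((moebius (addOrderOf ((l : ZMod n) * b)) : ℝ) * Nat.totient n /
          Nat.totient (addOrderOf ((l : ZMod n) * b))) : ℝ) : ℂ) := by
    have h2 : ((∑ b, Complex.normSq (F f b) *
        ((moebius (addOrderOf ((l : ZMod n) * b)) : ℝ) * Nat.totient n /
          Nat.totient (addOrderOf ((l : ZMod n) * b))) : ℝ) : ℂ)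
        = ∑ b, ((Complex.normSq (F f b) : ℝ) : ℂ) * c n ((l : ZMod n) * b) := by
      rw [Complex.ofReal_sum]
      apply Finset.sum_congr rfl
      intro b _
      rw [Complex.ofReal_mul, c_real]
    rw [h2]
    have h3 : (((n : ℝ) * ∑ u : (ZMod n)ˣ, ((∑ x, f x * f (x + (l : ZMod n) * u) : ℤ) : ℝ) : ℝ) : ℂ) =
        ∑ u : (ZMod n)ˣ, (n : ℂ) * ((∑ x, f x * f (x + (l : ZMod n) * u) : ℤ) : ℂ) := by
      rw [Complex.ofReal_mul, Complex.ofReal_sum, Finset.mul_sum]
      apply Finset.sum_congr rfl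
      intro u _
      push_cast
      rfl
    rw [h3, Finset.sum_congr rfl (fun u _ => corr_eq f _), Finset.sum_comm]
    apply Finset.sum_congr rfl
    intro b _
    rw [← Finset.mul_sum]
    unfold c
    congr 1
    apply Finset.sum_congr rfl
    intro u _
    congr 1
    ring
  exact_mod_cast this

theorem ord_mul (l : ℕ) (b : ZMod n) :
    addOrderOf ((l : ZMod n) * b) = addOrderOf b / Nat.gcd (addOrderOf b) l := by
  rw [← nsmul_eq_mul]
  exact (isOfFinAddOrder_of_finite b).addOrderOf_nsmul b l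

end AvgAllAux

open AvgAux AvgAllAux in
/-- The averages over the units of the autocorrelations `C (l u)`, for all lags `l`, in terms of
one nonnegative spectrum `P` on the divisors of `n`. -/
theorem avg_all (n : ℕ) [NeZero n] (f : ZMod n → ℤ) (h0 : f 0 = 0)
    (hf : ∀ x ≠ 0, f x = 1 ∨ f x = -1) (hs : ∑ x, f x = 0) :
    ∃ P : ℕ → ℝ, (∀ d, 0 ≤ P d) ∧ P 1 = 0 ∧ ∑ d ∈ n.divisors, P d = (n : ℝ) - 1 ∧
      ∀ l : ℕ, ∑ u : (ZMod n)ˣ, ((∑ x, f x * f (x + (l : ZMod n) * u) : ℤ) : ℝ) =
        (Nat.totient n : ℝ) * ∑ d ∈ n.divisors,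
          P d * ((moebius (d / Nat.gcd d l) : ℝ) / Nat.totient (d / Nat.gcd d l)) := by
  have hn : (n : ℝ) ≠ 0 := by exact_mod_cast NeZero.ne n
  have hn' : (0 : ℝ) < n := by exact_mod_cast Nat.pos_of_ne_zero (NeZero.ne n)
  have hsq : (∑ x, f x * f x : ℤ) = (n : ℤ) - 1 := by
    have : ∀ x, f x * f x = 1 - (if x = 0 then 1 else 0) := by
      intro x
      split_ifs with hx
      · rw [hx, h0]; norm_num
      · rcases hf x hx with h | h <;> rw [h] <;> norm_num
    rw [Finset.sum_congr rfl (fun x _ => this x), Finset.sum_sub_distrib]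
    simp [ZMod.card]
  have hF0 : F f 0 = 0 := by
    unfold F
    simp only [mul_zero, AddChar.map_zero_eq_one, mul_one]
    rw [← Int.cast_sum, hs]
    simp
  have hmaps : ∀ b ∈ (univ : Finset (ZMod n)), addOrderOf b ∈ n.divisors := by
    intro b _
    rw [Nat.mem_divisors]
    exact ⟨ord_dvd b, NeZero.ne n⟩
  refine ⟨fun d => (∑ b ∈ O n d, Complex.normSq (F f b)) / n, ?_, ?_, ?_, ?_⟩
  · intro d
    apply div_nonneg _ hn'.le
    exact Finset.sum_nonneg fun b _ => Complex.normSq_nonneg _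
  · have : ∑ b ∈ O n 1, Complex.normSq (F f b) = 0 := by
      apply Finset.sum_eq_zero
      intro b hb
      rw [mem_O, AddMonoid.addOrderOf_eq_one_iff] at hb
      rw [hb, hF0]
      simp
    simp only [this, zero_div]
  · have h1 := Finset.sum_fiberwise_of_maps_to hmaps (fun b => Complex.normSq (F f b))
    have h2 := parseval f
    rw [hsq] at h2
    have h3 : ∑ d ∈ n.divisors, ∑ b ∈ O n d, Complex.normSq (F f b) = (n : ℝ) * ((n : ℝ) - 1) := by
      refine (Eq.trans h1 h2).trans ?_
      push_cast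
      ring
    rw [← Finset.sum_div, h3]
    field_simp
  · intro l
    have h1 := sum_corr_lag f l
    have h2 : ∑ b, Complex.normSq (F f b) *
        ((moebius (addOrderOf ((l : ZMod n) * b)) : ℝ) * Nat.totient n /
          Nat.totient (addOrderOf ((l : ZMod n) * b))) =
        ∑ d ∈ n.divisors, ∑ b ∈ O n d, Complex.normSq (F f b) *
          ((moebius (d / Nat.gcd d l) : ℝ) * Nat.totient n / Nat.totient (d / Nat.gcd d l)) := by
      rw [← Finset.sum_fiberwise_of_maps_to hmaps]
      apply Finset.sum_congr rfl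
      intro d _
      apply Finset.sum_congr rfl
      intro b hb
      rw [Finset.mem_filter] at hb
      rw [ord_mul, hb.2]
    rw [h2] at h1
    have h3 : (n : ℝ) * ((Nat.totient n : ℝ) * ∑ d ∈ n.divisors,
        (fun d => (∑ b ∈ O n d, Complex.normSq (F f b)) / n) d *
          ((moebius (d / Nat.gcd d l) : ℝ) / Nat.totient (d / Nat.gcd d l))) =
        ∑ d ∈ n.divisors, ∑ b ∈ O n d, Complex.normSq (F f b) *
          ((moebius (d / Nat.gcd d l) : ℝ) * Nat.totient n / Nat.totient (d / Nat.gcd d l)) := by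
      rw [Finset.mul_sum, Finset.mul_sum]
      apply Finset.sum_congr rfl
      intro d _
      rw [← Finset.sum_mul]
      field_simp
    exact mul_left_cancel₀ hn (h1.trans h3.symm)

end Pool.Agent.P45
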