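import Pool.Agent.Lib.P45dba8.A8Avg

/-! # MP_45dba8: the averaging bound for arbitrary weights of the lags `1..5` -/

set_option autoImplicit false

namespace Pool.Agent.P45

open ArithmeticFunction

namespace A8Aux

/-- The combination of the energies: `U` the weight of the unit lags. -/
noncomputable def RG (U b3 b5 : ℝ) (d : ℕ) : ℝ :=
  U * cc d + b3 * cc (d / Nat.gcd d 3) + b5 * cc (d / Nat.gcd d 5)

/-- The bound for all odd `d > 1`. -/
theorem RG_le {U b3 b5 M : ℝ} (h30 : 0 ≤ b3) (h50 : 0 ≤ b5)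
    (a1 : (U + b3 + b5) / 36 ≤ M) (a0 : 0 ≤ U + b3 + b5)
    (a2 : ((U + b5) / 2 - b3) / 6 ≤ M) (a2' : b3 ≤ (U + b5) / 2)
    (a3 : ((U + b3) / 4 - b5) / 6 ≤ M) (a3' : b5 ≤ (U + b3) / 4)
    (a4 : U / 8 - b3 / 4 - b5 / 2 ≤ M) (a4' : -(U / 8 - b3 / 4 - b5 / 2) / 6 ≤ M)
    (a5 : b3 / 8 ≤ M) (a6 : b5 / 8 ≤ M) {d : ℕ} (h0 : d ≠ 0) (h1 : d ≠ 1) (h2 : ¬ 2 ∣ d) :
    RG U b3 b5 d ≤ M := by
  have p3 := Nat.prime_three
  have p5 := Nat.prime_five
  have hM0 : 0 ≤ M := le_trans (by linarith) a5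
  by_cases h3 : 3 ∣ d
  · obtain ⟨m, rfl⟩ := h3
    have hm0 : m ≠ 0 := by rintro rfl; exact h0 rfl
    have hm2 : ¬ 2 ∣ m := fun h => h2 (h.mul_left 3)
    by_cases h5 : 5 ∣ m
    · obtain ⟨q, rfl⟩ := h5
      have hq0 : q ≠ 0 := by rintro rfl; exact hm0 rfl
      have hq2 : ¬ 2 ∣ q := fun h => hm2 (h.mul_left 5)
      have g3 : 3 * (5 * q) / Nat.gcd (3 * (5 * q)) 3 = 5 * q := by
        rw [Nat.gcd_eq_right (Dvd.intro _ rfl), Nat.mul_div_cancel_left _ (by norm_num)]
      have g5 : 3 * (5 * q) / Nat.gcd (3 * (5 * q)) 5 = 3 * q := by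
        have : 3 * (5 * q) = 5 * (3 * q) := by ring
        rw [this, Nat.gcd_eq_right (Dvd.intro _ rfl), Nat.mul_div_cancel_left _ (by norm_num)]
      unfold RG
      rw [g3, g5]
      by_cases hq3 : 3 ∣ q
      · have z1 : cc (3 * (5 * q)) = 0 := cc_sq p3 (by
          obtain ⟨t, rfl⟩ := hq3
          exact ⟨5 * t, by ring⟩)
        have z2 : cc (3 * q) = 0 := cc_sq p3 (mul_dvd_mul_left 3 hq3)
        rw [z1, z2]
        by_cases hq5 : 5 ∣ q
        · have z3 : cc (5 * q) = 0 := cc_sq p5 (mul_dvd_mul_left 5 hq5)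
          rw [z3]
          linarith
        · obtain ⟨t, rfl⟩ := hq3
          have ht0 : t ≠ 0 := by rintro rfl; exact hq0 rfl
          by_cases ht3 : 3 ∣ t
          · have z3 : cc (5 * (3 * t)) = 0 := cc_sq p3 (by
              obtain ⟨s, rfl⟩ := ht3
              exact ⟨5 * s, by ring⟩)
            rw [z3]
            linarith
          · have c5 : Nat.Coprime 5 (3 * t) := (Nat.Prime.coprime_iff_not_dvd p5).2 hq5
            have c3 : Nat.Coprime 3 t := (Nat.Prime.coprime_iff_not_dvd p3).2 ht3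
            rw [cc_mul c5, cc_mul c3, cc_five, cc_three]
            have b := cc_coprime ht0 (fun h => hq2 (h.mul_left 3)) ht3 (fun h => hq5 (h.mul_left 3))
            nlinarith [b.1, mul_le_mul_of_nonneg_left b.1 h30]
      · have c3' : Nat.Coprime 3 q := (Nat.Prime.coprime_iff_not_dvd p3).2 hq3
        have c35 : Nat.Coprime 3 (5 * q) := Nat.Coprime.mul_right (by norm_num) c3'
        rw [cc_mul c35, cc_mul c3', cc_three]
        by_cases hq5 : 5 ∣ q
        · have z3 : cc (5 * q) = 0 := cc_sq p5 (mul_dvd_mul_left 5 hq5)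
          rw [z3]
          obtain ⟨t, rfl⟩ := hq5
          have ht0 : t ≠ 0 := by rintro rfl; exact hq0 rfl
          by_cases ht5 : 5 ∣ t
          · have z4 : cc (5 * t) = 0 := cc_sq p5 (mul_dvd_mul_left 5 ht5)
            rw [z4]
            linarith
          · have c5 : Nat.Coprime 5 t := (Nat.Prime.coprime_iff_not_dvd p5).2 ht5
            rw [cc_mul c5, cc_five]
            have b := cc_coprime ht0 (fun h => hq2 (h.mul_left 5)) (fun h => hq3 (h.mul_left 5)) ht5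
            nlinarith [b.1, mul_le_mul_of_nonneg_left b.1 h50]
        · have c5 : Nat.Coprime 5 q := (Nat.Prime.coprime_iff_not_dvd p5).2 hq5
          rw [cc_mul c5, cc_five]
          have b := cc_coprime hq0 hq2 hq3 hq5
          have e : U * (-(1 / 2) * (-(1 / 4) * cc q)) + b3 * (-(1 / 4) * cc q) +
              b5 * (-(1 / 2) * cc q) = (U / 8 - b3 / 4 - b5 / 2) * cc q := by ring
          rw [e]
          by_cases hpos : 0 ≤ U / 8 - b3 / 4 - b5 / 2
          · exact (mul_le_mul_of_nonneg_left b.1 hpos).trans (by linarith)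
          · nlinarith [b.2]
    · have g3 : 3 * m / Nat.gcd (3 * m) 3 = m := by
        rw [Nat.gcd_eq_right (Dvd.intro _ rfl), Nat.mul_div_cancel_left _ (by norm_num)]
      have hd5 : ¬ 5 ∣ 3 * m := by
        intro h
        rcases (Nat.Prime.dvd_mul p5).1 h with h | h
        · revert h; decide
        · exact h5 h
      have g5 : 3 * m / Nat.gcd (3 * m) 5 = 3 * m := by
        rw [gcd_not_dvd p5 hd5, Nat.div_one]
      unfold RG
      rw [g3, g5]
      by_cases hm3 : 3 ∣ m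
      · have z1 : cc (3 * m) = 0 := cc_sq p3 (mul_dvd_mul_left 3 hm3)
        rw [z1]
        obtain ⟨t, rfl⟩ := hm3
        have ht0 : t ≠ 0 := by rintro rfl; exact hm0 rfl
        by_cases ht3 : 3 ∣ t
        · have z2 : cc (3 * t) = 0 := cc_sq p3 (mul_dvd_mul_left 3 ht3)
          rw [z2]
          linarith
        · have c3 : Nat.Coprime 3 t := (Nat.Prime.coprime_iff_not_dvd p3).2 ht3
          rw [cc_mul c3, cc_three]
          have b := cc_coprime ht0 (fun h => hm2 (h.mul_left 3)) ht3 (fun h => h5 (h.mul_left 3))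
          nlinarith [b.2, mul_le_mul_of_nonneg_left b.2 h30]
      · have c3 : Nat.Coprime 3 m := (Nat.Prime.coprime_iff_not_dvd p3).2 hm3
        rw [cc_mul c3, cc_three]
        have b := cc_coprime hm0 hm2 hm3 h5
        have hp : 0 ≤ (U + b5) / 2 - b3 := by linarith
        nlinarith [b.2, mul_le_mul_of_nonneg_left b.2 hp]
  · have g3 : d / Nat.gcd d 3 = d := by rw [gcd_not_dvd p3 h3, Nat.div_one]
    by_cases h5 : 5 ∣ d
    · obtain ⟨m, rfl⟩ := h5
      have hm0 : m ≠ 0 := by rintro rfl; exact h0 rfl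
      have hm2 : ¬ 2 ∣ m := fun h => h2 (h.mul_left 5)
      have hm3 : ¬ 3 ∣ m := fun h => h3 (h.mul_left 5)
      have g5 : 5 * m / Nat.gcd (5 * m) 5 = m := by
        rw [Nat.gcd_eq_right (Dvd.intro _ rfl), Nat.mul_div_cancel_left _ (by norm_num)]
      unfold RG
      rw [g3, g5]
      by_cases hm5 : 5 ∣ m
      · have z1 : cc (5 * m) = 0 := cc_sq p5 (mul_dvd_mul_left 5 hm5)
        rw [z1]
        obtain ⟨t, rfl⟩ := hm5
        have ht0 : t ≠ 0 := by rintro rfl; exact hm0 rfl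
        by_cases ht5 : 5 ∣ t
        · have z2 : cc (5 * t) = 0 := cc_sq p5 (mul_dvd_mul_left 5 ht5)
          rw [z2]
          linarith
        · have c5 : Nat.Coprime 5 t := (Nat.Prime.coprime_iff_not_dvd p5).2 ht5
          rw [cc_mul c5, cc_five]
          have b := cc_coprime ht0 (fun h => hm2 (h.mul_left 5)) (fun h => hm3 (h.mul_left 5)) ht5
          nlinarith [b.2, mul_le_mul_of_nonneg_left b.2 h50]
      · have c5 : Nat.Coprime 5 m := (Nat.Prime.coprime_iff_not_dvd p5).2 hm5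
        rw [cc_mul c5, cc_five]
        have b := cc_coprime hm0 hm2 hm3 hm5
        have hp : 0 ≤ (U + b3) / 4 - b5 := by linarith
        nlinarith [b.2, mul_le_mul_of_nonneg_left b.2 hp]
    · have g5 : d / Nat.gcd d 5 = d := by rw [gcd_not_dvd p5 h5, Nat.div_one]
      unfold RG
      rw [g3, g5]
      have b := cc_upper h0 h1 h2 h3 h5
      nlinarith [mul_le_mul_of_nonneg_left b a0]

end A8Aux

open A8Aux in
/-- One unit for which `∑ b_l C_l ≤ M (n - 1)`, for arbitrary weights of the lags `1..5`. -/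
theorem exists_unit_five {k : ℕ} (hk : 3 ≤ k) (S : Finset ℕ) (hS : S ⊆ Finset.Icc 1 (2 * k))
    (hc : S.card = k) (b1 b2 b3 b4 b5 M : ℝ) (h30 : 0 ≤ b3) (h50 : 0 ≤ b5)
    (a1 : (b1 + b2 + b4 + b3 + b5) / 36 ≤ M) (a0 : 0 ≤ b1 + b2 + b4 + b3 + b5)
    (a2 : ((b1 + b2 + b4 + b5) / 2 - b3) / 6 ≤ M) (a2' : b3 ≤ (b1 + b2 + b4 + b5) / 2)
    (a3 : ((b1 + b2 + b4 + b3) / 4 - b5) / 6 ≤ M) (a3' : b5 ≤ (b1 + b2 + b4 + b3) / 4)
    (a4 : (b1 + b2 + b4) / 8 - b3 / 4 - b5 / 2 ≤ M)
    (a4' : -((b1 + b2 + b4) / 8 - b3 / 4 - b5 / 2) / 6 ≤ M)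
    (a5 : b3 / 8 ≤ M) (a6 : b5 / 8 ≤ M) : ∃ v : ZMod (4 * k + 1), IsUnit v ∧
      b1 * (2 * (wcor (LW k S v) (2 * k) 1 : ℝ) + (wedge (LW k S v) (2 * k) 1 : ℝ)) +
      b2 * (2 * (wcor (LW k S v) (2 * k) 2 : ℝ) + (wedge (LW k S v) (2 * k) 2 : ℝ)) +
      b3 * (2 * (wcor (LW k S v) (2 * k) 3 : ℝ) + (wedge (LW k S v) (2 * k) 3 : ℝ)) +
      b4 * (2 * (wcor (LW k S v) (2 * k) 4 : ℝ) + (wedge (LW k S v) (2 * k) 4 : ℝ)) +
      b5 * (2 * (wcor (LW k S v) (2 * k) 5 : ℝ) + (wedge (LW k S v) (2 * k) 5 : ℝ)) ≤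
        M * (4 * k) := by
  classical
  set c : ℕ → ℝ := fun l => if l = 1 then b1 else if l = 2 then b2 else if l = 3 then b3 else
    if l = 4 then b4 else b5 with hcdef
  have hsum : ∀ F : ℕ → ℝ, ∑ l ∈ Finset.Icc 1 5, c l * F l =
      b1 * F 1 + b2 * F 2 + b3 * F 3 + b4 * F 4 + b5 * F 5 := by
    intro F
    have e : Finset.Icc 1 5 = {1, 2, 3, 4, 5} := by decide
    rw [e, Finset.sum_insert (by decide), Finset.sum_insert (by decide),
      Finset.sum_insert (by decide), Finset.sum_insert (by decide), Finset.sum_singleton]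
    simp only [hcdef]
    norm_num
    ring
  obtain ⟨v, hv, h⟩ := exists_unit_comb S hS hc (Finset.Icc 1 5)
    (fun l hl => by rw [Finset.mem_Icc] at hl; omega) c M (by
      intro d hd h1
      have h0 : d ≠ 0 := by
        rintro rfl
        have := Nat.eq_zero_of_zero_dvd hd
        omega
      have h2 : ¬ 2 ∣ d := by
        intro h
        have := h.trans hd
        omega
      have g1 : Nat.gcd d 1 = 1 := Nat.gcd_one_right d
      have g2 : Nat.gcd d 2 = 1 := gcd_not_dvd Nat.prime_two h2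
      have g4 : Nat.gcd d 4 = 1 := by
        have : Nat.Coprime d (2 ^ 2) := Nat.Coprime.pow_right 2 g2
        exact this
      have hs := hsum (fun l => (moebius (d / Nat.gcd d l) : ℝ) / Nat.totient (d / Nat.gcd d l))
      rw [hs]
      simp only [g1, g2, g4, Nat.div_one]
      have h3 := RG_le (U := b1 + b2 + b4) h30 h50 a1 a0 a2 a2' a3 a3' a4 a4' a5 a6 h0 h1 h2
      unfold RG cc at h3
      linarith)
  refine ⟨v, hv, ?_⟩
  have hs := hsum (fun l => 2 * (wcor (LW k S v) (2 * k) l : ℝ) + (wedge (LW k S v) (2 * k) l : ℝ))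
  rwa [hs] at h

end Pool.Agent.P45
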