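import Pool.Agent.Lib.P45dba8.Color

/-! # Blocks of one and two differences; the colouring theorem -/

set_option autoImplicit false
set_option linter.unusedVariables false
set_option linter.unusedSectionVars false
set_option linter.unusedSimpArgs false

namespace Pool.Agent.P45

open Finset

section Blocks

variable {p : ℕ} [Fact p.Prime]

theorem single (hp : Odd p) (d x : ZMod p) (hd : d ≠ 0) :
    EG ({d, -d} : Set (ZMod p)) {x, x + d} := by
  have h2 : 2 ≤ p := (Fact.out : p.Prime).two_le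
  have h1 : EG ({1, -1} : Set (ZMod p)) {(Equiv.refl (ZMod p)) 0, (Equiv.refl (ZMod p)) 1} := by
    apply one_ham hp h2
    intro u v huv
    rcases huv with h | h
    · refine ⟨u, ?_⟩
      rw [Equiv.refl_apply, Equiv.refl_apply]
      have : v = u + 1 := by
        have h' : v - u = 1 := h
        linear_combination h'
      rw [this]
    · refine ⟨v, ?_⟩
      rw [Equiv.refl_apply, Equiv.refl_apply, Sym2.eq_swap]
      have : u = v + 1 := by
        have h' : v - u = -1 := h
        linear_combination -h'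
      rw [this]
  apply (h1.affine d x hd).congr
  · intro δ hδ
    rcases hδ with rfl | h
    · left; field_simp
    · right
      rw [Set.mem_singleton_iff] at h ⊢
      rw [h]; field_simp
  · intro v
    simp only [Equiv.refl_apply, Finset.image_insert, Finset.image_singleton, mul_zero, add_zero,
      mul_one]

theorem val_range {b : ZMod p} (h0 : b ≠ 0) (h1 : b ≠ 1) (hm : b ≠ -1) :
    2 ≤ b.val ∧ b.val + 2 ≤ p := by
  have h2 : 2 ≤ p := (Fact.out : p.Prime).two_le
  have h3 := b.val_lt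
  have h4 := val_pos' h0
  constructor
  · by_contra h
    apply h1
    have : b.val = 1 := by omega
    rw [← ZMod.natCast_zmod_val b, this, Nat.cast_one]
  · by_contra h
    apply hm
    have h5 : b.val = p - 1 := by omega
    rw [← ZMod.natCast_zmod_val b, h5, Nat.cast_sub (by omega), ZMod.natCast_self, Nat.cast_one]
    ring

theorem mem4 {V : Type*} [DecidableEq V] {a b c d v : V} :
    v ∈ ({a, b, c, d} : Finset V) ↔ v = a ∨ v = b ∨ v = c ∨ v = d := by
  simp [Finset.mem_insert, Finset.mem_singleton]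

theorem pairN (hp : Odd p) (b z : ZMod p) (hb0 : b ≠ 0) (hb1 : b ≠ 1) (hbm : b ≠ -1)
    (hz0 : z ≠ 0) (hz1 : z ≠ 1) (hzm : z ≠ -1) (hzb : z ≠ b) :
    EG ({1, -1, b, -b} : Set (ZMod p)) {0, 1, z, z + 1} := by
  have h2 : 2 ≤ p := (Fact.out : p.Prime).two_le
  obtain ⟨r1, r2⟩ := val_range hb0 hb1 hbm
  have hi0 : b⁻¹ ≠ 0 := inv_ne_zero hb0
  have hi1 : b⁻¹ ≠ 1 := fun h => hb1 (by rw [← inv_inv b, h, inv_one])
  have him : b⁻¹ ≠ -1 := fun h => hbm (by rw [← inv_inv b, h, inv_neg, inv_one])
  obtain ⟨r3, r4⟩ := val_range hi0 hi1 him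
  set β := b.val with hβ
  set γ := (b⁻¹).val with hγ
  have cβ : (β : ZMod p) = b := ZMod.natCast_zmod_val b
  have cγ : (γ : ZMod p) = b⁻¹ := ZMod.natCast_zmod_val b⁻¹
  have hvne : ∀ u w : ZMod p, u ≠ w → u.val ≠ w.val := fun u w h h' => h (ZMod.val_injective p h')
  obtain ⟨k0, hk0⟩ := piF_edge β r2 z hz0 (hvne _ _ hzb)
  let π1 : ZMod p ≃ ZMod p := (Equiv.addRight k0).trans (piE β r2)
  let π2 : ZMod p ≃ ZMod p := ((Equiv.addRight (-1 : ZMod p)).trans (piE γ r4)).trans
    (Equiv.mulLeft₀ b hb0)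
  have e1 : ∀ j, π1 j = piF β (j + k0) := fun j => rfl
  have e2 : ∀ j, π2 j = b * piF γ (j + -1) := fun j => rfl
  have e1' : ∀ k, piF β k = π1 (k - k0) := by intro k; rw [e1]; congr 1; ring
  have e2' : ∀ k, b * piF γ k = π2 (k + 1) := by intro k; rw [e2]; congr 2; ring
  have f20 : π2 0 = 1 := by
    rw [e2, zero_add, piF_neg_one γ r3 r4, cγ, mul_inv_cancel₀ hb0]
  have f21 : π2 1 = 0 := by
    rw [e2, add_neg_cancel, piF_zero γ r4, mul_zero]
  have g1 : s(z, z + 1) = s(π1 0, π1 1) := by
    rw [hk0, e1, e1]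
    ring_nf
  have key1 : ∀ u : ZMod p, (∃ k, s(u, u + 1) = s(π1 k, π1 (k + 1))) ∨
      (∃ k, s(u, u + 1) = s(π2 k, π2 (k + 1))) := by
    intro u
    by_cases hu0 : u = 0
    · right
      refine ⟨0, ?_⟩
      rw [hu0, zero_add, f20, f21, Sym2.eq_swap]
    by_cases hub : u = b
    · right
      obtain ⟨k, hk⟩ := piF_jump γ r3 r4 (p := p)
      refine ⟨k + 1, ?_⟩
      have h3 : s(b * 1, b * ((γ : ZMod p) + 1)) = s(b * piF γ k, b * piF γ (k + 1)) := by
        rw [Sym2.eq_iff] at hk ⊢
        rcases hk with ⟨h, h'⟩ | ⟨h, h'⟩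
        · left; exact ⟨by rw [← h], by rw [← h']⟩
        · right; exact ⟨by rw [← h], by rw [← h']⟩
      rw [← e2', ← e2', ← h3, cγ, hub, mul_add, mul_inv_cancel₀ hb0, mul_one, add_comm 1 b]
    · left
      obtain ⟨k, hk⟩ := piF_edge β r2 u hu0 (hvne _ _ hub)
      refine ⟨k - k0, ?_⟩
      rw [hk, e1', e1']
      ring_nf
  have key2 : ∀ u : ZMod p, (∃ k, s(u, u + b) = s(π1 k, π1 (k + 1))) ∨
      (∃ k, s(u, u + b) = s(π2 k, π2 (k + 1))) := by
    intro u
    by_cases hu0 : u = 0
    · left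
      refine ⟨-1 - k0, ?_⟩
      rw [e1, e1, sub_add_cancel, piF_neg_one β r1 r2]
      have : -1 - k0 + 1 + k0 = 0 := by ring
      rw [this, piF_zero β r2, cβ, hu0, zero_add, Sym2.eq_swap]
    by_cases hu1 : u = 1
    · left
      obtain ⟨k, hk⟩ := piF_jump β r1 r2 (p := p)
      refine ⟨k - k0, ?_⟩
      rw [cβ] at hk
      rw [hu1, add_comm 1 b, hk, e1', e1']
      ring_nf
    · right
      have h3 : u * b⁻¹ ≠ 0 := mul_ne_zero hu0 hi0
      have h4 : u * b⁻¹ ≠ b⁻¹ := by
        intro h
        exact hu1 (mul_right_cancel₀ hi0 (by rw [h, one_mul]))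
      obtain ⟨k, hk⟩ := piF_edge γ r4 (u * b⁻¹) h3 (hvne _ _ h4)
      refine ⟨k + 1, ?_⟩
      have h5 : s(b * (u * b⁻¹), b * (u * b⁻¹ + 1)) = s(b * piF γ k, b * piF γ (k + 1)) := by
        rw [Sym2.eq_iff] at hk ⊢
        rcases hk with ⟨h, h'⟩ | ⟨h, h'⟩
        · left; exact ⟨by rw [← h], by rw [← h']⟩
        · right; exact ⟨by rw [← h], by rw [← h']⟩
      have h6 : b * (u * b⁻¹) = u := by field_simp
      rw [← e2', ← e2', ← h5, mul_add, h6, mul_one]
  have hA : ({π1 0, π1 1} : Finset (ZMod p)) = {z, z + 1} := by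
    rw [Sym2.eq_iff] at g1
    rcases g1 with ⟨h, h'⟩ | ⟨h, h'⟩
    · rw [← h, ← h']
    · rw [← h, ← h']; exact Finset.pair_comm _ _
  have hd : Disjoint ({π1 0, π1 1} : Finset (ZMod p)) {π2 0, π2 1} := by
    rw [hA, f20, f21, Finset.disjoint_left]
    intro v hv hv'
    simp only [Finset.mem_insert, Finset.mem_singleton] at hv hv'
    rcases hv with rfl | rfl <;> rcases hv' with h | h
    · exact hz1 h
    · exact hz0 h
    · exact hz0 (by linear_combination h)
    · exact hzm (by linear_combination h)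
  apply (two_ham hp h2 π1 π2 ({1, -1, b, -b} : Set (ZMod p)) hd ?_).congr (fun _ h => h)
  · intro v
    rw [hA, f20, f21]
    simp only [Finset.mem_union, Finset.mem_insert, Finset.mem_singleton]
    tauto
  · intro u v huv
    simp only [Set.mem_insert_iff, Set.mem_singleton_iff] at huv
    rcases huv with h | h | h | h
    · have : v = u + 1 := by linear_combination h
      rw [this]; exact key1 u
    · have : u = v + 1 := by linear_combination -h
      rw [this, Sym2.eq_swap]; exact key1 v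
    · have : v = u + b := by linear_combination h
      rw [this]; exact key2 u
    · have : u = v + b := by linear_combination -h
      rw [this, Sym2.eq_swap]; exact key2 v

theorem pair (hp : Odd p) (d b x z : ZMod p) (hd0 : d ≠ 0) (hb0 : b ≠ 0) (hb1 : b ≠ d)
    (hbm : b ≠ -d) (hz0 : z ≠ x) (hz1 : z ≠ x + d) (hzm : z + d ≠ x) :
    EG ({d, -d, b, -b} : Set (ZMod p)) {x, x + d, z, z + d} := by
  -- first with the extra assumption `z ≠ x + b`
  have main : ∀ b : ZMod p, b ≠ 0 → b ≠ d → b ≠ -d → z ≠ x + b →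
      EG ({d, -d, b, -b} : Set (ZMod p)) {x, x + d, z, z + d} := by
    intro b hb0 hb1 hbm hzb
    have h1 := pairN hp (d⁻¹ * b) (d⁻¹ * (z - x)) (mul_ne_zero (inv_ne_zero hd0) hb0) ?_ ?_ ?_ ?_ ?_ ?_
    · apply (h1.affine d x hd0).congr
      · intro δ hδ
        simp only [Set.mem_insert_iff, Set.mem_singleton_iff, Set.mem_setOf_eq] at hδ ⊢
        rcases hδ with rfl | rfl | rfl | rfl
        · left; field_simp
        · right; left; field_simp
        · right; right; left; rfl
        · right; right; right; ring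
      · intro v
        have e1 : x + d * (d⁻¹ * (z - x)) = z := by field_simp; ring
        have e2 : x + d * (d⁻¹ * (z - x) + 1) = z + d := by field_simp; ring
        simp only [Finset.image_insert, Finset.image_singleton, mul_zero, add_zero, mul_one, e1, e2]
    · intro h
      apply hb1
      field_simp at h
      exact h
    · intro h
      apply hbm
      field_simp at h
      linear_combination h
    · intro h
      rcases mul_eq_zero.mp h with h | h
      · exact inv_ne_zero hd0 h
      · exact hz0 (by linear_combination h)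
    · intro h
      apply hz1
      field_simp at h
      linear_combination h
    · intro h
      apply hzm
      field_simp at h
      linear_combination h
    · intro h
      apply hzb
      have := mul_left_cancel₀ (inv_ne_zero hd0) h
      linear_combination this
  by_cases hzb : z = x + b
  · have h2 := main (-b) (neg_ne_zero.mpr hb0) (fun h => hbm (by rw [← h, neg_neg]))
      (fun h => hb1 (neg_injective h)) ?_
    · apply h2.congr _ (fun _ => Iff.rfl)
      intro δ hδ
      simp only [Set.mem_insert_iff, Set.mem_singleton_iff, neg_neg] at hδ ⊢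
      tauto
    · rw [hzb]
      intro h
      have h3 : (2 : ZMod p) * b = 0 := by linear_combination h
      rcases mul_eq_zero.mp h3 with h4 | h4
      · have h5 : ((2 : ℕ) : ZMod p) = 0 := by exact_mod_cast h4
        rw [ZMod.natCast_eq_zero_iff] at h5
        have h6 := Nat.le_of_dvd (by norm_num) h5
        have h7 : 2 ≤ p := (Fact.out : p.Prime).two_le
        have h8 : p = 2 := by omega
        rw [h8] at hp
        exact absurd hp (by decide)
      · exact hb0 h4
  · exact main b hb0 hb1 hbm hzb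

end Blocks

/-- The colouring theorem. -/
theorem color_main {V : Type*} [AddGroup V] [DecidableEq V] (DS DT : Set V) (A : Finset V)
    (hS : EG DS A) (hT : EG DT A) (n : ℕ) (hn : A.card = n)
    (E : Set (Sym2 (V × Fin 2)))
    (hE : ∀ e ∈ E, ∃ u v : V × Fin 2, e = s(u, v) ∧
      ((u.2 = 0 ∧ v.2 = 0 ∧ u.1 ≠ v.1 ∧ v.1 - u.1 ∈ DS) ∨
        (u.2 = 1 ∧ v.2 = 1 ∧ u.1 ≠ v.1 ∧ v.1 - u.1 ∈ DT) ∨ (u.1 = v.1 ∧ u.2 ≠ v.2))) :
    ∃ c : Sym2 (V × Fin 2) → Fin (n + 1), ∀ e ∈ E, ∀ f ∈ E, e ≠ f →
      (∃ v, v ∈ e ∧ v ∈ f) → c e ≠ c f := by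
  classical
  obtain ⟨mS, aS, NS, bS, cS⟩ := hS
  obtain ⟨mT, aT, NT, bT, cT⟩ := hT
  let P : Option A → V × Fin 2 → V × Fin 2 := fun κ q =>
    match κ with
    | none => if q.1 ∈ A then (if q.2 = 0 then (mS q.1, 0) else (mT q.1, 1)) else (q.1, 1 - q.2)
    | some a => if q.1 = a.1 then (q.1, 1 - q.2) else
        (if q.2 = 0 then (NS a.1 q.1, 0) else (NT a.1 q.1, 1))
  have hfin : ∀ i : Fin 2, i ≠ 0 → i = 1 := by decide
  have hfin2 : ∀ i : Fin 2, 1 - (1 - i) = i := by decide
  have hfin3 : ∀ i j : Fin 2, i ≠ j → 1 - i = j := by decide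
  have hP : ∀ κ q, P κ (P κ q) = q := by
    rintro (_ | a) ⟨v, i⟩
    · by_cases hv : v ∈ A
      · by_cases hi : i = 0
        · subst hi
          obtain ⟨x, y, z⟩ := aS v hv
          simp [P, hv, x, y]
        · rw [hfin i hi]
          obtain ⟨x, y, z⟩ := aT v hv
          simp [P, hv, x, y]
      · simp [P, hv, hfin2]
    · by_cases hv : v = a.1
      · simp [P, hv, hfin2]
      · by_cases hi : i = 0
        · subst hi
          have h1 : NS a.1 v ≠ a.1 := by
            intro h
            have h2 := (bS a.1 a.2).1 v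
            rw [h, ((bS a.1 a.2).2 a.1).mpr rfl] at h2
            exact hv h2.symm
          simp [P, hv, h1, (bS a.1 a.2).1 v]
        · rw [hfin i hi]
          have h1 : NT a.1 v ≠ a.1 := by
            intro h
            have h2 := (bT a.1 a.2).1 v
            rw [h, ((bT a.1 a.2).2 a.1).mpr rfl] at h2
            exact hv h2.symm
          simp [P, hv, h1, (bT a.1 a.2).1 v]
  have hcov : ∀ e ∈ E, ∃ κ, ∃ q, e = s(q, P κ q) := by
    intro e he
    obtain ⟨⟨u, i⟩, ⟨v, j⟩, rfl, h⟩ := hE e he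
    simp only at h
    rcases h with ⟨rfl, rfl, hne, h⟩ | ⟨rfl, rfl, hne, h⟩ | ⟨rfl, h⟩
    · rcases cS u v h with ⟨h1, h2⟩ | ⟨a, ha, h2⟩
      · exact ⟨none, (u, 0), by simp [P, h1, h2]⟩
      · by_cases hua : u = a
        · exfalso
          rw [((bS a ha).2 u).mpr hua] at h2
          exact hne h2
        · exact ⟨some ⟨a, ha⟩, (u, 0), by simp [P, hua, h2]⟩
    · rcases cT u v h with ⟨h1, h2⟩ | ⟨a, ha, h2⟩
      · exact ⟨none, (u, 1), by simp [P, h1, h2]⟩
      · by_cases hua : u = a
        · exfalso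
          rw [((bT a ha).2 u).mpr hua] at h2
          exact hne h2
        · exact ⟨some ⟨a, ha⟩, (u, 1), by simp [P, hua, h2]⟩
    · by_cases hu : u ∈ A
      · exact ⟨some ⟨u, hu⟩, (u, i), by simp [P, hfin3 i j h]⟩
      · exact ⟨none, (u, i), by simp [P, hu, hfin3 i j h]⟩
  have hcard : Fintype.card (Option A) = n + 1 := by
    rw [Fintype.card_option, Fintype.card_coe, hn]
  let ε : Option A ≃ Fin (n + 1) := Fintype.equivFinOfCardEq hcard
  refine ⟨fun e => if h : ∃ κ, ∃ q, e = s(q, P κ q) then ε h.choose else 0, ?_⟩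
  intro e he f hf hne hv heq
  obtain ⟨w, hwe, hwf⟩ := hv
  have h1 := hcov e he
  have h2 := hcov f hf
  simp only [h1, h2, dif_pos] at heq
  have h3 := ε.injective heq
  have key : ∀ (κ : Option A) (g : Sym2 (V × Fin 2)), (∃ q, g = s(q, P κ q)) → w ∈ g →
      g = s(w, P κ w) := by
    rintro κ g ⟨q, rfl⟩ hw
    rw [Sym2.mem_iff] at hw
    rcases hw with rfl | rfl
    · rfl
    · rw [hP, Sym2.eq_swap]
  apply hne
  rw [key _ e h1.choose_spec hwe, key _ f h2.choose_spec hwf, h3]

end Pool.Agent.P45
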