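import Pool.Agent.Lib.P45dba8.HostW

/-! # Blocks given by a step function of the classes -/

set_option autoImplicit false

namespace Pool.Agent.P45

/-- A block: the good family of the subgroup hosted along the steps `v ↦ v + Wt (red v)`. -/
theorem Good.blk {m h : ℕ} (hm : Odd m) (hh : Odd h) (h3 : 3 ≤ h) {ι κ : Type*}
    [Nonempty (ι ⊕ κ × Bool)] {Q : ZMod m → Prop} (hQ : ∀ x, IsUnit x → Q x)
    {t : ι → ZMod m} {d u : κ → ZMod m} (hG : Good m Q t d u) (hD : Dist t d u)
    (Wt : ZMod h → ZMod (m * h)) (π : ZMod h ≃ ZMod h)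
    (hπ : ∀ i, π (i + 1) = π i + red m h (Wt (π i))) (w : ZMod (m * h))
    (P A : ι ⊕ κ × Bool → ZMod (m * h)) (hA : ∀ i, A (Sum.inl i) = psi m h (t i))
    (hP : ∀ k, adm (fun δ => red m h δ ≠ 0) (psi m h (d k)) (psi m h (u k))
      (A (Sum.inr (k, false))) (A (Sum.inr (k, true)))
      (P (Sum.inr (k, true)) - P (Sum.inr (k, false)))) :
    TS Set.univ (fun x y => DE (FD (fun i => psi m h (t i)) (fun k => psi m h (d k))
        (fun k => psi m h (u k))) x y ∨ y = x + Wt (red m h x) ∨ x = y + Wt (red m h y))
      (fun (k : Option (ι ⊕ κ × Bool)) b =>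
        k.elim (bif b then w + Wt (red m h w) else w) (fun k => fh P A k b)) := by
  classical
  let j := π.symm (red m h w)
  let π' : ZMod h ≃ ZMod h := (Equiv.addRight (1 + j)).trans π
  have hπ' : ∀ i, π' i = π (i + (1 + j)) := fun i => rfl
  have h1 : π' (-1) = red m h w := by
    rw [hπ']
    have : (-1 : ZMod h) + (1 + j) = j := by ring
    rw [this]
    exact π.apply_symm_apply _
  have key := hG.hostW hm hh h3 hQ hD π' (fun i => Wt (π' i)) (by
    intro i
    have h2 : π' (i + 1) = π' i + red m h (Wt (π' i)) := by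
      rw [hπ', hπ']
      have : i + 1 + (1 + j) = i + (1 + j) + 1 := by ring
      rw [this]
      exact hπ _
    rw [h2]; ring) w h1.symm P A hA hP
  refine (key.mono ?_).congr ?_
  · rintro x - y - (h2 | h2 | h2)
    · exact Or.inl h2
    · refine Or.inr (Or.inl ?_)
      show y = x + Wt (π' (π'.symm (red m h x)))
      rw [π'.apply_symm_apply]; exact h2
    · refine Or.inr (Or.inr ?_)
      show x = y + Wt (π' (π'.symm (red m h y)))
      rw [π'.apply_symm_apply]; exact h2
  · rintro (_ | k) b
    · show (bif b then w + Wt (red m h w) else w) = (bif b then w + Wt (π' (-1)) else w)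
      rw [h1]
    · rfl

/-- Block with steps of constant residue. -/
theorem Good.blkA {m h : ℕ} (hm : Odd m) (hh : Odd h) (h3 : 3 ≤ h) {ι κ : Type*}
    [Nonempty (ι ⊕ κ × Bool)] {Q : ZMod m → Prop} (hQ : ∀ x, IsUnit x → Q x)
    {t : ι → ZMod m} {d u : κ → ZMod m} (hG : Good m Q t d u) (hD : Dist t d u)
    (Wt : ZMod h → ZMod (m * h)) (x : ZMod h) (hx : IsUnit x)
    (hW : ∀ a, red m h (Wt a) = x) (w : ZMod (m * h))
    (P A : ι ⊕ κ × Bool → ZMod (m * h)) (hA : ∀ i, A (Sum.inl i) = psi m h (t i))
    (hP : ∀ k, adm (fun δ => red m h δ ≠ 0) (psi m h (d k)) (psi m h (u k))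
      (A (Sum.inr (k, false))) (A (Sum.inr (k, true)))
      (P (Sum.inr (k, true)) - P (Sum.inr (k, false)))) :
    TS Set.univ (fun x y => DE (FD (fun i => psi m h (t i)) (fun k => psi m h (d k))
        (fun k => psi m h (u k))) x y ∨ y = x + Wt (red m h x) ∨ x = y + Wt (red m h y))
      (fun (k : Option (ι ⊕ κ × Bool)) b =>
        k.elim (bif b then w + Wt (red m h w) else w) (fun k => fh P A k b)) := by
  obtain ⟨ux, hux⟩ := hx
  refine hG.blk hm hh h3 hQ hD Wt (Units.mulLeft ux) ?_ w P A hA hP
  intro i
  rw [hW]
  show (ux : ZMod h) * (i + 1) = (ux : ZMod h) * i + x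
  rw [hux]; ring

/-- The reversal of the numbers `1, ..., l`. -/
def rv (l i : ℕ) : ℕ := if i = 0 then 0 else if i ≤ l then l + 1 - i else i

theorem rv_rv (l i : ℕ) : rv l (rv l i) = i := by
  unfold rv
  split_ifs <;> omega

theorem rv_lt (l i h : ℕ) (hl : l < h) (hi : i < h) : rv l i < h := by
  unfold rv
  split_ifs <;> omega

theorem rv_le {l i : ℕ} (h0 : i ≠ 0) (h1 : i ≤ l) : rv l i = l + 1 - i := by
  unfold rv; rw [if_neg h0, if_pos h1]

theorem rv_gt {l i : ℕ} (h1 : l < i) : rv l i = i := by
  unfold rv; rw [if_neg (by omega), if_neg (by omega)]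

/-- Block with one square switched: the steps `x`, except the steps `y` at `a` and `a + x`. -/
theorem Good.blkB {m h : ℕ} (hm : Odd m) (hh : Odd h) (h3 : 3 ≤ h) {ι κ : Type*}
    [Nonempty (ι ⊕ κ × Bool)] {Q : ZMod m → Prop} (hQ : ∀ x, IsUnit x → Q x)
    {t : ι → ZMod m} {d u : κ → ZMod m} (hG : Good m Q t d u) (hD : Dist t d u)
    (x y : ZMod (m * h)) (hx : IsUnit (red m h x)) (a : ZMod h)
    (hy0 : red m h y ≠ 0) (hy1 : red m h y ≠ red m h x) (hy2 : red m h y ≠ -red m h x)
    (w w' : ZMod (m * h))
    (hw : (w' = w + y ∧ (red m h w = a ∨ red m h w = a + red m h x)) ∨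
      (w' = w + x ∧ red m h w ≠ a ∧ red m h w ≠ a + red m h y))
    (P A : ι ⊕ κ × Bool → ZMod (m * h)) (hA : ∀ i, A (Sum.inl i) = psi m h (t i))
    (hP : ∀ k, adm (fun δ => red m h δ ≠ 0) (psi m h (d k)) (psi m h (u k))
      (A (Sum.inr (k, false))) (A (Sum.inr (k, true)))
      (P (Sum.inr (k, true)) - P (Sum.inr (k, false))))
    (E : ZMod (m * h) → ZMod (m * h) → Prop)
    (hE : ∀ v v', E v v' →
      (v' = v + y ∧ (red m h v = a ∨ red m h v = a + red m h x)) ∨
      (v' = v + x ∧ red m h v ≠ a ∧ red m h v ≠ a + red m h y)) :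
    TS Set.univ (fun x y => DE (FD (fun i => psi m h (t i)) (fun k => psi m h (d k))
        (fun k => psi m h (u k))) x y ∨ E x y ∨ E y x)
      (fun (k : Option (ι ⊕ κ × Bool)) b =>
        k.elim (bif b then w' else w) (fun k => fh P A k b)) := by
  classical
  have hNZ : NeZero h := ⟨by omega⟩
  have hF1 : Fact (1 < h) := ⟨by omega⟩
  obtain ⟨ux, hux⟩ := hx
  set xb := red m h x with hxb
  set yb := red m h y with hyb
  let lam : ZMod h := ↑ux⁻¹ * yb
  have hlam : yb = xb * lam := by
    show yb = xb * (↑ux⁻¹ * yb)
    rw [← hux, ← mul_assoc, Units.mul_inv, one_mul]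
  let l := lam.val
  have hlc : ((l : ℕ) : ZMod h) = lam := ZMod.natCast_zmod_val lam
  have hl0 : l ≠ 0 := by
    intro h0
    apply hy0
    have : lam = 0 := (ZMod.val_eq_zero lam).1 h0
    rw [hlam, this, mul_zero]
  have hl1 : l ≠ 1 := by
    intro h0
    apply hy1
    have : lam = 1 := by rw [← hlc, h0, Nat.cast_one]
    rw [hlam, this, mul_one]
  have hl2 : l < h - 1 := by
    have h1 := lam.val_lt
    have h2 : l ≠ h - 1 := by
      intro h0
      apply hy2
      have : lam = -1 := by
        apply ZMod.val_injective h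
        rw [zval_neg_one h3]; exact h0
      rw [hlam, this]; ring
    omega
  let T : ZMod h → ZMod h := fun i => ((rv l i.val : ℕ) : ZMod h)
  have Tval : ∀ i, (T i).val = rv l i.val := by
    intro i
    exact ZMod.val_natCast_of_lt (rv_lt l _ h (by omega) i.val_lt)
  have TT : Function.Involutive T := by
    intro i
    apply ZMod.val_injective h
    rw [Tval, Tval, rv_rv]
  -- the index of a class
  let ix : ZMod h → ZMod h := fun v => ↑ux⁻¹ * (v - a)
  have ix_inj : ∀ v v', ix v = ix v' → v = v' := by
    intro v v' h1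
    have h2 : (ux : ZMod h) * (↑ux⁻¹ * (v - a)) = (ux : ZMod h) * (↑ux⁻¹ * (v' - a)) :=
      congrArg (fun z => (ux : ZMod h) * z) h1
    rw [← mul_assoc, ← mul_assoc, Units.mul_inv, one_mul, one_mul] at h2
    linear_combination h2
  have ix_add : ∀ v j, ix (v + xb * j) = ix v + j := by
    intro v j
    show ↑ux⁻¹ * (v + xb * j - a) = ↑ux⁻¹ * (v - a) + j
    have : (↑ux⁻¹ : ZMod h) * xb = 1 := by rw [← hux]; exact Units.inv_mul ux
    linear_combination j * this
  have ix_a : ix a = 0 := by
    show ↑ux⁻¹ * (a - a) = (0 : ZMod h)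
    rw [sub_self, mul_zero]
  let Wt : ZMod h → ZMod (m * h) := fun v =>
    if (ix v).val = 0 ∨ (ix v).val = 1 then y else if (ix v).val ≤ l then -x else x
  let π : ZMod h ≃ ZMod h := TT.toPerm.trans ((Units.mulLeft ux).trans (Equiv.addLeft a))
  have hπv : ∀ i, π i = a + xb * T i := by
    intro i
    rw [← hux]; rfl
  have ixπ : ∀ i, ix (π i) = T i := by
    intro i
    rw [hπv, ix_add, ix_a, zero_add]
  have hπ : ∀ i, π (i + 1) = π i + red m h (Wt (π i)) := by
    intro i
    apply ix_inj
    have hval : (ix (π i)).val = rv l i.val := by rw [ixπ, Tval]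
    have hWy : Wt (π i) = y → ix (π i + red m h (Wt (π i))) = T i + lam := by
      intro h1
      rw [h1, ← hyb, hlam, ix_add, ixπ]
    have hWx : Wt (π i) = x → ix (π i + red m h (Wt (π i))) = T i + 1 := by
      intro h1
      rw [h1, ← hxb]
      have : xb = xb * 1 := (mul_one _).symm
      rw [this, ix_add, ixπ]
    have hWnx : Wt (π i) = -x → ix (π i + red m h (Wt (π i))) = T i - 1 := by
      intro h1
      rw [h1, map_neg, ← hxb]
      have : -xb = xb * (-1) := by ring
      rw [this, ix_add, ixπ]; ring
    have hTc : T i = ((rv l i.val : ℕ) : ZMod h) := rfl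
    rw [ixπ]
    by_cases hi : i = -1
    · have hv : i.val = h - 1 := by rw [hi]; exact zval_neg_one h3
      have hr : rv l i.val = h - 1 := by
        unfold rv; split_ifs <;> omega
      have hW' : Wt (π i) = x := by
        show (if (ix (π i)).val = 0 ∨ (ix (π i)).val = 1 then y else
          if (ix (π i)).val ≤ l then -x else x) = x
        rw [hval, hr, if_neg (by omega), if_neg (by omega)]
      rw [hWx hW']
      have e0 : i + 1 = 0 := by rw [hi]; ring
      have e1 : T i = i := by
        apply ZMod.val_injective h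
        rw [Tval, hr, hv]
      rw [e0, e1, e0]
      have : (T 0).val = 0 := by
        rw [Tval, ZMod.val_zero]; rfl
      exact (ZMod.val_eq_zero _).1 this
    · have hsv : (i + 1).val = i.val + 1 := zval_succ h3 hi
      have hlt := (i + 1).val_lt
      rw [hsv] at hlt
      have hTs : T (i + 1) = ((rv l (i.val + 1) : ℕ) : ZMod h) := by
        show ((rv l (i + 1).val : ℕ) : ZMod h) = _
        rw [hsv]
      rcases Nat.eq_zero_or_pos i.val with h0 | hpos
      · have hr : rv l i.val = 0 := by rw [h0]; rfl
        have hW' : Wt (π i) = y := by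
          show (if (ix (π i)).val = 0 ∨ (ix (π i)).val = 1 then y else
            if (ix (π i)).val ≤ l then -x else x) = y
          rw [hval, hr, if_pos (Or.inl rfl)]
        rw [hWy hW', hTs, hTc, hr, h0]
        have : rv l (0 + 1) = l := by
          rw [rv_le (by omega) (by omega)]; omega
        rw [this, hlc, Nat.cast_zero, zero_add]
      · by_cases h1 : i.val < l
        · have hr : rv l i.val = l + 1 - i.val := by
            unfold rv; split_ifs <;> omega
          have hW' : Wt (π i) = -x := by
            show (if (ix (π i)).val = 0 ∨ (ix (π i)).val = 1 then y else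
              if (ix (π i)).val ≤ l then -x else x) = -x
            rw [hval, hr, if_neg (by omega), if_pos (by omega)]
          rw [hWnx hW', hTs, hTc, hr]
          have : rv l (i.val + 1) = l - i.val := by
            rw [rv_le (by omega) (by omega)]; omega
          rw [this]
          have e2 : l + 1 - i.val = (l - i.val) + 1 := by omega
          rw [e2, Nat.cast_add, Nat.cast_one]; ring
        · by_cases h2 : i.val = l
          · have hr : rv l i.val = 1 := by
              unfold rv; split_ifs <;> omega
            have hW' : Wt (π i) = y := by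
              show (if (ix (π i)).val = 0 ∨ (ix (π i)).val = 1 then y else
                if (ix (π i)).val ≤ l then -x else x) = y
              rw [hval, hr, if_pos (Or.inr rfl)]
            rw [hWy hW', hTs, hTc, hr]
            have : rv l (i.val + 1) = l + 1 := by
              unfold rv; split_ifs <;> omega
            rw [this, Nat.cast_add, hlc, Nat.cast_one]; ring
          · have hr : rv l i.val = i.val := by
              unfold rv; split_ifs <;> omega
            have hW' : Wt (π i) = x := by
              show (if (ix (π i)).val = 0 ∨ (ix (π i)).val = 1 then y else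
                if (ix (π i)).val ≤ l then -x else x) = x
              rw [hval, hr, if_neg (by omega), if_neg (by omega)]
            rw [hWx hW', hTs, hTc, hr]
            have : rv l (i.val + 1) = i.val + 1 := by
              unfold rv; split_ifs <;> omega
            rw [this, Nat.cast_add, Nat.cast_one]
  -- values of `ix`
  have ix0 : ∀ v, (ix v).val = 0 → v = a := by
    intro v h1
    apply ix_inj
    rw [ix_a]; exact (ZMod.val_eq_zero _).1 h1
  have ixa : ∀ v, v = a → (ix v).val = 0 := by
    rintro v rfl
    rw [ix_a, ZMod.val_zero]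
  have ix1 : ∀ v, v = a + xb → (ix v).val = 1 := by
    rintro v rfl
    have : a + xb = a + xb * 1 := by ring
    rw [this, ix_add, ix_a, zero_add, ZMod.val_one]
  have ixl : ∀ v, (ix v).val = l → v = a + yb := by
    intro v h1
    apply ix_inj
    rw [hlam, ix_add, ix_a, zero_add]
    apply ZMod.val_injective h
    exact h1
  -- the key: every edge is a step
  have hstep : ∀ v v', ((v' = v + y ∧ (red m h v = a ∨ red m h v = a + xb)) ∨
      (v' = v + x ∧ red m h v ≠ a ∧ red m h v ≠ a + yb)) →
      v' = v + Wt (red m h v) ∨ v = v' + Wt (red m h v') := by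
    rintro v v' (⟨h1, h2⟩ | ⟨h1, h2, h2'⟩)
    · left
      have h4 : (ix (red m h v)).val = 0 ∨ (ix (red m h v)).val = 1 := by
        rcases h2 with h2 | h2
        · exact Or.inl (ixa _ h2)
        · exact Or.inr (ix1 _ h2)
      have h5 : Wt (red m h v) = y := if_pos h4
      rw [h5]; exact h1
    · have k0 : (ix (red m h v)).val ≠ 0 := fun h' => h2 (ix0 _ h')
      have kl : (ix (red m h v)).val ≠ l := fun h' => h2' (ixl _ h')
      by_cases hlt : (ix (red m h v)).val < l
      · right
        have e1 : (ix (red m h v')).val = (ix (red m h v)).val + 1 := by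
          have : red m h v' = red m h v + xb * 1 := by rw [h1, map_add, ← hxb]; ring
          rw [this, ix_add]
          apply zval_succ h3
          intro h'
          rw [h', zval_neg_one h3] at hlt
          omega
        have h5 : Wt (red m h v') = -x := by
          show (if (ix (red m h v')).val = 0 ∨ (ix (red m h v')).val = 1 then y else
            if (ix (red m h v')).val ≤ l then -x else x) = -x
          rw [e1, if_neg (by omega), if_pos (by omega)]
        rw [h5, h1]; ring
      · left
        have h5 : Wt (red m h v) = x := by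
          show (if (ix (red m h v)).val = 0 ∨ (ix (red m h v)).val = 1 then y else
            if (ix (red m h v)).val ≤ l then -x else x) = x
          rw [if_neg (by omega), if_neg (by omega)]
        rw [h5]; exact h1
  have hmono : ∀ v v', (DE (FD (fun i => psi m h (t i)) (fun k => psi m h (d k))
        (fun k => psi m h (u k))) v v' ∨ E v v' ∨ E v' v) →
      (DE (FD (fun i => psi m h (t i)) (fun k => psi m h (d k))
        (fun k => psi m h (u k))) v v' ∨ v' = v + Wt (red m h v) ∨ v = v' + Wt (red m h v')) := by
    rintro v v' (h1 | h1 | h1)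
    · exact Or.inl h1
    · exact Or.inr (hstep _ _ (hE _ _ h1))
    · exact Or.inr ((hstep _ _ (hE _ _ h1)).symm)
  rcases hstep w w' hw with h1 | h1
  · have key := hG.blk hm hh h3 hQ hD Wt π hπ w P A hA hP
    refine (key.mono (fun v _ v' _ => hmono v v')).congr ?_
    rintro (_ | k) b
    · show (bif b then w' else w) = (bif b then w + Wt (red m h w) else w)
      rw [← h1]
    · rfl
  · have key := (hG.blk hm hh h3 hQ hD Wt π hπ w' P A hA hP).swap
      (fun k => k.elim true (fun _ => false))
    refine (key.mono (fun v _ v' _ => hmono v v')).congr ?_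
    rintro (_ | k) b
    · show (bif b then w' else w) = (bif xor true b then w' + Wt (red m h w') else w')
      rw [← h1]
      cases b <;> rfl
    · show fh P A k b = fh P A k (xor false b)
      rw [Bool.false_xor]

end Pool.Agent.P45
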