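import Mathlib

/-! # Definitions for the odd case (labels, zigzag) -/

set_option autoImplicit false

namespace Pool.Agent.P45

/-- The set of differences with label in `L`; label `j` stands for the differences `2j` and
`-2j`. -/
def LSet (k : ℕ) (L : Finset ℕ) : Set (ZMod (4 * k + 1)) :=
  {δ | ∃ j ∈ L, δ = 2 * (j : ZMod (4 * k + 1)) ∨ δ = -(2 * (j : ZMod (4 * k + 1)))}

/-- The alternating sum `a 0 - a 1 + a 2 - ...` with `l` terms. -/
def zz : (ℕ → ℤ) → ℕ → ℤ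
  | _, 0 => 0
  | a, (l + 1) => a 0 - zz (fun i => a (i + 1)) l

@[simp] theorem zz_zero (a : ℕ → ℤ) : zz a 0 = 0 := rfl

theorem zz_succ (a : ℕ → ℤ) (l : ℕ) : zz a (l + 1) = a 0 - zz (fun i => a (i + 1)) l := rfl

/-- The data used from the sequence of boundaries: `J 0 > J 1 > ... > J (m-1)` in `[1, N-1]`,
`J i` and `J i + 1` on opposite sides, alternating. -/
def AltSeq (S T : Finset ℕ) (N m : ℕ) (J : ℕ → ℕ) : Prop :=
  (∀ i < m, 1 ≤ J i ∧ J i < N) ∧ (∀ i, i + 1 < m → J (i + 1) < J i) ∧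
  (∀ i < m, Even i → J i ∈ S ∧ J i + 1 ∈ T) ∧ (∀ i < m, Odd i → J i ∈ T ∧ J i + 1 ∈ S)

end Pool.Agent.P45
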