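import Pool.Agent.Lib.P45dba8.Even

/-! # Elementary facts on `DSet` (MODULE P45dba8.ODset, 0.7 h)

`DSet k S = {δ | min δ.val (-δ).val ∈ S}` (Even.lean; `mem_DSet` is there). With `n = 4k+1`:
* symmetric: `min_comm`, `neg_neg`;
* `0 ∉ DSet k S` if `S ⊆ [1, 2k]`: `min 0 0 = 0`;
* a nonzero `δ` has `(-δ).val = n - δ.val` (`ZMod.neg_val` / `ZMod.val_neg_of_ne_zero`,
  `val_neg'` in Color.lean), so `min δ.val (n - δ.val) ∈ [1, 2k]`: it lies in exactly one of
  `DSet k S`, `DSet k (Icc 1 (2k) \ S)`;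
* `card (DSet k S) = 2 * card S`: `DSet k S` is the disjoint union of the images of `S` under the
  injective maps `s ↦ (s : ZMod n)` and `s ↦ -(s : ZMod n)` (`cast_ne`, `cast_add_ne` in Even.lean,
  `mem_DSet` gives one inclusion). -/

set_option autoImplicit false

namespace Pool.Agent.P45

namespace ODsetAux

theorem val_neg (k : ℕ) {x : ZMod (4 * k + 1)} (hx : x ≠ 0) : (-x).val = 4 * k + 1 - x.val := by
  haveI : NeZero x := ⟨hx⟩
  exact ZMod.val_neg_of_ne_zero x

theorem val_pos (k : ℕ) {x : ZMod (4 * k + 1)} (hx : x ≠ 0) : 0 < x.val := by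
  rw [Nat.pos_iff_ne_zero]
  intro h
  exact hx ((ZMod.val_eq_zero x).1 h)

theorem min_mem (k : ℕ) {x : ZMod (4 * k + 1)} (hx : x ≠ 0) : min x.val (-x).val ∈ Finset.Icc 1 (2 * k) := by
  have h1 := val_pos k hx
  have h2 := ZMod.val_lt x
  rw [val_neg k hx, Finset.mem_Icc]
  omega

theorem cast_mem (k : ℕ) {S : Finset ℕ} (hS : S ⊆ Finset.Icc 1 (2 * k)) {s : ℕ} (hs : s ∈ S) :
    (s : ZMod (4 * k + 1)) ∈ DSet k S := by
  have h0 := cast_ne_zero' (hS hs)
  have h1 := Finset.mem_Icc.1 (hS hs)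
  have h2 : (s : ZMod (4 * k + 1)).val = s := ZMod.val_natCast_of_lt (by omega)
  show min (s : ZMod (4 * k + 1)).val (-(s : ZMod (4 * k + 1))).val ∈ S
  rw [val_neg k h0, h2, min_eq_left (by omega)]
  exact hs

end ODsetAux

theorem dset_neg (k : ℕ) (S : Finset ℕ) (x : ZMod (4 * k + 1)) (hx : x ∈ DSet k S) :
    -x ∈ DSet k S := by
  show min (-x).val (- -x).val ∈ S
  rw [neg_neg, min_comm]
  exact hx

theorem dset_zero (k : ℕ) (S : Finset ℕ) (hS : S ⊆ Finset.Icc 1 (2 * k)) :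
    (0 : ZMod (4 * k + 1)) ∉ DSet k S := by
  intro h
  have h1 : min (0 : ZMod (4 * k + 1)).val (-(0 : ZMod (4 * k + 1))).val ∈ S := h
  rw [neg_zero, min_self, ZMod.val_zero] at h1
  have h2 := Finset.mem_Icc.1 (hS h1)
  omega

theorem dset_compl (k : ℕ) (S : Finset ℕ) (hS : S ⊆ Finset.Icc 1 (2 * k))
    (x : ZMod (4 * k + 1)) (hx : x ≠ 0) :
    x ∈ DSet k (Finset.Icc 1 (2 * k) \ S) ↔ x ∉ DSet k S := by
  have h1 := ODsetAux.min_mem k hx
  show min x.val (-x).val ∈ Finset.Icc 1 (2 * k) \ S ↔ ¬ min x.val (-x).val ∈ S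
  rw [Finset.mem_sdiff]
  exact and_iff_right h1

open Classical in
theorem dset_card (k : ℕ) (S : Finset ℕ) (hS : S ⊆ Finset.Icc 1 (2 * k)) :
    ((Finset.univ : Finset (ZMod (4 * k + 1))).filter (fun x => x ∈ DSet k S)).card
      = 2 * S.card := by
  have h1 : (Finset.univ : Finset (ZMod (4 * k + 1))).filter (fun x => x ∈ DSet k S) =
      S.image (fun s : ℕ => (s : ZMod (4 * k + 1))) ∪ S.image (fun s : ℕ => -(s : ZMod (4 * k + 1))) := by
    ext x
    rw [Finset.mem_filter, Finset.mem_union, Finset.mem_image, Finset.mem_image]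
    constructor
    · rintro ⟨-, hx⟩
      have hm : min x.val (-x).val ∈ S := hx
      have h2 : ((x.val : ℕ) : ZMod (4 * k + 1)) = x := ZMod.natCast_zmod_val x
      have h3 : (((-x).val : ℕ) : ZMod (4 * k + 1)) = -x := ZMod.natCast_zmod_val (-x)
      rcases le_total x.val (-x).val with h4 | h4
      · rw [min_eq_left h4] at hm
        exact Or.inl ⟨_, hm, h2⟩
      · rw [min_eq_right h4] at hm
        exact Or.inr ⟨_, hm, by rw [h3, neg_neg]⟩
    · rintro (⟨s, hs, rfl⟩ | ⟨s, hs, rfl⟩)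
      · exact ⟨Finset.mem_univ _, ODsetAux.cast_mem k hS hs⟩
      · exact ⟨Finset.mem_univ _, dset_neg k S _ (ODsetAux.cast_mem k hS hs)⟩
  have hinj : Set.InjOn (fun s : ℕ => (s : ZMod (4 * k + 1))) S := by
    intro s hs s' hs' h
    by_contra hne
    exact cast_ne (hS hs) (hS hs') hne h
  rw [h1, Finset.card_union_of_disjoint, Finset.card_image_of_injOn hinj, Finset.card_image_of_injOn]
  · ring
  · intro s hs s' hs' h
    exact hinj hs hs' (neg_injective h)
  · rw [Finset.disjoint_left]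
    intro x hx hx'
    rw [Finset.mem_image] at hx hx'
    obtain ⟨s, hs, rfl⟩ := hx
    obtain ⟨s', hs', h⟩ := hx'
    apply cast_add_ne (hS hs) (hS hs')
    rw [← h]
    ring

end Pool.Agent.P45
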