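import Mathlib

/-! # Colour systems (relational form)

`TS K E e`: the edges `E` inside `K` except the holes `{e k false, e k true}` are covered by
matchings `M k b`, where `M k b` does not touch the vertex `e k b`. -/

set_option autoImplicit false

namespace Pool.Agent.P45

/-- Colour system on `K` for the edge relation `E` with the holes `e`. -/
def TS {V Θ : Type*} (K : Set V) (E : V → V → Prop) (e : Θ → Bool → V) : Prop :=
  ∃ M : Θ → Bool → V → V → Prop,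
    (∀ k b u v, M k b u v → M k b v u) ∧
    (∀ k b u v, M k b u v → u ∈ K ∧ v ∈ K) ∧
    (∀ k b u v v', M k b u v → M k b u v' → v = v') ∧
    (∀ k b v, ¬ M k b (e k b) v) ∧
    (∀ u ∈ K, ∀ v ∈ K, E u v →
      (∃ k, (u = e k false ∧ v = e k true) ∨ (u = e k true ∧ v = e k false)) ∨
        ∃ k b, M k b u v)

theorem TS.mono {V Θ : Type*} {K : Set V} {E E' : V → V → Prop} {e : Θ → Bool → V}
    (h : TS K E e) (hE : ∀ u ∈ K, ∀ v ∈ K, E' u v → E u v) : TS K E' e := by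
  obtain ⟨M, h1, h2, h3, h4, h5⟩ := h
  exact ⟨M, h1, h2, h3, h4, fun u hu v hv huv => h5 u hu v hv (hE u hu v hv huv)⟩

theorem TS.congr {V Θ : Type*} {K : Set V} {E : V → V → Prop} {e e' : Θ → Bool → V}
    (h : TS K E e) (he : ∀ k b, e' k b = e k b) : TS K E e' := by
  have : e' = e := by funext k b; exact he k b
  rw [this]; exact h

/-- Union of two systems. -/
theorem TS.union {V Θ Θ' : Type*} {K : Set V} {E E' : V → V → Prop} {e : Θ → Bool → V}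
    {e' : Θ' → Bool → V} (h : TS K E e) (h' : TS K E' e') :
    TS K (fun u v => E u v ∨ E' u v) (Sum.elim e e') := by
  obtain ⟨M, h1, h2, h3, h4, h5⟩ := h
  obtain ⟨M', g1, g2, g3, g4, g5⟩ := h'
  refine ⟨Sum.elim M M', ?_, ?_, ?_, ?_, ?_⟩
  · rintro (k | k) b u v hm
    · exact h1 k b u v hm
    · exact g1 k b u v hm
  · rintro (k | k) b u v hm
    · exact h2 k b u v hm
    · exact g2 k b u v hm
  · rintro (k | k) b u v v' hm hm'
    · exact h3 k b u v v' hm hm'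
    · exact g3 k b u v v' hm hm'
  · rintro (k | k) b v hm
    · exact h4 k b v hm
    · exact g4 k b v hm
  · rintro u hu v hv (huv | huv)
    · rcases h5 u hu v hv huv with ⟨k, hk⟩ | ⟨k, b, hk⟩
      · exact Or.inl ⟨Sum.inl k, hk⟩
      · exact Or.inr ⟨Sum.inl k, b, hk⟩
    · rcases g5 u hu v hv huv with ⟨k, hk⟩ | ⟨k, b, hk⟩
      · exact Or.inl ⟨Sum.inr k, hk⟩
      · exact Or.inr ⟨Sum.inr k, b, hk⟩

/-- Union of a family of systems. -/
theorem TS.sigma {V ι : Type*} {Θ : ι → Type*} {K : Set V} {E : ι → V → V → Prop}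
    {e : (i : ι) → Θ i → Bool → V} (h : ∀ i, TS K (E i) (e i)) :
    TS K (fun u v => ∃ i, E i u v) (fun (k : Σ i, Θ i) b => e k.1 k.2 b) := by
  choose M h1 h2 h3 h4 h5 using h
  refine ⟨fun k b => M k.1 k.2 b, ?_, ?_, ?_, ?_, ?_⟩
  · rintro ⟨i, k⟩ b u v hm
    exact h1 i k b u v hm
  · rintro ⟨i, k⟩ b u v hm
    exact h2 i k b u v hm
  · rintro ⟨i, k⟩ b u v v' hm hm'
    exact h3 i k b u v v' hm hm'
  · rintro ⟨i, k⟩ b v hm
    exact h4 i k b v hm
  · rintro u hu v hv ⟨i, huv⟩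
    rcases h5 i u hu v hv huv with ⟨k, hk⟩ | ⟨k, b, hk⟩
    · exact Or.inl ⟨⟨i, k⟩, hk⟩
    · exact Or.inr ⟨⟨i, k⟩, b, hk⟩

/-- Renaming of the holes. -/
theorem TS.reindex {V Θ Θ' : Type*} {K : Set V} {E : V → V → Prop} {e : Θ → Bool → V}
    (h : TS K E e) (σ : Θ' ≃ Θ) : TS K E (fun k b => e (σ k) b) := by
  obtain ⟨M, h1, h2, h3, h4, h5⟩ := h
  refine ⟨fun k b => M (σ k) b, fun k => h1 _, fun k => h2 _, fun k => h3 _, fun k => h4 _, ?_⟩
  intro u hu v hv huv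
  rcases h5 u hu v hv huv with ⟨k, hk⟩ | ⟨k, b, hk⟩
  · exact Or.inl ⟨σ.symm k, by simpa using hk⟩
  · exact Or.inr ⟨σ.symm k, b, by simpa using hk⟩

/-- Swapping the two ends of some of the holes. -/
theorem TS.swap {V Θ : Type*} {K : Set V} {E : V → V → Prop} {e : Θ → Bool → V}
    (h : TS K E e) (σ : Θ → Bool) : TS K E (fun k b => e k (xor (σ k) b)) := by
  obtain ⟨M, h1, h2, h3, h4, h5⟩ := h
  refine ⟨fun k b => M k (xor (σ k) b), fun k b => h1 _ _, fun k b => h2 _ _,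
    fun k b => h3 _ _, fun k b => h4 _ _, ?_⟩
  intro u hu v hv huv
  rcases h5 u hu v hv huv with ⟨k, hk⟩ | ⟨k, b, hk⟩
  · refine Or.inl ⟨k, ?_⟩
    show (u = e k (xor (σ k) false) ∧ v = e k (xor (σ k) true)) ∨
      (u = e k (xor (σ k) true) ∧ v = e k (xor (σ k) false))
    cases σ k
    · exact hk
    · exact hk.symm
  · refine Or.inr ⟨k, xor (σ k) b, ?_⟩
    show M k (xor (σ k) (xor (σ k) b)) u v
    rw [← Bool.xor_assoc, Bool.xor_self, Bool.false_xor]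
    exact hk

/-- Transport along an injective map. -/
theorem TS.map {V W Θ : Type*} {K : Set V} {E : V → V → Prop} {e : Θ → Bool → V}
    (h : TS K E e) (φ : V → W) (hφ : Function.Injective φ) (L : Set W) (E' : W → W → Prop)
    (hL : ∀ x, x ∈ L ↔ ∃ v ∈ K, φ v = x)
    (hE : ∀ u ∈ K, ∀ v ∈ K, E' (φ u) (φ v) → E u v) :
    TS L E' (fun k b => φ (e k b)) := by
  obtain ⟨M, h1, h2, h3, h4, h5⟩ := h
  refine ⟨fun k b x y => ∃ u v, M k b u v ∧ φ u = x ∧ φ v = y, ?_, ?_, ?_, ?_, ?_⟩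
  · rintro k b x y ⟨u, v, hm, hu, hv⟩
    exact ⟨v, u, h1 _ _ _ _ hm, hv, hu⟩
  · rintro k b x y ⟨u, v, hm, hu, hv⟩
    obtain ⟨a, a'⟩ := h2 _ _ _ _ hm
    exact ⟨(hL x).2 ⟨u, a, hu⟩, (hL y).2 ⟨v, a', hv⟩⟩
  · rintro k b x y y' ⟨u, v, hm, hu, hv⟩ ⟨u', v', hm', hu', hv'⟩
    have : u = u' := hφ (hu.trans hu'.symm)
    subst this
    rw [← hv, ← hv', h3 _ _ _ _ _ hm hm']
  · rintro k b y ⟨u, v, hm, hu, hv⟩
    have : u = e k b := hφ hu
    rw [this] at hm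
    exact h4 _ _ _ hm
  · intro x hx y hy hxy
    obtain ⟨u, hu, rfl⟩ := (hL x).1 hx
    obtain ⟨v, hv, rfl⟩ := (hL y).1 hy
    rcases h5 u hu v hv (hE u hu v hv hxy) with ⟨k, hk⟩ | ⟨k, b, hk⟩
    · refine Or.inl ⟨k, ?_⟩
      rcases hk with ⟨a, a'⟩ | ⟨a, a'⟩
      · exact Or.inl ⟨congrArg φ a, congrArg φ a'⟩
      · exact Or.inr ⟨congrArg φ a, congrArg φ a'⟩
    · exact Or.inr ⟨k, b, u, v, hk, rfl, rfl⟩

end Pool.Agent.P45
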