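import Pool.Agent.Lib.P45dba8.OBound
import Pool.Agent.Lib.P45dba8.ODefs
import Pool.Agent.Lib.P45dba8.ODset
import Pool.Agent.Lib.P45dba8.TS

/-! # From colour systems for labels to the colouring of the extended Petersen graph

* `EG_of_TS`: a colour system (`TS`) on all vertices gives the layers of near perfect matchings
  (`EG`); the number of the vertices is odd.
* `LG.scale`, `EG.scale`: multiplication by a unit.
* `LW k S v`: the labels `j` with `2 j v` in `DSet k S`; `LW_card`, `LW_compl`, `EG_of_LW`.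
* `frozen_of_labels`, `frozen_of_TS`: the reduction of the problem to the existence of colour systems
  for the labels `LW k S v` and `LW k (Icc 1 (2k) \ S) v` with the same set of hole vertices. -/

set_option autoImplicit false

namespace Pool.Agent.P45

/-- A fixed point free involution on a set with an even number of elements. -/
theorem exists_pairing {V : Type*} (U : Finset V) (h : Even U.card) :
    ∃ σ : V → V, ∀ v ∈ U, σ v ∈ U ∧ σ (σ v) = v ∧ σ v ≠ v := by
  classical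
  obtain ⟨m, hm⟩ := h
  have f : U ≃ Fin m ⊕ Fin m := Fintype.equivOfCardEq (by simp [hm])
  refine ⟨fun v => if h : v ∈ U then ((f.symm (f ⟨v, h⟩).swap : U) : V) else v, ?_⟩
  intro v hv
  have h1 : ((f.symm (f ⟨v, hv⟩).swap : U) : V) ∈ U := (f.symm (f ⟨v, hv⟩).swap).2
  simp only [hv, dif_pos]
  refine ⟨h1, ?_, ?_⟩
  · rw [dif_pos h1]
    simp
  · intro h2
    have h3 : f.symm (f ⟨v, hv⟩).swap = ⟨v, hv⟩ := Subtype.ext h2
    rw [Equiv.symm_apply_eq] at h3
    revert h3
    generalize f ⟨v, hv⟩ = y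
    rcases y with x | x <;> simp

/-- A matching on an odd number of vertices which does not touch `a` extends to a matching which
misses exactly `a`. -/
theorem exists_extend {V : Type*} [Fintype V] (hV : Odd (Fintype.card V)) (M : V → V → Prop)
    (hs : ∀ u v, M u v → M v u) (hf : ∀ u v v', M u v → M u v' → v = v') (a : V)
    (ha : ∀ v, ¬ M a v) :
    ∃ N : V → V, Function.Involutive N ∧ (∀ v, N v = v ↔ v = a) ∧
      ∀ u v, u ≠ v → M u v → N u = v := by
  classical
  let P : V → Prop := fun u => ∃ v, u ≠ v ∧ M u v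
  let g : V → V := fun u => if h : P u then h.choose else u
  have hg : ∀ u v, u ≠ v → M u v → g u = v := by
    intro u v huv hm
    have hp : P u := ⟨v, huv, hm⟩
    have h1 : g u = hp.choose := dif_pos hp
    rw [h1]
    exact hf _ _ _ hp.choose_spec.2 hm
  have hg2 : ∀ u, P u → P (g u) ∧ g (g u) = u ∧ g u ≠ u := by
    rintro u ⟨v, huv, hm⟩
    have h1 := hg u v huv hm
    rw [h1]
    exact ⟨⟨u, huv.symm, hs _ _ hm⟩, hg v u huv.symm (hs _ _ hm), huv.symm⟩
  set W : Finset V := Finset.univ.filter P with hW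
  have memW : ∀ u, u ∈ W ↔ P u := fun u => by simp [hW]
  have hWe : Even W.card := by
    have h1 : ∑ _x ∈ W, (1 : ZMod 2) = 0 := by
      refine Finset.sum_involution (fun u _ => g u) (fun _ _ => by decide) ?_ ?_ ?_
      · intro u hu _
        exact (hg2 u ((memW u).1 hu)).2.2
      · intro u hu
        exact (memW _).2 (hg2 u ((memW u).1 hu)).1
      · intro u hu
        exact (hg2 u ((memW u).1 hu)).2.1
    rw [Finset.sum_const, nsmul_eq_mul, mul_one, ZMod.natCast_eq_zero_iff] at h1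
    exact even_iff_two_dvd.2 h1
  have haW : a ∉ W := by
    rw [memW]
    rintro ⟨v, -, hv⟩
    exact ha v hv
  set U : Finset V := Finset.univ \ insert a W with hU
  have memU : ∀ u, u ∈ U ↔ u ≠ a ∧ u ∉ W := by
    intro u
    simp [hU, not_or]
  have hUe : Even U.card := by
    have h1 : U.card + (W.card + 1) = Fintype.card V := by
      rw [hU, ← Finset.card_insert_of_notMem haW, Finset.card_sdiff_add_card, Finset.union_eq_left.2
        (Finset.subset_univ _), Finset.card_univ]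
    rw [← h1] at hV
    rcases hWe with ⟨x, hx⟩
    rcases hV with ⟨y, hy⟩
    exact ⟨y - x, by omega⟩
  obtain ⟨σ, hσ⟩ := exists_pairing U hUe
  refine ⟨fun u => if u ∈ W then g u else if u ∈ U then σ u else u, ?_, ?_, ?_⟩
  · intro u
    by_cases h1 : u ∈ W
    · have h2 := hg2 u ((memW u).1 h1)
      have h3 : g u ∈ W := (memW _).2 h2.1
      simp only [h1, if_true, h3]
      exact h2.2.1
    · by_cases h2 : u ∈ U
      · obtain ⟨h3, h4, -⟩ := hσ u h2
        have h5 : σ u ∉ W := ((memU _).1 h3).2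
        simp only [h1, if_false, h2, if_true, h5, h3]
        exact h4
      · simp only [h1, if_false, h2]
  · intro v
    by_cases h1 : v ∈ W
    · simp only [h1, if_true]
      constructor
      · intro h
        exact absurd h (hg2 v ((memW v).1 h1)).2.2
      · rintro rfl
        exact absurd h1 haW
    · by_cases h2 : v ∈ U
      · simp only [h1, if_false, h2, if_true]
        constructor
        · intro h
          exact absurd h (hσ v h2).2.2
        · rintro rfl
          exact absurd rfl ((memU _).1 h2).1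
      · simp only [h1, if_false, h2, true_iff]
        by_contra h3
        exact h2 ((memU v).2 ⟨h3, h1⟩)
  · intro u v huv hm
    have h1 : u ∈ W := (memW u).2 ⟨v, huv, hm⟩
    simp only [h1, if_true]
    exact hg u v huv hm

/-- From colour systems to layers. -/
theorem EG_of_TS {V Θ : Type*} [AddGroup V] [Fintype V] (hV : Odd (Fintype.card V)) (D : Set V)
    (hD0 : (0 : V) ∉ D) (A : Finset V) (e : Θ → Bool → V)
    (hinj : ∀ k b k' b', e k b = e k' b' → k = k' ∧ b = b') (hA : ∀ v, v ∈ A ↔ ∃ k b, e k b = v)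
    (h : TS Set.univ (fun u v => v - u ∈ D) e) : EG D A := by
  classical
  obtain ⟨M, h1, -, h3, h4, h5⟩ := h
  choose N hN1 hN2 hN3 using fun k b => exists_extend hV (M k b) (h1 k b) (h3 k b) (e k b) (h4 k b)
  let Q : V → Prop := fun v => ∃ p : Θ × Bool, e p.1 p.2 = v
  have hQA : ∀ v, v ∈ A ↔ Q v := fun v => by
    rw [hA]
    exact ⟨fun ⟨k, b, h⟩ => ⟨(k, b), h⟩, fun ⟨p, h⟩ => ⟨p.1, p.2, h⟩⟩
  let m : V → V := fun v => if h : Q v then e h.choose.1 (!h.choose.2) else v
  have hm : ∀ k b, m (e k b) = e k (!b) := by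
    intro k b
    have hq : Q (e k b) := ⟨(k, b), rfl⟩
    have h6 : m (e k b) = e hq.choose.1 (!hq.choose.2) := dif_pos hq
    obtain ⟨h7, h8⟩ := hinj _ _ _ _ hq.choose_spec
    rw [h6, h7, h8]
  let NN : V → V → V := fun a => if h : Q a then N h.choose.1 h.choose.2 else id
  have hNN : ∀ k b, NN (e k b) = N k b := by
    intro k b
    have hq : Q (e k b) := ⟨(k, b), rfl⟩
    have h6 : NN (e k b) = N hq.choose.1 hq.choose.2 := dif_pos hq
    obtain ⟨h7, h8⟩ := hinj _ _ _ _ hq.choose_spec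
    rw [h6, h7, h8]
  refine ⟨m, ?_, NN, ?_, ?_⟩
  · intro v hv
    obtain ⟨k, b, rfl⟩ := (hA v).1 hv
    rw [hm]
    refine ⟨(hA _).2 ⟨k, !b, rfl⟩, by rw [hm, Bool.not_not], ?_⟩
    intro h6
    have h7 := (hinj _ _ _ _ h6).2
    cases b <;> simp at h7
  · intro a ha
    obtain ⟨k, b, rfl⟩ := (hA a).1 ha
    rw [hNN]
    exact ⟨hN1 k b, hN2 k b⟩
  · intro u v huv
    have hne : u ≠ v := by
      rintro rfl
      rw [sub_self] at huv
      exact hD0 huv
    rcases h5 u trivial v trivial huv with ⟨k, ⟨rfl, rfl⟩ | ⟨rfl, rfl⟩⟩ | ⟨k, b, hk⟩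
    · exact Or.inl ⟨(hA _).2 ⟨k, false, rfl⟩, hm k false⟩
    · exact Or.inl ⟨(hA _).2 ⟨k, true, rfl⟩, hm k true⟩
    · refine Or.inr ⟨e k b, (hA _).2 ⟨k, b, rfl⟩, ?_⟩
      rw [hNN]
      exact hN3 k b u v hne hk

/-- The number of the hole vertices. -/
theorem card_holes {V Θ : Type*} [Fintype Θ] (A : Finset V) (e : Θ → Bool → V)
    (hinj : ∀ k b k' b', e k b = e k' b' → k = k' ∧ b = b') (hA : ∀ v, v ∈ A ↔ ∃ k b, e k b = v) :
    A.card = 2 * Fintype.card Θ := by
  classical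
  have h1 : A = (Finset.univ : Finset (Θ × Bool)).image fun p => e p.1 p.2 := by
    ext v
    rw [hA, Finset.mem_image]
    constructor
    · rintro ⟨k, b, h⟩
      exact ⟨(k, b), Finset.mem_univ _, h⟩
    · rintro ⟨p, -, h⟩
      exact ⟨p.1, p.2, h⟩
  rw [h1, Finset.card_image_of_injective, Finset.card_univ, Fintype.card_prod, Fintype.card_bool,
    mul_comm]
  rintro ⟨k, b⟩ ⟨k', b'⟩ h
  obtain ⟨h2, h3⟩ := hinj _ _ _ _ h
  exact Prod.ext h2 h3

/-- Multiplication by a unit. -/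
theorem LG.scale {R : Type*} [CommRing R] [DecidableEq R] {D : Set R} {A : Finset R} {m : R → R}
    (h : LG D A m) (c c' : R) (hc : c * c' = 1) :
    LG {d | c' * d ∈ D} (A.image fun v => c * v) (fun v => c * m (c' * v)) := by
  obtain ⟨a, N, b, e⟩ := h
  have k1 : ∀ v, c' * (c * v) = v := by
    intro v
    rw [← mul_assoc, mul_comm c' c, hc, one_mul]
  have k2 : ∀ v, c * (c' * v) = v := by
    intro v
    rw [← mul_assoc, hc, one_mul]
  have k3 : ∀ v w, c * v = w ↔ v = c' * w := by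
    intro v w
    constructor
    · rintro rfl; rw [k1]
    · rintro rfl; rw [k2]
  refine ⟨?_, fun a v => c * N (c' * a) (c' * v), ?_, ?_⟩
  · intro v hv
    rw [Finset.mem_image] at hv
    obtain ⟨w, hw, rfl⟩ := hv
    obtain ⟨p, q, r⟩ := a w hw
    simp only [k1]
    refine ⟨Finset.mem_image_of_mem _ p, by rw [q], ?_⟩
    intro h
    exact r (by have := (k3 _ _).mp h; rw [k1] at this; exact this)
  · intro v hv
    rw [Finset.mem_image] at hv
    obtain ⟨w, hw, rfl⟩ := hv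
    obtain ⟨p, q⟩ := b w hw
    constructor
    · intro u
      simp only [k1]
      rw [p, k2]
    · intro u
      simp only [k1]
      rw [k3, q]
      constructor
      · intro h; rw [← h, k2]
      · rintro rfl; rw [k1]
  · intro u v huv
    have h1 : c' * v - c' * u ∈ D := by
      rw [← mul_sub]; exact huv
    rcases e _ _ h1 with ⟨p, q⟩ | ⟨w, hw, hN⟩
    · left
      refine ⟨Finset.mem_image.mpr ⟨_, p, k2 u⟩, ?_⟩
      simp only
      rw [q, k2]
    · right
      refine ⟨c * w, Finset.mem_image_of_mem _ hw, ?_⟩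
      simp only [k1]
      rw [hN, k2]

theorem EG.scale {R : Type*} [CommRing R] [DecidableEq R] (c c' : R) (hc : c * c' = 1) {D : Set R}
    {A : Finset R} (h : EG D A) : EG {d | c' * d ∈ D} (A.image fun v => c * v) := by
  obtain ⟨m, h⟩ := h
  exact ⟨_, h.scale c c' hc⟩

section words

variable {k : ℕ}

open Classical in
/-- The labels `j ∈ [1, 2k]` with `2 j v ∈ DSet k S`. -/
noncomputable def LW (k : ℕ) (S : Finset ℕ) (v : ZMod (4 * k + 1)) : Finset ℕ :=
  (Finset.Icc 1 (2 * k)).filter (fun j : ℕ => v * (2 * (j : ZMod (4 * k + 1))) ∈ DSet k S)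

theorem mem_LW {S : Finset ℕ} {v : ZMod (4 * k + 1)} {j : ℕ} :
    j ∈ LW k S v ↔ (1 ≤ j ∧ j ≤ 2 * k) ∧ v * (2 * (j : ZMod (4 * k + 1))) ∈ DSet k S := by
  classical
  rw [LW, Finset.mem_filter, Finset.mem_Icc]

theorem LW_subset (S : Finset ℕ) (v : ZMod (4 * k + 1)) : LW k S v ⊆ Finset.Icc 1 (2 * k) := by
  intro j hj
  rw [Finset.mem_Icc]
  exact (mem_LW.1 hj).1

theorem LW_card (hk : 1 ≤ k) (S : Finset ℕ) (hS : S ⊆ Finset.Icc 1 (2 * k))
    (v : ZMod (4 * k + 1)) (hv : IsUnit v) : (LW k S v).card = S.card := by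
  classical
  have h1 := label_card k hk (Finset.univ.filter (fun x => x ∈ DSet k S))
    (fun x hx => by
      rw [Finset.mem_filter] at hx ⊢
      exact ⟨Finset.mem_univ _, dset_neg k S x hx.2⟩)
    (fun h => dset_zero k S hS (Finset.mem_filter.1 h).2) v hv S.card
    (by convert dset_card k S hS using 3)
  rw [← h1]
  congr 1
  ext j
  rw [mem_LW, Finset.mem_filter, Finset.mem_Icc, Finset.mem_filter]
  simp only [Finset.mem_univ, true_and]

/-- `2` has an inverse modulo `4k+1`. -/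
theorem two_inv (k : ℕ) : (2 : ZMod (4 * k + 1)) * (2 * k + 1) = 1 := by
  have h1 : ((4 * k + 1 : ℕ) : ZMod (4 * k + 1)) = 0 := ZMod.natCast_self _
  push_cast at h1
  linear_combination h1

theorem label_ne_zero (v : ZMod (4 * k + 1)) (hv : IsUnit v) {j : ℕ} (h1 : 1 ≤ j)
    (h2 : j ≤ 2 * k) : v * (2 * (j : ZMod (4 * k + 1))) ≠ 0 := by
  intro h
  rw [hv.mul_right_eq_zero] at h
  have h3 : IsUnit (2 : ZMod (4 * k + 1)) := IsUnit.of_mul_eq_one _ (two_inv k)
  rw [h3.mul_right_eq_zero] at h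
  exact cast_ne_zero' (Finset.mem_Icc.2 ⟨h1, h2⟩) h

theorem LW_compl (S : Finset ℕ) (hS : S ⊆ Finset.Icc 1 (2 * k)) (v : ZMod (4 * k + 1))
    (hv : IsUnit v) : LW k (Finset.Icc 1 (2 * k) \ S) v = Finset.Icc 1 (2 * k) \ LW k S v := by
  ext j
  rw [mem_LW, Finset.mem_sdiff, mem_LW, Finset.mem_Icc]
  constructor
  · rintro ⟨h1, h2⟩
    refine ⟨h1, fun h3 => ?_⟩
    exact (dset_compl k S hS _ (label_ne_zero v hv h1.1 h1.2)).1 h2 h3.2
  · rintro ⟨h1, h2⟩
    refine ⟨h1, (dset_compl k S hS _ (label_ne_zero v hv h1.1 h1.2)).2 fun h3 => h2 ⟨h1, h3⟩⟩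

/-- Every nonzero element is plus or minus twice a label. -/
theorem exists_label {x : ZMod (4 * k + 1)} (hx : x ≠ 0) : ∃ j : ℕ, (1 ≤ j ∧ j ≤ 2 * k) ∧
    (x = 2 * (j : ZMod (4 * k + 1)) ∨ x = -(2 * (j : ZMod (4 * k + 1)))) := by
  set y : ZMod (4 * k + 1) := (2 * k + 1) * x with hy
  have h2 := two_inv k
  have hxy : x = 2 * y := by
    rw [hy, ← mul_assoc, h2, one_mul]
  have hy0 : y ≠ 0 := by
    intro h
    rw [hxy, h, mul_zero] at hx
    exact hx rfl
  have hyl := y.val_lt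
  have hyp := val_pos' hy0
  by_cases h : y.val ≤ 2 * k
  · refine ⟨y.val, ⟨hyp, h⟩, Or.inl ?_⟩
    rw [ZMod.natCast_zmod_val]; exact hxy
  · refine ⟨(-y).val, ⟨?_, ?_⟩, Or.inr ?_⟩
    · rw [val_neg' hy0]; omega
    · rw [val_neg' hy0]; omega
    · rw [ZMod.natCast_zmod_val, hxy]; ring

theorem zero_notMem_LSet {L : Finset ℕ} (hL : L ⊆ Finset.Icc 1 (2 * k)) :
    (0 : ZMod (4 * k + 1)) ∉ LSet k L := by
  rintro ⟨j, hj, h⟩
  have h1 := Finset.mem_Icc.1 (hL hj)
  have h2 := label_ne_zero (1 : ZMod (4 * k + 1)) isUnit_one h1.1 h1.2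
  rw [one_mul] at h2
  rcases h with h | h
  · exact h2 h.symm
  · exact h2 (neg_eq_zero.1 h.symm)

/-- From labels to differences. -/
theorem EG_of_LW (S : Finset ℕ) (hS : S ⊆ Finset.Icc 1 (2 * k)) (v v' : ZMod (4 * k + 1))
    (hv : v * v' = 1) {A : Finset (ZMod (4 * k + 1))} (h : EG (LSet k (LW k S v)) A) :
    EG (DSet k S) (A.image fun t => v * t) := by
  refine (h.scale v v' hv).congr ?_ (fun _ => Iff.rfl)
  intro d hd
  have hd0 : d ≠ 0 := fun h => dset_zero k S hS (h ▸ hd)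
  have hvd : ∀ y : ZMod (4 * k + 1), v' * d = y → d = v * y := by
    intro y h
    rw [← h, ← mul_assoc, hv, one_mul]
  have h0 : v' * d ≠ 0 := by
    intro h
    exact hd0 (by rw [hvd 0 h, mul_zero])
  obtain ⟨j, hj, h⟩ := exists_label h0
  refine ⟨j, mem_LW.2 ⟨hj, ?_⟩, h⟩
  rcases h with h | h
  · rw [← hvd _ h]; exact hd
  · have h' := hvd _ h
    have h3 : v * (2 * (j : ZMod (4 * k + 1))) = -d := by rw [h']; ring
    rw [h3]; exact dset_neg k S d hd

theorem card_image_unit (v v' : ZMod (4 * k + 1)) (hv : v * v' = 1)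
    (A : Finset (ZMod (4 * k + 1))) : (A.image fun t => v * t).card = A.card := by
  refine Finset.card_image_of_injective _ fun a b hab => ?_
  have h1 : v' * (v * a) = v' * (v * b) := congrArg (v' * ·) hab
  rwa [← mul_assoc, ← mul_assoc, mul_comm v' v, hv, one_mul, one_mul] at h1

/-- The reduction to layers for labels. -/
theorem frozen_of_labels (k : ℕ) (S : Finset ℕ) (hS : S ⊆ Finset.Icc 1 (2 * k))
    (h : ∃ (v v' : ZMod (4 * k + 1)) (A : Finset (ZMod (4 * k + 1))), v * v' = 1 ∧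
      A.card = 2 * k ∧ EG (LSet k (LW k S v)) A ∧
      EG (LSet k (LW k (Finset.Icc 1 (2 * k) \ S) v)) A)
    (G : SimpleGraph (ZMod (4 * k + 1) × Fin 2))
    (hG : ∀ p q : ZMod (4 * k + 1) × Fin 2, G.Adj p q ↔
      ((p.2 = 0 ∧ q.2 = 0 ∧ min (p.1 - q.1).val (q.1 - p.1).val ∈ S) ∨
       (p.2 = 1 ∧ q.2 = 1 ∧
          min (p.1 - q.1).val (q.1 - p.1).val ∈ Finset.Icc 1 (2 * k) \ S) ∨
       (p.1 = q.1 ∧ p.2 ≠ q.2))) :
    ∃ c : Sym2 (ZMod (4 * k + 1) × Fin 2) → Fin (2 * k + 1),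
      ∀ e ∈ G.edgeSet, ∀ f ∈ G.edgeSet, e ≠ f →
        (∃ v, v ∈ e ∧ v ∈ f) → c e ≠ c f := by
  obtain ⟨v, v', A, hv, hA, h1, h2⟩ := h
  exact xp_of_EG k S hS (A.image fun t => v * t) (by rw [card_image_unit v v' hv, hA])
    (EG_of_LW S hS v v' hv h1) (EG_of_LW _ Finset.sdiff_subset v v' hv h2) G hG

/-- The reduction to colour systems for labels. -/
theorem frozen_of_TS (k : ℕ) (S : Finset ℕ) (hS : S ⊆ Finset.Icc 1 (2 * k))
    (h : ∃ (v v' : ZMod (4 * k + 1)) (e e' : Fin k → Bool → ZMod (4 * k + 1)), v * v' = 1 ∧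
      (∀ i b i' b', e i b = e i' b' → i = i' ∧ b = b') ∧
      (∀ i b i' b', e' i b = e' i' b' → i = i' ∧ b = b') ∧
      (∀ x, (∃ i b, e i b = x) ↔ ∃ i b, e' i b = x) ∧
      TS Set.univ (fun x y => y - x ∈ LSet k (LW k S v)) e ∧
      TS Set.univ (fun x y => y - x ∈ LSet k (LW k (Finset.Icc 1 (2 * k) \ S) v)) e')
    (G : SimpleGraph (ZMod (4 * k + 1) × Fin 2))
    (hG : ∀ p q : ZMod (4 * k + 1) × Fin 2, G.Adj p q ↔
      ((p.2 = 0 ∧ q.2 = 0 ∧ min (p.1 - q.1).val (q.1 - p.1).val ∈ S) ∨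
       (p.2 = 1 ∧ q.2 = 1 ∧
          min (p.1 - q.1).val (q.1 - p.1).val ∈ Finset.Icc 1 (2 * k) \ S) ∨
       (p.1 = q.1 ∧ p.2 ≠ q.2))) :
    ∃ c : Sym2 (ZMod (4 * k + 1) × Fin 2) → Fin (2 * k + 1),
      ∀ e ∈ G.edgeSet, ∀ f ∈ G.edgeSet, e ≠ f →
        (∃ v, v ∈ e ∧ v ∈ f) → c e ≠ c f := by
  classical
  obtain ⟨v, v', e, e', hv, hi, hi', hr, h1, h2⟩ := h
  have hodd : Odd (Fintype.card (ZMod (4 * k + 1))) := by
    rw [ZMod.card]
    exact ⟨2 * k, by ring⟩
  let A : Finset (ZMod (4 * k + 1)) := Finset.univ.filter fun x => ∃ i b, e i b = x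
  have hA : ∀ x, x ∈ A ↔ ∃ i b, e i b = x := fun x => by simp [A]
  refine frozen_of_labels k S hS ⟨v, v', A, hv, ?_, ?_, ?_⟩ G hG
  · rw [card_holes A e hi hA, Fintype.card_fin]
  · exact EG_of_TS hodd _ (zero_notMem_LSet (LW_subset S v)) A e hi hA h1
  · exact EG_of_TS hodd _ (zero_notMem_LSet (LW_subset _ v)) A e' hi'
      (fun x => (hA x).trans (hr x)) h2

end words

end Pool.Agent.P45
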