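import Pool.Agent.Lib.P45dba8.ODefs

/-! # Zigzag sums (MODULE P45dba8.OZig, 0.5 h)

All three statements are inductions; the recursion `zz_succ : zz a (l+1) = a 0 - zz (shift a) l`
is definitional (`ODefs`).
* `zz_diff`: induction on `i` generalising `a`: `zz a (i+2) - zz a (i+1) = -(zz a' (i+1) - zz a' i)`
  with `a' i = a (i+1)`, and `(-1)^(i+1) * a (i+1) = -((-1)^i * a' i)`.
* `zz_range`: induction on `l` generalising `a` and `N`: for `l+1`: `zz a' l` lies in `[0, a' 0]`
  (apply the induction hypothesis to `a'`, `N - 1`; if `l = 0` it is `0`), and `a' 0 = a 1 < a 0`,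
  so `0 < a 0 - zz a' l ≤ a 0`.
* `zz_inj`: induction on `l` generalising `l'`, `a`, `N`: `0` is separated from `l'+1` by
  `zz_range` (positivity), and `zz a (l+1) = zz a (l'+1)` iff `zz a' l = zz a' l'`.
-/

set_option autoImplicit false

namespace Pool.Agent.P45

theorem zz_diff (a : ℕ → ℤ) (i : ℕ) : zz a (i + 1) - zz a i = (-1) ^ i * a i := by
  induction i generalizing a with
  | zero => simp [zz]
  | succ i ih =>
    have h := ih (fun i => a (i + 1))
    have e1 : zz a (i + 1 + 1) = a 0 - zz (fun i => a (i + 1)) (i + 1) := rfl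
    have e2 : zz a (i + 1) = a 0 - zz (fun i => a (i + 1)) i := rfl
    rw [e1, e2, pow_succ]
    linear_combination -h

theorem zz_range (a : ℕ → ℤ) (N : ℕ) (h0 : ∀ i < N, 0 < a i)
    (h1 : ∀ i, i + 1 < N → a (i + 1) < a i) (l : ℕ) (hl : l ≤ N) :
    0 ≤ zz a l ∧ (0 < l → 0 < zz a l ∧ zz a l ≤ a 0) := by
  induction l generalizing a N with
  | zero => exact ⟨le_refl _, fun h => absurd h (lt_irrefl 0)⟩
  | succ l ih =>
    have h := ih (fun i => a (i + 1)) (N - 1) (fun i hi => h0 (i + 1) (by omega))
      (fun i hi => h1 (i + 1) (by omega)) (by omega)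
    have e1 : zz a (l + 1) = a 0 - zz (fun i => a (i + 1)) l := rfl
    have ha0 := h0 0 (by omega)
    have key : 0 < zz a (l + 1) ∧ zz a (l + 1) ≤ a 0 := by
      rw [e1]
      rcases Nat.eq_zero_or_pos l with hl0 | hl0
      · subst hl0
        have e2 : zz (fun i => a (i + 1)) 0 = 0 := rfl
        rw [e2]
        omega
      · have h2 := h.2 hl0
        have h3 := h1 0 (by omega)
        have h4 : zz (fun i => a (i + 1)) l ≤ a (0 + 1) := h2.2
        have h5 := h2.1
        omega
    exact ⟨key.1.le, fun _ => key⟩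

theorem zz_inj (a : ℕ → ℤ) (N : ℕ) (h0 : ∀ i < N, 0 < a i)
    (h1 : ∀ i, i + 1 < N → a (i + 1) < a i) (l l' : ℕ) (hl : l ≤ N) (hl' : l' ≤ N)
    (h : zz a l = zz a l') : l = l' := by
  induction l generalizing l' a N with
  | zero =>
    rcases Nat.eq_zero_or_pos l' with h2 | h2
    · exact h2.symm
    · have h3 := ((zz_range a N h0 h1 l' hl').2 h2).1
      have e : zz a 0 = 0 := rfl
      omega
  | succ l ih =>
    have h4 := ((zz_range a N h0 h1 (l + 1) hl).2 (Nat.succ_pos l)).1
    cases l' with
    | zero =>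
      have e : zz a 0 = 0 := rfl
      omega
    | succ l' =>
      have e1 : zz a (l + 1) = a 0 - zz (fun i => a (i + 1)) l := rfl
      have e2 : zz a (l' + 1) = a 0 - zz (fun i => a (i + 1)) l' := rfl
      have h5 := ih (fun i => a (i + 1)) (N - 1) (fun i hi => h0 (i + 1) (by omega))
        (fun i hi => h1 (i + 1) (by omega)) l' (by omega) (by omega) (by
          rw [e1, e2] at h
          linarith)
      omega

end Pool.Agent.P45
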