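import Pool.Agent.Lib.P45dba8.AsmEven
import Pool.Agent.Lib.P45dba8.OZig

/-! # MP_45dba8: the plain zigzag for even `k` (one component)

`J 0 > J 1 > ... > J (k-2)` are labels below `2k`, alternately in `S` and `T`. -/

set_option autoImplicit false

namespace Pool.Agent.P45

/-- A decreasing sequence of labels, alternately in `S` and `T`. -/
def AltW (S T : Finset ℕ) (N m : ℕ) (J : ℕ → ℕ) : Prop :=
  (∀ i < m, 1 ≤ J i ∧ J i < N) ∧ (∀ i, i + 1 < m → J (i + 1) < J i) ∧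
  (∀ i < m, Even i → J i ∈ S) ∧ (∀ i < m, Odd i → J i ∈ T)

theorem AltSeq.altW {S T : Finset ℕ} {N m : ℕ} {J : ℕ → ℕ} (h : AltSeq S T N m J) :
    AltW S T N m J :=
  ⟨h.1, h.2.1, fun i hi he => (h.2.2.1 i hi he).1, fun i hi ho => (h.2.2.2 i hi ho).1⟩

theorem AltW.anti {S T : Finset ℕ} {N m : ℕ} {J : ℕ → ℕ} (h : AltW S T N m J) {i j : ℕ}
    (hij : i < j) (hj : j < m) : J j < J i := by
  induction j, hij using Nat.le_induction with
  | base => exact h.2.1 i hj
  | succ j hj' ih =>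
    have h1 := h.2.1 j hj
    have h2 := ih (by omega)
    omega

theorem AltW.inj {S T : Finset ℕ} {N m : ℕ} {J : ℕ → ℕ} (h : AltW S T N m J) {i j : ℕ}
    (hi : i < m) (hj : j < m) (hij : J i = J j) : i = j := by
  rcases lt_trichotomy i j with h' | h' | h'
  · have := h.anti h' hj; omega
  · exact h'
  · have := h.anti h' hi; omega

/-- The doubled labels of the side `S`. -/
def zDS (q : ℕ) (J : ℕ → ℕ) : Finset ℕ := (Finset.range q).image (fun i => J (2 * i))

/-- The doubled labels of the side `T`, without `2k`. -/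
def zDT (q : ℕ) (J : ℕ → ℕ) : Finset ℕ := (Finset.range (q - 1)).image (fun i => J (2 * i + 1))

theorem mem_zDS {q : ℕ} {J : ℕ → ℕ} {d : ℕ} : d ∈ zDS q J ↔ ∃ i < q, J (2 * i) = d := by
  simp [zDS]

theorem mem_zDT {q : ℕ} {J : ℕ → ℕ} {d : ℕ} : d ∈ zDT q J ↔ ∃ i < q - 1, J (2 * i + 1) = d := by
  simp [zDT]

theorem zcast_inj {k : ℕ} {a b : ℤ} (ha : 0 ≤ a) (ha' : a < 4 * k + 1) (hb : 0 ≤ b)
    (hb' : b < 4 * k + 1) (h : (a : ZMod (4 * k + 1)) = (b : ZMod (4 * k + 1))) : a = b := by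
  have h' := (ZMod.intCast_eq_intCast_iff a b (4 * k + 1)).1 h
  have h1 : a % ((4 * k + 1 : ℕ) : ℤ) = b % ((4 * k + 1 : ℕ) : ℤ) := h'
  rw [Int.emod_eq_of_lt ha (by push_cast; exact ha'),
    Int.emod_eq_of_lt hb (by push_cast; exact hb')] at h1
  exact h1

theorem zDS_sub {S T : Finset ℕ} {k q : ℕ} (hk : k = 2 * q) (hq : 1 ≤ q) {J : ℕ → ℕ}
    (hJ : AltW S T (2 * k) (k - 1) J) : zDS q J ⊆ S := by
  intro d hd'
  obtain ⟨i, hi, rfl⟩ := mem_zDS.1 hd'
  exact hJ.2.2.1 _ (by omega) ⟨i, by ring⟩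

theorem zDT_sub {S T : Finset ℕ} {k q : ℕ} (hk : k = 2 * q) {J : ℕ → ℕ}
    (hJ : AltW S T (2 * k) (k - 1) J) : zDT q J ⊆ T := by
  intro d hd'
  obtain ⟨i, hi, rfl⟩ := mem_zDT.1 hd'
  exact hJ.2.2.2 _ (by omega) ⟨i, by ring⟩

theorem zDT_lt {S T : Finset ℕ} {k q : ℕ} (hk : k = 2 * q) {J : ℕ → ℕ}
    (hJ : AltW S T (2 * k) (k - 1) J) {d : ℕ} (hd : d ∈ zDT q J) : d < 2 * k := by
  obtain ⟨i, hi, rfl⟩ := mem_zDT.1 hd
  exact (hJ.1 _ (by omega)).2

theorem card_zDS {S T : Finset ℕ} {k q : ℕ} (hk : k = 2 * q) (hq : 1 ≤ q) {J : ℕ → ℕ}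
    (hJ : AltW S T (2 * k) (k - 1) J) : (zDS q J).card = q := by
  show ((Finset.range q).image (fun i => J (2 * i))).card = q
  rw [Finset.card_image_of_injOn, Finset.card_range]
  intro i hi j hj h
  rw [Finset.mem_coe, Finset.mem_range] at hi hj
  have := hJ.inj (i := 2 * i) (j := 2 * j) (by omega) (by omega) h
  omega

theorem card_zDT {S T : Finset ℕ} {k q : ℕ} (hk : k = 2 * q) {J : ℕ → ℕ}
    (hJ : AltW S T (2 * k) (k - 1) J) : (zDT q J).card = q - 1 := by
  show ((Finset.range (q - 1)).image (fun i => J (2 * i + 1))).card = q - 1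
  rw [Finset.card_image_of_injOn, Finset.card_range]
  intro i hi j hj h
  rw [Finset.mem_coe, Finset.mem_range] at hi hj
  have := hJ.inj (i := 2 * i + 1) (j := 2 * j + 1) (by omega) (by omega) h
  omega

/-- The geometry of the plain zigzag, `k = 2q` even. -/
theorem zig_geo (k q : ℕ) (hk : k = 2 * q) (hq : 1 ≤ q) (S T : Finset ℕ)
    (J : ℕ → ℕ) (hJ : AltW S T (2 * k) (k - 1) J) :
    ∃ (X : Finset (ZMod (4 * k + 1))) (pS pT : ℕ → ZMod (4 * k + 1)) (w w' : ZMod (4 * k + 1))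
      (c : ℕ), X.card = k ∧ (∀ x ∈ X, x + 1 ∉ X) ∧
      (∀ x, x ∈ X ↔ ∃ d ∈ zDS q J, x = pS d ∨ x = pS d + 2 * (d : ZMod (4 * k + 1))) ∧
      (∀ x, x ∈ X ↔ (∃ d ∈ zDT q J, x = pT d ∨ x = pT d + 2 * (d : ZMod (4 * k + 1))) ∨
        x = w ∨ x = w') ∧
      w' - w = ((2 * c : ℕ) : ZMod (4 * k + 1)) ∧ 2 * c < 4 * k + 1 ∧
      (c : ℤ) = zz (fun i => (J i : ℤ)) (k - 1) := by
  classical
  obtain ⟨hJ1, hJ2, hJ3, hJ4⟩ := id hJ
  obtain ⟨ix, hix⟩ : ∃ ix : ℕ → ℕ, ∀ i < k - 1, ix (J i) = i := by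
    refine ⟨fun d => if h : ∃ i < k - 1, J i = d then h.choose else 0, ?_⟩
    intro i hi
    have h : ∃ i' < k - 1, J i' = J i := ⟨i, hi, rfl⟩
    have e : (if h : ∃ i' < k - 1, J i' = J i then h.choose else 0) = h.choose := dif_pos h
    show (if h : ∃ i' < k - 1, J i' = J i then h.choose else 0) = i
    rw [e]
    exact hJ.inj h.choose_spec.1 hi h.choose_spec.2
  obtain ⟨W, hW⟩ : ∃ W : ℕ → ℤ, W = zz (fun i => (J i : ℤ)) := ⟨_, rfl⟩
  have hW0 : W 0 = 0 := by rw [hW]; rfl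
  have ha0 : ∀ i < k - 1, (0 : ℤ) < (J i : ℤ) := by
    intro i hi
    have := (hJ1 i hi).1
    omega
  have ha1 : ∀ i, i + 1 < k - 1 → (J (i + 1) : ℤ) < (J i : ℤ) := by
    intro i hi
    have := hJ2 i hi
    omega
  have hWr : ∀ i < k, 0 ≤ W i ∧ W i < 2 * k := by
    intro i hi
    have h := zz_range (fun i => (J i : ℤ)) (k - 1) ha0 ha1 i (by omega)
    rw [hW]
    refine ⟨h.1, ?_⟩
    rcases Nat.eq_zero_or_pos i with h0 | h0
    · subst h0
      rw [zz_zero]; omega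
    · have h3 := (h.2 h0).2
      have h4 := (hJ1 0 (by omega)).2
      have h3' : zz (fun i => (J i : ℤ)) i ≤ (J 0 : ℤ) := h3
      omega
  have hWi : ∀ i < k, ∀ j < k, W i = W j → i = j := by
    intro i hi j hj h
    rw [hW] at h
    exact zz_inj _ (k - 1) ha0 ha1 i j (by omega) (by omega) h
  have hWd : ∀ i, W (i + 1) - W i = (-1) ^ i * (J i : ℤ) := by
    intro i; rw [hW]; exact zz_diff _ i
  have hWe : ∀ i, W (2 * i + 1) = W (2 * i) + J (2 * i) := by
    intro i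
    have h := hWd (2 * i)
    rw [pow_mul, neg_one_sq, one_pow, one_mul] at h
    linarith
  have hWo : ∀ i, W (2 * i + 1) = W (2 * i + 2) + J (2 * i + 1) := by
    intro i
    have h := hWd (2 * i + 1)
    have e0 : (-1 : ℤ) ^ (2 * i + 1) = -1 := by
      rw [pow_succ, pow_mul, neg_one_sq, one_pow, one_mul]
    rw [e0] at h
    have e1 : 2 * i + 1 + 1 = 2 * i + 2 := rfl
    rw [e1] at h
    linarith
  let P : ℕ → ZMod (4 * k + 1) := fun i => ((2 * W i : ℤ) : ZMod (4 * k + 1))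
  have hPe : ∀ i, P (2 * i + 1) = P (2 * i) + 2 * ((J (2 * i) : ℕ) : ZMod (4 * k + 1)) := by
    intro i
    show ((2 * W (2 * i + 1) : ℤ) : ZMod (4 * k + 1)) =
      ((2 * W (2 * i) : ℤ) : ZMod (4 * k + 1)) + 2 * ((J (2 * i) : ℕ) : ZMod (4 * k + 1))
    rw [hWe]
    push_cast
    ring
  have hPo : ∀ i, P (2 * i + 1) = P (2 * i + 2) + 2 * ((J (2 * i + 1) : ℕ) : ZMod (4 * k + 1)) := by
    intro i
    show ((2 * W (2 * i + 1) : ℤ) : ZMod (4 * k + 1)) =
      ((2 * W (2 * i + 2) : ℤ) : ZMod (4 * k + 1)) + 2 * ((J (2 * i + 1) : ℕ) : ZMod (4 * k + 1))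
    rw [hWo]
    push_cast
    ring
  have hPi : ∀ i < k, ∀ j < k, P i = P j → i = j := by
    intro i hi j hj h
    have h1 := hWr i hi
    have h2 := hWr j hj
    have h3 := zcast_inj (k := k) (a := 2 * W i) (b := 2 * W j) (by omega) (by omega) (by omega)
      (by omega) h
    exact hWi i hi j hj (by omega)
  let X : Finset (ZMod (4 * k + 1)) := (Finset.range k).image P
  have hX : ∀ x, x ∈ X ↔ ∃ i < k, P i = x := by
    intro x
    show x ∈ (Finset.range k).image P ↔ _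
    rw [Finset.mem_image]
    simp only [Finset.mem_range]
  have hXk : X.card = k := by
    show ((Finset.range k).image P).card = k
    rw [Finset.card_image_of_injOn, Finset.card_range]
    intro i hi j hj h
    rw [Finset.mem_coe, Finset.mem_range] at hi hj
    exact hPi i hi j hj h
  have hadj : ∀ x ∈ X, x + 1 ∉ X := by
    intro x hx hx'
    obtain ⟨i, hi, rfl⟩ := (hX x).1 hx
    obtain ⟨j, hj, h⟩ := (hX _).1 hx'
    have h1 := hWr i hi
    have h2 := hWr j hj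
    have h3 : ((2 * W j : ℤ) : ZMod (4 * k + 1)) = ((2 * W i + 1 : ℤ) : ZMod (4 * k + 1)) := by
      have h' : ((2 * W j : ℤ) : ZMod (4 * k + 1)) = ((2 * W i : ℤ) : ZMod (4 * k + 1)) + 1 := h
      rw [h']
      push_cast
      ring
    have h4 := zcast_inj (k := k) (by omega) (by omega) (by omega) (by omega) h3
    omega
  have h1 := hWr (k - 1) (by omega)
  obtain ⟨c, hc⟩ : ∃ c : ℕ, W (k - 1) = (c : ℤ) := ⟨_, (Int.toNat_of_nonneg h1.1).symm⟩
  have e1 : P (k - 1) - P 0 = ((2 * c : ℕ) : ZMod (4 * k + 1)) := by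
    show ((2 * W (k - 1) : ℤ) : ZMod (4 * k + 1)) - ((2 * W 0 : ℤ) : ZMod (4 * k + 1)) = _
    rw [hW0, hc]
    push_cast
    ring
  refine ⟨X, fun d => P (ix d), fun d => P (ix d + 1), P 0, P (k - 1), c, hXk, hadj, ?_, ?_, e1,
    by omega, by rw [← hc, hW]⟩
  · intro x
    rw [hX]
    constructor
    · rintro ⟨i, hi, rfl⟩
      rcases Nat.even_or_odd' i with ⟨c, hc | hc⟩
      · refine ⟨J (2 * c), mem_zDS.2 ⟨c, by omega, rfl⟩, Or.inl ?_⟩
        show P i = P (ix (J (2 * c)))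
        rw [hix (2 * c) (by omega), hc]
      · refine ⟨J (2 * c), mem_zDS.2 ⟨c, by omega, rfl⟩, Or.inr ?_⟩
        show P i = P (ix (J (2 * c))) + _
        rw [hix (2 * c) (by omega), hc]
        exact hPe c
    · rintro ⟨d, hd', h⟩
      obtain ⟨i, hi, rfl⟩ := mem_zDS.1 hd'
      simp only [hix (2 * i) (by omega)] at h
      rcases h with h | h
      · exact ⟨2 * i, by omega, h.symm⟩
      · exact ⟨2 * i + 1, by omega, by rw [h]; exact hPe i⟩
  · intro x
    rw [hX]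
    constructor
    · rintro ⟨i, hi, rfl⟩
      rcases Nat.even_or_odd' i with ⟨c, hc | hc⟩
      · by_cases h0 : c = 0
        · right; left
          rw [hc, h0]
        · left
          refine ⟨J (2 * (c - 1) + 1), mem_zDT.2 ⟨c - 1, by omega, rfl⟩, Or.inl ?_⟩
          show P i = P (ix (J (2 * (c - 1) + 1)) + 1)
          rw [hix (2 * (c - 1) + 1) (by omega), hc]
          congr 1
          omega
      · by_cases h0 : c = q - 1
        · right; right
          rw [hc]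
          congr 1
          omega
        · left
          refine ⟨J (2 * c + 1), mem_zDT.2 ⟨c, by omega, rfl⟩, Or.inr ?_⟩
          show P i = P (ix (J (2 * c + 1)) + 1) + _
          rw [hix (2 * c + 1) (by omega), hc]
          exact hPo c
    · rintro (⟨d, hd', h⟩ | h | h)
      · obtain ⟨i, hi, rfl⟩ := mem_zDT.1 hd'
        simp only [hix (2 * i + 1) (by omega)] at h
        rcases h with h | h
        · exact ⟨2 * i + 2, by omega, h.symm⟩
        · exact ⟨2 * i + 1, by omega, by rw [h]; exact hPo i⟩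
      · exact ⟨0, by omega, h.symm⟩
      · exact ⟨k - 1, by omega, h.symm⟩

/-- The side `S`: all dominoes are served by doubled labels. -/
theorem EG_side {k : ℕ} (DS US : Finset ℕ) (hS : DS ∪ US ⊆ Finset.Icc 1 (2 * k))
    (X : Finset (ZMod (4 * k + 1))) (hXk : X.card = 2 * DS.card) (hadj : ∀ x ∈ X, x + 1 ∉ X)
    (pS : ℕ → ZMod (4 * k + 1))
    (hXS : ∀ x, x ∈ X ↔ ∃ d ∈ DS, x = pS d ∨ x = pS d + 2 * (d : ZMod (4 * k + 1)))
    (σ : ℕ → ℕ) (hσ : Set.BijOn σ DS US)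
    (hGS : Good (4 * k + 1) IsUnit
      (fun i : {i // i ∈ (∅ : Finset ℕ)} => ((2 * i.1 : ℕ) : ZMod (4 * k + 1)))
      (fun d : {d // d ∈ DS} => ((2 * d.1 : ℕ) : ZMod (4 * k + 1)))
      (fun d : {d // d ∈ DS} => ((2 * σ d.1 : ℕ) : ZMod (4 * k + 1)))) :
    EG (LSet k (DS ∪ US)) (dom X) := by
  classical
  have hodd : Odd (4 * k + 1) := ⟨2 * k, by ring⟩
  refine EG_dom hodd _ (zero_notMem_LSet hS) X hadj (ept DS pS) ?_ ?_
    (Θ := {d // d ∈ DS} × Bool) (fun θ b => (θ.1, b)) (fun θ _ => θ.2) ?_ ?_ _ ?_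
    (side_TS hσ hGS pS)
  · intro x
    rw [hXS]
    constructor
    · rintro ⟨d, hd, rfl | rfl⟩
      · exact ⟨(⟨d, hd⟩, false), add_zero _⟩
      · exact ⟨(⟨d, hd⟩, true), rfl⟩
    · rintro ⟨⟨⟨d, hd⟩, b⟩, rfl⟩
      refine ⟨d, hd, ?_⟩
      cases b
      · exact Or.inl (add_zero _)
      · exact Or.inr rfl
  · rw [Fintype.card_prod, Fintype.card_coe, Fintype.card_bool]
    omega
  · rintro ⟨d, c⟩ b ⟨d', c'⟩ b' h1 h2
    obtain ⟨h3, h4⟩ := Prod.ext_iff.1 h1
    have h3' : d = d' := h3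
    have h4' : b = b' := h4
    have h2' : c = c' := h2
    subst h3' h4' h2'
    exact ⟨rfl, rfl⟩
  · rintro ⟨d, b⟩ c
    exact ⟨(d, c), b, rfl, rfl⟩
  · rintro ⟨d, c⟩ b
    rfl

/-- The side `T`, with the pair of the label `2k` in the family: the displacement must be a
unit. -/
theorem EG_side_top {k : ℕ} (DT UT : Finset ℕ) (hT : DT ∪ UT ⊆ Finset.Icc 1 (2 * k))
    (h2k : 2 * k ∈ DT) (X : Finset (ZMod (4 * k + 1))) (hXk : X.card = 2 * DT.card)
    (hadj : ∀ x ∈ X, x + 1 ∉ X) (pT : ℕ → ZMod (4 * k + 1)) (w w' : ZMod (4 * k + 1))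
    (hXT : ∀ x, x ∈ X ↔ (∃ d ∈ DT.erase (2 * k), x = pT d ∨
      x = pT d + 2 * (d : ZMod (4 * k + 1))) ∨ x = w ∨ x = w')
    (hw : IsUnit (w' - w)) (τ : ℕ → ℕ) (hτ : Set.BijOn τ DT UT)
    (hGT : Good (4 * k + 1) IsUnit
      (fun i : {i // i ∈ (∅ : Finset ℕ)} => ((2 * i.1 : ℕ) : ZMod (4 * k + 1)))
      (fun d : {d // d ∈ DT} => ((2 * d.1 : ℕ) : ZMod (4 * k + 1)))
      (fun d : {d // d ∈ DT} => ((2 * τ d.1 : ℕ) : ZMod (4 * k + 1)))) :
    EG (LSet k (DT ∪ UT)) (dom X) := by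
  classical
  have hodd : Odd (4 * k + 1) := ⟨2 * k, by ring⟩
  have h2k' : (2 : ZMod (4 * k + 1)) * ((2 * k : ℕ) : ZMod (4 * k + 1)) = -1 := by
    have h : ((4 * k + 1 : ℕ) : ZMod (4 * k + 1)) = 0 := ZMod.natCast_self _
    push_cast at h ⊢
    linear_combination h
  -- the first end of the edge of the label `d`, thread `c`
  let q : {d // d ∈ DT} × Bool → ZMod (4 * k + 1) := fun θ =>
    if θ.1.1 = 2 * k then (bif θ.2 then w' else w) + 1 else pT θ.1.1 + (bif θ.2 then 1 else 0)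
  have h1 := hGT (Sum.elim (fun _ => 0) q)
    (Sum.elim (fun i => ((2 * i.1 : ℕ) : ZMod (4 * k + 1)))
      (fun c => ((2 * c.1.1 : ℕ) : ZMod (4 * k + 1)))) (fun i => rfl) (by
      intro d
      right; right
      refine ⟨Or.inl ⟨rfl, rfl⟩, ?_⟩
      show IsUnit (q (d, true) - q (d, false))
      by_cases hd : d.1 = 2 * k
      · have e1 : q (d, true) = w' + 1 := if_pos hd
        have e2 : q (d, false) = w + 1 := if_pos hd
        rw [e1, e2, show w' + 1 - (w + 1) = w' - w by ring]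
        exact hw
      · have e1 : q (d, true) = pT d.1 + 1 := if_neg hd
        have e2 : q (d, false) = pT d.1 + 0 := if_neg hd
        rw [e1, e2, show pT d.1 + 1 - (pT d.1 + 0) = 1 by ring]
        exact isUnit_one)
  have h2 := (h1.mono (E' := fun x y => y - x ∈ LSet k (DT ∪ UT)) ?_).reindex
    (Θ' := {d // d ∈ DT} × Bool)
    { toFun := fun c => Sum.inr c
      invFun := Sum.elim (fun i => absurd i.2 (Finset.notMem_empty _)) id
      left_inv := fun c => rfl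
      right_inv := by
        rintro (i | c)
        · exact absurd i.2 (Finset.notMem_empty _)
        · rfl }
  · refine EG_dom hodd _ (zero_notMem_LSet hT) X hadj
      (α := {d // d ∈ DT} × Bool)
      (fun a => if a.1.1 = 2 * k then (bif a.2 then w' else w) else
        pT a.1.1 + (bif a.2 then 2 * (a.1.1 : ZMod (4 * k + 1)) else 0)) ?_ ?_
      (Θ := {d // d ∈ DT} × Bool)
      (fun θ b => if θ.1.1 = 2 * k then θ else (θ.1, b))
      (fun θ b => if θ.1.1 = 2 * k then !b else θ.2) ?_ ?_ _ ?_ h2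
    · intro x
      rw [hXT]
      constructor
      · rintro (⟨d, hd, rfl | rfl⟩ | rfl | rfl)
        · obtain ⟨h3, h4⟩ := Finset.mem_erase.1 hd
          refine ⟨(⟨d, h4⟩, false), ?_⟩
          simp [h3]
        · obtain ⟨h3, h4⟩ := Finset.mem_erase.1 hd
          refine ⟨(⟨d, h4⟩, true), ?_⟩
          simp [h3]
        · exact ⟨(⟨2 * k, h2k⟩, false), by simp⟩
        · exact ⟨(⟨2 * k, h2k⟩, true), by simp⟩
      · rintro ⟨⟨⟨d, hd⟩, b⟩, rfl⟩
        by_cases h3 : d = 2 * k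
        · right
          cases b
          · left; simp [h3]
          · right; simp [h3]
        · left
          refine ⟨d, Finset.mem_erase.2 ⟨h3, hd⟩, ?_⟩
          cases b
          · left; simp [h3]
          · right; simp [h3]
    · rw [Fintype.card_prod, Fintype.card_coe, Fintype.card_bool]
      omega
    · rintro ⟨⟨d, hd⟩, c⟩ b ⟨⟨d', hd'⟩, c'⟩ b' h3 h4
      by_cases e : d = 2 * k
      · by_cases e' : d' = 2 * k
        · subst e e'
          simp only [if_true] at h3 h4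
          have h5 : c = c' := (Prod.ext_iff.1 h3).2
          refine ⟨by rw [h5], ?_⟩
          revert h4
          cases b <;> cases b' <;> simp
        · exfalso
          subst e
          simp only [if_true, e', if_false] at h3
          exact e' (congrArg Subtype.val (Prod.ext_iff.1 h3).1).symm
      · by_cases e' : d' = 2 * k
        · exfalso
          subst e'
          simp only [if_true, e, if_false] at h3
          exact e (congrArg Subtype.val (Prod.ext_iff.1 h3).1)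
        · simp only [e, e', if_false] at h3 h4
          obtain ⟨h5, h6⟩ := Prod.ext_iff.1 h3
          have h5' : (⟨d, hd⟩ : {d // d ∈ DT}) = ⟨d', hd'⟩ := h5
          have h6' : b = b' := h6
          rw [h5', h4, h6']
          exact ⟨rfl, rfl⟩
    · rintro ⟨⟨d, hd⟩, a⟩ c
      by_cases e : d = 2 * k
      · refine ⟨(⟨d, hd⟩, a), !c, ?_, ?_⟩
        · simp [e]
        · simp [e]
      · refine ⟨(⟨d, hd⟩, c), a, ?_, ?_⟩
        · simp [e]
        · simp [e]
    · rintro ⟨⟨d, hd⟩, c⟩ b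
      show q (⟨d, hd⟩, c) + (bif b then ((2 * d : ℕ) : ZMod (4 * k + 1)) else 0) = _
      by_cases e : d = 2 * k
      · subst e
        have e1 : q (⟨2 * k, hd⟩, c) = (bif c then w' else w) + 1 := if_pos rfl
        rw [e1]
        cases b
        · simp
        · have e3 : ((2 * (2 * k) : ℕ) : ZMod (4 * k + 1)) = -1 := by
            rw [← h2k']
            push_cast
            ring
          simp only [cond_true, if_true, Bool.not_true, cond_false, add_zero]
          rw [e3]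
          ring
      · have e1 : q (⟨d, hd⟩, c) = pT d + (bif c then 1 else 0) := if_neg e
        rw [e1]
        simp only [e, if_false]
        cases b <;> simp <;> ring
  · rintro x - y - ⟨j, hj, h⟩
    have hj' : FD (fun i : {i // i ∈ (∅ : Finset ℕ)} => ((2 * i.1 : ℕ) : ZMod (4 * k + 1)))
        (fun d : {d // d ∈ DT} => ((2 * d.1 : ℕ) : ZMod (4 * k + 1)))
        (fun d : {d // d ∈ DT} => ((2 * τ d.1 : ℕ) : ZMod (4 * k + 1)))
        (2 * (j : ZMod (4 * k + 1))) := by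
      right
      rcases Finset.mem_union.1 hj with hj | hj
      · refine ⟨⟨j, hj⟩, Or.inl ?_⟩
        push_cast
        rfl
      · obtain ⟨d, hd, rfl⟩ := hτ.surjOn hj
        refine ⟨⟨d, hd⟩, Or.inr ?_⟩
        push_cast
        rfl
    refine ⟨_, hj', ?_⟩
    rcases h with h | h
    · left
      linear_combination h
    · right
      linear_combination -h

/-- THE PLAIN ZIGZAG, `k = 2q` even. -/
theorem zig_even (k q : ℕ) (hk : k = 2 * q) (hq : 1 ≤ q) (S T : Finset ℕ)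
    (hU : S ∪ T = Finset.Icc 1 (2 * k)) (h2k : 2 * k ∈ T)
    (J : ℕ → ℕ) (hJ : AltW S T (2 * k) (k - 1) J)
    (u₀ : ℕ) (hu1 : u₀ ∈ T) (hu2 : u₀ ≠ 2 * k)
    (σ τ : ℕ → ℕ) (hσ : Set.BijOn σ (zDS q J) (S \ zDS q J : Finset ℕ))
    (hτ : Set.BijOn τ (zDT q J) (T \ (zDT q J ∪ {2 * k, u₀}) : Finset ℕ))
    (hGS : Good (4 * k + 1) IsUnit
      (fun i : {i // i ∈ (∅ : Finset ℕ)} => ((2 * i.1 : ℕ) : ZMod (4 * k + 1)))
      (fun d : {d // d ∈ zDS q J} => ((2 * d.1 : ℕ) : ZMod (4 * k + 1)))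
      (fun d : {d // d ∈ zDS q J} => ((2 * σ d.1 : ℕ) : ZMod (4 * k + 1))))
    (hGT : Good (4 * k + 1) IsUnit
      (fun i : {i // i ∈ (∅ : Finset ℕ)} => ((2 * i.1 : ℕ) : ZMod (4 * k + 1)))
      (fun d : {d // d ∈ zDT q J} => ((2 * d.1 : ℕ) : ZMod (4 * k + 1)))
      (fun d : {d // d ∈ zDT q J} => ((2 * τ d.1 : ℕ) : ZMod (4 * k + 1))))
    (hu₀ : Nat.gcd (4 * k + 1) u₀ = 1 ∨
      ¬ ((Nat.gcd (4 * k + 1) u₀ : ℕ) : ℤ) ∣ zz (fun i => (J i : ℤ)) (k - 1)) :
    ∃ A : Finset (ZMod (4 * k + 1)), A.card = 2 * k ∧ EG (LSet k S) A ∧ EG (LSet k T) A := by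
  classical
  have hSsub : S ⊆ Finset.Icc 1 (2 * k) := hU ▸ Finset.subset_union_left
  have hTsub : T ⊆ Finset.Icc 1 (2 * k) := hU ▸ Finset.subset_union_right
  have hDSS := zDS_sub hk hq hJ
  have hDTT := zDT_sub hk hJ
  obtain ⟨X, pS, pT, w, w', c, hXk, hadj, hXS, hXT, hw, hc, hcz⟩ := zig_geo k q hk hq S T J hJ
  have eS : zDS q J ∪ (S \ zDS q J) = S := Finset.union_sdiff_of_subset hDSS
  have eT : zDT q J ∪ (T \ (zDT q J ∪ {2 * k, u₀})) ∪ {2 * k, u₀} = T := by
    ext x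
    simp only [Finset.mem_union, Finset.mem_sdiff, Finset.mem_insert, Finset.mem_singleton]
    constructor
    · rintro ((h | ⟨h, -⟩) | rfl | rfl)
      · exact hDTT h
      · exact h
      · exact h2k
      · exact hu1
    · intro h
      by_cases h1 : x ∈ zDT q J
      · exact Or.inl (Or.inl h1)
      · by_cases h2 : x = 2 * k ∨ x = u₀
        · exact Or.inr h2
        · exact Or.inl (Or.inr ⟨h, by tauto⟩)
  have hu₀' : Nat.gcd (4 * k + 1) u₀ = 1 ∨ ¬ Nat.gcd (4 * k + 1) u₀ ∣ (w' - w).val := by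
    rcases hu₀ with h | h
    · exact Or.inl h
    · right
      intro h'
      apply h
      rw [hw, ZMod.val_cast_of_lt hc] at h'
      have hodd : Odd (Nat.gcd (4 * k + 1) u₀) :=
        Odd.of_dvd_nat ⟨2 * k, by ring⟩ (Nat.gcd_dvd_left (4 * k + 1) u₀)
      have hc2 : Nat.Coprime (Nat.gcd (4 * k + 1) u₀) 2 :=
        Nat.Coprime.symm (Nat.coprime_two_left.2 hodd)
      have h2 := hc2.dvd_mul_left.1 h'
      rw [← hcz]
      exact Int.natCast_dvd_natCast.2 h2
  have huI := Finset.mem_Icc.1 (hTsub hu1)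
  have key := asm_even k (by omega) (zDS q J) (S \ zDS q J) (zDT q J)
    (T \ (zDT q J ∪ {2 * k, u₀})) u₀ (by rw [eS]; exact hSsub) (by
      intro x hx
      rcases Finset.mem_union.1 hx with h | h
      · exact hTsub (hDTT h)
      · exact hTsub (Finset.mem_sdiff.1 h).1) huI.1 (by omega) X hXk hadj
    (by rw [card_zDS hk hq hJ, hk]) (by rw [card_zDT hk hJ]; omega)
    pS pT w w' hXS hXT σ τ hσ hτ hGS hGT hu₀'
  rw [eS, eT] at key
  exact key

/-- The plain zigzag with the pair `(2k, u₀)` in the family of the side `T`: the alternating sum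
must be coprime to `n`. -/
theorem zig_even_top (k q : ℕ) (hk : k = 2 * q) (hq : 1 ≤ q) (S T : Finset ℕ)
    (hU : S ∪ T = Finset.Icc 1 (2 * k)) (h2k : 2 * k ∈ T)
    (J : ℕ → ℕ) (hJ : AltW S T (2 * k) (k - 1) J)
    (σ τ : ℕ → ℕ) (hσ : Set.BijOn σ (zDS q J) (S \ zDS q J : Finset ℕ))
    (hτ : Set.BijOn τ (insert (2 * k) (zDT q J) : Finset ℕ)
      (T \ insert (2 * k) (zDT q J) : Finset ℕ))
    (hGS : Good (4 * k + 1) IsUnit
      (fun i : {i // i ∈ (∅ : Finset ℕ)} => ((2 * i.1 : ℕ) : ZMod (4 * k + 1)))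
      (fun d : {d // d ∈ zDS q J} => ((2 * d.1 : ℕ) : ZMod (4 * k + 1)))
      (fun d : {d // d ∈ zDS q J} => ((2 * σ d.1 : ℕ) : ZMod (4 * k + 1))))
    (hGT : Good (4 * k + 1) IsUnit
      (fun i : {i // i ∈ (∅ : Finset ℕ)} => ((2 * i.1 : ℕ) : ZMod (4 * k + 1)))
      (fun d : {d // d ∈ insert (2 * k) (zDT q J)} => ((2 * d.1 : ℕ) : ZMod (4 * k + 1)))
      (fun d : {d // d ∈ insert (2 * k) (zDT q J)} => ((2 * τ d.1 : ℕ) : ZMod (4 * k + 1))))
    (hW : IsCoprime (zz (fun i => (J i : ℤ)) (k - 1)) (4 * k + 1 : ℤ)) :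
    ∃ A : Finset (ZMod (4 * k + 1)), A.card = 2 * k ∧ EG (LSet k S) A ∧ EG (LSet k T) A := by
  classical
  have hSsub : S ⊆ Finset.Icc 1 (2 * k) := hU ▸ Finset.subset_union_left
  have hTsub : T ⊆ Finset.Icc 1 (2 * k) := hU ▸ Finset.subset_union_right
  have hDSS := zDS_sub hk hq hJ
  have hDTT := zDT_sub hk hJ
  obtain ⟨X, pS, pT, w, w', c, hXk, hadj, hXS, hXT, hw, hc, hcz⟩ := zig_geo k q hk hq S T J hJ
  have eS : zDS q J ∪ (S \ zDS q J) = S := Finset.union_sdiff_of_subset hDSS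
  have hDTT' : insert (2 * k) (zDT q J) ⊆ T := by
    intro x hx
    rcases Finset.mem_insert.1 hx with rfl | hx
    · exact h2k
    · exact hDTT hx
  have hn2k : 2 * k ∉ zDT q J := by
    intro h
    have := zDT_lt hk hJ h
    omega
  have eT : insert (2 * k) (zDT q J) ∪ (T \ insert (2 * k) (zDT q J)) = T :=
    Finset.union_sdiff_of_subset hDTT'
  refine ⟨dom X, by rw [card_dom hadj, hXk], ?_, ?_⟩
  · have := EG_side (zDS q J) (S \ zDS q J) (by rw [eS]; exact hSsub) X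
      (by rw [hXk, card_zDS hk hq hJ, hk]) hadj pS hXS σ hσ hGS
    rwa [eS] at this
  · have hwu : IsUnit (w' - w) := by
      rw [hw, ZMod.isUnit_iff_coprime]
      have h1 : Nat.Coprime c (4 * k + 1) := by
        rw [← hcz] at hW
        exact_mod_cast hW
      exact Nat.Coprime.mul_left (Nat.coprime_two_left.2 ⟨2 * k, by ring⟩) h1
    have := EG_side_top (insert (2 * k) (zDT q J)) (T \ insert (2 * k) (zDT q J))
      (by rw [eT]; exact hTsub) (Finset.mem_insert_self _ _) X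
      (by rw [hXk, Finset.card_insert_of_notMem hn2k, card_zDT hk hJ]; omega) hadj pT w w'
      (by rw [Finset.erase_insert hn2k]; exact hXT) hwu τ hτ hGT
    rwa [eT] at this

end Pool.Agent.P45
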