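import Pool.Agent.Lib.P45dba8.PathGen
import Pool.Agent.Lib.P45dba8.ZigEven

/-! # MP_45dba8: even `k`, from an alternating path to the conclusion

The analogues of `zig_even` and `zig_even_top` for a general path. -/

set_option autoImplicit false

namespace Pool.Agent.P45

/-- `w` is the word of `S` in depth order. -/
def IsWord (k : ℕ) (S : Finset ℕ) (w : ℕ → Bool) : Prop :=
  ∀ l, 1 ≤ l → l ≤ 2 * k - 1 → (w (2 * k - 1 - l) = true ↔ l ∈ S)

theorem labS_sub {k r d : ℕ} {S : Finset ℕ} {w : ℕ → Bool} {D : ℕ → ℕ} (hw : IsWord k S w)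
    (hr : 1 ≤ r) (h : APath w D d (2 * r - 1)) (hd : d ≤ 2 * k - 1) : labS k D r ⊆ S := by
  intro l hl
  obtain ⟨h1, h2, h3⟩ := (h.labS_prop (k := k) hd (r := r) (by omega)).1 l hl
  exact (hw l h1 h2).1 h3

theorem labT_sub {k r d : ℕ} {S T : Finset ℕ} {w : ℕ → Bool} {D : ℕ → ℕ} (hw : IsWord k S w)
    (hU : S ∪ T = Finset.Icc 1 (2 * k)) (hr : 1 ≤ r) (h : APath w D d (2 * r - 1))
    (hd : d ≤ 2 * k - 1) : labT k D (r - 1) ⊆ T.erase (2 * k) := by
  intro l hl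
  obtain ⟨h1, h2, h3⟩ := (h.labT_prop (k := k) hd (r := r - 1) (by omega)).1 l hl
  have h4 : l ∉ S := fun h' => by
    have := (hw l h1 h2).2 h'
    rw [h3] at this
    exact absurd this (by decide)
  have h5 : l ∈ S ∪ T := by
    rw [hU]
    exact Finset.mem_Icc.2 ⟨h1, by omega⟩
  rcases Finset.mem_union.1 h5 with h6 | h6
  · exact absurd h6 h4
  · exact Finset.mem_erase.2 ⟨by omega, h6⟩

theorem path_even (k r : ℕ) (hk : k = 2 * r) (hr : 1 ≤ r) (S T : Finset ℕ)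
    (hU : S ∪ T = Finset.Icc 1 (2 * k)) (h2k : 2 * k ∈ T)
    (w : ℕ → Bool) (hw : IsWord k S w) (D : ℕ → ℕ) (h : APath w D (2 * k - 1) (2 * r - 1))
    (u₀ : ℕ) (hu1 : u₀ ∈ T) (hu2 : u₀ ≠ 2 * k)
    (σ τ : ℕ → ℕ) (hσ : Set.BijOn σ (labS k D r) (S \ labS k D r : Finset ℕ))
    (hτ : Set.BijOn τ (labT k D (r - 1)) (T \ (labT k D (r - 1) ∪ {2 * k, u₀}) : Finset ℕ))
    (hGS : Good (4 * k + 1) IsUnit
      (fun i : {i // i ∈ (∅ : Finset ℕ)} => ((2 * i.1 : ℕ) : ZMod (4 * k + 1)))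
      (fun d : {d // d ∈ labS k D r} => ((2 * d.1 : ℕ) : ZMod (4 * k + 1)))
      (fun d : {d // d ∈ labS k D r} => ((2 * σ d.1 : ℕ) : ZMod (4 * k + 1))))
    (hGT : Good (4 * k + 1) IsUnit
      (fun i : {i // i ∈ (∅ : Finset ℕ)} => ((2 * i.1 : ℕ) : ZMod (4 * k + 1)))
      (fun d : {d // d ∈ labT k D (r - 1)} => ((2 * d.1 : ℕ) : ZMod (4 * k + 1)))
      (fun d : {d // d ∈ labT k D (r - 1)} => ((2 * τ d.1 : ℕ) : ZMod (4 * k + 1))))
    (hu₀ : Nat.gcd (4 * k + 1) u₀ = 1 ∨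
      ¬ Nat.gcd (4 * k + 1) u₀ ∣ 2 * k - 1 - slot D (2 * r - 1)) :
    ∃ A : Finset (ZMod (4 * k + 1)), A.card = 2 * k ∧ EG (LSet k S) A ∧ EG (LSet k T) A := by
  classical
  have hSsub : S ⊆ Finset.Icc 1 (2 * k) := hU ▸ Finset.subset_union_left
  have hTsub : T ⊆ Finset.Icc 1 (2 * k) := hU ▸ Finset.subset_union_right
  have hDSS := labS_sub hw hr h le_rfl
  have hDTT : labT k D (r - 1) ⊆ T :=
    (labT_sub hw hU hr h le_rfl).trans (Finset.erase_subset _ _)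
  obtain ⟨hXk, hadj, cS, cT, -, -, hXS, hXT⟩ := h.data (k := k) hr (by omega) le_rfl
  obtain ⟨hdisp, hlt⟩ := path_disp k D hr (show 1 ≤ k by omega)
  have eS : labS k D r ∪ (S \ labS k D r) = S := Finset.union_sdiff_of_subset hDSS
  have eT : labT k D (r - 1) ∪ (T \ (labT k D (r - 1) ∪ {2 * k, u₀})) ∪ {2 * k, u₀} = T := by
    ext x
    simp only [Finset.mem_union, Finset.mem_sdiff, Finset.mem_insert, Finset.mem_singleton]
    constructor
    · rintro ((h | ⟨h, -⟩) | rfl | rfl)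
      · exact hDTT h
      · exact h
      · exact h2k
      · exact hu1
    · intro h
      by_cases h1 : x ∈ labT k D (r - 1)
      · exact Or.inl (Or.inl h1)
      · by_cases h2 : x = 2 * k ∨ x = u₀
        · exact Or.inr h2
        · exact Or.inl (Or.inr ⟨h, by tauto⟩)
  have hu₀' : Nat.gcd (4 * k + 1) u₀ = 1 ∨ ¬ Nat.gcd (4 * k + 1) u₀ ∣
      (((vpos k D (2 * r - 1) : ℕ) : ZMod (4 * k + 1)) -
        ((vpos k D 0 : ℕ) : ZMod (4 * k + 1))).val := by
    rcases hu₀ with h | h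
    · exact Or.inl h
    · right
      intro h'
      apply h
      rw [hdisp, ZMod.val_cast_of_lt hlt] at h'
      have hodd : Odd (Nat.gcd (4 * k + 1) u₀) :=
        Odd.of_dvd_nat ⟨2 * k, by ring⟩ (Nat.gcd_dvd_left (4 * k + 1) u₀)
      have hc2 : Nat.Coprime (Nat.gcd (4 * k + 1) u₀) 2 :=
        Nat.Coprime.symm (Nat.coprime_two_left.2 hodd)
      exact hc2.dvd_mul_left.1 h'
  have huI := Finset.mem_Icc.1 (hTsub hu1)
  have key := asm_even k (by omega) (labS k D r) (S \ labS k D r) (labT k D (r - 1))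
    (T \ (labT k D (r - 1) ∪ {2 * k, u₀})) u₀ (by rw [eS]; exact hSsub) (by
      intro x hx
      rcases Finset.mem_union.1 hx with h | h
      · exact hTsub (hDTT h)
      · exact hTsub (Finset.mem_sdiff.1 h).1) huI.1 (by omega) (ptsX k D (2 * r))
    (by rw [hXk, hk]) hadj (by rw [cS, hk]) (by rw [cT]; omega) (lend k D (2 * r - 1))
    (lend k D (2 * r - 1)) _ _ hXS hXT σ τ hσ hτ hGS hGT hu₀'
  rw [eS, eT] at key
  exact key

theorem path_even_top (k r : ℕ) (hk : k = 2 * r) (hr : 1 ≤ r) (S T : Finset ℕ)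
    (hU : S ∪ T = Finset.Icc 1 (2 * k)) (h2k : 2 * k ∈ T)
    (w : ℕ → Bool) (hw : IsWord k S w) (D : ℕ → ℕ) (h : APath w D (2 * k - 1) (2 * r - 1))
    (σ τ : ℕ → ℕ) (hσ : Set.BijOn σ (labS k D r) (S \ labS k D r : Finset ℕ))
    (hτ : Set.BijOn τ (insert (2 * k) (labT k D (r - 1)) : Finset ℕ)
      (T \ insert (2 * k) (labT k D (r - 1)) : Finset ℕ))
    (hGS : Good (4 * k + 1) IsUnit
      (fun i : {i // i ∈ (∅ : Finset ℕ)} => ((2 * i.1 : ℕ) : ZMod (4 * k + 1)))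
      (fun d : {d // d ∈ labS k D r} => ((2 * d.1 : ℕ) : ZMod (4 * k + 1)))
      (fun d : {d // d ∈ labS k D r} => ((2 * σ d.1 : ℕ) : ZMod (4 * k + 1))))
    (hGT : Good (4 * k + 1) IsUnit
      (fun i : {i // i ∈ (∅ : Finset ℕ)} => ((2 * i.1 : ℕ) : ZMod (4 * k + 1)))
      (fun d : {d // d ∈ insert (2 * k) (labT k D (r - 1))} =>
        ((2 * d.1 : ℕ) : ZMod (4 * k + 1)))
      (fun d : {d // d ∈ insert (2 * k) (labT k D (r - 1))} =>
        ((2 * τ d.1 : ℕ) : ZMod (4 * k + 1))))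
    (hW : Nat.Coprime (2 * k - 1 - slot D (2 * r - 1)) (4 * k + 1)) :
    ∃ A : Finset (ZMod (4 * k + 1)), A.card = 2 * k ∧ EG (LSet k S) A ∧ EG (LSet k T) A := by
  classical
  have hSsub : S ⊆ Finset.Icc 1 (2 * k) := hU ▸ Finset.subset_union_left
  have hTsub : T ⊆ Finset.Icc 1 (2 * k) := hU ▸ Finset.subset_union_right
  have hDSS := labS_sub hw hr h le_rfl
  have hDTe := labT_sub hw hU hr h le_rfl
  have hDTT : labT k D (r - 1) ⊆ T := hDTe.trans (Finset.erase_subset _ _)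
  obtain ⟨hXk, hadj, cS, cT, -, -, hXS, hXT⟩ := h.data (k := k) hr (by omega) le_rfl
  obtain ⟨hdisp, hlt⟩ := path_disp k D hr (show 1 ≤ k by omega)
  have eS : labS k D r ∪ (S \ labS k D r) = S := Finset.union_sdiff_of_subset hDSS
  have hDTT' : insert (2 * k) (labT k D (r - 1)) ⊆ T := by
    intro x hx
    rcases Finset.mem_insert.1 hx with rfl | hx
    · exact h2k
    · exact hDTT hx
  have hn2k : 2 * k ∉ labT k D (r - 1) := by
    intro h
    exact (Finset.mem_erase.1 (hDTe h)).1 rfl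
  have eT : insert (2 * k) (labT k D (r - 1)) ∪ (T \ insert (2 * k) (labT k D (r - 1))) = T :=
    Finset.union_sdiff_of_subset hDTT'
  refine ⟨dom (ptsX k D (2 * r)), by rw [card_dom hadj, hXk, hk], ?_, ?_⟩
  · have := EG_side (labS k D r) (S \ labS k D r) (by rw [eS]; exact hSsub) (ptsX k D (2 * r))
      (by rw [hXk, cS]) hadj (lend k D (2 * r - 1)) hXS σ hσ hGS
    rwa [eS] at this
  · have hwu : IsUnit (((vpos k D (2 * r - 1) : ℕ) : ZMod (4 * k + 1)) -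
        ((vpos k D 0 : ℕ) : ZMod (4 * k + 1))) := by
      rw [hdisp, ZMod.isUnit_iff_coprime]
      exact Nat.Coprime.mul_left (Nat.coprime_two_left.2 ⟨2 * k, by ring⟩) hW
    have := EG_side_top (insert (2 * k) (labT k D (r - 1)))
      (T \ insert (2 * k) (labT k D (r - 1)))
      (by rw [eT]; exact hTsub) (Finset.mem_insert_self _ _) (ptsX k D (2 * r))
      (by rw [hXk, Finset.card_insert_of_notMem hn2k, cT]; omega) hadj (lend k D (2 * r - 1))
      _ _ (by rw [Finset.erase_insert hn2k]; exact hXT) hwu τ hτ hGT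
    rwa [eT] at this

end Pool.Agent.P45
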