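import Pool.Agent.Lib.P45dba8.BridgeX
import Pool.Agent.Lib.P45dba8.PathEven

/-! # MP_45dba8: odd `k`, from a path with `k` edges and a bridge to the layers -/

set_option autoImplicit false

namespace Pool.Agent.P45

/-- The path without the steps `t`, `t + 1`. -/
def skip (D : ℕ → ℕ) (t : ℕ) : ℕ → ℕ := fun j => if j < t then D j else D (j + 2)

variable {k r t : ℕ} {w : ℕ → Bool} {D : ℕ → ℕ}

theorem slot_skip_le (D : ℕ → ℕ) (t : ℕ) {j : ℕ} (hj : j ≤ t) : slot (skip D t) j = slot D j := by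
  refine slot_congr (m := t) ?_ j hj
  intro i hi
  unfold skip
  rw [if_pos hi]

/-- The slots of the skipping path. -/
theorem slot_skip {k : ℕ} (hA : APath w D (2 * k - 1) k)
    (hB : APath w (skip D t) (2 * k - 1) (k - 2)) (ht : t + 2 ≤ k)
    (hD : D (t + 1) = D t + 1 ∨ D t = D (t + 1) + 1) (j : ℕ) (hj : t ≤ j) (hjk : j ≤ k - 2) :
    (D (t + 1) = D t + 1 → (if j % 2 = t % 2 then slot D (j + 2) = slot (skip D t) j + 1
      else slot (skip D t) j = slot D (j + 2) + 1)) ∧
    (D t = D (t + 1) + 1 → (if j % 2 = t % 2 then slot (skip D t) j = slot D (j + 2) + 1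
      else slot D (j + 2) = slot (skip D t) j + 1)) := by
  induction j, hj using Nat.le_induction with
  | base =>
    rw [if_pos rfl, if_pos rfl, slot_skip_le D t le_rfl]
    have e1 : slot D (t + 1) = D t - slot D t := rfl
    have e2 : slot D (t + 2) = D (t + 1) - slot D (t + 1) := rfl
    have h1 := hA.le t (by omega)
    have h2 := hA.le (t + 1) (by omega)
    rw [e1] at h2
    rw [e2, e1]
    constructor
    · intro h; omega
    · intro h; omega
  | succ j hj ih =>
    obtain ⟨ih1, ih2⟩ := ih (by omega)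
    have e1 : slot (skip D t) (j + 1) = D (j + 2) - slot (skip D t) j := by
      show skip D t j - slot (skip D t) j = _
      have : skip D t j = D (j + 2) := by
        unfold skip
        rw [if_neg (by omega)]
      rw [this]
    have e2 : slot D (j + 1 + 2) = D (j + 2) - slot D (j + 2) := rfl
    have h1 := hA.le (j + 2) (by omega)
    have h2 := hB.le j (by omega)
    have e3 : skip D t j = D (j + 2) := by
      unfold skip
      rw [if_neg (by omega)]
    rw [e3] at h2
    rw [e1, e2]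
    constructor
    · intro h
      have := ih1 h
      split_ifs at this ⊢ with h3 h4 h4 <;> omega
    · intro h
      have := ih2 h
      split_ifs at this ⊢ with h3 h4 h4 <;> omega

/-- The data of the bridge. -/
theorem brOK_of_skip {k : ℕ} (hA : APath w D (2 * k - 1) k)
    (hB : APath w (skip D t) (2 * k - 1) (k - 2)) (ht : t + 2 ≤ k) (hodd : k % 2 = 1)
    (hD : D (t + 1) = D t + 1 ∨ D t = D (t + 1) + 1) : ∃ b, BrOK k w D t b := by
  have hk : 1 ≤ k := by omega
  have hs := slot_skip hA hB ht hD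
  -- the positions of the skipping path
  have hlt : ∀ j ≤ k, slot D j ≤ 2 * k - 1 := fun j hj => hA.slot_lt (k := k) le_rfl hk hj
  have hlt' : ∀ j ≤ k - 2, slot (skip D t) j ≤ 2 * k - 1 := fun j hj =>
    hB.slot_lt (k := k) le_rfl hk hj
  have hpos : ∀ b : Bool, (b = true ↔ ¬ (t % 2 = 0 ↔ D (t + 1) = D t + 1)) →
      ∀ j, t ≤ j → j ≤ k - 2 →
      (bif b then vpos k (skip D t) j = vpos k D (j + 2) + 2 else
        vpos k D (j + 2) = vpos k (skip D t) j + 2) := by
    intro b hb j hj hjk
    obtain ⟨s1, s2⟩ := hs j hj hjk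
    have a1 := hlt (j + 2) (by omega)
    have a2 := hlt' j hjk
    unfold vpos
    rw [show (j + 2) % 2 = j % 2 by omega]
    cases b
    · simp only [cond_false]
      have hb' : (t % 2 = 0 ↔ D (t + 1) = D t + 1) := by
        by_contra h
        exact absurd (hb.2 h) (by decide)
      rcases hD with hD | hD
      · have := s1 hD
        have ht0 := hb'.2 hD
        split_ifs at this ⊢ <;> omega
      · have := s2 hD
        have ht0 : ¬ t % 2 = 0 := fun h => by
          have := hb'.1 h
          omega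
        split_ifs at this ⊢ <;> omega
    · simp only [cond_true]
      have hb' := hb.1 rfl
      rcases hD with hD | hD
      · have := s1 hD
        have ht0 : ¬ t % 2 = 0 := fun h => hb' ⟨fun _ => hD, fun _ => h⟩
        split_ifs at this ⊢ <;> omega
      · have := s2 hD
        have ht0 : t % 2 = 0 := by
          by_contra h
          exact hb' ⟨fun h' => absurd h' h, fun h' => by omega⟩
        split_ifs at this ⊢ <;> omega
  have hle : ∀ j ≤ t, vpos k (skip D t) j = vpos k D j := by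
    intro j hj
    unfold vpos
    rw [slot_skip_le D t hj]
  obtain ⟨b, hb⟩ : ∃ b : Bool, (b = true ↔ ¬ (t % 2 = 0 ↔ D (t + 1) = D t + 1)) := by
    by_cases h : ¬ (t % 2 = 0 ↔ D (t + 1) = D t + 1)
    · exact ⟨true, by simp [h]⟩
    · exact ⟨false, by simp only [h, iff_false]; decide⟩
  have hp := hpos b hb
  refine ⟨b, ⟨hA, hodd, by omega, ?_, ?_⟩⟩
  · have h1 := hp t le_rfl (by omega)
    rw [hle t le_rfl] at h1
    exact h1
  · intro j' hj' j hj hjk
    have h1 := hp (j - 2) (by omega) (by omega)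
    rw [show j - 2 + 2 = j by omega] at h1
    have h2 : vpos k (skip D t) (j - 2) = vpos k (skip D t) j' → j - 2 = j' := fun h =>
      hB.vpos_inj (k := k) le_rfl hk (by omega) (by omega) h
    rw [hle j' hj'] at h2
    cases b
    · simp only [cond_false] at h1 ⊢
      intro h3
      have := h2 (by omega)
      omega
    · simp only [cond_true] at h1 ⊢
      intro h3
      have := h2 (by omega)
      omega

theorem brK_zero (hk : k = 2 * r + 1) (hA : APath w D (2 * k - 1) k) {a : ℕ} (ha : a < k)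
    (hae : a % 2 = 0) : brK k D 0 a = (labS k D (r + 1)).erase (2 * k - 1 - D a) := by
  ext l
  unfold brK labS
  rw [Finset.mem_erase, Finset.mem_image, Finset.mem_image]
  constructor
  · rintro ⟨j, hj, rfl⟩
    obtain ⟨h1, h2, h3⟩ := Finset.mem_filter.1 hj
    have h1' := Finset.mem_range.1 h1
    refine ⟨fun h4 => h3 ?_, j / 2, Finset.mem_range.2 (by omega), ?_⟩
    · have a1 := hA.lt j h1'
      have a2 := hA.lt a ha
      exact hA.inj j h1' a ha (by omega)
    · show 2 * k - 1 - D (2 * (j / 2)) = 2 * k - 1 - D j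
      rw [show 2 * (j / 2) = j by omega]
  · rintro ⟨h1, j, hj, h2⟩
    have hj' := Finset.mem_range.1 hj
    refine ⟨2 * j, Finset.mem_filter.2 ⟨Finset.mem_range.2 (by omega), by omega, ?_⟩, h2⟩
    intro h3
    apply h1
    rw [← h2, h3]

theorem brK_one (hk : k = 2 * r + 1) (hA : APath w D (2 * k - 1) k) {a : ℕ} (ha : a < k)
    (hae : a % 2 = 1) : brK k D 1 a = (labT k D r).erase (2 * k - 1 - D a) := by
  ext l
  unfold brK labT
  rw [Finset.mem_erase, Finset.mem_image, Finset.mem_image]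
  constructor
  · rintro ⟨j, hj, rfl⟩
    obtain ⟨h1, h2, h3⟩ := Finset.mem_filter.1 hj
    have h1' := Finset.mem_range.1 h1
    refine ⟨fun h4 => h3 ?_, j / 2, Finset.mem_range.2 (by omega), ?_⟩
    · have a1 := hA.lt j h1'
      have a2 := hA.lt a ha
      exact hA.inj j h1' a ha (by omega)
    · show 2 * k - 1 - D (2 * (j / 2) + 1) = 2 * k - 1 - D j
      rw [show 2 * (j / 2) + 1 = j by omega]
  · rintro ⟨h1, j, hj, h2⟩
    have hj' := Finset.mem_range.1 hj
    refine ⟨2 * j + 1, Finset.mem_filter.2 ⟨Finset.mem_range.2 (by omega), by omega, ?_⟩, h2⟩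
    intro h3
    apply h1
    rw [← h2, h3]

/-- The labels of a path with `k` edges, `k = 2 r + 1`. -/
theorem path_labels (hk : k = 2 * r + 1) {S T : Finset ℕ} (hU : S ∪ T = Finset.Icc 1 (2 * k))
    (hw : IsWord k S w) (hA : APath w D (2 * k - 1) k) :
    labS k D (r + 1) ⊆ S ∧ (labS k D (r + 1)).card = r + 1 ∧
      labT k D r ⊆ T.erase (2 * k) ∧ (labT k D r).card = r := by
  obtain ⟨s1, s2⟩ := hA.labS_prop (k := k) le_rfl (r := r + 1) (by omega)
  obtain ⟨t1, t2⟩ := hA.labT_prop (k := k) le_rfl (r := r) (by omega)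
  refine ⟨?_, s2, ?_, t2⟩
  · intro l hl
    obtain ⟨h1, h2, h3⟩ := s1 l hl
    exact (hw l h1 h2).1 h3
  · intro l hl
    obtain ⟨h1, h2, h3⟩ := t1 l hl
    have h4 : l ∉ S := fun h' => by
      have := (hw l h1 h2).2 h'
      rw [h3] at this
      exact absurd this (by decide)
    have h5 : l ∈ S ∪ T := by
      rw [hU]
      exact Finset.mem_Icc.2 ⟨h1, by omega⟩
    rcases Finset.mem_union.1 h5 with h6 | h6
    · exact absurd h6 h4
    · exact Finset.mem_erase.2 ⟨by omega, h6⟩

/-- One side with the single `s`. -/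
def SideOK1 (k s : ℕ) (DD U : Finset ℕ) : Prop :=
  ∃ σ : ℕ → ℕ, Set.BijOn σ DD U ∧ GoodSide k {s} DD σ

/-- FROM A PATH WITH `k` EDGES AND A BRIDGE TO THE LAYERS. The single steps are `aS` (even index)
and `aT` (odd index), i.e. `t` and `t + 1` in some order. -/
theorem layers_of_bridge (hk : k = 2 * r + 1) (S T : Finset ℕ)
    (hU : S ∪ T = Finset.Icc 1 (2 * k)) (h2k : 2 * k ∈ T) (hw : IsWord k S w)
    (hA : APath w D (2 * k - 1) k) (hB : APath w (skip D t) (2 * k - 1) (k - 2)) (ht : t + 2 ≤ k)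
    (hD : D (t + 1) = D t + 1 ∨ D t = D (t + 1) + 1) (aS aT : ℕ)
    (haS : aS % 2 = 0) (haT : aT % 2 = 1) (haS' : aS = t ∨ aS = t + 1)
    (haT' : aT = t ∨ aT = t + 1) (u₀ : ℕ) (hu1 : u₀ ∈ T) (hu2 : u₀ ≠ 2 * k)
    (hu3 : u₀ ∉ labT k D r)
    (hSS : SideOK1 k (2 * k - 1 - D aS) ((labS k D (r + 1)).erase (2 * k - 1 - D aS))
      (S \ labS k D (r + 1)))
    (hTT : SideOK1 k (2 * k - 1 - D aT) ((labT k D r).erase (2 * k - 1 - D aT))
      (T \ (labT k D r ∪ {2 * k, u₀}))) :
    ∃ X : Finset (ZMod (4 * k + 1)), X.card = 2 * k ∧ EG (LSet k S) X ∧ EG (LSet k T) X := by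
  classical
  have hSsub : S ⊆ Finset.Icc 1 (2 * k) := hU ▸ Finset.subset_union_left
  have hTsub : T ⊆ Finset.Icc 1 (2 * k) := hU ▸ Finset.subset_union_right
  obtain ⟨p1, p2, p3, p4⟩ := path_labels hk hU hw hA
  have p3' : labT k D r ⊆ T := p3.trans (Finset.erase_subset _ _)
  obtain ⟨b, hbr⟩ := brOK_of_skip hA hB ht (by omega) hD
  obtain ⟨σ, hσ, hGS⟩ := hSS
  obtain ⟨τ, hτ, hGT⟩ := hTT
  have hsm : 2 * k - 1 - D aS ∈ labS k D (r + 1) := by
    refine Finset.mem_image.2 ⟨aS / 2, Finset.mem_range.2 (by omega), ?_⟩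
    show 2 * k - 1 - D (2 * (aS / 2)) = _
    rw [show 2 * (aS / 2) = aS by omega]
  have htm : 2 * k - 1 - D aT ∈ labT k D r := by
    refine Finset.mem_image.2 ⟨aT / 2, Finset.mem_range.2 (by omega), ?_⟩
    show 2 * k - 1 - D (2 * (aT / 2) + 1) = _
    rw [show 2 * (aT / 2) + 1 = aT by omega]
  have eK0 := brK_zero (r := r) hk hA (show aS < k by omega) haS
  have eK1 := brK_one (r := r) hk hA (show aT < k by omega) haT
  have eS : {2 * k - 1 - D aS} ∪ (labS k D (r + 1)).erase (2 * k - 1 - D aS) ∪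
      (S \ labS k D (r + 1)) = S := by
    rw [← Finset.insert_eq, Finset.insert_erase hsm]
    exact Finset.union_sdiff_of_subset p1
  have eT : {2 * k - 1 - D aT} ∪ (labT k D r).erase (2 * k - 1 - D aT) ∪
      (T \ (labT k D r ∪ {2 * k, u₀})) ∪ {2 * k, u₀} = T := by
    rw [← Finset.insert_eq, Finset.insert_erase htm]
    ext x
    simp only [Finset.mem_union, Finset.mem_sdiff, Finset.mem_insert, Finset.mem_singleton]
    constructor
    · rintro ((h | ⟨h, -⟩) | rfl | rfl)
      · exact p3' h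
      · exact h
      · exact h2k
      · exact hu1
    · intro h
      by_cases h1 : x ∈ labT k D r
      · exact Or.inl (Or.inl h1)
      · by_cases h2 : x = 2 * k ∨ x = u₀
        · exact Or.inr h2
        · exact Or.inl (Or.inr ⟨h, by tauto⟩)
  have huI := Finset.mem_Icc.1 (hTsub hu1)
  refine ⟨brA k D b t, hbr.card, ?_, ?_⟩
  · have := bridge_S hbr aS haS' haS (S \ labS k D (r + 1)) σ (by rw [eK0]; exact hσ)
      (by rw [eK0, eS]; exact hSsub) (by rw [eK0]; exact hGS)
    rwa [eK0, eS] at this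
  · have := bridge_T hbr aT haT' haT (T \ (labT k D r ∪ {2 * k, u₀})) u₀ huI.1 (by omega) τ
      (by rw [eK1]; exact hτ) (by
        rw [eK1]
        refine (Finset.subset_union_left (s₂ := {2 * k, u₀})).trans ?_
        rw [eT]
        exact hTsub) (by rw [eK1]; exact hGT)
    rwa [eK1, eT] at this

end Pool.Agent.P45
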