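import Pool.Agent.Lib.P45dba8.Cert14Chk

/-! # MP_45dba8: the certificate with fourteen blocks, rows 212 to 264 -/

set_option autoImplicit false

namespace Pool.Agent.P45.Cert14

theorem rows_E : rowsOK 212 53 = true := by decide +kernel

end Pool.Agent.P45.Cert14
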