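import Pool.Agent.Lib.P45dba8.Cert14A
import Pool.Agent.Lib.P45dba8.Cert14B
import Pool.Agent.Lib.P45dba8.Cert14C
import Pool.Agent.Lib.P45dba8.Cert14D
import Pool.Agent.Lib.P45dba8.Cert14E
import Pool.Agent.Lib.P45dba8.Cert14F

/-! # MP_45dba8: the certificate with fourteen blocks -/

set_option autoImplicit false

namespace Pool.Agent.P45.Cert14

open Cert

theorem row_ok {c : ℕ} (hc : c < 314) :
    (trOK c false = true ∧ trOK c true = true) ∧ finOK c = true := by
  by_cases h0 : c < 53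
  · exact rowsOK_spec rows_A (by omega) (by omega)
  by_cases h1 : c < 106
  · exact rowsOK_spec rows_B (by omega) (by omega)
  by_cases h2 : c < 159
  · exact rowsOK_spec rows_C (by omega) (by omega)
  by_cases h3 : c < 212
  · exact rowsOK_spec rows_D (by omega) (by omega)
  by_cases h4 : c < 265
  · exact rowsOK_spec rows_E (by omega) (by omega)
  exact rowsOK_spec rows_F (by omega) (by omega)

theorem tr_ok {c : ℕ} (hc : c < 314) (x : Bool) : trOK c x = true := by
  cases x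
  · exact (row_ok hc).1.1
  · exact (row_ok hc).1.2

theorem fin_ok {c : ℕ} (hc : c < 314) : finOK c = true := (row_ok hc).2

/-! ### The run of the automaton -/

/-- The state after `i` letters. -/
def st (w : ℕ → Bool) : ℕ → ℕ
  | 0 => 0
  | i + 1 => tgt (st w i) (w i)

/-- The reference value after `i` letters. -/
def rf (w : ℕ → Bool) : ℕ → ℕ
  | 0 => 0
  | i + 1 => rf w i + incr (st w i) (w i)

theorem tr_all {c : ℕ} (hc : c < 314) (x : Bool) :
    tgt c x < 314 ∧ hh (tgt c x) = (2 * hh c + x.toNat) % 32 ∧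
    (∀ qv ∈ thr (tgt c x), qv.1 < 122 ∧
      ∃ pu ∈ thr c, cov pu.1 pu.2 x qv.1 (qv.2 + incr c x) = true) ∧
    (4 ≤ c → 4 ≤ tgt c x ∧
      pot (tgt c x) + 108 ≤ pot c + 196 * (incr c x : ℤ) + cost (hh c) x) ∧
    (hasT (tgt c x) = true ∨ (x = false ∧ hasT c = false)) := by
  have h := tr_ok hc x
  unfold trOK at h
  simp only [Bool.and_eq_true, Bool.or_eq_true, decide_eq_true_eq, List.all_eq_true,
    List.any_eq_true, Bool.not_eq_true'] at h
  obtain ⟨⟨⟨⟨h1, h2⟩, h3⟩, h4⟩, h5⟩ := h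
  refine ⟨h1, h2, fun qv hqv => ⟨(h3 qv hqv).1, cov_of_srcs ?_⟩, fun h6 => ?_, h5⟩
  · obtain ⟨z, hz, h7⟩ := (h3 qv hqv).2
    exact ⟨z, hz, by rw [Bool.and_eq_true]; exact h7⟩
  rcases h4 with h4 | h4
  · omega
  · exact h4

theorem st_lt (w : ℕ → Bool) (i : ℕ) : st w i < 314 := by
  induction i with
  | zero => show 0 < 314; norm_num
  | succ i ih => exact (tr_all ih (w i)).1

theorem bit_succ (h : ℕ) (x : Bool) (l : ℕ) (hl : l < 5) :
    ((2 * h + x.toNat) % 32).testBit l = if l = 0 then x else h.testBit (l - 1) := by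
  rw [show (32 : ℕ) = 2 ^ 5 by norm_num, Nat.testBit_mod_two_pow]
  have e : decide (l < 5) = true := decide_eq_true hl
  rw [e, Bool.true_and]
  cases l with
  | zero =>
    rw [if_pos rfl, Nat.testBit_zero]
    cases x <;> simp [Nat.add_mod]
  | succ l =>
    rw [if_neg (Nat.succ_ne_zero l), Nat.testBit_succ, Nat.add_sub_cancel]
    congr 1
    cases x <;> simp <;> omega

theorem hist (w : ℕ → Bool) (i l : ℕ) (hl : l < 5) (hli : l ≤ i) :
    (hh (st w i)).testBit l = G w (i - l) := by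
  induction i generalizing l with
  | zero =>
    obtain rfl : l = 0 := by omega
    show (hh 0).testBit 0 = false
    decide
  | succ i ih =>
    show (hh (tgt (st w i) (w i))).testBit l = _
    rw [(tr_all (st_lt w i) (w i)).2.1, bit_succ _ _ _ hl]
    by_cases h0 : l = 0
    · subst h0
      rw [if_pos rfl]
      rfl
    · rw [if_neg h0, ih (l - 1) (by omega) (by omega)]
      congr 1
      omega

theorem threads (w : ℕ → Bool) (i : ℕ) : ∀ pu ∈ thr (st w i), pu.1 < 122 ∧
    Val w (pt pu.1).1 (pt pu.1).2 i (((rf w i : ℕ) : ℤ) - 3 + pu.2) := by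
  induction i with
  | zero =>
    intro pu hpu
    have h0 : thr (st w 0) = [(1, 3)] := by
      show thr 0 = [(1, 3)]
      decide
    rw [h0, List.mem_singleton] at hpu
    subst hpu
    exact ⟨by norm_num, 0, Reach.init, rfl, by simp [rf]⟩
  | succ i ih =>
    intro qv hqv
    obtain ⟨hq, pu, hpu, hc⟩ := (tr_all (st_lt w i) (w i)).2.2.1 qv hqv
    obtain ⟨hp, hV⟩ := ih pu hpu
    refine ⟨hq, Val.mono ?_ (cov_sound hp hq hV hc)⟩
    show ((rf w i + incr (st w i) (w i) : ℕ) : ℤ) - 3 + qv.2 ≤ _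
    push_cast
    linarith

theorem hasT_of (w : ℕ → Bool) (i : ℕ) (h : ∃ j < i, w j = true) : hasT (st w i) = true := by
  induction i with
  | zero =>
    obtain ⟨j, hj, _⟩ := h
    omega
  | succ i ih =>
    rcases (tr_all (st_lt w i) (w i)).2.2.2.2 with h1 | ⟨h1, h2⟩
    · exact h1
    · obtain ⟨j, hj, hw⟩ := h
      have hji : j < i := by
        rcases Nat.lt_succ_iff_lt_or_eq.1 hj with h3 | h3
        · exact h3
        · subst h3
          rw [h1] at hw
          exact absurd hw (by decide)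
      rw [ih ⟨j, hji, hw⟩] at h2
      exact absurd h2 (by decide)

/-! ### The potential -/

theorem sx_eq (w : ℕ → Bool) (t : ℕ) : sx w t = sg (G w t) := rfl

theorem sg_mul_self (b : Bool) : sg b * sg b = 1 := by cases b <;> rfl

/-- The energy after `i` letters. -/
def En (w : ℕ → Bool) (i : ℕ) : ℤ :=
  196 * (rf w i : ℤ) + (27 * (2 * Aw w 1 i + farw w 1) + 20 * (2 * Aw w 2 i + farw w 2) +
    12 * (2 * Aw w 3 i + farw w 3) + 5 * (2 * Aw w 4 i + farw w 4) +
    2 * (2 * Aw w 5 i + farw w 5))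

theorem Aw_succ (w : ℕ → Bool) (l i : ℕ) (h1 : 1 ≤ l) (hl : l < 6) (hi : 4 ≤ i) :
    Aw w l (i + 1) = Aw w l i + sg (w i) * sg ((hh (st w i)).testBit (l - 1)) := by
  unfold Aw
  rw [Finset.sum_Ico_succ_top (by omega), hist w i (l - 1) (by omega) (by omega)]
  rw [show i + 1 - l = i - (l - 1) by omega]
  rfl

theorem En_succ (w : ℕ → Bool) (i : ℕ) (hi : 4 ≤ i) :
    En w (i + 1) = En w i + 196 * (incr (st w i) (w i) : ℤ) + cost (hh (st w i)) (w i) := by
  unfold En cost
  rw [Aw_succ w 1 i (by norm_num) (by norm_num) hi, Aw_succ w 2 i (by norm_num) (by norm_num) hi,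
    Aw_succ w 3 i (by norm_num) (by norm_num) hi, Aw_succ w 4 i (by norm_num) (by norm_num) hi,
    Aw_succ w 5 i (by norm_num) (by norm_num) hi]
  show 196 * ((rf w i + incr (st w i) (w i) : ℕ) : ℤ) + _ = _
  push_cast
  ring

/-- The energy after four letters. -/
def e4 (a b c d : Bool) : ℤ :=
  196 * ((0 + incr 0 a + incr (tgt 0 a) b + incr (tgt (tgt 0 a) b) c +
    incr (tgt (tgt (tgt 0 a) b) c) d : ℕ) : ℤ) +
  (27 * (2 * (sg a * (-1) + sg b * sg a + sg c * sg b + sg d * sg c) + 1) +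
    20 * (2 * (sg b * (-1) + sg c * sg a + sg d * sg b) + (-1 * sg a + sg a * (-1))) +
    12 * (2 * (sg c * (-1) + sg d * sg a) + (-1 * sg b + sg a * sg a + sg b * (-1))) +
    5 * (2 * (sg d * (-1)) + (-1 * sg c + sg a * sg b + sg b * sg a + sg c * (-1))) +
    2 * (2 * 0 + (-1 * sg d + sg a * sg c + sg b * sg b + sg c * sg a + sg d * (-1))))

theorem start_ok : ∀ a b c d : Bool, 4 ≤ tgt (tgt (tgt (tgt 0 a) b) c) d ∧
    pot (tgt (tgt (tgt (tgt 0 a) b) c) d) + 432 ≤ e4 a b c d := by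
  decide +kernel

theorem En_four (w : ℕ → Bool) : En w 4 = e4 (w 0) (w 1) (w 2) (w 3) := by
  have s0 : sx w 0 = -1 := rfl
  have s1 : sx w 1 = sg (w 0) := rfl
  have s2 : sx w 2 = sg (w 1) := rfl
  have s3 : sx w 3 = sg (w 2) := rfl
  have s4 : sx w 4 = sg (w 3) := rfl
  have a1 : Aw w 1 4 = sg (w 0) * (-1) + sg (w 1) * sg (w 0) + sg (w 2) * sg (w 1) +
      sg (w 3) * sg (w 2) := by
    simp [Aw, Finset.sum_Ico_eq_sum_range, Finset.sum_range_succ, s0, s1, s2, s3, s4]
  have a2 : Aw w 2 4 = sg (w 1) * (-1) + sg (w 2) * sg (w 0) + sg (w 3) * sg (w 1) := by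
    simp [Aw, Finset.sum_Ico_eq_sum_range, Finset.sum_range_succ, s0, s1, s2, s3, s4]
  have a3 : Aw w 3 4 = sg (w 2) * (-1) + sg (w 3) * sg (w 0) := by
    simp [Aw, Finset.sum_Ico_eq_sum_range, Finset.sum_range_succ, s0, s1, s2, s3, s4]
  have a4 : Aw w 4 4 = sg (w 3) * (-1) := by
    simp [Aw, Finset.sum_Ico_eq_sum_range, Finset.sum_range_succ, s0, s1, s2, s3, s4]
  have a5 : Aw w 5 4 = 0 := by
    simp [Aw]
  have f1 : farw w 1 = 1 := by
    simp [farw, Finset.sum_range_succ, s0]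
  have f2 : farw w 2 = -1 * sg (w 0) + sg (w 0) * (-1) := by
    simp [farw, Finset.sum_range_succ, s0, s1]
  have f3 : farw w 3 = -1 * sg (w 1) + sg (w 0) * sg (w 0) + sg (w 1) * (-1) := by
    simp [farw, Finset.sum_range_succ, s0, s1, s2]
  have f4 : farw w 4 = -1 * sg (w 2) + sg (w 0) * sg (w 1) + sg (w 1) * sg (w 0) +
      sg (w 2) * (-1) := by
    simp [farw, Finset.sum_range_succ, s0, s1, s2, s3]
  have f5 : farw w 5 = -1 * sg (w 3) + sg (w 0) * sg (w 2) + sg (w 1) * sg (w 1) +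
      sg (w 2) * sg (w 0) + sg (w 3) * (-1) := by
    simp [farw, Finset.sum_range_succ, s0, s1, s2, s3, s4]
  unfold En e4
  rw [a1, a2, a3, a4, a5, f1, f2, f3, f4, f5]
  rfl

theorem pot_le (w : ℕ → Bool) (i : ℕ) (hi : 4 ≤ i) :
    4 ≤ st w i ∧ pot (st w i) + 108 * (i : ℤ) ≤ En w i := by
  induction i, hi using Nat.le_induction with
  | base =>
    rw [En_four]
    exact start_ok (w 0) (w 1) (w 2) (w 3)
  | succ i hi ih =>
    obtain ⟨h1, h2⟩ := (tr_all (st_lt w i) (w i)).2.2.2.1 ih.1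
    refine ⟨h1, ?_⟩
    rw [En_succ w i hi]
    show pot (tgt (st w i) (w i)) + _ ≤ _
    push_cast
    linarith [ih.2]

theorem near_eq (w : ℕ → Bool) (D : ℕ) (hD : 5 ≤ D) :
    27 * nearw w 1 D + 20 * nearw w 2 D + 12 * nearw w 3 D + 5 * nearw w 4 D +
      2 * nearw w 5 D =
      nearh (hh (st w D)) := by
  have t0 : sg ((hh (st w D)).testBit 0) = sx w D := by
    rw [hist w D 0 (by norm_num) (by omega)]; rfl
  have t1 : sg ((hh (st w D)).testBit 1) = sx w (D - 1) := by
    rw [hist w D 1 (by norm_num) (by omega)]; rfl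
  have t2 : sg ((hh (st w D)).testBit 2) = sx w (D - 2) := by
    rw [hist w D 2 (by norm_num) (by omega)]; rfl
  have t3 : sg ((hh (st w D)).testBit 3) = sx w (D - 3) := by
    rw [hist w D 3 (by norm_num) (by omega)]; rfl
  have q : ∀ t, sx w t * sx w t = 1 := fun t => sg_mul_self _
  have d1 : D + 1 - 1 = D := by omega
  have d2 : D + 1 - 2 = D - 1 := by omega
  have d3 : D + 1 - 3 = D - 2 := by omega
  have d4 : D + 1 - 4 = D - 3 := by omega
  have n1 : nearw w 1 D = 0 := by simp [nearw]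
  have n2 : nearw w 2 D = 1 := by
    have : Finset.Icc 1 (2 - 1) = {1} := by decide
    rw [nearw, this, Finset.sum_singleton]
    exact q D
  have n3 : nearw w 3 D = sx w D * sx w (D - 1) + sx w (D - 1) * sx w D := by
    have : Finset.Icc 1 (3 - 1) = {1, 2} := by decide
    rw [nearw, this, Finset.sum_pair (by norm_num)]
    rfl
  have n4 : nearw w 4 D = sx w D * sx w (D - 2) + (sx w (D - 1) * sx w (D - 1) +
      sx w (D - 2) * sx w D) := by
    have : Finset.Icc 1 (4 - 1) = {1, 2, 3} := by decide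
    rw [nearw, this, Finset.sum_insert (by decide), Finset.sum_pair (by norm_num)]
    rfl
  have n5 : nearw w 5 D = sx w D * sx w (D - 3) + (sx w (D - 1) * sx w (D - 2) +
      (sx w (D - 2) * sx w (D - 1) + sx w (D - 3) * sx w D)) := by
    have : Finset.Icc 1 (5 - 1) = {1, 2, 3, 4} := by decide
    rw [nearw, this, Finset.sum_insert (by decide), Finset.sum_insert (by decide),
      Finset.sum_pair (by norm_num)]
    rfl
  unfold nearh
  rw [n1, n2, n3, n4, n5, t0, t1, t2, t3, q (D - 1)]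
  ring

/-- **The certificate.** -/
theorem cert14 (w : ℕ → Bool) (D : ℕ) (hD : 5 ≤ D) (hS : ∃ i < D, w i = true) :
    ∃ m, Reach P14 w D m ∧ m % 2 = 1 ∧
      108 * (D : ℤ) - 558 ≤ 196 * (m : ℤ) + (27 * Cw w 1 D + 20 * Cw w 2 D + 12 * Cw w 3 D +
        5 * Cw w 4 D + 2 * Cw w 5 D) := by
  have hT := hasT_of w D hS
  unfold hasT at hT
  rw [List.any_eq_true] at hT
  obtain ⟨pu, hpu, h0⟩ := hT
  have h0' : pu.1 = 0 := by simpa using h0
  obtain ⟨_, hV⟩ := threads w D pu hpu
  rw [h0', pt_small 0 (by norm_num)] at hV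
  obtain ⟨m, h1, h2, h3⟩ := hV
  obtain ⟨h4, h5⟩ := pot_le w D (by omega)
  have h6 := fin_ok (st_lt w D)
  unfold finOK at h6
  rw [Bool.or_eq_true, decide_eq_true_eq, List.all_eq_true] at h6
  rcases h6 with h6 | h6
  · omega
  have h7 := h6 pu hpu
  rw [h0'] at h7
  have h8 : -558 ≤ pot (st w D) + 196 * ((pu.2 : ℤ) - 3) + nearh (hh (st w D)) := by
    simpa using h7
  refine ⟨m, h1, ?_, ?_⟩
  · rcases Nat.mod_two_eq_zero_or_one m with e | e
    · rw [e] at h2
      exact absurd h2 (by decide)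
    · exact e
  · have h9 := near_eq w D hD
    unfold En at h5
    unfold Cw
    linarith

end Pool.Agent.P45.Cert14
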