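import Mathlib

/-! # MP_45dba8: the table of the certificate (generated) -/

set_option autoImplicit false

namespace Pool.Agent.P45.Cert

/-- The patterns: the letters still required, and the state reached afterwards. -/
def patL : List (List (Option Bool) × Bool) := [
  ([], false),
  ([], true),
  ([none], false),
  ([none], true),
  ([some false, none], true),
  ([some true, none], false),
  ([some false, some false, none], true),
  ([some false, some true, none], false),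
  ([some true, some false, none], true),
  ([some true, some true, none], false),
  ([some false, some true, some false, none], true),
  ([some false, some true, some true, none], false),
  ([some true, some false, some false, none], true),
  ([some true, some false, some true, none], false),
  ([some false, some false, some true, some false, none], true),
  ([some false, some false, some true, some true, none], false),
  ([some false, some true, some false, some true, none], false),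
  ([some true, some false, some true, some false, none], true),
  ([some true, some true, some false, some false, none], true),
  ([some true, some true, some false, some true, none], false),
  ([some false, some true, some false, some true, some false, none], true),
  ([some false, some true, some true, some false, some false, none], true),
  ([some false, some true, some true, some false, some true, none], false),
  ([some true, some false, some false, some true, some false, none], true),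
  ([some true, some false, some false, some true, some true, none], false),
  ([some true, some false, some true, some false, some true, none], false),
  ([some false, some false, some true, some false, some true, some false, none], true),
  ([some false, some false, some true, some true, some false, some true, none], false),
  ([some false, some true, some false, some false, some true, some true, none], false),
  ([some true, some false, some true, some true, some false, some false, none], true),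
  ([some true, some true, some false, some false, some true, some false, none], true),
  ([some true, some true, some false, some true, some false, some true, none], false),
  ([some false, some true, some true, some false, some true, some false, some true, none], false),
  ([some true, some false, some false, some true, some false, some true, some false, none], true),
  ([some false, some false, some true, some true, some false, some true, some false, some true, none], false),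
  ([some true, some true, some false, some false, some true, some false, some true, some false, none], true)]

/-- The derivatives of the patterns by the letters `false`, `true` (99: none). -/
def derL : List (ℕ × ℕ) := [(99, 99), (99, 99), (0, 0), (1, 1), (3, 99), (99, 2), (4, 99), (5, 99), (99, 4), (99, 5), (8, 99), (9, 99), (99, 6), (99, 7), (10, 99), (11, 99), (13, 99), (99, 10), (99, 12), (99, 13), (17, 99), (18, 99), (19, 99), (99, 14), (99, 15), (99, 16), (20, 99), (22, 99), (24, 99), (99, 21), (99, 23), (99, 25), (31, 99), (99, 26), (32, 99), (99, 33)]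

/-- Blocks started in state `false` by the letter `false`: pattern and block. -/
def stL00 : List (ℕ × ℕ) := [(1, 0), (15, 1), (27, 2), (28, 3), (34, 4)]

/-- Blocks started in state `false` by the letter `true`: pattern and block. -/
def stL01 : List (ℕ × ℕ) := [(15, 1), (27, 2), (28, 3), (34, 4)]

/-- Blocks started in state `true` by the letter `false`: pattern and block. -/
def stL10 : List (ℕ × ℕ) := [(18, 1), (30, 2), (29, 3), (35, 4)]

/-- Blocks started in state `true` by the letter `true`: pattern and block. -/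
def stL11 : List (ℕ × ℕ) := [(0, 0), (18, 1), (30, 2), (29, 3), (35, 4)]

/-- The states: last five letters, potential, target and increment for `false`, for `true`,
threads (pattern, value + 3). -/
def rowL : List (ℕ × ℤ × ℕ × ℕ × ℕ × ℕ × List (ℕ × ℕ)) := [
  (0, 0, 2, 0, 1, 1, [(1, 3)]),
  (1, 0, 4, 1, 5, 0, [(0, 3), (1, 2), (18, 6), (29, 8), (30, 8), (35, 10)]),
  (0, 36, 2, 0, 3, 1, [(1, 3), (18, 7), (29, 9), (30, 9), (35, 11)]),
  (1, 16, 6, 1, 7, 0, [(0, 3), (1, 2), (12, 6), (18, 6), (21, 8), (23, 8), (29, 8), (30, 8), (33, 10), (35, 10)]),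
  (2, 80, 8, 0, 9, 1, [(0, 2), (1, 3), (15, 6), (27, 8), (28, 8), (34, 10)]),
  (3, -4, 10, 1, 11, 0, [(0, 3), (1, 2), (12, 6), (15, 7), (18, 6), (21, 8), (23, 8), (27, 9), (28, 9), (29, 8), (30, 8), (33, 10), (34, 11), (35, 10)]),
  (2, 52, 8, 0, 12, 1, [(0, 2), (1, 3), (15, 6), (18, 7), (27, 8), (28, 8), (34, 10)]),
  (3, -40, 13, 1, 11, 0, [(0, 3), (1, 2), (6, 6), (12, 6), (14, 8), (18, 6), (21, 8), (23, 8), (26, 10), (28, 9), (29, 8), (30, 8), (33, 10), (35, 10)]),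
  (4, 32, 14, 0, 15, 1, [(0, 2), (1, 3), (11, 6), (15, 6), (18, 7), (22, 8), (24, 8), (27, 8), (28, 8), (29, 9), (30, 9), (32, 10), (34, 10), (35, 11)]),
  (5, 92, 16, 1, 17, 0, [(0, 3), (1, 2), (18, 6), (29, 8), (30, 8), (35, 10)]),
  (6, 16, 18, 0, 19, 1, [(0, 2), (1, 3), (11, 6), (15, 6), (18, 7), (22, 8), (24, 8), (27, 8), (28, 8), (32, 10), (34, 10)]),
  (7, -68, 20, 1, 21, 0, [(0, 3), (1, 2), (6, 6), (12, 6), (14, 8), (18, 6), (21, 8), (23, 8), (26, 10), (28, 9), (29, 8), (30, 8), (33, 10), (35, 10)]),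
  (5, -20, 16, 1, 22, 0, [(0, 3), (1, 2), (12, 6), (18, 6), (29, 8), (30, 8), (35, 10)]),
  (6, -32, 23, 0, 19, 1, [(0, 2), (1, 3), (4, 5), (10, 7), (18, 7), (20, 9), (24, 8)]),
  (8, -64, 24, 0, 25, 1, [(0, 2), (1, 3), (9, 6), (11, 6), (15, 6), (19, 8), (22, 8), (24, 8), (27, 8), (28, 8), (29, 9), (31, 10), (32, 10), (34, 10)]),
  (9, -4, 26, 1, 27, 0, [(0, 3), (1, 2), (12, 6), (15, 7), (18, 6), (21, 8), (23, 8), (29, 8), (30, 8), (33, 10), (35, 10)]),
  (10, 0, 28, 0, 29, 1, [(0, 2), (1, 3), (15, 6), (27, 8), (28, 8), (34, 10)]),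
  (11, -20, 30, 1, 31, 0, [(0, 3), (1, 2), (12, 6), (15, 7), (18, 6), (21, 8), (23, 8), (27, 9), (28, 9), (29, 8), (30, 8), (33, 10), (34, 11), (35, 10)]),
  (12, -48, 32, 0, 33, 1, [(0, 2), (1, 3), (9, 6), (11, 6), (15, 6), (19, 8), (22, 8), (24, 8), (27, 8), (28, 8), (29, 9), (31, 10), (32, 10), (34, 10)]),
  (13, 4, 34, 1, 35, 0, [(0, 3), (1, 2), (12, 6), (15, 7), (18, 6), (29, 8), (30, 8), (35, 10)]),
  (14, -72, 36, 0, 37, 1, [(0, 2), (1, 3), (4, 5), (10, 7), (18, 7), (20, 9), (24, 8)]),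
  (15, -68, 38, 1, 39, 0, [(0, 3), (1, 2), (6, 6), (12, 6), (14, 8), (18, 6), (21, 8), (23, 8), (26, 10), (28, 9), (29, 8), (30, 8), (33, 10), (35, 10)]),
  (11, -44, 40, 1, 31, 0, [(0, 3), (1, 2), (6, 6), (12, 6), (18, 6), (21, 8), (23, 8), (28, 9), (29, 8), (30, 8), (33, 10), (35, 10)]),
  (12, -72, 41, 2, 42, 2, [(0, 2), (1, 3), (3, 5), (8, 7), (17, 9)]),
  (16, -68, 43, 0, 44, 1, [(0, 2), (1, 3), (9, 6), (11, 6), (15, 6), (19, 8), (22, 8), (24, 8), (27, 8), (28, 8), (29, 9), (31, 10), (32, 10), (34, 10)]),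
  (17, -72, 45, 1, 46, 0, [(0, 3), (5, 5), (13, 7), (15, 7), (21, 8), (25, 9)]),
  (18, 4, 47, 0, 12, 1, [(0, 2), (1, 3), (11, 6), (15, 6), (18, 7), (27, 8), (28, 8), (34, 10)]),
  (19, -48, 13, 1, 11, 0, [(0, 3), (1, 2), (6, 6), (12, 6), (14, 8), (18, 6), (21, 8), (23, 8), (26, 10), (28, 9), (29, 8), (30, 8), (33, 10), (35, 10)]),
  (20, -20, 14, 0, 15, 1, [(0, 2), (1, 3), (11, 6), (15, 6), (18, 7), (22, 8), (24, 8), (27, 8), (28, 8), (29, 9), (30, 9), (32, 10), (34, 10), (35, 11)]),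
  (21, 0, 16, 1, 17, 0, [(0, 3), (1, 2), (18, 6), (29, 8), (30, 8), (35, 10)]),
  (22, -4, 18, 0, 19, 1, [(0, 2), (1, 3), (11, 6), (15, 6), (18, 7), (22, 8), (24, 8), (27, 8), (28, 8), (32, 10), (34, 10)]),
  (23, -64, 20, 1, 21, 0, [(0, 3), (1, 2), (6, 6), (12, 6), (14, 8), (18, 6), (21, 8), (23, 8), (26, 10), (28, 9), (29, 8), (30, 8), (33, 10), (35, 10)]),
  (24, -68, 24, 0, 25, 1, [(0, 2), (1, 3), (9, 6), (11, 6), (15, 6), (19, 8), (22, 8), (24, 8), (27, 8), (28, 8), (29, 9), (31, 10), (32, 10), (34, 10)]),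
  (25, -32, 26, 1, 48, 0, [(0, 3), (5, 5), (13, 7), (15, 7), (21, 8), (25, 9)]),
  (26, -20, 49, 0, 29, 1, [(0, 2), (1, 3), (11, 6), (15, 6), (27, 8), (28, 8), (34, 10)]),
  (27, -48, 40, 1, 31, 0, [(0, 3), (1, 2), (6, 6), (12, 6), (18, 6), (21, 8), (23, 8), (28, 9), (29, 8), (30, 8), (33, 10), (35, 10)]),
  (28, -124, 41, 2, 42, 2, [(0, 2), (1, 3), (3, 5), (8, 7), (17, 9)]),
  (29, -32, 34, 1, 35, 0, [(0, 3), (1, 2), (12, 6), (15, 7), (18, 6), (29, 8), (30, 8), (35, 10)]),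
  (30, -76, 36, 0, 37, 1, [(0, 2), (1, 3), (4, 5), (10, 7), (18, 7), (20, 9), (24, 8)]),
  (31, -64, 38, 1, 39, 0, [(0, 3), (1, 2), (6, 6), (12, 6), (14, 8), (18, 6), (21, 8), (23, 8), (26, 10), (28, 9), (29, 8), (30, 8), (33, 10), (35, 10)]),
  (22, -36, 50, 0, 19, 1, [(0, 2), (1, 3), (4, 5), (18, 7), (24, 8), (28, 8)]),
  (24, 44, 51, 0, 52, 1, [(0, 0), (1, 3)]),
  (25, -8, 53, 0, 54, 1, [(0, 2), (1, 3), (4, 5), (10, 7)]),
  (0, -64, 43, 0, 44, 1, [(0, 2), (1, 3), (9, 6), (11, 6), (15, 6), (19, 8), (22, 8), (24, 8), (27, 8), (28, 8), (29, 9), (31, 10), (32, 10), (34, 10)]),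
  (1, -76, 45, 1, 46, 0, [(0, 3), (5, 5), (13, 7), (15, 7), (21, 8), (25, 9)]),
  (2, -32, 47, 0, 12, 1, [(0, 2), (1, 3), (11, 6), (15, 6), (18, 7), (27, 8), (28, 8), (34, 10)]),
  (3, -124, 55, 2, 56, 2, [(0, 3), (2, 5), (7, 7), (16, 9)]),
  (4, -48, 14, 0, 57, 1, [(0, 2), (1, 3), (9, 6), (11, 6), (15, 6), (22, 8), (24, 8), (27, 8), (28, 8), (29, 9), (32, 10), (34, 10)]),
  (19, -72, 55, 2, 56, 2, [(0, 3), (2, 5), (7, 7), (16, 9)]),
  (20, -44, 14, 0, 57, 1, [(0, 2), (1, 3), (9, 6), (11, 6), (15, 6), (22, 8), (24, 8), (27, 8), (28, 8), (29, 9), (32, 10), (34, 10)]),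
  (12, -80, 41, 2, 58, 2, [(0, 2), (1, 3), (3, 5), (24, 8)]),
  (16, 44, 59, 0, 3, 1, [(0, 0), (1, 3), (18, 7), (29, 9), (30, 9), (35, 11)]),
  (17, 40, 4, 1, 5, 0, [(0, 3), (1, 2), (18, 6), (29, 8), (30, 8), (35, 10)]),
  (18, -68, 60, 2, 61, 2, [(0, 2), (1, 3), (3, 5), (8, 7)]),
  (19, 48, 62, 1, 63, 0, [(0, 3), (1, 2), (18, 6), (29, 8), (30, 8), (35, 10)]),
  (6, -8, 64, 1, 65, 0, [(0, 3), (5, 5), (13, 7)]),
  (7, 44, 66, 1, 67, 0, [(0, 3)]),
  (9, -36, 26, 1, 68, 0, [(0, 3), (5, 5), (15, 7), (21, 8), (29, 8)]),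
  (25, 32, 69, 0, 54, 1, [(0, 2), (1, 3), (15, 6)]),
  (0, 48, 59, 0, 3, 1, [(0, 0), (1, 3), (18, 7), (29, 9), (30, 9), (35, 11)]),
  (4, 104, 70, 0, 71, 1, [(0, 0), (1, 3)]),
  (5, 44, 72, 0, 73, 1, [(0, 2), (1, 3), (4, 5)]),
  (6, 64, 74, 0, 75, 1, [(0, 2), (1, 3), (15, 6), (27, 8), (28, 8), (34, 10)]),
  (7, 28, 76, 1, 21, 0, [(0, 3), (1, 2), (12, 6), (15, 7), (18, 6), (21, 8), (23, 8), (27, 9), (28, 9), (29, 8), (30, 8), (33, 10), (34, 11), (35, 10)]),
  (12, 48, 77, 0, 78, 1, [(0, 2), (1, 3), (15, 6), (27, 8), (28, 8), (34, 10)]),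
  (13, -68, 79, 2, 80, 2, [(0, 3), (2, 5), (7, 7)]),
  (14, 40, 81, 0, 82, 1, [(0, 2), (1, 3), (15, 6), (27, 8), (28, 8), (34, 10)]),
  (15, 44, 83, 1, 84, 0, [(0, 3), (15, 7), (27, 9), (28, 9), (34, 11)]),
  (19, -80, 85, 2, 56, 2, [(0, 3), (2, 5), (21, 8)]),
  (18, -28, 47, 0, 86, 1, [(0, 2), (1, 3), (11, 6), (15, 6), (18, 7), (27, 8), (28, 8), (29, 9), (30, 9), (34, 10), (35, 11)]),
  (8, 88, 51, 0, 87, 1, [(0, 0), (1, 3), (18, 7), (29, 9), (30, 9), (35, 11)]),
  (9, 116, 88, 1, 89, 0, [(0, 3), (1, 2), (18, 6), (29, 8), (30, 8), (35, 10)]),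
  (10, -32, 90, 2, 91, 2, [(0, 2), (1, 3), (3, 5)]),
  (11, 116, 92, 1, 93, 0, [(0, 3), (1, 2), (18, 6), (29, 8), (30, 8), (35, 10)]),
  (12, 24, 32, 0, 94, 1, [(0, 2), (1, 3), (11, 6), (15, 6), (18, 7), (22, 8), (24, 8), (27, 8), (28, 8), (29, 9), (30, 9), (32, 10), (34, 10), (35, 11)]),
  (13, 100, 95, 1, 96, 0, [(0, 3), (1, 2), (18, 6), (29, 8), (30, 8), (35, 10)]),
  (14, 24, 97, 0, 37, 1, [(0, 2), (1, 3), (11, 6), (15, 6), (18, 7), (22, 8), (24, 8), (27, 8), (28, 8), (32, 10), (34, 10)]),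
  (24, 28, 24, 0, 98, 1, [(0, 2), (1, 3), (11, 6), (15, 6), (18, 7), (22, 8), (24, 8), (27, 8), (28, 8), (29, 9), (30, 9), (32, 10), (34, 10), (35, 11)]),
  (25, 64, 88, 1, 89, 0, [(0, 3), (1, 2), (18, 6), (29, 8), (30, 8), (35, 10)]),
  (26, 44, 99, 1, 100, 0, [(0, 3), (5, 5)]),
  (27, 104, 92, 1, 101, 0, [(0, 3)]),
  (28, -4, 32, 0, 94, 1, [(0, 2), (1, 3), (11, 6), (15, 6), (18, 7), (22, 8), (24, 8), (27, 8), (28, 8), (29, 9), (30, 9), (32, 10), (34, 10), (35, 11)]),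
  (29, 80, 95, 1, 96, 0, [(0, 3), (1, 2), (18, 6), (29, 8), (30, 8), (35, 10)]),
  (30, 36, 97, 0, 102, 1, [(0, 2), (1, 3), (11, 6), (15, 6), (22, 8), (24, 8), (27, 8), (28, 8), (32, 10), (34, 10)]),
  (31, 48, 83, 1, 84, 0, [(0, 3), (15, 7), (27, 9), (28, 9), (34, 11)]),
  (6, 32, 64, 1, 103, 0, [(0, 3), (1, 2), (18, 6)]),
  (5, -12, 104, 1, 105, 0, [(0, 3), (1, 2), (12, 6), (18, 6), (21, 8), (23, 8), (29, 8), (30, 8), (33, 10), (35, 10)]),
  (17, 80, 6, 1, 7, 0, [(0, 3), (1, 2), (12, 6), (18, 6), (21, 8), (23, 8), (29, 8), (30, 8), (33, 10), (35, 10)]),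
  (18, 100, 8, 0, 9, 1, [(0, 2), (1, 3), (15, 6), (27, 8), (28, 8), (34, 10)]),
  (19, 24, 10, 1, 11, 0, [(0, 3), (1, 2), (12, 6), (15, 7), (18, 6), (21, 8), (23, 8), (27, 9), (28, 9), (29, 8), (30, 8), (33, 10), (34, 11), (35, 10)]),
  (20, 140, 70, 0, 71, 1, [(0, 0), (1, 3)]),
  (21, 80, 106, 0, 73, 1, [(0, 2), (1, 3)]),
  (22, 116, 74, 0, 75, 1, [(0, 2), (1, 3), (15, 6), (27, 8), (28, 8), (34, 10)]),
  (23, 96, 76, 1, 21, 0, [(0, 3), (1, 2), (12, 6), (15, 7), (18, 6), (21, 8), (23, 8), (27, 9), (28, 9), (29, 8), (30, 8), (33, 10), (34, 11), (35, 10)]),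
  (25, 16, 26, 1, 27, 0, [(0, 3), (1, 2), (12, 6), (15, 7), (18, 6), (21, 8), (23, 8), (29, 8), (30, 8), (33, 10), (35, 10)]),
  (26, 92, 28, 0, 29, 1, [(0, 2), (1, 3), (15, 6), (27, 8), (28, 8), (34, 10)]),
  (27, 64, 30, 1, 31, 0, [(0, 3), (1, 2), (12, 6), (15, 7), (18, 6), (21, 8), (23, 8), (27, 9), (28, 9), (29, 8), (30, 8), (33, 10), (34, 11), (35, 10)]),
  (28, -20, 32, 0, 33, 1, [(0, 2), (1, 3), (9, 6), (11, 6), (15, 6), (19, 8), (22, 8), (24, 8), (27, 8), (28, 8), (29, 9), (31, 10), (32, 10), (34, 10)]),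
  (17, 24, 45, 1, 7, 0, [(0, 3), (1, 2), (12, 6), (15, 7), (18, 6), (21, 8), (23, 8), (29, 8), (30, 8), (33, 10), (35, 10)]),
  (20, 116, 107, 0, 71, 1, [(0, 2), (1, 3), (15, 6), (27, 8), (28, 8), (34, 10)]),
  (21, -32, 108, 2, 109, 2, [(0, 3), (2, 5)]),
  (23, 88, 110, 1, 67, 0, [(0, 3), (15, 7), (27, 9), (28, 9), (34, 11)]),
  (29, 80, 34, 1, 96, 0, [(0, 3), (1, 2), (15, 7), (18, 6), (29, 8), (30, 8), (35, 10)]),
  (13, -28, 111, 1, 35, 0, [(0, 3), (1, 2), (12, 6), (15, 7), (18, 6), (27, 9), (28, 9), (29, 8), (30, 8), (34, 11), (35, 10)]),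
  (10, 8, 28, 0, 112, 1, [(0, 2), (1, 3), (15, 6), (18, 7), (27, 8), (28, 8), (34, 10)]),
  (11, -36, 113, 1, 31, 0, [(0, 3), (1, 2), (6, 6), (12, 6), (14, 8), (18, 6), (21, 8), (23, 8), (26, 10), (28, 9), (29, 8), (30, 8), (33, 10), (35, 10)]),
  (10, 0, 28, 0, 114, 1, [(0, 2), (1, 3), (15, 6), (18, 7), (27, 8), (28, 8), (29, 9), (30, 9), (34, 10), (35, 11)]),
  (8, 96, 24, 0, 98, 1, [(0, 2), (1, 3), (11, 6), (15, 6), (18, 7), (22, 8), (24, 8), (27, 8), (28, 8), (29, 9), (30, 9), (32, 10), (34, 10), (35, 11)]),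
  (10, 80, 99, 1, 115, 0, [(0, 3), (1, 2)]),
  (11, 140, 92, 1, 101, 0, [(0, 3)]),
  (14, 80, 97, 0, 102, 1, [(0, 2), (1, 3), (11, 6), (15, 6), (22, 8), (24, 8), (27, 8), (28, 8), (32, 10), (34, 10)]),
  (26, -12, 116, 0, 117, 1, [(0, 2), (1, 3), (11, 6), (15, 6), (22, 8), (24, 8), (27, 8), (28, 8), (32, 10), (34, 10)]),
  (21, 24, 16, 1, 22, 0, [(0, 3), (1, 2), (12, 6), (18, 6), (29, 8), (30, 8), (35, 10)]),
  (22, -20, 23, 0, 19, 1, [(0, 2), (1, 3), (4, 5), (10, 7), (18, 7), (20, 9), (24, 8)]),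
  (21, 16, 104, 1, 105, 0, [(0, 3), (1, 2), (12, 6), (18, 6), (21, 8), (23, 8), (29, 8), (30, 8), (33, 10), (35, 10)]),
  (21, 0, 118, 1, 17, 0, [(0, 3), (1, 2), (15, 7), (18, 6), (27, 9), (28, 9), (29, 8), (30, 8), (34, 11), (35, 10)]),
  (20, -36, 14, 0, 119, 1, [(0, 2), (1, 3), (9, 6), (11, 6), (15, 6), (19, 8), (22, 8), (24, 8), (27, 8), (28, 8), (29, 9), (31, 10), (32, 10), (34, 10)]),
  (21, 8, 120, 1, 17, 0, [(0, 3), (1, 2), (15, 7), (18, 6), (29, 8), (30, 8), (35, 10)]),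
  (10, 16, 116, 0, 117, 1, [(0, 2), (1, 3), (11, 6), (15, 6), (22, 8), (24, 8), (27, 8), (28, 8), (32, 10), (34, 10)]),
  (9, -20, 26, 1, 48, 0, [(0, 3), (5, 5), (13, 7), (15, 7), (21, 8), (25, 9)]),
  (10, 24, 49, 0, 29, 1, [(0, 2), (1, 3), (11, 6), (15, 6), (27, 8), (28, 8), (34, 10)])]

end Pool.Agent.P45.Cert
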