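import Mathlib

/-! # MP_45dba8: alternating paths from blocks

The path is given by the depths `D i` of its edges (label `2k-1-D i`); `slot D i` is the slot of the
vertex `i`, counted from the left end for even `i` and from the right end for odd `i`. -/

set_option autoImplicit false

namespace Pool.Agent.P45

/-- The slots of the vertices: `slot 0 = 0`, `slot (i+1) = D i - slot i`. -/
def slot (D : ℕ → ℕ) : ℕ → ℕ
  | 0 => 0
  | i + 1 => D i - slot D i

theorem slot_congr {D D' : ℕ → ℕ} {m : ℕ} (h : ∀ i < m, D i = D' i) :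
    ∀ i ≤ m, slot D i = slot D' i := by
  intro i
  induction i with
  | zero => intro _; rfl
  | succ i ih =>
    intro hi
    show D i - slot D i = D' i - slot D' i
    rw [ih (by omega), h i (by omega)]

/-- The invariant of a path with `m` edges at the depth `d`. -/
structure PInv (w : ℕ → Bool) (D : ℕ → ℕ) (d m : ℕ) : Prop where
  le : ∀ i < m, slot D i ≤ D i
  lt : ∀ i < m, D i < d
  inj : ∀ i < m, ∀ j < m, D i = D j → i = j
  letter : ∀ i < m, w (D i) = decide (i % 2 = 0)
  sinj : ∀ i ≤ m, ∀ j ≤ m, i % 2 = j % 2 → slot D i = slot D j → i = j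
  last : ∀ i ≤ m, i % 2 = m % 2 → slot D i ≤ slot D m
  other : ∀ i ≤ m, i % 2 ≠ m % 2 → slot D i + slot D m < d
  dm : slot D m ≤ d

/-- The relative depths of a block as a function. -/
def bfun (r : List ℕ) (j : ℕ) : ℕ := r.getD j 0

/-- Validity of a block: `r` is the list of the relative depths, `K` the cost. -/
def BlkOK (r : List ℕ) (K : ℕ) : Prop :=
  1 ≤ r.length ∧
  (∀ j < r.length, slot (bfun r) j ≤ bfun r j) ∧
  (∀ j < r.length, bfun r j < K) ∧
  (∀ i < r.length, ∀ j < r.length, bfun r i = bfun r j → i = j) ∧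
  (∀ i < r.length + 1, ∀ j < r.length + 1, i % 2 = j % 2 →
    slot (bfun r) i = slot (bfun r) j → i = j) ∧
  (∀ i < r.length + 1, i % 2 = r.length % 2 → slot (bfun r) i ≤ slot (bfun r) r.length) ∧
  (∀ i < r.length + 1, i % 2 ≠ r.length % 2 → slot (bfun r) i + slot (bfun r) r.length < K)

instance (r : List ℕ) (K : ℕ) : Decidable (BlkOK r K) := by
  unfold BlkOK
  infer_instance

/-- States reachable by waiting and by blocks: depth `d`, `m` steps. `w d` is true when the label
`2k-1-d` belongs to `S`. -/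
inductive Reach (B : List (List ℕ × ℕ)) (w : ℕ → Bool) : ℕ → ℕ → Prop
  | init : Reach B w 0 0
  | wait {d m : ℕ} : Reach B w d m → Reach B w (d + 1) m
  | block {d m : ℕ} (b : List ℕ × ℕ) (hb : b ∈ B) (h : Reach B w d m)
      (hw : ∀ j < b.1.length, w (d + bfun b.1 j) = decide ((m + j) % 2 = 0)) :
      Reach B w (d + b.2) (m + b.1.length)

theorem PInv.init (w : ℕ → Bool) (D : ℕ → ℕ) : PInv w D 0 0 where
  le := by intro i hi; omega
  lt := by intro i hi; omega
  inj := by intro i hi; omega
  letter := by intro i hi; omega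
  sinj := by intro i hi j hj _ _; omega
  last := by
    intro i hi _
    have : i = 0 := by omega
    subst this
    exact le_refl _
  other := by intro i hi h; exact absurd (by rw [Nat.le_zero.1 hi]) h
  dm := le_refl 0

theorem PInv.wait {w : ℕ → Bool} {D : ℕ → ℕ} {d m : ℕ} (h : PInv w D d m) :
    PInv w D (d + 1) m where
  le := h.le
  lt := fun i hi => Nat.lt_succ_of_lt (h.lt i hi)
  inj := h.inj
  letter := h.letter
  sinj := h.sinj
  last := h.last
  other := fun i hi h' => Nat.lt_succ_of_lt (h.other i hi h')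
  dm := Nat.le_succ_of_le h.dm

theorem PInv.ext' {w : ℕ → Bool} {D : ℕ → ℕ} {d m : ℕ} (h : PInv w D d m) {ρ : ℕ → ℕ} {g K : ℕ}
    (b0 : 1 ≤ g) (b1 : ∀ j < g, slot ρ j ≤ ρ j) (b2 : ∀ j < g, ρ j < K)
    (b3 : ∀ i < g, ∀ j < g, ρ i = ρ j → i = j)
    (b4 : ∀ i < g + 1, ∀ j < g + 1, i % 2 = j % 2 → slot ρ i = slot ρ j → i = j)
    (b5 : ∀ i < g + 1, i % 2 = g % 2 → slot ρ i ≤ slot ρ g)
    (b6 : ∀ i < g + 1, i % 2 ≠ g % 2 → slot ρ i + slot ρ g < K)
    (hw : ∀ j < g, w (d + ρ j) = decide ((m + j) % 2 = 0)) :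
    ∃ D', PInv w D' (d + K) (m + g) ∧ (∀ i < m, D' i = D i) ∧ (∀ j, D' (m + j) = d + ρ j) := by
  obtain ⟨D', hD'⟩ : ∃ D' : ℕ → ℕ, D' = fun i => if i < m then D i else d + ρ (i - m) := ⟨_, rfl⟩
  have e1 : ∀ i < m, D' i = D i := fun i hi => by rw [hD']; simp only [if_pos hi]
  have e2 : ∀ j, D' (m + j) = d + ρ j := fun j => by
    rw [hD']
    simp only [show ¬ m + j < m by omega, if_false, Nat.add_sub_cancel_left]
  have s1 : ∀ i ≤ m, slot D' i = slot D i := slot_congr e1
  have hdm := h.dm
  have s2 : ∀ j ≤ g, slot D' (m + j) = (if j % 2 = 0 then slot D m else d - slot D m) + slot ρ j := by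
    intro j
    induction j with
    | zero =>
      intro _
      rw [Nat.add_zero, s1 m le_rfl]
      simp only [Nat.zero_mod, if_true]
      rfl
    | succ j ih =>
      intro hj
      have ihj := ih (by omega)
      have hle := b1 j (by omega)
      show D' (m + j) - slot D' (m + j) = _ + (ρ j - slot ρ j)
      rw [ihj, e2]
      rcases Nat.mod_two_eq_zero_or_one j with hp | hp
      · have hp' : ¬ (j + 1) % 2 = 0 := by omega
        rw [if_pos hp, if_neg hp']
        omega
      · have hp' : (j + 1) % 2 = 0 := by omega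
        rw [if_neg (by omega), if_pos hp']
        omega
  -- old vertices
  have o1 : ∀ i ≤ m, i % 2 = m % 2 → slot D' i ≤ slot D m := fun i hi hp => by
    rw [s1 i hi]; exact h.last i hi hp
  have o2 : ∀ i ≤ m, i % 2 ≠ m % 2 → slot D' i + slot D m < d := fun i hi hp => by
    rw [s1 i hi]; exact h.other i hi hp
  have z0 : slot ρ 0 = 0 := rfl
  have hpos : ∀ j ≤ g, 1 ≤ j → j % 2 = 0 → 1 ≤ slot ρ j := by
    intro j hj h1 hp
    by_contra hc
    have := b4 j (by omega) 0 (by omega) (by omega) (by rw [z0]; omega)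
    omega
  refine ⟨D', ⟨?_, ?_, ?_, ?_, ?_, ?_, ?_, ?_⟩, e1, e2⟩
  · intro i hi
    by_cases him : i < m
    · rw [s1 i him.le, e1 i him]
      exact h.le i him
    · obtain ⟨j, rfl⟩ : ∃ j, i = m + j := ⟨i - m, by omega⟩
      rw [s2 j (by omega), e2]
      have := b1 j (by omega)
      split_ifs <;> omega
  · intro i hi
    by_cases him : i < m
    · rw [e1 i him]
      have := h.lt i him
      omega
    · obtain ⟨j, rfl⟩ : ∃ j, i = m + j := ⟨i - m, by omega⟩
      rw [e2]
      have := b2 j (by omega)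
      omega
  · intro i hi j hj hij
    by_cases him : i < m
    · by_cases hjm : j < m
      · rw [e1 i him, e1 j hjm] at hij
        exact h.inj i him j hjm hij
      · obtain ⟨j', rfl⟩ : ∃ j', j = m + j' := ⟨j - m, by omega⟩
        rw [e1 i him, e2] at hij
        have := h.lt i him
        omega
    · obtain ⟨i', rfl⟩ : ∃ i', i = m + i' := ⟨i - m, by omega⟩
      by_cases hjm : j < m
      · rw [e2, e1 j hjm] at hij
        have := h.lt j hjm
        omega
      · obtain ⟨j', rfl⟩ : ∃ j', j = m + j' := ⟨j - m, by omega⟩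
        rw [e2, e2] at hij
        have := b3 i' (by omega) j' (by omega) (by omega)
        omega
  · intro i hi
    by_cases him : i < m
    · rw [e1 i him]
      exact h.letter i him
    · obtain ⟨j, rfl⟩ : ∃ j, i = m + j := ⟨i - m, by omega⟩
      rw [e2]
      exact hw j (by omega)
  · intro i hi j hj hp hs
    by_cases him : i ≤ m
    · by_cases hjm : j ≤ m
      · rw [s1 i him, s1 j hjm] at hs
        exact h.sinj i him j hjm hp hs
      · obtain ⟨j', rfl⟩ : ∃ j', j = m + j' := ⟨j - m, by omega⟩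
        exfalso
        rw [s2 j' (by omega)] at hs
        rcases Nat.mod_two_eq_zero_or_one j' with hq | hq
        · rw [if_pos hq] at hs
          have h1 := hpos j' (by omega) (by omega) hq
          have h2 := o1 i him (by omega)
          omega
        · rw [if_neg (by omega)] at hs
          have h2 := o2 i him (by omega)
          omega
    · obtain ⟨i', rfl⟩ : ∃ i', i = m + i' := ⟨i - m, by omega⟩
      by_cases hjm : j ≤ m
      · exfalso
        rw [s2 i' (by omega)] at hs
        rcases Nat.mod_two_eq_zero_or_one i' with hq | hq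
        · rw [if_pos hq] at hs
          have h1 := hpos i' (by omega) (by omega) hq
          have h2 := o1 j hjm (by omega)
          omega
        · rw [if_neg (by omega)] at hs
          have h2 := o2 j hjm (by omega)
          omega
      · obtain ⟨j', rfl⟩ : ∃ j', j = m + j' := ⟨j - m, by omega⟩
        rw [s2 i' (by omega), s2 j' (by omega)] at hs
        have hp' : i' % 2 = j' % 2 := by omega
        rw [hp'] at hs
        have := b4 i' (by omega) j' (by omega) hp' (by omega)
        omega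
  · intro i hi hp
    rw [s2 g le_rfl]
    by_cases him : i ≤ m
    · rcases Nat.mod_two_eq_zero_or_one g with hq | hq
      · rw [if_pos hq]
        have h2 := o1 i him (by omega)
        omega
      · rw [if_neg (by omega)]
        have h2 := o2 i him (by omega)
        omega
    · obtain ⟨i', rfl⟩ : ∃ i', i = m + i' := ⟨i - m, by omega⟩
      rw [s2 i' (by omega)]
      have hp' : i' % 2 = g % 2 := by omega
      rw [hp']
      have := b5 i' (by omega) hp'
      omega
  · intro i hi hp
    rw [s2 g le_rfl]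
    by_cases him : i ≤ m
    · rcases Nat.mod_two_eq_zero_or_one g with hq | hq
      · rw [if_pos hq]
        have h2 := o2 i him (by omega)
        have h3 := b6 1 (by omega) (by omega)
        omega
      · rw [if_neg (by omega)]
        have h2 := o1 i him (by omega)
        have h3 := b6 0 (by omega) (by omega)
        rw [z0] at h3
        omega
    · obtain ⟨i', rfl⟩ : ∃ i', i = m + i' := ⟨i - m, by omega⟩
      rw [s2 i' (by omega)]
      have hp' : i' % 2 ≠ g % 2 := by omega
      have := b6 i' (by omega) hp'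
      rcases Nat.mod_two_eq_zero_or_one g with hq | hq
      · rw [if_pos hq, if_neg (by omega)]
        omega
      · rw [if_neg (show ¬ g % 2 = 0 by omega), if_pos (by omega)]
        omega
  · rw [s2 g le_rfl]
    rcases Nat.mod_two_eq_zero_or_one g with hq | hq
    · rw [if_pos hq]
      have h3 := b6 1 (by omega) (by omega)
      omega
    · rw [if_neg (by omega)]
      have h3 := b6 0 (by omega) (by omega)
      rw [z0] at h3
      omega

theorem PInv.ext {w : ℕ → Bool} {D : ℕ → ℕ} {d m : ℕ} (h : PInv w D d m) {ρ : ℕ → ℕ} {g K : ℕ}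
    (b0 : 1 ≤ g) (b1 : ∀ j < g, slot ρ j ≤ ρ j) (b2 : ∀ j < g, ρ j < K)
    (b3 : ∀ i < g, ∀ j < g, ρ i = ρ j → i = j)
    (b4 : ∀ i < g + 1, ∀ j < g + 1, i % 2 = j % 2 → slot ρ i = slot ρ j → i = j)
    (b5 : ∀ i < g + 1, i % 2 = g % 2 → slot ρ i ≤ slot ρ g)
    (b6 : ∀ i < g + 1, i % 2 ≠ g % 2 → slot ρ i + slot ρ g < K)
    (hw : ∀ j < g, w (d + ρ j) = decide ((m + j) % 2 = 0)) :
    ∃ D', PInv w D' (d + K) (m + g) := by
  obtain ⟨D', h', -⟩ := h.ext' b0 b1 b2 b3 b4 b5 b6 hw
  exact ⟨D', h'⟩

theorem PInv.block' {w : ℕ → Bool} {D : ℕ → ℕ} {d m : ℕ} (h : PInv w D d m) {r : List ℕ} {K : ℕ}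
    (hb : BlkOK r K) (hw : ∀ j < r.length, w (d + bfun r j) = decide ((m + j) % 2 = 0)) :
    ∃ D', PInv w D' (d + K) (m + r.length) ∧ (∀ i < m, D' i = D i) ∧
      (∀ j, D' (m + j) = d + bfun r j) := by
  obtain ⟨b0, b1, b2, b3, b4, b5, b6⟩ := hb
  exact h.ext' b0 b1 b2 b3 b4 b5 b6 hw

theorem PInv.block {w : ℕ → Bool} {D : ℕ → ℕ} {d m : ℕ} (h : PInv w D d m) {r : List ℕ} {K : ℕ}
    (hb : BlkOK r K) (hw : ∀ j < r.length, w (d + bfun r j) = decide ((m + j) % 2 = 0)) :
    ∃ D', PInv w D' (d + K) (m + r.length) := by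
  obtain ⟨b0, b1, b2, b3, b4, b5, b6⟩ := hb
  exact h.ext b0 b1 b2 b3 b4 b5 b6 hw

theorem Reach.inv {B : List (List ℕ × ℕ)} (hB : ∀ b ∈ B, BlkOK b.1 b.2) {w : ℕ → Bool}
    {d m : ℕ} (h : Reach B w d m) : ∃ D, PInv w D d m := by
  induction h with
  | init => exact ⟨fun _ => 0, PInv.init w _⟩
  | wait _ ih =>
    obtain ⟨D, hD⟩ := ih
    exact ⟨D, hD.wait⟩
  | block b hb _ hw ih =>
    obtain ⟨D, hD⟩ := ih
    exact hD.block (hB b hb) hw

/-- The bare path: `m` edges, all depths below `d`. -/
structure APath (w : ℕ → Bool) (D : ℕ → ℕ) (d m : ℕ) : Prop where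
  le : ∀ i < m, slot D i ≤ D i
  lt : ∀ i < m, D i < d
  inj : ∀ i < m, ∀ j < m, D i = D j → i = j
  letter : ∀ i < m, w (D i) = decide (i % 2 = 0)
  sinj : ∀ i ≤ m, ∀ j ≤ m, i % 2 = j % 2 → slot D i = slot D j → i = j
  cross : ∀ i ≤ m, ∀ j ≤ m, i % 2 ≠ j % 2 → slot D i + slot D j < d

theorem PInv.aPath {w : ℕ → Bool} {D : ℕ → ℕ} {d m m' : ℕ} (h : PInv w D d m) (hm : m' ≤ m) :
    APath w D d m' where
  le := fun i hi => h.le i (by omega)
  lt := fun i hi => h.lt i (by omega)
  inj := fun i hi j hj => h.inj i (by omega) j (by omega)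
  letter := fun i hi => h.letter i (by omega)
  sinj := fun i hi j hj => h.sinj i (by omega) j (by omega)
  cross := by
    intro i hi j hj hp
    by_cases h1 : i % 2 = m % 2
    · have h2 := h.last i (by omega) h1
      have h3 := h.other j (by omega) (by omega)
      omega
    · have h2 := h.last j (by omega) (by omega)
      have h3 := h.other i (by omega) h1
      omega

end Pool.Agent.P45
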