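import Pool.Agent.Lib.P45dba8.CertDefs
import Pool.Agent.Lib.P45dba8.CertTable
import Pool.Agent.Lib.P45dba8.PathBlk

/-! # MP_45dba8: the certificate for long alternating paths -/

set_option autoImplicit false

namespace Pool.Agent.P45.Cert

/-! ### Threads -/

/-- After the letters required by the list there is a path of at least `a` steps in the state `s`. -/
def Val (w : ℕ → Bool) : List (Option Bool) → Bool → ℕ → ℤ → Prop
  | [], s, i, a => ∃ m : ℕ, Reach P4 w i m ∧ decide (m % 2 = 0) = s ∧ a ≤ (m : ℤ)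
  | o :: r, s, i, a => okl o (w i) = true → Val w r s (i + 1) a

theorem Val.mono {w : ℕ → Bool} {r : List (Option Bool)} {s : Bool} {i : ℕ} {a b : ℤ}
    (hab : b ≤ a) (h : Val w r s i a) : Val w r s i b := by
  induction r generalizing i with
  | nil =>
    obtain ⟨m, h1, h2, h3⟩ := h
    exact ⟨m, h1, h2, hab.trans h3⟩
  | cons o r ih => exact fun ho => ih (h ho)

theorem Val.wait {w : ℕ → Bool} {s : Bool} {i : ℕ} {a : ℤ} (h : Val w [] s i a) :
    Val w [] s (i + 1) a := by
  obtain ⟨m, h1, h2, h3⟩ := h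
  exact ⟨m, h1.wait, h2, h3⟩

theorem val_of {w : ℕ → Bool} {s : Bool} {a : ℤ} (r : List (Option Bool)) (i : ℕ)
    (h : (∀ j o, r[j]? = some o → okl o (w (i + j)) = true) → Val w [] s (i + r.length) a) :
    Val w r s i a := by
  induction r generalizing i with
  | nil => exact h (fun j o hj => by simp at hj)
  | cons o r ih =>
    intro ho
    apply ih
    intro h'
    have := h (fun j o' hj => by
      cases j with
      | zero =>
        simp only [List.getElem?_cons_zero, Option.some.injEq] at hj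
        subst hj
        exact ho
      | succ j =>
        rw [List.getElem?_cons_succ] at hj
        have := h' j o' hj
        rwa [show i + (j + 1) = i + 1 + j by omega])
    rwa [List.length_cons, show i + (r.length + 1) = i + 1 + r.length by omega] at this

theorem breq_spec : ∀ b ∈ P4, ∀ s : Bool, (breq b s).length = b.2 ∧
    ∀ j < b.1.length, (breq b s)[bfun b.1 j]? = some (some (if j % 2 = 0 then s else !s)) := by
  decide

theorem Val.start {w : ℕ → Bool} {s : Bool} {i : ℕ} {a : ℤ} (h : Val w [] s i a)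
    (b : List ℕ × ℕ) (hb : b ∈ P4) : Val w (breq b s) (bout b s) i (a + b.1.length) := by
  obtain ⟨m, h1, h2, h3⟩ := h
  obtain ⟨hl, hs⟩ := breq_spec b hb s
  apply val_of
  intro hr
  rw [hl]
  refine ⟨m + b.1.length, h1.block b hb ?_, ?_, ?_⟩
  · intro j hj
    have h4 := hr _ _ (hs j hj)
    have h5 : (if j % 2 = 0 then s else !s) = w (i + bfun b.1 j) := by
      simpa only [okl, beq_iff_eq] using h4
    rw [← h5, ← h2]
    rcases Nat.mod_two_eq_zero_or_one j with e | e <;>
      rcases Nat.mod_two_eq_zero_or_one m with e' | e' <;>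
      simp [e, e', Nat.add_mod]
  · unfold bout
    rw [← h2]
    rcases Nat.mod_two_eq_zero_or_one b.1.length with e | e <;>
      rcases Nat.mod_two_eq_zero_or_one m with e' | e' <;>
      simp [e, e', Nat.add_mod]
  · push_cast
    linarith

/-! ### The table -/

/-- The pattern `p`. -/
def pt (p : ℕ) : List (Option Bool) × Bool := patL.getD p ([], false)

/-- The block number `z`. -/
def blk (z : ℕ) : List ℕ × ℕ := P4.getD z ([0], 1)

/-- The lists of starts. -/
def stL (s x : Bool) : List (ℕ × ℕ) :=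
  match s, x with
  | false, false => stL00
  | false, true => stL01
  | true, false => stL10
  | true, true => stL11

/-- The gains of the blocks. -/
def gn (z : ℕ) : ℕ := [1, 4, 6, 6, 8].getD z 0

/-- The derivative of a pattern. -/
def derv (p : ℕ) (x : Bool) : ℕ :=
  if x then (derL.getD p (99, 99)).2 else (derL.getD p (99, 99)).1

/-- The thread `(p, u)` gives the thread `(q, v)` after the letter `x`. -/
def cov (p u : ℕ) (x : Bool) (q v : ℕ) : Bool :=
  if p < 2 then
    (q == p && Nat.ble v u) || (stL (p == 1) x).any (fun z => z.1 == q && Nat.ble v (u + gn z.2))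
  else derv p x == q && Nat.ble v u

/-- Correctness of one derivative. -/
def derOK (p : ℕ) (x : Bool) (q : ℕ) : Bool :=
  match pt p with
  | (o :: r, s) => okl o x && decide (pt q = (r, s))
  | _ => false

/-- Correctness of one start. -/
def stOK (s x : Bool) (z : ℕ × ℕ) : Bool :=
  match breq (blk z.2) s with
  | o :: r => okl o x && decide (pt z.1 = (r, bout (blk z.2) s)) && decide (z.2 < 5) &&
      decide (gn z.2 = (blk z.2).1.length)
  | _ => false

theorem der_ok : ∀ p < 36, 2 ≤ p → ∀ x : Bool, derv p x < 36 → derOK p x (derv p x) = true := by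
  decide +kernel

theorem st_ok : ∀ s x : Bool, ∀ z ∈ stL s x, stOK s x z = true := by
  decide +kernel

theorem blk_mem : ∀ z < 5, blk z ∈ P4 := by decide

theorem pt_small : ∀ p < 2, pt p = ([], p == 1) := by decide

theorem cov_sound {w : ℕ → Bool} {i p u q v : ℕ} {A : ℤ} (hp : p < 36) (hq : q < 36)
    (hV : Val w (pt p).1 (pt p).2 i (A + u)) (hc : cov p u (w i) q v = true) :
    Val w (pt q).1 (pt q).2 (i + 1) (A + v) := by
  unfold cov at hc
  split_ifs at hc with h2
  · rw [pt_small p h2] at hV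
    rw [Bool.or_eq_true] at hc
    rcases hc with hc | hc
    · rw [Bool.and_eq_true, beq_iff_eq, Nat.ble_eq] at hc
      obtain ⟨rfl, h3⟩ := hc
      rw [pt_small q h2]
      refine Val.mono ?_ hV.wait
      have : (v : ℤ) ≤ u := by exact_mod_cast h3
      linarith
    · rw [List.any_eq_true] at hc
      obtain ⟨z, hz, hc⟩ := hc
      rw [Bool.and_eq_true, beq_iff_eq, Nat.ble_eq] at hc
      obtain ⟨rfl, h3⟩ := hc
      have h4 := st_ok _ _ z hz
      unfold stOK at h4
      split at h4
      · rename_i o r hbr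
        simp only [Bool.and_eq_true, decide_eq_true_eq] at h4
        obtain ⟨⟨⟨h5, h6⟩, h7⟩, h8⟩ := h4
        have h9 := hV.start (blk z.2) (blk_mem _ h7)
        rw [hbr] at h9
        have h10 := h9 h5
        rw [h6]
        refine Val.mono ?_ h10
        rw [← h8]
        have : (v : ℤ) ≤ u + gn z.2 := by exact_mod_cast h3
        linarith
      · exact absurd h4 (by simp)
  · rw [Bool.and_eq_true, beq_iff_eq, Nat.ble_eq] at hc
    obtain ⟨rfl, h3⟩ := hc
    have h4 := der_ok p hp (by omega) (w i) hq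
    unfold derOK at h4
    split at h4
    · rename_i o r s hbr
      rw [hbr] at hV
      rw [Bool.and_eq_true, decide_eq_true_eq] at h4
      rw [h4.2]
      refine Val.mono ?_ (hV h4.1)
      have : (v : ℤ) ≤ u := by exact_mod_cast h3
      linarith
    · exact absurd h4 (by simp)

/-- The row `c`. -/
def row (c : ℕ) : ℕ × ℤ × ℕ × ℕ × ℕ × ℕ × List (ℕ × ℕ) := rowL.getD c (0, 0, 0, 0, 0, 0, [])

/-- The last five letters. -/
def hh (c : ℕ) : ℕ := (row c).1

/-- The potential. -/
def pot (c : ℕ) : ℤ := (row c).2.1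

/-- The next state. -/
def tgt (c : ℕ) (x : Bool) : ℕ := if x then (row c).2.2.2.2.1 else (row c).2.2.1

/-- The increment of the reference value. -/
def incr (c : ℕ) (x : Bool) : ℕ := if x then (row c).2.2.2.2.2.1 else (row c).2.2.2.1

/-- The threads. -/
def thr (c : ℕ) : List (ℕ × ℕ) := (row c).2.2.2.2.2.2

/-- The sign of a letter. -/
def sg (b : Bool) : ℤ := if b then 1 else -1

/-- The contribution of one more letter. -/
def cost (h : ℕ) (x : Bool) : ℤ :=
  2 * (15 * sg (h.testBit 0) + 6 * sg (h.testBit 1) + 6 * sg (h.testBit 2) + sg (h.testBit 3) +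
    sg (h.testBit 4)) * sg x

/-- The contribution of the end of the word. -/
def nearh (h : ℕ) : ℤ :=
  6 + 12 * (sg (h.testBit 0) * sg (h.testBit 1)) +
    (2 * (sg (h.testBit 0) * sg (h.testBit 2)) + 1) +
    (2 * (sg (h.testBit 0) * sg (h.testBit 3)) + 2 * (sg (h.testBit 1) * sg (h.testBit 2)))

/-- There is a thread for the final state. -/
def hasT (c : ℕ) : Bool := (thr c).any (fun pu => pu.1 == 0)

/-- The check of one transition. -/
def trOK (c : ℕ) (x : Bool) : Bool :=
  decide (tgt c x < 121) && decide (hh (tgt c x) = (2 * hh c + x.toNat) % 32) &&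
  (thr (tgt c x)).all (fun qv => decide (qv.1 < 36) &&
    (thr c).any (fun pu => cov pu.1 pu.2 x qv.1 (qv.2 + incr c x))) &&
  (decide (c < 2) || (decide (2 ≤ tgt c x) &&
    decide (pot (tgt c x) + 50 ≤ pot c + 96 * (incr c x : ℤ) + cost (hh c) x))) &&
  (hasT (tgt c x) || (!x && !hasT c))

/-- The check of one final state. -/
def finOK (c : ℕ) : Bool :=
  decide (c < 2) || (thr c).all (fun pu => !(pu.1 == 0) ||
    decide (-223 ≤ pot c + 96 * ((pu.2 : ℤ) - 3) + nearh (hh c)))

/-- The check of the whole table. -/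
def allOK : Bool := (List.range 121).all (fun c => trOK c false && trOK c true && finOK c)

theorem allOK_true : allOK = true := by decide +kernel

theorem tr_ok {c : ℕ} (hc : c < 121) (x : Bool) : trOK c x = true := by
  have h := allOK_true
  unfold allOK at h
  rw [List.all_eq_true] at h
  have := h c (List.mem_range.2 hc)
  simp only [Bool.and_eq_true] at this
  cases x
  · exact this.1.1
  · exact this.1.2

theorem fin_ok {c : ℕ} (hc : c < 121) : finOK c = true := by
  have h := allOK_true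
  unfold allOK at h
  rw [List.all_eq_true] at h
  have := h c (List.mem_range.2 hc)
  simp only [Bool.and_eq_true] at this
  exact this.2

/-! ### The run of the automaton -/

/-- The state after `i` letters. -/
def st (w : ℕ → Bool) : ℕ → ℕ
  | 0 => 0
  | i + 1 => tgt (st w i) (w i)

/-- The reference value after `i` letters. -/
def rf (w : ℕ → Bool) : ℕ → ℕ
  | 0 => 0
  | i + 1 => rf w i + incr (st w i) (w i)

theorem tr_all {c : ℕ} (hc : c < 121) (x : Bool) :
    tgt c x < 121 ∧ hh (tgt c x) = (2 * hh c + x.toNat) % 32 ∧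
    (∀ qv ∈ thr (tgt c x), qv.1 < 36 ∧
      ∃ pu ∈ thr c, cov pu.1 pu.2 x qv.1 (qv.2 + incr c x) = true) ∧
    (2 ≤ c → 2 ≤ tgt c x ∧
      pot (tgt c x) + 50 ≤ pot c + 96 * (incr c x : ℤ) + cost (hh c) x) ∧
    (hasT (tgt c x) = true ∨ (x = false ∧ hasT c = false)) := by
  have h := tr_ok hc x
  unfold trOK at h
  simp only [Bool.and_eq_true, Bool.or_eq_true, decide_eq_true_eq, List.all_eq_true,
    List.any_eq_true, Bool.not_eq_true'] at h
  obtain ⟨⟨⟨⟨h1, h2⟩, h3⟩, h4⟩, h5⟩ := h
  refine ⟨h1, h2, h3, fun h6 => ?_, h5⟩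
  rcases h4 with h4 | h4
  · omega
  · exact h4

theorem st_lt (w : ℕ → Bool) (i : ℕ) : st w i < 121 := by
  induction i with
  | zero => show 0 < 121; norm_num
  | succ i ih => exact (tr_all ih (w i)).1

theorem bit_succ (h : ℕ) (x : Bool) (l : ℕ) (hl : l < 5) :
    ((2 * h + x.toNat) % 32).testBit l = if l = 0 then x else h.testBit (l - 1) := by
  rw [show (32 : ℕ) = 2 ^ 5 by norm_num, Nat.testBit_mod_two_pow]
  have e : decide (l < 5) = true := decide_eq_true hl
  rw [e, Bool.true_and]
  cases l with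
  | zero =>
    rw [if_pos rfl, Nat.testBit_zero]
    cases x <;> simp [Nat.add_mod]
  | succ l =>
    rw [if_neg (Nat.succ_ne_zero l), Nat.testBit_succ, Nat.add_sub_cancel]
    congr 1
    cases x <;> simp <;> omega

theorem hist (w : ℕ → Bool) (i l : ℕ) (hl : l < 5) (hli : l ≤ i) :
    (hh (st w i)).testBit l = G w (i - l) := by
  induction i generalizing l with
  | zero =>
    obtain rfl : l = 0 := by omega
    show (hh 0).testBit 0 = false
    decide
  | succ i ih =>
    show (hh (tgt (st w i) (w i))).testBit l = _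
    rw [(tr_all (st_lt w i) (w i)).2.1, bit_succ _ _ _ hl]
    by_cases h0 : l = 0
    · subst h0
      rw [if_pos rfl]
      rfl
    · rw [if_neg h0, ih (l - 1) (by omega) (by omega)]
      congr 1
      omega

theorem threads (w : ℕ → Bool) (i : ℕ) : ∀ pu ∈ thr (st w i), pu.1 < 36 ∧
    Val w (pt pu.1).1 (pt pu.1).2 i (((rf w i : ℕ) : ℤ) - 3 + pu.2) := by
  induction i with
  | zero =>
    intro pu hpu
    have h0 : thr (st w 0) = [(1, 3)] := by
      show thr 0 = [(1, 3)]
      decide
    rw [h0, List.mem_singleton] at hpu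
    subst hpu
    exact ⟨by norm_num, 0, Reach.init, rfl, by simp [rf]⟩
  | succ i ih =>
    intro qv hqv
    obtain ⟨hq, pu, hpu, hc⟩ := (tr_all (st_lt w i) (w i)).2.2.1 qv hqv
    obtain ⟨hp, hV⟩ := ih pu hpu
    refine ⟨hq, Val.mono ?_ (cov_sound hp hq hV hc)⟩
    show ((rf w i + incr (st w i) (w i) : ℕ) : ℤ) - 3 + qv.2 ≤ _
    push_cast
    linarith

theorem hasT_of (w : ℕ → Bool) (i : ℕ) (h : ∃ j < i, w j = true) : hasT (st w i) = true := by
  induction i with
  | zero =>
    obtain ⟨j, hj, _⟩ := h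
    omega
  | succ i ih =>
    rcases (tr_all (st_lt w i) (w i)).2.2.2.2 with h1 | ⟨h1, h2⟩
    · exact h1
    · obtain ⟨j, hj, hw⟩ := h
      have hji : j < i := by
        rcases Nat.lt_succ_iff_lt_or_eq.1 hj with h3 | h3
        · exact h3
        · subst h3
          rw [h1] at hw
          exact absurd hw (by decide)
      rw [ih ⟨j, hji, hw⟩] at h2
      exact absurd h2 (by decide)

/-! ### The potential -/

theorem sx_eq (w : ℕ → Bool) (t : ℕ) : sx w t = sg (G w t) := rfl

theorem sg_mul_self (b : Bool) : sg b * sg b = 1 := by cases b <;> rfl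

/-- The energy after `i` letters. -/
def En (w : ℕ → Bool) (i : ℕ) : ℤ :=
  96 * (rf w i : ℤ) + (15 * (2 * Aw w 1 i + farw w 1) + 6 * (2 * Aw w 2 i + farw w 2) +
    6 * (2 * Aw w 3 i + farw w 3) + (2 * Aw w 4 i + farw w 4) + (2 * Aw w 5 i + farw w 5))

theorem Aw_succ (w : ℕ → Bool) (l i : ℕ) (h1 : 1 ≤ l) (hl : l < 6) (hi : 4 ≤ i) :
    Aw w l (i + 1) = Aw w l i + sg (w i) * sg ((hh (st w i)).testBit (l - 1)) := by
  unfold Aw
  rw [Finset.sum_Ico_succ_top (by omega), hist w i (l - 1) (by omega) (by omega)]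
  rw [show i + 1 - l = i - (l - 1) by omega]
  rfl

theorem En_succ (w : ℕ → Bool) (i : ℕ) (hi : 4 ≤ i) :
    En w (i + 1) = En w i + 96 * (incr (st w i) (w i) : ℤ) + cost (hh (st w i)) (w i) := by
  unfold En cost
  rw [Aw_succ w 1 i (by norm_num) (by norm_num) hi, Aw_succ w 2 i (by norm_num) (by norm_num) hi,
    Aw_succ w 3 i (by norm_num) (by norm_num) hi, Aw_succ w 4 i (by norm_num) (by norm_num) hi,
    Aw_succ w 5 i (by norm_num) (by norm_num) hi]
  show 96 * ((rf w i + incr (st w i) (w i) : ℕ) : ℤ) + _ = _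
  push_cast
  ring

/-- The energy after four letters. -/
def e4 (a b c d : Bool) : ℤ :=
  96 * ((0 + incr 0 a + incr (tgt 0 a) b + incr (tgt (tgt 0 a) b) c +
    incr (tgt (tgt (tgt 0 a) b) c) d : ℕ) : ℤ) +
  (15 * (2 * (sg a * (-1) + sg b * sg a + sg c * sg b + sg d * sg c) + 1) +
    6 * (2 * (sg b * (-1) + sg c * sg a + sg d * sg b) + (-1 * sg a + sg a * (-1))) +
    6 * (2 * (sg c * (-1) + sg d * sg a) + (-1 * sg b + sg a * sg a + sg b * (-1))) +
    (2 * (sg d * (-1)) + (-1 * sg c + sg a * sg b + sg b * sg a + sg c * (-1))) +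
    (2 * 0 + (-1 * sg d + sg a * sg c + sg b * sg b + sg c * sg a + sg d * (-1))))

theorem start_ok : ∀ a b c d : Bool, 2 ≤ tgt (tgt (tgt (tgt 0 a) b) c) d ∧
    pot (tgt (tgt (tgt (tgt 0 a) b) c) d) + 200 ≤ e4 a b c d := by
  decide +kernel

theorem En_four (w : ℕ → Bool) : En w 4 = e4 (w 0) (w 1) (w 2) (w 3) := by
  have s0 : sx w 0 = -1 := rfl
  have s1 : sx w 1 = sg (w 0) := rfl
  have s2 : sx w 2 = sg (w 1) := rfl
  have s3 : sx w 3 = sg (w 2) := rfl
  have s4 : sx w 4 = sg (w 3) := rfl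
  have a1 : Aw w 1 4 = sg (w 0) * (-1) + sg (w 1) * sg (w 0) + sg (w 2) * sg (w 1) +
      sg (w 3) * sg (w 2) := by
    simp [Aw, Finset.sum_Ico_eq_sum_range, Finset.sum_range_succ, s0, s1, s2, s3, s4]
  have a2 : Aw w 2 4 = sg (w 1) * (-1) + sg (w 2) * sg (w 0) + sg (w 3) * sg (w 1) := by
    simp [Aw, Finset.sum_Ico_eq_sum_range, Finset.sum_range_succ, s0, s1, s2, s3, s4]
  have a3 : Aw w 3 4 = sg (w 2) * (-1) + sg (w 3) * sg (w 0) := by
    simp [Aw, Finset.sum_Ico_eq_sum_range, Finset.sum_range_succ, s0, s1, s2, s3, s4]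
  have a4 : Aw w 4 4 = sg (w 3) * (-1) := by
    simp [Aw, Finset.sum_Ico_eq_sum_range, Finset.sum_range_succ, s0, s1, s2, s3, s4]
  have a5 : Aw w 5 4 = 0 := by
    simp [Aw]
  have f1 : farw w 1 = 1 := by
    simp [farw, Finset.sum_range_succ, s0]
  have f2 : farw w 2 = -1 * sg (w 0) + sg (w 0) * (-1) := by
    simp [farw, Finset.sum_range_succ, s0, s1]
  have f3 : farw w 3 = -1 * sg (w 1) + sg (w 0) * sg (w 0) + sg (w 1) * (-1) := by
    simp [farw, Finset.sum_range_succ, s0, s1, s2]
  have f4 : farw w 4 = -1 * sg (w 2) + sg (w 0) * sg (w 1) + sg (w 1) * sg (w 0) +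
      sg (w 2) * (-1) := by
    simp [farw, Finset.sum_range_succ, s0, s1, s2, s3]
  have f5 : farw w 5 = -1 * sg (w 3) + sg (w 0) * sg (w 2) + sg (w 1) * sg (w 1) +
      sg (w 2) * sg (w 0) + sg (w 3) * (-1) := by
    simp [farw, Finset.sum_range_succ, s0, s1, s2, s3, s4]
  unfold En e4
  rw [a1, a2, a3, a4, a5, f1, f2, f3, f4, f5]
  rfl

theorem pot_le (w : ℕ → Bool) (i : ℕ) (hi : 4 ≤ i) :
    2 ≤ st w i ∧ pot (st w i) + 50 * (i : ℤ) ≤ En w i := by
  induction i, hi using Nat.le_induction with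
  | base =>
    rw [En_four]
    exact start_ok (w 0) (w 1) (w 2) (w 3)
  | succ i hi ih =>
    obtain ⟨h1, h2⟩ := (tr_all (st_lt w i) (w i)).2.2.2.1 ih.1
    refine ⟨h1, ?_⟩
    rw [En_succ w i hi]
    show pot (tgt (st w i) (w i)) + _ ≤ _
    push_cast
    linarith [ih.2]

theorem near_eq (w : ℕ → Bool) (D : ℕ) (hD : 5 ≤ D) :
    15 * nearw w 1 D + 6 * nearw w 2 D + 6 * nearw w 3 D + nearw w 4 D + nearw w 5 D =
      nearh (hh (st w D)) := by
  have t0 : sg ((hh (st w D)).testBit 0) = sx w D := by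
    rw [hist w D 0 (by norm_num) (by omega)]; rfl
  have t1 : sg ((hh (st w D)).testBit 1) = sx w (D - 1) := by
    rw [hist w D 1 (by norm_num) (by omega)]; rfl
  have t2 : sg ((hh (st w D)).testBit 2) = sx w (D - 2) := by
    rw [hist w D 2 (by norm_num) (by omega)]; rfl
  have t3 : sg ((hh (st w D)).testBit 3) = sx w (D - 3) := by
    rw [hist w D 3 (by norm_num) (by omega)]; rfl
  have q : ∀ t, sx w t * sx w t = 1 := fun t => sg_mul_self _
  have d1 : D + 1 - 1 = D := by omega
  have d2 : D + 1 - 2 = D - 1 := by omega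
  have d3 : D + 1 - 3 = D - 2 := by omega
  have d4 : D + 1 - 4 = D - 3 := by omega
  have n1 : nearw w 1 D = 0 := by simp [nearw]
  have n2 : nearw w 2 D = 1 := by
    have : Finset.Icc 1 (2 - 1) = {1} := by decide
    rw [nearw, this, Finset.sum_singleton]
    exact q D
  have n3 : nearw w 3 D = sx w D * sx w (D - 1) + sx w (D - 1) * sx w D := by
    have : Finset.Icc 1 (3 - 1) = {1, 2} := by decide
    rw [nearw, this, Finset.sum_pair (by norm_num)]
    rfl
  have n4 : nearw w 4 D = sx w D * sx w (D - 2) + (sx w (D - 1) * sx w (D - 1) +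
      sx w (D - 2) * sx w D) := by
    have : Finset.Icc 1 (4 - 1) = {1, 2, 3} := by decide
    rw [nearw, this, Finset.sum_insert (by decide), Finset.sum_pair (by norm_num)]
    rfl
  have n5 : nearw w 5 D = sx w D * sx w (D - 3) + (sx w (D - 1) * sx w (D - 2) +
      (sx w (D - 2) * sx w (D - 1) + sx w (D - 3) * sx w D)) := by
    have : Finset.Icc 1 (5 - 1) = {1, 2, 3, 4} := by decide
    rw [nearw, this, Finset.sum_insert (by decide), Finset.sum_insert (by decide),
      Finset.sum_pair (by norm_num)]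
    rfl
  unfold nearh
  rw [n1, n2, n3, n4, n5, t0, t1, t2, t3, q (D - 1)]
  ring

/-- **The certificate.** -/
theorem cert (w : ℕ → Bool) (D : ℕ) (hD : 5 ≤ D) (hS : ∃ i < D, w i = true) :
    ∃ m, Reach P4 w D m ∧ m % 2 = 1 ∧
      50 * (D : ℤ) - 223 ≤ 96 * (m : ℤ) + (15 * Cw w 1 D + 6 * Cw w 2 D + 6 * Cw w 3 D +
        Cw w 4 D + Cw w 5 D) := by
  have hT := hasT_of w D hS
  unfold hasT at hT
  rw [List.any_eq_true] at hT
  obtain ⟨pu, hpu, h0⟩ := hT
  have h0' : pu.1 = 0 := by simpa using h0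
  obtain ⟨_, hV⟩ := threads w D pu hpu
  rw [h0', pt_small 0 (by norm_num)] at hV
  obtain ⟨m, h1, h2, h3⟩ := hV
  obtain ⟨h4, h5⟩ := pot_le w D (by omega)
  have h6 := fin_ok (st_lt w D)
  unfold finOK at h6
  rw [Bool.or_eq_true, decide_eq_true_eq, List.all_eq_true] at h6
  rcases h6 with h6 | h6
  · omega
  have h7 := h6 pu hpu
  rw [h0'] at h7
  have h8 : -223 ≤ pot (st w D) + 96 * ((pu.2 : ℤ) - 3) + nearh (hh (st w D)) := by
    simpa using h7
  refine ⟨m, h1, ?_, ?_⟩
  · rcases Nat.mod_two_eq_zero_or_one m with e | e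
    · rw [e] at h2
      exact absurd h2 (by decide)
    · exact e
  · have h9 := near_eq w D hD
    unfold En at h5
    unfold Cw
    linarith

end Pool.Agent.P45.Cert
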