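import Pool.Agent.Lib.P45dba8.WordLag

/-! # MP_45dba8: the correlations of a word and of its complement -/

set_option autoImplicit false

namespace Pool.Agent.P45

theorem wd_sdiff (A : Finset ℕ) {N j : ℕ} (h1 : 1 ≤ j) (h2 : j ≤ N) :
    wd (Finset.Icc 1 N \ A) j = - wd A j := by
  by_cases h : j ∈ A
  · rw [wd_mem h, wd_not_mem]
    rw [Finset.mem_sdiff]
    exact fun hh => hh.2 h
  · rw [wd_not_mem h, wd_mem]
    · norm_num
    · rw [Finset.mem_sdiff, Finset.mem_Icc]
      exact ⟨⟨h1, h2⟩, h⟩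

/-- The inner part of the correlation does not change under the complement. -/
theorem wcor_sdiff (A : Finset ℕ) (N l : ℕ) :
    wcor (Finset.Icc 1 N \ A) N l = wcor A N l := by
  unfold wcor
  refine Finset.sum_congr rfl (fun j hj => ?_)
  rw [Finset.mem_Icc] at hj
  rw [wd_sdiff A hj.1 (by omega), wd_sdiff A (by omega) (by omega)]
  ring

/-- The edge part of the correlation does not change under the complement. -/
theorem wedge_sdiff (A : Finset ℕ) (N l : ℕ) (h1 : 1 ≤ l) (h2 : l ≤ N) :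
    wedge (Finset.Icc 1 N \ A) N l = wedge A N l := by
  unfold wedge
  congr 1
  · refine Finset.sum_congr rfl (fun j hj => ?_)
    rw [Finset.mem_Icc] at hj
    rw [wd_sdiff A (by omega) hj.2, wd_sdiff A (by omega) (by omega)]
    ring
  · refine Finset.sum_congr rfl (fun j hj => ?_)
    rw [Finset.mem_Icc] at hj
    rw [wd_sdiff A hj.1 (by omega), wd_sdiff A (by omega) (by omega)]
    ring

variable {k : ℕ}

/-- One of the two sides does not have the label `2k`; the correlations are the same for both. -/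
theorem side_free (hk : 1 ≤ k) (S : Finset ℕ) (hS : S ⊆ Finset.Icc 1 (2 * k)) (hc : S.card = k)
    (v : ZMod (4 * k + 1)) (hv : IsUnit v) :
    ∃ S' : Finset ℕ, (S' = S ∨ S' = Finset.Icc 1 (2 * k) \ S) ∧ S' ⊆ Finset.Icc 1 (2 * k) ∧
      S'.card = k ∧ 2 * k ∉ LW k S' v ∧ (LW k S' v).card = k ∧
      (∀ l, wcor (LW k S' v) (2 * k) l = wcor (LW k S v) (2 * k) l) ∧
      (∀ l, 1 ≤ l → l ≤ 2 * k → wedge (LW k S' v) (2 * k) l = wedge (LW k S v) (2 * k) l) := by
  by_cases h : 2 * k ∈ LW k S v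
  · have hsub : Finset.Icc 1 (2 * k) \ S ⊆ Finset.Icc 1 (2 * k) := Finset.sdiff_subset
    have hcard : (Finset.Icc 1 (2 * k) \ S).card = k := by
      rw [Finset.card_sdiff_of_subset hS, Nat.card_Icc, hc]
      omega
    refine ⟨Finset.Icc 1 (2 * k) \ S, Or.inr rfl, hsub, hcard, ?_, ?_, ?_, ?_⟩
    · rw [LW_compl S hS v hv, Finset.mem_sdiff]
      exact fun hh => hh.2 h
    · rw [LW_card hk _ hsub v hv, hcard]
    · intro l
      rw [LW_compl S hS v hv, wcor_sdiff]
    · intro l h1 h2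
      rw [LW_compl S hS v hv, wedge_sdiff _ _ _ h1 h2]
  · exact ⟨S, Or.inl rfl, hS, hc, h, by rw [LW_card hk S hS v hv, hc], fun _ => rfl,
      fun _ _ _ => rfl⟩

end Pool.Agent.P45
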