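import Pool.Agent.Lib.P45dba8.A6Avg
import Pool.Agent.Lib.P45dba8.Cert
import Pool.Agent.Lib.P45dba8.SideSwap

/-! # MP_45dba8: from the certificate on words to the labels -/

set_option autoImplicit false

namespace Pool.Agent.P45

open Cert

/-- The word of the depths: `i` is the depth of the label `2k-1-i`, `true` when this label belongs
to `A`. -/
def dword (k : ℕ) (A : Finset ℕ) (i : ℕ) : Bool := decide (2 * k - 1 - i ∈ A)

theorem dword_eq_true {k : ℕ} {A : Finset ℕ} {l : ℕ} (h : l ≤ 2 * k - 1) :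
    dword k A (2 * k - 1 - l) = true ↔ l ∈ A := by
  unfold dword
  rw [decide_eq_true_iff, show 2 * k - 1 - (2 * k - 1 - l) = l by omega]

theorem dword_eq_false {k : ℕ} {A : Finset ℕ} {l : ℕ} (h : l ≤ 2 * k - 1) :
    dword k A (2 * k - 1 - l) = false ↔ l ∉ A := by
  unfold dword
  rw [decide_eq_false_iff_not, show 2 * k - 1 - (2 * k - 1 - l) = l by omega]

theorem sx_dword {k : ℕ} {A : Finset ℕ} (hA : 2 * k ∉ A) {t : ℕ} (ht : t ≤ 2 * k - 1) :
    sx (dword k A) t = wd A (2 * k - t) := by
  cases t with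
  | zero =>
    rw [Nat.sub_zero, wd_not_mem hA]
    rfl
  | succ i =>
    have e : 2 * k - (i + 1) = 2 * k - 1 - i := by omega
    unfold sx
    by_cases h : 2 * k - 1 - i ∈ A
    · rw [e, wd_mem h, if_pos]
      show dword k A i = true
      unfold dword
      rw [decide_eq_true_iff]
      exact h
    · rw [e, wd_not_mem h, if_neg]
      show ¬ dword k A i = true
      unfold dword
      rw [decide_eq_true_iff]
      exact h

/-- The correlations of the certificate are those of the word of labels. -/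
theorem Cw_dword {k : ℕ} {A : Finset ℕ} (hA : 2 * k ∉ A) {l : ℕ} (h1 : 1 ≤ l)
    (h2 : l ≤ 2 * k - 1) :
    Cw (dword k A) l (2 * k - 1) = 2 * wcor A (2 * k) l + wedge A (2 * k) l := by
  have eA : Aw (dword k A) l (2 * k - 1) = wcor A (2 * k) l := by
    unfold Aw wcor
    refine Finset.sum_nbij' (fun t => 2 * k - t) (fun j => 2 * k - j) ?_ ?_ ?_ ?_ ?_
    · intro t ht
      rw [Finset.mem_Ico] at ht
      rw [Finset.mem_Icc]
      omega
    · intro j hj
      rw [Finset.mem_Icc] at hj
      rw [Finset.mem_Ico]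
      omega
    · intro t ht
      rw [Finset.mem_Ico] at ht
      show 2 * k - (2 * k - t) = t
      omega
    · intro j hj
      rw [Finset.mem_Icc] at hj
      show 2 * k - (2 * k - j) = j
      omega
    · intro t ht
      rw [Finset.mem_Ico] at ht
      rw [sx_dword hA (by omega), sx_dword hA (by omega)]
      show wd A (2 * k - t) * wd A (2 * k - (t - l)) = wd A (2 * k - t) * wd A (2 * k - t + l)
      rw [show 2 * k - (t - l) = 2 * k - t + l by omega]
  have eF : farw (dword k A) l =
      ∑ j ∈ Finset.Icc (2 * k + 1 - l) (2 * k), wd A j * wd A (2 * (2 * k) + 1 - l - j) := by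
    unfold farw
    refine Finset.sum_nbij' (fun t => 2 * k - t) (fun j => 2 * k - j) ?_ ?_ ?_ ?_ ?_
    · intro t ht
      rw [Finset.mem_range] at ht
      rw [Finset.mem_Icc]
      omega
    · intro j hj
      rw [Finset.mem_Icc] at hj
      rw [Finset.mem_range]
      omega
    · intro t ht
      rw [Finset.mem_range] at ht
      show 2 * k - (2 * k - t) = t
      omega
    · intro j hj
      rw [Finset.mem_Icc] at hj
      show 2 * k - (2 * k - j) = j
      omega
    · intro t ht
      rw [Finset.mem_range] at ht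
      rw [sx_dword hA (by omega), sx_dword hA (by omega)]
      show wd A (2 * k - t) * wd A (2 * k - (l - 1 - t)) =
        wd A (2 * k - t) * wd A (2 * (2 * k) + 1 - l - (2 * k - t))
      rw [show 2 * k - (l - 1 - t) = 2 * (2 * k) + 1 - l - (2 * k - t) by omega]
  have eN : nearw (dword k A) l (2 * k - 1) =
      ∑ j ∈ Finset.Icc 1 (l - 1), wd A j * wd A (l - j) := by
    unfold nearw
    refine Finset.sum_congr rfl (fun j hj => ?_)
    rw [Finset.mem_Icc] at hj
    rw [sx_dword hA (by omega), sx_dword hA (by omega)]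
    rw [show 2 * k - (2 * k - 1 + 1 - j) = j by omega,
      show 2 * k - (2 * k - 1 + 1 - (l - j)) = l - j by omega]
  unfold Cw wedge
  rw [eA, eF, eN]
  ring

/-- A unit, a side without the label `2k` and a path with many steps. -/
theorem exists_reach {k : ℕ} (hk : 3 ≤ k) (S : Finset ℕ)
    (hS : S ⊆ Finset.Icc 1 (2 * k)) (hc : S.card = k) :
    ∃ v : ZMod (4 * k + 1), IsUnit v ∧ ∃ S' : Finset ℕ,
      (S' = S ∨ S' = Finset.Icc 1 (2 * k) \ S) ∧ S' ⊆ Finset.Icc 1 (2 * k) ∧
      S'.card = k ∧ 2 * k ∉ LW k S' v ∧ (LW k S' v).card = k ∧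
      ∃ m, Reach P4 (dword k (LW k S' v)) (2 * k - 1) m ∧ m % 2 = 1 ∧ k ≤ m + 2 := by
  obtain ⟨v, hv, hsum⟩ := exists_unit_A6 hk S hS hc
  obtain ⟨S', hS1, hS2, hS3, h2k, hcard, hw, he⟩ := side_free (by omega) S hS hc v hv
  refine ⟨v, hv, S', hS1, hS2, hS3, h2k, hcard, ?_⟩
  have hC : ∀ l, 1 ≤ l → l ≤ 5 → Cw (dword k (LW k S' v)) l (2 * k - 1) =
      2 * wcor (LW k S v) (2 * k) l + wedge (LW k S v) (2 * k) l := by
    intro l h1 h2
    rw [Cw_dword h2k h1 (by omega), hw l, he l h1 (by omega)]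
  have hex : ∃ i < 2 * k - 1, dword k (LW k S' v) i = true := by
    have hne : (LW k S' v).Nonempty := by
      rw [← Finset.card_pos, hcard]
      omega
    obtain ⟨j, hj⟩ := hne
    have hj' := Finset.mem_Icc.1 (LW_subset S' v hj)
    have hj2 : j ≠ 2 * k := fun h => h2k (h ▸ hj)
    exact ⟨2 * k - 1 - j, by omega, (dword_eq_true (by omega)).2 hj⟩
  obtain ⟨m, hm1, hm2, hm3⟩ := cert (dword k (LW k S' v)) (2 * k - 1) (by omega) hex
  refine ⟨m, hm1, hm2, ?_⟩
  rw [hC 1 (by norm_num) (by norm_num), hC 2 (by norm_num) (by norm_num),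
    hC 3 (by norm_num) (by norm_num), hC 4 (by norm_num) (by norm_num),
    hC 5 (by norm_num) (by norm_num)] at hm3
  have hcast : ((2 * k - 1 : ℕ) : ℤ) = 2 * (k : ℤ) - 1 := by
    rw [Nat.cast_sub (by omega)]
    push_cast
    ring
  rw [hcast] at hm3
  omega

end Pool.Agent.P45
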