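import Pool.Agent.Lib.P45dba8.C14Avg
import Pool.Agent.Lib.P45dba8.CertWord

/-! # MP_45dba8: from the certificate for odd `k` to the labels -/

set_option autoImplicit false

namespace Pool.Agent.P45

open Cert

/-- The certificate for a list of blocks. -/
def CertFor (B : List (List ℕ × ℕ)) (a0 a1 m0 c1 c2 c3 c4 c5 : ℤ) : Prop :=
  ∀ (w : ℕ → Bool) (D : ℕ), 5 ≤ D → (∃ i < D, w i = true) →
    ∃ m, Reach B w D m ∧ m % 2 = 1 ∧ a1 * (D : ℤ) - a0 ≤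
      m0 * m + (c1 * Cw w 1 D + c2 * Cw w 2 D + c3 * Cw w 3 D + c4 * Cw w 4 D + c5 * Cw w 5 D)

/-- A unit, a side without the label `2k` and a path with many steps, for a list of blocks. -/
theorem exists_reach_gen {B : List (List ℕ × ℕ)} {a0 a1 m0 c1 c2 c3 c4 c5 : ℤ}
    (hcert : CertFor B a0 a1 m0 c1 c2 c3 c4 c5) {k : ℕ} (hk : 3 ≤ k) (bound : ℤ) (S : Finset ℕ)
    (hS : S ⊆ Finset.Icc 1 (2 * k)) (hc : S.card = k)
    (hunit : ∃ v : ZMod (4 * k + 1), IsUnit v ∧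
      c1 * (2 * wcor (LW k S v) (2 * k) 1 + wedge (LW k S v) (2 * k) 1) +
      c2 * (2 * wcor (LW k S v) (2 * k) 2 + wedge (LW k S v) (2 * k) 2) +
      c3 * (2 * wcor (LW k S v) (2 * k) 3 + wedge (LW k S v) (2 * k) 3) +
      c4 * (2 * wcor (LW k S v) (2 * k) 4 + wedge (LW k S v) (2 * k) 4) +
      c5 * (2 * wcor (LW k S v) (2 * k) 5 + wedge (LW k S v) (2 * k) 5) ≤ bound) :
    ∃ v : ZMod (4 * k + 1), IsUnit v ∧ ∃ S' : Finset ℕ,
      (S' = S ∨ S' = Finset.Icc 1 (2 * k) \ S) ∧ S' ⊆ Finset.Icc 1 (2 * k) ∧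
      S'.card = k ∧ 2 * k ∉ LW k S' v ∧ (LW k S' v).card = k ∧
      ∃ m, Reach B (dword k (LW k S' v)) (2 * k - 1) m ∧ m % 2 = 1 ∧
        a1 * (2 * (k : ℤ) - 1) - a0 ≤ m0 * m + bound := by
  obtain ⟨v, hv, hsum⟩ := hunit
  obtain ⟨S', hS1, hS2, hS3, h2k, hcard, hw, he⟩ := side_free (by omega) S hS hc v hv
  refine ⟨v, hv, S', hS1, hS2, hS3, h2k, hcard, ?_⟩
  have hC : ∀ l, 1 ≤ l → l ≤ 5 → Cw (dword k (LW k S' v)) l (2 * k - 1) =
      2 * wcor (LW k S v) (2 * k) l + wedge (LW k S v) (2 * k) l := by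
    intro l h1 h2
    rw [Cw_dword h2k h1 (by omega), hw l, he l h1 (by omega)]
  have hex : ∃ i < 2 * k - 1, dword k (LW k S' v) i = true := by
    have hne : (LW k S' v).Nonempty := by
      rw [← Finset.card_pos, hcard]
      omega
    obtain ⟨j, hj⟩ := hne
    have hj' := Finset.mem_Icc.1 (LW_subset S' v hj)
    have hj2 : j ≠ 2 * k := fun h => h2k (h ▸ hj)
    exact ⟨2 * k - 1 - j, by omega, (dword_eq_true (by omega)).2 hj⟩
  obtain ⟨m, hm1, hm2, hm3⟩ := hcert (dword k (LW k S' v)) (2 * k - 1) (by omega) hex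
  refine ⟨m, hm1, hm2, ?_⟩
  rw [hC 1 (by norm_num) (by norm_num), hC 2 (by norm_num) (by norm_num),
    hC 3 (by norm_num) (by norm_num), hC 4 (by norm_num) (by norm_num),
    hC 5 (by norm_num) (by norm_num)] at hm3
  have hcast : ((2 * k - 1 : ℕ) : ℤ) = 2 * (k : ℤ) - 1 := by
    rw [Nat.cast_sub (by omega)]
    push_cast
    ring
  rw [hcast] at hm3
  linarith

/-- The unit, the side and the path with at least `k` steps, `29 ≤ k` odd. -/
theorem exists_reach_odd {B : List (List ℕ × ℕ)} (hcert : CertFor B 558 108 196 27 20 12 5 2)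
    {k : ℕ} (hk : 29 ≤ k) (S : Finset ℕ)
    (hS : S ⊆ Finset.Icc 1 (2 * k)) (hc : S.card = k) :
    ∃ v : ZMod (4 * k + 1), IsUnit v ∧ ∃ S' : Finset ℕ,
      (S' = S ∨ S' = Finset.Icc 1 (2 * k) \ S) ∧ S' ⊆ Finset.Icc 1 (2 * k) ∧
      S'.card = k ∧ 2 * k ∉ LW k S' v ∧ (LW k S' v).card = k ∧
      ∃ m, Reach B (dword k (LW k S' v)) (2 * k - 1) m ∧ m % 2 = 1 ∧
        (k % 2 = 1 → k ≤ m) := by
  obtain ⟨v, hv, S', h1, h2, h3, h4, h5, m, hm1, hm2, hm3⟩ := exists_reach_gen hcert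
    (by omega : 3 ≤ k) (10 * k) S hS hc (exists_unit_C14 (by omega) S hS hc)
  refine ⟨v, hv, S', h1, h2, h3, h4, h5, m, hm1, hm2, fun hk2 => ?_⟩
  omega

end Pool.Agent.P45
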