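import Pool.Agent.Lib.P45dba8.Labels

/-! # MP_45dba8: refined plans from counting, and plans with a single host -/

set_option autoImplicit false

namespace Pool.Agent.P45

section plan

variable {ι κ : Type*} {t : ι → ℕ} {a b : κ → ℕ}

/-- The empty plan: all values are `1`. -/
theorem plan_empty {n : ℕ} (val : ∀ x, nx t a b n x = 1) (π : ℕ → ι ⊕ κ) :
    Plan n t a b ∅ π where
  hdvd := fun h hh => absurd hh (Finset.notMem_empty h)
  hone := fun h hh => absurd hh (Finset.notMem_empty h)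
  inj := fun h hh => absurd hh (Finset.notMem_empty h)
  avd := fun h hh => absurd hh (Finset.notMem_empty h)
  clo := fun h hh => absurd hh (Finset.notMem_empty h)
  start := fun x _ => Or.inl (val x)
  ne := fun h hh => absurd hh (Finset.notMem_empty h)
  lone := fun h hh => absurd hh (Finset.notMem_empty h)

theorem nx_pair_dvd {n v : ℕ} {k : κ} (h : nx t a b n (Sum.inr k) = v) : v ∣ a k ∧ v ∣ b k := by
  have h1 : Nat.gcd (Nat.gcd n (a k)) (b k) = v := h
  constructor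
  · rw [← h1]
    exact (Nat.gcd_dvd_left _ _).trans (Nat.gcd_dvd_right _ _)
  · rw [← h1]
    exact Nat.gcd_dvd_right _ _

/-- Refined form of `plan_count`. -/
theorem plan_count_pair {n : ℕ} [Fintype κ] [DecidableEq κ] (T : Finset ℕ) (h0 : ℕ) (h0T : h0 ∈ T)
    (k0 : κ) (hdvd : ∀ h ∈ T, h ∣ n) (hone : ∀ h ∈ T, 1 < h)
    (hT : ∀ h ∈ T, ∀ k : κ, av t a b h (Sum.inr k) →
      nx t a b h (Sum.inr k) = 1 ∨ nx t a b h (Sum.inr k) ∈ T)
    (val : ∀ x, nx t a b n x = 1 ∨ nx t a b n x ∈ T)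
    (hk0 : ¬ h0 ∣ a k0 ∧ ¬ h0 ∣ b k0)
    (cnt : ∀ h ∈ T, h ≠ h0 → 2 * T.card ≤
      ((Finset.univ : Finset κ).filter (fun k => ¬ h ∣ a k ∧ ¬ h ∣ b k)).card + 1)
    (sing : ∀ i, nx t a b n (Sum.inl i) = 1 ∨
      ∃ k, k ≠ k0 ∧ nx t a b n (Sum.inr k) = nx t a b n (Sum.inl i)) :
    ∃ H π, H ⊆ T ∧ Plan n t a b H π := by
  classical
  let α : ℕ → κ := fun v => if h : ∃ k, k ≠ k0 ∧ nx t a b n (Sum.inr k) = v then h.choose else k0
  have hα : ∀ v, (∃ k, k ≠ k0 ∧ nx t a b n (Sum.inr k) = v) →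
      α v ≠ k0 ∧ nx t a b n (Sum.inr (α v)) = v := by
    intro v hv
    have e : α v = hv.choose := dif_pos hv
    rw [e]
    exact hv.choose_spec
  have hα' : ∀ v, α v ≠ k0 → nx t a b n (Sum.inr (α v)) = v := by
    intro v hv
    by_cases h : ∃ k, k ≠ k0 ∧ nx t a b n (Sum.inr k) = v
    · exact (hα v h).2
    · exact absurd (dif_neg h) hv
  let ex : ℕ → Finset κ := fun h => insert k0 ((T.erase h).image α)
  have hex : ∀ h ∈ T, (ex h).card ≤ T.card := by
    intro h hh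
    have h1 : ((T.erase h).image α).card ≤ (T.erase h).card := Finset.card_image_le
    rw [Finset.card_erase_of_mem hh] at h1
    have h2 : (ex h).card ≤ ((T.erase h).image α).card + 1 := Finset.card_insert_le _ _
    have h3 : 0 < T.card := Finset.card_pos.2 ⟨h, hh⟩
    omega
  let avl : {h // h ∈ T.erase h0} → Finset κ := fun h =>
    ((Finset.univ : Finset κ).filter (fun k => ¬ h.1 ∣ a k ∧ ¬ h.1 ∣ b k)) \ ex h.1
  have havl : ∀ h, T.card - 1 ≤ (avl h).card := by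
    intro h
    have h1 := cnt h.1 (Finset.mem_of_mem_erase h.2) (Finset.ne_of_mem_erase h.2)
    have h2 := Finset.le_card_sdiff (ex h.1)
      ((Finset.univ : Finset κ).filter (fun k => ¬ h.1 ∣ a k ∧ ¬ h.1 ∣ b k))
    have h3 : (avl h).card = (((Finset.univ : Finset κ).filter
      (fun k => ¬ h.1 ∣ a k ∧ ¬ h.1 ∣ b k)) \ ex h.1).card := rfl
    have h4 := hex h.1 (Finset.mem_of_mem_erase h.2)
    omega
  obtain ⟨f, hfi, hf⟩ := (Finset.all_card_le_biUnion_card_iff_exists_injective avl).1 (by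
    intro s
    rcases s.eq_empty_or_nonempty with rfl | ⟨h, hs⟩
    · simp
    · have h1 : s.card ≤ (T.erase h0).card := by
        have := Finset.card_le_univ s
        rwa [Fintype.card_coe] at this
      rw [Finset.card_erase_of_mem h0T] at h1
      exact (h1.trans (havl h)).trans (Finset.card_le_card (Finset.subset_biUnion_of_mem avl hs)))
  have hf1 : ∀ h, (¬ h.1 ∣ a (f h) ∧ ¬ h.1 ∣ b (f h)) ∧ f h ≠ k0 ∧
      ∀ v ∈ T, α v ≠ k0 → f h ≠ α v := by
    intro h
    have h1 := hf h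
    rw [Finset.mem_sdiff, Finset.mem_filter] at h1
    refine ⟨h1.1.2, ?_, ?_⟩
    · intro h2
      apply h1.2
      rw [h2]
      exact Finset.mem_insert_self _ _
    · intro v hv hvk h2
      by_cases hvh : v = h.1
      · have h3 := nx_pair_dvd (hα' v hvk)
        rw [← h2, hvh] at h3
        exact h1.1.2.1 h3.1
      · apply h1.2
        rw [h2]
        exact Finset.mem_insert_of_mem (Finset.mem_image_of_mem _ (Finset.mem_erase.2 ⟨hvh, hv⟩))
  let p : ℕ → κ := fun h => if hh : h ∈ T.erase h0 then f ⟨h, hh⟩ else k0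
  have p0 : p h0 = k0 := dif_neg (by simp)
  have p1 : ∀ h (hh : h ∈ T.erase h0), p h = f ⟨h, hh⟩ := fun h hh => dif_pos hh
  have pα : ∀ h ∈ T, ∀ v ∈ T, α v ≠ k0 → p h ≠ α v := by
    intro h hh v hv hα0
    by_cases he : h = h0
    · rw [he, p0]
      exact hα0.symm
    · rw [p1 h (Finset.mem_erase.2 ⟨he, hh⟩)]
      exact (hf1 _).2.2 v hv hα0
  have hav : ∀ h ∈ T, ¬ h ∣ a (p h) ∧ ¬ h ∣ b (p h) := by
    intro h hh
    by_cases he : h = h0
    · rw [he, p0]
      exact hk0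
    · have he' := Finset.mem_erase.2 ⟨he, hh⟩
      rw [p1 h he']
      exact (hf1 ⟨h, he'⟩).1
  have key : ∃ H, H ⊆ T ∧ Plan n t a b H (fun h => Sum.inr (p h)) := by
    refine exists_plan T (fun h => Sum.inr (p h)) h0 hdvd hone ?_ (fun h hh => hav h hh)
      (fun h hh => hT h hh _ (hav h hh)) val ?_ (fun _ i => by simp) ?_
    · intro h hh h' hh' he
      have he1 : p h = p h' := Sum.inr_injective he
      by_cases e1 : h = h0
      · by_cases e2 : h' = h0
        · rw [e1, e2]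
        · exfalso
          rw [e1, p0, p1 h' (Finset.mem_erase.2 ⟨e2, hh'⟩)] at he1
          exact (hf1 _).2.1 he1.symm
      · by_cases e2 : h' = h0
        · exfalso
          rw [e2, p0, p1 h (Finset.mem_erase.2 ⟨e1, hh⟩)] at he1
          exact (hf1 _).2.1 he1
        · rw [p1 h (Finset.mem_erase.2 ⟨e1, hh⟩), p1 h' (Finset.mem_erase.2 ⟨e2, hh'⟩)] at he1
          exact congrArg Subtype.val (hfi he1)
    · intro h hh hne
      rcases val (Sum.inr (p h)) with h1 | h1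
      · exact Or.inl h1
      · right
        have hpk : p h ≠ k0 := by
          rw [p1 h (Finset.mem_erase.2 ⟨hne, hh⟩)]
          exact (hf1 _).2.1
        obtain ⟨g1, g2⟩ := hα _ ⟨p h, hpk, rfl⟩
        refine ⟨Sum.inr (α (nx t a b n (Sum.inr (p h)))), ?_, g2⟩
        intro h' hh' he
        exact pα h' hh' _ h1 g1 (Sum.inr_injective he)
    · intro i _ hne
      right
      rcases sing i with h1 | ⟨k, hk, hk'⟩
      · exact absurd h1 hne
      · have hv : nx t a b n (Sum.inl i) ∈ T := by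
          rcases val (Sum.inl i) with h2 | h2
          · exact absurd h2 hne
          · exact h2
        obtain ⟨g1, g2⟩ := hα _ ⟨k, hk, hk'⟩
        refine ⟨Sum.inr (α (nx t a b n (Sum.inl i))), by simp, ?_, g2⟩
        intro h' hh' he
        exact pα h' hh' _ hv g1 (Sum.inr_injective he)
  obtain ⟨H, hH, P⟩ := key
  exact ⟨H, _, hH, P⟩

/-- A plan where the single `i0` of value `1` hosts `h0`. -/
theorem plan_count_single {n : ℕ} [Fintype κ] [DecidableEq κ] (T : Finset ℕ) (h0 : ℕ) (h0T : h0 ∈ T)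
    (k0 : κ) (i0 : ι) (hi0 : nx t a b n (Sum.inl i0) = 1) (hi0' : ¬ h0 ∣ t i0)
    (hdvd : ∀ h ∈ T, h ∣ n) (hone : ∀ h ∈ T, 1 < h)
    (hT : ∀ h ∈ T, ∀ x : ι ⊕ κ, av t a b h x → nx t a b h x = 1 ∨ nx t a b h x ∈ T)
    (val : ∀ x, nx t a b n x = 1 ∨ nx t a b n x ∈ T)
    (cnt : ∀ h ∈ T, h ≠ h0 → 2 * T.card ≤
      ((Finset.univ : Finset κ).filter (fun k => ¬ h ∣ a k ∧ ¬ h ∣ b k)).card + 2)
    (sing : ∀ i, i ≠ i0 → nx t a b n (Sum.inl i) = 1 ∨
      ∃ k, nx t a b n (Sum.inr k) = nx t a b n (Sum.inl i)) :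
    ∃ H π, H ⊆ T ∧ Plan n t a b H π := by
  classical
  let α : ℕ → κ := fun v => if h : ∃ k, nx t a b n (Sum.inr k) = v then h.choose else k0
  have hα : ∀ v, (∃ k, nx t a b n (Sum.inr k) = v) → nx t a b n (Sum.inr (α v)) = v := by
    intro v hv
    have e : α v = hv.choose := dif_pos hv
    rw [e]
    exact hv.choose_spec
  let ex : ℕ → Finset κ := fun h => (T.erase h).image α
  have hex : ∀ h ∈ T, (ex h).card + 1 ≤ T.card := by
    intro h hh
    have h1 : (ex h).card ≤ (T.erase h).card := Finset.card_image_le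
    rw [Finset.card_erase_of_mem hh] at h1
    have h3 : 0 < T.card := Finset.card_pos.2 ⟨h, hh⟩
    omega
  let avl : {h // h ∈ T.erase h0} → Finset κ := fun h =>
    ((Finset.univ : Finset κ).filter (fun k => ¬ h.1 ∣ a k ∧ ¬ h.1 ∣ b k)) \ ex h.1
  have havl : ∀ h, T.card - 1 ≤ (avl h).card := by
    intro h
    have h1 := cnt h.1 (Finset.mem_of_mem_erase h.2) (Finset.ne_of_mem_erase h.2)
    have h2 := Finset.le_card_sdiff (ex h.1)
      ((Finset.univ : Finset κ).filter (fun k => ¬ h.1 ∣ a k ∧ ¬ h.1 ∣ b k))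
    have h3 : (avl h).card = (((Finset.univ : Finset κ).filter
      (fun k => ¬ h.1 ∣ a k ∧ ¬ h.1 ∣ b k)) \ ex h.1).card := rfl
    have h4 := hex h.1 (Finset.mem_of_mem_erase h.2)
    omega
  obtain ⟨f, hfi, hf⟩ := (Finset.all_card_le_biUnion_card_iff_exists_injective avl).1 (by
    intro s
    rcases s.eq_empty_or_nonempty with rfl | ⟨h, hs⟩
    · simp
    · have h1 : s.card ≤ (T.erase h0).card := by
        have := Finset.card_le_univ s
        rwa [Fintype.card_coe] at this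
      rw [Finset.card_erase_of_mem h0T] at h1
      exact (h1.trans (havl h)).trans (Finset.card_le_card (Finset.subset_biUnion_of_mem avl hs)))
  have hf1 : ∀ h, (¬ h.1 ∣ a (f h) ∧ ¬ h.1 ∣ b (f h)) ∧
      ∀ v ∈ T, (∃ k, nx t a b n (Sum.inr k) = v) → f h ≠ α v := by
    intro h
    have h1 := hf h
    rw [Finset.mem_sdiff, Finset.mem_filter] at h1
    refine ⟨h1.1.2, ?_⟩
    intro v hv hvk h2
    by_cases hvh : v = h.1
    · have h3 := nx_pair_dvd (hα v hvk)
      rw [← h2, hvh] at h3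
      exact h1.1.2.1 h3.1
    · apply h1.2
      rw [h2]
      exact Finset.mem_image_of_mem _ (Finset.mem_erase.2 ⟨hvh, hv⟩)
  let p : ℕ → ι ⊕ κ := fun h => if hh : h ∈ T.erase h0 then Sum.inr (f ⟨h, hh⟩) else Sum.inl i0
  have p0 : p h0 = Sum.inl i0 := dif_neg (by simp)
  have p1 : ∀ h (hh : h ∈ T.erase h0), p h = Sum.inr (f ⟨h, hh⟩) := fun h hh => dif_pos hh
  have pα : ∀ h ∈ T, ∀ v ∈ T, (∃ k, nx t a b n (Sum.inr k) = v) → p h ≠ Sum.inr (α v) := by
    intro h hh v hv hα0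
    by_cases he : h = h0
    · rw [he, p0]
      simp
    · rw [p1 h (Finset.mem_erase.2 ⟨he, hh⟩)]
      intro h'
      exact (hf1 _).2 v hv hα0 (Sum.inr_injective h')
  have hav : ∀ h ∈ T, av t a b h (p h) := by
    intro h hh
    by_cases he : h = h0
    · rw [he, p0]
      exact hi0'
    · have he' := Finset.mem_erase.2 ⟨he, hh⟩
      rw [p1 h he']
      exact (hf1 ⟨h, he'⟩).1
  have h00 : (0 : ℕ) ∉ T := fun h => by
    have := hone 0 h
    omega
  have key : ∃ H, H ⊆ T ∧ Plan n t a b H p := by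
    refine exists_plan T p 0 hdvd hone ?_ hav
      (fun h hh => hT h hh _ (hav h hh)) val ?_ (fun h => absurd h h00) ?_
    · intro h hh h' hh' he
      by_cases e1 : h = h0
      · by_cases e2 : h' = h0
        · rw [e1, e2]
        · exfalso
          rw [e1, p0, p1 h' (Finset.mem_erase.2 ⟨e2, hh'⟩)] at he
          simp at he
      · by_cases e2 : h' = h0
        · exfalso
          rw [e2, p0, p1 h (Finset.mem_erase.2 ⟨e1, hh⟩)] at he
          simp at he
        · rw [p1 h (Finset.mem_erase.2 ⟨e1, hh⟩), p1 h' (Finset.mem_erase.2 ⟨e2, hh'⟩)] at he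
          exact congrArg Subtype.val (hfi (Sum.inr_injective he))
    · intro h hh _
      by_cases e1 : h = h0
      · left
        rw [e1, p0, hi0]
      · have he' := Finset.mem_erase.2 ⟨e1, hh⟩
        rw [p1 h he']
        rcases val (Sum.inr (f ⟨h, he'⟩)) with h1 | h1
        · exact Or.inl h1
        · right
          have hex1 : ∃ k, nx t a b n (Sum.inr k) = nx t a b n (Sum.inr (f ⟨h, he'⟩)) := ⟨_, rfl⟩
          have g2 := hα _ hex1
          refine ⟨Sum.inr (α (nx t a b n (Sum.inr (f ⟨h, he'⟩)))), ?_, g2⟩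
          intro h' hh'
          exact pα h' hh' _ h1 hex1
    · intro i hi hne
      right
      have hii : i ≠ i0 := by
        rintro rfl
        exact hi h0 h0T p0
      rcases sing i hii with h1 | hk
      · exact absurd h1 hne
      · have hv : nx t a b n (Sum.inl i) ∈ T := by
          rcases val (Sum.inl i) with h2 | h2
          · exact absurd h2 hne
          · exact h2
        have g2 := hα _ hk
        refine ⟨Sum.inr (α (nx t a b n (Sum.inl i))), by simp, ?_, g2⟩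
        intro h' hh'
        exact pα h' hh' _ hv hk
  obtain ⟨H, hH, P⟩ := key
  exact ⟨H, _, hH, P⟩

end plan

section side

variable {k : ℕ} {D U : Finset ℕ} {σ : ℕ → ℕ}

/-- `Good` for the labels of a side. -/
def GoodSide (k : ℕ) (I D : Finset ℕ) (σ : ℕ → ℕ) : Prop :=
  Good (4 * k + 1) IsUnit (fun i : {i // i ∈ I} => ((2 * i.1 : ℕ) : ZMod (4 * k + 1)))
    (fun d : {d // d ∈ D} => ((2 * d.1 : ℕ) : ZMod (4 * k + 1)))
    (fun d : {d // d ∈ D} => ((2 * σ d.1 : ℕ) : ZMod (4 * k + 1)))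

theorem gcd_two_mul (k i : ℕ) : Nat.gcd (4 * k + 1) (2 * i) = Nat.gcd (4 * k + 1) i :=
  (Nat.coprime_two_left.2 (⟨2 * k, by ring⟩ : Odd (4 * k + 1))).gcd_mul_left_cancel_right i

/-- All values are `1`. -/
theorem side_T_empty {I : Finset ℕ} (hI : I ⊆ Finset.Icc 1 (2 * k)) (hD : D ⊆ Finset.Icc 1 (2 * k))
    (hU : U ⊆ Finset.Icc 1 (2 * k)) (hDU : Disjoint D U) (hID : Disjoint I D)
    (hIU : Disjoint I U) (hσ : Set.BijOn σ D U) (hne : D.Nonempty)
    (hval : ∀ d ∈ D, Nat.gcd (Nat.gcd (4 * k + 1) d) (σ d) = 1)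
    (sing : ∀ i ∈ I, Nat.gcd (4 * k + 1) i = 1) : GoodSide k I D σ := by
  have hodd : Odd (4 * k + 1) := ⟨2 * k, by ring⟩
  obtain ⟨d0, hd0⟩ := hne
  have P : Plan (4 * k + 1) (fun i : {i // i ∈ I} => 2 * i.1) (fun d : {d // d ∈ D} => 2 * d.1)
      (fun d : {d // d ∈ D} => 2 * σ d.1) ∅ (fun _ => Sum.inr ⟨d0, hd0⟩) := by
    apply plan_empty
    intro x
    rcases x with i | d
    · show Nat.gcd (4 * k + 1) (2 * i.1) = 1
      rw [gcd_two_mul, sing i.1 i.2]
    · rw [nx_two dvd_rfl]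
      exact hval d.1 d.2
  exact P.good hodd (labels_TDist hI hD hU hDU hID hIU hσ)

/-- No single; `h0` hosted by the pair of `b0`. -/
theorem side_T_pair (T : Finset ℕ) (hTn : ∀ h ∈ T, h ∣ 4 * k + 1 ∧ 1 < h)
    (hTd : ∀ h ∈ T, ∀ g, g ∣ h → 1 < g → g ∈ T)
    (hD : D ⊆ Finset.Icc 1 (2 * k))
    (hU : U ⊆ Finset.Icc 1 (2 * k)) (hDU : Disjoint D U) (hσ : Set.BijOn σ D U) (h0 : ℕ)
    (h0T : h0 ∈ T)
    (b0 : ℕ) (hb0 : b0 ∈ D) (hb : ¬ h0 ∣ b0) (hc : ¬ h0 ∣ σ b0)
    (cnt : ∀ h ∈ T, h ≠ h0 → 2 * T.card + ((4 * k + 1) / h - 1) / 2 ≤ D.card + 1)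
    (hval : ∀ d ∈ D, Nat.gcd (Nat.gcd (4 * k + 1) d) (σ d) = 1 ∨
      Nat.gcd (Nat.gcd (4 * k + 1) d) (σ d) ∈ T) : GoodSide k ∅ D σ := by
  classical
  have hodd : Odd (4 * k + 1) := ⟨2 * k, by ring⟩
  have h0n : h0 ∣ 4 * k + 1 := (hTn h0 h0T).1
  obtain ⟨H, π, -, P⟩ := plan_count_pair (n := 4 * k + 1)
    (t := fun i : {i // i ∈ (∅ : Finset ℕ)} => 2 * i.1)
    (a := fun d : {d // d ∈ D} => 2 * d.1) (b := fun d : {d // d ∈ D} => 2 * σ d.1)
    T h0 h0T ⟨b0, hb0⟩ (fun h hh => (hTn h hh).1)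
    (fun h hh => (hTn h hh).2)
    (fun h hh d hd => by
      have h1 := nx_dvd (t := fun i : {i // i ∈ (∅ : Finset ℕ)} => 2 * i.1)
        (a := fun d : {d // d ∈ D} => 2 * d.1) (b := fun d : {d // d ∈ D} => 2 * σ d.1) h
        (Sum.inr d)
      have h2 := (hTn h hh).2
      have h3 := Nat.pos_of_dvd_of_pos h1 (by omega)
      by_cases h4 : nx (fun i : {i // i ∈ (∅ : Finset ℕ)} => 2 * i.1)
        (fun d : {d // d ∈ D} => 2 * d.1)
        (fun d : {d // d ∈ D} => 2 * σ d.1) h (Sum.inr d) = 1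
      · exact Or.inl h4
      · exact Or.inr (hTd h hh _ h1 (by omega)))
    (fun x => by
      rcases x with i | d
      · exact absurd i.2 (Finset.notMem_empty _)
      · rw [nx_two dvd_rfl]
        exact hval d.1 d.2)
    (by
      show ¬ h0 ∣ 2 * b0 ∧ ¬ h0 ∣ 2 * σ b0
      rw [dvd_two_mul_iff h0n, dvd_two_mul_iff h0n]
      exact ⟨hb, hc⟩)
    (fun h hh hne => by
      have h1 := avoid_card hD hU hDU hσ (hTn h hh).1
      have h2 := cnt h hh hne
      have h3 : ((Finset.univ : Finset {d // d ∈ D}).filter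
        (fun d => ¬ h ∣ 2 * d.1 ∧ ¬ h ∣ 2 * σ d.1)).card =
        ((Finset.univ : Finset {d // d ∈ D}).filter
        (fun d => ¬ h ∣ (fun d : {d // d ∈ D} => 2 * d.1) d ∧
          ¬ h ∣ (fun d : {d // d ∈ D} => 2 * σ d.1) d)).card := rfl
      omega)
    (fun i => absurd i.2 (Finset.notMem_empty _))
  exact P.good hodd (labels_TDist (Finset.empty_subset _) hD hU hDU (Finset.disjoint_empty_left _)
    (Finset.disjoint_empty_left _) hσ)

/-- One single `i0` of value `1`, which hosts `h0`. -/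
theorem side_T_single (T : Finset ℕ) (hTn : ∀ h ∈ T, h ∣ 4 * k + 1 ∧ 1 < h)
    (hTd : ∀ h ∈ T, ∀ g, g ∣ h → 1 < g → g ∈ T) (i0 : ℕ) (hi0 : i0 ∈ Finset.Icc 1 (2 * k))
    (hi1 : Nat.gcd (4 * k + 1) i0 = 1) (hiD : i0 ∉ D) (hiU : i0 ∉ U)
    (hD : D ⊆ Finset.Icc 1 (2 * k))
    (hU : U ⊆ Finset.Icc 1 (2 * k)) (hDU : Disjoint D U) (hσ : Set.BijOn σ D U) (hne : D.Nonempty)
    (h0 : ℕ) (h0T : h0 ∈ T)
    (cnt : ∀ h ∈ T, h ≠ h0 → 2 * T.card + ((4 * k + 1) / h - 1) / 2 ≤ D.card + 2)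
    (hval : ∀ d ∈ D, Nat.gcd (Nat.gcd (4 * k + 1) d) (σ d) = 1 ∨
      Nat.gcd (Nat.gcd (4 * k + 1) d) (σ d) ∈ T) : GoodSide k {i0} D σ := by
  classical
  have hodd : Odd (4 * k + 1) := ⟨2 * k, by ring⟩
  have h0n : h0 ∣ 4 * k + 1 := (hTn h0 h0T).1
  obtain ⟨d0, hd0⟩ := hne
  have hsi : ∀ i : {i // i ∈ ({i0} : Finset ℕ)}, i = ⟨i0, Finset.mem_singleton_self i0⟩ := by
    intro i
    exact Subtype.ext (Finset.mem_singleton.1 i.2)
  obtain ⟨H, π, -, P⟩ := plan_count_single (n := 4 * k + 1)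
    (t := fun i : {i // i ∈ ({i0} : Finset ℕ)} => 2 * i.1)
    (a := fun d : {d // d ∈ D} => 2 * d.1) (b := fun d : {d // d ∈ D} => 2 * σ d.1)
    T h0 h0T ⟨d0, hd0⟩ ⟨i0, Finset.mem_singleton_self i0⟩
    (by
      show Nat.gcd (4 * k + 1) (2 * i0) = 1
      rw [gcd_two_mul, hi1])
    (by
      show ¬ h0 ∣ 2 * i0
      rw [dvd_two_mul_iff h0n]
      intro h
      have h1 := Nat.dvd_gcd h0n h
      rw [hi1] at h1
      have h2 := (hTn h0 h0T).2
      have h3 := Nat.le_of_dvd one_pos h1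
      omega)
    (fun h hh => (hTn h hh).1)
    (fun h hh => (hTn h hh).2)
    (fun h hh x hx => by
      have h1 := nx_dvd (t := fun i : {i // i ∈ ({i0} : Finset ℕ)} => 2 * i.1)
        (a := fun d : {d // d ∈ D} => 2 * d.1) (b := fun d : {d // d ∈ D} => 2 * σ d.1) h x
      have h2 := (hTn h hh).2
      have h3 := Nat.pos_of_dvd_of_pos h1 (by omega)
      by_cases h4 : nx (fun i : {i // i ∈ ({i0} : Finset ℕ)} => 2 * i.1)
        (fun d : {d // d ∈ D} => 2 * d.1)
        (fun d : {d // d ∈ D} => 2 * σ d.1) h x = 1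
      · exact Or.inl h4
      · exact Or.inr (hTd h hh _ h1 (by omega)))
    (fun x => by
      rcases x with i | d
      · left
        rw [hsi i]
        show Nat.gcd (4 * k + 1) (2 * i0) = 1
        rw [gcd_two_mul, hi1]
      · rw [nx_two dvd_rfl]
        exact hval d.1 d.2)
    (fun h hh hne => by
      have h1 := avoid_card hD hU hDU hσ (hTn h hh).1
      have h2 := cnt h hh hne
      have h3 : ((Finset.univ : Finset {d // d ∈ D}).filter
        (fun d => ¬ h ∣ 2 * d.1 ∧ ¬ h ∣ 2 * σ d.1)).card =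
        ((Finset.univ : Finset {d // d ∈ D}).filter
        (fun d => ¬ h ∣ (fun d : {d // d ∈ D} => 2 * d.1) d ∧
          ¬ h ∣ (fun d : {d // d ∈ D} => 2 * σ d.1) d)).card := rfl
      omega)
    (fun i hi => absurd (hsi i) hi)
  refine P.good hodd (labels_TDist (Finset.singleton_subset_iff.2 hi0) hD hU hDU ?_ ?_ hσ)
  · exact Finset.disjoint_singleton_left.2 hiD
  · exact Finset.disjoint_singleton_left.2 hiU

end side

end Pool.Agent.P45
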