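import Pool.Agent.Lib.P45dba8.Labels2
import Pool.Agent.Lib.P45dba8.PlanCount2

/-! # MP_45dba8: the label matching of one side for general `n = 4 k + 1`, `k ≥ 17` -/

set_option autoImplicit false

namespace Pool.Agent.P45

section numeric

/-- The divisors of `n` in `(1, n/5]` which are not multiples of `q` (`q = 0`: all of them). -/
def TT (n q : ℕ) : Finset ℕ := (Finset.Icc 2 (n / 5)).filter (fun h => h ∣ n ∧ ¬ q ∣ h)

theorem mem_TT {n q h : ℕ} : h ∈ TT n q ↔ (2 ≤ h ∧ 5 * h ≤ n) ∧ h ∣ n ∧ ¬ q ∣ h := by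
  rw [TT, Finset.mem_filter, Finset.mem_Icc, Nat.le_div_iff_mul_le (by norm_num), mul_comm h 5]

/-- Counting by a list. -/
def tcount (n q : ℕ) : ℕ :=
  ((List.range' 2 (n / 5)).filter (fun h => decide (n % h = 0) && !decide (h % q = 0))).length

theorem TT_card_le (n q : ℕ) : (TT n q).card ≤ tcount n q := by
  classical
  have h1 : TT n q ⊆ ((List.range' 2 (n / 5)).filter
      (fun h => decide (n % h = 0) && !decide (h % q = 0))).toFinset := by
    intro h hh
    obtain ⟨⟨a1, a2⟩, a3, a4⟩ := mem_TT.1 hh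
    rw [List.mem_toFinset, List.mem_filter, List.mem_range'_1]
    refine ⟨⟨a1, by omega⟩, ?_⟩
    rw [Bool.and_eq_true, decide_eq_true_eq, Bool.not_eq_true', decide_eq_false_iff_not]
    exact ⟨Nat.mod_eq_zero_of_dvd a3, fun h' => a4 (Nat.dvd_of_mod_eq_zero h')⟩
  exact (Finset.card_le_card h1).trans (List.toFinset_card_le _)

/-- The check for one `n`. -/
def chkN (n : ℕ) : Bool :=
  if n % 3 = 0 then
    (decide (112 * tcount n 3 ≤ 3 * n + 21)) &&
      (if n % 5 = 0 then decide (112 * tcount n 5 ≤ 3 * n + 21)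
        else decide (112 * tcount n 0 ≤ 3 * n + 21))
  else decide (112 * tcount n 0 ≤ 3 * n + 21)

theorem chk_all : (List.range' 17 326).all (fun j => chkN (4 * j + 1)) = true := by
  decide +kernel

theorem odd_card (s : ℕ) : ((Finset.Icc 3 s).filter (fun j => j % 2 = 1)).card ≤ (s - 1) / 2 := by
  have h : ((Finset.Icc 3 s).filter (fun j => j % 2 = 1)).card ≤ (Finset.Icc 1 ((s - 1) / 2)).card := by
    apply Finset.card_le_card_of_injOn (fun j => j / 2)
    · intro j hj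
      rw [Finset.mem_coe, Finset.mem_filter, Finset.mem_Icc] at hj
      rw [Finset.mem_coe, Finset.mem_Icc]
      show 1 ≤ j / 2 ∧ j / 2 ≤ (s - 1) / 2
      omega
    · intro a ha b hb hab
      rw [Finset.mem_coe, Finset.mem_filter] at ha hb
      have hab' : a / 2 = b / 2 := hab
      omega
  rw [Nat.card_Icc] at h
  omega

theorem TT_large (n q : ℕ) (hodd : n % 2 = 1) (hn : 1369 ≤ n) :
    112 * (TT n q).card ≤ 3 * n + 21 := by
  classical
  set s := Nat.sqrt n with hs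
  have hs1 : s * s ≤ n := Nat.sqrt_le n
  have hs2 : n < (s + 1) * (s + 1) := Nat.lt_succ_sqrt n
  have hs37 : 37 ≤ s := by
    by_contra hcon
    have : s + 1 ≤ 37 := by omega
    have : (s + 1) * (s + 1) ≤ 37 * 37 := Nat.mul_le_mul this this
    omega
  set B := (Finset.Icc 3 s).filter (fun j => j % 2 = 1) with hB
  have hodd' : ∀ h, h ∣ n → h % 2 = 1 := by
    intro h hh
    by_contra hcon
    have : 2 ∣ h := by omega
    have := this.trans hh
    omega
  have hsub : TT n q ⊆ B ∪ B.image (fun j => n / j) := by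
    intro h hh
    obtain ⟨⟨a1, a2⟩, a3, -⟩ := mem_TT.1 hh
    have o1 := hodd' h a3
    rw [Finset.mem_union]
    by_cases hle : h ≤ s
    · left
      rw [hB, Finset.mem_filter, Finset.mem_Icc]
      omega
    · right
      rw [Finset.mem_image]
      obtain ⟨c, hc⟩ := a3
      have o2 := hodd' c ⟨h, by rw [hc, mul_comm]⟩
      have hc1 : c ≤ s := by
        by_contra hcon
        have : (s + 1) * (s + 1) ≤ h * c := Nat.mul_le_mul (by omega) (by omega)
        omega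
      have hc2 : 3 ≤ c := by
        by_contra hcon
        have : c = 1 := by omega
        rw [this, mul_one] at hc
        omega
      refine ⟨c, ?_, ?_⟩
      · rw [hB, Finset.mem_filter, Finset.mem_Icc]
        exact ⟨⟨hc2, hc1⟩, o2⟩
      · show n / c = h
        rw [hc]
        exact Nat.mul_div_cancel _ (by omega)
  have h1 := (Finset.card_le_card hsub).trans (Finset.card_union_le _ _)
  have h2 : (B.image (fun j => n / j)).card ≤ B.card := Finset.card_image_le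
  have h3 := odd_card s
  rw [← hB] at h3
  have h4 : 112 * (TT n q).card ≤ 112 * (s - 1) := by omega
  have h5 : 112 * (s - 1) ≤ 3 * (s * s) + 21 := by
    obtain ⟨t, ht⟩ := Nat.exists_eq_add_of_le hs37
    rw [ht]
    have : 37 + t - 1 = 36 + t := by omega
    rw [this]
    nlinarith [sq_nonneg t]
  omega

theorem chk_get {k : ℕ} (hk : 17 ≤ k) (hk' : k < 343) : chkN (4 * k + 1) = true := by
  have h := chk_all
  rw [List.all_eq_true] at h
  exact h k (by rw [List.mem_range'_1]; omega)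

theorem TT_zero {k : ℕ} (hk : 17 ≤ k) (h : ¬ 3 ∣ 4 * k + 1 ∨ ¬ 5 ∣ 4 * k + 1) :
    112 * (TT (4 * k + 1) 0).card ≤ 3 * (4 * k + 1) + 21 := by
  by_cases hk' : k < 343
  · have h1 := chk_get hk hk'
    have h2 := TT_card_le (4 * k + 1) 0
    have h3 : 112 * tcount (4 * k + 1) 0 ≤ 3 * (4 * k + 1) + 21 := by
      unfold chkN at h1
      by_cases e3 : (4 * k + 1) % 3 = 0
      · rw [if_pos e3] at h1
        have e5 : ¬ (4 * k + 1) % 5 = 0 := by
          intro e5
          rcases h with h | h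
          · exact h (Nat.dvd_of_mod_eq_zero e3)
          · exact h (Nat.dvd_of_mod_eq_zero e5)
        rw [if_neg e5, Bool.and_eq_true, decide_eq_true_eq, decide_eq_true_eq] at h1
        exact h1.2
      · rw [if_neg e3, decide_eq_true_eq] at h1
        exact h1
    omega
  · exact TT_large _ _ (by omega) (by omega)

theorem TT_three {k : ℕ} (hk : 17 ≤ k) (h : 3 ∣ 4 * k + 1) :
    112 * (TT (4 * k + 1) 3).card ≤ 3 * (4 * k + 1) + 21 := by
  by_cases hk' : k < 343
  · have h1 := chk_get hk hk'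
    have h2 := TT_card_le (4 * k + 1) 3
    have h3 : 112 * tcount (4 * k + 1) 3 ≤ 3 * (4 * k + 1) + 21 := by
      unfold chkN at h1
      rw [if_pos (Nat.mod_eq_zero_of_dvd h), Bool.and_eq_true, decide_eq_true_eq] at h1
      exact h1.1
    omega
  · exact TT_large _ _ (by omega) (by omega)

theorem TT_five {k : ℕ} (hk : 17 ≤ k) (h : 3 ∣ 4 * k + 1) (h5 : 5 ∣ 4 * k + 1) :
    112 * (TT (4 * k + 1) 5).card ≤ 3 * (4 * k + 1) + 21 := by
  by_cases hk' : k < 343
  · have h1 := chk_get hk hk'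
    have h2 := TT_card_le (4 * k + 1) 5
    have h3 : 112 * tcount (4 * k + 1) 5 ≤ 3 * (4 * k + 1) + 21 := by
      unfold chkN at h1
      rw [if_pos (Nat.mod_eq_zero_of_dvd h), if_pos (Nat.mod_eq_zero_of_dvd h5),
        Bool.and_eq_true, decide_eq_true_eq, decide_eq_true_eq] at h1
      exact h1.2
    omega
  · exact TT_large _ _ (by omega) (by omega)

/-- The count for a divisor `h ≥ 7`. -/
theorem cnt_of {k t m h : ℕ} (ht : 112 * t ≤ 3 * (4 * k + 1) + 21) (h7 : 7 ≤ h)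
    (hd : h ∣ 4 * k + 1) (hm : k ≤ 2 * m + 2) : 2 * t + ((4 * k + 1) / h - 1) / 2 ≤ m + 1 := by
  obtain ⟨x, hx⟩ := hd
  have e : (4 * k + 1) / h = x := by
    rw [hx]
    exact Nat.mul_div_cancel_left _ (by omega)
  rw [e]
  have h7x : 7 * x ≤ 4 * k + 1 := by
    rw [hx]
    exact Nat.mul_le_mul_right x h7
  omega

end numeric

section side

variable {k : ℕ} {D U : Finset ℕ} {σ : ℕ → ℕ}

theorem TT_dvd {q : ℕ} : ∀ h ∈ TT (4 * k + 1) q, h ∣ 4 * k + 1 ∧ 1 < h := by
  intro h hh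
  obtain ⟨⟨a1, -⟩, a3, -⟩ := mem_TT.1 hh
  exact ⟨a3, by omega⟩

theorem TT_clo {q : ℕ} : ∀ h ∈ TT (4 * k + 1) q, ∀ g, g ∣ h → 1 < g → g ∈ TT (4 * k + 1) q := by
  intro h hh g hg h1
  obtain ⟨⟨a1, a2⟩, a3, a4⟩ := mem_TT.1 hh
  have := Nat.le_of_dvd (by omega) hg
  exact mem_TT.2 ⟨⟨by omega, by omega⟩, hg.trans a3, fun h' => a4 (h'.trans hg)⟩

/-- The value of a pair is `1` or in `TT n q` if not both labels are multiples of `q`. -/
theorem val_TT {q : ℕ} (hD : D ⊆ Finset.Icc 1 (2 * k)) (hU : U ⊆ Finset.Icc 1 (2 * k))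
    (hDU : Disjoint D U) (hσ : Set.BijOn σ D U) {d : ℕ} (hd : d ∈ D)
    (hq : ¬ q ∣ d ∨ ¬ q ∣ σ d) :
    Nat.gcd (Nat.gcd (4 * k + 1) d) (σ d) = 1 ∨
      Nat.gcd (Nat.gcd (4 * k + 1) d) (σ d) ∈ TT (4 * k + 1) q := by
  set v := Nat.gcd (Nat.gcd (4 * k + 1) d) (σ d) with hv
  have v1 : v ∣ 4 * k + 1 := (Nat.gcd_dvd_left _ _).trans (Nat.gcd_dvd_left _ _)
  have v2 : v ∣ d := (Nat.gcd_dvd_left _ _).trans (Nat.gcd_dvd_right _ _)
  have v3 : v ∣ σ d := Nat.gcd_dvd_right _ _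
  have vpos : 0 < v := Nat.pos_of_dvd_of_pos v1 (by omega)
  by_cases h1 : v = 1
  · exact Or.inl h1
  right
  have hσd : σ d ∈ U := hσ.mapsTo hd
  have hne : d ≠ σ d := fun h => Finset.disjoint_left.1 hDU hd (h ▸ hσd)
  have b1 := Finset.mem_Icc.1 (hD hd)
  have b2 := Finset.mem_Icc.1 (hU hσd)
  obtain ⟨x, hx⟩ := v2
  obtain ⟨y, hy⟩ := v3
  obtain ⟨z, hz⟩ := v1
  have hxy : x ≠ y := fun h => hne (by
    have h1 : v * x = v * y := by rw [h]
    omega)
  have hx0 : x ≠ 0 := by rintro rfl; rw [mul_zero] at hx; omega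
  have hy0 : y ≠ 0 := by rintro rfl; rw [mul_zero] at hy; omega
  have h2v : v * 2 ≤ 2 * k := by
    by_cases hx2 : 2 ≤ x
    · have : v * 2 ≤ v * x := Nat.mul_le_mul_left v hx2
      omega
    · have hy2 : 2 ≤ y := by omega
      have : v * 2 ≤ v * y := Nat.mul_le_mul_left v hy2
      omega
  have hz5 : 5 ≤ z := by
    by_contra hcon
    have : v * z ≤ v * 4 := Nat.mul_le_mul_left v (by omega)
    omega
  refine mem_TT.2 ⟨⟨by omega, ?_⟩, ⟨z, hz⟩, ?_⟩
  · have : v * 5 ≤ v * z := Nat.mul_le_mul_left v hz5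
    omega
  · intro hqv
    rcases hq with h | h
    · exact h (hqv.trans ⟨x, hx⟩)
    · exact h (hqv.trans ⟨y, hy⟩)

/-- A pair which avoids `h0 ≥ 5` exists. -/
theorem exists_host (hk : 17 ≤ k) (hD : D ⊆ Finset.Icc 1 (2 * k)) (hU : U ⊆ Finset.Icc 1 (2 * k))
    (hDU : Disjoint D U) (hσ : Set.BijOn σ D U) (hm : k ≤ 2 * D.card + 2) {h : ℕ}
    (hh : h ∣ 4 * k + 1) (h5 : 5 ≤ h) : ∃ b ∈ D, ¬ h ∣ b ∧ ¬ h ∣ σ b := by
  classical
  have h1 := avoid_card hD hU hDU hσ hh
  obtain ⟨x, hx⟩ := hh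
  have e : (4 * k + 1) / h = x := by
    rw [hx]
    exact Nat.mul_div_cancel_left _ (by omega)
  rw [e] at h1
  have h5x : 5 * x ≤ 4 * k + 1 := by
    rw [hx]
    exact Nat.mul_le_mul_right x h5
  have h2 : 0 < ((Finset.univ : Finset {d // d ∈ D}).filter
      (fun d => ¬ h ∣ 2 * d.1 ∧ ¬ h ∣ 2 * σ d.1)).card := by omega
  obtain ⟨d, hd⟩ := Finset.card_pos.1 h2
  rw [Finset.mem_filter] at hd
  refine ⟨d.1, d.2, fun h' => hd.2.1 (h'.mul_left 2), fun h' => hd.2.2 (h'.mul_left 2)⟩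

/-- Multiples of `q ≥ 5` are few. -/
theorem mult_bound {q : ℕ} (hq : q ∣ 4 * k + 1) (h5 : 5 ≤ q) (hD : D ⊆ Finset.Icc 1 (2 * k))
    (hU : U ⊆ Finset.Icc 1 (2 * k)) (hDU : Disjoint D U) (D' U' : Finset ℕ) (hD' : D' ⊆ D)
    (hU' : U' ⊆ U) (m : ℕ) (hm : k ≤ 2 * m + 2) (hk : 17 ≤ k) :
    (D'.filter (fun j => ¬ ¬ q ∣ j)).card + (U'.filter (fun j => ¬ ¬ q ∣ j)).card ≤ m - 1 := by
  classical
  have h1 : (D'.filter (fun j => ¬ ¬ q ∣ j)).card + (U'.filter (fun j => ¬ ¬ q ∣ j)).card ≤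
      ((Finset.Icc 1 (2 * k)).filter (fun j => q ∣ j)).card := by
    rw [← Finset.card_union_of_disjoint]
    · refine Finset.card_le_card ?_
      intro x hx
      rcases Finset.mem_union.1 hx with hx | hx
      · have h2 := Finset.mem_filter.1 hx
        exact Finset.mem_filter.2 ⟨hD (hD' h2.1), not_not.1 h2.2⟩
      · have h2 := Finset.mem_filter.1 hx
        exact Finset.mem_filter.2 ⟨hU (hU' h2.1), not_not.1 h2.2⟩
    · rw [Finset.disjoint_left]
      intro x hx hx'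
      exact Finset.disjoint_left.1 hDU (hD' (Finset.mem_filter.1 hx).1)
        (hU' (Finset.mem_filter.1 hx').1)
  rw [card_mult k q hq] at h1
  obtain ⟨x, hx⟩ := hq
  have e : (4 * k + 1) / q = x := by
    rw [hx]
    exact Nat.mul_div_cancel_left _ (by omega)
  rw [e] at h1
  have h5x : 5 * x ≤ 4 * k + 1 := by
    rw [hx]
    exact Nat.mul_le_mul_right x h5
  omega

theorem TT_ge_five {q h : ℕ} (h3 : ¬ 3 ∣ h) (hh : h ∈ TT (4 * k + 1) q) : 5 ≤ h := by
  obtain ⟨⟨a1, -⟩, a3, -⟩ := mem_TT.1 hh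
  have h2 : ¬ 2 ∣ h := by
    intro h'
    have := h'.trans a3
    omega
  have : h ≠ 3 := by
    rintro rfl
    exact h3 dvd_rfl
  omega

/-- The rule with a bijection `σ` whose values are `1` or in `TT n q`, no element of `TT n q` being
a multiple of `3`. -/
theorem side_even_aux (hk : 17 ≤ k) (hD : D ⊆ Finset.Icc 1 (2 * k))
    (hU : U ⊆ Finset.Icc 1 (2 * k)) (hDU : Disjoint D U) (hσ : Set.BijOn σ D U)
    (hm : k ≤ 2 * D.card + 2) (q : ℕ) (hT : 112 * (TT (4 * k + 1) q).card ≤ 3 * (4 * k + 1) + 21)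
    (h3 : ∀ h ∈ TT (4 * k + 1) q, ¬ 3 ∣ h)
    (hval : ∀ d ∈ D, Nat.gcd (Nat.gcd (4 * k + 1) d) (σ d) = 1 ∨
      Nat.gcd (Nat.gcd (4 * k + 1) d) (σ d) ∈ TT (4 * k + 1) q) : GoodSide k ∅ D σ := by
  have hDne : D.Nonempty := Finset.card_pos.1 (by omega)
  rcases (TT (4 * k + 1) q).eq_empty_or_nonempty with hE | hE
  · refine side_T_empty (Finset.empty_subset _) hD hU hDU (Finset.disjoint_empty_left _)
      (Finset.disjoint_empty_left _) hσ hDne ?_ (fun i hi => absurd hi (Finset.notMem_empty _))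
    intro d hd
    rcases hval d hd with h | h
    · exact h
    · rw [hE] at h
      exact absurd h (Finset.notMem_empty _)
  · set h0 := (TT (4 * k + 1) q).min' hE with hh0
    have h0T : h0 ∈ TT (4 * k + 1) q := Finset.min'_mem _ hE
    have h05 := TT_ge_five (h3 h0 h0T) h0T
    obtain ⟨b0, hb0, hb, hc⟩ := exists_host hk hD hU hDU hσ hm (TT_dvd h0 h0T).1 h05
    refine side_T_pair (TT (4 * k + 1) q) TT_dvd TT_clo hD hU hDU hσ h0 h0T b0 hb0 hb hc ?_ hval
    intro h hh hne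
    have h1 : h0 ≤ h := Finset.min'_le _ _ hh
    have h2 : ¬ 2 ∣ h := by
      intro h'
      have := h'.trans (TT_dvd h hh).1
      omega
    have h2' : ¬ 2 ∣ h0 := by
      intro h'
      have := h'.trans (TT_dvd h0 h0T).1
      omega
    exact cnt_of hT (by omega) (TT_dvd h hh).1 hm

/-- A label of `D ∪ U` prime to `15`. -/
theorem exists_coprime15 (hk : 17 ≤ k) (hD : D ⊆ Finset.Icc 1 (2 * k))
    (hU : U ⊆ Finset.Icc 1 (2 * k)) (hDU : Disjoint D U) (hcard : D.card = U.card)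
    (hm : k ≤ 2 * D.card + 2) (h3 : 3 ∣ 4 * k + 1) (h5 : 5 ∣ 4 * k + 1)
    (hx : k ≠ 26 ∨ 26 ≤ 2 * D.card ∨ ∃ x ∈ D ∪ U, ¬ 3 ∣ x ∧ ¬ 5 ∣ x) :
    ∃ x ∈ D ∪ U, ¬ 3 ∣ x ∧ ¬ 5 ∣ x := by
  classical
  by_contra hcon
  push Not at hcon
  have h15 : 15 ∣ 4 * k + 1 := by
    have : Nat.Coprime 3 5 := by norm_num
    exact this.mul_dvd_of_dvd_of_dvd h3 h5
  have c3 := card_mult k 3 h3
  have c5 := card_mult k 5 h5
  have c15 := card_mult k 15 h15
  obtain ⟨r, hr⟩ := h15
  have hsub : D ∪ U ⊆ (Finset.Icc 1 (2 * k)).filter (fun j => 3 ∣ j) ∪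
      (Finset.Icc 1 (2 * k)).filter (fun j => 5 ∣ j) := by
    intro x hx'
    have hI : x ∈ Finset.Icc 1 (2 * k) := by
      rcases Finset.mem_union.1 hx' with h | h
      · exact hD h
      · exact hU h
    rw [Finset.mem_union, Finset.mem_filter, Finset.mem_filter]
    by_cases h : 3 ∣ x
    · exact Or.inl ⟨hI, h⟩
    · exact Or.inr ⟨hI, hcon x hx' h⟩
  have h1 := Finset.card_le_card hsub
  rw [Finset.card_union_of_disjoint hDU] at h1
  have h2 := Finset.card_union_add_card_inter ((Finset.Icc 1 (2 * k)).filter (fun j => 3 ∣ j))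
    ((Finset.Icc 1 (2 * k)).filter (fun j => 5 ∣ j))
  have h4 : (Finset.Icc 1 (2 * k)).filter (fun j => 3 ∣ j) ∩
      (Finset.Icc 1 (2 * k)).filter (fun j => 5 ∣ j) =
      (Finset.Icc 1 (2 * k)).filter (fun j => 15 ∣ j) := by
    ext x
    rw [Finset.mem_inter, Finset.mem_filter, Finset.mem_filter, Finset.mem_filter]
    constructor
    · rintro ⟨⟨a1, a2⟩, -, a3⟩
      have : Nat.Coprime 3 5 := by norm_num
      exact ⟨a1, this.mul_dvd_of_dvd_of_dvd a2 a3⟩
    · rintro ⟨a1, a2⟩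
      exact ⟨⟨a1, (by norm_num : 3 ∣ 15).trans a2⟩, a1, (by norm_num : 5 ∣ 15).trans a2⟩
  rw [h4, c3, c5, c15, hr] at h2
  have e3 : 15 * r / 3 = 5 * r := by omega
  have e5 : 15 * r / 5 = 3 * r := by omega
  have e15 : 15 * r / 15 = r := by omega
  rw [e3, e5, e15] at h2
  rcases hx with hx | hx | ⟨x, hx, hx3, hx5⟩
  · omega
  · omega
  · exact hx5 (hcon x hx hx3)

/-- THE MATCHING OF A SIDE WITHOUT SINGLES. -/
theorem side_even (hk : 17 ≤ k) (hD : D ⊆ Finset.Icc 1 (2 * k)) (hU : U ⊆ Finset.Icc 1 (2 * k))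
    (hDU : Disjoint D U) (hcard : D.card = U.card) (hm : k ≤ 2 * D.card + 2)
    (h3 : ¬ 3 ∣ 4 * k + 1 ∨ ((D ∪ U).filter (fun j => 3 ∣ j)).card ≤ D.card ∨
      (((∃ b ∈ D, ¬ 3 ∣ b) ∧ ∃ c ∈ U, ¬ 3 ∣ c) ∧
        (k ≠ 26 ∨ 26 ≤ 2 * D.card ∨ ∃ x ∈ D ∪ U, ¬ 3 ∣ x ∧ ¬ 5 ∣ x))) :
    ∃ σ : ℕ → ℕ, Set.BijOn σ D U ∧ GoodSide k ∅ D σ := by
  classical
  by_cases hn3 : 3 ∣ 4 * k + 1
  swap
  · -- `3` does not divide `n`
    obtain ⟨σ, hσ, -, -⟩ := exists_bij_ext D U hcard (fun _ => True) ∅ (Finset.empty_subset _)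
      (fun d => d) (fun d hd => absurd hd (Finset.notMem_empty _)) (by simp) (by simp)
    refine ⟨σ, hσ, side_even_aux hk hD hU hDU hσ hm 0 (TT_zero hk (Or.inl hn3)) ?_ ?_⟩
    · intro h hh h'
      exact hn3 (h'.trans (TT_dvd h hh).1)
    · intro d hd
      refine val_TT hD hU hDU hσ hd (Or.inl ?_)
      intro h
      have := Finset.mem_Icc.1 (hD hd)
      have := Nat.eq_zero_of_zero_dvd h
      omega
  rcases h3 with h3 | h3 | ⟨h3, hx⟩
  · exact absurd hn3 h3
  · -- few multiples of `3`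
    obtain ⟨σ, hσ, -, hp⟩ := exists_bij_ext D U hcard (fun j => ¬ 3 ∣ j) ∅ (Finset.empty_subset _)
      (fun d => d) (fun d hd => absurd hd (Finset.notMem_empty _)) (by simp) (by
        rw [Finset.sdiff_empty, Finset.image_empty, Finset.sdiff_empty,
          ← Finset.card_union_of_disjoint]
        · refine (Finset.card_le_card ?_).trans h3
          intro x hx
          rcases Finset.mem_union.1 hx with hx | hx
          · have h2 := Finset.mem_filter.1 hx
            exact Finset.mem_filter.2 ⟨Finset.mem_union_left _ h2.1, not_not.1 h2.2⟩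
          · have h2 := Finset.mem_filter.1 hx
            exact Finset.mem_filter.2 ⟨Finset.mem_union_right _ h2.1, not_not.1 h2.2⟩
        · rw [Finset.disjoint_left]
          intro x hx hx'
          exact Finset.disjoint_left.1 hDU (Finset.mem_filter.1 hx).1 (Finset.mem_filter.1 hx').1)
    refine ⟨σ, hσ, side_even_aux hk hD hU hDU hσ hm 3 (TT_three hk hn3) ?_ ?_⟩
    · intro h hh
      exact (mem_TT.1 hh).2.2
    · intro d hd
      exact val_TT hD hU hDU hσ hd (hp d hd (Finset.notMem_empty _))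
  · -- a host of `3`
    have hT3 : ∀ q, q = 5 ∨ q = 0 → 3 ∈ TT (4 * k + 1) q := by
      intro q hq
      refine mem_TT.2 ⟨⟨by omega, by omega⟩, hn3, ?_⟩
      rcases hq with rfl | rfl <;> decide
    have hseven : ∀ q, (q = 5 ∨ (q = 0 ∧ ¬ 5 ∣ 4 * k + 1)) → ∀ h ∈ TT (4 * k + 1) q, h ≠ 3 →
        7 ≤ h := by
      intro q hq h hh hne
      obtain ⟨⟨a1, -⟩, a3, a4⟩ := mem_TT.1 hh
      have h2 : ¬ 2 ∣ h := by
        intro h'
        have := h'.trans a3
        omega
      have h5 : h ≠ 5 := by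
        rintro rfl
        rcases hq with rfl | ⟨-, hq⟩
        · exact a4 dvd_rfl
        · exact hq a3
      omega
    by_cases hn5 : 5 ∣ 4 * k + 1
    · obtain ⟨b, hb, c, hc, hb3, hc3, hbc⟩ : ∃ b ∈ D, ∃ c ∈ U, ¬ 3 ∣ b ∧ ¬ 3 ∣ c ∧
          ¬ (5 ∣ b ∧ 5 ∣ c) := by
        obtain ⟨⟨b, hb, hb3⟩, c, hc, hc3⟩ := h3
        obtain ⟨x, hx1, hx3, hx5⟩ := exists_coprime15 hk hD hU hDU hcard hm hn3 hn5 hx
        rcases Finset.mem_union.1 hx1 with h | h
        · exact ⟨x, h, c, hc, hx3, hc3, fun h' => hx5 h'.1⟩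
        · exact ⟨b, hb, x, h, hb3, hx3, fun h' => hx5 h'.2⟩
      obtain ⟨σ, hσ, hσ0, hp⟩ := exists_bij_ext D U hcard (fun j => ¬ 5 ∣ j) {b}
        (Finset.singleton_subset_iff.2 hb) (fun _ => c) (fun _ _ => hc)
        (by rw [Finset.coe_singleton]; exact Set.injOn_singleton _ _) (by
          have h1 := mult_bound hn5 le_rfl hD hU hDU (D \ {b}) (U \ Finset.image (fun _ => c) {b})
            Finset.sdiff_subset Finset.sdiff_subset D.card hm hk
          have h2 : (D \ {b}).card = D.card - 1 := by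
            rw [Finset.card_sdiff_of_subset (Finset.singleton_subset_iff.2 hb),
              Finset.card_singleton]
          rw [h2]
          exact h1)
      have hσb : σ b = c := hσ0 b (Finset.mem_singleton_self b)
      refine ⟨σ, hσ, ?_⟩
      refine side_T_pair (TT (4 * k + 1) 5) TT_dvd TT_clo hD hU hDU hσ 3 (hT3 5 (Or.inl rfl)) b
        hb hb3 (by rw [hσb]; exact hc3) ?_ ?_
      · intro h hh hne
        exact cnt_of (TT_five hk hn3 hn5) (hseven 5 (Or.inl rfl) h hh hne) (TT_dvd h hh).1 hm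
      · intro d hd
        refine val_TT hD hU hDU hσ hd ?_
        by_cases hdb : d = b
        · rw [hdb, hσb]
          by_contra hcon
          rw [not_or, not_not, not_not] at hcon
          exact hbc hcon
        · exact hp d hd (by rwa [Finset.mem_singleton])
    · obtain ⟨⟨b, hb, hb3⟩, c, hc, hc3⟩ := h3
      obtain ⟨σ, hσ, hσ0, -⟩ := exists_bij_ext D U hcard (fun _ => True) {b}
        (Finset.singleton_subset_iff.2 hb) (fun _ => c) (fun _ _ => hc)
        (by rw [Finset.coe_singleton]; exact Set.injOn_singleton _ _) (by simp)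
      have hσb : σ b = c := hσ0 b (Finset.mem_singleton_self b)
      refine ⟨σ, hσ, ?_⟩
      refine side_T_pair (TT (4 * k + 1) 0) TT_dvd TT_clo hD hU hDU hσ 3 (hT3 0 (Or.inr rfl)) b
        hb hb3 (by rw [hσb]; exact hc3) ?_ ?_
      · intro h hh hne
        exact cnt_of (TT_zero hk (Or.inr hn5)) (hseven 0 (Or.inr ⟨rfl, hn5⟩) h hh hne)
          (TT_dvd h hh).1 hm
      · intro d hd
        refine val_TT hD hU hDU hσ hd (Or.inl ?_)
        intro h
        have := Finset.mem_Icc.1 (hD hd)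
        have := Nat.eq_zero_of_zero_dvd h
        omega

/-- THE MATCHING OF A SIDE WITH ONE SINGLE of value `1` and at most one prescribed pair whose value
divides `3`. -/
theorem side_odd (hk : 17 ≤ k) (i : ℕ) (hi : i ∈ Finset.Icc 1 (2 * k))
    (hi1 : Nat.gcd (4 * k + 1) i = 1) (hiD : i ∉ D) (hiU : i ∉ U)
    (hD : D ⊆ Finset.Icc 1 (2 * k)) (hU : U ⊆ Finset.Icc 1 (2 * k))
    (hDU : Disjoint D U) (hcard : D.card = U.card) (hm : k ≤ 2 * D.card + 1)
    (D0 : Finset ℕ) (hD0 : D0 ⊆ D) (hD1 : D0.card ≤ 1) (τ : ℕ → ℕ) (hτ : ∀ d ∈ D0, τ d ∈ U)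
    (hv : ∀ d ∈ D0, Nat.gcd (Nat.gcd (4 * k + 1) d) (τ d) ∣ 3) :
    ∃ σ : ℕ → ℕ, Set.BijOn σ D U ∧ (∀ d ∈ D0, σ d = τ d) ∧ GoodSide k {i} D σ := by
  classical
  have hm' : k ≤ 2 * D.card + 2 := by omega
  have hDne : D.Nonempty := Finset.card_pos.1 (by omega)
  have hτi : Set.InjOn τ D0 := by
    intro x hx y hy _
    exact Finset.card_le_one.1 hD1 x hx y hy
  have hIcc : ({i} : Finset ℕ) ⊆ Finset.Icc 1 (2 * k) := Finset.singleton_subset_iff.2 hi
  have hID : Disjoint ({i} : Finset ℕ) D := Finset.disjoint_singleton_left.2 hiD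
  have hIU : Disjoint ({i} : Finset ℕ) U := Finset.disjoint_singleton_left.2 hiU
  by_cases hn : 3 ∣ 4 * k + 1 ∧ 5 ∣ 4 * k + 1
  · obtain ⟨hn3, hn5⟩ := hn
    obtain ⟨σ, hσ, hσ0, hp⟩ := exists_bij_ext D U hcard (fun j => ¬ 5 ∣ j) D0 hD0 τ hτ hτi (by
      have h1 := mult_bound hn5 le_rfl hD hU hDU (D \ D0) (U \ Finset.image τ D0)
        Finset.sdiff_subset Finset.sdiff_subset D.card hm' hk
      have h2 : (D \ D0).card = D.card - D0.card := Finset.card_sdiff_of_subset hD0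
      rw [h2]
      omega)
    refine ⟨σ, hσ, hσ0, ?_⟩
    refine side_T_single (TT (4 * k + 1) 5) TT_dvd TT_clo i hi hi1 hiD hiU hD hU hDU hσ hDne 3
      (mem_TT.2 ⟨⟨by omega, by omega⟩, hn3, by decide⟩) ?_ ?_
    · intro h hh hne
      obtain ⟨⟨a1, -⟩, a3, a4⟩ := mem_TT.1 hh
      have h2 : ¬ 2 ∣ h := by
        intro h'
        have := h'.trans a3
        omega
      have h5 : h ≠ 5 := by
        rintro rfl
        exact a4 dvd_rfl
      have := cnt_of (m := D.card) (TT_five hk hn3 hn5) (by omega : 7 ≤ h) a3 hm'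
      omega
    · intro d hd
      refine val_TT hD hU hDU hσ hd ?_
      by_cases hdb : d ∈ D0
      · by_contra hcon
        rw [not_or, not_not, not_not] at hcon
        have h1 := hv d hdb
        rw [hσ0 d hdb] at hcon
        have h2 : 5 ∣ Nat.gcd (Nat.gcd (4 * k + 1) d) (τ d) :=
          Nat.dvd_gcd (Nat.dvd_gcd hn5 hcon.1) hcon.2
        have h3 := h2.trans h1
        revert h3
        decide
      · exact hp d hd hdb
  · have hn' : ¬ 3 ∣ 4 * k + 1 ∨ ¬ 5 ∣ 4 * k + 1 := by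
      by_contra hcon
      rw [not_or, not_not, not_not] at hcon
      exact hn hcon
    obtain ⟨σ, hσ, hσ0, -⟩ := exists_bij_ext D U hcard (fun _ => True) D0 hD0 τ hτ hτi (by simp)
    have hval : ∀ d ∈ D, Nat.gcd (Nat.gcd (4 * k + 1) d) (σ d) = 1 ∨
        Nat.gcd (Nat.gcd (4 * k + 1) d) (σ d) ∈ TT (4 * k + 1) 0 := by
      intro d hd
      refine val_TT hD hU hDU hσ hd (Or.inl ?_)
      intro h
      have := Finset.mem_Icc.1 (hD hd)
      have := Nat.eq_zero_of_zero_dvd h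
      omega
    refine ⟨σ, hσ, hσ0, ?_⟩
    rcases (TT (4 * k + 1) 0).eq_empty_or_nonempty with hE | hE
    · refine side_T_empty hIcc hD hU hDU hID hIU hσ hDne ?_ ?_
      · intro d hd
        rcases hval d hd with h | h
        · exact h
        · rw [hE] at h
          exact absurd h (Finset.notMem_empty _)
      · intro j hj
        rw [Finset.mem_singleton.1 hj]
        exact hi1
    · set h0 := (TT (4 * k + 1) 0).min' hE with hh0
      have h0T : h0 ∈ TT (4 * k + 1) 0 := Finset.min'_mem _ hE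
      refine side_T_single (TT (4 * k + 1) 0) TT_dvd TT_clo i hi hi1 hiD hiU hD hU hDU hσ hDne h0
        h0T ?_ hval
      intro h hh hne
      have h1 : h0 ≤ h := Finset.min'_le _ _ hh
      have h2 : ¬ 2 ∣ h := by
        intro h'
        have := h'.trans (TT_dvd h hh).1
        omega
      have h3 : ¬ 2 ∣ h0 := by
        intro h'
        have := h'.trans (TT_dvd h0 h0T).1
        omega
      have h4 := (mem_TT.1 h0T).1.1
      have h5 : h ≠ 5 := by
        rintro rfl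
        have h03 : h0 = 3 := by omega
        rcases hn' with h' | h'
        · exact h' (by rw [← h03]; exact (TT_dvd h0 h0T).1)
        · exact h' (TT_dvd 5 hh).1
      have := cnt_of (m := D.card) (TT_zero hk hn') (by omega : 7 ≤ h) (TT_dvd h hh).1 hm'
      omega

end side

end Pool.Agent.P45
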