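import Pool.Agent.Lib.P45dba8.AsmAny
import Pool.Agent.Lib.P45dba8.CertWord
import Pool.Agent.Lib.P45dba8.PathEven
import Pool.Agent.Lib.P45dba8.SideRules

/-! # MP_45dba8: the composition for even `k`

From the path (certificate + averaging), the geometry and the colouring of the two sides to the
colouring of the graph; the remaining hypotheses are statements on sets of labels. The case where
neither side has more than `k / 2` multiples of `3` (or `3` does not divide `n`) is complete. -/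

set_option autoImplicit false

namespace Pool.Agent.P45

open Cert

theorem P4_ok : ∀ b ∈ P4, BlkOK b.1 b.2 := by
  decide

theorem isWord_dword (k : ℕ) (A : Finset ℕ) : IsWord k A (dword k A) := by
  intro l _ h2
  exact dword_eq_true h2

/-- One side of the labels can be coloured: `D` doubled, `U` unused. -/
def SideOK (k : ℕ) (D U : Finset ℕ) : Prop :=
  ∃ σ : ℕ → ℕ, Set.BijOn σ D U ∧ GoodSide k ∅ D σ

/-- A path with `k - 1` edges and ANY unused label `u₀` for the label `2 k`. -/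
theorem path_even_any (k r : ℕ) (hk : k = 2 * r) (hr : 1 ≤ r) (S T : Finset ℕ)
    (hU : S ∪ T = Finset.Icc 1 (2 * k)) (h2k : 2 * k ∈ T)
    (w : ℕ → Bool) (hw : IsWord k S w) (D : ℕ → ℕ) (h : APath w D (2 * k - 1) (2 * r - 1))
    (u₀ : ℕ) (hu1 : u₀ ∈ T) (hu2 : u₀ ≠ 2 * k)
    (hSS : SideOK k (labS k D r) (S \ labS k D r))
    (hTT : SideOK k (labT k D (r - 1)) (T \ (labT k D (r - 1) ∪ {2 * k, u₀}))) :
    ∃ A : Finset (ZMod (4 * k + 1)), A.card = 2 * k ∧ EG (LSet k S) A ∧ EG (LSet k T) A := by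
  classical
  obtain ⟨σ, hσ, hGS⟩ := hSS
  obtain ⟨τ, hτ, hGT⟩ := hTT
  have hSsub : S ⊆ Finset.Icc 1 (2 * k) := hU ▸ Finset.subset_union_left
  have hTsub : T ⊆ Finset.Icc 1 (2 * k) := hU ▸ Finset.subset_union_right
  have hDSS := labS_sub hw hr h le_rfl
  have hDTT : labT k D (r - 1) ⊆ T :=
    (labT_sub hw hU hr h le_rfl).trans (Finset.erase_subset _ _)
  obtain ⟨hXk, hadj, cS, cT, -, -, hXS, hXT⟩ := h.data (k := k) hr (by omega) le_rfl
  have eS : labS k D r ∪ (S \ labS k D r) = S := Finset.union_sdiff_of_subset hDSS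
  have eT : labT k D (r - 1) ∪ (T \ (labT k D (r - 1) ∪ {2 * k, u₀})) ∪ {2 * k, u₀} = T := by
    ext x
    simp only [Finset.mem_union, Finset.mem_sdiff, Finset.mem_insert, Finset.mem_singleton]
    constructor
    · rintro ((h | ⟨h, -⟩) | rfl | rfl)
      · exact hDTT h
      · exact h
      · exact h2k
      · exact hu1
    · intro h
      by_cases h1 : x ∈ labT k D (r - 1)
      · exact Or.inl (Or.inl h1)
      · by_cases h2 : x = 2 * k ∨ x = u₀
        · exact Or.inr h2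
        · exact Or.inl (Or.inr ⟨h, by tauto⟩)
  have huI := Finset.mem_Icc.1 (hTsub hu1)
  have key := asm_even_any k (by omega) (labS k D r) (S \ labS k D r) (labT k D (r - 1))
    (T \ (labT k D (r - 1) ∪ {2 * k, u₀})) u₀ (by rw [eS]; exact hSsub) (by
      intro x hx
      rcases Finset.mem_union.1 hx with h | h
      · exact hTsub (hDTT h)
      · exact hTsub (Finset.mem_sdiff.1 h).1) huI.1 (by omega) (ptsX k D (2 * r))
    (by rw [hXk, hk]) hadj (by rw [cS, hk]) (by rw [cT]; omega) (lend k D (2 * r - 1))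
    (lend k D (2 * r - 1)) _ _ hXS hXT σ τ hσ hτ hGS hGT
  rw [eS, eT] at key
  exact key

/-- The label conditions for a set `A` of labels and a path `D` with `2 r - 1` edges: an unused
label `u₀` which goes with the label `2 k`, and both sides can be coloured. -/
def PathOK (k r : ℕ) (A : Finset ℕ) (D : ℕ → ℕ) : Prop :=
  APath (dword k A) D (2 * k - 1) (2 * r - 1) ∧
  ∃ u₀, u₀ ∈ Finset.Icc 1 (2 * k) \ A ∧ u₀ ≠ 2 * k ∧
    SideOK k (labS k D r) (A \ labS k D r) ∧
    SideOK k (labT k D (r - 1))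
      ((Finset.Icc 1 (2 * k) \ A) \ (labT k D (r - 1) ∪ {2 * k, u₀}))

/-- The conclusion for one word. -/
def Layers (k : ℕ) (A : Finset ℕ) : Prop :=
  ∃ X : Finset (ZMod (4 * k + 1)), X.card = 2 * k ∧ EG (LSet k A) X ∧
    EG (LSet k (Finset.Icc 1 (2 * k) \ A)) X

/-- A good path gives the layers. -/
theorem layers_of_pathOK {k r : ℕ} (hk : k = 2 * r) (hr : 1 ≤ r) {A : Finset ℕ}
    (hA : A ⊆ Finset.Icc 1 (2 * k)) (h2k : 2 * k ∉ A) {D : ℕ → ℕ} (h : PathOK k r A D) :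
    Layers k A := by
  have hU : A ∪ (Finset.Icc 1 (2 * k) \ A) = Finset.Icc 1 (2 * k) :=
    Finset.union_sdiff_of_subset hA
  have h2k' : 2 * k ∈ Finset.Icc 1 (2 * k) \ A :=
    Finset.mem_sdiff.2 ⟨Finset.mem_Icc.2 ⟨by omega, le_refl _⟩, h2k⟩
  obtain ⟨hp, u₀, hu1, hu2, hSS, hTT⟩ := h
  exact path_even_any k r hk hr A _ hU h2k' (dword k A) (isWord_dword k A) D hp u₀ hu1 hu2 hSS hTT

/-- THE COMPOSITION: it is enough to find the layers for every set `A` of `k` labels without the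
label `2 k` whose word has a path with at least `k - 2` steps (so `k - 1` if `k` is even). -/
theorem layers_all {k : ℕ} (h3 : 3 ≤ k)
    (hlab : ∀ A : Finset ℕ, A ⊆ Finset.Icc 1 (2 * k) → A.card = k → 2 * k ∉ A →
      (∃ m, Reach P4 (dword k A) (2 * k - 1) m ∧ m % 2 = 1 ∧ k ≤ m + 2) → Layers k A)
    (S : Finset ℕ) (hS : S ⊆ Finset.Icc 1 (2 * k)) (hc : S.card = k) :
    ∃ (v v' : ZMod (4 * k + 1)) (X : Finset (ZMod (4 * k + 1))), v * v' = 1 ∧
      X.card = 2 * k ∧ EG (LSet k (LW k S v)) X ∧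
      EG (LSet k (LW k (Finset.Icc 1 (2 * k) \ S) v)) X := by
  obtain ⟨v, hv, S', hS1, hS2, hS3, h2k, hcard, m, hm1, hm2, hm3⟩ := exists_reach h3 S hS hc
  obtain ⟨v', hv'⟩ := hv.exists_right_inv
  obtain ⟨X, hX, h1, h2⟩ := hlab (LW k S' v) (LW_subset S' v) hcard h2k ⟨m, hm1, hm2, hm3⟩
  rw [← LW_compl S' hS2 v hv] at h2
  rcases hS1 with rfl | rfl
  · exact ⟨v, v', X, hv', hX, h1, h2⟩
  · have e : Finset.Icc 1 (2 * k) \ (Finset.Icc 1 (2 * k) \ S) = S :=
      Finset.sdiff_sdiff_eq_self hS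
    rw [e] at h2
    exact ⟨v, v', X, hv', hX, h2, h1⟩

/-- The frozen statement for one `k` from the layers for the words. -/
theorem frozen_of_words {k : ℕ} (h3 : 3 ≤ k)
    (hlab : ∀ A : Finset ℕ, A ⊆ Finset.Icc 1 (2 * k) → A.card = k → 2 * k ∉ A →
      (∃ m, Reach P4 (dword k A) (2 * k - 1) m ∧ m % 2 = 1 ∧ k ≤ m + 2) → Layers k A)
    (S : Finset ℕ) (hS : S ⊆ Finset.Icc 1 (2 * k)) (hc : S.card = k)
    (G : SimpleGraph (ZMod (4 * k + 1) × Fin 2))
    (hG : ∀ p q : ZMod (4 * k + 1) × Fin 2, G.Adj p q ↔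
      ((p.2 = 0 ∧ q.2 = 0 ∧ min (p.1 - q.1).val (q.1 - p.1).val ∈ S) ∨
       (p.2 = 1 ∧ q.2 = 1 ∧
          min (p.1 - q.1).val (q.1 - p.1).val ∈ Finset.Icc 1 (2 * k) \ S) ∨
       (p.1 = q.1 ∧ p.2 ≠ q.2))) :
    ∃ c : Sym2 (ZMod (4 * k + 1) × Fin 2) → Fin (2 * k + 1),
      ∀ e ∈ G.edgeSet, ∀ f ∈ G.edgeSet, e ≠ f →
        (∃ v, v ∈ e ∧ v ∈ f) → c e ≠ c f :=
  frozen_of_labels k S hS (layers_all h3 hlab S hS hc) G hG

/-- The path with exactly `m'` edges. -/
theorem exists_aPath {k m m' : ℕ} {A : Finset ℕ} (h : Reach P4 (dword k A) (2 * k - 1) m)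
    (hm : m' ≤ m) : ∃ D, APath (dword k A) D (2 * k - 1) m' := by
  obtain ⟨D, hD⟩ := h.inv P4_ok
  exact ⟨D, hD.aPath hm⟩

/-- The hypothesis of `side_even`. -/
def Cond3 (k : ℕ) (D U : Finset ℕ) : Prop :=
  ¬ 3 ∣ 4 * k + 1 ∨ ((D ∪ U).filter (fun j => 3 ∣ j)).card ≤ D.card ∨
    (((∃ b ∈ D, ¬ 3 ∣ b) ∧ ∃ c ∈ U, ¬ 3 ∣ c) ∧
      (k ≠ 26 ∨ 26 ≤ 2 * D.card ∨ ∃ x ∈ D ∪ U, ¬ 3 ∣ x ∧ ¬ 5 ∣ x))

/-- For a path with `k - 1` edges, the numerical facts on the labels. -/
theorem path_counts {k r : ℕ} (hk : k = 2 * r) (hr : 1 ≤ r) {A : Finset ℕ}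
    (hA : A ⊆ Finset.Icc 1 (2 * k)) (hc : A.card = k) (h2k : 2 * k ∉ A) {D : ℕ → ℕ}
    (h : APath (dword k A) D (2 * k - 1) (2 * r - 1)) :
    labS k D r ⊆ A ∧ (labS k D r).card = r ∧ (A \ labS k D r).card = r ∧
    labT k D (r - 1) ⊆ (Finset.Icc 1 (2 * k) \ A).erase (2 * k) ∧
    (labT k D (r - 1)).card = r - 1 ∧ (Finset.Icc 1 (2 * k) \ A).card = k ∧
    ∀ u₀, u₀ ∈ Finset.Icc 1 (2 * k) \ A → u₀ ≠ 2 * k → u₀ ∉ labT k D (r - 1) →
      ((Finset.Icc 1 (2 * k) \ A) \ (labT k D (r - 1) ∪ {2 * k, u₀})).card = r - 1 := by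
  classical
  have hU : A ∪ (Finset.Icc 1 (2 * k) \ A) = Finset.Icc 1 (2 * k) :=
    Finset.union_sdiff_of_subset hA
  have h1 := labS_sub (isWord_dword k A) hr h le_rfl
  have h2 := (h.labS_prop (k := k) le_rfl (r := r) (by omega)).2
  have h3 := labT_sub (isWord_dword k A) hU hr h le_rfl
  have h4 := (h.labT_prop (k := k) le_rfl (r := r - 1) (by omega)).2
  have hT : (Finset.Icc 1 (2 * k) \ A).card = k := by
    rw [Finset.card_sdiff_of_subset hA, Nat.card_Icc, hc]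
    omega
  refine ⟨h1, h2, by rw [Finset.card_sdiff_of_subset h1, hc, h2]; omega, h3, h4, hT, ?_⟩
  intro u₀ hu1 hu2 hu3
  have hsub : labT k D (r - 1) ∪ {2 * k, u₀} ⊆ Finset.Icc 1 (2 * k) \ A := by
    intro x hx
    rcases Finset.mem_union.1 hx with hx | hx
    · exact (Finset.mem_erase.1 (h3 hx)).2
    · rcases Finset.mem_insert.1 hx with rfl | hx
      · exact Finset.mem_sdiff.2 ⟨Finset.mem_Icc.2 ⟨by omega, le_refl _⟩, h2k⟩
      · rw [Finset.mem_singleton.1 hx]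
        exact hu1
  have hdis : Disjoint (labT k D (r - 1)) {2 * k, u₀} := by
    rw [Finset.disjoint_left]
    intro x hx hx'
    rcases Finset.mem_insert.1 hx' with rfl | hx'
    · exact (Finset.mem_erase.1 (h3 hx)).1 rfl
    · rw [Finset.mem_singleton.1 hx'] at hx
      exact hu3 hx
  rw [Finset.card_sdiff_of_subset hsub, hT, Finset.card_union_of_disjoint hdis, h4,
    Finset.card_pair hu2.symm]
  omega

/-- The label conditions in terms of the multiples of `3`. -/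
theorem pathOK_of_cond {k r : ℕ} (hk : k = 2 * r) (h17 : 17 ≤ k) {A : Finset ℕ}
    (hA : A ⊆ Finset.Icc 1 (2 * k)) (hc : A.card = k) (h2k : 2 * k ∉ A) {D : ℕ → ℕ}
    (h : APath (dword k A) D (2 * k - 1) (2 * r - 1)) (u₀ : ℕ)
    (hu1 : u₀ ∈ Finset.Icc 1 (2 * k) \ A) (hu2 : u₀ ≠ 2 * k) (hu3 : u₀ ∉ labT k D (r - 1))
    (hS : Cond3 k (labS k D r) (A \ labS k D r))
    (hT : Cond3 k (labT k D (r - 1))
      ((Finset.Icc 1 (2 * k) \ A) \ (labT k D (r - 1) ∪ {2 * k, u₀}))) :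
    PathOK k r A D := by
  classical
  have hr : 1 ≤ r := by omega
  obtain ⟨c1, c2, c3, c4, c5, c6, c7⟩ := path_counts hk hr hA hc h2k h
  have hTs : Finset.Icc 1 (2 * k) \ A ⊆ Finset.Icc 1 (2 * k) := Finset.sdiff_subset
  refine ⟨h, u₀, hu1, hu2, ?_, ?_⟩
  · exact side_even h17 (c1.trans hA) (Finset.sdiff_subset.trans hA) Finset.disjoint_sdiff
      (by rw [c2, c3]) (by rw [c2]; omega) hS
  · refine side_even h17 (c4.trans ((Finset.erase_subset _ _).trans hTs))
      (Finset.sdiff_subset.trans hTs) ?_ (by rw [c5, c7 u₀ hu1 hu2 hu3]) (by rw [c5]; omega) hT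
    rw [Finset.disjoint_left]
    intro x hx hx'
    exact (Finset.mem_sdiff.1 hx').2 (Finset.mem_union_left _ hx)

/-- THE CASE OF TWO SIDES WITH FEW MULTIPLES OF `3`: any path with `k - 1` steps is good. -/
theorem layers_even_few {k r : ℕ} (hk : k = 2 * r) (h17 : 17 ≤ k) {A : Finset ℕ}
    (hA : A ⊆ Finset.Icc 1 (2 * k)) (hc : A.card = k) (h2k : 2 * k ∉ A)
    (hm : ∃ m, Reach P4 (dword k A) (2 * k - 1) m ∧ k ≤ m + 1)
    (h3 : ¬ 3 ∣ 4 * k + 1 ∨ ((A.filter (fun j => 3 ∣ j)).card ≤ r ∧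
      ((Finset.Icc 1 (2 * k) \ A).filter (fun j => 3 ∣ j)).card ≤ r)) : Layers k A := by
  classical
  have hr : 1 ≤ r := by omega
  obtain ⟨m, hm1, hm2⟩ := hm
  obtain ⟨D, hD⟩ := exists_aPath (m' := 2 * r - 1) hm1 (by omega)
  obtain ⟨c1, c2, c3, c4, c5, c6, c7⟩ := path_counts hk hr hA hc h2k hD
  set T := Finset.Icc 1 (2 * k) \ A with hTdef
  set L := labT k D (r - 1) with hL
  have h2kT : 2 * k ∈ T := Finset.mem_sdiff.2 ⟨Finset.mem_Icc.2 ⟨by omega, le_refl _⟩, h2k⟩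
  have hLT : L ⊆ T := c4.trans (Finset.erase_subset _ _)
  have h2kL : 2 * k ∉ L := fun h => (Finset.mem_erase.1 (c4 h)).1 rfl
  -- an unused label, a multiple of 3 if there are many of them
  have hu : ∃ u₀ ∈ T, u₀ ≠ 2 * k ∧ u₀ ∉ L ∧
      (3 ∣ 4 * k + 1 → ((T \ {2 * k, u₀}).filter (fun j => 3 ∣ j)).card ≤ r - 1) := by
    by_cases h : 3 ∣ 4 * k + 1 ∧ r ≤ (T.filter (fun j => 3 ∣ j)).card
    · obtain ⟨hn, hq⟩ := h
      have hle : (T.filter (fun j => 3 ∣ j)).card ≤ r := by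
        rcases h3 with h3 | h3
        · exact absurd hn h3
        · exact h3.2
      have : ∃ u₀ ∈ T.filter (fun j => 3 ∣ j), u₀ ∉ L := by
        by_contra hcon
        push Not at hcon
        have h4 : T.filter (fun j => 3 ∣ j) ⊆ L := hcon
        have h5 := Finset.card_le_card h4
        rw [c5] at h5
        omega
      obtain ⟨u₀, hu1, hu2⟩ := this
      obtain ⟨hu3, hu4⟩ := Finset.mem_filter.1 hu1
      refine ⟨u₀, hu3, ?_, hu2, fun _ => ?_⟩
      · rintro rfl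
        omega
      · have h6 : (T \ {2 * k, u₀}).filter (fun j => 3 ∣ j) ⊆
            (T.filter (fun j => 3 ∣ j)).erase u₀ := by
          intro x hx
          obtain ⟨hx1, hx2⟩ := Finset.mem_filter.1 hx
          obtain ⟨hx3, hx4⟩ := Finset.mem_sdiff.1 hx1
          refine Finset.mem_erase.2 ⟨?_, Finset.mem_filter.2 ⟨hx3, hx2⟩⟩
          rintro rfl
          exact hx4 (Finset.mem_insert_of_mem (Finset.mem_singleton_self _))
        have h7 := Finset.card_le_card h6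
        rw [Finset.card_erase_of_mem hu1] at h7
        omega
    · have : ∃ u₀ ∈ T, u₀ ∉ insert (2 * k) L := by
        by_contra hcon
        push Not at hcon
        have h4 : T ⊆ insert (2 * k) L := hcon
        have h5 := Finset.card_le_card h4
        rw [Finset.card_insert_of_notMem h2kL, c5, c6] at h5
        omega
      obtain ⟨u₀, hu1, hu2⟩ := this
      rw [Finset.mem_insert, not_or] at hu2
      refine ⟨u₀, hu1, hu2.1, hu2.2, fun hn => ?_⟩
      have h4 : (T.filter (fun j => 3 ∣ j)).card < r := by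
        by_contra h5
        exact h ⟨hn, by omega⟩
      have h6 : (T \ {2 * k, u₀}).filter (fun j => 3 ∣ j) ⊆ T.filter (fun j => 3 ∣ j) :=
        Finset.filter_subset_filter _ Finset.sdiff_subset
      have h7 := Finset.card_le_card h6
      omega
  obtain ⟨u₀, hu1, hu2, hu3, hu4⟩ := hu
  refine layers_of_pathOK hk hr hA h2k (pathOK_of_cond hk h17 hA hc h2k hD u₀ hu1 hu2 hu3 ?_ ?_)
  · rcases h3 with h3 | h3
    · exact Or.inl h3
    · right; left
      rw [Finset.union_sdiff_of_subset c1, c2]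
      exact h3.1
  · by_cases hn : 3 ∣ 4 * k + 1
    · right; left
      rw [c5]
      have e : L ∪ (T \ (L ∪ {2 * k, u₀})) = T \ {2 * k, u₀} := by
        ext x
        simp only [Finset.mem_union, Finset.mem_sdiff, Finset.mem_insert, Finset.mem_singleton]
        constructor
        · rintro (h | ⟨h1, h2⟩)
          · refine ⟨hLT h, ?_⟩
            rintro (rfl | rfl)
            · exact h2kL h
            · exact hu3 h
          · exact ⟨h1, fun h => h2 (Or.inr h)⟩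
        · rintro ⟨h1, h2⟩
          by_cases h : x ∈ L
          · exact Or.inl h
          · right
            refine ⟨h1, ?_⟩
            rintro (h3 | h3)
            · exact h h3
            · exact h2 h3
      rw [← hL, ← hTdef, e]
      exact hu4 hn
    · exact Or.inl hn

end Pool.Agent.P45
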