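import Pool.Agent.Lib.P45dba8.SmallEven

/-! # MP_45dba8: odd `k` with `17 ≤ k < 29` from the words with at least `k` boundaries

The orders `n = 4 k + 1` are `69, 77, 85, 93` (and the primes `101, 109`). -/

set_option autoImplicit false

namespace Pool.Agent.P45

/-- A product of two primes: only the order itself has Moebius value `1`. -/
theorem moebius_two_primes {p q m : ℕ} (hp : p.Prime) (hq : q.Prime) (hpq : p ≠ q)
    (hm : m ∣ p * q) (h1 : m ≠ 1) (h2 : ArithmeticFunction.moebius m = 1) :
    (p - 1) * (q - 1) ≤ Nat.totient m := by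
  obtain ⟨a, b, ha, hb, rfl⟩ := (Nat.dvd_mul).1 hm
  rcases (Nat.dvd_prime hp).1 ha with rfl | rfl
  · rcases (Nat.dvd_prime hq).1 hb with rfl | rfl
    · exact absurd rfl h1
    · rw [one_mul, ArithmeticFunction.moebius_apply_prime hq] at h2
      norm_num at h2
  · rcases (Nat.dvd_prime hq).1 hb with rfl | rfl
    · rw [mul_one, ArithmeticFunction.moebius_apply_prime hp] at h2
      norm_num at h2
    · rw [Nat.totient_mul ((Nat.coprime_primes hp hq).2 hpq), Nat.totient_prime hp,
        Nat.totient_prime hq]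

/-- A prime: no divisor but `1` has Moebius value `1`. -/
theorem moebius_prime_no {p m : ℕ} (hp : p.Prime) (hm : m ∣ p) (h1 : m ≠ 1)
    (h2 : ArithmeticFunction.moebius m = 1) : False := by
  rcases (Nat.dvd_prime hp).1 hm with rfl | rfl
  · exact h1 rfl
  · rw [ArithmeticFunction.moebius_apply_prime hp] at h2
    norm_num at h2

/-- `17 ≤ k < 29` odd: a unit for which the word has at least `k` boundaries. -/
theorem exists_unit_small_odd (k : ℕ) (h17 : 17 ≤ k) (h29 : k < 29) (ho : k % 2 = 1)
    (S : Finset ℕ) (hS : S ⊆ Finset.Icc 1 (2 * k)) (hc : S.card = k) :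
    ∃ v : ZMod (4 * k + 1), IsUnit v ∧
      k ≤ (Bd (LW k S v) (LW k (Finset.Icc 1 (2 * k) \ S) v) (2 * k)).card := by
  have key : ∀ B : ℕ, 4 * k < 3 * B →
      (∀ m, m ∣ 4 * k + 1 → m ≠ 1 → ArithmeticFunction.moebius m = 1 → B ≤ Nat.totient m) →
      ∃ v : ZMod (4 * k + 1), IsUnit v ∧
      k ≤ (Bd (LW k S v) (LW k (Finset.Icc 1 (2 * k) \ S) v) (2 * k)).card :=
    fun B h1 h2 => bd_of_moebius k B (by omega) h1 h2 S hS hc
  have hcases : k = 17 ∨ k = 19 ∨ k = 21 ∨ k = 23 ∨ k = 25 ∨ k = 27 := by omega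
  rcases hcases with rfl | rfl | rfl | rfl | rfl | rfl
  · exact key 44 (by norm_num) (fun m hm h1 h2 =>
      moebius_two_primes (p := 3) (q := 23) (by norm_num) (by norm_num) (by norm_num)
        (by simpa using hm) h1 h2)
  · exact key 60 (by norm_num) (fun m hm h1 h2 =>
      moebius_two_primes (p := 7) (q := 11) (by norm_num) (by norm_num) (by norm_num)
        (by simpa using hm) h1 h2)
  · exact key 64 (by norm_num) (fun m hm h1 h2 =>
      moebius_two_primes (p := 5) (q := 17) (by norm_num) (by norm_num) (by norm_num)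
        (by simpa using hm) h1 h2)
  · exact key 60 (by norm_num) (fun m hm h1 h2 =>
      moebius_two_primes (p := 3) (q := 31) (by norm_num) (by norm_num) (by norm_num)
        (by simpa using hm) h1 h2)
  · exact key 101 (by norm_num) (fun m hm h1 h2 =>
      (moebius_prime_no (p := 101) (by norm_num) (by simpa using hm) h1 h2).elim)
  · exact key 109 (by norm_num) (fun m hm h1 h2 =>
      (moebius_prime_no (p := 109) (by norm_num) (by simpa using hm) h1 h2).elim)

/-- `17 ≤ k < 29` odd: the layers, from the words with at least `k` boundaries. -/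
theorem lay_small_odd (k : ℕ) (h17 : 17 ≤ k) (h29 : k < 29) (ho : k % 2 = 1)
    (hw : ∀ S T : Finset ℕ, Disjoint S T → S ∪ T = Finset.Icc 1 (2 * k) → S.card = k →
      T.card = k → 2 * k ∈ T → k ≤ (Bd S T (2 * k)).card →
      ∃ A : Finset (ZMod (4 * k + 1)), A.card = 2 * k ∧ EG (LSet k S) A ∧ EG (LSet k T) A) :
    LayOK k :=
  lay_of_words k k (by omega) (exists_unit_small_odd k h17 h29 ho) hw

end Pool.Agent.P45
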