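import Pool.Agent.Lib.P45dba8.BridgeOdd
import Pool.Agent.Lib.P45dba8.Cert14
import Pool.Agent.Lib.P45dba8.CertWordOdd
import Pool.Agent.Lib.P45dba8.EvenComp
import Pool.Agent.Lib.P45dba8.SmallOdd

/-! # MP_45dba8: the composition for odd `k`

From the path (certificate with fourteen blocks + averaging), the bridge and the colouring of the
two sides with one single label each to the layers. -/

set_option autoImplicit false

namespace Pool.Agent.P45

open Cert

/-- The certificate with fourteen blocks. -/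
theorem certFor14 : CertFor Cert14.P14 558 108 196 27 20 12 5 2 := fun w D hD hS =>
  Cert14.cert14 w D hD hS

/-- A path with `k` edges, `k = 2 r + 1`, with a bridge at `t`, and enough labels outside `3 ℤ`. -/
def BridgeData (k r : ℕ) (A : Finset ℕ) : Prop :=
  ∃ (D : ℕ → ℕ) (t : ℕ), APath (dword k A) D (2 * k - 1) k ∧
    APath (dword k A) (skip D t) (2 * k - 1) (k - 2) ∧ t + 2 ≤ k ∧
    (D (t + 1) = D t + 1 ∨ D t = D (t + 1) + 1) ∧
    (3 ∣ 4 * k + 1 → (∃ l ∈ labS k D (r + 1), ¬ 3 ∣ l) ∧ (∃ l ∈ labT k D r, ¬ 3 ∣ l) ∧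
      ∀ H : Finset ℕ, (H = A ∨ H = Finset.Icc 1 (2 * k) \ A) →
        r + 1 ≤ (H.filter (fun j => 3 ∣ j)).card →
        ∃ l ∈ H, l ≠ 2 * k ∧ ¬ 3 ∣ l ∧ l ∉ labS k D (r + 1) ∧ l ∉ labT k D r)

/-- The colouring of one side with a single label. -/
def SingleRule (k : ℕ) : Prop :=
  ∀ (i : ℕ) (D U : Finset ℕ), i ∈ Finset.Icc 1 (2 * k) → D ⊆ Finset.Icc 1 (2 * k) →
    U ⊆ Finset.Icc 1 (2 * k) → i ∉ D → i ∉ U → Disjoint D U → D.card = U.card →
    k ≤ 2 * D.card + 3 →
    (¬ 3 ∣ 4 * k + 1 ∨ ¬ 3 ∣ i ∨ ((∃ b ∈ D, ¬ 3 ∣ b) ∧ ∃ c ∈ U, ¬ 3 ∣ c)) →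
    SideOK1 k i D U

/-- THE BRIDGE CASE: the layers from the path with a bridge. -/
theorem layers_of_bridgeData {k r : ℕ} (hk : k = 2 * r + 1) (hr : 2 ≤ r) (hrule : SingleRule k)
    {A : Finset ℕ} (hA : A ⊆ Finset.Icc 1 (2 * k)) (hc : A.card = k) (h2k : 2 * k ∉ A)
    (h : BridgeData k r A) : Layers k A := by
  classical
  obtain ⟨D, t, hP, hQ, ht, hD, h3⟩ := h
  set T := Finset.Icc 1 (2 * k) \ A with hTdef
  have hU : A ∪ T = Finset.Icc 1 (2 * k) := Finset.union_sdiff_of_subset hA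
  have hTs : T ⊆ Finset.Icc 1 (2 * k) := Finset.sdiff_subset
  have h2kT : 2 * k ∈ T := Finset.mem_sdiff.2 ⟨Finset.mem_Icc.2 ⟨by omega, le_refl _⟩, h2k⟩
  have hTc : T.card = k := by
    rw [hTdef, Finset.card_sdiff_of_subset hA, Nat.card_Icc, hc]
    omega
  obtain ⟨p1, p2, p3, p4⟩ := path_labels hk hU (isWord_dword k A) hP
  have p3' : labT k D r ⊆ T := p3.trans (Finset.erase_subset _ _)
  have h2kL : 2 * k ∉ labT k D r := fun h => (Finset.mem_erase.1 (p3 h)).1 rfl
  -- the two single steps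
  obtain ⟨aS, aT, haS, haT, haS', haT'⟩ : ∃ aS aT : ℕ, aS % 2 = 0 ∧ aT % 2 = 1 ∧
      (aS = t ∨ aS = t + 1) ∧ (aT = t ∨ aT = t + 1) := by
    rcases Nat.mod_two_eq_zero_or_one t with h0 | h0
    · exact ⟨t, t + 1, h0, by omega, Or.inl rfl, Or.inr rfl⟩
    · exact ⟨t + 1, t, by omega, h0, Or.inr rfl, Or.inl rfl⟩
  have hsm : 2 * k - 1 - D aS ∈ labS k D (r + 1) := by
    refine Finset.mem_image.2 ⟨aS / 2, Finset.mem_range.2 (by omega), ?_⟩
    show 2 * k - 1 - D (2 * (aS / 2)) = _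
    rw [show 2 * (aS / 2) = aS by omega]
  have htm : 2 * k - 1 - D aT ∈ labT k D r := by
    refine Finset.mem_image.2 ⟨aT / 2, Finset.mem_range.2 (by omega), ?_⟩
    show 2 * k - 1 - D (2 * (aT / 2) + 1) = _
    rw [show 2 * (aT / 2) + 1 = aT by omega]
  set s := 2 * k - 1 - D aS with hs
  set t' := 2 * k - 1 - D aT with ht'
  -- the unused label for `2 k`
  obtain ⟨u₀, hu1, hu2, hu3, hu4⟩ : ∃ u₀ ∈ T, u₀ ≠ 2 * k ∧ u₀ ∉ labT k D r ∧
      (¬ 3 ∣ 4 * k + 1 ∨ ¬ 3 ∣ t' ∨ ((∃ b ∈ (labT k D r).erase t', ¬ 3 ∣ b) ∧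
        ∃ c ∈ T \ (labT k D r ∪ {2 * k, u₀}), ¬ 3 ∣ c)) := by
    by_cases hcase : 3 ∣ 4 * k + 1 ∧ 3 ∣ t'
    · obtain ⟨hn, ht3⟩ := hcase
      obtain ⟨-, ⟨b, hb1, hb2⟩, hH⟩ := h3 hn
      obtain ⟨c, hc1, hc2, hc3, hc4⟩ : ∃ c ∈ T, c ≠ 2 * k ∧ ¬ 3 ∣ c ∧ c ∉ labT k D r := by
        by_cases hq : r + 1 ≤ (T.filter (fun j => 3 ∣ j)).card
        · obtain ⟨l, h1, h2, h4, -, h6⟩ := hH T (Or.inr rfl) hq
          exact ⟨l, h1, h2, h4, h6⟩
        · by_contra hcon
          push Not at hcon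
          have hsub : insert t' (T \ insert (2 * k) (labT k D r)) ⊆
              T.filter (fun j => 3 ∣ j) := by
            intro x hx
            rcases Finset.mem_insert.1 hx with rfl | hx
            · exact Finset.mem_filter.2 ⟨p3' htm, ht3⟩
            · obtain ⟨h1, h2⟩ := Finset.mem_sdiff.1 hx
              rw [Finset.mem_insert, not_or] at h2
              refine Finset.mem_filter.2 ⟨h1, ?_⟩
              by_contra h4
              exact h2.2 (hcon x h1 h2.1 h4)
          have hle := Finset.card_le_card hsub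
          rw [Finset.card_insert_of_notMem (fun h => (Finset.mem_sdiff.1 h).2
            (Finset.mem_insert_of_mem htm)), Finset.card_sdiff_of_subset (by
              intro x hx
              rcases Finset.mem_insert.1 hx with rfl | hx
              · exact h2kT
              · exact p3' hx), Finset.card_insert_of_notMem h2kL, p4, hTc] at hle
          omega
      obtain ⟨u₀, hu1, hu2⟩ : ∃ u₀ ∈ T, u₀ ∉ insert c (insert (2 * k) (labT k D r)) := by
        by_contra hcon
        push Not at hcon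
        have h4 : T ⊆ insert c (insert (2 * k) (labT k D r)) := hcon
        have h5 := Finset.card_le_card h4
        have h6 := Finset.card_insert_le c (insert (2 * k) (labT k D r))
        rw [Finset.card_insert_of_notMem h2kL, p4] at h6
        omega
      rw [Finset.mem_insert, Finset.mem_insert, not_or, not_or] at hu2
      refine ⟨u₀, hu1, hu2.2.1, hu2.2.2, Or.inr (Or.inr ⟨⟨b, Finset.mem_erase.2 ⟨?_, hb1⟩, hb2⟩,
        c, Finset.mem_sdiff.2 ⟨hc1, ?_⟩, hc3⟩)⟩
      · rintro rfl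
        exact hb2 ht3
      · rw [Finset.mem_union, Finset.mem_insert, Finset.mem_singleton, not_or, not_or]
        exact ⟨hc4, hc2, fun h => hu2.1 h.symm⟩
    · obtain ⟨u₀, hu1, hu2⟩ : ∃ u₀ ∈ T, u₀ ∉ insert (2 * k) (labT k D r) := by
        by_contra hcon
        push Not at hcon
        have h4 : T ⊆ insert (2 * k) (labT k D r) := hcon
        have h5 := Finset.card_le_card h4
        rw [Finset.card_insert_of_notMem h2kL, p4] at h5
        omega
      rw [Finset.mem_insert, not_or] at hu2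
      refine ⟨u₀, hu1, hu2.1, hu2.2, ?_⟩
      by_cases h1 : 3 ∣ 4 * k + 1
      · exact Or.inr (Or.inl fun h2 => hcase ⟨h1, h2⟩)
      · exact Or.inl h1
  have hsub2 : labT k D r ∪ {2 * k, u₀} ⊆ T := by
    intro x hx
    rcases Finset.mem_union.1 hx with hx | hx
    · exact p3' hx
    · rcases Finset.mem_insert.1 hx with rfl | hx
      · exact h2kT
      · rw [Finset.mem_singleton.1 hx]
        exact hu1
  have hdis : Disjoint (labT k D r) {2 * k, u₀} := by
    rw [Finset.disjoint_left]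
    intro x hx hx'
    rcases Finset.mem_insert.1 hx' with rfl | hx'
    · exact h2kL hx
    · rw [Finset.mem_singleton.1 hx'] at hx
      exact hu3 hx
  have hcT : (T \ (labT k D r ∪ {2 * k, u₀})).card = r - 1 := by
    rw [Finset.card_sdiff_of_subset hsub2, hTc, Finset.card_union_of_disjoint hdis, p4,
      Finset.card_pair hu2.symm]
    omega
  have hcS : (A \ labS k D (r + 1)).card = r := by
    rw [Finset.card_sdiff_of_subset p1, hc, p2]
    omega
  refine layers_of_bridge hk A T hU h2kT (isWord_dword k A) hP hQ ht hD aS aT haS haT haS' haT'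
    u₀ hu1 hu2 hu3 ?_ ?_
  · rw [← hs]
    refine hrule s _ _ (hA (p1 hsm)) ((Finset.erase_subset _ _).trans (p1.trans hA))
      (Finset.sdiff_subset.trans hA) (Finset.notMem_erase _ _)
      (fun h => (Finset.mem_sdiff.1 h).2 hsm) ?_ ?_ ?_ ?_
    · rw [Finset.disjoint_left]
      intro x hx hx'
      exact (Finset.mem_sdiff.1 hx').2 (Finset.mem_of_mem_erase hx)
    · rw [Finset.card_erase_of_mem hsm, p2, hcS]
      omega
    · rw [Finset.card_erase_of_mem hsm, p2]
      omega
    · by_cases hn : 3 ∣ 4 * k + 1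
      · by_cases hs3 : 3 ∣ s
        · obtain ⟨⟨b, hb1, hb2⟩, -, hH⟩ := h3 hn
          refine Or.inr (Or.inr ⟨⟨b, Finset.mem_erase.2 ⟨?_, hb1⟩, hb2⟩, ?_⟩)
          · rintro rfl
            exact hb2 hs3
          · by_cases hq : r + 1 ≤ (A.filter (fun j => 3 ∣ j)).card
            · obtain ⟨l, h1, -, h4, h5, -⟩ := hH A (Or.inl rfl) hq
              exact ⟨l, Finset.mem_sdiff.2 ⟨h1, h5⟩, h4⟩
            · by_contra hcon
              push Not at hcon
              have hsub : insert s (A \ labS k D (r + 1)) ⊆ A.filter (fun j => 3 ∣ j) := by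
                intro x hx
                rcases Finset.mem_insert.1 hx with rfl | hx
                · exact Finset.mem_filter.2 ⟨p1 hsm, hs3⟩
                · exact Finset.mem_filter.2 ⟨(Finset.mem_sdiff.1 hx).1, hcon x hx⟩
              have hle := Finset.card_le_card hsub
              rw [Finset.card_insert_of_notMem (fun h => (Finset.mem_sdiff.1 h).2 hsm), hcS] at hle
              omega
        · exact Or.inr (Or.inl hs3)
      · exact Or.inl hn
  · rw [← ht']
    refine hrule t' _ _ (hTs (p3' htm)) ((Finset.erase_subset _ _).trans (p3'.trans hTs))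
      (Finset.sdiff_subset.trans hTs) (Finset.notMem_erase _ _)
      (fun h => (Finset.mem_sdiff.1 h).2 (Finset.mem_union_left _ htm)) ?_ ?_ ?_ hu4
    · rw [Finset.disjoint_left]
      intro x hx hx'
      exact (Finset.mem_sdiff.1 hx').2 (Finset.mem_union_left _ (Finset.mem_of_mem_erase hx))
    · rw [Finset.card_erase_of_mem htm, p4, hcT]
    · rw [Finset.card_erase_of_mem htm, p4]
      omega

/-- THE COMPOSITION for odd `k ≥ 29`: it is enough to find the layers for every set `A` of `k`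
labels without the label `2 k` whose word has a path with at least `k` steps. -/
theorem layers_all_odd {k : ℕ} (h29 : 29 ≤ k) (hodd : k % 2 = 1)
    (hlab : ∀ A : Finset ℕ, A ⊆ Finset.Icc 1 (2 * k) → A.card = k → 2 * k ∉ A →
      (∃ m, Reach Cert14.P14 (dword k A) (2 * k - 1) m ∧ m % 2 = 1 ∧ k ≤ m) → Layers k A)
    (S : Finset ℕ) (hS : S ⊆ Finset.Icc 1 (2 * k)) (hc : S.card = k) :
    ∃ (v v' : ZMod (4 * k + 1)) (X : Finset (ZMod (4 * k + 1))), v * v' = 1 ∧
      X.card = 2 * k ∧ EG (LSet k (LW k S v)) X ∧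
      EG (LSet k (LW k (Finset.Icc 1 (2 * k) \ S) v)) X := by
  obtain ⟨v, hv, S', hS1, hS2, hS3, h2k, hcard, m, hm1, hm2, hm3⟩ :=
    exists_reach_odd certFor14 h29 S hS hc
  obtain ⟨v', hv'⟩ := hv.exists_right_inv
  obtain ⟨X, hX, h1, h2⟩ := hlab (LW k S' v) (LW_subset S' v) hcard h2k ⟨m, hm1, hm2, hm3 hodd⟩
  rw [← LW_compl S' hS2 v hv] at h2
  rcases hS1 with rfl | rfl
  · exact ⟨v, v', X, hv', hX, h1, h2⟩
  · have e : Finset.Icc 1 (2 * k) \ (Finset.Icc 1 (2 * k) \ S) = S :=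
      Finset.sdiff_sdiff_eq_self hS
    rw [e] at h2
    exact ⟨v, v', X, hv', hX, h2, h1⟩

/-- The case of many boundaries: the plain zigzag. -/
def PlainRule (k : ℕ) : Prop :=
  ∀ S T : Finset ℕ, Disjoint S T → S ∪ T = Finset.Icc 1 (2 * k) → S.card = k →
    T.card = k → 2 * k ∈ T → k ≤ (Bd S T (2 * k)).card →
    ∃ A : Finset (ZMod (4 * k + 1)), A.card = 2 * k ∧ EG (LSet k S) A ∧ EG (LSet k T) A

/-- The case of few boundaries: a path with a bridge. -/
def BridgeRule (k r : ℕ) : Prop :=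
  ∀ A : Finset ℕ, A ⊆ Finset.Icc 1 (2 * k) → A.card = k → 2 * k ∉ A →
    (∃ m, Reach Cert14.P14 (dword k A) (2 * k - 1) m ∧ m % 2 = 1 ∧ k ≤ m) →
    (Bd A (Finset.Icc 1 (2 * k) \ A) (2 * k)).card < k → BridgeData k r A

/-- The layers for odd `k ≥ 29` from: the rule for a side with a single label, the case of at least
`k` boundaries, and the bridge data in the other case. -/
theorem lay_odd_of {k r : ℕ} (hk : k = 2 * r + 1) (h29 : 29 ≤ k) (hrule : SingleRule k)
    (hplain : PlainRule k) (hbr : BridgeRule k r) : LayOK k := by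
  intro S hS hc
  refine layers_all_odd h29 (by omega) (fun A hA hcA h2k hm => ?_) S hS hc
  rcases Nat.lt_or_ge (Bd A (Finset.Icc 1 (2 * k) \ A) (2 * k)).card k with hb | hb
  · exact layers_of_bridgeData hk (by omega) hrule hA hcA h2k (hbr A hA hcA h2k hm hb)
  · refine hplain A _ Finset.disjoint_sdiff (Finset.union_sdiff_of_subset hA) hcA ?_ ?_ hb
    · rw [Finset.card_sdiff_of_subset hA, Nat.card_Icc, hcA]
      omega
    · exact Finset.mem_sdiff.2 ⟨Finset.mem_Icc.2 ⟨by omega, le_refl _⟩, h2k⟩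

/-- ALL ODD `k` with `4 k + 1` composite, from the rules and the two small cases. -/
theorem lay_odd_all_of (h5 : LayOK 5) (h11 : LayOK 11)
    (hrule : ∀ k, 17 ≤ k → k % 2 = 1 → SingleRule k)
    (hplain : ∀ k, 17 ≤ k → k % 2 = 1 → PlainRule k)
    (hbr : ∀ k r, k = 2 * r + 1 → 29 ≤ k → BridgeRule k r)
    (k : ℕ) (hk : 1 ≤ k) (hodd : k % 2 = 1) (hn : ¬ (4 * k + 1).Prime) : LayOK k := by
  rcases Nat.lt_or_ge k 17 with h | h
  · have hcases : k = 1 ∨ k = 3 ∨ k = 5 ∨ k = 7 ∨ k = 9 ∨ k = 11 ∨ k = 13 ∨ k = 15 := by omega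
    rcases hcases with rfl | rfl | rfl | rfl | rfl | rfl | rfl | rfl
    · exact absurd (by norm_num) hn
    · exact absurd (by norm_num) hn
    · exact h5
    · exact absurd (by norm_num) hn
    · exact absurd (by norm_num) hn
    · exact h11
    · exact absurd (by norm_num) hn
    · exact absurd (by norm_num) hn
  · rcases Nat.lt_or_ge k 29 with h' | h'
    · exact lay_small_odd k h h' hodd (hplain k h hodd)
    · exact lay_odd_of (r := k / 2) (by omega) h' (hrule k h hodd) (hplain k h hodd)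
        (hbr k (k / 2) (by omega) h')

end Pool.Agent.P45
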