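import Pool.Agent.Lib.P45dba8.LopG
import Pool.Agent.Lib.P45dba8.OddComp

/-! # MP_45dba8: the bridge rule -/

set_option autoImplicit false

namespace Pool.Agent.P45

theorem bridgeRule (k r : ℕ) (hk : k = 2 * r + 1) (h29 : 29 ≤ k) : BridgeRule k r := by
  intro A hA _ h2k ⟨m, h, hm, hkm⟩ hb
  rcases bridge_path goodBlks_P14 hk (by omega) hA h2k h hm hkm with h1 | h1
  · omega
  · obtain ⟨D, t, hP, hQ, ht, hD, ⟨l, hl, hl1⟩, ⟨l', hl', hl1'⟩, h3⟩ := h1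
    refine ⟨D, t, hP, hQ, ht, hD, fun hn => ⟨?_, ?_, h3 (Nat.mod_eq_zero_of_dvd hn)⟩⟩
    · by_cases h : 3 ∣ l
      · exact ⟨l + 1, hl1, by omega⟩
      · exact ⟨l, hl, h⟩
    · by_cases h : 3 ∣ l'
      · exact ⟨l' + 1, hl1', by omega⟩
      · exact ⟨l', hl', h⟩

end Pool.Agent.P45
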