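import Pool.Agent.Lib.P45dba8.PathBlk

/-! # MP_45dba8: the geometry of an alternating path, `k` even

From an alternating path with `k - 1` edges to the data of `asm_even`. -/

set_option autoImplicit false

namespace Pool.Agent.P45

/-- The labels of the even edges (letter `S`) of a path with the depths `D`. -/
def labS (k : ℕ) (D : ℕ → ℕ) (r : ℕ) : Finset ℕ :=
  (Finset.range r).image (fun i => 2 * k - 1 - D (2 * i))

/-- The labels of the odd edges (letter `T`). -/
def labT (k : ℕ) (D : ℕ → ℕ) (r : ℕ) : Finset ℕ :=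
  (Finset.range r).image (fun i => 2 * k - 1 - D (2 * i + 1))

/-- The vertex `i` in the even positions `0, 2, ..., 4k-2`. -/
def vpos (k : ℕ) (D : ℕ → ℕ) (i : ℕ) : ℕ :=
  if i % 2 = 0 then 2 * slot D i else 2 * (2 * k - 1 - slot D i)

/-- The points of a path with `r` vertices. -/
def ptsX (k : ℕ) (D : ℕ → ℕ) (r : ℕ) : Finset (ZMod (4 * k + 1)) :=
  (Finset.range r).image (fun i => ((vpos k D i : ℕ) : ZMod (4 * k + 1)))

/-- The left end of the edge with the label `l`. -/
noncomputable def lend (k : ℕ) (D : ℕ → ℕ) (r l : ℕ) : ZMod (4 * k + 1) :=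
  open Classical in
  if h : ∃ i, i < r ∧ 2 * k - 1 - D i = l then
    ((2 * slot D (if Nat.find h % 2 = 0 then Nat.find h else Nat.find h + 1) : ℕ) :
      ZMod (4 * k + 1))
  else 0

variable {k : ℕ} {w : ℕ → Bool} {D : ℕ → ℕ} {d m : ℕ}

theorem APath.slot_lt (h : APath w D d m) (hd : d ≤ 2 * k - 1) (hk : 1 ≤ k) {i : ℕ} (hi : i ≤ m) :
    slot D i ≤ 2 * k - 1 := by
  rcases Nat.eq_zero_or_pos i with rfl | hi0
  · exact Nat.zero_le _
  · have h1 := h.cross i hi (i - 1) (by omega) (by omega)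
    omega

theorem APath.vpos_lt (h : APath w D d m) (hd : d ≤ 2 * k - 1) (hk : 1 ≤ k) {i : ℕ} (hi : i ≤ m) :
    vpos k D i < 4 * k := by
  have h1 := h.slot_lt hd hk hi
  unfold vpos
  split_ifs <;> omega

theorem APath.vpos_inj (h : APath w D d m) (hd : d ≤ 2 * k - 1) (hk : 1 ≤ k) {i j : ℕ}
    (hi : i ≤ m) (hj : j ≤ m) (hij : vpos k D i = vpos k D j) : i = j := by
  have h1 := h.slot_lt hd hk hi
  have h2 := h.slot_lt hd hk hj
  unfold vpos at hij
  split_ifs at hij with ha hb hb
  · exact h.sinj i hi j hj (by omega) (by omega)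
  · exfalso
    have h3 := h.cross i hi j hj (by omega)
    omega
  · exfalso
    have h3 := h.cross i hi j hj (by omega)
    omega
  · exact h.sinj i hi j hj (by omega) (by omega)

theorem cast_inj_lt {n a b : ℕ} (ha : a < n) (hb : b < n) (h : (a : ZMod n) = (b : ZMod n)) :
    a = b := by
  have h1 := (ZMod.natCast_eq_natCast_iff' a b n).1 h
  rwa [Nat.mod_eq_of_lt ha, Nat.mod_eq_of_lt hb] at h1

theorem APath.card_pts (h : APath w D d m) (hd : d ≤ 2 * k - 1) (hk : 1 ≤ k) :
    (ptsX k D (m + 1)).card = m + 1 := by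
  unfold ptsX
  rw [Finset.card_image_of_injOn, Finset.card_range]
  intro i hi j hj hij
  have hi' := Finset.mem_range.1 (Finset.mem_coe.1 hi)
  have hj' := Finset.mem_range.1 (Finset.mem_coe.1 hj)
  have a := h.vpos_lt hd hk (show i ≤ m by omega)
  have b := h.vpos_lt hd hk (show j ≤ m by omega)
  exact h.vpos_inj hd hk (by omega) (by omega) (cast_inj_lt (by omega) (by omega) hij)

theorem APath.adj_pts (h : APath w D d m) (hd : d ≤ 2 * k - 1) (hk : 1 ≤ k) :
    ∀ x ∈ ptsX k D (m + 1), x + 1 ∉ ptsX k D (m + 1) := by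
  intro x hx hx'
  unfold ptsX at hx hx'
  obtain ⟨i, hi, rfl⟩ := Finset.mem_image.1 hx
  obtain ⟨j, hj, hij⟩ := Finset.mem_image.1 hx'
  have hi' := Finset.mem_range.1 hi
  have hj' := Finset.mem_range.1 hj
  have a := h.vpos_lt hd hk (show i ≤ m by omega)
  have b := h.vpos_lt hd hk (show j ≤ m by omega)
  have e : ((vpos k D j : ℕ) : ZMod (4 * k + 1)) = ((vpos k D i + 1 : ℕ) : ZMod (4 * k + 1)) := by
    push_cast
    exact hij
  have e' := cast_inj_lt (by omega) (by omega) e
  unfold vpos at e'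
  split_ifs at e' <;> omega

theorem APath.lend_eq (h : APath w D d m) (hd : d ≤ 2 * k - 1) {i : ℕ} (hi : i < m) :
    lend k D m (2 * k - 1 - D i) =
      ((2 * slot D (if i % 2 = 0 then i else i + 1) : ℕ) : ZMod (4 * k + 1)) := by
  classical
  have hex : ∃ j, j < m ∧ 2 * k - 1 - D j = 2 * k - 1 - D i := ⟨i, hi, rfl⟩
  have hf : Nat.find hex = i := by
    obtain ⟨h1, h2⟩ := Nat.find_spec hex
    have h3 := h.lt i hi
    have h4 := h.lt _ h1
    exact h.inj _ h1 _ hi (by omega)
  unfold lend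
  rw [dif_pos hex]
  have hf' : (Nat.find hex) = i := hf
  simp only [hf']

/-- The two ends of the edge `i`. -/
theorem APath.ends (h : APath w D d m) (hd : d ≤ 2 * k - 1) (hk : 1 ≤ k) {i : ℕ} (hi : i < m) :
    (lend k D m (2 * k - 1 - D i) = ((vpos k D i : ℕ) : ZMod (4 * k + 1)) ∧
      lend k D m (2 * k - 1 - D i) + 2 * ((2 * k - 1 - D i : ℕ) : ZMod (4 * k + 1)) =
        ((vpos k D (i + 1) : ℕ) : ZMod (4 * k + 1))) ∨
    (lend k D m (2 * k - 1 - D i) = ((vpos k D (i + 1) : ℕ) : ZMod (4 * k + 1)) ∧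
      lend k D m (2 * k - 1 - D i) + 2 * ((2 * k - 1 - D i : ℕ) : ZMod (4 * k + 1)) =
        ((vpos k D i : ℕ) : ZMod (4 * k + 1))) := by
  have h1 := h.le i hi
  have h2 := h.lt i hi
  have h3 : slot D (i + 1) = D i - slot D i := rfl
  rw [h.lend_eq hd hi]
  rcases Nat.mod_two_eq_zero_or_one i with hp | hp
  · left
    rw [if_pos hp]
    constructor
    · unfold vpos
      rw [if_pos hp]
    · have e : vpos k D (i + 1) = 2 * slot D i + 2 * (2 * k - 1 - D i) := by
        unfold vpos
        rw [if_neg (by omega), h3]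
        omega
      rw [e]
      push_cast
      ring
  · right
    rw [if_neg (show ¬ i % 2 = 0 by omega)]
    constructor
    · unfold vpos
      rw [if_pos (show (i + 1) % 2 = 0 by omega)]
    · have e : vpos k D i = 2 * slot D (i + 1) + 2 * (2 * k - 1 - D i) := by
        unfold vpos
        rw [if_neg (show ¬ i % 2 = 0 by omega), h3]
        omega
      rw [e]
      push_cast
      ring

theorem APath.labS_prop (h : APath w D d m) (hd : d ≤ 2 * k - 1) {r : ℕ} (hr : 2 * r ≤ m + 1) :
    (∀ l ∈ labS k D r, 1 ≤ l ∧ l ≤ 2 * k - 1 ∧ w (2 * k - 1 - l) = true) ∧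
      (labS k D r).card = r := by
  constructor
  · intro l hl
    unfold labS at hl
    obtain ⟨i, hi, rfl⟩ := Finset.mem_image.1 hl
    have hi' := Finset.mem_range.1 hi
    have h1 := h.lt (2 * i) (by omega)
    refine ⟨by omega, by omega, ?_⟩
    rw [show 2 * k - 1 - (2 * k - 1 - D (2 * i)) = D (2 * i) by omega, h.letter _ (by omega)]
    simp
  · unfold labS
    rw [Finset.card_image_of_injOn, Finset.card_range]
    intro i hi j hj hij
    have hi' := Finset.mem_range.1 (Finset.mem_coe.1 hi)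
    have hj' := Finset.mem_range.1 (Finset.mem_coe.1 hj)
    have h1 := h.lt (2 * i) (by omega)
    have h2 := h.lt (2 * j) (by omega)
    have hij' : 2 * k - 1 - D (2 * i) = 2 * k - 1 - D (2 * j) := hij
    have h3 := h.inj (2 * i) (by omega) (2 * j) (by omega) (by omega)
    omega

theorem APath.labT_prop (h : APath w D d m) (hd : d ≤ 2 * k - 1) {r : ℕ} (hr : 2 * r ≤ m) :
    (∀ l ∈ labT k D r, 1 ≤ l ∧ l ≤ 2 * k - 1 ∧ w (2 * k - 1 - l) = false) ∧
      (labT k D r).card = r := by
  constructor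
  · intro l hl
    unfold labT at hl
    obtain ⟨i, hi, rfl⟩ := Finset.mem_image.1 hl
    have hi' := Finset.mem_range.1 hi
    have h1 := h.lt (2 * i + 1) (by omega)
    refine ⟨by omega, by omega, ?_⟩
    rw [show 2 * k - 1 - (2 * k - 1 - D (2 * i + 1)) = D (2 * i + 1) by omega,
      h.letter _ (by omega)]
    simp
  · unfold labT
    rw [Finset.card_image_of_injOn, Finset.card_range]
    intro i hi j hj hij
    have hi' := Finset.mem_range.1 (Finset.mem_coe.1 hi)
    have hj' := Finset.mem_range.1 (Finset.mem_coe.1 hj)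
    have h1 := h.lt (2 * i + 1) (by omega)
    have h2 := h.lt (2 * j + 1) (by omega)
    have hij' : 2 * k - 1 - D (2 * i + 1) = 2 * k - 1 - D (2 * j + 1) := hij
    have h3 := h.inj (2 * i + 1) (by omega) (2 * j + 1) (by omega) (by omega)
    omega

/-- THE GEOMETRY FOR EVEN `k = 2 r`: a path with `k - 1` edges gives the point set `X`, the perfect
matching by the labels `labS` and the matching by the labels `labT` which misses two points. -/
theorem APath.data_even {r : ℕ} (hr : 1 ≤ r) (h : APath w D d (2 * r - 1)) (hk : k = 2 * r)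
    (hd : d ≤ 2 * k - 1) :
    (ptsX k D k).card = k ∧ (∀ x ∈ ptsX k D k, x + 1 ∉ ptsX k D k) ∧
    2 * (labS k D r).card = k ∧ 2 * (labT k D (r - 1)).card + 2 = k ∧
    (∀ l ∈ labS k D r, 1 ≤ l ∧ l ≤ 2 * k - 1 ∧ w (2 * k - 1 - l) = true) ∧
    (∀ l ∈ labT k D (r - 1), 1 ≤ l ∧ l ≤ 2 * k - 1 ∧ w (2 * k - 1 - l) = false) ∧
    (∀ x, x ∈ ptsX k D k ↔ ∃ l ∈ labS k D r,
      x = lend k D (2 * r - 1) l ∨ x = lend k D (2 * r - 1) l + 2 * (l : ZMod (4 * k + 1))) ∧
    (∀ x, x ∈ ptsX k D k ↔ (∃ l ∈ labT k D (r - 1),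
      x = lend k D (2 * r - 1) l ∨ x = lend k D (2 * r - 1) l + 2 * (l : ZMod (4 * k + 1))) ∨
      x = ((vpos k D 0 : ℕ) : ZMod (4 * k + 1)) ∨
      x = ((vpos k D (k - 1) : ℕ) : ZMod (4 * k + 1))) := by
  have hk1 : 1 ≤ k := by omega
  have hkm : 2 * r - 1 + 1 = k := by omega
  have c1 := h.card_pts hd hk1
  have c2 := h.adj_pts hd hk1
  rw [hkm] at c1 c2
  obtain ⟨c3, c4⟩ := h.labS_prop (k := k) hd (r := r) (by omega)
  obtain ⟨c5, c6⟩ := h.labT_prop (k := k) hd (r := r - 1) (by omega)
  have hmem : ∀ i < k, ((vpos k D i : ℕ) : ZMod (4 * k + 1)) ∈ ptsX k D k := fun i hi =>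
    Finset.mem_image.2 ⟨i, Finset.mem_range.2 hi, rfl⟩
  refine ⟨c1, c2, by omega, by omega, c3, c5, ?_, ?_⟩
  · intro x
    constructor
    · intro hx
      unfold ptsX at hx
      obtain ⟨i, hi, rfl⟩ := Finset.mem_image.1 hx
      have hi' := Finset.mem_range.1 hi
      refine ⟨2 * k - 1 - D (2 * (i / 2)), Finset.mem_image.2 ⟨i / 2, Finset.mem_range.2 (by omega),
        rfl⟩, ?_⟩
      have he := h.ends hd hk1 (i := 2 * (i / 2)) (by omega)
      rcases Nat.mod_two_eq_zero_or_one i with hp | hp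
      · rw [show 2 * (i / 2) = i by omega] at he ⊢
        rcases he with ⟨e1, e2⟩ | ⟨e1, e2⟩
        · left; exact e1.symm
        · right; exact e2.symm
      · have hi1 : 2 * (i / 2) + 1 = i := by omega
        rw [hi1] at he
        rcases he with ⟨e1, e2⟩ | ⟨e1, e2⟩
        · right; exact e2.symm
        · left; exact e1.symm
    · rintro ⟨l, hl, hx⟩
      unfold labS at hl
      obtain ⟨i, hi, rfl⟩ := Finset.mem_image.1 hl
      have hi' := Finset.mem_range.1 hi
      have he := h.ends hd hk1 (i := 2 * i) (by omega)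
      have m1 := hmem (2 * i) (by omega)
      have m2 := hmem (2 * i + 1) (by omega)
      rcases he with ⟨e1, e2⟩ | ⟨e1, e2⟩
      · rcases hx with hx | hx
        · rw [hx, e1]; exact m1
        · rw [hx, e2]; exact m2
      · rcases hx with hx | hx
        · rw [hx, e1]; exact m2
        · rw [hx, e2]; exact m1
  · intro x
    constructor
    · intro hx
      unfold ptsX at hx
      obtain ⟨i, hi, rfl⟩ := Finset.mem_image.1 hx
      have hi' := Finset.mem_range.1 hi
      by_cases h0 : i = 0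
      · subst h0
        right; left; rfl
      by_cases h1 : i = k - 1
      · subst h1
        right; right; rfl
      left
      refine ⟨2 * k - 1 - D (2 * ((i - 1) / 2) + 1), Finset.mem_image.2 ⟨(i - 1) / 2,
        Finset.mem_range.2 (by omega), rfl⟩, ?_⟩
      have he := h.ends hd hk1 (i := 2 * ((i - 1) / 2) + 1) (by omega)
      rcases Nat.mod_two_eq_zero_or_one i with hp | hp
      · have hi1 : 2 * ((i - 1) / 2) + 1 + 1 = i := by omega
        rw [hi1] at he
        rcases he with ⟨e1, e2⟩ | ⟨e1, e2⟩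
        · right; exact e2.symm
        · left; exact e1.symm
      · rw [show 2 * ((i - 1) / 2) + 1 = i by omega] at he ⊢
        rcases he with ⟨e1, e2⟩ | ⟨e1, e2⟩
        · left; exact e1.symm
        · right; exact e2.symm
    · rintro (⟨l, hl, hx⟩ | hx | hx)
      · unfold labT at hl
        obtain ⟨i, hi, rfl⟩ := Finset.mem_image.1 hl
        have hi' := Finset.mem_range.1 hi
        have he := h.ends hd hk1 (i := 2 * i + 1) (by omega)
        have m1 := hmem (2 * i + 1) (by omega)
        have m2 := hmem (2 * i + 1 + 1) (by omega)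
        rcases he with ⟨e1, e2⟩ | ⟨e1, e2⟩
        · rcases hx with hx | hx
          · rw [hx, e1]; exact m1
          · rw [hx, e2]; exact m2
        · rcases hx with hx | hx
          · rw [hx, e1]; exact m2
          · rw [hx, e2]; exact m1
      · rw [hx]
        exact hmem 0 (by omega)
      · rw [hx]
        exact hmem (k - 1) (by omega)

end Pool.Agent.P45
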