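import Pool.Agent.Lib.P45dba8.AsmSide
import Pool.Agent.Lib.P45dba8.PathX
import Pool.Agent.Lib.P45dba8.PlanCount2

/-! # MP_45dba8: two strands

The strand `A` runs on the even points, the strand `B` on the odd points; both are alternating
paths with the same letters. A step is doubled (same label, the displacement is a unit) or split
(the two labels of a pair, each used once). -/

set_option autoImplicit false

namespace Pool.Agent.P45

/-- A side with arbitrary admissible statuses. -/
theorem side_adm {k : ℕ} {I K U : Finset ℕ} {σ : ℕ → ℕ}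
    (hsub : I ∪ K ∪ U ⊆ Finset.Icc 1 (2 * k)) (hσ : Set.BijOn σ K U) (hG : GoodSide k I K σ)
    (q P P' : ℕ → ZMod (4 * k + 1)) (al be : ℕ → ℕ)
    (hadm : ∀ d ∈ K, (al d = d ∧ be d = σ d) ∨ (al d = σ d ∧ be d = d) ∨
      (((al d = d ∧ be d = d) ∨ (al d = σ d ∧ be d = σ d)) ∧ IsUnit (P' d - P d)))
    (A : Finset (ZMod (4 * k + 1))) (hc : A.card = 2 * (I.card + 2 * K.card))
    (hA : ∀ v, v ∈ A ↔ (∃ i ∈ I, v = q i ∨ v = q i + 2 * (i : ZMod (4 * k + 1))) ∨
      ∃ d ∈ K, v = P d ∨ v = P d + 2 * ((al d : ℕ) : ZMod (4 * k + 1)) ∨ v = P' d ∨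
        v = P' d + 2 * ((be d : ℕ) : ZMod (4 * k + 1))) :
    EG (LSet k (I ∪ K ∪ U)) A := by
  classical
  have hodd : Odd (4 * k + 1) := ⟨2 * k, by ring⟩
  have h1 := hG (Sum.elim (fun i => q i.1) (fun c => bif c.2 then P' c.1.1 else P c.1.1))
    (Sum.elim (fun i => ((2 * i.1 : ℕ) : ZMod (4 * k + 1)))
      (fun c => bif c.2 then ((2 * be c.1.1 : ℕ) : ZMod (4 * k + 1)) else
        ((2 * al c.1.1 : ℕ) : ZMod (4 * k + 1)))) (fun i => rfl) (by
      intro d
      rcases hadm d.1 d.2 with ⟨h1, h2⟩ | ⟨h1, h2⟩ | ⟨⟨h1, h2⟩ | ⟨h1, h2⟩, h3⟩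
      · left
        refine ⟨?_, ?_⟩
        · show ((2 * al d.1 : ℕ) : ZMod (4 * k + 1)) = _
          rw [h1]
        · show ((2 * be d.1 : ℕ) : ZMod (4 * k + 1)) = _
          rw [h2]
      · right; left
        refine ⟨?_, ?_⟩
        · show ((2 * al d.1 : ℕ) : ZMod (4 * k + 1)) = _
          rw [h1]
        · show ((2 * be d.1 : ℕ) : ZMod (4 * k + 1)) = _
          rw [h2]
      · right; right
        refine ⟨Or.inl ⟨?_, ?_⟩, h3⟩
        · show ((2 * al d.1 : ℕ) : ZMod (4 * k + 1)) = _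
          rw [h1]
        · show ((2 * be d.1 : ℕ) : ZMod (4 * k + 1)) = _
          rw [h2]
      · right; right
        refine ⟨Or.inr ⟨?_, ?_⟩, h3⟩
        · show ((2 * al d.1 : ℕ) : ZMod (4 * k + 1)) = _
          rw [h1]
        · show ((2 * be d.1 : ℕ) : ZMod (4 * k + 1)) = _
          rw [h2])
  refine EG_of_cover (by rw [ZMod.card]; exact hodd) _ (zero_notMem_LSet hsub) A _ ?_ ?_
    (h1.mono ?_)
  · rw [hc, Fintype.card_sum, Fintype.card_prod, Fintype.card_coe, Fintype.card_coe,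
      Fintype.card_bool]
    ring
  · intro v
    rw [hA]
    constructor
    · rintro (⟨i, hi, h | h⟩ | ⟨d, hd, h | h | h | h⟩)
      · refine ⟨Sum.inl ⟨i, hi⟩, false, ?_⟩
        rw [h]; exact add_zero _
      · refine ⟨Sum.inl ⟨i, hi⟩, true, ?_⟩
        rw [h]
        show q i + ((2 * i : ℕ) : ZMod (4 * k + 1)) = _
        push_cast
        rfl
      · refine ⟨Sum.inr (⟨d, hd⟩, false), false, ?_⟩
        rw [h]; exact add_zero _
      · refine ⟨Sum.inr (⟨d, hd⟩, false), true, ?_⟩
        rw [h]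
        show P d + ((2 * al d : ℕ) : ZMod (4 * k + 1)) = _
        push_cast
        rfl
      · refine ⟨Sum.inr (⟨d, hd⟩, true), false, ?_⟩
        rw [h]; exact add_zero _
      · refine ⟨Sum.inr (⟨d, hd⟩, true), true, ?_⟩
        rw [h]
        show P' d + ((2 * be d : ℕ) : ZMod (4 * k + 1)) = _
        push_cast
        rfl
    · rintro ⟨i | ⟨⟨d, hd⟩, c⟩, b, h⟩
      · left
        refine ⟨i.1, i.2, ?_⟩
        cases b
        · left
          rw [← h]
          exact add_zero _
        · right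
          rw [← h]
          show q i.1 + ((2 * i.1 : ℕ) : ZMod (4 * k + 1)) = _
          push_cast
          rfl
      · right
        refine ⟨d, hd, ?_⟩
        cases c <;> cases b
        · left
          rw [← h]
          exact add_zero _
        · right; left
          rw [← h]
          show P d + ((2 * al d : ℕ) : ZMod (4 * k + 1)) = _
          push_cast
          rfl
        · right; right; left
          rw [← h]
          exact add_zero _
        · right; right; right
          rw [← h]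
          show P' d + ((2 * be d : ℕ) : ZMod (4 * k + 1)) = _
          push_cast
          rfl
  · rintro x - y - ⟨j, hj, h⟩
    have hj' : FD (fun i : {i // i ∈ I} => ((2 * i.1 : ℕ) : ZMod (4 * k + 1)))
        (fun d : {d // d ∈ K} => ((2 * d.1 : ℕ) : ZMod (4 * k + 1)))
        (fun d : {d // d ∈ K} => ((2 * σ d.1 : ℕ) : ZMod (4 * k + 1)))
        (2 * (j : ZMod (4 * k + 1))) := by
      rcases Finset.mem_union.1 hj with hj | hj
      · rcases Finset.mem_union.1 hj with hj | hj
        · left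
          refine ⟨⟨j, hj⟩, ?_⟩
          push_cast
          rfl
        · right
          refine ⟨⟨j, hj⟩, Or.inl ?_⟩
          push_cast
          rfl
      · right
        obtain ⟨d, hd, rfl⟩ := hσ.surjOn hj
        refine ⟨⟨d, Finset.mem_coe.1 hd⟩, Or.inr ?_⟩
        push_cast
        rfl
    refine ⟨_, hj', ?_⟩
    rcases h with h | h
    · left
      linear_combination h
    · right
      linear_combination -h

/-- The labels of the steps `2 j + e`. -/
def labE (k : ℕ) (D : ℕ → ℕ) (e r : ℕ) : Finset ℕ :=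
  (Finset.range r).image (fun j => 2 * k - 1 - D (2 * j + e))

theorem labE_zero (k : ℕ) (D : ℕ → ℕ) (r : ℕ) : labE k D 0 r = labS k D r := rfl

theorem labE_one (k : ℕ) (D : ℕ → ℕ) (r : ℕ) : labE k D 1 r = labT k D r := rfl

/-- The points of the strand `A`. -/
def ptA (k : ℕ) (D : ℕ → ℕ) (i : ℕ) : ZMod (4 * k + 1) := ((vpos k D i : ℕ) : ZMod (4 * k + 1))

/-- The points of two strands with `m` vertices each. -/
def ptsAB (k : ℕ) (DA DB : ℕ → ℕ) (m : ℕ) : Finset (ZMod (4 * k + 1)) :=
  (Finset.range m).image (ptA k DA) ∪ (Finset.range m).image (fun i => ptA k DB i + 1)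

variable {k : ℕ} {w : ℕ → Bool} {D DA DB : ℕ → ℕ} {d m r : ℕ}

theorem vpos_even (k : ℕ) (D : ℕ → ℕ) (i : ℕ) : 2 ∣ vpos k D i := by
  unfold vpos
  split_ifs
  · exact ⟨_, rfl⟩
  · exact ⟨_, rfl⟩

theorem card_ptsAB (hk : 1 ≤ k) (hA : APath w DA (2 * k - 1) m) (hB : APath w DB (2 * k - 1) m) :
    (ptsAB k DA DB (m + 1)).card = 2 * (m + 1) := by
  unfold ptsAB
  have cA : ((Finset.range (m + 1)).image (ptA k DA)).card = m + 1 := hA.card_pts le_rfl hk
  have cB : ((Finset.range (m + 1)).image (fun i => ptA k DB i + 1)).card = m + 1 := by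
    have h := hB.card_pts (k := k) le_rfl hk
    unfold ptsX at h
    have e : (Finset.range (m + 1)).image (fun i => ptA k DB i + 1) =
        ((Finset.range (m + 1)).image (fun i => ((vpos k DB i : ℕ) : ZMod (4 * k + 1)))).image
          (fun x => x + 1) := by
      rw [Finset.image_image]
      rfl
    rw [e, Finset.card_image_of_injective _ (fun a b hab => add_right_cancel hab), h]
  rw [Finset.card_union_of_disjoint, cA, cB]
  · ring
  · rw [Finset.disjoint_left]
    intro x hx hx'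
    obtain ⟨i, hi, rfl⟩ := Finset.mem_image.1 hx
    obtain ⟨j, hj, hij⟩ := Finset.mem_image.1 hx'
    have hi' := Finset.mem_range.1 hi
    have hj' := Finset.mem_range.1 hj
    have a := hA.vpos_lt (k := k) le_rfl hk (show i ≤ m by omega)
    have b := hB.vpos_lt (k := k) le_rfl hk (show j ≤ m by omega)
    have e : ((vpos k DB j + 1 : ℕ) : ZMod (4 * k + 1)) = ((vpos k DA i : ℕ) : ZMod (4 * k + 1)) := by
      push_cast
      exact hij
    have e' := cast_inj_lt (by omega) (by omega) e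
    have h1 := vpos_even k DA i
    have h2 := vpos_even k DB j
    omega

theorem mem_ptsAB {x : ZMod (4 * k + 1)} : x ∈ ptsAB k DA DB m ↔
    (∃ i < m, x = ptA k DA i) ∨ ∃ i < m, x = ptA k DB i + 1 := by
  unfold ptsAB
  rw [Finset.mem_union, Finset.mem_image, Finset.mem_image]
  constructor
  · rintro (⟨i, hi, rfl⟩ | ⟨i, hi, rfl⟩)
    · exact Or.inl ⟨i, Finset.mem_range.1 hi, rfl⟩
    · exact Or.inr ⟨i, Finset.mem_range.1 hi, rfl⟩
  · rintro (⟨i, hi, rfl⟩ | ⟨i, hi, rfl⟩)
    · exact Or.inl ⟨i, Finset.mem_range.2 hi, rfl⟩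
    · exact Or.inr ⟨i, Finset.mem_range.2 hi, rfl⟩

/-- The ends of an edge, symmetric form. -/
theorem APath.ends_iff (h : APath w D (2 * k - 1) m) (hk : 1 ≤ k) {i : ℕ} (hi : i < m)
    (c x : ZMod (4 * k + 1)) :
    (x = ptA k D i + c ∨ x = ptA k D (i + 1) + c) ↔
      (x = lend k D m (2 * k - 1 - D i) + c ∨ x = lend k D m (2 * k - 1 - D i) + c +
        2 * ((2 * k - 1 - D i : ℕ) : ZMod (4 * k + 1))) := by
  unfold ptA
  rcases h.ends le_rfl hk hi with ⟨e1, e2⟩ | ⟨e1, e2⟩
  · rw [← e1, ← e2]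
    constructor
    · rintro (h | h)
      · exact Or.inl h
      · right; rw [h]; ring
    · rintro (h | h)
      · exact Or.inl h
      · right; rw [h]; ring
  · rw [← e1, ← e2]
    constructor
    · rintro (h | h)
      · right; rw [h]; ring
      · exact Or.inl h
    · rintro (h | h)
      · exact Or.inr h
      · left; rw [h]; ring

/-- The displacement of a doubled step. -/
theorem disp_lend (hA : APath w DA (2 * k - 1) m) (hB : APath w DB (2 * k - 1) m) {i : ℕ}
    (hi : i < m) (he : DA i = DB i) :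
    lend k DB m (2 * k - 1 - DB i) + 1 - lend k DA m (2 * k - 1 - DA i) =
      ptA k DB i + 1 - ptA k DA i := by
  rw [hA.lend_eq le_rfl hi, hB.lend_eq le_rfl hi]
  have a1 := hA.le i hi
  have a2 := hA.lt i hi
  have b1 := hB.le i hi
  have b2 := hB.lt i hi
  unfold ptA vpos
  rcases Nat.mod_two_eq_zero_or_one i with hp | hp
  · rw [if_pos hp, if_pos hp, if_pos hp]
  · rw [if_neg (by omega), if_neg (by omega), if_neg (by omega)]
    have e1 : slot DA (i + 1) = DA i - slot DA i := rfl
    have e2 : slot DB (i + 1) = DB i - slot DB i := rfl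
    rw [e1, e2]
    have e3 : ∀ a b : ℕ, b ≤ a → ((2 * (a - b) : ℕ) : ZMod (4 * k + 1)) =
        2 * (a : ZMod (4 * k + 1)) - 2 * (b : ZMod (4 * k + 1)) := by
      intro a b hab
      rw [Nat.cast_mul, Nat.cast_sub hab]
      push_cast
      ring
    rw [e3 _ _ a1, e3 _ _ b1, e3 (2 * k - 1) (slot DA i) (by omega),
      e3 (2 * k - 1) (slot DB i) (by omega), he]
    ring

/-- One side of the two strands: `e = 0` for the steps `0, 2, ...`, `e = 1` for the steps
`1, 3, ...`; the label `s` closes the vertex `x` (`2 r` or `0`). -/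
theorem strand_side (hk : k = 2 * r + 1) (hA : APath w DA (2 * k - 1) (2 * r))
    (hB : APath w DB (2 * k - 1) (2 * r)) (e x s : ℕ) (he : (e = 0 ∧ x = 2 * r) ∨ (e = 1 ∧ x = 0))
    (U : Finset ℕ) (σ : ℕ → ℕ) (hσ : Set.BijOn σ (labE k DA e r) U)
    (hsub : {s} ∪ labE k DA e r ∪ U ⊆ Finset.Icc 1 (2 * k))
    (hG : GoodSide k {s} (labE k DA e r) σ)
    (hst : ∀ j < r, (DA (2 * j + e) = DB (2 * j + e) ∧
        IsUnit (ptA k DB (2 * j + e) + 1 - ptA k DA (2 * j + e))) ∨
      σ (2 * k - 1 - DA (2 * j + e)) = 2 * k - 1 - DB (2 * j + e))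
    (hs : ptA k DB x + 1 = ptA k DA x + 2 * (s : ZMod (4 * k + 1)) ∨
      ptA k DA x = ptA k DB x + 1 + 2 * (s : ZMod (4 * k + 1))) :
    EG (LSet k ({s} ∪ labE k DA e r ∪ U)) (ptsAB k DA DB (2 * r + 1)) := by
  classical
  have hk1 : 1 ≤ k := by omega
  have he1 : e ≤ 1 := by omega
  -- the index of a label of the strand `A`
  have hidx : ∀ d ∈ labE k DA e r, ∃ j < r, d = 2 * k - 1 - DA (2 * j + e) := by
    intro d hd
    obtain ⟨j, hj, h⟩ := Finset.mem_image.1 hd
    exact ⟨j, Finset.mem_range.1 hj, h.symm⟩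
  have huniq : ∀ i < r, ∀ j < r, 2 * k - 1 - DA (2 * i + e) = 2 * k - 1 - DA (2 * j + e) →
      i = j := by
    intro i hi j hj hij
    have h1 := hA.lt (2 * i + e) (by omega)
    have h2 := hA.lt (2 * j + e) (by omega)
    have h3 := hA.inj (2 * i + e) (by omega) (2 * j + e) (by omega) (by omega)
    omega
  choose! f hf1 hf2 using hidx
  have hfj : ∀ j < r, f (2 * k - 1 - DA (2 * j + e)) = j := by
    intro j hj
    have hm : 2 * k - 1 - DA (2 * j + e) ∈ labE k DA e r :=
      Finset.mem_image_of_mem (fun j => 2 * k - 1 - DA (2 * j + e)) (Finset.mem_range.2 hj)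
    exact huniq _ (hf1 _ hm) _ hj (hf2 _ hm).symm
  have hcard : (labE k DA e r).card = r := by
    unfold labE
    rw [Finset.card_image_of_injOn, Finset.card_range]
    intro i hi j hj hij
    exact huniq i (Finset.mem_range.1 (Finset.mem_coe.1 hi)) j
      (Finset.mem_range.1 (Finset.mem_coe.1 hj)) hij
  obtain ⟨qs, hqs⟩ : ∃ qs : ZMod (4 * k + 1), ∀ v, (v = qs ∨ v = qs + 2 * (s : ZMod (4 * k + 1))) ↔
      (v = ptA k DA x ∨ v = ptA k DB x + 1) := by
    rcases hs with h | h
    · exact ⟨ptA k DA x, fun v => by rw [h]⟩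
    · exact ⟨ptA k DB x + 1, fun v => by rw [← h, or_comm]⟩
  refine side_adm hsub hσ hG (fun _ => qs) (fun d => lend k DA (2 * r) d)
    (fun d => lend k DB (2 * r) (2 * k - 1 - DB (2 * f d + e)) + 1) id
    (fun d => 2 * k - 1 - DB (2 * f d + e)) ?_ _ ?_ ?_
  · intro d hd
    have hj := hf1 d hd
    have hd' := hf2 d hd
    rcases hst (f d) hj with ⟨h1, h2⟩ | h1
    · right; right
      refine ⟨Or.inl ⟨rfl, ?_⟩, ?_⟩
      · show 2 * k - 1 - DB (2 * f d + e) = d
        rw [← h1, ← hd']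
      · have h3 := disp_lend hA hB (show 2 * f d + e < 2 * r by omega) h1
        show IsUnit (lend k DB (2 * r) (2 * k - 1 - DB (2 * f d + e)) + 1 - lend k DA (2 * r) d)
        have h4 : lend k DA (2 * r) d = lend k DA (2 * r) (2 * k - 1 - DA (2 * f d + e)) := by
          rw [← hd']
        rw [h4, h3]
        exact h2
    · left
      refine ⟨rfl, ?_⟩
      show 2 * k - 1 - DB (2 * f d + e) = σ d
      rw [← h1, ← hd']
  · rw [card_ptsAB hk1 hA hB, hcard, Finset.card_singleton]
    omega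
  · intro v
    rw [mem_ptsAB]
    have hsing : (∃ i ∈ ({s} : Finset ℕ), v = qs ∨ v = qs + 2 * (i : ZMod (4 * k + 1))) ↔
        (v = ptA k DA x ∨ v = ptA k DB x + 1) := by
      rw [← hqs v]
      constructor
      · rintro ⟨i, hi, h⟩
        rw [Finset.mem_singleton] at hi
        rw [hi] at h
        exact h
      · intro h
        exact ⟨s, Finset.mem_singleton_self s, h⟩
    rw [hsing]
    have hpair : (∃ d ∈ labE k DA e r, v = lend k DA (2 * r) d ∨
        v = lend k DA (2 * r) d + 2 * ((id d : ℕ) : ZMod (4 * k + 1)) ∨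
        v = lend k DB (2 * r) (2 * k - 1 - DB (2 * f d + e)) + 1 ∨
        v = lend k DB (2 * r) (2 * k - 1 - DB (2 * f d + e)) + 1 +
          2 * ((2 * k - 1 - DB (2 * f d + e) : ℕ) : ZMod (4 * k + 1))) ↔
        ∃ j < r, (v = ptA k DA (2 * j + e) ∨ v = ptA k DA (2 * j + e + 1)) ∨
          (v = ptA k DB (2 * j + e) + 1 ∨ v = ptA k DB (2 * j + e + 1) + 1) := by
      have key : ∀ j < r, ((v = ptA k DA (2 * j + e) ∨ v = ptA k DA (2 * j + e + 1)) ∨
          (v = ptA k DB (2 * j + e) + 1 ∨ v = ptA k DB (2 * j + e + 1) + 1)) ↔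
          (v = lend k DA (2 * r) (2 * k - 1 - DA (2 * j + e)) ∨
          v = lend k DA (2 * r) (2 * k - 1 - DA (2 * j + e)) +
            2 * ((2 * k - 1 - DA (2 * j + e) : ℕ) : ZMod (4 * k + 1)) ∨
          v = lend k DB (2 * r) (2 * k - 1 - DB (2 * j + e)) + 1 ∨
          v = lend k DB (2 * r) (2 * k - 1 - DB (2 * j + e)) + 1 +
            2 * ((2 * k - 1 - DB (2 * j + e) : ℕ) : ZMod (4 * k + 1))) := by
        intro j hj
        have h1 := hA.ends_iff hk1 (show 2 * j + e < 2 * r by omega) 0 v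
        have h2 := hB.ends_iff hk1 (show 2 * j + e < 2 * r by omega) 1 v
        simp only [add_zero] at h1
        rw [h1, h2, or_assoc]
      constructor
      · rintro ⟨d, hd, h⟩
        refine ⟨f d, hf1 d hd, ?_⟩
        rw [key (f d) (hf1 d hd), ← hf2 d hd]
        exact h
      · rintro ⟨j, hj, h⟩
        rw [key j hj] at h
        refine ⟨2 * k - 1 - DA (2 * j + e),
          Finset.mem_image_of_mem (fun j => 2 * k - 1 - DA (2 * j + e)) (Finset.mem_range.2 hj), ?_⟩
        rw [hfj j hj]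
        exact h
    rw [hpair]
    constructor
    · rintro (⟨i, hi, rfl⟩ | ⟨i, hi, rfl⟩)
      · by_cases hix : i = x
        · left; left; rw [hix]
        · right
          rcases he with ⟨he0, hx0⟩ | ⟨he0, hx0⟩
          · refine ⟨i / 2, by omega, Or.inl ?_⟩
            rcases Nat.mod_two_eq_zero_or_one i with hp | hp
            · left; congr 1; omega
            · right; congr 1; omega
          · refine ⟨(i - 1) / 2, by omega, Or.inl ?_⟩
            rcases Nat.mod_two_eq_zero_or_one i with hp | hp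
            · right; congr 1; omega
            · left; congr 1; omega
      · by_cases hix : i = x
        · left; right; rw [hix]
        · right
          rcases he with ⟨he0, hx0⟩ | ⟨he0, hx0⟩
          · refine ⟨i / 2, by omega, Or.inr ?_⟩
            rcases Nat.mod_two_eq_zero_or_one i with hp | hp
            · left; congr 2; omega
            · right; congr 2; omega
          · refine ⟨(i - 1) / 2, by omega, Or.inr ?_⟩
            rcases Nat.mod_two_eq_zero_or_one i with hp | hp
            · right; congr 2; omega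
            · left; congr 2; omega
    · rintro ((h | h) | ⟨j, hj, (h | h) | (h | h)⟩)
      · exact Or.inl ⟨x, by omega, h⟩
      · exact Or.inr ⟨x, by omega, h⟩
      · exact Or.inl ⟨2 * j + e, by omega, h⟩
      · exact Or.inl ⟨2 * j + e + 1, by omega, h⟩
      · exact Or.inr ⟨2 * j + e, by omega, h⟩
      · exact Or.inr ⟨2 * j + e + 1, by omega, h⟩

/-- THE GEOMETRY G1 FOR ODD `k = 2 r + 1`: two strands with `2 r` steps, `S` first; the label `2 k`
closes the start, the label `μ` of `S` closes the end. -/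
theorem strand_odd (hk : k = 2 * r + 1) (S T : Finset ℕ) (hU : S ∪ T = Finset.Icc 1 (2 * k))
    (hA : APath w DA (2 * k - 1) (2 * r)) (hB : APath w DB (2 * k - 1) (2 * r))
    (μ : ℕ) (US UT : Finset ℕ) (σ τ : ℕ → ℕ)
    (hS : S = {μ} ∪ labS k DA r ∪ US) (hT : T = {2 * k} ∪ labT k DA r ∪ UT)
    (hσ : Set.BijOn σ (labS k DA r) US) (hτ : Set.BijOn τ (labT k DA r) UT)
    (hGS : GoodSide k {μ} (labS k DA r) σ) (hGT : GoodSide k {2 * k} (labT k DA r) τ)
    (hstS : ∀ j < r, (DA (2 * j) = DB (2 * j) ∧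
        IsUnit (ptA k DB (2 * j) + 1 - ptA k DA (2 * j))) ∨
      σ (2 * k - 1 - DA (2 * j)) = 2 * k - 1 - DB (2 * j))
    (hstT : ∀ j < r, (DA (2 * j + 1) = DB (2 * j + 1) ∧
        IsUnit (ptA k DB (2 * j + 1) + 1 - ptA k DA (2 * j + 1))) ∨
      τ (2 * k - 1 - DA (2 * j + 1)) = 2 * k - 1 - DB (2 * j + 1))
    (hμ : ptA k DB (2 * r) + 1 = ptA k DA (2 * r) + 2 * (μ : ZMod (4 * k + 1)) ∨
      ptA k DA (2 * r) = ptA k DB (2 * r) + 1 + 2 * (μ : ZMod (4 * k + 1))) :
    ∃ X : Finset (ZMod (4 * k + 1)), X.card = 2 * k ∧ EG (LSet k S) X ∧ EG (LSet k T) X := by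
  have hSsub : S ⊆ Finset.Icc 1 (2 * k) := hU ▸ Finset.subset_union_left
  have hTsub : T ⊆ Finset.Icc 1 (2 * k) := hU ▸ Finset.subset_union_right
  refine ⟨ptsAB k DA DB (2 * r + 1), ?_, ?_, ?_⟩
  · rw [card_ptsAB (by omega) hA hB]
    omega
  · have := strand_side hk hA hB 0 (2 * r) μ (Or.inl ⟨rfl, rfl⟩) US σ hσ
      (by rw [labE_zero, ← hS]; exact hSsub) hGS hstS hμ
    rwa [labE_zero, ← hS] at this
  · have h0 : ∀ D : ℕ → ℕ, ptA k D 0 = 0 := by
      intro D
      unfold ptA vpos
      rw [if_pos (by norm_num)]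
      show ((2 * slot D 0 : ℕ) : ZMod (4 * k + 1)) = 0
      simp [slot]
    have := strand_side hk hA hB 1 0 (2 * k) (Or.inr ⟨rfl, rfl⟩) UT τ hτ
      (by rw [labE_one, ← hT]; exact hTsub) hGT hstT (by
        right
        rw [h0, h0, two_mul_2k]
        ring)
    rwa [labE_one, ← hT] at this

end Pool.Agent.P45
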