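import Pool.Agent.Lib.P45dba8.AsmAny
import Pool.Agent.Lib.P45dba8.Strand

/-! # MP_45dba8: the bridge, `k` odd

A path with `k` edges; two consecutive edges with neighbouring depths are used once, by one strand
only; all later dominoes are shifted by one. -/

set_option autoImplicit false

namespace Pool.Agent.P45

variable {k : ℕ} {w : ℕ → Bool} {D : ℕ → ℕ} {i : ℕ}

/-- The shift of the dominoes after the bridge. `b` tells which strand makes the detour. -/
def ep (k : ℕ) (b : Bool) (i j : ℕ) : ZMod (4 * k + 1) := if j ≤ i then 0 else (bif b then 1 else -1)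

/-- The points of the strand with the detour. -/
def fpt (k : ℕ) (D : ℕ → ℕ) (b : Bool) (j : ℕ) : ZMod (4 * k + 1) :=
  ptA k D j + (bif b then 1 else 0)

/-- `x` belongs to the domino `j`. -/
def Wd (k : ℕ) (D : ℕ → ℕ) (b : Bool) (i j : ℕ) (x : ZMod (4 * k + 1)) : Prop :=
  x = ptA k D j + ep k b i j ∨ x = ptA k D j + ep k b i j + 1

/-- Numbers: the strand with the detour. -/
def fn (k : ℕ) (D : ℕ → ℕ) (b : Bool) (j : ℕ) : ℕ := vpos k D j + (bif b then 1 else 0)

/-- Numbers: the other strand. -/
def gn (k : ℕ) (D : ℕ → ℕ) (b : Bool) (i j : ℕ) : ℕ :=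
  if j ≤ i then vpos k D j + (bif b then 0 else 1) else
    (bif b then vpos k D j + 2 else vpos k D j - 1)

/-- The point set. -/
def brA (k : ℕ) (D : ℕ → ℕ) (b : Bool) (i : ℕ) : Finset (ZMod (4 * k + 1)) :=
  ((Finset.range (k + 1)).image (fun j => ((fn k D b j : ℕ) : ZMod (4 * k + 1)))) ∪
    (((Finset.range (k + 1)).filter (fun j => j ≤ i ∨ i + 3 ≤ j)).image
      (fun j => ((gn k D b i j : ℕ) : ZMod (4 * k + 1))))

/-- The hypotheses on the place of the bridge: `b = false`: the vertex `i + 2` is on the right of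
the vertex `i`, `b = true`: on the left; no collisions. -/
structure BrOK (k : ℕ) (w : ℕ → Bool) (D : ℕ → ℕ) (i : ℕ) (b : Bool) : Prop where
  path : APath w D (2 * k - 1) k
  odd : k % 2 = 1
  lt : i + 1 < k
  nb : bif b then vpos k D i = vpos k D (i + 2) + 2 else vpos k D (i + 2) = vpos k D i + 2
  nc : ∀ j' ≤ i, ∀ j, i + 3 ≤ j → j ≤ k →
    bif b then vpos k D j + 2 ≠ vpos k D j' else vpos k D j ≠ vpos k D j' + 2

theorem vpos_zero (k : ℕ) (D : ℕ → ℕ) : vpos k D 0 = 0 := by
  unfold vpos
  rw [if_pos (by norm_num)]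
  show 2 * slot D 0 = 0
  rfl

theorem BrOK.pos {b : Bool} (h : BrOK k w D i b) {j : ℕ} (hj : 1 ≤ j) (hjk : j ≤ k) :
    2 ≤ vpos k D j := by
  have h1 := vpos_even k D j
  have h2 : vpos k D j ≠ 0 := fun h' => by
    have := h.path.vpos_inj (k := k) le_rfl (by omega) (i := j) (j := 0) hjk (by omega)
      (by rw [h', vpos_zero])
    omega
  omega

theorem BrOK.gn_lt {b : Bool} (h : BrOK k w D i b) {j : ℕ} (hjk : j ≤ k) :
    gn k D b i j < 4 * k + 1 := by
  have h1 := h.path.vpos_lt (k := k) le_rfl (by have := h.lt; omega) hjk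
  have h2 := vpos_even k D j
  unfold gn
  cases b
  · simp only [cond_false]
    split_ifs <;> omega
  · simp only [cond_true]
    split_ifs <;> omega

theorem BrOK.gn_inj {b : Bool} (h : BrOK k w D i b) {j j' : ℕ} (hj : j ≤ k) (hj' : j' ≤ k)
    (hjJ : j ≤ i ∨ i + 3 ≤ j) (hjJ' : j' ≤ i ∨ i + 3 ≤ j') (he : gn k D b i j = gn k D b i j') :
    j = j' := by
  have key : vpos k D j = vpos k D j' → j = j' := fun h' =>
    h.path.vpos_inj (k := k) le_rfl (by have := h.lt; omega) hj hj' h'
  have hnc := h.nc
  cases b
  · simp only [cond_false] at hnc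
    unfold gn at he
    simp only [cond_false] at he
    split_ifs at he with h1 h2 h2
    · exact key (by omega)
    · exfalso
      exact hnc j h1 j' (by omega) hj' (by
        have := h.pos (show 1 ≤ j' by omega) hj'
        omega)
    · exfalso
      exact hnc j' h2 j (by omega) hj (by
        have := h.pos (show 1 ≤ j by omega) hj
        omega)
    · apply key
      have a1 := h.pos (show 1 ≤ j by omega) hj
      have a2 := h.pos (show 1 ≤ j' by omega) hj'
      omega
  · simp only [cond_true] at hnc
    unfold gn at he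
    simp only [cond_true] at he
    split_ifs at he with h1 h2 h2
    · exact key (by omega)
    · exfalso
      exact hnc j h1 j' (by omega) hj' (by omega)
    · exfalso
      exact hnc j' h2 j (by omega) hj (by omega)
    · exact key (by omega)

theorem BrOK.card {b : Bool} (h : BrOK k w D i b) : (brA k D b i).card = 2 * k := by
  have hk : 1 ≤ k := by have := h.lt; omega
  have hlt := h.lt
  unfold brA
  rw [Finset.card_union_of_disjoint, Finset.card_image_of_injOn, Finset.card_range,
    Finset.card_image_of_injOn]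
  · have e : ((Finset.range (k + 1)).filter (fun j => j ≤ i ∨ i + 3 ≤ j)).card = k - 1 := by
      have e1 : (Finset.range (k + 1)).filter (fun j => j ≤ i ∨ i + 3 ≤ j) =
          ((Finset.range (k + 1)).erase (i + 1)).erase (i + 2) := by
        ext j
        rw [Finset.mem_filter, Finset.mem_erase, Finset.mem_erase, Finset.mem_range]
        omega
      rw [e1, Finset.card_erase_of_mem, Finset.card_erase_of_mem, Finset.card_range]
      · omega
      · exact Finset.mem_range.2 (by omega)
      · exact Finset.mem_erase.2 ⟨by omega, Finset.mem_range.2 (by omega)⟩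
    rw [e]
    omega
  · intro j hj j' hj' hjj
    obtain ⟨a1, a2⟩ := Finset.mem_filter.1 (Finset.mem_coe.1 hj)
    obtain ⟨a3, a4⟩ := Finset.mem_filter.1 (Finset.mem_coe.1 hj')
    have a1' := Finset.mem_range.1 a1
    have a3' := Finset.mem_range.1 a3
    exact h.gn_inj (by omega) (by omega) a2 a4
      (cast_inj_lt (h.gn_lt (by omega)) (h.gn_lt (by omega)) hjj)
  · intro j hj j' hj' hjj
    have a1 := Finset.mem_range.1 (Finset.mem_coe.1 hj)
    have a3 := Finset.mem_range.1 (Finset.mem_coe.1 hj')
    have b1 := h.path.vpos_lt (k := k) le_rfl hk (show j ≤ k by omega)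
    have b2 := h.path.vpos_lt (k := k) le_rfl hk (show j' ≤ k by omega)
    have c1 := vpos_even k D j
    have c2 := vpos_even k D j'
    have e : fn k D b j = fn k D b j' := cast_inj_lt
      (by unfold fn; cases b <;> simp only [cond_false, cond_true] <;> omega)
      (by unfold fn; cases b <;> simp only [cond_false, cond_true] <;> omega) hjj
    refine h.path.vpos_inj (k := k) le_rfl hk (by omega) (by omega) ?_
    unfold fn at e
    omega
  · rw [Finset.disjoint_left]
    intro x hx hx'
    obtain ⟨j, hj, rfl⟩ := Finset.mem_image.1 hx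
    obtain ⟨j', hj', hjj⟩ := Finset.mem_image.1 hx'
    obtain ⟨a3, a4⟩ := Finset.mem_filter.1 hj'
    have a1' := Finset.mem_range.1 hj
    have a3' := Finset.mem_range.1 a3
    have b1 := h.path.vpos_lt (k := k) le_rfl hk (show j ≤ k by omega)
    have b2 := h.path.vpos_lt (k := k) le_rfl hk (show j' ≤ k by omega)
    have c1 := vpos_even k D j
    have c2 := vpos_even k D j'
    have e : gn k D b i j' = fn k D b j := cast_inj_lt (h.gn_lt (by omega))
      (by unfold fn; cases b <;> simp only [cond_false, cond_true] <;> omega) hjj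
    have hpos : j' ≤ i ∨ 2 ≤ vpos k D j' := by
      by_cases h1 : j' ≤ i
      · exact Or.inl h1
      · exact Or.inr (h.pos (by omega) (by omega))
    unfold gn fn at e
    cases b
    · simp only [cond_false] at e
      split_ifs at e <;> omega
    · simp only [cond_true] at e
      split_ifs at e <;> omega

/-- The pair `i` and the pair `i + 2` share a point. -/
theorem BrOK.share {b : Bool} (h : BrOK k w D i b) :
    ∃ g : ZMod (4 * k + 1), (∀ x, Wd k D b i i x ↔ (x = fpt k D b i ∨ x = g)) ∧
      (∀ x, Wd k D b i (i + 2) x ↔ (x = fpt k D b (i + 2) ∨ x = g)) := by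
  have hnb := h.nb
  cases b
  · simp only [cond_false] at hnb
    refine ⟨ptA k D i + 1, fun x => ?_, fun x => ?_⟩
    · unfold Wd ep fpt
      rw [if_pos (le_refl i)]
      simp only [cond_false, add_zero]
    · unfold Wd ep fpt
      rw [if_neg (by omega)]
      simp only [cond_false, add_zero]
      have e : ptA k D (i + 2) = ptA k D i + 2 := by
        unfold ptA
        rw [hnb]
        push_cast
        ring
      rw [e]
      constructor
      · rintro (h | h)
        · right; rw [h]; ring
        · left; rw [h]; ring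
      · rintro (h | h)
        · right; rw [h]; ring
        · left; rw [h]; ring
  · simp only [cond_true] at hnb
    refine ⟨ptA k D i, fun x => ?_, fun x => ?_⟩
    · unfold Wd ep fpt
      rw [if_pos (le_refl i)]
      simp only [cond_true, add_zero]
      exact or_comm
    · unfold Wd ep fpt
      rw [if_neg (by omega)]
      simp only [cond_true]
      have e : ptA k D i = ptA k D (i + 2) + 2 := by
        unfold ptA
        rw [hnb]
        push_cast
        ring
      rw [e]
      constructor
      · rintro (h | h)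
        · left; exact h
        · right; rw [h]; ring
      · rintro (h | h)
        · left; exact h
        · right; rw [h]; ring

theorem mem_brA {b : Bool} (h : BrOK k w D i b) (x : ZMod (4 * k + 1)) :
    x ∈ brA k D b i ↔ (∃ j ≤ k, j ≠ i + 1 ∧ Wd k D b i j x) ∨ x = fpt k D b (i + 1) := by
  have hlt := h.lt
  have hF : ∀ j, ((fn k D b j : ℕ) : ZMod (4 * k + 1)) = fpt k D b j := by
    intro j
    unfold fn fpt ptA
    cases b <;> simp
  have hG : ∀ j ≤ k, (j ≤ i ∨ i + 3 ≤ j) → ∀ x : ZMod (4 * k + 1),
      Wd k D b i j x ↔ (x = fpt k D b j ∨ x = ((gn k D b i j : ℕ) : ZMod (4 * k + 1))) := by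
    intro j hjk hj x
    unfold Wd ep gn fpt ptA
    by_cases h1 : j ≤ i
    · rw [if_pos h1, if_pos h1]
      cases b
      · simp
      · simp only [cond_true, add_zero]
        exact or_comm
    · rw [if_neg h1, if_neg h1]
      have hp := h.pos (show 1 ≤ j by omega) hjk
      cases b
      · simp only [cond_false, add_zero]
        rw [Nat.cast_sub (show 1 ≤ vpos k D j by omega)]
        constructor
        · rintro (h | h)
          · right; rw [h]; push_cast; ring
          · left; rw [h]; ring
        · rintro (h | h)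
          · right; rw [h]; ring
          · left; rw [h]; push_cast; ring
      · simp only [cond_true]
        constructor
        · rintro (h | h)
          · left; exact h
          · right; rw [h]; push_cast; ring
        · rintro (h | h)
          · left; exact h
          · right; rw [h]; push_cast; ring
  obtain ⟨g, g1, g2⟩ := h.share
  unfold brA
  rw [Finset.mem_union, Finset.mem_image, Finset.mem_image]
  constructor
  · rintro (⟨j, hj, rfl⟩ | ⟨j, hj, rfl⟩)
    · have hj' := Finset.mem_range.1 hj
      by_cases h1 : j = i + 1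
      · right
        rw [h1]
        exact hF _
      · left
        refine ⟨j, by omega, h1, ?_⟩
        by_cases h2 : j = i + 2
        · rw [h2, g2]
          exact Or.inl (hF _)
        · rw [hG j (by omega) (by omega)]
          exact Or.inl (hF _)
    · obtain ⟨a1, a2⟩ := Finset.mem_filter.1 hj
      have a1' := Finset.mem_range.1 a1
      left
      refine ⟨j, by omega, by omega, ?_⟩
      rw [hG j (by omega) a2]
      exact Or.inr rfl
  · rintro (⟨j, hj, h1, h2⟩ | h1)
    · by_cases h3 : j = i + 2
      · rw [h3, g2] at h2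
        rcases h2 with h2 | h2
        · left
          exact ⟨i + 2, Finset.mem_range.2 (by omega), by rw [h2, hF]⟩
        · have h4 := (g1 x).2 (Or.inr h2)
          rw [hG i (by omega) (Or.inl le_rfl)] at h4
          rcases h4 with h4 | h4
          · left
            exact ⟨i, Finset.mem_range.2 (by omega), by rw [h4, hF]⟩
          · right
            exact ⟨i, Finset.mem_filter.2 ⟨Finset.mem_range.2 (by omega), Or.inl le_rfl⟩, h4.symm⟩
      · have hJ : j ≤ i ∨ i + 3 ≤ j := by omega
        rw [hG j hj hJ] at h2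
        rcases h2 with h2 | h2
        · left
          exact ⟨j, Finset.mem_range.2 (by omega), by rw [h2, hF]⟩
        · right
          exact ⟨j, Finset.mem_filter.2 ⟨Finset.mem_range.2 (by omega), hJ⟩, h2.symm⟩
    · left
      exact ⟨i + 1, Finset.mem_range.2 (by omega), by rw [h1, hF]⟩

/-- The point set with the step `a ∈ {i, i + 1}` singled out. -/
theorem mem_brA' {b : Bool} (h : BrOK k w D i b) (a : ℕ) (ha : a = i ∨ a = i + 1)
    (x : ZMod (4 * k + 1)) : x ∈ brA k D b i ↔ (∃ j ≤ k, j ≠ a ∧ j ≠ a + 1 ∧ Wd k D b i j x) ∨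
      x = fpt k D b a ∨ x = fpt k D b (a + 1) := by
  have hlt := h.lt
  obtain ⟨g, g1, g2⟩ := h.share
  rw [mem_brA h]
  rcases ha with rfl | rfl
  · constructor
    · rintro (⟨j, h1, h2, h3⟩ | h1)
      · by_cases h4 : j = a
        · rw [h4, g1] at h3
          rcases h3 with h3 | h3
          · exact Or.inr (Or.inl h3)
          · exact Or.inl ⟨a + 2, by omega, by omega, by omega, (g2 x).2 (Or.inr h3)⟩
        · exact Or.inl ⟨j, h1, h4, h2, h3⟩
      · exact Or.inr (Or.inr h1)
    · rintro (⟨j, h1, h2, h3, h4⟩ | h1 | h1)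
      · exact Or.inl ⟨j, h1, h3, h4⟩
      · exact Or.inl ⟨a, by omega, by omega, (g1 x).2 (Or.inl h1)⟩
      · exact Or.inr h1
  · constructor
    · rintro (⟨j, h1, h2, h3⟩ | h1)
      · by_cases h4 : j = i + 2
        · rw [h4, g2] at h3
          rcases h3 with h3 | h3
          · exact Or.inr (Or.inr h3)
          · exact Or.inl ⟨i, by omega, by omega, by omega, (g1 x).2 (Or.inr h3)⟩
        · exact Or.inl ⟨j, h1, h2, h4, h3⟩
      · exact Or.inr (Or.inl h1)
    · rintro (⟨j, h1, h2, h3, h4⟩ | h1 | h1)
      · exact Or.inl ⟨j, h1, h2, h4⟩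
      · exact Or.inr h1
      · exact Or.inl ⟨i + 2, by omega, by omega, (g2 x).2 (Or.inl h1)⟩

/-- The labels of the doubled steps of the parity `e`, `a` being the single step. -/
def brK (k : ℕ) (D : ℕ → ℕ) (e a : ℕ) : Finset ℕ :=
  ((Finset.range k).filter (fun j => j % 2 = e ∧ j ≠ a)).image (fun j => 2 * k - 1 - D j)

/-- The doubled steps and the single step in the form of `sideM`. -/
theorem BrOK.sideM_iff {b : Bool} (h : BrOK k w D i b) (e a : ℕ) (ha : a = i ∨ a = i + 1)
    (hae : a % 2 = e) : ∃ (p : ℕ → ZMod (4 * k + 1)) (qs : ZMod (4 * k + 1)), ∀ x,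
      sideM k {2 * k - 1 - D a} (brK k D e a) ∅ id (fun _ => qs) p p x ↔
        (∃ j < k, j % 2 = e ∧ j ≠ a ∧ (Wd k D b i j x ∨ Wd k D b i (j + 1) x)) ∨
          x = fpt k D b a ∨ x = fpt k D b (a + 1) := by
  classical
  have hlt := h.lt
  have hk1 : 1 ≤ k := by omega
  have hidx : ∀ d ∈ brK k D e a, ∃ j < k, j % 2 = e ∧ j ≠ a ∧ d = 2 * k - 1 - D j := by
    intro d hd
    obtain ⟨j, hj, h1⟩ := Finset.mem_image.1 hd
    obtain ⟨h2, h3, h4⟩ := Finset.mem_filter.1 hj
    exact ⟨j, Finset.mem_range.1 h2, h3, h4, h1.symm⟩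
  have huniq : ∀ j < k, ∀ j' < k, 2 * k - 1 - D j = 2 * k - 1 - D j' → j = j' := by
    intro j hj j' hj' hjj
    have h1 := h.path.lt j hj
    have h2 := h.path.lt j' hj'
    exact h.path.inj j hj j' hj' (by omega)
  choose! f hf1 hf2 hf3 hf4 using hidx
  have hmem : ∀ j < k, j % 2 = e → j ≠ a → 2 * k - 1 - D j ∈ brK k D e a := fun j h1 h2 h3 =>
    Finset.mem_image_of_mem (fun j => 2 * k - 1 - D j)
      (Finset.mem_filter.2 ⟨Finset.mem_range.2 h1, h2, h3⟩)
  have hfj : ∀ j < k, j % 2 = e → j ≠ a → f (2 * k - 1 - D j) = j := by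
    intro j h1 h2 h3
    have hm := hmem j h1 h2 h3
    exact huniq _ (hf1 _ hm) _ h1 (hf4 _ hm).symm
  -- a doubled step
  have key : ∀ j < k, j % 2 = e → j ≠ a → ∀ x : ZMod (4 * k + 1),
      (Wd k D b i j x ∨ Wd k D b i (j + 1) x) ↔
        (x = lend k D k (2 * k - 1 - D j) + ep k b i j ∨
          x = lend k D k (2 * k - 1 - D j) + ep k b i j +
            2 * ((2 * k - 1 - D j : ℕ) : ZMod (4 * k + 1)) ∨
          x = lend k D k (2 * k - 1 - D j) + ep k b i j + 1 ∨
          x = lend k D k (2 * k - 1 - D j) + ep k b i j +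
            2 * ((2 * k - 1 - D j : ℕ) : ZMod (4 * k + 1)) + 1) := by
    intro j h1 h2 h3 x
    have hep : ep k b i (j + 1) = ep k b i j := by
      unfold ep
      by_cases h4 : j ≤ i
      · rw [if_pos h4, if_pos (by omega)]
      · rw [if_neg h4, if_neg (by omega)]
    have e1 := h.path.ends_iff hk1 h1 (ep k b i j) x
    have e2 := h.path.ends_iff hk1 h1 (ep k b i j + 1) x
    unfold Wd
    rw [hep]
    constructor
    · rintro ((h5 | h5) | (h5 | h5))
      · rcases e1.1 (Or.inl h5) with h6 | h6
        · exact Or.inl h6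
        · exact Or.inr (Or.inl h6)
      · rcases e2.1 (Or.inl (by rw [h5]; ring)) with h6 | h6
        · exact Or.inr (Or.inr (Or.inl (by rw [h6]; ring)))
        · exact Or.inr (Or.inr (Or.inr (by rw [h6]; ring)))
      · rcases e1.1 (Or.inr h5) with h6 | h6
        · exact Or.inl h6
        · exact Or.inr (Or.inl h6)
      · rcases e2.1 (Or.inr (by rw [h5]; ring)) with h6 | h6
        · exact Or.inr (Or.inr (Or.inl (by rw [h6]; ring)))
        · exact Or.inr (Or.inr (Or.inr (by rw [h6]; ring)))
    · rintro (h5 | h5 | h5 | h5)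
      · rcases e1.2 (Or.inl h5) with h6 | h6
        · exact Or.inl (Or.inl h6)
        · exact Or.inr (Or.inl h6)
      · rcases e1.2 (Or.inr h5) with h6 | h6
        · exact Or.inl (Or.inl h6)
        · exact Or.inr (Or.inl h6)
      · rcases e2.2 (Or.inl (by rw [h5]; ring)) with h6 | h6
        · exact Or.inl (Or.inr (by rw [h6]; ring))
        · exact Or.inr (Or.inr (by rw [h6]; ring))
      · rcases e2.2 (Or.inr (by rw [h5]; ring)) with h6 | h6
        · exact Or.inl (Or.inr (by rw [h6]; ring))
        · exact Or.inr (Or.inr (by rw [h6]; ring))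
  have e0 := h.path.ends_iff hk1 (show a < k by omega) (bif b then 1 else 0)
  refine ⟨fun d => lend k D k d + ep k b i (f d),
    lend k D k (2 * k - 1 - D a) + (bif b then 1 else 0), fun x => ?_⟩
  unfold sideM
  constructor
  · rintro (⟨s, hs, h1⟩ | ⟨d, hd, h1⟩ | ⟨d, hd, -⟩)
    · rw [Finset.mem_singleton] at hs
      rw [hs] at h1
      right
      exact (e0 x).2 h1
    · left
      refine ⟨f d, hf1 d hd, hf2 d hd, hf3 d hd, ?_⟩
      rw [key (f d) (hf1 d hd) (hf2 d hd) (hf3 d hd), ← hf4 d hd]
      exact h1
    · exact absurd hd (Finset.notMem_empty _)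
  · rintro (⟨j, h1, h2, h3, h4⟩ | h1)
    · right; left
      refine ⟨2 * k - 1 - D j, hmem j h1 h2 h3, ?_⟩
      rw [key j h1 h2 h3] at h4
      show x = lend k D k (2 * k - 1 - D j) + ep k b i (f (2 * k - 1 - D j)) ∨
        x = lend k D k (2 * k - 1 - D j) + ep k b i (f (2 * k - 1 - D j)) +
          2 * ((2 * k - 1 - D j : ℕ) : ZMod (4 * k + 1)) ∨
        x = lend k D k (2 * k - 1 - D j) + ep k b i (f (2 * k - 1 - D j)) + 1 ∨
        x = lend k D k (2 * k - 1 - D j) + ep k b i (f (2 * k - 1 - D j)) +
          2 * ((2 * k - 1 - D j : ℕ) : ZMod (4 * k + 1)) + 1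
      rw [hfj j h1 h2 h3]
      exact h4
    · left
      refine ⟨2 * k - 1 - D a, Finset.mem_singleton_self _, ?_⟩
      exact (e0 x).1 h1

theorem brK_card {b : Bool} (h : BrOK k w D i b) (e a : ℕ) (ha : a = i ∨ a = i + 1)
    (hae : a % 2 = e) : 2 * (brK k D e a).card + 1 + 2 * e = k := by
  have hlt := h.lt
  have hodd := h.odd
  unfold brK
  rw [Finset.card_image_of_injOn]
  · have e1 : (Finset.range k).filter (fun j => j % 2 = e ∧ j ≠ a) =
        ((Finset.range k).filter (fun j => j % 2 = e)).erase a := by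
      ext j
      rw [Finset.mem_filter, Finset.mem_erase, Finset.mem_filter]
      tauto
    have hma : a ∈ (Finset.range k).filter (fun j => j % 2 = e) :=
      Finset.mem_filter.2 ⟨Finset.mem_range.2 (by omega), hae⟩
    rw [e1, Finset.card_erase_of_mem hma]
    have e2 : ((Finset.range k).filter (fun j => j % 2 = e)).card = (k - e + 1) / 2 := by
      have he : e < 2 := by omega
      have e3 : (Finset.range k).filter (fun j => j % 2 = e) =
          (Finset.range ((k - e + 1) / 2)).image (fun j => 2 * j + e) := by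
        ext j
        rw [Finset.mem_filter, Finset.mem_image, Finset.mem_range]
        constructor
        · rintro ⟨h1, h2⟩
          exact ⟨j / 2, Finset.mem_range.2 (by omega), by omega⟩
        · rintro ⟨i, h1, rfl⟩
          have := Finset.mem_range.1 h1
          omega
      rw [e3, Finset.card_image_of_injective _ (fun a b hab => by
        have hab' : 2 * a + e = 2 * b + e := hab
        omega), Finset.card_range]
    rw [e2]
    omega
  · intro j hj j' hj' hjj
    obtain ⟨a1, -⟩ := Finset.mem_filter.1 (Finset.mem_coe.1 hj)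
    obtain ⟨a3, -⟩ := Finset.mem_filter.1 (Finset.mem_coe.1 hj')
    have a1' := Finset.mem_range.1 a1
    have a3' := Finset.mem_range.1 a3
    have h1 := h.path.lt j a1'
    have h2 := h.path.lt j' a3'
    have hjj' : 2 * k - 1 - D j = 2 * k - 1 - D j' := hjj
    exact h.path.inj j a1' j' a3' (by omega)

/-- The side `S` of the bridge; `a` is the single step, of even index. -/
theorem bridge_S {b : Bool} (h : BrOK k w D i b) (a : ℕ) (ha : a = i ∨ a = i + 1)
    (hae : a % 2 = 0) (U : Finset ℕ) (σ : ℕ → ℕ) (hσ : Set.BijOn σ (brK k D 0 a) U)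
    (hsub : {2 * k - 1 - D a} ∪ brK k D 0 a ∪ U ⊆ Finset.Icc 1 (2 * k))
    (hG : GoodSide k {2 * k - 1 - D a} (brK k D 0 a) σ) :
    EG (LSet k ({2 * k - 1 - D a} ∪ brK k D 0 a ∪ U)) (brA k D b i) := by
  classical
  have hlt := h.lt
  have hodd := h.odd
  obtain ⟨p, qs, hM⟩ := h.sideM_iff 0 a ha hae
  have hc := brK_card h 0 a ha hae
  have e1 : brK k D 0 a ∪ ∅ = brK k D 0 a := Finset.union_empty _
  have key := sideEG (k := k) (I := {2 * k - 1 - D a}) (D := brK k D 0 a) (D' := ∅) (U := U)
    (σ := σ) (by rw [e1]; exact hsub) (Finset.disjoint_empty_right _) (by rw [e1]; exact hσ)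
    (by rw [e1]; exact hG) (fun _ => qs) p p (brA k D b i)
    (by rw [h.card, Finset.card_singleton, Finset.card_empty]; omega)
    (fun x => by
      have hM' : sideM k {2 * k - 1 - D a} (brK k D 0 a) ∅ σ (fun _ => qs) p p x ↔
          sideM k {2 * k - 1 - D a} (brK k D 0 a) ∅ id (fun _ => qs) p p x := by
        unfold sideM
        simp only [Finset.notMem_empty, false_and, exists_false, or_false]
      rw [hM', hM, mem_brA' h a ha]
      constructor
      · rintro (⟨j, h1, h2, h3, h4⟩ | h1)
        · left
          rcases Nat.mod_two_eq_zero_or_one j with hp | hp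
          · exact ⟨j, by omega, hp, h2, Or.inl h4⟩
          · refine ⟨j - 1, by omega, by omega, by omega, Or.inr ?_⟩
            rw [show j - 1 + 1 = j by omega]
            exact h4
        · exact Or.inr h1
      · rintro (⟨j, h1, h2, h3, h4 | h4⟩ | h1)
        · exact Or.inl ⟨j, by omega, h3, by omega, h4⟩
        · exact Or.inl ⟨j + 1, by omega, by omega, by omega, h4⟩
        · exact Or.inr h1)
  rw [e1] at key
  exact key

/-- The side `T` of the bridge; `a` is the single step, of odd index. -/
theorem bridge_T {b : Bool} (h : BrOK k w D i b) (a : ℕ) (ha : a = i ∨ a = i + 1)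
    (hae : a % 2 = 1) (U : Finset ℕ) (u₀ : ℕ) (hu1 : 1 ≤ u₀) (hu2 : u₀ < 2 * k) (σ : ℕ → ℕ)
    (hσ : Set.BijOn σ (brK k D 1 a) U)
    (hsub : {2 * k - 1 - D a} ∪ brK k D 1 a ∪ U ⊆ Finset.Icc 1 (2 * k))
    (hG : GoodSide k {2 * k - 1 - D a} (brK k D 1 a) σ) :
    EG (LSet k ({2 * k - 1 - D a} ∪ brK k D 1 a ∪ U ∪ {2 * k, u₀})) (brA k D b i) := by
  classical
  have hlt := h.lt
  have hodd := h.odd
  obtain ⟨p, qs, hM⟩ := h.sideM_iff 1 a ha hae
  have hc := brK_card h 1 a ha hae
  have e1 : brK k D 1 a ∪ ∅ = brK k D 1 a := Finset.union_empty _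
  have hp0 : ptA k D 0 + ep k b i 0 = 0 := by
    unfold ptA ep
    rw [vpos_zero, if_pos (Nat.zero_le i)]
    simp
  have hw : ptA k D k + ep k b i k ≠ ptA k D 0 + ep k b i 0 := by
    rw [hp0]
    have h1 := h.pos (show 1 ≤ k by omega) le_rfl
    have h2 := h.path.vpos_lt (k := k) le_rfl (by omega) (le_refl k)
    unfold ptA ep
    rw [if_neg (by omega)]
    intro h3
    cases b
    · simp only [cond_false] at h3
      have h4 : ((vpos k D k - 1 : ℕ) : ZMod (4 * k + 1)) = ((0 : ℕ) : ZMod (4 * k + 1)) := by
        rw [Nat.cast_sub (by omega)]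
        push_cast
        rw [← h3]
        ring
      have := cast_inj_lt (by omega) (by omega) h4
      omega
    · simp only [cond_true] at h3
      have h4 : ((vpos k D k + 1 : ℕ) : ZMod (4 * k + 1)) = ((0 : ℕ) : ZMod (4 * k + 1)) := by
        push_cast
        exact h3
      have := cast_inj_lt (by omega) (by omega) h4
      omega
  have key := sideEG_two_any (k := k) (I := {2 * k - 1 - D a}) (D := brK k D 1 a) (D' := ∅)
    (U := U) (σ := σ) (by omega) (by rw [e1]; exact hsub) (Finset.disjoint_empty_right _)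
    (by rw [e1]; exact hσ) (by rw [e1]; exact hG) u₀ hu1 hu2 (fun _ => qs) p p
    (ptA k D 0 + ep k b i 0) (ptA k D k + ep k b i k) hw (brA k D b i)
    (by rw [h.card, Finset.card_singleton, Finset.card_empty]; omega)
    (fun x => by
      have hM' : sideM k {2 * k - 1 - D a} (brK k D 1 a) ∅ σ (fun _ => qs) p p x ↔
          sideM k {2 * k - 1 - D a} (brK k D 1 a) ∅ id (fun _ => qs) p p x := by
        unfold sideM
        simp only [Finset.notMem_empty, false_and, exists_false, or_false]
      rw [hM', hM, mem_brA' h a ha]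
      constructor
      · rintro (⟨j, h1, h2, h3, h4⟩ | h1)
        · by_cases h5 : j = 0
          · rw [h5] at h4
            rcases h4 with h4 | h4
            · exact Or.inr (Or.inl h4)
            · exact Or.inr (Or.inr (Or.inl h4))
          by_cases h6 : j = k
          · rw [h6] at h4
            rcases h4 with h4 | h4
            · exact Or.inr (Or.inr (Or.inr (Or.inl h4)))
            · exact Or.inr (Or.inr (Or.inr (Or.inr h4)))
          left; left
          rcases Nat.mod_two_eq_zero_or_one j with hp | hp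
          · refine ⟨j - 1, by omega, by omega, by omega, Or.inr ?_⟩
            rw [show j - 1 + 1 = j by omega]
            exact h4
          · exact ⟨j, by omega, hp, h2, Or.inl h4⟩
        · exact Or.inl (Or.inr h1)
      · rintro ((⟨j, h1, h2, h3, h4 | h4⟩ | h1) | h1 | h1 | h1 | h1)
        · exact Or.inl ⟨j, by omega, h3, by omega, h4⟩
        · exact Or.inl ⟨j + 1, by omega, by omega, by omega, h4⟩
        · exact Or.inr h1
        · exact Or.inl ⟨0, by omega, by omega, by omega, Or.inl h1⟩
        · exact Or.inl ⟨0, by omega, by omega, by omega, Or.inr h1⟩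
        · exact Or.inl ⟨k, by omega, by omega, by omega, Or.inl h1⟩
        · exact Or.inl ⟨k, by omega, by omega, by omega, Or.inr h1⟩)
  rw [e1] at key
  exact key

end Pool.Agent.P45
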