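import Mathlib

/-! # MP_45dba8, `n = 45`: some unit has autocorrelation `< 3`

The sum of `C(y)` over the three lifts `y, y + 15, y + 30` is the autocorrelation of the class sums
modulo 15; the class sums are `± 1, ± 3` (and `± 2` for the class `0`), and one of the four values
at `y = 1, 2, 4, 7` is `< 9` for all patterns (kernel computation). -/

set_option autoImplicit false
set_option linter.unusedSimpArgs false

open Finset

namespace Pool.Agent.P45

/-- The finite check for `n = 45`. -/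
def chk45 (h a b c d e f : ℤ) : Bool :=
  decide (9 < (h + (a + b + c + d + e + f)) * (h + (a + b + c + d + e + f))) ||
  (let g := -(h + (a + b + c + d + e + f)); let z := 2 * h
   decide (2 * (z * a + a * b + b * c + c * d + d * e + e * f + f * g) + g * g < 9) ||
   decide (2 * (z * b + a * c + b * d + c * e + d * f + e * g + f * g) + a * a < 9) ||
   decide (2 * (z * d + a * e + b * f + c * g + d * g + e * f + a * c) + b * b < 9) ||
   decide (2 * (z * g + a * g + b * f + c * e + f * a + e * b + d * c) + d * d < 9))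

def L45 : List ℤ := [-3, -1, 1, 3]

theorem chk45_all : ([(-1 : ℤ), 1].all fun h => L45.all fun a => L45.all fun b => L45.all fun c =>
    L45.all fun d => L45.all fun e => L45.all fun f => chk45 h a b c d e f) = true := by
  decide +kernel

theorem chk45_spec {h a b c d e f g : ℤ} (hh : h = -1 ∨ h = 1) (ha : a ∈ L45) (hb : b ∈ L45)
    (hc : c ∈ L45) (hd : d ∈ L45) (he : e ∈ L45) (hf : f ∈ L45) (hg : g ∈ L45)
    (hsum : h + (a + b + c + d + e + f) + g = 0) :
    2 * (2 * h * a + a * b + b * c + c * d + d * e + e * f + f * g) + g * g < 9 ∨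
    2 * (2 * h * b + a * c + b * d + c * e + d * f + e * g + f * g) + a * a < 9 ∨
    2 * (2 * h * d + a * e + b * f + c * g + d * g + e * f + a * c) + b * b < 9 ∨
    2 * (2 * h * g + a * g + b * f + c * e + f * a + e * b + d * c) + d * d < 9 := by
  have h1 := chk45_all
  simp only [List.all_eq_true] at h1
  have h2 := h1 h (by rcases hh with rfl | rfl <;> simp) a ha b hb c hc d hd e he f hf
  have hg' : g = -(h + (a + b + c + d + e + f)) := by linarith
  have hg9 : ¬ 9 < (h + (a + b + c + d + e + f)) * (h + (a + b + c + d + e + f)) := by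
    have : (h + (a + b + c + d + e + f)) * (h + (a + b + c + d + e + f)) = g * g := by
      rw [hg']; ring
    rw [this]
    simp only [L45, List.mem_cons, List.not_mem_nil, or_false] at hg
    rcases hg with rfl | rfl | rfl | rfl <;> norm_num
  unfold chk45 at h2
  simp only [Bool.or_eq_true, decide_eq_true_eq, ← hg'] at h2
  tauto

theorem corr45 (f : ZMod 45 → ℝ) (h0 : f 0 = 0) (heven : ∀ x, f (-x) = f x)
    (hf : ∀ x, x ≠ 0 → f x = 1 ∨ f x = -1) (hsum : ∑ x, f x = 0) :
    ∃ u : (ZMod 45)ˣ, ∑ x, f x * f (x + u) < 3 := by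
  by_contra hcon
  push Not at hcon
  -- class sums
  let S : ZMod 45 → ℝ := fun x => f x + f (x + 15) + f (x + 30)
  have hS : ∀ x, S x = f x + f (x + 15) + f (x + 30) := fun _ => rfl
  have hper : ∀ x, S (x + 15) = S x := by
    intro x
    rw [hS, hS, add_assoc x 15 15, add_assoc x 15 30,
      show (15 : ZMod 45) + 15 = 30 by decide, show (15 : ZMod 45) + 30 = 0 by decide, add_zero]
    ring
  have hSe : ∀ x, S (-x) = S x := by
    intro x
    rw [hS, hS, ← heven (-x + 15), ← heven (-x + 30), heven x,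
      show -(-x + 15) = x + 30 by rw [neg_add, neg_neg, show (-15 : ZMod 45) = 30 by decide],
      show -(-x + 30) = x + 15 by rw [neg_add, neg_neg, show (-30 : ZMod 45) = 15 by decide]]
    ring
  -- the three lifts
  have hlift : ∀ y : ZMod 45, IsUnit y → IsUnit (y + 15) → IsUnit (y + 30) →
      27 ≤ ∑ x, S x * S (x + y) := by
    intro y h1 h2 h3
    have g1 := hcon h1.unit
    have g2 := hcon h2.unit
    have g3 := hcon h3.unit
    rw [IsUnit.unit_spec] at g1 g2 g3
    have k1 : ∑ x, f x * S (x + y) = ∑ x, f x * f (x + y) + ∑ x, f x * f (x + (y + 15))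
        + ∑ x, f x * f (x + (y + 30)) := by
      rw [← sum_add_distrib, ← sum_add_distrib]
      refine sum_congr rfl fun x _ => ?_
      rw [hS, add_assoc x y 15, add_assoc x y 30]
      ring
    have k2 : ∀ t : ZMod 45, (∀ x, S (x + t) = S x) →
        ∑ x, f (x + t) * S (x + y) = ∑ x, f x * S (x + y) := by
      intro t ht
      have : ∑ x, f (x + t) * S (x + t + y) = ∑ x, f x * S (x + y) :=
        Fintype.sum_equiv (Equiv.addRight t) _ _ fun x => rfl
      rw [← this]
      refine sum_congr rfl fun x _ => ?_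
      rw [show x + t + y = x + y + t by ring, ht]
    have k3 : ∑ x, S x * S (x + y) = 3 * ∑ x, f x * S (x + y) := by
      have e1 := k2 15 hper
      have e2 := k2 30 (fun x => by
        rw [show x + 30 = x + 15 + 15 by rw [add_assoc, show (15 : ZMod 45) + 15 = 30 by decide],
          hper, hper])
      have e3 : ∑ x, S x * S (x + y) = ∑ x, f x * S (x + y) + ∑ x, f (x + 15) * S (x + y)
          + ∑ x, f (x + 30) * S (x + y) := by
        rw [← sum_add_distrib, ← sum_add_distrib]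
        refine sum_congr rfl fun x _ => ?_
        nth_rewrite 1 [hS]
        ring
      rw [e3, e1, e2]
      ring
    rw [k3, k1]
    linarith
  have hu : ∀ m : ℕ, m.Coprime 45 → IsUnit (m : ZMod 45) := fun m h =>
    (ZMod.isUnit_iff_coprime m 45).2 h
  have c1 := hlift 1 (by have := hu 1 (by norm_num); simpa using this)
    (by have := hu 16 (by norm_num); exact this) (by have := hu 31 (by norm_num); exact this)
  have c2 := hlift 2 (by have := hu 2 (by norm_num); exact this)
    (by have := hu 17 (by norm_num); exact this) (by have := hu 32 (by norm_num); exact this)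
  have c4 := hlift 4 (by have := hu 4 (by norm_num); exact this)
    (by have := hu 19 (by norm_num); exact this) (by have := hu 34 (by norm_num); exact this)
  have c7 := hlift 7 (by have := hu 7 (by norm_num); exact this)
    (by have := hu 22 (by norm_num); exact this) (by have := hu 37 (by norm_num); exact this)
  let σ : ℕ → ℝ := fun k => S ((k : ℕ) : ZMod 45)
  have hσ : ∀ k, σ k = S ((k : ℕ) : ZMod 45) := fun _ => rfl
  have hσp : ∀ k, σ (k + 15) = σ k := by
    intro k
    rw [hσ, hσ, Nat.cast_add]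
    exact hper _
  have hσe : ∀ j k : ℕ, j + k = 15 → σ j = σ k := by
    intro j k hjk
    rw [hσ, hσ, ← hSe]
    have h1 : (-(j : ZMod 45)) = (k : ZMod 45) + 15 + 15 := by
      have h2 : ((j + k : ℕ) : ZMod 45) = ((15 : ℕ) : ZMod 45) := by rw [hjk]
      have h3 : (45 : ZMod 45) = 0 := by decide
      push_cast at h2
      linear_combination (-1 : ZMod 45) * h2 - h3
    rw [h1, hper, hper]
  have w8 : σ 8 = σ 7 := hσe 8 7 rfl
  have w9 : σ 9 = σ 6 := hσe 9 6 rfl
  have w10 : σ 10 = σ 5 := hσe 10 5 rfl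
  have w11 : σ 11 = σ 4 := hσe 11 4 rfl
  have w12 : σ 12 = σ 3 := hσe 12 3 rfl
  have w13 : σ 13 = σ 2 := hσe 13 2 rfl
  have w14 : σ 14 = σ 1 := hσe 14 1 rfl
  have w15 : σ 15 = σ 0 := hσp 0
  have w16 : σ 16 = σ 1 := hσp 1
  have w17 : σ 17 = σ 2 := hσp 2
  have w18 : σ 18 = σ 3 := hσp 3
  have w19 : σ 19 = σ 4 := hσp 4
  have w20 : σ 20 = σ 5 := hσp 5
  have w21 : σ 21 = σ 6 := hσp 6
  have hexp : ∀ y : ℕ, ∑ x, S x * S (x + (y : ZMod 45)) = ∑ i ∈ range 45, σ i * σ (i + y) := by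
    intro y
    have h1 := Fin.sum_univ_eq_sum_range (fun i => σ i * σ (i + y)) 45
    rw [← h1]
    refine Fintype.sum_congr _ _ fun x => ?_
    have h2 : ((ZMod.val x : ℕ) : ZMod 45) = x := ZMod.natCast_zmod_val x
    show S x * S (x + y) = S ((ZMod.val x : ℕ) : ZMod 45) * S (((ZMod.val x + y : ℕ)) : ZMod 45)
    rw [Nat.cast_add, h2]
  have hthree : ∀ g : ℕ → ℝ, (∀ k, g (k + 15) = g k) →
      ∑ i ∈ range 45, g i = 3 * ∑ i ∈ range 15, g i := by
    intro g hg
    rw [show (45 : ℕ) = 15 + 15 + 15 by norm_num, sum_range_add, sum_range_add]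
    have e1 : ∑ x ∈ range 15, g (15 + x) = ∑ x ∈ range 15, g x :=
      sum_congr rfl fun x _ => by rw [add_comm, hg]
    have e2 : ∑ x ∈ range 15, g (15 + 15 + x) = ∑ x ∈ range 15, g x :=
      sum_congr rfl fun x _ => by rw [add_comm, ← add_assoc, hg, hg]
    rw [e1, e2]
    ring
  have hσp2 : ∀ y k, σ (k + 15) * σ (k + 15 + y) = σ k * σ (k + y) := by
    intro y k
    rw [hσp, show k + 15 + y = k + y + 15 by ring, hσp]
  have E1 : ∑ i ∈ range 45, σ i * σ (i + 1) = 6 * (σ 0 * σ 1) + 6 * (σ 1 * σ 2) + 6 * (σ 2 * σ 3) + 6 * (σ 3 * σ 4) + 6 * (σ 4 * σ 5) + 6 * (σ 5 * σ 6) + 6 * (σ 6 * σ 7) + 3 * (σ 7 * σ 7) := by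
    rw [hthree _ (hσp2 1)]
    simp only [sum_range_succ, range_zero, sum_empty, zero_add, Nat.reduceAdd]
    simp only [w8, w9, w10, w11, w12, w13, w14, w15, w16, w17, w18, w19, w20, w21]
    ring
  have E2 : ∑ i ∈ range 45, σ i * σ (i + 2) = 6 * (σ 0 * σ 2) + 3 * (σ 1 * σ 1) + 6 * (σ 1 * σ 3) + 6 * (σ 2 * σ 4) + 6 * (σ 3 * σ 5) + 6 * (σ 4 * σ 6) + 6 * (σ 5 * σ 7) + 6 * (σ 6 * σ 7) := by
    rw [hthree _ (hσp2 2)]
    simp only [sum_range_succ, range_zero, sum_empty, zero_add, Nat.reduceAdd]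
    simp only [w8, w9, w10, w11, w12, w13, w14, w15, w16, w17, w18, w19, w20, w21]
    ring
  have E4 : ∑ i ∈ range 45, σ i * σ (i + 4) = 6 * (σ 0 * σ 4) + 6 * (σ 1 * σ 3) + 6 * (σ 1 * σ 5) + 3 * (σ 2 * σ 2) + 6 * (σ 2 * σ 6) + 6 * (σ 3 * σ 7) + 6 * (σ 4 * σ 7) + 6 * (σ 5 * σ 6) := by
    rw [hthree _ (hσp2 4)]
    simp only [sum_range_succ, range_zero, sum_empty, zero_add, Nat.reduceAdd]
    simp only [w8, w9, w10, w11, w12, w13, w14, w15, w16, w17, w18, w19, w20, w21]
    ring
  have E7 : ∑ i ∈ range 45, σ i * σ (i + 7) = 6 * (σ 0 * σ 7) + 6 * (σ 1 * σ 6) + 6 * (σ 1 * σ 7) + 6 * (σ 2 * σ 5) + 6 * (σ 2 * σ 6) + 6 * (σ 3 * σ 4) + 6 * (σ 3 * σ 5) + 3 * (σ 4 * σ 4) := by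
    rw [hthree _ (hσp2 7)]
    simp only [sum_range_succ, range_zero, sum_empty, zero_add, Nat.reduceAdd]
    simp only [w8, w9, w10, w11, w12, w13, w14, w15, w16, w17, w18, w19, w20, w21]
    ring
  have ey : ∀ y : ℕ, 27 ≤ ∑ x, S x * S (x + (y : ZMod 45)) → 27 ≤ ∑ i ∈ range 45, σ i * σ (i + y) := by
    intro y h
    rw [← hexp]
    exact h
  have d1 := ey 1 (by simpa using c1)
  have d2 := ey 2 (by simpa using c2)
  have d4 := ey 4 (by simpa using c4)
  have d7 := ey 7 (by simpa using c7)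
  rw [E1] at d1
  rw [E2] at d2
  rw [E4] at d4
  rw [E7] at d7
  -- the values of the class sums
  have hval : ∀ k : ℕ, (k : ZMod 45) ≠ 0 → (k : ZMod 45) + 15 ≠ 0 → (k : ZMod 45) + 30 ≠ 0 →
      ∃ a ∈ L45, σ k = ((a : ℤ) : ℝ) := by
    intro k h1 h2 h3
    have e1 := hf _ h1
    have e2 := hf _ h2
    have e3 := hf _ h3
    rw [hσ, hS]
    rcases e1 with e1 | e1 <;> rcases e2 with e2 | e2 <;> rcases e3 with e3 | e3 <;>
      rw [e1, e2, e3]
    · exact ⟨3, by simp [L45], by norm_num⟩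
    · exact ⟨1, by simp [L45], by norm_num⟩
    · exact ⟨1, by simp [L45], by norm_num⟩
    · exact ⟨-1, by simp [L45], by norm_num⟩
    · exact ⟨1, by simp [L45], by norm_num⟩
    · exact ⟨-1, by simp [L45], by norm_num⟩
    · exact ⟨-1, by simp [L45], by norm_num⟩
    · exact ⟨-3, by simp [L45], by norm_num⟩
  obtain ⟨a, ha, ha'⟩ := hval 1 (by decide) (by decide) (by decide)
  obtain ⟨b, hb, hb'⟩ := hval 2 (by decide) (by decide) (by decide)
  obtain ⟨c, hc, hc'⟩ := hval 3 (by decide) (by decide) (by decide)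
  obtain ⟨d, hd, hd'⟩ := hval 4 (by decide) (by decide) (by decide)
  obtain ⟨e, he, he'⟩ := hval 5 (by decide) (by decide) (by decide)
  obtain ⟨g, hg, hg'⟩ := hval 6 (by decide) (by decide) (by decide)
  obtain ⟨q, hq, hq'⟩ := hval 7 (by decide) (by decide) (by decide)
  obtain ⟨z, hz, hz'⟩ : ∃ z : ℤ, (z = -1 ∨ z = 1) ∧ σ 0 = ((2 * z : ℤ) : ℝ) := by
    have e1 : f 30 = f 15 := by
      rw [← heven 15]
      exact congrArg f (by decide)
    have e2 : σ 0 = f 0 + f 15 + f 30 := by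
      rw [hσ, hS]
      simp
    rw [e2, h0, e1]
    rcases hf 15 (by decide) with e | e
    · exact ⟨1, Or.inr rfl, by rw [e]; norm_num⟩
    · exact ⟨-1, Or.inl rfl, by rw [e]; norm_num⟩
  -- the sum
  have hexp2 : ∑ x, S x = ∑ i ∈ range 45, σ i := by
    have h1 := Fin.sum_univ_eq_sum_range (fun i => σ i) 45
    rw [← h1]
    refine Fintype.sum_congr _ _ fun x => ?_
    have h2 : ((ZMod.val x : ℕ) : ZMod 45) = x := ZMod.natCast_zmod_val x
    show S x = S ((ZMod.val x : ℕ) : ZMod 45)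
    rw [h2]
  have hsumS : 3 * ∑ i ∈ range 15, σ i = 0 := by
    rw [← hthree _ hσp, ← hexp2]
    simp only [hS, sum_add_distrib]
    have e1 : ∑ x : ZMod 45, f (x + 15) = ∑ x, f x :=
      Fintype.sum_equiv (Equiv.addRight 15) _ _ fun x => rfl
    have e2 : ∑ x : ZMod 45, f (x + 30) = ∑ x, f x :=
      Fintype.sum_equiv (Equiv.addRight 30) _ _ fun x => rfl
    rw [e1, e2, hsum]
    norm_num
  simp only [sum_range_succ, range_zero, sum_empty, zero_add] at hsumS
  simp only [w8, w9, w10, w11, w12, w13, w14, w15, w16, w17, w18, w19, w20, w21] at hsumS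
  rw [ha', hb', hc', hd', he', hg', hq', hz'] at hsumS
  rw [ha', hb', hc', hd', he', hg', hq', hz'] at d1 d2 d4 d7
  have hsumZ : z + (a + b + c + d + e + g) + q = 0 := by
    have h1 : 6 * ((z : ℝ) + (a + b + c + d + e + g) + q) = 0 := by
      push_cast at hsumS
      linarith
    have h2 : ((z : ℝ) + (a + b + c + d + e + g) + q) = 0 := by linarith
    exact_mod_cast h2
  have key := chk45_spec hz ha hb hc hd he hg hq hsumZ
  have f1 : (27 : ℤ) ≤ 6 * ((2 * z) * a) + 6 * (a * b) + 6 * (b * c) + 6 * (c * d) + 6 * (d * e) + 6 * (e * g) + 6 * (g * q) + 3 * (q * q) := by exact_mod_cast d1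
  have f2 : (27 : ℤ) ≤ 6 * ((2 * z) * b) + 3 * (a * a) + 6 * (a * c) + 6 * (b * d) + 6 * (c * e) + 6 * (d * g) + 6 * (e * q) + 6 * (g * q) := by exact_mod_cast d2
  have f4 : (27 : ℤ) ≤ 6 * ((2 * z) * d) + 6 * (a * c) + 6 * (a * e) + 3 * (b * b) + 6 * (b * g) + 6 * (c * q) + 6 * (d * q) + 6 * (e * g) := by exact_mod_cast d4
  have f7 : (27 : ℤ) ≤ 6 * ((2 * z) * q) + 6 * (a * g) + 6 * (a * q) + 6 * (b * e) + 6 * (b * g) + 6 * (c * d) + 6 * (c * e) + 3 * (d * d) := by exact_mod_cast d7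
  rcases key with h | h | h | h
  · linarith
  · linarith
  · linarith
  · linarith

end Pool.Agent.P45
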