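import Pool.Agent.Lib.P45dba8.Joint

/-! # Cyclic carriers: the cycles and the colours -/

set_option autoImplicit false

namespace Pool.Agent.P45

/-- The distance parity on the orbit of `w`. -/
theorem cyc_colour {V : Type*} (F : V → V) (hF : Function.Injective F) (w : V) {N : ℕ}
    (hN : Odd N) (hw : F^[N] w = w) : ∃ c : V → Bool, c w = false ∧ c (F w) = false ∧
      ∀ u, (∃ i, F^[i] w = u) → u ≠ w → c (F u) = !c u := by
  classical
  have hP : ∀ u, (∃ i, F^[i] w = u) → ∃ i, F^[i + 1] w = u := by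
    rintro u ⟨i, hi⟩
    rcases i with _ | i
    · obtain ⟨j, hj⟩ := hN
      refine ⟨2 * j, ?_⟩
      rw [← hj, hw]
      exact hi
    · exact ⟨i, hi⟩
  have h0 : ∃ i, F^[i + 1] w = w := hP w ⟨0, rfl⟩
  have h1 : ∃ i, F^[i + 1] w = F w := ⟨0, rfl⟩
  let d : V → ℕ := fun u => if h : ∃ i, F^[i + 1] w = u then Nat.find h else 0
  have hd : ∀ u (h : ∃ i, F^[i + 1] w = u), d u = Nat.find h := fun u h => dif_pos h
  refine ⟨fun u => decide (Odd (d u)), ?_, ?_, ?_⟩
  · show decide (Odd (d w)) = false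
    rw [decide_eq_false_iff_not, hd w h0]
    have e1 : F^[Nat.find h0 + 1] w = w := Nat.find_spec h0
    have e2 : Function.minimalPeriod F w ∣ Nat.find h0 + 1 :=
      Function.IsPeriodicPt.minimalPeriod_dvd e1
    have e3 : Function.minimalPeriod F w ∣ N := Function.IsPeriodicPt.minimalPeriod_dvd hw
    have e4 : Odd (Function.minimalPeriod F w) := Odd.of_dvd_nat hN e3
    have e5 : F^[Function.minimalPeriod F w] w = w := Function.iterate_minimalPeriod
    have e6 : 0 < Function.minimalPeriod F w := e4.pos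
    have e7 : Nat.find h0 ≤ Function.minimalPeriod F w - 1 := by
      apply Nat.find_min'
      have : Function.minimalPeriod F w - 1 + 1 = Function.minimalPeriod F w := by omega
      rw [this]
      exact e5
    have e8 := Nat.le_of_dvd (Nat.succ_pos _) e2
    have e9 : Nat.find h0 + 1 = Function.minimalPeriod F w := by omega
    intro h
    obtain ⟨x, hx⟩ := h
    obtain ⟨y, hy⟩ := e4
    omega
  · show decide (Odd (d (F w))) = false
    rw [decide_eq_false_iff_not, hd (F w) h1]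
    have : Nat.find h1 = 0 := by
      rw [Nat.find_eq_zero]
      rfl
    rw [this]
    simp
  · intro u hu hne
    have hu1 := hP u hu
    have hu2 : ∃ i, F^[i + 1] w = F u := by
      obtain ⟨i, hi⟩ := hu
      exact ⟨i, by rw [Function.iterate_succ_apply', hi]⟩
    have e : Nat.find hu2 = Nat.find hu1 + 1 := by
      apply le_antisymm
      · apply Nat.find_min'
        rw [Function.iterate_succ_apply', Nat.find_spec hu1]
      · have e1 := Nat.find_spec hu2
        rcases h : Nat.find hu2 with _ | j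
        · exfalso
          rw [h] at e1
          exact hne (hF e1.symm)
        · rw [h, Function.iterate_succ_apply'] at e1
          have := Nat.find_min' hu1 (hF e1)
          omega
    show decide (Odd (d (F u))) = !decide (Odd (d u))
    rw [hd _ hu1, hd _ hu2, e, ← decide_not, decide_eq_decide, Nat.odd_add_one]

theorem stp_iter {m h : ℕ} (h3 : 3 ≤ h) (C a : ZMod m) (j : ℕ) (hj : j < h) :
    (stp (h := h) C)^[j] (0, a) = ((j : ZMod h), a) := by
  have hNZ : NeZero h := ⟨by omega⟩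
  induction j with
  | zero => simp
  | succ j ih =>
    rw [Function.iterate_succ_apply', ih (by omega)]
    have h1 : ((j : ZMod h) + 1) ≠ 0 := by
      have : ((j : ZMod h) + 1) = ((j + 1 : ℕ) : ZMod h) := by push_cast; rfl
      rw [this, Ne, ZMod.natCast_eq_zero_iff]
      intro h'
      have := Nat.le_of_dvd (by omega) h'
      omega
    show ((j : ZMod h) + 1, a + if (j : ZMod h) + 1 = 0 then C else 0) = (((j + 1 : ℕ) : ZMod h), a)
    rw [if_neg h1, add_zero]
    push_cast
    rfl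

theorem stp_iter_h {m h : ℕ} (h3 : 3 ≤ h) (C a : ZMod m) :
    (stp (h := h) C)^[h] (0, a) = (0, a + C) := by
  obtain ⟨j, rfl⟩ : ∃ j, h = j + 1 := ⟨h - 1, by omega⟩
  rw [Function.iterate_succ_apply', stp_iter h3 C a j (by omega)]
  have h1 : ((j : ZMod (j + 1)) + 1) = 0 := by
    have : ((j : ZMod (j + 1)) + 1) = ((j + 1 : ℕ) : ZMod (j + 1)) := by push_cast; rfl
    rw [this, ZMod.natCast_self]
  show ((j : ZMod (j + 1)) + 1, a + if (j : ZMod (j + 1)) + 1 = 0 then C else 0) = (0, a + C)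
  rw [if_pos h1, h1]

theorem stp_iter_all {m h : ℕ} (h3 : 3 ≤ h) (C : ZMod m) (u : ZMod h × ZMod m) :
    (stp (h := h) C)^[h] u = (u.1, u.2 + C) := by
  have hNZ : NeZero h := ⟨by omega⟩
  obtain ⟨i, a⟩ := u
  have e : (i, a) = (stp (h := h) C)^[i.val] (0, a) := by
    rw [stp_iter h3 C a i.val i.val_lt, ZMod.natCast_zmod_val]
  rw [e, ← Function.iterate_add_apply, add_comm, Function.iterate_add_apply, stp_iter_h h3,
    stp_iter h3 C _ i.val i.val_lt, ZMod.natCast_zmod_val, ← e]

theorem stp_iter_mul {m h : ℕ} (h3 : 3 ≤ h) (C : ZMod m) (l : ℕ) (u : ZMod h × ZMod m) :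
    (stp (h := h) C)^[h * l] u = (u.1, u.2 + l * C) := by
  induction l with
  | zero =>
    obtain ⟨i, a⟩ := u
    simp
  | succ l ih =>
    rw [Nat.mul_succ, add_comm, Function.iterate_add_apply, ih, stp_iter_all h3]
    refine Prod.ext rfl ?_
    show u.2 + l * C + C = u.2 + ((l + 1 : ℕ) : ZMod m) * C
    push_cast
    ring

theorem stp_reach {m h : ℕ} (hm : 0 < m) (h3 : 3 ≤ h) (C : ZMod m) (u v : ZMod h × ZMod m)
    (hq : Nat.gcd m C.val ∣ (v.2 - u.2).val) : ∃ i : ℕ, (stp (h := h) C)^[i] u = v := by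
  have hNZ : NeZero h := ⟨by omega⟩
  have hNm : NeZero m := ⟨by omega⟩
  obtain ⟨i, a⟩ := u
  obtain ⟨j, b⟩ := v
  -- the multiple of `C`
  have hl : ∃ l : ℕ, b - a - C = l * C := by
    obtain ⟨k, hk⟩ := hq
    have h1 := Nat.gcd_eq_gcd_ab m C.val
    have h2 : ((Nat.gcd m C.val : ℕ) : ZMod m) = C * ((Nat.gcdB m C.val : ℤ) : ZMod m) := by
      have := congrArg (fun z : ℤ => (z : ZMod m)) h1
      push_cast at this
      rw [ZMod.natCast_self, zero_mul, zero_add, ZMod.natCast_zmod_val] at this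
      exact this
    have h3' : b - a = ((k : ℕ) : ZMod m) * (C * ((Nat.gcdB m C.val : ℤ) : ZMod m)) := by
      have h4 : (((b - a).val : ℕ) : ZMod m) = b - a := ZMod.natCast_zmod_val _
      have hk' : (b - a).val = Nat.gcd m C.val * k := hk
      rw [← h4, hk', Nat.cast_mul, h2]
      ring
    refine ⟨(((k : ℕ) : ZMod m) * ((Nat.gcdB m C.val : ℤ) : ZMod m) - 1).val, ?_⟩
    rw [ZMod.natCast_zmod_val, h3']
    ring
  obtain ⟨l, hl⟩ := hl
  have e1 : (i, a) = (stp (h := h) C)^[i.val] (0, a) := by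
    rw [stp_iter h3 C a i.val i.val_lt, ZMod.natCast_zmod_val]
  have e2 : (j, b) = (stp (h := h) C)^[j.val] (0, b) := by
    rw [stp_iter h3 C b j.val j.val_lt, ZMod.natCast_zmod_val]
  have e3 : (stp (h := h) C)^[h - i.val] (i, a) = (0, a + C) := by
    rw [e1, ← Function.iterate_add_apply]
    have : h - i.val + i.val = h := by
      have := i.val_lt
      omega
    rw [this, stp_iter_h h3]
  refine ⟨j.val + (h * l + (h - i.val)), ?_⟩
  rw [Function.iterate_add_apply, Function.iterate_add_apply, e3, stp_iter_mul h3]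
  have e4 : ((0 : ZMod h), a + C + l * C) = (0, b) := by
    refine Prod.ext rfl ?_
    show a + C + l * C = b
    rw [← hl]
    ring
  show (stp (h := h) C)^[j.val] ((0 : ZMod h), a + C + l * C) = _
  rw [e4, ← e2]

/-- THE DATA OF A CYCLIC CARRIER. -/
theorem carrier_data {m h : ℕ} (hm : 0 < m) (h3 : 3 ≤ h) {t : ZMod m} (ht : IsUnit t)
    (π : ZMod h ≃ ZMod h) (W : ZMod h → ZMod (m * h))
    (hW : ∀ i, red m h (W i) = π (i + 1) - π i) (w : ZMod (m * h)) (hw : red m h w = π (-1)) :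
    ∃ (F : Equiv.Perm (ZMod (m * h))) (C : ZMod m) (q : ℕ) (hq : q ∣ m)
      (comp : ZMod (m * h) → ZMod q), q = Nat.gcd m C.val ∧
      (∀ v, F v = v + W (π.symm (red m h v))) ∧
      (∀ v s, comp (v + psi m h s) = comp v + ZMod.castHom hq (ZMod q) (s * t⁻¹)) ∧
      (∀ v, comp (F v) = comp v) ∧ comp w = 0 ∧
      (∀ u v, comp u = comp v → ∃ i : ℕ, F^[i] u = v) ∧
      (∀ v, F^[h] v = v + psi m h C) ∧ ∀ v, F^[h * m] v = v := by
  classical
  have hNZ : NeZero h := ⟨by omega⟩
  have hNm : NeZero m := ⟨by omega⟩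
  obtain ⟨C, phi, p1, p2, p3, p4, p5⟩ := exists_chart h3 π W hW w hw
  have htt : t⁻¹ * t = 1 := ZMod.inv_mul_of_unit t ht
  have hq : Nat.gcd m C.val ∣ m := Nat.gcd_dvd_left _ _
  have hqC : ZMod.castHom hq (ZMod (Nat.gcd m C.val)) C = 0 := by
    rw [ZMod.castHom_apply, ZMod.cast_eq_val, ZMod.natCast_eq_zero_iff]
    exact Nat.gcd_dvd_right _ _
  let F : Equiv.Perm (ZMod (m * h)) := phi.symm.trans ((stpE C).trans phi)
  have hF : ∀ v, F v = phi (stp C (phi.symm v)) := fun v => rfl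
  have hFi : ∀ (i : ℕ) v, F^[i] v = phi ((stp C)^[i] (phi.symm v)) := by
    intro i
    induction i with
    | zero => intro v; simp
    | succ i ih =>
      intro v
      rw [Function.iterate_succ_apply', Function.iterate_succ_apply', ih, hF, phi.symm_apply_apply]
  have hsym : ∀ v s, phi.symm (v + psi m h s) = ((phi.symm v).1, (phi.symm v).2 + s) := by
    intro v s
    rw [Equiv.symm_apply_eq, p3, Prod.mk.eta, phi.apply_symm_apply]
  refine ⟨F, C, Nat.gcd m C.val, hq,
    fun v => ZMod.castHom hq (ZMod (Nat.gcd m C.val)) ((phi.symm v).2 * t⁻¹), rfl, ?_, ?_, ?_, ?_,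
    ?_, ?_, ?_⟩
  · intro v
    rw [hF, p2, phi.apply_symm_apply]
    have h1 := p1 (phi.symm v)
    rw [phi.apply_symm_apply] at h1
    rw [h1, π.symm_apply_apply]
  · intro v s
    show ZMod.castHom hq (ZMod (Nat.gcd m C.val)) ((phi.symm (v + psi m h s)).2 * t⁻¹) = _
    rw [hsym, ← map_add]
    congr 1
    show ((phi.symm v).2 + s) * t⁻¹ = _
    ring
  · intro v
    show ZMod.castHom hq (ZMod (Nat.gcd m C.val)) ((phi.symm (F v)).2 * t⁻¹) =
      ZMod.castHom hq (ZMod (Nat.gcd m C.val)) ((phi.symm v).2 * t⁻¹)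
    rw [hF, phi.symm_apply_apply]
    show ZMod.castHom hq (ZMod (Nat.gcd m C.val))
      (((phi.symm v).2 + if (phi.symm v).1 + 1 = 0 then C else 0) * t⁻¹) = _
    rw [add_mul, map_add]
    split_ifs
    · rw [map_mul _ C, hqC, zero_mul, add_zero]
    · rw [zero_mul, map_zero, add_zero]
  · show ZMod.castHom hq (ZMod (Nat.gcd m C.val)) ((phi.symm w).2 * t⁻¹) = 0
    rw [← p4, phi.symm_apply_apply]
    show ZMod.castHom hq (ZMod (Nat.gcd m C.val)) (-C * t⁻¹) = 0
    rw [map_mul, map_neg, hqC, neg_zero, zero_mul]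
  · intro u v huv
    have huv' : ZMod.castHom hq (ZMod (Nat.gcd m C.val)) ((phi.symm u).2 * t⁻¹) =
      ZMod.castHom hq (ZMod (Nat.gcd m C.val)) ((phi.symm v).2 * t⁻¹) := huv
    have h1 : ZMod.castHom hq (ZMod (Nat.gcd m C.val)) ((phi.symm v).2 - (phi.symm u).2) = 0 := by
      have h2 : (phi.symm v).2 - (phi.symm u).2 =
          ((phi.symm v).2 * t⁻¹ - (phi.symm u).2 * t⁻¹) * t := by
        rw [sub_mul, mul_assoc, mul_assoc, htt, mul_one, mul_one]
      rw [h2, map_mul, map_sub, huv', sub_self, zero_mul]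
    rw [ZMod.castHom_apply, ZMod.cast_eq_val, ZMod.natCast_eq_zero_iff] at h1
    obtain ⟨i, hi⟩ := stp_reach hm h3 C (phi.symm u) (phi.symm v) h1
    exact ⟨i, by rw [hFi, hi, phi.apply_symm_apply]⟩
  · intro v
    rw [hFi, stp_iter_all h3, p3, Prod.mk.eta, phi.apply_symm_apply]
  · intro v
    rw [hFi, stp_iter_mul h3, ZMod.natCast_self, zero_mul, add_zero, Prod.mk.eta,
      phi.apply_symm_apply]

end Pool.Agent.P45
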