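import Pool.Agent.Lib.P45dba8.Psi

/-! # The cycles of a carrier -/

set_option autoImplicit false

namespace Pool.Agent.P45

/-- A multiple. -/
theorem exists_mul_of_cast {m q : ℕ} [NeZero m] (g z : ZMod m) (hq : q = Nat.gcd g.val m)
    (hqm : q ∣ m) (hz : ZMod.castHom hqm (ZMod q) z = 0) : ∃ k : ℕ, z = (k : ZMod m) * g := by
  have h1 : q ∣ z.val := by
    have h2 : ((z.val : ℕ) : ZMod q) = 0 := by
      rw [← hz]
      conv_rhs => rw [← ZMod.natCast_zmod_val z]
      rw [map_natCast]
    exact (ZMod.natCast_eq_zero_iff _ _).1 h2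
  obtain ⟨c, hc⟩ := h1
  have hb := Nat.gcd_eq_gcd_ab g.val m
  rw [← hq] at hb
  have h3 : z = ((c : ℤ) * Nat.gcdA g.val m : ℤ) * g := by
    have h4 : (z.val : ℤ) = (g.val * Nat.gcdA g.val m + m * Nat.gcdB g.val m) * c := by
      rw [← hb, hc]; push_cast; ring
    have h5 : ((z.val : ℤ) : ZMod m) =
      (((g.val * Nat.gcdA g.val m + m * Nat.gcdB g.val m) * c : ℤ) : ZMod m) := by rw [h4]
    push_cast at h5
    rw [ZMod.natCast_zmod_val, ZMod.natCast_zmod_val, ZMod.natCast_self, zero_mul, add_zero] at h5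
    rw [h5]
    push_cast
    ring
  refine ⟨(((c : ℤ) * Nat.gcdA g.val m : ℤ) : ZMod m).val, ?_⟩
  rw [ZMod.natCast_zmod_val]
  exact h3

/-- The parity of the distance along the multiples of `g`. -/
theorem exists_par {m : ℕ} [NeZero m] (hm : Odd m) (g : ZMod m) : ∃ e : ZMod m → Bool,
    e 0 = false ∧ e (-g) = false ∧
      ∀ z : ZMod m, (∃ k : ℕ, z = (k : ZMod m) * g) → z ≠ -g → e (z + g) = !e z := by
  classical
  obtain ⟨K, hK⟩ : ∃ K : ZMod m → ℕ, ∀ z, K z = sInf {k : ℕ | z = (k : ZMod m) * g} :=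
    ⟨_, fun _ => rfl⟩
  have hmem : ∀ z : ZMod m, (∃ k : ℕ, z = (k : ZMod m) * g) → z = (K z : ZMod m) * g := by
    intro z hz
    have h1 : sInf {k : ℕ | z = (k : ZMod m) * g} ∈ {k : ℕ | z = (k : ZMod m) * g} :=
      Nat.sInf_mem hz
    rw [hK]
    exact h1
  have hle : ∀ (z : ZMod m) (k : ℕ), z = (k : ZMod m) * g → K z ≤ k := by
    intro z k hz
    rw [hK]
    exact Nat.sInf_le hz
  have hK0 : K 0 = 0 := Nat.le_zero.1 (hle 0 0 (by rw [Nat.cast_zero, zero_mul]))
  have hstep : ∀ z : ZMod m, (∃ k : ℕ, z = (k : ZMod m) * g) → z ≠ -g → K (z + g) = K z + 1 := by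
    intro z hz hne
    have h1 := hmem z hz
    have h2 : z + g = ((K z + 1 : ℕ) : ZMod m) * g := by
      push_cast
      rw [add_mul, one_mul, ← h1]
    have h3 := hle _ _ h2
    have h4 := hmem (z + g) ⟨_, h2⟩
    obtain ⟨k, hk⟩ : ∃ k, K (z + g) = k + 1 := by
      cases h5 : K (z + g) with
      | zero =>
        rw [h5, Nat.cast_zero, zero_mul] at h4
        exact absurd (eq_neg_of_add_eq_zero_left h4) hne
      | succ k => exact ⟨k, rfl⟩
    have h5 : z = (k : ZMod m) * g := by
      rw [hk] at h4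
      push_cast at h4
      rw [add_mul, one_mul] at h4
      exact add_right_cancel h4
    have h6 := hle _ _ h5
    omega
  have hlast : K (-g) % 2 = 0 := by
    obtain ⟨L, hL⟩ : ∃ L, L = addOrderOf g := ⟨_, rfl⟩
    have hL1 : L ∣ m := by
      rw [hL]
      apply addOrderOf_dvd_of_nsmul_eq_zero
      rw [nsmul_eq_mul, ZMod.natCast_self, zero_mul]
    have hLo : L % 2 = 1 := Nat.odd_iff.1 (hm.of_dvd_nat hL1)
    have h0 : (L : ZMod m) * g = 0 := by
      rw [← nsmul_eq_mul, hL]
      exact addOrderOf_nsmul_eq_zero g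
    have h1 : -g = ((L - 1 : ℕ) : ZMod m) * g := by
      have h2 : ((L - 1 + 1 : ℕ) : ZMod m) * g = 0 := by
        rw [Nat.sub_add_cancel (by omega)]; exact h0
      push_cast at h2
      rw [add_mul, one_mul] at h2
      exact (eq_neg_of_add_eq_zero_left h2).symm
    have h2 := hmem (-g) ⟨_, h1⟩
    have h3 := hle _ _ h1
    have h4 : L ∣ K (-g) + 1 := by
      rw [hL]
      apply addOrderOf_dvd_of_nsmul_eq_zero
      rw [nsmul_eq_mul]
      push_cast
      rw [add_mul, one_mul, ← h2, neg_add_cancel]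
    have h5 := Nat.le_of_dvd (by omega) h4
    omega
  refine ⟨fun z => decide (K z % 2 = 1), ?_, ?_, ?_⟩
  · show decide (K 0 % 2 = 1) = false
    rw [hK0]
    rfl
  · show decide (K (-g) % 2 = 1) = false
    rw [hlast]
    rfl
  · intro z hz hne
    show decide (K (z + g) % 2 = 1) = !decide (K z % 2 = 1)
    rw [hstep z hz hne]
    by_cases h1 : K z % 2 = 1
    · have h2 : ¬ (K z + 1) % 2 = 1 := by omega
      rw [decide_eq_false h2, decide_eq_true h1]
      rfl
    · have h2 : (K z + 1) % 2 = 1 := by omega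
      rw [decide_eq_true h2, decide_eq_false h1]
      rfl

theorem sum_zmod {h : ℕ} [NeZero h] {M : Type*} [AddCommMonoid M] (f : ZMod h → M) :
    ∑ i, f i = ∑ k ∈ Finset.range h, f (k : ZMod h) := by
  refine Finset.sum_nbij' (fun i => i.val) (fun k => (k : ZMod h)) ?_ ?_ ?_ ?_ ?_
  · intro i _
    exact Finset.mem_range.2 (ZMod.val_lt i)
  · intro k _
    exact Finset.mem_univ _
  · intro i _
    exact ZMod.natCast_zmod_val i
  · intro k hk
    exact ZMod.val_natCast_of_lt (Finset.mem_range.1 hk)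
  · intro i _
    show f i = f ((i.val : ℕ) : ZMod h)
    rw [ZMod.natCast_zmod_val]

/-- The cycles of a carrier: `comp` is the number of the cycle, `ck` the colours on the cycle of
`w`. -/
theorem comp_exists {m h : ℕ} [NeZero h] (hm : Odd m) (hh : Odd h) (t : ZMod m) (ht : IsUnit t)
    (π : ZMod h ≃ ZMod h) (W : ZMod h → ZMod (m * h))
    (hW : ∀ i, red m h (W i) = π (i + 1) - π i) (w : ZMod (m * h)) (hw : red m h w = π (-1))
    (hγ : ∀ γ, ∑ i, W i = psi m h γ → ¬ IsUnit γ) :
    ∃ (q : ℕ) (comp : ZMod (m * h) → ℕ) (ck : ZMod (m * h) → Bool), q % 2 = 1 ∧ 3 ≤ q ∧ q ∣ m ∧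
      (∀ v, comp v < q) ∧ (∀ v, comp (v + psi m h t) = (comp v + 1) % q) ∧
      (∀ v, comp (v + W (π.symm (red m h v))) = comp v) ∧ comp w = 0 ∧
      ck w = false ∧ ck (w + W (-1)) = false ∧
      ∀ u, comp u = 0 → u ≠ w → ck (u + W (π.symm (red m h u))) = !ck u := by
  classical
  have hh0 : 0 < h := hh.pos
  have hm0 : 0 < m := hm.pos
  have hNm : NeZero m := ⟨by omega⟩
  obtain ⟨T, hT⟩ := ht.exists_left_inv
  -- `T * t = 1`
  have hinj : ∀ z z' : ZMod m, psi m h (t * z) = psi m h (t * z') → z = z' := by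
    intro z z' hz
    have h1 := psi_inj m h hh0 hz
    have h2 : T * (t * z) = T * (t * z') := by rw [h1]
    rwa [← mul_assoc, ← mul_assoc, hT, one_mul, one_mul] at h2
  obtain ⟨w', hw'⟩ : ∃ w', w' = w + W (-1) := ⟨_, rfl⟩
  have hredB : ∀ n : ℕ, red m h (w' + ∑ k ∈ Finset.range n, W (k : ZMod h)) = π (n : ZMod h) := by
    intro n
    induction n with
    | zero =>
      rw [Finset.sum_range_zero, add_zero, hw', map_add, hw, hW, neg_add_cancel, Nat.cast_zero]
      ring
    | succ n ih =>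
      rw [Finset.sum_range_succ, ← add_assoc, map_add, ih, hW]
      push_cast
      ring
  obtain ⟨B, hB⟩ : ∃ B : ZMod h → ZMod (m * h),
      ∀ i, B i = w' + ∑ k ∈ Finset.range i.val, W (k : ZMod h) := ⟨_, fun _ => rfl⟩
  have hBred : ∀ i, red m h (B i) = π i := by
    intro i
    rw [hB, hredB, ZMod.natCast_zmod_val]
  have hB0 : B 0 = w' := by rw [hB, ZMod.val_zero, Finset.sum_range_zero, add_zero]
  have hval : ∀ i : ZMod h, i.val + 1 < h → (i + 1).val = i.val + 1 := by
    intro i hi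
    have e : i + 1 = ((i.val + 1 : ℕ) : ZMod h) := by
      push_cast
      rw [ZMod.natCast_zmod_val]
    rw [e, ZMod.val_natCast_of_lt hi]
  have hBs : ∀ i : ZMod h, i.val + 1 < h → B (i + 1) = B i + W i := by
    intro i hi
    rw [hB, hB, hval i hi, Finset.sum_range_succ, ZMod.natCast_zmod_val, add_assoc]
  obtain ⟨γ, hγ1⟩ : ∃ γ, ∑ i, W i = psi m h γ := by
    apply exists_psi
    rw [sum_zmod]
    have h1 := hredB h
    rw [map_add, ZMod.natCast_self] at h1
    have h2 := hredB 0
    rw [Finset.sum_range_zero, add_zero, Nat.cast_zero] at h2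
    rw [h2] at h1
    exact add_eq_left.1 h1
  have hg0 := hγ γ hγ1
  obtain ⟨g, hg⟩ : ∃ g, g = T * γ := ⟨_, rfl⟩
  have htg : t * g = γ := by
    rw [hg, ← mul_assoc, mul_comm t T, hT, one_mul]
  have hgu : ¬ IsUnit g := by
    intro h1
    apply hg0
    rw [← htg]
    exact ht.mul h1
  have hlast : ∀ i : ZMod h, ¬ i.val + 1 < h → i + 1 = 0 ∧ B i + W i = w' + psi m h γ := by
    intro i hi
    have h1 := ZMod.val_lt i
    have h2 : i.val + 1 = h := by omega
    constructor
    · have e : i + 1 = ((i.val + 1 : ℕ) : ZMod h) := by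
        push_cast
        rw [ZMod.natCast_zmod_val]
      rw [e, h2, ZMod.natCast_self]
    · rw [hB, ← hγ1, sum_zmod]
      have e : Finset.range h = Finset.range (i.val + 1) := by rw [h2]
      rw [e, Finset.sum_range_succ, ZMod.natCast_zmod_val, add_assoc]
  have hm1 : ((-1 : ZMod h)).val + 1 = h := by
    by_contra h1
    have h2 := ZMod.val_lt (-1 : ZMod h)
    have h3 := hval (-1) (by omega)
    rw [neg_add_cancel, ZMod.val_zero] at h3
    omega
  -- coordinates
  have hz : ∀ v, ∃ z : ZMod m, v = B (π.symm (red m h v)) + psi m h (t * z) := by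
    intro v
    obtain ⟨x, hx⟩ := exists_psi m h (v := v - B (π.symm (red m h v))) (by
      rw [map_sub, hBred, Equiv.apply_symm_apply, sub_self])
    refine ⟨T * x, ?_⟩
    rw [← mul_assoc, mul_comm t T, hT, one_mul, ← hx]
    ring
  choose z hz using hz
  have hzu : ∀ (v : ZMod (m * h)) (i : ZMod h) (x : ZMod m), red m h v = π i →
      v = B i + psi m h (t * x) → z v = x := by
    intro v i x h1 h2
    have h3 := hz v
    rw [h1, Equiv.symm_apply_apply] at h3
    exact (hinj _ _ (add_left_cancel (h2.symm.trans h3))).symm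
  have hz1 : ∀ v, z (v + psi m h t) = z v + 1 := by
    intro v
    refine hzu _ (π.symm (red m h v)) _ ?_ ?_
    · rw [map_add, red_psi, add_zero, Equiv.apply_symm_apply]
    · rw [mul_add, mul_one, map_add, ← add_assoc, ← hz v]
  have hφred : ∀ v, red m h (v + W (π.symm (red m h v))) = π (π.symm (red m h v) + 1) := by
    intro v
    rw [map_add, hW, Equiv.apply_symm_apply]
    ring
  have hz2 : ∀ v, (π.symm (red m h v)).val + 1 < h → z (v + W (π.symm (red m h v))) = z v := by
    intro v hv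
    refine hzu _ (π.symm (red m h v) + 1) _ (hφred v) ?_
    rw [hBs _ hv]
    linear_combination hz v
  have hz3 : ∀ v, ¬ (π.symm (red m h v)).val + 1 < h →
      z (v + W (π.symm (red m h v))) = z v + g := by
    intro v hv
    obtain ⟨h1, h2⟩ := hlast _ hv
    refine hzu _ (π.symm (red m h v) + 1) _ (hφred v) ?_
    rw [h1, hB0, mul_add, htg, map_add]
    have h3 := hz v
    linear_combination h3 + h2
  have hwm : π.symm (red m h w) = -1 := by rw [hw, Equiv.symm_apply_apply]
  have hwB : w = B (-1) + psi m h (t * (-g)) := by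
    have h1 := (hlast (-1) (by omega)).2
    rw [mul_neg, htg, map_neg]
    have h2 : w = w' - W (-1) := by rw [hw']; ring
    rw [h2]
    linear_combination -h1
  have hzw : z w = -g := hzu w (-1) _ hw hwB
  have hzw' : z w' = 0 := by
    refine hzu w' 0 _ ?_ ?_
    · rw [← hB0]; exact hBred 0
    · rw [mul_zero, map_zero, add_zero, hB0]
  -- the number of cycles
  obtain ⟨q, hq⟩ : ∃ q, q = Nat.gcd g.val m := ⟨_, rfl⟩
  have hqm : q ∣ m := by rw [hq]; exact Nat.gcd_dvd_right _ _
  have hq0 : 0 < q := Nat.pos_of_dvd_of_pos hqm hm0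
  have hqo : q % 2 = 1 := Nat.odd_iff.1 (hm.of_dvd_nat hqm)
  have hq1 : q ≠ 1 := by
    intro h1
    apply hgu
    rw [← ZMod.natCast_zmod_val g, ZMod.isUnit_iff_coprime]
    exact hq.symm.trans h1
  have hq3 : 3 ≤ q := by omega
  have hNq : NeZero q := ⟨by omega⟩
  have hFq : Fact (1 < q) := ⟨by omega⟩
  obtain ⟨c, hc⟩ : ∃ c : ZMod m →+* ZMod q, c = ZMod.castHom hqm (ZMod q) := ⟨_, rfl⟩
  have hcg : c g = 0 := by
    have h1 : ((g.val : ℕ) : ZMod q) = 0 :=
      (ZMod.natCast_eq_zero_iff _ _).2 (by rw [hq]; exact Nat.gcd_dvd_left _ _)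
    rw [← ZMod.natCast_zmod_val g, map_natCast]
    exact h1
  have hc0 : ∀ x, c x = 0 → ∃ k : ℕ, x = (k : ZMod m) * g := by
    intro x hx
    rw [hc] at hx
    exact exists_mul_of_cast g x hq hqm hx
  obtain ⟨e, e1, e2, e3⟩ := exists_par hm g
  refine ⟨q, fun v => (c (z v)).val,
    fun v => xor (e (z v)) (decide ((π.symm (red m h v)).val % 2 = 1)), hqo, hq3, hqm,
    fun v => ZMod.val_lt _, ?_, ?_, ?_, ?_, ?_, ?_⟩
  · intro v
    show (c (z (v + psi m h t))).val = ((c (z v)).val + 1) % q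
    rw [hz1, map_add, map_one, ZMod.val_add, ZMod.val_one]
  · intro v
    show (c (z (v + W (π.symm (red m h v))))).val = (c (z v)).val
    by_cases h1 : (π.symm (red m h v)).val + 1 < h
    · rw [hz2 v h1]
    · rw [hz3 v h1, map_add, hcg, add_zero]
  · show (c (z w)).val = 0
    rw [hzw, map_neg, hcg, neg_zero, ZMod.val_zero]
  · show xor (e (z w)) (decide ((π.symm (red m h w)).val % 2 = 1)) = false
    have h1 : ¬ ((-1 : ZMod h)).val % 2 = 1 := by
      have := Nat.odd_iff.1 hh
      omega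
    rw [hzw, e2, hwm, decide_eq_false h1]
    rfl
  · show xor (e (z (w + W (-1)))) (decide ((π.symm (red m h (w + W (-1)))).val % 2 = 1)) = false
    rw [← hw', hzw', e1, ← hB0, hBred, Equiv.symm_apply_apply, ZMod.val_zero]
    rfl
  · intro u hu hne
    have hu' : c (z u) = 0 := by
      rw [← ZMod.val_eq_zero]; exact hu
    show xor (e (z (u + W (π.symm (red m h u)))))
      (decide ((π.symm (red m h (u + W (π.symm (red m h u))))).val % 2 = 1)) =
      !(xor (e (z u)) (decide ((π.symm (red m h u)).val % 2 = 1)))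
    rw [hφred, Equiv.symm_apply_apply]
    by_cases h1 : (π.symm (red m h u)).val + 1 < h
    · rw [hz2 u h1, hval _ h1]
      by_cases h2 : (π.symm (red m h u)).val % 2 = 1
      · have h3 : ¬ ((π.symm (red m h u)).val + 1) % 2 = 1 := by omega
        rw [decide_eq_false h3, decide_eq_true h2]
        cases e (z u) <;> rfl
      · have h3 : ((π.symm (red m h u)).val + 1) % 2 = 1 := by omega
        rw [decide_eq_true h3, decide_eq_false h2]
        cases e (z u) <;> rfl
    · have h2 := ZMod.val_lt (π.symm (red m h u))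
      have h4 := Nat.odd_iff.1 hh
      have h5 : ¬ (π.symm (red m h u)).val % 2 = 1 := by omega
      have h6 : z u ≠ -g := by
        intro h7
        apply hne
        have h8 : π.symm (red m h u) = -1 :=
          eq_neg_of_add_eq_zero_left (hlast _ h1).1
        have h9 := hz u
        rw [h8, h7, ← hwB] at h9
        exact h9
      rw [hz3 u h1, (hlast _ h1).1, ZMod.val_zero, e3 _ (hc0 _ hu') h6, decide_eq_false h5]
      cases e (z u) <;> rfl

end Pool.Agent.P45
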