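import Pool.Agent.Lib.P45dba8.CellsAbs
import Pool.Agent.Lib.P45dba8.CellsComp

/-! # Cells for one single type and carriers -/

set_option autoImplicit false

namespace Pool.Agent.P45

theorem val_succ_of_ne {h : ℕ} [NeZero h] (j : ZMod h) (hj : j + 1 ≠ 0) :
    (j + 1).val = j.val + 1 := by
  have h1 := ZMod.val_lt j
  have e : j + 1 = ((j.val + 1 : ℕ) : ZMod h) := by
    push_cast
    rw [ZMod.natCast_zmod_val]
  have h2 : j.val + 1 ≠ h := by
    intro h3
    apply hj
    rw [e, h3, ZMod.natCast_self]
  rw [e, ZMod.val_natCast_of_lt (by omega)]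

theorem dec_succ (n : ℕ) : decide ((n + 1) % 2 = 1) = !decide (n % 2 = 1) := by
  by_cases h1 : n % 2 = 1
  · have h2 : ¬ (n + 1) % 2 = 1 := by omega
    rw [decide_eq_false h2, decide_eq_true h1]
    rfl
  · have h2 : (n + 1) % 2 = 1 := by omega
    rw [decide_eq_true h2, decide_eq_false h1]
    rfl

/-- The parity of the distance from the class `c0`. -/
theorem exists_chi {h : ℕ} [NeZero h] (π : ZMod h ≃ ZMod h) (c0 : ZMod h) :
    ∃ χ : ZMod h → Bool, ∀ c, c ≠ c0 → χ (π (π.symm c + 1)) = !χ c := by
  refine ⟨fun c => decide ((π.symm c - π.symm c0 - 1).val % 2 = 1), ?_⟩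
  intro c hc
  show decide ((π.symm (π (π.symm c + 1)) - π.symm c0 - 1).val % 2 = 1) =
    !decide ((π.symm c - π.symm c0 - 1).val % 2 = 1)
  have e : π.symm (π (π.symm c + 1)) - π.symm c0 - 1 = (π.symm c - π.symm c0 - 1) + 1 := by
    rw [Equiv.symm_apply_apply]; ring
  rw [e, val_succ_of_ne, dec_succ]
  intro h1
  apply hc
  apply π.symm.injective
  linear_combination h1

/-- The parity of the distance from the hole in its class. -/
theorem exists_cp {m h : ℕ} (hm : Odd m) (hh0 : 0 < h) (t : ZMod m) (ht : IsUnit t)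
    (p : ZMod (m * h)) :
    ∃ cp : ZMod (m * h) → Bool, cp p = false ∧ cp (p + psi m h t) = false ∧
      ∀ u, red m h u = red m h p → u ≠ p → cp (u + psi m h t) = !cp u := by
  classical
  have hNm : NeZero m := ⟨by have := hm.pos; omega⟩
  obtain ⟨T, hT⟩ := ht.exists_left_inv
  have hz : ∀ v : ZMod (m * h), ∃ z : ZMod m, red m h v = red m h p → v = p + psi m h (t * z) := by
    intro v
    by_cases hv : red m h v = red m h p
    · obtain ⟨x, hx⟩ := exists_psi m h (v := v - p) (by rw [map_sub, hv, sub_self])
      refine ⟨T * x, fun _ => ?_⟩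
      rw [← mul_assoc, mul_comm t T, hT, one_mul, ← hx]
      ring
    · exact ⟨0, fun h' => absurd h' hv⟩
  choose z hz using hz
  have hzu : ∀ (v : ZMod (m * h)) (x : ZMod m), v = p + psi m h (t * x) → z v = x := by
    intro v x h2
    have h1 : red m h v = red m h p := by rw [h2, map_add, red_psi, add_zero]
    have h3 := psi_inj m h hh0 (add_left_cancel ((hz v h1).symm.trans h2))
    have h4 : T * (t * z v) = T * (t * x) := by rw [h3]
    rwa [← mul_assoc, ← mul_assoc, hT, one_mul, one_mul] at h4
  refine ⟨fun u => decide ((z u - 1).val % 2 = 1), ?_, ?_, ?_⟩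
  · show decide ((z p - 1).val % 2 = 1) = false
    rw [hzu p 0 (by rw [mul_zero, map_zero, add_zero]), zero_sub]
    apply decide_eq_false
    have h1 : ((-1 : ZMod m)).val + 1 = m := by
      have h2 := ZMod.val_lt (-1 : ZMod m)
      by_contra h3
      have e : ((-1 : ZMod m).val + 1 : ℕ) = ((-1 : ZMod m) + 1).val := by
        have e1 : (-1 : ZMod m) + 1 = (((-1 : ZMod m).val + 1 : ℕ) : ZMod m) := by
          push_cast
          rw [ZMod.natCast_zmod_val]
        rw [e1, ZMod.val_natCast_of_lt (by omega)]
      rw [neg_add_cancel, ZMod.val_zero] at e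
      omega
    have h2 := Nat.odd_iff.1 hm
    omega
  · show decide ((z (p + psi m h t) - 1).val % 2 = 1) = false
    rw [hzu (p + psi m h t) 1 (by rw [mul_one]), sub_self, ZMod.val_zero]
    rfl
  · intro u hu hne
    show decide ((z (u + psi m h t) - 1).val % 2 = 1) = !decide ((z u - 1).val % 2 = 1)
    have h1 : z (u + psi m h t) = z u + 1 := by
      apply hzu
      rw [mul_add, mul_one, map_add, ← add_assoc, ← hz u hu]
    have e : z (u + psi m h t) - 1 = (z u - 1) + 1 := by rw [h1]; ring
    rw [e, val_succ_of_ne, dec_succ]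
    intro h2
    apply hne
    have h3 : z u = 0 := by linear_combination h2
    rw [hz u hu, h3, mul_zero, map_zero, add_zero]

/-- THE LONE SINGLE WITH CELLS. One single type `psi t` and carriers which are not Hamiltonian;
the classes other than the class of the hole of the single are paired by steps of the carriers,
every carrier occurs. -/
theorem cells_TS {J : Type*} {m h : ℕ} [NeZero h] (hm : Odd m) (hh : Odd h) (t : ZMod m)
    (ht : IsUnit t) (p : ZMod (m * h)) (π : J → ZMod h ≃ ZMod h) (W : J → ZMod h → ZMod (m * h))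
    (hW : ∀ b i, red m h (W b i) = π b (i + 1) - π b i)
    (w : J → ZMod (m * h)) (hw : ∀ b, red m h (w b) = π b (-1))
    (hγ : ∀ b γ, ∑ i, W b i = psi m h γ → ¬ IsUnit γ)
    (A : J → ZMod h → Prop) (hA : ∀ b, ∃ c, A b c)
    (f1 : ∀ c, c ≠ red m h p → ∃ b, A b c ∨ ∃ c', A b c' ∧ c = π b ((π b).symm c' + 1))
    (f2 : ∀ b b' c, A b c → A b' c → b = b')
    (f3 : ∀ b b' c c', A b c → A b' c' → c ≠ π b' ((π b').symm c' + 1))
    (f4 : ∀ b b' c c', A b c → A b' c' →
      π b ((π b).symm c + 1) = π b' ((π b').symm c' + 1) → b = b')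
    (f5 : ∀ b c, A b c → c ≠ red m h p ∧ π b ((π b).symm c + 1) ≠ red m h p) :
    TS Set.univ (fun u v => v = u + psi m h t ∨ ∃ b, v = u + W b ((π b).symm (red m h u)))
      (fun (k : Option J) b => k.elim (bif b then p + psi m h t else p)
        (fun j => bif b then w j + W j (-1) else w j)) := by
  classical
  have hh0 : 0 < h := hh.pos
  choose q comp ck k1 k2 _ k4 k5 k6 k7 k8 k9 k10 using fun b : J =>
    comp_exists hm hh t ht (π b) (W b) (hW b) (w b) (hw b) (hγ b)
  choose c0 hc0 using hA
  choose χ hχ using fun b : J => exists_chi (π b) (c0 b)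
  obtain ⟨cp, cp1, cp2, cp3⟩ := exists_cp hm hh0 t ht p
  have hφred : ∀ (b : J) (v : ZMod (m * h)), red m h (v + W b ((π b).symm (red m h v))) =
      π b ((π b).symm (red m h v) + 1) := by
    intro b v
    rw [map_add, hW, Equiv.apply_symm_apply]
    ring
  have key := cells_abs (V := ZMod (m * h)) (H := ZMod h) (J := J) (fun v => v + psi m h t)
    (fun b v => v + W b ((π b).symm (red m h v)))
    ⟨fun u v huv => add_right_cancel huv, fun v => ⟨v - psi m h t, sub_add_cancel _ _⟩⟩
    (fun b => ?_) (fun v => red m h v) (fun b c => π b ((π b).symm c + 1)) ?_ A comp q p w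
    ?_ hφred ?_ k4 k1 k2 k5 k6 k7 ck k8 ?_ k10 χ ?_ cp cp1 cp2 cp3 f1 f2 f3 f4 f5
  · refine key.congr ?_
    rintro (_ | j) b
    · rfl
    · show (bif b then w j + W j (-1) else w j) =
        bif b then w j + W j ((π j).symm (red m h (w j))) else w j
      rw [hw, Equiv.symm_apply_apply]
  · constructor
    · intro u v huv
      have huv' : u + W b ((π b).symm (red m h u)) = v + W b ((π b).symm (red m h v)) := huv
      have h1 := hφred b u
      rw [huv', hφred b v] at h1
      have h2 : red m h v = red m h u :=
        (π b).symm.injective (add_right_cancel ((π b).injective h1))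
      rw [h2] at huv'
      exact add_right_cancel huv'
    · intro u
      refine ⟨u - W b ((π b).symm (red m h u) - 1), ?_⟩
      have h1 : red m h (u - W b ((π b).symm (red m h u) - 1)) =
          π b ((π b).symm (red m h u) - 1) := by
        rw [map_sub, hW, sub_add_cancel, Equiv.apply_symm_apply]
        ring
      show u - W b ((π b).symm (red m h u) - 1) +
        W b ((π b).symm (red m h (u - W b ((π b).symm (red m h u) - 1)))) = u
      rw [h1, Equiv.symm_apply_apply, sub_add_cancel]
  · intro b u v huv
    exact (π b).symm.injective (add_right_cancel ((π b).injective huv))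
  · intro v
    show red m h (v + psi m h t) = red m h v
    rw [map_add, red_psi, add_zero]
  · intro b v
    show v + psi m h t + W b ((π b).symm (red m h (v + psi m h t))) =
      v + W b ((π b).symm (red m h v)) + psi m h t
    rw [map_add, red_psi, add_zero]
    ring
  · intro b
    show ck b (w b + W b ((π b).symm (red m h (w b)))) = false
    rw [hw, Equiv.symm_apply_apply]
    exact k9 b
  · intro b c hc
    apply hχ b c
    rintro rfl
    exact hc (hc0 b)

end Pool.Agent.P45
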