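import Pool.Agent.Lib.P45dba8.SquareTS

/-! # Cells: one thread and several carriers, abstract form -/

set_option autoImplicit false

namespace Pool.Agent.P45

/-- CELLS. `al` moves inside the classes `cl`, the carrier `phi j` moves the class by `s j` and
has the cycles `comp j = 0, .., q j - 1`. The classes other than the class of `p` are paired by
steps `c, s j c` with `A j c`. All squares at the odd cycles of these steps are switched. -/
theorem cells_abs {V H J : Type*} (al : V → V) (phi : J → V → V) (hal : Function.Bijective al)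
    (hphi : ∀ j, Function.Bijective (phi j)) (cl : V → H) (s : J → H → H)
    (hs : ∀ j, Function.Injective (s j)) (A : J → H → Prop)
    (comp : J → V → ℕ) (q : J → ℕ) (p : V) (w : J → V)
    (a1 : ∀ v, cl (al v) = cl v) (a2 : ∀ j v, cl (phi j v) = s j (cl v))
    (a3 : ∀ j v, phi j (al v) = al (phi j v))
    (b1 : ∀ j v, comp j v < q j) (b2 : ∀ j, q j % 2 = 1) (b2' : ∀ j, 3 ≤ q j)
    (b3 : ∀ j v, comp j (al v) = (comp j v + 1) % q j)
    (b4 : ∀ j v, comp j (phi j v) = comp j v) (b5 : ∀ j, comp j (w j) = 0)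
    (ck : J → V → Bool) (c1 : ∀ j, ck j (w j) = false) (c2 : ∀ j, ck j (phi j (w j)) = false)
    (c3 : ∀ j u, comp j u = 0 → u ≠ w j → ck j (phi j u) = !ck j u)
    (χ : J → H → Bool) (d : ∀ j c, ¬ A j c → χ j (s j c) = !χ j c)
    (cp : V → Bool) (e1 : cp p = false) (e2 : cp (al p) = false)
    (e3 : ∀ u, cl u = cl p → u ≠ p → cp (al u) = !cp u)
    (f1 : ∀ c, c ≠ cl p → ∃ j, A j c ∨ ∃ c', A j c' ∧ c = s j c')
    (f2 : ∀ j j' c, A j c → A j' c → j = j')
    (f3 : ∀ j j' c c', A j c → A j' c' → c ≠ s j' c')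
    (f4 : ∀ j j' c c', A j c → A j' c' → s j c = s j' c' → j = j')
    (f5 : ∀ j c, A j c → c ≠ cl p ∧ s j c ≠ cl p) :
    TS Set.univ (fun u v => v = al u ∨ ∃ j, v = phi j u)
      (fun (k : Option J) b =>
        k.elim (bif b then al p else p) (fun j => bif b then phi j (w j) else w j)) := by
  classical
  obtain ⟨S, hS⟩ : ∃ S : J → Set V, ∀ j v, v ∈ S j ↔ A j (cl v) ∧ comp j v % 2 = 1 :=
    ⟨fun j => {v | A j (cl v) ∧ comp j v % 2 = 1}, fun _ _ => Iff.rfl⟩
  obtain ⟨c, hc0, hc1⟩ : ∃ c : J → V → Bool, (∀ j v, comp j v = 0 → c j v = ck j v) ∧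
      (∀ j v, comp j v ≠ 0 → c j v = χ j (cl v)) :=
    ⟨fun j v => if comp j v = 0 then ck j v else χ j (cl v), fun j v h => if_pos h,
      fun j v h => if_neg h⟩
  -- uniqueness of the carrier at a class
  have huniq : ∀ c j j', (A j c ∨ ∃ c', A j c' ∧ c = s j c') →
      (A j' c ∨ ∃ c', A j' c' ∧ c = s j' c') → j = j' := by
    rintro c j j' (h | ⟨c1, h, h'⟩) (g | ⟨c2, g, g'⟩)
    · exact f2 _ _ _ h g
    · exact absurd g' (f3 _ _ _ _ h g)
    · exact absurd h' (f3 _ _ _ _ g h)
    · exact f4 _ _ _ _ h g (h'.symm.trans g')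
  obtain ⟨ca, ca0, ca1⟩ : ∃ ca : V → Bool, (∀ v, cl v = cl p → ca v = cp v) ∧
      (∀ v j, cl v ≠ cl p → (A j (cl v) ∨ ∃ c', A j c' ∧ cl v = s j c') →
        ca v = decide (comp j v % 2 = 1 ∨ comp j v + 1 = q j)) := by
    refine ⟨fun v => if h : cl v = cl p then cp v else
      decide (comp (f1 (cl v) h).choose v % 2 = 1 ∨
        comp (f1 (cl v) h).choose v + 1 = q (f1 (cl v) h).choose), fun v h => dif_pos h, ?_⟩
    intro v j h hj
    have e : (f1 (cl v) h).choose = j := huniq _ _ _ (f1 (cl v) h).choose_spec hj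
    show (if h : cl v = cl p then cp v else _) = _
    rw [dif_neg h, e]
  have hsucc : ∀ j v, comp j v % 2 = 1 → comp j (al v) = comp j v + 1 := by
    intro j v hv
    have h1 := b1 j v
    have h2 := b2 j
    rw [b3, Nat.mod_eq_of_lt (by omega)]
  refine TS_squares al phi hal.1 (fun j => (hphi j).1) S c ca w p (fun j v _ => a3 j v)
    ?_ ?_ ?_ ?_ ?_ ?_ ?_ ?_ ?_ ?_
  · -- h1
    intro j u
    by_cases h0 : comp j u = 0
    · by_cases hw : u = w j
      · exact Or.inl hw
      · right; right
        rw [hc0 j u h0, hc0 j _ ((b4 j u).trans h0)]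
        exact c3 j u h0 hw
    · by_cases hA : A j (cl u)
      · right; left
        by_cases h2 : comp j u % 2 = 1
        · exact Or.inl ((hS j u).2 ⟨hA, h2⟩)
        · right
          obtain ⟨v, hv⟩ := hal.2 u
          refine ⟨v, (hS j v).2 ⟨?_, ?_⟩, hv.symm⟩
          · rw [← a1 v, hv]; exact hA
          · have h3 := b3 j v
            rw [hv] at h3
            have h4 := b1 j v
            have h5 := b2 j
            by_cases h6 : comp j v + 1 = q j
            · rw [h6, Nat.mod_self] at h3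
              exact absurd h3 h0
            · rw [Nat.mod_eq_of_lt (by omega)] at h3
              omega
      · right; right
        rw [hc1 j u h0, hc1 j _ (by rw [b4]; exact h0), a2]
        exact d j _ hA
  · -- h2
    intro j v hv
    obtain ⟨hA, ho⟩ := (hS j v).1 hv
    have h1 := hsucc j v ho
    constructor
    · rw [hc1 j v (by omega), hc1 j _ (by omega), a1]
    · rw [hc1 j (phi j v) (by rw [b4]; omega), hc1 j _ (by rw [b4, h1]; omega), a2, a2, a1]
  · intro j
    exact ⟨by rw [hc0 j _ (b5 j)]; exact c1 j,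
      by rw [hc0 j _ ((b4 j _).trans (b5 j))]; exact c2 j⟩
  · -- h1a
    intro u
    by_cases hu : cl u = cl p
    · by_cases hp : u = p
      · exact Or.inl hp
      · right; right
        rw [ca0 u hu, ca0 _ ((a1 u).trans hu)]
        exact e3 u hu hp
    · right
      obtain ⟨j, hj⟩ := f1 (cl u) hu
      by_cases ho : comp j u % 2 = 1
      · left
        refine ⟨j, ?_⟩
        rcases hj with hj | ⟨c', hj, hc'⟩
        · exact Or.inl ((hS j u).2 ⟨hj, ho⟩)
        · right
          obtain ⟨v, hv⟩ := (hphi j).2 u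
          refine ⟨v, (hS j v).2 ⟨?_, ?_⟩, hv.symm⟩
          · have : cl v = c' := by
              apply hs j
              rw [← a2, hv]; exact hc'
            rw [this]; exact hj
          · rw [← b4 j v, hv]; exact ho
      · right
        rw [ca1 u j hu hj, ca1 (al u) j (by rw [a1]; exact hu) (by rw [a1]; exact hj), b3]
        have h1 := b1 j u
        have h2 := b2 j
        have h2' := b2' j
        by_cases h6 : comp j u + 1 = q j
        · have e5 : ¬ ((comp j u + 1) % q j % 2 = 1 ∨ (comp j u + 1) % q j + 1 = q j) := by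
            rw [h6, Nat.mod_self]
            omega
          have e6 : comp j u % 2 = 1 ∨ comp j u + 1 = q j := Or.inr h6
          rw [decide_eq_false e5, decide_eq_true e6]
          rfl
        · have e4 : (comp j u + 1) % q j = comp j u + 1 := Nat.mod_eq_of_lt (by omega)
          have e5 : (comp j u + 1) % q j % 2 = 1 ∨ (comp j u + 1) % q j + 1 = q j := by
            rw [e4]
            omega
          have e6 : ¬ (comp j u % 2 = 1 ∨ comp j u + 1 = q j) := by omega
          rw [decide_eq_true e5, decide_eq_false e6]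
          rfl
  · -- h2a
    intro j v hv
    obtain ⟨hA, ho⟩ := (hS j v).1 hv
    obtain ⟨g1, g2⟩ := f5 j _ hA
    have k1 : A j (cl v) ∨ ∃ c', A j c' ∧ cl v = s j c' := Or.inl hA
    have k2 : A j (s j (cl v)) ∨ ∃ c', A j c' ∧ s j (cl v) = s j c' := Or.inr ⟨_, hA, rfl⟩
    constructor
    · rw [ca1 v j g1 k1, ca1 (phi j v) j (by rw [a2]; exact g2) (by rw [a2]; exact k2), b4]
    · rw [ca1 (al v) j (by rw [a1]; exact g1) (by rw [a1]; exact k1),
        ca1 (al (phi j v)) j (by rw [a1, a2]; exact g2) (by rw [a1, a2]; exact k2), b3, b3, b4]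
  · exact ⟨by rw [ca0 p rfl]; exact e1, by rw [ca0 _ (a1 p)]; exact e2⟩
  · -- D1
    intro j v hv hv'
    obtain ⟨-, ho⟩ := (hS j v).1 hv
    obtain ⟨-, ho'⟩ := (hS j _).1 hv'
    rw [hsucc j v ho] at ho'
    omega
  · -- D2
    intro j j' v hv v' hv'
    obtain ⟨hA, -⟩ := (hS j v).1 hv
    obtain ⟨hA', -⟩ := (hS j' v').1 hv'
    refine ⟨?_, ?_, ?_⟩
    · rintro rfl
      exact f2 _ _ _ hA hA'
    · intro h
      apply f3 j j' _ _ hA hA'
      rw [h, a2]
    · intro h
      apply f4 j j' _ _ hA hA'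
      rw [← a2, h, a2]
  · -- D3
    intro j
    constructor
    · intro h
      have := ((hS j _).1 h).2
      rw [b5] at this
      omega
    · intro v hv h
      have h1 := hsucc j v ((hS j v).1 hv).2
      rw [← h, b5] at h1
      omega
  · -- D4
    intro j
    constructor
    · intro h
      exact (f5 j _ ((hS j _).1 h).1).1 rfl
    · intro v hv h
      apply (f5 j _ ((hS j _).1 hv).1).2
      rw [h, a2]

end Pool.Agent.P45
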