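import Pool.Agent.Lib.P45dba8.GlueTS

/-! # Choice of the centres of the levels, with forbidden differences -/

set_option autoImplicit false

namespace Pool.Agent.P45

section rel

variable {m : ℕ} {L I : Type*} [DecidableEq L] [Fintype I]

/-- The relations inside `S`. -/
def RelOn (A B : I → L) (κ : I → ZMod m) (S : Finset L) (y : L → ZMod m) : Prop :=
  ∀ i, A i ∈ S → B i ∈ S → y (A i) - y (B i) ≠ κ i

theorem RelOn.step {A B : I → L} (hAB : ∀ i, A i ≠ B i) {κ : I → ZMod m} {S : Finset L}
    {y : L → ZMod m} (H : RelOn A B κ S y) {j : L} (hj : j ∉ S) (Cand : Finset (ZMod m))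
    (hc : (Finset.univ.filter (fun i => (A i = j ∧ B i ∈ S) ∨ (B i = j ∧ A i ∈ S))).card <
      Cand.card) :
    ∃ v ∈ Cand, RelOn A B κ (insert j S) (Function.update y j v) := by
  classical
  let N := Finset.univ.filter (fun i => (A i = j ∧ B i ∈ S) ∨ (B i = j ∧ A i ∈ S))
  let f : I → ZMod m := fun i => if A i = j then κ i + y (B i) else y (A i) - κ i
  have h1 : (N.image f).card < Cand.card := lt_of_le_of_lt Finset.card_image_le hc
  obtain ⟨v, hv, hv'⟩ := Finset.exists_mem_notMem_of_card_lt_card h1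
  refine ⟨v, hv, ?_⟩
  intro i hA hB h2
  have hne : ∀ z, z ∈ S → z ≠ j := fun z hz h => hj (h ▸ hz)
  rcases Finset.mem_insert.1 hA with hA | hA
  · rcases Finset.mem_insert.1 hB with hB | hB
    · exact hAB i (hA.trans hB.symm)
    · apply hv'
      refine Finset.mem_image.2 ⟨i, Finset.mem_filter.2 ⟨Finset.mem_univ _, Or.inl ⟨hA, hB⟩⟩, ?_⟩
      show (if A i = j then κ i + y (B i) else y (A i) - κ i) = v
      rw [if_pos hA, ← h2, hA, Function.update_self, Function.update_of_ne (hne _ hB)]
      ring
  · rcases Finset.mem_insert.1 hB with hB | hB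
    · apply hv'
      refine Finset.mem_image.2 ⟨i, Finset.mem_filter.2 ⟨Finset.mem_univ _, Or.inr ⟨hB, hA⟩⟩, ?_⟩
      show (if A i = j then κ i + y (B i) else y (A i) - κ i) = v
      rw [if_neg (hne _ hA), ← h2, hB, Function.update_self, Function.update_of_ne (hne _ hA)]
      ring
    · rw [Function.update_of_ne (hne _ hA), Function.update_of_ne (hne _ hB)] at h2
      exact H i hA hB h2

/-- Six units around a point. -/
theorem exists_unit_cand {m : ℕ} (hm : Odd m) (h7 : 7 ≤ m) (c : ZMod m) :
    ∃ Cand : Finset (ZMod m), 6 ≤ Cand.card ∧ ∀ v ∈ Cand, IsUnit (v - c) := by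
  classical
  have h2u : IsUnit (2 : ZMod m) := by
    have : IsUnit ((2 : ℕ) : ZMod m) := by
      rw [ZMod.isUnit_iff_coprime]
      exact Nat.coprime_two_left.2 hm
    exact_mod_cast this
  have h4u : IsUnit (4 : ZMod m) := by
    have : (4 : ZMod m) = 2 * 2 := by norm_num
    rw [this]; exact h2u.mul h2u
  let z : Fin 6 → ℤ := ![1, -1, 2, -2, 4, -4]
  let f : Fin 6 → ZMod m := fun i => c + (z i : ℤ)
  have hf : Function.Injective f := by
    intro i j hij
    have h1 : ((z i : ℤ) : ZMod m) = ((z j : ℤ) : ZMod m) := add_left_cancel hij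
    rw [ZMod.intCast_eq_intCast_iff_dvd_sub] at h1
    obtain ⟨r, hr⟩ := hm
    have h3 : (m : ℤ) = 2 * r + 1 := by rw [hr]; push_cast; ring
    have h7' : (7 : ℤ) ≤ m := by exact_mod_cast h7
    obtain ⟨q, hq⟩ := h1
    by_contra hne
    have hd : z j - z i = 1 ∨ z j - z i = -1 ∨ z j - z i = 2 ∨ z j - z i = -2 ∨ z j - z i = 3 ∨
        z j - z i = -3 ∨ z j - z i = 4 ∨ z j - z i = -4 ∨ z j - z i = 5 ∨ z j - z i = -5 ∨
        z j - z i = 6 ∨ z j - z i = -6 ∨ z j - z i = 8 ∨ z j - z i = -8 := by
      revert hne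
      fin_cases i <;> fin_cases j <;> simp [z]
    have hdiv : (m : ℤ) ∣ z j - z i := ⟨q, hq⟩
    have hcases : ∀ k : ℤ, (m : ℤ) ∣ k → k ≠ 0 → |k| ≤ 8 → |k| ≠ 7 → False := by
      intro k hk hk0 hk8 hk7
      have h4 : (m : ℤ) ≤ |k| := Int.le_of_dvd (abs_pos.2 hk0) ((dvd_abs _ _).2 hk)
      have h5 : |k| = 8 := by omega
      have h6 : (m : ℤ) ∣ 8 := by rw [← h5]; exact (dvd_abs _ _).2 hk
      obtain ⟨w, hw⟩ := h6
      have : w = 1 := by nlinarith
      rw [this] at hw
      omega
    rcases hd with h | h | h | h | h | h | h | h | h | h | h | h | h | h <;>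
      (rw [h] at hdiv; exact hcases _ hdiv (by norm_num) (by norm_num) (by norm_num))
  refine ⟨Finset.univ.image f, ?_, ?_⟩
  · rw [Finset.card_image_of_injective _ hf]
    simp
  · intro v hv
    obtain ⟨i, -, rfl⟩ := Finset.mem_image.1 hv
    have e : f i - c = ((z i : ℤ) : ZMod m) := by
      show c + (z i : ℤ) - c = _
      ring
    rw [e]
    fin_cases i
    · simpa [z] using isUnit_one
    · simpa [z] using isUnit_one.neg
    · simpa [z] using h2u
    · simpa [z] using h2u.neg
    · simpa [z] using h4u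
    · simpa [z] using h4u.neg

theorem RelOn.extend [Fintype L] (hm5 : 5 ≤ m) {A B : I → L} (hAB : ∀ i, A i ≠ B i)
    (κ : I → ZMod m) (h4 : ∀ j, (Finset.univ.filter (fun i => A i = j ∨ B i = j)).card ≤ 4)
    (U : Prop) (hU : U → 7 ≤ m ∧ Odd m) (p q : L) (hpq : p ≠ q) (τ : ZMod m) (S0 : Finset L)
    (y0 : L → ZMod m) (H0 : RelOn A B κ S0 y0) (hpS : U → ¬ (p ∈ S0 ∧ q ∈ S0)) :
    ∃ y : L → ZMod m, (∀ j ∈ S0, y j = y0 j) ∧ RelOn A B κ Finset.univ y ∧
      (U → IsUnit (y q - y p - τ)) := by
  classical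
  have hNZ : NeZero m := ⟨by omega⟩
  have key : ∀ T : Finset L, ∃ y : L → ZMod m, (∀ j ∈ S0, y j = y0 j) ∧
      RelOn A B κ (S0 ∪ T) y ∧ (U → p ∈ S0 ∪ T → q ∈ S0 ∪ T → IsUnit (y q - y p - τ)) := by
    intro T
    induction T using Finset.induction_on with
    | empty =>
      refine ⟨y0, fun j _ => rfl, by rw [Finset.union_empty]; exact H0, ?_⟩
      intro hu hp hq
      rw [Finset.union_empty] at hp hq
      exact absurd ⟨hp, hq⟩ (hpS hu)
    | insert j T hjT ih =>
      obtain ⟨y, y1, y2, y3⟩ := ih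
      by_cases hj : j ∈ S0 ∪ T
      · refine ⟨y, y1, ?_, ?_⟩
        · rw [Finset.union_insert, Finset.insert_eq_of_mem hj]; exact y2
        · rw [Finset.union_insert, Finset.insert_eq_of_mem hj]; exact y3
      · have hN : (Finset.univ.filter (fun i => (A i = j ∧ B i ∈ S0 ∪ T) ∨
            (B i = j ∧ A i ∈ S0 ∪ T))).card ≤ 4 := by
          refine le_trans (Finset.card_le_card ?_) (h4 j)
          intro i hi
          rw [Finset.mem_filter] at hi ⊢
          refine ⟨hi.1, ?_⟩
          rcases hi.2 with h | h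
          · exact Or.inl h.1
          · exact Or.inr h.1
        have hne : ∀ z, z ∈ S0 ∪ T → z ≠ j := fun z hz h => hj (h ▸ hz)
        have hjS : j ∉ S0 := fun h => hj (Finset.mem_union_left _ h)
        -- candidates
        obtain ⟨Cand, k1, k2⟩ : ∃ Cand : Finset (ZMod m), 5 ≤ Cand.card ∧
            ∀ v ∈ Cand, (U → j = q → IsUnit (v - y p - τ)) ∧ (U → j = p → IsUnit (y q - v - τ)) := by
          by_cases hu : U ∧ (j = p ∨ j = q)
          · obtain ⟨hu, hjpq⟩ := hu
            obtain ⟨m7, mo⟩ := hU hu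
            by_cases hjq : j = q
            · obtain ⟨Cand, k1, k2⟩ := exists_unit_cand mo m7 (y p + τ)
              refine ⟨Cand, by omega, fun v hv => ⟨fun _ _ => ?_, fun _ h => ?_⟩⟩
              · have := k2 v hv
                have e : v - (y p + τ) = v - y p - τ := by ring
                rwa [e] at this
              · exact absurd (h.symm.trans hjq) hpq
            · obtain ⟨Cand, k1, k2⟩ := exists_unit_cand mo m7 (y q - τ)
              refine ⟨Cand, by omega, fun v hv => ⟨fun _ h => absurd h hjq, fun _ _ => ?_⟩⟩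
              have := (k2 v hv).neg
              have e : -(v - (y q - τ)) = y q - v - τ := by ring
              rwa [e] at this
          · refine ⟨Finset.univ, ?_, fun v _ => ⟨fun h1 h2 => absurd ⟨h1, Or.inr h2⟩ hu,
              fun h1 h2 => absurd ⟨h1, Or.inl h2⟩ hu⟩⟩
            rw [Finset.card_univ, ZMod.card]; exact hm5
        obtain ⟨v, hv, hrel⟩ := y2.step hAB hj Cand (by omega)
        refine ⟨Function.update y j v, ?_, ?_, ?_⟩
        · intro i hi
          have hij : i ≠ j := by
            rintro rfl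
            exact hjS hi
          rw [Function.update_of_ne hij]
          exact y1 i hi
        · rw [Finset.union_insert]; exact hrel
        · intro hu hp hq
          rw [Finset.union_insert] at hp hq
          rcases Finset.mem_insert.1 hp with hp | hp
          · rcases Finset.mem_insert.1 hq with hq | hq
            · exact absurd (hp.trans hq.symm) hpq
            · rw [hp, Function.update_self, Function.update_of_ne (hne _ hq)]
              exact (k2 v hv).2 hu hp.symm
          · rcases Finset.mem_insert.1 hq with hq | hq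
            · rw [hq, Function.update_self, Function.update_of_ne (hne _ hp)]
              exact (k2 v hv).1 hu hq.symm
            · rw [Function.update_of_ne (hne _ hp), Function.update_of_ne (hne _ hq)]
              exact y3 hu hp hq
  obtain ⟨y, y1, y2, y3⟩ := key Finset.univ
  have eU : S0 ∪ Finset.univ = Finset.univ :=
    Finset.eq_univ_iff_forall.2 fun x => Finset.mem_union_right _ (Finset.mem_univ x)
  rw [eU] at y2 y3
  exact ⟨y, y1, y2, fun hu => y3 hu (Finset.mem_univ _) (Finset.mem_univ _)⟩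

end rel

end Pool.Agent.P45
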