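import Mathlib

/-! # MP_45dba8: the certificate with fourteen blocks, definitions

All blocks are paths; except for the plain step the first and the last depth of the window are not
used, each block has two adjacent depths of each letter, and consecutive steps at adjacent depths. -/

set_option autoImplicit false

namespace Pool.Agent.P45.Cert14

/-- The blocks: relative depths in the order of the path, and the cost. -/
def P14 : List (List ℕ × ℕ) :=
  [([0], 1), ([1, 3, 2, 4], 6), ([1, 2, 3, 6, 4, 5], 8), ([2, 3, 1, 4, 5, 6], 8),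
    ([1, 3, 2, 4, 6, 5, 7], 9), ([1, 2, 4, 6, 3, 5, 7, 8], 10), ([1, 3, 2, 4, 7, 6, 5, 8], 10),
    ([1, 4, 3, 2, 6, 5, 7], 10), ([1, 3, 2, 4, 7, 6, 8], 10), ([1, 3, 2, 6, 8, 7, 9], 11),
    ([3, 4, 1, 2, 6, 9, 7, 5, 8], 11), ([1, 2, 3, 5, 7, 8, 4, 6, 9, 10], 12),
    ([1, 3, 2, 7, 9, 8, 10], 12), ([2, 3, 1, 4, 5, 7, 9, 8, 10], 12)]

end Pool.Agent.P45.Cert14
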