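import Pool.Agent.Lib.P45dba8.Cert
import Pool.Agent.Lib.P45dba8.Cert14Defs
import Pool.Agent.Lib.P45dba8.Cert14Table

/-! # MP_45dba8: the certificate with fourteen blocks, threads and checks -/

set_option autoImplicit false

namespace Pool.Agent.P45.Cert14

open Cert

/-! ### Threads -/

/-- After the letters required by the list there is a path of at least `a` steps in the state `s`. -/
def Val (w : ℕ → Bool) : List (Option Bool) → Bool → ℕ → ℤ → Prop
  | [], s, i, a => ∃ m : ℕ, Reach P14 w i m ∧ decide (m % 2 = 0) = s ∧ a ≤ (m : ℤ)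
  | o :: r, s, i, a => okl o (w i) = true → Val w r s (i + 1) a

theorem Val.mono {w : ℕ → Bool} {r : List (Option Bool)} {s : Bool} {i : ℕ} {a b : ℤ}
    (hab : b ≤ a) (h : Val w r s i a) : Val w r s i b := by
  induction r generalizing i with
  | nil =>
    obtain ⟨m, h1, h2, h3⟩ := h
    exact ⟨m, h1, h2, hab.trans h3⟩
  | cons o r ih => exact fun ho => ih (h ho)

theorem Val.wait {w : ℕ → Bool} {s : Bool} {i : ℕ} {a : ℤ} (h : Val w [] s i a) :
    Val w [] s (i + 1) a := by
  obtain ⟨m, h1, h2, h3⟩ := h
  exact ⟨m, h1.wait, h2, h3⟩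

theorem val_of {w : ℕ → Bool} {s : Bool} {a : ℤ} (r : List (Option Bool)) (i : ℕ)
    (h : (∀ j o, r[j]? = some o → okl o (w (i + j)) = true) → Val w [] s (i + r.length) a) :
    Val w r s i a := by
  induction r generalizing i with
  | nil => exact h (fun j o hj => by simp at hj)
  | cons o r ih =>
    intro ho
    apply ih
    intro h'
    have := h (fun j o' hj => by
      cases j with
      | zero =>
        simp only [List.getElem?_cons_zero, Option.some.injEq] at hj
        subst hj
        exact ho
      | succ j =>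
        rw [List.getElem?_cons_succ] at hj
        have := h' j o' hj
        rwa [show i + (j + 1) = i + 1 + j by omega])
    rwa [List.length_cons, show i + (r.length + 1) = i + 1 + r.length by omega] at this

theorem breq_spec : ∀ b ∈ P14, ∀ s : Bool, (breq b s).length = b.2 ∧
    ∀ j < b.1.length, (breq b s)[bfun b.1 j]? = some (some (if j % 2 = 0 then s else !s)) := by
  decide

theorem Val.start {w : ℕ → Bool} {s : Bool} {i : ℕ} {a : ℤ} (h : Val w [] s i a)
    (b : List ℕ × ℕ) (hb : b ∈ P14) : Val w (breq b s) (bout b s) i (a + b.1.length) := by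
  obtain ⟨m, h1, h2, h3⟩ := h
  obtain ⟨hl, hs⟩ := breq_spec b hb s
  apply val_of
  intro hr
  rw [hl]
  refine ⟨m + b.1.length, h1.block b hb ?_, ?_, ?_⟩
  · intro j hj
    have h4 := hr _ _ (hs j hj)
    have h5 : (if j % 2 = 0 then s else !s) = w (i + bfun b.1 j) := by
      simpa only [okl, beq_iff_eq] using h4
    rw [← h5, ← h2]
    rcases Nat.mod_two_eq_zero_or_one j with e | e <;>
      rcases Nat.mod_two_eq_zero_or_one m with e' | e' <;>
      simp [e, e', Nat.add_mod]
  · unfold bout
    rw [← h2]
    rcases Nat.mod_two_eq_zero_or_one b.1.length with e | e <;>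
      rcases Nat.mod_two_eq_zero_or_one m with e' | e' <;>
      simp [e, e', Nat.add_mod]
  · push_cast
    linarith

/-! ### The table -/

/-- The pattern `p`. -/
def pt (p : ℕ) : List (Option Bool) × Bool := patL.getD p ([], false)

/-- The block number `z`. -/
def blk (z : ℕ) : List ℕ × ℕ := P14.getD z ([0], 1)

/-- The lists of starts. -/
def stL (s x : Bool) : List (ℕ × ℕ) :=
  match s, x with
  | false, false => stL00
  | false, true => stL01
  | true, false => stL10
  | true, true => stL11

/-- The gains of the blocks. -/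
def gn (z : ℕ) : ℕ := [1, 4, 6, 6, 7, 8, 8, 7, 7, 7, 9, 10, 7, 9].getD z 0

/-- The derivative of a pattern. -/
def derv (p : ℕ) (x : Bool) : ℕ :=
  if x then (derL.getD p (999, 999)).2 else (derL.getD p (999, 999)).1

/-- The thread `(p, u)` gives the thread `(q, v)` after the letter `x`. -/
def cov (p u : ℕ) (x : Bool) (q v : ℕ) : Bool :=
  if p < 2 then
    (q == p && Nat.ble v u) || (stL (p == 1) x).any (fun z => z.1 == q && Nat.ble v (u + gn z.2))
  else derv p x == q && Nat.ble v u

/-- Correctness of one derivative. -/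
def derOK (p : ℕ) (x : Bool) (q : ℕ) : Bool :=
  match pt p with
  | (o :: r, s) => okl o x && decide (pt q = (r, s))
  | _ => false

/-- Correctness of one start. -/
def stOK (s x : Bool) (z : ℕ × ℕ) : Bool :=
  match breq (blk z.2) s with
  | o :: r => okl o x && decide (pt z.1 = (r, bout (blk z.2) s)) && decide (z.2 < 14) &&
      decide (gn z.2 = (blk z.2).1.length)
  | _ => false

theorem der_ok : ∀ p < 122, 2 ≤ p → ∀ x : Bool, derv p x < 122 → derOK p x (derv p x) = true := by
  decide +kernel

theorem st_ok : ∀ s x : Bool, ∀ z ∈ stL s x, stOK s x z = true := by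
  decide +kernel

theorem blk_mem : ∀ z < 14, blk z ∈ P14 := by decide

theorem pt_small : ∀ p < 2, pt p = ([], p == 1) := by decide

theorem cov_sound {w : ℕ → Bool} {i p u q v : ℕ} {A : ℤ} (hp : p < 122) (hq : q < 122)
    (hV : Val w (pt p).1 (pt p).2 i (A + u)) (hc : cov p u (w i) q v = true) :
    Val w (pt q).1 (pt q).2 (i + 1) (A + v) := by
  unfold cov at hc
  split_ifs at hc with h2
  · rw [pt_small p h2] at hV
    rw [Bool.or_eq_true] at hc
    rcases hc with hc | hc
    · rw [Bool.and_eq_true, beq_iff_eq, Nat.ble_eq] at hc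
      obtain ⟨rfl, h3⟩ := hc
      rw [pt_small q h2]
      refine Val.mono ?_ hV.wait
      have : (v : ℤ) ≤ u := by exact_mod_cast h3
      linarith
    · rw [List.any_eq_true] at hc
      obtain ⟨z, hz, hc⟩ := hc
      rw [Bool.and_eq_true, beq_iff_eq, Nat.ble_eq] at hc
      obtain ⟨rfl, h3⟩ := hc
      have h4 := st_ok _ _ z hz
      unfold stOK at h4
      split at h4
      · rename_i o r hbr
        simp only [Bool.and_eq_true, decide_eq_true_eq] at h4
        obtain ⟨⟨⟨h5, h6⟩, h7⟩, h8⟩ := h4
        have h9 := hV.start (blk z.2) (blk_mem _ h7)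
        rw [hbr] at h9
        have h10 := h9 h5
        rw [h6]
        refine Val.mono ?_ h10
        rw [← h8]
        have : (v : ℤ) ≤ u + gn z.2 := by exact_mod_cast h3
        linarith
      · exact absurd h4 (by simp)
  · rw [Bool.and_eq_true, beq_iff_eq, Nat.ble_eq] at hc
    obtain ⟨rfl, h3⟩ := hc
    have h4 := der_ok p hp (by omega) (w i) hq
    unfold derOK at h4
    split at h4
    · rename_i o r s hbr
      rw [hbr] at hV
      rw [Bool.and_eq_true, decide_eq_true_eq] at h4
      rw [h4.2]
      refine Val.mono ?_ (hV h4.1)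
      have : (v : ℤ) ≤ u := by exact_mod_cast h3
      linarith
    · exact absurd h4 (by simp)

/-- The code of the row `c`. -/
def code (c : ℕ) : ℕ := (rowT.getD (c / 18) []).getD (c % 18) 0

/-- The list of threads with the code `N`. -/
def dec : ℕ → ℕ → List (ℕ × ℕ)
  | 0, _ => []
  | f + 1, N => if N = 0 then [] else
      ((N % 4096 - 1) % 128, (N % 4096 - 1) / 128) :: dec f (N / 4096)

/-- The last five letters. -/
def hh (c : ℕ) : ℕ := code c % 32

/-- The potential. -/
def pot (c : ℕ) : ℤ := (code c / 2 ^ 5 % 2048 : ℕ) - 1024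

/-- The next state. -/
def tgt (c : ℕ) (x : Bool) : ℕ := if x then code c / 2 ^ 27 % 512 else code c / 2 ^ 16 % 512

/-- The increment of the reference value. -/
def incr (c : ℕ) (x : Bool) : ℕ := if x then code c / 2 ^ 36 % 4 else code c / 2 ^ 25 % 4

/-- The threads. -/
def thr (c : ℕ) : List (ℕ × ℕ) := dec 64 (code c / 2 ^ 38)

/-- The sign of a letter. -/
def sg (b : Bool) : ℤ := if b then 1 else -1

/-- The contribution of one more letter. -/
def cost (h : ℕ) (x : Bool) : ℤ :=
  2 * (27 * sg (h.testBit 0) + 20 * sg (h.testBit 1) + 12 * sg (h.testBit 2) +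
    5 * sg (h.testBit 3) + 2 * sg (h.testBit 4)) * sg x

/-- The contribution of the end of the word. -/
def nearh (h : ℕ) : ℤ :=
  20 + 24 * (sg (h.testBit 0) * sg (h.testBit 1)) +
    5 * (2 * (sg (h.testBit 0) * sg (h.testBit 2)) + 1) +
    2 * (2 * (sg (h.testBit 0) * sg (h.testBit 3)) + 2 * (sg (h.testBit 1) * sg (h.testBit 2)))

/-- There is a thread for the final state. -/
def hasT (c : ℕ) : Bool := (thr c).any (fun pu => pu.1 == 0)

/-- The threads after one more letter. -/
def srcs (c : ℕ) (x : Bool) : List (ℕ × ℕ) :=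
  (thr c).flatMap fun pu => if pu.1 < 2 then pu :: (stL (pu.1 == 1) x).map (fun z => (z.1, pu.2 + gn z.2))
    else [(derv pu.1 x, pu.2)]

theorem cov_of_srcs {c : ℕ} {x : Bool} {q v : ℕ}
    (h : ∃ z ∈ srcs c x, (z.1 == q && Nat.ble v z.2) = true) :
    ∃ pu ∈ thr c, cov pu.1 pu.2 x q v = true := by
  obtain ⟨z, hz, h⟩ := h
  unfold srcs at hz
  rw [List.mem_flatMap] at hz
  obtain ⟨pu, hpu, hz⟩ := hz
  refine ⟨pu, hpu, ?_⟩
  unfold cov
  by_cases h2 : pu.1 < 2
  · rw [if_pos h2] at hz ⊢
    rcases List.mem_cons.1 hz with rfl | hz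
    · rw [Bool.and_eq_true, beq_iff_eq] at h
      rw [Bool.or_eq_true]
      left
      rw [Bool.and_eq_true, beq_iff_eq]
      exact ⟨h.1.symm, h.2⟩
    · rw [List.mem_map] at hz
      obtain ⟨y, hy, rfl⟩ := hz
      rw [Bool.or_eq_true]
      right
      rw [List.any_eq_true]
      exact ⟨y, hy, h⟩
  · rw [if_neg h2] at hz ⊢
    rw [List.mem_singleton] at hz
    subst hz
    exact h

/-- The check of one transition. -/
def trOK (c : ℕ) (x : Bool) : Bool :=
  decide (tgt c x < 314) && decide (hh (tgt c x) = (2 * hh c + x.toNat) % 32) &&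
  (thr (tgt c x)).all (fun qv => decide (qv.1 < 122) &&
    (srcs c x).any (fun z => z.1 == qv.1 && Nat.ble (qv.2 + incr c x) z.2)) &&
  (decide (c < 4) || (decide (4 ≤ tgt c x) &&
    decide (pot (tgt c x) + 108 ≤ pot c + 196 * (incr c x : ℤ) + cost (hh c) x))) &&
  (hasT (tgt c x) || (!x && !hasT c))

/-- The check of one final state. -/
def finOK (c : ℕ) : Bool :=
  decide (c < 4) || (thr c).all (fun pu => !(pu.1 == 0) ||
    decide (-558 ≤ pot c + 196 * ((pu.2 : ℤ) - 3) + nearh (hh c)))

/-- The check of `n` rows of the table, beginning with the row `a`. -/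
def rowsOK (a n : ℕ) : Bool :=
  (List.range n).all (fun c => trOK (a + c) false && trOK (a + c) true && finOK (a + c))

theorem rowsOK_spec {a n c : ℕ} (h : rowsOK a n = true) (h1 : a ≤ c) (h2 : c < a + n) :
    (trOK c false = true ∧ trOK c true = true) ∧ finOK c = true := by
  unfold rowsOK at h
  rw [List.all_eq_true] at h
  have h3 := h (c - a) (List.mem_range.2 (by omega))
  rw [show a + (c - a) = c by omega] at h3
  simpa only [Bool.and_eq_true] using h3

end Pool.Agent.P45.Cert14
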