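import Mathlib

/-! # MP_45dba8: the certificate for long alternating paths, definitions

The word `w` lists the letters of the labels `2k-1, 2k-2, ..., 1` (`true` for the side which the path
starts and ends with); the label `2k` has the letter `false`. -/

set_option autoImplicit false

namespace Pool.Agent.P45.Cert

/-- The blocks: relative depths in the order of the path, and the cost. -/
def P4 : List (List ℕ × ℕ) :=
  [([0], 1), ([1, 3, 2, 4], 6), ([2, 3, 1, 4, 5, 6], 8), ([1, 2, 3, 6, 4, 5], 8),
    ([1, 3, 2, 4, 7, 6, 5, 8], 10)]

/-- The word with the letter of the label `2k` in front. -/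
def G (w : ℕ → Bool) : ℕ → Bool
  | 0 => false
  | i + 1 => w i

/-- The signs of the letters. -/
def sx (w : ℕ → Bool) (t : ℕ) : ℤ := if G w t then 1 else -1

/-- The inner part of the autocorrelation. -/
def Aw (w : ℕ → Bool) (l D : ℕ) : ℤ := ∑ t ∈ Finset.Ico l (D + 1), sx w t * sx w (t - l)

/-- The edge part at the label `2k`. -/
def farw (w : ℕ → Bool) (l : ℕ) : ℤ := ∑ t ∈ Finset.range l, sx w t * sx w (l - 1 - t)

/-- The edge part at the label `1`. -/
def nearw (w : ℕ → Bool) (l D : ℕ) : ℤ :=
  ∑ j ∈ Finset.Icc 1 (l - 1), sx w (D + 1 - j) * sx w (D + 1 - (l - j))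

/-- The autocorrelation at the lag `l`. -/
def Cw (w : ℕ → Bool) (l D : ℕ) : ℤ := 2 * Aw w l D + farw w l + nearw w l D

/-- The letters required by a block entered in the state `s`. -/
def breq (b : List ℕ × ℕ) (s : Bool) : List (Option Bool) :=
  (List.range b.2).map fun j =>
    if b.1.idxOf j < b.1.length then some (if b.1.idxOf j % 2 = 0 then s else !s) else none

/-- The state after the block. -/
def bout (b : List ℕ × ℕ) (s : Bool) : Bool := if b.1.length % 2 = 0 then s else !s

/-- The letter `x` satisfies the requirement `o`. -/
def okl (o : Option Bool) (x : Bool) : Bool :=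
  match o with
  | none => true
  | some y => y == x

end Pool.Agent.P45.Cert
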