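import Pool.Agent.Lib.P45dba8.Cert14
import Pool.Agent.Lib.P45dba8.CertWord
import Pool.Agent.Lib.P45dba8.C14Avg

/-! # MP_45dba8: the certificate with fourteen blocks for the labels -/

set_option autoImplicit false

namespace Pool.Agent.P45

open Cert Cert14

/-- A unit, a side without the label `2k` and a path of the blocks `P14` with `m` steps, where
`196 m ≥ 206 k - 666`. -/
theorem exists_reach14 {k : ℕ} (hk : 3 ≤ k) (S : Finset ℕ)
    (hS : S ⊆ Finset.Icc 1 (2 * k)) (hc : S.card = k) :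
    ∃ v : ZMod (4 * k + 1), IsUnit v ∧ ∃ S' : Finset ℕ,
      (S' = S ∨ S' = Finset.Icc 1 (2 * k) \ S) ∧ S' ⊆ Finset.Icc 1 (2 * k) ∧
      S'.card = k ∧ 2 * k ∉ LW k S' v ∧ (LW k S' v).card = k ∧
      ∃ m, Reach P14 (dword k (LW k S' v)) (2 * k - 1) m ∧ m % 2 = 1 ∧
        206 * k ≤ 196 * m + 666 := by
  obtain ⟨v, hv, hsum⟩ := exists_unit_C14 hk S hS hc
  obtain ⟨S', hS1, hS2, hS3, h2k, hcard, hw, he⟩ := side_free (by omega) S hS hc v hv
  refine ⟨v, hv, S', hS1, hS2, hS3, h2k, hcard, ?_⟩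
  have hC : ∀ l, 1 ≤ l → l ≤ 5 → Cw (dword k (LW k S' v)) l (2 * k - 1) =
      2 * wcor (LW k S v) (2 * k) l + wedge (LW k S v) (2 * k) l := by
    intro l h1 h2
    rw [Cw_dword h2k h1 (by omega), hw l, he l h1 (by omega)]
  have hex : ∃ i < 2 * k - 1, dword k (LW k S' v) i = true := by
    have hne : (LW k S' v).Nonempty := by
      rw [← Finset.card_pos, hcard]
      omega
    obtain ⟨j, hj⟩ := hne
    have hj' := Finset.mem_Icc.1 (LW_subset S' v hj)
    have hj2 : j ≠ 2 * k := fun h => h2k (h ▸ hj)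
    exact ⟨2 * k - 1 - j, by omega, (dword_eq_true (by omega)).2 hj⟩
  obtain ⟨m, hm1, hm2, hm3⟩ := cert14 (dword k (LW k S' v)) (2 * k - 1) (by omega) hex
  refine ⟨m, hm1, hm2, ?_⟩
  rw [hC 1 (by norm_num) (by norm_num), hC 2 (by norm_num) (by norm_num),
    hC 3 (by norm_num) (by norm_num), hC 4 (by norm_num) (by norm_num),
    hC 5 (by norm_num) (by norm_num)] at hm3
  have hcast : ((2 * k - 1 : ℕ) : ℤ) = 2 * (k : ℤ) - 1 := by
    rw [Nat.cast_sub (by omega)]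
    push_cast
    ring
  rw [hcast] at hm3
  omega

/-- For odd `k ≥ 29` there is a path of the blocks `P14` with at least `k` steps. -/
theorem exists_reach14_odd {k : ℕ} (hk : 29 ≤ k) (hodd : k % 2 = 1) (S : Finset ℕ)
    (hS : S ⊆ Finset.Icc 1 (2 * k)) (hc : S.card = k) :
    ∃ v : ZMod (4 * k + 1), IsUnit v ∧ ∃ S' : Finset ℕ,
      (S' = S ∨ S' = Finset.Icc 1 (2 * k) \ S) ∧ S' ⊆ Finset.Icc 1 (2 * k) ∧
      S'.card = k ∧ 2 * k ∉ LW k S' v ∧ (LW k S' v).card = k ∧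
      ∃ m, Reach P14 (dword k (LW k S' v)) (2 * k - 1) m ∧ m % 2 = 1 ∧ k ≤ m := by
  obtain ⟨v, hv, S', h1, h2, h3, h4, h5, m, h6, h7, h8⟩ := exists_reach14 (by omega) S hS hc
  exact ⟨v, hv, S', h1, h2, h3, h4, h5, m, h6, h7, by omega⟩

end Pool.Agent.P45
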