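import Mathlib

/-! # Mixed matchings: two cyclic orders of `ZMod h`, `h` odd

`suc π` is the successor map of the cyclic order `π`. For two cyclic orders and a point `r` whose
neighbours are different in the two orders there is a matching of the points other than `r` by
steps of both orders which uses both orders. -/

set_option autoImplicit false

namespace Pool.Agent.P45

/-- The successor in the cyclic order `π`. -/
def suc {h : ℕ} (π : ZMod h ≃ ZMod h) : Equiv.Perm (ZMod h) :=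
  (π.symm.trans (Equiv.addRight 1)).trans π

theorem suc_apply {h : ℕ} (π : ZMod h ≃ ZMod h) (c : ZMod h) : suc π c = π (π.symm c + 1) := rfl

theorem suc_symm_apply {h : ℕ} (π : ZMod h ≃ ZMod h) (c : ZMod h) :
    (suc π).symm c = π (π.symm c - 1) := by
  rw [Equiv.symm_apply_eq, suc_apply, Equiv.symm_apply_apply, sub_add_cancel, Equiv.apply_symm_apply]

/-- The steps of `σ` from the points of `f` and the steps of `τ` from the points of `g` cover
every point `c` exactly `I c` times. -/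
def MCov {h : ℕ} (σ τ : Equiv.Perm (ZMod h)) (f g I : ZMod h → ℕ) : Prop :=
  ∀ c, f c + f (σ.symm c) + g c + g (τ.symm c) = I c

theorem MCov.add {h : ℕ} {σ τ : Equiv.Perm (ZMod h)} {f g I f' g' I' : ZMod h → ℕ}
    (H : MCov σ τ f g I) (H' : MCov σ τ f' g' I') : MCov σ τ (f + f') (g + g') (I + I') := by
  intro c
  have h1 := H c
  have h2 := H' c
  simp only [Pi.add_apply]
  omega

theorem MCov.zero {h : ℕ} (σ τ : Equiv.Perm (ZMod h)) : MCov σ τ 0 0 0 := by
  intro c
  rfl

/-- One step of `σ`. -/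
theorem MCov.one_left {h : ℕ} (σ τ : Equiv.Perm (ZMod h)) (c : ZMod h) :
    MCov σ τ (Pi.single c 1) 0 (Pi.single c 1 + Pi.single (σ c) 1) := by
  classical
  intro x
  simp only [Pi.add_apply, Pi.zero_apply, Pi.single_apply, add_zero, Equiv.symm_apply_eq]

/-- One step of `τ`. -/
theorem MCov.one_right {h : ℕ} (σ τ : Equiv.Perm (ZMod h)) (c : ZMod h) :
    MCov σ τ 0 (Pi.single c 1) (Pi.single c 1 + Pi.single (τ c) 1) := by
  classical
  intro x
  simp only [Pi.add_apply, Pi.zero_apply, Pi.single_apply, zero_add, Equiv.symm_apply_eq]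

section line

variable {h : ℕ} (σ τ : Equiv.Perm (ZMod h)) (v : ℕ → ZMod h)

/-- The indicator function of the points with the numbers in `[a, b)`. -/
def seg (a b : ℕ) : ZMod h → ℕ := ∑ i ∈ Finset.Ico a b, Pi.single (v i) 1

theorem seg_add {a b c : ℕ} (h1 : a ≤ b) (h2 : b ≤ c) : seg v a b + seg v b c = seg v a c :=
  Finset.sum_Ico_consecutive _ h1 h2

theorem seg_one (a : ℕ) : seg v a (a + 1) = Pi.single (v a) 1 := by
  unfold seg
  rw [Nat.Ico_succ_singleton, Finset.sum_singleton]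

theorem seg_self (a : ℕ) : seg v a a = 0 := by
  unfold seg
  rw [Finset.Ico_self, Finset.sum_empty]

/-- A matching of the multiset `I`; no step of `τ` leaves `q`. -/
def MM (q : ZMod h) (I : ZMod h → ℕ) : Prop :=
  ∃ f g, MCov σ τ f g I ∧ g q = 0

/-- The same with at least one step of `τ`. -/
def MM1 (q : ZMod h) (I : ZMod h → ℕ) : Prop :=
  ∃ f g, MCov σ τ f g I ∧ g q = 0 ∧ ∃ c, g c ≠ 0

variable {σ τ v}

theorem MM.add {q : ZMod h} {I I' : ZMod h → ℕ} (H : MM σ τ q I) (H' : MM σ τ q I') :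
    MM σ τ q (I + I') := by
  obtain ⟨f, g, h1, h2⟩ := H
  obtain ⟨f', g', h1', h2'⟩ := H'
  exact ⟨f + f', g + g', h1.add h1', by rw [Pi.add_apply, h2, h2']⟩

theorem MM1.add {q : ZMod h} {I I' : ZMod h → ℕ} (H : MM1 σ τ q I) (H' : MM σ τ q I') :
    MM1 σ τ q (I + I') := by
  obtain ⟨f, g, h1, h2, c, h3⟩ := H
  obtain ⟨f', g', h1', h2'⟩ := H'
  exact ⟨f + f', g + g', h1.add h1', by rw [Pi.add_apply, h2, h2'], c, by
    rw [Pi.add_apply]; omega⟩

/-- Even segments of the line. -/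
theorem MM.line (hv : ∀ i, v (i + 1) = σ (v i)) (q : ZMod h) (a n : ℕ) :
    MM σ τ q (seg v a (a + 2 * n)) := by
  induction n with
  | zero => rw [mul_zero, add_zero, seg_self]; exact ⟨0, 0, MCov.zero σ τ, rfl⟩
  | succ n ih =>
    have e : a + 2 * (n + 1) = a + 2 * n + 1 + 1 := by ring
    rw [e, ← seg_add v (a := a) (b := a + 2 * n) (c := a + 2 * n + 1 + 1) (by omega) (by omega),
      ← seg_add v (a := a + 2 * n) (b := a + 2 * n + 1) (c := a + 2 * n + 1 + 1) (by omega)
        (by omega), seg_one, seg_one, hv]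
    exact ih.add ⟨_, _, MCov.one_left σ τ (v (a + 2 * n)), rfl⟩

theorem MM.seg_even (hv : ∀ i, v (i + 1) = σ (v i)) (q : ZMod h) {a b : ℕ} (hab : a ≤ b)
    (he : (b - a) % 2 = 0) : MM σ τ q (seg v a b) := by
  obtain ⟨n, hn⟩ : ∃ n, b = a + 2 * n := ⟨(b - a) / 2, by omega⟩
  rw [hn]
  exact MM.line hv q a n

/-- An edge of `τ` between two points. -/
theorem MM1.edge {q c d : ZMod h} (hc : (τ c = d ∧ c ≠ q) ∨ (τ d = c ∧ d ≠ q)) :
    MM1 σ τ q (Pi.single c 1 + Pi.single d 1) := by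
  classical
  rcases hc with ⟨h1, h2⟩ | ⟨h1, h2⟩
  · refine ⟨0, Pi.single c 1, ?_, ?_, c, by simp⟩
    · rw [← h1]; exact MCov.one_right σ τ c
    · rw [Pi.single_eq_of_ne (Ne.symm h2)]
  · refine ⟨0, Pi.single d 1, ?_, ?_, d, by simp⟩
    · rw [← h1, add_comm]; exact MCov.one_right σ τ d
    · rw [Pi.single_eq_of_ne (Ne.symm h2)]

/-- The interval `[j, N]` without any of its points has a matching. -/
def Blo (σ τ : Equiv.Perm (ZMod h)) (v : ℕ → ZMod h) (q : ZMod h) (N j : ℕ) : Prop :=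
  ∀ t, j ≤ t → t ≤ N → ∃ I, I + Pi.single (v t) 1 = seg v j (N + 1) ∧ MM σ τ q I

/-- The interval induction. -/
theorem mix_ind (hv : ∀ i, v (i + 1) = σ (v i)) (q : ZMod h) (N : ℕ) (hN : N % 2 = 0)
    (hcross : ∀ j, 2 ≤ j → j ≤ N → j % 2 = 0 → ∃ s t, 1 ≤ s ∧ s < j ∧ j ≤ t ∧ t ≤ N ∧
      ((τ (v s) = v t ∧ v s ≠ q) ∨ (τ (v t) = v s ∧ v t ≠ q))) :
    ∀ j, 2 ≤ j → j ≤ N → j % 2 = 0 → Blo σ τ v q N j → MM1 σ τ q (seg v 1 (N + 1)) := by
  intro j
  induction j using Nat.strong_induction_on with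
  | _ j ih =>
    intro hj2 hjN hje hB
    obtain ⟨s, t, hs1, hsj, hjt, htN, hst⟩ := hcross j hj2 hjN hje
    obtain ⟨I, hI, hMI⟩ := hB t hjt htN
    have hE := MM1.edge (σ := σ) (τ := τ) (q := q) hst
    by_cases hso : s % 2 = 1
    · have h1 : MM σ τ q (seg v 1 s) := MM.seg_even hv q hs1 (by omega)
      have h2 : MM σ τ q (seg v (s + 1) j) := MM.seg_even hv q hsj (by omega)
      have h3 := ((hE.add h1).add h2).add hMI
      have e : seg v 1 (N + 1) =
          Pi.single (v s) 1 + Pi.single (v t) 1 + seg v 1 s + seg v (s + 1) j + I := by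
        rw [← seg_add v hs1 (by omega : s ≤ N + 1),
          ← seg_add v (by omega : s ≤ s + 1) (by omega : s + 1 ≤ N + 1), seg_one,
          ← seg_add v (by omega : s + 1 ≤ j) (by omega : j ≤ N + 1), ← hI]
        abel
      rw [e]
      exact h3
    · have hs2 : 2 ≤ s := by omega
      refine ih s hsj hs2 (by omega) (by omega) ?_
      intro t' h1 h2
      by_cases h3 : j ≤ t'
      · obtain ⟨I', hI', hM'⟩ := hB t' h3 h2
        refine ⟨seg v s j + I', ?_, (MM.seg_even hv q hsj.le (by omega)).add hM'⟩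
        rw [add_assoc, hI', seg_add v (by omega) (by omega)]
      · by_cases h4 : t' % 2 = 0
        · refine ⟨seg v s t' + seg v (t' + 1) (N + 1), ?_, ?_⟩
          · rw [← seg_add v h1 (by omega : t' ≤ N + 1),
              ← seg_add v (by omega : t' ≤ t' + 1) (by omega : t' + 1 ≤ N + 1), seg_one]
            abel
          · exact (MM.seg_even hv q h1 (by omega)).add (MM.seg_even hv q (by omega) (by omega))
        · refine ⟨Pi.single (v s) 1 + Pi.single (v t) 1 + seg v (s + 1) t' +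
            seg v (t' + 1) j + I, ?_, ?_⟩
          · rw [← seg_add v (by omega : s ≤ s + 1) (by omega : s + 1 ≤ N + 1), seg_one,
              ← seg_add v (by omega : s + 1 ≤ t') (by omega : t' ≤ N + 1),
              ← seg_add v (by omega : t' ≤ t' + 1) (by omega : t' + 1 ≤ N + 1), seg_one,
              ← seg_add v (by omega : t' + 1 ≤ j) (by omega : j ≤ N + 1), ← hI]
            abel
          · obtain ⟨f, g, k1, k2, _⟩ := hE
            exact (((MM.add ⟨f, g, k1, k2⟩
              (MM.seg_even hv q (by omega) (by omega))).add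
              (MM.seg_even hv q (by omega) (by omega))).add hMI)

end line

/-- The points with the numbers `1, ..., h - 1` are all points except `r`. -/
theorem seg_all {h : ℕ} (h1 : 1 < h) (π : ZMod h ≃ ZMod h) (r c : ZMod h) :
    seg (fun i : ℕ => π (π.symm r + (i : ZMod h))) 1 h c = if c = r then 0 else 1 := by
  classical
  have hNZ : NeZero h := ⟨by omega⟩
  unfold seg
  rw [Finset.sum_apply]
  have key : ∀ i ∈ Finset.Ico 1 h, (Pi.single (π (π.symm r + (i : ZMod h))) 1 : ZMod h → ℕ) c =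
      if i = (π.symm c - π.symm r).val then 1 else 0 := by
    intro i hi
    rw [Finset.mem_Ico] at hi
    rw [Pi.single_apply]
    have e : c = π (π.symm r + (i : ZMod h)) ↔ i = (π.symm c - π.symm r).val := by
      constructor
      · intro h'
        rw [h', Equiv.symm_apply_apply, add_sub_cancel_left, ZMod.val_natCast_of_lt hi.2]
      · intro h'
        rw [h', ZMod.natCast_zmod_val, add_sub_cancel, Equiv.apply_symm_apply]
    by_cases h' : c = π (π.symm r + (i : ZMod h))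
    · rw [if_pos h', if_pos (e.1 h')]
    · rw [if_neg h', if_neg (fun h'' => h' (e.2 h''))]
  rw [Finset.sum_congr rfl key, Finset.sum_ite_eq']
  by_cases hc : c = r
  · rw [if_pos hc, if_neg]
    rw [hc, sub_self, ZMod.val_zero, Finset.mem_Ico]
    omega
  · rw [if_neg hc, if_pos]
    rw [Finset.mem_Ico]
    refine ⟨?_, ZMod.val_lt _⟩
    rw [Nat.one_le_iff_ne_zero]
    intro h'
    rw [ZMod.val_eq_zero, sub_eq_zero] at h'
    exact hc (π.symm.injective h')

/-- From multiplicities to a partition. -/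
theorem mix_of_cov {h : ℕ} {σ τ : Equiv.Perm (ZMod h)} {f g I : ZMod h → ℕ} {r : ZMod h}
    (H : MCov σ τ f g I) (hI : ∀ c, I c = if c = r then 0 else 1) :
    (∀ c, c ≠ r →
      (f c ≠ 0 ∧ f (σ.symm c) = 0 ∧ g c = 0 ∧ g (τ.symm c) = 0) ∨
      (f c = 0 ∧ f (σ.symm c) ≠ 0 ∧ g c = 0 ∧ g (τ.symm c) = 0) ∨
      (f c = 0 ∧ f (σ.symm c) = 0 ∧ g c ≠ 0 ∧ g (τ.symm c) = 0) ∨
      (f c = 0 ∧ f (σ.symm c) = 0 ∧ g c = 0 ∧ g (τ.symm c) ≠ 0)) ∧
    f r = 0 ∧ f (σ.symm r) = 0 ∧ g r = 0 ∧ g (τ.symm r) = 0 := by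
  constructor
  · intro c hc
    have h1 := H c
    rw [hI c, if_neg hc] at h1
    omega
  · have h1 := H r
    rw [hI r, if_pos rfl] at h1
    omega

/-- MIXED MATCHING, neighbours of `r` different. -/
theorem mix_main {h : ℕ} (hh : Odd h) (h5 : 5 ≤ h) (π π' : ZMod h ≃ ZMod h) (r : ZMod h)
    (h1 : suc π' r ≠ suc π r) (h2 : suc π' r ≠ (suc π).symm r) :
    ∃ f g : ZMod h → ℕ, MCov (suc π) (suc π') f g (fun c => if c = r then 0 else 1) ∧
      (∃ c, f c ≠ 0) ∧ ∃ c, g c ≠ 0 := by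
  classical
  have hNZ : NeZero h := ⟨by omega⟩
  have ho : h % 2 = 1 := Nat.odd_iff.1 hh
  set v : ℕ → ZMod h := fun i => π (π.symm r + (i : ZMod h)) with hvdef
  set q : ℕ → ZMod h := fun i => π' (π'.symm r + (i : ZMod h)) with hqdef
  have hv : ∀ i, v (i + 1) = suc π (v i) := by
    intro i
    show π (π.symm r + ((i + 1 : ℕ) : ZMod h)) = suc π (π (π.symm r + (i : ZMod h)))
    rw [suc_apply, Equiv.symm_apply_apply, Nat.cast_succ, add_assoc]
  have hq : ∀ i, q (i + 1) = suc π' (q i) := by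
    intro i
    show π' (π'.symm r + ((i + 1 : ℕ) : ZMod h)) = suc π' (π' (π'.symm r + (i : ZMod h)))
    rw [suc_apply, Equiv.symm_apply_apply, Nat.cast_succ, add_assoc]
  have hv0 : v 0 = r := by
    show π (π.symm r + ((0 : ℕ) : ZMod h)) = r
    rw [Nat.cast_zero, add_zero, Equiv.apply_symm_apply]
  have hq0 : q 0 = r := by
    show π' (π'.symm r + ((0 : ℕ) : ZMod h)) = r
    rw [Nat.cast_zero, add_zero, Equiv.apply_symm_apply]
  let P : ZMod h → ℕ := fun c => (π.symm c - π.symm r).val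
  let Q : ZMod h → ℕ := fun c => (π'.symm c - π'.symm r).val
  have hvP : ∀ c, v (P c) = c := by
    intro c
    show π (π.symm r + (((π.symm c - π.symm r).val : ℕ) : ZMod h)) = c
    rw [ZMod.natCast_zmod_val, add_sub_cancel, Equiv.apply_symm_apply]
  have hPv : ∀ i, i < h → P (v i) = i := by
    intro i hi
    show (π.symm (π (π.symm r + (i : ZMod h))) - π.symm r).val = i
    rw [Equiv.symm_apply_apply, add_sub_cancel_left, ZMod.val_natCast_of_lt hi]
  have hqQ : ∀ c, q (Q c) = c := by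
    intro c
    show π' (π'.symm r + (((π'.symm c - π'.symm r).val : ℕ) : ZMod h)) = c
    rw [ZMod.natCast_zmod_val, add_sub_cancel, Equiv.apply_symm_apply]
  have hQq : ∀ i, i < h → Q (q i) = i := by
    intro i hi
    show (π'.symm (π' (π'.symm r + (i : ZMod h))) - π'.symm r).val = i
    rw [Equiv.symm_apply_apply, add_sub_cancel_left, ZMod.val_natCast_of_lt hi]
  have hPlt : ∀ c, P c < h := fun c => ZMod.val_lt _
  have hQlt : ∀ c, Q c < h := fun c => ZMod.val_lt _
  have hP0 : ∀ c, c ≠ r → 1 ≤ P c := by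
    intro c hc
    rw [Nat.one_le_iff_ne_zero]
    intro h'
    apply hc
    rw [← hvP c, h', hv0]
  have hQ0 : ∀ c, c ≠ r → 1 ≤ Q c := by
    intro c hc
    rw [Nat.one_le_iff_ne_zero]
    intro h'
    apply hc
    rw [← hqQ c, h', hq0]
  have hq1 : q 1 = suc π' r := by rw [← hq0]; exact hq 0
  have hv1 : v 1 = suc π r := by rw [← hv0]; exact hv 0
  have hvN : v (h - 1) = (suc π).symm r := by
    rw [Equiv.eq_symm_apply, ← hv]
    have : h - 1 + 1 = h := by omega
    rw [this]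
    show π (π.symm r + ((h : ℕ) : ZMod h)) = r
    rw [ZMod.natCast_self, add_zero, Equiv.apply_symm_apply]
  -- the crossing edges
  have hcross : ∀ j, 2 ≤ j → j ≤ h - 1 → j % 2 = 0 → ∃ s t, 1 ≤ s ∧ s < j ∧ j ≤ t ∧ t ≤ h - 1 ∧
      ((suc π' (v s) = v t ∧ v s ≠ q 1) ∨ (suc π' (v t) = v s ∧ v t ≠ q 1)) := by
    intro j hj2 hjN _
    by_contra hno
    have hst : ∀ c d, c ≠ r → d ≠ r → P c < j → j ≤ P d →
        ¬ ((suc π' c = d ∧ c ≠ q 1) ∨ (suc π' d = c ∧ d ≠ q 1)) := by
      intro c d hc hd hcj hdj h'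
      apply hno
      refine ⟨P c, P d, hP0 c hc, hcj, hdj, ?_, ?_⟩
      · have := hPlt d; omega
      · rw [hvP, hvP]; exact h'
    have hne : ∀ i, 1 ≤ i → i < h → q i ≠ r := by
      intro i hi1 hi2 h'
      have h3 := hQq i hi2
      rw [h', ← hq0, hQq 0 (by omega)] at h3
      omega
    have hne1 : ∀ i, 2 ≤ i → i < h → q i ≠ q 1 := by
      intro i hi1 hi2 h'
      have h3 := hQq i hi2
      rw [h', hQq 1 (by omega)] at h3
      omega
    have hstep : ∀ i, 2 ≤ i → i + 1 < h → (P (q i) < j ↔ P (q (i + 1)) < j) := by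
      intro i hi1 hi2
      constructor
      · intro h3
        by_contra h4
        exact hst (q i) (q (i + 1)) (hne i (by omega) (by omega)) (hne _ (by omega) (by omega)) h3
          (by omega) (Or.inl ⟨(hq i).symm, hne1 i hi1 (by omega)⟩)
      · intro h3
        by_contra h4
        exact hst (q (i + 1)) (q i) (hne _ (by omega) (by omega)) (hne i (by omega) (by omega)) h3
          (by omega) (Or.inr ⟨(hq i).symm, hne1 i hi1 (by omega)⟩)
    have hall : ∀ n, n + 2 < h → (P (q 2) < j ↔ P (q (n + 2)) < j) := by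
      intro n
      induction n with
      | zero => intro _; exact Iff.rfl
      | succ n ih =>
        intro hn
        rw [ih (by omega)]
        have := hstep (n + 2) (by omega) (by omega)
        have e : n + 1 + 2 = n + 2 + 1 := by ring
        rw [e]
        exact this
    have hall' : ∀ c, c ≠ r → c ≠ q 1 → (P (q 2) < j ↔ P c < j) := by
      intro c hc hc1
      have h3 := hQ0 c hc
      have h4 : Q c ≠ 1 := by
        intro h'
        apply hc1
        rw [← hqQ c, h']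
      obtain ⟨n, hn⟩ : ∃ n, Q c = n + 2 := ⟨Q c - 2, by omega⟩
      have h5' := hall n (by rw [← hn]; exact hQlt c)
      rw [← hn, hqQ] at h5'
      exact h5'
    have h3 := hall' (v 1) (by
      intro h'
      have := hPv 1 (by omega)
      rw [h', ← hv0, hPv 0 (by omega)] at this
      omega) (by rw [hv1, hq1]; exact h1.symm)
    have h4 := hall' (v (h - 1)) (by
      intro h'
      have := hPv (h - 1) (by omega)
      rw [h', ← hv0, hPv 0 (by omega)] at this
      omega) (by rw [hvN, hq1]; exact h2.symm)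
    rw [hPv 1 (by omega)] at h3
    rw [hPv (h - 1) (by omega)] at h4
    have h5' : P (q 2) < j := h3.2 (by omega)
    have h6 := h4.1 h5'
    omega
  have hB : Blo (suc π) (suc π') v (q 1) (h - 1) (h - 1) := by
    intro t ht1 ht2
    have : t = h - 1 := by omega
    subst this
    exact ⟨0, by rw [zero_add, seg_one], 0, 0, MCov.zero _ _, rfl⟩
  obtain ⟨f, g, k1, k2, k3⟩ := mix_ind hv (q 1) (h - 1) (by omega) hcross (h - 1) (by omega)
    le_rfl (by omega) hB
  have e : h - 1 + 1 = h := by omega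
  rw [e] at k1
  have k4 : MCov (suc π) (suc π') f g (fun c => if c = r then 0 else 1) := by
    intro c
    rw [k1 c]
    exact seg_all (by omega) π r c
  refine ⟨f, g, k4, ?_, k3⟩
  have k5 := k4 (q 1)
  have k6 : q 1 ≠ r := by
    intro h'
    have := hQq 1 (by omega)
    rw [h', ← hq0, hQq 0 (by omega)] at this
    omega
  have k7 := k4 r
  simp only [if_neg k6, if_true] at k5 k7
  have k8 : (suc π').symm (q 1) = r := by rw [hq1, Equiv.symm_apply_apply]
  rw [k8, k2] at k5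
  by_cases k9 : f (q 1) = 0
  · exact ⟨(suc π).symm (q 1), by omega⟩
  · exact ⟨q 1, k9⟩

/-- MIXED MATCHING, every step of the first order is a step of the second one. -/
theorem mix_dbl {h : ℕ} (hh : Odd h) (h5 : 5 ≤ h) (π π' : ZMod h ≃ ZMod h) (r : ZMod h)
    (hd : ∀ c, suc π' c = suc π c ∨ suc π' (suc π c) = c) :
    ∃ f g : ZMod h → ℕ, MCov (suc π) (suc π') f g (fun c => if c = r then 0 else 1) ∧
      (∃ c, f c ≠ 0) ∧ ∃ c, g c ≠ 0 := by
  classical
  have hNZ : NeZero h := ⟨by omega⟩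
  have ho : h % 2 = 1 := Nat.odd_iff.1 hh
  set v : ℕ → ZMod h := fun i => π (π.symm r + (i : ZMod h)) with hvdef
  have hv : ∀ i, v (i + 1) = suc π (v i) := by
    intro i
    show π (π.symm r + ((i + 1 : ℕ) : ZMod h)) = suc π (π (π.symm r + (i : ZMod h)))
    rw [suc_apply, Equiv.symm_apply_apply, Nat.cast_succ, add_assoc]
  have hstep : ∀ i, ∃ c, MCov (suc π) (suc π') 0 (Pi.single c 1)
      (Pi.single (v i) 1 + Pi.single (v (i + 1)) 1) := by
    intro i
    rw [hv]
    rcases hd (v i) with h' | h'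
    · exact ⟨v i, by rw [← h']; exact MCov.one_right _ _ _⟩
    · refine ⟨suc π (v i), ?_⟩
      have := MCov.one_right (suc π) (suc π') (suc π (v i))
      rw [h', add_comm] at this
      exact this
  have hline : ∀ n a, ∃ g : ZMod h → ℕ, MCov (suc π) (suc π') 0 g (seg v a (a + 2 * n)) ∧
      (1 ≤ n → ∃ c, g c ≠ 0) := by
    intro n a
    induction n with
    | zero =>
      refine ⟨0, ?_, fun h' => absurd h' (by omega)⟩
      rw [mul_zero, add_zero, seg_self]
      exact MCov.zero _ _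
    | succ n ih =>
      obtain ⟨g, hg, _⟩ := ih
      obtain ⟨c, hc⟩ := hstep (a + 2 * n)
      refine ⟨g + Pi.single c 1, ?_, fun _ => ⟨c, by simp⟩⟩
      have e : a + 2 * (n + 1) = a + 2 * n + 1 + 1 := by ring
      rw [e, ← seg_add v (a := a) (b := a + 2 * n) (c := a + 2 * n + 1 + 1) (by omega) (by omega),
        ← seg_add v (a := a + 2 * n) (b := a + 2 * n + 1) (c := a + 2 * n + 1 + 1) (by omega)
          (by omega), seg_one, seg_one]
      have := hg.add hc
      rwa [add_zero] at this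
  obtain ⟨g, hg, hg1⟩ := hline ((h - 3) / 2) 3
  obtain ⟨c, hc⟩ := hg1 (by omega)
  have hA := MCov.one_left (suc π) (suc π') (v 1)
  refine ⟨Pi.single (v 1) 1, g, ?_, ⟨v 1, by simp⟩, c, hc⟩
  have k1 := hA.add hg
  have e : 3 + 2 * ((h - 3) / 2) = h := by omega
  have e1 : (Pi.single (v 1) 1 + Pi.single (suc π (v 1)) 1 : ZMod h → ℕ) + seg v 3 h =
      seg v 1 h := by
    rw [← hv, ← seg_one v 1, ← seg_one v (1 + 1), seg_add v (by omega) (by omega),
      seg_add v (by omega) (by omega)]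
  rw [add_zero, zero_add, e, e1] at k1
  intro c
  rw [k1 c]
  exact seg_all (by omega) π r c

/-- MIXED MATCHING. -/
theorem mix_matching {h : ℕ} (hh : Odd h) (h5 : 5 ≤ h) (π π' : ZMod h ≃ ZMod h) (r : ZMod h)
    (hyp : (suc π' r ≠ suc π r ∧ suc π' r ≠ (suc π).symm r) ∨
      ∀ c, suc π' c = suc π c ∨ suc π' (suc π c) = c) :
    ∃ A B : ZMod h → Prop, (∃ c, A c) ∧ (∃ c, B c) ∧
      (∀ c, c ≠ r →
        (A c ∧ ¬ A ((suc π).symm c) ∧ ¬ B c ∧ ¬ B ((suc π').symm c)) ∨
        (¬ A c ∧ A ((suc π).symm c) ∧ ¬ B c ∧ ¬ B ((suc π').symm c)) ∨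
        (¬ A c ∧ ¬ A ((suc π).symm c) ∧ B c ∧ ¬ B ((suc π').symm c)) ∨
        (¬ A c ∧ ¬ A ((suc π).symm c) ∧ ¬ B c ∧ B ((suc π').symm c))) ∧
      ¬ A r ∧ ¬ A ((suc π).symm r) ∧ ¬ B r ∧ ¬ B ((suc π').symm r) := by
  obtain ⟨f, g, k1, k2, k3⟩ : ∃ f g : ZMod h → ℕ,
      MCov (suc π) (suc π') f g (fun c => if c = r then 0 else 1) ∧
      (∃ c, f c ≠ 0) ∧ ∃ c, g c ≠ 0 := by
    rcases hyp with ⟨h1, h2⟩ | hd
    · exact mix_main hh h5 π π' r h1 h2
    · exact mix_dbl hh h5 π π' r hd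
  obtain ⟨k4, k5, k6, k7, k8⟩ := mix_of_cov k1 (r := r) (fun _ => rfl)
  refine ⟨fun c => f c ≠ 0, fun c => g c ≠ 0, k2, k3, ?_, ?_, ?_, ?_, ?_⟩
  · intro c hc
    rcases k4 c hc with ⟨a1, a2, a3, a4⟩ | ⟨a1, a2, a3, a4⟩ | ⟨a1, a2, a3, a4⟩ | ⟨a1, a2, a3, a4⟩
    · exact Or.inl ⟨a1, not_not.2 a2, not_not.2 a3, not_not.2 a4⟩
    · exact Or.inr (Or.inl ⟨not_not.2 a1, a2, not_not.2 a3, not_not.2 a4⟩)
    · exact Or.inr (Or.inr (Or.inl ⟨not_not.2 a1, not_not.2 a2, a3, not_not.2 a4⟩))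
    · exact Or.inr (Or.inr (Or.inr ⟨not_not.2 a1, not_not.2 a2, not_not.2 a3, a4⟩))
  · exact not_not.2 k5
  · exact not_not.2 k6
  · exact not_not.2 k7
  · exact not_not.2 k8

end Pool.Agent.P45
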