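import Pool.Agent.Lib.P45dba8.RowComp
import Pool.Agent.Lib.P45dba8.MixMatch

/-! # The class steps of the two cyclic blocks of `TwoCyc` -/

set_option autoImplicit false

namespace Pool.Agent.P45

/-- If all steps of a cyclic order are `± c` then all of them have the same sign. -/
theorem dir_const {h : ℕ} (h3 : 3 ≤ h) (π : ZMod h ≃ ZMod h)
    (s : Equiv.Perm (ZMod h)) (hs : ∀ c, s c = π (π.symm c + 1)) (x : ZMod h)
    (hx : ∀ r, s r = r + x ∨ s r = r - x) : (∀ r, s r = r + x) ∨ (∀ r, s r = r - x) := by
  classical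
  have hF1 : Fact (1 < h) := ⟨by omega⟩
  have hNh : NeZero h := ⟨by omega⟩
  have h2 : ∀ c, s (s c) ≠ c := by
    intro c hc
    rw [hs (s c), hs c, Equiv.symm_apply_apply] at hc
    have h3' := congrArg π.symm hc
    rw [Equiv.symm_apply_apply] at h3'
    have h4 : ((2 : ℕ) : ZMod h) = 0 := by
      push_cast
      linear_combination h3'
    rw [ZMod.natCast_eq_zero_iff] at h4
    exact absurd (Nat.le_of_dvd (by norm_num) h4) (by omega)
  have key : ∀ y : ZMod h, (∀ r, s r = r + y ∨ s r = r - y) → ∀ i0 : ZMod h,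
      s (π i0) = π i0 + y → ∀ k : ℕ, s (π (i0 + k)) = π (i0 + k) + y := by
    intro y hy i0 h0 k
    induction k with
    | zero => rw [Nat.cast_zero, add_zero]; exact h0
    | succ k ih =>
      have e : π (i0 + ((k + 1 : ℕ) : ZMod h)) = s (π (i0 + k)) := by
        rw [hs, Equiv.symm_apply_apply]
        congr 1
        push_cast
        ring
      rw [e]
      rcases hy (s (π (i0 + k))) with h5 | h5
      · exact h5
      · exfalso
        apply h2 (π (i0 + k))
        rw [h5, ih]
        ring
  have fin : ∀ y : ZMod h, (∀ r, s r = r + y ∨ s r = r - y) → ∀ i0 : ZMod h,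
      s (π i0) = π i0 + y → ∀ r, s r = r + y := by
    intro y hy i0 h0 r
    have := key y hy i0 h0 (π.symm r - i0).val
    rw [ZMod.natCast_zmod_val] at this
    have e : i0 + (π.symm r - i0) = π.symm r := by ring
    rw [e, Equiv.apply_symm_apply] at this
    exact this
  rcases hx (π 0) with h0 | h0
  · exact Or.inl (fin x hx 0 h0)
  · right
    intro r
    have := fin (-x) (fun r => by
      rcases hx r with h1 | h1
      · right; rw [h1]; ring
      · left; rw [h1]; ring) 0 (by rw [h0]; ring) r
    rw [this]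
    ring

/-- The class steps `s`, `s'` of two cyclic blocks which contain all edges of the types `x`, `y`:
they are different in both directions at every class, or they agree up to the direction. -/
theorem class_steps {m h : ℕ} (hm : Odd m) (hh : Odd h) (h3 : 3 ≤ h) {x y : ZMod (m * h)}
    (hx : red m h x ≠ 0) (hy : red m h y ≠ 0) (hxy : x ≠ y) (hxy' : x ≠ -y)
    (π π' : ZMod h ≃ ZMod h) (s s' : Equiv.Perm (ZMod h)) (hs : ∀ c, s c = π (π.symm c + 1))
    (hs' : ∀ c, s' c = π' (π'.symm c + 1)) (F F' : ZMod (m * h) ≃ ZMod (m * h))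
    (hF : ∀ v, red m h (F v) = π (π.symm (red m h v) + 1))
    (hF' : ∀ v, red m h (F' v) = π' (π'.symm (red m h v) + 1))
    (hcov : ∀ v v', (v' = v + x ∨ v' = v + y) → (v' = F v ∨ v = F v') ∨ (v' = F' v ∨ v = F' v')) :
    (∀ r, s' r ≠ s r ∧ s' r ≠ s.symm r ∧ s'.symm r ≠ s r ∧ s'.symm r ≠ s.symm r) ∨
      (∀ c, s' c = s c) ∨ (∀ c, s' c = s.symm c) := by
  classical
  have hm0 : m ≠ 0 := by rintro rfl; simp at hm
  have hNm : NeZero m := ⟨hm0⟩
  have hNh : NeZero h := ⟨by omega⟩
  have hN : NeZero (m * h) := ⟨Nat.mul_ne_zero hm0 (by omega)⟩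
  have hdbl : ∀ {k : ℕ}, Odd k → ∀ z : ZMod k, z + z = 0 → z = 0 := by
    intro k hk z hz
    have hu : IsUnit ((2 : ℕ) : ZMod k) := by
      rw [ZMod.isUnit_iff_coprime]
      exact Nat.coprime_two_left.2 hk
    apply hu.mul_left_cancel
    rw [mul_zero]
    push_cast
    rw [two_mul]
    exact hz
  have hsF : ∀ v, s (red m h v) = red m h (F v) := fun v => by rw [hs, hF]
  have hsF' : ∀ v, s' (red m h v) = red m h (F' v) := fun v => by rw [hs', hF']
  have hsF2 : ∀ v, s.symm (red m h v) = red m h (F.symm v) := fun v => by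
    rw [Equiv.symm_apply_eq, hsF, Equiv.apply_symm_apply]
  have hsF2' : ∀ v, s'.symm (red m h v) = red m h (F'.symm v) := fun v => by
    rw [Equiv.symm_apply_eq, hsF', Equiv.apply_symm_apply]
  have mem : ∀ v z, (z = v + x ∨ z = v + y ∨ z = v - x ∨ z = v - y) →
      z = F v ∨ z = F.symm v ∨ z = F' v ∨ z = F'.symm v := by
    intro v z hz
    have tr : ∀ a b : ZMod (m * h), ∀ G : ZMod (m * h) ≃ ZMod (m * h), a = G b → b = G.symm a :=
      fun a b G h => by rw [h, Equiv.symm_apply_apply]
    have a1 : ∀ δ, (δ = x ∨ δ = y) → v + δ = F v ∨ v + δ = F.symm v ∨ v + δ = F' v ∨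
        v + δ = F'.symm v := by
      intro δ hδ
      rcases hcov v (v + δ) (by rcases hδ with rfl | rfl; exacts [Or.inl rfl, Or.inr rfl]) with
        (h1 | h1) | (h1 | h1)
      · exact Or.inl h1
      · exact Or.inr (Or.inl (tr _ _ _ h1))
      · exact Or.inr (Or.inr (Or.inl h1))
      · exact Or.inr (Or.inr (Or.inr (tr _ _ _ h1)))
    have a2 : ∀ δ, (δ = x ∨ δ = y) → v - δ = F v ∨ v - δ = F.symm v ∨ v - δ = F' v ∨
        v - δ = F'.symm v := by
      intro δ hδ
      have e : v = v - δ + δ := by ring
      rcases hcov (v - δ) v (by rcases hδ with rfl | rfl; exacts [Or.inl e, Or.inr e]) with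
        (h1 | h1) | (h1 | h1)
      · exact Or.inr (Or.inl (tr _ _ _ h1))
      · exact Or.inl h1
      · exact Or.inr (Or.inr (Or.inr (tr _ _ _ h1)))
      · exact Or.inr (Or.inr (Or.inl h1))
    rcases hz with rfl | rfl | rfl | rfl
    · exact a1 x (Or.inl rfl)
    · exact a1 y (Or.inr rfl)
    · exact a2 x (Or.inl rfl)
    · exact a2 y (Or.inr rfl)
  have four : ∀ {k : ℕ}, Odd k → ∀ r a b : ZMod k, a ≠ 0 → b ≠ 0 → a ≠ b → a ≠ -b →
      ({r + a, r + b, r - a, r - b} : Finset (ZMod k)).card = 4 := by
    intro k hk r a b ha hb hab hab'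
    rw [Finset.card_insert_of_notMem, Finset.card_insert_of_notMem, Finset.card_insert_of_notMem,
      Finset.card_singleton]
    · rw [Finset.mem_singleton]
      intro h
      exact hab (by linear_combination -h)
    · rw [Finset.mem_insert, Finset.mem_singleton, not_or]
      refine ⟨fun h => hab' (by linear_combination h), fun h => hb (hdbl hk b (by
        linear_combination h))⟩
    · rw [Finset.mem_insert, Finset.mem_insert, Finset.mem_singleton, not_or, not_or]
      refine ⟨fun h => hab (by linear_combination h), fun h => ha (hdbl hk a (by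
        linear_combination h)), fun h => hab' (by linear_combination h)⟩
  have card4 : ∀ {α : Type} [DecidableEq α] (a b c d : α), 4 ≤ ({a, b, c, d} : Finset α).card →
      a ≠ b ∧ a ≠ c ∧ a ≠ d ∧ b ≠ c ∧ b ≠ d ∧ c ≠ d := by
    intro α _ a b c d h4
    have hle : ∀ a b c : α, ({a, b, c} : Finset α).card ≤ 3 := fun a b c => Finset.card_le_three
    refine ⟨?_, ?_, ?_, ?_, ?_, ?_⟩
    · rintro rfl
      rw [Finset.insert_eq_of_mem (by simp)] at h4
      have := hle a c d
      omega
    · rintro rfl
      rw [Finset.insert_eq_of_mem (by simp)] at h4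
      have := hle b a d
      omega
    · rintro rfl
      rw [Finset.insert_eq_of_mem (by simp)] at h4
      have := hle b c a
      omega
    · rintro rfl
      rw [Finset.insert_eq_of_mem (s := {b, d}) (by simp)] at h4
      have := hle a b d
      omega
    · rintro rfl
      rw [Finset.insert_eq_of_mem (s := {c, b}) (by simp)] at h4
      have := hle a c b
      omega
    · rintro rfl
      rw [Finset.insert_eq_of_mem (s := {c}) (a := c) (by simp)] at h4
      have := hle a b c
      omega
  have hx0 : x ≠ 0 := by rintro rfl; exact hx (map_zero _)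
  have hy0 : y ≠ 0 := by rintro rfl; exact hy (map_zero _)
  have hodd : Odd (m * h) := hm.mul hh
  by_cases hred : red m h x = red m h y ∨ red m h x = -red m h y
  · right
    -- every step of `F` is one of the four types
    have step : ∀ v, ∀ z, (z = F v ∨ z = F' v) →
        z = v + x ∨ z = v + y ∨ z = v - x ∨ z = v - y := by
      intro v z hz
      have hsub : ({v + x, v + y, v - x, v - y} : Finset (ZMod (m * h))) ⊆
          {F v, F.symm v, F' v, F'.symm v} := by
        intro z hz
        simp only [Finset.mem_insert, Finset.mem_singleton] at hz ⊢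
        exact mem v z hz
      have hle : ({F v, F.symm v, F' v, F'.symm v} : Finset (ZMod (m * h))).card ≤
          ({v + x, v + y, v - x, v - y} : Finset (ZMod (m * h))).card := by
        rw [four hodd v x y hx0 hy0 hxy hxy']
        exact Finset.card_le_four
      have heq := Finset.eq_of_subset_of_card_le hsub hle
      have : z ∈ ({v + x, v + y, v - x, v - y} : Finset (ZMod (m * h))) := by
        rw [heq]
        simp only [Finset.mem_insert, Finset.mem_singleton]
        rcases hz with rfl | rfl
        · exact Or.inl rfl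
        · exact Or.inr (Or.inr (Or.inl rfl))
      simpa only [Finset.mem_insert, Finset.mem_singleton] using this
    have dir : ∀ r, ∀ c, (c = s r ∨ c = s' r) → c = r + red m h x ∨ c = r - red m h x := by
      intro r c hc
      obtain ⟨v, rfl⟩ := red_surj m h r
      have h1 : ∃ z, (z = F v ∨ z = F' v) ∧ c = red m h z := by
        rcases hc with rfl | rfl
        · exact ⟨F v, Or.inl rfl, hsF v⟩
        · exact ⟨F' v, Or.inr rfl, hsF' v⟩
      obtain ⟨z, hz, rfl⟩ := h1
      rcases step v z hz with rfl | rfl | rfl | rfl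
      · left; rw [map_add]
      · rw [map_add]
        rcases hred with h2 | h2
        · left; rw [h2]
        · right; rw [h2]; ring
      · right; rw [map_sub]
      · rw [map_sub]
        rcases hred with h2 | h2
        · right; rw [h2]
        · left; rw [h2]; ring
    have d1 := dir_const h3 π s hs (red m h x) (fun r => dir r _ (Or.inl rfl))
    have d2 := dir_const h3 π' s' hs' (red m h x) (fun r => dir r _ (Or.inr rfl))
    rcases d1 with d1 | d1 <;> rcases d2 with d2 | d2
    · left; intro c; rw [d1, d2]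
    · right; intro c; rw [d2, Equiv.eq_symm_apply, d1]; ring
    · right; intro c; rw [d2, Equiv.eq_symm_apply, d1]; ring
    · left; intro c; rw [d1, d2]
  · left
    rw [not_or] at hred
    intro r
    obtain ⟨v, rfl⟩ := red_surj m h r
    have hsub : ({red m h v + red m h x, red m h v + red m h y, red m h v - red m h x,
        red m h v - red m h y} : Finset (ZMod h)) ⊆
        {s (red m h v), s.symm (red m h v), s' (red m h v), s'.symm (red m h v)} := by
      intro z hz
      simp only [Finset.mem_insert, Finset.mem_singleton] at hz ⊢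
      have h1 : ∃ u, (u = v + x ∨ u = v + y ∨ u = v - x ∨ u = v - y) ∧ z = red m h u := by
        rcases hz with rfl | rfl | rfl | rfl
        · exact ⟨v + x, Or.inl rfl, (map_add _ _ _).symm⟩
        · exact ⟨v + y, Or.inr (Or.inl rfl), (map_add _ _ _).symm⟩
        · exact ⟨v - x, Or.inr (Or.inr (Or.inl rfl)), (map_sub _ _ _).symm⟩
        · exact ⟨v - y, Or.inr (Or.inr (Or.inr rfl)), (map_sub _ _ _).symm⟩
      obtain ⟨u, hu, rfl⟩ := h1
      rcases mem v u hu with h2 | h2 | h2 | h2
      · left; rw [h2, hsF]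
      · right; left; rw [h2, hsF2]
      · right; right; left; rw [h2, hsF']
      · right; right; right; rw [h2, hsF2']
    have hcard := Finset.card_le_card hsub
    rw [four hh _ _ _ hx hy hred.1 hred.2] at hcard
    obtain ⟨-, c2, c3, c4, c5, -⟩ := card4 _ _ _ _ hcard
    exact ⟨c2.symm, c4.symm, c3.symm, c5.symm⟩

/-- The hypothesis of `mix_matching`. -/
theorem mix_hyp_rows {m h : ℕ} (hm : Odd m) (hh : Odd h) (h3 : 3 ≤ h) {x y : ZMod (m * h)}
    (hx : red m h x ≠ 0) (hy : red m h y ≠ 0) (hxy : x ≠ y) (hxy' : x ≠ -y)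
    (π π' : ZMod h ≃ ZMod h) (F F' : ZMod (m * h) ≃ ZMod (m * h))
    (hF : ∀ v, red m h (F v) = π (π.symm (red m h v) + 1))
    (hF' : ∀ v, red m h (F' v) = π' (π'.symm (red m h v) + 1))
    (hcov : ∀ v v', (v' = v + x ∨ v' = v + y) → (v' = F v ∨ v = F v') ∨ (v' = F' v ∨ v = F' v'))
    (r : ZMod h) :
    (suc π' r ≠ suc π r ∧ suc π' r ≠ (suc π).symm r) ∨
      ∀ c, suc π' c = suc π c ∨ suc π' (suc π c) = c := by
  rcases class_steps hm hh h3 hx hy hxy hxy' π π' (suc π) (suc π') (fun c => suc_apply π c)
    (fun c => suc_apply π' c) F F' hF hF' hcov with h1 | h1 | h1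
  · exact Or.inl ⟨(h1 r).1, (h1 r).2.1⟩
  · exact Or.inr (fun c => Or.inl (h1 c))
  · exact Or.inr (fun c => Or.inr (by rw [h1, Equiv.symm_apply_apply]))

end Pool.Agent.P45
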