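import Mathlib

/-! # Colourings of circulant layers by near perfect matchings -/

set_option autoImplicit false
set_option linter.unusedVariables false
set_option linter.unusedSectionVars false
set_option linter.unusedSimpArgs false

namespace Pool.Agent.P45

open Finset

/-- The index involution fixing `0` and exchanging `1,2`, `3,4`, ... -/
def nu {p : ℕ} (k : ZMod p) : ZMod p := if k = 0 then 0 else if Odd k.val then k + 1 else k - 1

theorem nu_zero {p : ℕ} : nu (0 : ZMod p) = 0 := by simp [nu]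

theorem val_succ {p : ℕ} [NeZero p] (hp : Odd p) {k : ZMod p} (hk : Odd k.val) :
    (k + 1).val = k.val + 1 := by
  have h1 := k.val_lt
  have h2 : k.val + 1 < p := by
    rcases hp with ⟨a, ha⟩
    rcases hk with ⟨b, hb⟩
    omega
  have h3 : k + 1 = ((k.val + 1 : ℕ) : ZMod p) := by
    push_cast
    rw [ZMod.natCast_zmod_val]
  rw [h3, ZMod.val_natCast_of_lt h2]

theorem val_pred {p : ℕ} [NeZero p] {k : ZMod p} (hk : k ≠ 0) :
    (k - 1).val = k.val - 1 := by
  have h0 : 0 < k.val := Nat.pos_of_ne_zero (fun h => hk ((ZMod.val_eq_zero k).mp h))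
  have h1 := k.val_lt
  have h3 : k - 1 = ((k.val - 1 : ℕ) : ZMod p) := by
    rw [Nat.cast_sub h0, ZMod.natCast_zmod_val, Nat.cast_one]
  rw [h3, ZMod.val_natCast_of_lt (by omega)]

theorem nu_odd {p : ℕ} [NeZero p] {k : ZMod p} (hk : Odd k.val) : nu k = k + 1 := by
  have h0 : k ≠ 0 := by
    rintro rfl
    simp at hk
  simp [nu, h0, hk]

theorem nu_even {p : ℕ} [NeZero p] {k : ZMod p} (h0 : k ≠ 0) (hk : ¬ Odd k.val) : nu k = k - 1 := by
  simp [nu, h0, hk]

theorem succ_facts {p : ℕ} [NeZero p] (hp : Odd p) {k : ZMod p} (hk : Odd k.val) :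
    k + 1 ≠ 0 ∧ ¬ Odd (k + 1).val := by
  have h1 := val_succ hp hk
  constructor
  · intro h
    rw [h] at h1
    simp at h1
  · rw [h1, Nat.not_odd_iff_even]
    exact hk.add_odd odd_one

theorem pred_facts {p : ℕ} [NeZero p] {k : ZMod p} (h0 : k ≠ 0) (hk : ¬ Odd k.val) :
    Odd (k - 1).val := by
  have h2 : 0 < k.val := Nat.pos_of_ne_zero (fun h => h0 ((ZMod.val_eq_zero k).mp h))
  rw [val_pred h0]
  rw [Nat.not_odd_iff_even] at hk
  rcases hk with ⟨a, ha⟩
  exact ⟨a - 1, by omega⟩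

theorem nu_nu {p : ℕ} [NeZero p] (hp : Odd p) : Function.Involutive (nu (p := p)) := by
  intro k
  by_cases h0 : k = 0
  · rw [h0, nu_zero, nu_zero]
  by_cases hk : Odd k.val
  · obtain ⟨h1, h2⟩ := succ_facts hp hk
    rw [nu_odd hk, nu_even h1 h2]; ring
  · rw [nu_even h0 hk, nu_odd (pred_facts h0 hk)]; ring

theorem nu_fix {p : ℕ} [NeZero p] (h2 : 2 ≤ p) (k : ZMod p) : nu k = k ↔ k = 0 := by
  have : Fact (1 < p) := ⟨by omega⟩
  constructor
  · intro h
    by_contra h0
    by_cases hk : Odd k.val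
    · rw [nu_odd hk] at h
      exact one_ne_zero (by linear_combination h : (1 : ZMod p) = 0)
    · rw [nu_even h0 hk] at h
      exact one_ne_zero (by linear_combination -h : (1 : ZMod p) = 0)
  · rintro rfl; exact nu_zero

/-- The two near perfect matchings of a Hamiltonian cycle of odd length minus the edge
`{π 0, π 1}`. -/
theorem ham {p : ℕ} [NeZero p] (hp : Odd p) (h2 : 2 ≤ p) {V : Type*} (π : ZMod p ≃ V) :
    ∃ N0 N1 : V → V, Function.Involutive N0 ∧ Function.Involutive N1 ∧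
      (∀ v, N0 v = v ↔ v = π 0) ∧ (∀ v, N1 v = v ↔ v = π 1) ∧
      ∀ k, k ≠ 0 → (N0 (π k) = π (k + 1) ∧ N0 (π (k + 1)) = π k) ∨
        (N1 (π k) = π (k + 1) ∧ N1 (π (k + 1)) = π k) := by
  have hnn := nu_nu (p := p) hp
  refine ⟨fun v => π (nu (π.symm v)), fun v => π (nu (π.symm v - 1) + 1), ?_, ?_, ?_, ?_, ?_⟩
  · intro v; simp [hnn (π.symm v)]
  · intro v
    simp only [Equiv.symm_apply_apply, add_sub_cancel_right]
    rw [hnn]; simp
  · intro v
    simp only
    rw [← Equiv.eq_symm_apply, nu_fix h2, Equiv.symm_apply_eq]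
  · intro v
    simp only
    rw [← Equiv.eq_symm_apply, ← eq_sub_iff_add_eq, nu_fix h2, sub_eq_zero, Equiv.symm_apply_eq]
  · intro k hk
    simp only [Equiv.symm_apply_apply]
    by_cases h : Odd k.val
    · left
      obtain ⟨h3, h4⟩ := succ_facts hp h
      rw [nu_odd h, nu_even h3 h4]
      exact ⟨rfl, by ring_nf⟩
    · right
      have h5 := pred_facts hk h
      rw [nu_odd h5]
      have h6 : k + 1 - 1 = k := by ring
      rw [h6, nu_even hk h]
      exact ⟨by ring_nf, by ring_nf⟩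

/-- `D` is a (symmetric) set of differences, `A` a set of vertices perfectly matched by `m`; the
graph with differences `D` minus the matching is the union of matchings `N a`, `a ∈ A`, where
`N a` misses exactly the vertex `a`. -/
def LG {V : Type*} [AddGroup V] (D : Set V) (A : Finset V) (m : V → V) : Prop :=
  (∀ v ∈ A, m v ∈ A ∧ m (m v) = v ∧ m v ≠ v) ∧
  ∃ N : V → V → V, (∀ a ∈ A, Function.Involutive (N a) ∧ ∀ v, N a v = v ↔ v = a) ∧
    ∀ u v, v - u ∈ D → (u ∈ A ∧ m u = v) ∨ ∃ a ∈ A, N a u = v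

theorem LG.congr {V : Type*} [AddGroup V] {D D' : Set V} {A A' : Finset V} {m m' : V → V}
    (h : LG D A m) (hD : ∀ d ∈ D', d ∈ D) (hA : ∀ v, v ∈ A ↔ v ∈ A') (hm : ∀ v ∈ A, m v = m' v) :
    LG D' A' m' := by
  have hAA : A = A' := Finset.ext hA
  subst hAA
  obtain ⟨h1, N, h2, h3⟩ := h
  refine ⟨?_, N, h2, ?_⟩
  · intro v hv
    obtain ⟨a, b, c⟩ := h1 v hv
    rw [← hm v hv]
    exact ⟨a, by rw [← hm _ a]; exact b, c⟩
  · intro u v huv
    rcases h3 u v (hD _ huv) with ⟨a, b⟩ | h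
    · exact Or.inl ⟨a, by rw [← hm u a]; exact b⟩
    · exact Or.inr h

theorem LG.union {V : Type*} [AddGroup V] [DecidableEq V] {D1 D2 : Set V} {A1 A2 : Finset V}
    {m : V → V} (h1 : LG D1 A1 m) (h2 : LG D2 A2 m) (hd : Disjoint A1 A2) :
    LG (D1 ∪ D2) (A1 ∪ A2) m := by
  obtain ⟨a1, N1, b1, c1⟩ := h1
  obtain ⟨a2, N2, b2, c2⟩ := h2
  refine ⟨?_, fun a => if a ∈ A1 then N1 a else N2 a, ?_, ?_⟩
  · intro v hv
    rw [Finset.mem_union] at hv
    rcases hv with hv | hv
    · obtain ⟨x, y, z⟩ := a1 v hv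
      exact ⟨Finset.mem_union_left _ x, y, z⟩
    · obtain ⟨x, y, z⟩ := a2 v hv
      exact ⟨Finset.mem_union_right _ x, y, z⟩
  · intro a ha
    rw [Finset.mem_union] at ha
    by_cases h : a ∈ A1
    · simp only [h, if_true]; exact b1 a h
    · simp only [h, if_false]; exact b2 a (ha.resolve_left h)
  · intro u v huv
    rcases huv with huv | huv
    · rcases c1 u v huv with ⟨x, y⟩ | ⟨a, ha, hN⟩
      · exact Or.inl ⟨Finset.mem_union_left _ x, y⟩
      · exact Or.inr ⟨a, Finset.mem_union_left _ ha, by simp only [ha, if_true]; exact hN⟩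
    · rcases c2 u v huv with ⟨x, y⟩ | ⟨a, ha, hN⟩
      · exact Or.inl ⟨Finset.mem_union_right _ x, y⟩
      · have h : a ∉ A1 := fun h => (Finset.disjoint_left.mp hd) h ha
        exact Or.inr ⟨a, Finset.mem_union_right _ ha, by simp only [h, if_false]; exact hN⟩

theorem LG.empty {V : Type*} [AddGroup V] (m : V → V) : LG (∅ : Set V) ∅ m := by
  refine ⟨by simp, fun _ => id, by simp, by simp⟩

theorem LG.biUnion {V : Type*} [AddGroup V] [DecidableEq V] {ι : Type*} [DecidableEq ι]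
    (s : Finset ι) (D : ι → Set V) (A : ι → Finset V) (m : V → V)
    (h : ∀ i ∈ s, LG (D i) (A i) m) (hd : ∀ i ∈ s, ∀ j ∈ s, i ≠ j → Disjoint (A i) (A j)) :
    LG (⋃ i ∈ s, D i) (s.biUnion A) m := by
  induction s using Finset.induction_on with
  | empty => simpa using LG.empty m
  | insert i s hi ih =>
    rw [Finset.biUnion_insert, Finset.set_biUnion_insert]
    apply LG.union
    · exact h i (Finset.mem_insert_self _ _)
    · exact ih (fun j hj => h j (Finset.mem_insert_of_mem hj))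
        (fun j hj k hk => hd j (Finset.mem_insert_of_mem hj) k (Finset.mem_insert_of_mem hk))
    · rw [Finset.disjoint_biUnion_right]
      intro j hj
      exact hd i (Finset.mem_insert_self _ _) j (Finset.mem_insert_of_mem hj)
        (fun h' => hi (h' ▸ hj))

/-- Affine images. -/
theorem LG.affine {F : Type*} [Field F] [DecidableEq F] {D : Set F} {A : Finset F} {m : F → F}
    (h : LG D A m) (c x : F) (hc : c ≠ 0) :
    LG {d | c⁻¹ * d ∈ D} (A.image fun v => x + c * v) (fun v => x + c * m (c⁻¹ * (v - x))) := by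
  obtain ⟨a, N, b, e⟩ := h
  have k1 : ∀ v, c⁻¹ * (x + c * v - x) = v := by intro v; field_simp; ring
  have k2 : ∀ v, x + c * (c⁻¹ * (v - x)) = v := by intro v; field_simp; ring
  have k3 : ∀ v w, x + c * v = w ↔ v = c⁻¹ * (w - x) := by
    intro v w
    constructor
    · rintro rfl; rw [k1]
    · rintro rfl; rw [k2]
  refine ⟨?_, fun a v => x + c * N (c⁻¹ * (a - x)) (c⁻¹ * (v - x)), ?_, ?_⟩
  · intro v hv
    rw [Finset.mem_image] at hv
    obtain ⟨w, hw, rfl⟩ := hv
    obtain ⟨p, q, r⟩ := a w hw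
    simp only [k1]
    refine ⟨Finset.mem_image_of_mem _ p, by rw [q], ?_⟩
    intro h
    exact r (by have := (k3 _ _).mp h; rw [k1] at this; exact this)
  · intro v hv
    rw [Finset.mem_image] at hv
    obtain ⟨w, hw, rfl⟩ := hv
    obtain ⟨p, q⟩ := b w hw
    constructor
    · intro u
      simp only [k1]
      rw [p, k2]
    · intro u
      simp only [k1]
      rw [k3, q]
      constructor
      · intro h; rw [← h, k2]
      · rintro rfl; rw [k1]
  · intro u v huv
    have h1 : c⁻¹ * (v - x) - c⁻¹ * (u - x) ∈ D := by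
      have : c⁻¹ * (v - x) - c⁻¹ * (u - x) = c⁻¹ * (v - u) := by ring
      rw [this]; exact huv
    rcases e _ _ h1 with ⟨p, q⟩ | ⟨w, hw, hN⟩
    · left
      refine ⟨Finset.mem_image.mpr ⟨_, p, k2 u⟩, ?_⟩
      simp only
      rw [q, k2]
    · right
      refine ⟨x + c * w, Finset.mem_image_of_mem _ hw, ?_⟩
      simp only [k1]
      rw [hN, k2]

/-- Existence version of `LG`. -/
def EG {V : Type*} [AddGroup V] (D : Set V) (A : Finset V) : Prop := ∃ m, LG D A m

theorem EG.union {V : Type*} [AddGroup V] [DecidableEq V] {D1 D2 : Set V} {A1 A2 : Finset V}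
    (h1 : EG D1 A1) (h2 : EG D2 A2) (hd : Disjoint A1 A2) : EG (D1 ∪ D2) (A1 ∪ A2) := by
  obtain ⟨m1, h1⟩ := h1
  obtain ⟨m2, h2⟩ := h2
  refine ⟨fun v => if v ∈ A1 then m1 v else m2 v, LG.union ?_ ?_ hd⟩
  · apply h1.congr (fun _ h => h) (fun _ => Iff.rfl)
    intro v hv; simp [hv]
  · apply h2.congr (fun _ h => h) (fun _ => Iff.rfl)
    intro v hv
    have : v ∉ A1 := fun h => (Finset.disjoint_left.mp hd) h hv
    simp [this]

theorem EG.biUnion {V : Type*} [AddGroup V] [DecidableEq V] {ι : Type*} [DecidableEq ι]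
    (s : Finset ι) (D : ι → Set V) (A : ι → Finset V)
    (h : ∀ i ∈ s, EG (D i) (A i)) (hd : ∀ i ∈ s, ∀ j ∈ s, i ≠ j → Disjoint (A i) (A j)) :
    EG (⋃ i ∈ s, D i) (s.biUnion A) := by
  induction s using Finset.induction_on with
  | empty => exact ⟨id, by simpa using LG.empty (V := V) id⟩
  | insert i s hi ih =>
    rw [Finset.biUnion_insert, Finset.set_biUnion_insert]
    apply EG.union
    · exact h i (Finset.mem_insert_self _ _)
    · exact ih (fun j hj => h j (Finset.mem_insert_of_mem hj))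
        (fun j hj k hk => hd j (Finset.mem_insert_of_mem hj) k (Finset.mem_insert_of_mem hk))
    · rw [Finset.disjoint_biUnion_right]
      intro j hj
      exact hd i (Finset.mem_insert_self _ _) j (Finset.mem_insert_of_mem hj)
        (fun h' => hi (h' ▸ hj))

theorem EG.congr {V : Type*} [AddGroup V] {D D' : Set V} {A A' : Finset V}
    (h : EG D A) (hD : ∀ d ∈ D', d ∈ D) (hA : ∀ v, v ∈ A ↔ v ∈ A') : EG D' A' := by
  obtain ⟨m, h⟩ := h
  exact ⟨m, h.congr hD hA (fun _ _ => rfl)⟩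

theorem EG.affine {F : Type*} [Field F] [DecidableEq F] {D : Set F} {A : Finset F}
    (h : EG D A) (c x : F) (hc : c ≠ 0) :
    EG {d | c⁻¹ * d ∈ D} (A.image fun v => x + c * v) := by
  obtain ⟨m, h⟩ := h
  exact ⟨_, h.affine c x hc⟩

/-- Two Hamiltonian cycles. -/
theorem two_ham {p : ℕ} [NeZero p] (hp : Odd p) (h2 : 2 ≤ p) {V : Type*} [AddGroup V]
    [DecidableEq V] (π1 π2 : ZMod p ≃ V) (D : Set V)
    (hd : Disjoint ({π1 0, π1 1} : Finset V) {π2 0, π2 1})
    (hD : ∀ u v, v - u ∈ D → (∃ k, s(u, v) = s(π1 k, π1 (k + 1))) ∨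
      (∃ k, s(u, v) = s(π2 k, π2 (k + 1)))) :
    EG D ({π1 0, π1 1} ∪ {π2 0, π2 1}) := by
  have h10 : (1 : ZMod p) ≠ 0 := by
    have : Fact (1 < p) := ⟨by omega⟩
    exact one_ne_zero
  obtain ⟨N0, N1, a0, a1, b0, b1, c⟩ := ham hp h2 π1
  obtain ⟨N0', N1', a0', a1', b0', b1', c'⟩ := ham hp h2 π2
  have e1 : π1 0 ≠ π1 1 := fun h => h10 (π1.injective h).symm
  have e2 : π2 0 ≠ π2 1 := fun h => h10 (π2.injective h).symm
  rw [Finset.disjoint_left] at hd
  have d1 := hd (show π1 0 ∈ ({π1 0, π1 1} : Finset V) by simp)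
  have d2 := hd (show π1 1 ∈ ({π1 0, π1 1} : Finset V) by simp)
  simp only [Finset.mem_insert, Finset.mem_singleton, not_or] at d1 d2
  have f1 : π2 0 ≠ π1 0 := fun h => d1.1 h.symm
  have f2 : π2 1 ≠ π1 0 := fun h => d1.2 h.symm
  have f3 : π2 0 ≠ π1 1 := fun h => d2.1 h.symm
  have f4 : π2 1 ≠ π1 1 := fun h => d2.2 h.symm
  refine ⟨fun v => if v = π1 0 then π1 1 else if v = π1 1 then π1 0 else
    if v = π2 0 then π2 1 else π2 0, ?_, fun a => if a = π1 0 then N0 else if a = π1 1 then N1 else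
    if a = π2 0 then N0' else N1', ?_, ?_⟩
  · intro v hv
    simp only [Finset.mem_union, Finset.mem_insert, Finset.mem_singleton] at hv
    rcases hv with (rfl | rfl) | (rfl | rfl)
    · simp [e1, e1.symm]
    · simp [e1, e1.symm]
    · simp [e2, e2.symm, f1, f2, f3, f4]
    · simp [e2, e2.symm, f1, f2, f3, f4]
  · intro v hv
    simp only [Finset.mem_union, Finset.mem_insert, Finset.mem_singleton] at hv
    rcases hv with (rfl | rfl) | (rfl | rfl)
    · simpa using ⟨a0, b0⟩
    · simpa [e1.symm] using ⟨a1, b1⟩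
    · simpa [f1, f3] using ⟨a0', b0'⟩
    · simpa [f2, f4, e2.symm] using ⟨a1', b1'⟩
  · intro u v huv
    rcases hD u v huv with ⟨k, hk⟩ | ⟨k, hk⟩
    · by_cases h0 : k = 0
      · left
        rw [h0, zero_add, Sym2.eq_iff] at hk
        rcases hk with ⟨rfl, rfl⟩ | ⟨rfl, rfl⟩
        · simp
        · simp [e1.symm]
      · right
        rw [Sym2.eq_iff] at hk
        rcases c k h0 with ⟨x, y⟩ | ⟨x, y⟩
        · refine ⟨π1 0, by simp, ?_⟩
          simp only [if_true]
          rcases hk with ⟨rfl, rfl⟩ | ⟨rfl, rfl⟩ <;> assumption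
        · refine ⟨π1 1, by simp, ?_⟩
          simp only [e1.symm, if_false, if_true]
          rcases hk with ⟨rfl, rfl⟩ | ⟨rfl, rfl⟩ <;> assumption
    · by_cases h0 : k = 0
      · left
        rw [h0, zero_add, Sym2.eq_iff] at hk
        rcases hk with ⟨rfl, rfl⟩ | ⟨rfl, rfl⟩
        · simp [f1, f3]
        · simp [f2, f4, e2.symm]
      · right
        rw [Sym2.eq_iff] at hk
        rcases c' k h0 with ⟨x, y⟩ | ⟨x, y⟩
        · refine ⟨π2 0, by simp, ?_⟩
          simp only [f1, f3, if_false, if_true]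
          rcases hk with ⟨rfl, rfl⟩ | ⟨rfl, rfl⟩ <;> assumption
        · refine ⟨π2 1, by simp, ?_⟩
          simp only [f2, f4, e2.symm, if_false]
          rcases hk with ⟨rfl, rfl⟩ | ⟨rfl, rfl⟩ <;> assumption

/-- One Hamiltonian cycle. -/
theorem one_ham {p : ℕ} [NeZero p] (hp : Odd p) (h2 : 2 ≤ p) {V : Type*} [AddGroup V]
    [DecidableEq V] (π1 : ZMod p ≃ V) (D : Set V)
    (hD : ∀ u v, v - u ∈ D → ∃ k, s(u, v) = s(π1 k, π1 (k + 1))) :
    EG D {π1 0, π1 1} := by
  have h10 : (1 : ZMod p) ≠ 0 := by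
    have : Fact (1 < p) := ⟨by omega⟩
    exact one_ne_zero
  obtain ⟨N0, N1, a0, a1, b0, b1, c⟩ := ham hp h2 π1
  have e1 : π1 0 ≠ π1 1 := fun h => h10 (π1.injective h).symm
  refine ⟨fun v => if v = π1 0 then π1 1 else π1 0, ?_, fun a => if a = π1 0 then N0 else N1, ?_, ?_⟩
  · intro v hv
    simp only [Finset.mem_insert, Finset.mem_singleton] at hv
    rcases hv with (rfl | rfl)
    · simp [e1, e1.symm]
    · simp [e1, e1.symm]
  · intro v hv
    simp only [Finset.mem_insert, Finset.mem_singleton] at hv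
    rcases hv with (rfl | rfl)
    · simpa using ⟨a0, b0⟩
    · simpa [e1.symm] using ⟨a1, b1⟩
  · intro u v huv
    obtain ⟨k, hk⟩ := hD u v huv
    by_cases h0 : k = 0
    · left
      rw [h0, zero_add, Sym2.eq_iff] at hk
      rcases hk with ⟨rfl, rfl⟩ | ⟨rfl, rfl⟩
      · simp
      · simp [e1.symm]
    · right
      rw [Sym2.eq_iff] at hk
      rcases c k h0 with ⟨x, y⟩ | ⟨x, y⟩
      · refine ⟨π1 0, by simp, ?_⟩
        simp only [if_true]
        rcases hk with ⟨rfl, rfl⟩ | ⟨rfl, rfl⟩ <;> assumption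
      · refine ⟨π1 1, by simp, ?_⟩
        simp only [e1.symm, if_false]
        rcases hk with ⟨rfl, rfl⟩ | ⟨rfl, rfl⟩ <;> assumption

/-! ### The cycle with a parallelogram swap -/

section Cyc

variable {p : ℕ} [NeZero p] (β : ℕ)

def piF (k : ZMod p) : ZMod p := if k.val + β + 1 ≤ p then -k else k + β + 1

def piG (v : ZMod p) : ZMod p := if v = 0 ∨ β + 1 ≤ v.val then -v else v - β - 1

theorem val_neg' {k : ZMod p} (h : k ≠ 0) : (-k).val = p - k.val := by
  rw [ZMod.neg_val, if_neg h]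

theorem val_pos' {k : ZMod p} (h : k ≠ 0) : 0 < k.val :=
  Nat.pos_of_ne_zero (fun h' => h ((ZMod.val_eq_zero k).mp h'))

theorem piG_piF (hβ : β + 2 ≤ p) (k : ZMod p) : piG β (piF β k) = k := by
  have hk := k.val_lt
  by_cases h : k.val + β + 1 ≤ p
  · rw [piF, if_pos h, piG, if_pos]
    · ring
    · by_cases h0 : k = 0
      · left; rw [h0]; ring
      · right; rw [val_neg' h0]; omega
  · rw [piF, if_neg h]
    have h3 : k + β + 1 = ((k.val + β + 1 - p : ℕ) : ZMod p) := by
      rw [Nat.cast_sub (by omega)]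
      push_cast
      rw [ZMod.natCast_zmod_val, ZMod.natCast_self, sub_zero]
    have h4 : (k + β + 1).val = k.val + β + 1 - p := by
      rw [h3, ZMod.val_natCast_of_lt (by omega)]
    rw [piG, if_neg]
    · ring
    · rintro (h5 | h5)
      · rw [h5] at h4
        simp at h4
        omega
      · rw [h4] at h5; omega

noncomputable def piE (hβ : β + 2 ≤ p) : ZMod p ≃ ZMod p :=
  Equiv.ofBijective (piF β) (Finite.injective_iff_bijective.mp
    (Function.LeftInverse.injective (piG_piF β hβ)))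

theorem piF_small {k : ZMod p} (h : k.val + β + 1 ≤ p) : piF β k = -k := if_pos h

theorem piF_big {k : ZMod p} (h : ¬ k.val + β + 1 ≤ p) : piF β k = k + β + 1 := if_neg h

theorem val_add_one {v : ZMod p} (h : v.val + 1 < p) : (v + 1).val = v.val + 1 := by
  have h3 : v + 1 = ((v.val + 1 : ℕ) : ZMod p) := by
    push_cast
    rw [ZMod.natCast_zmod_val]
  rw [h3, ZMod.val_natCast_of_lt h]

theorem piF_edge (hβ : β + 2 ≤ p) (v : ZMod p) (h0 : v ≠ 0) (h1 : v.val ≠ β) :
    ∃ k, s(v, v + 1) = s(piF β k, piF β (k + 1)) := by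
  have hv := v.val_lt
  have hv0 := val_pos' h0
  by_cases h : v.val < β
  · -- k = v - (β + 1)
    have e1 : v - β - 1 = ((v.val + p - β - 1 : ℕ) : ZMod p) := by
      rw [Nat.cast_sub (by omega), Nat.cast_sub (by omega)]
      push_cast
      rw [ZMod.natCast_zmod_val, ZMod.natCast_self]; ring
    have e2 : (v - β - 1).val = v.val + p - β - 1 := by
      rw [e1, ZMod.val_natCast_of_lt (by omega)]
    have e3 : (v - β - 1 + 1).val = v.val + p - β := by
      rw [val_add_one (by rw [e2]; omega), e2]; omega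
    refine ⟨v - β - 1, ?_⟩
    rw [piF_big β (by rw [e2]; omega), piF_big β (by rw [e3]; omega)]
    ring_nf
  · refine ⟨-(v + 1), ?_⟩
    have e1 : -(v + 1) + 1 = -v := by ring
    rw [e1, piF_small β (k := -v) (by rw [val_neg' h0]; omega)]
    rw [piF_small β (k := -(v + 1))]
    · rw [Sym2.eq_swap]; ring_nf
    · by_cases h2 : v + 1 = 0
      · rw [h2, neg_zero, ZMod.val_zero]; omega
      · rw [val_neg' h2, val_add_one]
        · omega
        · by_contra h3
          apply h2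
          have h4 : v.val + 1 = p := by omega
          have h5 : v + 1 = ((v.val + 1 : ℕ) : ZMod p) := by
            push_cast
            rw [ZMod.natCast_zmod_val]
          rw [h5, h4, ZMod.natCast_self]

theorem piF_neg_one (h2 : 2 ≤ β) (hβ : β + 2 ≤ p) : piF β (-1 : ZMod p) = β := by
  have : Fact (1 < p) := ⟨by omega⟩
  have h1 : (-1 : ZMod p).val = p - 1 := by
    rw [val_neg' one_ne_zero, ZMod.val_one]
  rw [piF_big β (by rw [h1]; omega)]
  ring

theorem piF_zero (hβ : β + 2 ≤ p) : piF β (0 : ZMod p) = 0 := by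
  rw [piF_small β (by rw [ZMod.val_zero]; omega), neg_zero]

theorem piF_jump (h2 : 2 ≤ β) (hβ : β + 2 ≤ p) :
    ∃ k : ZMod p, s((1 : ZMod p), (β : ZMod p) + 1) = s(piF β k, piF β (k + 1)) := by
  have e1 : ((p - β - 1 : ℕ) : ZMod p) = -β - 1 := by
    rw [Nat.cast_sub (by omega), Nat.cast_sub (by omega), ZMod.natCast_self]
    push_cast; ring
  have e2 : (((p - β - 1 : ℕ) : ZMod p)).val = p - β - 1 := ZMod.val_natCast_of_lt (by omega)
  have e3 : (((p - β - 1 : ℕ) : ZMod p) + 1).val = p - β := by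
    rw [val_add_one (by rw [e2]; omega), e2]; omega
  refine ⟨((p - β - 1 : ℕ) : ZMod p), ?_⟩
  rw [piF_small β (by rw [e2]; omega), piF_big β (by rw [e3]; omega), e1, Sym2.eq_swap]
  ring_nf

end Cyc

end Pool.Agent.P45
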