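import Pool.Agent.Lib.P45dba8.Host

/-! # The positions of the holes in HOST (separated from the gluing) -/

set_option autoImplicit false

namespace Pool.Agent.P45

theorem core_pos (m h : ℕ) (hm : Odd m) (hh : Odd h) (h3 : 3 ≤ h) (C : ZMod m)
    {Θ : Type*} [hne : Nonempty Θ]
    (T : Θ → ZMod h → ZMod m) (r : Θ → ZMod h) (x : Θ → ZMod m)
    (brk : Θ → Θ → ZMod h → Prop)
    (hT1 : ∀ k i, Odd (i - r k).val → T k (i + 1) = T k i)
    (hT2 : ∀ k l i, k ≠ l → Odd (i - r k).val → Odd (i - r l).val →
      T k i ≠ T l i ∧ T k i ≠ -T l i)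
    (hb1 : ∀ k l i, brk k l i → Odd (i - r k).val ∧ Odd (i - 1 - r l).val ∧ T k i = T l i)
    (hb2 : (∀ k, ¬ Odd (r k).val) → ∀ k l i, brk k l i → i ≠ 0 ∧ i ≠ -1) :
    ∃ (X : Θ → ZMod h → ZMod m) (s : Θ),
      (∀ k, X k (r k) = x k) ∧
      (∀ k i, Odd (i - r k).val → X k (i + 1) = X k i + if i + 1 = 0 then C else 0) ∧
      (∀ k l i, k ≠ l → Odd (i - r k).val → Odd (i - r l).val →
        ∀ b b', X k i + (bif b then T k i else 0) ≠ X l i + (bif b' then T l i else 0)) ∧
      (∀ k l i, brk k l i → IsUnit (X k i - X l i)) ∧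
      (r s ≠ -1 → X s (-1) = -C) ∧ (r s ≠ 0 → X s 0 = 0) ∧
      (∀ l b, l ≠ s → Odd (-1 - r l).val → X l (-1) + (bif b then T l (-1) else 0) ≠ -C) := by
  classical
  have hm1 : m ≠ 0 := by rintro rfl; simp at hm
  have : NeZero h := ⟨by omega⟩
  have : NeZero m := ⟨hm1⟩
  -- halves
  have h2u : IsUnit ((2 : ℕ) : ZMod m) := by
    rw [ZMod.isUnit_iff_coprime]
    exact (Nat.coprime_two_left.2 hm)
  have h2u' : IsUnit (2 : ZMod m) := by exact_mod_cast h2u
  obtain ⟨hf, hhf⟩ := h2u'.exists_right_inv
  let sh : ZMod h → ZMod m := fun i => if i = 0 then C else 0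
  have h00 : ¬ Odd (0 : ZMod h).val := by rw [ZMod.val_zero]; simp
  -- the main step for a given choice of centres `y`
  have main : ∀ (y : ℕ → ZMod m) (s : Θ),
      (∀ k l i, brk k l i → IsUnit (y i.val - y (i - 1).val - sh i)) →
      (Odd (r s).val → y (h - 1) = -C + hf * T s (-1)) →
      (¬ Odd (r s).val → (∀ k, ¬ Odd (r k).val) ∧
        (r s ≠ -1 → y (h - 2) = -C + hf * T s (-1)) ∧
        (r s ≠ 0 → y 0 = hf * T s 0)) →
      ∃ (X : Θ → ZMod h → ZMod m) (s : Θ),
      (∀ k, X k (r k) = x k) ∧
      (∀ k i, Odd (i - r k).val → X k (i + 1) = X k i + if i + 1 = 0 then C else 0) ∧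
      (∀ k l i, k ≠ l → Odd (i - r k).val → Odd (i - r l).val →
        ∀ b b', X k i + (bif b then T k i else 0) ≠ X l i + (bif b' then T l i else 0)) ∧
      (∀ k l i, brk k l i → IsUnit (X k i - X l i)) ∧
      (r s ≠ -1 → X s (-1) = -C) ∧ (r s ≠ 0 → X s 0 = 0) ∧
      (∀ l b, l ≠ s → Odd (-1 - r l).val → X l (-1) + (bif b then T l (-1) else 0) ≠ -C) := by
    intro y s hy hyO hyE
    let X : Θ → ZMod h → ZMod m := fun k i =>
      if i = r k then x k else
        if Odd (i - r k).val then y i.val - hf * T k i else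
          y (i - 1).val + sh i - hf * T k i
    have X_real : ∀ k, X k (r k) = x k := fun k => if_pos rfl
    have X_low : ∀ k i, Odd (i - r k).val → X k i = y i.val - hf * T k i := by
      intro k i hi
      have hne' : i ≠ r k := by
        rintro rfl
        rw [sub_self] at hi
        exact h00 hi
      show (if i = r k then x k else _) = _
      rw [if_neg hne', if_pos hi]
    have X_up : ∀ k i, Odd (i - 1 - r k).val → X k i = y (i - 1).val + sh i - hf * T k i := by
      intro k i hi
      have hne' : i ≠ r k := by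
        rintro rfl
        have e1 : r k - 1 - r k = -1 := by ring
        rw [e1] at hi
        exact not_odd_neg_one hh h3 hi
      have hodd : ¬ Odd (i - r k).val := by
        have e1 : i - r k = i - 1 - r k + 1 := by ring
        rw [e1]
        exact not_odd_succ hh h3 hi
      show (if i = r k then x k else _) = _
      rw [if_neg hne', if_neg hodd]
    have eF : ∀ k i, Odd (i - r k).val → X k (i + 1) = X k i + sh (i + 1) := by
      intro k i hi
      have hi' : Odd (i + 1 - 1 - r k).val := by
        rw [add_sub_cancel_right]; exact hi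
      rw [X_low k i hi, X_up k (i + 1) hi', add_sub_cancel_right, hT1 k i hi]
      ring
    have disj : ∀ k l i, k ≠ l → Odd (i - r k).val → Odd (i - r l).val →
        ∀ b b', X k i + (bif b then T k i else 0) ≠ X l i + (bif b' then T l i else 0) := by
      intro k l i hkl hk hl b b' h1
      obtain ⟨n1, n2⟩ := hT2 k l i hkl hk hl
      rw [X_low k i hk, X_low l i hl] at h1
      cases b <;> cases b' <;> simp only [cond_true, cond_false] at h1
      · apply n1
        linear_combination (-2) * h1 + (T l i - T k i) * hhf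
      · apply n2
        linear_combination (-2) * h1 + (T l i - T k i) * hhf
      · apply n2
        linear_combination 2 * h1 + (T k i - T l i) * hhf
      · apply n1
        linear_combination 2 * h1 + (T k i - T l i) * hhf
    -- the special thread
    have hval2 : ((-1 : ZMod h) - 1).val = h - 2 := by
      have : (-1 : ZMod h) - 1 = -2 := by ring
      rw [this, val_neg_two h3]
    have h10 : (-1 : ZMod h) ≠ 0 := by
      intro h'
      have := zval_neg_one (g := h) h3
      rw [h', ZMod.val_zero] at this
      omega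
    have hs1 : r s ≠ -1 → X s (-1) = -C := by
      intro hr
      by_cases ho : Odd (r s).val
      · rw [X_low s (-1) ((odd_neg_one_sub hh h3 _).2 ho), zval_neg_one h3, hyO ho]; ring
      · have hodd : Odd (-1 - 1 - r s).val := by
          rcases odd_or_pred h3 (x := -1 - r s) (by
            intro h'; exact hr (by linear_combination -h')) with h1 | h1
          · exact absurd ((odd_neg_one_sub hh h3 _).1 h1) ho
          · have : (-1 : ZMod h) - 1 - r s = -1 - r s - 1 := by ring
            rw [this]; exact h1
        have : sh (-1) = 0 := if_neg h10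
        rw [X_up s (-1) hodd, hval2, (hyE ho).2.1 hr, this]; ring
    have hs0 : r s ≠ 0 → X s 0 = 0 := by
      intro hr
      by_cases ho : Odd (r s).val
      · have hr1 : r s ≠ -1 := by
          intro h'
          rw [h'] at ho
          exact not_odd_neg_one hh h3 ho
        have := eF s (-1) ((odd_neg_one_sub hh h3 _).2 ho)
        rw [hs1 hr1] at this
        have e0 : (-1 : ZMod h) + 1 = 0 := by ring
        rw [e0] at this
        have e1 : sh 0 = C := if_pos rfl
        rw [this, e1]; ring
      · have hodd : Odd (0 - r s).val := odd_neg_of_even hh h3 ho hr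
        rw [X_low s 0 hodd, ZMod.val_zero, (hyE ho).2.2 hr]; ring
    have hs : ∀ l b, l ≠ s → Odd (-1 - r l).val →
        X l (-1) + (bif b then T l (-1) else 0) ≠ -C := by
      intro l b hl hodd
      by_cases ho : Odd (r s).val
      · have hr1 : r s ≠ -1 := by
          intro h'
          rw [h'] at ho
          exact not_odd_neg_one hh h3 ho
        rw [← hs1 hr1]
        have := disj l s (-1) hl hodd ((odd_neg_one_sub hh h3 _).2 ho) b false
        simpa using this
      · exact absurd ((odd_neg_one_sub hh h3 _).1 hodd) ((hyE ho).1 l)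
    refine ⟨X, s, X_real, eF, disj, ?_, hs1, hs0, hs⟩
    intro k l i hb
    obtain ⟨b1, b2, b3⟩ := hb1 k l i hb
    have e1 : X k i - X l i = y i.val - y (i - 1).val - sh i := by
      rw [X_low k i b1, X_up l i b2, b3]; ring
    rw [e1]
    exact hy k l i hb
  -- choice of the centres
  have hsh0 : ∀ i, i ≠ 0 → sh i = 0 := fun i hi => if_neg hi
  have hpos : ∀ i : ZMod h, i ≠ 0 → 1 ≤ i.val := by
    intro i hi
    rcases Nat.eq_zero_or_pos i.val with h1 | h1
    · exact absurd ((ZMod.val_eq_zero i).1 h1) hi
    · exact h1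
  by_cases hO : ∃ s, Odd (r s).val
  · obtain ⟨s, hs⟩ := hO
    obtain ⟨y, y1, y2, y3⟩ := seq_O m hm h h3 (-C + hf * T s (-1)) C
    refine main y s ?_ (fun _ => y1) (fun h' => absurd hs h')
    intro k l i _
    by_cases hi : i = 0
    · rw [hi]
      have e1 : sh 0 = C := if_pos rfl
      rw [e1, ZMod.val_zero, zero_sub, zval_neg_one h3]
      exact y3
    · rw [hsh0 i hi, sub_zero, zval_pred h3 hi]
      exact y2 _ (hpos i hi) (by have := i.val_lt; omega)
  · have hE : ∀ k, ¬ Odd (r k).val := fun k hk => hO ⟨k, hk⟩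
    have hlt : ∀ k l i, brk k l i → 1 ≤ i.val ∧ i.val ≤ h - 2 := by
      intro k l i hb
      obtain ⟨b1, b2⟩ := hb2 hE k l i hb
      have h1 := i.val_lt
      have h2 : i.val ≠ h - 1 := by
        intro h'
        apply b2
        rw [← zval_neg_one (g := h) h3] at h'
        exact ZMod.val_injective h h'
      exact ⟨hpos i b1, by omega⟩
    have hfin : ∀ (y : ℕ → ZMod m), (∀ j, 1 ≤ j → j ≤ h - 2 → IsUnit (y j - y (j - 1))) →
        ∀ k l i, brk k l i → IsUnit (y i.val - y (i - 1).val - sh i) := by
      intro y hy k l i hb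
      have hi := (hb2 hE k l i hb).1
      obtain ⟨l1, l2⟩ := hlt k l i hb
      rw [hsh0 i hi, sub_zero, zval_pred h3 hi]
      exact hy _ l1 l2
    obtain ⟨s⟩ := hne
    by_cases hr0 : r s = 0
    · refine main (fun j => -C + hf * T s (-1) - ((h - 2 : ℕ) : ZMod m) + (j : ZMod m)) s
        (hfin (fun j => -C + hf * T s (-1) - ((h - 2 : ℕ) : ZMod m) + (j : ZMod m)) ?_)
        (fun h' => absurd h' (hE s)) (fun _ => ⟨hE, fun _ => ?_, fun h' => absurd hr0 h'⟩)
      · intro j h1 h2
        have e1 : ∀ a : ZMod m, a + (j : ZMod m) - (a + ((j - 1 : ℕ) : ZMod m)) = 1 := by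
          intro a
          rw [Nat.cast_sub h1]; push_cast; ring
        rw [e1]; exact isUnit_one
      · ring
    by_cases hr1 : r s = -1
    · refine main (fun j => hf * T s 0 + (j : ZMod m)) s
        (hfin (fun j => hf * T s 0 + (j : ZMod m)) ?_)
        (fun h' => absurd h' (hE s)) (fun _ => ⟨hE, fun h' => absurd hr1 h', fun _ => ?_⟩)
      · intro j h1 h2
        have e1 : ∀ a : ZMod m, a + (j : ZMod m) - (a + ((j - 1 : ℕ) : ZMod m)) = 1 := by
          intro a
          rw [Nat.cast_sub h1]; push_cast; ring
        rw [e1]; exact isUnit_one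
      · push_cast; ring
    · -- `h ≥ 5`
      have h5 : 5 ≤ h := by
        by_contra hlt5
        have hh3 : h = 3 := by
          obtain ⟨a, ha⟩ := hh
          omega
        have v1 := (r s).val_lt
        have v2 := hE s
        have v3 := hpos _ hr0
        have v4 : (r s).val = 2 := by
          rcases Nat.lt_or_ge (r s).val 2 with h' | h'
          · exfalso
            apply v2
            have : (r s).val = 1 := by omega
            rw [this]; exact odd_one
          · omega
        apply hr1
        have v5 : (r s).val = (-1 : ZMod h).val := by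
          rw [zval_neg_one h3, v4]; omega
        exact ZMod.val_injective h v5
      obtain ⟨y, y1, y2, y3⟩ := seq_E m hm h h5 (-C + hf * T s (-1)) (hf * T s 0)
      exact main y s (hfin y y3) (fun h' => absurd h' (hE s))
        (fun _ => ⟨hE, fun _ => y2, fun _ => y1⟩)

end Pool.Agent.P45
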