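import Pool.Agent.Lib.P45dba8.Host

/-! # Good families of types and the hosting theorem -/

set_option autoImplicit false

namespace Pool.Agent.P45

/-- The edges with a difference in `± D`. -/
def DE {n : ℕ} (D : ZMod n → Prop) (a b : ZMod n) : Prop := ∃ δ, D δ ∧ (b = a + δ ∨ a = b + δ)

/-- Holes given by a starting point and a type. -/
def fh {n : ℕ} {Θ : Type*} (P A : Θ → ZMod n) (k : Θ) (b : Bool) : ZMod n :=
  P k + (bif b then A k else 0)

/-- Admissible statuses of a pair `d, u`: the two holes have the types `a, a'` and their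
starting points differ by `δ`. `Q` is the set of allowed differences for two holes of the same
type. -/
def adm {n : ℕ} (Q : ZMod n → Prop) (d u a a' δ : ZMod n) : Prop :=
  (a = d ∧ a' = u) ∨ (a = u ∧ a' = d) ∨ (((a = d ∧ a' = d) ∨ (a = u ∧ a' = u)) ∧ Q δ)

/-- The types of a family. -/
def FD {n : ℕ} {ι κ : Type*} (t : ι → ZMod n) (d u : κ → ZMod n) (δ : ZMod n) : Prop :=
  (∃ i, δ = t i) ∨ ∃ k, δ = d k ∨ δ = u k

/-- A family of single types `t` and of pairs `d, u` is good: for all statuses and all positions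
of the holes (two holes of the same type differ by an element of `Q`) there is a colour system. -/
def Good (n : ℕ) (Q : ZMod n → Prop) {ι κ : Type*} (t : ι → ZMod n) (d u : κ → ZMod n) : Prop :=
  ∀ P A : ι ⊕ κ × Bool → ZMod n, (∀ i, A (Sum.inl i) = t i) →
    (∀ k, adm Q (d k) (u k) (A (Sum.inr (k, false))) (A (Sum.inr (k, true)))
      (P (Sum.inr (k, true)) - P (Sum.inr (k, false)))) →
    TS Set.univ (DE (FD t d u)) (fh P A)

/-- All types of the family (with index). -/
def tyy {n : ℕ} {ι κ : Type*} (t : ι → ZMod n) (d u : κ → ZMod n) : ι ⊕ κ × Bool → ZMod n :=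
  Sum.elim t (fun k => bif k.2 then u k.1 else d k.1)

/-- The types are distinct up to sign. -/
def Dist {n : ℕ} {ι κ : Type*} (t : ι → ZMod n) (d u : κ → ZMod n) : Prop :=
  ∀ x y, x ≠ y → tyy t d u x ≠ tyy t d u y ∧ tyy t d u x ≠ -tyy t d u y

section pairtypes

variable {h : ℕ} (ho : Odd h) (h3 : 3 ≤ h)
include ho h3

theorem odd_sub_rev {a b : ZMod h} (hne : a ≠ b) (hev : ¬ Odd (b - a).val) : Odd (a - b).val := by
  have h1 : b - a ≠ 0 := fun h' => hne (sub_eq_zero.1 h').symm
  have := odd_neg_of_even ho h3 hev h1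
  rwa [zero_sub, neg_sub] at this

/-- Types of the two threads of a doubled type `x` with the unused type `y`, even distance. -/
theorem pair_types_even {m : ℕ} (x y : ZMod m) (hxy : x ≠ y) (hxy' : x ≠ -y) (a b : ZMod h)
    (hne : a ≠ b) (hev : ¬ Odd (b - a).val) :
    ∃ TA TB : ZMod h → ZMod m,
      TA a = x ∧ TB b = x ∧
      (∀ i, Odd (i - a).val → TA (i + 1) = TA i) ∧
      (∀ i, Odd (i - b).val → TB (i + 1) = TB i) ∧
      (∀ i, Odd (i - a).val → Odd (i - b).val → TA i ≠ TB i ∧ TA i ≠ -TB i) ∧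
      (Odd ((a + 1) - a).val ∧ Odd (a + 1 - 1 - b).val ∧ TA (a + 1) = TB (a + 1)) ∧
      (¬ Odd a.val → ¬ Odd b.val → a + 1 ≠ 0 ∧ a + 1 ≠ -1) ∧
      (∀ i, (TA i = x ∧ TB i = y) ∨ (TA i = y ∧ TB i = x) ∨
        (TA i = y ∧ TB i = y ∧ i = a + 1)) := by
  classical
  have hF1 : Fact (1 < h) := ⟨by omega⟩
  have h00 : ¬ Odd (0 : ZMod h).val := by rw [ZMod.val_zero]; simp
  have h1o : Odd (1 : ZMod h).val := by rw [ZMod.val_one]; exact odd_one
  have hba : b ≠ a := fun h' => hne h'.symm
  have hab : Odd (a - b).val := odd_sub_rev ho h3 hne hev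
  have hb1 : b ≠ a + 1 := by
    intro h'
    apply hev
    rw [h', add_sub_cancel_left]
    exact h1o
  have hn1 : ¬ Odd (a + 1 - b).val := by
    have : a + 1 - b = a - b + 1 := by ring
    rw [this]
    exact not_odd_succ ho h3 hab
  have hn2 : ¬ Odd (a - 1 - b).val := by
    intro h'
    have := not_odd_succ ho h3 h'
    have e : a - 1 - b + 1 = a - b := by ring
    rw [e] at this
    exact this hab
  refine ⟨fun i => if i = a then x else y, fun i => if i = a ∨ i = a + 1 then y else x,
    if_pos rfl, if_neg (by rintro (h' | h'); exacts [hba h', hb1 h']), ?_, ?_, ?_, ?_, ?_, ?_⟩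
  · intro i hi
    have h1 : i ≠ a := by rintro rfl; rw [sub_self] at hi; exact h00 hi
    have h2 : i + 1 ≠ a := by
      intro h'
      have : i - a = -1 := by rw [← h']; ring
      rw [this] at hi
      exact not_odd_neg_one ho h3 hi
    simp only
    rw [if_neg h1, if_neg h2]
  · intro i hi
    simp only
    by_cases h1 : i = a
    · rw [if_pos (Or.inr (by rw [h1])), if_pos (Or.inl h1)]
    · have h2 : i ≠ a + 1 := by rintro rfl; exact hn1 hi
      have h3' : i + 1 ≠ a := by
        intro h'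
        have : i = a - 1 := by rw [← h']; ring
        rw [this] at hi
        exact hn2 hi
      have h4 : i + 1 ≠ a + 1 := fun h' => h1 (add_right_cancel h')
      rw [if_neg (by rintro (h' | h'); exacts [h3' h', h4 h']),
        if_neg (by rintro (h' | h'); exacts [h1 h', h2 h'])]
  · intro i hi hi'
    have h1 : i ≠ a := by rintro rfl; rw [sub_self] at hi; exact h00 hi
    have h2 : i ≠ a + 1 := by rintro rfl; exact hn1 hi'
    simp only
    rw [if_neg h1, if_neg (by rintro (h' | h'); exacts [h1 h', h2 h'])]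
    exact ⟨fun h' => hxy h'.symm, fun h' => hxy' (by rw [h', neg_neg])⟩
  · refine ⟨by rw [add_sub_cancel_left]; exact h1o, by rw [add_sub_cancel_right]; exact hab, ?_⟩
    show (if a + 1 = a then x else y) = (if a + 1 = a ∨ a + 1 = a + 1 then y else x)
    rw [if_neg (by intro h'; exact one_ne_zero (add_eq_left.1 h')), if_pos (Or.inr rfl)]
  · intro ha hb
    constructor
    · intro h'
      have h1 : a = -1 := by linear_combination h'
      apply hev
      have h2 : b ≠ -1 := fun h'' => hne (h1.trans h''.symm)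
      have e : b - a = b + 1 := by rw [h1]; ring
      rw [e, zval_succ h3 h2, Nat.odd_add_one]
      exact hb
    · intro h'
      have h1 : a = -2 := by linear_combination h'
      apply ha
      rw [h1, val_neg_two h3]
      obtain ⟨c, hc⟩ := ho
      exact ⟨c - 1, by omega⟩
  · intro i
    simp only
    by_cases h1 : i = a
    · left
      rw [if_pos h1, if_pos (Or.inl h1)]
      exact ⟨rfl, rfl⟩
    · by_cases h2 : i = a + 1
      · right; right
        rw [if_neg h1, if_pos (Or.inr h2)]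
        exact ⟨rfl, rfl, h2⟩
      · right; left
        rw [if_neg h1, if_neg (by rintro (h' | h'); exacts [h1 h', h2 h'])]
        exact ⟨rfl, rfl⟩

/-- Types of the two threads of a pair in all cases. -/
theorem pair_types {m : ℕ} (d u : ZMod m) (hdu : d ≠ u) (hdu' : d ≠ -u) (a a' : ZMod m)
    (r : Bool → ZMod h)
    (had : (a = d ∧ a' = u) ∨ (a = u ∧ a' = d) ∨
      (((a = d ∧ a' = d) ∨ (a = u ∧ a' = u)) ∧ r false ≠ r true)) :
    ∃ (T : Bool → ZMod h → ZMod m) (brk : Bool → Bool → ZMod h → Prop),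
      T false (r false) = a ∧ T true (r true) = a' ∧
      (∀ b i, Odd (i - r b).val → T b (i + 1) = T b i) ∧
      (∀ i, Odd (i - r false).val → Odd (i - r true).val →
        T false i ≠ T true i ∧ T false i ≠ -T true i) ∧
      (∀ b b' i, brk b b' i → Odd (i - r b).val ∧ Odd (i - 1 - r b').val ∧ T b i = T b' i) ∧
      (¬ Odd (r false).val → ¬ Odd (r true).val → ∀ b b' i, brk b b' i → i ≠ 0 ∧ i ≠ -1) ∧
      (∀ b i, T b i = d ∨ T b i = u) ∧
      (∀ i, (T false i = d ∧ T true i = u) ∨ (T false i = u ∧ T true i = d) ∨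
        (((T false i = d ∧ T true i = d) ∨ (T false i = u ∧ T true i = u)) ∧
          (brk false true i ∨ brk true false i))) := by
  classical
  have hud : u ≠ d := fun h' => hdu h'.symm
  have hud' : u ≠ -d := fun h' => hdu' (by rw [h', neg_neg])
  -- constant types
  have hconst : ∀ x y : ZMod m, ((x = d ∧ y = u) ∨ (x = u ∧ y = d)) →
      ∃ (T : Bool → ZMod h → ZMod m) (brk : Bool → Bool → ZMod h → Prop),
      T false (r false) = x ∧ T true (r true) = y ∧
      (∀ b i, Odd (i - r b).val → T b (i + 1) = T b i) ∧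
      (∀ i, Odd (i - r false).val → Odd (i - r true).val →
        T false i ≠ T true i ∧ T false i ≠ -T true i) ∧
      (∀ b b' i, brk b b' i → Odd (i - r b).val ∧ Odd (i - 1 - r b').val ∧ T b i = T b' i) ∧
      (¬ Odd (r false).val → ¬ Odd (r true).val → ∀ b b' i, brk b b' i → i ≠ 0 ∧ i ≠ -1) ∧
      (∀ b i, T b i = d ∨ T b i = u) ∧
      (∀ i, (T false i = d ∧ T true i = u) ∨ (T false i = u ∧ T true i = d) ∨
        (((T false i = d ∧ T true i = d) ∨ (T false i = u ∧ T true i = u)) ∧
          (brk false true i ∨ brk true false i))) := by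
    intro x y hxy
    refine ⟨fun b _ => bif b then y else x, fun _ _ _ => False, rfl, rfl, fun _ _ _ => rfl, ?_,
      fun _ _ _ h' => h'.elim, fun _ _ _ _ _ h' => h'.elim, ?_, ?_⟩
    · intro i _ _
      rcases hxy with ⟨rfl, rfl⟩ | ⟨rfl, rfl⟩
      · exact ⟨hdu, hdu'⟩
      · exact ⟨hud, hud'⟩
    · intro b i
      rcases hxy with ⟨rfl, rfl⟩ | ⟨rfl, rfl⟩
      · cases b
        · exact Or.inl rfl
        · exact Or.inr rfl
      · cases b
        · exact Or.inr rfl
        · exact Or.inl rfl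
    · intro i
      rcases hxy with ⟨rfl, rfl⟩ | ⟨rfl, rfl⟩
      · exact Or.inl ⟨rfl, rfl⟩
      · exact Or.inr (Or.inl ⟨rfl, rfl⟩)
  -- doubled types
  have hdbl : ∀ x y : ZMod m, ((x = d ∧ y = u) ∨ (x = u ∧ y = d)) → r false ≠ r true →
      ∃ (T : Bool → ZMod h → ZMod m) (brk : Bool → Bool → ZMod h → Prop),
      T false (r false) = x ∧ T true (r true) = x ∧
      (∀ b i, Odd (i - r b).val → T b (i + 1) = T b i) ∧
      (∀ i, Odd (i - r false).val → Odd (i - r true).val →
        T false i ≠ T true i ∧ T false i ≠ -T true i) ∧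
      (∀ b b' i, brk b b' i → Odd (i - r b).val ∧ Odd (i - 1 - r b').val ∧ T b i = T b' i) ∧
      (¬ Odd (r false).val → ¬ Odd (r true).val → ∀ b b' i, brk b b' i → i ≠ 0 ∧ i ≠ -1) ∧
      (∀ b i, T b i = d ∨ T b i = u) ∧
      (∀ i, (T false i = d ∧ T true i = u) ∨ (T false i = u ∧ T true i = d) ∨
        (((T false i = d ∧ T true i = d) ∨ (T false i = u ∧ T true i = u)) ∧
          (brk false true i ∨ brk true false i))) := by
    intro x y hxy hr
    have hxy1 : x ≠ y := by
      rcases hxy with ⟨rfl, rfl⟩ | ⟨rfl, rfl⟩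
      · exact hdu
      · exact hud
    have hxy2 : x ≠ -y := by
      rcases hxy with ⟨rfl, rfl⟩ | ⟨rfl, rfl⟩
      · exact hdu'
      · exact hud'
    have hx : ∀ z : ZMod m, z = x ∨ z = y → z = d ∨ z = u := by
      intro z hz
      rcases hxy with ⟨rfl, rfl⟩ | ⟨rfl, rfl⟩
      · exact hz
      · exact hz.symm
    by_cases hev : Odd (r true - r false).val
    · -- `A = true`, `B = false`
      have hev' : ¬ Odd (r false - r true).val := by
        intro h'
        have h1 : r false - r true ≠ 0 := sub_ne_zero.2 hr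
        have hF1 : NeZero h := ⟨by omega⟩
        have e : r true - r false = -(r false - r true) := by ring
        rw [e, ZMod.neg_val, if_neg h1] at hev
        have hlt := (r false - r true).val_lt
        obtain ⟨c, hc⟩ := ho
        obtain ⟨c1, hc1⟩ := h'
        obtain ⟨c2, hc2⟩ := hev
        omega
      obtain ⟨TA, TB, g1, g2, g3, g4, g5, g6, g7, g8⟩ :=
        pair_types_even ho h3 x y hxy1 hxy2 (r true) (r false) (fun h' => hr h'.symm) hev'
      refine ⟨fun b => bif b then TA else TB, fun b b' i => b = true ∧ b' = false ∧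
        i = r true + 1, g2, g1, ?_, ?_, ?_, ?_, ?_, ?_⟩
      · intro b i hi
        cases b
        · exact g4 i hi
        · exact g3 i hi
      · intro i hi hi'
        obtain ⟨q1, q2⟩ := g5 i hi' hi
        exact ⟨fun h' => q1 h'.symm, fun h' => q2 (by
          show TA i = -TB i
          have h'' : TB i = -TA i := h'
          rw [h'', neg_neg])⟩
      · rintro b b' i ⟨rfl, rfl, rfl⟩
        exact g6
      · rintro hf ht b b' i ⟨rfl, rfl, rfl⟩
        exact g7 ht hf
      · intro b i
        apply hx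
        rcases g8 i with ⟨q1, q2⟩ | ⟨q1, q2⟩ | ⟨q1, q2, _⟩ <;> cases b
        · exact Or.inr q2
        · exact Or.inl q1
        · exact Or.inl q2
        · exact Or.inr q1
        · exact Or.inr q2
        · exact Or.inr q1
      · intro i
        rcases hxy with ⟨rfl, rfl⟩ | ⟨rfl, rfl⟩
        · rcases g8 i with ⟨q1, q2⟩ | ⟨q1, q2⟩ | ⟨q1, q2, q3⟩
          · exact Or.inr (Or.inl ⟨q2, q1⟩)
          · exact Or.inl ⟨q2, q1⟩
          · exact Or.inr (Or.inr ⟨Or.inr ⟨q2, q1⟩, Or.inr ⟨rfl, rfl, q3⟩⟩)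
        · rcases g8 i with ⟨q1, q2⟩ | ⟨q1, q2⟩ | ⟨q1, q2, q3⟩
          · exact Or.inl ⟨q2, q1⟩
          · exact Or.inr (Or.inl ⟨q2, q1⟩)
          · exact Or.inr (Or.inr ⟨Or.inl ⟨q2, q1⟩, Or.inr ⟨rfl, rfl, q3⟩⟩)
    · obtain ⟨TA, TB, g1, g2, g3, g4, g5, g6, g7, g8⟩ :=
        pair_types_even ho h3 x y hxy1 hxy2 (r false) (r true) hr hev
      refine ⟨fun b => bif b then TB else TA, fun b b' i => b = false ∧ b' = true ∧
        i = r false + 1, g1, g2, ?_, ?_, ?_, ?_, ?_, ?_⟩
      · intro b i hi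
        cases b
        · exact g3 i hi
        · exact g4 i hi
      · intro i hi hi'
        exact g5 i hi hi'
      · rintro b b' i ⟨rfl, rfl, rfl⟩
        exact g6
      · rintro hf ht b b' i ⟨rfl, rfl, rfl⟩
        exact g7 hf ht
      · intro b i
        apply hx
        rcases g8 i with ⟨q1, q2⟩ | ⟨q1, q2⟩ | ⟨q1, q2, _⟩ <;> cases b
        · exact Or.inl q1
        · exact Or.inr q2
        · exact Or.inr q1
        · exact Or.inl q2
        · exact Or.inr q1
        · exact Or.inr q2
      · intro i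
        rcases hxy with ⟨rfl, rfl⟩ | ⟨rfl, rfl⟩
        · rcases g8 i with ⟨q1, q2⟩ | ⟨q1, q2⟩ | ⟨q1, q2, q3⟩
          · exact Or.inl ⟨q1, q2⟩
          · exact Or.inr (Or.inl ⟨q1, q2⟩)
          · exact Or.inr (Or.inr ⟨Or.inr ⟨q1, q2⟩, Or.inl ⟨rfl, rfl, q3⟩⟩)
        · rcases g8 i with ⟨q1, q2⟩ | ⟨q1, q2⟩ | ⟨q1, q2, q3⟩
          · exact Or.inr (Or.inl ⟨q1, q2⟩)
          · exact Or.inl ⟨q1, q2⟩
          · exact Or.inr (Or.inr ⟨Or.inl ⟨q1, q2⟩, Or.inl ⟨rfl, rfl, q3⟩⟩)
  rcases had with ⟨h1, h2⟩ | ⟨h1, h2⟩ | ⟨⟨h1, h2⟩ | ⟨h1, h2⟩, hr⟩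
  · rw [h1, h2]; exact hconst d u (Or.inl ⟨rfl, rfl⟩)
  · rw [h1, h2]; exact hconst u d (Or.inr ⟨rfl, rfl⟩)
  · rw [h1, h2]; exact hdbl d u (Or.inl ⟨rfl, rfl⟩) hr
  · rw [h1, h2]; exact hdbl u d (Or.inr ⟨rfl, rfl⟩) hr

end pairtypes

/-- HOST: a good family of `ZMod m` together with a single type `c`, coprime to `h`, is good in
`ZMod (m * h)`; two holes of the same type only have to differ modulo `h`. -/
theorem Good.host {m h : ℕ} (hm : Odd m) (hh : Odd h) (h3 : 3 ≤ h) {ι κ : Type*}
    [Nonempty (ι ⊕ κ × Bool)] {Q : ZMod m → Prop} (hQ : ∀ x, IsUnit x → Q x)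
    {t : ι → ZMod m} {d u : κ → ZMod m} (hG : Good m Q t d u)
    (hD : Dist t d u) (c : ZMod (m * h)) (hc : IsUnit (red m h c)) :
    Good (m * h) (fun δ => red m h δ ≠ 0) (fun i : Option ι => i.elim c (fun i => psi m h (t i)))
      (fun k => psi m h (d k)) (fun k => psi m h (u k)) := by
  classical
  intro P A hA hP
  have hinj := psi_inj m h (by omega)
  have hNZ : NeZero h := ⟨by omega⟩
  obtain ⟨ci, hci⟩ := hc.exists_right_inv
  let w := P (Sum.inl none)
  let emb : ι ⊕ κ × Bool → Option ι ⊕ κ × Bool := Sum.map some id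
  let p : ι ⊕ κ × Bool → ZMod (m * h) := fun θ => P (emb θ)
  let r : ι ⊕ κ × Bool → ZMod h := fun θ => red m h (p θ - w) * ci - 1
  have hp : ∀ θ, red m h (p θ - w) = (r θ + 1) * red m h c := by
    intro θ
    show red m h (p θ - w) = (red m h (p θ - w) * ci - 1 + 1) * red m h c
    linear_combination (-red m h (p θ - w)) * hci
  -- data of the pairs
  have hpair : ∀ k : κ, ∃ (T : Bool → ZMod h → ZMod m) (brk : Bool → Bool → ZMod h → Prop),
      psi m h (T false (r (Sum.inr (k, false)))) = A (Sum.inr (k, false)) ∧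
      psi m h (T true (r (Sum.inr (k, true)))) = A (Sum.inr (k, true)) ∧
      (∀ b i, Odd (i - r (Sum.inr (k, b))).val → T b (i + 1) = T b i) ∧
      (∀ i, Odd (i - r (Sum.inr (k, false))).val → Odd (i - r (Sum.inr (k, true))).val →
        T false i ≠ T true i ∧ T false i ≠ -T true i) ∧
      (∀ b b' i, brk b b' i → Odd (i - r (Sum.inr (k, b))).val ∧
        Odd (i - 1 - r (Sum.inr (k, b'))).val ∧ T b i = T b' i) ∧
      (¬ Odd (r (Sum.inr (k, false))).val → ¬ Odd (r (Sum.inr (k, true))).val →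
        ∀ b b' i, brk b b' i → i ≠ 0 ∧ i ≠ -1) ∧
      (∀ b i, T b i = d k ∨ T b i = u k) ∧
      (∀ i, (T false i = d k ∧ T true i = u k) ∨ (T false i = u k ∧ T true i = d k) ∨
        (((T false i = d k ∧ T true i = d k) ∨ (T false i = u k ∧ T true i = u k)) ∧
          (brk false true i ∨ brk true false i))) := by
    intro k
    have hdu := hD (Sum.inr (k, false)) (Sum.inr (k, true)) (by simp)
    have e1 : tyy t d u (Sum.inr (k, false)) = d k := rfl
    have e2 : tyy t d u (Sum.inr (k, true)) = u k := rfl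
    rw [e1, e2] at hdu
    obtain ⟨a, a', ha, ha', had⟩ : ∃ a a' : ZMod m, psi m h a = A (Sum.inr (k, false)) ∧
        psi m h a' = A (Sum.inr (k, true)) ∧ ((a = d k ∧ a' = u k) ∨ (a = u k ∧ a' = d k) ∨
      (((a = d k ∧ a' = d k) ∨ (a = u k ∧ a' = u k)) ∧
        r (Sum.inr (k, false)) ≠ r (Sum.inr (k, true)))) := by
      have hr : red m h (P (Sum.inr (k, true)) - P (Sum.inr (k, false))) ≠ 0 →
          r (Sum.inr (k, false)) ≠ r (Sum.inr (k, true)) := by
        intro hu' hr
        have h1 := hp (Sum.inr (k, false))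
        have h2 := hp (Sum.inr (k, true))
        have e3 : P (Sum.inr (k, true)) - P (Sum.inr (k, false)) =
            (p (Sum.inr (k, true)) - w) - (p (Sum.inr (k, false)) - w) := by
          show P (Sum.inr (k, true)) - P (Sum.inr (k, false)) =
            (P (Sum.inr (k, true)) - w) - (P (Sum.inr (k, false)) - w)
          ring
        rw [e3, map_sub, h1, h2, hr, sub_self] at hu'
        exact hu' rfl
      rcases hP k with ⟨h1, h2⟩ | ⟨h1, h2⟩ | ⟨⟨h1, h2⟩ | ⟨h1, h2⟩, h4⟩
      · exact ⟨d k, u k, h1.symm, h2.symm, Or.inl ⟨rfl, rfl⟩⟩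
      · exact ⟨u k, d k, h1.symm, h2.symm, Or.inr (Or.inl ⟨rfl, rfl⟩)⟩
      · exact ⟨d k, d k, h1.symm, h2.symm, Or.inr (Or.inr ⟨Or.inl ⟨rfl, rfl⟩, hr h4⟩)⟩
      · exact ⟨u k, u k, h1.symm, h2.symm, Or.inr (Or.inr ⟨Or.inr ⟨rfl, rfl⟩, hr h4⟩)⟩
    obtain ⟨T, brk, g1, g2, g⟩ := pair_types hh h3 (d k) (u k) hdu.1 hdu.2 a a'
      (fun b => r (Sum.inr (k, b))) had
    exact ⟨T, brk, by rw [g1]; exact ha, by rw [g2]; exact ha', g⟩
  choose T brk g1 g2 g3 g4 g5 g6 g7 g8 using hpair
  let TT : ι ⊕ κ × Bool → ZMod h → ZMod m := fun θ i =>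
    Sum.elim t (fun k : κ × Bool => T k.1 k.2 i) θ
  let BR : ι ⊕ κ × Bool → ι ⊕ κ × Bool → ZMod h → Prop := fun θ θ' i =>
    ∃ k b b', θ = Sum.inr (k, b) ∧ θ' = Sum.inr (k, b') ∧ brk k b b' i
  have key := host_a m h hm hh h3 c w hc (FD t d u) TT r p BR hp ?_ ?_ ?_ ?_ ?_
  · -- conclusion
    refine ((key.reindex (Θ' := Option ι ⊕ κ × Bool)
      { toFun := fun θ => Sum.elim (fun i : Option ι => i.map Sum.inl) (fun k => some (Sum.inr k)) θ
        invFun := fun θ => θ.elim (Sum.inl none) emb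
        left_inv := by
          rintro ((_ | i) | k) <;> rfl
        right_inv := by
          rintro (_ | (i | k)) <;> rfl }).mono ?_).congr ?_
    · rintro x - y - ⟨δ, hδ, hxy⟩
      rcases hδ with ⟨i, hi⟩ | ⟨k, hk⟩
      · rcases i with _ | i
        · right
          have hi' : δ = c := hi
          rw [hi'] at hxy
          exact hxy
        · left
          have hi' : δ = psi m h (t i) := hi
          rw [hi'] at hxy
          exact ⟨t i, Or.inl ⟨i, rfl⟩, hxy⟩
      · left
        rcases hk with hk | hk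
        · rw [hk] at hxy
          exact ⟨d k, Or.inr ⟨k, Or.inl rfl⟩, hxy⟩
        · rw [hk] at hxy
          exact ⟨u k, Or.inr ⟨k, Or.inr rfl⟩, hxy⟩
    · rintro ((_ | i) | ⟨k, b'⟩) b
      · show P (Sum.inl none) + (bif b then A (Sum.inl none) else 0) =
          (bif b then w + c else w)
        have : A (Sum.inl none) = c := hA none
        rw [this]
        cases b
        · show P (Sum.inl none) + 0 = P (Sum.inl none)
          rw [add_zero]
        · rfl
      · show P (Sum.inl (some i)) + (bif b then A (Sum.inl (some i)) else 0) =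
          P (Sum.inl (some i)) + (bif b then psi m h (t i) else 0)
        have : A (Sum.inl (some i)) = psi m h (t i) := hA (some i)
        rw [this]
      · show P (Sum.inr (k, b')) + (bif b then A (Sum.inr (k, b')) else 0) =
          P (Sum.inr (k, b')) + (bif b then psi m h (T k b' (r (Sum.inr (k, b')))) else 0)
        cases b'
        · rw [g1 k]
        · rw [g2 k]
  · -- constant on active pairs
    rintro (i | ⟨k, b⟩) j hj
    · rfl
    · exact g3 k b j hj
  · -- different types on a level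
    rintro (i | ⟨k, b⟩) (i' | ⟨k', b'⟩) j hne hj hj'
    · exact hD (Sum.inl i) (Sum.inl i') hne
    · have e : ∀ z, z = d k' ∨ z = u k' → t i ≠ z ∧ t i ≠ -z := by
        rintro z (rfl | rfl)
        · exact hD (Sum.inl i) (Sum.inr (k', false)) (by simp)
        · exact hD (Sum.inl i) (Sum.inr (k', true)) (by simp)
      exact e _ (g7 k' b' j)
    · have e : ∀ z, z = d k ∨ z = u k → z ≠ t i' ∧ z ≠ -t i' := by
        rintro z (rfl | rfl)
        · exact hD (Sum.inr (k, false)) (Sum.inl i') (by simp)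
        · exact hD (Sum.inr (k, true)) (Sum.inl i') (by simp)
      exact e _ (g7 k b j)
    · by_cases hk : k = k'
      · subst hk
        have hb : b ≠ b' := by rintro rfl; exact hne rfl
        cases b <;> cases b'
        · exact absurd rfl hb
        · exact g4 k j hj hj'
        · obtain ⟨q1, q2⟩ := g4 k j hj' hj
          refine ⟨fun h' => q1 h'.symm, fun h' => q2 ?_⟩
          have h'' : T k true j = -T k false j := h'
          rw [h'', neg_neg]
        · exact absurd rfl hb
      · have e : ∀ z z', (z = d k ∨ z = u k) → (z' = d k' ∨ z' = u k') → z ≠ z' ∧ z ≠ -z' := by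
          rintro z z' (rfl | rfl) (rfl | rfl)
          · exact hD (Sum.inr (k, false)) (Sum.inr (k', false)) (by simp [hk])
          · exact hD (Sum.inr (k, false)) (Sum.inr (k', true)) (by simp)
          · exact hD (Sum.inr (k, true)) (Sum.inr (k', false)) (by simp)
          · exact hD (Sum.inr (k, true)) (Sum.inr (k', true)) (by simp [hk])
        exact e _ _ (g7 k b j) (g7 k' b' j)
  · -- breaks
    rintro θ θ' i ⟨k, b, b', rfl, rfl, hb⟩
    exact g5 k b b' i hb
  · rintro hE θ θ' i ⟨k, b, b', rfl, rfl, hb⟩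
    exact g6 k (hE _) (hE _) b b' i hb
  · -- the systems of the classes
    intro i X hX
    apply hG (fun θ => X θ) (fun θ => TT θ i)
    · intro j; rfl
    · intro k
      rcases g8 k i with h1 | h1 | ⟨h1, h2⟩
      · exact Or.inl h1
      · exact Or.inr (Or.inl h1)
      · refine Or.inr (Or.inr ⟨h1, ?_⟩)
        rcases h2 with h2 | h2
        · have := hX _ _ ⟨k, false, true, rfl, rfl, h2⟩
          have e : X (Sum.inr (k, true)) - X (Sum.inr (k, false)) =
              -(X (Sum.inr (k, false)) - X (Sum.inr (k, true))) := by ring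
          rw [e]
          exact hQ _ this.neg
        · exact hQ _ (hX _ _ ⟨k, true, false, rfl, rfl, h2⟩)

end Pool.Agent.P45
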