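import Pool.Agent.Lib.P45dba8.Color
import Pool.Agent.Lib.P45dba8.Good

/-! # Odd cycles and two unit types -/

set_option autoImplicit false
set_option linter.unusedSimpArgs false

namespace Pool.Agent.P45

/-- A Hamiltonian cycle of odd length. -/
theorem ham_TS {n : ℕ} [NeZero n] (hn : Odd n) (h2 : 2 ≤ n) {V : Type*} (π : ZMod n ≃ V) :
    TS Set.univ (fun u v => ∃ k, s(u, v) = s(π k, π (k + 1)))
      (fun (_ : Unit) b => bif b then π 1 else π 0) := by
  obtain ⟨N0, N1, i0, i1, f0, f1, hc⟩ := ham hn h2 π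
  refine ⟨fun _ b u v => (bif b then N1 else N0) u = v ∧ u ≠ v, ?_, ?_, ?_, ?_, ?_⟩
  · rintro _ b u v ⟨h, hne⟩
    refine ⟨?_, hne.symm⟩
    cases b
    · rw [← h]; exact i0 u
    · rw [← h]; exact i1 u
  · intro _ _ _ _ _
    exact ⟨trivial, trivial⟩
  · rintro _ b u v v' ⟨h, _⟩ ⟨h', _⟩
    exact h.symm.trans h'
  · rintro _ b v ⟨h, hne⟩
    cases b
    · exact hne (((f0 _).2 rfl).symm.trans h)
    · exact hne (((f1 _).2 rfl).symm.trans h)
  · rintro u - v - ⟨k, hk⟩
    have h1 : Fact (1 < n) := ⟨by omega⟩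
    by_cases h0 : k = 0
    · left
      refine ⟨(), ?_⟩
      rw [h0, zero_add, Sym2.eq_iff] at hk
      rcases hk with ⟨a, b⟩ | ⟨a, b⟩
      · exact Or.inl ⟨a, b⟩
      · exact Or.inr ⟨a, b⟩
    · right
      have hne : π k ≠ π (k + 1) := by
        intro h
        have := π.injective h
        exact one_ne_zero (left_eq_add.1 this)
      rw [Sym2.eq_iff] at hk
      rcases hc k h0 with ⟨a, b⟩ | ⟨a, b⟩
      · refine ⟨(), false, ?_⟩
        rcases hk with ⟨rfl, rfl⟩ | ⟨rfl, rfl⟩
        · exact ⟨a, hne⟩
        · exact ⟨b, hne.symm⟩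
      · refine ⟨(), true, ?_⟩
        rcases hk with ⟨rfl, rfl⟩ | ⟨rfl, rfl⟩
        · exact ⟨a, hne⟩
        · exact ⟨b, hne.symm⟩

/-- Change of the ends. -/
theorem TS.ends {V Θ : Type*} {K : Set V} {E : V → V → Prop} {e e' : Θ → Bool → V}
    (h : TS K E e) (he : ∀ k, s(e' k false, e' k true) = s(e k false, e k true)) :
    TS K E e' := by
  classical
  have h1 : ∀ k, ∃ b : Bool, ∀ c, e' k c = e k (xor b c) := by
    intro k
    have := he k
    rw [Sym2.eq_iff] at this
    rcases this with ⟨a, b⟩ | ⟨a, b⟩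
    · refine ⟨false, fun c => ?_⟩
      cases c
      · exact a
      · exact b
    · refine ⟨true, fun c => ?_⟩
      cases c
      · exact a
      · exact b
  choose σ hσ using h1
  exact (h.swap σ).congr hσ

/-- The cycle of a unit. -/
theorem cyc_unit {n : ℕ} (hn : Odd n) (h2 : 2 ≤ n) (d p : ZMod n) (hd : IsUnit d) :
    TS Set.univ (DE (fun x => x = d)) (fun (_ : Unit) b => p + (bif b then d else 0)) := by
  have : NeZero n := ⟨by omega⟩
  obtain ⟨di, hdi⟩ := hd.exists_right_inv
  let π : ZMod n ≃ ZMod n :=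
    { toFun := fun k => p + d * k
      invFun := fun v => di * (v - p)
      left_inv := fun k => by
        show di * (p + d * k - p) = k
        linear_combination k * hdi
      right_inv := fun v => by
        show p + d * (di * (v - p)) = v
        linear_combination (v - p) * hdi }
  have hπ : ∀ k, π k = p + d * k := fun _ => rfl
  refine ((ham_TS hn h2 π).mono ?_).congr ?_
  · rintro u - v - ⟨δ, hδ, h⟩
    have hδ' : δ = d := hδ
    rw [hδ'] at h
    have e : ∀ u, π (π.symm u + 1) = u + d := by
      intro u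
      have h1 := π.apply_symm_apply u
      rw [hπ] at h1 ⊢
      linear_combination h1
    rcases h with h | h
    · refine ⟨π.symm u, ?_⟩
      rw [Equiv.apply_symm_apply, e, h]
    · refine ⟨π.symm v, ?_⟩
      rw [Equiv.apply_symm_apply, e, h, Sym2.eq_swap]
  · intro k b
    cases b
    · show p + 0 = p + d * 0
      ring
    · show p + d = p + d * 1
      ring

theorem val_range' {n : ℕ} (h3 : 3 ≤ n) {b : ZMod n} (h0 : b ≠ 0) (h1 : b ≠ 1)
    (hm : b ≠ -1) : 2 ≤ b.val ∧ b.val + 2 ≤ n := by
  have : NeZero n := ⟨by omega⟩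
  have h3' := b.val_lt
  have h4 := val_pos' h0
  constructor
  · by_contra h
    apply h1
    have : b.val = 1 := by omega
    rw [← ZMod.natCast_zmod_val b, this, Nat.cast_one]
  · by_contra h
    apply hm
    have h5 : b.val = n - 1 := by omega
    rw [← ZMod.natCast_zmod_val b, h5, Nat.cast_sub (by omega), ZMod.natCast_self, Nat.cast_one]
    ring

/-- Doubled type `1`, unused unit `b`, normalised. -/
theorem pairN_TS {n : ℕ} (hn : Odd n) (h3 : 3 ≤ n) (b z : ZMod n) (hb : IsUnit b) (hb1 : b ≠ 1)
    (hbm : b ≠ -1) (hz0 : z ≠ 0) (hzb : z ≠ b) :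
    TS Set.univ (DE (fun x => x = 1 ∨ x = b))
      (fun (k b : Bool) => (bif k then z else 0) + (bif b then 1 else 0)) := by
  have hNZ : NeZero n := ⟨by omega⟩
  have hF1 : Fact (1 < n) := ⟨by omega⟩
  obtain ⟨c, hc⟩ := hb.exists_right_inv
  have hb0 : b ≠ 0 := by
    intro h; rw [h, zero_mul] at hc; exact zero_ne_one hc
  have hc0 : c ≠ 0 := by
    intro h; rw [h, mul_zero] at hc; exact zero_ne_one hc
  have hc1 : c ≠ 1 := by
    intro h; rw [h, mul_one] at hc; exact hb1 hc
  have hcm : c ≠ -1 := by
    intro h; rw [h] at hc; exact hbm (by linear_combination -hc)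
  obtain ⟨r1, r2⟩ := val_range' h3 hb0 hb1 hbm
  obtain ⟨r3, r4⟩ := val_range' h3 hc0 hc1 hcm
  set β := b.val with hβ
  set γ := c.val with hγ
  have cβ : (β : ZMod n) = b := ZMod.natCast_zmod_val b
  have cγ : (γ : ZMod n) = c := ZMod.natCast_zmod_val c
  have hvne : ∀ u w : ZMod n, u ≠ w → u.val ≠ w.val := fun u w h h' => h (ZMod.val_injective n h')
  obtain ⟨k0, hk0⟩ := piF_edge β r2 z hz0 (hvne _ _ hzb)
  let mb : ZMod n ≃ ZMod n :=
    { toFun := fun k => b * k
      invFun := fun v => c * v
      left_inv := fun k => by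
        show c * (b * k) = k
        linear_combination k * hc
      right_inv := fun v => by
        show b * (c * v) = v
        linear_combination v * hc }
  let π1 : ZMod n ≃ ZMod n := (Equiv.addRight k0).trans (piE β r2)
  let π2 : ZMod n ≃ ZMod n := ((Equiv.addRight (-1 : ZMod n)).trans (piE γ r4)).trans mb
  have e1 : ∀ j, π1 j = piF β (j + k0) := fun j => rfl
  have e2 : ∀ j, π2 j = b * piF γ (j + -1) := fun j => rfl
  have e1' : ∀ k, piF β k = π1 (k - k0) := by intro k; rw [e1]; congr 1; ring
  have e2' : ∀ k, b * piF γ k = π2 (k + 1) := by intro k; rw [e2]; congr 2; ring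
  have f20 : π2 0 = 1 := by
    rw [e2, zero_add, piF_neg_one γ r3 r4, cγ, hc]
  have f21 : π2 1 = 0 := by
    rw [e2, add_neg_cancel, piF_zero γ r4, mul_zero]
  have g1 : s(z, z + 1) = s(π1 0, π1 1) := by
    rw [hk0, e1, e1]
    ring_nf
  have key1 : ∀ u : ZMod n, (∃ k, s(u, u + 1) = s(π1 k, π1 (k + 1))) ∨
      (∃ k, s(u, u + 1) = s(π2 k, π2 (k + 1))) := by
    intro u
    by_cases hu0 : u = 0
    · right
      refine ⟨0, ?_⟩
      rw [hu0, zero_add, f20, f21, Sym2.eq_swap]
    by_cases hub : u = b
    · right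
      obtain ⟨k, hk⟩ := piF_jump γ r3 r4 (p := n)
      refine ⟨k + 1, ?_⟩
      have h3 : s(b * 1, b * ((γ : ZMod n) + 1)) = s(b * piF γ k, b * piF γ (k + 1)) := by
        rw [Sym2.eq_iff] at hk ⊢
        rcases hk with ⟨h, h'⟩ | ⟨h, h'⟩
        · left; exact ⟨by rw [← h], by rw [← h']⟩
        · right; exact ⟨by rw [← h], by rw [← h']⟩
      rw [← e2', ← e2', ← h3, cγ, hub, mul_add, hc, mul_one, add_comm 1 b]
    · left
      obtain ⟨k, hk⟩ := piF_edge β r2 u hu0 (hvne _ _ hub)
      refine ⟨k - k0, ?_⟩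
      rw [hk, e1', e1']
      ring_nf
  have key2 : ∀ u : ZMod n, (∃ k, s(u, u + b) = s(π1 k, π1 (k + 1))) ∨
      (∃ k, s(u, u + b) = s(π2 k, π2 (k + 1))) := by
    intro u
    by_cases hu0 : u = 0
    · left
      refine ⟨-1 - k0, ?_⟩
      rw [e1, e1, sub_add_cancel, piF_neg_one β r1 r2]
      have : -1 - k0 + 1 + k0 = 0 := by ring
      rw [this, piF_zero β r2, cβ, hu0, zero_add, Sym2.eq_swap]
    by_cases hu1 : u = 1
    · left
      obtain ⟨k, hk⟩ := piF_jump β r1 r2 (p := n)
      refine ⟨k - k0, ?_⟩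
      rw [cβ] at hk
      rw [hu1, add_comm 1 b, hk, e1', e1']
      ring_nf
    · right
      have h6 : b * (u * c) = u := by linear_combination u * hc
      have h3 : u * c ≠ 0 := by
        intro h
        apply hu0
        rw [h, mul_zero] at h6
        exact h6.symm
      have h4 : u * c ≠ c := by
        intro h
        apply hu1
        rw [h, hc] at h6
        exact h6.symm
      obtain ⟨k, hk⟩ := piF_edge γ r4 (u * c) h3 (hvne _ _ h4)
      refine ⟨k + 1, ?_⟩
      have h5 : s(b * (u * c), b * (u * c + 1)) = s(b * piF γ k, b * piF γ (k + 1)) := by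
        rw [Sym2.eq_iff] at hk ⊢
        rcases hk with ⟨h, h'⟩ | ⟨h, h'⟩
        · left; exact ⟨by rw [← h], by rw [← h']⟩
        · right; exact ⟨by rw [← h], by rw [← h']⟩
      rw [← e2', ← e2', ← h5, mul_add, h6, mul_one]
  have hT := (ham_TS hn (by omega) π2).union (ham_TS hn (by omega) π1)
  refine ((hT.mono ?_).reindex (Θ' := Bool)
    { toFun := fun k => bif k then Sum.inr () else Sum.inl ()
      invFun := fun k => Sum.elim (fun _ => false) (fun _ => true) k
      left_inv := by rintro (_ | _) <;> rfl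
      right_inv := by rintro (_ | _) <;> rfl }).ends ?_
  · rintro u - v - ⟨δ, hδ, h⟩
    have h1 : ∀ x : ZMod n, s(u, v) = s(x, x + δ) →
        (∃ k, s(u, v) = s(π2 k, π2 (k + 1))) ∨ ∃ k, s(u, v) = s(π1 k, π1 (k + 1)) := by
      intro x hx
      rw [hx]
      rcases hδ with rfl | rfl
      · exact (key1 x).symm
      · exact (key2 x).symm
    rcases h with rfl | rfl
    · exact h1 u rfl
    · exact h1 v Sym2.eq_swap
  · intro k
    cases k
    · show s((0 : ZMod n) + 0, 0 + 1) = s(π2 0, π2 1)
      rw [f20, f21, add_zero, zero_add, Sym2.eq_swap]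
    · show s(z + 0, z + 1) = s(π1 0, π1 1)
      rw [add_zero, g1]

/-- Doubled unit `d`, unused unit `u`, arbitrary different positions. -/
theorem pair_units {n : ℕ} (hn : Odd n) (h3 : 3 ≤ n) (d u : ZMod n) (hd : IsUnit d)
    (hu : IsUnit u) (hdu : d ≠ u) (hdu' : d ≠ -u) (p δ : ZMod n) (hδ : δ ≠ 0) :
    TS Set.univ (DE (fun x => x = d ∨ x = u))
      (fun (k b : Bool) => p + (bif k then δ else 0) + (bif b then d else 0)) := by
  have hNZ : NeZero n := ⟨by omega⟩
  obtain ⟨c, hc⟩ := hd.exists_right_inv
  -- with the extra assumption `δ ≠ u`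
  have main : ∀ u : ZMod n, IsUnit u → d ≠ u → d ≠ -u → δ ≠ u →
      TS Set.univ (DE (fun x => x = d ∨ x = u))
      (fun (k b : Bool) => p + (bif k then δ else 0) + (bif b then d else 0)) := by
    intro u hu hdu hdu' hδu
    have hT := pairN_TS hn h3 (c * u) (c * δ) ((IsUnit.of_mul_eq_one d
      (by rw [mul_comm]; exact hc)).mul hu) ?_ ?_ ?_ ?_
    · refine (hT.map (fun x => p + d * x) ?_ Set.univ (DE (fun x => x = d ∨ x = u)) ?_ ?_).congr ?_
      · intro x y hxy
        have : d * x = d * y := add_left_cancel hxy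
        calc x = c * (d * x) := by linear_combination (-x) * hc
          _ = c * (d * y) := by rw [this]
          _ = y := by linear_combination y * hc
      · intro x
        refine ⟨fun _ => ⟨c * (x - p), trivial, ?_⟩, fun _ => trivial⟩
        linear_combination (x - p) * hc
      · rintro x - y - ⟨ε, hε, h⟩
        refine ⟨c * ε, ?_, ?_⟩
        · rcases hε with rfl | rfl
          · left; rw [mul_comm]; exact hc
          · right; rfl
        · rcases h with h | h
          · left
            have h' : p + d * y = p + d * x + ε := h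
            linear_combination c * h' + (x - y) * hc
          · right
            have h' : p + d * x = p + d * y + ε := h
            linear_combination c * h' + (y - x) * hc
      · intro k b
        cases k <;> cases b
        · show p + 0 + 0 = p + d * (0 + 0)
          ring
        · show p + 0 + d = p + d * (0 + 1)
          ring
        · show p + δ + 0 = p + d * (c * δ + 0)
          linear_combination (-δ) * hc
        · show p + δ + d = p + d * (c * δ + 1)
          linear_combination (-δ) * hc
    · intro h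
      apply hdu
      linear_combination (-d) * h + u * hc
    · intro h
      apply hdu'
      linear_combination d * h + (-u) * hc
    · intro h
      apply hδ
      linear_combination d * h + (-δ) * hc
    · intro h
      apply hδu
      linear_combination d * h + (u - δ) * hc
  by_cases hδu : δ = u
  · have h2 := main (-u) hu.neg hdu' (by rw [neg_neg]; exact hdu) (by
      rw [hδu]
      intro h
      have h4 : (2 : ZMod n) * u = 0 := by linear_combination h
      obtain ⟨ui, hui⟩ := hu.exists_right_inv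
      have h5 : ((2 : ℕ) : ZMod n) = 0 := by
        push_cast
        linear_combination ui * h4 - 2 * hui
      rw [ZMod.natCast_eq_zero_iff] at h5
      have := Nat.le_of_dvd (by norm_num) h5
      omega)
    refine h2.mono ?_
    rintro x - y - ⟨ε, hε, h⟩
    rcases hε with rfl | rfl
    · exact ⟨ε, Or.inl rfl, h⟩
    · refine ⟨-ε, Or.inr rfl, ?_⟩
      rcases h with h | h
      · right; rw [h]; ring
      · left; rw [h]; ring
  · exact main u hu hdu hdu' hδu

/-- Two units, each with one hole. -/
theorem pair_units11 {n : ℕ} (hn : Odd n) (h3 : 3 ≤ n) (d u : ZMod n) (hd : IsUnit d)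
    (hu : IsUnit u) (p q : ZMod n) :
    TS Set.univ (DE (fun x => x = d ∨ x = u))
      (fun (k b : Bool) => (bif k then q else p) + (bif b then (bif k then u else d) else 0)) := by
  have hT := (cyc_unit hn (by omega) d p hd).union (cyc_unit hn (by omega) u q hu)
  refine ((hT.mono ?_).reindex (Θ' := Bool)
    { toFun := fun k => bif k then Sum.inr () else Sum.inl ()
      invFun := fun k => Sum.elim (fun _ => false) (fun _ => true) k
      left_inv := by rintro (_ | _) <;> rfl
      right_inv := by rintro (_ | _) <;> rfl }).congr ?_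
  · rintro x - y - ⟨ε, hε, h⟩
    rcases hε with rfl | rfl
    · exact Or.inl ⟨ε, rfl, h⟩
    · exact Or.inr ⟨ε, rfl, h⟩
  · intro k b
    cases k <;> rfl

end Pool.Agent.P45
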