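import Mathlib

/-! # A connected 2-regular symmetric relation on `ZMod h` is a Hamiltonian cycle -/

set_option autoImplicit false

namespace Pool.Agent.P45

theorem cyc_of_conn {h : ℕ} (h3 : 3 ≤ h) (Q : ZMod h → ZMod h → Prop)
    (hsym : ∀ u v, Q u v → Q v u) (hirr : ∀ v, ¬ Q v v)
    (hdeg : ∀ v, ∃ a b, a ≠ b ∧ ∀ w, Q v w ↔ w = a ∨ w = b)
    (hconn : ∀ u v, Relation.ReflTransGen Q u v) :
    ∃ π : ZMod h ≃ ZMod h, (∀ i, Q (π i) (π (i + 1))) ∧
      ∀ u v, Q u v → π.symm v = π.symm u + 1 ∨ π.symm u = π.symm v + 1 := by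
  classical
  have hNZ : NeZero h := ⟨by omega⟩
  choose a b hab hQ using hdeg
  let o : ZMod h → ZMod h → ZMod h := fun u v => if u = a v then b v else a v
  have ho1 : ∀ u v, Q v (o u v) := by
    intro u v
    rw [hQ]
    by_cases hu : u = a v
    · right; simp [o, hu]
    · left; simp [o, hu]
  have ho2 : ∀ u v, Q v u → o u v ≠ u := by
    intro u v hvu
    rw [hQ] at hvu
    by_cases hu : u = a v
    · simp only [o, if_pos hu]
      rw [hu]
      exact (hab v).symm
    · simp only [o, if_neg hu]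
      exact fun h => hu h.symm
  have ho3 : ∀ u v w, Q v u → Q v w → w ≠ u → w = o u v := by
    intro u v w h1 h2 h3
    rw [hQ] at h1 h2
    by_cases hu : u = a v
    · simp only [o, if_pos hu]
      rcases h2 with h2 | h2
      · exact absurd (h2.trans hu.symm) h3
      · exact h2
    · simp only [o, if_neg hu]
      rcases h1 with h1 | h1
      · exact absurd h1 hu
      · rcases h2 with h2 | h2
        · exact h2
        · exact absurd (h2.trans h1.symm) h3
  let D := {p : ZMod h × ZMod h // Q p.1 p.2}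
  let F : Equiv.Perm D :=
    { toFun := fun p => ⟨(p.1.2, o p.1.1 p.1.2), ho1 _ _⟩
      invFun := fun p => ⟨(o p.1.2 p.1.1, p.1.1), hsym _ _ (ho1 _ _)⟩
      left_inv := by
        rintro ⟨⟨u, v⟩, hp⟩
        have hvu := hsym _ _ hp
        apply Subtype.ext
        show (o (o u v) v, v) = (u, v)
        rw [← ho3 (o u v) v u (ho1 _ _) hvu (ho2 u v hvu).symm]
      right_inv := by
        rintro ⟨⟨v, w⟩, hp⟩
        apply Subtype.ext
        show (v, o (o w v) v) = (v, w)
        rw [← ho3 (o w v) v w (ho1 _ _) hp (ho2 w v hp).symm] }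
  let d0 : D := ⟨(0, a 0), (hQ 0 (a 0)).2 (Or.inl rfl)⟩
  let x : ℤ → ZMod h := fun i => ((F ^ i) d0).1.1
  have hsucc : ∀ i : ℤ, (F ^ (i + 1)) d0 = F ((F ^ i) d0) := by
    intro i
    rw [add_comm, zpow_one_add, Equiv.Perm.mul_apply]
  have hx1 : ∀ i : ℤ, ((F ^ i) d0).1.2 = x (i + 1) := by
    intro i
    show _ = ((F ^ (i + 1)) d0).1.1
    rw [hsucc]
    rfl
  have hxQ : ∀ i : ℤ, Q (x i) (x (i + 1)) := by
    intro i
    rw [← hx1]
    exact ((F ^ i) d0).2
  have hx2 : ∀ i : ℤ, x (i + 1 + 1) = o (x i) (x (i + 1)) := by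
    intro i
    rw [← hx1 (i + 1), ← hx1 i, hsucc]
    rfl
  have hne2 : ∀ i : ℤ, x (i + 1 + 1) ≠ x i := by
    intro i
    rw [hx2]
    exact ho2 _ _ (hsym _ _ (hxQ i))
  -- neighbours
  have hnb : ∀ (i : ℤ) (w : ZMod h), Q (x (i + 1)) w → w = x i ∨ w = x (i + 1 + 1) := by
    intro i w hw
    by_cases hwi : w = x i
    · exact Or.inl hwi
    · right
      rw [hx2]
      exact ho3 _ _ _ (hsym _ _ (hxQ i)) hw hwi
  have hnb' : ∀ (i : ℤ) (w : ZMod h), Q (x i) w → w = x (i - 1) ∨ w = x (i + 1) := by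
    intro i w hw
    have h1 := hnb (i - 1) w
    rw [sub_add_cancel] at h1
    exact h1 hw
  have hxQ' : ∀ i : ℤ, Q (x i) (x (i - 1)) := by
    intro i
    have h1 := hxQ (i - 1)
    rw [sub_add_cancel] at h1
    exact hsym _ _ h1
  have hne2' : ∀ i : ℤ, x (i + 1) ≠ x (i - 1) := by
    intro i
    have h1 := hne2 (i - 1)
    rw [sub_add_cancel] at h1
    exact h1
  -- surjectivity
  have hsurj : ∀ v, ∃ i : ℤ, x i = v := by
    intro v
    have h1 := hconn (x 0) v
    induction h1 with
    | refl => exact ⟨0, rfl⟩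
    | tail _ h2 ih =>
      obtain ⟨i, hi⟩ := ih
      rw [← hi] at h2
      rcases hnb' i _ h2 with h4 | h4
      · exact ⟨i - 1, h4.symm⟩
      · exact ⟨i + 1, h4.symm⟩
  -- no reflection
  have hrefl : ∀ (m : ℕ) (i j : ℤ), x i = x j → x (i + 1) = x (j - 1) →
      x (i + m) = x (j - m) ∧ x (i + m + 1) = x (j - m - 1) := by
    intro m i j h1 h2
    induction m with
    | zero =>
      simp only [Nat.cast_zero, add_zero, sub_zero]
      exact ⟨h1, h2⟩
    | succ m ih =>
      obtain ⟨e1, e2⟩ := ih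
      have e3 : i + ((m + 1 : ℕ) : ℤ) = i + m + 1 := by push_cast; ring
      have e4 : j - ((m + 1 : ℕ) : ℤ) = j - m - 1 := by push_cast; ring
      rw [e3, e4]
      refine ⟨e2, ?_⟩
      have h5 := hxQ' (j - m - 1)
      rw [← e2] at h5
      rcases hnb (i + m) _ h5 with h6 | h6
      · exfalso
        -- `x (j - m - 1 - 1) = x (i + m) = x (j - m)`
        have h7 := hne2 (j - m - 1 - 1)
        apply h7
        rw [h6, e1]
        congr 1
        ring
      · exact h6.symm
  have hnoref : ∀ i j : ℤ, i ≤ j → x i = x j → x (i + 1) ≠ x (j - 1) := by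
    intro i j hij h1 h2
    obtain ⟨t, ht⟩ := Int.eq_ofNat_of_zero_le (sub_nonneg.2 hij)
    rcases Nat.even_or_odd' t with ⟨m, hm | hm⟩
    · -- `j = i + 2 m`
      rcases Nat.eq_zero_or_pos m with h0 | h0
      · have : j = i := by omega
        rw [this] at h2
        exact hne2' i h2
      · obtain ⟨e1, e2⟩ := hrefl (m - 1) i j h1 h2
        have e3 : j - ((m - 1 : ℕ) : ℤ) = i + ((m - 1 : ℕ) : ℤ) + 1 + 1 := by omega
        rw [e3] at e1
        exact hne2 _ e1.symm
    · obtain ⟨e1, -⟩ := hrefl m i j h1 h2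
      have e3 : j - (m : ℤ) = i + m + 1 := by omega
      rw [e3] at e1
      have h5 := hxQ (i + m)
      rw [← e1] at h5
      exact hirr _ h5
  have hinj : ∀ i j : ℤ, x i = x j → (F ^ i) d0 = (F ^ j) d0 := by
    intro i j hij
    apply Subtype.ext
    apply Prod.ext
    · exact hij
    · rw [hx1, hx1]
      have h5 := hxQ i
      rw [hij] at h5
      rcases hnb' j _ h5 with h6 | h6
      · exfalso
        rcases le_total i j with h7 | h7
        · exact hnoref i j h7 hij h6
        · have h8 := hxQ j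
          rw [← hij] at h8
          rcases hnb' i _ h8 with h9 | h9
          · exact hnoref j i h7 hij.symm h9
          · exact hne2' j (h9.trans h6)
      · exact h6
  -- the period
  have hfin : Finite D := inferInstance
  obtain ⟨N, hN0, hN⟩ : ∃ N : ℕ, 0 < N ∧ (F ^ N) = 1 :=
    ⟨orderOf F, orderOf_pos F, pow_orderOf_eq_one F⟩
  let per := Function.minimalPeriod F d0
  have hmem : d0 ∈ Function.periodicPts F := by
    refine ⟨N, hN0, ?_⟩
    have h1 : (F ^ N) d0 = d0 := by rw [hN]; rfl
    rw [Function.IsPeriodicPt, Function.IsFixedPt]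
    rw [← Equiv.Perm.coe_pow]
    exact h1
  have hper0 : 0 < per := Function.minimalPeriod_pos_of_mem_periodicPts hmem
  have hkey : ∀ i j : ℤ, (F ^ i) d0 = (F ^ j) d0 ↔ (per : ℤ) ∣ i - j := by
    intro i j
    have h1 : (F ^ i) d0 = (F ^ j) d0 ↔ (F ^ (i - j)) d0 = d0 := by
      rw [sub_eq_neg_add, zpow_add, Equiv.Perm.mul_apply, zpow_neg, Equiv.Perm.inv_eq_iff_eq]
    rw [h1]
    exact MulAction.zpow_smul_eq_iff_minimalPeriod_dvd (a := F) (b := d0)
  have hxper : ∀ i j : ℤ, x i = x j ↔ (per : ℤ) ∣ i - j := by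
    intro i j
    rw [← hkey]
    refine ⟨hinj i j, fun h => ?_⟩
    show ((F ^ i) d0).1.1 = ((F ^ j) d0).1.1
    rw [h]
  have hph : per = h := by
    let g : Fin per → ZMod h := fun k => x (k.val : ℤ)
    have hg : Function.Bijective g := by
      constructor
      · intro k l hkl
        have h1 := (hxper _ _).1 hkl
        apply Fin.ext
        have h2 := k.isLt
        have h4 := l.isLt
        obtain ⟨c, hc⟩ := h1
        have h5 : c = 0 := by
          by_contra hc0
          rcases lt_or_gt_of_ne hc0 with h6 | h6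
          · have : (per : ℤ) * c ≤ -(per : ℤ) := by nlinarith
            omega
          · have : (per : ℤ) ≤ per * c := by nlinarith
            omega
        rw [h5, mul_zero] at hc
        omega
      · intro v
        obtain ⟨i, hi⟩ := hsurj v
        have hpz : (0 : ℤ) < per := by exact_mod_cast hper0
        refine ⟨⟨(i % per).toNat, ?_⟩, ?_⟩
        · have h1 := Int.emod_lt_of_pos i hpz
          have h2 := Int.emod_nonneg i hpz.ne'
          omega
        · show x (((i % per).toNat : ℕ) : ℤ) = v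
          rw [Int.toNat_of_nonneg (Int.emod_nonneg i hpz.ne'), ← hi, hxper]
          have := Int.emod_add_mul_ediv i per
          exact ⟨-(i / per), by linarith⟩
    have h1 := Fintype.card_congr (Equiv.ofBijective g hg)
    rw [Fintype.card_fin, ZMod.card] at h1
    exact h1
  -- the enumeration
  let f : ZMod h → ZMod h := fun k => x (k.val : ℤ)
  have hf : ∀ (k : ZMod h) (i : ℤ), (i : ZMod h) = k → f k = x i := by
    intro k i hik
    show x (k.val : ℤ) = x i
    rw [hxper, hph, ← ZMod.intCast_zmod_eq_zero_iff_dvd]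
    push_cast
    rw [ZMod.natCast_zmod_val, hik, sub_self]
  have hfi : Function.Injective f := by
    intro k l hkl
    have h1 := (hxper _ _).1 hkl
    rw [hph, ← ZMod.intCast_zmod_eq_zero_iff_dvd] at h1
    push_cast at h1
    rw [ZMod.natCast_zmod_val, ZMod.natCast_zmod_val] at h1
    exact sub_eq_zero.1 h1
  let π : ZMod h ≃ ZMod h := Equiv.ofBijective f (Finite.injective_iff_bijective.1 hfi)
  have hπ : ∀ k, π k = f k := fun _ => rfl
  refine ⟨π, ?_, ?_⟩
  · intro k
    rw [hπ, hπ, hf k (k.val : ℤ) (by simp), hf (k + 1) ((k.val : ℤ) + 1) (by simp)]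
    exact hxQ _
  · intro u v huv
    obtain ⟨k, rfl⟩ := π.surjective u
    rw [Equiv.symm_apply_apply]
    rw [hπ, hf k (k.val : ℤ) (by simp)] at huv
    rcases hnb' _ _ huv with h5 | h5
    · right
      have h6 : π (k - 1) = v := by
        rw [hπ, hf (k - 1) ((k.val : ℤ) - 1) (by simp), h5]
      rw [← h6, Equiv.symm_apply_apply, sub_add_cancel]
    · left
      have h6 : π (k + 1) = v := by
        rw [hπ, hf (k + 1) ((k.val : ℤ) + 1) (by simp), h5]
      rw [← h6, Equiv.symm_apply_apply]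

end Pool.Agent.P45
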