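import Pool.Agent.Lib.P45dba8.Good

/-! # HOST in coordinates: `ZMod h × ZMod m` with the cyclic step `stp C` -/

set_option autoImplicit false

namespace Pool.Agent.P45

/-- The cyclic step: next class, shifted by `C` when the class `0` is entered. -/
def stp {m h : ℕ} (C : ZMod m) (u : ZMod h × ZMod m) : ZMod h × ZMod m :=
  (u.1 + 1, u.2 + if u.1 + 1 = 0 then C else 0)

/-- `stp` as an equivalence. -/
def stpE {m h : ℕ} (C : ZMod m) : ZMod h × ZMod m ≃ ZMod h × ZMod m where
  toFun := stp C
  invFun := fun u => (u.1 - 1, u.2 - if u.1 = 0 then C else 0)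
  left_inv := by
    rintro ⟨i, a⟩
    exact Prod.ext (add_sub_cancel_right _ _) (add_sub_cancel_right _ _)
  right_inv := by
    rintro ⟨i, a⟩
    simp [stp]

theorem host_core (m h : ℕ) (hm : Odd m) (hh : Odd h) (h3 : 3 ≤ h) (C : ZMod m)
    {Θ : Type*} [hne : Nonempty Θ] (D : ZMod m → Prop)
    (T : Θ → ZMod h → ZMod m) (r : Θ → ZMod h) (x : Θ → ZMod m)
    (brk : Θ → Θ → ZMod h → Prop)
    (hT1 : ∀ k i, Odd (i - r k).val → T k (i + 1) = T k i)
    (hT2 : ∀ k l i, k ≠ l → Odd (i - r k).val → Odd (i - r l).val →
      T k i ≠ T l i ∧ T k i ≠ -T l i)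
    (hb1 : ∀ k l i, brk k l i → Odd (i - r k).val ∧ Odd (i - 1 - r l).val ∧ T k i = T l i)
    (hb2 : (∀ k, ¬ Odd (r k).val) → ∀ k l i, brk k l i → i ≠ 0 ∧ i ≠ -1)
    (hTS : ∀ (i : ZMod h) (X : Θ → ZMod m), (∀ k l, brk k l i → IsUnit (X k - X l)) →
      TS Set.univ (DE D) (fun k b => X k + (bif b then T k i else 0))) :
    TS (Set.univ : Set (ZMod h × ZMod m)) (fun u v => (u.1 = v.1 ∧ DE D u.2 v.2) ∨
        v = stp C u ∨ u = stp C v)
      (fun (k : Option Θ) b => k.elim (bif b then ((0 : ZMod h), (0 : ZMod m)) else (-1, -C))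
        (fun k => (r k, x k + (bif b then T k (r k) else 0)))) := by
  classical
  have hm1 : m ≠ 0 := by rintro rfl; simp at hm
  have : NeZero h := ⟨by omega⟩
  have : NeZero m := ⟨hm1⟩
  -- halves
  have h2u : IsUnit ((2 : ℕ) : ZMod m) := by
    rw [ZMod.isUnit_iff_coprime]
    exact (Nat.coprime_two_left.2 hm)
  have h2u' : IsUnit (2 : ZMod m) := by exact_mod_cast h2u
  obtain ⟨hf, hhf⟩ := h2u'.exists_right_inv
  let sh : ZMod h → ZMod m := fun i => if i = 0 then C else 0
  have h00 : ¬ Odd (0 : ZMod h).val := by rw [ZMod.val_zero]; simp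
  -- the main step for a given choice of centres `y`
  have main : ∀ (y : ℕ → ZMod m) (s : Θ),
      (∀ k l i, brk k l i → IsUnit (y i.val - y (i - 1).val - sh i)) →
      (Odd (r s).val → y (h - 1) = -C + hf * T s (-1)) →
      (¬ Odd (r s).val → (∀ k, ¬ Odd (r k).val) ∧
        (r s ≠ -1 → y (h - 2) = -C + hf * T s (-1)) ∧
        (r s ≠ 0 → y 0 = hf * T s 0)) →
      TS (Set.univ : Set (ZMod h × ZMod m)) (fun u v => (u.1 = v.1 ∧ DE D u.2 v.2) ∨
          v = stp C u ∨ u = stp C v)
        (fun (k : Option Θ) b => k.elim (bif b then ((0 : ZMod h), (0 : ZMod m)) else (-1, -C))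
          (fun k => (r k, x k + (bif b then T k (r k) else 0)))) := by
    intro y s hy hyO hyE
    let X : Θ → ZMod h → ZMod m := fun k i =>
      if i = r k then x k else
        if Odd (i - r k).val then y i.val - hf * T k i else
          y (i - 1).val + sh i - hf * T k i
    have X_real : ∀ k, X k (r k) = x k := fun k => if_pos rfl
    have X_low : ∀ k i, Odd (i - r k).val → X k i = y i.val - hf * T k i := by
      intro k i hi
      have hne' : i ≠ r k := by
        rintro rfl
        rw [sub_self] at hi
        exact h00 hi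
      show (if i = r k then x k else _) = _
      rw [if_neg hne', if_pos hi]
    have X_up : ∀ k i, Odd (i - 1 - r k).val → X k i = y (i - 1).val + sh i - hf * T k i := by
      intro k i hi
      have hne' : i ≠ r k := by
        rintro rfl
        have e1 : r k - 1 - r k = -1 := by ring
        rw [e1] at hi
        exact not_odd_neg_one hh h3 hi
      have hodd : ¬ Odd (i - r k).val := by
        have e1 : i - r k = i - 1 - r k + 1 := by ring
        rw [e1]
        exact not_odd_succ hh h3 hi
      show (if i = r k then x k else _) = _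
      rw [if_neg hne', if_neg hodd]
    let e : Θ → Bool → ZMod h → ZMod h × ZMod m := fun k b i =>
      (i, X k i + (bif b then T k i else 0))
    have eF : ∀ k b i, Odd (i - r k).val → e k b (i + 1) = stpE C (e k b i) := by
      intro k b i hi
      have hi' : Odd (i + 1 - 1 - r k).val := by
        rw [add_sub_cancel_right]; exact hi
      have e1 : X k (i + 1) = X k i + sh (i + 1) := by
        rw [X_low k i hi, X_up k (i + 1) hi', add_sub_cancel_right, hT1 k i hi]
        ring
      show ((i + 1, X k (i + 1) + (bif b then T k (i + 1) else 0)) : ZMod h × ZMod m) =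
        (i + 1, X k i + (bif b then T k i else 0) + sh (i + 1))
      rw [e1, hT1 k i hi]
      congr 1
      ring
    have disj : ∀ k l i, k ≠ l → Odd (i - r k).val → Odd (i - r l).val →
        ∀ b b', e k b i ≠ e l b' i := by
      intro k l i hkl hk hl b b' he
      obtain ⟨n1, n2⟩ := hT2 k l i hkl hk hl
      have h1 : X k i + (bif b then T k i else 0) = X l i + (bif b' then T l i else 0) :=
        congrArg Prod.snd he
      rw [X_low k i hk, X_low l i hl] at h1
      cases b <;> cases b' <;> simp only [cond_true, cond_false] at h1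
      · apply n1
        linear_combination (-2) * h1 + (T l i - T k i) * hhf
      · apply n2
        linear_combination (-2) * h1 + (T l i - T k i) * hhf
      · apply n2
        linear_combination 2 * h1 + (T k i - T l i) * hhf
      · apply n1
        linear_combination 2 * h1 + (T k i - T l i) * hhf
    have hTS' : ∀ i, TS {v : ZMod h × ZMod m | v.1 = i}
        (fun u v => u.1 = v.1 ∧ DE D u.2 v.2) (fun k b => e k b i) := by
      intro i
      have h1 := hTS i (fun k => X k i) (by
        intro k l hb
        obtain ⟨b1, b2, b3⟩ := hb1 k l i hb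
        have e1 : X k i - X l i = y i.val - y (i - 1).val - sh i := by
          rw [X_low k i b1, X_up l i b2, b3]; ring
        show IsUnit (X k i - X l i)
        rw [e1]
        exact hy k l i hb)
      refine h1.map (fun a => (i, a)) (fun a b hab => congrArg Prod.snd hab) _ _ ?_ ?_
      · rintro ⟨j, a⟩
        constructor
        · intro hv
          have hv' : j = i := hv
          exact ⟨a, trivial, by rw [hv']⟩
        · rintro ⟨a', -, h2⟩
          exact (congrArg Prod.fst h2).symm
      · rintro a - b - ⟨_, h2⟩
        exact h2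
    -- the special thread
    have hval2 : ((-1 : ZMod h) - 1).val = h - 2 := by
      have : (-1 : ZMod h) - 1 = -2 := by ring
      rw [this, val_neg_two h3]
    have h10 : (-1 : ZMod h) ≠ 0 := by
      intro h'
      have := zval_neg_one (g := h) h3
      rw [h', ZMod.val_zero] at this
      omega
    have hs1 : r s ≠ -1 → e s false (-1) = (-1, -C) := by
      intro hr
      have key : X s (-1) = -C := by
        by_cases ho : Odd (r s).val
        · rw [X_low s (-1) ((odd_neg_one_sub hh h3 _).2 ho), zval_neg_one h3, hyO ho]; ring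
        · have hodd : Odd (-1 - 1 - r s).val := by
            rcases odd_or_pred h3 (x := -1 - r s) (by
              intro h'; exact hr (by linear_combination -h')) with h1 | h1
            · exact absurd ((odd_neg_one_sub hh h3 _).1 h1) ho
            · have : (-1 : ZMod h) - 1 - r s = -1 - r s - 1 := by ring
              rw [this]; exact h1
          have : sh (-1) = 0 := if_neg h10
          rw [X_up s (-1) hodd, hval2, (hyE ho).2.1 hr, this]; ring
      show ((-1, X s (-1) + 0) : ZMod h × ZMod m) = (-1, -C)
      rw [key, add_zero]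
    have hstpw : stpE C ((-1, -C) : ZMod h × ZMod m) = (0, 0) := by
      show ((-1 + 1, -C + if (-1 : ZMod h) + 1 = 0 then C else 0) : ZMod h × ZMod m) = (0, 0)
      rw [if_pos (by ring)]
      exact Prod.ext (by ring) (by ring)
    have hs0 : r s ≠ 0 → e s false 0 = stpE C ((-1, -C) : ZMod h × ZMod m) := by
      intro hr
      by_cases ho : Odd (r s).val
      · have hr1 : r s ≠ -1 := by
          intro h'
          rw [h'] at ho
          exact not_odd_neg_one hh h3 ho
        have := eF s false (-1) ((odd_neg_one_sub hh h3 _).2 ho)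
        rw [hs1 hr1] at this
        have e0 : (-1 : ZMod h) + 1 = 0 := by ring
        rw [e0] at this
        exact this
      · have hodd : Odd (0 - r s).val := odd_neg_of_even hh h3 ho hr
        have key : X s 0 = 0 := by
          rw [X_low s 0 hodd, ZMod.val_zero, (hyE ho).2.2 hr]; ring
        rw [hstpw]
        show ((0, X s 0 + 0) : ZMod h × ZMod m) = (0, 0)
        rw [key, add_zero]
    have hs : ∀ l b, l ≠ s → Odd (-1 - r l).val → e l b (-1) ≠ (-1, -C) := by
      intro l b hl hodd
      by_cases ho : Odd (r s).val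
      · have hr1 : r s ≠ -1 := by
          intro h'
          rw [h'] at ho
          exact not_odd_neg_one hh h3 ho
        rw [← hs1 hr1]
        exact disj l s (-1) hl hodd ((odd_neg_one_sub hh h3 _).2 ho) b false
      · exact absurd ((odd_neg_one_sub hh h3 _).1 hodd) ((hyE ho).1 l)
    have := glue_TS hh h3 (stpE C) Prod.fst (fun _ => rfl)
      (fun u v => u.1 = v.1 ∧ DE D u.2 v.2) r e
      (fun k b i => rfl) eF disj hTS' s (-1, -C) rfl hs1 hs0 hs
    refine (this.mono ?_).congr ?_
    · rintro u - v - (⟨h1, h2⟩ | h1 | h1)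
      · exact Or.inl ⟨h1, h1, h2⟩
      · exact Or.inr (Or.inl h1)
      · exact Or.inr (Or.inr h1)
    · intro k b
      rcases k with _ | k
      · show (bif b then ((0 : ZMod h), (0 : ZMod m)) else (-1, -C)) =
          (bif b then stpE C ((-1, -C) : ZMod h × ZMod m) else (-1, -C))
        rw [hstpw]
      · show (r k, x k + (bif b then T k (r k) else 0)) =
          (r k, X k (r k) + (bif b then T k (r k) else 0))
        rw [X_real]
  -- choice of the centres
  have hsh0 : ∀ i, i ≠ 0 → sh i = 0 := fun i hi => if_neg hi
  have hpos : ∀ i : ZMod h, i ≠ 0 → 1 ≤ i.val := by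
    intro i hi
    rcases Nat.eq_zero_or_pos i.val with h1 | h1
    · exact absurd ((ZMod.val_eq_zero i).1 h1) hi
    · exact h1
  by_cases hO : ∃ s, Odd (r s).val
  · obtain ⟨s, hs⟩ := hO
    obtain ⟨y, y1, y2, y3⟩ := seq_O m hm h h3 (-C + hf * T s (-1)) C
    refine main y s ?_ (fun _ => y1) (fun h' => absurd hs h')
    intro k l i _
    by_cases hi : i = 0
    · rw [hi]
      have e1 : sh 0 = C := if_pos rfl
      rw [e1, ZMod.val_zero, zero_sub, zval_neg_one h3]
      exact y3
    · rw [hsh0 i hi, sub_zero, zval_pred h3 hi]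
      exact y2 _ (hpos i hi) (by have := i.val_lt; omega)
  · have hE : ∀ k, ¬ Odd (r k).val := fun k hk => hO ⟨k, hk⟩
    have hlt : ∀ k l i, brk k l i → 1 ≤ i.val ∧ i.val ≤ h - 2 := by
      intro k l i hb
      obtain ⟨b1, b2⟩ := hb2 hE k l i hb
      have h1 := i.val_lt
      have h2 : i.val ≠ h - 1 := by
        intro h'
        apply b2
        rw [← zval_neg_one (g := h) h3] at h'
        exact ZMod.val_injective h h'
      exact ⟨hpos i b1, by omega⟩
    have hfin : ∀ (y : ℕ → ZMod m), (∀ j, 1 ≤ j → j ≤ h - 2 → IsUnit (y j - y (j - 1))) →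
        ∀ k l i, brk k l i → IsUnit (y i.val - y (i - 1).val - sh i) := by
      intro y hy k l i hb
      have hi := (hb2 hE k l i hb).1
      obtain ⟨l1, l2⟩ := hlt k l i hb
      rw [hsh0 i hi, sub_zero, zval_pred h3 hi]
      exact hy _ l1 l2
    obtain ⟨s⟩ := hne
    by_cases hr0 : r s = 0
    · refine main (fun j => -C + hf * T s (-1) - ((h - 2 : ℕ) : ZMod m) + (j : ZMod m)) s
        (hfin (fun j => -C + hf * T s (-1) - ((h - 2 : ℕ) : ZMod m) + (j : ZMod m)) ?_)
        (fun h' => absurd h' (hE s)) (fun _ => ⟨hE, fun _ => ?_, fun h' => absurd hr0 h'⟩)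
      · intro j h1 h2
        have e1 : ∀ a : ZMod m, a + (j : ZMod m) - (a + ((j - 1 : ℕ) : ZMod m)) = 1 := by
          intro a
          rw [Nat.cast_sub h1]; push_cast; ring
        rw [e1]; exact isUnit_one
      · ring
    by_cases hr1 : r s = -1
    · refine main (fun j => hf * T s 0 + (j : ZMod m)) s
        (hfin (fun j => hf * T s 0 + (j : ZMod m)) ?_)
        (fun h' => absurd h' (hE s)) (fun _ => ⟨hE, fun h' => absurd hr1 h', fun _ => ?_⟩)
      · intro j h1 h2
        have e1 : ∀ a : ZMod m, a + (j : ZMod m) - (a + ((j - 1 : ℕ) : ZMod m)) = 1 := by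
          intro a
          rw [Nat.cast_sub h1]; push_cast; ring
        rw [e1]; exact isUnit_one
      · push_cast; ring
    · -- `h ≥ 5`
      have h5 : 5 ≤ h := by
        by_contra hlt5
        have hh3 : h = 3 := by
          obtain ⟨a, ha⟩ := hh
          omega
        have v1 := (r s).val_lt
        have v2 := hE s
        have v3 := hpos _ hr0
        have v4 : (r s).val = 2 := by
          rcases Nat.lt_or_ge (r s).val 2 with h' | h'
          · exfalso
            apply v2
            have : (r s).val = 1 := by omega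
            rw [this]; exact odd_one
          · omega
        apply hr1
        have v5 : (r s).val = (-1 : ZMod h).val := by
          rw [zval_neg_one h3, v4]; omega
        exact ZMod.val_injective h v5
      obtain ⟨y, y1, y2, y3⟩ := seq_E m hm h h5 (-C + hf * T s (-1)) (hf * T s 0)
      exact main y s (hfin y y3) (fun h' => absurd h' (hE s))
        (fun _ => ⟨hE, fun _ => y2, fun _ => y1⟩)

end Pool.Agent.P45
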