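import Pool.Agent.Lib.P45dba8.CorePos
import Pool.Agent.Lib.P45dba8.HostCore

/-! # Joint hosting: the items of a good family are distributed over several cyclic blocks -/

set_option autoImplicit false

namespace Pool.Agent.P45

/-- A chart adapted to a cyclic order of the classes. -/
theorem exists_chart {m h : ℕ} (h3 : 3 ≤ h) (π : ZMod h ≃ ZMod h) (W : ZMod h → ZMod (m * h))
    (hW : ∀ i, red m h (W i) = π (i + 1) - π i) (w : ZMod (m * h)) (hw : red m h w = π (-1)) :
    ∃ (C : ZMod m) (phi : ZMod h × ZMod m ≃ ZMod (m * h)),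
      (∀ v, red m h (phi v) = π v.1) ∧ (∀ v, phi (stp C v) = phi v + W v.1) ∧
      (∀ i a δ, phi (i, a + δ) = phi (i, a) + psi m h δ) ∧ phi (-1, -C) = w ∧
      phi (0, 0) = w + W (-1) := by
  classical
  have hNZ : NeZero h := ⟨by omega⟩
  have hinj := psi_inj m h (by omega)
  let base : ZMod h → ZMod (m * h) := fun i =>
    w + W (-1) + ∑ j ∈ Finset.range i.val, W ((j : ℕ) : ZMod h)
  have base_zero : base 0 = w + W (-1) := by
    show w + W (-1) + ∑ j ∈ Finset.range (0 : ZMod h).val, W ((j : ℕ) : ZMod h) = _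
    rw [ZMod.val_zero, Finset.sum_range_zero, add_zero]
  have base_succ : ∀ i : ZMod h, i ≠ -1 → base (i + 1) = base i + W i := by
    intro i hi
    show w + W (-1) + ∑ j ∈ Finset.range (i + 1).val, W ((j : ℕ) : ZMod h) =
      w + W (-1) + ∑ j ∈ Finset.range i.val, W ((j : ℕ) : ZMod h) + W i
    rw [zval_succ h3 hi, Finset.sum_range_succ, ZMod.natCast_zmod_val]
    ring
  have red_base : ∀ i, red m h (base i) = π i := by
    have h1 : ∀ n : ℕ, n < h → red m h (base ((n : ℕ) : ZMod h)) = π ((n : ℕ) : ZMod h) := by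
      intro n
      induction n with
      | zero =>
        intro _
        rw [Nat.cast_zero, base_zero, map_add, hw, hW]
        have : (-1 : ZMod h) + 1 = 0 := by ring
        rw [this]; ring
      | succ n ih =>
        intro hn
        have hn1 : ((n : ℕ) : ZMod h) ≠ -1 := by
          intro h'
          have h2 := congrArg ZMod.val h'
          rw [zval_neg_one h3, ZMod.val_natCast_of_lt (by omega)] at h2
          omega
        rw [Nat.cast_succ, base_succ _ hn1, map_add, ih (by omega), hW]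
        ring
    intro i
    have := h1 i.val i.val_lt
    rwa [ZMod.natCast_zmod_val] at this
  obtain ⟨C, hC⟩ := exists_psi m h (v := base (-1) - w) (by
    rw [map_sub, red_base, hw, sub_self])
  have base_neg : base (-1) = w + psi m h C := by rw [← hC]; ring
  let phi : ZMod h × ZMod m → ZMod (m * h) := fun v => base v.1 + psi m h v.2
  have red_phi : ∀ v, red m h (phi v) = π v.1 := by
    intro v
    show red m h (base v.1 + psi m h v.2) = π v.1
    rw [map_add, red_base, red_psi, add_zero]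
  have phi_inj : Function.Injective phi := by
    rintro ⟨i, a⟩ ⟨j, b⟩ hab
    have h1 : π i = π j := by
      have := congrArg (red m h) hab
      rwa [red_phi, red_phi] at this
    have h2 := π.injective h1
    subst h2
    have h3' : base i + psi m h a = base i + psi m h b := hab
    rw [hinj (add_left_cancel h3')]
  have phi_surj : Function.Surjective phi := by
    intro v
    obtain ⟨a, ha⟩ := exists_psi m h (v := v - base (π.symm (red m h v))) (by
      rw [map_sub, red_base, Equiv.apply_symm_apply, sub_self])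
    refine ⟨(π.symm (red m h v), a), ?_⟩
    show base (π.symm (red m h v)) + psi m h a = v
    rw [← ha]; ring
  have phi_stp : ∀ v, phi (stp C v) = phi v + W v.1 := by
    rintro ⟨i, a⟩
    show base (i + 1) + psi m h (a + if i + 1 = 0 then C else 0) = base i + psi m h a + W i
    by_cases hi : i = -1
    · have e0 : i + 1 = 0 := by rw [hi]; ring
      rw [if_pos e0, e0, hi, base_neg, base_zero, map_add]; ring
    · have e0 : i + 1 ≠ 0 := by intro h'; exact hi (by linear_combination h')
      rw [if_neg e0, add_zero, base_succ i hi]; ring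
  refine ⟨C, Equiv.ofBijective phi ⟨phi_inj, phi_surj⟩, red_phi, phi_stp, ?_, ?_, ?_⟩
  · intro i a δ
    show base i + psi m h (a + δ) = base i + psi m h a + psi m h δ
    rw [map_add]; ring
  · show base (-1) + psi m h (-C) = w
    rw [base_neg, map_neg]; ring
  · show base 0 + psi m h 0 = w + W (-1)
    rw [base_zero, map_zero, add_zero]

/-- The edges `E` are the steps of a cyclic order of the classes modulo `h`; `w, w'` is one of
these steps. -/
def Cyc (m h : ℕ) (E : ZMod (m * h) → ZMod (m * h) → Prop) (w w' : ZMod (m * h)) : Prop :=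
  ∃ (π : ZMod h ≃ ZMod h) (W : ZMod h → ZMod (m * h)),
    (∀ i, red m h (W i) = π (i + 1) - π i) ∧ red m h w = π (-1) ∧ w' = w + W (-1) ∧
    ∀ v v', E v v' → v' = v + W (π.symm (red m h v)) ∨ v = v' + W (π.symm (red m h v'))

theorem Good.joint {m h : ℕ} (hm : Odd m) (hh : Odd h) (h3 : 3 ≤ h) {ι κ J : Type*}
    {Q : ZMod m → Prop} (hQ : ∀ x, IsUnit x → Q x)
    {t : ι → ZMod m} {d u : κ → ZMod m} (hG : Good m Q t d u) (hD : Dist t d u)
    (c : ι ⊕ κ → J) (hc : ∀ j, ∃ i, c i = j)
    (E : J → ZMod (m * h) → ZMod (m * h) → Prop) (w w' : J → ZMod (m * h))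
    (hcyc : ∀ j, Cyc m h (E j) (w j) (w' j))
    (P A : ι ⊕ κ × Bool → ZMod (m * h)) (hA : ∀ i, A (Sum.inl i) = psi m h (t i))
    (hP : ∀ k, adm (fun δ => red m h δ ≠ 0) (psi m h (d k)) (psi m h (u k))
      (A (Sum.inr (k, false))) (A (Sum.inr (k, true)))
      (P (Sum.inr (k, true)) - P (Sum.inr (k, false)))) :
    TS Set.univ (fun v v' => DE (FD (fun i => psi m h (t i)) (fun k => psi m h (d k))
        (fun k => psi m h (u k))) v v' ∨ ∃ j, E j v v' ∨ E j v' v)
      (fun (k : J ⊕ (ι ⊕ κ × Bool)) b =>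
        Sum.elim (fun j => bif b then w' j else w j) (fun θ => fh P A θ b) k) := by
  classical
  have hNZ : NeZero h := ⟨by omega⟩
  have hinj := psi_inj m h (by omega)
  let itm : ι ⊕ κ × Bool → ι ⊕ κ := Sum.map id Prod.fst
  let cl : ι ⊕ κ × Bool → J := fun θ => c (itm θ)
  choose π W hW hw hw' hE using hcyc
  have hch := fun j => exists_chart h3 (π j) (W j) (hW j) (w j) (hw j)
  choose C phi ph1 ph2 ph3 ph4 ph5 using hch
  -- coordinates
  have hfst : ∀ j v, ((phi j).symm v).1 = (π j).symm (red m h v) := by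
    intro j v
    have := ph1 j ((phi j).symm v)
    rw [Equiv.apply_symm_apply] at this
    rw [this, Equiv.symm_apply_apply]
  let r : ι ⊕ κ × Bool → ZMod h := fun θ => (π (cl θ)).symm (red m h (P θ))
  let x : ι ⊕ κ × Bool → ZMod m := fun θ => ((phi (cl θ)).symm (P θ)).2
  have hrx : ∀ θ, phi (cl θ) (r θ, x θ) = P θ := by
    intro θ
    have : (r θ, x θ) = (phi (cl θ)).symm (P θ) := Prod.ext (hfst _ _).symm rfl
    rw [this, Equiv.apply_symm_apply]
  have hAA : ∀ θ, ∃ a, A θ = psi m h a := by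
    rintro (i | ⟨k, b⟩)
    · exact ⟨t i, hA i⟩
    · rcases hP k with ⟨h1, h2⟩ | ⟨h1, h2⟩ | ⟨⟨h1, h2⟩ | ⟨h1, h2⟩, _⟩ <;> cases b
      · exact ⟨_, h1⟩
      · exact ⟨_, h2⟩
      · exact ⟨_, h1⟩
      · exact ⟨_, h2⟩
      · exact ⟨_, h1⟩
      · exact ⟨_, h2⟩
      · exact ⟨_, h1⟩
      · exact ⟨_, h2⟩
  choose AA hAA using hAA
  have hAinj : ∀ θ a, A θ = psi m h a → AA θ = a := by
    intro θ a h1
    exact hinj ((hAA θ).symm.trans h1)
  -- data of the pairs
  have hpair : ∀ k : κ, ∃ (T : Bool → ZMod h → ZMod m) (brk : Bool → Bool → ZMod h → Prop),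
      T false (r (Sum.inr (k, false))) = AA (Sum.inr (k, false)) ∧
      T true (r (Sum.inr (k, true))) = AA (Sum.inr (k, true)) ∧
      (∀ b i, Odd (i - r (Sum.inr (k, b))).val → T b (i + 1) = T b i) ∧
      (∀ i, Odd (i - r (Sum.inr (k, false))).val → Odd (i - r (Sum.inr (k, true))).val →
        T false i ≠ T true i ∧ T false i ≠ -T true i) ∧
      (∀ b b' i, brk b b' i → Odd (i - r (Sum.inr (k, b))).val ∧
        Odd (i - 1 - r (Sum.inr (k, b'))).val ∧ T b i = T b' i) ∧
      (¬ Odd (r (Sum.inr (k, false))).val → ¬ Odd (r (Sum.inr (k, true))).val →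
        ∀ b b' i, brk b b' i → i ≠ 0 ∧ i ≠ -1) ∧
      (∀ b i, T b i = d k ∨ T b i = u k) ∧
      (∀ i, (T false i = d k ∧ T true i = u k) ∨ (T false i = u k ∧ T true i = d k) ∨
        (((T false i = d k ∧ T true i = d k) ∨ (T false i = u k ∧ T true i = u k)) ∧
          (brk false true i ∨ brk true false i))) := by
    intro k
    have hdu := hD (Sum.inr (k, false)) (Sum.inr (k, true)) (by simp)
    have e1 : tyy t d u (Sum.inr (k, false)) = d k := rfl
    have e2 : tyy t d u (Sum.inr (k, true)) = u k := rfl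
    rw [e1, e2] at hdu
    apply pair_types hh h3 (d k) (u k) hdu.1 hdu.2 _ _ (fun b => r (Sum.inr (k, b)))
    rcases hP k with ⟨h1, h2⟩ | ⟨h1, h2⟩ | ⟨h12, h4⟩
    · exact Or.inl ⟨hAinj _ _ h1, hAinj _ _ h2⟩
    · exact Or.inr (Or.inl ⟨hAinj _ _ h1, hAinj _ _ h2⟩)
    · refine Or.inr (Or.inr ⟨?_, ?_⟩)
      · rcases h12 with ⟨h1, h2⟩ | ⟨h1, h2⟩
        · exact Or.inl ⟨hAinj _ _ h1, hAinj _ _ h2⟩
        · exact Or.inr ⟨hAinj _ _ h1, hAinj _ _ h2⟩
      · intro h5
        apply h4
        have h6 : red m h (P (Sum.inr (k, false))) = red m h (P (Sum.inr (k, true))) :=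
          (π (c (Sum.inr k))).symm.injective h5
        rw [map_sub, h6, sub_self]
  choose T brk g1 g2 g3 g4 g5 g6 g7 g8 using hpair
  let TT : ι ⊕ κ × Bool → ZMod h → ZMod m := fun θ i =>
    Sum.elim t (fun k : κ × Bool => T k.1 k.2 i) θ
  let BR : ι ⊕ κ × Bool → ι ⊕ κ × Bool → ZMod h → Prop := fun θ θ' i =>
    ∃ k b b', θ = Sum.inr (k, b) ∧ θ' = Sum.inr (k, b') ∧ brk k b b' i
  have TTr : ∀ θ, TT θ (r θ) = AA θ := by
    rintro (i | ⟨k, b⟩)
    · exact (hAinj _ _ (hA i)).symm
    · cases b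
      · exact g1 k
      · exact g2 k
  have hT1 : ∀ θ i, Odd (i - r θ).val → TT θ (i + 1) = TT θ i := by
    rintro (i | ⟨k, b⟩) j hj
    · rfl
    · exact g3 k b j hj
  have hT2 : ∀ θ θ' i, θ ≠ θ' → Odd (i - r θ).val → Odd (i - r θ').val →
      TT θ i ≠ TT θ' i ∧ TT θ i ≠ -TT θ' i := by
    rintro (i | ⟨k, b⟩) (i' | ⟨k', b'⟩) j hne hj hj'
    · exact hD (Sum.inl i) (Sum.inl i') hne
    · have e : ∀ z, z = d k' ∨ z = u k' → t i ≠ z ∧ t i ≠ -z := by
        rintro z (rfl | rfl)
        · exact hD (Sum.inl i) (Sum.inr (k', false)) (by simp)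
        · exact hD (Sum.inl i) (Sum.inr (k', true)) (by simp)
      exact e _ (g7 k' b' j)
    · have e : ∀ z, z = d k ∨ z = u k → z ≠ t i' ∧ z ≠ -t i' := by
        rintro z (rfl | rfl)
        · exact hD (Sum.inr (k, false)) (Sum.inl i') (by simp)
        · exact hD (Sum.inr (k, true)) (Sum.inl i') (by simp)
      exact e _ (g7 k b j)
    · by_cases hk : k = k'
      · subst hk
        have hb : b ≠ b' := by rintro rfl; exact hne rfl
        cases b <;> cases b'
        · exact absurd rfl hb
        · exact g4 k j hj hj'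
        · obtain ⟨q1, q2⟩ := g4 k j hj' hj
          refine ⟨fun h' => q1 h'.symm, fun h' => q2 ?_⟩
          have h'' : T k true j = -T k false j := h'
          rw [h'', neg_neg]
        · exact absurd rfl hb
      · have e : ∀ z z', (z = d k ∨ z = u k) → (z' = d k' ∨ z' = u k') → z ≠ z' ∧ z ≠ -z' := by
          rintro z z' (rfl | rfl) (rfl | rfl)
          · exact hD (Sum.inr (k, false)) (Sum.inr (k', false)) (by simp [hk])
          · exact hD (Sum.inr (k, false)) (Sum.inr (k', true)) (by simp)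
          · exact hD (Sum.inr (k, true)) (Sum.inr (k', false)) (by simp)
          · exact hD (Sum.inr (k, true)) (Sum.inr (k', true)) (by simp [hk])
        exact e _ _ (g7 k b j) (g7 k' b' j)
  have hb1 : ∀ θ θ' i, BR θ θ' i →
      Odd (i - r θ).val ∧ Odd (i - 1 - r θ').val ∧ TT θ i = TT θ' i := by
    rintro θ θ' i ⟨k, b, b', rfl, rfl, hb⟩
    exact g5 k b b' i hb
  -- the positions in every block
  have hpos : ∀ j : J, ∃ (X : {θ // cl θ = j} → ZMod h → ZMod m) (s : {θ // cl θ = j}),
      (∀ k, X k (r k.1) = x k.1) ∧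
      (∀ k i, Odd (i - r k.1).val → X k (i + 1) = X k i + if i + 1 = 0 then C j else 0) ∧
      (∀ k l i, k ≠ l → Odd (i - r k.1).val → Odd (i - r l.1).val →
        ∀ b b', X k i + (bif b then TT k.1 i else 0) ≠ X l i + (bif b' then TT l.1 i else 0)) ∧
      (∀ k l i, BR k.1 l.1 i → IsUnit (X k i - X l i)) ∧
      (r s.1 ≠ -1 → X s (-1) = -C j) ∧ (r s.1 ≠ 0 → X s 0 = 0) ∧
      (∀ l b, l ≠ s → Odd (-1 - r l.1).val →
        X l (-1) + (bif b then TT l.1 (-1) else 0) ≠ -C j) := by
    intro j
    have hne : Nonempty {θ // cl θ = j} := by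
      obtain ⟨i | k, hi⟩ := hc j
      · exact ⟨⟨Sum.inl i, hi⟩⟩
      · exact ⟨⟨Sum.inr (k, false), hi⟩⟩
    refine core_pos m h hm hh h3 (C j) (Θ := {θ // cl θ = j}) (fun k i => TT k.1 i)
      (fun k => r k.1) (fun k => x k.1) (fun k l i => BR k.1 l.1 i) ?_ ?_ ?_ ?_
    · intro k i hi; exact hT1 k.1 i hi
    · intro k l i hkl hk hl
      exact hT2 k.1 l.1 i (fun h' => hkl (Subtype.ext h')) hk hl
    · intro k l i hb; exact hb1 _ _ i hb
    · rintro hEv ⟨θ, hθ⟩ ⟨θ', hθ'⟩ i ⟨k, b, b', rfl, rfl, hb⟩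
      exact g6 k (hEv ⟨Sum.inr (k, false), hθ⟩) (hEv ⟨Sum.inr (k, true), hθ⟩) b b' i hb
  choose X s p1 p2 p3 p4 p5 p6 p7 using hpos
  let ee : ι ⊕ κ × Bool → Bool → ZMod h → ZMod (m * h) := fun θ b a =>
    phi (cl θ) ((π (cl θ)).symm a, X (cl θ) ⟨θ, rfl⟩ ((π (cl θ)).symm a) +
      (bif b then TT θ ((π (cl θ)).symm a) else 0))
  have hee : ∀ j (k : {θ // cl θ = j}) b i,
      ee k.1 b (π j i) = phi j (i, X j k i + (bif b then TT k.1 i else 0)) := by
    rintro j ⟨θ, rfl⟩ b i
    show phi (cl θ) ((π (cl θ)).symm (π (cl θ) i), _) = _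
    rw [Equiv.symm_apply_apply]
  have red_ee : ∀ θ b a, red m h (ee θ b a) = a := by
    intro θ b a
    show red m h (phi (cl θ) _) = a
    rw [ph1]
    exact Equiv.apply_symm_apply _ _
  -- the systems of the classes
  let sec : ZMod h → ZMod (m * h) := fun a => ((a.val : ℕ) : ZMod (m * h))
  have red_sec : ∀ a, red m h (sec a) = a := by
    intro a
    show red m h ((a.val : ℕ) : ZMod (m * h)) = a
    rw [map_natCast, ZMod.natCast_zmod_val]
  have hPP : ∀ θ a, ∃ y, ee θ false a - sec a = psi m h y := by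
    intro θ a
    exact exists_psi m h (by rw [map_sub, red_ee, red_sec, sub_self])
  choose PP hPP using hPP
  have ee_sec : ∀ θ b a, ee θ b a = sec a + psi m h (PP θ a +
      (bif b then TT θ ((π (cl θ)).symm a) else 0)) := by
    intro θ b a
    have h1 : ee θ false a = sec a + psi m h (PP θ a) := by rw [← hPP]; ring
    cases b
    · simp only [cond_false, add_zero]; exact h1
    · simp only [cond_true]
      rw [map_add, ← add_assoc, ← h1]
      show phi (cl θ) (_, X (cl θ) ⟨θ, rfl⟩ _ + TT θ _) = phi (cl θ) (_, _ + 0) + _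
      rw [ph3, add_zero]
  have TSa : ∀ a : ZMod h, TS {v | red m h v = a} (DE (FD (fun i => psi m h (t i))
      (fun k => psi m h (d k)) (fun k => psi m h (u k)))) (fun θ b => ee θ b a) := by
    intro a
    have h1 := hG (fun θ => PP θ a) (fun θ => TT θ ((π (cl θ)).symm a)) (fun _ => rfl) (by
      intro k
      set i := (π (c (Sum.inr k))).symm a with hi
      rcases g8 k i with h1 | h1 | ⟨h1, h2⟩
      · exact Or.inl h1
      · exact Or.inr (Or.inl h1)
      · refine Or.inr (Or.inr ⟨h1, ?_⟩)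
        have hdiff : PP (Sum.inr (k, true)) a - PP (Sum.inr (k, false)) a =
            X (c (Sum.inr k)) ⟨Sum.inr (k, true), rfl⟩ i -
            X (c (Sum.inr k)) ⟨Sum.inr (k, false), rfl⟩ i := by
          apply hinj
          rw [map_sub, map_sub, ← hPP, ← hPP]
          have e1 : ∀ b, ee (Sum.inr (k, b)) false a = phi (c (Sum.inr k))
              (i, 0 + X (c (Sum.inr k)) ⟨Sum.inr (k, b), rfl⟩ i) := by
            intro b
            show phi (c (Sum.inr k)) (i, X (c (Sum.inr k)) ⟨Sum.inr (k, b), rfl⟩ i + 0) = _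
            rw [add_zero, zero_add]
          rw [e1, e1, ph3, ph3]
          ring
        show Q (PP (Sum.inr (k, true)) a - PP (Sum.inr (k, false)) a)
        rw [hdiff]
        rcases h2 with h2 | h2
        · have := p4 (c (Sum.inr k)) ⟨Sum.inr (k, false), rfl⟩ ⟨Sum.inr (k, true), rfl⟩ i
            ⟨k, false, true, rfl, rfl, h2⟩
          have e : X (c (Sum.inr k)) ⟨Sum.inr (k, true), rfl⟩ i -
              X (c (Sum.inr k)) ⟨Sum.inr (k, false), rfl⟩ i =
              -(X (c (Sum.inr k)) ⟨Sum.inr (k, false), rfl⟩ i -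
              X (c (Sum.inr k)) ⟨Sum.inr (k, true), rfl⟩ i) := by ring
          rw [e]
          exact hQ _ this.neg
        · exact hQ _ (p4 (c (Sum.inr k)) ⟨Sum.inr (k, true), rfl⟩ ⟨Sum.inr (k, false), rfl⟩ i
            ⟨k, true, false, rfl, rfl, h2⟩))
    refine (h1.map (fun y => sec a + psi m h y) (fun y y' hy => hinj (add_left_cancel hy))
      {v | red m h v = a} (DE (FD (fun i => psi m h (t i))
      (fun k => psi m h (d k)) (fun k => psi m h (u k)))) ?_ ?_).congr ?_
    · intro v
      constructor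
      · intro hv
        have hv' : red m h v = a := hv
        obtain ⟨y, hy⟩ := exists_psi m h (v := v - sec a) (by rw [map_sub, red_sec, hv', sub_self])
        exact ⟨y, trivial, by show sec a + psi m h y = v; rw [← hy]; ring⟩
      · rintro ⟨y, -, rfl⟩
        show red m h (sec a + psi m h y) = a
        rw [map_add, red_sec, red_psi, add_zero]
    · rintro y - y' - ⟨δ', hδ', h2⟩
      obtain ⟨δ, hδ, rfl⟩ : ∃ δ, FD t d u δ ∧ δ' = psi m h δ := by
        rcases hδ' with ⟨i, hi⟩ | ⟨k, hk | hk⟩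
        · exact ⟨t i, Or.inl ⟨i, rfl⟩, hi⟩
        · exact ⟨d k, Or.inr ⟨k, Or.inl rfl⟩, hk⟩
        · exact ⟨u k, Or.inr ⟨k, Or.inr rfl⟩, hk⟩
      refine ⟨δ, hδ, ?_⟩
      rcases h2 with h2 | h2
      · left
        apply hinj
        rw [map_add]
        have h2' : sec a + psi m h y' = sec a + psi m h y + psi m h δ := h2
        linear_combination h2'
      · right
        apply hinj
        rw [map_add]
        have h2' : sec a + psi m h y = sec a + psi m h y' + psi m h δ := h2
        linear_combination h2'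
    · intro θ b
      exact ee_sec θ b a
  choose M m1 m2 m3 m4 m5 using TSa
  -- the edges of a block
  let Eb : J → ZMod (m * h) → ZMod (m * h) → Prop := fun j v v' =>
    red m h v = red m h v' ∧ ((∃ θ, cl θ = j ∧ ∃ b, M (red m h v) θ b v v') ∨
      ∃ θ, cl θ = j ∧ ((v = ee θ false (red m h v) ∧ v' = ee θ true (red m h v)) ∨
        (v = ee θ true (red m h v) ∧ v' = ee θ false (red m h v))))
  let F : J → ZMod (m * h) ≃ ZMod (m * h) := fun j =>
    (phi j).symm.trans ((stpE (C j)).trans (phi j))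
  have hF : ∀ j v, F j v = v + W j ((π j).symm (red m h v)) := by
    intro j v
    show phi j (stp (C j) ((phi j).symm v)) = _
    rw [ph2, Equiv.apply_symm_apply, hfst]
  have hidxF : ∀ j v, (π j).symm (red m h (F j v)) = (π j).symm (red m h v) + 1 := by
    intro j v
    show (π j).symm (red m h (phi j (stp (C j) ((phi j).symm v)))) = _
    rw [ph1, Equiv.symm_apply_apply]
    show ((phi j).symm v).1 + 1 = _
    rw [hfst]
  have hFw : ∀ j, F j (w j) = phi j (0, 0) := by
    intro j
    rw [hF, hw, Equiv.symm_apply_apply, ph5]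
  have blk : ∀ j, TS Set.univ (fun v v' => ((π j).symm (red m h v) = (π j).symm (red m h v') ∧
        Eb j v v') ∨ v' = F j v ∨ v = F j v')
      (fun (k : Option {θ // cl θ = j}) b => k.elim (bif b then F j (w j) else w j)
        (fun k => ee k.1 b (π j (r k.1)))) := by
    intro j
    refine glue_TS hh h3 (F j) (fun v => (π j).symm (red m h v)) (hidxF j) (Eb j)
      (fun k : {θ // cl θ = j} => r k.1) (fun k b i => ee k.1 b (π j i)) ?_ ?_ ?_ ?_ (s j) (w j)
      ?_ ?_ ?_ ?_
    · intro k b i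
      show (π j).symm (red m h (ee k.1 b (π j i))) = i
      rw [red_ee, Equiv.symm_apply_apply]
    · intro k b i hi
      show ee k.1 b (π j (i + 1)) = F j (ee k.1 b (π j i))
      rw [hee j k, hee j k]
      have h1 : F j (phi j (i, X j k i + (bif b then TT k.1 i else 0))) =
          phi j (stp (C j) (i, X j k i + (bif b then TT k.1 i else 0))) := by
        show phi j (stp (C j) ((phi j).symm (phi j _))) = _
        rw [Equiv.symm_apply_apply]
      rw [h1]
      congr 1
      show (i + 1, X j k (i + 1) + (bif b then TT k.1 (i + 1) else 0)) =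
        (i + 1, X j k i + (bif b then TT k.1 i else 0) + if i + 1 = 0 then C j else 0)
      rw [p2 j k i hi, hT1 k.1 i hi]
      congr 1
      ring
    · intro k l i hkl hk hl b b' h1
      have h2 : ee k.1 b (π j i) = ee l.1 b' (π j i) := h1
      rw [hee j k, hee j l] at h2
      have h3' := (phi j).injective h2
      exact p3 j k l i hkl hk hl b b' (congrArg Prod.snd h3')
    · intro i
      refine ⟨fun k b v v' => M (π j i) k.1 b v v', fun k => m1 _ _, ?_, fun k => m3 _ _,
        fun k => m4 _ _, ?_⟩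
      · intro k b v v' hM
        obtain ⟨a1, a2⟩ := m2 _ _ _ _ _ hM
        have a1' : red m h v = π j i := a1
        have a2' : red m h v' = π j i := a2
        refine ⟨?_, ?_⟩
        · show (π j).symm (red m h v) = i
          rw [a1', Equiv.symm_apply_apply]
        · show (π j).symm (red m h v') = i
          rw [a2', Equiv.symm_apply_apply]
      · intro v hv v' hv' hEb
        have hv1 : (π j).symm (red m h v) = i := hv
        have hv2 : red m h v = π j i := by rw [← hv1, Equiv.apply_symm_apply]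
        rcases hEb.2 with ⟨θ, hθ, b, hM⟩ | ⟨θ, hθ, h1⟩
        · right
          rw [hv2] at hM
          exact ⟨⟨θ, hθ⟩, b, hM⟩
        · left
          rw [hv2] at h1
          exact ⟨⟨θ, hθ⟩, h1⟩
    · show (π j).symm (red m h (w j)) = -1
      rw [hw, Equiv.symm_apply_apply]
    · intro hr
      show ee (s j).1 false (π j (-1)) = w j
      rw [hee j (s j), p5 j hr]
      show phi j (-1, -C j + 0) = w j
      rw [add_zero, ph4]
    · intro hr
      show ee (s j).1 false (π j 0) = F j (w j)
      rw [hee j (s j), p6 j hr, hFw]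
      show phi j (0, 0 + 0) = _
      rw [add_zero]
    · intro l b hl hodd h1
      have h2 : ee l.1 b (π j (-1)) = w j := h1
      rw [hee j l, ← ph4 j] at h2
      exact p7 j l b hl hodd (congrArg Prod.snd ((phi j).injective h2))
  -- the union of the blocks
  let σ : J ⊕ (ι ⊕ κ × Bool) ≃ Σ j, Option {θ // cl θ = j} :=
    { toFun := Sum.elim (fun j => ⟨j, none⟩) (fun θ => ⟨cl θ, some ⟨θ, rfl⟩⟩)
      invFun := fun p => p.2.elim (Sum.inl p.1) (fun θ => Sum.inr θ.1)
      left_inv := by
        rintro (j | θ)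
        · rfl
        · rfl
      right_inv := by
        rintro ⟨j, _ | ⟨θ, rfl⟩⟩
        · rfl
        · rfl }
  refine (((TS.sigma blk).reindex σ).mono ?_).congr ?_
  · rintro v - v' - (h1 | ⟨j, h1 | h1⟩)
    · have hred : red m h v = red m h v' := by
        obtain ⟨δ', hδ', h2⟩ := h1
        have h0 : red m h δ' = 0 := by
          rcases hδ' with ⟨i, hi⟩ | ⟨k, hk | hk⟩
          · rw [hi]; exact red_psi m h _
          · rw [hk]; exact red_psi m h _
          · rw [hk]; exact red_psi m h _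
        rcases h2 with h2 | h2
        · rw [h2, map_add, h0, add_zero]
        · rw [h2, map_add, h0, add_zero]
      rcases m5 (red m h v) v rfl v' hred.symm h1 with ⟨θ, hθ⟩ | ⟨θ, b, hM⟩
      · exact ⟨cl θ, Or.inl ⟨by rw [hred], hred, Or.inr ⟨θ, rfl, hθ⟩⟩⟩
      · exact ⟨cl θ, Or.inl ⟨by rw [hred], hred, Or.inl ⟨θ, rfl, b, hM⟩⟩⟩
    · rcases hE j v v' h1 with h2 | h2
      · exact ⟨j, Or.inr (Or.inl (by rw [hF]; exact h2))⟩
      · exact ⟨j, Or.inr (Or.inr (by rw [hF]; exact h2))⟩
    · rcases hE j v' v h1 with h2 | h2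
      · exact ⟨j, Or.inr (Or.inr (by rw [hF]; exact h2))⟩
      · exact ⟨j, Or.inr (Or.inl (by rw [hF]; exact h2))⟩
  · rintro (j | θ) b
    · show (bif b then w' j else w j) = (bif b then F j (w j) else w j)
      rw [hF, hw, Equiv.symm_apply_apply, hw']
    · show fh P A θ b = ee θ b (π (cl θ) (r θ))
      have h1 := hee (cl θ) ⟨θ, rfl⟩ b (r θ)
      have h2 : ee θ b (π (cl θ) (r θ)) =
        phi (cl θ) (r θ, X (cl θ) ⟨θ, rfl⟩ (r θ) + (bif b then TT θ (r θ) else 0)) := h1
      have h3' := p1 (cl θ) ⟨θ, rfl⟩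
      have h4 : X (cl θ) ⟨θ, rfl⟩ (r θ) = x θ := h3'
      rw [h2, h4, TTr]
      show P θ + (bif b then A θ else 0) = _
      cases b
      · simp only [cond_false, add_zero]
        exact (hrx θ).symm
      · simp only [cond_true]
        rw [ph3, hrx, hAA θ]

end Pool.Agent.P45
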