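import Pool.Agent.Lib.P45dba8.Blocks
import Pool.Agent.Lib.P45dba8.Joint

/-! # Cyclic blocks: basic constructions -/

set_option autoImplicit false

namespace Pool.Agent.P45

theorem Cyc.mono {m h : ℕ} {E E' : ZMod (m * h) → ZMod (m * h) → Prop} {w w' : ZMod (m * h)}
    (H : Cyc m h E w w') (hE : ∀ v v', E' v v' → E v v') : Cyc m h E' w w' := by
  obtain ⟨π, W, h1, h2, h3, h4⟩ := H
  exact ⟨π, W, h1, h2, h3, fun v v' hv => h4 v v' (hE v v' hv)⟩

/-- Reversal. -/
theorem Cyc.symm {m h : ℕ} {E : ZMod (m * h) → ZMod (m * h) → Prop} {w w' : ZMod (m * h)}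
    (H : Cyc m h E w w') : Cyc m h E w' w := by
  obtain ⟨π, W, h1, h2, h3, h4⟩ := H
  let ρ : ZMod h ≃ ZMod h := Equiv.subLeft (-1)
  have hρ : ∀ i, ρ i = -1 - i := fun i => rfl
  have hρs : ∀ i, ρ.symm i = -1 - i := by
    intro i
    rw [Equiv.symm_apply_eq, hρ]; ring
  have hstep : ∀ v v', v' = v + W (π.symm (red m h v)) →
      π.symm (red m h v') = π.symm (red m h v) + 1 := by
    intro v v' hv
    have : red m h v' = π (π.symm (red m h v) + 1) := by
      rw [hv, map_add, h1, Equiv.apply_symm_apply]; ring
    rw [this, Equiv.symm_apply_apply]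
  have hsym : ∀ v, (ρ.trans π).symm v = -1 - π.symm v := fun v => hρs _
  refine ⟨ρ.trans π, fun i => -W (-2 - i), ?_, ?_, ?_, ?_⟩
  · intro i
    show red m h (-W (-2 - i)) = π (ρ (i + 1)) - π (ρ i)
    rw [map_neg, h1, hρ, hρ]
    have e1 : (-2 : ZMod h) - i + 1 = -1 - i := by ring
    have e2 : (-1 : ZMod h) - (i + 1) = -2 - i := by ring
    rw [e1, e2]; ring
  · show red m h w' = π (ρ (-1))
    have e1 : ρ (-1) = (-1 : ZMod h) + 1 := by rw [hρ]; ring
    rw [e1, h3, map_add, h1, h2]
    ring
  · show w = w' + -W (-2 - -1)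
    have e1 : (-2 : ZMod h) - -1 = -1 := by ring
    rw [e1, h3]; ring
  · intro v v' hv
    rcases h4 v v' hv with h5 | h5
    · right
      rw [hsym, hstep v v' h5]
      have e1 : (-2 : ZMod h) - (-1 - (π.symm (red m h v) + 1)) = π.symm (red m h v) := by ring
      show v = v' + -W (-2 - (-1 - (π.symm (red m h v) + 1)))
      rw [e1]
      linear_combination -h5
    · left
      rw [hsym, hstep v' v h5]
      have e1 : (-2 : ZMod h) - (-1 - (π.symm (red m h v') + 1)) = π.symm (red m h v') := by ring
      show v' = v + -W (-2 - (-1 - (π.symm (red m h v') + 1)))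
      rw [e1]
      linear_combination -h5

theorem Cyc.of_step {m h : ℕ} {E : ZMod (m * h) → ZMod (m * h) → Prop}
    (Wt : ZMod h → ZMod (m * h)) (π : ZMod h ≃ ZMod h)
    (hπ : ∀ i, π (i + 1) = π i + red m h (Wt (π i)))
    (hE : ∀ v v', E v v' → v' = v + Wt (red m h v) ∨ v = v' + Wt (red m h v'))
    (w w' : ZMod (m * h)) (hw : w' = w + Wt (red m h w) ∨ w = w' + Wt (red m h w')) :
    Cyc m h E w w' := by
  have main : ∀ w w' : ZMod (m * h), w' = w + Wt (red m h w) → Cyc m h E w w' := by
    intro w w' hw
    let j := π.symm (red m h w)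
    let π' : ZMod h ≃ ZMod h := (Equiv.addRight (1 + j)).trans π
    have hπ' : ∀ i, π' i = π (i + (1 + j)) := fun i => rfl
    have h1 : π' (-1) = red m h w := by
      rw [hπ']
      have : (-1 : ZMod h) + (1 + j) = j := by ring
      rw [this]
      exact π.apply_symm_apply _
    refine ⟨π', fun i => Wt (π' i), ?_, h1.symm, ?_, ?_⟩
    · intro i
      have h2 : π' (i + 1) = π' i + red m h (Wt (π' i)) := by
        rw [hπ', hπ']
        have : i + 1 + (1 + j) = i + (1 + j) + 1 := by ring
        rw [this]
        exact hπ _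
      rw [h2]; ring
    · show w' = w + Wt (π' (-1))
      rw [h1]; exact hw
    · intro v v' hv
      rcases hE v v' hv with h2 | h2
      · left
        show v' = v + Wt (π' (π'.symm (red m h v)))
        rw [π'.apply_symm_apply]; exact h2
      · right
        show v = v' + Wt (π' (π'.symm (red m h v')))
        rw [π'.apply_symm_apply]; exact h2
  rcases hw with hw | hw
  · exact main w w' hw
  · exact (main w' w hw).symm

/-- Steps of a constant residue. -/
theorem Cyc.constant {m h : ℕ} {E : ZMod (m * h) → ZMod (m * h) → Prop}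
    (Wt : ZMod h → ZMod (m * h)) (x : ZMod h) (hx : IsUnit x) (hW : ∀ a, red m h (Wt a) = x)
    (hE : ∀ v v', E v v' → v' = v + Wt (red m h v) ∨ v = v' + Wt (red m h v'))
    (w w' : ZMod (m * h)) (hw : w' = w + Wt (red m h w) ∨ w = w' + Wt (red m h w')) :
    Cyc m h E w w' := by
  obtain ⟨ux, hux⟩ := hx
  refine Cyc.of_step Wt (Units.mulLeft ux) ?_ hE w w' hw
  intro i
  rw [hW]
  show (ux : ZMod h) * (i + 1) = (ux : ZMod h) * i + x
  rw [hux]; ring

/-- One switched square: the steps `x`, except the steps `y` at `a` and `a + x`. -/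
theorem exists_stepB {m h : ℕ} (h3 : 3 ≤ h)
    (x y : ZMod (m * h)) (hx : IsUnit (red m h x)) (a : ZMod h)
    (hy0 : red m h y ≠ 0) (hy1 : red m h y ≠ red m h x) (hy2 : red m h y ≠ -red m h x) :
    ∃ (Wt : ZMod h → ZMod (m * h)) (π : ZMod h ≃ ZMod h),
      (∀ i, π (i + 1) = π i + red m h (Wt (π i))) ∧
      ∀ v v', ((v' = v + y ∧ (red m h v = a ∨ red m h v = a + red m h x)) ∨
        (v' = v + x ∧ red m h v ≠ a ∧ red m h v ≠ a + red m h y)) →
        v' = v + Wt (red m h v) ∨ v = v' + Wt (red m h v') := by
  classical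
  have hNZ : NeZero h := ⟨by omega⟩
  have hF1 : Fact (1 < h) := ⟨by omega⟩
  obtain ⟨ux, hux⟩ := hx
  set xb := red m h x with hxb
  set yb := red m h y with hyb
  let lam : ZMod h := ↑ux⁻¹ * yb
  have hlam : yb = xb * lam := by
    show yb = xb * (↑ux⁻¹ * yb)
    rw [← hux, ← mul_assoc, Units.mul_inv, one_mul]
  let l := lam.val
  have hlc : ((l : ℕ) : ZMod h) = lam := ZMod.natCast_zmod_val lam
  have hl0 : l ≠ 0 := by
    intro h0
    apply hy0
    have : lam = 0 := (ZMod.val_eq_zero lam).1 h0
    rw [hlam, this, mul_zero]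
  have hl1 : l ≠ 1 := by
    intro h0
    apply hy1
    have : lam = 1 := by rw [← hlc, h0, Nat.cast_one]
    rw [hlam, this, mul_one]
  have hl2 : l < h - 1 := by
    have h1 := lam.val_lt
    have h2 : l ≠ h - 1 := by
      intro h0
      apply hy2
      have : lam = -1 := by
        apply ZMod.val_injective h
        rw [zval_neg_one h3]; exact h0
      rw [hlam, this]; ring
    omega
  let T : ZMod h → ZMod h := fun i => ((rv l i.val : ℕ) : ZMod h)
  have Tval : ∀ i, (T i).val = rv l i.val := by
    intro i
    exact ZMod.val_natCast_of_lt (rv_lt l _ h (by omega) i.val_lt)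
  have TT : Function.Involutive T := by
    intro i
    apply ZMod.val_injective h
    rw [Tval, Tval, rv_rv]
  -- the index of a class
  let ix : ZMod h → ZMod h := fun v => ↑ux⁻¹ * (v - a)
  have ix_inj : ∀ v v', ix v = ix v' → v = v' := by
    intro v v' h1
    have h2 : (ux : ZMod h) * (↑ux⁻¹ * (v - a)) = (ux : ZMod h) * (↑ux⁻¹ * (v' - a)) :=
      congrArg (fun z => (ux : ZMod h) * z) h1
    rw [← mul_assoc, ← mul_assoc, Units.mul_inv, one_mul, one_mul] at h2
    linear_combination h2
  have ix_add : ∀ v j, ix (v + xb * j) = ix v + j := by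
    intro v j
    show ↑ux⁻¹ * (v + xb * j - a) = ↑ux⁻¹ * (v - a) + j
    have : (↑ux⁻¹ : ZMod h) * xb = 1 := by rw [← hux]; exact Units.inv_mul ux
    linear_combination j * this
  have ix_a : ix a = 0 := by
    show ↑ux⁻¹ * (a - a) = (0 : ZMod h)
    rw [sub_self, mul_zero]
  let Wt : ZMod h → ZMod (m * h) := fun v =>
    if (ix v).val = 0 ∨ (ix v).val = 1 then y else if (ix v).val ≤ l then -x else x
  let π : ZMod h ≃ ZMod h := TT.toPerm.trans ((Units.mulLeft ux).trans (Equiv.addLeft a))
  have hπv : ∀ i, π i = a + xb * T i := by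
    intro i
    rw [← hux]; rfl
  have ixπ : ∀ i, ix (π i) = T i := by
    intro i
    rw [hπv, ix_add, ix_a, zero_add]
  have hπ : ∀ i, π (i + 1) = π i + red m h (Wt (π i)) := by
    intro i
    apply ix_inj
    have hval : (ix (π i)).val = rv l i.val := by rw [ixπ, Tval]
    have hWy : Wt (π i) = y → ix (π i + red m h (Wt (π i))) = T i + lam := by
      intro h1
      rw [h1, ← hyb, hlam, ix_add, ixπ]
    have hWx : Wt (π i) = x → ix (π i + red m h (Wt (π i))) = T i + 1 := by
      intro h1
      rw [h1, ← hxb]
      have : xb = xb * 1 := (mul_one _).symm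
      rw [this, ix_add, ixπ]
    have hWnx : Wt (π i) = -x → ix (π i + red m h (Wt (π i))) = T i - 1 := by
      intro h1
      rw [h1, map_neg, ← hxb]
      have : -xb = xb * (-1) := by ring
      rw [this, ix_add, ixπ]; ring
    have hTc : T i = ((rv l i.val : ℕ) : ZMod h) := rfl
    rw [ixπ]
    by_cases hi : i = -1
    · have hv : i.val = h - 1 := by rw [hi]; exact zval_neg_one h3
      have hr : rv l i.val = h - 1 := by
        unfold rv; split_ifs <;> omega
      have hW' : Wt (π i) = x := by
        show (if (ix (π i)).val = 0 ∨ (ix (π i)).val = 1 then y else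
          if (ix (π i)).val ≤ l then -x else x) = x
        rw [hval, hr, if_neg (by omega), if_neg (by omega)]
      rw [hWx hW']
      have e0 : i + 1 = 0 := by rw [hi]; ring
      have e1 : T i = i := by
        apply ZMod.val_injective h
        rw [Tval, hr, hv]
      rw [e0, e1, e0]
      have : (T 0).val = 0 := by
        rw [Tval, ZMod.val_zero]; rfl
      exact (ZMod.val_eq_zero _).1 this
    · have hsv : (i + 1).val = i.val + 1 := zval_succ h3 hi
      have hlt := (i + 1).val_lt
      rw [hsv] at hlt
      have hTs : T (i + 1) = ((rv l (i.val + 1) : ℕ) : ZMod h) := by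
        show ((rv l (i + 1).val : ℕ) : ZMod h) = _
        rw [hsv]
      rcases Nat.eq_zero_or_pos i.val with h0 | hpos
      · have hr : rv l i.val = 0 := by rw [h0]; rfl
        have hW' : Wt (π i) = y := by
          show (if (ix (π i)).val = 0 ∨ (ix (π i)).val = 1 then y else
            if (ix (π i)).val ≤ l then -x else x) = y
          rw [hval, hr, if_pos (Or.inl rfl)]
        rw [hWy hW', hTs, hTc, hr, h0]
        have : rv l (0 + 1) = l := by
          rw [rv_le (by omega) (by omega)]; omega
        rw [this, hlc, Nat.cast_zero, zero_add]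
      · by_cases h1 : i.val < l
        · have hr : rv l i.val = l + 1 - i.val := by
            unfold rv; split_ifs <;> omega
          have hW' : Wt (π i) = -x := by
            show (if (ix (π i)).val = 0 ∨ (ix (π i)).val = 1 then y else
              if (ix (π i)).val ≤ l then -x else x) = -x
            rw [hval, hr, if_neg (by omega), if_pos (by omega)]
          rw [hWnx hW', hTs, hTc, hr]
          have : rv l (i.val + 1) = l - i.val := by
            rw [rv_le (by omega) (by omega)]; omega
          rw [this]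
          have e2 : l + 1 - i.val = (l - i.val) + 1 := by omega
          rw [e2, Nat.cast_add, Nat.cast_one]; ring
        · by_cases h2 : i.val = l
          · have hr : rv l i.val = 1 := by
              unfold rv; split_ifs <;> omega
            have hW' : Wt (π i) = y := by
              show (if (ix (π i)).val = 0 ∨ (ix (π i)).val = 1 then y else
                if (ix (π i)).val ≤ l then -x else x) = y
              rw [hval, hr, if_pos (Or.inr rfl)]
            rw [hWy hW', hTs, hTc, hr]
            have : rv l (i.val + 1) = l + 1 := by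
              unfold rv; split_ifs <;> omega
            rw [this, Nat.cast_add, hlc, Nat.cast_one]; ring
          · have hr : rv l i.val = i.val := by
              unfold rv; split_ifs <;> omega
            have hW' : Wt (π i) = x := by
              show (if (ix (π i)).val = 0 ∨ (ix (π i)).val = 1 then y else
                if (ix (π i)).val ≤ l then -x else x) = x
              rw [hval, hr, if_neg (by omega), if_neg (by omega)]
            rw [hWx hW', hTs, hTc, hr]
            have : rv l (i.val + 1) = i.val + 1 := by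
              unfold rv; split_ifs <;> omega
            rw [this, Nat.cast_add, Nat.cast_one]
  -- values of `ix`
  have ix0 : ∀ v, (ix v).val = 0 → v = a := by
    intro v h1
    apply ix_inj
    rw [ix_a]; exact (ZMod.val_eq_zero _).1 h1
  have ixa : ∀ v, v = a → (ix v).val = 0 := by
    rintro v rfl
    rw [ix_a, ZMod.val_zero]
  have ix1 : ∀ v, v = a + xb → (ix v).val = 1 := by
    rintro v rfl
    have : a + xb = a + xb * 1 := by ring
    rw [this, ix_add, ix_a, zero_add, ZMod.val_one]
  have ixl : ∀ v, (ix v).val = l → v = a + yb := by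
    intro v h1
    apply ix_inj
    rw [hlam, ix_add, ix_a, zero_add]
    apply ZMod.val_injective h
    exact h1
  refine ⟨Wt, π, hπ, ?_⟩
  rintro v v' (⟨h1, h2⟩ | ⟨h1, h2, h2'⟩)
  · left
    have h4 : (ix (red m h v)).val = 0 ∨ (ix (red m h v)).val = 1 := by
      rcases h2 with h2 | h2
      · exact Or.inl (ixa _ h2)
      · exact Or.inr (ix1 _ h2)
    have h5 : Wt (red m h v) = y := if_pos h4
    rw [h5]; exact h1
  · have k0 : (ix (red m h v)).val ≠ 0 := fun h' => h2 (ix0 _ h')
    have kl : (ix (red m h v)).val ≠ l := fun h' => h2' (ixl _ h')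
    by_cases hlt : (ix (red m h v)).val < l
    · right
      have e1 : (ix (red m h v')).val = (ix (red m h v)).val + 1 := by
        have : red m h v' = red m h v + xb * 1 := by rw [h1, map_add, ← hxb]; ring
        rw [this, ix_add]
        apply zval_succ h3
        intro h'
        rw [h', zval_neg_one h3] at hlt
        omega
      have h5 : Wt (red m h v') = -x := by
        show (if (ix (red m h v')).val = 0 ∨ (ix (red m h v')).val = 1 then y else
          if (ix (red m h v')).val ≤ l then -x else x) = -x
        rw [e1, if_neg (by omega), if_pos (by omega)]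
      rw [h5, h1]; ring
    · left
      have h5 : Wt (red m h v) = x := by
        show (if (ix (red m h v)).val = 0 ∨ (ix (red m h v)).val = 1 then y else
          if (ix (red m h v)).val ≤ l then -x else x) = x
        rw [if_neg (by omega), if_neg (by omega)]
      rw [h5]; exact h1

theorem Cyc.square {m h : ℕ} (h3 : 3 ≤ h)
    (x y : ZMod (m * h)) (hx : IsUnit (red m h x)) (a : ZMod h)
    (hy0 : red m h y ≠ 0) (hy1 : red m h y ≠ red m h x) (hy2 : red m h y ≠ -red m h x)
    (E : ZMod (m * h) → ZMod (m * h) → Prop)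
    (hE : ∀ v v', E v v' → ((v' = v + y ∧ (red m h v = a ∨ red m h v = a + red m h x)) ∨
        (v' = v + x ∧ red m h v ≠ a ∧ red m h v ≠ a + red m h y)))
    (w w' : ZMod (m * h)) (hw : (w' = w + y ∧ (red m h w = a ∨ red m h w = a + red m h x)) ∨
        (w' = w + x ∧ red m h w ≠ a ∧ red m h w ≠ a + red m h y)) :
    Cyc m h E w w' := by
  obtain ⟨Wt, π, h1, h2⟩ := exists_stepB h3 x y hx a hy0 hy1 hy2
  exact Cyc.of_step Wt π h1 (fun v v' hv => h2 v v' (hE v v' hv)) w w' (h2 w w' hw)

end Pool.Agent.P45
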