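import Mathlib

/-! # Packing translates of finite sets in `ZMod p` (Dyson / Combinatorial Nullstellensatz) -/

set_option autoImplicit false
set_option linter.unusedVariables false

namespace Pool.Agent.P45

open MvPolynomial Finset

section CN

variable {F : Type*} [Field F] {σ : Type*}

theorem prod_sub_C_eq {ι : Type*} [DecidableEq ι] (s : Finset ι) (l : ι → MvPolynomial σ F)
    (hl : ∀ i, (l i).totalDegree ≤ 1) (c : ι → F) :
    ∃ R : MvPolynomial σ F, ∏ i ∈ s, (l i - C (c i)) = ∏ i ∈ s, l i + R ∧
      (R = 0 ∨ R.totalDegree < s.card) := by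
  induction s using Finset.induction_on with
  | empty => exact ⟨0, by simp, Or.inl rfl⟩
  | insert i s hi ih =>
    obtain ⟨R, hR, hR'⟩ := ih
    refine ⟨l i * R - C (c i) * (∏ j ∈ s, l j + R), ?_, Or.inr ?_⟩
    · rw [Finset.prod_insert hi, Finset.prod_insert hi, hR]; ring
    · rw [Finset.card_insert_of_notMem hi]
      have h1 : (l i * R).totalDegree ≤ s.card := by
        rcases hR' with h | h
        · rw [h]; simp
        · have := totalDegree_mul (l i) R
          have := hl i
          omega
      have h2 : (∏ j ∈ s, l j).totalDegree ≤ s.card := by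
        refine (totalDegree_finsetProd s l).trans ?_
        calc ∑ j ∈ s, (l j).totalDegree ≤ ∑ j ∈ s, 1 := Finset.sum_le_sum (fun j _ => hl j)
          _ = s.card := by simp
      have h3 : (∏ j ∈ s, l j + R).totalDegree ≤ s.card := by
        refine (totalDegree_add _ _).trans (max_le h2 ?_)
        rcases hR' with h | h
        · rw [h]; simp
        · exact h.le
      have h4 : (C (c i) * (∏ j ∈ s, l j + R)).totalDegree ≤ s.card := by
        refine (totalDegree_mul _ _).trans ?_
        rw [totalDegree_C]; omega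
      have h5 := totalDegree_sub (l i * R) (C (c i) * (∏ j ∈ s, l j + R))
      have := max_le h1 h4
      omega

theorem coeff_prod_sub_C {ι : Type*} [DecidableEq ι] (s : Finset ι) (l : ι → MvPolynomial σ F)
    (hl : ∀ i, (l i).totalDegree ≤ 1) (c : ι → F) (m : σ →₀ ℕ) (hm : m.degree = s.card) :
    coeff m (∏ i ∈ s, (l i - C (c i))) = coeff m (∏ i ∈ s, l i) := by
  obtain ⟨R, hR, hR'⟩ := prod_sub_C_eq s l hl c
  rw [hR, coeff_add]
  rcases hR' with h | h
  · rw [h]; simp
  · rw [coeff_eq_zero_of_totalDegree_lt (f := R) (d := m)]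
    · simp
    · rw [← Finsupp.degree_apply, hm]; exact h

theorem totalDegree_prod_sub_C {ι : Type*} (s : Finset ι) (l : ι → MvPolynomial σ F)
    (hl : ∀ i, (l i).totalDegree ≤ 1) (c : ι → F) :
    (∏ i ∈ s, (l i - C (c i))).totalDegree ≤ s.card := by
  refine (totalDegree_finsetProd s _).trans ?_
  calc ∑ j ∈ s, (l j - C (c j)).totalDegree ≤ ∑ j ∈ s, 1 := by
        apply Finset.sum_le_sum
        intro j _
        refine (totalDegree_sub _ _).trans (max_le (hl j) ?_)
        rw [totalDegree_C]; omega
    _ = s.card := by simp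

/-- A polynomial of degree at most `|t|` that is nonzero at exactly one point of a grid of sizes
`t i + 1` has a nonzero coefficient at `t`. -/
theorem coeff_ne_zero_of_unique [Fintype σ] [DecidableEq σ] [DecidableEq F]
    (f : MvPolynomial σ F) (t : σ →₀ ℕ) (hf : f.totalDegree ≤ t.degree) (S : σ → Finset F)
    (hS : ∀ i, (S i).card = t i + 1) (x0 : σ → F) (hx0 : ∀ i, x0 i ∈ S i)
    (hne : eval x0 f ≠ 0) (hz : ∀ x, (∀ i, x i ∈ S i) → x ≠ x0 → eval x f = 0) :
    coeff t f ≠ 0 := by
  intro h0
  set s : Finset (Σ _ : σ, F) := (Finset.univ : Finset σ).sigma (fun i => (S i).erase (x0 i)) with hs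
  have hscard : s.card = t.degree := by
    rw [hs, Finset.card_sigma]
    simp only [Finset.card_erase_of_mem (hx0 _), hS, Nat.add_sub_cancel]
    rw [Finsupp.degree_eq_sum]
  set L : MvPolynomial σ F := ∏ q ∈ s, (X q.1 - C q.2) with hL
  have hLcoeff : coeff t L = 1 := by
    rw [hL, coeff_prod_sub_C s (fun q => X q.1) (fun q => by simp) (fun q => q.2) t hscard.symm]
    have h1 : (∏ q ∈ s, (X q.1 : MvPolynomial σ F)) = monomial t 1 := by
      rw [hs, Finset.prod_sigma]
      simp only [Finset.prod_const, Finset.card_erase_of_mem (hx0 _), hS, Nat.add_sub_cancel]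
      rw [MvPolynomial.monomial_eq]
      simp only [map_one, one_mul]
      rw [Finsupp.prod_fintype]
      intro i; simp
    rw [h1, coeff_monomial, if_pos rfl]
  have hLdeg : L.totalDegree ≤ t.degree := by
    rw [← hscard]
    exact totalDegree_prod_sub_C s (fun q => X q.1) (fun q => by simp) (fun q => q.2)
  have hLeval : eval x0 L ≠ 0 := by
    rw [hL, map_prod, Finset.prod_ne_zero_iff]
    intro q hq
    rw [hs, Finset.mem_sigma] at hq
    simp only [map_sub, eval_X, eval_C]
    rw [sub_ne_zero]
    exact (Finset.ne_of_mem_erase hq.2).symm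
  have hLz : ∀ x, (∀ i, x i ∈ S i) → x ≠ x0 → eval x L = 0 := by
    intro x hx hxx
    obtain ⟨i, hi⟩ := Function.ne_iff.mp hxx
    rw [hL, map_prod]
    apply Finset.prod_eq_zero (i := (⟨i, x i⟩ : Σ _ : σ, F))
    · rw [hs, Finset.mem_sigma]
      exact ⟨Finset.mem_univ _, Finset.mem_erase.mpr ⟨hi, hx i⟩⟩
    · simp
  set g : MvPolynomial σ F := C (eval x0 L) * f - C (eval x0 f) * L with hg
  have hgc : coeff t g ≠ 0 := by
    rw [hg, coeff_sub, coeff_C_mul, coeff_C_mul, h0, hLcoeff]
    simpa using hne
  have hgd : g.totalDegree ≤ t.degree := by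
    refine (totalDegree_sub _ _).trans (max_le ?_ ?_)
    · refine (totalDegree_mul _ _).trans ?_
      rw [totalDegree_C]; omega
    · refine (totalDegree_mul _ _).trans ?_
      rw [totalDegree_C]; omega
  have hgd' : g.totalDegree = t.degree := by
    refine le_antisymm hgd ?_
    by_contra hlt
    exact hgc (coeff_eq_zero_of_totalDegree_lt (by rw [← Finsupp.degree_apply]; omega))
  obtain ⟨y, hy, hye⟩ := combinatorial_nullstellensatz_exists_eval_nonzero g t hgc hgd' S
    (fun i => by rw [hS]; omega)
  apply hye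
  rw [hg]
  simp only [map_sub, map_mul, eval_C]
  by_cases h : y = x0
  · rw [h]; ring
  · rw [hz y hy h, hLz y hy h]; ring

end CN

/-- The combinatorial core of the proof of Dyson's identity. -/
theorem tile_unique {M : ℕ} (a x : Fin M → ℕ) (ha : ∀ i, 0 < a i)
    (h : ∀ i j, i < j → x j + a j + 1 ≤ x i ∨ x i + a i ≤ x j) :
    ∀ (n : ℕ) (s : Finset (Fin M)), s.card = n → ∀ N, (∀ l ∈ s, x l + a l ≤ N) →
      ∑ l ∈ s, a l ≤ N ∧ (N = ∑ l ∈ s, a l → ∀ l ∈ s, x l = ∑ l' ∈ s with l' < l, a l') := by
  intro n
  induction n with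
  | zero =>
    intro s hs N hN
    rw [Finset.card_eq_zero] at hs
    subst hs
    simp
  | succ n ih =>
    intro s hs N hN
    have hne : s.Nonempty := Finset.card_pos.mp (by omega)
    obtain ⟨m, hm, hmax⟩ := Finset.exists_max_image s x hne
    have hcard : (s.erase m).card = n := by rw [Finset.card_erase_of_mem hm]; omega
    have hlt : ∀ l ∈ s.erase m, x l + a l ≤ x m := by
      intro l hl
      have hls := Finset.mem_of_mem_erase hl
      have hlm := Finset.ne_of_mem_erase hl
      have h1 := hmax l hls
      have h2 := ha m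
      rcases lt_or_gt_of_ne hlm with hh | hh
      · rcases h l m hh with h3 | h3 <;> omega
      · rcases h m l hh with h3 | h3 <;> omega
    obtain ⟨ih1, ih2⟩ := ih (s.erase m) hcard (x m) hlt
    have hsum : ∑ l ∈ s, a l = ∑ l ∈ s.erase m, a l + a m := (Finset.sum_erase_add s a hm).symm
    have hNm := hN m hm
    refine ⟨by omega, ?_⟩
    intro hNeq
    have hxm : x m = ∑ l ∈ s.erase m, a l := by omega
    have ih3 := ih2 hxm
    have hmm : ∀ l ∈ s.erase m, l < m := by
      by_contra hcon
      push Not at hcon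
      obtain ⟨l0, hl0, hl0m⟩ := hcon
      obtain ⟨L, hL, hLmax⟩ := Finset.exists_max_image (s.erase m) id ⟨l0, hl0⟩
      have hLm : m < L := by
        have h1 : l0 ≤ L := hLmax l0 hl0
        have h2 : L ≠ m := Finset.ne_of_mem_erase hL
        exact lt_of_le_of_ne (hl0m.trans h1) h2.symm
      have h1 := ih3 L hL
      have h2 : ∑ l' ∈ s.erase m with l' < L, a l' + a L = ∑ l' ∈ s.erase m, a l' := by
        have : (s.erase m).filter (fun l' => l' < L) = (s.erase m).erase L := by
          ext l
          simp only [Finset.mem_filter, Finset.mem_erase]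
          constructor
          · rintro ⟨⟨h1, h2⟩, h3⟩
            exact ⟨h3.ne, h1, h2⟩
          · rintro ⟨h1, h2, h3⟩
            exact ⟨⟨h2, h3⟩, lt_of_le_of_ne (hLmax l (Finset.mem_erase.mpr ⟨h2, h3⟩)) h1⟩
        rw [this, Finset.sum_erase_add _ _ hL]
      have h3 := hmax L (Finset.mem_of_mem_erase hL)
      have h4 := ha m
      rcases h m L hLm with h5 | h5 <;> omega
    intro l hl
    by_cases hlm : l = m
    · rw [hlm, hxm]
      congr 1
      ext l'
      simp only [Finset.mem_filter, Finset.mem_erase]
      constructor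
      · rintro ⟨h1, h2⟩
        exact ⟨h2, hmm l' (Finset.mem_erase.mpr ⟨h1, h2⟩)⟩
      · rintro ⟨h1, h2⟩
        exact ⟨h2.ne, h1⟩
    · have hl' : l ∈ s.erase m := Finset.mem_erase.mpr ⟨hlm, hl⟩
      rw [ih3 l hl']
      congr 1
      ext l'
      simp only [Finset.mem_filter, Finset.mem_erase]
      constructor
      · rintro ⟨⟨h1, h2⟩, h3⟩
        exact ⟨h2, h3⟩
      · rintro ⟨h1, h2⟩
        refine ⟨⟨?_, h1⟩, h2⟩
        intro h3
        rw [h3] at h2
        exact absurd (hmm l hl') (not_lt_of_gt h2)

/-- Index set of the factors. -/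
def facs (M : ℕ) (a : Fin M → ℕ) : Finset (Σ _ : Fin M × Fin M, ℕ) :=
  ((Finset.univ : Finset (Fin M × Fin M)).filter fun q => q.1 < q.2).sigma
    fun q => Finset.range (a q.1 + a q.2)

theorem card_facs (M : ℕ) (a : Fin M → ℕ) :
    (facs M a).card = ∑ i, (∑ j, a j - a i) := by
  have h1 : (facs M a).card = ∑ q : Fin M × Fin M with q.1 < q.2, (a q.1 + a q.2) := by
    rw [facs, Finset.card_sigma]
    simp
  have h2 : ∑ q : Fin M × Fin M with q.1 < q.2, (a q.1 + a q.2) =
      ∑ q : Fin M × Fin M with q.1 ≠ q.2, a q.1 := by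
    rw [Finset.sum_add_distrib]
    have h3 : ∑ q : Fin M × Fin M with q.1 < q.2, a q.2 =
        ∑ q : Fin M × Fin M with q.2 < q.1, a q.1 := by
      apply Finset.sum_bij' (fun q _ => (q.2, q.1)) (fun q _ => (q.2, q.1))
      all_goals first
        | (intro q _; rfl)
        | (intro q hq; simpa using hq)
        | (intro q hq; simp at hq ⊢; exact hq)
    rw [h3, ← Finset.sum_union]
    · congr 1
      ext q
      simp only [Finset.mem_union, Finset.mem_filter, Finset.mem_univ, true_and]
      constructor
      · rintro (h | h)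
        · exact h.ne
        · exact h.ne'
      · exact fun h => lt_or_gt_of_ne h
    · rw [Finset.disjoint_filter]
      intro q _ h h'
      exact absurd h (not_lt_of_gt h')
  rw [h1, h2, Finset.sum_filter, Fintype.sum_prod_type, Finset.sum_comm]
  apply Finset.sum_congr rfl
  intro i _
  rw [← Finset.sum_filter]
  have h4 : (Finset.univ.filter fun j : Fin M => j ≠ i) = Finset.univ.erase i := by
    ext j; simp
  simp only
  rw [h4, ← Finset.add_sum_erase Finset.univ a (Finset.mem_univ i)]
  omega

/-- **Packing lemma.** -/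
theorem pack (p : ℕ) [Fact p.Prime] {M : ℕ} (a : Fin M → ℕ) (ha : ∀ i, 0 < a i)
    (hσ : ∑ i, a i < p) (D : Fin M → Fin M → Finset (ZMod p))
    (hD : ∀ i j, i < j → (D i j).card ≤ a i + a j) (T : Fin M → Finset (ZMod p))
    (hT : ∀ i, ∑ j, a j - a i < (T i).card) :
    ∃ t : Fin M → ZMod p, (∀ i, t i ∈ T i) ∧ ∀ i j, i < j → t i - t j ∉ D i j := by
  classical
  set A := ∑ i, a i with hA
  have hale : ∀ i, a i ≤ A := fun i => Finset.single_le_sum (fun j _ => Nat.zero_le _) (Finset.mem_univ i)
  set e : Fin M →₀ ℕ := Finsupp.equivFunOnFinite.symm (fun i => A - a i) with he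
  have hei : ∀ i, e i = A - a i := fun i => rfl
  have hedeg : e.degree = (facs M a).card := by
    rw [Finsupp.degree_eq_sum, card_facs]
    rfl
  let l : (Σ _ : Fin M × Fin M, ℕ) → MvPolynomial (Fin M) (ZMod p) := fun q => X q.1.1 - X q.1.2
  have hl : ∀ q, (l q).totalDegree ≤ 1 := by
    intro q
    refine (totalDegree_sub _ _).trans (max_le ?_ ?_) <;> simp
  -- the reference polynomial
  let c0 : (Σ _ : Fin M × Fin M, ℕ) → ZMod p := fun q => (q.2 : ZMod p) - (a q.1.1 : ZMod p) + 1
  let Q : MvPolynomial (Fin M) (ZMod p) := ∏ q ∈ facs M a, (l q - C (c0 q))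
  have hQ : coeff e Q ≠ 0 := by
    let S : Fin M → Finset (ZMod p) := fun i => (Finset.range (A - a i + 1)).image (fun n : ℕ => (n : ZMod p))
    have hinj : ∀ m n : ℕ, m < p → n < p → (m : ZMod p) = n → m = n := by
      intro m n hm hn h
      rw [ZMod.natCast_eq_natCast_iff'] at h
      rwa [Nat.mod_eq_of_lt hm, Nat.mod_eq_of_lt hn] at h
    have hScard : ∀ i, (S i).card = e i + 1 := by
      intro i
      rw [Finset.card_image_of_injOn, Finset.card_range]
      · rfl
      · intro m hm n hn h
        rw [Finset.coe_range, Set.mem_Iio] at hm hn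
        have := ha i
        have := hale i
        exact hinj m n (by omega) (by omega) h
    let y0 : Fin M → ℕ := fun i => ∑ j with j < i, a j
    have hy0 : ∀ i, y0 i + a i ≤ A := by
      intro i
      have h1 : y0 i + a i = ∑ j ∈ insert i (Finset.univ.filter (fun j => j < i)), a j := by
        rw [Finset.sum_insert (by simp)]; exact add_comm _ _
      rw [h1]
      exact Finset.sum_le_sum_of_subset (Finset.subset_univ _)
    -- integer vanishing criterion
    have hcrit : ∀ (x : Fin M → ℕ), (∀ i, x i + a i ≤ A) → ∀ i j, i < j → ∀ r, r < a i + a j →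
        ((x i : ZMod p) - x j - ((r : ZMod p) - (a i : ZMod p) + 1) = 0 ↔
          x i + a i = x j + r + 1) := by
      intro x hx i j hij r hr
      have h1 : ((x i : ZMod p) - x j - ((r : ZMod p) - (a i : ZMod p) + 1) = 0) ↔
          (((x i + a i : ℕ) : ZMod p) = ((x j + r + 1 : ℕ) : ZMod p)) := by
        rw [← sub_eq_zero (a := ((x i + a i : ℕ) : ZMod p))]
        push_cast
        constructor
        · intro h; linear_combination h
        · intro h; linear_combination h
      rw [h1]
      constructor
      · intro h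
        have h2 := hx i
        have h3 := hx j
        have h4 := ha i
        have h5 := ha j
        have h6 := hale i
        -- both sides: x i + a i ≤ A < p ; x j + r + 1 ≤ x j + a i + a j ≤ A + a i
        by_cases h7 : x j + r + 1 < p
        · exact hinj _ _ (by omega) h7 h
        · exfalso
          have h8 : ((x i + a i : ℕ) : ZMod p) = ((x j + r + 1 - p : ℕ) : ZMod p) := by
            rw [h, Nat.cast_sub (by omega), ZMod.natCast_self, sub_zero]
          have h9 := hinj _ _ (by omega) (by omega) h8
          omega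
      · intro h; rw [h]
    apply coeff_ne_zero_of_unique Q e (by rw [hedeg]; exact totalDegree_prod_sub_C _ l hl _) S hScard (fun i => (y0 i : ZMod p))
    · intro i
      apply Finset.mem_image_of_mem
      rw [Finset.mem_range]
      have := hy0 i
      omega
    · show eval _ (∏ q ∈ facs M a, (l q - C (c0 q))) ≠ 0
      rw [map_prod, Finset.prod_ne_zero_iff]
      rintro ⟨⟨i, j⟩, r⟩ hq
      rw [facs, Finset.mem_sigma] at hq
      simp only [Finset.mem_filter, Finset.mem_univ, true_and, Finset.mem_range] at hq
      simp only [l, c0, map_sub, eval_X, eval_C]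
      rw [Ne, hcrit y0 hy0 i j hq.1 r hq.2]
      have h1 : y0 i + a i ≤ y0 j := by
        have h2 : y0 i + a i = ∑ j ∈ insert i (Finset.univ.filter (fun j => j < i)), a j := by
          rw [Finset.sum_insert (by simp)]; exact add_comm _ _
        rw [h2]
        apply Finset.sum_le_sum_of_subset
        intro l' hl'
        simp only [Finset.mem_insert, Finset.mem_filter, Finset.mem_univ, true_and] at hl' ⊢
        rcases hl' with rfl | h
        · exact hq.1
        · exact h.trans hq.1
      omega
    · intro x hx hxne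
      by_contra hne
      apply hxne
      choose z hz using fun i => Finset.mem_image.mp (hx i)
      have hz1 : ∀ i, z i + a i ≤ A := by
        intro i
        have h1 := (hz i).1
        rw [Finset.mem_range] at h1
        have := hale i
        omega
      have hxz : x = fun i => (z i : ZMod p) := by
        funext i; exact (hz i).2.symm
      have hzz : ∀ i j, i < j → z j + a j + 1 ≤ z i ∨ z i + a i ≤ z j := by
        intro i j hij
        by_contra hcon
        push Not at hcon
        apply hne
        show eval x (∏ q ∈ facs M a, (l q - C (c0 q))) = 0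
        rw [map_prod]
        apply Finset.prod_eq_zero (i := (⟨(i, j), z i + a i - z j - 1⟩ : Σ _ : Fin M × Fin M, ℕ))
        · rw [facs, Finset.mem_sigma]
          simp only [Finset.mem_filter, Finset.mem_univ, true_and, Finset.mem_range]
          refine ⟨hij, ?_⟩
          omega
        · simp only [l, c0, map_sub, eval_X, eval_C]
          rw [hxz]
          simp only
          rw [hcrit z hz1 i j hij _ (by omega)]
          omega
      have := (tile_unique a z ha hzz _ Finset.univ rfl A (fun l _ => hz1 l)).2 hA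
      rw [hxz]
      funext i
      rw [this i (Finset.mem_univ i)]
  -- the conflict polynomial
  have hcD : ∀ q : Fin M × Fin M, ∃ c : ℕ → ZMod p, q.1 < q.2 →
      ∀ d ∈ D q.1 q.2, ∃ r < a q.1 + a q.2, c r = d := by
    intro q
    by_cases hq : q.1 < q.2
    · refine ⟨fun r => (D q.1 q.2).toList.getD r 0, fun _ d hd => ?_⟩
      have h1 : d ∈ (D q.1 q.2).toList := by simpa using hd
      obtain ⟨r, hr, hrd⟩ := List.mem_iff_getElem.mp h1
      refine ⟨r, ?_, ?_⟩
      · have h2 := hD q.1 q.2 hq
        rw [Finset.length_toList] at hr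
        omega
      · simp only
        rw [List.getD_eq_getElem _ _ hr, hrd]
    · exact ⟨fun _ => 0, fun h => absurd h hq⟩
  choose cD hcD using hcD
  let P : MvPolynomial (Fin M) (ZMod p) := ∏ q ∈ facs M a, (l q - C (cD q.1 q.2))
  have hPc : coeff e P ≠ 0 := by
    have h1 : coeff e P = coeff e (∏ q ∈ facs M a, l q) := coeff_prod_sub_C _ l hl _ e hedeg
    have h2 : coeff e Q = coeff e (∏ q ∈ facs M a, l q) := coeff_prod_sub_C _ l hl _ e hedeg
    rw [h1, ← h2]
    exact hQ
  have hPd : P.totalDegree = e.degree := by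
    refine le_antisymm ?_ ?_
    · rw [hedeg]; exact totalDegree_prod_sub_C _ l hl _
    · by_contra hlt
      exact hPc (coeff_eq_zero_of_totalDegree_lt (by rw [← Finsupp.degree_apply]; omega))
  obtain ⟨t, ht, hte⟩ := combinatorial_nullstellensatz_exists_eval_nonzero P e hPc hPd T
    (fun i => by rw [hei]; exact hT i)
  refine ⟨t, ht, ?_⟩
  intro i j hij hd
  apply hte
  obtain ⟨r, hr, hrd⟩ := hcD (i, j) hij _ hd
  show eval t (∏ q ∈ facs M a, (l q - C (cD q.1 q.2))) = 0
  rw [map_prod]
  apply Finset.prod_eq_zero (i := (⟨(i, j), r⟩ : Σ _ : Fin M × Fin M, ℕ))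
  · rw [facs, Finset.mem_sigma]
    simp only [Finset.mem_filter, Finset.mem_univ, true_and, Finset.mem_range]
    exact ⟨hij, hr⟩
  · simp only [l, map_sub, eval_X, eval_C]
    rw [hrd, sub_self]

end Pool.Agent.P45
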