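import Pool.Agent.Lib.P45dba8.Block
import Pool.Agent.Lib.P45dba8.Pack

/-! # Assembly: prime order, even `k` -/

set_option autoImplicit false
set_option linter.unusedVariables false

namespace Pool.Agent.P45

open Finset

/-- Disjoint translates, all disjoint from `W`. -/
theorem packSets (p : ℕ) [Fact p.Prime] {M : ℕ} (a : Fin M → ℕ) (ha : ∀ i, 0 < a i)
    (hσ : ∑ i, a i < p) (B : Fin M → Finset (ZMod p))
    (hB : ∀ i j, i < j → ((B i ×ˢ B j).image fun q => q.2 - q.1).card ≤ a i + a j)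
    (W : Finset (ZMod p))
    (hW : ∀ i, (∑ j, a j - a i) + ((W ×ˢ B i).image fun q => q.1 - q.2).card < p) :
    ∃ t : Fin M → ZMod p, (∀ i, Disjoint ((B i).image fun v => t i + v) W) ∧
      ∀ i j, i ≠ j → Disjoint ((B i).image fun v => t i + v) ((B j).image fun v => t j + v) := by
  classical
  obtain ⟨t, h1, h2⟩ := pack p a ha hσ (fun i j => (B i ×ˢ B j).image fun q => q.2 - q.1) hB
    (fun i => Finset.univ \ ((W ×ˢ B i).image fun q => q.1 - q.2)) (by
      intro i
      rw [Finset.card_sdiff_of_subset (Finset.subset_univ _), Finset.card_univ, ZMod.card]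
      have := hW i
      omega)
  refine ⟨t, ?_, ?_⟩
  · intro i
    rw [Finset.disjoint_left]
    intro v hv hvW
    rw [Finset.mem_image] at hv
    obtain ⟨w, hw, rfl⟩ := hv
    have := h1 i
    rw [Finset.mem_sdiff] at this
    apply this.2
    rw [Finset.mem_image]
    exact ⟨(t i + w, w), Finset.mem_product.mpr ⟨hvW, hw⟩, by simp⟩
  · have key : ∀ i j, i < j →
        Disjoint ((B i).image fun v => t i + v) ((B j).image fun v => t j + v) := by
      intro i j hij
      rw [Finset.disjoint_left]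
      intro v hv hv'
      rw [Finset.mem_image] at hv hv'
      obtain ⟨w, hw, rfl⟩ := hv
      obtain ⟨w', hw', h⟩ := hv'
      apply h2 i j hij
      rw [Finset.mem_image]
      exact ⟨(w, w'), Finset.mem_product.mpr ⟨hw, hw'⟩, by simp only; linear_combination h⟩
    intro i j hij
    rcases lt_or_gt_of_ne hij with h | h
    · exact key i j h
    · exact (key j i h).symm

section Dist

variable {k : ℕ}

theorem cast_ne_zero' {s : ℕ} (hs : s ∈ Finset.Icc 1 (2 * k)) : (s : ZMod (4 * k + 1)) ≠ 0 := by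
  rw [Finset.mem_Icc] at hs
  intro h
  rw [ZMod.natCast_eq_zero_iff] at h
  have := Nat.le_of_dvd (by omega) h
  omega

theorem cast_ne {s s' : ℕ} (hs : s ∈ Finset.Icc 1 (2 * k)) (hs' : s' ∈ Finset.Icc 1 (2 * k))
    (h : s ≠ s') : (s : ZMod (4 * k + 1)) ≠ s' := by
  rw [Finset.mem_Icc] at hs hs'
  intro h'
  rw [ZMod.natCast_eq_natCast_iff'] at h'
  rw [Nat.mod_eq_of_lt (by omega), Nat.mod_eq_of_lt (by omega)] at h'
  exact h h'

theorem cast_add_ne {s s' : ℕ} (hs : s ∈ Finset.Icc 1 (2 * k)) (hs' : s' ∈ Finset.Icc 1 (2 * k)) :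
    (s : ZMod (4 * k + 1)) + s' ≠ 0 := by
  rw [Finset.mem_Icc] at hs hs'
  intro h
  have h' : ((s + s' : ℕ) : ZMod (4 * k + 1)) = 0 := by push_cast; exact h
  rw [ZMod.natCast_eq_zero_iff] at h'
  have := Nat.le_of_dvd (by omega) h'
  omega

/-- The set of differences with distance in `S`. -/
def DSet (k : ℕ) (S : Finset ℕ) : Set (ZMod (4 * k + 1)) := {δ | min δ.val (-δ).val ∈ S}

theorem mem_DSet {S : Finset ℕ} {δ : ZMod (4 * k + 1)} (h : δ ∈ DSet k S) :
    ∃ s ∈ S, δ = s ∨ δ = -s := by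
  have h' : min δ.val (-δ).val ∈ S := h
  rcases min_cases δ.val (-δ).val with ⟨h1, _⟩ | ⟨h1, _⟩
  · rw [h1] at h'
    exact ⟨_, h', Or.inl (ZMod.natCast_zmod_val δ).symm⟩
  · rw [h1] at h'
    exact ⟨_, h', Or.inr (by rw [ZMod.natCast_zmod_val, neg_neg])⟩

/-- From good layers to the colouring of the extended Petersen graph. -/
theorem xp_of_EG (k : ℕ) (S : Finset ℕ) (hS : S ⊆ Finset.Icc 1 (2 * k))
    (A : Finset (ZMod (4 * k + 1))) (hA : A.card = 2 * k) (h1 : EG (DSet k S) A)
    (h2 : EG (DSet k (Finset.Icc 1 (2 * k) \ S)) A)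
    (G : SimpleGraph (ZMod (4 * k + 1) × Fin 2))
    (hG : ∀ p q : ZMod (4 * k + 1) × Fin 2, G.Adj p q ↔
      ((p.2 = 0 ∧ q.2 = 0 ∧ min (p.1 - q.1).val (q.1 - p.1).val ∈ S) ∨
       (p.2 = 1 ∧ q.2 = 1 ∧
          min (p.1 - q.1).val (q.1 - p.1).val ∈ Finset.Icc 1 (2 * k) \ S) ∨
       (p.1 = q.1 ∧ p.2 ≠ q.2))) :
    ∃ c : Sym2 (ZMod (4 * k + 1) × Fin 2) → Fin (2 * k + 1),
      ∀ e ∈ G.edgeSet, ∀ f ∈ G.edgeSet, e ≠ f →
        (∃ v, v ∈ e ∧ v ∈ f) → c e ≠ c f := by
  apply color_main (DSet k S) (DSet k (Finset.Icc 1 (2 * k) \ S)) A h1 h2 (2 * k) hA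
  intro e he
  induction e using Sym2.ind with
  | _ u v =>
    rw [SimpleGraph.mem_edgeSet, hG] at he
    have hz : ∀ x y : ZMod (4 * k + 1), ∀ U : Finset ℕ, U ⊆ Finset.Icc 1 (2 * k) →
        min (x - y).val (y - x).val ∈ U → x ≠ y := by
      rintro x y U hU h rfl
      have h2 : min (x - x).val (x - x).val ∈ Finset.Icc 1 (2 * k) := hU h
      simp at h2
    refine ⟨u, v, rfl, ?_⟩
    rcases he with ⟨a, b, c⟩ | ⟨a, b, c⟩ | h
    · left
      refine ⟨a, b, hz _ _ S hS c, ?_⟩
      show min (v.1 - u.1).val (-(v.1 - u.1)).val ∈ S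
      rw [neg_sub, min_comm]; exact c
    · right; left
      refine ⟨a, b, hz _ _ _ Finset.sdiff_subset c, ?_⟩
      show min (v.1 - u.1).val (-(v.1 - u.1)).val ∈ Finset.Icc 1 (2 * k) \ S
      rw [neg_sub, min_comm]; exact c
    · right; right; exact h

end Dist

theorem even_case (k : ℕ) (hk : Even k) (hp : (4 * k + 1).Prime) (S : Finset ℕ)
    (hS : S ⊆ Finset.Icc 1 (2 * k)) (hc : S.card = k) :
    ∃ A : Finset (ZMod (4 * k + 1)), A.card = 2 * k ∧ EG (DSet k S) A ∧
      EG (DSet k (Finset.Icc 1 (2 * k) \ S)) A := by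
  classical
  have : Fact (4 * k + 1).Prime := ⟨hp⟩
  have hodd : Odd (4 * k + 1) := ⟨2 * k, by ring⟩
  obtain ⟨M, hM⟩ := hk
  set T := Finset.Icc 1 (2 * k) \ S with hT
  have hTI : T ⊆ Finset.Icc 1 (2 * k) := Finset.sdiff_subset
  have hcT : T.card = k := by
    rw [hT, Finset.card_sdiff_of_subset hS, Nat.card_Icc, hc]; omega
  have eS : Fin M × Fin 2 ≃ S := Fintype.equivOfCardEq (by
    rw [Fintype.card_prod, Fintype.card_fin, Fintype.card_fin, Fintype.card_coe]; omega)
  have eT : Fin M × Fin 2 ≃ T := Fintype.equivOfCardEq (by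
    rw [Fintype.card_prod, Fintype.card_fin, Fintype.card_fin, Fintype.card_coe]; omega)
  let d : Fin M → Fin 2 → ℕ := fun i b => (eS (i, b)).1
  let τ : Fin M → Fin 2 → ℕ := fun i b => (eT (i, b)).1
  have hdS : ∀ i b, d i b ∈ S := fun i b => (eS (i, b)).2
  have hτT : ∀ i b, τ i b ∈ T := fun i b => (eT (i, b)).2
  have hd01 : ∀ i, d i 0 ≠ d i 1 := by
    intro i h
    have := eS.injective (Subtype.ext h)
    simp at this
  have hτ01 : ∀ i, τ i 0 ≠ τ i 1 := by
    intro i h
    have := eT.injective (Subtype.ext h)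
    simp at this
  have hST : ∀ s ∈ S, ∀ t ∈ T, s ≠ t := by
    rintro s hs t ht rfl
    rw [hT, Finset.mem_sdiff] at ht
    exact ht.2 hs
  let B : Fin M → Finset (ZMod (4 * k + 1)) := fun i =>
    {0, (d i 0 : ZMod (4 * k + 1)), (τ i 0 : ZMod (4 * k + 1)), (τ i 0 : ZMod (4 * k + 1)) + d i 0}
  have hBcard : ∀ i, (B i).card = 4 := by
    intro i
    have h1 := cast_ne_zero' (hS (hdS i 0))
    have h2 := cast_ne_zero' (hTI (hτT i 0))
    have h3 := cast_ne (hS (hdS i 0)) (hTI (hτT i 0)) (hST _ (hdS i 0) _ (hτT i 0))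
    have h4 := cast_add_ne (hTI (hτT i 0)) (hS (hdS i 0))
    simp only [B]
    rw [Finset.card_insert_of_notMem, Finset.card_insert_of_notMem, Finset.card_insert_of_notMem,
      Finset.card_singleton]
    · rw [Finset.mem_singleton]
      intro h
      exact h1 (by linear_combination -h)
    · simp only [Finset.mem_insert, Finset.mem_singleton, not_or]
      refine ⟨h3, fun h => h2 (by linear_combination -h)⟩
    · simp only [Finset.mem_insert, Finset.mem_singleton, not_or]
      refine ⟨h1.symm, h2.symm, h4.symm⟩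
  obtain ⟨t, -, ht⟩ := packSets (4 * k + 1) (M := M) (fun _ => 8) (fun _ => by norm_num) (by
    simp; omega) B (by
      intro i j _
      refine Finset.card_image_le.trans ?_
      rw [Finset.card_product, hBcard, hBcard]) ∅ (by
      intro i; simp; omega)
  refine ⟨Finset.univ.biUnion fun i => (B i).image fun v => t i + v, ?_, ?_, ?_⟩
  · rw [Finset.card_biUnion]
    · have : ∀ i ∈ (Finset.univ : Finset (Fin M)), ((B i).image fun v => t i + v).card = 4 := by
        intro i _
        rw [Finset.card_image_of_injective _ (add_right_injective (t i)), hBcard]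
      rw [Finset.sum_congr rfl this]
      simp; omega
    · intro i _ j _ hij
      exact ht i j hij
  · have h1 : ∀ i ∈ (Finset.univ : Finset (Fin M)),
        EG ({(d i 0 : ZMod (4 * k + 1)), -(d i 0 : ZMod (4 * k + 1)), (d i 1 : ZMod (4 * k + 1)),
          -(d i 1 : ZMod (4 * k + 1))} : Set (ZMod (4 * k + 1)))
          ((B i).image fun v => t i + v) := by
      intro i _
      have h2 := cast_ne_zero' (hTI (hτT i 0))
      have h3 := cast_ne (hS (hdS i 0)) (hTI (hτT i 0)) (hST _ (hdS i 0) _ (hτT i 0))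
      have h4 := cast_add_ne (hTI (hτT i 0)) (hS (hdS i 0))
      have h5 := cast_ne (hS (hdS i 0)) (hS (hdS i 1)) (hd01 i)
      have h6 := cast_add_ne (hS (hdS i 1)) (hS (hdS i 0))
      apply (pair hodd (d i 0 : ZMod (4 * k + 1)) (d i 1) (t i) (t i + τ i 0)
        (cast_ne_zero' (hS (hdS i 0))) (cast_ne_zero' (hS (hdS i 1))) h5.symm
        (fun h => h6 (by linear_combination h)) (fun h => h2 (by linear_combination h))
        (fun h => h3 (by linear_combination -h)) (fun h => h4 (by linear_combination h))).congr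
        (fun _ h => h)
      intro v
      simp only [B, Finset.image_insert, Finset.image_singleton, add_zero, ← add_assoc]
    apply (EG.biUnion Finset.univ _ _ h1 (fun i _ j _ hij => ht i j hij)).congr _ (fun _ => Iff.rfl)
    intro δ hδ
    obtain ⟨s, hs, h⟩ := mem_DSet hδ
    obtain ⟨⟨i, b⟩, hib⟩ := eS.surjective ⟨s, hs⟩
    have hsd : s = d i b := by simp only [d]; rw [hib]
    simp only [Finset.mem_univ, Set.iUnion_true, Set.mem_iUnion]
    refine ⟨i, ?_⟩
    rw [hsd] at h
    have hb : b = 0 ∨ b = 1 := by omega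
    rcases hb with rfl | rfl <;> rcases h with h | h <;> simp [h]
  · have h1 : ∀ i ∈ (Finset.univ : Finset (Fin M)),
        EG ({(τ i 0 : ZMod (4 * k + 1)), -(τ i 0 : ZMod (4 * k + 1)), (τ i 1 : ZMod (4 * k + 1)),
          -(τ i 1 : ZMod (4 * k + 1))} : Set (ZMod (4 * k + 1)))
          ((B i).image fun v => t i + v) := by
      intro i _
      have h2 := cast_ne_zero' (hS (hdS i 0))
      have h3 := cast_ne (hS (hdS i 0)) (hTI (hτT i 0)) (hST _ (hdS i 0) _ (hτT i 0))
      have h4 := cast_add_ne (hTI (hτT i 0)) (hS (hdS i 0))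
      have h5 := cast_ne (hTI (hτT i 0)) (hTI (hτT i 1)) (hτ01 i)
      have h6 := cast_add_ne (hTI (hτT i 1)) (hTI (hτT i 0))
      apply (pair hodd (τ i 0 : ZMod (4 * k + 1)) (τ i 1) (t i) (t i + d i 0)
        (cast_ne_zero' (hTI (hτT i 0))) (cast_ne_zero' (hTI (hτT i 1))) h5.symm
        (fun h => h6 (by linear_combination h)) (fun h => h2 (by linear_combination h))
        (fun h => h3 (by linear_combination h)) (fun h => h4 (by linear_combination h))).congr
        (fun _ h => h)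
      intro v
      have e1 : t i + ((τ i 0 : ZMod (4 * k + 1)) + d i 0) = t i + d i 0 + τ i 0 := by ring
      simp only [B, Finset.image_insert, Finset.image_singleton, add_zero, e1]
      simp only [Finset.mem_insert, Finset.mem_singleton]
      tauto
    apply (EG.biUnion Finset.univ _ _ h1 (fun i _ j _ hij => ht i j hij)).congr _ (fun _ => Iff.rfl)
    intro δ hδ
    obtain ⟨s, hs, h⟩ := mem_DSet hδ
    obtain ⟨⟨i, b⟩, hib⟩ := eT.surjective ⟨s, hs⟩
    have hsd : s = τ i b := by simp only [τ]; rw [hib]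
    simp only [Finset.mem_univ, Set.iUnion_true, Set.mem_iUnion]
    refine ⟨i, ?_⟩
    rw [hsd] at h
    have hb : b = 0 ∨ b = 1 := by omega
    rcases hb with rfl | rfl <;> rcases h with h | h <;> simp [h]

end Pool.Agent.P45
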