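import Pool.Agent.Lib.P45dba8.Exch

/-! # MP_45dba8: `k` even, `3 ∣ n`, the plain zigzag: the conditions for the multiples of `3`

At most one of the two sides has more multiples of `3` than pairs; this side gets a pair outside
`3 ℤ` by exchanges. -/

set_option autoImplicit false

namespace Pool.Agent.P45

/-- The family of the pairs `(d, σ d)` of labels is good. -/
def GoodLab (k : ℕ) (D : Finset ℕ) (σ : ℕ → ℕ) : Prop :=
  Good (4 * k + 1) IsUnit
    (fun i : {i // i ∈ (∅ : Finset ℕ)} => ((2 * i.1 : ℕ) : ZMod (4 * k + 1)))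
    (fun d : {d // d ∈ D} => ((2 * d.1 : ℕ) : ZMod (4 * k + 1)))
    (fun d : {d // d ∈ D} => ((2 * σ d.1 : ℕ) : ZMod (4 * k + 1)))

/-- At least `p` pairs, one of them outside `3 ℤ`: good for a suitable bijection. -/
def HostOK (k p : ℕ) : Prop := ∀ D U : Finset ℕ, D ⊆ Finset.Icc 1 (2 * k) →
  U ⊆ Finset.Icc 1 (2 * k) → Disjoint D U → D.card = U.card → p ≤ D.card →
  ∀ b ∈ D, ¬ 3 ∣ b → ∀ c ∈ U, ¬ 3 ∣ c → ∃ σ : ℕ → ℕ, Set.BijOn σ D U ∧ GoodLab k D σ

/-- At least `p` pairs and not more multiples of `3` than pairs: good for a suitable bijection. -/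
def FreeOK (k p : ℕ) : Prop := ∀ D U : Finset ℕ, D ⊆ Finset.Icc 1 (2 * k) →
  U ⊆ Finset.Icc 1 (2 * k) → Disjoint D U → D.card = U.card → p ≤ D.card →
  ((D ∪ U).filter (fun j => 3 ∣ j)).card ≤ D.card →
  ∃ σ : ℕ → ℕ, Set.BijOn σ D U ∧ GoodLab k D σ

/-- Of two labels outside `3 ℤ` one is coprime to `n`. -/
def UnitOK (k : ℕ) : Prop := ∀ a b : ℕ, a ≠ b → 1 ≤ a → a < 2 * k → 1 ≤ b → b < 2 * k →
  ¬ 3 ∣ a → ¬ 3 ∣ b → Nat.gcd (4 * k + 1) a = 1 ∨ Nat.gcd (4 * k + 1) b = 1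

theorem filter_count {A B : Finset ℕ} (hB : B ⊆ A) (p : ℕ → Prop) [DecidablePred p] :
    (B.filter p).card + ((A \ B).filter p).card = (A.filter p).card := by
  rw [← Finset.card_union_of_disjoint, ← Finset.filter_union, Finset.union_sdiff_of_subset hB]
  exact Finset.disjoint_filter_filter Finset.disjoint_sdiff

section

variable {k q : ℕ} (hk : k = 2 * q) (hq : 4 ≤ q) (S T : Finset ℕ) (hd : Disjoint S T)
  (hU : S ∪ T = Finset.Icc 1 (2 * k)) (hcS : S.card = k) (hcT : T.card = k) (h2k : 2 * k ∈ T)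

include hk hq hd hU hcS hcT h2k

/-- Case A: the side `S` has at least `q + 1` multiples of `3`. -/
theorem even3_A (hH : HostOK k (q - 1)) (hF : FreeOK k (q - 1)) (hu : UnitOK k)
    (J : ℕ → ℕ) (hJ : AltW S T (2 * k) (k - 1) J)
    (h2 : 2 ≤ (S.filter (fun j => ¬ 3 ∣ j)).card)
    (h3 : (T.filter (fun j => 3 ∣ j)).card + 2 ≤ q) :
    ∃ A : Finset (ZMod (4 * k + 1)), A.card = 2 * k ∧ EG (LSet k S) A ∧ EG (LSet k T) A := by
  classical
  have hSsub : S ⊆ Finset.Icc 1 (2 * k) := hU ▸ Finset.subset_union_left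
  have hTsub : T ⊆ Finset.Icc 1 (2 * k) := hU ▸ Finset.subset_union_right
  have hS1 : ∀ s ∈ S, 1 ≤ s ∧ s < 2 * k := by
    intro s hs
    have h := Finset.mem_Icc.1 (hSsub hs)
    have h' : s ≠ 2 * k := fun h' => Finset.disjoint_left.1 hd hs (h' ▸ h2k)
    omega
  have hc : ∀ j, 1 ≤ j → j < 2 * k → j ∈ S ∨ j ∈ T := by
    intro j h1 h2
    have : j ∈ S ∪ T := by rw [hU, Finset.mem_Icc]; omega
    exact Finset.mem_union.1 this
  have e1 : k - 1 = 2 * q - 1 := by omega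
  obtain ⟨D, hDS, hDc, hsep, ⟨b, hbD, hb3⟩, c, hcU, hc3⟩ := exch_S S T (zDS q J) (2 * k) hd hS1 hc
    (fun j => 3 ∣ j) (fun j h1 h2 => by omega) (zDS_sub hk (by omega) hJ)
    (AltW.sepS (e1 ▸ hJ)) (by rw [card_zDS hk (by omega) hJ, hcS, hk]; omega)
    (Finset.card_pos.1 (by rw [card_zDS hk (by omega) hJ]; omega)) h2
  rw [card_zDS hk (by omega) hJ] at hDc
  obtain ⟨J', hJ', hD'⟩ := altW_of_sep S T (q - 1) D (2 * k) (by omega) hDS
    (fun d hd => hS1 d (hDS hd)) hsep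
  rw [show 2 * (q - 1) + 1 = k - 1 by omega] at hJ'
  rw [show q - 1 + 1 = q by omega] at hD'
  have hDT := zDT_sub hk hJ'
  have cDT := card_zDT hk hJ'
  have h2kn : 2 * k ∉ zDT q J' := by
    intro h
    have := zDT_lt hk hJ' h
    omega
  -- the unused labels of `T`
  have hsub : zDT q J' ∪ {2 * k} ⊆ T := by
    intro x hx
    rcases Finset.mem_union.1 hx with h | h
    · exact hDT h
    · rw [Finset.mem_singleton.1 h]; exact h2k
  have cU : (T \ (zDT q J' ∪ {2 * k})).card = q := by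
    rw [Finset.card_sdiff_of_subset hsub, Finset.card_union_of_disjoint
      (by rw [Finset.disjoint_singleton_right]; exact h2kn), cDT, Finset.card_singleton, hcT]
    omega
  have hU3 : ((T \ (zDT q J' ∪ {2 * k})).filter (fun j => 3 ∣ j)).card + 2 ≤ q := by
    have : ((T \ (zDT q J' ∪ {2 * k})).filter (fun j => 3 ∣ j)).card ≤
        (T.filter (fun j => 3 ∣ j)).card :=
      Finset.card_le_card (Finset.filter_subset_filter _ Finset.sdiff_subset)
    omega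
  have hUn : 2 ≤ ((T \ (zDT q J' ∪ {2 * k})).filter (fun j => ¬ 3 ∣ j)).card := by
    have := Finset.card_filter_add_card_filter_not (s := T \ (zDT q J' ∪ {2 * k}))
      (fun j => 3 ∣ j)
    omega
  obtain ⟨x, hx, y, hy, hxy⟩ := Finset.one_lt_card.1 hUn
  have hmem : ∀ z, z ∈ (T \ (zDT q J' ∪ {2 * k})).filter (fun j => ¬ 3 ∣ j) →
      z ∈ T ∧ z ∉ zDT q J' ∧ z ≠ 2 * k ∧ 1 ≤ z ∧ z < 2 * k ∧ ¬ 3 ∣ z := by
    intro z hz
    rw [Finset.mem_filter, Finset.mem_sdiff, Finset.mem_union, Finset.mem_singleton] at hz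
    have h4 := Finset.mem_Icc.1 (hTsub hz.1.1)
    have h5 : z ≠ 2 * k := fun h => hz.1.2 (Or.inr h)
    exact ⟨hz.1.1, fun h => hz.1.2 (Or.inl h), h5, h4.1, by omega, hz.2⟩
  obtain ⟨u₀, hu₀T, hu₀D, hu₀k, hu₀g⟩ : ∃ u₀ ∈ T, u₀ ∉ zDT q J' ∧ u₀ ≠ 2 * k ∧
      Nat.gcd (4 * k + 1) u₀ = 1 := by
    have h4 := hmem x hx
    have h5 := hmem y hy
    rcases hu x y hxy h4.2.2.2.1 h4.2.2.2.2.1 h5.2.2.2.1 h5.2.2.2.2.1 h4.2.2.2.2.2
      h5.2.2.2.2.2 with h | h
    · exact ⟨x, h4.1, h4.2.1, h4.2.2.1, h⟩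
    · exact ⟨y, h5.1, h5.2.1, h5.2.2.1, h⟩
  have hsub' : zDT q J' ∪ {2 * k, u₀} ⊆ T := by
    intro z hz
    rcases Finset.mem_union.1 hz with h | h
    · exact hDT h
    · rw [Finset.mem_insert, Finset.mem_singleton] at h
      rcases h with rfl | rfl
      · exact h2k
      · exact hu₀T
  have cU' : (T \ (zDT q J' ∪ {2 * k, u₀})).card = q - 1 := by
    rw [Finset.card_sdiff_of_subset hsub', Finset.card_union_of_disjoint, cDT,
      Finset.card_pair (Ne.symm hu₀k), hcT]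
    · omega
    · rw [Finset.disjoint_right]
      intro z hz
      rw [Finset.mem_insert, Finset.mem_singleton] at hz
      rcases hz with rfl | rfl
      · exact h2kn
      · exact hu₀D
  obtain ⟨σ, hσ, hGS⟩ := hH D (S \ D) (hDS.trans hSsub) (Finset.sdiff_subset.trans hSsub)
    Finset.disjoint_sdiff (by
      rw [Finset.card_sdiff_of_subset hDS, hDc, hcS, hk]
      omega) (by omega) b hbD hb3 c hcU hc3
  obtain ⟨τ, hτ, hGT⟩ := hF (zDT q J') (T \ (zDT q J' ∪ {2 * k, u₀})) (hDT.trans hTsub)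
    (Finset.sdiff_subset.trans hTsub) (by
      rw [Finset.disjoint_right]
      intro z hz hz'
      exact (Finset.mem_sdiff.1 hz).2 (Finset.mem_union_left _ hz')) (by rw [cDT, cU'])
    (by omega) (by
      rw [cDT]
      have : ((zDT q J' ∪ (T \ (zDT q J' ∪ {2 * k, u₀}))).filter (fun j => 3 ∣ j)).card ≤
          (T.filter (fun j => 3 ∣ j)).card := by
        refine Finset.card_le_card (Finset.filter_subset_filter _ ?_)
        intro z hz
        rcases Finset.mem_union.1 hz with h | h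
        · exact hDT h
        · exact (Finset.mem_sdiff.1 h).1
      omega)
  rw [← hD'] at hσ hGS
  exact zig_even k q hk (by omega) S T hU h2k J' hJ' u₀ hu₀T hu₀k σ τ hσ hτ hGS hGT
    (Or.inl hu₀g)

/-- Case B1: not too many multiples of `3` in `S`; a label of `T` outside `3 ℤ` between two labels
of `S`. -/
theorem even3_B1 (h3n : (4 * k + 1) % 3 = 0) (hH : HostOK k (q - 1)) (hF : FreeOK k (q - 1))
    (hu : UnitOK k) (J : ℕ → ℕ) (hJ : AltW S T (2 * k) (k - 1) J)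
    (h1 : (S.filter (fun j => 3 ∣ j)).card ≤ q)
    (h3 : 3 ≤ ((T.erase (2 * k)).filter (fun j => ¬ 3 ∣ j)).card)
    (u s s' : ℕ) (huT : u ∈ T) (hu3 : ¬ 3 ∣ u) (hs : s ∈ S) (hs' : s' ∈ S) (hsu : s < u)
    (hus : u < s') :
    ∃ A : Finset (ZMod (4 * k + 1)), A.card = 2 * k ∧ EG (LSet k S) A ∧ EG (LSet k T) A := by
  classical
  have hSsub : S ⊆ Finset.Icc 1 (2 * k) := hU ▸ Finset.subset_union_left
  have hTsub : T ⊆ Finset.Icc 1 (2 * k) := hU ▸ Finset.subset_union_right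
  have hc : ∀ j, 1 ≤ j → j ≤ 2 * k → j ∈ S ∨ j ∈ T := by
    intro j h1 h2
    have : j ∈ S ∪ T := by rw [hU, Finset.mem_Icc]; omega
    exact Finset.mem_union.1 this
  have e1 : k - 1 = 2 * q - 1 := by omega
  have h2kn : 2 * k ∉ zDT q J := by
    intro h
    have := zDT_lt hk hJ h
    omega
  obtain ⟨D, hDT, hDc, hsep, ⟨b, hbD, hb3⟩, h4⟩ := exch_T hd (by omega) h2k
    (fun s hs => Finset.mem_Icc.1 (hSsub hs)) (fun t ht => Finset.mem_Icc.1 (hTsub ht)) hc h3 u s s'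
    huT hu3 hs hs' hsu hus (q - 1) (by omega) (by
      rw [Finset.card_erase_of_mem h2k, hcT]
      omega) _ (zDT q J) rfl (card_zDT hk hJ) (by
      intro x hx
      exact Finset.mem_erase.2 ⟨fun h => h2kn (h ▸ hx), zDT_sub hk hJ hx⟩)
    (AltW.sepT (by omega) (e1 ▸ hJ))
  have hDT' : D ⊆ T := hDT.trans (Finset.erase_subset _ _)
  have hD1 : ∀ d ∈ D, 0 < d ∧ d < 2 * k := by
    intro d hdD
    have h5 := Finset.mem_Icc.1 (hTsub (hDT' hdD))
    have h6 := Finset.ne_of_mem_erase (hDT hdD)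
    omega
  obtain ⟨J', hJ', hD', -⟩ := altW_of_sepT S T (q - 1) D 0 (2 * k) hDc hDT' (by omega) hD1 hsep
  rw [show 2 * (q - 1) + 1 = k - 1 by omega] at hJ'
  rw [show q - 1 + 1 = q by omega] at hD'
  obtain ⟨x, hx, y, hy, hxy⟩ := Finset.one_lt_card.1 h4
  have hmem : ∀ z, z ∈ (T.erase (2 * k) \ D).filter (fun j => ¬ 3 ∣ j) →
      z ∈ T ∧ z ∉ D ∧ z ≠ 2 * k ∧ 1 ≤ z ∧ z < 2 * k ∧ ¬ 3 ∣ z := by
    intro z hz
    rw [Finset.mem_filter, Finset.mem_sdiff, Finset.mem_erase] at hz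
    have h4 := Finset.mem_Icc.1 (hTsub hz.1.1.2)
    exact ⟨hz.1.1.2, hz.1.2, hz.1.1.1, h4.1, by omega, hz.2⟩
  obtain ⟨u₀, c, ⟨hu₀T, hu₀D, hu₀k, hu₀1, hu₀2, hu₀3⟩, ⟨hcT', hcD, hck, hc1, hc2, hc3⟩, huc,
      hu₀g⟩ : ∃ u₀ c, (u₀ ∈ T ∧ u₀ ∉ D ∧ u₀ ≠ 2 * k ∧ 1 ≤ u₀ ∧ u₀ < 2 * k ∧ ¬ 3 ∣ u₀) ∧
      (c ∈ T ∧ c ∉ D ∧ c ≠ 2 * k ∧ 1 ≤ c ∧ c < 2 * k ∧ ¬ 3 ∣ c) ∧ u₀ ≠ c ∧
      Nat.gcd (4 * k + 1) u₀ = 1 := by
    have h4 := hmem x hx
    have h5 := hmem y hy
    rcases hu x y hxy h4.2.2.2.1 h4.2.2.2.2.1 h5.2.2.2.1 h5.2.2.2.2.1 h4.2.2.2.2.2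
      h5.2.2.2.2.2 with h | h
    · exact ⟨x, y, h4, h5, hxy, h⟩
    · exact ⟨y, x, h5, h4, hxy.symm, h⟩
  have h2kD : 2 * k ∉ D := fun h => Finset.ne_of_mem_erase (hDT h) rfl
  have hsub' : D ∪ {2 * k, u₀} ⊆ T := by
    intro z hz
    rcases Finset.mem_union.1 hz with h | h
    · exact hDT' h
    · rw [Finset.mem_insert, Finset.mem_singleton] at h
      rcases h with rfl | rfl
      · exact h2k
      · exact hu₀T
  have cU' : (T \ (D ∪ {2 * k, u₀})).card = q - 1 := by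
    rw [Finset.card_sdiff_of_subset hsub', Finset.card_union_of_disjoint, hDc,
      Finset.card_pair (Ne.symm hu₀k), hcT]
    · omega
    · rw [Finset.disjoint_right]
      intro z hz
      rw [Finset.mem_insert, Finset.mem_singleton] at hz
      rcases hz with rfl | rfl
      · exact h2kD
      · exact hu₀D
  obtain ⟨τ, hτ, hGT⟩ := hH D (T \ (D ∪ {2 * k, u₀})) (hDT'.trans hTsub)
    (Finset.sdiff_subset.trans hTsub) (by
      rw [Finset.disjoint_right]
      intro z hz hz'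
      exact (Finset.mem_sdiff.1 hz).2 (Finset.mem_union_left _ hz')) (by rw [hDc, cU'])
    (by omega) b hbD hb3 c (by
      rw [Finset.mem_sdiff, Finset.mem_union, Finset.mem_insert, Finset.mem_singleton]
      refine ⟨hcT', ?_⟩
      rintro (h | h | h)
      · exact hcD h
      · exact hck h
      · exact huc h.symm) hc3
  have hDSs := zDS_sub hk (by omega) hJ'
  obtain ⟨σ, hσ, hGS⟩ := hF (zDS q J') (S \ zDS q J') (hDSs.trans hSsub)
    (Finset.sdiff_subset.trans hSsub) Finset.disjoint_sdiff (by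
      rw [Finset.card_sdiff_of_subset hDSs, card_zDS hk (by omega) hJ', hcS, hk]
      omega) (by rw [card_zDS hk (by omega) hJ']; omega) (by
      rw [Finset.union_sdiff_of_subset hDSs, card_zDS hk (by omega) hJ']
      exact h1)
  rw [← hD'] at hτ hGT
  exact zig_even k q hk (by omega) S T hU h2k J' hJ' u₀ hu₀T hu₀k σ τ hσ hτ hGS hGT
    (Or.inl hu₀g)

/-- The last step of the cases with all doubled labels of `T` in `3 ℤ`. -/
theorem even3_top (h3n : (4 * k + 1) % 3 = 0) (hH : HostOK k (q - 1)) (hF : FreeOK k (q - 1))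
    (J : ℕ → ℕ) (hJ : AltW S T (2 * k) (k - 1) J)
    (h1 : (S.filter (fun j => 3 ∣ j)).card ≤ q)
    (hall : ∀ d ∈ zDT q J, 3 ∣ d)
    (h3 : 1 ≤ ((T.erase (2 * k)).filter (fun j => ¬ 3 ∣ j)).card)
    (hW : IsCoprime (zz (fun i => (J i : ℤ)) (k - 1)) (4 * k + 1 : ℤ)) :
    ∃ A : Finset (ZMod (4 * k + 1)), A.card = 2 * k ∧ EG (LSet k S) A ∧ EG (LSet k T) A := by
  classical
  have hSsub : S ⊆ Finset.Icc 1 (2 * k) := hU ▸ Finset.subset_union_left
  have hTsub : T ⊆ Finset.Icc 1 (2 * k) := hU ▸ Finset.subset_union_right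
  have hDT := zDT_sub hk hJ
  have cDT := card_zDT hk hJ
  have h2kn : 2 * k ∉ zDT q J := by
    intro h
    have := zDT_lt hk hJ h
    omega
  have hsub : insert (2 * k) (zDT q J) ⊆ T := by
    intro x hx
    rcases Finset.mem_insert.1 hx with rfl | hx
    · exact h2k
    · exact hDT hx
  have cD : (insert (2 * k) (zDT q J)).card = q := by
    rw [Finset.card_insert_of_notMem h2kn, cDT]
    omega
  obtain ⟨c, hc⟩ : ((T.erase (2 * k)).filter (fun j => ¬ 3 ∣ j)).Nonempty :=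
    Finset.card_pos.1 (by omega)
  rw [Finset.mem_filter, Finset.mem_erase] at hc
  obtain ⟨τ, hτ, hGT⟩ := hH (insert (2 * k) (zDT q J)) (T \ insert (2 * k) (zDT q J))
    (hsub.trans hTsub) (Finset.sdiff_subset.trans hTsub) Finset.disjoint_sdiff (by
      rw [Finset.card_sdiff_of_subset hsub, cD, hcT, hk]
      omega) (by omega) (2 * k) (Finset.mem_insert_self _ _) (by omega) c (by
      rw [Finset.mem_sdiff, Finset.mem_insert]
      refine ⟨hc.1.2, ?_⟩
      rintro (h | h)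
      · exact hc.1.1 h
      · exact hc.2 (hall c h)) hc.2
  have hDSs := zDS_sub hk (by omega) hJ
  obtain ⟨σ, hσ, hGS⟩ := hF (zDS q J) (S \ zDS q J) (hDSs.trans hSsub)
    (Finset.sdiff_subset.trans hSsub) Finset.disjoint_sdiff (by
      rw [Finset.card_sdiff_of_subset hDSs, card_zDS hk (by omega) hJ, hcS, hk]
      omega) (by rw [card_zDS hk (by omega) hJ]; omega) (by
      rw [Finset.union_sdiff_of_subset hDSs, card_zDS hk (by omega) hJ]
      exact h1)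
  exact zig_even_top k q hk (by omega) S T hU h2k J hJ σ τ hσ hτ hGS hGT hW

end

end Pool.Agent.P45
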