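import Pool.Agent.Lib.P45dba8.PlanEx

/-! # MP_45dba8: a plan from counting (greedy choice of the hosts) -/

set_option autoImplicit false

namespace Pool.Agent.P45

variable {ι κ : Type*} {t : ι → ℕ} {a b : κ → ℕ}

/-- Greedy choice: `T` a set of divisors, the pair `k0` avoids `h0`, for the other divisors there
are at least `2 |T|` pairs which avoid them; every single has value `1` or the value of a pair
different from `k0`. -/
theorem plan_count {n : ℕ} [Fintype κ] [DecidableEq κ] (T : Finset ℕ) (h0 : ℕ) (h0T : h0 ∈ T)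
    (k0 : κ) (hdvd : ∀ h ∈ T, h ∣ n) (hone : ∀ h ∈ T, 1 < h)
    (hT : ∀ h ∈ T, ∀ k : κ, av t a b h (Sum.inr k) →
      nx t a b h (Sum.inr k) = 1 ∨ nx t a b h (Sum.inr k) ∈ T)
    (val : ∀ x, nx t a b n x = 1 ∨ nx t a b n x ∈ T)
    (hk0 : ¬ h0 ∣ a k0 ∧ ¬ h0 ∣ b k0)
    (cnt : ∀ h ∈ T, h ≠ h0 → 2 * T.card ≤
      ((Finset.univ : Finset κ).filter (fun k => ¬ h ∣ a k ∧ ¬ h ∣ b k)).card)
    (sing : ∀ i, nx t a b n (Sum.inl i) = 1 ∨
      ∃ k, k ≠ k0 ∧ nx t a b n (Sum.inr k) = nx t a b n (Sum.inl i)) :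
    ∃ H π, H ⊆ T ∧ Plan n t a b H π := by
  classical
  -- the anchors
  let α : ℕ → κ := fun v => if h : ∃ k, k ≠ k0 ∧ nx t a b n (Sum.inr k) = v then h.choose else k0
  have hα : ∀ v, (∃ k, k ≠ k0 ∧ nx t a b n (Sum.inr k) = v) →
      α v ≠ k0 ∧ nx t a b n (Sum.inr (α v)) = v := by
    intro v hv
    have e : α v = hv.choose := dif_pos hv
    rw [e]
    exact hv.choose_spec
  let ex : Finset κ := insert k0 (T.image α)
  have hex : ex.card ≤ T.card + 1 :=
    (Finset.card_insert_le _ _).trans (Nat.add_le_add_right Finset.card_image_le 1)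
  let avl : {h // h ∈ T.erase h0} → Finset κ := fun h =>
    ((Finset.univ : Finset κ).filter (fun k => ¬ h.1 ∣ a k ∧ ¬ h.1 ∣ b k)) \ ex
  have havl : ∀ h, T.card - 1 ≤ (avl h).card := by
    intro h
    have h1 := cnt h.1 (Finset.mem_of_mem_erase h.2) (Finset.ne_of_mem_erase h.2)
    have h2 := Finset.le_card_sdiff ex
      ((Finset.univ : Finset κ).filter (fun k => ¬ h.1 ∣ a k ∧ ¬ h.1 ∣ b k))
    have h3 : (avl h).card = (((Finset.univ : Finset κ).filter
      (fun k => ¬ h.1 ∣ a k ∧ ¬ h.1 ∣ b k)) \ ex).card := rfl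
    omega
  obtain ⟨f, hfi, hf⟩ := (Finset.all_card_le_biUnion_card_iff_exists_injective avl).1 (by
    intro s
    rcases s.eq_empty_or_nonempty with rfl | ⟨h, hs⟩
    · simp
    · have h1 : s.card ≤ (T.erase h0).card := by
        have := Finset.card_le_univ s
        rwa [Fintype.card_coe] at this
      rw [Finset.card_erase_of_mem h0T] at h1
      exact (h1.trans (havl h)).trans (Finset.card_le_card (Finset.subset_biUnion_of_mem avl hs)))
  have hf1 : ∀ h, (¬ h.1 ∣ a (f h) ∧ ¬ h.1 ∣ b (f h)) ∧ f h ≠ k0 ∧ ∀ v ∈ T, f h ≠ α v := by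
    intro h
    have h1 := hf h
    rw [Finset.mem_sdiff, Finset.mem_filter] at h1
    refine ⟨h1.1.2, ?_, ?_⟩
    · intro h2
      apply h1.2
      rw [h2]
      exact Finset.mem_insert_self _ _
    · intro v hv h2
      apply h1.2
      rw [h2]
      exact Finset.mem_insert_of_mem (Finset.mem_image_of_mem _ hv)
  let p : ℕ → κ := fun h => if hh : h ∈ T.erase h0 then f ⟨h, hh⟩ else k0
  have p0 : p h0 = k0 := dif_neg (by simp)
  have p1 : ∀ h (hh : h ∈ T.erase h0), p h = f ⟨h, hh⟩ := fun h hh => dif_pos hh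
  have pα : ∀ h ∈ T, ∀ v ∈ T, α v ≠ k0 → p h ≠ α v := by
    intro h hh v hv hα0
    by_cases he : h = h0
    · rw [he, p0]
      exact hα0.symm
    · rw [p1 h (Finset.mem_erase.2 ⟨he, hh⟩)]
      exact (hf1 _).2.2 v hv
  have hav : ∀ h ∈ T, ¬ h ∣ a (p h) ∧ ¬ h ∣ b (p h) := by
    intro h hh
    by_cases he : h = h0
    · rw [he, p0]
      exact hk0
    · have he' := Finset.mem_erase.2 ⟨he, hh⟩
      rw [p1 h he']
      exact (hf1 ⟨h, he'⟩).1
  have key : ∃ H, H ⊆ T ∧ Plan n t a b H (fun h => Sum.inr (p h)) := by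
    refine exists_plan T (fun h => Sum.inr (p h)) h0 hdvd hone ?_ (fun h hh => hav h hh)
      (fun h hh => hT h hh _ (hav h hh)) val ?_ (fun _ i => by simp) ?_
    · intro h hh h' hh' he
      have he1 : p h = p h' := Sum.inr_injective he
      by_cases e1 : h = h0
      · by_cases e2 : h' = h0
        · rw [e1, e2]
        · exfalso
          rw [e1, p0, p1 h' (Finset.mem_erase.2 ⟨e2, hh'⟩)] at he1
          exact (hf1 _).2.1 he1.symm
      · by_cases e2 : h' = h0
        · exfalso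
          rw [e2, p0, p1 h (Finset.mem_erase.2 ⟨e1, hh⟩)] at he1
          exact (hf1 _).2.1 he1
        · rw [p1 h (Finset.mem_erase.2 ⟨e1, hh⟩), p1 h' (Finset.mem_erase.2 ⟨e2, hh'⟩)] at he1
          exact congrArg Subtype.val (hfi he1)
    · intro h hh hne
      rcases val (Sum.inr (p h)) with h1 | h1
      · exact Or.inl h1
      · right
        have hpk : p h ≠ k0 := by
          rw [p1 h (Finset.mem_erase.2 ⟨hne, hh⟩)]
          exact (hf1 _).2.1
        obtain ⟨g1, g2⟩ := hα _ ⟨p h, hpk, rfl⟩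
        refine ⟨Sum.inr (α (nx t a b n (Sum.inr (p h)))), ?_, g2⟩
        intro h' hh' he
        exact pα h' hh' _ h1 g1 (Sum.inr_injective he)
    · intro i _ hne
      right
      rcases sing i with h1 | ⟨k, hk, hk'⟩
      · exact absurd h1 hne
      · have hv : nx t a b n (Sum.inl i) ∈ T := by
          rcases val (Sum.inl i) with h2 | h2
          · exact absurd h2 hne
          · exact h2
        obtain ⟨g1, g2⟩ := hα _ ⟨k, hk, hk'⟩
        refine ⟨Sum.inr (α (nx t a b n (Sum.inl i))), by simp, ?_, g2⟩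
        intro h' hh' he
        exact pα h' hh' _ hv g1 (Sum.inr_injective he)
  obtain ⟨H, hH, P⟩ := key
  exact ⟨H, _, hH, P⟩

/-- The proper divisors different from `1`. -/
def PD (n : ℕ) : Finset ℕ := n.divisors.filter (fun h => 1 < h ∧ h < n)

theorem mem_PD {n h : ℕ} (hn : 0 < n) : h ∈ PD n ↔ h ∣ n ∧ 1 < h ∧ h < n := by
  rw [PD, Finset.mem_filter, Nat.mem_divisors]
  exact ⟨fun h => ⟨h.1.1, h.2⟩, fun h => ⟨⟨h.1, by omega⟩, h.2⟩⟩

theorem nx_val {n : ℕ} (hn : 0 < n) (hD : TDist n t a b) (x : ι ⊕ κ) :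
    nx t a b n x = 1 ∨ nx t a b n x ∈ PD n := by
  have h1 := nx_dvd (t := t) (a := a) (b := b) n x
  have h2 : nx t a b n x ≠ n := by
    intro h
    rcases x with i | k
    · apply hD.1 (Sum.inl i)
      show ((t i : ℕ) : ZMod n) = 0
      rw [ZMod.natCast_eq_zero_iff]
      have h3 := Nat.gcd_dvd_right n (t i)
      have h4 : Nat.gcd n (t i) = n := h
      rwa [h4] at h3
    · apply hD.1 (Sum.inr (k, true))
      show ((b k : ℕ) : ZMod n) = 0
      rw [ZMod.natCast_eq_zero_iff]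
      have h3 := Nat.gcd_dvd_right (Nat.gcd n (a k)) (b k)
      have h4 : Nat.gcd (Nat.gcd n (a k)) (b k) = n := h
      rwa [h4] at h3
  have h3 := Nat.le_of_dvd hn h1
  have h4 : 0 < nx t a b n x := Nat.pos_of_dvd_of_pos h1 hn
  by_cases h5 : nx t a b n x = 1
  · exact Or.inl h5
  · exact Or.inr ((mem_PD hn).2 ⟨h1, by omega, by omega⟩)

/-- All divisors: at least `2 |PD n|` pairs avoid `h`, for every proper divisor `h ≠ h0`; one pair
avoids `h0`. -/
theorem good_count {n : ℕ} (hn : Odd n) [Fintype κ] [DecidableEq κ] (hD : TDist n t a b)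
    (h0 : ℕ) (h0T : h0 ∈ PD n) (k0 : κ) (hk0 : ¬ h0 ∣ a k0 ∧ ¬ h0 ∣ b k0)
    (cnt : ∀ h ∈ PD n, h ≠ h0 → 2 * (PD n).card ≤
      ((Finset.univ : Finset κ).filter (fun k => ¬ h ∣ a k ∧ ¬ h ∣ b k)).card)
    (sing : ∀ i, nx t a b n (Sum.inl i) = 1 ∨
      ∃ k, k ≠ k0 ∧ nx t a b n (Sum.inr k) = nx t a b n (Sum.inl i)) :
    Good n IsUnit (fun i => ((t i : ℕ) : ZMod n)) (fun k => ((a k : ℕ) : ZMod n))
      (fun k => ((b k : ℕ) : ZMod n)) := by
  have hn0 : 0 < n := hn.pos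
  obtain ⟨H, π, -, P⟩ := plan_count (n := n) (t := t) (PD n) h0 h0T k0
    (fun h hh => ((mem_PD hn0).1 hh).1) (fun h hh => ((mem_PD hn0).1 hh).2.1)
    (fun h hh k hk => by
      have h1 := (mem_PD hn0).1 hh
      have h2 := nx_dvd (t := t) (a := a) (b := b) h (Sum.inr k)
      have h3 := Nat.le_of_dvd (by omega) h2
      have h4 : 0 < nx t a b h (Sum.inr k) := Nat.pos_of_dvd_of_pos h2 (by omega)
      by_cases h5 : nx t a b h (Sum.inr k) = 1
      · exact Or.inl h5
      · exact Or.inr ((mem_PD hn0).2 ⟨h2.trans h1.1, by omega, by omega⟩))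
    (nx_val hn0 hD) hk0 cnt sing
  exact P.good hn hD

/-- No proper divisor: `n` is a prime. -/
theorem good_prime {n : ℕ} (hn : Odd n) (hD : TDist n t a b) (h0T : PD n = ∅) :
    Good n IsUnit (fun i => ((t i : ℕ) : ZMod n)) (fun k => ((a k : ℕ) : ZMod n))
      (fun k => ((b k : ℕ) : ZMod n)) := by
  have hn0 : 0 < n := hn.pos
  have hv : ∀ x, nx t a b n x = 1 := by
    intro x
    rcases nx_val hn0 hD x with h | h
    · exact h
    · rw [h0T] at h
      exact absurd h (Finset.notMem_empty _)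
  rcases isEmpty_or_nonempty (ι ⊕ κ) with hE | ⟨⟨x0⟩⟩
  · have h1 : IsEmpty ι := ⟨fun i => hE.false (Sum.inl i)⟩
    have h2 : IsEmpty κ := ⟨fun i => hE.false (Sum.inr i)⟩
    exact good_empty _ _ _
  · refine Plan.good (H := ∅) (π := fun _ => x0) hn hD ?_
    refine ⟨?_, ?_, ?_, ?_, ?_, fun x _ => Or.inl (hv x), ?_, ?_⟩ <;> simp

end Pool.Agent.P45
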