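import Pool.Agent.Lib.P45dba8.Bridge
import Pool.Agent.Lib.P45dba8.PlanCount

/-! # MP_45dba8: sides of labels are good (counting of multiples) -/

set_option autoImplicit false

namespace Pool.Agent.P45

/-- Number of multiples of a divisor `h` of `4k+1` in `[1, 2k]`. -/
theorem card_mult (k h : ℕ) (hh : h ∣ 4 * k + 1) :
    ((Finset.Icc 1 (2 * k)).filter (fun j => h ∣ j)).card = ((4 * k + 1) / h - 1) / 2 := by
  have e1 : Finset.Icc 1 (2 * k) = Finset.Ioc 0 (2 * k) := by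
    ext j
    rw [Finset.mem_Icc, Finset.mem_Ioc]
    omega
  rw [e1, Nat.Ioc_filter_dvd_card_eq_div]
  obtain ⟨q, hq⟩ := hh
  have hh0 : 0 < h := Nat.pos_of_ne_zero (by rintro rfl; omega)
  rw [hq, Nat.mul_div_cancel_left _ hh0]
  have hodd : Odd (h * q) := by rw [← hq]; exact ⟨2 * k, by ring⟩
  obtain ⟨h1, h2⟩ := Nat.odd_mul.1 hodd
  obtain ⟨c, hc⟩ := h1
  obtain ⟨d, hd⟩ := h2
  have e2 : 2 * k = h * d + c := by
    have : h * q = 2 * (h * d + c) + 1 := by
      rw [hd]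
      have : h * (2 * d + 1) = 2 * (h * d) + h := by ring
      rw [this]
      omega
    omega
  have e3 : (q - 1) / 2 = d := by omega
  rw [e3, e2, Nat.add_comm, Nat.add_mul_div_left _ _ hh0]
  have : c / h = 0 := Nat.div_eq_of_lt (by omega)
  omega

theorem dvd_two_mul_iff {k h j : ℕ} (hh : h ∣ 4 * k + 1) : h ∣ 2 * j ↔ h ∣ j := by
  have : Nat.Coprime h 2 := by
    have hodd : Odd h := Odd.of_dvd_nat ⟨2 * k, by ring⟩ hh
    exact Nat.Coprime.symm (Nat.coprime_two_left.2 hodd)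
  exact this.dvd_mul_left

section side

variable {k : ℕ} {I D U : Finset ℕ} {σ : ℕ → ℕ}

/-- Labels are distinct types. -/
theorem labels_TDist (hI : I ⊆ Finset.Icc 1 (2 * k)) (hD : D ⊆ Finset.Icc 1 (2 * k))
    (hU : U ⊆ Finset.Icc 1 (2 * k)) (hDU : Disjoint D U) (hID : Disjoint I D)
    (hIU : Disjoint I U) (hσ : Set.BijOn σ D U) :
    TDist (4 * k + 1) (fun i : {i // i ∈ I} => 2 * i.1) (fun d : {d // d ∈ D} => 2 * d.1)
      (fun d : {d // d ∈ D} => 2 * σ d.1) := by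
  -- the label of a type
  let lab : {i // i ∈ I} ⊕ {d // d ∈ D} × Bool → ℕ :=
    Sum.elim (fun i => i.1) (fun d => bif d.2 then σ d.1.1 else d.1.1)
  have h1 : ∀ x, typ (fun i : {i // i ∈ I} => 2 * i.1) (fun d : {d // d ∈ D} => 2 * d.1)
      (fun d : {d // d ∈ D} => 2 * σ d.1) x = 2 * lab x := by
    rintro (i | ⟨d, b⟩)
    · rfl
    · cases b <;> rfl
  have h2 : ∀ x, lab x ∈ Finset.Icc 1 (2 * k) := by
    rintro (i | ⟨d, b⟩)
    · exact hI i.2
    · cases b
      · exact hD d.2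
      · exact hU (hσ.mapsTo d.2)
  have h3 : Function.Injective lab := by
    rintro (i | ⟨d, b⟩) (i' | ⟨d', b'⟩) h
    · exact congrArg _ (Subtype.ext h)
    · exfalso
      cases b'
      · have h' : i.1 = d'.1 := h
        exact Finset.disjoint_left.1 hID i.2 (by rw [h']; exact d'.2)
      · have h' : i.1 = σ d'.1 := h
        exact Finset.disjoint_left.1 hIU i.2 (by rw [h']; exact hσ.mapsTo d'.2)
    · exfalso
      cases b
      · have h' : d.1 = i'.1 := h
        exact Finset.disjoint_left.1 hID i'.2 (by rw [← h']; exact d.2)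
      · have h' : σ d.1 = i'.1 := h
        exact Finset.disjoint_left.1 hIU i'.2 (by rw [← h']; exact hσ.mapsTo d.2)
    · cases b <;> cases b'
      · have h' : d.1 = d'.1 := h
        rw [Subtype.ext h']
      · exfalso
        have h' : d.1 = σ d'.1 := h
        exact Finset.disjoint_left.1 hDU d.2 (by rw [h']; exact hσ.mapsTo d'.2)
      · exfalso
        have h' : σ d.1 = d'.1 := h
        exact Finset.disjoint_left.1 hDU d'.2 (by rw [← h']; exact hσ.mapsTo d.2)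
      · have h' : σ d.1 = σ d'.1 := h
        rw [Subtype.ext (hσ.injOn d.2 d'.2 h')]
  have h4 : IsUnit (2 : ZMod (4 * k + 1)) := IsUnit.of_mul_eq_one _ (two_inv k)
  refine ⟨?_, ?_⟩
  · intro x
    rw [h1]
    push_cast
    intro h
    rw [h4.mul_right_eq_zero] at h
    exact cast_ne_zero' (h2 x) h
  · intro x y hxy
    rw [h1, h1]
    push_cast
    refine ⟨fun h => ?_, fun h => ?_⟩
    · exact cast_ne (h2 x) (h2 y) (h3.ne hxy) (h4.mul_left_cancel h)
    · rw [← mul_neg] at h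
      have h5 := h4.mul_left_cancel h
      exact cast_add_ne (h2 x) (h2 y) (by rw [h5]; ring)

/-- Number of pairs which avoid `h`. -/
theorem avoid_card (hD : D ⊆ Finset.Icc 1 (2 * k)) (hU : U ⊆ Finset.Icc 1 (2 * k))
    (hDU : Disjoint D U) (hσ : Set.BijOn σ D U) {h : ℕ} (hh : h ∣ 4 * k + 1) :
    D.card ≤ ((Finset.univ : Finset {d // d ∈ D}).filter
      (fun d => ¬ h ∣ 2 * d.1 ∧ ¬ h ∣ 2 * σ d.1)).card + ((4 * k + 1) / h - 1) / 2 := by
  classical
  have e0 : ((Finset.univ : Finset {d // d ∈ D}).filter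
      (fun d => ¬ h ∣ 2 * d.1 ∧ ¬ h ∣ 2 * σ d.1)).card =
      (D.filter (fun d => ¬ h ∣ d ∧ ¬ h ∣ σ d)).card := by
    have e1 : ((Finset.univ : Finset {d // d ∈ D}).filter
      (fun d => ¬ h ∣ 2 * d.1 ∧ ¬ h ∣ 2 * σ d.1)).map (Function.Embedding.subtype _) =
      D.filter (fun d => ¬ h ∣ d ∧ ¬ h ∣ σ d) := by
      ext x
      simp only [Finset.mem_map, Finset.mem_filter, Finset.mem_univ, true_and,
        Function.Embedding.subtype_apply, Subtype.exists, exists_and_right, exists_eq_right,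
        dvd_two_mul_iff hh]
      constructor
      · rintro ⟨⟨hx, h1⟩, h2⟩
        exact ⟨hx, h1, h2⟩
      · rintro ⟨hx, h1, h2⟩
        exact ⟨⟨hx, h1⟩, h2⟩
    rw [← e1, Finset.card_map]
  rw [e0, ← card_mult k h hh]
  have e2 : D = D.filter (fun d => ¬ h ∣ d ∧ ¬ h ∣ σ d) ∪
      (D.filter (fun d => h ∣ d) ∪ D.filter (fun d => h ∣ σ d)) := by
    ext x
    simp only [Finset.mem_union, Finset.mem_filter]
    tauto
  have e3 : D.card ≤ (D.filter (fun d => ¬ h ∣ d ∧ ¬ h ∣ σ d)).card +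
      ((D.filter (fun d => h ∣ d)).card + (D.filter (fun d => h ∣ σ d)).card) := by
    conv_lhs => rw [e2]
    refine (Finset.card_union_le _ _).trans (Nat.add_le_add_left (Finset.card_union_le _ _) _)
  have e4 : (D.filter (fun d => h ∣ σ d)).card ≤ (U.filter (fun d => h ∣ d)).card := by
    refine Finset.card_le_card_of_injOn σ ?_ ?_
    · intro d hd
      obtain ⟨h1, h2⟩ := Finset.mem_filter.1 hd
      exact Finset.mem_filter.2 ⟨hσ.mapsTo h1, h2⟩
    · intro d hd d' hd' hdd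
      exact hσ.injOn (Finset.mem_filter.1 hd).1 (Finset.mem_filter.1 hd').1 hdd
  have e5 : (D.filter (fun d => h ∣ d)).card + (U.filter (fun d => h ∣ d)).card ≤
      ((Finset.Icc 1 (2 * k)).filter (fun j => h ∣ j)).card := by
    rw [← Finset.card_union_of_disjoint]
    · refine Finset.card_le_card ?_
      intro x hx
      rcases Finset.mem_union.1 hx with hx | hx
      · exact Finset.mem_filter.2 ⟨hD (Finset.mem_filter.1 hx).1, (Finset.mem_filter.1 hx).2⟩
      · exact Finset.mem_filter.2 ⟨hU (Finset.mem_filter.1 hx).1, (Finset.mem_filter.1 hx).2⟩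
    · rw [Finset.disjoint_left]
      intro x hx hx'
      exact Finset.disjoint_left.1 hDU (Finset.mem_filter.1 hx).1 (Finset.mem_filter.1 hx').1
  omega

theorem nx_two {t : {i // i ∈ I} → ℕ} {h : ℕ} (hh : h ∣ 4 * k + 1) (d : {d // d ∈ D}) :
    nx t (fun d : {d // d ∈ D} => 2 * d.1) (fun d : {d // d ∈ D} => 2 * σ d.1) h (Sum.inr d) =
      Nat.gcd (Nat.gcd h d.1) (σ d.1) := by
  have hc : ∀ g j, g ∣ h → Nat.gcd g (2 * j) = Nat.gcd g j := by
    intro g j hg
    have : Nat.Coprime g 2 := by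
      have hodd : Odd g := Odd.of_dvd_nat ⟨2 * k, by ring⟩ (hg.trans hh)
      exact Nat.Coprime.symm (Nat.coprime_two_left.2 hodd)
    exact this.symm.gcd_mul_left_cancel_right j
  show Nat.gcd (Nat.gcd h (2 * d.1)) (2 * σ d.1) = _
  rw [hc h _ dvd_rfl, hc _ _ (Nat.gcd_dvd_left _ _)]

/-- (A): any bijection, all divisors. `I` are the singles. -/
theorem side_good_all (hI : I ⊆ Finset.Icc 1 (2 * k)) (hD : D ⊆ Finset.Icc 1 (2 * k))
    (hU : U ⊆ Finset.Icc 1 (2 * k)) (hDU : Disjoint D U) (hID : Disjoint I D)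
    (hIU : Disjoint I U) (hσ : Set.BijOn σ D U) (h0 : ℕ) (h0T : h0 ∈ PD (4 * k + 1))
    (b0 : ℕ) (hb0 : b0 ∈ D) (hb : ¬ h0 ∣ b0) (hc : ¬ h0 ∣ σ b0)
    (cnt : ∀ h ∈ PD (4 * k + 1), h ≠ h0 →
      2 * (PD (4 * k + 1)).card + ((4 * k + 1) / h - 1) / 2 ≤ D.card)
    (sing : ∀ i ∈ I, Nat.gcd (4 * k + 1) i = 1 ∨ ∃ d ∈ D, d ≠ b0 ∧
      Nat.gcd (Nat.gcd (4 * k + 1) d) (σ d) = Nat.gcd (4 * k + 1) i) :
    Good (4 * k + 1) IsUnit (fun i : {i // i ∈ I} => ((2 * i.1 : ℕ) : ZMod (4 * k + 1)))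
      (fun d : {d // d ∈ D} => ((2 * d.1 : ℕ) : ZMod (4 * k + 1)))
      (fun d : {d // d ∈ D} => ((2 * σ d.1 : ℕ) : ZMod (4 * k + 1))) := by
  classical
  have hodd : Odd (4 * k + 1) := ⟨2 * k, by ring⟩
  have h0n : h0 ∣ 4 * k + 1 := ((mem_PD (by omega)).1 h0T).1
  refine good_count hodd (labels_TDist hI hD hU hDU hID hIU hσ) h0 h0T ⟨b0, hb0⟩ ?_ ?_ ?_
  · show ¬ h0 ∣ 2 * b0 ∧ ¬ h0 ∣ 2 * σ b0
    rw [dvd_two_mul_iff h0n, dvd_two_mul_iff h0n]
    exact ⟨hb, hc⟩
  · intro h hh hne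
    have h1 := avoid_card hD hU hDU hσ ((mem_PD (by omega)).1 hh).1
    have h2 := cnt h hh hne
    have h3 : ((Finset.univ : Finset {d // d ∈ D}).filter
      (fun d => ¬ h ∣ 2 * d.1 ∧ ¬ h ∣ 2 * σ d.1)).card =
      ((Finset.univ : Finset {d // d ∈ D}).filter
      (fun d => ¬ h ∣ (fun d : {d // d ∈ D} => 2 * d.1) d ∧
        ¬ h ∣ (fun d : {d // d ∈ D} => 2 * σ d.1) d)).card := rfl
    omega
  · intro i
    have h2i : Nat.gcd (4 * k + 1) (2 * i.1) = Nat.gcd (4 * k + 1) i.1 :=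
      (Nat.coprime_two_left.2 hodd).gcd_mul_left_cancel_right i.1
    rcases sing i.1 i.2 with h | ⟨d, hd, h1, h2⟩
    · left
      show Nat.gcd (4 * k + 1) (2 * i.1) = 1
      rw [h2i, h]
    · right
      refine ⟨⟨d, hd⟩, fun h => h1 (congrArg Subtype.val h), ?_⟩
      rw [nx_two dvd_rfl]
      show _ = Nat.gcd (4 * k + 1) (2 * i.1)
      rw [h2i, h2]

/-- A bijection with a prescribed pair and a label with the property `p` in every other pair. -/
theorem exists_bij_prop (D U : Finset ℕ) (hc : D.card = U.card) (p : ℕ → Prop) [DecidablePred p]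
    (b0 c0 : ℕ) (hb0 : b0 ∈ D) (hc0 : c0 ∈ U)
    (hcnt : ((D.erase b0).filter (fun j => ¬ p j)).card +
      ((U.erase c0).filter (fun j => ¬ p j)).card ≤ (D.erase b0).card) :
    ∃ σ : ℕ → ℕ, Set.BijOn σ D U ∧ σ b0 = c0 ∧ ∀ d ∈ D, d ≠ b0 → p d ∨ p (σ d) := by
  classical
  have hce : (D.erase b0).card = (U.erase c0).card := by
    rw [Finset.card_erase_of_mem hb0, Finset.card_erase_of_mem hc0, hc]
  let avl : {d // d ∈ D.erase b0} → Finset ℕ := fun d =>
    if p d.1 then U.erase c0 else (U.erase c0).filter p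
  have hsub : ∀ d, avl d ⊆ U.erase c0 := by
    intro d
    show (if p d.1 then U.erase c0 else (U.erase c0).filter p) ⊆ _
    split_ifs
    · exact fun _ h => h
    · exact Finset.filter_subset _ _
  obtain ⟨f, hfi, hf⟩ := (Finset.all_card_le_biUnion_card_iff_exists_injective avl).1 (by
    intro s
    by_cases hs : ∃ d ∈ s, p d.1
    · obtain ⟨d, hd, hpd⟩ := hs
      have h1 : s.card ≤ (D.erase b0).card := by
        have := Finset.card_le_univ s
        rwa [Fintype.card_coe] at this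
      have h2 : avl d = U.erase c0 := if_pos hpd
      have h3 := Finset.card_le_card (Finset.subset_biUnion_of_mem avl hd)
      rw [h2] at h3
      omega
    · push Not at hs
      rcases s.eq_empty_or_nonempty with rfl | ⟨d, hd⟩
      · simp
      have h1 : s.card ≤ ((D.erase b0).filter (fun j => ¬ p j)).card := by
        rw [← Finset.card_map (Function.Embedding.subtype _)]
        refine Finset.card_le_card ?_
        intro x hx
        obtain ⟨y, hy, rfl⟩ := Finset.mem_map.1 hx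
        exact Finset.mem_filter.2 ⟨y.2, hs y hy⟩
      have h2 : avl d = (U.erase c0).filter p := if_neg (hs d hd)
      have h3 := Finset.card_le_card (Finset.subset_biUnion_of_mem avl hd)
      have h4 := Finset.card_filter_add_card_filter_not (s := U.erase c0) p
      rw [h2] at h3
      omega)
  let σ : ℕ → ℕ := fun d => if hd : d ∈ D.erase b0 then f ⟨d, hd⟩ else c0
  have s0 : σ b0 = c0 := dif_neg (by simp)
  have s1 : ∀ d (hd : d ∈ D.erase b0), σ d = f ⟨d, hd⟩ := fun d hd => dif_pos hd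
  have hmaps : Set.MapsTo σ (D : Set ℕ) (U : Set ℕ) := by
    intro d hd
    by_cases h : d = b0
    · rw [h, s0]; exact hc0
    · rw [s1 d (Finset.mem_erase.2 ⟨h, hd⟩)]
      exact Finset.mem_of_mem_erase (hsub _ (hf _))
  have hinj : Set.InjOn σ (D : Set ℕ) := by
    intro d hd d' hd' h
    by_cases h1 : d = b0
    · by_cases h2 : d' = b0
      · rw [h1, h2]
      · exfalso
        rw [h1, s0, s1 d' (Finset.mem_erase.2 ⟨h2, hd'⟩)] at h
        exact Finset.ne_of_mem_erase (hsub _ (hf ⟨d', Finset.mem_erase.2 ⟨h2, hd'⟩⟩)) h.symm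
    · by_cases h2 : d' = b0
      · exfalso
        rw [h2, s0, s1 d (Finset.mem_erase.2 ⟨h1, hd⟩)] at h
        exact Finset.ne_of_mem_erase (hsub _ (hf ⟨d, Finset.mem_erase.2 ⟨h1, hd⟩⟩)) h
      · rw [s1 d (Finset.mem_erase.2 ⟨h1, hd⟩), s1 d' (Finset.mem_erase.2 ⟨h2, hd'⟩)] at h
        exact congrArg Subtype.val (hfi h)
  refine ⟨σ, ⟨hmaps, hinj, ?_⟩, s0, ?_⟩
  · have h1 : D.image σ = U := by
      refine Finset.eq_of_subset_of_card_le ?_ ?_
      · intro x hx
        obtain ⟨d, hd, rfl⟩ := Finset.mem_image.1 hx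
        exact hmaps hd
      · rw [Finset.card_image_of_injOn hinj, hc]
    intro x hx
    have h2 : x ∈ D.image σ := by rw [h1]; exact hx
    obtain ⟨d, hd, rfl⟩ := Finset.mem_image.1 h2
    exact ⟨d, hd, rfl⟩
  · intro d hd hne
    have h1 := hf ⟨d, Finset.mem_erase.2 ⟨hne, hd⟩⟩
    by_cases h2 : p d
    · exact Or.inl h2
    · right
      have h3 : avl ⟨d, Finset.mem_erase.2 ⟨hne, hd⟩⟩ = (U.erase c0).filter p := if_neg h2
      rw [h3] at h1
      rw [s1 d (Finset.mem_erase.2 ⟨hne, hd⟩)]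
      exact (Finset.mem_filter.1 h1).2

/-- Simple labels: the gcd with `n` is `1` or a prime. -/
def Simp (n j : ℕ) : Prop := Nat.gcd n j = 1 ∨ (Nat.gcd n j).Prime

instance (n : ℕ) : DecidablePred (Simp n) := fun j => by unfold Simp; infer_instance

/-- (B): all values are `1` or primes; the hosts are taken for the primes only. -/
theorem side_good_primes (hI : I ⊆ Finset.Icc 1 (2 * k)) (hD : D ⊆ Finset.Icc 1 (2 * k))
    (hU : U ⊆ Finset.Icc 1 (2 * k)) (hDU : Disjoint D U) (hID : Disjoint I D)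
    (hIU : Disjoint I U) (hσ : Set.BijOn σ D U) (h0 : ℕ) (h0T : h0 ∈ (4 * k + 1).primeFactors)
    (b0 : ℕ) (hb0 : b0 ∈ D) (hb : ¬ h0 ∣ b0) (hc : ¬ h0 ∣ σ b0)
    (cnt : ∀ h ∈ (4 * k + 1).primeFactors, h ≠ h0 →
      2 * (4 * k + 1).primeFactors.card + ((4 * k + 1) / h - 1) / 2 ≤ D.card)
    (hval : ∀ d ∈ D, Nat.gcd (Nat.gcd (4 * k + 1) d) (σ d) = 1 ∨
      (Nat.gcd (Nat.gcd (4 * k + 1) d) (σ d)).Prime)
    (sing : ∀ i ∈ I, Nat.gcd (4 * k + 1) i = 1 ∨ ((Nat.gcd (4 * k + 1) i).Prime ∧ ∃ d ∈ D,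
      d ≠ b0 ∧ Nat.gcd (Nat.gcd (4 * k + 1) d) (σ d) = Nat.gcd (4 * k + 1) i)) :
    Good (4 * k + 1) IsUnit (fun i : {i // i ∈ I} => ((2 * i.1 : ℕ) : ZMod (4 * k + 1)))
      (fun d : {d // d ∈ D} => ((2 * d.1 : ℕ) : ZMod (4 * k + 1)))
      (fun d : {d // d ∈ D} => ((2 * σ d.1 : ℕ) : ZMod (4 * k + 1))) := by
  classical
  have hodd : Odd (4 * k + 1) := ⟨2 * k, by ring⟩
  have hTm : ∀ h, h ∈ (4 * k + 1).primeFactors ↔ h.Prime ∧ h ∣ 4 * k + 1 := by
    intro h
    rw [Nat.mem_primeFactors]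
    exact ⟨fun h => ⟨h.1, h.2.1⟩, fun h => ⟨h.1, h.2, by omega⟩⟩
  have h0n : h0 ∣ 4 * k + 1 := ((hTm h0).1 h0T).2
  have h2i : ∀ i, Nat.gcd (4 * k + 1) (2 * i) = Nat.gcd (4 * k + 1) i := fun i =>
    (Nat.coprime_two_left.2 hodd).gcd_mul_left_cancel_right i
  obtain ⟨H, π, -, P⟩ := plan_count (n := 4 * k + 1) (t := fun i : {i // i ∈ I} => 2 * i.1)
    (a := fun d : {d // d ∈ D} => 2 * d.1) (b := fun d : {d // d ∈ D} => 2 * σ d.1)
    (4 * k + 1).primeFactors h0 h0T ⟨b0, hb0⟩ (fun h hh => ((hTm h).1 hh).2)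
    (fun h hh => ((hTm h).1 hh).1.one_lt)
    (fun h hh d hd => by
      left
      have h1 := ((hTm h).1 hh).1
      have h2 : ¬ h ∣ 2 * d.1 := hd.1
      show Nat.gcd (Nat.gcd h (2 * d.1)) (2 * σ d.1) = 1
      rw [(Nat.Prime.coprime_iff_not_dvd h1).2 h2]
      exact Nat.gcd_one_left _)
    (fun x => by
      rcases x with i | d
      · show Nat.gcd (4 * k + 1) (2 * i.1) = 1 ∨ Nat.gcd (4 * k + 1) (2 * i.1) ∈ _
        rw [h2i]
        rcases sing i.1 i.2 with h | ⟨h, -⟩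
        · exact Or.inl h
        · exact Or.inr ((hTm _).2 ⟨h, Nat.gcd_dvd_left _ _⟩)
      · rw [nx_two dvd_rfl]
        rcases hval d.1 d.2 with h | h
        · exact Or.inl h
        · exact Or.inr ((hTm _).2 ⟨h, (Nat.gcd_dvd_left _ _).trans (Nat.gcd_dvd_left _ _)⟩))
    (by
      show ¬ h0 ∣ 2 * b0 ∧ ¬ h0 ∣ 2 * σ b0
      rw [dvd_two_mul_iff h0n, dvd_two_mul_iff h0n]
      exact ⟨hb, hc⟩)
    (fun h hh hne => by
      have h1 := avoid_card hD hU hDU hσ ((hTm h).1 hh).2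
      have h2 := cnt h hh hne
      have h3 : ((Finset.univ : Finset {d // d ∈ D}).filter
        (fun d => ¬ h ∣ 2 * d.1 ∧ ¬ h ∣ 2 * σ d.1)).card =
        ((Finset.univ : Finset {d // d ∈ D}).filter
        (fun d => ¬ h ∣ (fun d : {d // d ∈ D} => 2 * d.1) d ∧
          ¬ h ∣ (fun d : {d // d ∈ D} => 2 * σ d.1) d)).card := rfl
      omega)
    (fun i => by
      rcases sing i.1 i.2 with h | ⟨-, d, hd, h1, h2⟩
      · left
        show Nat.gcd (4 * k + 1) (2 * i.1) = 1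
        rw [h2i, h]
      · right
        refine ⟨⟨d, hd⟩, fun h => h1 (congrArg Subtype.val h), ?_⟩
        rw [nx_two dvd_rfl]
        show _ = Nat.gcd (4 * k + 1) (2 * i.1)
        rw [h2i, h2])
  exact P.good hodd (labels_TDist hI hD hU hDU hID hIU hσ)

/-- The value of a pair with a simple label is `1` or a prime. -/
theorem val_of_simp {n d u : ℕ} (h : Simp n d ∨ Simp n u) :
    Nat.gcd (Nat.gcd n d) u = 1 ∨ (Nat.gcd (Nat.gcd n d) u).Prime := by
  have key : ∀ g : ℕ, Nat.gcd (Nat.gcd n d) u ∣ g → (g = 1 ∨ g.Prime) →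
      Nat.gcd (Nat.gcd n d) u = 1 ∨ (Nat.gcd (Nat.gcd n d) u).Prime := by
    rintro g hg (h1 | h1)
    · left
      rw [h1] at hg
      exact Nat.dvd_one.1 hg
    · rcases (Nat.dvd_prime h1).1 hg with h2 | h2
      · exact Or.inl h2
      · right
        rw [h2]
        exact h1
  rcases h with h | h
  · exact key _ (Nat.gcd_dvd_left _ _) h
  · refine key (Nat.gcd n u) ?_ h
    exact Nat.dvd_gcd ((Nat.gcd_dvd_left _ _).trans (Nat.gcd_dvd_left _ _)) (Nat.gcd_dvd_right _ _)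

end side

end Pool.Agent.P45
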