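import Pool.Agent.Lib.P45dba8.ODefs

/-! # The alternating sequence of boundaries (MODULE P45dba8.OSeq, 0.8 h)

`S`, `T` are disjoint and cover `[1, N]`, `N ∈ T`. A boundary is a `j ∈ [1, N-1]` such that `j` and
`j + 1` lie on different sides. If there are at least `m` boundaries below `N`, then there is an
`AltSeq` of length `m` (definition in `ODefs`): the top `m` boundaries in decreasing order.

Proof: induction on `m`, generalising `S`, `T`, `N`. `m = 0`: nothing to prove. Step: the filter is
nonempty; let `j` be its maximum (`Finset.max'`). No boundary lies in `(j, N-1]`, so all of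
`j+1, ..., N` are on the same side (downward induction from `N`), hence `j + 1 ∈ T` and therefore
`j ∈ S`. The boundaries in `[1, j-1]` are all boundaries except `j`, so there are at least
`m - 1` of them; apply the induction hypothesis with `S` and `T` exchanged and `N := j`
(note `j ∈ S`), which gives `J'`; put `J 0 = j`, `J (i+1) = J' i`. (For the exchanged roles the
filter predicate is the same up to `Or.comm`.) -/

set_option autoImplicit false

namespace Pool.Agent.P45

theorem alt_seq (m : ℕ) (S T : Finset ℕ) (N : ℕ) (hd : Disjoint S T)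
    (hc : ∀ j, 1 ≤ j → j ≤ N → j ∈ S ∨ j ∈ T) (hN : N ∈ T)
    (hm : m ≤ ((Finset.Icc 1 (N - 1)).filter
      (fun j => (j ∈ S ∧ j + 1 ∈ T) ∨ (j ∈ T ∧ j + 1 ∈ S))).card) :
    ∃ J : ℕ → ℕ, AltSeq S T N m J := by
  classical
  induction m generalizing S T N with
  | zero =>
    exact ⟨fun _ => 0, fun i hi => absurd hi (Nat.not_lt_zero _),
      fun i hi => absurd hi (Nat.not_lt_zero _), fun i hi => absurd hi (Nat.not_lt_zero _),
      fun i hi => absurd hi (Nat.not_lt_zero _)⟩
  | succ m ih =>
    have hne : ((Finset.Icc 1 (N - 1)).filter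
        (fun j => (j ∈ S ∧ j + 1 ∈ T) ∨ (j ∈ T ∧ j + 1 ∈ S))).Nonempty :=
      Finset.card_pos.1 (by omega)
    obtain ⟨j, hjF, hjm⟩ : ∃ j ∈ (Finset.Icc 1 (N - 1)).filter
        (fun j => (j ∈ S ∧ j + 1 ∈ T) ∨ (j ∈ T ∧ j + 1 ∈ S)),
        ∀ i ∈ (Finset.Icc 1 (N - 1)).filter
        (fun j => (j ∈ S ∧ j + 1 ∈ T) ∨ (j ∈ T ∧ j + 1 ∈ S)), i ≤ j :=
      ⟨_, Finset.max'_mem _ hne, fun i hi => Finset.le_max' _ i hi⟩
    rw [Finset.mem_filter, Finset.mem_Icc] at hjF
    obtain ⟨⟨hj1, hjN⟩, hjb⟩ := hjF
    have hdown : ∀ d, j + 1 + d ≤ N → N - d ∈ T := by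
      intro d
      induction d with
      | zero => intro _; exact hN
      | succ d ihd =>
        intro h
        have h1 := ihd (by omega)
        rcases hc (N - (d + 1)) (by omega) (by omega) with h2 | h2
        · exfalso
          have h3 : N - (d + 1) ∈ (Finset.Icc 1 (N - 1)).filter
              (fun j => (j ∈ S ∧ j + 1 ∈ T) ∨ (j ∈ T ∧ j + 1 ∈ S)) := by
            rw [Finset.mem_filter, Finset.mem_Icc]
            refine ⟨⟨by omega, by omega⟩, Or.inl ⟨h2, ?_⟩⟩
            rwa [show N - (d + 1) + 1 = N - d by omega]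
          have h4 := hjm _ h3
          omega
        · exact h2
    have hj1T : j + 1 ∈ T := by
      have h := hdown (N - (j + 1)) (by omega)
      rwa [show N - (N - (j + 1)) = j + 1 by omega] at h
    have hjS : j ∈ S := by
      rcases hjb with h | h
      · exact h.1
      · exact absurd h.2 (Finset.disjoint_right.1 hd hj1T)
    have hcard : m ≤ ((Finset.Icc 1 (j - 1)).filter
        (fun i => (i ∈ T ∧ i + 1 ∈ S) ∨ (i ∈ S ∧ i + 1 ∈ T))).card := by
      have hsub : (Finset.Icc 1 (N - 1)).filter
          (fun j => (j ∈ S ∧ j + 1 ∈ T) ∨ (j ∈ T ∧ j + 1 ∈ S)) ⊆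
          insert j ((Finset.Icc 1 (j - 1)).filter
            (fun i => (i ∈ T ∧ i + 1 ∈ S) ∨ (i ∈ S ∧ i + 1 ∈ T))) := by
        intro i hi
        have h1 := hjm i hi
        rw [Finset.mem_filter, Finset.mem_Icc] at hi
        rw [Finset.mem_insert, Finset.mem_filter, Finset.mem_Icc]
        by_cases hij : i = j
        · exact Or.inl hij
        · exact Or.inr ⟨⟨hi.1.1, by omega⟩, hi.2.symm⟩
      have h2 := (Finset.card_le_card hsub).trans (Finset.card_insert_le _ _)
      omega
    obtain ⟨J', hJ1, hJ2, hJ3, hJ4⟩ := ih T S j hd.symm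
      (fun i h1 h2 => (hc i h1 (by omega)).symm) hjS hcard
    refine ⟨fun i => Nat.casesOn i j J', ?_, ?_, ?_, ?_⟩
    · intro i hi
      cases i with
      | zero => exact ⟨hj1, by change j < N; omega⟩
      | succ i =>
        have h := hJ1 i (by omega)
        exact ⟨h.1, by change J' i < N; omega⟩
    · intro i hi
      cases i with
      | zero => exact (hJ1 0 (by omega)).2
      | succ i => exact hJ2 i (by omega)
    · intro i hi he
      cases i with
      | zero => exact ⟨hjS, hj1T⟩
      | succ i => exact hJ4 i (by omega) (by rw [Nat.even_add_one] at he; exact Nat.not_even_iff_odd.1 he)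
    · intro i hi ho
      cases i with
      | zero => exact absurd ho (by decide)
      | succ i => exact hJ3 i (by omega) (by rw [Nat.odd_add_one] at ho; exact Nat.not_odd_iff_even.1 ho)

end Pool.Agent.P45
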