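import Pool.Agent.Lib.P45dba8.Avg
import Pool.Agent.Lib.P45dba8.Avg45
import Pool.Agent.Lib.P45dba8.Bridge
import Pool.Agent.Lib.P45dba8.OSeq

/-! # MP_45dba8: from the autocorrelation to the boundaries and runs of the word of labels -/

set_option autoImplicit false

namespace Pool.Agent.P45

/-- The boundaries in `[1, N-1]` of the word with the sides `S`, `T`. -/
def Bd (S T : Finset ℕ) (N : ℕ) : Finset ℕ :=
  (Finset.Icc 1 (N - 1)).filter (fun j => (j ∈ S ∧ j + 1 ∈ T) ∨ (j ∈ T ∧ j + 1 ∈ S))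

theorem mem_Bd {S T : Finset ℕ} {N j : ℕ} : j ∈ Bd S T N ↔
    (1 ≤ j ∧ j ≤ N - 1) ∧ ((j ∈ S ∧ j + 1 ∈ T) ∨ (j ∈ T ∧ j + 1 ∈ S)) := by
  rw [Bd, Finset.mem_filter, Finset.mem_Icc]

theorem Bd_comm (S T : Finset ℕ) (N : ℕ) : Bd S T N = Bd T S N := by
  ext j
  rw [mem_Bd, mem_Bd]
  exact and_congr_right fun _ => or_comm

/-- Number of boundaries of the two kinds: `S|T` and `T|S`, in a word which ends in `T`. The first
number is also the number of `S`-runs, the second is the number of `T`-runs minus one. -/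
theorem runs_count (S T : Finset ℕ) (hd : Disjoint S T) (N : ℕ)
    (hc : ∀ j, 1 ≤ j → j ≤ N → j ∈ S ∨ j ∈ T) (h1 : 1 ≤ N) :
    (N ∈ T → 1 ∈ S → ((Finset.Icc 1 (N - 1)).filter (fun j => j ∈ S ∧ j + 1 ∈ T)).card =
      ((Finset.Icc 1 (N - 1)).filter (fun j => j ∈ T ∧ j + 1 ∈ S)).card + 1) ∧
    (N ∈ T → 1 ∈ T → ((Finset.Icc 1 (N - 1)).filter (fun j => j ∈ S ∧ j + 1 ∈ T)).card =
      ((Finset.Icc 1 (N - 1)).filter (fun j => j ∈ T ∧ j + 1 ∈ S)).card) ∧
    (N ∈ S → 1 ∈ S → ((Finset.Icc 1 (N - 1)).filter (fun j => j ∈ S ∧ j + 1 ∈ T)).card =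
      ((Finset.Icc 1 (N - 1)).filter (fun j => j ∈ T ∧ j + 1 ∈ S)).card) ∧
    (N ∈ S → 1 ∈ T → ((Finset.Icc 1 (N - 1)).filter (fun j => j ∈ S ∧ j + 1 ∈ T)).card + 1 =
      ((Finset.Icc 1 (N - 1)).filter (fun j => j ∈ T ∧ j + 1 ∈ S)).card) := by
  have hst : ∀ j, j ∈ S → j ∈ T → False := fun j a b => Finset.disjoint_left.1 hd a b
  induction N, h1 using Nat.le_induction with
  | base =>
    refine ⟨fun a b => (hst _ b a).elim, fun _ _ => rfl, fun _ _ => rfl,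
      fun a b => (hst _ a b).elim⟩
  | succ N hN ih =>
    have ih := ih (fun j a b => hc j a (by omega))
    have e0 : N + 1 - 1 = (N - 1) + 1 := by omega
    have e1 : Finset.Icc 1 (N + 1 - 1) = insert N (Finset.Icc 1 (N - 1)) := by
      ext j
      rw [Finset.mem_insert, Finset.mem_Icc, Finset.mem_Icc]
      omega
    have hnot : N ∉ Finset.Icc 1 (N - 1) := by
      rw [Finset.mem_Icc]; omega
    rw [e1, Finset.filter_insert, Finset.filter_insert]
    have hn1 : ∀ (p : ℕ → Prop) [DecidablePred p], (insert N ((Finset.Icc 1 (N - 1)).filter p)).card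
        = ((Finset.Icc 1 (N - 1)).filter p).card + 1 := by
      intro p _
      rw [Finset.card_insert_of_notMem]
      intro h
      exact hnot (Finset.mem_filter.1 h).1
    obtain ⟨i1, i2, i3, i4⟩ := ih
    rcases hc N hN (by omega) with a | a <;> rcases hc (N + 1) (by omega) le_rfl with b | b
    · have q1 : ¬ (N ∈ S ∧ N + 1 ∈ T) := fun h => hst _ b h.2
      have q2 : ¬ (N ∈ T ∧ N + 1 ∈ S) := fun h => hst _ a h.1
      rw [if_neg q1, if_neg q2]
      exact ⟨fun h => (hst _ b h).elim, fun h => (hst _ b h).elim, fun _ => i3 a, fun _ => i4 a⟩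
    · have q1 : (N ∈ S ∧ N + 1 ∈ T) := ⟨a, b⟩
      have q2 : ¬ (N ∈ T ∧ N + 1 ∈ S) := fun h => hst _ a h.1
      rw [if_pos q1, if_neg q2, hn1]
      refine ⟨fun _ c => ?_, fun _ c => ?_, fun h => (hst _ h b).elim, fun h => (hst _ h b).elim⟩
      · rw [i3 a c]
      · rw [i4 a c]
    · have q1 : ¬ (N ∈ S ∧ N + 1 ∈ T) := fun h => hst _ h.1 a
      have q2 : (N ∈ T ∧ N + 1 ∈ S) := ⟨a, b⟩
      rw [if_neg q1, if_pos q2, hn1]
      refine ⟨fun h => (hst _ b h).elim, fun h => (hst _ b h).elim, fun _ c => ?_, fun _ c => ?_⟩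
      · rw [i1 a c]
      · rw [i2 a c]
    · have q1 : ¬ (N ∈ S ∧ N + 1 ∈ T) := fun h => hst _ h.1 a
      have q2 : ¬ (N ∈ T ∧ N + 1 ∈ S) := fun h => hst _ h.2 b
      rw [if_neg q1, if_neg q2]
      exact ⟨fun _ => i1 a, fun _ => i2 a, fun h => (hst _ h b).elim, fun h => (hst _ h b).elim⟩

theorem Bd_card (S T : Finset ℕ) (hd : Disjoint S T) (N : ℕ) : (Bd S T N).card =
    ((Finset.Icc 1 (N - 1)).filter (fun j => j ∈ S ∧ j + 1 ∈ T)).card +
      ((Finset.Icc 1 (N - 1)).filter (fun j => j ∈ T ∧ j + 1 ∈ S)).card := by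
  rw [Bd, Finset.filter_or, Finset.card_union_of_disjoint]
  rw [Finset.disjoint_left]
  intro j h h'
  exact Finset.disjoint_left.1 hd (Finset.mem_filter.1 h).2.1 (Finset.mem_filter.1 h').2.1

/-- A word which ends in `T` and has `b` boundaries has `(b+1)/2` runs of the side `S` and `b/2 + 1`
runs of the side `T`. -/
theorem runs_card (S T : Finset ℕ) (hd : Disjoint S T) (N : ℕ)
    (hc : ∀ j, 1 ≤ j → j ≤ N → j ∈ S ∨ j ∈ T) (h1 : 1 ≤ N) (hN : N ∈ T) :
    ((Finset.Icc 1 (N - 1)).filter (fun j => j ∈ S ∧ j + 1 ∈ T)).card = ((Bd S T N).card + 1) / 2 ∧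
    ((Finset.Icc 1 (N - 1)).filter (fun j => j ∈ T ∧ j + 1 ∈ S)).card = (Bd S T N).card / 2 := by
  obtain ⟨i1, i2, -, -⟩ := runs_count S T hd N hc h1
  have h2 := Bd_card S T hd N
  rcases hc 1 le_rfl h1 with a | a
  · have := i1 hN a
    omega
  · have := i2 hN a
    omega

/-- All the boundaries in decreasing order. -/
theorem alt_seq_all (S T : Finset ℕ) (N : ℕ) (hd : Disjoint S T)
    (hc : ∀ j, 1 ≤ j → j ≤ N → j ∈ S ∨ j ∈ T) (hN : N ∈ T) :
    ∃ J : ℕ → ℕ, AltSeq S T N (Bd S T N).card J ∧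
      ∀ j, j ∈ Bd S T N ↔ ∃ i < (Bd S T N).card, J i = j := by
  classical
  obtain ⟨J, hJ⟩ := alt_seq (Bd S T N).card S T N hd hc hN (by
    refine le_of_eq ?_
    rw [Bd])
  refine ⟨J, hJ, ?_⟩
  obtain ⟨a1, a2, a3, a4⟩ := hJ
  have hanti : ∀ i j, i < j → j < (Bd S T N).card → J j < J i := by
    intro i j hij
    induction j, hij using Nat.le_induction with
    | base => intro h; exact a2 i h
    | succ j hj ih =>
      intro h
      have := a2 j h
      have := ih (by omega)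
      omega
  have hinj : Set.InjOn J (Finset.range (Bd S T N).card) := by
    intro i hi j hj h
    rw [Finset.mem_coe, Finset.mem_range] at hi hj
    rcases lt_trichotomy i j with h' | h' | h'
    · have := hanti i j h' hj; omega
    · exact h'
    · have := hanti j i h' hi; omega
  have hmaps : ∀ i ∈ Finset.range (Bd S T N).card, J i ∈ Bd S T N := by
    intro i hi
    rw [Finset.mem_range] at hi
    rw [mem_Bd]
    have h1 := a1 i hi
    refine ⟨⟨h1.1, by omega⟩, ?_⟩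
    rcases Nat.even_or_odd i with h | h
    · exact Or.inl (a3 i hi h)
    · exact Or.inr (a4 i hi h)
  have himg : (Finset.range (Bd S T N).card).image J = Bd S T N := by
    refine Finset.eq_of_subset_of_card_le ?_ ?_
    · intro j hj
      obtain ⟨i, hi, rfl⟩ := Finset.mem_image.1 hj
      exact hmaps i hi
    · rw [Finset.card_image_of_injOn hinj, Finset.card_range]
  intro j
  conv_lhs => rw [← himg]
  rw [Finset.mem_image]
  constructor
  · rintro ⟨i, hi, h⟩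
    exact ⟨i, Finset.mem_range.1 hi, h⟩
  · rintro ⟨i, hi, h⟩
    exact ⟨i, Finset.mem_range.2 hi, h⟩

/-- No boundary in `[a, c-1]`: the labels `a` and `c` lie on the same side. -/
theorem same_side (S T : Finset ℕ) (N : ℕ) (hd : Disjoint S T)
    (hc : ∀ j, 1 ≤ j → j ≤ N → j ∈ S ∨ j ∈ T) {a c : ℕ} (ha : 1 ≤ a) (hac : a ≤ c) (hcN : c ≤ N)
    (h : ∀ j, a ≤ j → j < c → j ∉ Bd S T N) : (a ∈ S ↔ c ∈ S) ∧ (a ∈ T ↔ c ∈ T) := by
  have hst : ∀ j, j ∈ S → j ∈ T → False := fun j a b => Finset.disjoint_left.1 hd a b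
  induction c, hac using Nat.le_induction with
  | base => exact ⟨Iff.rfl, Iff.rfl⟩
  | succ c hc' ih =>
    obtain ⟨h1, h2⟩ := ih (by omega) (fun j b b' => h j b (by omega))
    have hnb := h c hc' (by omega)
    rw [mem_Bd] at hnb
    rw [h1, h2]
    rcases hc c (by omega) (by omega) with u | u <;> rcases hc (c + 1) (by omega) hcN with v | v
    · exact ⟨⟨fun _ => v, fun _ => u⟩, ⟨fun g => (hst _ u g).elim, fun g => (hst _ v g).elim⟩⟩
    · exact absurd ⟨⟨by omega, by omega⟩, Or.inl ⟨u, v⟩⟩ hnb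
    · exact absurd ⟨⟨by omega, by omega⟩, Or.inr ⟨u, v⟩⟩ hnb
    · exact ⟨⟨fun g => (hst _ g u).elim, fun g => (hst _ g v).elim⟩, ⟨fun _ => v, fun _ => u⟩⟩

section corr

variable {k : ℕ}

open Classical in
/-- The signs of the word. -/
noncomputable def wsg (k : ℕ) (S : Finset ℕ) (x : ZMod (4 * k + 1)) : ℤ :=
  if x = 0 then 0 else if x ∈ DSet k S then 1 else -1

theorem wsg_zero (S : Finset ℕ) : wsg k S 0 = 0 := by
  rw [wsg, if_pos rfl]

theorem wsg_ne (S : Finset ℕ) {x : ZMod (4 * k + 1)} (hx : x ≠ 0) :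
    wsg k S x = 1 ∨ wsg k S x = -1 := by
  rw [wsg, if_neg hx]
  split_ifs
  · exact Or.inl rfl
  · exact Or.inr rfl

theorem wsg_mem (S : Finset ℕ) (hS : S ⊆ Finset.Icc 1 (2 * k)) {x : ZMod (4 * k + 1)}
    (hx : x ∈ DSet k S) : wsg k S x = 1 := by
  have h0 : x ≠ 0 := fun h => dset_zero k S hS (h ▸ hx)
  rw [wsg, if_neg h0, if_pos hx]

theorem wsg_compl (S : Finset ℕ) (hS : S ⊆ Finset.Icc 1 (2 * k)) {x : ZMod (4 * k + 1)}
    (hx : x ∈ DSet k (Finset.Icc 1 (2 * k) \ S)) : wsg k S x = -1 := by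
  have h0 : x ≠ 0 := fun h => dset_zero k _ Finset.sdiff_subset (h ▸ hx)
  rw [wsg, if_neg h0, if_neg ((dset_compl k S hS x h0).1 hx)]

theorem wsg_neg (S : Finset ℕ) (x : ZMod (4 * k + 1)) : wsg k S (-x) = wsg k S x := by
  classical
  by_cases hx : x = 0
  · rw [hx, neg_zero]
  · have h1 : (-x ∈ DSet k S) ↔ (x ∈ DSet k S) := by
      constructor
      · intro h
        have := dset_neg k S _ h
        rwa [neg_neg] at this
      · exact dset_neg k S x
    unfold wsg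
    rw [if_neg hx, if_neg (neg_ne_zero.2 hx)]
    by_cases h : x ∈ DSet k S
    · rw [if_pos h, if_pos (h1.2 h)]
    · rw [if_neg h, if_neg (fun h' => h (h1.1 h'))]

theorem wsg_sum (S : Finset ℕ) (hS : S ⊆ Finset.Icc 1 (2 * k)) (hc : S.card = k) :
    ∑ x, wsg k S x = 0 := by
  classical
  have h1 : ∀ x : ZMod (4 * k + 1), wsg k S x =
      2 * (if x ∈ DSet k S then 1 else 0) - 1 + (if x = 0 then 1 else 0) := by
    intro x
    by_cases hx : x = 0
    · rw [hx, wsg_zero, if_neg (dset_zero k S hS), if_pos rfl]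
      norm_num
    · rw [wsg, if_neg hx, if_neg hx]
      split_ifs <;> norm_num
  rw [Finset.sum_congr rfl (fun x _ => h1 x), Finset.sum_add_distrib, Finset.sum_sub_distrib,
    ← Finset.mul_sum, Finset.sum_boole, Finset.sum_const, Finset.card_univ, ZMod.card]
  have h2 := dset_card k S hS
  have h3 : ((Finset.univ : Finset (ZMod (4 * k + 1))).filter (fun x => x ∈ DSet k S)).card =
      2 * k := by
    rw [hc] at h2
    convert h2
  rw [h3]
  simp
  ring

open OBoundAux in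
/-- `C(2v) = 4k - 1 - 4b`, `b` the number of boundaries of the word of labels. -/
theorem corr_eq_bd (hk : 1 ≤ k) (S : Finset ℕ) (hS : S ⊆ Finset.Icc 1 (2 * k))
    (v : ZMod (4 * k + 1)) (hv : IsUnit v) :
    ∑ x, wsg k S x * wsg k S (x + 2 * v) = 4 * (k : ℤ) - 1 -
      4 * ((Bd (LW k S v) (LW k (Finset.Icc 1 (2 * k) \ S) v) (2 * k)).card : ℤ) := by
  classical
  obtain ⟨w, hw⟩ := two_unit v hv
  -- sum over the labels
  set a : ℕ → ℤ := fun j => wsg k S (f v j) with ha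
  have s1 : ∑ x, wsg k S x * wsg k S (x + 2 * v) = ∑ j ∈ Finset.range (4 * k + 1), a j * a (j + 1) := by
    symm
    refine Finset.sum_nbij' (f v) (g w) ?_ ?_ ?_ ?_ ?_
    · intro j _
      exact Finset.mem_univ _
    · intro x _
      exact Finset.mem_range.2 (g_lt w x)
    · intro j hj
      exact gf hw (Finset.mem_range.1 hj)
    · intro x _
      exact fg hw x
    · intro j _
      show a j * a (j + 1) = wsg k S (f v j) * wsg k S (f v j + 2 * v)
      rw [← f_succ]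
  have a0 : a 0 = 0 := by
    show wsg k S (f v 0) = 0
    rw [f_zero, wsg_zero]
  have arefl : ∀ j, j ≤ 4 * k + 1 → a (4 * k + 1 - j) = a j := by
    intro j hj
    show wsg k S (f v (4 * k + 1 - j)) = wsg k S (f v j)
    rw [f_sub v hj, wsg_neg]
  have s2 : ∑ j ∈ Finset.range (4 * k + 1), a j * a (j + 1) =
      2 * ∑ j ∈ Finset.range (2 * k), a j * a (j + 1) + a (2 * k) * a (2 * k) := by
    have e1 : 4 * k + 1 = (2 * k + 1) + 2 * k := by ring
    have e2 : ∑ j ∈ Finset.range (4 * k + 1), a j * a (j + 1) =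
        ∑ j ∈ Finset.range (2 * k), a j * a (j + 1) + a (2 * k) * a (2 * k + 1) +
          ∑ i ∈ Finset.range (2 * k), a (2 * k + 1 + i) * a (2 * k + 1 + i + 1) := by
      rw [e1, Finset.sum_range_add, Finset.sum_range_succ]
    have e3 : ∑ i ∈ Finset.range (2 * k), a (2 * k + 1 + i) * a (2 * k + 1 + i + 1) =
        ∑ j ∈ Finset.range (2 * k), a j * a (j + 1) := by
      rw [← Finset.sum_range_reflect]
      apply Finset.sum_congr rfl
      intro i hi
      rw [Finset.mem_range] at hi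
      have q1 := arefl (i + 1) (by omega)
      have q2 := arefl i (by omega)
      have q3 : 2 * k + 1 + (2 * k - 1 - i) = 4 * k + 1 - (i + 1) := by omega
      have q4 : 2 * k + 1 + (2 * k - 1 - i) + 1 = 4 * k + 1 - i := by omega
      rw [q4, q3, q1, q2, mul_comm]
    have e4 : a (2 * k + 1) = a (2 * k) := by
      have := arefl (2 * k) (by omega)
      rw [← this]
      congr 1
      omega
    rw [e2, e3, e4]
    ring
  have hne : ∀ j, 1 ≤ j → j ≤ 2 * k → f v j ≠ 0 := fun j h1 h2 => label_ne_zero v hv h1 h2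
  have s3 : a (2 * k) * a (2 * k) = 1 := by
    rcases wsg_ne S (hne (2 * k) (by omega) le_rfl) with h | h
    · show wsg k S (f v (2 * k)) * wsg k S (f v (2 * k)) = 1
      rw [h]; norm_num
    · show wsg k S (f v (2 * k)) * wsg k S (f v (2 * k)) = 1
      rw [h]; norm_num
  have s4 : ∑ j ∈ Finset.range (2 * k), a j * a (j + 1) =
      ∑ j ∈ Finset.Icc 1 (2 * k - 1), a j * a (j + 1) := by
    have e1 : Finset.range (2 * k) = insert 0 (Finset.Icc 1 (2 * k - 1)) := by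
      ext j
      rw [Finset.mem_range, Finset.mem_insert, Finset.mem_Icc]
      omega
    rw [e1, Finset.sum_insert (by rw [Finset.mem_Icc]; omega), a0, zero_mul, zero_add]
  have hmem : ∀ j, 1 ≤ j → j ≤ 2 * k → (j ∈ LW k S v ∧ a j = 1) ∨
      (j ∈ LW k (Finset.Icc 1 (2 * k) \ S) v ∧ a j = -1) := by
    intro j h1 h2
    by_cases h : f v j ∈ DSet k S
    · exact Or.inl ⟨mem_LW.2 ⟨⟨h1, h2⟩, h⟩, wsg_mem S hS h⟩
    · have h' := (dset_compl k S hS _ (hne j h1 h2)).2 h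
      exact Or.inr ⟨mem_LW.2 ⟨⟨h1, h2⟩, h'⟩, wsg_compl S hS h'⟩
  have hdis : ∀ j, j ∈ LW k S v → j ∈ LW k (Finset.Icc 1 (2 * k) \ S) v → False := by
    intro j h h'
    have h1 := mem_LW.1 h
    have h2 := mem_LW.1 h'
    exact (dset_compl k S hS _ (hne j h1.1.1 h1.1.2)).1 h2.2 h1.2
  have s5 : ∀ j ∈ Finset.Icc 1 (2 * k - 1), a j * a (j + 1) = 1 - 2 *
      (if (j ∈ LW k S v ∧ j + 1 ∈ LW k (Finset.Icc 1 (2 * k) \ S) v) ∨
        (j ∈ LW k (Finset.Icc 1 (2 * k) \ S) v ∧ j + 1 ∈ LW k S v) then 1 else 0) := by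
    intro j hj
    rw [Finset.mem_Icc] at hj
    rcases hmem j (by omega) (by omega) with ⟨u, u'⟩ | ⟨u, u'⟩ <;>
      rcases hmem (j + 1) (by omega) (by omega) with ⟨t, t'⟩ | ⟨t, t'⟩
    · rw [if_neg, u', t']
      · norm_num
      · rintro (⟨_, h⟩ | ⟨h, _⟩)
        · exact hdis _ t h
        · exact hdis _ u h
    · rw [if_pos (Or.inl ⟨u, t⟩), u', t']
      norm_num
    · rw [if_pos (Or.inr ⟨u, t⟩), u', t']
      norm_num
    · rw [if_neg, u', t']
      · norm_num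
      · rintro (⟨h, _⟩ | ⟨_, h⟩)
        · exact hdis _ h u
        · exact hdis _ h t
  rw [s1, s2, s3, s4, Finset.sum_congr rfl s5, Finset.sum_sub_distrib, ← Finset.mul_sum,
    Finset.sum_boole, Finset.sum_const, Nat.card_Icc]
  rw [show (Bd (LW k S v) (LW k (Finset.Icc 1 (2 * k) \ S) v) (2 * k)).card =
    ((Finset.Icc 1 (2 * k - 1)).filter (fun j =>
      (j ∈ LW k S v ∧ j + 1 ∈ LW k (Finset.Icc 1 (2 * k) \ S) v) ∨
        (j ∈ LW k (Finset.Icc 1 (2 * k) \ S) v ∧ j + 1 ∈ LW k S v))).card from rfl]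
  simp only [nsmul_eq_mul, mul_one]
  have e5 : ((2 * k - 1 + 1 - 1 : ℕ) : ℤ) = 2 * k - 1 := by
    have : 2 * k - 1 + 1 - 1 = 2 * k - 1 := by omega
    rw [this]
    push_cast [Nat.cast_sub (by omega : 1 ≤ 2 * k)]
    ring
  rw [e5]
  ring

/-- The two label sets are disjoint and cover `[1, 2k]`. -/
theorem LW_disjoint (S : Finset ℕ) (hS : S ⊆ Finset.Icc 1 (2 * k)) (v : ZMod (4 * k + 1))
    (hv : IsUnit v) : Disjoint (LW k S v) (LW k (Finset.Icc 1 (2 * k) \ S) v) := by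
  rw [LW_compl S hS v hv]
  exact Finset.disjoint_sdiff

theorem LW_cover (S : Finset ℕ) (hS : S ⊆ Finset.Icc 1 (2 * k)) (v : ZMod (4 * k + 1))
    (hv : IsUnit v) (j : ℕ) (h1 : 1 ≤ j) (h2 : j ≤ 2 * k) :
    j ∈ LW k S v ∨ j ∈ LW k (Finset.Icc 1 (2 * k) \ S) v := by
  rw [LW_compl S hS v hv, Finset.mem_sdiff, Finset.mem_Icc]
  by_cases h : j ∈ LW k S v
  · exact Or.inl h
  · exact Or.inr ⟨⟨h1, h2⟩, h⟩

/-- Every unit `y` is `2 v` with a unit `v`, and `C(y) = 4k - 1 - 4b(v)`. -/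
theorem unit_half (hk : 1 ≤ k) (S : Finset ℕ) (hS : S ⊆ Finset.Icc 1 (2 * k))
    (y : ZMod (4 * k + 1)) (hy : IsUnit y) : ∃ v : ZMod (4 * k + 1), IsUnit v ∧ 2 * v = y ∧
      ∑ x, wsg k S x * wsg k S (x + y) = 4 * (k : ℤ) - 1 -
      4 * ((Bd (LW k S v) (LW k (Finset.Icc 1 (2 * k) \ S) v) (2 * k)).card : ℤ) := by
  have h2 : IsUnit (2 * (k : ZMod (4 * k + 1)) + 1) :=
    IsUnit.of_mul_eq_one 2 (by linear_combination two_inv k)
  have h3 : 2 * ((2 * (k : ZMod (4 * k + 1)) + 1) * y) = y := by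
    rw [← mul_assoc, two_inv, one_mul]
  refine ⟨(2 * k + 1) * y, h2.mul hy, h3, ?_⟩
  have h4 := corr_eq_bd hk S hS _ (h2.mul hy)
  rwa [h3] at h4

/-- A good unit: the number `b` of boundaries satisfies `B (4k - 1 - 4b) ≤ 4k`. -/
theorem exists_unit_bd (hk : 1 ≤ k) (S : Finset ℕ) (hS : S ⊆ Finset.Icc 1 (2 * k))
    (hc : S.card = k) (B : ℕ)
    (hB : ∀ m, m ∣ 4 * k + 1 → m ≠ 1 → ArithmeticFunction.moebius m = 1 → B ≤ Nat.totient m) :
    ∃ v : ZMod (4 * k + 1), IsUnit v ∧ (B : ℤ) * (4 * (k : ℤ) - 1 -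
      4 * ((Bd (LW k S v) (LW k (Finset.Icc 1 (2 * k) \ S) v) (2 * k)).card : ℤ)) ≤ 4 * k := by
  obtain ⟨y, hy, h⟩ := avg_bound (4 * k + 1) (by omega) (wsg k S) (wsg_zero S)
    (fun x hx => wsg_ne S hx) (wsg_sum S hS hc) B hB
  obtain ⟨v, hv, -, h4⟩ := unit_half hk S hS y hy
  refine ⟨v, hv, ?_⟩
  rw [← h4]
  refine h.trans (le_of_eq ?_)
  push_cast
  ring

/-- The bound with `B = 8`, valid for all `n`. -/
theorem exists_unit_bd8 (hk : 1 ≤ k) (S : Finset ℕ) (hS : S ⊆ Finset.Icc 1 (2 * k))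
    (hc : S.card = k) :
    ∃ v : ZMod (4 * k + 1), IsUnit v ∧ 8 * (4 * (k : ℤ) - 1 -
      4 * ((Bd (LW k S v) (LW k (Finset.Icc 1 (2 * k) \ S) v) (2 * k)).card : ℤ)) ≤ 4 * k := by
  obtain ⟨y, hy, h⟩ := avg_eight (4 * k + 1) ⟨2 * k, by ring⟩ (by omega) (wsg k S) (wsg_zero S)
    (fun x hx => wsg_ne S hx) (wsg_sum S hS hc)
  obtain ⟨v, hv, -, h4⟩ := unit_half hk S hS y hy
  refine ⟨v, hv, ?_⟩
  rw [← h4]
  refine h.trans (le_of_eq ?_)
  push_cast
  ring

/-- The case `n = 45`: at least `k = 11` boundaries. -/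
theorem exists_unit_bd45 (S : Finset ℕ) (hS : S ⊆ Finset.Icc 1 (2 * 11)) (hc : S.card = 11) :
    ∃ v : ZMod (4 * 11 + 1), IsUnit v ∧
      11 ≤ (Bd (LW 11 S v) (LW 11 (Finset.Icc 1 (2 * 11) \ S) v) (2 * 11)).card := by
  obtain ⟨y, hy, h⟩ := corr_fortyfive (wsg 11 S) (wsg_zero S) (fun x hx => wsg_ne S hx)
    (wsg_sum S hS hc) (wsg_neg (k := 11) S)
  obtain ⟨v, hv, -, h4⟩ := unit_half (k := 11) (by norm_num) S hS y hy
  refine ⟨v, hv, ?_⟩
  have h5 := h4 ▸ h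
  rw [← Nat.cast_le (α := ℤ)]
  push_cast at h5 ⊢
  linarith

end corr

end Pool.Agent.P45
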