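import Pool.Agent.Lib.P45dba8.Even3
import Pool.Agent.Lib.P45dba8.Labels
import Pool.Agent.Lib.P45dba8.Runs

/-! # MP_45dba8: `k` even, `3 ∣ n`, all inner labels of `T` in `3 ℤ` -/

set_option autoImplicit false

namespace Pool.Agent.P45

theorem zz_congr (a b : ℕ → ℤ) (l : ℕ) (h : ∀ i < l, a i = b i) : zz a l = zz b l := by
  induction l with
  | zero => rfl
  | succ l ih =>
    have h1 := zz_diff a l
    have h2 := zz_diff b l
    have h3 := ih (fun i hi => h i (by omega))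
    rw [h l (by omega)] at h1
    linarith

/-- Raising the term number `m` (even) by one raises the alternating sum by one. -/
theorem zz_bump (a b : ℕ → ℤ) (m l : ℕ) (hm : Even m) (hml : m < l) (h1 : a m = b m + 1)
    (h2 : ∀ i, i ≠ m → a i = b i) : zz a l = zz b l + 1 := by
  induction l, hml using Nat.le_induction with
  | base =>
    have g1 := zz_diff a m
    have g2 := zz_diff b m
    have g3 := zz_congr a b m (fun i hi => h2 i (by omega))
    rw [hm.neg_one_pow, one_mul] at g1 g2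
    linarith
  | succ l hl ih =>
    have g1 := zz_diff a l
    have g2 := zz_diff b l
    rw [h2 l (by omega)] at g1
    linarith

/-- The sequence `J` with the terms `2, 4, ..., 2R` moved to `J (i+1) + 1` or `J (i+1) + 2`. -/
def Jr (J : ℕ → ℕ) (R r : ℕ) (i : ℕ) : ℕ :=
  if i % 2 = 0 ∧ 2 ≤ i ∧ i ≤ 2 * R then J (i + 1) + 1 + (if i ≤ 2 * r then 1 else 0) else J i

theorem Jr_odd (J : ℕ → ℕ) (R r i : ℕ) (hi : i % 2 = 1) : Jr J R r i = J i := by
  rw [Jr, if_neg (by omega)]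

theorem zDT_Jr (q : ℕ) (J : ℕ → ℕ) (R r : ℕ) : zDT q (Jr J R r) = zDT q J := by
  unfold zDT
  apply Finset.image_congr
  intro i _
  exact Jr_odd J R r _ (by omega)

theorem zz_Jr (J : ℕ → ℕ) (R r l : ℕ) (hr : r ≤ R) (hl : 2 * R < l) :
    zz (fun i => (Jr J R r i : ℤ)) l = zz (fun i => (Jr J R 0 i : ℤ)) l + r := by
  induction r with
  | zero => simp
  | succ r ih =>
    have h1 := ih (by omega)
    have h2 := zz_bump (fun i => (Jr J R (r + 1) i : ℤ)) (fun i => (Jr J R r i : ℤ))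
      (2 * (r + 1)) l ⟨r + 1, by ring⟩ (by omega) (by
        show ((Jr J R (r + 1) (2 * (r + 1)) : ℕ) : ℤ) = ((Jr J R r (2 * (r + 1)) : ℕ) : ℤ) + 1
        rw [Jr, Jr, if_pos (by omega), if_pos (by omega), if_pos (by omega), if_neg (by omega)]
        push_cast
        ring) (by
        intro i hi
        show ((Jr J R (r + 1) i : ℕ) : ℤ) = ((Jr J R r i : ℕ) : ℤ)
        congr 1
        unfold Jr
        by_cases h : i % 2 = 0 ∧ 2 ≤ i ∧ i ≤ 2 * R
        · rw [if_pos h, if_pos h]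
          congr 1
          by_cases h' : i ≤ 2 * r
          · rw [if_pos h', if_pos (by omega)]
          · rw [if_neg h', if_neg (by omega)]
        · rw [if_neg h, if_neg h])
    rw [h2, h1]
    push_cast
    ring

section

variable {k q : ℕ} (hk : k = 2 * q) (hq : 4 ≤ q) (S T : Finset ℕ) (hd : Disjoint S T)
  (hU : S ∪ T = Finset.Icc 1 (2 * k)) (hcS : S.card = k) (hcT : T.card = k) (h2k : 2 * k ∈ T)

include hk hq hd hU hcS hcT h2k

/-- Case B2: all labels of `T` between two labels of `S` are multiples of `3`. -/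
theorem even3_B2 (h3n : (4 * k + 1) % 3 = 0) (hH : HostOK k (q - 1)) (hF : FreeOK k (q - 1))
    (R : ℕ) (hR : 2 * R + 2 < k - 1)
    (hcop : ∀ w : ℤ, ∃ r : ℕ, r ≤ R ∧ IsCoprime (w + r) (4 * k + 1 : ℤ))
    (J : ℕ → ℕ) (hJ : AltW S T (2 * k) (k - 1) J)
    (h1 : (S.filter (fun j => 3 ∣ j)).card ≤ q)
    (hin : ∀ u ∈ T, (∃ s ∈ S, s < u) → (∃ s ∈ S, u < s) → 3 ∣ u)
    (h3 : 1 ≤ ((T.erase (2 * k)).filter (fun j => ¬ 3 ∣ j)).card) :
    ∃ A : Finset (ZMod (4 * k + 1)), A.card = 2 * k ∧ EG (LSet k S) A ∧ EG (LSet k T) A := by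
  obtain ⟨j1, j2, j3, j4⟩ := id hJ
  have hSe : ∀ c, 2 * c < k - 1 → J (2 * c) ∈ S := fun c hc => j3 _ hc ⟨c, by ring⟩
  have hTo : ∀ c, 2 * c + 1 < k - 1 → J (2 * c + 1) ∈ T := fun c hc => j4 _ hc ⟨c, rfl⟩
  -- the inner labels
  have h3J : ∀ c, 2 * c + 2 < k - 1 → 3 ∣ J (2 * c + 1) := by
    intro c hc
    refine hin _ (hTo c (by omega)) ⟨J (2 * (c + 1)), hSe _ (by omega),
      hJ.anti (by omega) (by omega)⟩ ⟨J (2 * c), hSe _ (by omega), hJ.anti (by omega) (by omega)⟩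
  have hmv : ∀ c, 1 ≤ c → c ≤ R → J (2 * c + 1) + 3 ≤ J (2 * c - 1) ∧
      ∀ x, x = J (2 * c + 1) + 1 ∨ x = J (2 * c + 1) + 2 → x ∈ S := by
    intro c hc1 hcR
    obtain ⟨c, rfl⟩ : ∃ c', c = c' + 1 := ⟨c - 1, by omega⟩
    have a1 := h3J c (by omega)
    have a2 := h3J (c + 1) (by omega)
    have a3 := hJ.anti (i := 2 * c + 1) (j := 2 * (c + 1) + 1) (by omega) (by omega)
    have e1 : 2 * (c + 1) - 1 = 2 * c + 1 := by omega
    rw [e1]
    have a4 : J (2 * (c + 1) + 1) + 3 ≤ J (2 * c + 1) := by omega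
    refine ⟨a4, ?_⟩
    intro x hx
    have a5 := j1 (2 * c + 1) (by omega)
    have hx' : x ∈ S ∪ T := by
      rw [hU, Finset.mem_Icc]
      omega
    rcases Finset.mem_union.1 hx' with h | h
    · exact h
    · exfalso
      have a6 := hin x h ⟨J (2 * (c + 2)), hSe _ (by omega), by
        have := hJ.anti (i := 2 * (c + 1) + 1) (j := 2 * (c + 2)) (by omega) (by omega)
        omega⟩ ⟨J (2 * c), hSe _ (by omega), by
        have := hJ.anti (i := 2 * c) (j := 2 * c + 1) (by omega) (by omega)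
        omega⟩
      omega
  have hJr : ∀ r, AltW S T (2 * k) (k - 1) (Jr J R r) := by
    intro r
    have key : ∀ i, i % 2 = 0 → 2 ≤ i → i ≤ 2 * R → J (i + 1) < Jr J R r i ∧
        Jr J R r i < J (i - 1) ∧ Jr J R r i ∈ S := by
      intro i h4 h5 h6
      obtain ⟨c, rfl⟩ : ∃ c, i = 2 * c := ⟨i / 2, by omega⟩
      obtain ⟨g1, g2⟩ := hmv c (by omega) (by omega)
      rw [Jr, if_pos ⟨h4, h5, h6⟩]
      split_ifs
      · exact ⟨by omega, by omega, g2 _ (Or.inr rfl)⟩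
      · exact ⟨by omega, by omega, g2 _ (Or.inl rfl)⟩
    have same : ∀ i, ¬ (i % 2 = 0 ∧ 2 ≤ i ∧ i ≤ 2 * R) → Jr J R r i = J i := by
      intro i hi
      rw [Jr, if_neg hi]
    refine ⟨?_, ?_, ?_, ?_⟩
    · intro i hi
      by_cases h : i % 2 = 0 ∧ 2 ≤ i ∧ i ≤ 2 * R
      · have g1 := key i h.1 h.2.1 h.2.2
        have g2 := j1 (i - 1) (by omega)
        omega
      · rw [same i h]
        exact j1 i hi
    · intro i hi
      by_cases h : i % 2 = 0 ∧ 2 ≤ i ∧ i ≤ 2 * R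
      · have g1 := key i h.1 h.2.1 h.2.2
        rw [same (i + 1) (by omega)]
        exact g1.1
      · by_cases h' : (i + 1) % 2 = 0 ∧ 2 ≤ i + 1 ∧ i + 1 ≤ 2 * R
        · have g1 := key (i + 1) h'.1 h'.2.1 h'.2.2
          rw [same i h]
          exact g1.2.1
        · rw [same i h, same (i + 1) h']
          exact j2 i hi
    · intro i hi he
      by_cases h : i % 2 = 0 ∧ 2 ≤ i ∧ i ≤ 2 * R
      · exact (key i h.1 h.2.1 h.2.2).2.2
      · rw [same i h]
        exact j3 i hi he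
    · intro i hi ho
      obtain ⟨c, rfl⟩ := ho
      rw [same _ (by omega)]
      exact j4 _ hi ⟨c, rfl⟩
  obtain ⟨r, hr, hco⟩ := hcop (zz (fun i => (Jr J R 0 i : ℤ)) (k - 1))
  refine even3_top hk hq S T hd hU hcS hcT h2k h3n hH hF (Jr J R r) (hJr r) h1 ?_ h3 ?_
  · intro d hd'
    rw [zDT_Jr] at hd'
    obtain ⟨c, hc, rfl⟩ := mem_zDT.1 hd'
    exact h3J c (by omega)
  · rw [zz_Jr J R r (k - 1) hr (by omega)]
    exact hco

/-- All cases with at least three labels outside `3 ℤ` in `T`. -/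
theorem even3_all (h3n : (4 * k + 1) % 3 = 0) (hH : HostOK k (q - 1)) (hF : FreeOK k (q - 1))
    (hu : UnitOK k) (R : ℕ) (hR : 2 * R + 2 < k - 1)
    (hcop : ∀ w : ℤ, ∃ r : ℕ, r ≤ R ∧ IsCoprime (w + r) (4 * k + 1 : ℤ))
    (h3 : 3 ≤ ((T.erase (2 * k)).filter (fun j => ¬ 3 ∣ j)).card)
    (hb : k - 1 ≤ (Bd S T (2 * k)).card) :
    ∃ A : Finset (ZMod (4 * k + 1)), A.card = 2 * k ∧ EG (LSet k S) A ∧ EG (LSet k T) A := by
  classical
  have hcov : ∀ j, 1 ≤ j → j ≤ 2 * k → j ∈ S ∨ j ∈ T := by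
    intro j h1 h2
    have : j ∈ S ∪ T := by rw [hU, Finset.mem_Icc]; omega
    exact Finset.mem_union.1 this
  obtain ⟨J, hJ'⟩ := alt_seq (k - 1) S T (2 * k) hd hcov h2k hb
  have hJ := hJ'.altW
  have htot : (S.filter (fun j => 3 ∣ j)).card + (T.filter (fun j => 3 ∣ j)).card =
      ((4 * k + 1) / 3 - 1) / 2 := by
    rw [← card_mult k 3 (by omega), ← Finset.card_union_of_disjoint, ← Finset.filter_union, hU]
    exact Finset.disjoint_filter_filter hd
  have hS := Finset.card_filter_add_card_filter_not (s := S) (fun j => 3 ∣ j)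
  by_cases hA : (S.filter (fun j => 3 ∣ j)).card ≤ q
  · by_cases hB : ∀ u ∈ T, (∃ s ∈ S, s < u) → (∃ s ∈ S, u < s) → 3 ∣ u
    · exact even3_B2 hk hq S T hd hU hcS hcT h2k h3n hH hF R hR hcop J hJ hA hB (by omega)
    · push Not at hB
      obtain ⟨u, huT, ⟨s, hs, hsu⟩, ⟨s', hs', hus⟩, hu3⟩ := hB
      exact even3_B1 hk hq S T hd hU hcS hcT h2k h3n hH hF hu J hJ hA h3 u s s' huT hu3 hs hs'
        hsu hus
  · exact even3_A hk hq S T hd hU hcS hcT h2k hH hF hu J hJ (by omega) (by omega)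

end

end Pool.Agent.P45
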