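import Pool.Agent.Lib.P45dba8.Labels

/-! # MP_45dba8: sides of labels are good, general set of divisors; the rule Q -/

set_option autoImplicit false

namespace Pool.Agent.P45

section side

variable {k : ℕ} {I D U : Finset ℕ} {σ : ℕ → ℕ}

/-- General form: `T` a set of divisors closed under divisors, all values are `1` or in `T`. -/
theorem side_good_T (T : Finset ℕ) (hTn : ∀ h ∈ T, h ∣ 4 * k + 1 ∧ 1 < h)
    (hTd : ∀ h ∈ T, ∀ g, g ∣ h → 1 < g → g ∈ T)
    (hI : I ⊆ Finset.Icc 1 (2 * k)) (hD : D ⊆ Finset.Icc 1 (2 * k))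
    (hU : U ⊆ Finset.Icc 1 (2 * k)) (hDU : Disjoint D U) (hID : Disjoint I D)
    (hIU : Disjoint I U) (hσ : Set.BijOn σ D U) (h0 : ℕ) (h0T : h0 ∈ T)
    (b0 : ℕ) (hb0 : b0 ∈ D) (hb : ¬ h0 ∣ b0) (hc : ¬ h0 ∣ σ b0)
    (cnt : ∀ h ∈ T, h ≠ h0 → 2 * T.card + ((4 * k + 1) / h - 1) / 2 ≤ D.card)
    (hval : ∀ d ∈ D, Nat.gcd (Nat.gcd (4 * k + 1) d) (σ d) = 1 ∨
      Nat.gcd (Nat.gcd (4 * k + 1) d) (σ d) ∈ T)
    (sing : ∀ i ∈ I, Nat.gcd (4 * k + 1) i = 1 ∨ ∃ d ∈ D,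
      d ≠ b0 ∧ Nat.gcd (Nat.gcd (4 * k + 1) d) (σ d) = Nat.gcd (4 * k + 1) i) :
    Good (4 * k + 1) IsUnit (fun i : {i // i ∈ I} => ((2 * i.1 : ℕ) : ZMod (4 * k + 1)))
      (fun d : {d // d ∈ D} => ((2 * d.1 : ℕ) : ZMod (4 * k + 1)))
      (fun d : {d // d ∈ D} => ((2 * σ d.1 : ℕ) : ZMod (4 * k + 1))) := by
  classical
  have hodd : Odd (4 * k + 1) := ⟨2 * k, by ring⟩
  have h0n : h0 ∣ 4 * k + 1 := (hTn h0 h0T).1
  have h2i : ∀ i, Nat.gcd (4 * k + 1) (2 * i) = Nat.gcd (4 * k + 1) i := fun i =>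
    (Nat.coprime_two_left.2 hodd).gcd_mul_left_cancel_right i
  obtain ⟨H, π, -, P⟩ := plan_count (n := 4 * k + 1) (t := fun i : {i // i ∈ I} => 2 * i.1)
    (a := fun d : {d // d ∈ D} => 2 * d.1) (b := fun d : {d // d ∈ D} => 2 * σ d.1)
    T h0 h0T ⟨b0, hb0⟩ (fun h hh => (hTn h hh).1)
    (fun h hh => (hTn h hh).2)
    (fun h hh d hd => by
      have h1 := nx_dvd (t := fun i : {i // i ∈ I} => 2 * i.1)
        (a := fun d : {d // d ∈ D} => 2 * d.1) (b := fun d : {d // d ∈ D} => 2 * σ d.1) h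
        (Sum.inr d)
      have h2 := (hTn h hh).2
      have h3 := Nat.pos_of_dvd_of_pos h1 (by omega)
      by_cases h4 : nx (fun i : {i // i ∈ I} => 2 * i.1) (fun d : {d // d ∈ D} => 2 * d.1)
        (fun d : {d // d ∈ D} => 2 * σ d.1) h (Sum.inr d) = 1
      · exact Or.inl h4
      · exact Or.inr (hTd h hh _ h1 (by omega)))
    (fun x => by
      rcases x with i | d
      · show Nat.gcd (4 * k + 1) (2 * i.1) = 1 ∨ Nat.gcd (4 * k + 1) (2 * i.1) ∈ _
        rw [h2i]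
        rcases sing i.1 i.2 with h | ⟨d, hd, -, h⟩
        · exact Or.inl h
        · rw [← h]
          exact hval d hd
      · rw [nx_two dvd_rfl]
        exact hval d.1 d.2)
    (by
      show ¬ h0 ∣ 2 * b0 ∧ ¬ h0 ∣ 2 * σ b0
      rw [dvd_two_mul_iff h0n, dvd_two_mul_iff h0n]
      exact ⟨hb, hc⟩)
    (fun h hh hne => by
      have h1 := avoid_card hD hU hDU hσ (hTn h hh).1
      have h2 := cnt h hh hne
      have h3 : ((Finset.univ : Finset {d // d ∈ D}).filter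
        (fun d => ¬ h ∣ 2 * d.1 ∧ ¬ h ∣ 2 * σ d.1)).card =
        ((Finset.univ : Finset {d // d ∈ D}).filter
        (fun d => ¬ h ∣ (fun d : {d // d ∈ D} => 2 * d.1) d ∧
          ¬ h ∣ (fun d : {d // d ∈ D} => 2 * σ d.1) d)).card := rfl
      omega)
    (fun i => by
      rcases sing i.1 i.2 with h | ⟨d, hd, h1, h2⟩
      · left
        show Nat.gcd (4 * k + 1) (2 * i.1) = 1
        rw [h2i, h]
      · right
        refine ⟨⟨d, hd⟩, fun h => h1 (congrArg Subtype.val h), ?_⟩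
        rw [nx_two dvd_rfl]
        show _ = Nat.gcd (4 * k + 1) (2 * i.1)
        rw [h2i, h2])
  exact P.good hodd (labels_TDist hI hD hU hDU hID hIU hσ)

/-- The divisors which are not multiples of `q`. -/
def DQ (n q : ℕ) : Finset ℕ := n.divisors.filter (fun h => 1 < h ∧ ¬ q ∣ h)

theorem mem_DQ {n q h : ℕ} (hn : 0 < n) : h ∈ DQ n q ↔ h ∣ n ∧ 1 < h ∧ ¬ q ∣ h := by
  rw [DQ, Finset.mem_filter, Nat.mem_divisors]
  exact ⟨fun h => ⟨h.1.1, h.2⟩, fun h => ⟨⟨h.1, by omega⟩, h.2⟩⟩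

/-- A bijection which extends a prescribed injection on `D0` and has a label with the property `p`
in every other pair. -/
theorem exists_bij_ext (D U : Finset ℕ) (hc : D.card = U.card) (p : ℕ → Prop) [DecidablePred p]
    (D0 : Finset ℕ) (hD0 : D0 ⊆ D) (τ : ℕ → ℕ) (hτ : ∀ d ∈ D0, τ d ∈ U)
    (hτi : Set.InjOn τ D0)
    (hcnt : ((D \ D0).filter (fun j => ¬ p j)).card +
      ((U \ D0.image τ).filter (fun j => ¬ p j)).card ≤ (D \ D0).card) :
    ∃ σ : ℕ → ℕ, Set.BijOn σ D U ∧ (∀ d ∈ D0, σ d = τ d) ∧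
      ∀ d ∈ D, d ∉ D0 → p d ∨ p (σ d) := by
  classical
  have himg : D0.image τ ⊆ U := by
    intro x hx
    obtain ⟨d, hd, rfl⟩ := Finset.mem_image.1 hx
    exact hτ d hd
  have hce : (D \ D0).card = (U \ D0.image τ).card := by
    rw [Finset.card_sdiff_of_subset hD0, Finset.card_sdiff_of_subset himg,
      Finset.card_image_of_injOn hτi, hc]
  let avl : {d // d ∈ D \ D0} → Finset ℕ := fun d =>
    if p d.1 then U \ D0.image τ else (U \ D0.image τ).filter p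
  have hsub : ∀ d, avl d ⊆ U \ D0.image τ := by
    intro d
    show (if p d.1 then U \ D0.image τ else (U \ D0.image τ).filter p) ⊆ _
    split_ifs
    · exact fun _ h => h
    · exact Finset.filter_subset _ _
  obtain ⟨f, hfi, hf⟩ := (Finset.all_card_le_biUnion_card_iff_exists_injective avl).1 (by
    intro s
    by_cases hs : ∃ d ∈ s, p d.1
    · obtain ⟨d, hd, hpd⟩ := hs
      have h1 : s.card ≤ (D \ D0).card := by
        have := Finset.card_le_univ s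
        rwa [Fintype.card_coe] at this
      have h2 : avl d = U \ D0.image τ := if_pos hpd
      have h3 := Finset.card_le_card (Finset.subset_biUnion_of_mem avl hd)
      rw [h2] at h3
      omega
    · push Not at hs
      rcases s.eq_empty_or_nonempty with rfl | ⟨d, hd⟩
      · simp
      have h1 : s.card ≤ ((D \ D0).filter (fun j => ¬ p j)).card := by
        rw [← Finset.card_map (Function.Embedding.subtype _)]
        refine Finset.card_le_card ?_
        intro x hx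
        obtain ⟨y, hy, rfl⟩ := Finset.mem_map.1 hx
        exact Finset.mem_filter.2 ⟨y.2, hs y hy⟩
      have h2 : avl d = (U \ D0.image τ).filter p := if_neg (hs d hd)
      have h3 := Finset.card_le_card (Finset.subset_biUnion_of_mem avl hd)
      have h4 := Finset.card_filter_add_card_filter_not (s := U \ D0.image τ) p
      rw [h2] at h3
      omega)
  let σ : ℕ → ℕ := fun d => if hd : d ∈ D \ D0 then f ⟨d, hd⟩ else τ d
  have s0 : ∀ d ∈ D0, σ d = τ d := fun d hd => dif_neg (by simp [hd])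
  have s1 : ∀ d (hd : d ∈ D \ D0), σ d = f ⟨d, hd⟩ := fun d hd => dif_pos hd
  have hmaps : Set.MapsTo σ (D : Set ℕ) (U : Set ℕ) := by
    intro d hd
    by_cases h : d ∈ D0
    · rw [s0 d h]; exact hτ d h
    · rw [s1 d (Finset.mem_sdiff.2 ⟨hd, h⟩)]
      exact (Finset.mem_sdiff.1 (hsub _ (hf _))).1
  have hinj : Set.InjOn σ (D : Set ℕ) := by
    intro d hd d' hd' h
    by_cases h1 : d ∈ D0
    · by_cases h2 : d' ∈ D0
      · rw [s0 d h1, s0 d' h2] at h
        exact hτi h1 h2 h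
      · exfalso
        rw [s0 d h1, s1 d' (Finset.mem_sdiff.2 ⟨hd', h2⟩)] at h
        have h3 := (Finset.mem_sdiff.1 (hsub _ (hf ⟨d', Finset.mem_sdiff.2 ⟨hd', h2⟩⟩))).2
        rw [← h] at h3
        exact h3 (Finset.mem_image_of_mem τ h1)
    · by_cases h2 : d' ∈ D0
      · exfalso
        rw [s0 d' h2, s1 d (Finset.mem_sdiff.2 ⟨hd, h1⟩)] at h
        have h3 := (Finset.mem_sdiff.1 (hsub _ (hf ⟨d, Finset.mem_sdiff.2 ⟨hd, h1⟩⟩))).2
        rw [h] at h3
        exact h3 (Finset.mem_image_of_mem τ h2)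
      · rw [s1 d (Finset.mem_sdiff.2 ⟨hd, h1⟩), s1 d' (Finset.mem_sdiff.2 ⟨hd', h2⟩)] at h
        exact congrArg Subtype.val (hfi h)
  refine ⟨σ, ⟨hmaps, hinj, ?_⟩, s0, ?_⟩
  · have h1 : D.image σ = U := by
      refine Finset.eq_of_subset_of_card_le ?_ ?_
      · intro x hx
        obtain ⟨d, hd, rfl⟩ := Finset.mem_image.1 hx
        exact hmaps hd
      · rw [Finset.card_image_of_injOn hinj, hc]
    intro x hx
    have h2 : x ∈ D.image σ := by rw [h1]; exact hx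
    obtain ⟨d, hd, rfl⟩ := Finset.mem_image.1 h2
    exact ⟨d, hd, rfl⟩
  · intro d hd hne
    have h1 := hf ⟨d, Finset.mem_sdiff.2 ⟨hd, hne⟩⟩
    by_cases h2 : p d
    · exact Or.inl h2
    · right
      have h3 : avl ⟨d, Finset.mem_sdiff.2 ⟨hd, hne⟩⟩ = (U \ D0.image τ).filter p := if_neg h2
      rw [h3] at h1
      rw [s1 d (Finset.mem_sdiff.2 ⟨hd, hne⟩)]
      exact (Finset.mem_filter.1 h1).2

/-- Rule Q: prescribed pairs `(d, τ d)`, `d ∈ D0`, among them the host `(b0, τ b0)` of `h0` and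
the anchors of the singles; no pair lies in `q ℤ`. -/
theorem side_exists_Q (q : ℕ) (hq : q ∣ 4 * k + 1) (hI : I ⊆ Finset.Icc 1 (2 * k))
    (hD : D ⊆ Finset.Icc 1 (2 * k)) (hU : U ⊆ Finset.Icc 1 (2 * k)) (hDU : Disjoint D U)
    (hID : Disjoint I D) (hIU : Disjoint I U) (hcard : D.card = U.card) (h0 : ℕ)
    (h0T : h0 ∈ DQ (4 * k + 1) q) (D0 : Finset ℕ) (hD0 : D0 ⊆ D) (τ : ℕ → ℕ)
    (hτ : ∀ d ∈ D0, τ d ∈ U) (hτi : Set.InjOn τ D0) (b0 : ℕ) (hb0 : b0 ∈ D0)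
    (hb : ¬ h0 ∣ b0) (hc : ¬ h0 ∣ τ b0) (hbc : ∀ d ∈ D0, ¬ q ∣ d ∨ ¬ q ∣ τ d)
    (hmq : ((4 * k + 1) / q - 1) / 2 + D0.card ≤ D.card)
    (cnt : ∀ h ∈ DQ (4 * k + 1) q, h ≠ h0 →
      2 * (DQ (4 * k + 1) q).card + ((4 * k + 1) / h - 1) / 2 ≤ D.card)
    (sing : ∀ i ∈ I, Nat.gcd (4 * k + 1) i = 1 ∨ ∃ d ∈ D0,
      d ≠ b0 ∧ Nat.gcd (Nat.gcd (4 * k + 1) d) (τ d) = Nat.gcd (4 * k + 1) i) :
    ∃ σ : ℕ → ℕ, Set.BijOn σ D U ∧ (∀ d ∈ D0, σ d = τ d) ∧
      Good (4 * k + 1) IsUnit (fun i : {i // i ∈ I} => ((2 * i.1 : ℕ) : ZMod (4 * k + 1)))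
        (fun d : {d // d ∈ D} => ((2 * d.1 : ℕ) : ZMod (4 * k + 1)))
        (fun d : {d // d ∈ D} => ((2 * σ d.1 : ℕ) : ZMod (4 * k + 1))) := by
  classical
  have hcnt : ((D \ D0).filter (fun j => ¬ ¬ q ∣ j)).card +
      ((U \ D0.image τ).filter (fun j => ¬ ¬ q ∣ j)).card ≤ (D \ D0).card := by
    have h1 : ((D \ D0).filter (fun j => ¬ ¬ q ∣ j)).card +
        ((U \ D0.image τ).filter (fun j => ¬ ¬ q ∣ j)).card ≤
        ((Finset.Icc 1 (2 * k)).filter (fun j => q ∣ j)).card := by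
      rw [← Finset.card_union_of_disjoint]
      · refine Finset.card_le_card ?_
        intro x hx
        rcases Finset.mem_union.1 hx with hx | hx
        · have h2 := Finset.mem_filter.1 hx
          exact Finset.mem_filter.2 ⟨hD (Finset.mem_sdiff.1 h2.1).1, not_not.1 h2.2⟩
        · have h2 := Finset.mem_filter.1 hx
          exact Finset.mem_filter.2 ⟨hU (Finset.mem_sdiff.1 h2.1).1, not_not.1 h2.2⟩
      · rw [Finset.disjoint_left]
        intro x hx hx'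
        exact Finset.disjoint_left.1 hDU (Finset.mem_sdiff.1 (Finset.mem_filter.1 hx).1).1
          (Finset.mem_sdiff.1 (Finset.mem_filter.1 hx').1).1
    rw [card_mult k q hq] at h1
    have h2 := Finset.card_sdiff_of_subset hD0
    omega
  obtain ⟨σ, hσ, h1, h2⟩ := exists_bij_ext D U hcard (fun j => ¬ q ∣ j) D0 hD0 τ hτ hτi hcnt
  refine ⟨σ, hσ, h1, ?_⟩
  refine side_good_T (DQ (4 * k + 1) q) (fun h hh => ⟨((mem_DQ (by omega)).1 hh).1,
    ((mem_DQ (by omega)).1 hh).2.1⟩) ?_ hI hD hU hDU hID hIU hσ h0 h0T b0 (hD0 hb0) hb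
    (by rw [h1 b0 hb0]; exact hc) cnt ?_ ?_
  · intro h hh g hg hg1
    obtain ⟨a1, a2, a3⟩ := (mem_DQ (by omega)).1 hh
    exact (mem_DQ (by omega)).2 ⟨hg.trans a1, hg1, fun h' => a3 (h'.trans hg)⟩
  · intro d hd
    have hnq : ¬ q ∣ Nat.gcd (Nat.gcd (4 * k + 1) d) (σ d) := by
      intro h
      have g1 : q ∣ d := (h.trans (Nat.gcd_dvd_left _ _)).trans (Nat.gcd_dvd_right _ _)
      have g2 : q ∣ σ d := h.trans (Nat.gcd_dvd_right _ _)
      by_cases hdb : d ∈ D0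
      · rw [h1 d hdb] at g2
        rcases hbc d hdb with h3 | h3
        · exact h3 g1
        · exact h3 g2
      · rcases h2 d hd hdb with h3 | h3
        · exact h3 g1
        · exact h3 g2
    have hdv : Nat.gcd (Nat.gcd (4 * k + 1) d) (σ d) ∣ 4 * k + 1 :=
      (Nat.gcd_dvd_left _ _).trans (Nat.gcd_dvd_left _ _)
    have hpos := Nat.pos_of_dvd_of_pos hdv (by omega)
    by_cases h3 : Nat.gcd (Nat.gcd (4 * k + 1) d) (σ d) = 1
    · exact Or.inl h3
    · exact Or.inr ((mem_DQ (by omega)).2 ⟨hdv, by omega, hnq⟩)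
  · intro i hi
    rcases sing i hi with h3 | ⟨d, hd, h3, h4⟩
    · exact Or.inl h3
    · exact Or.inr ⟨d, hD0 hd, h3, by rw [h1 d hd]; exact h4⟩

end side

end Pool.Agent.P45
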