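import Pool.Agent.Lib.P45dba8.Even3
import Pool.Agent.Lib.P45dba8.Labels2
import Pool.Agent.Lib.P45dba8.Runs

/-! # MP_45dba8: small `n`, `k` even -/

set_option autoImplicit false

namespace Pool.Agent.P45

/-- All values are `1`. -/
theorem side_good_one {k : ℕ} {I D U : Finset ℕ} {σ : ℕ → ℕ} (hI : I ⊆ Finset.Icc 1 (2 * k))
    (hD : D ⊆ Finset.Icc 1 (2 * k)) (hU : U ⊆ Finset.Icc 1 (2 * k)) (hDU : Disjoint D U)
    (hID : Disjoint I D) (hIU : Disjoint I U) (hσ : Set.BijOn σ D U)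
    (hval : ∀ d ∈ D, Nat.gcd (Nat.gcd (4 * k + 1) d) (σ d) = 1)
    (sing : ∀ i ∈ I, Nat.gcd (4 * k + 1) i = 1) :
    Good (4 * k + 1) IsUnit (fun i : {i // i ∈ I} => ((2 * i.1 : ℕ) : ZMod (4 * k + 1)))
      (fun d : {d // d ∈ D} => ((2 * d.1 : ℕ) : ZMod (4 * k + 1)))
      (fun d : {d // d ∈ D} => ((2 * σ d.1 : ℕ) : ZMod (4 * k + 1))) := by
  have hodd : Odd (4 * k + 1) := ⟨2 * k, by ring⟩
  have h2i : ∀ i, Nat.gcd (4 * k + 1) (2 * i) = Nat.gcd (4 * k + 1) i := fun i =>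
    (Nat.coprime_two_left.2 hodd).gcd_mul_left_cancel_right i
  have hv : ∀ x, nx (fun i : {i // i ∈ I} => 2 * i.1) (fun d : {d // d ∈ D} => 2 * d.1)
      (fun d : {d // d ∈ D} => 2 * σ d.1) (4 * k + 1) x = 1 := by
    rintro (i | d)
    · show Nat.gcd (4 * k + 1) (2 * i.1) = 1
      rw [h2i]
      exact sing i.1 i.2
    · rw [nx_two dvd_rfl]
      exact hval d.1 d.2
  rcases isEmpty_or_nonempty ({i // i ∈ I} ⊕ {d // d ∈ D}) with hE | ⟨⟨x0⟩⟩
  · have h1 : IsEmpty {i // i ∈ I} := ⟨fun i => hE.false (Sum.inl i)⟩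
    have h2 : IsEmpty {d // d ∈ D} := ⟨fun i => hE.false (Sum.inr i)⟩
    exact good_empty _ _ _
  · refine Plan.good (H := ∅) (π := fun _ => x0) hodd
      (labels_TDist hI hD hU hDU hID hIU hσ) ?_
    refine ⟨?_, ?_, ?_, ?_, ?_, fun x _ => Or.inl (hv x), ?_, ?_⟩ <;> simp

theorem gcd3_dvd {n d u g : ℕ} (h : g ∣ Nat.gcd (Nat.gcd n d) u) : g ∣ d ∧ g ∣ u :=
  ⟨(h.trans (Nat.gcd_dvd_left _ _)).trans (Nat.gcd_dvd_right _ _), h.trans (Nat.gcd_dvd_right _ _)⟩

/-- The value is `1` if no prime divides everything. -/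
theorem gcd3_one {n d u : ℕ} (h : ∀ p, p.Prime → p ∣ n → p ∣ d → p ∣ u → False) :
    Nat.gcd (Nat.gcd n d) u = 1 := by
  by_contra hne
  obtain ⟨p, hp, hpg⟩ := Nat.exists_prime_and_dvd hne
  obtain ⟨h1, h2⟩ := gcd3_dvd hpg
  exact h p hp ((hpg.trans (Nat.gcd_dvd_left _ _)).trans (Nat.gcd_dvd_left _ _)) h1 h2

/-- A bijection without two labels with the property `M` in one pair. -/
theorem exists_bij_free (D U : Finset ℕ) (hc : D.card = U.card) (hDU : Disjoint D U)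
    (M : ℕ → Prop) [DecidablePred M] (hM : ((D ∪ U).filter M).card ≤ D.card) :
    ∃ σ : ℕ → ℕ, Set.BijOn σ D U ∧ ∀ d ∈ D, ¬ (M d ∧ M (σ d)) := by
  classical
  obtain ⟨σ, h1, -, h3⟩ := exists_bij_ext D U hc (fun j => ¬ M j) ∅ (Finset.empty_subset _)
    (fun _ => 0) (fun d hd => absurd hd (Finset.notMem_empty _)) (by simp) (by
      have e1 : D \ ∅ = D := Finset.sdiff_empty
      have e2 : U \ (∅ : Finset ℕ).image (fun _ => 0) = U := by simp
      rw [e1, e2, ← Finset.card_union_of_disjoint, ← Finset.filter_union]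
      · simpa using hM
      · exact Finset.disjoint_filter_filter hDU)
  exact ⟨σ, h1, fun d hd ⟨h4, h5⟩ => by
    rcases h3 d hd (Finset.notMem_empty _) with h | h
    · exact h h4
    · exact h h5⟩

section threep

variable {k p : ℕ} (hp : p.Prime) (hp3 : 3 < p) (hn : 4 * k + 1 = 3 * p)

include hp hp3 hn

theorem threep_mult {d : ℕ} (h1 : d ∈ Finset.Icc 1 (2 * k)) (h : p ∣ d) : d = p := by
  rw [Finset.mem_Icc] at h1
  obtain ⟨c, rfl⟩ := h
  have h2 : c < 2 := by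
    by_contra hcon
    have : p * 2 ≤ p * c := Nat.mul_le_mul_left p (by omega)
    omega
  have h3 : c ≠ 0 := by
    rintro rfl
    omega
  have : c = 1 := by omega
  rw [this, mul_one]

theorem threep_prime {q : ℕ} (hq : q.Prime) (h : q ∣ 4 * k + 1) : q = 3 ∨ q = p := by
  rw [hn] at h
  rcases (Nat.Prime.dvd_mul hq).1 h with h | h
  · exact Or.inl ((Nat.prime_dvd_prime_iff_eq hq Nat.prime_three).1 h)
  · exact Or.inr ((Nat.prime_dvd_prime_iff_eq hq hp).1 h)

theorem threep_free : FreeOK k 0 := by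
  intro D U hD hU hDU hc _ hM
  obtain ⟨σ, hσ, h1⟩ := exists_bij_free D U hc hDU (fun j => 3 ∣ j) hM
  refine ⟨σ, hσ, side_good_one (Finset.empty_subset _) hD hU hDU
    (Finset.disjoint_empty_left _) (Finset.disjoint_empty_left _) hσ ?_
    (fun i hi => absurd hi (Finset.notMem_empty _))⟩
  intro d hd
  refine gcd3_one ?_
  intro r hr hrn h2 h3
  rcases threep_prime hp hp3 hn hr hrn with rfl | rfl
  · exact h1 d hd ⟨h2, h3⟩
  · have e1 := threep_mult hp hp3 hn (hD hd) h2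
    have e2 := threep_mult hp hp3 hn (hU (hσ.mapsTo hd)) h3
    exact Finset.disjoint_left.1 hDU hd (by rw [e1, ← e2]; exact hσ.mapsTo hd)

theorem threep_host : HostOK k 2 := by
  classical
  intro D U hD hU hDU hc hpD b hb hb3 c hcU hc3
  have hDQ : DQ (4 * k + 1) p = {3} := by
    ext h
    rw [mem_DQ (by omega), Finset.mem_singleton, hn]
    constructor
    · rintro ⟨h1, h2, h3⟩
      have hcop : Nat.Coprime h p := (Nat.Prime.coprime_iff_not_dvd hp).2 h3 |>.symm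
      have h4 := hcop.dvd_of_dvd_mul_right h1
      rcases (Nat.dvd_prime Nat.prime_three).1 h4 with h5 | h5
      · omega
      · exact h5
    · rintro rfl
      refine ⟨⟨p, rfl⟩, by norm_num, ?_⟩
      intro h
      have := Nat.le_of_dvd (by norm_num) h
      omega
  obtain ⟨σ, h1, -, h3⟩ := side_exists_Q (k := k) (I := ∅) (D := D) (U := U) p
    ⟨3, by rw [hn, mul_comm]⟩ (Finset.empty_subset _) hD hU hDU (Finset.disjoint_empty_left _)
    (Finset.disjoint_empty_left _) hc 3 (by rw [hDQ]; exact Finset.mem_singleton_self 3) {b}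
    (Finset.singleton_subset_iff.2 hb) (fun _ => c) (fun _ _ => hcU)
    (by simp) b (Finset.mem_singleton_self b) hb3 hc3 (by
      intro d hd
      rw [Finset.mem_singleton.1 hd]
      by_contra hcon
      push Not at hcon
      have e1 := threep_mult hp hp3 hn (hD hb) hcon.1
      have e2 := threep_mult hp hp3 hn (hU hcU) hcon.2
      exact Finset.disjoint_left.1 hDU hb (by rw [e1, ← e2]; exact hcU)) (by
      rw [hn, Nat.mul_div_cancel _ hp.pos, Finset.card_singleton]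
      omega) (by
      intro h hh hne
      rw [hDQ] at hh
      exact absurd (Finset.mem_singleton.1 hh) hne) (fun i hi => absurd hi (Finset.notMem_empty _))
  exact ⟨σ, h1, h3⟩

theorem threep_unit : UnitOK k := by
  intro a b hab ha1 ha2 hb1 hb2 ha3 hb3
  have key : ∀ x, 1 ≤ x → x < 2 * k → ¬ 3 ∣ x → x ≠ p → Nat.gcd (4 * k + 1) x = 1 := by
    intro x h1 h2 h3 h4
    by_contra hne
    obtain ⟨r, hr, hrg⟩ := Nat.exists_prime_and_dvd hne
    have h5 := hrg.trans (Nat.gcd_dvd_left _ _)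
    have h6 := hrg.trans (Nat.gcd_dvd_right _ _)
    rcases threep_prime hp hp3 hn hr h5 with rfl | rfl
    · exact h3 h6
    · exact h4 (threep_mult hp hp3 hn (Finset.mem_Icc.2 ⟨h1, h2.le⟩) h6)
  by_cases h : a = p
  · right
    exact key b hb1 hb2 hb3 (fun h' => hab (h.trans h'.symm))
  · left
    exact key a ha1 ha2 ha3 h

theorem threep_cop (w : ℤ) : ∃ r : ℕ, r ≤ 2 ∧ IsCoprime (w + r) (4 * k + 1 : ℤ) := by
  have hn' : (4 * k + 1 : ℤ) = 3 * p := by exact_mod_cast hn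
  have hP : Prime (p : ℤ) := Nat.prime_iff_prime_int.1 hp
  have h3 : Prime (3 : ℤ) := Int.prime_three
  have key : ∀ x : ℤ, ¬ (3 : ℤ) ∣ x → ¬ (p : ℤ) ∣ x → IsCoprime x (4 * k + 1 : ℤ) := by
    intro x h1 h2
    rw [hn']
    refine IsCoprime.mul_right ?_ ?_
    · exact ((Prime.coprime_iff_not_dvd h3).2 h1).symm
    · exact ((Prime.coprime_iff_not_dvd hP).2 h2).symm
  -- two of the three numbers are not multiples of 3
  have two : ∃ r s : ℕ, r ≤ 2 ∧ s ≤ 2 ∧ r < s ∧ ¬ (3 : ℤ) ∣ (w + r) ∧ ¬ (3 : ℤ) ∣ (w + s) := by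
    have h4 : w % 3 = 0 ∨ w % 3 = 1 ∨ w % 3 = 2 := by omega
    rcases h4 with h | h | h
    · exact ⟨1, 2, by norm_num, by norm_num, by norm_num, by push_cast; omega, by push_cast; omega⟩
    · exact ⟨0, 1, by norm_num, by norm_num, by norm_num, by push_cast; omega, by push_cast; omega⟩
    · exact ⟨0, 2, by norm_num, by norm_num, by norm_num, by push_cast; omega, by push_cast; omega⟩
  obtain ⟨r, s, hr, hs, hrs, hr3, hs3⟩ := two
  by_cases h : (p : ℤ) ∣ (w + r)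
  · refine ⟨s, hs, key _ hs3 ?_⟩
    intro h'
    have h5 : (p : ℤ) ∣ ((s : ℤ) - r) := by
      have := dvd_sub h' h
      rwa [show w + (s : ℤ) - (w + r) = s - r by ring] at this
    have h6 := Int.le_of_dvd (by omega) h5
    omega
  · exact ⟨r, hr, key _ hr3 h⟩

end threep

/-- The hypothesis of `frozen_of_labels` for all `S`. -/
def LayOK (k : ℕ) : Prop := ∀ S : Finset ℕ, S ⊆ Finset.Icc 1 (2 * k) → S.card = k →
  ∃ (v v' : ZMod (4 * k + 1)) (A : Finset (ZMod (4 * k + 1))), v * v' = 1 ∧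
      A.card = 2 * k ∧ EG (LSet k (LW k S v)) A ∧
      EG (LSet k (LW k (Finset.Icc 1 (2 * k) \ S) v)) A

/-- The reduction to words with at least `m` boundaries. -/
theorem lay_of_words (k m : ℕ) (hk : 1 ≤ k)
    (hb : ∀ S : Finset ℕ, S ⊆ Finset.Icc 1 (2 * k) → S.card = k →
      ∃ v : ZMod (4 * k + 1), IsUnit v ∧
        m ≤ (Bd (LW k S v) (LW k (Finset.Icc 1 (2 * k) \ S) v) (2 * k)).card)
    (hw : ∀ S T : Finset ℕ, Disjoint S T → S ∪ T = Finset.Icc 1 (2 * k) → S.card = k →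
      T.card = k → 2 * k ∈ T → m ≤ (Bd S T (2 * k)).card →
      ∃ A : Finset (ZMod (4 * k + 1)), A.card = 2 * k ∧ EG (LSet k S) A ∧ EG (LSet k T) A) :
    LayOK k := by
  intro S hS hc
  obtain ⟨v, hv, hbv⟩ := hb S hS hc
  obtain ⟨v', hv'⟩ := hv.exists_right_inv
  have h1 := LW_card hk S hS v hv
  have h2 : (LW k (Finset.Icc 1 (2 * k) \ S) v).card = k := by
    rw [LW_card hk _ Finset.sdiff_subset v hv, Finset.card_sdiff_of_subset hS, Nat.card_Icc, hc]
    omega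
  have hd := LW_disjoint S hS v hv
  have hU : LW k S v ∪ LW k (Finset.Icc 1 (2 * k) \ S) v = Finset.Icc 1 (2 * k) := by
    rw [LW_compl S hS v hv]
    exact Finset.union_sdiff_of_subset (LW_subset S v)
  rcases LW_cover S hS v hv (2 * k) (by omega) le_rfl with h | h
  · obtain ⟨A, a1, a2, a3⟩ := hw _ _ hd.symm (by rw [Finset.union_comm]; exact hU) h2
      (by rw [h1, hc]) h (by rw [Bd_comm]; exact hbv)
    exact ⟨v, v', A, hv', a1, a3, a2⟩
  · obtain ⟨A, a1, a2, a3⟩ := hw _ _ hd hU (by rw [h1, hc]) h2 h hbv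
    exact ⟨v, v', A, hv', a1, a2, a3⟩

/-- Many boundaries, if the Moebius condition holds with a number `B` larger than `4k/3`. -/
theorem bd_of_moebius (k B : ℕ) (hk : 1 ≤ k) (hBk : 4 * k < 3 * B)
    (hB : ∀ m, m ∣ 4 * k + 1 → m ≠ 1 → ArithmeticFunction.moebius m = 1 → B ≤ Nat.totient m)
    (S : Finset ℕ) (hS : S ⊆ Finset.Icc 1 (2 * k)) (hc : S.card = k) :
    ∃ v : ZMod (4 * k + 1), IsUnit v ∧
      k ≤ (Bd (LW k S v) (LW k (Finset.Icc 1 (2 * k) \ S) v) (2 * k)).card := by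
  obtain ⟨v, hv, h⟩ := exists_unit_bd hk S hS hc B hB
  refine ⟨v, hv, ?_⟩
  by_contra hcon
  push Not at hcon
  set b := (Bd (LW k S v) (LW k (Finset.Icc 1 (2 * k) \ S) v) (2 * k)).card with hb
  have h1 : (3 : ℤ) ≤ 4 * (k : ℤ) - 1 - 4 * (b : ℤ) := by
    have : (b : ℤ) + 1 ≤ k := by exact_mod_cast hcon
    linarith
  have h2 : (B : ℤ) * 3 ≤ (B : ℤ) * (4 * (k : ℤ) - 1 - 4 * (b : ℤ)) :=
    mul_le_mul_of_nonneg_left h1 (by positivity)
  have h3 : (4 * k : ℤ) < 3 * B := by exact_mod_cast hBk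
  linarith

end Pool.Agent.P45
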