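import Pool.Agent.Lib.P45dba8.Even3b
import Pool.Agent.Lib.P45dba8.SmallEven

/-! # MP_45dba8: `n = 3p` with `k` even, and `n = 81` -/

set_option autoImplicit false

namespace Pool.Agent.P45

theorem moebius_pq {p q m : ℕ} (hp : p.Prime) (hq : q.Prime) (hpq : p ≠ q) (hm : m ∣ p * q)
    (h1 : m ≠ 1) (h2 : ArithmeticFunction.moebius m = 1) :
    (p - 1) * (q - 1) ≤ Nat.totient m := by
  have hmp : ∀ r : ℕ, r.Prime → m ≠ r := by
    rintro r hr rfl
    rw [ArithmeticFunction.moebius_apply_prime hr] at h2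
    norm_num at h2
  obtain ⟨a, b, ha, hb, rfl⟩ := (Nat.dvd_mul).1 hm
  rcases (Nat.dvd_prime hp).1 ha with rfl | rfl
  · rcases (Nat.dvd_prime hq).1 hb with rfl | rfl
    · exact absurd rfl h1
    · exact absurd (one_mul _) (hmp _ hq)
  · rcases (Nat.dvd_prime hq).1 hb with rfl | rfl
    · exact absurd (mul_one _) (hmp _ hp)
    · rw [Nat.totient_mul ((Nat.coprime_primes hp hq).2 hpq), Nat.totient_prime hp,
        Nat.totient_prime hq]

theorem HostOK.mono {k p p' : ℕ} (h : HostOK k p) (hp : p ≤ p') : HostOK k p' :=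
  fun D U hD hU hDU hc hpD => h D U hD hU hDU hc (hp.trans hpD)

theorem FreeOK.mono {k p p' : ℕ} (h : FreeOK k p) (hp : p ≤ p') : FreeOK k p' :=
  fun D U hD hU hDU hc hpD => h D U hD hU hDU hc (hp.trans hpD)

/-- The labels of `T` outside `3 ℤ`. -/
theorem erase_count {k q : ℕ} (hk : k = 2 * q) (h3n : (4 * k + 1) % 3 = 0) {T : Finset ℕ}
    (hT : T ⊆ Finset.Icc 1 (2 * k)) (hcT : T.card = k) (h2k : 2 * k ∈ T) :
    2 * q - 1 ≤ ((T.erase (2 * k)).filter (fun j => ¬ 3 ∣ j)).card +
      ((4 * k + 1) / 3 - 1) / 2 := by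
  have h1 := Finset.card_filter_add_card_filter_not (s := T.erase (2 * k)) (fun j => 3 ∣ j)
  have h2 : ((T.erase (2 * k)).filter (fun j => 3 ∣ j)).card ≤ ((4 * k + 1) / 3 - 1) / 2 := by
    rw [← card_mult k 3 (by omega)]
    exact Finset.card_le_card (Finset.filter_subset_filter _ ((Finset.erase_subset _ _).trans hT))
  rw [Finset.card_erase_of_mem h2k, hcT] at h1
  omega

/-- `n = 3p`, `k = 2q` even, `p ≥ 19`. -/
theorem lay_threep (k q p : ℕ) (hp : p.Prime) (hp3 : 17 < p) (hn : 4 * k + 1 = 3 * p)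
    (hk : k = 2 * q) : LayOK k := by
  refine lay_of_words k (k - 1) (by omega) ?_ ?_
  · intro S hS hc
    obtain ⟨v, hv, h⟩ := bd_of_moebius k (2 * (p - 1)) (by omega) (by omega) (by
      intro m hm h1 h2
      rw [hn] at hm
      exact moebius_pq Nat.prime_three hp (by omega) hm h1 h2) S hS hc
    exact ⟨v, hv, by omega⟩
  · intro S T hd hU hcS hcT h2k hb
    have hT : T ⊆ Finset.Icc 1 (2 * k) := hU ▸ Finset.subset_union_right
    refine even3_all hk (by omega) S T hd hU hcS hcT h2k (by omega)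
      ((threep_host hp (by omega) hn).mono (by omega)) ((threep_free hp (by omega) hn).mono
        (by omega)) (threep_unit hp (by omega) hn) 2 (by omega)
      (fun w => threep_cop hp (by omega) hn w) ?_ hb
    have := erase_count hk (by omega) hT hcT h2k
    omega

theorem lay14 : LayOK 14 := lay_threep 14 7 19 (by norm_num) (by norm_num) (by norm_num)
  (by norm_num)

/-- A bijection with a prescribed pair. -/
theorem exists_bij_pair (D U : Finset ℕ) (hc : D.card = U.card) (b c : ℕ) (hb : b ∈ D)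
    (hcU : c ∈ U) : ∃ σ : ℕ → ℕ, Set.BijOn σ D U ∧ σ b = c := by
  obtain ⟨σ, h1, h2, -⟩ := exists_bij_prop D U hc (fun _ => True) b c hb hcU (by simp)
  exact ⟨σ, h1, h2⟩

theorem eightyone_prime {r : ℕ} (hr : r.Prime) (h : r ∣ 4 * 20 + 1) : r = 3 := by
  have h1 : (4 * 20 + 1 : ℕ) = 3 ^ 4 := by norm_num
  rw [h1] at h
  exact (Nat.prime_dvd_prime_iff_eq hr Nat.prime_three).1 (hr.dvd_of_dvd_pow h)

theorem lay20 : LayOK 20 := by
  classical
  have hfree : FreeOK 20 9 := by
    intro D U hD hU hDU hc _ hM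
    obtain ⟨σ, hσ, h1⟩ := exists_bij_free D U hc hDU (fun j => 3 ∣ j) hM
    refine ⟨σ, hσ, side_good_one (Finset.empty_subset _) hD hU hDU
      (Finset.disjoint_empty_left _) (Finset.disjoint_empty_left _) hσ ?_
      (fun i hi => absurd hi (Finset.notMem_empty _))⟩
    intro d hd
    refine gcd3_one ?_
    intro r hr hrn h2 h3
    rw [eightyone_prime hr hrn] at h2 h3
    exact h1 d hd ⟨h2, h3⟩
  have hhost : HostOK 20 9 := by
    intro D U hD hU hDU hc hpD b hb hb3 c hcU hc3
    obtain ⟨σ, hσ, hσb⟩ := exists_bij_pair D U hc b c hb hcU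
    refine ⟨σ, hσ, side_good_T (k := 20) {3, 9} ?_ ?_ (Finset.empty_subset _) hD hU hDU
      (Finset.disjoint_empty_left _) (Finset.disjoint_empty_left _) hσ 3 (by simp) b hb hb3
      (by rw [hσb]; exact hc3) ?_ ?_ (fun i hi => absurd hi (Finset.notMem_empty _))⟩
    · intro h hh
      simp only [Finset.mem_insert, Finset.mem_singleton] at hh
      rcases hh with rfl | rfl <;> norm_num
    · intro h hh g hg hg1
      have h9 : g ∣ 9 := by
        simp only [Finset.mem_insert, Finset.mem_singleton] at hh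
        rcases hh with rfl | rfl
        · exact hg.trans (by norm_num)
        · exact hg
      have h10 : g ≤ 9 := Nat.le_of_dvd (by norm_num) h9
      interval_cases g <;> simp_all
    · intro h hh hne
      simp only [Finset.mem_insert, Finset.mem_singleton] at hh
      rcases hh with rfl | rfl
      · exact absurd rfl hne
      · have : ({3, 9} : Finset ℕ).card = 2 := by decide
        rw [this]
        omega
    · intro d hd
      have hU' := hU (hσ.mapsTo hd)
      have hD' := hD hd
      have hne : d ≠ σ d := fun h => Finset.disjoint_left.1 hDU hd (by rw [h]; exact hσ.mapsTo hd)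
      rw [Finset.mem_Icc] at hU' hD'
      obtain ⟨e, he⟩ : ∃ e, σ d = e := ⟨_, rfl⟩
      rw [he] at hU' hne ⊢
      have hg : Nat.gcd (Nat.gcd (4 * 20 + 1) d) e ∣ 3 ^ 4 :=
        (Nat.gcd_dvd_left _ _).trans (Nat.gcd_dvd_left _ _)
      obtain ⟨i, hi, hgi⟩ := (Nat.dvd_prime_pow Nat.prime_three).1 hg
      have h27 : ¬ 27 ∣ Nat.gcd (Nat.gcd (4 * 20 + 1) d) e := by
        intro h
        obtain ⟨h1, h2⟩ := gcd3_dvd h
        obtain ⟨x, hx⟩ := h1
        obtain ⟨y, hy⟩ := h2
        omega
      rw [hgi] at h27 ⊢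
      have hi' : i < 3 := by
        by_contra hcon
        exact h27 (by
          have : (27 : ℕ) = 3 ^ 3 := by norm_num
          rw [this]
          exact pow_dvd_pow 3 (by omega))
      interval_cases i <;> simp
  refine lay_of_words 20 19 (by norm_num) ?_ ?_
  · intro S hS hc
    obtain ⟨v, hv, h⟩ := bd_of_moebius 20 100 (by norm_num) (by norm_num) (by
      intro m hm h1 h2
      exfalso
      have h3 : (4 * 20 + 1 : ℕ) = 3 ^ 4 := by norm_num
      rw [h3] at hm
      obtain ⟨i, hi, rfl⟩ := (Nat.dvd_prime_pow Nat.prime_three).1 hm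
      rcases Nat.lt_or_ge i 2 with h4 | h4
      · interval_cases i
        · exact h1 rfl
        · rw [pow_one, ArithmeticFunction.moebius_apply_prime Nat.prime_three] at h2
          norm_num at h2
      · rw [ArithmeticFunction.moebius_apply_prime_pow Nat.prime_three (by omega),
          if_neg (by omega)] at h2
        norm_num at h2) S hS hc
    exact ⟨v, hv, by omega⟩
  · intro S T hd hU hcS hcT h2k hb
    have hT : T ⊆ Finset.Icc 1 (2 * 20) := hU ▸ Finset.subset_union_right
    refine even3_all (q := 10) (by norm_num) (by norm_num) S T hd hU hcS hcT h2k (by norm_num)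
      hhost hfree ?_ 1 (by norm_num) ?_ ?_ hb
    · intro a b _ _ _ _ _ ha3 _
      left
      have h3 : (4 * 20 + 1 : ℕ) = 3 ^ 4 := by norm_num
      rw [h3]
      exact (Nat.Coprime.pow_left 4 ((Nat.Prime.coprime_iff_not_dvd Nat.prime_three).2 ha3))
    · intro w
      have h3 : (4 * (20 : ℕ) + 1 : ℤ) = 3 ^ 4 := by norm_num
      have key : ∀ x : ℤ, ¬ (3 : ℤ) ∣ x → IsCoprime x (4 * (20 : ℕ) + 1 : ℤ) := by
        intro x hx
        rw [h3]
        exact (((Prime.coprime_iff_not_dvd Int.prime_three).2 hx).symm).pow_right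
      by_cases h : (3 : ℤ) ∣ w
      · exact ⟨1, le_rfl, key _ (by push_cast; omega)⟩
      · exact ⟨0, by norm_num, key _ (by push_cast; omega)⟩
    · have := erase_count (k := 20) (q := 10) (by norm_num) (by norm_num) hT hcT h2k
      omega

end Pool.Agent.P45
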