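import Pool.Agent.Lib.P45dba8.PlainAny
import Pool.Agent.Lib.P45dba8.SideRules
import Pool.Agent.Lib.P45dba8.SmallEven2

/-! # MP_45dba8: `k` even, the plain zigzag, all cases for `k ≥ 17` -/

set_option autoImplicit false

namespace Pool.Agent.P45

/-! ## The alternating sum -/

/-- The sequence `J` with `J (2i) = J (2i+1) + 1` or `+ 2` and the last term `s`. -/
def Jq (J : ℕ → ℕ) (q s r : ℕ) (i : ℕ) : ℕ :=
  if i % 2 = 0 then
    (if i < 2 * q - 2 then J (i + 1) + 1 + (if 2 ≤ i ∧ i ≤ 2 * r then 1 else 0) else s)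
  else J i

theorem Jq_odd (J : ℕ → ℕ) (q s r i : ℕ) (hi : i % 2 = 1) : Jq J q s r i = J i := by
  rw [Jq, if_neg (by omega)]

theorem zDT_Jq (q : ℕ) (J : ℕ → ℕ) (s r : ℕ) : zDT q (Jq J q s r) = zDT q J := by
  unfold zDT
  apply Finset.image_congr
  intro i _
  exact Jq_odd J q s r _ (by omega)

theorem zz_Jq_zero (J : ℕ → ℕ) (q s : ℕ) (hq : 1 ≤ q) :
    zz (fun i => (Jq J q s 0 i : ℤ)) (2 * q - 1) = s + (q - 1 : ℕ) := by
  have key : ∀ l, l ≤ q - 1 → zz (fun i => (Jq J q s 0 i : ℤ)) (2 * l) = l := by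
    intro l
    induction l with
    | zero => intro _; rfl
    | succ l ih =>
      intro hl
      have h0 := ih (by omega)
      have h1 := zz_diff (fun i => (Jq J q s 0 i : ℤ)) (2 * l)
      have h2 := zz_diff (fun i => (Jq J q s 0 i : ℤ)) (2 * l + 1)
      have e1 : (Jq J q s 0 (2 * l) : ℤ) = J (2 * l + 1) + 1 := by
        rw [Jq, if_pos (by omega), if_pos (by omega), if_neg (by omega)]
        push_cast
        ring
      have e2 : (Jq J q s 0 (2 * l + 1) : ℤ) = J (2 * l + 1) := by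
        rw [Jq_odd _ _ _ _ _ (by omega)]
      have p1 : (-1 : ℤ) ^ (2 * l) = 1 := by rw [pow_mul]; norm_num
      have p2 : (-1 : ℤ) ^ (2 * l + 1) = -1 := by rw [pow_succ, p1]; norm_num
      rw [e1, p1] at h1
      rw [e2, p2] at h2
      rw [show 2 * (l + 1) = 2 * l + 1 + 1 by ring]
      push_cast
      linarith
  have h0 := key (q - 1) le_rfl
  have h1 := zz_diff (fun i => (Jq J q s 0 i : ℤ)) (2 * (q - 1))
  have e1 : (Jq J q s 0 (2 * (q - 1)) : ℤ) = s := by
    rw [Jq, if_pos (by omega), if_neg (by omega)]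
  have p1 : (-1 : ℤ) ^ (2 * (q - 1)) = 1 := by rw [pow_mul]; norm_num
  rw [e1, p1] at h1
  rw [show 2 * q - 1 = 2 * (q - 1) + 1 by omega]
  linarith

theorem zz_Jq (J : ℕ → ℕ) (q s r : ℕ) (hq : 1 ≤ q) (hr : r + 2 ≤ q ∨ r = 0) :
    zz (fun i => (Jq J q s r i : ℤ)) (2 * q - 1) = s + (q - 1 : ℕ) + r := by
  induction r with
  | zero => rw [zz_Jq_zero J q s hq]; simp
  | succ r ih =>
    have h1 := ih (by omega)
    have h2 := zz_bump (fun i => (Jq J q s (r + 1) i : ℤ)) (fun i => (Jq J q s r i : ℤ))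
      (2 * (r + 1)) (2 * q - 1) ⟨r + 1, by ring⟩ (by omega) (by
        show ((Jq J q s (r + 1) (2 * (r + 1)) : ℕ) : ℤ) = ((Jq J q s r (2 * (r + 1)) : ℕ) : ℤ) + 1
        rw [Jq, Jq, if_pos (by omega), if_pos (by omega), if_pos (by omega), if_pos (by omega),
          if_pos (by omega), if_neg (by omega)]
        push_cast
        ring) (by
        intro i hi
        show ((Jq J q s (r + 1) i : ℕ) : ℤ) = ((Jq J q s r i : ℕ) : ℤ)
        congr 1
        unfold Jq
        by_cases h : i % 2 = 0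
        · rw [if_pos h, if_pos h]
          by_cases h'' : i < 2 * q - 2
          · rw [if_pos h'', if_pos h'']
            congr 1
            by_cases h' : 2 ≤ i ∧ i ≤ 2 * r
            · rw [if_pos h', if_pos (by omega)]
            · rw [if_neg h', if_neg (by omega)]
          · rw [if_neg h'', if_neg h'']
        · rw [if_neg h, if_neg h])
    rw [h2, h1]
    push_cast
    ring

theorem two_pow_mod7 (a : ℕ) : 2 ^ a % 7 = 1 ∨ 2 ^ a % 7 = 2 ∨ 2 ^ a % 7 = 4 := by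
  induction a with
  | zero => left; rfl
  | succ a ih =>
    rw [pow_succ]
    omega

theorem cop_q (q : ℕ) : IsCoprime (q : ℤ) (8 * q + 1 : ℤ) := ⟨-8, 1, by ring⟩

theorem cop_2q (q : ℕ) : IsCoprime (2 * q : ℤ) (8 * q + 1 : ℤ) := ⟨-4, 1, by ring⟩

/-- A number coprime to `8q+1` between `q+1` and `2q-1`. -/
theorem exists_cop (q : ℕ) (hq : 2 ≤ q) : ∃ w : ℕ, q + 1 ≤ w ∧ w + 1 ≤ 2 * q ∧
    IsCoprime (w : ℤ) (8 * q + 1 : ℤ) := by
  obtain ⟨a, ha⟩ : ∃ a, a = Nat.log 2 q := ⟨_, rfl⟩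
  have h1 : 2 ^ a ≤ q := by rw [ha]; exact Nat.pow_log_le_self 2 (by omega)
  have h2 : q < 2 ^ (a + 1) := by rw [ha]; exact Nat.lt_pow_succ_log_self (by norm_num) q
  have h3 : 2 ^ (a + 1) = 2 * 2 ^ a := by rw [pow_succ]; ring
  by_cases h : 2 ^ (a + 1) + 1 ≤ 2 * q
  · refine ⟨2 ^ (a + 1), by omega, h, ?_⟩
    have : IsCoprime (2 : ℤ) (8 * q + 1 : ℤ) := ⟨-4 * q, 1, by ring⟩
    push_cast
    exact this.pow_left
  · have hq' : q = 2 ^ a := by omega
    refine ⟨q + 1, le_rfl, by omega, ?_⟩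
    have h7 := two_pow_mod7 a
    rw [← hq'] at h7
    have hc : IsCoprime ((q : ℤ) + 1) 7 := by
      have : Prime (7 : ℤ) := by norm_num
      refine ((Prime.coprime_iff_not_dvd this).2 ?_).symm
      omega
    obtain ⟨x, y, hxy⟩ := hc
    push_cast
    refine ⟨x + 8 * y, -y, ?_⟩
    linear_combination hxy

/-! ## The two sides -/

section side

variable {k q : ℕ} (hk17 : 17 ≤ k) (hk : k = 2 * q)

include hk17 hk

/-- `q` pairs of a side with `k` labels. -/
theorem side_q {S D : Finset ℕ} (hS : S ⊆ Finset.Icc 1 (2 * k)) (hcS : S.card = k) (hD : D ⊆ S)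
    (cD : D.card = q) (h3 : ¬ 3 ∣ 4 * k + 1 ∨ (S.filter (fun j => 3 ∣ j)).card ≤ q ∨
      ((∃ b ∈ D, ¬ 3 ∣ b) ∧ ∃ c ∈ S \ D, ¬ 3 ∣ c)) :
    ∃ σ : ℕ → ℕ, Set.BijOn σ D (S \ D : Finset ℕ) ∧ GoodLab k D σ := by
  classical
  refine side_even hk17 (hD.trans hS) (Finset.sdiff_subset.trans hS) Finset.disjoint_sdiff (by
    rw [Finset.card_sdiff_of_subset hD, cD, hcS, hk]
    omega) (by omega) ?_
  rcases h3 with h | h | h
  · exact Or.inl h
  · right; left
    rw [Finset.union_sdiff_of_subset hD, cD]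
    exact h
  · right; right
    refine ⟨h, ?_⟩
    clear h
    by_cases h26 : k = 26
    · exact Or.inr (Or.inl (by omega))
    · exact Or.inl h26

/-- `q - 1` pairs of the side `T`, the label `2k` and a suitable label `u₀`. -/
theorem side_q1 {T D : Finset ℕ} (hT : T ⊆ Finset.Icc 1 (2 * k)) (hcT : T.card = k)
    (h2k : 2 * k ∈ T) (hDT : D ⊆ T) (cD : D.card = q - 1) (h2kD : 2 * k ∉ D)
    (h3 : ¬ 3 ∣ 4 * k + 1 ∨ (T.filter (fun j => 3 ∣ j)).card ≤ q - 1 ∨
      ((∃ b ∈ D, ¬ 3 ∣ b) ∧ ∃ c ∈ T \ insert (2 * k) D, ¬ 3 ∣ c)) :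
    ∃ u₀ ∈ T, u₀ ∉ D ∧ u₀ ≠ 2 * k ∧ ∃ τ : ℕ → ℕ,
      Set.BijOn τ D (T \ (D ∪ {2 * k, u₀}) : Finset ℕ) ∧ GoodLab k D τ := by
  classical
  -- the labels which `u₀` avoids
  obtain ⟨x, hx⟩ : ∃ x, k = 26 → x ∈ T.erase (2 * k) ∧ ¬ 3 ∣ x ∧ ¬ 5 ∣ x := by
    by_cases h26 : k = 26
    · by_contra hcon
      push Not at hcon
      have h1 : T.erase (2 * k) ⊆ (Finset.Icc 1 (2 * 26)).filter (fun j => 3 ∣ j ∨ 5 ∣ j) := by
        intro y hy
        have h2 := (hcon y).2 hy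
        rw [Finset.mem_filter]
        refine ⟨by rw [← h26]; exact hT (Finset.mem_of_mem_erase hy), ?_⟩
        by_cases h3 : 3 ∣ y
        · exact Or.inl h3
        · exact Or.inr (h2 h3)
      have h2 : ((Finset.Icc 1 (2 * 26)).filter (fun j => 3 ∣ j ∨ 5 ∣ j)).card = 24 := by decide
      have h3 := Finset.card_le_card h1
      rw [Finset.card_erase_of_mem h2k, hcT, h2] at h3
      omega
    · exact ⟨0, fun h => absurd h h26⟩
  obtain ⟨c, hc⟩ : ∃ c, ((∃ b ∈ D, ¬ 3 ∣ b) ∧ ∃ c ∈ T \ insert (2 * k) D, ¬ 3 ∣ c) →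
      c ∈ T \ insert (2 * k) D ∧ ¬ 3 ∣ c := by
    by_cases h : ∃ c ∈ T \ insert (2 * k) D, ¬ 3 ∣ c
    · obtain ⟨c, h1, h2⟩ := h
      exact ⟨c, fun _ => ⟨h1, h2⟩⟩
    · exact ⟨0, fun h' => absurd h'.2 h⟩
  have c1 := card_unused1 hk (by omega) hcT h2k hDT cD h2kD
  obtain ⟨u₀, hu₀⟩ : ((T \ insert (2 * k) D) \ {c, x}).Nonempty := by
    rw [← Finset.card_pos]
    have h1 := Finset.le_card_sdiff ({c, x} : Finset ℕ) (T \ insert (2 * k) D)
    have h2 : ({c, x} : Finset ℕ).card ≤ 2 := Finset.card_le_two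
    omega
  rw [Finset.mem_sdiff, Finset.mem_sdiff, Finset.mem_insert, Finset.mem_insert,
    Finset.mem_singleton, not_or, not_or] at hu₀
  obtain ⟨⟨huT, huk, huD⟩, huc, hux⟩ := hu₀
  refine ⟨u₀, huT, huD, huk, ?_⟩
  have c2 := card_unused2 hk (by omega) hcT h2k hDT cD h2kD huT huD huk
  have hm : k ≤ 2 * D.card + 2 := by
    clear h3 hc hx
    omega
  refine side_even hk17 (hDT.trans hT) (Finset.sdiff_subset.trans hT) (by
    rw [Finset.disjoint_right]
    intro z hz hz'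
    exact (Finset.mem_sdiff.1 hz).2 (Finset.mem_union_left _ hz')) (by rw [c2, cD]) hm ?_
  rcases h3 with h | h | h
  · exact Or.inl h
  · right; left
    rw [cD]
    refine (Finset.card_le_card (Finset.filter_subset_filter _ ?_)).trans h
    intro z hz
    rcases Finset.mem_union.1 hz with h | h
    · exact hDT h
    · exact (Finset.mem_sdiff.1 h).1
  · right; right
    obtain ⟨hc1, hc3⟩ := hc h
    rw [Finset.mem_sdiff, Finset.mem_insert, not_or] at hc1
    refine ⟨⟨h.1, c, ?_, hc3⟩, ?_⟩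
    · rw [Finset.mem_sdiff, Finset.mem_union, Finset.mem_insert, Finset.mem_singleton]
      refine ⟨hc1.1, ?_⟩
      rintro (h | h | h)
      · exact hc1.2.2 h
      · exact hc1.2.1 h
      · exact huc h.symm
    · by_cases h26 : k = 26
      · right; right
        obtain ⟨h1, h2, h3⟩ := hx h26
        rw [Finset.mem_erase] at h1
        refine ⟨x, ?_, h2, h3⟩
        by_cases h4 : x ∈ D
        · exact Finset.mem_union_left _ h4
        · refine Finset.mem_union_right _ ?_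
          rw [Finset.mem_sdiff, Finset.mem_union, Finset.mem_insert, Finset.mem_singleton]
          refine ⟨h1.2, ?_⟩
          rintro (h | h | h)
          · exact h4 h
          · exact h1.1 h
          · exact hux h.symm
      · exact Or.inl h26

end side

/-! ## The plain zigzag -/

section

variable {k q : ℕ} (hk17 : 17 ≤ k) (hk : k = 2 * q) (S T : Finset ℕ) (hd : Disjoint S T)
  (hU : S ∪ T = Finset.Icc 1 (2 * k)) (hcS : S.card = k) (hcT : T.card = k) (h2k : 2 * k ∈ T)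

include hk17 hk hd hU hcS hcT h2k

/-- The last step: both sides are good. -/
theorem plain_step (J : ℕ → ℕ) (hJ : AltW S T (2 * k) (k - 1) J)
    (hs : ¬ 3 ∣ 4 * k + 1 ∨ (S.filter (fun j => 3 ∣ j)).card ≤ q ∨
      ((∃ b ∈ zDS q J, ¬ 3 ∣ b) ∧ ∃ c ∈ S \ zDS q J, ¬ 3 ∣ c))
    (ht : ¬ 3 ∣ 4 * k + 1 ∨ (T.filter (fun j => 3 ∣ j)).card ≤ q - 1 ∨
      ((∃ b ∈ zDT q J, ¬ 3 ∣ b) ∧ ∃ c ∈ T \ insert (2 * k) (zDT q J), ¬ 3 ∣ c)) :
    ∃ A : Finset (ZMod (4 * k + 1)), A.card = 2 * k ∧ EG (LSet k S) A ∧ EG (LSet k T) A := by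
  have hSsub : S ⊆ Finset.Icc 1 (2 * k) := hU ▸ Finset.subset_union_left
  have hTsub : T ⊆ Finset.Icc 1 (2 * k) := hU ▸ Finset.subset_union_right
  have h2kn : 2 * k ∉ zDT q J := by
    intro h
    have := zDT_lt hk hJ h
    omega
  obtain ⟨σ, hσ, hGS⟩ := side_q hk17 hk hSsub hcS (zDS_sub hk (by omega) hJ)
    (card_zDS hk (by omega) hJ) hs
  obtain ⟨u₀, hu1, -, hu2, τ, hτ, hGT⟩ := side_q1 hk17 hk hTsub hcT h2k (zDT_sub hk hJ)
    (card_zDT hk hJ) h2kn ht
  exact zig_even_any k q hk (by omega) S T hU h2k J hJ u₀ hu1 hu2 σ τ hσ hτ hGS hGT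

/-- The last step with all doubled labels of `T` in `3 ℤ`: the label `2k` is the host. -/
theorem plain_top (h3n : 3 ∣ 4 * k + 1) (J : ℕ → ℕ) (hJ : AltW S T (2 * k) (k - 1) J)
    (h1 : (S.filter (fun j => 3 ∣ j)).card ≤ q) (hall : ∀ d ∈ zDT q J, 3 ∣ d)
    (h3 : 1 ≤ ((T.erase (2 * k)).filter (fun j => ¬ 3 ∣ j)).card)
    (hW : IsCoprime (zz (fun i => (J i : ℤ)) (k - 1)) (4 * k + 1 : ℤ)) :
    ∃ A : Finset (ZMod (4 * k + 1)), A.card = 2 * k ∧ EG (LSet k S) A ∧ EG (LSet k T) A := by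
  classical
  have hSsub : S ⊆ Finset.Icc 1 (2 * k) := hU ▸ Finset.subset_union_left
  have hTsub : T ⊆ Finset.Icc 1 (2 * k) := hU ▸ Finset.subset_union_right
  have hDT := zDT_sub hk hJ
  have cDT := card_zDT hk hJ
  have h2kn : 2 * k ∉ zDT q J := by
    intro h
    have := zDT_lt hk hJ h
    omega
  have hsub : insert (2 * k) (zDT q J) ⊆ T := by
    intro x hx
    rcases Finset.mem_insert.1 hx with rfl | hx
    · exact h2k
    · exact hDT hx
  have cD : (insert (2 * k) (zDT q J)).card = q := by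
    rw [Finset.card_insert_of_notMem h2kn, cDT]
    omega
  obtain ⟨c, hc⟩ : ((T.erase (2 * k)).filter (fun j => ¬ 3 ∣ j)).Nonempty :=
    Finset.card_pos.1 (by omega)
  rw [Finset.mem_filter, Finset.mem_erase] at hc
  obtain ⟨τ, hτ, hGT⟩ := side_q hk17 hk hTsub hcT hsub cD (Or.inr (Or.inr
    ⟨⟨2 * k, Finset.mem_insert_self _ _, by omega⟩, c, by
      rw [Finset.mem_sdiff, Finset.mem_insert]
      refine ⟨hc.1.2, ?_⟩
      rintro (h | h)
      · exact hc.1.1 h
      · exact hc.2 (hall c h), hc.2⟩))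
  obtain ⟨σ, hσ, hGS⟩ := side_q hk17 hk hSsub hcS (zDS_sub hk (by omega) hJ)
    (card_zDS hk (by omega) hJ) (Or.inr (Or.inl h1))
  exact zig_even_top k q hk (by omega) S T hU h2k J hJ σ τ hσ hτ hGS hGT hW

/-- Case A. -/
theorem plain_A (J : ℕ → ℕ) (hJ : AltW S T (2 * k) (k - 1) J)
    (h2 : 2 ≤ (S.filter (fun j => ¬ 3 ∣ j)).card)
    (h3 : (T.filter (fun j => 3 ∣ j)).card ≤ q - 1) :
    ∃ A : Finset (ZMod (4 * k + 1)), A.card = 2 * k ∧ EG (LSet k S) A ∧ EG (LSet k T) A := by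
  classical
  have hSsub : S ⊆ Finset.Icc 1 (2 * k) := hU ▸ Finset.subset_union_left
  have hS1 : ∀ s ∈ S, 1 ≤ s ∧ s < 2 * k := by
    intro s hs
    have h := Finset.mem_Icc.1 (hSsub hs)
    have h' : s ≠ 2 * k := fun h' => Finset.disjoint_left.1 hd hs (h' ▸ h2k)
    omega
  have hc : ∀ j, 1 ≤ j → j < 2 * k → j ∈ S ∨ j ∈ T := by
    intro j h1 h2
    have : j ∈ S ∪ T := by rw [hU, Finset.mem_Icc]; omega
    exact Finset.mem_union.1 this
  have e1 : k - 1 = 2 * q - 1 := by omega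
  obtain ⟨D, hDS, hDc, hsep, ⟨b, hbD, hb3⟩, c, hcU, hc3⟩ := exch_S S T (zDS q J) (2 * k) hd hS1 hc
    (fun j => 3 ∣ j) (fun j h1 h2 => by omega) (zDS_sub hk (by omega) hJ)
    (AltW.sepS (e1 ▸ hJ)) (by rw [card_zDS hk (by omega) hJ, hcS, hk]; omega)
    (Finset.card_pos.1 (by rw [card_zDS hk (by omega) hJ]; omega)) h2
  rw [card_zDS hk (by omega) hJ] at hDc
  obtain ⟨J', hJ', hD'⟩ := altW_of_sep S T (q - 1) D (2 * k) (by omega) hDS
    (fun d hd => hS1 d (hDS hd)) hsep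
  rw [show 2 * (q - 1) + 1 = k - 1 by omega] at hJ'
  rw [show q - 1 + 1 = q by omega] at hD'
  exact plain_step hk17 hk S T hd hU hcS hcT h2k J' hJ'
    (Or.inr (Or.inr ⟨⟨b, by rw [hD']; exact hbD, hb3⟩, c, by rw [hD']; exact hcU, hc3⟩))
    (Or.inr (Or.inl h3))

/-- Case B1. -/
theorem plain_B1 (h3n : 3 ∣ 4 * k + 1) (J : ℕ → ℕ) (hJ : AltW S T (2 * k) (k - 1) J)
    (h1 : (S.filter (fun j => 3 ∣ j)).card ≤ q)
    (h3 : 3 ≤ ((T.erase (2 * k)).filter (fun j => ¬ 3 ∣ j)).card)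
    (u s s' : ℕ) (huT : u ∈ T) (hu3 : ¬ 3 ∣ u) (hs : s ∈ S) (hs' : s' ∈ S) (hsu : s < u)
    (hus : u < s') :
    ∃ A : Finset (ZMod (4 * k + 1)), A.card = 2 * k ∧ EG (LSet k S) A ∧ EG (LSet k T) A := by
  classical
  have hSsub : S ⊆ Finset.Icc 1 (2 * k) := hU ▸ Finset.subset_union_left
  have hTsub : T ⊆ Finset.Icc 1 (2 * k) := hU ▸ Finset.subset_union_right
  have hc : ∀ j, 1 ≤ j → j ≤ 2 * k → j ∈ S ∨ j ∈ T := by
    intro j h1 h2
    have : j ∈ S ∪ T := by rw [hU, Finset.mem_Icc]; omega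
    exact Finset.mem_union.1 this
  have e1 : k - 1 = 2 * q - 1 := by omega
  have h2kn : 2 * k ∉ zDT q J := by
    intro h
    have := zDT_lt hk hJ h
    omega
  obtain ⟨D, hDT, hDc, hsep, ⟨b, hbD, hb3⟩, h4⟩ := exch_T hd (by omega) h2k
    (fun s hs => Finset.mem_Icc.1 (hSsub hs)) (fun t ht => Finset.mem_Icc.1 (hTsub ht)) hc h3 u s s'
    huT hu3 hs hs' hsu hus (q - 1) (by omega) (by
      rw [Finset.card_erase_of_mem h2k, hcT]
      omega) _ (zDT q J) rfl (card_zDT hk hJ) (by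
      intro x hx
      exact Finset.mem_erase.2 ⟨fun h => h2kn (h ▸ hx), zDT_sub hk hJ hx⟩)
    (AltW.sepT (by omega) (e1 ▸ hJ))
  have hDT' : D ⊆ T := hDT.trans (Finset.erase_subset _ _)
  have hD1 : ∀ d ∈ D, 0 < d ∧ d < 2 * k := by
    intro d hdD
    have h5 := Finset.mem_Icc.1 (hTsub (hDT' hdD))
    have h6 := Finset.ne_of_mem_erase (hDT hdD)
    omega
  obtain ⟨J', hJ', hD', -⟩ := altW_of_sepT S T (q - 1) D 0 (2 * k) hDc hDT' (by omega) hD1 hsep
  rw [show 2 * (q - 1) + 1 = k - 1 by omega] at hJ'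
  rw [show q - 1 + 1 = q by omega] at hD'
  obtain ⟨c, hc'⟩ : ((T.erase (2 * k) \ D).filter (fun j => ¬ 3 ∣ j)).Nonempty :=
    Finset.card_pos.1 (by omega)
  rw [Finset.mem_filter, Finset.mem_sdiff, Finset.mem_erase] at hc'
  refine plain_step hk17 hk S T hd hU hcS hcT h2k J' hJ' (Or.inr (Or.inl h1))
    (Or.inr (Or.inr ⟨⟨b, by rw [hD']; exact hbD, hb3⟩, c, ?_, hc'.2⟩))
  rw [hD', Finset.mem_sdiff, Finset.mem_insert, not_or]
  exact ⟨hc'.1.1.2, hc'.1.1.1, hc'.1.2⟩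

/-- Case B2: all labels of `T` between two labels of `S` are multiples of `3`. -/
theorem plain_B2 (h3n : 3 ∣ 4 * k + 1) (J : ℕ → ℕ) (hJ : AltW S T (2 * k) (k - 1) J)
    (h1 : (S.filter (fun j => 3 ∣ j)).card ≤ q)
    (hin : ∀ u ∈ T, (∃ s ∈ S, s < u) → (∃ s ∈ S, u < s) → 3 ∣ u)
    (h3 : 1 ≤ ((T.erase (2 * k)).filter (fun j => ¬ 3 ∣ j)).card) :
    ∃ A : Finset (ZMod (4 * k + 1)), A.card = 2 * k ∧ EG (LSet k S) A ∧ EG (LSet k T) A := by
  classical
  have hSsub : S ⊆ Finset.Icc 1 (2 * k) := hU ▸ Finset.subset_union_left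
  have hTsub : T ⊆ Finset.Icc 1 (2 * k) := hU ▸ Finset.subset_union_right
  obtain ⟨j1, j2, j3, j4⟩ := id hJ
  have hSe : ∀ c, 2 * c < k - 1 → J (2 * c) ∈ S := fun c hc => j3 _ hc ⟨c, by ring⟩
  have hTo : ∀ c, 2 * c + 1 < k - 1 → J (2 * c + 1) ∈ T := fun c hc => j4 _ hc ⟨c, rfl⟩
  have h3J : ∀ c, 2 * c + 2 < k - 1 → 3 ∣ J (2 * c + 1) := by
    intro c hc
    refine hin _ (hTo c (by omega)) ⟨J (2 * (c + 1)), hSe _ (by omega),
      hJ.anti (by omega) (by omega)⟩ ⟨J (2 * c), hSe _ (by omega), hJ.anti (by omega) (by omega)⟩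
  -- the smallest label of `S`
  have hSne : S.Nonempty := Finset.card_pos.1 (by omega)
  obtain ⟨s, hs⟩ : ∃ s, s = S.min' hSne := ⟨_, rfl⟩
  have hsS : s ∈ S := hs ▸ Finset.min'_mem _ _
  have hsmin : ∀ x ∈ S, s ≤ x := fun x hx => hs ▸ Finset.min'_le _ _ hx
  have hs1 : 1 ≤ s := (Finset.mem_Icc.1 (hSsub hsS)).1
  have hmS : ∀ x, 1 ≤ x → x ≤ 2 * k → s < x → (∃ y ∈ S, x ≤ y) → ¬ 3 ∣ x → x ∈ S := by
    intro x hx1 hx2 hsx ⟨y, hy, hxy⟩ hx3
    have hx' : x ∈ S ∪ T := by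
      rw [hU, Finset.mem_Icc]
      omega
    rcases Finset.mem_union.1 hx' with h | h
    · exact h
    · exfalso
      have hne : x ≠ y := fun h' => Finset.disjoint_left.1 hd hy (h' ▸ h)
      exact hx3 (hin x h ⟨s, hsS, hsx⟩ ⟨y, hy, by omega⟩)
  -- `s ≤ q + 1`
  have hsq : s ≤ q + 1 := by
    have cDT := card_zDT hk hJ
    have h4 : (Finset.Icc 1 (s - 1)) ∪ insert (2 * k) (zDT q J) ⊆ T := by
      intro x hx
      rcases Finset.mem_union.1 hx with h | h
      · rw [Finset.mem_Icc] at h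
        have h5 := hTsub h2k
        rw [Finset.mem_Icc] at h5
        have h6 := (Finset.mem_Icc.1 (hSsub hsS)).2
        have hx' : x ∈ S ∪ T := by
          rw [hU, Finset.mem_Icc]
          omega
        rcases Finset.mem_union.1 hx' with h' | h'
        · have := hsmin x h'
          omega
        · exact h'
      · rcases Finset.mem_insert.1 h with rfl | h
        · exact h2k
        · exact zDT_sub hk hJ h
    have h5 := Finset.card_le_card h4
    have h2kn : 2 * k ∉ zDT q J := by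
      intro h
      have := zDT_lt hk hJ h
      omega
    rw [Finset.card_union_of_disjoint, Nat.card_Icc, Finset.card_insert_of_notMem h2kn, cDT, hcT]
      at h5
    · omega
    · rw [Finset.disjoint_left]
      intro x hx hx'
      rw [Finset.mem_Icc] at hx
      rcases Finset.mem_insert.1 hx' with rfl | h
      · have := (Finset.mem_Icc.1 (hSsub hsS)).2
        omega
      · obtain ⟨i, hi, rfl⟩ := mem_zDT.1 h
        have h6 := hsmin _ (hSe (i + 1) (by omega))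
        have h7 := hJ.anti (i := 2 * i + 1) (j := 2 * (i + 1)) (by omega) (by omega)
        omega
  have hJq : ∀ r, AltW S T (2 * k) (k - 1) (Jq J q s r) := by
    intro r
    -- the moved terms
    have key : ∀ c, c + 1 < q → (J (2 * c + 1) < Jq J q s r (2 * c) ∧ Jq J q s r (2 * c) < 2 * k ∧
        (1 ≤ c → Jq J q s r (2 * c) < J (2 * c - 1))) ∧ Jq J q s r (2 * c) ∈ S := by
      intro c hc
      have a1 := h3J c (by omega)
      have a2 : s < J (2 * c + 1) := by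
        have := hsmin _ (hSe (c + 1) (by omega))
        have := hJ.anti (i := 2 * c + 1) (j := 2 * (c + 1)) (by omega) (by omega)
        omega
      have a3 := hJ.anti (i := 2 * c) (j := 2 * c + 1) (by omega) (by omega)
      have a4 := (j1 (2 * c) (by omega)).2
      have e : Jq J q s r (2 * c) = J (2 * c + 1) + 1 +
          (if 2 ≤ 2 * c ∧ 2 * c ≤ 2 * r then 1 else 0) := by
        rw [Jq, if_pos (by omega), if_pos (by omega)]
      rcases Nat.eq_zero_or_pos c with rfl | hc0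
      · rw [e, if_neg (by omega)]
        refine ⟨⟨by omega, by omega, fun h => absurd h (by omega)⟩, ?_⟩
        exact hmS _ (by omega) (by omega) (by omega) ⟨J (2 * 0), hSe 0 (by omega), by omega⟩
          (by omega)
      · have b1 := h3J (c - 1) (by omega)
        have b2 := hJ.anti (i := 2 * (c - 1) + 1) (j := 2 * c) (by omega) (by omega)
        rw [show 2 * (c - 1) + 1 = 2 * c - 1 by omega] at b1 b2
        have b3 := hJ.anti (i := 2 * (c - 1)) (j := 2 * c - 1) (by omega) (by omega)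
        have b4 := (j1 (2 * c - 1) (by omega)).2
        have b5 : J (2 * c + 1) + 3 ≤ J (2 * c - 1) := by omega
        rw [e]
        split_ifs
        · refine ⟨⟨by omega, by omega, fun _ => by omega⟩, ?_⟩
          exact hmS _ (by omega) (by omega) (by omega)
            ⟨J (2 * (c - 1)), hSe (c - 1) (by omega), by omega⟩ (by omega)
        · refine ⟨⟨by omega, by omega, fun _ => by omega⟩, ?_⟩
          exact hmS _ (by omega) (by omega) (by omega)
            ⟨J (2 * (c - 1)), hSe (c - 1) (by omega), by omega⟩ (by omega)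
    have last : Jq J q s r (2 * (q - 1)) = s := by
      rw [Jq, if_pos (by omega), if_neg (by omega)]
    have odd : ∀ c, Jq J q s r (2 * c + 1) = J (2 * c + 1) := fun c =>
      Jq_odd _ _ _ _ _ (by omega)
    have hs2k : s < 2 * k := by
      have h := Finset.mem_Icc.1 (hSsub hsS)
      have h' : s ≠ 2 * k := fun h' => Finset.disjoint_left.1 hd hsS (h' ▸ h2k)
      omega
    refine ⟨?_, ?_, ?_, ?_⟩
    · intro i hi
      rcases Nat.even_or_odd' i with ⟨c, rfl | rfl⟩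
      · by_cases hc : c + 1 < q
        · have := key c hc
          omega
        · rw [show c = q - 1 by omega, last]
          exact ⟨hs1, hs2k⟩
      · rw [odd]
        exact j1 _ hi
    · intro i hi
      rcases Nat.even_or_odd' i with ⟨c, rfl | rfl⟩
      · rw [odd]
        exact (key c (by omega)).1.1
      · rw [odd, show 2 * c + 1 + 1 = 2 * (c + 1) by ring]
        by_cases hc : c + 1 + 1 < q
        · have := (key (c + 1) hc).1.2.2 (by omega)
          rwa [show 2 * (c + 1) - 1 = 2 * c + 1 by omega] at this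
        · rw [show c + 1 = q - 1 by omega, last]
          have g1 := hsmin _ (hSe (c + 1) (by omega))
          have g2 := hJ.anti (i := 2 * c + 1) (j := 2 * (c + 1)) (by omega) (by omega)
          omega
    · intro i hi he
      obtain ⟨c, hc⟩ := he
      obtain rfl : i = 2 * c := by omega
      by_cases hc : c + 1 < q
      · exact (key c hc).2
      · rw [show c = q - 1 by omega, last]
        exact hsS
    · intro i hi ho
      obtain ⟨c, rfl⟩ := ho
      rw [odd]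
      exact j4 _ hi ⟨c, rfl⟩
  obtain ⟨r, hr, hco⟩ : ∃ r, (r + 2 ≤ q ∨ r = 0) ∧
      IsCoprime ((s : ℤ) + (q - 1 : ℕ) + r) (4 * k + 1 : ℤ) := by
    have e4 : (4 * k + 1 : ℤ) = 8 * q + 1 := by
      rw [hk]
      push_cast
      ring
    rw [e4]
    rcases Nat.lt_or_ge s 3 with hs3 | hs3
    · obtain h | h : s = 1 ∨ s = 2 := by omega
      · refine ⟨0, Or.inr rfl, ?_⟩
        rw [show (s : ℤ) + (q - 1 : ℕ) + (0 : ℕ) = q by omega]
        exact cop_q q
      · obtain ⟨w, hw1, hw2, hw⟩ := exists_cop q (by omega)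
        refine ⟨w - (q + 1), Or.inl (by omega), ?_⟩
        rw [show (s : ℤ) + (q - 1 : ℕ) + (w - (q + 1) : ℕ) = w by omega]
        exact hw
    · refine ⟨q + 1 - s, Or.inl (by omega), ?_⟩
      rw [show (s : ℤ) + (q - 1 : ℕ) + (q + 1 - s : ℕ) = 2 * q by omega]
      exact cop_2q q
  refine plain_top hk17 hk S T hd hU hcS hcT h2k h3n (Jq J q s r) (hJq r) h1 ?_ h3 ?_
  · intro d hd'
    rw [zDT_Jq] at hd'
    obtain ⟨c, hc, rfl⟩ := mem_zDT.1 hd'
    exact h3J c (by omega)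
  · rw [show k - 1 = 2 * q - 1 by omega, zz_Jq J q s r (by omega) hr]
    exact hco

/-- THE PLAIN ZIGZAG, `k ≥ 17` even: every alternating sequence with `k - 1` terms. -/
theorem plain_of_altW (J : ℕ → ℕ) (hJ : AltW S T (2 * k) (k - 1) J) :
    ∃ A : Finset (ZMod (4 * k + 1)), A.card = 2 * k ∧ EG (LSet k S) A ∧ EG (LSet k T) A := by
  classical
  have hTsub : T ⊆ Finset.Icc 1 (2 * k) := hU ▸ Finset.subset_union_right
  by_cases h3n : 3 ∣ 4 * k + 1
  swap
  · exact plain_step hk17 hk S T hd hU hcS hcT h2k J hJ (Or.inl h3n) (Or.inl h3n)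
  have htot : (S.filter (fun j => 3 ∣ j)).card + (T.filter (fun j => 3 ∣ j)).card =
      ((4 * k + 1) / 3 - 1) / 2 := by
    rw [← card_mult k 3 h3n, ← Finset.card_union_of_disjoint, ← Finset.filter_union, hU]
    exact Finset.disjoint_filter_filter hd
  have hS := Finset.card_filter_add_card_filter_not (s := S) (fun j => 3 ∣ j)
  have hT3 := erase_count hk (by omega) hTsub hcT h2k
  by_cases hA : (S.filter (fun j => 3 ∣ j)).card ≤ q
  · by_cases hB : ∀ u ∈ T, (∃ s ∈ S, s < u) → (∃ s ∈ S, u < s) → 3 ∣ u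
    · exact plain_B2 hk17 hk S T hd hU hcS hcT h2k h3n J hJ hA hB (by omega)
    · push Not at hB
      obtain ⟨u, huT, ⟨s, hs, hsu⟩, ⟨s', hs', hus⟩, hu3⟩ := hB
      exact plain_B1 hk17 hk S T hd hU hcS hcT h2k h3n J hJ hA (by omega) u s s' huT hu3 hs hs'
        hsu hus
  · exact plain_A hk17 hk S T hd hU hcS hcT h2k J hJ (by omega) (by omega)

/-- THE PLAIN ZIGZAG, `k ≥ 17` even: every word with at least `k - 1` boundaries. -/
theorem plain_even (hb : k - 1 ≤ (Bd S T (2 * k)).card) :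
    ∃ A : Finset (ZMod (4 * k + 1)), A.card = 2 * k ∧ EG (LSet k S) A ∧ EG (LSet k T) A := by
  have hcov : ∀ j, 1 ≤ j → j ≤ 2 * k → j ∈ S ∨ j ∈ T := by
    intro j h1 h2
    have : j ∈ S ∪ T := by rw [hU, Finset.mem_Icc]; omega
    exact Finset.mem_union.1 this
  obtain ⟨J, hJ'⟩ := alt_seq (k - 1) S T (2 * k) hd hcov h2k hb
  exact plain_of_altW hk17 hk S T hd hU hcS hcT h2k J hJ'.altW

end

end Pool.Agent.P45
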