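import Pool.Agent.Lib.P45dba8.PlainAny
import Pool.Agent.Lib.P45dba8.SmallEven2

/-! # MP_45dba8: `n = 65` -/

set_option autoImplicit false

namespace Pool.Agent.P45

theorem DQ65 : DQ (4 * 16 + 1) 13 = {5} := by decide

theorem any16 : AnyOK 16 7 := by
  classical
  intro D U hD hU hDU hc hpD
  -- the labels outside `5 ℤ`
  have h5 : ((D ∪ U).filter (fun j => 5 ∣ j)).card ≤ 6 := by
    have h1 : ((Finset.Icc 1 (2 * 16)).filter (fun j => 5 ∣ j)).card = 6 := by decide
    rw [← h1]
    exact Finset.card_le_card (Finset.filter_subset_filter _ (Finset.union_subset hD hU))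
  have h13 : ((D ∪ U).filter (fun j => 13 ∣ j)).card ≤ 2 := by
    have h1 : ((Finset.Icc 1 (2 * 16)).filter (fun j => 13 ∣ j)).card = 2 := by decide
    rw [← h1]
    exact Finset.card_le_card (Finset.filter_subset_filter _ (Finset.union_subset hD hU))
  have hle : ∀ A : Finset ℕ, A ⊆ D ∪ U → A.card ≤ (A.filter (fun j => ¬ 5 ∣ j)).card + 6 := by
    intro A hA
    have h1 := Finset.card_filter_add_card_filter_not (s := A) (fun j => 5 ∣ j)
    have h2 : (A.filter (fun j => 5 ∣ j)).card ≤ ((D ∪ U).filter (fun j => 5 ∣ j)).card :=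
      Finset.card_le_card (Finset.filter_subset_filter _ hA)
    omega
  obtain ⟨b, c, hb, hcU, hb5, hc5, hbc⟩ : ∃ b c, b ∈ D ∧ c ∈ U ∧ ¬ 5 ∣ b ∧ ¬ 5 ∣ c ∧
      (¬ 13 ∣ b ∨ ¬ 13 ∣ c) := by
    have hDn := hle D Finset.subset_union_left
    have hUn := hle U Finset.subset_union_right
    obtain ⟨b1, hb1⟩ : (D.filter (fun j => ¬ 5 ∣ j)).Nonempty := Finset.card_pos.1 (by omega)
    obtain ⟨c1, hc1⟩ : (U.filter (fun j => ¬ 5 ∣ j)).Nonempty := Finset.card_pos.1 (by omega)
    rw [Finset.mem_filter] at hb1 hc1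
    by_contra hcon
    push Not at hcon
    have h1 : (D ∪ U).filter (fun j => ¬ 5 ∣ j) ⊆ (D ∪ U).filter (fun j => 13 ∣ j) := by
      intro x hx
      rw [Finset.mem_filter] at hx ⊢
      refine ⟨hx.1, ?_⟩
      rcases Finset.mem_union.1 hx.1 with h | h
      · exact (hcon x c1 h hc1.1 hx.2 hc1.2).1
      · exact (hcon b1 x hb1.1 h hb1.2 hx.2).2
    have h2 := Finset.card_le_card h1
    have h3 := hle (D ∪ U) subset_rfl
    rw [Finset.card_union_of_disjoint hDU] at h3
    omega
  obtain ⟨σ, h1, -, h3⟩ := side_exists_Q (k := 16) (I := ∅) (D := D) (U := U) 13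
    ⟨5, by norm_num⟩ (Finset.empty_subset _) hD hU hDU (Finset.disjoint_empty_left _)
    (Finset.disjoint_empty_left _) hc 5 (by rw [DQ65]; exact Finset.mem_singleton_self 5) {b}
    (Finset.singleton_subset_iff.2 hb) (fun _ => c) (fun _ _ => hcU)
    (by simp) b (Finset.mem_singleton_self b) hb5 hc5 (by
      intro d hd
      rw [Finset.mem_singleton.1 hd]
      exact hbc) (by
      rw [Finset.card_singleton]
      omega) (by
      intro h hh hne
      rw [DQ65] at hh
      exact absurd (Finset.mem_singleton.1 hh) hne) (fun i hi => absurd hi (Finset.notMem_empty _))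
  exact ⟨σ, h1, h3⟩

theorem lay16 : LayOK 16 := by
  refine lay_of_any 16 8 (by norm_num) (by norm_num) any16 48 (by norm_num) ?_
  intro m hm h1 h2
  exact moebius_pq (p := 5) (q := 13) (by norm_num) (by norm_num) (by norm_num)
    (by rw [show 5 * 13 = 4 * 16 + 1 by norm_num]; exact hm) h1 h2

end Pool.Agent.P45
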