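import Pool.Agent.Lib.P45dba8.Small33
import Pool.Agent.Lib.P45dba8.Small65

/-! # MP_45dba8: `k` even, `k < 17`, `4k+1` composite -/

set_option autoImplicit false

namespace Pool.Agent.P45

theorem lay_even_small (k : ℕ) (hk : 1 ≤ k) (h17 : k < 17) (he : Even k)
    (hn : ¬ (4 * k + 1).Prime) : LayOK k := by
  interval_cases k
  · exact absurd he (by decide)
  · exact lay2
  · exact absurd he (by decide)
  · exact absurd (by norm_num) hn
  · exact absurd he (by decide)
  · exact lay6
  · exact absurd he (by decide)
  · exact lay8
  · exact absurd he (by decide)
  · exact absurd (by norm_num) hn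
  · exact absurd he (by decide)
  · exact lay12
  · exact absurd he (by decide)
  · exact lay14
  · exact absurd he (by decide)
  · exact lay16

end Pool.Agent.P45
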