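import Pool.Agent.Lib.P45dba8.LopB
import Pool.Agent.Lib.P45dba8.PlainEven
import Pool.Agent.Lib.P45dba8.SmallEvenAll

/-! # MP_45dba8: even `k`, all cases -/

set_option autoImplicit false

namespace Pool.Agent.P45

open Cert

/-- The number of multiples of three among the labels. -/
theorem card_three (N : ℕ) : 3 * ((Finset.Icc 1 N).filter (fun j => 3 ∣ j)).card ≤ N := by
  have h : ((Finset.Icc 1 N).filter (fun j => 3 ∣ j)).card ≤ (Finset.Icc 1 (N / 3)).card := by
    refine Finset.card_le_card_of_injOn (fun j => j / 3) ?_ ?_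
    · intro j hj
      rw [Finset.mem_coe, Finset.mem_filter, Finset.mem_Icc] at hj
      rw [Finset.mem_coe, Finset.mem_Icc]
      show 1 ≤ j / 3 ∧ j / 3 ≤ N / 3
      omega
    · intro i hi j hj hij
      rw [Finset.mem_coe, Finset.mem_filter, Finset.mem_Icc] at hi hj
      have hij' : i / 3 = j / 3 := hij
      omega
  rw [Nat.card_Icc] at h
  omega

/-- EVEN `k`, the block paths and the plain paths: the layers for every word. -/
theorem layers_even {k r : ℕ} (hk : k = 2 * r) (h17 : 17 ≤ k) {A : Finset ℕ}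
    (hA : A ⊆ Finset.Icc 1 (2 * k)) (hc : A.card = k) (h2k : 2 * k ∉ A)
    (hm : ∃ m, Reach P4 (dword k A) (2 * k - 1) m ∧ m % 2 = 1 ∧ k ≤ m + 2) : Layers k A := by
  classical
  obtain ⟨m, hm1, hm2, hm3⟩ := hm
  have hr : 1 ≤ r := by omega
  have hm4 : 2 * r - 1 ≤ m := by omega
  by_cases hfew : ¬ 3 ∣ 4 * k + 1 ∨ ((A.filter (fun j => 3 ∣ j)).card ≤ r ∧
      ((Finset.Icc 1 (2 * k) \ A).filter (fun j => 3 ∣ j)).card ≤ r)
  · exact layers_even_few hk h17 hA hc h2k ⟨m, hm1, by omega⟩ hfew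
  rw [not_or, not_not, not_and_or] at hfew
  obtain ⟨h3, hlop⟩ := hfew
  rcases lop_path (q := r) (by omega) (Nat.mod_eq_zero_of_dvd h3) hA h2k hm1 hm2 hm4 with
    hb | ⟨D, hD, hbS, hbT, hH⟩
  · have hT : (Finset.Icc 1 (2 * k) \ A).card = k := by
      rw [Finset.card_sdiff_of_subset hA, Nat.card_Icc, hc]
      omega
    exact plain_even h17 hk A (Finset.Icc 1 (2 * k) \ A) Finset.disjoint_sdiff (Finset.union_sdiff_of_subset hA) hc hT
      (Finset.mem_sdiff.2 ⟨Finset.mem_Icc.2 ⟨by omega, le_refl _⟩, h2k⟩) (by omega)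
  · obtain ⟨c1, c2, c3, c4, c5, c6, -⟩ := path_counts hk hr hA hc h2k hD
    have h2kT : 2 * k ∈ Finset.Icc 1 (2 * k) \ A :=
      Finset.mem_sdiff.2 ⟨Finset.mem_Icc.2 ⟨by omega, le_refl _⟩, h2k⟩
    have hsum : (A.filter (fun j => 3 ∣ j)).card +
        ((Finset.Icc 1 (2 * k) \ A).filter (fun j => 3 ∣ j)).card ≤
        ((Finset.Icc 1 (2 * k)).filter (fun j => 3 ∣ j)).card := by
      rw [← Finset.card_union_of_disjoint]
      · refine Finset.card_le_card ?_
        intro x hx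
        rcases Finset.mem_union.1 hx with hx | hx
        · exact Finset.mem_filter.2 ⟨hA (Finset.mem_filter.1 hx).1, (Finset.mem_filter.1 hx).2⟩
        · exact Finset.mem_filter.2 ⟨(Finset.mem_sdiff.1 (Finset.mem_filter.1 hx).1).1,
            (Finset.mem_filter.1 hx).2⟩
      · rw [Finset.disjoint_left]
        intro x hx hx'
        exact (Finset.mem_sdiff.1 (Finset.mem_filter.1 hx').1).2 (Finset.mem_filter.1 hx).1
    have hthree := card_three (2 * k)
    obtain ⟨σ, hσ, hGS⟩ := side_q h17 hk hA hc c1 c2 (by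
      right
      by_cases h : (A.filter (fun j => 3 ∣ j)).card ≤ r
      · exact Or.inl h
      · right
        refine ⟨hbS, ?_⟩
        obtain ⟨l, h1, -, h4, h5, -⟩ := hH A (Or.inl rfl) (by omega)
        exact ⟨l, Finset.mem_sdiff.2 ⟨h1, h5⟩, h4⟩)
    obtain ⟨u₀, hu1, -, hu3, τ, hτ, hGT⟩ := side_q1 h17 hk (T := Finset.Icc 1 (2 * k) \ A)
      Finset.sdiff_subset c6 h2kT (c4.trans (Finset.erase_subset _ _)) c5
      (fun h => (Finset.mem_erase.1 (c4 h)).1 rfl) (by
      right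
      by_cases h : ((Finset.Icc 1 (2 * k) \ A).filter (fun j => 3 ∣ j)).card ≤ r - 1
      · exact Or.inl h
      · right
        refine ⟨hbT, ?_⟩
        obtain ⟨l, h1, h2, h4, -, h6⟩ := hH (Finset.Icc 1 (2 * k) \ A) (Or.inr rfl) (by omega)
        refine ⟨l, Finset.mem_sdiff.2 ⟨h1, ?_⟩, h4⟩
        rw [Finset.mem_insert, not_or]
        exact ⟨h2, h6⟩)
    exact layers_of_pathOK hk hr hA h2k ⟨hD, u₀, hu1, hu3, ⟨σ, hσ, hGS⟩, ⟨τ, hτ, hGT⟩⟩

/-- EVEN `k ≥ 17`. -/
theorem lay_even (k : ℕ) (h17 : 17 ≤ k) (he : Even k) : LayOK k := by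
  obtain ⟨r, hr⟩ := he
  intro S hS hc
  exact layers_all (by omega) (fun A hA hcA h2k hm => layers_even (r := r) (by omega) h17 hA hcA
    h2k hm) S hS hc

/-- ALL EVEN `k ≥ 2` with `4 k + 1` composite. -/
theorem lay_even_all (k : ℕ) (hk : 1 ≤ k) (he : Even k) (hn : ¬ (4 * k + 1).Prime) : LayOK k := by
  rcases Nat.lt_or_ge k 17 with h | h
  · exact lay_even_small k hk h he hn
  · exact lay_even k h he

end Pool.Agent.P45
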