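import Pool.Agent.Lib.P45dba8.Sep

/-! # MP_45dba8: the exchange lemmas for the multiples of `3` -/

set_option autoImplicit false

namespace Pool.Agent.P45

theorem card_swap {D : Finset ℕ} {u d : ℕ} (hu : u ∉ D) (hd : d ∈ D) :
    (insert u (D.erase d)).card = D.card := by
  rw [Finset.card_insert_of_notMem (fun h => hu (Finset.mem_of_mem_erase h)),
    Finset.card_erase_of_mem hd]
  have : 0 < D.card := Finset.card_pos.2 ⟨d, hd⟩
  omega

/-- EXCHANGE, side `S`: `M` is a set of labels without two adjacent elements. -/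
theorem exch_S (S T D : Finset ℕ) (N : ℕ) (hd : Disjoint S T) (hS : ∀ s ∈ S, 1 ≤ s ∧ s < N)
    (hc : ∀ j, 1 ≤ j → j < N → j ∈ S ∨ j ∈ T)
    (M : ℕ → Prop) [DecidablePred M] (hM : ∀ j, M j → ¬ M (j + 1)) (hDS : D ⊆ S)
    (hsep : Sep T D) (hlt : D.card < S.card) (hne : D.Nonempty)
    (h2 : 2 ≤ (S.filter (fun j => ¬ M j)).card) :
    ∃ D' ⊆ S, D'.card = D.card ∧ Sep T D' ∧ (∃ b ∈ D', ¬ M b) ∧ (∃ c ∈ S \ D', ¬ M c) := by
  classical
  have hnT : ∀ x ∈ S, x ∉ T := fun x hx => Finset.disjoint_left.1 hd hx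
  obtain ⟨b1, hb1, b2, hb2, hb12⟩ := Finset.one_lt_card.1 h2
  rw [Finset.mem_filter] at hb1 hb2
  -- the sets after an exchange
  have hsub : ∀ u ∈ S, ∀ d, insert u (D.erase d) ⊆ S := by
    intro u hu d x hx
    rcases Finset.mem_insert.1 hx with rfl | hx
    · exact hu
    · exact hDS (Finset.mem_of_mem_erase hx)
  by_cases hA : ∃ b ∈ D, ¬ M b
  · by_cases hB : ∃ c ∈ S \ D, ¬ M c
    · exact ⟨D, hDS, rfl, hsep, hA, hB⟩
    · push Not at hB
      have hin : ∀ x ∈ S, ¬ M x → x ∈ D := by
        intro x hx hx'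
        by_contra hcon
        exact hx' (hB x (Finset.mem_sdiff.2 ⟨hx, hcon⟩))
      obtain ⟨u, huS, huD⟩ : ∃ u ∈ S, u ∉ D := by
        by_contra hcon
        push Not at hcon
        have := Finset.card_le_card (fun x hx => hcon x hx : S ⊆ D)
        omega
      have huM := hB u (Finset.mem_sdiff.2 ⟨huS, huD⟩)
      -- a swap with a good `d`
      have good : ∀ d ∈ D, ¬ M d → Sep T (insert u (D.erase d)) →
          ∃ D' ⊆ S, D'.card = D.card ∧ Sep T D' ∧ (∃ b ∈ D', ¬ M b) ∧ (∃ c ∈ S \ D', ¬ M c) := by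
        intro d hdD hdM hs
        refine ⟨insert u (D.erase d), hsub u huS d, card_swap huD hdD, hs, ?_, d, ?_, hdM⟩
        · by_cases h : d = b1
          · exact ⟨b2, Finset.mem_insert_of_mem (Finset.mem_erase.2 ⟨fun h' => hb12 (by
              rw [h', h]), hin b2 hb2.1 hb2.2⟩), hb2.2⟩
          · exact ⟨b1, Finset.mem_insert_of_mem (Finset.mem_erase.2 ⟨fun h' => h h'.symm,
              hin b1 hb1.1 hb1.2⟩), hb1.2⟩
        · rw [Finset.mem_sdiff, Finset.mem_insert, Finset.mem_erase]
          refine ⟨hDS hdD, ?_⟩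
          rintro (h | h)
          · exact huD (h ▸ hdD)
          · exact h.1 rfl
      rcases hsep.exch u (hnT u huS) with h | ⟨d, hdD, hno, h⟩
      · have hb1D := hin b1 hb1.1 hb1.2
        refine good b1 hb1D hb1.2 (h.subset ?_)
        exact Finset.insert_subset_insert _ (Finset.erase_subset _ _)
      · by_cases hdM : M d
        · exfalso
          have hud : u ≠ d := fun h' => huD (h' ▸ hdD)
          have hdS := hS d (hDS hdD)
          have huS' := hS u huS
          obtain ⟨m, hm⟩ : ∃ m, m = min u d := ⟨_, rfl⟩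
          have hMm : M m := by
            rcases min_choice u d with h' | h'
            · rw [hm, h']; exact huM
            · rw [hm, h']; exact hdM
          have hne1 : m + 1 ≠ max u d := by
            intro h'
            apply hM m hMm
            rcases max_choice u d with h'' | h''
            · rw [h', h'']; exact huM
            · rw [h', h'']; exact hdM
          have hb : Btw (m + 1) u d := by
            unfold Btw
            omega
          have h3 : m + 1 ∈ S := by
            rcases hc (m + 1) (by omega) (by omega) with h' | h'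
            · exact h'
            · exact absurd hb (hno _ h')
          have h4 : m + 1 ∈ D := hin _ h3 (hM m hMm)
          obtain ⟨a, ha, hab⟩ := hsep (m + 1) h4 d hdD (by
            intro h'
            rw [h'] at hb
            unfold Btw at hb
            omega)
          apply hno a ha
          unfold Btw at hab hb ⊢
          omega
        · exact good d hdD hdM h
  · push Not at hA
    have hb1D : b1 ∉ D := fun h => hb1.2 (hA b1 h)
    have hb2D : b2 ∉ D := fun h => hb2.2 (hA b2 h)
    have good : ∀ d ∈ D, Sep T (insert b1 (D.erase d)) →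
        ∃ D' ⊆ S, D'.card = D.card ∧ Sep T D' ∧ (∃ b ∈ D', ¬ M b) ∧ (∃ c ∈ S \ D', ¬ M c) := by
      intro d hdD hs
      refine ⟨insert b1 (D.erase d), hsub b1 hb1.1 d, card_swap hb1D hdD, hs,
        ⟨b1, Finset.mem_insert_self _ _, hb1.2⟩, b2, ?_, hb2.2⟩
      rw [Finset.mem_sdiff, Finset.mem_insert, Finset.mem_erase]
      refine ⟨hb2.1, ?_⟩
      rintro (h | h)
      · exact hb12 h.symm
      · exact hb2D h.2
    rcases hsep.exch b1 (hnT b1 hb1.1) with h | ⟨d, hdD, -, h⟩
    · obtain ⟨d, hdD⟩ := hne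
      exact good d hdD (h.subset (Finset.insert_subset_insert _ (Finset.erase_subset _ _)))
    · exact good d hdD h

section T

variable {S T D : Finset ℕ} {N : ℕ}

theorem ins_sub {u d : ℕ} (h0 : d ≠ 0) (hN : d ≠ N) :
    insert 0 (insert N (insert u (D.erase d))) ⊆ insert u ((insert 0 (insert N D)).erase d) := by
  intro x hx
  simp only [Finset.mem_insert, Finset.mem_erase] at hx ⊢
  rcases hx with rfl | rfl | rfl | ⟨h1, h2⟩
  · exact Or.inr ⟨fun h => h0 h.symm, Or.inl rfl⟩
  · exact Or.inr ⟨fun h => hN h.symm, Or.inr (Or.inl rfl)⟩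
  · exact Or.inl rfl
  · exact Or.inr ⟨h1, Or.inr (Or.inr h2)⟩

theorem ins_sub' {u d : ℕ} :
    insert 0 (insert N (insert u (D.erase d))) ⊆ insert u (insert 0 (insert N D)) := by
  intro x hx
  simp only [Finset.mem_insert, Finset.mem_erase] at hx ⊢
  tauto

/-- One exchange on the side `T`. -/
theorem exch_T_step (hd : Disjoint S T) (hN3 : N % 3 = 1)
    (hT : ∀ t ∈ T, 1 ≤ t ∧ t ≤ N) (hc : ∀ j, 1 ≤ j → j ≤ N → j ∈ S ∨ j ∈ T)
    (hDT : D ⊆ T.erase N) (hsep : Sep S (insert 0 (insert N D)))
    (hU : 3 ≤ (T.erase N \ D).card)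
    (h1 : ((T.erase N \ D).filter (fun j => ¬ 3 ∣ j)).card ≤ 1)
    (hb : ∃ b ∈ D, ¬ 3 ∣ b) :
    ∃ D' ⊆ T.erase N, D'.card = D.card ∧ Sep S (insert 0 (insert N D')) ∧
      (D'.filter (fun j => ¬ 3 ∣ j)).card + 1 = (D.filter (fun j => ¬ 3 ∣ j)).card := by
  classical
  have hD1 : ∀ d ∈ D, d ∈ T ∧ d ≠ N ∧ 1 ≤ d ∧ d ≤ N := by
    intro d hdD
    have h2 := Finset.mem_erase.1 (hDT hdD)
    exact ⟨h2.2, h2.1, hT d h2.2⟩
  -- `u`
  obtain ⟨u, hu, hu3, huN⟩ : ∃ u ∈ T.erase N \ D, 3 ∣ u ∧ u ≠ N - 1 := by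
    by_contra hcon
    push Not at hcon
    have h2 : (T.erase N \ D).filter (fun j => 3 ∣ j) ⊆ {N - 1} := by
      intro x hx
      rw [Finset.mem_filter] at hx
      exact Finset.mem_singleton.2 (hcon x hx.1 hx.2)
    have h3 := Finset.card_le_card h2
    rw [Finset.card_singleton] at h3
    have h4 := Finset.card_filter_add_card_filter_not (s := T.erase N \ D) (fun j => 3 ∣ j)
    omega
  obtain ⟨huT', huD⟩ := Finset.mem_sdiff.1 hu
  obtain ⟨huN', huT⟩ := Finset.mem_erase.1 huT'
  have hu1 := hT u huT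
  have huS : u ∉ S := fun h => Finset.disjoint_left.1 hd h huT
  -- no exchange partner which is a sentinel or a multiple of 3
  have bad : ∀ d ∈ insert 0 (insert N D), (3 ∣ d ∨ d = N) → d ≠ u →
      (∀ a ∈ S, ¬ Btw a u d) → False := by
    intro d hdD hd3 hdu hno
    have hdN : d ≤ N := by
      rcases Finset.mem_insert.1 hdD with rfl | h
      · omega
      · rcases Finset.mem_insert.1 h with rfl | h
        · exact le_refl _
        · exact (hD1 d h).2.2.2
    obtain ⟨m, hm⟩ : ∃ m, m = min u d := ⟨_, rfl⟩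
    have hm3 : 3 ∣ m ∧ m + 3 ≤ max u d := by
      rcases hd3 with h | rfl
      · refine ⟨?_, by omega⟩
        rcases min_choice u d with h' | h'
        · rw [hm, h']; exact hu3
        · rw [hm, h']; exact h
      · omega
    have hx : ∀ x, x = m + 1 ∨ x = m + 2 → x ∈ (T.erase N \ D).filter (fun j => ¬ 3 ∣ j) := by
      intro x hx
      have hb : Btw x u d := by
        unfold Btw
        omega
      have hxT : x ∈ T := by
        rcases hc x (by omega) (by omega) with h | h
        · exact absurd hb (hno x h)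
        · exact h
      rw [Finset.mem_filter, Finset.mem_sdiff, Finset.mem_erase]
      refine ⟨⟨⟨by omega, hxT⟩, ?_⟩, by omega⟩
      intro hxD
      obtain ⟨a, ha, hab⟩ := hsep x (Finset.mem_insert_of_mem (Finset.mem_insert_of_mem hxD)) d
        hdD (by
          unfold Btw at hb
          omega)
      apply hno a ha
      unfold Btw at hab hb ⊢
      omega
    have h5 : ({m + 1, m + 2} : Finset ℕ) ⊆ (T.erase N \ D).filter (fun j => ¬ 3 ∣ j) := by
      intro x hx'
      rw [Finset.mem_insert, Finset.mem_singleton] at hx'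
      exact hx x hx'
    have h6 := Finset.card_le_card h5
    rw [Finset.card_pair (by omega)] at h6
    omega
  have good : ∀ d ∈ D, ¬ 3 ∣ d → Sep S (insert 0 (insert N (insert u (D.erase d)))) →
      ∃ D' ⊆ T.erase N, D'.card = D.card ∧ Sep S (insert 0 (insert N D')) ∧
      (D'.filter (fun j => ¬ 3 ∣ j)).card + 1 = (D.filter (fun j => ¬ 3 ∣ j)).card := by
    intro d hdD hd3 hs
    refine ⟨insert u (D.erase d), ?_, card_swap huD hdD, hs, ?_⟩
    · intro x hx
      rcases Finset.mem_insert.1 hx with rfl | hx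
      · exact huT'
      · exact hDT (Finset.mem_of_mem_erase hx)
    · rw [Finset.filter_insert, if_neg (not_not.2 hu3), Finset.filter_erase,
        Finset.card_erase_of_mem (Finset.mem_filter.2 ⟨hdD, hd3⟩)]
      have : 0 < (D.filter (fun j => ¬ 3 ∣ j)).card :=
        Finset.card_pos.2 ⟨d, Finset.mem_filter.2 ⟨hdD, hd3⟩⟩
      omega
  rcases hsep.exch u huS with h | ⟨d, hdD, hno, h⟩
  · obtain ⟨b, hbD, hb3⟩ := hb
    exact good b hbD hb3 (h.subset ins_sub')
  · have hdu : d ≠ u := by
      rintro rfl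
      rcases Finset.mem_insert.1 hdD with h' | h'
      · omega
      · rcases Finset.mem_insert.1 h' with h' | h'
        · exact huN' h'
        · exact huD h'
    by_cases h3 : 3 ∣ d ∨ d = N
    · exact absurd (bad d hdD h3 hdu hno) id
    · push Not at h3
      have hdD' : d ∈ D := by
        rcases Finset.mem_insert.1 hdD with h' | h'
        · exact absurd (h' ▸ dvd_zero 3) h3.1
        · rcases Finset.mem_insert.1 h' with h' | h'
          · exact absurd h' h3.2
          · exact h'
      exact good d hdD' h3.1 (h.subset (ins_sub (by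
        rintro rfl
        exact h3.1 (dvd_zero 3)) h3.2))

/-- EXCHANGE, side `T`. -/
theorem exch_T (hd : Disjoint S T) (hN3 : N % 3 = 1) (hNT : N ∈ T)
    (hS : ∀ s ∈ S, 1 ≤ s ∧ s ≤ N)
    (hT : ∀ t ∈ T, 1 ≤ t ∧ t ≤ N) (hc : ∀ j, 1 ≤ j → j ≤ N → j ∈ S ∨ j ∈ T)
    (h3 : 3 ≤ ((T.erase N).filter (fun j => ¬ 3 ∣ j)).card)
    (u s s' : ℕ) (hu : u ∈ T) (hu3 : ¬ 3 ∣ u) (hs : s ∈ S) (hs' : s' ∈ S) (hsu : s < u)
    (hus : u < s') (m : ℕ) (hm : m ≠ 0) (hU : 3 + m ≤ (T.erase N).card) (f : ℕ)
    (D : Finset ℕ) (hf : (D.filter (fun j => ¬ 3 ∣ j)).card = f) (hDc : D.card = m)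
    (hDT : D ⊆ T.erase N) (hsep : Sep S (insert 0 (insert N D))) :
    ∃ D' ⊆ T.erase N, D'.card = m ∧ Sep S (insert 0 (insert N D')) ∧
      (∃ b ∈ D', ¬ 3 ∣ b) ∧ 2 ≤ ((T.erase N \ D').filter (fun j => ¬ 3 ∣ j)).card := by
  classical
  have hcnt : ∀ D ⊆ T.erase N, (D.filter (fun j => ¬ 3 ∣ j)).card +
      ((T.erase N \ D).filter (fun j => ¬ 3 ∣ j)).card =
      ((T.erase N).filter (fun j => ¬ 3 ∣ j)).card := by
    intro D hD
    rw [← Finset.card_union_of_disjoint, ← Finset.filter_union, Finset.union_sdiff_of_subset hD]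
    exact Finset.disjoint_filter_filter Finset.disjoint_sdiff
  induction f generalizing D with
  | zero =>
    have hall : ∀ x ∈ D, 3 ∣ x := by
      intro x hx
      by_contra hcon
      have h4 := Finset.card_eq_zero.1 hf
      have h5 : x ∈ D.filter (fun j => ¬ 3 ∣ j) := Finset.mem_filter.2 ⟨hx, hcon⟩
      rw [h4] at h5
      exact absurd h5 (Finset.notMem_empty _)
    have huD : u ∉ D := fun h => hu3 (hall u h)
    have huN : u ≠ N := by
      have := hS s' hs'
      omega
    have huS : u ∉ S := fun h => Finset.disjoint_left.1 hd h hu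
    have good : ∀ d ∈ D, Sep S (insert 0 (insert N (insert u (D.erase d)))) →
        ∃ D' ⊆ T.erase N, D'.card = m ∧ Sep S (insert 0 (insert N D')) ∧
        (∃ b ∈ D', ¬ 3 ∣ b) ∧ 2 ≤ ((T.erase N \ D').filter (fun j => ¬ 3 ∣ j)).card := by
      intro d hdD hsp
      have hsub : insert u (D.erase d) ⊆ T.erase N := by
        intro x hx
        rcases Finset.mem_insert.1 hx with rfl | hx
        · exact Finset.mem_erase.2 ⟨huN, hu⟩
        · exact hDT (Finset.mem_of_mem_erase hx)
      refine ⟨insert u (D.erase d), hsub, by rw [card_swap huD hdD, hDc], hsp,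
        ⟨u, Finset.mem_insert_self _ _, hu3⟩, ?_⟩
      have h4 := hcnt _ hsub
      have h5 : ((insert u (D.erase d)).filter (fun j => ¬ 3 ∣ j)).card ≤ 1 := by
        have h6 : (insert u (D.erase d)).filter (fun j => ¬ 3 ∣ j) ⊆ {u} := by
          intro x hx
          rw [Finset.mem_filter, Finset.mem_insert] at hx
          rcases hx.1 with h7 | h7
          · exact Finset.mem_singleton.2 h7
          · exact absurd (hall x (Finset.mem_of_mem_erase h7)) hx.2
        have := Finset.card_le_card h6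
        rwa [Finset.card_singleton] at this
      omega
    rcases hsep.exch u huS with h | ⟨d, hdD, hno, h⟩
    · obtain ⟨d, hdD⟩ : D.Nonempty := Finset.card_pos.1 (by omega)
      exact good d hdD (h.subset ins_sub')
    · have hs0 := hS s hs
      have hs1 := hS s' hs'
      have hs2 : s' ≠ N := fun h' => Finset.disjoint_left.1 hd hs' (h' ▸ hNT)
      have hd0 : d ≠ 0 := by
        rintro rfl
        exact hno s hs (Or.inr ⟨by omega, hsu⟩)
      have hdN : d ≠ N := by
        rintro rfl
        exact hno s' hs' (Or.inl ⟨hus, by omega⟩)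
      have hdD' : d ∈ D := by
        rcases Finset.mem_insert.1 hdD with h' | h'
        · exact absurd h' hd0
        · rcases Finset.mem_insert.1 h' with h' | h'
          · exact absurd h' hdN
          · exact h'
      exact good d hdD' (h.subset (ins_sub hd0 hdN))
  | succ f ih =>
    have h4 := hcnt D hDT
    obtain ⟨b, hb⟩ : (D.filter (fun j => ¬ 3 ∣ j)).Nonempty := Finset.card_pos.1 (by omega)
    rw [Finset.mem_filter] at hb
    by_cases h5 : 2 ≤ ((T.erase N \ D).filter (fun j => ¬ 3 ∣ j)).card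
    · exact ⟨D, hDT, hDc, hsep, ⟨b, hb⟩, h5⟩
    · obtain ⟨D', g1, g2, g3, g4⟩ := exch_T_step hd hN3 hT hc hDT hsep (by
        rw [Finset.card_sdiff_of_subset hDT]
        omega) (by omega) ⟨b, hb⟩
      exact ih D' (by omega) (by omega) g1 g3

end T

end Pool.Agent.P45
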