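import Pool.Agent.Lib.P45dba8.OHost
import Pool.Agent.Lib.P45dba8.OZig

/-! # The core construction for odd `k` (MODULE P45dba8.OCore, 2 h)

`k = 2q+1`, `n = 4k+1` prime, `S`, `T` disjoint with union `[1, 2k]`, both with `k` elements,
`2k ∈ T`, and `J 0 > J 1 > ... > J (k-1)` an `AltSeq` (so `J i ∈ S` for even `i`, `J i ∈ T` for odd
`i`, `J 1 + 1 ∈ S`).

Put `a i = J (i+2)` (for `i < 2q-1`, i.e. `i + 2 ≤ k - 1 = 2q`), `W i = zz a i` (`i ≤ 2q - 1`;
OZig with `N = 2q - 1`): the integers `W 0 = 0, W 1, ..., W (2q-1)` are distinct, lie in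
`[0, J 2]`, and `W (i+1) - W i = ± J (i+2)`.

The set `A` is the image in `ZMod n` of the integers
  `2 W i`, `2 W i + 1` (`i < 2q`), `-1`, `2 (J 1) + 1`.
These are `4q + 2 = 2k` different integers in `[-1, 2 (J 1) + 1]` (`J 2 < J 1`), and
`J 1 < J 0 < 2k` gives `2 (J 1) + 2 < n`, so their images are different too; `A.card = 2k`.

Side `S` (apply `host` to `L = S`): doubled labels `dd l = J (2l+2)` (`l < q`; even index, so in
`S`), blocks `x l = 2 W(2l)`, `z l = 2 W(2l) + 1`, `δ l = 2 W(2l+1) - 2 W(2l) = ± 2 J(2l+2)`; single
label `s = J 1 + 1 ∈ S` with `y = -1`, `e = 2 (J 1) + 2`. `dd l ≠ s` since `J (2l+2) < J 1`.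
`z ≠ x`, `z ≠ x + δ`, `z + δ ≠ x`: the integers `2W(2l)`, `2W(2l)+1`, `2W(2l+1)`, `2W(2l+1)+1` are
different and in the window (for `z + δ ≠ x` and `z ≠ x + δ`).

Side `T` (apply `host` to `L = T`): doubled labels `dd l = J (2l+3)` for `l < q - 1` (odd index, in
`T`) with blocks `x l = 2 W(2l+1)`, `z l = 2 W(2l+1) + 1`, `δ l = 2 W(2l+2) - 2 W(2l+1)`, and
`dd (q-1) = 2k` with `x = -1`, `δ = 1`, `z = 2 W(2q-1)` (here `1 = -(2 * (2k))` in `ZMod n`);
single label `s = J 1 ∈ T` with `y = 1`, `e = 2 (J 1)`. (`W 0 = 0`, so `0, 1` are the two elements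
with `i = 0`.) `J i < 2k` shows that `2k` is different from the other labels.

Both unions of blocks are `A` (`EG.congr` for the set of vertices). -/

set_option autoImplicit false

namespace Pool.Agent.P45

private theorem hostZ (k q : ℕ) (hp : (4 * k + 1).Prime) (L : Finset ℕ)
    (hL : L ⊆ Finset.Icc 1 (2 * k))
    (hc : L.card = 2 * q + 1) (dd : ℕ → ℕ) (hdd : ∀ l < q, dd l ∈ L)
    (hinj : ∀ l < q, ∀ l' < q, dd l = dd l' → l = l') (s : ℕ) (hs : s ∈ L)
    (hsd : ∀ l < q, dd l ≠ s) (x z d : ℕ → ℤ)
    (hδ : ∀ l < q, ((d l : ℤ) : ZMod (4 * k + 1)) = 2 * (dd l : ZMod (4 * k + 1)) ∨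
      ((d l : ℤ) : ZMod (4 * k + 1)) = -(2 * (dd l : ZMod (4 * k + 1))))
    (y e : ℤ)
    (he : ((e : ℤ) : ZMod (4 * k + 1)) = 2 * (s : ZMod (4 * k + 1)) ∨
      ((e : ℤ) : ZMod (4 * k + 1)) = -(2 * (s : ZMod (4 * k + 1))))
    (hi : ℤ) (hhi : hi + 1 < 4 * k + 1)
    (hw : ∀ l < q, (-1 ≤ x l ∧ x l ≤ hi) ∧ (-1 ≤ x l + d l ∧ x l + d l ≤ hi) ∧
      (-1 ≤ z l ∧ z l ≤ hi) ∧ (-1 ≤ z l + d l ∧ z l + d l ≤ hi))
    (hwy : (-1 ≤ y ∧ y ≤ hi) ∧ (-1 ≤ y + e ∧ y + e ≤ hi))
    (h1 : ∀ l < q, z l ≠ x l) (h2 : ∀ l < q, z l ≠ x l + d l) (h3 : ∀ l < q, z l + d l ≠ x l)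
    (hdis : ∀ l < q, ∀ l' < q, l ≠ l' →
      ∀ u ∈ ({x l, x l + d l, z l, z l + d l} : Finset ℤ),
      ∀ v ∈ ({x l', x l' + d l', z l', z l' + d l'} : Finset ℤ), u ≠ v)
    (hy : ∀ l < q, ∀ u ∈ ({x l, x l + d l, z l, z l + d l} : Finset ℤ),
      ∀ v ∈ ({y, y + e} : Finset ℤ), u ≠ v) :
    EG (LSet k L) (((Finset.range q).biUnion
      (fun l => ({x l, x l + d l, z l, z l + d l} : Finset ℤ)) ∪ {y, y + e}).image
        (fun u : ℤ => (u : ZMod (4 * k + 1)))) := by
  classical
  have inj : ∀ u v : ℤ, -1 ≤ u → u ≤ hi → -1 ≤ v → v ≤ hi →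
      (u : ZMod (4 * k + 1)) = (v : ZMod (4 * k + 1)) → u = v := by
    intro u v hu1 hu2 hv1 hv2 h
    have h' := (ZMod.intCast_eq_intCast_iff_dvd_sub u v (4 * k + 1)).mp h
    obtain ⟨c, hc⟩ := h'
    push_cast at hc
    have hk : (0 : ℤ) < 4 * k + 1 := by positivity
    have hc1 : c < 1 := by
      by_contra hcc
      have : (4 * (k : ℤ) + 1) * 1 ≤ (4 * k + 1) * c := by
        apply mul_le_mul_of_nonneg_left _ hk.le
        omega
      linarith
    have hc2 : -1 < c := by
      by_contra hcc
      have : (4 * (k : ℤ) + 1) * c ≤ (4 * k + 1) * (-1) := by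
        apply mul_le_mul_of_nonneg_left _ hk.le
        omega
      linarith
    have : c = 0 := by omega
    rw [this, mul_zero] at hc
    linarith
  have hwin : ∀ l < q, ∀ u ∈ ({x l, x l + d l, z l, z l + d l} : Finset ℤ), -1 ≤ u ∧ u ≤ hi := by
    intro l hl u hu
    obtain ⟨w1, w2, w3, w4⟩ := hw l hl
    simp only [Finset.mem_insert, Finset.mem_singleton] at hu
    rcases hu with rfl | rfl | rfl | rfl
    · exact w1
    · exact w2
    · exact w3
    · exact w4
  have hwiny : ∀ u ∈ ({y, y + e} : Finset ℤ), -1 ≤ u ∧ u ≤ hi := by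
    intro u hu
    simp only [Finset.mem_insert, Finset.mem_singleton] at hu
    rcases hu with rfl | rfl
    · exact hwy.1
    · exact hwy.2
  have hbl : ∀ l, ({((x l : ℤ) : ZMod (4 * k + 1)), (x l : ZMod (4 * k + 1)) + (d l : ZMod (4 * k + 1)),
      (z l : ZMod (4 * k + 1)), (z l : ZMod (4 * k + 1)) + (d l : ZMod (4 * k + 1))} :
      Finset (ZMod (4 * k + 1))) =
      ({x l, x l + d l, z l, z l + d l} : Finset ℤ).image (fun u : ℤ => (u : ZMod (4 * k + 1))) := by
    intro l
    simp only [Finset.image_insert, Finset.image_singleton, Int.cast_add]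
  have hby : ({((y : ℤ) : ZMod (4 * k + 1)), (y : ZMod (4 * k + 1)) + (e : ZMod (4 * k + 1))} :
      Finset (ZMod (4 * k + 1))) =
      ({y, y + e} : Finset ℤ).image (fun u : ℤ => (u : ZMod (4 * k + 1))) := by
    simp only [Finset.image_insert, Finset.image_singleton, Int.cast_add]
  have key := host k q hp L hL hc dd hdd hinj s hs hsd
    (fun l => ((x l : ℤ) : ZMod (4 * k + 1))) (fun l => ((z l : ℤ) : ZMod (4 * k + 1)))
    (fun l => ((d l : ℤ) : ZMod (4 * k + 1))) hδ
    (by
      intro l hl h
      obtain ⟨w1, w2, w3, w4⟩ := hw l hl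
      exact h1 l hl (inj _ _ w3.1 w3.2 w1.1 w1.2 h))
    (by
      intro l hl h
      obtain ⟨w1, w2, w3, w4⟩ := hw l hl
      exact h2 l hl (inj _ _ w3.1 w3.2 w2.1 w2.2 (by push_cast; exact h)))
    (by
      intro l hl h
      obtain ⟨w1, w2, w3, w4⟩ := hw l hl
      exact h3 l hl (inj _ _ w4.1 w4.2 w1.1 w1.2 (by push_cast; exact h)))
    (y : ZMod (4 * k + 1)) (e : ZMod (4 * k + 1)) he
    (by
      intro l hl l' hl' hne
      simp only [hbl]
      rw [Finset.disjoint_left]
      intro a ha hb
      rw [Finset.mem_image] at ha hb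
      obtain ⟨u, hu, rfl⟩ := ha
      obtain ⟨v, hv, hvu⟩ := hb
      have wu := hwin l hl u hu
      have wv := hwin l' hl' v hv
      exact hdis l hl l' hl' hne u hu v hv (inj _ _ wu.1 wu.2 wv.1 wv.2 hvu.symm))
    (by
      intro l hl
      simp only [hbl, hby]
      rw [Finset.disjoint_left]
      intro a ha hb
      rw [Finset.mem_image] at ha hb
      obtain ⟨u, hu, rfl⟩ := ha
      obtain ⟨v, hv, hvu⟩ := hb
      have wu := hwin l hl u hu
      have wv := hwiny v hv
      exact hy l hl u hu v hv (inj _ _ wu.1 wu.2 wv.1 wv.2 hvu.symm))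
  simp only [hbl, hby] at key
  rw [Finset.image_union, Finset.biUnion_image]
  exact key

theorem core_odd (k q : ℕ) (hk : k = 2 * q + 1) (hq : 1 ≤ q) (hp : (4 * k + 1).Prime)
    (S T : Finset ℕ) (hd : Disjoint S T) (hU : S ∪ T = Finset.Icc 1 (2 * k))
    (hcS : S.card = k) (hcT : T.card = k) (h2k : 2 * k ∈ T) (J : ℕ → ℕ)
    (hJ : AltSeq S T (2 * k) k J) :
    ∃ A : Finset (ZMod (4 * k + 1)), A.card = 2 * k ∧ EG (LSet k S) A ∧ EG (LSet k T) A := by
  classical
  obtain ⟨hJ1, hJ2, hJ3, hJ4⟩ := hJ
  have hanti : ∀ i j, i < j → j < k → J j < J i := by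
    intro i j hij
    induction j, hij using Nat.le_induction with
    | base => intro h; exact hJ2 i h
    | succ j hj ih =>
      intro h
      have := hJ2 j h
      have := ih (by omega)
      omega
  have hJinj : ∀ i j, i < k → j < k → J i = J j → i = j := by
    intro i j hi hj h
    rcases lt_trichotomy i j with h' | h' | h'
    · have := hanti i j h' hj; omega
    · exact h'
    · have := hanti j i h' hi; omega
  have hSL : S ⊆ Finset.Icc 1 (2 * k) := hU ▸ Finset.subset_union_left
  have hTL : T ⊆ Finset.Icc 1 (2 * k) := hU ▸ Finset.subset_union_right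
  obtain ⟨a, ha⟩ : ∃ a : ℕ → ℤ, ∀ i, a i = (J (i + 2) : ℤ) := ⟨_, fun _ => rfl⟩
  have ha0 : ∀ i < 2 * q - 1, 0 < a i := by
    intro i hi
    have := (hJ1 (i + 2) (by omega)).1
    rw [ha]; omega
  have ha1 : ∀ i, i + 1 < 2 * q - 1 → a (i + 1) < a i := by
    intro i hi
    have := hJ2 (i + 2) (by omega)
    rw [ha, ha]
    have e : i + 1 + 2 = i + 2 + 1 := by omega
    rw [e]; omega
  obtain ⟨W, hW⟩ : ∃ W : ℕ → ℤ, W = zz a := ⟨_, rfl⟩
  have hW0 : W 0 = 0 := by rw [hW]; rfl
  have hWr : ∀ i ≤ 2 * q - 1, 0 ≤ W i ∧ W i ≤ J 2 := by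
    intro i hi
    have h := zz_range a (2 * q - 1) ha0 ha1 i hi
    rw [hW]
    refine ⟨h.1, ?_⟩
    rcases Nat.eq_zero_or_pos i with h0 | h0
    · subst h0
      rw [zz_zero]; omega
    · have := (h.2 h0).2
      rw [ha 0] at this
      exact this
  have hWi : ∀ i ≤ 2 * q - 1, ∀ j ≤ 2 * q - 1, i ≠ j → W i ≠ W j := by
    intro i hi j hj hne h
    rw [hW] at h
    exact hne (zz_inj a (2 * q - 1) ha0 ha1 i j hi hj h)
  have hWd : ∀ i, W (i + 1) - W i = (-1) ^ i * a i := by
    intro i; rw [hW]; exact zz_diff a i
  have b0 := hJ1 0 (by omega)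
  have b1 := hJ1 1 (by omega)
  have b2 := hJ1 2 (by omega)
  have c1 := hanti 0 1 (by omega) (by omega)
  have c2 := hanti 1 2 (by omega) (by omega)
  have p1 := hJ4 1 (by omega) (by decide)
  -- the integer sets
  have hS := hostZ k q hp S hSL (by rw [hcS, hk]) (fun l => J (2 * l + 2))
    (by
      intro l hl
      exact (hJ3 (2 * l + 2) (by omega) ⟨l + 1, by ring⟩).1)
    (by
      intro l hl l' hl' h
      have := hJinj (2 * l + 2) (2 * l' + 2) (by omega) (by omega) h
      omega)
    (J 1 + 1) p1.2
    (by
      intro l hl h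
      have := hanti 1 (2 * l + 2) (by omega) (by omega)
      omega)
    (fun l => 2 * W (2 * l)) (fun l => 2 * W (2 * l) + 1)
    (fun l => 2 * W (2 * l + 1) - 2 * W (2 * l))
    (by
      intro l hl
      left
      have h := hWd (2 * l)
      rw [pow_mul, neg_one_sq, one_pow, one_mul, ha] at h
      have h' : 2 * W (2 * l + 1) - 2 * W (2 * l) = 2 * (J (2 * l + 2) : ℤ) := by linarith
      simp only [h']
      push_cast
      ring)
    (-1) (2 * J 1 + 2)
    (by
      left
      push_cast
      ring)
    (2 * J 1 + 1) (by omega)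
    (by
      intro l hl
      have r1 := hWr (2 * l) (by omega)
      have r2 := hWr (2 * l + 1) (by omega)
      omega)
    (by omega)
    (by intro l hl;  omega)
    (by intro l hl;  omega)
    (by intro l hl;  omega)
    (by
      intro l hl l' hl' hne u hu v hv
      have n1 := hWi (2 * l) (by omega) (2 * l') (by omega) (by omega)
      have n2 := hWi (2 * l) (by omega) (2 * l' + 1) (by omega) (by omega)
      have n3 := hWi (2 * l + 1) (by omega) (2 * l') (by omega) (by omega)
      have n4 := hWi (2 * l + 1) (by omega) (2 * l' + 1) (by omega) (by omega)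
      simp only [Finset.mem_insert, Finset.mem_singleton] at hu hv
      omega)
    (by
      intro l hl u hu v hv
      have r1 := hWr (2 * l) (by omega)
      have r2 := hWr (2 * l + 1) (by omega)
      simp only [Finset.mem_insert, Finset.mem_singleton] at hu hv
      omega)
  have hT := hostZ k q hp T hTL (by rw [hcT, hk])
    (fun l => if l = q - 1 then 2 * k else J (2 * l + 3))
    (by
      intro l hl
      by_cases h : l = q - 1
      · simp only [h, if_true]; exact h2k
      · simp only [h, if_false]
        exact (hJ4 (2 * l + 3) (by omega) ⟨l + 1, by ring⟩).1)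
    (by
      intro l hl l' hl' h
      by_cases h1 : l = q - 1
      · by_cases h2 : l' = q - 1
        · omega
        · simp only [h1, h2, if_true, if_false] at h
          have := (hJ1 (2 * l' + 3) (by omega)).2
          omega
      · by_cases h2 : l' = q - 1
        · simp only [h1, h2, if_true, if_false] at h
          have := (hJ1 (2 * l + 3) (by omega)).2
          omega
        · simp only [h1, h2, if_false] at h
          have := hJinj (2 * l + 3) (2 * l' + 3) (by omega) (by omega) h
          omega)
    (J 1) p1.1
    (by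
      intro l hl h
      by_cases h1 : l = q - 1
      · simp only [h1, if_true] at h
        omega
      · simp only [h1, if_false] at h
        have := hanti 1 (2 * l + 3) (by omega) (by omega)
        omega)
    (fun l => if l = q - 1 then -1 else 2 * W (2 * l + 1))
    (fun l => if l = q - 1 then 2 * W (2 * q - 1) else 2 * W (2 * l + 1) + 1)
    (fun l => if l = q - 1 then 1 else 2 * W (2 * l + 2) - 2 * W (2 * l + 1))
    (by
      intro l hl
      right
      by_cases h1 : l = q - 1
      · simp only [h1, if_true]
        have hz : ((4 * k + 1 : ℕ) : ZMod (4 * k + 1)) = 0 := ZMod.natCast_self _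
        push_cast at hz ⊢
        linear_combination hz
      · simp only [h1, if_false]
        have h := hWd (2 * l + 1)
        have e0 : (-1 : ℤ) ^ (2 * l + 1) = -1 := by
          rw [pow_succ, pow_mul, neg_one_sq, one_pow, one_mul]
        rw [e0, ha] at h
        have h' : 2 * W (2 * l + 2) - 2 * W (2 * l + 1) = -(2 * (J (2 * l + 3) : ℤ)) := by
          have e1 : 2 * l + 1 + 1 = 2 * l + 2 := rfl
          have e2 : 2 * l + 1 + 2 = 2 * l + 3 := rfl
          rw [e1, e2] at h
          linarith
        rw [h']
        push_cast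
        ring)
    1 (2 * J 1)
    (by
      left
      push_cast
      ring)
    (2 * J 1 + 1) (by omega)
    (by
      intro l hl
      by_cases h1 : l = q - 1
      · have r1 := hWr (2 * q - 1) (by omega)
        simp only [h1, if_true]
        omega
      · have r1 := hWr (2 * l + 1) (by omega)
        have r2 := hWr (2 * l + 2) (by omega)
        simp only [h1, if_false]
        omega)
    (by omega)
    (by
      intro l hl
      by_cases h1 : l = q - 1
      · have r1 := hWr (2 * q - 1) (by omega)
        simp only [h1, if_true]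
        omega
      · simp only [h1, if_false]
        omega)
    (by
      intro l hl
      by_cases h1 : l = q - 1
      · have r1 := hWr (2 * q - 1) (by omega)
        have n1 := hWi (2 * q - 1) (by omega) 0 (by omega) (by omega)
        simp only [h1, if_true]
        omega
      · simp only [h1, if_false]
        omega)
    (by
      intro l hl
      by_cases h1 : l = q - 1
      · have r1 := hWr (2 * q - 1) (by omega)
        simp only [h1, if_true]
        omega
      · simp only [h1, if_false]
        omega)
    (by
      intro l hl l' hl' hne u hu v hv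
      by_cases h1 : l = q - 1
      · have h2 : l' ≠ q - 1 := by omega
        have n1 := hWi (2 * q - 1) (by omega) (2 * l' + 1) (by omega) (by omega)
        have n2 := hWi (2 * q - 1) (by omega) (2 * l' + 2) (by omega) (by omega)
        have n3 := hWi 0 (by omega) (2 * l' + 1) (by omega) (by omega)
        have n4 := hWi 0 (by omega) (2 * l' + 2) (by omega) (by omega)
        have r1 := hWr (2 * l' + 1) (by omega)
        have r2 := hWr (2 * l' + 2) (by omega)
        have r3 := hWr (2 * q - 1) (by omega)
        simp only [h1, h2, if_true, if_false, Finset.mem_insert, Finset.mem_singleton] at hu hv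
        omega
      · by_cases h2 : l' = q - 1
        · have n1 := hWi (2 * q - 1) (by omega) (2 * l + 1) (by omega) (by omega)
          have n2 := hWi (2 * q - 1) (by omega) (2 * l + 2) (by omega) (by omega)
          have n3 := hWi 0 (by omega) (2 * l + 1) (by omega) (by omega)
          have n4 := hWi 0 (by omega) (2 * l + 2) (by omega) (by omega)
          have r1 := hWr (2 * l + 1) (by omega)
          have r2 := hWr (2 * l + 2) (by omega)
          have r3 := hWr (2 * q - 1) (by omega)
          simp only [h1, h2, if_true, if_false, Finset.mem_insert, Finset.mem_singleton] at hu hv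
          omega
        · have n1 := hWi (2 * l + 1) (by omega) (2 * l' + 1) (by omega) (by omega)
          have n2 := hWi (2 * l + 1) (by omega) (2 * l' + 2) (by omega) (by omega)
          have n3 := hWi (2 * l + 2) (by omega) (2 * l' + 1) (by omega) (by omega)
          have n4 := hWi (2 * l + 2) (by omega) (2 * l' + 2) (by omega) (by omega)
          simp only [h1, h2, if_false, Finset.mem_insert, Finset.mem_singleton] at hu hv
          omega)
    (by
      intro l hl u hu v hv
      by_cases h1 : l = q - 1
      · have r3 := hWr (2 * q - 1) (by omega)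
        have n3 := hWi (2 * q - 1) (by omega) 0 (by omega) (by omega)
        simp only [h1, if_true, Finset.mem_insert, Finset.mem_singleton] at hu hv
        omega
      · have r1 := hWr (2 * l + 1) (by omega)
        have r2 := hWr (2 * l + 2) (by omega)
        have n3 := hWi (2 * l + 1) (by omega) 0 (by omega) (by omega)
        have n4 := hWi (2 * l + 2) (by omega) 0 (by omega) (by omega)
        simp only [h1, if_false, Finset.mem_insert, Finset.mem_singleton] at hu hv
        omega)
  refine ⟨_, ?_, hS, ?_⟩
  · -- cardinality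
    rw [Finset.card_image_of_injOn, Finset.card_union_of_disjoint, Finset.card_biUnion]
    · rw [Finset.sum_congr rfl (fun l hl => (?_ : _ = 4)), Finset.sum_const, Finset.card_range,
        Finset.card_pair (by omega)]
      · rw [smul_eq_mul]; omega
      · rw [Finset.mem_range] at hl
        have n1 := hWi (2 * l) (by omega) (2 * l + 1) (by omega) (by omega)
        rw [Finset.card_insert_of_notMem, Finset.card_insert_of_notMem,
          Finset.card_pair]
        ·  omega
        · simp only [Finset.mem_insert, Finset.mem_singleton]; omega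
        · simp only [Finset.mem_insert, Finset.mem_singleton]; omega
    · intro l hl l' hl' hne
      rw [Finset.mem_coe, Finset.mem_range] at hl hl'
      change Disjoint _ _
      rw [Finset.disjoint_left]
      intro u hu hv
      have n1 := hWi (2 * l) (by omega) (2 * l') (by omega) (by omega)
      have n2 := hWi (2 * l) (by omega) (2 * l' + 1) (by omega) (by omega)
      have n3 := hWi (2 * l + 1) (by omega) (2 * l') (by omega) (by omega)
      have n4 := hWi (2 * l + 1) (by omega) (2 * l' + 1) (by omega) (by omega)
      simp only [Finset.mem_insert, Finset.mem_singleton] at hu hv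
      omega
    · rw [Finset.disjoint_biUnion_left]
      intro l hl
      rw [Finset.mem_range] at hl
      rw [Finset.disjoint_left]
      intro u hu hv
      have r1 := hWr (2 * l) (by omega)
      have r2 := hWr (2 * l + 1) (by omega)
      simp only [Finset.mem_insert, Finset.mem_singleton] at hu hv
      omega
    · intro u hu v hv h
      have win : ∀ u ∈ (Finset.range q).biUnion (fun l => ({2 * W (2 * l),
          2 * W (2 * l) + (2 * W (2 * l + 1) - 2 * W (2 * l)), 2 * W (2 * l) + 1,
          2 * W (2 * l) + 1 + (2 * W (2 * l + 1) - 2 * W (2 * l))} : Finset ℤ)) ∪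
          {-1, -1 + (2 * (J 1 : ℤ) + 2)}, -1 ≤ u ∧ u ≤ 2 * J 1 + 1 := by
        intro u hu
        rw [Finset.mem_union, Finset.mem_biUnion] at hu
        rcases hu with ⟨l, hl, hu⟩ | hu
        · rw [Finset.mem_range] at hl
          have r1 := hWr (2 * l) (by omega)
          have r2 := hWr (2 * l + 1) (by omega)
          simp only [Finset.mem_insert, Finset.mem_singleton] at hu
          omega
        · simp only [Finset.mem_insert, Finset.mem_singleton] at hu
          omega
      have wu := win u (Finset.mem_coe.mp hu)
      have wv := win v (Finset.mem_coe.mp hv)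
      have h' := (ZMod.intCast_eq_intCast_iff_dvd_sub u v (4 * k + 1)).mp h
      obtain ⟨c, hc⟩ := h'
      push_cast at hc
      have hk0 : (0 : ℤ) < 4 * k + 1 := by positivity
      have hc1 : c < 1 := by
        by_contra hcc
        have : (4 * (k : ℤ) + 1) * 1 ≤ (4 * k + 1) * c := by
          apply mul_le_mul_of_nonneg_left _ hk0.le
          omega
        omega
      have hc2 : -1 < c := by
        by_contra hcc
        have : (4 * (k : ℤ) + 1) * c ≤ (4 * k + 1) * (-1) := by
          apply mul_le_mul_of_nonneg_left _ hk0.le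
          omega
        omega
      have : c = 0 := by omega
      rw [this, mul_zero] at hc
      linarith
  · apply hT.congr (fun _ h => h)
    intro v
    rw [Finset.mem_image, Finset.mem_image]
    have hsets : ∀ u : ℤ, u ∈ (Finset.range q).biUnion (fun l => ({if l = q - 1 then -1 else 2 * W (2 * l + 1),
          (if l = q - 1 then -1 else 2 * W (2 * l + 1)) +
            (if l = q - 1 then 1 else 2 * W (2 * l + 2) - 2 * W (2 * l + 1)),
          if l = q - 1 then 2 * W (2 * q - 1) else 2 * W (2 * l + 1) + 1,
          (if l = q - 1 then 2 * W (2 * q - 1) else 2 * W (2 * l + 1) + 1) +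
            (if l = q - 1 then 1 else 2 * W (2 * l + 2) - 2 * W (2 * l + 1))} : Finset ℤ)) ∪
          {1, 1 + 2 * (J 1 : ℤ)} ↔
        u ∈ (Finset.range q).biUnion (fun l => ({2 * W (2 * l),
          2 * W (2 * l) + (2 * W (2 * l + 1) - 2 * W (2 * l)), 2 * W (2 * l) + 1,
          2 * W (2 * l) + 1 + (2 * W (2 * l + 1) - 2 * W (2 * l))} : Finset ℤ)) ∪
          {-1, -1 + (2 * (J 1 : ℤ) + 2)} := by
      intro u
      have char1 : ∀ u : ℤ, u ∈ (Finset.range q).biUnion (fun l => ({2 * W (2 * l),
          2 * W (2 * l) + (2 * W (2 * l + 1) - 2 * W (2 * l)), 2 * W (2 * l) + 1,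
          2 * W (2 * l) + 1 + (2 * W (2 * l + 1) - 2 * W (2 * l))} : Finset ℤ)) ∪
          {-1, -1 + (2 * (J 1 : ℤ) + 2)} ↔
          (∃ i < 2 * q, u = 2 * W i ∨ u = 2 * W i + 1) ∨ u = -1 ∨ u = 2 * J 1 + 1 := by
        intro u
        rw [Finset.mem_union, Finset.mem_biUnion]
        constructor
        · rintro (⟨l, hl, hu⟩ | hu)
          · rw [Finset.mem_range] at hl
            simp only [Finset.mem_insert, Finset.mem_singleton] at hu
            left
            rcases hu with h | h | h | h
            · exact ⟨2 * l, by omega, Or.inl h⟩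
            · exact ⟨2 * l + 1, by omega, Or.inl (by rw [h]; ring)⟩
            · exact ⟨2 * l, by omega, Or.inr h⟩
            · exact ⟨2 * l + 1, by omega, Or.inr (by rw [h]; ring)⟩
          · simp only [Finset.mem_insert, Finset.mem_singleton] at hu
            right
            rcases hu with h | h
            · exact Or.inl h
            · exact Or.inr (by rw [h]; ring)
        · rintro (⟨i, hi, hu⟩ | hu)
          · left
            rcases Nat.even_or_odd' i with ⟨l, hl | hl⟩
            · refine ⟨l, Finset.mem_range.mpr (by omega), ?_⟩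
              simp only [Finset.mem_insert, Finset.mem_singleton]
              rw [hl] at hu
              omega
            · refine ⟨l, Finset.mem_range.mpr (by omega), ?_⟩
              simp only [Finset.mem_insert, Finset.mem_singleton]
              rw [hl] at hu
              omega
          · right
            simp only [Finset.mem_insert, Finset.mem_singleton]
            omega
      rw [char1, Finset.mem_union, Finset.mem_biUnion]
      constructor
      · rintro (⟨l, hl, hu⟩ | hu)
        · rw [Finset.mem_range] at hl
          by_cases h1 : l = q - 1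
          · simp only [h1, if_true, Finset.mem_insert, Finset.mem_singleton] at hu
            rcases hu with h | h | h | h
            · right; left; exact h
            · left; exact ⟨0, by omega, Or.inl (by rw [h, hW0]; ring)⟩
            · left; exact ⟨2 * q - 1, by omega, Or.inl h⟩
            · left; exact ⟨2 * q - 1, by omega, Or.inr h⟩
          · simp only [h1, if_false, Finset.mem_insert, Finset.mem_singleton] at hu
            left
            rcases hu with h | h | h | h
            · exact ⟨2 * l + 1, by omega, Or.inl h⟩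
            · exact ⟨2 * l + 2, by omega, Or.inl (by rw [h]; ring)⟩
            · exact ⟨2 * l + 1, by omega, Or.inr h⟩
            · exact ⟨2 * l + 2, by omega, Or.inr (by rw [h]; ring)⟩
        · simp only [Finset.mem_insert, Finset.mem_singleton] at hu
          rcases hu with h | h
          · left; exact ⟨0, by omega, Or.inr (by rw [h, hW0]; ring)⟩
          · right; right; rw [h]; ring
      · rintro (⟨i, hi, hu⟩ | hu)
        · rcases Nat.eq_zero_or_pos i with hi0 | hi0
          · subst hi0
            rw [hW0] at hu
            rcases hu with h | h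
            · left
              refine ⟨q - 1, Finset.mem_range.mpr (by omega), ?_⟩
              simp only [if_true, Finset.mem_insert, Finset.mem_singleton]
              right; left; rw [h]; norm_num
            · right
              simp only [Finset.mem_insert, Finset.mem_singleton]
              left; rw [h]; norm_num
          · by_cases h1 : i = 2 * q - 1
            · left
              refine ⟨q - 1, Finset.mem_range.mpr (by omega), ?_⟩
              simp only [if_true, Finset.mem_insert, Finset.mem_singleton]
              rw [h1] at hu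
              omega
            · rcases Nat.even_or_odd' i with ⟨l, hl | hl⟩
              · left
                refine ⟨l - 1, Finset.mem_range.mpr (by omega), ?_⟩
                have h2 : ¬ (l - 1 = q - 1) := by omega
                have e1 : 2 * (l - 1) + 2 = i := by omega
                simp only [h2, if_false, Finset.mem_insert, Finset.mem_singleton]
                rw [e1]
                omega
              · left
                refine ⟨l, Finset.mem_range.mpr (by omega), ?_⟩
                have h2 : ¬ (l = q - 1) := by omega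
                simp only [h2, if_false, Finset.mem_insert, Finset.mem_singleton]
                rw [← hl]
                omega
        · rcases hu with h | h
          · left
            refine ⟨q - 1, Finset.mem_range.mpr (by omega), ?_⟩
            simp only [if_true, Finset.mem_insert, Finset.mem_singleton]
            left; exact h
          · right
            simp only [Finset.mem_insert, Finset.mem_singleton]
            right; rw [h]; ring
    constructor
    · rintro ⟨u, hu, rfl⟩
      exact ⟨u, (hsets u).mp hu, rfl⟩
    · rintro ⟨u, hu, rfl⟩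
      exact ⟨u, (hsets u).mpr hu, rfl⟩

end Pool.Agent.P45
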