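import Mathlib

/-! # Pigeonhole over the shifts (MODULE P45dba8.OShift, 0.5 h)

Proof: the pairs `D ×ˢ E` are split according to `w = y - x`, which is nonzero since `D`, `E` are
disjoint. `∑ w ∈ univ.erase 0, #{x ∈ D | x + w ∈ E} = #D * #E` (`Finset.card_eq_sum_card_fiberwise`
or `Finset.sum_comm`), and if every term were `≤ m - 1` the sum would be
`≤ (card G - 1) * (m - 1) < (card G - 1) * m` (`1 < card G`). So some `w ≠ 0` has at least `m`. -/

set_option autoImplicit false

namespace Pool.Agent.P45

theorem exists_shift {G : Type*} [AddCommGroup G] [Fintype G] [DecidableEq G] (D E : Finset G)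
    (hd : Disjoint D E) (m : ℕ) (hG : 1 < Fintype.card G)
    (h : (Fintype.card G - 1) * m ≤ D.card * E.card) :
    ∃ w : G, w ≠ 0 ∧ m ≤ (D.filter (fun x => x + w ∈ E)).card := by
  by_contra hcon
  push Not at hcon
  have h1 : ∑ w : G, (D.filter (fun x => x + w ∈ E)).card = D.card * E.card := by
    have h2 : ∀ w : G, (D.filter (fun x => x + w ∈ E)).card = ∑ x ∈ D, if x + w ∈ E then 1 else 0 := by
      intro w
      rw [Finset.card_filter]
    simp only [h2]
    rw [Finset.sum_comm]
    have h3 : ∀ x ∈ D, (∑ w : G, if x + w ∈ E then 1 else 0) = E.card := by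
      intro x _
      rw [← Finset.card_filter]
      refine Finset.card_bij (fun w _ => x + w) ?_ ?_ ?_
      · intro w hw
        exact (Finset.mem_filter.1 hw).2
      · intro a _ b _ hab
        exact add_left_cancel hab
      · intro y hy
        refine ⟨y - x, ?_, by abel⟩
        rw [Finset.mem_filter]
        refine ⟨Finset.mem_univ _, ?_⟩
        rw [show x + (y - x) = y by abel]
        exact hy
    rw [Finset.sum_congr rfl h3, Finset.sum_const, smul_eq_mul]
  have h0 : (D.filter (fun x => x + (0:G) ∈ E)).card = 0 := by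
    rw [Finset.card_eq_zero, Finset.filter_eq_empty_iff]
    intro x hx hxe
    rw [add_zero] at hxe
    exact Finset.disjoint_left.1 hd hx hxe
  have h4 : ∑ w ∈ Finset.univ.erase (0:G), (D.filter (fun x => x + w ∈ E)).card = D.card * E.card := by
    rw [← h1, ← Finset.add_sum_erase Finset.univ _ (Finset.mem_univ (0:G)), h0, zero_add]
  have hne : (Finset.univ.erase (0:G)).Nonempty := by
    rw [← Finset.card_pos, Finset.card_erase_of_mem (Finset.mem_univ _), Finset.card_univ]
    omega
  have h5 : ∑ w ∈ Finset.univ.erase (0:G), (D.filter (fun x => x + w ∈ E)).card <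
      ∑ _w ∈ Finset.univ.erase (0:G), m :=
    Finset.sum_lt_sum_of_nonempty hne fun w hw => hcon w (Finset.ne_of_mem_erase hw)
  rw [h4, Finset.sum_const, Finset.card_erase_of_mem (Finset.mem_univ _), Finset.card_univ,
    smul_eq_mul] at h5
  omega

end Pool.Agent.P45
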