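import Pool.Agent.Lib.P45dba8.OBound
import Pool.Agent.Lib.P45dba8.OCore
import Pool.Agent.Lib.P45dba8.ODset
import Pool.Agent.Lib.P45dba8.OSeq
import Pool.Agent.Lib.P45dba8.OShift

/-! # Assembly for odd `k` (MODULE P45dba8.OFin, 1.2 h)

`n = 4k+1` prime, `k ≥ 3` odd. Let `D = univ.filter (· ∈ DSet k S)`,
`E = univ.filter (· ∈ DSet k (Icc 1 (2k) \ S))`. By ODset both have `2k` elements, are symmetric,
disjoint, and cover the nonzero elements. `exists_shift` with `m = k` (`(n-1) * k = 4k*k = 2k * 2k`)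
gives `w ≠ 0` with `k ≤ #{x ∈ D | x + w ∈ E}`. Put `v = w / 2` (so `w = 2 v`, `v ≠ 0`).
Let `L = {j ∈ [1,2k] | v * (2j) ∈ D}`, `L' = [1,2k] \ L = {j ∈ [1,2k] | v * (2j) ∈ E}`
(`v*(2j) ≠ 0` for `j ∈ [1,2k]`, `dset_compl`). `label_card` gives `L.card = k`, so `L'.card = k`;
`bound_ge` gives at least `k` boundaries of `L`, `L'` in `[1, 2k-1]`.

If `2k ∈ L'`: `alt_seq` with `S := L`, `T := L'`, `N := 2k`, `m := k` and `core_odd` give `A'` with
`A'.card = 2k`, `EG (LSet k L) A'`, `EG (LSet k L') A'`. If `2k ∈ L`: the same with the two sides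
exchanged (the boundary predicate is symmetric up to `or_comm`), and exchange the two conclusions.

Finally scale by `v`: `EG.affine` (Color.lean) with `c := v`, `x := 0` gives
`EG {d | v⁻¹ * d ∈ LSet k L} (A'.image fun t => 0 + v * t)`, and
`DSet k S ⊆ {d | v⁻¹ * d ∈ LSet k L}`: a `d ∈ DSet k S` is nonzero, so `v⁻¹ * d = ± 2j` for some
`j ∈ [1, 2k]` (the values `±2j` are all nonzero elements: `j = (v⁻¹ d / 2).val` or `n -` it), and
then `v * (2j) = ± d ∈ DSet k S` by symmetry, so `j ∈ L`. Same for `E`. The card of the image is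
`A'.card` (`Finset.card_image_of_injective`, `mul_right_injective₀`). -/

set_option autoImplicit false

namespace Pool.Agent.P45

theorem odd_case (k : ℕ) (hk : Odd k) (hk3 : 3 ≤ k) (hp : (4 * k + 1).Prime) (S : Finset ℕ)
    (hS : S ⊆ Finset.Icc 1 (2 * k)) (hc : S.card = k) :
    ∃ A : Finset (ZMod (4 * k + 1)), A.card = 2 * k ∧ EG (DSet k S) A ∧
      EG (DSet k (Finset.Icc 1 (2 * k) \ S)) A := by
  classical
  have : Fact (4 * k + 1).Prime := ⟨hp⟩
  obtain ⟨q, hq⟩ := hk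
  have hk1 : 1 ≤ k := by omega
  have hq1 : 1 ≤ q := by omega
  set S' := Finset.Icc 1 (2 * k) \ S with hS'def
  have hS' : S' ⊆ Finset.Icc 1 (2 * k) := Finset.sdiff_subset
  have hc' : S'.card = k := by
    rw [hS'def, Finset.card_sdiff_of_subset hS, Nat.card_Icc, hc]; omega
  -- the two sides
  set D : Finset (ZMod (4 * k + 1)) := Finset.univ.filter (fun x => x ∈ DSet k S) with hDdef
  set E : Finset (ZMod (4 * k + 1)) := Finset.univ.filter (fun x => x ∈ DSet k S') with hEdef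
  have memD : ∀ x, x ∈ D ↔ x ∈ DSet k S := fun x => by simp [hDdef]
  have memE : ∀ x, x ∈ E ↔ x ∈ DSet k S' := fun x => by simp [hEdef]
  have hDc : D.card = 2 * k := by
    have := dset_card k S hS
    rw [hc] at this
    exact this
  have hEc : E.card = 2 * k := by
    have := dset_card k S' hS'
    rw [hc'] at this
    exact this
  have hDn : ∀ x, x ∈ D → -x ∈ D := fun x hx => (memD _).2 (dset_neg k S x ((memD _).1 hx))
  have hEn : ∀ x, x ∈ E → -x ∈ E := fun x hx => (memE _).2 (dset_neg k S' x ((memE _).1 hx))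
  have hD0 : (0 : ZMod (4 * k + 1)) ∉ D := fun h => dset_zero k S hS ((memD _).1 h)
  have hE0 : (0 : ZMod (4 * k + 1)) ∉ E := fun h => dset_zero k S' hS' ((memE _).1 h)
  have hcov : ∀ x : ZMod (4 * k + 1), x ≠ 0 → (x ∈ E ↔ x ∉ D) := fun x hx => by
    rw [memD, memE]; exact dset_compl k S hS x hx
  have hdis : Disjoint D E := by
    rw [Finset.disjoint_left]
    intro x hx hx'
    have h0 : x ≠ 0 := fun h => hD0 (h ▸ hx)
    exact (hcov x h0).1 hx' hx
  -- the shift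
  obtain ⟨w, hw0, hw⟩ := exists_shift D E hdis k
    (by rw [ZMod.card]; omega) (by rw [ZMod.card, hDc, hEc]; exact le_of_eq (by
      rw [Nat.add_sub_cancel]; ring))
  have h2 : (2 : ZMod (4 * k + 1)) ≠ 0 := by
    intro h
    have h' : ((2 : ℕ) : ZMod (4 * k + 1)) = 0 := by push_cast; exact h
    rw [ZMod.natCast_eq_zero_iff] at h'
    have := Nat.le_of_dvd (by omega) h'
    omega
  set v : ZMod (4 * k + 1) := w / 2 with hvdef
  have hwv : w = 2 * v := by rw [hvdef]; field_simp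
  have hv0 : v ≠ 0 := by
    intro h; rw [h, mul_zero] at hwv; exact hw0 hwv
  have hvu : IsUnit v := isUnit_iff_ne_zero.2 hv0
  rw [hwv] at hw
  have hb := bound_ge k hk1 D E hdis hDn hEn hD0 hE0 v hvu k hw
  set L : Finset ℕ := (Finset.Icc 1 (2 * k)).filter
      (fun j : ℕ => v * (2 * (j : ZMod (4 * k + 1))) ∈ D) with hLdef
  set L' : Finset ℕ := (Finset.Icc 1 (2 * k)).filter
      (fun j : ℕ => v * (2 * (j : ZMod (4 * k + 1))) ∈ E) with hL'def
  have hLc : L.card = k := label_card k hk1 D hDn hD0 v hvu k hDc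
  have hL'c : L'.card = k := label_card k hk1 E hEn hE0 v hvu k hEc
  have hne : ∀ j : ℕ, 1 ≤ j → j ≤ 2 * k → v * (2 * (j : ZMod (4 * k + 1))) ≠ 0 := by
    intro j h1 h2'
    exact mul_ne_zero hv0 (mul_ne_zero h2 (cast_ne_zero' (Finset.mem_Icc.2 ⟨h1, h2'⟩)))
  have hmL : ∀ j, j ∈ L ↔ (1 ≤ j ∧ j ≤ 2 * k) ∧ v * (2 * (j : ZMod (4 * k + 1))) ∈ D := by
    intro j; rw [hLdef, Finset.mem_filter, Finset.mem_Icc]
  have hmL' : ∀ j, j ∈ L' ↔ (1 ≤ j ∧ j ≤ 2 * k) ∧ v * (2 * (j : ZMod (4 * k + 1))) ∈ E := by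
    intro j; rw [hL'def, Finset.mem_filter, Finset.mem_Icc]
  have hcovL : ∀ j, 1 ≤ j → j ≤ 2 * k → j ∈ L ∨ j ∈ L' := by
    intro j h1 h2'
    by_cases h : v * (2 * (j : ZMod (4 * k + 1))) ∈ D
    · exact Or.inl ((hmL j).2 ⟨⟨h1, h2'⟩, h⟩)
    · exact Or.inr ((hmL' j).2 ⟨⟨h1, h2'⟩, (hcov _ (hne j h1 h2')).2 h⟩)
  have hdisL : Disjoint L L' := by
    rw [Finset.disjoint_left]
    intro j h1 h2'
    exact (Finset.disjoint_left.1 hdis) ((hmL j).1 h1).2 ((hmL' j).1 h2').2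
  have hUL : L ∪ L' = Finset.Icc 1 (2 * k) := by
    ext j
    rw [Finset.mem_union, Finset.mem_Icc]
    constructor
    · rintro (h | h)
      · exact ((hmL j).1 h).1
      · exact ((hmL' j).1 h).1
    · rintro ⟨h1, h2'⟩; exact hcovL j h1 h2'
  -- the boundaries
  have hb' : k ≤ ((Finset.Icc 1 (2 * k - 1)).filter
      (fun j => (j ∈ L ∧ j + 1 ∈ L') ∨ (j ∈ L' ∧ j + 1 ∈ L))).card := by
    refine hb.trans (Finset.card_le_card ?_)
    intro j hj
    rw [Finset.mem_filter, Finset.mem_Icc] at hj ⊢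
    obtain ⟨⟨h1, h2'⟩, h3⟩ := hj
    refine ⟨⟨h1, h2'⟩, ?_⟩
    rcases h3 with ⟨h3, h4⟩ | ⟨h3, h4⟩
    · exact Or.inl ⟨(hmL j).2 ⟨⟨h1, by omega⟩, h3⟩, (hmL' (j + 1)).2 ⟨⟨by omega, by omega⟩, h4⟩⟩
    · exact Or.inr ⟨(hmL' j).2 ⟨⟨h1, by omega⟩, h3⟩, (hmL (j + 1)).2 ⟨⟨by omega, by omega⟩, h4⟩⟩
  have hb'' : k ≤ ((Finset.Icc 1 (2 * k - 1)).filter
      (fun j => (j ∈ L' ∧ j + 1 ∈ L) ∨ (j ∈ L ∧ j + 1 ∈ L'))).card := by
    refine hb'.trans (Finset.card_le_card ?_)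
    intro j hj
    rw [Finset.mem_filter] at hj ⊢
    exact ⟨hj.1, hj.2.symm⟩
  have hcore : ∃ A' : Finset (ZMod (4 * k + 1)), A'.card = 2 * k ∧ EG (LSet k L) A' ∧
      EG (LSet k L') A' := by
    rcases hcovL (2 * k) (by omega) le_rfl with h | h
    · obtain ⟨J, hJ⟩ := alt_seq k L' L (2 * k) hdisL.symm
        (fun j h1 h2' => (hcovL j h1 h2').symm) h hb''
      obtain ⟨A', h1, h2', h3⟩ := core_odd k q hq hq1 hp L' L hdisL.symm
        (by rw [Finset.union_comm]; exact hUL) hL'c hLc h J hJ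
      exact ⟨A', h1, h3, h2'⟩
    · obtain ⟨J, hJ⟩ := alt_seq k L L' (2 * k) hdisL hcovL h hb'
      exact core_odd k q hq hq1 hp L L' hdisL hUL hLc hL'c h J hJ
  obtain ⟨A', hA'c, hA1, hA2⟩ := hcore
  -- scale by v
  have key : ∀ d : ZMod (4 * k + 1), d ≠ 0 → ∃ j : ℕ, (1 ≤ j ∧ j ≤ 2 * k) ∧
      (v⁻¹ * d = 2 * (j : ZMod (4 * k + 1)) ∨ v⁻¹ * d = -(2 * (j : ZMod (4 * k + 1)))) := by
    intro d hd
    have hx : v⁻¹ * d / 2 ≠ 0 := div_ne_zero (mul_ne_zero (inv_ne_zero hv0) hd) h2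
    set x : ZMod (4 * k + 1) := v⁻¹ * d / 2 with hxdef
    have hdx : v⁻¹ * d = 2 * x := by rw [hxdef]; field_simp
    have hxl := x.val_lt
    have hxp := val_pos' hx
    by_cases h : x.val ≤ 2 * k
    · refine ⟨x.val, ⟨hxp, h⟩, Or.inl ?_⟩
      rw [ZMod.natCast_zmod_val]; exact hdx
    · refine ⟨(-x).val, ⟨?_, ?_⟩, Or.inr ?_⟩
      · rw [val_neg' hx]; omega
      · rw [val_neg' hx]; omega
      · rw [ZMod.natCast_zmod_val, hdx]; ring
  have hvd : ∀ d y : ZMod (4 * k + 1), v⁻¹ * d = y → d = v * y := by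
    intro d y h
    rw [← h, ← mul_assoc, mul_inv_cancel₀ hv0, one_mul]
  refine ⟨A'.image fun t => 0 + v * t, ?_, ?_, ?_⟩
  · rw [Finset.card_image_of_injective, hA'c]
    intro a b hab
    simp only [zero_add] at hab
    exact mul_left_cancel₀ hv0 hab
  · refine (hA1.affine v 0 hv0).congr ?_ (fun _ => Iff.rfl)
    intro d hd
    have hdD : d ∈ D := (memD d).2 hd
    have hd0 : d ≠ 0 := fun h => hD0 (h ▸ hdD)
    obtain ⟨j, hj, h⟩ := key d hd0
    refine ⟨j, (hmL j).2 ⟨hj, ?_⟩, h⟩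
    rcases h with h | h
    · rw [← hvd d _ h]; exact hdD
    · have h' := hvd d _ h
      have : v * (2 * (j : ZMod (4 * k + 1))) = -d := by rw [h']; ring
      rw [this]; exact hDn d hdD
  · refine (hA2.affine v 0 hv0).congr ?_ (fun _ => Iff.rfl)
    intro d hd
    have hdE : d ∈ E := (memE d).2 hd
    have hd0 : d ≠ 0 := fun h => hE0 (h ▸ hdE)
    obtain ⟨j, hj, h⟩ := key d hd0
    refine ⟨j, (hmL' j).2 ⟨hj, ?_⟩, h⟩
    rcases h with h | h
    · rw [← hvd d _ h]; exact hdE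
    · have h' := hvd d _ h
      have : v * (2 * (j : ZMod (4 * k + 1))) = -d := by rw [h']; ring
      rw [this]; exact hEn d hdE

end Pool.Agent.P45
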