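import Pool.Agent.Lib.P45dba8.EvenFinal
import Pool.Agent.Lib.P45dba8.OFin

/-! # MP_45dba8: the final composition -/

set_option autoImplicit false

namespace Pool.Agent.P45

/-- The frozen statement from the layers for odd `k` with `4 k + 1` composite. -/
theorem main_of (hodd : ∀ k : ℕ, 1 ≤ k → k % 2 = 1 → ¬ (4 * k + 1).Prime → LayOK k) :
    ∀ k : ℕ, 2 ≤ k → ∀ S : Finset ℕ, S ⊆ Finset.Icc 1 (2 * k) → S.card = k →
    ∀ G : SimpleGraph (ZMod (4 * k + 1) × Fin 2),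
      (∀ p q : ZMod (4 * k + 1) × Fin 2, G.Adj p q ↔
        ((p.2 = 0 ∧ q.2 = 0 ∧ min (p.1 - q.1).val (q.1 - p.1).val ∈ S) ∨
         (p.2 = 1 ∧ q.2 = 1 ∧
            min (p.1 - q.1).val (q.1 - p.1).val ∈ Finset.Icc 1 (2 * k) \ S) ∨
         (p.1 = q.1 ∧ p.2 ≠ q.2))) →
      ∃ c : Sym2 (ZMod (4 * k + 1) × Fin 2) → Fin (2 * k + 1),
        ∀ e ∈ G.edgeSet, ∀ f ∈ G.edgeSet, e ≠ f →
          (∃ v, v ∈ e ∧ v ∈ f) → c e ≠ c f := by
  intro k hk2 S hS hc G hG
  by_cases hp : (4 * k + 1).Prime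
  · rcases Nat.even_or_odd k with hk | hk
    · obtain ⟨A, hA, h1, h2⟩ := even_case k hk hp S hS hc
      exact xp_of_EG k S hS A hA h1 h2 G hG
    · have h3 : 3 ≤ k := by
        obtain ⟨m, hm⟩ := hk
        omega
      obtain ⟨A, hA, h1, h2⟩ := odd_case k hk h3 hp S hS hc
      exact xp_of_EG k S hS A hA h1 h2 G hG
  · have hL : LayOK k := by
      rcases Nat.even_or_odd k with hk | hk
      · exact lay_even_all k (by omega) hk hp
      · exact hodd k (by omega) (Nat.odd_iff.1 hk) hp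
    exact frozen_of_labels k S hS (hL S hS hc) G hG

end Pool.Agent.P45
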