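import Pool.Agent.Lib.P45dba8.PlainEven

/-! # MP_45dba8: `k` odd, the plain zigzag with a bridge: the labels -/

set_option autoImplicit false

namespace Pool.Agent.P45

/-- Moving two consecutive terms to adjacent labels. -/
theorem AltW.adj {S T : Finset ℕ} {N m : ℕ} {J : ℕ → ℕ} (hd : Disjoint S T)
    (hc : ∀ j, 1 ≤ j → j ≤ N → j ∈ S ∨ j ∈ T) (hJ : AltW S T N m J) (i : ℕ) (hi : i + 2 ≤ m) :
    ∃ J' : ℕ → ℕ, AltW S T N m J' ∧ J' i = J' (i + 1) + 1 ∧
      (∀ j, j ≠ i → j ≠ i + 1 → J' j = J j) ∧ J' i ≤ J i ∧ J (i + 1) ≤ J' (i + 1) := by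
  classical
  obtain ⟨h1, h2, h3, h4⟩ := id hJ
  have hlt := h2 i (by omega)
  have g0 := h1 i (by omega)
  have g1 := h1 (i + 1) (by omega)
  -- the letter of `J i`
  obtain ⟨p, hp⟩ : ∃ p : ℕ → Prop, p = fun x => if i % 2 = 0 then x ∈ S else x ∈ T := ⟨_, rfl⟩
  have hpi : p (J i) := by
    rw [hp]
    show if i % 2 = 0 then J i ∈ S else J i ∈ T
    split_ifs with h
    · exact h3 i (by omega) (Nat.even_iff.2 h)
    · exact h4 i (by omega) (Nat.odd_iff.2 (by omega))
  have hpi1 : ¬ p (J (i + 1)) := by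
    rw [hp]
    show ¬ (if i % 2 = 0 then J (i + 1) ∈ S else J (i + 1) ∈ T)
    split_ifs with h
    · exact fun h' => Finset.disjoint_left.1 hd h' (h4 (i + 1) (by omega)
        (Nat.odd_iff.2 (by omega)))
    · exact fun h' => Finset.disjoint_left.1 hd (h3 (i + 1) (by omega)
        (Nat.even_iff.2 (by omega))) h'
  have hex : ∃ x, J (i + 1) < x ∧ p x := ⟨J i, hlt, hpi⟩
  obtain ⟨x, hx⟩ : ∃ x, x = Nat.find hex := ⟨_, rfl⟩
  have hx1 : J (i + 1) < x ∧ p x := hx ▸ Nat.find_spec hex
  have hx2 : x ≤ J i := hx ▸ Nat.find_min' hex ⟨hlt, hpi⟩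
  have hx3 : ¬ p (x - 1) := by
    by_cases h : x - 1 = J (i + 1)
    · rw [h]; exact hpi1
    · intro h'
      have := Nat.find_min' hex ⟨by omega, h'⟩
      omega
  have hxS : (i % 2 = 0 → x ∈ S ∧ x - 1 ∈ T) ∧ (i % 2 = 1 → x ∈ T ∧ x - 1 ∈ S) := by
    have hcx := hc (x - 1) (by omega) (by omega)
    have hp1 := hx1.2
    rw [hp] at hp1 hx3
    constructor
    · intro h
      simp only [h, if_true] at hp1 hx3
      exact ⟨hp1, hcx.resolve_left hx3⟩
    · intro h
      have h' : ¬ i % 2 = 0 := by omega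
      simp only [h', if_false] at hp1 hx3
      exact ⟨hp1, hcx.resolve_right hx3⟩
  refine ⟨fun j => if j = i then x else if j = i + 1 then x - 1 else J j, ?_, ?_, ?_, ?_, ?_⟩
  · have e0 : ∀ j, j = i → (if j = i then x else if j = i + 1 then x - 1 else J j) = x := by
      intro j hj; rw [if_pos hj]
    have e1 : ∀ j, j = i + 1 → (if j = i then x else if j = i + 1 then x - 1 else J j) = x - 1 := by
      intro j hj; rw [if_neg (by omega), if_pos hj]
    have e2 : ∀ j, j ≠ i → j ≠ i + 1 →
        (if j = i then x else if j = i + 1 then x - 1 else J j) = J j := by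
      intro j hj hj'; rw [if_neg hj, if_neg hj']
    refine ⟨?_, ?_, ?_, ?_⟩
    · intro j hj
      show 1 ≤ (if j = i then x else if j = i + 1 then x - 1 else J j) ∧
        (if j = i then x else if j = i + 1 then x - 1 else J j) < N
      by_cases h : j = i
      · rw [e0 j h]; omega
      · by_cases h' : j = i + 1
        · rw [e1 j h']; omega
        · rw [e2 j h h']; exact h1 j hj
    · intro j hj
      show (if j + 1 = i then x else if j + 1 = i + 1 then x - 1 else J (j + 1)) <
        (if j = i then x else if j = i + 1 then x - 1 else J j)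
      by_cases ha : j + 1 = i
      · rw [e0 _ ha, e2 j (by omega) (by omega)]
        have := h2 j (by omega)
        rw [ha] at this
        omega
      · by_cases hb : j = i
        · rw [e1 _ (by omega), e0 _ hb]
          omega
        · by_cases hc' : j = i + 1
          · rw [e2 _ (by omega) (by omega), e1 _ hc']
            have := h2 j (by omega)
            rw [hc'] at this ⊢
            omega
          · rw [e2 _ (by omega) (by omega), e2 _ hb hc']
            exact h2 j hj
    · intro j hj he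
      show (if j = i then x else if j = i + 1 then x - 1 else J j) ∈ S
      have he' := Nat.even_iff.1 he
      by_cases h : j = i
      · rw [e0 j h]
        exact (hxS.1 (by omega)).1
      · by_cases h' : j = i + 1
        · rw [e1 j h']
          exact (hxS.2 (by omega)).2
        · rw [e2 j h h']; exact h3 j hj he
    · intro j hj ho
      show (if j = i then x else if j = i + 1 then x - 1 else J j) ∈ T
      have ho' := Nat.odd_iff.1 ho
      by_cases h : j = i
      · rw [e0 j h]
        exact (hxS.2 (by omega)).1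
      · by_cases h' : j = i + 1
        · rw [e1 j h']
          exact (hxS.1 (by omega)).2
        · rw [e2 j h h']; exact h4 j hj ho
  · show (if i = i then x else if i = i + 1 then x - 1 else J i) =
      (if i + 1 = i then x else if i + 1 = i + 1 then x - 1 else J (i + 1)) + 1
    rw [if_pos rfl, if_neg (by omega), if_pos rfl]
    omega
  · intro j hj hj'
    show (if j = i then x else if j = i + 1 then x - 1 else J j) = J j
    rw [if_neg hj, if_neg hj']
  · show (if i = i then x else if i = i + 1 then x - 1 else J i) ≤ J i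
    rw [if_pos rfl]
    exact hx2
  · show J (i + 1) ≤ (if i + 1 = i then x else if i + 1 = i + 1 then x - 1 else J (i + 1))
    rw [if_neg (by omega), if_pos rfl]
    omega

/-- The sequence of `Jq` is alternating. -/
theorem altW_Jq {S T : Finset ℕ} {k q : ℕ} (hq : 1 ≤ q) (hd : Disjoint S T)
    (hU : S ∪ T = Finset.Icc 1 (2 * k)) (h2k : 2 * k ∈ T) {J : ℕ → ℕ}
    (hJ : AltW S T (2 * k) (2 * q - 1) J)
    (hin : ∀ u ∈ T, (∃ s ∈ S, s < u) → (∃ s ∈ S, u < s) → 3 ∣ u) (s : ℕ) (hsS : s ∈ S)
    (hsmin : ∀ x ∈ S, s ≤ x) (r : ℕ) : AltW S T (2 * k) (2 * q - 1) (Jq J q s r) := by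
  classical
  have hSsub : S ⊆ Finset.Icc 1 (2 * k) := hU ▸ Finset.subset_union_left
  obtain ⟨j1, j2, j3, j4⟩ := id hJ
  have hSe : ∀ c, 2 * c < 2 * q - 1 → J (2 * c) ∈ S := fun c hc => j3 _ hc ⟨c, by ring⟩
  have hTo : ∀ c, 2 * c + 1 < 2 * q - 1 → J (2 * c + 1) ∈ T := fun c hc => j4 _ hc ⟨c, rfl⟩
  have h3J : ∀ c, 2 * c + 2 < 2 * q - 1 → 3 ∣ J (2 * c + 1) := by
    intro c hc
    refine hin _ (hTo c (by omega)) ⟨J (2 * (c + 1)), hSe _ (by omega),
      hJ.anti (by omega) (by omega)⟩ ⟨J (2 * c), hSe _ (by omega), hJ.anti (by omega) (by omega)⟩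
  have hs1 : 1 ≤ s := (Finset.mem_Icc.1 (hSsub hsS)).1
  have hmS : ∀ x, 1 ≤ x → x ≤ 2 * k → s < x → (∃ y ∈ S, x ≤ y) → ¬ 3 ∣ x → x ∈ S := by
    intro x hx1 hx2 hsx ⟨y, hy, hxy⟩ hx3
    have hx' : x ∈ S ∪ T := by
      rw [hU, Finset.mem_Icc]
      omega
    rcases Finset.mem_union.1 hx' with h | h
    · exact h
    · exfalso
      have hne : x ≠ y := fun h' => Finset.disjoint_left.1 hd hy (h' ▸ h)
      exact hx3 (hin x h ⟨s, hsS, hsx⟩ ⟨y, hy, by omega⟩)
  -- the moved terms
  have key : ∀ c, c + 1 < q → (J (2 * c + 1) < Jq J q s r (2 * c) ∧ Jq J q s r (2 * c) < 2 * k ∧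
      (1 ≤ c → Jq J q s r (2 * c) < J (2 * c - 1))) ∧ Jq J q s r (2 * c) ∈ S := by
    intro c hc
    have a1 := h3J c (by omega)
    have a2 : s < J (2 * c + 1) := by
      have := hsmin _ (hSe (c + 1) (by omega))
      have := hJ.anti (i := 2 * c + 1) (j := 2 * (c + 1)) (by omega) (by omega)
      omega
    have a3 := hJ.anti (i := 2 * c) (j := 2 * c + 1) (by omega) (by omega)
    have a4 := (j1 (2 * c) (by omega)).2
    have e : Jq J q s r (2 * c) = J (2 * c + 1) + 1 +
        (if 2 ≤ 2 * c ∧ 2 * c ≤ 2 * r then 1 else 0) := by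
      rw [Jq, if_pos (by omega), if_pos (by omega)]
    rcases Nat.eq_zero_or_pos c with rfl | hc0
    · rw [e, if_neg (by omega)]
      refine ⟨⟨by omega, by omega, fun h => absurd h (by omega)⟩, ?_⟩
      exact hmS _ (by omega) (by omega) (by omega) ⟨J (2 * 0), hSe 0 (by omega), by omega⟩
        (by omega)
    · have b1 := h3J (c - 1) (by omega)
      have b2 := hJ.anti (i := 2 * (c - 1) + 1) (j := 2 * c) (by omega) (by omega)
      rw [show 2 * (c - 1) + 1 = 2 * c - 1 by omega] at b1 b2
      have b3 := hJ.anti (i := 2 * (c - 1)) (j := 2 * c - 1) (by omega) (by omega)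
      have b4 := (j1 (2 * c - 1) (by omega)).2
      have b5 : J (2 * c + 1) + 3 ≤ J (2 * c - 1) := by omega
      rw [e]
      split_ifs
      · refine ⟨⟨by omega, by omega, fun _ => by omega⟩, ?_⟩
        exact hmS _ (by omega) (by omega) (by omega)
          ⟨J (2 * (c - 1)), hSe (c - 1) (by omega), by omega⟩ (by omega)
      · refine ⟨⟨by omega, by omega, fun _ => by omega⟩, ?_⟩
        exact hmS _ (by omega) (by omega) (by omega)
          ⟨J (2 * (c - 1)), hSe (c - 1) (by omega), by omega⟩ (by omega)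
  have last : Jq J q s r (2 * (q - 1)) = s := by
    rw [Jq, if_pos (by omega), if_neg (by omega)]
  have odd : ∀ c, Jq J q s r (2 * c + 1) = J (2 * c + 1) := fun c =>
    Jq_odd _ _ _ _ _ (by omega)
  have hs2k : s < 2 * k := by
    have h := Finset.mem_Icc.1 (hSsub hsS)
    have h' : s ≠ 2 * k := fun h' => Finset.disjoint_left.1 hd hsS (h' ▸ h2k)
    omega
  refine ⟨?_, ?_, ?_, ?_⟩
  · intro i hi
    rcases Nat.even_or_odd' i with ⟨c, rfl | rfl⟩
    · by_cases hc : c + 1 < q
      · have := key c hc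
        omega
      · rw [show c = q - 1 by omega, last]
        exact ⟨hs1, hs2k⟩
    · rw [odd]
      exact j1 _ hi
  · intro i hi
    rcases Nat.even_or_odd' i with ⟨c, rfl | rfl⟩
    · rw [odd]
      exact (key c (by omega)).1.1
    · rw [odd, show 2 * c + 1 + 1 = 2 * (c + 1) by ring]
      by_cases hc : c + 1 + 1 < q
      · have := (key (c + 1) hc).1.2.2 (by omega)
        rwa [show 2 * (c + 1) - 1 = 2 * c + 1 by omega] at this
      · rw [show c + 1 = q - 1 by omega, last]
        have g1 := hsmin _ (hSe (c + 1) (by omega))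
        have g2 := hJ.anti (i := 2 * c + 1) (j := 2 * (c + 1)) (by omega) (by omega)
        omega
  · intro i hi he
    obtain ⟨c, hc⟩ := he
    obtain rfl : i = 2 * c := by omega
    by_cases hc : c + 1 < q
    · exact (key c hc).2
    · rw [show c = q - 1 by omega, last]
      exact hsS
  · intro i hi ho
    obtain ⟨c, rfl⟩ := ho
    rw [odd]
    exact j4 _ hi ⟨c, rfl⟩

end Pool.Agent.P45
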