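import Pool.Agent.Lib.P45dba8.PlainOdd
import Pool.Agent.Lib.P45dba8.PlainOdd2

/-! # MP_45dba8: `k` odd, the plain zigzag with a bridge: all words with at least `k` boundaries -/

set_option autoImplicit false

namespace Pool.Agent.P45

/-- The colouring of one side with a single label (the same as `SingleRule`). -/
def SRule (k : ℕ) : Prop :=
  ∀ (i : ℕ) (D U : Finset ℕ), i ∈ Finset.Icc 1 (2 * k) → D ⊆ Finset.Icc 1 (2 * k) →
    U ⊆ Finset.Icc 1 (2 * k) → i ∉ D → i ∉ U → Disjoint D U → D.card = U.card →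
    k ≤ 2 * D.card + 3 →
    (¬ 3 ∣ 4 * k + 1 ∨ ¬ 3 ∣ i ∨ ((∃ b ∈ D, ¬ 3 ∣ b) ∧ ∃ c ∈ U, ¬ 3 ∣ c)) →
    SideOK1 k i D U

section main

variable {k r : ℕ} (hk : k = 2 * r + 1) (hr8 : 4 ≤ r) (hrule : SRule k) (S T : Finset ℕ)
  (hd : Disjoint S T) (hU : S ∪ T = Finset.Icc 1 (2 * k)) (hcS : S.card = k) (hcT : T.card = k)
  (h2k : 2 * k ∈ T)

include hk hr8 hrule hd hU hcS hcT h2k

/-- The side `S` of a sequence with a bridge. -/
theorem odd_sideS (J : ℕ → ℕ) (hJ : AltW S T (2 * k) k J) (i : ℕ) (hi : i + 2 ≤ k)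
    (hs : ¬ 3 ∣ 4 * k + 1 ∨ ¬ 3 ∣ brS J i ∨ ((∃ b ∈ (zDS (r + 1) J).erase (brS J i), ¬ 3 ∣ b) ∧
      ∃ c ∈ S \ zDS (r + 1) J, ¬ 3 ∣ c)) :
    SideOK1 k (brS J i) ((zDS (r + 1) J).erase (brS J i)) (S \ zDS (r + 1) J) := by
  classical
  have hSsub : S ⊆ Finset.Icc 1 (2 * k) := hU ▸ Finset.subset_union_left
  have hJ' : AltW S T (2 * k) (2 * (r + 1) - 1) J := by
    rw [show 2 * (r + 1) - 1 = k by omega]; exact hJ
  have hDS := altW_zDS_sub (by omega) hJ'
  have cDS := altW_card_zDS (by omega) hJ'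
  have hm := brS_mem hk J hi
  refine hrule _ _ _ (hSsub (hDS hm)) ((Finset.erase_subset _ _).trans (hDS.trans hSsub))
    (Finset.sdiff_subset.trans hSsub) (Finset.notMem_erase _ _)
    (fun h => (Finset.mem_sdiff.1 h).2 hm)
    (Disjoint.mono_left (Finset.erase_subset _ _) Finset.disjoint_sdiff) ?_ ?_ hs
  · rw [Finset.card_erase_of_mem hm, cDS, Finset.card_sdiff_of_subset hDS, cDS, hcS]
    omega
  · rw [Finset.card_erase_of_mem hm, cDS]
    omega

/-- A sequence with a bridge and the conditions modulo `3` on both sides. -/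
theorem odd_step (J : ℕ → ℕ) (hJ : AltW S T (2 * k) k J) (i : ℕ) (hi : i + 2 ≤ k)
    (hJi : J i = J (i + 1) + 1)
    (hs : ¬ 3 ∣ 4 * k + 1 ∨ ¬ 3 ∣ brS J i ∨ ((∃ b ∈ (zDS (r + 1) J).erase (brS J i), ¬ 3 ∣ b) ∧
      ∃ c ∈ S \ zDS (r + 1) J, ¬ 3 ∣ c))
    (ht : ¬ 3 ∣ 4 * k + 1 ∨ ¬ 3 ∣ brT J i ∨ ((∃ b ∈ (zDT (r + 1) J).erase (brT J i), ¬ 3 ∣ b) ∧
      ∃ c ∈ T \ insert (2 * k) (zDT (r + 1) J), ¬ 3 ∣ c)) :
    ∃ A : Finset (ZMod (4 * k + 1)), A.card = 2 * k ∧ EG (LSet k S) A ∧ EG (LSet k T) A := by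
  classical
  have hTsub : T ⊆ Finset.Icc 1 (2 * k) := hU ▸ Finset.subset_union_right
  have hJ' : AltW S T (2 * k) (2 * (r + 1) - 1) J := by
    rw [show 2 * (r + 1) - 1 = k by omega]; exact hJ
  have hDT := altW_zDT_sub hJ'
  have cDT := altW_card_zDT hJ'
  have hm := brT_mem hk J hi
  have h2kn : 2 * k ∉ zDT (r + 1) J := by
    intro h
    have := altW_zDT_lt hJ' h
    omega
  -- the unused labels
  have hsub : insert (2 * k) (zDT (r + 1) J) ⊆ T := Finset.insert_subset h2k hDT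
  have cU : (T \ insert (2 * k) (zDT (r + 1) J)).card = r := by
    rw [Finset.card_sdiff_of_subset hsub, Finset.card_insert_of_notMem h2kn, cDT, hcT]
    omega
  obtain ⟨c, hc⟩ : ∃ c, (∃ c ∈ T \ insert (2 * k) (zDT (r + 1) J), ¬ 3 ∣ c) →
      c ∈ T \ insert (2 * k) (zDT (r + 1) J) ∧ ¬ 3 ∣ c := by
    by_cases h : ∃ c ∈ T \ insert (2 * k) (zDT (r + 1) J), ¬ 3 ∣ c
    · obtain ⟨c, h1, h2⟩ := h
      exact ⟨c, fun _ => ⟨h1, h2⟩⟩
    · exact ⟨0, fun h' => absurd h' h⟩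
  obtain ⟨u₀, hu₀⟩ : ((T \ insert (2 * k) (zDT (r + 1) J)).erase c).Nonempty := by
    rw [← Finset.card_pos]
    have h1 := Finset.pred_card_le_card_erase (s := T \ insert (2 * k) (zDT (r + 1) J)) (a := c)
    omega
  rw [Finset.mem_erase, Finset.mem_sdiff, Finset.mem_insert, not_or] at hu₀
  obtain ⟨huc, huT, huk, huD⟩ := hu₀
  refine zig_odd hk (by omega) S T hU h2k J hJ i hi hJi u₀ huT huk huD
    (odd_sideS hk hr8 hrule S T hd hU hcS hcT h2k J hJ i hi hs) ?_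
  have hsub' : zDT (r + 1) J ∪ {2 * k, u₀} ⊆ T := by
    intro z hz
    rcases Finset.mem_union.1 hz with h | h
    · exact hDT h
    · rw [Finset.mem_insert, Finset.mem_singleton] at h
      rcases h with rfl | rfl
      · exact h2k
      · exact huT
  have cU' : (T \ (zDT (r + 1) J ∪ {2 * k, u₀})).card = r - 1 := by
    rw [Finset.card_sdiff_of_subset hsub', Finset.card_union_of_disjoint, cDT,
      Finset.card_pair (Ne.symm huk), hcT]
    · omega
    · rw [Finset.disjoint_right]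
      intro z hz
      rw [Finset.mem_insert, Finset.mem_singleton] at hz
      rcases hz with rfl | rfl
      · exact h2kn
      · exact huD
  refine hrule _ _ _ (hTsub (hDT hm)) ((Finset.erase_subset _ _).trans (hDT.trans hTsub))
    (Finset.sdiff_subset.trans hTsub) (Finset.notMem_erase _ _)
    (fun h => (Finset.mem_sdiff.1 h).2 (Finset.mem_union_left _ hm)) ?_ ?_ ?_ ?_
  · rw [Finset.disjoint_right]
    intro z hz hz'
    exact (Finset.mem_sdiff.1 hz).2 (Finset.mem_union_left _ (Finset.mem_of_mem_erase hz'))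
  · rw [Finset.card_erase_of_mem hm, cDT, cU']
    omega
  · rw [Finset.card_erase_of_mem hm, cDT]
    omega
  · rcases ht with h | h | ⟨h, h'⟩
    · exact Or.inl h
    · exact Or.inr (Or.inl h)
    · right; right
      obtain ⟨hc1, hc3⟩ := hc h'
      rw [Finset.mem_sdiff, Finset.mem_insert, not_or] at hc1
      refine ⟨h, c, ?_, hc3⟩
      rw [Finset.mem_sdiff, Finset.mem_union, Finset.mem_insert, Finset.mem_singleton]
      refine ⟨hc1.1, ?_⟩
      rintro (h | h | h)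
      · exact hc1.2.2 h
      · exact hc1.2.1 h
      · exact huc h.symm

/-- The same with the label `2k` as the host of `3`. -/
theorem odd_top (h3n : 3 ∣ 4 * k + 1) (J : ℕ → ℕ) (hJ : AltW S T (2 * k) k J) (i : ℕ)
    (hi : i + 2 ≤ k) (hJi : J i = J (i + 1) + 1)
    (hs : ¬ 3 ∣ 4 * k + 1 ∨ ¬ 3 ∣ brS J i ∨ ((∃ b ∈ (zDS (r + 1) J).erase (brS J i), ¬ 3 ∣ b) ∧
      ∃ c ∈ S \ zDS (r + 1) J, ¬ 3 ∣ c))
    (hall : ∀ d ∈ zDT (r + 1) J, 3 ∣ d)
    (h3 : 1 ≤ ((T.erase (2 * k)).filter (fun j => ¬ 3 ∣ j)).card)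
    (hW : IsCoprime (2 * zz (fun i => (J i : ℤ)) k - (-1) ^ i) (4 * k + 1 : ℤ)) :
    ∃ A : Finset (ZMod (4 * k + 1)), A.card = 2 * k ∧ EG (LSet k S) A ∧ EG (LSet k T) A := by
  classical
  have hTsub : T ⊆ Finset.Icc 1 (2 * k) := hU ▸ Finset.subset_union_right
  have hJ' : AltW S T (2 * k) (2 * (r + 1) - 1) J := by
    rw [show 2 * (r + 1) - 1 = k by omega]; exact hJ
  have hDT := altW_zDT_sub hJ'
  have cDT := altW_card_zDT hJ'
  have hm := brT_mem hk J hi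
  have h2kn : 2 * k ∉ zDT (r + 1) J := by
    intro h
    have := altW_zDT_lt hJ' h
    omega
  have hsub : insert (2 * k) (zDT (r + 1) J) ⊆ T := Finset.insert_subset h2k hDT
  have cU : (T \ insert (2 * k) (zDT (r + 1) J)).card = r := by
    rw [Finset.card_sdiff_of_subset hsub, Finset.card_insert_of_notMem h2kn, cDT, hcT]
    omega
  have h2kn' : 2 * k ∉ (zDT (r + 1) J).erase (brT J i) := fun h =>
    h2kn (Finset.mem_of_mem_erase h)
  have cK : (insert (2 * k) ((zDT (r + 1) J).erase (brT J i))).card = r := by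
    rw [Finset.card_insert_of_notMem h2kn', Finset.card_erase_of_mem hm, cDT]
    omega
  obtain ⟨c, hc⟩ : ((T.erase (2 * k)).filter (fun j => ¬ 3 ∣ j)).Nonempty :=
    Finset.card_pos.1 (by omega)
  rw [Finset.mem_filter, Finset.mem_erase] at hc
  refine zig_odd_top hk (by omega) S T hU h2k J hJ i hi hJi
    (odd_sideS hk hr8 hrule S T hd hU hcS hcT h2k J hJ i hi hs) ?_ hW
  have hKsub : insert (2 * k) ((zDT (r + 1) J).erase (brT J i)) ⊆
      insert (2 * k) (zDT (r + 1) J) :=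
    Finset.insert_subset_insert _ (Finset.erase_subset _ _)
  refine hrule _ _ _ (hTsub (hDT hm)) (hKsub.trans (hsub.trans hTsub))
    (Finset.sdiff_subset.trans hTsub) ?_
    (fun h => (Finset.mem_sdiff.1 h).2 (Finset.mem_insert_of_mem hm))
    (Disjoint.mono_left hKsub Finset.disjoint_sdiff) (by rw [cK, cU]) (by rw [cK]; omega) ?_
  · rw [Finset.mem_insert, not_or]
    exact ⟨fun h => h2kn (h ▸ hm), Finset.notMem_erase _ _⟩
  · right; right
    refine ⟨⟨2 * k, Finset.mem_insert_self _ _, by omega⟩, c, ?_, hc.2⟩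
    rw [Finset.mem_sdiff, Finset.mem_insert, not_or]
    exact ⟨hc.1.2, hc.1.1, fun h => hc.2 (hall c h)⟩

omit hr8 hrule hd h2k in
/-- Few multiples of `3` in `S`: nothing to check. -/
theorem few_S (J : ℕ → ℕ) (hJ : AltW S T (2 * k) k J) (i : ℕ) (hi : i + 2 ≤ k)
    (hf : (S.filter (fun j => 3 ∣ j)).card ≤ r) :
    ¬ 3 ∣ 4 * k + 1 ∨ ¬ 3 ∣ brS J i ∨ ((∃ b ∈ (zDS (r + 1) J).erase (brS J i), ¬ 3 ∣ b) ∧
      ∃ c ∈ S \ zDS (r + 1) J, ¬ 3 ∣ c) := by
  classical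
  have hJ' : AltW S T (2 * k) (2 * (r + 1) - 1) J := by
    rw [show 2 * (r + 1) - 1 = k by omega]; exact hJ
  have hDS := altW_zDS_sub (by omega) hJ'
  have cDS := altW_card_zDS (by omega) hJ'
  have hm := brS_mem hk J hi
  by_cases h3 : 3 ∣ brS J i
  swap
  · exact Or.inr (Or.inl h3)
  right; right
  have c1 : ((zDS (r + 1) J).erase (brS J i)).card = r := by
    rw [Finset.card_erase_of_mem hm, cDS]
    omega
  have c2 : (S \ zDS (r + 1) J).card = r := by
    rw [Finset.card_sdiff_of_subset hDS, cDS, hcS]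
    omega
  have hno : ∀ X : Finset ℕ, X ⊆ S → X.card = r → brS J i ∉ X → ∃ b ∈ X, ¬ 3 ∣ b := by
    intro X hX hXc hXm
    by_contra hcon
    push Not at hcon
    have h4 : insert (brS J i) X ⊆ S.filter (fun j => 3 ∣ j) := by
      intro x hx
      rw [Finset.mem_filter]
      rcases Finset.mem_insert.1 hx with rfl | hx
      · exact ⟨hDS hm, h3⟩
      · exact ⟨hX hx, hcon x hx⟩
    have h5 := Finset.card_le_card h4
    rw [Finset.card_insert_of_notMem hXm, hXc] at h5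
    omega
  exact ⟨hno _ ((Finset.erase_subset _ _).trans hDS) c1 (Finset.notMem_erase _ _),
    hno _ Finset.sdiff_subset c2 (fun h => (Finset.mem_sdiff.1 h).2 hm)⟩

omit hr8 hrule hd in
/-- Few multiples of `3` in `T`: nothing to check. -/
theorem few_T (J : ℕ → ℕ) (hJ : AltW S T (2 * k) k J) (i : ℕ) (hi : i + 2 ≤ k)
    (hf : (T.filter (fun j => 3 ∣ j)).card ≤ r - 1) (hr1 : 1 ≤ r) :
    ¬ 3 ∣ 4 * k + 1 ∨ ¬ 3 ∣ brT J i ∨ ((∃ b ∈ (zDT (r + 1) J).erase (brT J i), ¬ 3 ∣ b) ∧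
      ∃ c ∈ T \ insert (2 * k) (zDT (r + 1) J), ¬ 3 ∣ c) := by
  classical
  have hJ' : AltW S T (2 * k) (2 * (r + 1) - 1) J := by
    rw [show 2 * (r + 1) - 1 = k by omega]; exact hJ
  have hDT := altW_zDT_sub hJ'
  have cDT := altW_card_zDT hJ'
  have hm := brT_mem hk J hi
  have h2kn : 2 * k ∉ zDT (r + 1) J := by
    intro h
    have := altW_zDT_lt hJ' h
    omega
  by_cases h3 : 3 ∣ brT J i
  swap
  · exact Or.inr (Or.inl h3)
  right; right
  have c1 : ((zDT (r + 1) J).erase (brT J i)).card = r - 1 := by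
    rw [Finset.card_erase_of_mem hm, cDT]
    omega
  have c2 : (T \ insert (2 * k) (zDT (r + 1) J)).card = r := by
    rw [Finset.card_sdiff_of_subset (Finset.insert_subset h2k hDT),
      Finset.card_insert_of_notMem h2kn, cDT, hcT]
    omega
  have hno : ∀ X : Finset ℕ, X ⊆ T → r - 1 ≤ X.card → brT J i ∉ X → ∃ b ∈ X, ¬ 3 ∣ b := by
    intro X hX hXc hXm
    by_contra hcon
    push Not at hcon
    have h4 : insert (brT J i) X ⊆ T.filter (fun j => 3 ∣ j) := by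
      intro x hx
      rw [Finset.mem_filter]
      rcases Finset.mem_insert.1 hx with rfl | hx
      · exact ⟨hDT hm, h3⟩
      · exact ⟨hX hx, hcon x hx⟩
    have h5 := Finset.card_le_card h4
    rw [Finset.card_insert_of_notMem hXm] at h5
    omega
  exact ⟨hno _ ((Finset.erase_subset _ _).trans hDT) (by omega) (Finset.notMem_erase _ _),
    hno _ Finset.sdiff_subset (by omega)
      (fun h => (Finset.mem_sdiff.1 h).2 (Finset.mem_insert_of_mem hm))⟩

/-- Many multiples of `3` in `S`. -/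
theorem odd_A (J : ℕ → ℕ) (hJ : AltW S T (2 * k) k J)
    (h2 : 2 ≤ (S.filter (fun j => ¬ 3 ∣ j)).card)
    (hf : (T.filter (fun j => 3 ∣ j)).card ≤ r - 1) :
    ∃ A : Finset (ZMod (4 * k + 1)), A.card = 2 * k ∧ EG (LSet k S) A ∧ EG (LSet k T) A := by
  classical
  have hSsub : S ⊆ Finset.Icc 1 (2 * k) := hU ▸ Finset.subset_union_left
  have hS1 : ∀ s ∈ S, 1 ≤ s ∧ s < 2 * k := by
    intro s hs
    have h := Finset.mem_Icc.1 (hSsub hs)
    have h' : s ≠ 2 * k := fun h' => Finset.disjoint_left.1 hd hs (h' ▸ h2k)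
    omega
  have hc : ∀ j, 1 ≤ j → j ≤ 2 * k → j ∈ S ∨ j ∈ T := by
    intro j h1 h2
    have : j ∈ S ∪ T := by rw [hU, Finset.mem_Icc]; omega
    exact Finset.mem_union.1 this
  have hJ' : AltW S T (2 * k) (2 * (r + 1) - 1) J := by
    rw [show 2 * (r + 1) - 1 = k by omega]; exact hJ
  have cDS := altW_card_zDS (by omega) hJ'
  obtain ⟨D, hDS, hDc, hsep, ⟨b, hbD, hb3⟩, c, hcU, hc3⟩ := exch_S S T (zDS (r + 1) J) (2 * k) hd
    hS1 (fun j h1 h2 => hc j h1 (by omega))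
    (fun j => 3 ∣ j) (fun j h1 h2 => by omega) (altW_zDS_sub (by omega) hJ')
    (AltW.sepS hJ') (by rw [cDS, hcS, hk]; omega)
    (Finset.card_pos.1 (by rw [cDS]; omega)) h2
  rw [cDS] at hDc
  obtain ⟨J1, hJ1, hD1⟩ := altW_of_sep S T r D (2 * k) hDc hDS (fun d hd => hS1 d (hDS hd)) hsep
  rw [← hk] at hJ1
  obtain ⟨i, hi2, hie, hib⟩ : ∃ i, i + 2 ≤ k ∧ i % 2 = 0 ∧ J1 i ≠ b := by
    by_cases h : J1 0 = b
    · refine ⟨2, by omega, rfl, ?_⟩
      rw [← h]
      intro h'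
      have := hJ1.inj (i := 2) (j := 0) (by omega) (by omega) h'
      omega
    · exact ⟨0, by omega, rfl, h⟩
  obtain ⟨J2, hJ2, hJi, hJe, -, -⟩ := hJ1.adj hd hc i hi2
  refine odd_step hk hr8 hrule S T hd hU hcS hcT h2k J2 hJ2 i hi2 hJi ?_
    (few_T hk S T hU hcS hcT h2k J2 hJ2 i hi2 hf (by omega))
  have hbr : brS J2 i = J2 i := by rw [brS, if_pos hie]
  rw [hbr]
  by_cases h3 : 3 ∣ J2 i
  swap
  · exact Or.inr (Or.inl h3)
  right; right
  have hb' : b ∈ zDS (r + 1) J1 := by rw [hD1]; exact hbD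
  obtain ⟨j, hj, hjb⟩ := mem_zDS.1 hb'
  have hji : 2 * j ≠ i := by
    intro h
    rw [h] at hjb
    exact hib hjb
  refine ⟨⟨b, ?_, hb3⟩, c, ?_, hc3⟩
  · rw [Finset.mem_erase]
    refine ⟨fun h => hb3 (h ▸ h3), mem_zDS.2 ⟨j, hj, ?_⟩⟩
    rw [hJe _ hji (by omega), hjb]
  · rw [Finset.mem_sdiff] at hcU ⊢
    refine ⟨hcU.1, ?_⟩
    intro h
    obtain ⟨l, hl, hlc⟩ := mem_zDS.1 h
    by_cases hli : 2 * l = i
    · rw [hli] at hlc
      exact hc3 (hlc ▸ h3)
    · rw [hJe _ hli (by omega)] at hlc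
      apply hcU.2
      rw [← hD1]
      exact mem_zDS.2 ⟨l, hl, hlc⟩

/-- Many multiples of `3` in `T`, an inner label of `T` outside `3 ℤ`. -/
theorem odd_B1 (h3n : 3 ∣ 4 * k + 1) (J : ℕ → ℕ) (hJ : AltW S T (2 * k) k J)
    (h1 : (S.filter (fun j => 3 ∣ j)).card ≤ r)
    (h3 : 3 ≤ ((T.erase (2 * k)).filter (fun j => ¬ 3 ∣ j)).card)
    (u s s' : ℕ) (huT : u ∈ T) (hu3 : ¬ 3 ∣ u) (hs : s ∈ S) (hs' : s' ∈ S) (hsu : s < u)
    (hus : u < s') :
    ∃ A : Finset (ZMod (4 * k + 1)), A.card = 2 * k ∧ EG (LSet k S) A ∧ EG (LSet k T) A := by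
  classical
  have hSsub : S ⊆ Finset.Icc 1 (2 * k) := hU ▸ Finset.subset_union_left
  have hTsub : T ⊆ Finset.Icc 1 (2 * k) := hU ▸ Finset.subset_union_right
  have hc : ∀ j, 1 ≤ j → j ≤ 2 * k → j ∈ S ∨ j ∈ T := by
    intro j h1 h2
    have : j ∈ S ∪ T := by rw [hU, Finset.mem_Icc]; omega
    exact Finset.mem_union.1 this
  have hJ' : AltW S T (2 * k) (2 * (r + 1) - 1) J := by
    rw [show 2 * (r + 1) - 1 = k by omega]; exact hJ
  have cDT := altW_card_zDT hJ'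
  have h2kn : 2 * k ∉ zDT (r + 1) J := by
    intro h
    have := altW_zDT_lt hJ' h
    omega
  obtain ⟨D, hDT, hDc, hsep, ⟨b, hbD, hb3⟩, h4⟩ := exch_T hd (by omega) h2k
    (fun s hs => Finset.mem_Icc.1 (hSsub hs)) (fun t ht => Finset.mem_Icc.1 (hTsub ht)) hc h3 u s s'
    huT hu3 hs hs' hsu hus r (by omega) (by
      rw [Finset.card_erase_of_mem h2k, hcT]
      omega) _ (zDT (r + 1) J) rfl (by rw [cDT]; omega) (by
      intro x hx
      exact Finset.mem_erase.2 ⟨fun h => h2kn (h ▸ hx), altW_zDT_sub hJ' hx⟩)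
    (AltW.sepT (by omega) hJ')
  have hDT' : D ⊆ T := hDT.trans (Finset.erase_subset _ _)
  have hD1 : ∀ d ∈ D, 0 < d ∧ d < 2 * k := by
    intro d hdD
    have h5 := Finset.mem_Icc.1 (hTsub (hDT' hdD))
    have h6 := Finset.ne_of_mem_erase (hDT hdD)
    omega
  obtain ⟨J1, hJ1, hD1', -⟩ := altW_of_sepT S T r D 0 (2 * k) hDc hDT' (by omega) hD1 hsep
  rw [← hk] at hJ1
  obtain ⟨c, hc'⟩ : ((T.erase (2 * k) \ D).filter (fun j => ¬ 3 ∣ j)).Nonempty :=
    Finset.card_pos.1 (by omega)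
  rw [Finset.mem_filter, Finset.mem_sdiff, Finset.mem_erase] at hc'
  obtain ⟨i, hi2, hie, hib⟩ : ∃ i, i + 2 ≤ k ∧ i % 2 = 0 ∧ J1 (i + 1) ≠ b := by
    by_cases h : J1 1 = b
    · refine ⟨2, by omega, rfl, ?_⟩
      rw [← h]
      intro h'
      have := hJ1.inj (i := 2 + 1) (j := 1) (by omega) (by omega) h'
      omega
    · exact ⟨0, by omega, rfl, h⟩
  obtain ⟨J2, hJ2, hJi, hJe, -, -⟩ := hJ1.adj hd hc i hi2
  refine odd_step hk hr8 hrule S T hd hU hcS hcT h2k J2 hJ2 i hi2 hJi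
    (few_S hk S T hU hcS hcT J2 hJ2 i hi2 h1) ?_
  have hbr : brT J2 i = J2 (i + 1) := by rw [brT, if_pos hie]
  rw [hbr]
  by_cases h3' : 3 ∣ J2 (i + 1)
  swap
  · exact Or.inr (Or.inl h3')
  right; right
  have hb' : b ∈ zDT (r + 1) J1 := by rw [hD1']; exact hbD
  obtain ⟨j, hj, hjb⟩ := mem_zDT.1 hb'
  have hji : 2 * j + 1 ≠ i + 1 := by
    intro h
    rw [h] at hjb
    exact hib hjb
  refine ⟨⟨b, ?_, hb3⟩, c, ?_, hc'.2⟩
  · rw [Finset.mem_erase]
    refine ⟨fun h => hb3 (h ▸ h3'), mem_zDT.2 ⟨j, hj, ?_⟩⟩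
    rw [hJe _ (by omega) hji, hjb]
  · rw [Finset.mem_sdiff, Finset.mem_insert, not_or]
    refine ⟨hc'.1.1.2, hc'.1.1.1, ?_⟩
    intro h
    obtain ⟨l, hl, hlc⟩ := mem_zDT.1 h
    by_cases hli : 2 * l + 1 = i + 1
    · rw [hli] at hlc
      exact hc'.2 (hlc ▸ h3')
    · rw [hJe _ (by omega) hli] at hlc
      apply hc'.1.2
      rw [← hD1']
      exact mem_zDT.2 ⟨l, hl, hlc⟩

/-- Many multiples of `3` in `T`, all inner labels of `T` in `3 ℤ`. -/
theorem odd_B2 (h3n : 3 ∣ 4 * k + 1) (J : ℕ → ℕ) (hJ : AltW S T (2 * k) k J)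
    (h1 : (S.filter (fun j => 3 ∣ j)).card ≤ r)
    (hin : ∀ u ∈ T, (∃ s ∈ S, s < u) → (∃ s ∈ S, u < s) → 3 ∣ u)
    (h3 : 1 ≤ ((T.erase (2 * k)).filter (fun j => ¬ 3 ∣ j)).card) :
    ∃ A : Finset (ZMod (4 * k + 1)), A.card = 2 * k ∧ EG (LSet k S) A ∧ EG (LSet k T) A := by
  classical
  have hSsub : S ⊆ Finset.Icc 1 (2 * k) := hU ▸ Finset.subset_union_left
  have hTsub : T ⊆ Finset.Icc 1 (2 * k) := hU ▸ Finset.subset_union_right
  have hJ' : AltW S T (2 * k) (2 * (r + 1) - 1) J := by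
    rw [show 2 * (r + 1) - 1 = k by omega]; exact hJ
  obtain ⟨j1, j2, j3, j4⟩ := id hJ
  have hSe : ∀ c, 2 * c < k → J (2 * c) ∈ S := fun c hc => j3 _ hc ⟨c, by ring⟩
  have hTo : ∀ c, 2 * c + 1 < k → J (2 * c + 1) ∈ T := fun c hc => j4 _ hc ⟨c, rfl⟩
  have h3J : ∀ c, 2 * c + 2 < k → 3 ∣ J (2 * c + 1) := by
    intro c hc
    refine hin _ (hTo c (by omega)) ⟨J (2 * (c + 1)), hSe _ (by omega),
      hJ.anti (by omega) (by omega)⟩ ⟨J (2 * c), hSe _ (by omega), hJ.anti (by omega) (by omega)⟩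
  -- the smallest label of `S`
  have hSne : S.Nonempty := Finset.card_pos.1 (by omega)
  obtain ⟨s, hs⟩ : ∃ s, s = S.min' hSne := ⟨_, rfl⟩
  have hsS : s ∈ S := hs ▸ Finset.min'_mem _ _
  have hsmin : ∀ x ∈ S, s ≤ x := fun x hx => hs ▸ Finset.min'_le _ _ hx
  have hs1 : 1 ≤ s := (Finset.mem_Icc.1 (hSsub hsS)).1
  have hsq : s ≤ r + 1 := by
    have cDT := altW_card_zDT hJ'
    have h4 : (Finset.Icc 1 (s - 1)) ∪ insert (2 * k) (zDT (r + 1) J) ⊆ T := by
      intro x hx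
      rcases Finset.mem_union.1 hx with h | h
      · rw [Finset.mem_Icc] at h
        have h6 := (Finset.mem_Icc.1 (hSsub hsS)).2
        have hx' : x ∈ S ∪ T := by
          rw [hU, Finset.mem_Icc]
          omega
        rcases Finset.mem_union.1 hx' with h' | h'
        · have := hsmin x h'
          omega
        · exact h'
      · rcases Finset.mem_insert.1 h with rfl | h
        · exact h2k
        · exact altW_zDT_sub hJ' h
    have h5 := Finset.card_le_card h4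
    have h2kn : 2 * k ∉ zDT (r + 1) J := by
      intro h
      have := altW_zDT_lt hJ' h
      omega
    rw [Finset.card_union_of_disjoint, Nat.card_Icc, Finset.card_insert_of_notMem h2kn, cDT, hcT]
      at h5
    · omega
    · rw [Finset.disjoint_left]
      intro x hx hx'
      rw [Finset.mem_Icc] at hx
      rcases Finset.mem_insert.1 hx' with rfl | h
      · have := (Finset.mem_Icc.1 (hSsub hsS)).2
        omega
      · obtain ⟨i, hi, rfl⟩ := mem_zDT.1 h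
        have h6 := hsmin _ (hSe (i + 1) (by omega))
        have h7 := hJ.anti (i := 2 * i + 1) (j := 2 * (i + 1)) (by omega) (by omega)
        omega
  have hJq : ∀ ρ, AltW S T (2 * k) k (Jq J (r + 1) s ρ) := by
    intro ρ
    have := altW_Jq (by omega) hd hU h2k hJ' hin s hsS hsmin ρ
    rwa [show 2 * (r + 1) - 1 = k by omega] at this
  have fin : ∀ ρ i, (ρ + 2 ≤ r + 1 ∨ ρ = 0) → i + 2 ≤ k →
      Jq J (r + 1) s ρ i = Jq J (r + 1) s ρ (i + 1) + 1 →
      IsCoprime (2 * ((s : ℤ) + (r : ℕ) + ρ) - (-1) ^ i) (4 * k + 1 : ℤ) →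
      ∃ A : Finset (ZMod (4 * k + 1)), A.card = 2 * k ∧ EG (LSet k S) A ∧ EG (LSet k T) A := by
    intro ρ i hρ hi hJi hco
    refine odd_top hk hr8 hrule S T hd hU hcS hcT h2k h3n _ (hJq ρ) i hi hJi
      (few_S hk S T hU hcS hcT _ (hJq ρ) i hi h1) ?_ h3 ?_
    · intro d hd'
      rw [zDT_Jq] at hd'
      obtain ⟨c, hc, rfl⟩ := mem_zDT.1 hd'
      exact h3J c (by omega)
    · have h5 := zz_Jq J (r + 1) s ρ (by omega) hρ
      rw [show 2 * (r + 1) - 1 = k by omega, show r + 1 - 1 = r by omega] at h5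
      rw [h5]
      exact hco
  have i0 : ∀ ρ, Jq J (r + 1) s ρ 0 = Jq J (r + 1) s ρ (0 + 1) + 1 := by
    intro ρ
    have e1 : Jq J (r + 1) s ρ (0 + 1) = J (0 + 1) := Jq_odd _ _ _ _ _ (by omega)
    have e0 : Jq J (r + 1) s ρ 0 = J (0 + 1) + 1 := by
      rw [Jq, if_pos (by omega), if_pos (by omega), if_neg (by omega)]
    rw [e0, e1]
  obtain h | h | h : s = 1 ∨ s = 2 ∨ 3 ≤ s := by omega
  · refine fin 0 0 (Or.inr rfl) (by omega) (i0 0) ⟨-4, 1, ?_⟩
    rw [h, hk]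
    push_cast
    ring
  · -- two consecutive steps at distance 3
    obtain ⟨c, hc, hc3⟩ : ∃ c, c + 2 ≤ r ∧ J (2 * c + 1) = J (2 * (c + 1) + 1) + 3 := by
      by_contra hcon
      push Not at hcon
      have key : ∀ m, m + 1 ≤ r → J (2 * m + 1) + 6 * m ≤ J 1 := by
        intro m
        induction m with
        | zero => intro _; simp
        | succ m ih =>
          intro hm
          have g1 := ih (by omega)
          have g2 := hcon m (by omega)
          have g3 := h3J m (by omega)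
          have g4 := h3J (m + 1) (by omega)
          have g5 := hJ.anti (i := 2 * m + 1) (j := 2 * (m + 1) + 1) (by omega) (by omega)
          omega
      have g1 := key (r - 1) (by omega)
      have g2 := (j1 1 (by omega)).2
      have g3 := (j1 (2 * (r - 1) + 1) (by omega)).1
      have g4 := h3J (r - 1) (by omega)
      omega
    refine fin (r - 1) (2 * c + 1) (Or.inl (by omega)) (by omega) ?_ ?_
    · rw [Jq_odd _ _ _ _ _ (by omega), Jq, if_pos (by omega), if_pos (by omega),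
        if_pos (by omega), hc3, show 2 * (c + 1) + 1 = 2 * c + 1 + 1 + 1 by ring]
    · rw [h, show (-1 : ℤ) ^ (2 * c + 1) = -1 by rw [pow_succ, pow_mul]; norm_num]
      refine ⟨2, -1, ?_⟩
      have : ((r - 1 : ℕ) : ℤ) = (r : ℤ) - 1 := by omega
      rw [this, hk]
      push_cast
      ring
  · refine fin (r + 2 - s) 0 (Or.inl (by omega)) (by omega) (i0 _) ⟨2, -1, ?_⟩
    have : ((r + 2 - s : ℕ) : ℤ) = (r : ℤ) + 2 - s := by omega
    rw [this, hk]
    push_cast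
    ring

/-- THE PLAIN CASE FOR ODD `k`: every alternating sequence with `k` terms. -/
theorem plain_odd_of_altW (J : ℕ → ℕ) (hJ : AltW S T (2 * k) k J) :
    ∃ A : Finset (ZMod (4 * k + 1)), A.card = 2 * k ∧ EG (LSet k S) A ∧ EG (LSet k T) A := by
  classical
  have hTsub : T ⊆ Finset.Icc 1 (2 * k) := hU ▸ Finset.subset_union_right
  have hc : ∀ j, 1 ≤ j → j ≤ 2 * k → j ∈ S ∨ j ∈ T := by
    intro j h1 h2
    have : j ∈ S ∪ T := by rw [hU, Finset.mem_Icc]; omega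
    exact Finset.mem_union.1 this
  by_cases h3n : 3 ∣ 4 * k + 1
  swap
  · obtain ⟨J', hJ', hJi, -, -, -⟩ := hJ.adj hd hc 0 (by omega)
    exact odd_step hk hr8 hrule S T hd hU hcS hcT h2k J' hJ' 0 (by omega) hJi (Or.inl h3n)
      (Or.inl h3n)
  have htot : (S.filter (fun j => 3 ∣ j)).card + (T.filter (fun j => 3 ∣ j)).card =
      ((4 * k + 1) / 3 - 1) / 2 := by
    rw [← card_mult k 3 h3n, ← Finset.card_union_of_disjoint, ← Finset.filter_union, hU]
    exact Finset.disjoint_filter_filter hd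
  have hS := Finset.card_filter_add_card_filter_not (s := S) (fun j => 3 ∣ j)
  have hT3 : r ≤ ((T.erase (2 * k)).filter (fun j => ¬ 3 ∣ j)).card + (r + 2) / 3 := by
    have e1 := Finset.card_filter_add_card_filter_not (s := T.erase (2 * k)) (fun j => 3 ∣ j)
    have e2 : ((T.erase (2 * k)).filter (fun j => 3 ∣ j)).card ≤
        (T.filter (fun j => 3 ∣ j)).card :=
      Finset.card_le_card (Finset.filter_subset_filter _ (Finset.erase_subset _ _))
    rw [Finset.card_erase_of_mem h2k, hcT] at e1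
    omega
  by_cases hA : (S.filter (fun j => 3 ∣ j)).card ≤ r
  · by_cases hB : (T.filter (fun j => 3 ∣ j)).card ≤ r - 1
    · obtain ⟨J', hJ', hJi, -, -, -⟩ := hJ.adj hd hc 0 (by omega)
      exact odd_step hk hr8 hrule S T hd hU hcS hcT h2k J' hJ' 0 (by omega) hJi
        (few_S hk S T hU hcS hcT J' hJ' 0 (by omega) hA)
        (few_T hk S T hU hcS hcT h2k J' hJ' 0 (by omega) hB (by omega))
    · by_cases hI : ∀ u ∈ T, (∃ s ∈ S, s < u) → (∃ s ∈ S, u < s) → 3 ∣ u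
      · exact odd_B2 hk hr8 hrule S T hd hU hcS hcT h2k h3n J hJ hA hI (by omega)
      · push Not at hI
        obtain ⟨u, huT, ⟨s, hs, hsu⟩, ⟨s', hs', hus⟩, hu3⟩ := hI
        exact odd_B1 hk hr8 hrule S T hd hU hcS hcT h2k h3n J hJ hA (by omega) u s s' huT hu3 hs
          hs' hsu hus
  · exact odd_A hk hr8 hrule S T hd hU hcS hcT h2k J hJ (by omega) (by omega)

/-- THE PLAIN CASE FOR ODD `k`: every word with at least `k` boundaries. -/
theorem plain_odd (hb : k ≤ (Bd S T (2 * k)).card) :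
    ∃ A : Finset (ZMod (4 * k + 1)), A.card = 2 * k ∧ EG (LSet k S) A ∧ EG (LSet k T) A := by
  have hcov : ∀ j, 1 ≤ j → j ≤ 2 * k → j ∈ S ∨ j ∈ T := by
    intro j h1 h2
    have : j ∈ S ∪ T := by rw [hU, Finset.mem_Icc]; omega
    exact Finset.mem_union.1 this
  obtain ⟨J, hJ'⟩ := alt_seq k S T (2 * k) hd hcov h2k hb
  exact plain_odd_of_altW hk hr8 hrule S T hd hU hcS hcT h2k J hJ'.altW

end main

end Pool.Agent.P45
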