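import Pool.Agent.Lib.P45dba8.PlanS
import Pool.Agent.Lib.P45dba8.SideRules

/-! # MP_45dba8: the label matching of one side with one single of any value, `k` odd, `k ≥ 17` -/

set_option autoImplicit false

namespace Pool.Agent.P45

section numeric

/-- The divisors of `n` in `(1, n/3]`. -/
def TA (n : ℕ) : Finset ℕ := (Finset.Icc 2 (n / 3)).filter (fun h => h ∣ n)

theorem mem_TA {n h : ℕ} : h ∈ TA n ↔ (2 ≤ h ∧ 3 * h ≤ n) ∧ h ∣ n := by
  rw [TA, Finset.mem_filter, Finset.mem_Icc, Nat.le_div_iff_mul_le (by norm_num), mul_comm h 3]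

/-- The list of the divisors of `n` in `(1, n/3]`. -/
def LA (n : ℕ) : List ℕ :=
  (List.range' 2 (n / 3)).filter (fun h => decide (n % h = 0) && decide (3 * h ≤ n))

theorem mem_LA {n h : ℕ} (hh : h ∈ TA n) : h ∈ LA n := by
  obtain ⟨⟨a1, a2⟩, a3⟩ := mem_TA.1 hh
  rw [LA, List.mem_filter, List.mem_range'_1]
  refine ⟨⟨a1, by omega⟩, ?_⟩
  rw [Bool.and_eq_true, decide_eq_true_eq, decide_eq_true_eq]
  exact ⟨Nat.mod_eq_zero_of_dvd a3, a2⟩

theorem TA_card_le (n : ℕ) : (TA n).card ≤ (LA n).length := by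
  classical
  have h1 : TA n ⊆ (LA n).toFinset := by
    intro h hh
    rw [List.mem_toFinset]
    exact mem_LA hh
  exact (Finset.card_le_card h1).trans (List.toFinset_card_le _)

/-- The check for one list. -/
def chkL (k n : ℕ) (L : List ℕ) : Bool :=
  L.all (fun h => decide ((L.filter (fun g => decide (g < h))).length ≤ 1) ||
    decide (2 * (2 * L.length + (n / h - 1) / 2) + 1 ≤ k))

theorem chkL_all : (List.range' 8 164).all
    (fun j => chkL (2 * j + 1) (4 * (2 * j + 1) + 1) (LA (4 * (2 * j + 1) + 1))) = true := by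
  decide +kernel

theorem TA_large (n : ℕ) (hodd : n % 2 = 1) (hn : 1369 ≤ n) :
    112 * (TA n).card + 7 ≤ 3 * n := by
  classical
  set s := Nat.sqrt n with hs
  have hs1 : s * s ≤ n := Nat.sqrt_le n
  have hs2 : n < (s + 1) * (s + 1) := Nat.lt_succ_sqrt n
  have hs37 : 37 ≤ s := by
    by_contra hcon
    have : s + 1 ≤ 37 := by omega
    have : (s + 1) * (s + 1) ≤ 37 * 37 := Nat.mul_le_mul this this
    omega
  set B := (Finset.Icc 3 s).filter (fun j => j % 2 = 1) with hB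
  have hodd' : ∀ h, h ∣ n → h % 2 = 1 := by
    intro h hh
    by_contra hcon
    have : 2 ∣ h := by omega
    have := this.trans hh
    omega
  have hsub : TA n ⊆ B ∪ B.image (fun j => n / j) := by
    intro h hh
    obtain ⟨⟨a1, a2⟩, a3⟩ := mem_TA.1 hh
    have o1 := hodd' h a3
    rw [Finset.mem_union]
    by_cases hle : h ≤ s
    · left
      rw [hB, Finset.mem_filter, Finset.mem_Icc]
      omega
    · right
      rw [Finset.mem_image]
      obtain ⟨c, hc⟩ := a3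
      have o2 := hodd' c ⟨h, by rw [hc, mul_comm]⟩
      have hc1 : c ≤ s := by
        by_contra hcon
        have : (s + 1) * (s + 1) ≤ h * c := Nat.mul_le_mul (by omega) (by omega)
        omega
      have hc2 : 3 ≤ c := by
        by_contra hcon
        have : c = 1 := by omega
        rw [this, mul_one] at hc
        omega
      refine ⟨c, ?_, ?_⟩
      · rw [hB, Finset.mem_filter, Finset.mem_Icc]
        exact ⟨⟨hc2, hc1⟩, o2⟩
      · show n / c = h
        rw [hc]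
        exact Nat.mul_div_cancel _ (by omega)
  have h1 := (Finset.card_le_card hsub).trans (Finset.card_union_le _ _)
  have h2 : (B.image (fun j => n / j)).card ≤ B.card := Finset.card_image_le
  have h3 := odd_card s
  rw [← hB] at h3
  have h4 : 112 * (TA n).card ≤ 112 * (s - 1) := by omega
  have h5 : 112 * (s - 1) + 7 ≤ 3 * (s * s) := by
    obtain ⟨t, ht⟩ := Nat.exists_eq_add_of_le hs37
    rw [ht]
    have : 37 + t - 1 = 36 + t := by omega
    rw [this]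
    nlinarith [sq_nonneg t]
  omega

/-- The count for the divisors which are not the two smallest ones. -/
theorem TA_cnt {k : ℕ} (hk : 17 ≤ k) (hko : k % 2 = 1) {h0 h1 h : ℕ} (m0 : h0 ∈ TA (4 * k + 1))
    (m1 : h1 ∈ TA (4 * k + 1)) (hh : h ∈ TA (4 * k + 1)) (l0 : h0 < h1) (l1 : h1 < h) :
    2 * (2 * (TA (4 * k + 1)).card + ((4 * k + 1) / h - 1) / 2) + 1 ≤ k := by
  by_cases hk' : k < 343
  · have h1' := chkL_all
    rw [List.all_eq_true] at h1'
    have h2 := h1' (k / 2) (by rw [List.mem_range'_1]; omega)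
    have e : 2 * (k / 2) + 1 = k := by omega
    rw [e] at h2
    unfold chkL at h2
    rw [List.all_eq_true] at h2
    have h3 := h2 h (mem_LA hh)
    rw [Bool.or_eq_true, decide_eq_true_eq, decide_eq_true_eq] at h3
    have hc := TA_card_le (4 * k + 1)
    rcases h3 with h3 | h3
    · exfalso
      have n0 : h0 ∈ (LA (4 * k + 1)).filter (fun g => decide (g < h)) := by
        rw [List.mem_filter, decide_eq_true_eq]
        exact ⟨mem_LA m0, by omega⟩
      have n1 : h1 ∈ (LA (4 * k + 1)).filter (fun g => decide (g < h)) := by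
        rw [List.mem_filter, decide_eq_true_eq]
        exact ⟨mem_LA m1, by omega⟩
      have n2 : ({h0, h1} : Finset ℕ) ⊆
          ((LA (4 * k + 1)).filter (fun g => decide (g < h))).toFinset := by
        intro x hx
        rw [Finset.mem_insert, Finset.mem_singleton] at hx
        rw [List.mem_toFinset]
        rcases hx with rfl | rfl
        · exact n0
        · exact n1
      have n3 := (Finset.card_le_card n2).trans (List.toFinset_card_le _)
      rw [Finset.card_pair (by omega)] at n3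
      omega
    · omega
  · have h2 := TA_large (4 * k + 1) (by omega) (by omega)
    obtain ⟨⟨a1, a2⟩, a3⟩ := mem_TA.1 hh
    obtain ⟨⟨b1, -⟩, b3⟩ := mem_TA.1 m0
    obtain ⟨⟨c1, -⟩, c3⟩ := mem_TA.1 m1
    have d0 : ∀ g, g ∣ 4 * k + 1 → g % 2 = 1 := by
      intro g hg
      by_contra hcon
      have : 2 ∣ g := by omega
      have := this.trans hg
      omega
    have e1 := d0 h a3
    have e2 := d0 h0 b3
    have e3 := d0 h1 c3
    obtain ⟨x, hx⟩ := a3
    have e : (4 * k + 1) / h = x := by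
      rw [hx]
      exact Nat.mul_div_cancel_left _ (by omega)
    rw [e]
    have h7x : 7 * x ≤ 4 * k + 1 := by
      rw [hx]
      exact Nat.mul_le_mul_right x (by omega)
    omega

end numeric

section side

variable {k : ℕ} {D U : Finset ℕ} {σ : ℕ → ℕ}

/-- One single `i0` of any value; the hosts of `h0`, `h1` are given. -/
theorem side_T2 (hLL : LoneLift) (T : Finset ℕ) (hTn : ∀ h ∈ T, h ∣ 4 * k + 1 ∧ 1 < h)
    (hTd : ∀ h ∈ T, ∀ g, g ∣ h → 1 < g → g ∈ T) (i0 : ℕ) (hi0 : i0 ∈ Finset.Icc 1 (2 * k))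
    (hiD : i0 ∉ D) (hiU : i0 ∉ U) (hD : D ⊆ Finset.Icc 1 (2 * k))
    (hU : U ⊆ Finset.Icc 1 (2 * k)) (hDU : Disjoint D U) (hσ : Set.BijOn σ D U)
    (h0 h1 : ℕ) (ρ : ℕ → {i // i ∈ ({i0} : Finset ℕ)} ⊕ {d // d ∈ D})
    (hρ : ∀ h ∈ T, (h = h0 ∨ h = h1) → Sum.elim (fun _ => ¬ h ∣ i0)
      (fun d : {d // d ∈ D} => ¬ h ∣ d.1 ∧ ¬ h ∣ σ d.1) (ρ h))
    (hρi : h0 ∈ T → h1 ∈ T → h0 ≠ h1 → ρ h0 ≠ ρ h1)
    (cnt : ∀ h ∈ T, h ≠ h0 → h ≠ h1 → 2 * T.card + ((4 * k + 1) / h - 1) / 2 ≤ D.card + 1)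
    (hval : ∀ d ∈ D, Nat.gcd (Nat.gcd (4 * k + 1) d) (σ d) = 1 ∨
      Nat.gcd (Nat.gcd (4 * k + 1) d) (σ d) ∈ T)
    (sval : Nat.gcd (4 * k + 1) i0 = 1 ∨ Nat.gcd (4 * k + 1) i0 ∈ T) : GoodSide k {i0} D σ := by
  classical
  have hodd : Odd (4 * k + 1) := ⟨2 * k, by ring⟩
  have hsi : ∀ i : {i // i ∈ ({i0} : Finset ℕ)}, i.1 = i0 := by
    intro i
    exact Finset.mem_singleton.1 i.2
  obtain ⟨H, π, -, P⟩ := plan2_count (n := 4 * k + 1)
    (t := fun i : {i // i ∈ ({i0} : Finset ℕ)} => 2 * i.1)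
    (a := fun d : {d // d ∈ D} => 2 * d.1) (b := fun d : {d // d ∈ D} => 2 * σ d.1)
    T h0 h1 ρ
    (fun h hh => (hTn h hh).1)
    (fun h hh => (hTn h hh).2)
    (fun h hh x hx => by
      have h1 := nx_dvd (t := fun i : {i // i ∈ ({i0} : Finset ℕ)} => 2 * i.1)
        (a := fun d : {d // d ∈ D} => 2 * d.1) (b := fun d : {d // d ∈ D} => 2 * σ d.1) h x
      have h2 := (hTn h hh).2
      have h3 := Nat.pos_of_dvd_of_pos h1 (by omega)
      by_cases h4 : nx (fun i : {i // i ∈ ({i0} : Finset ℕ)} => 2 * i.1)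
        (fun d : {d // d ∈ D} => 2 * d.1)
        (fun d : {d // d ∈ D} => 2 * σ d.1) h x = 1
      · exact Or.inl h4
      · exact Or.inr (hTd h hh _ h1 (by omega)))
    (fun x => by
      rcases x with i | d
      · show Nat.gcd (4 * k + 1) (2 * i.1) = 1 ∨ Nat.gcd (4 * k + 1) (2 * i.1) ∈ T
        rw [gcd_two_mul, hsi i]
        exact sval
      · rw [nx_two dvd_rfl]
        exact hval d.1 d.2)
    (fun h hh he => by
      have h2 := hρ h hh he
      have h3 := (hTn h hh).1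
      rcases e : ρ h with i | d
      · rw [e] at h2
        show ¬ h ∣ 2 * i.1
        rw [dvd_two_mul_iff h3, hsi i]
        exact h2
      · rw [e] at h2
        show ¬ h ∣ 2 * d.1 ∧ ¬ h ∣ 2 * σ d.1
        rw [dvd_two_mul_iff h3, dvd_two_mul_iff h3]
        exact h2)
    hρi
    (fun h hh hne0 hne1 => by
      have h1 := avoid_card hD hU hDU hσ (hTn h hh).1
      have h2 := cnt h hh hne0 hne1
      have h3 : ((Finset.univ : Finset {d // d ∈ D}).filter
        (fun d => ¬ h ∣ 2 * d.1 ∧ ¬ h ∣ 2 * σ d.1)).card =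
        ((Finset.univ : Finset {d // d ∈ D}).filter
        (fun d => ¬ h ∣ (fun d : {d // d ∈ D} => 2 * d.1) d ∧
          ¬ h ∣ (fun d : {d // d ∈ D} => 2 * σ d.1) d)).card := rfl
      omega)
  refine P.good hLL hodd (labels_TDist (Finset.singleton_subset_iff.2 hi0) hD hU hDU ?_ ?_ hσ)
  · exact Finset.disjoint_singleton_left.2 hiD
  · exact Finset.disjoint_singleton_left.2 hiU

theorem odd_dvd {k g : ℕ} (hg : g ∣ 4 * k + 1) : g % 2 = 1 := by
  by_contra hcon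
  have h2 : 2 ∣ g := by omega
  have := h2.trans hg
  omega

/-- A host of `h ≥ 7`, not a given pair. -/
theorem exists_host2 (hk : 17 ≤ k) (hko : k % 2 = 1) (hD : D ⊆ Finset.Icc 1 (2 * k))
    (hU : U ⊆ Finset.Icc 1 (2 * k)) (hDU : Disjoint D U) (hσ : Set.BijOn σ D U)
    (hm : k ≤ 2 * D.card + 3) {h : ℕ} (hh : h ∣ 4 * k + 1)
    (h5 : 7 ≤ h ∨ (h = 5 ∧ 3 ∣ 4 * k + 1)) (b0 : {d // d ∈ D}) :
    ∃ b : {d // d ∈ D}, b ≠ b0 ∧ ¬ h ∣ b.1 ∧ ¬ h ∣ σ b.1 := by
  classical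
  have h1 := avoid_card hD hU hDU hσ hh
  have h2 : 1 < ((Finset.univ : Finset {d // d ∈ D}).filter
      (fun d => ¬ h ∣ 2 * d.1 ∧ ¬ h ∣ 2 * σ d.1)).card := by
    obtain ⟨x, hx⟩ := hh
    have hpos : 0 < h := by omega
    have e : (4 * k + 1) / h = x := by
      rw [hx]
      exact Nat.mul_div_cancel_left _ hpos
    rw [e] at h1
    rcases h5 with h5 | ⟨h5, h3⟩
    · have h7x : 7 * x ≤ 4 * k + 1 := by
        rw [hx]
        exact Nat.mul_le_mul_right x h5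
      omega
    · rw [h5] at hx
      omega
  obtain ⟨b, hb, hne⟩ := Finset.exists_mem_ne h2 b0
  rw [Finset.mem_filter] at hb
  exact ⟨b, hne, fun h' => hb.2.1 (h'.mul_left 2), fun h' => hb.2.2 (h'.mul_left 2)⟩

/-- A host of `h ≥ 5`. -/
theorem exists_host1 (hk : 17 ≤ k) (hko : k % 2 = 1) (hD : D ⊆ Finset.Icc 1 (2 * k))
    (hU : U ⊆ Finset.Icc 1 (2 * k)) (hDU : Disjoint D U) (hσ : Set.BijOn σ D U)
    (hm : k ≤ 2 * D.card + 3) {h : ℕ} (hh : h ∣ 4 * k + 1)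
    (h5 : 5 ≤ h) : ∃ b : {d // d ∈ D}, ¬ h ∣ b.1 ∧ ¬ h ∣ σ b.1 := by
  classical
  have h1 := avoid_card hD hU hDU hσ hh
  have h2 : 0 < ((Finset.univ : Finset {d // d ∈ D}).filter
      (fun d => ¬ h ∣ 2 * d.1 ∧ ¬ h ∣ 2 * σ d.1)).card := by
    obtain ⟨x, hx⟩ := hh
    have hpos : 0 < h := by omega
    have e : (4 * k + 1) / h = x := by
      rw [hx]
      exact Nat.mul_div_cancel_left _ hpos
    rw [e] at h1
    have h5x : 5 * x ≤ 4 * k + 1 := by
      rw [hx]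
      exact Nat.mul_le_mul_right x h5
    by_cases h6 : h = 5
    · rw [h6] at hx
      omega
    · have h7x : 7 * x ≤ 4 * k + 1 := by
        have h8 := odd_dvd (k := k) (g := h) ⟨x, hx⟩
        rw [hx]
        exact Nat.mul_le_mul_right x (by omega)
      omega
  obtain ⟨b, hb⟩ := Finset.card_pos.1 h2
  rw [Finset.mem_filter] at hb
  exact ⟨b, fun h' => hb.2.1 (h'.mul_left 2), fun h' => hb.2.2 (h'.mul_left 2)⟩

/-- THE MATCHING OF A SIDE WITH ONE SINGLE OF ANY VALUE, `k` odd. -/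
theorem side_single2 (hLL : LoneLift) (hk : 17 ≤ k) (hko : k % 2 = 1) (i0 : ℕ)
    (hi0 : i0 ∈ Finset.Icc 1 (2 * k)) (hiD : i0 ∉ D) (hiU : i0 ∉ U)
    (hD : D ⊆ Finset.Icc 1 (2 * k)) (hU : U ⊆ Finset.Icc 1 (2 * k)) (hDU : Disjoint D U)
    (hcard : D.card = U.card) (hm : k ≤ 2 * D.card + 3)
    (h3 : ¬ 3 ∣ 4 * k + 1 ∨ ¬ 3 ∣ i0 ∨ ((∃ b ∈ D, ¬ 3 ∣ b) ∧ ∃ c ∈ U, ¬ 3 ∣ c)) :
    ∃ σ : ℕ → ℕ, Set.BijOn σ D U ∧ GoodSide k {i0} D σ := by
  classical
  -- the values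
  have hvalT : ∀ σ : ℕ → ℕ, Set.BijOn σ D U → ∀ d ∈ D,
      Nat.gcd (Nat.gcd (4 * k + 1) d) (σ d) = 1 ∨
      Nat.gcd (Nat.gcd (4 * k + 1) d) (σ d) ∈ TA (4 * k + 1) := by
    intro σ hσ d hd
    have hd0 := Finset.mem_Icc.1 (hD hd)
    rcases val_TT (q := 0) hD hU hDU hσ hd (Or.inl (by
      intro h'
      have := Nat.eq_zero_of_zero_dvd h'
      omega)) with h | h
    · exact Or.inl h
    · right
      obtain ⟨⟨a1, a2⟩, a3, -⟩ := mem_TT.1 h
      exact mem_TA.2 ⟨⟨a1, by omega⟩, a3⟩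
  have sval : Nat.gcd (4 * k + 1) i0 = 1 ∨ Nat.gcd (4 * k + 1) i0 ∈ TA (4 * k + 1) := by
    have v1 : Nat.gcd (4 * k + 1) i0 ∣ 4 * k + 1 := Nat.gcd_dvd_left _ _
    have v2 : Nat.gcd (4 * k + 1) i0 ∣ i0 := Nat.gcd_dvd_right _ _
    have v0 : 0 < Nat.gcd (4 * k + 1) i0 := Nat.gcd_pos_of_pos_left _ (by omega)
    have b := Finset.mem_Icc.1 hi0
    have v3 := Nat.le_of_dvd (by omega) v2
    by_cases h1 : Nat.gcd (4 * k + 1) i0 = 1
    · exact Or.inl h1
    right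
    refine mem_TA.2 ⟨⟨by omega, ?_⟩, v1⟩
    obtain ⟨x, hx⟩ := v1
    have hx3 : 3 ≤ x := by
      by_contra hcon
      have h4 : Nat.gcd (4 * k + 1) i0 * x ≤ Nat.gcd (4 * k + 1) i0 * 2 :=
        Nat.mul_le_mul_left _ (by omega)
      omega
    have h4 : Nat.gcd (4 * k + 1) i0 * 3 ≤ Nat.gcd (4 * k + 1) i0 * x :=
      Nat.mul_le_mul_left _ hx3
    omega
  have hTn : ∀ h ∈ TA (4 * k + 1), h ∣ 4 * k + 1 ∧ 1 < h := by
    intro h hh
    obtain ⟨⟨a1, -⟩, a3⟩ := mem_TA.1 hh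
    exact ⟨a3, by omega⟩
  have hTd : ∀ h ∈ TA (4 * k + 1), ∀ g, g ∣ h → 1 < g → g ∈ TA (4 * k + 1) := by
    intro h hh g hg h1
    obtain ⟨⟨a1, a2⟩, a3⟩ := mem_TA.1 hh
    have := Nat.le_of_dvd (by omega) hg
    exact mem_TA.2 ⟨⟨by omega, by omega⟩, hg.trans a3⟩
  -- the two smallest elements
  have hsm : ∃ h0 h1, (h0 ∈ TA (4 * k + 1) → h1 ∈ TA (4 * k + 1) → h0 < h1) ∧
      (∀ h ∈ TA (4 * k + 1), h ≠ h0 → h ≠ h1 →
        h0 ∈ TA (4 * k + 1) ∧ h1 ∈ TA (4 * k + 1) ∧ h1 < h) ∧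
      (3 ∣ 4 * k + 1 → h0 = 3) ∧ (h1 ∈ TA (4 * k + 1) → h0 ∈ TA (4 * k + 1)) := by
    rcases (TA (4 * k + 1)).eq_empty_or_nonempty with hE | hE
    · refine ⟨3, 0, ?_, ?_, fun _ => rfl, ?_⟩
      · rw [hE]
        exact fun h => absurd h (Finset.notMem_empty _)
      · rw [hE]
        exact fun h hh => absurd hh (Finset.notMem_empty _)
      · rw [hE]
        exact fun h => absurd h (Finset.notMem_empty _)
    · have m0 := Finset.min'_mem _ hE
      have h33 : 3 ∣ 4 * k + 1 → (TA (4 * k + 1)).min' hE = 3 := by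
        intro hd
        have h5 : 3 ∈ TA (4 * k + 1) := mem_TA.2 ⟨⟨by omega, by omega⟩, hd⟩
        have h6 := Finset.min'_le _ _ h5
        have h7 := odd_dvd (hTn _ m0).1
        have h8 := (hTn _ m0).2
        omega
      rcases ((TA (4 * k + 1)).erase ((TA (4 * k + 1)).min' hE)).eq_empty_or_nonempty with hF | hF
      · refine ⟨(TA (4 * k + 1)).min' hE, 0, ?_, ?_, h33, fun _ => m0⟩
        · intro _ h0
          have := (hTn 0 h0).2
          omega
        · intro h hh hne _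
          have := Finset.mem_erase.2 ⟨hne, hh⟩
          rw [hF] at this
          exact absurd this (Finset.notMem_empty _)
      · have m1 := Finset.min'_mem _ hF
        have m1' := Finset.mem_erase.1 m1
        have l0 := Finset.min'_le _ _ m1'.2
        refine ⟨(TA (4 * k + 1)).min' hE,
          ((TA (4 * k + 1)).erase ((TA (4 * k + 1)).min' hE)).min' hF, ?_, ?_, h33, fun _ => m0⟩
        · intro _ _
          exact lt_of_le_of_ne l0 (fun h => m1'.1 h.symm)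
        · intro h hh hne hne1
          refine ⟨m0, m1'.2, ?_⟩
          have := Finset.min'_le _ _ (Finset.mem_erase.2 ⟨hne, hh⟩)
          exact lt_of_le_of_ne this (fun h => hne1 h.symm)
  obtain ⟨h0, h1, e1, e2, e3, e4⟩ := hsm
  have hcnt : ∀ h ∈ TA (4 * k + 1), h ≠ h0 → h ≠ h1 →
      2 * (TA (4 * k + 1)).card + ((4 * k + 1) / h - 1) / 2 ≤ D.card + 1 := by
    intro h hh hne0 hne1
    obtain ⟨a0, a1, a2⟩ := e2 h hh hne0 hne1
    have := TA_cnt hk hko a0 a1 hh (e1 a0 a1) a2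
    omega
  have hDne : D.Nonempty := Finset.card_pos.1 (by omega)
  obtain ⟨d0, hd0⟩ := hDne
  -- the bijection and the host of `h0`
  have hb : ∃ σ : ℕ → ℕ, Set.BijOn σ D U ∧ (h0 ∈ TA (4 * k + 1) →
      ¬ h0 ∣ i0 ∨ ∃ b : {d // d ∈ D}, ¬ h0 ∣ b.1 ∧ ¬ h0 ∣ σ b.1) := by
    by_cases hn3 : 3 ∣ 4 * k + 1
    · by_cases hi3 : 3 ∣ i0
      · rcases h3 with h3 | h3 | ⟨⟨b, hb, hb3⟩, c, hc, hc3⟩
        · exact absurd hn3 h3
        · exact absurd hi3 h3
        · obtain ⟨σ, hσ, hσb, -⟩ := exists_bij_ext D U hcard (fun _ => True) {b}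
            (Finset.singleton_subset_iff.2 hb) (fun _ => c)
            (fun d _ => hc) (by simp) (by simp)
          refine ⟨σ, hσ, fun _ => Or.inr ⟨⟨b, hb⟩, ?_, ?_⟩⟩
          · rw [e3 hn3]
            exact hb3
          · rw [e3 hn3]
            show ¬ 3 ∣ σ b
            rw [hσb b (Finset.mem_singleton_self _)]
            exact hc3
      · obtain ⟨σ, hσ, -, -⟩ := exists_bij_ext D U hcard (fun _ => True) ∅ (Finset.empty_subset _)
          (fun d => d) (fun d hd => absurd hd (Finset.notMem_empty _)) (by simp) (by simp)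
        exact ⟨σ, hσ, fun _ => Or.inl (by rw [e3 hn3]; exact hi3)⟩
    · obtain ⟨σ, hσ, -, -⟩ := exists_bij_ext D U hcard (fun _ => True) ∅ (Finset.empty_subset _)
        (fun d => d) (fun d hd => absurd hd (Finset.notMem_empty _)) (by simp) (by simp)
      refine ⟨σ, hσ, fun m0 => Or.inr ?_⟩
      refine exists_host1 hk hko hD hU hDU hσ hm (hTn _ m0).1 ?_
      have h5 := odd_dvd (hTn _ m0).1
      have h6 := (hTn _ m0).2
      have h7 : h0 ≠ 3 := by
        intro h8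
        rw [h8] at m0
        exact hn3 (hTn _ m0).1
      omega
  obtain ⟨σ, hσ, hh0⟩ := hb
  refine ⟨σ, hσ, ?_⟩
  -- the hosts
  have hρ : ∃ r0 r1 : {i // i ∈ ({i0} : Finset ℕ)} ⊕ {d // d ∈ D},
      (h0 ∈ TA (4 * k + 1) → Sum.elim (fun _ => ¬ h0 ∣ i0)
        (fun d : {d // d ∈ D} => ¬ h0 ∣ d.1 ∧ ¬ h0 ∣ σ d.1) r0) ∧
      (h1 ∈ TA (4 * k + 1) → Sum.elim (fun _ => ¬ h1 ∣ i0)
        (fun d : {d // d ∈ D} => ¬ h1 ∣ d.1 ∧ ¬ h1 ∣ σ d.1) r1) ∧
      (h0 ∈ TA (4 * k + 1) → h1 ∈ TA (4 * k + 1) → r0 ≠ r1) := by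
    by_cases m0 : h0 ∈ TA (4 * k + 1)
    swap
    · have m1 : h1 ∉ TA (4 * k + 1) := fun h => m0 (e4 h)
      exact ⟨Sum.inr ⟨d0, hd0⟩, Sum.inr ⟨d0, hd0⟩, fun h => absurd h m0, fun h => absurd h m1,
        fun h => absurd h m0⟩
    -- the second host
    have hh1 : ∀ b0 : {d // d ∈ D}, h1 ∈ TA (4 * k + 1) →
        ∃ b : {d // d ∈ D}, b ≠ b0 ∧ ¬ h1 ∣ b.1 ∧ ¬ h1 ∣ σ b.1 := by
      intro b0 m1
      refine exists_host2 hk hko hD hU hDU hσ hm (hTn _ m1).1 ?_ b0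
      have l := e1 m0 m1
      have o0 := odd_dvd (hTn _ m0).1
      have o1 := odd_dvd (hTn _ m1).1
      have p0 := (hTn _ m0).2
      by_cases h7 : 7 ≤ h1
      · exact Or.inl h7
      · right
        have h8 : h0 = 3 := by omega
        refine ⟨by omega, ?_⟩
        rw [h8] at m0
        exact (hTn _ m0).1
    rcases hh0 m0 with hs | ⟨b0, hb0, hb0'⟩
    · by_cases m1 : h1 ∈ TA (4 * k + 1)
      · obtain ⟨b, -, hb1, hb2⟩ := hh1 ⟨d0, hd0⟩ m1
        exact ⟨Sum.inl ⟨i0, Finset.mem_singleton_self _⟩, Sum.inr b, fun _ => hs,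
          fun _ => ⟨hb1, hb2⟩, fun _ _ => by simp⟩
      · exact ⟨Sum.inl ⟨i0, Finset.mem_singleton_self _⟩, Sum.inr ⟨d0, hd0⟩, fun _ => hs,
          fun h => absurd h m1, fun _ _ => by simp⟩
    · by_cases m1 : h1 ∈ TA (4 * k + 1)
      · obtain ⟨b, hne, hb1, hb2⟩ := hh1 b0 m1
        refine ⟨Sum.inr b0, Sum.inr b, fun _ => ⟨hb0, hb0'⟩, fun _ => ⟨hb1, hb2⟩, fun _ _ => ?_⟩
        intro h
        exact hne (Sum.inr_injective h).symm
      · exact ⟨Sum.inr b0, Sum.inr b0, fun _ => ⟨hb0, hb0'⟩, fun h => absurd h m1,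
          fun _ h => absurd h m1⟩
  obtain ⟨r0, r1, q0, q1, q2⟩ := hρ
  refine side_T2 hLL (TA (4 * k + 1)) hTn hTd i0 hi0 hiD hiU hD hU hDU hσ h0 h1
    (fun h => if h = h0 then r0 else r1) ?_ ?_ hcnt (hvalT σ hσ) sval
  · rintro h hh (he | he)
    · rw [he, if_pos rfl]
      rw [he] at hh
      exact q0 hh
    · by_cases h5 : h = h0
      · rw [if_pos h5, h5]
        rw [h5] at hh
        exact q0 hh
      · rw [if_neg h5, he]
        rw [he] at hh
        exact q1 hh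
  · intro m0 m1 hne
    rw [if_pos rfl, if_neg (fun h => hne h.symm)]
    exact q2 m0 m1

end side

end Pool.Agent.P45
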