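import Pool.Agent.Lib.P45dba8.BridgeRule
import Pool.Agent.Lib.P45dba8.FinalComp
import Pool.Agent.Lib.P45dba8.PlainOdd3
import Pool.Agent.Lib.P45dba8.SideSingle2

/-! # MP_45dba8: odd `k` from `LoneLift` and the two small cases -/

set_option autoImplicit false

namespace Pool.Agent.P45

/-- The rule for a side with a single label. -/
theorem singleRule (hLL : LoneLift) (k : ℕ) (hk : 17 ≤ k) (hko : k % 2 = 1) : SingleRule k := by
  intro i D U hi hD hU hiD hiU hDU hcard hm h3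
  exact side_single2 hLL hk hko i hi hiD hiU hD hU hDU hcard hm h3

/-- The plain zigzag for odd `k`. -/
theorem plainRule (hLL : LoneLift) (k : ℕ) (hk : 17 ≤ k) (hko : k % 2 = 1) : PlainRule k := by
  intro S T hd hU hcS hcT h2k hb
  exact plain_odd (r := k / 2) (by omega) (by omega) (singleRule hLL k hk hko) S T hd hU hcS hcT
    h2k hb

/-- ALL ODD `k` with `4 k + 1` composite, from `LoneLift` and the two small cases. -/
theorem lay_odd_all (hLL : LoneLift) (h5 : LayOK 5) (h11 : LayOK 11) (k : ℕ) (hk : 1 ≤ k)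
    (hodd : k % 2 = 1) (hn : ¬ (4 * k + 1).Prime) : LayOK k :=
  lay_odd_all_of h5 h11 (singleRule hLL) (plainRule hLL) (fun k r h1 h2 => bridgeRule k r h1 h2)
    k hk hodd hn

/-- The frozen statement from `LoneLift` and the two small cases. -/
theorem main_of_lone (hLL : LoneLift) (h5 : LayOK 5) (h11 : LayOK 11) :
    ∀ k : ℕ, 2 ≤ k → ∀ S : Finset ℕ, S ⊆ Finset.Icc 1 (2 * k) → S.card = k →
    ∀ G : SimpleGraph (ZMod (4 * k + 1) × Fin 2),
      (∀ p q : ZMod (4 * k + 1) × Fin 2, G.Adj p q ↔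
        ((p.2 = 0 ∧ q.2 = 0 ∧ min (p.1 - q.1).val (q.1 - p.1).val ∈ S) ∨
         (p.2 = 1 ∧ q.2 = 1 ∧
            min (p.1 - q.1).val (q.1 - p.1).val ∈ Finset.Icc 1 (2 * k) \ S) ∨
         (p.1 = q.1 ∧ p.2 ≠ q.2))) →
      ∃ c : Sym2 (ZMod (4 * k + 1) × Fin 2) → Fin (2 * k + 1),
        ∀ e ∈ G.edgeSet, ∀ f ∈ G.edgeSet, e ≠ f →
          (∃ v, v ∈ e ∧ v ∈ f) → c e ≠ c f :=
  main_of (lay_odd_all hLL h5 h11)

end Pool.Agent.P45
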