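import Pool.Agent.Lib.P45dba8.AsmSide
import Pool.Agent.Lib.P45dba8.PlanCount2

/-! # MP_45dba8, small odd `k` (`n = 21, 45`): configurations given by numbers

A template `t : Tm` lists the labels and the starting points of all holes of both sides, except
the labels which are not used. `Tm.ok` is the finite check, `Tm.sound` the colour systems of both
sides. -/

set_option autoImplicit false

namespace Pool.Agent.P45.Sm

/-- A configuration: the single label `s` at `q`; the label `2k` at `w`; the labels `t1`, `t2` once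
at `p1`, `p2`; the doubled labels `ds` (side `S`) and `dt` (side `T`) with their positions. -/
structure Tm where
  s : ℕ
  q : ℕ
  t1 : ℕ
  p1 : ℕ
  t2 : ℕ
  p2 : ℕ
  w : ℕ
  ds : List (ℕ × ℕ)
  dt : List (ℕ × ℕ)

/-- the fixed labels of the side `S` -/
def Tm.SL (t : Tm) : List ℕ := t.s :: t.ds.map Prod.fst

/-- the fixed labels of the side `T` -/
def Tm.TL (k : ℕ) (t : Tm) : List ℕ := 2 * k :: t.t1 :: t.t2 :: t.dt.map Prod.fst

/-- the four ends of the two holes of a doubled label -/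
def four (c : ℕ × ℕ) : List ℕ := [c.2, c.2 + 2 * c.1, c.2 + 1, c.2 + 2 * c.1 + 1]

/-- the ends of the holes, side `S` -/
def Tm.endS (t : Tm) : List ℕ := t.q :: (t.q + 2 * t.s) :: t.ds.flatMap four

/-- the ends of the holes, side `T` -/
def Tm.endT (k : ℕ) (t : Tm) : List ℕ :=
  t.w :: (t.w + 2 * (2 * k)) :: t.p1 :: (t.p1 + 2 * t.t1) :: t.p2 :: (t.p2 + 2 * t.t2) ::
    t.dt.flatMap four

/-- the set of the residues of a list as a number -/
def msk (n : ℕ) (l : List ℕ) : ℕ := l.foldr (fun x a => Nat.lor a (Nat.shiftLeft 1 (Nat.mod x n))) 0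

theorem testBit_msk (n : ℕ) (l : List ℕ) (x : ℕ) :
    (msk n l).testBit x = true ↔ ∃ y ∈ l, y % n = x := by
  induction l with
  | nil =>
    show (0 : ℕ).testBit x = true ↔ _
    simp
  | cons a l ih =>
    show (msk n l ||| 1 <<< (a % n)).testBit x = true ↔ _
    rw [Nat.testBit_or, Bool.or_eq_true, ih, Nat.one_shiftLeft, Nat.testBit_two_pow]
    simp only [List.mem_cons, exists_eq_or_imp, decide_eq_true_eq]
    exact or_comm

/-- number of digits `1` below `m` -/
def pc : ℕ → ℕ → ℕ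
  | 0, _ => 0
  | m + 1, x => Nat.add (pc m (Nat.div x 2)) (Nat.mod x 2)

theorem pc_eq (m x : ℕ) : pc m x = ((Finset.range m).filter (fun i => x.testBit i = true)).card := by
  induction m generalizing x with
  | zero => rfl
  | succ m ih =>
    show pc m (x / 2) + x % 2 = _
    rw [ih, Finset.range_add_one', Finset.filter_insert, Finset.filter_map, ]
    have h1 : ((Finset.range m).filter ((fun i => x.testBit i = true) ∘
        (⟨fun i => i + 1, fun i j => by simp⟩ : ℕ ↪ ℕ))).card =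
        ((Finset.range m).filter (fun i => (x / 2).testBit i = true)).card := by
      congr 1
      ext i
      simp only [Finset.mem_filter, Function.comp, Function.Embedding.coeFn_mk, Nat.testBit_succ]
    have h0 : x.testBit 0 = decide (x % 2 = 1) := Nat.testBit_zero x
    by_cases h : x % 2 = 1
    · rw [if_pos (by rw [h0]; exact decide_eq_true h), Finset.card_insert_of_notMem (by simp),
        Finset.card_map, h, ← h1]
    · rw [if_neg (by rw [h0]; simpa using h), Finset.card_map, ← h1]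
      omega

/-- position of a label -/
def lk : List (ℕ × ℕ) → ℕ → ℕ
  | [], _ => 0
  | c :: l, d => if c.1 = d then c.2 else lk l d

theorem lk_eq (l : List (ℕ × ℕ)) (h : (l.map Prod.fst).Nodup) : ∀ c ∈ l, lk l c.1 = c.2 := by
  induction l with
  | nil => simp
  | cons a l ih =>
    rw [List.map_cons, List.nodup_cons] at h
    intro c hc
    rcases List.mem_cons.1 hc with rfl | hc
    · exact if_pos rfl
    · have hne : a.1 ≠ c.1 := by
        intro h'
        apply h.1
        rw [h']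
        exact List.mem_map_of_mem hc
      exact (if_neg hne).trans (ih h.2 c hc)

/-- THE CHECK of a template. -/
def Tm.ok (k : ℕ) (t : Tm) : Bool :=
  Nat.beq (msk (4 * k + 1) t.endS) (msk (4 * k + 1) (t.endT k)) &&
  Nat.beq (pc (4 * k + 1) (msk (4 * k + 1) t.endS)) (2 * k) &&
  decide (t.SL ++ t.TL k).Nodup &&
  Nat.beq (2 * t.ds.length + 1) k && Nat.beq (2 * t.dt.length + 3) k &&
  Nat.beq (Nat.gcd (4 * k + 1) t.s) 1 &&
  (Nat.beq (Nat.gcd (Nat.gcd (4 * k + 1) t.t1) t.t2) 1 ||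
    Nat.beq (Nat.gcd (Nat.gcd (4 * k + 1) t.t1) t.t2) 3)

/-- Label rule for the small cases: a bijection with values `1` or `3`. -/
def Rule (k : ℕ) : Prop := ∀ D U : Finset ℕ, D ⊆ Finset.Icc 1 (2 * k) → U ⊆ Finset.Icc 1 (2 * k) →
  Disjoint D U → D.card = U.card → k ≤ 2 * D.card + 3 →
  ∃ σ : ℕ → ℕ, Set.BijOn σ D U ∧ ∀ d ∈ D, Nat.gcd (Nat.gcd (4 * k + 1) d) (σ d) = 1 ∨
    Nat.gcd (Nat.gcd (4 * k + 1) d) (σ d) = 3

variable {k : ℕ}

theorem good3 (h3 : 3 ∣ 4 * k + 1) (i0 : ℕ) (hi0 : i0 ∈ Finset.Icc 1 (2 * k))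
    (hi1 : Nat.gcd (4 * k + 1) i0 = 1) {D U : Finset ℕ} (hiD : i0 ∉ D) (hiU : i0 ∉ U)
    (hD : D ⊆ Finset.Icc 1 (2 * k)) (hU : U ⊆ Finset.Icc 1 (2 * k)) (hDU : Disjoint D U)
    {σ : ℕ → ℕ} (hσ : Set.BijOn σ D U) (hne : D.Nonempty)
    (hval : ∀ d ∈ D, Nat.gcd (Nat.gcd (4 * k + 1) d) (σ d) = 1 ∨
      Nat.gcd (Nat.gcd (4 * k + 1) d) (σ d) = 3) : GoodSide k {i0} D σ := by
  refine side_T_single {3} ?_ ?_ i0 hi0 hi1 hiD hiU hD hU hDU hσ hne 3
    (Finset.mem_singleton_self 3) ?_ ?_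
  · intro h hh
    rw [Finset.mem_singleton] at hh
    subst hh
    exact ⟨h3, by norm_num⟩
  · intro h hh g hg hg1
    rw [Finset.mem_singleton] at hh ⊢
    subst hh
    rcases (Nat.dvd_prime Nat.prime_three).1 hg with h | h
    · omega
    · exact h
  · intro h hh hne
    rw [Finset.mem_singleton] at hh
    exact absurd hh hne
  · intro d hd
    rw [Finset.mem_singleton]
    exact hval d hd

/-- The set of the ends. -/
def endSet (k : ℕ) (l : List ℕ) : Finset (ZMod (4 * k + 1)) :=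
  ((Finset.range (4 * k + 1)).filter (fun i => (msk (4 * k + 1) l).testBit i = true)).image
    (fun i : ℕ => (i : ZMod (4 * k + 1)))

theorem mem_endSet (l : List ℕ) (v : ZMod (4 * k + 1)) :
    v ∈ endSet k l ↔ ∃ y ∈ l, v = (y : ZMod (4 * k + 1)) := by
  unfold endSet
  rw [Finset.mem_image]
  constructor
  · rintro ⟨x, hx, rfl⟩
    obtain ⟨y, hy, h⟩ := (testBit_msk _ _ _).1 (Finset.mem_filter.1 hx).2
    exact ⟨y, hy, by rw [← h, ZMod.natCast_mod]⟩
  · rintro ⟨y, hy, rfl⟩
    refine ⟨y % (4 * k + 1), ?_, ZMod.natCast_mod _ _⟩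
    rw [Finset.mem_filter, Finset.mem_range]
    exact ⟨Nat.mod_lt _ (by omega), (testBit_msk _ _ _).2 ⟨y, hy, rfl⟩⟩

theorem card_endSet (l : List ℕ) : (endSet k l).card = pc (4 * k + 1) (msk (4 * k + 1) l) := by
  unfold endSet
  rw [Finset.card_image_of_injOn, pc_eq]
  intro a ha b hb hab
  have ha' := Finset.mem_range.1 (Finset.mem_filter.1 (Finset.mem_coe.1 ha)).1
  have hb' := Finset.mem_range.1 (Finset.mem_filter.1 (Finset.mem_coe.1 hb)).1
  have h := congrArg ZMod.val hab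
  simp only [] at h
  rw [ZMod.val_cast_of_lt ha', ZMod.val_cast_of_lt hb'] at h
  exact h

theorem mem_flat (l : List (ℕ × ℕ)) (h : (l.map Prod.fst).Nodup) (v : ZMod (4 * k + 1)) :
    (∃ y ∈ l.flatMap four, v = (y : ZMod (4 * k + 1))) ↔
      ∃ d ∈ (l.map Prod.fst).toFinset, v = ((lk l d : ℕ) : ZMod (4 * k + 1)) ∨
        v = ((lk l d : ℕ) : ZMod (4 * k + 1)) + 2 * (d : ZMod (4 * k + 1)) ∨
        v = ((lk l d : ℕ) : ZMod (4 * k + 1)) + 1 ∨
        v = ((lk l d : ℕ) : ZMod (4 * k + 1)) + 2 * (d : ZMod (4 * k + 1)) + 1 := by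
  have hl := lk_eq l h
  constructor
  · rintro ⟨y, hy, rfl⟩
    obtain ⟨c, hc, hy⟩ := List.mem_flatMap.1 hy
    refine ⟨c.1, List.mem_toFinset.2 (List.mem_map_of_mem hc), ?_⟩
    rw [hl c hc]
    simp only [four, List.mem_cons, List.not_mem_nil, or_false] at hy
    rcases hy with rfl | rfl | rfl | rfl
    · exact Or.inl rfl
    · right; left; push_cast; rfl
    · right; right; left; push_cast; rfl
    · right; right; right; push_cast; rfl
  · rintro ⟨d, hd, h'⟩
    obtain ⟨c, hc, rfl⟩ := List.mem_map.1 (List.mem_toFinset.1 hd)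
    rw [hl c hc] at h'
    rcases h' with rfl | rfl | rfl | rfl
    · exact ⟨c.2, List.mem_flatMap.2 ⟨c, hc, by simp [four]⟩, rfl⟩
    · exact ⟨c.2 + 2 * c.1, List.mem_flatMap.2 ⟨c, hc, by simp [four]⟩, by push_cast; rfl⟩
    · exact ⟨c.2 + 1, List.mem_flatMap.2 ⟨c, hc, by simp [four]⟩, by push_cast; rfl⟩
    · exact ⟨c.2 + 2 * c.1 + 1, List.mem_flatMap.2 ⟨c, hc, by simp [four]⟩, by push_cast; rfl⟩

/-- The content of the check. -/
theorem Tm.ok_iff {t : Tm} (ht : t.ok k = true) :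
    msk (4 * k + 1) t.endS = msk (4 * k + 1) (t.endT k) ∧
    pc (4 * k + 1) (msk (4 * k + 1) t.endS) = 2 * k ∧ (t.SL ++ t.TL k).Nodup ∧
    2 * t.ds.length + 1 = k ∧ 2 * t.dt.length + 3 = k ∧ Nat.gcd (4 * k + 1) t.s = 1 ∧
    (Nat.gcd (Nat.gcd (4 * k + 1) t.t1) t.t2 = 1 ∨ Nat.gcd (Nat.gcd (4 * k + 1) t.t1) t.t2 = 3) := by
  unfold Tm.ok at ht
  rw [Bool.and_eq_true, Bool.and_eq_true, Bool.and_eq_true, Bool.and_eq_true, Bool.and_eq_true,
    Bool.and_eq_true, Bool.or_eq_true, decide_eq_true_eq] at ht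
  obtain ⟨⟨⟨⟨⟨⟨e1, e2⟩, e3⟩, e4⟩, e5⟩, e6⟩, e7⟩ := ht
  exact ⟨Nat.eq_of_beq_eq_true e1, Nat.eq_of_beq_eq_true e2, e3, Nat.eq_of_beq_eq_true e4,
    Nat.eq_of_beq_eq_true e5, Nat.eq_of_beq_eq_true e6,
    e7.imp Nat.eq_of_beq_eq_true Nat.eq_of_beq_eq_true⟩

theorem endSet_congr {l l' : List ℕ} (h : msk (4 * k + 1) l = msk (4 * k + 1) l') :
    endSet k l = endSet k l' := by
  unfold endSet
  rw [h]

/-- the ends of the side `S` -/
theorem sideM_S (t : Tm) (n1 : (t.ds.map Prod.fst).Nodup) (σ : ℕ → ℕ) (v : ZMod (4 * k + 1)) :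
    v ∈ endSet k t.endS ↔ sideM k {t.s} (t.ds.map Prod.fst).toFinset ∅ σ
      (fun _ => (t.q : ZMod (4 * k + 1))) (fun d => ((lk t.ds d : ℕ) : ZMod (4 * k + 1)))
      (fun _ => 0) v := by
  rw [mem_endSet]
  unfold sideM Tm.endS
  have hp := mem_flat t.ds n1 v
  constructor
  · rintro ⟨y, hy, rfl⟩
    rcases List.mem_cons.1 hy with rfl | hy
    · exact Or.inl ⟨t.s, Finset.mem_singleton_self _, Or.inl rfl⟩
    rcases List.mem_cons.1 hy with rfl | hy
    · refine Or.inl ⟨t.s, Finset.mem_singleton_self _, Or.inr ?_⟩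
      push_cast
      rfl
    · exact Or.inr (Or.inl (hp.1 ⟨y, hy, rfl⟩))
  · rintro (⟨i, hi, h⟩ | h | ⟨i, hi, -⟩)
    · rw [Finset.mem_singleton] at hi
      subst hi
      rcases h with h | h
      · exact ⟨_, List.mem_cons_self, h⟩
      · refine ⟨_, List.mem_cons_of_mem _ List.mem_cons_self, ?_⟩
        push_cast
        exact h
    · obtain ⟨y, hy, h'⟩ := hp.2 h
      exact ⟨y, List.mem_cons_of_mem _ (List.mem_cons_of_mem _ hy), h'⟩
    · exact absurd hi (Finset.notMem_empty _)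

/-- the ends of the side `T` -/
theorem sideM_T (t : Tm) (n1 : (t.dt.map Prod.fst).Nodup)
    (τ : ℕ → ℕ) (hτ : τ t.t1 = t.t2) (F : ℕ → ZMod (4 * k + 1))
    (f1 : F t.t1 = (t.p1 : ZMod (4 * k + 1)))
    (f2 : ∀ d ∈ (t.dt.map Prod.fst).toFinset, F d = ((lk t.dt d : ℕ) : ZMod (4 * k + 1)))
    (v : ZMod (4 * k + 1)) :
    v ∈ endSet k (t.endT k) ↔ sideM k {2 * k} (t.dt.map Prod.fst).toFinset {t.t1} τ
      (fun _ => (t.w : ZMod (4 * k + 1))) F (fun _ => (t.p2 : ZMod (4 * k + 1))) v := by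
  rw [mem_endSet]
  unfold sideM Tm.endT
  have hp := mem_flat t.dt n1 v
  constructor
  · rintro ⟨y, hy, rfl⟩
    rcases List.mem_cons.1 hy with rfl | hy
    · exact Or.inl ⟨2 * k, Finset.mem_singleton_self _, Or.inl rfl⟩
    rcases List.mem_cons.1 hy with rfl | hy
    · refine Or.inl ⟨2 * k, Finset.mem_singleton_self _, Or.inr ?_⟩
      push_cast
      rfl
    rcases List.mem_cons.1 hy with rfl | hy
    · exact Or.inr (Or.inr ⟨t.t1, Finset.mem_singleton_self _, Or.inl f1.symm⟩)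
    rcases List.mem_cons.1 hy with rfl | hy
    · refine Or.inr (Or.inr ⟨t.t1, Finset.mem_singleton_self _, Or.inr (Or.inl ?_)⟩)
      rw [f1]
      push_cast
      rfl
    rcases List.mem_cons.1 hy with rfl | hy
    · exact Or.inr (Or.inr ⟨t.t1, Finset.mem_singleton_self _, Or.inr (Or.inr (Or.inl rfl))⟩)
    rcases List.mem_cons.1 hy with rfl | hy
    · refine Or.inr (Or.inr ⟨t.t1, Finset.mem_singleton_self _, Or.inr (Or.inr (Or.inr ?_))⟩)
      rw [hτ]
      push_cast
      rfl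
    · obtain ⟨d, hd, h⟩ := hp.1 ⟨y, hy, rfl⟩
      refine Or.inr (Or.inl ⟨d, hd, ?_⟩)
      rw [f2 d hd]
      exact h
  · rintro (⟨i, hi, h⟩ | ⟨d, hd, h⟩ | ⟨i, hi, h⟩)
    · rw [Finset.mem_singleton] at hi
      subst hi
      rcases h with h | h
      · exact ⟨_, List.mem_cons_self, h⟩
      · refine ⟨_, List.mem_cons_of_mem _ List.mem_cons_self, ?_⟩
        push_cast at h ⊢
        exact h
    · rw [f2 d hd] at h
      obtain ⟨y, hy, h'⟩ := hp.2 ⟨d, hd, h⟩
      exact ⟨y, List.mem_cons_of_mem _ (List.mem_cons_of_mem _ (List.mem_cons_of_mem _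
        (List.mem_cons_of_mem _ (List.mem_cons_of_mem _ (List.mem_cons_of_mem _ hy))))), h'⟩
    · rw [Finset.mem_singleton] at hi
      subst hi
      rw [f1, hτ] at h
      rcases h with h | h | h | h
      · exact ⟨_, List.mem_cons_of_mem _ (List.mem_cons_of_mem _ List.mem_cons_self), h⟩
      · refine ⟨_, List.mem_cons_of_mem _ (List.mem_cons_of_mem _ (List.mem_cons_of_mem _
          List.mem_cons_self)), ?_⟩
        push_cast
        exact h
      · exact ⟨_, List.mem_cons_of_mem _ (List.mem_cons_of_mem _ (List.mem_cons_of_mem _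
          (List.mem_cons_of_mem _ List.mem_cons_self))), h⟩
      · refine ⟨_, List.mem_cons_of_mem _ (List.mem_cons_of_mem _ (List.mem_cons_of_mem _
          (List.mem_cons_of_mem _ (List.mem_cons_of_mem _ List.mem_cons_self)))), ?_⟩
        push_cast
        exact h

/-- A template which passes the check gives the two layers for all words which have the fixed
labels on the right sides. -/
theorem Tm.sound (h3 : 3 ∣ 4 * k + 1) (hk5 : 5 ≤ k) (hR : Rule k) (t : Tm) (ht : t.ok k = true)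
    (S T : Finset ℕ) (hS : S ⊆ Finset.Icc 1 (2 * k)) (hT : T ⊆ Finset.Icc 1 (2 * k))
    (hST : Disjoint S T) (hcS : S.card = k) (hcT : T.card = k)
    (h1 : ∀ j ∈ t.SL, j ∈ S) (h2 : ∀ j ∈ t.TL k, j ∈ T) :
    ∃ A : Finset (ZMod (4 * k + 1)), A.card = 2 * k ∧ EG (LSet k S) A ∧ EG (LSet k T) A := by
  classical
  obtain ⟨e1, e2, e3, e4, e5, e6, e7⟩ := Tm.ok_iff ht
  have n1 := (List.nodup_append.1 e3).1
  have n2 := (List.nodup_append.1 e3).2.1
  unfold Tm.SL at n1
  unfold Tm.TL at n2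
  rw [List.nodup_cons] at n1 n2
  obtain ⟨n1a, n1b⟩ := n1
  obtain ⟨n2a, n2b⟩ := n2
  rw [List.nodup_cons] at n2b
  obtain ⟨n2b, n2c⟩ := n2b
  rw [List.nodup_cons] at n2c
  obtain ⟨n2c, n2d⟩ := n2c
  obtain ⟨DS, hDS⟩ : ∃ DS, DS = (t.ds.map Prod.fst).toFinset := ⟨_, rfl⟩
  obtain ⟨DT, hDT⟩ : ∃ DT, DT = (t.dt.map Prod.fst).toFinset := ⟨_, rfl⟩
  have cDS : DS.card = t.ds.length := by
    rw [hDS, List.toFinset_card_of_nodup n1b, List.length_map]
  have cDT : DT.card = t.dt.length := by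
    rw [hDT, List.toFinset_card_of_nodup n2d, List.length_map]
  have sDS : DS ⊆ S := by
    intro d hd
    rw [hDS, List.mem_toFinset] at hd
    exact h1 d (List.mem_cons_of_mem _ hd)
  have hs : t.s ∈ S := h1 _ List.mem_cons_self
  have sDT : DT ⊆ T := by
    intro d hd
    rw [hDT, List.mem_toFinset] at hd
    exact h2 d (List.mem_cons_of_mem _ (List.mem_cons_of_mem _ (List.mem_cons_of_mem _ hd)))
  have h2k : 2 * k ∈ T := h2 _ List.mem_cons_self
  have ht1 : t.t1 ∈ T := h2 _ (List.mem_cons_of_mem _ List.mem_cons_self)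
  have ht2 : t.t2 ∈ T := h2 _ (List.mem_cons_of_mem _ (List.mem_cons_of_mem _ List.mem_cons_self))
  have nsD : t.s ∉ DS := by rw [hDS, List.mem_toFinset]; exact n1a
  simp only [List.mem_cons, not_or] at n2a n2b
  obtain ⟨a1, a2, a3⟩ := n2a
  obtain ⟨b1, b2⟩ := n2b
  have a3' : 2 * k ∉ DT := by rw [hDT, List.mem_toFinset]; exact a3
  have b2' : t.t1 ∉ DT := by rw [hDT, List.mem_toFinset]; exact b2
  have c2' : t.t2 ∉ DT := by rw [hDT, List.mem_toFinset]; exact n2c
  -- the unused labels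
  obtain ⟨US, hUS⟩ : ∃ US, US = S \ insert t.s DS := ⟨_, rfl⟩
  obtain ⟨UT, hUT⟩ : ∃ UT, UT = T \ (insert (2 * k) (insert t.t1 (insert t.t2 DT))) := ⟨_, rfl⟩
  have cUS : DS.card = US.card := by
    rw [hUS, Finset.card_sdiff_of_subset (Finset.insert_subset hs sDS),
      Finset.card_insert_of_notMem nsD, hcS, cDS]
    omega
  have cUT : DT.card = UT.card := by
    rw [hUT, Finset.card_sdiff_of_subset (Finset.insert_subset h2k (Finset.insert_subset ht1
      (Finset.insert_subset ht2 sDT))), Finset.card_insert_of_notMem (by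
        simp only [Finset.mem_insert, not_or]; exact ⟨a1, a2, a3'⟩),
      Finset.card_insert_of_notMem (by
        simp only [Finset.mem_insert, not_or]; exact ⟨b1, b2'⟩),
      Finset.card_insert_of_notMem c2', hcT, cDT]
    omega
  have mUS : ∀ x, x ∈ US ↔ x ∈ S ∧ x ≠ t.s ∧ x ∉ DS := by
    intro x
    rw [hUS, Finset.mem_sdiff, Finset.mem_insert, not_or]
  have mUT : ∀ x, x ∈ UT ↔ x ∈ T ∧ x ≠ 2 * k ∧ x ≠ t.t1 ∧ x ≠ t.t2 ∧ x ∉ DT := by
    intro x
    rw [hUT, Finset.mem_sdiff]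
    simp only [Finset.mem_insert, not_or]
  have dS : Disjoint DS US := by
    rw [Finset.disjoint_left]
    intro x hx hx'
    exact ((mUS x).1 hx').2.2 hx
  have dT : Disjoint DT UT := by
    rw [Finset.disjoint_left]
    intro x hx hx'
    exact ((mUT x).1 hx').2.2.2.2 hx
  have sUS : US ⊆ S := fun x hx => ((mUS x).1 hx).1
  have sUT : UT ⊆ T := fun x hx => ((mUT x).1 hx).1
  obtain ⟨σ, hσ, vS⟩ := hR DS US (sDS.trans hS) (sUS.trans hS) dS cUS (by omega)
  obtain ⟨τ, hτ, vT⟩ := hR DT UT (sDT.trans hT) (sUT.trans hT) dT cUT (by omega)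
  have gS : GoodSide k {t.s} DS σ := good3 h3 t.s (hS hs) e6 nsD
    (fun h => ((mUS _).1 h).2.1 rfl) (sDS.trans hS) (sUS.trans hS) dS hσ
    (Finset.card_pos.1 (by omega)) vS
  -- the pair `t1, t2`
  obtain ⟨τ', hτ'⟩ : ∃ τ', τ' = Function.update τ t.t1 t.t2 := ⟨_, rfl⟩
  have u1 : τ' t.t1 = t.t2 := by rw [hτ', Function.update_self]
  have u2 : ∀ d ∈ DT, τ' d = τ d := by
    intro d hd
    rw [hτ', Function.update_of_ne]
    rintro rfl
    exact b2' hd
  have hbij : Set.BijOn τ' (DT ∪ {t.t1} : Finset ℕ) (UT ∪ {t.t2} : Finset ℕ) := by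
    have ht2U : t.t2 ∉ UT := fun h => ((mUT _).1 h).2.2.2.1 rfl
    refine ⟨?_, ?_, ?_⟩
    · intro d hd
      rcases Finset.mem_union.1 (Finset.mem_coe.1 hd) with hd | hd
      · rw [u2 d hd]
        exact Finset.mem_coe.2 (Finset.mem_union_left _ (hτ.mapsTo hd))
      · rw [Finset.mem_singleton.1 hd, u1]
        exact Finset.mem_coe.2 (Finset.mem_union_right _ (Finset.mem_singleton_self _))
    · intro d hd d' hd' hdd
      rcases Finset.mem_union.1 (Finset.mem_coe.1 hd) with hd | hd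
      · rcases Finset.mem_union.1 (Finset.mem_coe.1 hd') with hd' | hd'
        · rw [u2 d hd, u2 d' hd'] at hdd
          exact hτ.injOn hd hd' hdd
        · exfalso
          rw [u2 d hd, Finset.mem_singleton.1 hd', u1] at hdd
          exact ht2U (hdd ▸ hτ.mapsTo hd)
      · rcases Finset.mem_union.1 (Finset.mem_coe.1 hd') with hd' | hd'
        · exfalso
          rw [u2 d' hd', Finset.mem_singleton.1 hd, u1] at hdd
          exact ht2U (hdd ▸ hτ.mapsTo hd')
        · rw [Finset.mem_singleton.1 hd, Finset.mem_singleton.1 hd']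
    · intro y hy
      rcases Finset.mem_union.1 (Finset.mem_coe.1 hy) with hy | hy
      · obtain ⟨d, hd, rfl⟩ := hτ.surjOn hy
        exact ⟨d, Finset.mem_coe.2 (Finset.mem_union_left _ hd), u2 d hd⟩
      · refine ⟨t.t1, Finset.mem_coe.2 (Finset.mem_union_right _ (Finset.mem_singleton_self _)), ?_⟩
        rw [u1, Finset.mem_singleton.1 hy]
  have gT : GoodSide k {2 * k} (DT ∪ {t.t1}) τ' := by
    refine good3 h3 (2 * k) (hT h2k) ?_ (U := UT ∪ {t.t2}) ?_ ?_ ?_ ?_ ?_ hbij ?_ ?_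
    · have : Nat.Coprime (4 * k + 1) (2 * k) := by
        rw [show 4 * k + 1 = 1 + 2 * (2 * k) by ring]
        exact (Nat.coprime_add_mul_right_left 1 (2 * k) 2).2 (Nat.coprime_one_left _)
      exact this
    · rw [Finset.mem_union, Finset.mem_singleton, not_or]
      exact ⟨a3', a1⟩
    · rw [Finset.mem_union, Finset.mem_singleton, not_or]
      exact ⟨fun h => ((mUT _).1 h).2.1 rfl, a2⟩
    · exact Finset.union_subset (sDT.trans hT) (Finset.singleton_subset_iff.2 (hT ht1))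
    · exact Finset.union_subset (sUT.trans hT) (Finset.singleton_subset_iff.2 (hT ht2))
    · rw [Finset.disjoint_union_left, Finset.disjoint_union_right, Finset.disjoint_union_right,
        Finset.disjoint_singleton_right, Finset.disjoint_singleton_left,
        Finset.disjoint_singleton]
      exact ⟨⟨dT, c2'⟩, fun h => ((mUT _).1 h).2.2.1 rfl, b1⟩
    · exact ⟨t.t1, Finset.mem_union_right _ (Finset.mem_singleton_self _)⟩
    · intro d hd
      rcases Finset.mem_union.1 hd with hd | hd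
      · rw [u2 d hd]
        exact vT d hd
      · rw [Finset.mem_singleton.1 hd, u1]
        exact e7
  -- the layers
  refine ⟨endSet k t.endS, by rw [card_endSet, e2], ?_, ?_⟩
  · have key : EG (LSet k ({t.s} ∪ (DS ∪ ∅) ∪ US)) (endSet k t.endS) := by
      refine sideEG (σ := σ) ?_ (Finset.disjoint_empty_right _) (by rw [Finset.union_empty]; exact hσ)
        (by rw [Finset.union_empty]; exact gS) (fun _ => (t.q : ZMod (4 * k + 1)))
        (fun d => ((lk t.ds d : ℕ) : ZMod (4 * k + 1))) (fun _ => 0) _ ?_ ?_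
      · rw [Finset.union_empty]
        exact Finset.union_subset (Finset.union_subset (Finset.singleton_subset_iff.2 (hS hs))
          (sDS.trans hS)) (sUS.trans hS)
      · rw [card_endSet, e2, Finset.card_singleton, Finset.card_empty, cDS]
        omega
      · intro v
        rw [hDS]
        exact sideM_S t n1b σ v
    refine key.congr ?_ (fun _ => Iff.rfl)
    rintro δ ⟨j, hj, h⟩
    refine ⟨j, ?_, h⟩
    rw [Finset.union_empty, Finset.mem_union, Finset.mem_union, Finset.mem_singleton, mUS]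
    by_cases g1 : j = t.s
    · exact Or.inl (Or.inl g1)
    by_cases g2 : j ∈ DS
    · exact Or.inl (Or.inr g2)
    · exact Or.inr ⟨hj, g1, g2⟩
  · obtain ⟨F, f1, f2⟩ : ∃ F : ℕ → ZMod (4 * k + 1), F t.t1 = (t.p1 : ZMod (4 * k + 1)) ∧
        ∀ d ∈ (t.dt.map Prod.fst).toFinset, F d = ((lk t.dt d : ℕ) : ZMod (4 * k + 1)) := by
      refine ⟨fun d => if d = t.t1 then (t.p1 : ZMod (4 * k + 1)) else
          ((lk t.dt d : ℕ) : ZMod (4 * k + 1)), if_pos rfl, fun d hd => if_neg ?_⟩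
      rintro rfl
      exact b2 (List.mem_toFinset.1 hd)
    have key : EG (LSet k ({2 * k} ∪ (DT ∪ {t.t1}) ∪ (UT ∪ {t.t2}))) (endSet k t.endS) := by
      refine sideEG (σ := τ') ?_ (Finset.disjoint_singleton_right.2 b2') hbij gT
        (fun _ => (t.w : ZMod (4 * k + 1))) F (fun _ => (t.p2 : ZMod (4 * k + 1))) _ ?_ ?_
      · exact Finset.union_subset (Finset.union_subset (Finset.singleton_subset_iff.2 (hT h2k))
          (Finset.union_subset (sDT.trans hT) (Finset.singleton_subset_iff.2 (hT ht1))))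
          (Finset.union_subset (sUT.trans hT) (Finset.singleton_subset_iff.2 (hT ht2)))
      · rw [card_endSet, e2, Finset.card_singleton, Finset.card_singleton, cDT]
        omega
      · intro v
        rw [endSet_congr e1, hDT]
        exact sideM_T t n2d τ' u1 F f1 f2 v
    refine key.congr ?_ (fun _ => Iff.rfl)
    rintro δ ⟨j, hj, h⟩
    refine ⟨j, ?_, h⟩
    rw [Finset.mem_union, Finset.mem_union, Finset.mem_union, Finset.mem_union,
      Finset.mem_singleton, Finset.mem_singleton, Finset.mem_singleton, mUT]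
    by_cases g1 : j = 2 * k
    · exact Or.inl (Or.inl g1)
    by_cases g2 : j ∈ DT
    · exact Or.inl (Or.inr (Or.inl g2))
    by_cases g3 : j = t.t1
    · exact Or.inl (Or.inr (Or.inr g3))
    by_cases g4 : j = t.t2
    · exact Or.inr (Or.inr g4)
    · exact Or.inr (Or.inl ⟨hj, g1, g3, g4, g2⟩)

end Pool.Agent.P45.Sm
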