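import Pool.Agent.Lib.P45dba8.Labels2
import Pool.Agent.Lib.P45dba8.SmallTm

/-! # MP_45dba8: the label rule for `n = 21` and `n = 45` -/

set_option autoImplicit false

namespace Pool.Agent.P45.Sm

theorem rule5 : Rule 5 := by
  classical
  intro D U hD hU hDU hc _
  obtain ⟨σ, hσ, -, -⟩ := exists_bij_ext D U hc (fun _ => True) ∅ (Finset.empty_subset _) id
    (fun d hd => absurd hd (Finset.notMem_empty d)) (by simp) (by simp)
  refine ⟨σ, hσ, fun d hd => ?_⟩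
  have key : ∀ d ∈ Finset.Icc 1 10, ∀ u ∈ Finset.Icc 1 10, d ≠ u →
      Nat.gcd (Nat.gcd 21 d) u = 1 ∨ Nat.gcd (Nat.gcd 21 d) u = 3 := by decide
  refine key d (hD hd) (σ d) (hU (hσ.mapsTo hd)) ?_
  intro h
  exact Finset.disjoint_left.1 hDU hd (h ▸ hσ.mapsTo hd)

theorem vals45 : ∀ d ∈ Finset.Icc 1 22, ∀ u ∈ Finset.Icc 1 22, d ≠ u → (¬ 5 ∣ d ∨ ¬ 5 ∣ u) →
    ¬ (d = 9 ∧ u = 18) → ¬ (d = 18 ∧ u = 9) →
    Nat.gcd (Nat.gcd 45 d) u = 1 ∨ Nat.gcd (Nat.gcd 45 d) u = 3 := by decide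

theorem count5 (D U : Finset ℕ) (hD : D ⊆ Finset.Icc 1 22) (hU : U ⊆ Finset.Icc 1 22)
    (hDU : Disjoint D U) : (D.filter (fun j => 5 ∣ j)).card + (U.filter (fun j => 5 ∣ j)).card ≤ 4 := by
  classical
  have h1 : ((Finset.Icc 1 22).filter (fun j => 5 ∣ j)).card = 4 := by decide
  rw [← h1, ← Finset.card_union_of_disjoint]
  · refine Finset.card_le_card ?_
    intro x hx
    rcases Finset.mem_union.1 hx with hx | hx
    · exact Finset.mem_filter.2 ⟨hD (Finset.mem_filter.1 hx).1, (Finset.mem_filter.1 hx).2⟩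
    · exact Finset.mem_filter.2 ⟨hU (Finset.mem_filter.1 hx).1, (Finset.mem_filter.1 hx).2⟩
  · rw [Finset.disjoint_left]
    intro x hx hx'
    exact Finset.disjoint_left.1 hDU (Finset.mem_filter.1 hx).1 (Finset.mem_filter.1 hx').1

theorem rule11_aux (D U : Finset ℕ) (hD : D ⊆ Finset.Icc 1 22) (hU : U ⊆ Finset.Icc 1 22)
    (hDU : Disjoint D U) (hc : D.card = U.card) (h4 : 4 ≤ D.card) (a b : ℕ) (ha : ¬ 5 ∣ a)
    (hb : ¬ 5 ∣ b) (haD : a ∈ D) :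
    ∃ σ : ℕ → ℕ, Set.BijOn σ D U ∧ σ a ≠ b ∧ ∀ d ∈ D, ¬ 5 ∣ d ∨ ¬ 5 ∣ σ d := by
  classical
  have h5 := count5 D U hD hU hDU
  obtain ⟨u1, hu1, hub, hcase⟩ : ∃ u1 ∈ U, u1 ≠ b ∧ ((5 ∣ u1) ∨ ∀ u ∈ U, ¬ 5 ∣ u) := by
    by_cases h : ∃ u ∈ U, 5 ∣ u
    · obtain ⟨u, h1, h3⟩ := h
      refine ⟨u, h1, ?_, Or.inl h3⟩
      rintro rfl
      exact hb h3
    · obtain ⟨u, hu⟩ : (U.erase b).Nonempty := by
        rw [← Finset.card_pos]
        have := Finset.pred_card_le_card_erase (s := U) (a := b)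
        omega
      refine ⟨u, Finset.mem_of_mem_erase hu, Finset.ne_of_mem_erase hu, Or.inr ?_⟩
      intro u' hu' h5
      exact h ⟨u', hu', h5⟩
  have c1 : (D \ {a}).card = D.card - 1 := by
    rw [Finset.card_sdiff_of_subset (Finset.singleton_subset_iff.2 haD), Finset.card_singleton]
  have c2 : ((D \ {a}).filter (fun j => ¬ ¬ 5 ∣ j)).card ≤ (D.filter (fun j => 5 ∣ j)).card := by
    refine Finset.card_le_card ?_
    intro x hx
    obtain ⟨g1, g2⟩ := Finset.mem_filter.1 hx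
    exact Finset.mem_filter.2 ⟨(Finset.mem_sdiff.1 g1).1, not_not.1 g2⟩
  have c3 : (D.filter (fun j => 5 ∣ j)).card ≤ D.card - 1 := by
    rw [← c1]
    refine Finset.card_le_card ?_
    intro x hx
    obtain ⟨g1, g2⟩ := Finset.mem_filter.1 hx
    refine Finset.mem_sdiff.2 ⟨g1, fun h => ?_⟩
    rw [Finset.mem_singleton] at h
    exact ha (h ▸ g2)
  have c4 : ((U \ {u1}).filter (fun j => ¬ ¬ 5 ∣ j)).card + (if 5 ∣ u1 then 1 else 0) ≤
      (U.filter (fun j => 5 ∣ j)).card := by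
    split_ifs with h
    · have h6 : ((U \ {u1}).filter (fun j => ¬ ¬ 5 ∣ j)) ⊆ (U.filter (fun j => 5 ∣ j)).erase u1 := by
        intro x hx
        obtain ⟨g1, g2⟩ := Finset.mem_filter.1 hx
        obtain ⟨g3, g4⟩ := Finset.mem_sdiff.1 g1
        rw [Finset.mem_singleton] at g4
        exact Finset.mem_erase.2 ⟨g4, Finset.mem_filter.2 ⟨g3, not_not.1 g2⟩⟩
      have h7 := Finset.card_le_card h6
      have h9 : ((U.filter (fun j => 5 ∣ j)).erase u1).card =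
          (U.filter (fun j => 5 ∣ j)).card - 1 :=
        Finset.card_erase_of_mem (Finset.mem_filter.2 ⟨hu1, h⟩)
      have h8 : 0 < (U.filter (fun j => 5 ∣ j)).card :=
        Finset.card_pos.2 ⟨u1, Finset.mem_filter.2 ⟨hu1, h⟩⟩
      omega
    · rw [add_zero]
      refine Finset.card_le_card ?_
      intro x hx
      obtain ⟨g1, g2⟩ := Finset.mem_filter.1 hx
      exact Finset.mem_filter.2 ⟨(Finset.mem_sdiff.1 g1).1, not_not.1 g2⟩
  have c5 : (∀ u ∈ U, ¬ 5 ∣ u) → (U.filter (fun j => 5 ∣ j)).card = 0 := by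
    intro h
    rw [Finset.card_eq_zero, Finset.filter_eq_empty_iff]
    exact h
  obtain ⟨σ, hσ, h1, h2⟩ := exists_bij_ext D U hc (fun j => ¬ 5 ∣ j) {a}
    (Finset.singleton_subset_iff.2 haD) (fun _ => u1) (fun _ _ => hu1)
    (by rw [Finset.coe_singleton]; exact Set.injOn_singleton _ _) (by
      have hsum : ((D \ {a}).filter (fun j => ¬ ¬ 5 ∣ j)).card +
          ((U \ {u1}).filter (fun j => ¬ ¬ 5 ∣ j)).card ≤ D.card - 1 := by
        rcases hcase with h | h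
        · rw [if_pos h] at c4
          omega
        · have := c5 h
          split_ifs at c4 <;> omega
      rw [Finset.image_singleton, c1]
      exact hsum)
  refine ⟨σ, hσ, ?_, ?_⟩
  · rw [h1 a (Finset.mem_singleton_self a)]
    exact hub
  · intro d hd
    by_cases hda : d = a
    · rw [hda]
      exact Or.inl ha
    · exact h2 d hd (by rw [Finset.mem_singleton]; exact hda)

theorem rule11 : Rule 11 := by
  classical
  intro D U hD hU hDU hc h4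
  have hD' : D ⊆ Finset.Icc 1 22 := hD
  have hU' : U ⊆ Finset.Icc 1 22 := hU
  have h4' : 4 ≤ D.card := by omega
  have fin : ∀ σ : ℕ → ℕ, Set.BijOn σ D U → (∀ d ∈ D, ¬ 5 ∣ d ∨ ¬ 5 ∣ σ d) →
      (∀ d ∈ D, ¬ (d = 9 ∧ σ d = 18) ∧ ¬ (d = 18 ∧ σ d = 9)) →
      ∀ d ∈ D, Nat.gcd (Nat.gcd (4 * 11 + 1) d) (σ d) = 1 ∨
        Nat.gcd (Nat.gcd (4 * 11 + 1) d) (σ d) = 3 := by
    intro σ hσ h1 h2 d hd
    refine vals45 d (hD' hd) (σ d) (hU' (hσ.mapsTo hd)) ?_ (h1 d hd) (h2 d hd).1 (h2 d hd).2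
    intro h
    exact Finset.disjoint_left.1 hDU hd (h ▸ hσ.mapsTo hd)
  by_cases ha : 9 ∈ D ∧ 18 ∈ U
  · obtain ⟨σ, hσ, g1, g2⟩ := rule11_aux D U hD' hU' hDU hc h4' 9 18 (by norm_num) (by norm_num) ha.1
    refine ⟨σ, hσ, fin σ hσ g2 fun d hd => ⟨?_, ?_⟩⟩
    · rintro ⟨rfl, h⟩
      exact g1 h
    · rintro ⟨rfl, h⟩
      exact Finset.disjoint_left.1 hDU hd ha.2
  by_cases hb : 18 ∈ D ∧ 9 ∈ U
  · obtain ⟨σ, hσ, g1, g2⟩ := rule11_aux D U hD' hU' hDU hc h4' 18 9 (by norm_num) (by norm_num) hb.1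
    refine ⟨σ, hσ, fin σ hσ g2 fun d hd => ⟨?_, ?_⟩⟩
    · rintro ⟨rfl, h⟩
      exact Finset.disjoint_left.1 hDU hd hb.2
    · rintro ⟨rfl, h⟩
      exact g1 h
  · have h5 := count5 D U hD' hU' hDU
    obtain ⟨σ, hσ, -, g2⟩ := exists_bij_ext D U hc (fun j => ¬ 5 ∣ j) ∅ (Finset.empty_subset _) id
      (fun d hd => absurd hd (Finset.notMem_empty d)) (by simp) (by
        simp only [Finset.sdiff_empty, Finset.image_empty, not_not]
        omega)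
    refine ⟨σ, hσ, fin σ hσ (fun d hd => g2 d hd (Finset.notMem_empty d)) fun d hd => ⟨?_, ?_⟩⟩
    · rintro ⟨rfl, h⟩
      exact ha ⟨hd, h ▸ hσ.mapsTo hd⟩
    · rintro ⟨rfl, h⟩
      exact hb ⟨hd, h ▸ hσ.mapsTo hd⟩

end Pool.Agent.P45.Sm
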