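import Pool.Agent.Lib.P45dba8.Small45Cov
import Pool.Agent.Lib.P45dba8.SmallRules

/-! # MP_45dba8: `n = 45` -/

set_option autoImplicit false

namespace Pool.Agent.P45.Sm

theorem ok45 : ∀ t ∈ tms45, t.ok 11 = true := by decide +kernel

theorem range45 : ∀ t ∈ tms45, ∀ j ∈ t.SL ++ t.TL 11, 1 ≤ j ∧ j ≤ 2 * 11 := by decide +kernel

/-- The layers for `n = 45`. -/
theorem layers45 (S : Finset ℕ) (hS : S ⊆ Finset.Icc 1 (2 * 11)) (hc : S.card = 11) :
    ∃ (v v' : ZMod (4 * 11 + 1)) (A : Finset (ZMod (4 * 11 + 1))), v * v' = 1 ∧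
      A.card = 2 * 11 ∧ EG (LSet 11 (LW 11 S v)) A ∧
      EG (LSet 11 (LW 11 (Finset.Icc 1 (2 * 11) \ S) v)) A :=
  small_layers (by norm_num) (by norm_num) rule11 [1, 2, 4, 7, 8, 11, 13, 14, 16, 17, 19, 22]
    (by decide) tms45 ok45 cov45 range45 S hS hc

end Pool.Agent.P45.Sm
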