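import Pool.Agent.Lib.P45dba8.Sm21
import Pool.Agent.Lib.P45dba8.Small45
import Pool.Agent.Lib.P45dba8.SmallEven

/-! # MP_45dba8: `n = 21` and `n = 45` in the form of `main_of` -/

set_option autoImplicit false

namespace Pool.Agent.P45.Sm

/-- `n = 21`. -/
theorem lay5 : LayOK 5 := fun S hS hc => layers21 S hS hc

/-- `n = 45`. -/
theorem lay11 : LayOK 11 := fun S hS hc => layers45 S hS hc

end Pool.Agent.P45.Sm
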