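import Pool.Agent.Lib.P45dba8.LoneHam
import Pool.Agent.Lib.P45dba8.OddFinal
import Pool.Agent.Lib.P45dba8.SmallLay

/-! # MP_45dba8: the frozen statement from the two non-Hamiltonian cases of `LoneLift` -/

set_option autoImplicit false

namespace Pool.Agent.P45

/-- `LoneNonHam` for one `h`. -/
def LoneNonHamAt (h : ℕ) : Prop := ∀ (m : ℕ), Odd m → 3 ≤ m → ∀ t : ZMod m, IsUnit t →
  ∀ x y : ZMod (m * h), red m h x ≠ 0 → red m h y ≠ 0 → cop x y → x ≠ y → x ≠ -y →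
  ∀ (p q p' q' : ZMod (m * h)) (π π' : ZMod h ≃ ZMod h) (W W' : ZMod h → ZMod (m * h))
    (C C' : ZMod m) (phi phi' : ZMod h × ZMod m ≃ ZMod (m * h)),
    Chart m h π W p q C phi → Chart m h π' W' p' q' C' phi' → ¬ IsUnit C → ¬ IsUnit C' →
    (∀ v v', (v' = v + x ∨ v' = v + y) →
      (StepW π W v v' ∨ StepW π W v' v) ∨ (StepW π' W' v v' ∨ StepW π' W' v' v)) →
    ∀ w, TS Set.univ (fun v v' => DE (fun δ => δ = psi m h t ∨ δ = x ∨ δ = y) v v')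
      (hol3 (psi m h t) w p q p' q')

/-- The two cases. -/
theorem loneNonHam_of (H3 : LoneNonHamAt 3) (H5 : ∀ h, Odd h → 5 ≤ h → LoneNonHamAt h) :
    LoneNonHam := by
  intro m h hm hh m3 h3 t ht
  rcases Nat.lt_or_ge h 5 with h5 | h5
  · have : h = 3 := by
      obtain ⟨j, hj⟩ := hh
      omega
    subst this
    exact H3 m hm m3 t ht
  · exact H5 h hh h5 m hm m3 t ht

/-- The frozen statement from the two cases. -/
theorem main_of_nonHam (H3 : LoneNonHamAt 3) (H5 : ∀ h, Odd h → 5 ≤ h → LoneNonHamAt h) :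
    ∀ k : ℕ, 2 ≤ k → ∀ S : Finset ℕ, S ⊆ Finset.Icc 1 (2 * k) → S.card = k →
    ∀ G : SimpleGraph (ZMod (4 * k + 1) × Fin 2),
      (∀ p q : ZMod (4 * k + 1) × Fin 2, G.Adj p q ↔
        ((p.2 = 0 ∧ q.2 = 0 ∧ min (p.1 - q.1).val (q.1 - p.1).val ∈ S) ∨
         (p.2 = 1 ∧ q.2 = 1 ∧
            min (p.1 - q.1).val (q.1 - p.1).val ∈ Finset.Icc 1 (2 * k) \ S) ∨
         (p.1 = q.1 ∧ p.2 ≠ q.2))) →
      ∃ c : Sym2 (ZMod (4 * k + 1) × Fin 2) → Fin (2 * k + 1),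
        ∀ e ∈ G.edgeSet, ∀ f ∈ G.edgeSet, e ≠ f →
          (∃ v, v ∈ e ∧ v ∈ f) → c e ≠ c f :=
  main_of_lone (loneLift_of (loneLift1_of (loneNonHam_of H3 H5))) Sm.lay5 Sm.lay11

end Pool.Agent.P45
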