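import Mathlib

/-! # GLUE: one carrier `F` joins the colour systems of the classes `K_0, ..., K_{g-1}`

`GD` is the data, `GD.Ok` the hypotheses, `GD.nrm`, `GD.rho`, `GD.sgm`, `GD.spc` are the new
matchings. -/

set_option autoImplicit false

namespace Pool.Agent.P45

/-- Data of the gluing. `act k i`: thread `k` is active at level `i` (on the pair `K_i, K_{i+1}`).
`e k b i` is the end `b` of the hole of thread `k` in `K_i`. -/
structure GD (V Θ : Type*) (g : ℕ) where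
  F : V ≃ V
  idx : V → ZMod g
  act : Θ → ZMod g → Prop
  e : Θ → Bool → ZMod g → V
  M0 : Θ → Bool → V → V → Prop
  s : Θ
  w : V
  rf : Prop

namespace GD

variable {V Θ : Type*} {g : ℕ} (G : GD V Θ g)

/-- Hypotheses. -/
structure Ok : Prop where
  odd : Odd g
  three : 3 ≤ g
  idxF : ∀ v, G.idx (G.F v) = G.idx v + 1
  idxe : ∀ k b i, G.idx (G.e k b i) = i
  eF : ∀ k b i, G.act k i → G.e k b (i + 1) = G.F (G.e k b i)
  act1 : ∀ k i, G.act k i → ¬ G.act k (i + 1)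
  disj : ∀ k l i, k ≠ l → G.act k i → G.act l i → ∀ b b', G.e k b i ≠ G.e l b' i
  sym : ∀ k b u v, G.M0 k b u v → G.M0 k b v u
  func : ∀ k b u v v', G.M0 k b u v → G.M0 k b u v' → v = v'
  inn : ∀ k b u v, G.M0 k b u v → G.idx u = G.idx v
  miss : ∀ k b i v, ¬ G.M0 k b (G.e k b i) v
  idxw : G.idx G.w = -1
  special : (G.rf ∧ (G.act G.s (-2) → G.e G.s false (-1) = G.w) ∧
      (G.act G.s 0 → G.e G.s false 0 = G.F G.w) ∧
      (G.act G.s (-1) → G.e G.s false (-1) = G.w) ∧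
      ∀ l b, l ≠ G.s → G.act l (-1) → G.e l b (-1) ≠ G.w) ∨
    (¬ G.act G.s (-2) ∧ ¬ G.act G.s (-1) ∧ ¬ G.act G.s 0)

/-- The class of a level. -/
def LV (i : ZMod g) (u v : V) : Prop :=
  (∃ k b, G.act k i ∧ ((u = G.e k b i ∧ v = G.e k (!b) i) ∨
    (u = G.e k b (i + 1) ∧ v = G.e k (!b) (i + 1)))) ∨
  (G.idx u = i ∧ v = G.F u ∧ ∀ k b, G.act k i → u ≠ G.e k b i) ∨
  (G.idx v = i ∧ u = G.F v ∧ ∀ k b, G.act k i → v ≠ G.e k b i)

/-- A rung. -/
def rung (k : Θ) (b : Bool) (i : ZMod g) (u v : V) : Prop :=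
  (u = G.e k b i ∧ v = G.e k b (i + 1)) ∨ (v = G.e k b i ∧ u = G.e k b (i + 1))

/-- New class of a normal colour. -/
def nrm (k : Θ) (b : Bool) (u v : V) : Prop := G.M0 k b u v ∨ ∃ i, G.act k i ∧ G.rung k b i u v

/-- New colour of the even levels. -/
def rho (u v : V) : Prop :=
  (G.idx u = -1 ∧ G.M0 G.s false u v) ∨ ∃ i : ZMod g, Even i.val ∧ i ≠ -1 ∧ G.LV i u v

/-- New colour of the odd levels. -/
def sgm (u v : V) : Prop :=
  (G.idx u = 0 ∧ G.M0 G.s false u v) ∨ ∃ i : ZMod g, Odd i.val ∧ G.LV i u v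

/-- New class of the special colour. -/
def spc (u v : V) : Prop :=
  (G.idx u ≠ -1 ∧ G.idx u ≠ 0 ∧ G.M0 G.s false u v) ∨
  (∃ i, G.act G.s i ∧ i ≠ -1 ∧ G.rung G.s false i u v) ∨
  (G.LV (-1) u v ∧ ¬ (G.rf ∧ ((u = G.w ∧ v = G.F G.w) ∨ (u = G.F G.w ∧ v = G.w))))

variable {G}

theorem LV_symm {i : ZMod g} {u v : V} (h : G.LV i u v) : G.LV i v u := by
  rcases h with ⟨k, b, ha, h⟩ | h | h
  · refine Or.inl ⟨k, !b, ha, ?_⟩
    rw [Bool.not_not]
    rcases h with ⟨h1, h2⟩ | ⟨h1, h2⟩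
    · exact Or.inl ⟨h2, h1⟩
    · exact Or.inr ⟨h2, h1⟩
  · exact Or.inr (Or.inr h)
  · exact Or.inr (Or.inl h)

theorem rung_symm {k : Θ} {b : Bool} {i : ZMod g} {u v : V} (h : G.rung k b i u v) :
    G.rung k b i v u := by
  rcases h with ⟨h1, h2⟩ | ⟨h1, h2⟩
  · exact Or.inr ⟨h1, h2⟩
  · exact Or.inl ⟨h1, h2⟩

section
variable (H : G.Ok)
include H

theorem Ok.ne1 : (1 : ZMod g) ≠ 0 := by
  have : Fact (1 < g) := ⟨by have := H.three; omega⟩
  exact one_ne_zero

theorem Ok.succ_ne (i : ZMod g) : i + 1 ≠ i := by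
  intro h
  exact H.ne1 (by linear_combination h)

theorem Ok.val_neg_one : (-1 : ZMod g).val = g - 1 := by
  have : Fact (1 < g) := ⟨by have := H.three; omega⟩
  have : NeZero g := ⟨by have := H.three; omega⟩
  rw [ZMod.neg_val, if_neg H.ne1, ZMod.val_one]

theorem Ok.even_neg_one : Even (-1 : ZMod g).val := by
  rw [H.val_neg_one]
  have h1 := H.three
  obtain ⟨a, ha⟩ := H.odd
  exact ⟨a, by omega⟩

theorem Ok.val_succ {i : ZMod g} (h : i ≠ -1) : (i + 1).val = i.val + 1 := by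
  have h3 := H.three
  have : NeZero g := ⟨by omega⟩
  have : Fact (1 < g) := ⟨by omega⟩
  have h1 := i.val_lt
  have h2 : i.val ≠ g - 1 := by
    intro h'
    apply h
    rw [← H.val_neg_one] at h'
    exact ZMod.val_injective g h'
  rw [ZMod.val_add_of_lt, ZMod.val_one]
  rw [ZMod.val_one]; omega

/-- Parity of consecutive levels. -/
theorem Ok.odd_succ {i : ZMod g} (h : i ≠ -1) : Odd (i + 1).val ↔ Even i.val := by
  rw [H.val_succ h, Nat.odd_add_one, Nat.not_odd_iff_even]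

theorem Ok.even_succ {i : ZMod g} (h : i ≠ -1) : Even (i + 1).val ↔ Odd i.val := by
  rw [H.val_succ h, Nat.even_add_one, Nat.not_even_iff_odd]

theorem Ok.LV_idx {i : ZMod g} {u v : V} (h : G.LV i u v) :
    (G.idx u = i ∨ G.idx u = i + 1) ∧ (G.idx v = i ∨ G.idx v = i + 1) := by
  rcases h with ⟨k, b, ha, ⟨h1, h2⟩ | ⟨h1, h2⟩⟩ | ⟨h1, h2, h3⟩ | ⟨h1, h2, h3⟩
  · rw [h1, h2, H.idxe, H.idxe]; simp
  · rw [h1, h2, H.idxe, H.idxe]; simp
  · rw [h2, H.idxF, h1]; simp
  · rw [h2, H.idxF, h1]; simp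

/-- The edges of a level class at a lower vertex. -/
theorem Ok.LV_low {i : ZMod g} {u v : V} (h : G.LV i u v) (hu : G.idx u = i) :
    (∃ k b, G.act k i ∧ u = G.e k b i ∧ v = G.e k (!b) i) ∨
      (v = G.F u ∧ ∀ k b, G.act k i → u ≠ G.e k b i) := by
  rcases h with ⟨k, b, ha, ⟨h1, h2⟩ | ⟨h1, h2⟩⟩ | ⟨h1, h2, h3⟩ | ⟨h1, h2, h3⟩
  · exact Or.inl ⟨k, b, ha, h1, h2⟩
  · exfalso
    rw [h1, H.idxe] at hu
    exact H.succ_ne i hu
  · exact Or.inr ⟨h2, h3⟩
  · exfalso
    rw [h2, H.idxF, h1] at hu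
    exact H.succ_ne i hu

/-- The edges of a level class at an upper vertex. -/
theorem Ok.LV_up {i : ZMod g} {u v : V} (h : G.LV i u v) (hu : G.idx u = i + 1) :
    (∃ k b, G.act k i ∧ u = G.F (G.e k b i) ∧ v = G.F (G.e k (!b) i)) ∨
      (u = G.F v ∧ ∀ k b, G.act k i → u ≠ G.F (G.e k b i)) := by
  rcases h with ⟨k, b, ha, ⟨h1, h2⟩ | ⟨h1, h2⟩⟩ | ⟨h1, h2, h3⟩ | ⟨h1, h2, h3⟩
  · exfalso
    rw [h1, H.idxe] at hu
    exact H.succ_ne i hu.symm
  · rw [H.eF k _ i ha] at h1 h2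
    exact Or.inl ⟨k, b, ha, h1, h2⟩
  · exfalso
    rw [h1] at hu
    exact H.succ_ne i hu.symm
  · refine Or.inr ⟨h2, fun k b ha h => ?_⟩
    rw [h2] at h
    exact h3 k b ha (G.F.injective h)

theorem Ok.LV_fun {i : ZMod g} {u v v' : V} (h : G.LV i u v) (h' : G.LV i u v') : v = v' := by
  have key : ∀ k b k' b', G.act k i → G.act k' i → G.e k b i = G.e k' b' i →
      G.e k (!b) i = G.e k' (!b') i := by
    intro k b k' b' ha ha' he
    by_cases hk : k = k'
    · subst hk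
      by_cases hb : b = b'
      · rw [hb]
      · have : b' = !b := by cases b <;> cases b' <;> simp_all
        rw [this] at he
        rw [this, Bool.not_not]
        exact he.symm
    · exact absurd he (H.disj k k' i hk ha ha' b b')
  rcases (H.LV_idx h).1 with hu | hu
  · rcases H.LV_low h hu with ⟨k, b, ha, h1, h2⟩ | ⟨h1, h2⟩ <;>
      rcases H.LV_low h' hu with ⟨k', b', ha', h1', h2'⟩ | ⟨h1', h2'⟩
    · rw [h2, h2']
      exact key k b k' b' ha ha' (h1.symm.trans h1')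
    · exact absurd h1 (h2' k b ha)
    · exact absurd h1' (h2 k' b' ha')
    · rw [h1, h1']
  · rcases H.LV_up h hu with ⟨k, b, ha, h1, h2⟩ | ⟨h1, h2⟩ <;>
      rcases H.LV_up h' hu with ⟨k', b', ha', h1', h2'⟩ | ⟨h1', h2'⟩
    · rw [h2, h2', key k b k' b' ha ha' (G.F.injective (h1.symm.trans h1'))]
    · exact absurd h1 (h2' k b ha)
    · exact absurd h1' (h2 k' b' ha')
    · exact G.F.injective (h1.symm.trans h1')

theorem Ok.nrm_symm {k : Θ} {b : Bool} {u v : V} (h : G.nrm k b u v) : G.nrm k b v u := by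
  rcases h with h | ⟨i, hi, h⟩
  · exact Or.inl (H.sym _ _ _ _ h)
  · exact Or.inr ⟨i, hi, rung_symm h⟩

theorem Ok.rung_fun {k : Θ} {b : Bool} {i j : ZMod g} {u v v' : V} (hi : G.act k i)
    (hj : G.act k j) (h : G.rung k b i u v) (h' : G.rung k b j u v') : v = v' := by
  rcases h with ⟨h1, h2⟩ | ⟨h1, h2⟩ <;> rcases h' with ⟨h1', h2'⟩ | ⟨h1', h2'⟩
  · have : i = j := by
      have := H.idxe k b i
      rw [← h1, h1', H.idxe] at this
      exact this.symm
    subst this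
    rw [h2, h2']
  · exfalso
    have : i = j + 1 := by
      have := H.idxe k b i
      rw [← h1, h2', H.idxe] at this
      exact this.symm
    rw [this] at hi
    exact H.act1 k j hj hi
  · exfalso
    have : j = i + 1 := by
      have := H.idxe k b j
      rw [← h1', h2, H.idxe] at this
      exact this.symm
    rw [this] at hj
    exact H.act1 k i hi hj
  · have : i + 1 = j + 1 := by
      have := H.idxe k b (i + 1)
      rw [← h2, h2', H.idxe] at this
      exact this.symm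
    have : i = j := add_right_cancel this
    subst this
    rw [h1, h1']

theorem Ok.M0_rung {k : Θ} {b : Bool} {i : ZMod g} {u v v' : V} (h : G.M0 k b u v)
    (h' : G.rung k b i u v') : False := by
  rcases h' with ⟨h1, h2⟩ | ⟨h1, h2⟩
  · rw [h1] at h; exact H.miss _ _ _ _ h
  · rw [h2] at h; exact H.miss _ _ _ _ h

theorem Ok.nrm_fun {k : Θ} {b : Bool} {u v v' : V} (h : G.nrm k b u v) (h' : G.nrm k b u v') :
    v = v' := by
  rcases h with h | ⟨i, hi, h⟩ <;> rcases h' with h' | ⟨j, hj, h'⟩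
  · exact H.func _ _ _ _ _ h h'
  · exact (H.M0_rung h h').elim
  · exact (H.M0_rung h' h).elim
  · exact H.rung_fun hi hj h h'

theorem Ok.nrm_miss {k : Θ} {b : Bool} {i : ZMod g} (hi : ¬ G.act k i) (hi' : ¬ G.act k (i - 1))
    (v : V) : ¬ G.nrm k b (G.e k b i) v := by
  rintro (h | ⟨j, hj, ⟨h1, h2⟩ | ⟨h1, h2⟩⟩)
  · exact H.miss _ _ _ _ h
  · have : i = j := by
      have := H.idxe k b i
      rw [h1, H.idxe] at this
      exact this.symm
    rw [this] at hi; exact hi hj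
  · have : i = j + 1 := by
      have := H.idxe k b i
      rw [h2, H.idxe] at this
      exact this.symm
    rw [this, add_sub_cancel_right] at hi'
    exact hi' hj

theorem Ok.rho_symm {u v : V} (h : G.rho u v) : G.rho v u := by
  rcases h with ⟨h1, h⟩ | ⟨i, h1, h2, h⟩
  · exact Or.inl ⟨(H.inn _ _ _ _ h).symm.trans h1, H.sym _ _ _ _ h⟩
  · exact Or.inr ⟨i, h1, h2, LV_symm h⟩

theorem Ok.sgm_symm {u v : V} (h : G.sgm u v) : G.sgm v u := by
  rcases h with ⟨h1, h⟩ | ⟨i, h1, h⟩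
  · exact Or.inl ⟨(H.inn _ _ _ _ h).symm.trans h1, H.sym _ _ _ _ h⟩
  · exact Or.inr ⟨i, h1, LV_symm h⟩

theorem Ok.spc_symm {u v : V} (h : G.spc u v) : G.spc v u := by
  rcases h with ⟨h1, h2, h⟩ | ⟨i, h1, h2, h⟩ | ⟨h, h1⟩
  · have e := H.inn _ _ _ _ h
    exact Or.inl ⟨by rw [← e]; exact h1, by rw [← e]; exact h2, H.sym _ _ _ _ h⟩
  · exact Or.inr (Or.inl ⟨i, h1, h2, rung_symm h⟩)
  · refine Or.inr (Or.inr ⟨LV_symm h, ?_⟩)
    rintro ⟨hr, h2⟩
    apply h1
    refine ⟨hr, ?_⟩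
    rcases h2 with ⟨a, b⟩ | ⟨a, b⟩
    · exact Or.inr ⟨b, a⟩
    · exact Or.inl ⟨b, a⟩

/-- Two levels of the same parity do not meet. -/
theorem Ok.level_eq {i j l : ZMod g} (hi : i ≠ -1) (hj : j ≠ -1)
    (h : Even i.val ∧ Even j.val ∨ Odd i.val ∧ Odd j.val)
    (h1 : l = i ∨ l = i + 1) (h2 : l = j ∨ l = j + 1) : i = j := by
  rcases h1 with h1 | h1 <;> rcases h2 with h2 | h2
  · rw [← h1, h2]
  · exfalso
    have e : i = j + 1 := h1.symm.trans h2
    rcases h with ⟨a, b⟩ | ⟨a, b⟩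
    · rw [e, H.even_succ hj] at a
      exact (Nat.not_even_iff_odd.2 a) b
    · rw [e, H.odd_succ hj] at a
      exact (Nat.not_odd_iff_even.2 a) b
  · exfalso
    have e : j = i + 1 := h2.symm.trans h1
    rcases h with ⟨a, b⟩ | ⟨a, b⟩
    · rw [e, H.even_succ hi] at b
      exact (Nat.not_even_iff_odd.2 b) a
    · rw [e, H.odd_succ hi] at b
      exact (Nat.not_odd_iff_even.2 b) a
  · exact add_right_cancel (h1.symm.trans h2)

theorem Ok.odd_ne {i : ZMod g} (h : Odd i.val) : i ≠ -1 := by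
  rintro rfl
  exact (Nat.not_odd_iff_even.2 H.even_neg_one) h

/-- A level class of an even level `≠ -1` does not touch `K_{-1}`. -/
theorem Ok.even_LV_ne {i : ZMod g} {u v : V} (hi : Even i.val) (hi' : i ≠ -1) (h : G.LV i u v) :
    G.idx u ≠ -1 := by
  intro hu
  rcases (H.LV_idx h).1 with h1 | h1
  · exact hi' (h1.symm.trans hu)
  · have e : i + 1 = -1 := h1.symm.trans hu
    have := H.even_neg_one
    rw [← e, H.even_succ hi'] at this
    exact (Nat.not_odd_iff_even.2 hi) this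

/-- A level class of an odd level does not touch `K_0`. -/
theorem Ok.odd_LV_ne {i : ZMod g} {u v : V} (hi : Odd i.val) (h : G.LV i u v) :
    G.idx u ≠ 0 := by
  intro hu
  rcases (H.LV_idx h).1 with h1 | h1
  · have e : i = 0 := h1.symm.trans hu
    rw [e, ZMod.val_zero] at hi
    exact (Nat.not_odd_iff_even.2 (by simp)) hi
  · have e : i = -1 := by
      have : i + 1 = 0 := h1.symm.trans hu
      linear_combination this
    exact H.odd_ne hi e

theorem Ok.rho_fun {u v v' : V} (h : G.rho u v) (h' : G.rho u v') : v = v' := by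
  rcases h with ⟨h1, h⟩ | ⟨i, hi, hi', h⟩ <;> rcases h' with ⟨h1', h'⟩ | ⟨j, hj, hj', h'⟩
  · exact H.func _ _ _ _ _ h h'
  · exact (H.even_LV_ne hj hj' h' h1).elim
  · exact (H.even_LV_ne hi hi' h h1').elim
  · have := H.level_eq hi' hj' (Or.inl ⟨hi, hj⟩) (H.LV_idx h).1 (H.LV_idx h').1
    subst this
    exact H.LV_fun h h'

theorem Ok.sgm_fun {u v v' : V} (h : G.sgm u v) (h' : G.sgm u v') : v = v' := by
  rcases h with ⟨h1, h⟩ | ⟨i, hi, h⟩ <;> rcases h' with ⟨h1', h'⟩ | ⟨j, hj, h'⟩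
  · exact H.func _ _ _ _ _ h h'
  · exact (H.odd_LV_ne hj h' h1).elim
  · exact (H.odd_LV_ne hi h h1').elim
  · have := H.level_eq (H.odd_ne hi) (H.odd_ne hj) (Or.inr ⟨hi, hj⟩) (H.LV_idx h).1
      (H.LV_idx h').1
    subst this
    exact H.LV_fun h h'

theorem Ok.rho_miss (v : V) : ¬ G.rho (G.e G.s false (-1)) v := by
  rintro (⟨h1, h⟩ | ⟨i, hi, hi', h⟩)
  · exact H.miss _ _ _ _ h
  · exact H.even_LV_ne hi hi' h (H.idxe _ _ _)

theorem Ok.sgm_miss (v : V) : ¬ G.sgm (G.e G.s false 0) v := by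
  rintro (⟨h1, h⟩ | ⟨i, hi, h⟩)
  · exact H.miss _ _ _ _ h
  · exact H.odd_LV_ne hi h (H.idxe _ _ _)

theorem Ok.idxFw : G.idx (G.F G.w) = 0 := by rw [H.idxF, H.idxw]; ring

theorem Ok.zero_ne : (0 : ZMod g) ≠ -1 := by
  intro h
  exact H.ne1 (by linear_combination h)

/-- A rung of the special colour and an edge of the level class `-1` at the same vertex. -/
theorem Ok.rung_LV {i : ZMod g} {u v v' : V} (hi : G.act G.s i) (hi' : i ≠ -1)
    (h : G.rung G.s false i u v) (h' : G.LV (-1) u v')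
    (hf : ¬ (G.rf ∧ ((u = G.w ∧ v' = G.F G.w) ∨ (u = G.F G.w ∧ v' = G.w)))) : False := by
  have e1 : (-1 : ZMod g) + 1 = 0 := by ring
  rcases H.special with ⟨hr, s1, s2, s3, s4⟩ | ⟨s1, s2, s3⟩
  · rcases h with ⟨h1, h2⟩ | ⟨h1, h2⟩
    · -- `u = e s false i`
      have hiu : G.idx u = i := by rw [h1, H.idxe]
      rcases (H.LV_idx h').1 with h3 | h3
      · exact hi' (hiu.symm.trans h3)
      · have hi0 : i = 0 := by rw [← hiu, h3, e1]
        subst hi0
        have hu : u = G.F G.w := by rw [h1, s2 hi]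
        rcases H.LV_up h' h3 with ⟨k, b, ha, a1, a2⟩ | ⟨a1, a2⟩
        · have hw : G.e k b (-1) = G.w := G.F.injective (a1.symm.trans hu)
          by_cases hk : k = G.s
          · subst hk
            have := H.act1 _ _ ha
            rw [e1] at this
            exact this hi
          · exact s4 k b hk ha hw
        · exact hf ⟨hr, Or.inr ⟨hu, G.F.injective (a1.symm.trans hu)⟩⟩
    · -- `u = e s false (i + 1)`
      have hiu : G.idx u = i + 1 := by rw [h2, H.idxe]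
      rcases (H.LV_idx h').1 with h3 | h3
      · have hi2 : i = -2 := by
          have : i + 1 = -1 := hiu.symm.trans h3
          linear_combination this
        have hu : u = G.w := by
          rw [h2]
          have : i + 1 = -1 := hiu.symm.trans h3
          rw [this]
          apply s1
          rw [← hi2]; exact hi
        rcases H.LV_low h' h3 with ⟨k, b, ha, a1, a2⟩ | ⟨a1, a2⟩
        · by_cases hk : k = G.s
          · subst hk
            have := H.act1 _ _ hi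
            rw [hiu.symm.trans h3] at this
            exact this ha
          · exact s4 k b hk ha (a1.symm.trans hu)
        · exact hf ⟨hr, Or.inl ⟨hu, by rw [a1, hu]⟩⟩
      · rw [e1] at h3
        have : i + 1 = 0 := hiu.symm.trans h3
        exact hi' (by linear_combination this)
  · have hne0 : i ≠ 0 := fun h0 => s3 (h0 ▸ hi)
    have hne2 : i ≠ -2 := fun h0 => s1 (h0 ▸ hi)
    rcases h with ⟨h1, h2⟩ | ⟨h1, h2⟩
    · have hiu : G.idx u = i := by rw [h1, H.idxe]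
      rcases (H.LV_idx h').1 with h3 | h3
      · exact hi' (hiu.symm.trans h3)
      · exact hne0 (by rw [← hiu, h3, e1])
    · have hiu : G.idx u = i + 1 := by rw [h2, H.idxe]
      rcases (H.LV_idx h').1 with h3 | h3
      · have : i + 1 = -1 := hiu.symm.trans h3
        exact hne2 (by linear_combination this)
      · have : i + 1 = -1 + 1 := hiu.symm.trans h3
        exact hi' (add_right_cancel this)

theorem Ok.M0_LV {u v' : V} (h1 : G.idx u ≠ -1) (h2 : G.idx u ≠ 0)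
    (h' : G.LV (-1) u v') : False := by
  rcases (H.LV_idx h').1 with h3 | h3
  · exact h1 h3
  · exact h2 (by rw [h3]; ring)

theorem Ok.spc_fun {u v v' : V} (h : G.spc u v) (h' : G.spc u v') : v = v' := by
  rcases h with ⟨h1, h2, h⟩ | ⟨i, h1, h2, h⟩ | ⟨h, h1⟩ <;>
    rcases h' with ⟨h1', h2', h'⟩ | ⟨i', h1', h2', h'⟩ | ⟨h', h1'⟩
  · exact H.func _ _ _ _ _ h h'
  · exact (H.M0_rung h h').elim
  · exact (H.M0_LV h1 h2 h').elim
  · exact (H.M0_rung h' h).elim
  · exact H.rung_fun h1 h1' h h'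
  · exact (H.rung_LV h1 h2 h h' h1').elim
  · exact (H.M0_LV h1' h2' h).elim
  · exact (H.rung_LV h1' h2' h' h h1).elim
  · exact H.LV_fun h h'

/-- The special colour is missing at an unmatched hole outside `K_{-1}`, `K_0`. -/
theorem Ok.spc_miss {i : ZMod g} (h1 : i ≠ -1) (h0 : i ≠ 0) (hi : ¬ G.act G.s i)
    (hi' : ¬ G.act G.s (i - 1)) (v : V) : ¬ G.spc (G.e G.s false i) v := by
  rintro (⟨_, _, h⟩ | ⟨j, hj, _, h⟩ | ⟨h, _⟩)
  · exact H.miss _ _ _ _ h
  · exact H.nrm_miss (b := false) hi hi' v (Or.inr ⟨j, hj, h⟩)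
  · exact H.M0_LV (by rw [H.idxe]; exact h1) (by rw [H.idxe]; exact h0) h

/-- The special colour is missing at `F w` if the thread is inactive at `0` (with `rf`). -/
theorem Ok.spc_miss_Fw (hr : G.rf) (h0 : ¬ G.act G.s 0) (h1 : ¬ G.act G.s (-1))
    (hw : ∀ l b, l ≠ G.s → G.act l (-1) → G.e l b (-1) ≠ G.w) (v : V) :
    ¬ G.spc (G.F G.w) v := by
  have e1 : (-1 : ZMod g) + 1 = 0 := by ring
  rintro (⟨_, h, _⟩ | ⟨j, hj, hj', h⟩ | ⟨h, hf⟩)
  · exact h H.idxFw
  · rcases h with ⟨a, b⟩ | ⟨a, b⟩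
    · have : (0 : ZMod g) = j := by rw [← H.idxFw, a, H.idxe]
      rw [← this] at hj
      exact h0 hj
    · have : (0 : ZMod g) = j + 1 := by rw [← H.idxFw, b, H.idxe]
      exact hj' (by linear_combination -this)
  · rcases H.LV_up h (by rw [H.idxFw, e1]) with ⟨k, b, ha, a1, a2⟩ | ⟨a1, a2⟩
    · have hk : k ≠ G.s := by rintro rfl; exact h1 ha
      exact hw k b hk ha (G.F.injective a1.symm)
    · exact hf ⟨hr, Or.inr ⟨rfl, (G.F.injective a1).symm⟩⟩

/-- The special colour is missing at `w` if the thread is inactive at `-2`, `-1` (with `rf`). -/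
theorem Ok.spc_miss_w (hr : G.rf) (h2 : ¬ G.act G.s (-2)) (h1 : ¬ G.act G.s (-1))
    (hw : ∀ l b, l ≠ G.s → G.act l (-1) → G.e l b (-1) ≠ G.w) (v : V) :
    ¬ G.spc G.w v := by
  rintro (⟨h, _, _⟩ | ⟨j, hj, hj', h⟩ | ⟨h, hf⟩)
  · exact h H.idxw
  · rcases h with ⟨a, b⟩ | ⟨a, b⟩
    · have : (-1 : ZMod g) = j := by rw [← H.idxw, a, H.idxe]
      exact hj' this.symm
    · have : (-1 : ZMod g) = j + 1 := by rw [← H.idxw, b, H.idxe]
      apply h2
      have : j = -2 := by linear_combination -this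
      rw [← this]; exact hj
  · rcases H.LV_low h H.idxw with ⟨k, b, ha, a1, a2⟩ | ⟨a1, a2⟩
    · have hk : k ≠ G.s := by rintro rfl; exact h1 ha
      exact hw k b hk ha a1.symm
    · exact hf ⟨hr, Or.inl ⟨rfl, a1⟩⟩

omit H in
/-- Every old edge is in a new class. -/
theorem cov_M0 {k : Θ} {b : Bool} {u v : V} (h : G.M0 k b u v) :
    (¬ (k = G.s ∧ b = false) ∧ G.nrm k b u v) ∨ G.rho u v ∨ G.sgm u v ∨ G.spc u v := by
  by_cases hk : k = G.s ∧ b = false
  · obtain ⟨rfl, rfl⟩ := hk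
    right
    by_cases h1 : G.idx u = -1
    · exact Or.inl (Or.inl ⟨h1, h⟩)
    by_cases h0 : G.idx u = 0
    · exact Or.inr (Or.inl (Or.inl ⟨h0, h⟩))
    · exact Or.inr (Or.inr (Or.inl ⟨h1, h0, h⟩))
  · exact Or.inl ⟨hk, Or.inl h⟩

omit H in
theorem cov_LV {i : ZMod g} {u v : V} (h : G.LV i u v)
    (hf : ¬ (G.rf ∧ ((u = G.w ∧ v = G.F G.w) ∨ (u = G.F G.w ∧ v = G.w)))) :
    G.rho u v ∨ G.sgm u v ∨ G.spc u v := by
  by_cases h1 : i = -1
  · subst h1
    exact Or.inr (Or.inr (Or.inr (Or.inr ⟨h, hf⟩)))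
  rcases Nat.even_or_odd i.val with he | ho
  · exact Or.inl (Or.inr ⟨i, he, h1, h⟩)
  · exact Or.inr (Or.inl (Or.inr ⟨i, ho, h⟩))

/-- The holes of the active threads are covered. -/
theorem Ok.cov_hole {k : Θ} {i : ZMod g} (b : Bool) (h : G.act k i ∨ G.act k (i - 1)) :
    G.rho (G.e k b i) (G.e k (!b) i) ∨ G.sgm (G.e k b i) (G.e k (!b) i) ∨
      G.spc (G.e k b i) (G.e k (!b) i) := by
  have hf : ¬ (G.rf ∧ ((G.e k b i = G.w ∧ G.e k (!b) i = G.F G.w) ∨
      (G.e k b i = G.F G.w ∧ G.e k (!b) i = G.w))) := by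
    rintro ⟨_, ⟨a, c⟩ | ⟨a, c⟩⟩
    · have a1 := congrArg G.idx a
      have c1 := congrArg G.idx c
      rw [H.idxe, H.idxw] at a1
      rw [H.idxe, H.idxFw] at c1
      exact H.zero_ne (c1.symm.trans a1)
    · have a1 := congrArg G.idx a
      have c1 := congrArg G.idx c
      rw [H.idxe, H.idxFw] at a1
      rw [H.idxe, H.idxw] at c1
      exact H.zero_ne (a1.symm.trans c1)
  rcases h with h | h
  · exact cov_LV (Or.inl ⟨k, b, h, Or.inl ⟨rfl, rfl⟩⟩) hf
  · refine cov_LV (i := i - 1) (Or.inl ⟨k, b, h, Or.inr ?_⟩) hf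
    rw [sub_add_cancel]
    exact ⟨rfl, rfl⟩

/-- The edges of the carrier are covered. -/
theorem Ok.cov_F (v : V) : (G.rf ∧ v = G.w) ∨
    (∃ k b, ¬ (k = G.s ∧ b = false) ∧ G.nrm k b v (G.F v)) ∨
      G.rho v (G.F v) ∨ G.sgm v (G.F v) ∨ G.spc v (G.F v) := by
  by_cases hv : G.rf ∧ v = G.w
  · exact Or.inl hv
  right
  by_cases hk : ∃ k b, G.act k (G.idx v) ∧ v = G.e k b (G.idx v)
  · obtain ⟨k, b, ha, he⟩ := hk
    have hrung : G.rung k b (G.idx v) v (G.F v) := by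
      refine Or.inl ⟨he, ?_⟩
      rw [H.eF k b _ ha, ← he]
    by_cases hs : k = G.s ∧ b = false
    · obtain ⟨rfl, rfl⟩ := hs
      right
      by_cases h1 : G.idx v = -1
      · exfalso
        rw [h1] at ha he
        rcases H.special with ⟨hr, s1, s2, s3, s4⟩ | ⟨s1, s2, s3⟩
        · exact hv ⟨hr, by rw [he, s3 ha]⟩
        · exact s2 ha
      · exact Or.inr (Or.inr (Or.inr (Or.inl ⟨G.idx v, ha, h1, hrung⟩)))
    · exact Or.inl ⟨k, b, hs, Or.inr ⟨_, ha, hrung⟩⟩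
  · right
    apply cov_LV (i := G.idx v)
    · refine Or.inr (Or.inl ⟨rfl, rfl, ?_⟩)
      intro k b ha he
      exact hk ⟨k, b, ha, he⟩
    · rintro ⟨hr, ⟨a, _⟩ | ⟨a, c⟩⟩
      · exact hv ⟨hr, a⟩
      · have a1 := congrArg G.idx a
        have c1 := congrArg G.idx c
        rw [H.idxFw] at a1
        rw [H.idxF, H.idxw, a1] at c1
        rw [zero_add] at c1
        have h3 := H.three
        -- `1 = -1` is impossible
        have h2 : ((2 : ℕ) : ZMod g) = 0 := by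
          push_cast
          linear_combination c1
        rw [ZMod.natCast_eq_zero_iff] at h2
        have := Nat.le_of_dvd (by omega) h2
        omega

end

end GD

end Pool.Agent.P45
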