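import Pool.Agent.Lib.P45dba8.Hub1

/-! # MP_45dba8, the hub theorem: type 1 with a large multiplicity -/

set_option autoImplicit false

namespace Pool.Agent.P45

/-- Colour system with markers: `mk k u v` says that `{u, v}` has the colour `(k, true)`. -/
def TSM {V Θ : Type*} (K : Set V) (E : V → V → Prop) (e : Θ → Bool → V)
    (mk : Θ → V → V → Prop) : Prop :=
  ∃ M : Θ → Bool → V → V → Prop,
    (∀ k b u v, M k b u v → M k b v u) ∧
    (∀ k b u v, M k b u v → u ∈ K ∧ v ∈ K) ∧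
    (∀ k b u v v', M k b u v → M k b u v' → v = v') ∧
    (∀ k b v, ¬ M k b (e k b) v) ∧
    (∀ u ∈ K, ∀ v ∈ K, E u v →
      (∃ k, (u = e k false ∧ v = e k true) ∨ (u = e k true ∧ v = e k false)) ∨
        ∃ k b, M k b u v) ∧
    (∀ k u v, mk k u v → M k true u v)

theorem TSM.toTS {V Θ : Type*} {K : Set V} {E : V → V → Prop} {e : Θ → Bool → V}
    {mk : Θ → V → V → Prop} (h : TSM K E e mk) : TS K E e := by
  obtain ⟨M, h1, h2, h3, h4, h5, -⟩ := h
  exact ⟨M, h1, h2, h3, h4, h5⟩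

theorem TS.toTSM {V Θ : Type*} {K : Set V} {E : V → V → Prop} {e : Θ → Bool → V}
    (h : TS K E e) : TSM K E e (fun _ _ _ => False) := by
  obtain ⟨M, h1, h2, h3, h4, h5⟩ := h
  exact ⟨M, h1, h2, h3, h4, h5, fun _ _ _ h => h.elim⟩

theorem TSM.mono {V Θ : Type*} {K : Set V} {E E' : V → V → Prop} {e : Θ → Bool → V}
    {mk mk' : Θ → V → V → Prop} (h : TSM K E e mk) (hE : ∀ u ∈ K, ∀ v ∈ K, E' u v → E u v)
    (hm : ∀ k u v, mk' k u v → mk k u v) : TSM K E' e mk' := by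
  obtain ⟨M, h1, h2, h3, h4, h5, h6⟩ := h
  exact ⟨M, h1, h2, h3, h4, fun u hu v hv huv => h5 u hu v hv (hE u hu v hv huv),
    fun k u v hk => h6 k u v (hm k u v hk)⟩

theorem TSM.union {V Θ Θ' : Type*} {K : Set V} {E E' : V → V → Prop} {e : Θ → Bool → V}
    {e' : Θ' → Bool → V} {mk : Θ → V → V → Prop} {mk' : Θ' → V → V → Prop}
    (h : TSM K E e mk) (h' : TSM K E' e' mk') :
    TSM K (fun u v => E u v ∨ E' u v) (Sum.elim e e') (Sum.elim mk mk') := by
  obtain ⟨M, h1, h2, h3, h4, h5, h6⟩ := h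
  obtain ⟨M', g1, g2, g3, g4, g5, g6⟩ := h'
  refine ⟨Sum.elim M M', ?_, ?_, ?_, ?_, ?_, ?_⟩
  · rintro (k | k) b u v hm
    · exact h1 k b u v hm
    · exact g1 k b u v hm
  · rintro (k | k) b u v hm
    · exact h2 k b u v hm
    · exact g2 k b u v hm
  · rintro (k | k) b u v v' hm hm'
    · exact h3 k b u v v' hm hm'
    · exact g3 k b u v v' hm hm'
  · rintro (k | k) b v hm
    · exact h4 k b v hm
    · exact g4 k b v hm
  · rintro u hu v hv (huv | huv)
    · rcases h5 u hu v hv huv with ⟨k, hk⟩ | ⟨k, b, hk⟩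
      · exact Or.inl ⟨Sum.inl k, hk⟩
      · exact Or.inr ⟨Sum.inl k, b, hk⟩
    · rcases g5 u hu v hv huv with ⟨k, hk⟩ | ⟨k, b, hk⟩
      · exact Or.inl ⟨Sum.inr k, hk⟩
      · exact Or.inr ⟨Sum.inr k, b, hk⟩
  · rintro (k | k) u v hm
    · exact h6 k u v hm
    · exact g6 k u v hm

/-- The hub lemma for both regimes. -/
theorem hub_M {n : ℕ} [NeZero n] (hn : Odd n) (h1 : 1 < n) (w : ZMod n) {Λ : Type*}
    (P Q : Λ → ZMod n) (hP : Function.Injective P) (hQ : Function.Injective Q)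
    (hPQ : ∀ l l', P l ≠ Q l') (hPw : ∀ l, P l ≠ w) (hQw : ∀ l, Q l ≠ w)
    (hpar : (∀ l, Even (hpos w (P l) + hpos w (Q l))) ∨
      (∀ l, Odd (hpos w (P l) + hpos w (Q l)))) :
    ∃ N : Bool → ZMod n → ZMod n → Prop,
    (∀ b u v, N b u v → N b v u) ∧
    (∀ b u v v', N b u v → N b u v' → v = v') ∧
    (∀ v, ¬ N false w v) ∧ (∀ v, ¬ N true (w + 1) v) ∧
    (∀ x, x ≠ w → (∀ l, x ≠ P l) → (∀ l, x ≠ Q l) → ∃ b, N b x (x + 1)) ∧
    (∀ l, ∃ b, N b (P l) (Q l)) ∧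
    (∀ l, ∃ b, N b (P l + 1) (Q l + 1)) := by
  classical
  let τ : ZMod n → ZMod n := fun x =>
    if h : ∃ l, P l = x then Q h.choose else if h : ∃ l, Q l = x then P h.choose else x
  have t1 : ∀ l, τ (P l) = Q l := by
    intro l
    have h : ∃ l', P l' = P l := ⟨l, rfl⟩
    simp only [τ, dif_pos h]
    rw [hP h.choose_spec]
  have t2 : ∀ l, τ (Q l) = P l := by
    intro l
    have h : ¬ ∃ l', P l' = Q l := by rintro ⟨l', h⟩; exact hPQ _ _ h
    have h' : ∃ l', Q l' = Q l := ⟨l, rfl⟩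
    simp only [τ, dif_neg h, dif_pos h']
    rw [hQ h'.choose_spec]
  have t3 : ∀ x, (∀ l, x ≠ P l) → (∀ l, x ≠ Q l) → τ x = x := by
    intro x h h'
    have h2 : ¬ ∃ l', P l' = x := by rintro ⟨l', h2⟩; exact h _ h2.symm
    have h3 : ¬ ∃ l', Q l' = x := by rintro ⟨l', h3⟩; exact h' _ h3.symm
    simp only [τ, dif_neg h2, dif_neg h3]
  have hcase : ∀ x, (∃ l, x = P l) ∨ (∃ l, x = Q l) ∨ ((∀ l, x ≠ P l) ∧ (∀ l, x ≠ Q l)) := by
    intro x
    by_cases h : ∃ l, x = P l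
    · exact Or.inl h
    · by_cases h' : ∃ l, x = Q l
      · exact Or.inr (Or.inl h')
      · push Not at h h'
        exact Or.inr (Or.inr ⟨h, h'⟩)
  have hτ : ∀ x, τ (τ x) = x := by
    intro x
    rcases hcase x with ⟨l, rfl⟩ | ⟨l, rfl⟩ | ⟨h, h'⟩
    · rw [t1, t2]
    · rw [t2, t1]
    · rw [t3 x h h', t3 x h h']
  have hw : τ w = w := t3 w (fun l => (hPw l).symm) (fun l => (hQw l).symm)
  have hub : HubM w τ := by
    rcases hpar with hp | hp
    · apply hub_even hn h1 w τ hτ hw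
      intro x
      rcases hcase x with ⟨l, rfl⟩ | ⟨l, rfl⟩ | ⟨h, h'⟩
      · rw [t1, add_comm]; exact hp l
      · rw [t2]; exact hp l
      · rw [t3 x h h']; exact ⟨_, rfl⟩
    · apply hub_odd hn h1 w τ hτ hw
      intro x hx
      rcases hcase x with ⟨l, rfl⟩ | ⟨l, rfl⟩ | ⟨h, h'⟩
      · rw [t1, add_comm]; exact hp l
      · rw [t2]; exact hp l
      · exact absurd (t3 x h h') hx
  obtain ⟨N, a1, a2, a3, a4, a5, a6, a7⟩ := hub
  refine ⟨N, a1, a2, a3, a4, ?_, ?_, ?_⟩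
  · intro x hx h h'
    exact a5 x hx (t3 x h h')
  · intro l
    have h := a6 (P l) (by rw [t1]; exact (hPQ l l).symm)
    rwa [t1] at h
  · intro l
    have h := a7 (P l) (by rw [t1]; exact (hPQ l l).symm)
    rwa [t1] at h

/-- THE HUB THEOREM. Type 1 gets the holes `{P l, P l + 1}` of all leaves and the cut `{w, w+1}`. -/
theorem hub_TS {n : ℕ} [NeZero n] (hn : Odd n) (h1 : 1 < n) (w : ZMod n) {Λ Θ : Type*}
    (P Q : Λ → ZMod n) (hP : Function.Injective P) (hQ : Function.Injective Q)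
    (hPQ : ∀ l l', P l ≠ Q l') (hPw : ∀ l, P l ≠ w) (hQw : ∀ l, Q l ≠ w)
    (hpar : (∀ l, Even (hpos w (P l) + hpos w (Q l))) ∨
      (∀ l, Odd (hpos w (P l) + hpos w (Q l))))
    (E : ZMod n → ZMod n → Prop) (e : Θ → Bool → ZMod n)
    (h : TSM Set.univ E (Sum.elim (fun l b => bif b then Q l else P l) e)
      (Sum.elim (fun l u v => u = P l + 1 ∧ v = Q l + 1) (fun _ _ _ => False))) :
    TS Set.univ (fun u v => E u v ∨ v = u + 1 ∨ u = v + 1)
      (Sum.elim (Sum.elim (fun l b => bif b then P l + 1 else P l) e)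
        (fun (_ : Unit) b => bif b then w + 1 else w)) := by
  obtain ⟨N, a1, a2, a3, a4, a5, a6, a7⟩ := hub_M hn h1 w P Q hP hQ hPQ hPw hQw hpar
  obtain ⟨M, m1, -, m3, m4, m5, m6⟩ := h
  have mk : ∀ l, M (Sum.inl l) true (P l + 1) (Q l + 1) := fun l => m6 (Sum.inl l) _ _ ⟨rfl, rfl⟩
  have mQ : ∀ l v, ¬ M (Sum.inl l) true (Q l) v := fun l v => m4 (Sum.inl l) true v
  have mP : ∀ l v, ¬ M (Sum.inl l) false (P l) v := fun l v => m4 (Sum.inl l) false v
  have hfact : Fact (1 < n) := ⟨h1⟩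
  have hne : ∀ x : ZMod n, x ≠ x + 1 := by
    intro x h
    exact one_ne_zero (left_eq_add.1 h)
  -- the new classes of the leaves, colour `true`
  let L : Λ → ZMod n → ZMod n → Prop := fun l u v =>
    (M (Sum.inl l) true u v ∧ ¬ (u = P l + 1 ∧ v = Q l + 1) ∧ ¬ (u = Q l + 1 ∧ v = P l + 1)) ∨
      (u = Q l ∧ v = Q l + 1) ∨ (u = Q l + 1 ∧ v = Q l)
  have Lsym : ∀ l u v, L l u v → L l v u := by
    rintro l u v (⟨a, b, c⟩ | ⟨a, b⟩ | ⟨a, b⟩)
    · exact Or.inl ⟨m1 _ _ _ _ a, fun h => c ⟨h.2, h.1⟩, fun h => b ⟨h.2, h.1⟩⟩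
    · exact Or.inr (Or.inr ⟨b, a⟩)
    · exact Or.inr (Or.inl ⟨b, a⟩)
  have Lq : ∀ l v, ¬ (M (Sum.inl l) true (Q l + 1) v ∧ ¬ (Q l + 1 = Q l + 1 ∧ v = P l + 1)) := by
    rintro l v ⟨a, b⟩
    exact b ⟨rfl, m3 _ _ _ _ _ a (m1 _ _ _ _ (mk l))⟩
  have Lfun : ∀ l u v v', L l u v → L l u v' → v = v' := by
    rintro l u v v' (⟨a, b, c⟩ | ⟨a, b⟩ | ⟨a, b⟩) (⟨a', b', c'⟩ | ⟨a', b'⟩ | ⟨a', b'⟩)
    · exact m3 _ _ _ _ _ a a'
    · rw [a'] at a; exact absurd a (mQ l v)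
    · rw [a'] at a c; exact absurd ⟨a, c⟩ (Lq l v)
    · rw [a] at a'; exact absurd a' (mQ l v')
    · rw [b, b']
    · exact absurd (a.symm.trans a') (hne _)
    · rw [a] at a' c'; exact absurd ⟨a', c'⟩ (Lq l v')
    · exact absurd (a'.symm.trans a) (hne _)
    · rw [b, b']
  have Lmiss : ∀ l v, ¬ L l (P l + 1) v := by
    rintro l v (⟨a, b, c⟩ | ⟨a, b⟩ | ⟨a, b⟩)
    · exact b ⟨rfl, m3 _ _ _ _ _ a (mk l)⟩
    · have := mk l
      rw [a] at this
      exact mQ l _ this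
    · exact hPQ l l (add_right_cancel a)
  let M' : (Λ ⊕ Θ) ⊕ Unit → Bool → ZMod n → ZMod n → Prop := fun k b =>
    match k with
    | Sum.inl (Sum.inl l) => bif b then L l else M (Sum.inl l) false
    | Sum.inl (Sum.inr t) => M (Sum.inr t) b
    | Sum.inr _ => N b
  refine ⟨M', ?_, ?_, ?_, ?_, ?_⟩
  · rintro ((l | t) | _) b u v hm
    · cases b
      · exact m1 _ _ _ _ hm
      · exact Lsym l u v hm
    · exact m1 _ _ _ _ hm
    · exact a1 _ _ _ hm
  · intro _ _ _ _ _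
    exact ⟨trivial, trivial⟩
  · rintro ((l | t) | _) b u v v' hm hm'
    · cases b
      · exact m3 _ _ _ _ _ hm hm'
      · exact Lfun l u v v' hm hm'
    · exact m3 _ _ _ _ _ hm hm'
    · exact a2 _ _ _ _ hm hm'
  · rintro ((l | t) | _) b v hm
    · cases b
      · exact mP l v hm
      · exact Lmiss l v hm
    · exact m4 (Sum.inr t) b v hm
    · cases b
      · exact a3 v hm
      · exact a4 v hm
  · -- type 1
    have c1 : ∀ x : ZMod n, (∃ k, (x = Sum.elim (Sum.elim (fun l b => bif b then P l + 1 else P l) e)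
        (fun (_ : Unit) b => bif b then w + 1 else w) k false ∧ x + 1 = Sum.elim (Sum.elim
          (fun l b => bif b then P l + 1 else P l) e)
        (fun (_ : Unit) b => bif b then w + 1 else w) k true)) ∨ ∃ k b, M' k b x (x + 1) := by
      intro x
      by_cases hx : x = w
      · exact Or.inl ⟨Sum.inr (), by simp [hx]⟩
      by_cases hx1 : ∃ l, x = P l
      · obtain ⟨l, hl⟩ := hx1
        exact Or.inl ⟨Sum.inl (Sum.inl l), by simp [hl]⟩
      by_cases hx2 : ∃ l, x = Q l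
      · obtain ⟨l, hl⟩ := hx2
        right
        refine ⟨Sum.inl (Sum.inl l), true, Or.inr (Or.inl ⟨hl, ?_⟩)⟩
        rw [hl]
      push Not at hx1 hx2
      obtain ⟨b, hb⟩ := a5 x hx hx1 hx2
      exact Or.inr ⟨Sum.inr (), b, hb⟩
    have c1' : ∀ x : ZMod n, (∃ k, (x + 1 = Sum.elim (Sum.elim
        (fun l b => bif b then P l + 1 else P l) e)
        (fun (_ : Unit) b => bif b then w + 1 else w) k true ∧ x = Sum.elim (Sum.elim
          (fun l b => bif b then P l + 1 else P l) e)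
        (fun (_ : Unit) b => bif b then w + 1 else w) k false)) ∨ ∃ k b, M' k b (x + 1) x := by
      intro x
      rcases c1 x with ⟨k, h1, h2⟩ | ⟨k, b, h2⟩
      · exact Or.inl ⟨k, h2, h1⟩
      · right
        refine ⟨k, b, ?_⟩
        rcases k with (l | t) | _
        · cases b
          · exact m1 _ _ _ _ h2
          · exact Lsym l _ _ h2
        · exact m1 _ _ _ _ h2
        · exact a1 _ _ _ h2
    rintro u - v - (huv | huv | huv)
    · rcases m5 u trivial v trivial huv with ⟨k | k, hk⟩ | ⟨k, b, hk⟩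
      · -- the old hole of a leaf
        right
        obtain ⟨b, hb⟩ := a6 k
        rcases hk with ⟨rfl, rfl⟩ | ⟨rfl, rfl⟩
        · exact ⟨Sum.inr (), b, hb⟩
        · exact ⟨Sum.inr (), b, a1 _ _ _ hb⟩
      · exact Or.inl ⟨Sum.inl (Sum.inr k), hk⟩
      · right
        rcases k with l | t
        · cases b
          · exact ⟨Sum.inl (Sum.inl l), false, hk⟩
          · obtain ⟨b, hb⟩ := a7 l
            by_cases hA : u = P l + 1 ∧ v = Q l + 1
            · rw [hA.1, hA.2]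
              exact ⟨Sum.inr (), b, hb⟩
            by_cases hB : u = Q l + 1 ∧ v = P l + 1
            · rw [hB.1, hB.2]
              exact ⟨Sum.inr (), b, a1 _ _ _ hb⟩
            exact ⟨Sum.inl (Sum.inl l), true, Or.inl ⟨hk, hA, hB⟩⟩
        · exact ⟨Sum.inl (Sum.inr t), b, hk⟩
    · rw [huv]
      rcases c1 u with ⟨k, h1, h2⟩ | h
      · exact Or.inl ⟨k, Or.inl ⟨h1, h2⟩⟩
      · exact Or.inr h
    · rw [huv]
      rcases c1' v with ⟨k, h1, h2⟩ | h
      · exact Or.inl ⟨k, Or.inr ⟨h1, h2⟩⟩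
      · exact Or.inr h

end Pool.Agent.P45
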