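import Pool.Agent.Lib.P45dba8.GlueTS
import Pool.Agent.Lib.P45dba8.Hub2

/-! # GLUE with markers -/

set_option autoImplicit false

namespace Pool.Agent.P45

theorem glue_TSM {V Θ : Type*} {g : ℕ} (ho : Odd g) (h3 : 3 ≤ g) (F : V ≃ V) (idx : V → ZMod g)
    (idxF : ∀ v, idx (F v) = idx v + 1) (E : V → V → Prop) (r : Θ → ZMod g)
    (e : Θ → Bool → ZMod g → V) (idxe : ∀ k b i, idx (e k b i) = i)
    (eF : ∀ k b i, Odd (i - r k).val → e k b (i + 1) = F (e k b i))
    (disj : ∀ k l i, k ≠ l → Odd (i - r k).val → Odd (i - r l).val →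
      ∀ b b', e k b i ≠ e l b' i)
    (M : ZMod g → Θ → Bool → V → V → Prop)
    (m1 : ∀ i k b u v, M i k b u v → M i k b v u)
    (m2 : ∀ i k b u v, M i k b u v → idx u = i ∧ idx v = i)
    (m3 : ∀ i k b u v v', M i k b u v → M i k b u v' → v = v')
    (m4 : ∀ i k b v, ¬ M i k b (e k b i) v)
    (m5 : ∀ i, ∀ u, idx u = i → ∀ v, idx v = i → E u v →
      (∃ k, (u = e k false i ∧ v = e k true i) ∨ (u = e k true i ∧ v = e k false i)) ∨
        ∃ k b, M i k b u v)
    (s : Θ) (w : V) (idxw : idx w = -1)
    (hs1 : r s ≠ -1 → e s false (-1) = w) (hs0 : r s ≠ 0 → e s false 0 = F w)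
    (hs : ∀ l b, l ≠ s → Odd (-1 - r l).val → e l b (-1) ≠ w) :
    TSM Set.univ (fun u v => (idx u = idx v ∧ E u v) ∨ v = F u ∨ u = F v)
      (fun (k : Option Θ) b => k.elim (bif b then F w else w) (fun k => e k b (r k)))
      (fun k u v => ∃ k', k = some k' ∧ k' ≠ s ∧ M (idx u) k' true u v) := by
  classical
  have h00 : ¬ Odd (0 : ZMod g).val := by
    rw [ZMod.val_zero]; simp
  -- the glue data
  let G : GD V Θ g :=
    { F := F, idx := idx, act := fun k i => Odd (i - r k).val, e := e,
      M0 := fun k b u v => M (idx u) k b u v, s := s, w := w, rf := True }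
  have hact1 : ∀ k, ¬ G.act k (r k) := by
    intro k h
    have h' : Odd (r k - r k).val := h
    rw [sub_self] at h'
    exact h00 h'
  have hact2 : ∀ k, ¬ G.act k (r k - 1) := by
    intro k h
    have h' : Odd (r k - 1 - r k).val := h
    have : r k - 1 - r k = -1 := by ring
    rw [this] at h'
    exact not_odd_neg_one ho h3 h'
  have H : G.Ok :=
    { odd := ho
      three := h3
      idxF := idxF
      idxe := idxe
      eF := eF
      act1 := by
        intro k i h h'
        have h1 : Odd (i - r k).val := h
        have h2 : Odd (i + 1 - r k).val := h'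
        have : i + 1 - r k = i - r k + 1 := by ring
        rw [this] at h2
        exact not_odd_succ ho h3 h1 h2
      disj := disj
      sym := by
        intro k b u v h
        have h1 : M (idx u) k b u v := h
        have h2 : idx v = idx u := (m2 _ _ _ _ _ h1).2
        show M (idx v) k b v u
        rw [h2]
        exact m1 _ _ _ _ _ h1
      func := by
        intro k b u v v' h h'
        exact m3 _ _ _ _ _ _ h h'
      inn := by
        intro k b u v h
        exact ((m2 _ _ _ _ _ h).2).symm
      miss := by
        intro k b i v h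
        have h1 : M (idx (e k b i)) k b (e k b i) v := h
        rw [idxe] at h1
        exact m4 _ _ _ _ h1
      idxw := idxw
      special := by
        left
        refine ⟨trivial, ?_, ?_, ?_, hs⟩
        · intro h
          apply hs1
          intro hr
          have h' : Odd (-2 - r s).val := h
          rw [hr] at h'
          have : (-2 : ZMod g) - -1 = -1 := by ring
          rw [this] at h'
          exact not_odd_neg_one ho h3 h'
        · intro h
          apply hs0
          intro hr
          have h' : Odd (0 - r s).val := h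
          rw [hr, sub_zero] at h'
          exact h00 h'
        · intro h
          apply hs1
          intro hr
          have h' : Odd (-1 - r s).val := h
          rw [hr, sub_self] at h'
          exact h00 h' }
  -- the classes: the special thread and `none` share `rho`, `sgm`, `spc`
  have hG : ∃ A B C : V → V → Prop,
      ((∀ u v, A u v → A v u) ∧ (∀ u v v', A u v → A u v' → v = v') ∧
        ∀ v, ¬ A (e s false (r s)) v) ∧
      ((∀ u v, B u v → B v u) ∧ (∀ u v v', B u v → B u v' → v = v') ∧ ∀ v, ¬ B w v) ∧
      ((∀ u v, C u v → C v u) ∧ (∀ u v v', C u v → C u v' → v = v') ∧ ∀ v, ¬ C (F w) v) ∧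
      ∀ u v, G.rho u v ∨ G.sgm u v ∨ G.spc u v → A u v ∨ B u v ∨ C u v := by
    by_cases h1 : r s = -1
    · refine ⟨G.rho, G.spc, G.sgm, ⟨fun u v => H.rho_symm, fun u v v' => H.rho_fun, ?_⟩,
        ⟨fun u v => H.spc_symm, fun u v v' => H.spc_fun, ?_⟩,
        ⟨fun u v => H.sgm_symm, fun u v v' => H.sgm_fun, ?_⟩, ?_⟩
      · intro v
        rw [h1]
        exact H.rho_miss v
      · apply H.spc_miss_w trivial
        · intro h
          have h' : Odd (-2 - r s).val := h
          rw [h1] at h'
          have : (-2 : ZMod g) - -1 = -1 := by ring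
          rw [this] at h'
          exact not_odd_neg_one ho h3 h'
        · intro h
          have h' : Odd (-1 - r s).val := h
          rw [h1, sub_self] at h'
          exact h00 h'
        · exact hs
      · intro v
        rw [← hs0 (by rw [h1]; exact fun h => H.zero_ne h.symm)]
        exact H.sgm_miss v
      · intro u v h
        rcases h with h | h | h
        · exact Or.inl h
        · exact Or.inr (Or.inr h)
        · exact Or.inr (Or.inl h)
    by_cases h0 : r s = 0
    · refine ⟨G.sgm, G.rho, G.spc, ⟨fun u v => H.sgm_symm, fun u v v' => H.sgm_fun, ?_⟩,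
        ⟨fun u v => H.rho_symm, fun u v v' => H.rho_fun, ?_⟩,
        ⟨fun u v => H.spc_symm, fun u v v' => H.spc_fun, ?_⟩, ?_⟩
      · intro v
        rw [h0]
        exact H.sgm_miss v
      · intro v
        rw [← hs1 h1]
        exact H.rho_miss v
      · apply H.spc_miss_Fw trivial
        · intro h
          have h' : Odd (0 - r s).val := h
          rw [h0, sub_zero] at h'
          exact h00 h'
        · intro h
          have h' : Odd (-1 - r s).val := h
          rw [h0, sub_zero] at h'
          exact not_odd_neg_one ho h3 h'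
        · exact hs
      · intro u v h
        rcases h with h | h | h
        · exact Or.inr (Or.inl h)
        · exact Or.inl h
        · exact Or.inr (Or.inr h)
    · refine ⟨G.spc, G.rho, G.sgm, ⟨fun u v => H.spc_symm, fun u v v' => H.spc_fun, ?_⟩,
        ⟨fun u v => H.rho_symm, fun u v v' => H.rho_fun, ?_⟩,
        ⟨fun u v => H.sgm_symm, fun u v v' => H.sgm_fun, ?_⟩, ?_⟩
      · exact H.spc_miss h1 h0 (hact1 s) (hact2 s)
      · intro v
        rw [← hs1 h1]
        exact H.rho_miss v
      · intro v
        rw [← hs0 h0]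
        exact H.sgm_miss v
      · intro u v h
        rcases h with h | h | h
        · exact Or.inr (Or.inl h)
        · exact Or.inr (Or.inr h)
        · exact Or.inl h
  obtain ⟨A, B, C, ⟨a1, a2, a3⟩, ⟨b1, b2, b3⟩, ⟨c1, c2, c3⟩, hABC⟩ := hG
  let N : Option Θ → Bool → V → V → Prop := fun k b =>
    k.elim (bif b then C else B) (fun k => if k = s ∧ b = false then A else G.nrm k b)
  have hN1 : ∀ k b, ¬ (k = s ∧ b = false) → N (some k) b = G.nrm k b := by
    intro k b h
    show (if k = s ∧ b = false then A else G.nrm k b) = _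
    rw [if_neg h]
  have hN2 : N (some s) false = A := by
    show (if s = s ∧ false = false then A else G.nrm s false) = _
    rw [if_pos ⟨rfl, rfl⟩]
  have hcov : ∀ u v, A u v ∨ B u v ∨ C u v → ∃ k b, N k b u v := by
    rintro u v (h | h | h)
    · exact ⟨some s, false, by rw [hN2]; exact h⟩
    · exact ⟨none, false, h⟩
    · exact ⟨none, true, h⟩
  refine ⟨N, ?_, fun _ _ _ _ _ => ⟨trivial, trivial⟩, ?_, ?_, ?_, ?_⟩
  · rintro (_ | k) b u v h
    · cases b
      · exact b1 _ _ h
      · exact c1 _ _ h
    · by_cases hk : k = s ∧ b = false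
      · obtain ⟨rfl, rfl⟩ := hk
        rw [hN2] at h ⊢
        exact a1 _ _ h
      · rw [hN1 k b hk] at h ⊢
        exact H.nrm_symm h
  · rintro (_ | k) b u v v' h h'
    · cases b
      · exact b2 _ _ _ h h'
      · exact c2 _ _ _ h h'
    · by_cases hk : k = s ∧ b = false
      · obtain ⟨rfl, rfl⟩ := hk
        rw [hN2] at h h'
        exact a2 _ _ _ h h'
      · rw [hN1 k b hk] at h h'
        exact H.nrm_fun h h'
  · rintro (_ | k) b v h
    · cases b
      · exact b3 v h
      · exact c3 v h
    · by_cases hk : k = s ∧ b = false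
      · obtain ⟨rfl, rfl⟩ := hk
        rw [hN2] at h
        exact a3 v h
      · rw [hN1 k b hk] at h
        exact H.nrm_miss (hact1 k) (hact2 k) v h
  · have hF : ∀ v, (∃ k : Option Θ,
        (v = k.elim (bif false then F w else w) (fun k => e k false (r k)) ∧
          F v = k.elim (bif true then F w else w) (fun k => e k true (r k)))) ∨
        ∃ k b, N k b v (F v) := by
      intro v
      rcases H.cov_F v with h | ⟨k, b, h1, h⟩ | h
      · left
        refine ⟨none, h.2, ?_⟩
        rw [h.2]
        rfl
      · right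
        exact ⟨some k, b, by rw [hN1 k b h1]; exact h⟩
      · right
        exact hcov _ _ (hABC _ _ h)
    have hsymN : ∀ u v, (∃ k b, N k b u v) → ∃ k b, N k b v u := by
      rintro u v ⟨k, b, h⟩
      refine ⟨k, b, ?_⟩
      rcases k with _ | k
      · cases b
        · exact b1 _ _ h
        · exact c1 _ _ h
      · by_cases hk : k = s ∧ b = false
        · obtain ⟨rfl, rfl⟩ := hk
          rw [hN2] at h ⊢
          exact a1 _ _ h
        · rw [hN1 k b hk] at h ⊢
          exact H.nrm_symm h
    rintro u - v - (⟨hi, huv⟩ | huv | huv)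
    · rcases m5 (idx u) u rfl v hi.symm huv with ⟨k, hk⟩ | ⟨k, b, hk⟩
      · by_cases hr : idx u = r k
        · left
          refine ⟨some k, ?_⟩
          rw [hr] at hk
          exact hk
        · right
          have hne : idx u - r k ≠ 0 := fun h => hr (sub_eq_zero.1 h)
          have hact : G.act k (idx u) ∨ G.act k (idx u - 1) := by
            rcases odd_or_pred h3 hne with h | h
            · exact Or.inl h
            · right
              show Odd (idx u - 1 - r k).val
              have : idx u - 1 - r k = idx u - r k - 1 := by ring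
              rw [this]
              exact h
          rcases hk with ⟨h1, h2⟩ | ⟨h1, h2⟩
          · have := H.cov_hole false hact
            rw [Bool.not_false] at this
            apply hcov
            apply hABC
            have e1 : G.e k false (idx u) = u := h1.symm
            have e2 : G.e k true (idx u) = v := h2.symm
            rw [e1, e2] at this
            exact this
          · have := H.cov_hole true hact
            rw [Bool.not_true] at this
            apply hcov
            apply hABC
            have e1 : G.e k true (idx u) = u := h1.symm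
            have e2 : G.e k false (idx u) = v := h2.symm
            rw [e1, e2] at this
            exact this
      · right
        have hk' : G.M0 k b u v := hk
        rcases GD.cov_M0 hk' with ⟨h1, h⟩ | h
        · exact ⟨some k, b, by rw [hN1 k b h1]; exact h⟩
        · exact hcov _ _ (hABC _ _ h)
    · rw [huv]
      rcases hF u with ⟨k, hk⟩ | h
      · exact Or.inl ⟨k, Or.inl hk⟩
      · exact Or.inr h
    · rw [huv]
      rcases hF v with ⟨k, hk⟩ | h
      · exact Or.inl ⟨k, Or.inr ⟨hk.2, hk.1⟩⟩
      · exact Or.inr (hsymN _ _ h)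
  · rintro _ u v ⟨k, rfl, hk, hM⟩
    rw [hN1 k true (fun h => hk h.1)]
    exact Or.inl hM

/-- GLUE with leaves: every leaf `k` has an edge `gu k, gv k` of its own colours in another class
than its hole; this edge gets the colour `(k, true)`. -/
theorem glue_leaf {V Θ : Type*} {g : ℕ} (ho : Odd g) (h3 : 3 ≤ g) (F : V ≃ V) (idx : V → ZMod g)
    (idxF : ∀ v, idx (F v) = idx v + 1) (E : V → V → Prop) (r : Θ → ZMod g)
    (e : Θ → Bool → ZMod g → V) (idxe : ∀ k b i, idx (e k b i) = i)
    (eF : ∀ k b i, Odd (i - r k).val → e k b (i + 1) = F (e k b i))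
    (disj : ∀ k l i, k ≠ l → Odd (i - r k).val → Odd (i - r l).val →
      ∀ b b', e k b i ≠ e l b' i)
    (M : ZMod g → Θ → Bool → V → V → Prop)
    (m1 : ∀ i k b u v, M i k b u v → M i k b v u)
    (m2 : ∀ i k b u v, M i k b u v → idx u = i ∧ idx v = i)
    (m3 : ∀ i k b u v v', M i k b u v → M i k b u v' → v = v')
    (m4 : ∀ i k b v, ¬ M i k b (e k b i) v)
    (m5 : ∀ i, ∀ u, idx u = i → ∀ v, idx v = i → E u v →
      (∃ k, (u = e k false i ∧ v = e k true i) ∨ (u = e k true i ∧ v = e k false i)) ∨
        ∃ k b, M i k b u v)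
    (s : Θ) (w : V) (idxw : idx w = -1)
    (hs1 : r s ≠ -1 → e s false (-1) = w) (hs0 : r s ≠ 0 → e s false 0 = F w)
    (hs : ∀ l b, l ≠ s → Odd (-1 - r l).val → e l b (-1) ≠ w)
    (Lf : Θ → Prop) (hLs : ¬ Lf s) (gu gv : Θ → V) (hgr : ∀ k, Lf k → idx (gu k) ≠ r k)
    (hg : ∀ k, Lf k → ∃ b, M (idx (gu k)) k b (gu k) (gv k)) :
    TSM Set.univ (fun u v => (idx u = idx v ∧ E u v) ∨ v = F u ∨ u = F v)
      (fun (k : Option Θ) b => k.elim (bif b then F w else w) (fun k => e k b (r k)))
      (fun k u v => ∃ k', k = some k' ∧ Lf k' ∧ u = gu k' ∧ v = gv k') := by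
  classical
  have hβ : ∀ k, ∃ b : Bool, Lf k → M (idx (gu k)) k b (gu k) (gv k) := by
    intro k
    by_cases hk : Lf k
    · obtain ⟨b, hb⟩ := hg k hk
      exact ⟨b, fun _ => hb⟩
    · exact ⟨true, fun h => absurd h hk⟩
  choose β hβ using hβ
  -- the renaming of the ends
  let ν : Θ → ZMod g → Bool → Bool := fun k i b => if Lf k ∧ β k = false ∧ i ≠ r k then !b else b
  have ν_r : ∀ k b, ν k (r k) b = b := by
    intro k b
    show (if Lf k ∧ β k = false ∧ r k ≠ r k then !b else b) = b
    rw [if_neg]
    rintro ⟨-, -, h⟩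
    exact h rfl
  have ν_s : ∀ i b, ν s i b = b := by
    intro i b
    show (if Lf s ∧ β s = false ∧ i ≠ r s then !b else b) = b
    rw [if_neg]
    rintro ⟨h, -⟩
    exact hLs h
  have ν_or : ∀ k i, (∀ b, ν k i b = b) ∨ (∀ b, ν k i b = !b) := by
    intro k i
    by_cases h : Lf k ∧ β k = false ∧ i ≠ r k
    · exact Or.inr fun b => if_pos h
    · exact Or.inl fun b => if_neg h
  have ν_act : ∀ k i, Odd (i - r k).val → ∀ b, ν k (i + 1) b = ν k i b := by
    intro k i hi b
    have h1 : i ≠ r k := by
      rintro rfl
      rw [sub_self, ZMod.val_zero] at hi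
      exact (Nat.not_odd_iff_even.2 (by simp)) hi
    have h2 : i + 1 ≠ r k := by
      intro h
      rw [← h] at hi
      have : i - (i + 1) = -1 := by ring
      rw [this] at hi
      exact not_odd_neg_one ho h3 hi
    show (if Lf k ∧ β k = false ∧ i + 1 ≠ r k then !b else b) =
      (if Lf k ∧ β k = false ∧ i ≠ r k then !b else b)
    by_cases h : Lf k ∧ β k = false
    · rw [if_pos ⟨h.1, h.2, h2⟩, if_pos ⟨h.1, h.2, h1⟩]
    · rw [if_neg (fun h' => h ⟨h'.1, h'.2.1⟩), if_neg (fun h' => h ⟨h'.1, h'.2.1⟩)]
  have key := glue_TSM ho h3 F idx idxF E r (fun k b i => e k (ν k i b) i)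
    (fun k b i => idxe k _ i) ?_ ?_ (fun i k b => M i k (ν k i b)) (fun i k b => m1 i k _)
    (fun i k b => m2 i k _) (fun i k b => m3 i k _) (fun i k b => m4 i k _) ?_ s w idxw
    (fun h => by rw [ν_s]; exact hs1 h) (fun h => by rw [ν_s]; exact hs0 h)
    (fun l b hl ho' => hs l _ hl ho')
  · obtain ⟨N, n1, n2, n3, n4, n5, n6⟩ := key
    have e1 : ∀ k b, e k (ν k (r k) b) (r k) = e k b (r k) := fun k b => by rw [ν_r]
    refine ⟨N, n1, n2, n3, ?_, ?_, ?_⟩
    · rintro (_ | k) b v h
      · exact n4 none b v h
      · apply n4 (some k) b v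
        show N (some k) b (e k (ν k (r k) b) (r k)) v
        rw [e1]; exact h
    · intro u hu v hv huv
      rcases n5 u hu v hv huv with ⟨_ | k, hk⟩ | h
      · exact Or.inl ⟨none, hk⟩
      · left
        refine ⟨some k, ?_⟩
        have hk' : (u = e k (ν k (r k) false) (r k) ∧ v = e k (ν k (r k) true) (r k)) ∨
          (u = e k (ν k (r k) true) (r k) ∧ v = e k (ν k (r k) false) (r k)) := hk
        rw [e1, e1] at hk'
        exact hk'
      · exact Or.inr h
    · rintro _ u v ⟨k, rfl, hk, rfl, rfl⟩
      apply n6
      refine ⟨k, rfl, fun h => hLs (h ▸ hk), ?_⟩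
      have e2 : ν k (idx (gu k)) true = β k := by
        show (if Lf k ∧ β k = false ∧ idx (gu k) ≠ r k then !true else true) = β k
        by_cases hb : β k = false
        · rw [if_pos ⟨hk, hb, hgr k hk⟩, hb]; rfl
        · rw [if_neg (fun h => hb h.2.1)]
          revert hb
          cases β k
          · intro hb; exact absurd rfl hb
          · intro _; rfl
      show M (idx (gu k)) k (ν k (idx (gu k)) true) (gu k) (gv k)
      rw [e2]
      exact hβ k hk
  · intro k b i hi
    show e k (ν k (i + 1) b) (i + 1) = F (e k (ν k i b) i)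
    rw [ν_act k i hi]
    exact eF k _ i hi
  · intro k l i hkl hk hl b b'
    exact disj k l i hkl hk hl _ _
  · intro i u hu v hv huv
    rcases m5 i u hu v hv huv with ⟨k, hk⟩ | ⟨k, b, hk⟩
    · left
      refine ⟨k, ?_⟩
      show (u = e k (ν k i false) i ∧ v = e k (ν k i true) i) ∨
        (u = e k (ν k i true) i ∧ v = e k (ν k i false) i)
      rcases ν_or k i with h | h
      · rw [h, h]; exact hk
      · rw [h, h]; exact hk.symm
    · right
      rcases ν_or k i with h | h
      · exact ⟨k, b, by show M i k (ν k i b) u v; rw [h]; exact hk⟩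
      · exact ⟨k, !b, by show M i k (ν k i (!b)) u v; rw [h, Bool.not_not]; exact hk⟩

end Pool.Agent.P45
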