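import Pool.Agent.Lib.P45dba8.Glue
import Pool.Agent.Lib.P45dba8.TS

/-! # GLUE for the standard tilings: `act k i := Odd (i - r k).val` -/

set_option autoImplicit false

namespace Pool.Agent.P45

section parity

variable {g : ℕ}

theorem zval_neg_one (h3 : 3 ≤ g) : (-1 : ZMod g).val = g - 1 := by
  have : Fact (1 < g) := ⟨by omega⟩
  have : NeZero g := ⟨by omega⟩
  rw [ZMod.neg_val, if_neg one_ne_zero, ZMod.val_one]

theorem zval_succ (h3 : 3 ≤ g) {i : ZMod g} (h : i ≠ -1) : (i + 1).val = i.val + 1 := by
  have : NeZero g := ⟨by omega⟩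
  have : Fact (1 < g) := ⟨by omega⟩
  have h1 := i.val_lt
  have h2 : i.val ≠ g - 1 := by
    intro h'
    apply h
    rw [← zval_neg_one h3] at h'
    exact ZMod.val_injective g h'
  rw [ZMod.val_add_of_lt, ZMod.val_one]
  rw [ZMod.val_one]; omega

theorem not_odd_neg_one (ho : Odd g) (h3 : 3 ≤ g) : ¬ Odd (-1 : ZMod g).val := by
  rw [zval_neg_one h3, Nat.not_odd_iff_even]
  obtain ⟨a, ha⟩ := ho
  exact ⟨a, by omega⟩

theorem not_odd_succ (ho : Odd g) (h3 : 3 ≤ g) {x : ZMod g} (hx : Odd x.val) :
    ¬ Odd (x + 1).val := by
  have h : x ≠ -1 := by rintro rfl; exact not_odd_neg_one ho h3 hx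
  rw [zval_succ h3 h, Nat.odd_add_one, not_not]
  exact hx

theorem odd_or_pred (h3 : 3 ≤ g) {x : ZMod g} (hx : x ≠ 0) : Odd x.val ∨ Odd (x - 1).val := by
  have h : x - 1 ≠ -1 := by
    intro h
    apply hx
    linear_combination h
  have h1 := zval_succ h3 h
  rw [sub_add_cancel] at h1
  rw [h1, Nat.odd_add_one]
  exact (em (Odd (x - 1).val)).symm

end parity

theorem glue_TS {V Θ : Type*} {g : ℕ} (ho : Odd g) (h3 : 3 ≤ g) (F : V ≃ V) (idx : V → ZMod g)
    (idxF : ∀ v, idx (F v) = idx v + 1) (E : V → V → Prop) (r : Θ → ZMod g)
    (e : Θ → Bool → ZMod g → V) (idxe : ∀ k b i, idx (e k b i) = i)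
    (eF : ∀ k b i, Odd (i - r k).val → e k b (i + 1) = F (e k b i))
    (disj : ∀ k l i, k ≠ l → Odd (i - r k).val → Odd (i - r l).val →
      ∀ b b', e k b i ≠ e l b' i)
    (hTS : ∀ i, TS {v | idx v = i} E (fun k b => e k b i))
    (s : Θ) (w : V) (idxw : idx w = -1)
    (hs1 : r s ≠ -1 → e s false (-1) = w) (hs0 : r s ≠ 0 → e s false 0 = F w)
    (hs : ∀ l b, l ≠ s → Odd (-1 - r l).val → e l b (-1) ≠ w) :
    TS Set.univ (fun u v => (idx u = idx v ∧ E u v) ∨ v = F u ∨ u = F v)
      (fun (k : Option Θ) b => k.elim (bif b then F w else w) (fun k => e k b (r k))) := by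
  classical
  choose M m1 m2 m3 m4 m5 using hTS
  have h00 : ¬ Odd (0 : ZMod g).val := by
    rw [ZMod.val_zero]; simp
  -- the glue data
  let G : GD V Θ g :=
    { F := F, idx := idx, act := fun k i => Odd (i - r k).val, e := e,
      M0 := fun k b u v => M (idx u) k b u v, s := s, w := w, rf := True }
  have hact1 : ∀ k, ¬ G.act k (r k) := by
    intro k h
    have h' : Odd (r k - r k).val := h
    rw [sub_self] at h'
    exact h00 h'
  have hact2 : ∀ k, ¬ G.act k (r k - 1) := by
    intro k h
    have h' : Odd (r k - 1 - r k).val := h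
    have : r k - 1 - r k = -1 := by ring
    rw [this] at h'
    exact not_odd_neg_one ho h3 h'
  have H : G.Ok :=
    { odd := ho
      three := h3
      idxF := idxF
      idxe := idxe
      eF := eF
      act1 := by
        intro k i h h'
        have h1 : Odd (i - r k).val := h
        have h2 : Odd (i + 1 - r k).val := h'
        have : i + 1 - r k = i - r k + 1 := by ring
        rw [this] at h2
        exact not_odd_succ ho h3 h1 h2
      disj := disj
      sym := by
        intro k b u v h
        have h1 : M (idx u) k b u v := h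
        have h2 : idx v = idx u := (m2 _ _ _ _ _ h1).2
        show M (idx v) k b v u
        rw [h2]
        exact m1 _ _ _ _ _ h1
      func := by
        intro k b u v v' h h'
        exact m3 _ _ _ _ _ _ h h'
      inn := by
        intro k b u v h
        exact ((m2 _ _ _ _ _ h).2).symm
      miss := by
        intro k b i v h
        have h1 : M (idx (e k b i)) k b (e k b i) v := h
        rw [idxe] at h1
        exact m4 _ _ _ _ h1
      idxw := idxw
      special := by
        left
        refine ⟨trivial, ?_, ?_, ?_, hs⟩
        · intro h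
          apply hs1
          intro hr
          have h' : Odd (-2 - r s).val := h
          rw [hr] at h'
          have : (-2 : ZMod g) - -1 = -1 := by ring
          rw [this] at h'
          exact not_odd_neg_one ho h3 h'
        · intro h
          apply hs0
          intro hr
          have h' : Odd (0 - r s).val := h
          rw [hr, sub_zero] at h'
          exact h00 h'
        · intro h
          apply hs1
          intro hr
          have h' : Odd (-1 - r s).val := h
          rw [hr, sub_self] at h'
          exact h00 h' }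
  -- the classes: the special thread and `none` share `rho`, `sgm`, `spc`
  have hG : ∃ A B C : V → V → Prop,
      ((∀ u v, A u v → A v u) ∧ (∀ u v v', A u v → A u v' → v = v') ∧
        ∀ v, ¬ A (e s false (r s)) v) ∧
      ((∀ u v, B u v → B v u) ∧ (∀ u v v', B u v → B u v' → v = v') ∧ ∀ v, ¬ B w v) ∧
      ((∀ u v, C u v → C v u) ∧ (∀ u v v', C u v → C u v' → v = v') ∧ ∀ v, ¬ C (F w) v) ∧
      ∀ u v, G.rho u v ∨ G.sgm u v ∨ G.spc u v → A u v ∨ B u v ∨ C u v := by
    by_cases h1 : r s = -1
    · refine ⟨G.rho, G.spc, G.sgm, ⟨fun u v => H.rho_symm, fun u v v' => H.rho_fun, ?_⟩,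
        ⟨fun u v => H.spc_symm, fun u v v' => H.spc_fun, ?_⟩,
        ⟨fun u v => H.sgm_symm, fun u v v' => H.sgm_fun, ?_⟩, ?_⟩
      · intro v
        rw [h1]
        exact H.rho_miss v
      · apply H.spc_miss_w trivial
        · intro h
          have h' : Odd (-2 - r s).val := h
          rw [h1] at h'
          have : (-2 : ZMod g) - -1 = -1 := by ring
          rw [this] at h'
          exact not_odd_neg_one ho h3 h'
        · intro h
          have h' : Odd (-1 - r s).val := h
          rw [h1, sub_self] at h'
          exact h00 h'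
        · exact hs
      · intro v
        rw [← hs0 (by rw [h1]; exact fun h => H.zero_ne h.symm)]
        exact H.sgm_miss v
      · intro u v h
        rcases h with h | h | h
        · exact Or.inl h
        · exact Or.inr (Or.inr h)
        · exact Or.inr (Or.inl h)
    by_cases h0 : r s = 0
    · refine ⟨G.sgm, G.rho, G.spc, ⟨fun u v => H.sgm_symm, fun u v v' => H.sgm_fun, ?_⟩,
        ⟨fun u v => H.rho_symm, fun u v v' => H.rho_fun, ?_⟩,
        ⟨fun u v => H.spc_symm, fun u v v' => H.spc_fun, ?_⟩, ?_⟩
      · intro v
        rw [h0]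
        exact H.sgm_miss v
      · intro v
        rw [← hs1 h1]
        exact H.rho_miss v
      · apply H.spc_miss_Fw trivial
        · intro h
          have h' : Odd (0 - r s).val := h
          rw [h0, sub_zero] at h'
          exact h00 h'
        · intro h
          have h' : Odd (-1 - r s).val := h
          rw [h0, sub_zero] at h'
          exact not_odd_neg_one ho h3 h'
        · exact hs
      · intro u v h
        rcases h with h | h | h
        · exact Or.inr (Or.inl h)
        · exact Or.inl h
        · exact Or.inr (Or.inr h)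
    · refine ⟨G.spc, G.rho, G.sgm, ⟨fun u v => H.spc_symm, fun u v v' => H.spc_fun, ?_⟩,
        ⟨fun u v => H.rho_symm, fun u v v' => H.rho_fun, ?_⟩,
        ⟨fun u v => H.sgm_symm, fun u v v' => H.sgm_fun, ?_⟩, ?_⟩
      · exact H.spc_miss h1 h0 (hact1 s) (hact2 s)
      · intro v
        rw [← hs1 h1]
        exact H.rho_miss v
      · intro v
        rw [← hs0 h0]
        exact H.sgm_miss v
      · intro u v h
        rcases h with h | h | h
        · exact Or.inr (Or.inl h)
        · exact Or.inr (Or.inr h)
        · exact Or.inl h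
  obtain ⟨A, B, C, ⟨a1, a2, a3⟩, ⟨b1, b2, b3⟩, ⟨c1, c2, c3⟩, hABC⟩ := hG
  let N : Option Θ → Bool → V → V → Prop := fun k b =>
    k.elim (bif b then C else B) (fun k => if k = s ∧ b = false then A else G.nrm k b)
  have hN1 : ∀ k b, ¬ (k = s ∧ b = false) → N (some k) b = G.nrm k b := by
    intro k b h
    show (if k = s ∧ b = false then A else G.nrm k b) = _
    rw [if_neg h]
  have hN2 : N (some s) false = A := by
    show (if s = s ∧ false = false then A else G.nrm s false) = _
    rw [if_pos ⟨rfl, rfl⟩]
  have hcov : ∀ u v, A u v ∨ B u v ∨ C u v → ∃ k b, N k b u v := by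
    rintro u v (h | h | h)
    · exact ⟨some s, false, by rw [hN2]; exact h⟩
    · exact ⟨none, false, h⟩
    · exact ⟨none, true, h⟩
  refine ⟨N, ?_, fun _ _ _ _ _ => ⟨trivial, trivial⟩, ?_, ?_, ?_⟩
  · rintro (_ | k) b u v h
    · cases b
      · exact b1 _ _ h
      · exact c1 _ _ h
    · by_cases hk : k = s ∧ b = false
      · obtain ⟨rfl, rfl⟩ := hk
        rw [hN2] at h ⊢
        exact a1 _ _ h
      · rw [hN1 k b hk] at h ⊢
        exact H.nrm_symm h
  · rintro (_ | k) b u v v' h h'
    · cases b
      · exact b2 _ _ _ h h'
      · exact c2 _ _ _ h h'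
    · by_cases hk : k = s ∧ b = false
      · obtain ⟨rfl, rfl⟩ := hk
        rw [hN2] at h h'
        exact a2 _ _ _ h h'
      · rw [hN1 k b hk] at h h'
        exact H.nrm_fun h h'
  · rintro (_ | k) b v h
    · cases b
      · exact b3 v h
      · exact c3 v h
    · by_cases hk : k = s ∧ b = false
      · obtain ⟨rfl, rfl⟩ := hk
        rw [hN2] at h
        exact a3 v h
      · rw [hN1 k b hk] at h
        exact H.nrm_miss (hact1 k) (hact2 k) v h
  · have hF : ∀ v, (∃ k : Option Θ,
        (v = k.elim (bif false then F w else w) (fun k => e k false (r k)) ∧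
          F v = k.elim (bif true then F w else w) (fun k => e k true (r k)))) ∨
        ∃ k b, N k b v (F v) := by
      intro v
      rcases H.cov_F v with h | ⟨k, b, h1, h⟩ | h
      · left
        refine ⟨none, h.2, ?_⟩
        rw [h.2]
        rfl
      · right
        exact ⟨some k, b, by rw [hN1 k b h1]; exact h⟩
      · right
        exact hcov _ _ (hABC _ _ h)
    have hsymN : ∀ u v, (∃ k b, N k b u v) → ∃ k b, N k b v u := by
      rintro u v ⟨k, b, h⟩
      refine ⟨k, b, ?_⟩
      rcases k with _ | k
      · cases b
        · exact b1 _ _ h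
        · exact c1 _ _ h
      · by_cases hk : k = s ∧ b = false
        · obtain ⟨rfl, rfl⟩ := hk
          rw [hN2] at h ⊢
          exact a1 _ _ h
        · rw [hN1 k b hk] at h ⊢
          exact H.nrm_symm h
    rintro u - v - (⟨hi, huv⟩ | huv | huv)
    · rcases m5 (idx u) u rfl v hi.symm huv with ⟨k, hk⟩ | ⟨k, b, hk⟩
      · by_cases hr : idx u = r k
        · left
          refine ⟨some k, ?_⟩
          rw [hr] at hk
          exact hk
        · right
          have hne : idx u - r k ≠ 0 := fun h => hr (sub_eq_zero.1 h)
          have hact : G.act k (idx u) ∨ G.act k (idx u - 1) := by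
            rcases odd_or_pred h3 hne with h | h
            · exact Or.inl h
            · right
              show Odd (idx u - 1 - r k).val
              have : idx u - 1 - r k = idx u - r k - 1 := by ring
              rw [this]
              exact h
          rcases hk with ⟨h1, h2⟩ | ⟨h1, h2⟩
          · have := H.cov_hole false hact
            rw [Bool.not_false] at this
            apply hcov
            apply hABC
            have e1 : G.e k false (idx u) = u := h1.symm
            have e2 : G.e k true (idx u) = v := h2.symm
            rw [e1, e2] at this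
            exact this
          · have := H.cov_hole true hact
            rw [Bool.not_true] at this
            apply hcov
            apply hABC
            have e1 : G.e k true (idx u) = u := h1.symm
            have e2 : G.e k false (idx u) = v := h2.symm
            rw [e1, e2] at this
            exact this
      · right
        have hk' : G.M0 k b u v := hk
        rcases GD.cov_M0 hk' with ⟨h1, h⟩ | h
        · exact ⟨some k, b, by rw [hN1 k b h1]; exact h⟩
        · exact hcov _ _ (hABC _ _ h)
    · rw [huv]
      rcases hF u with ⟨k, hk⟩ | h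
      · exact Or.inl ⟨k, Or.inl hk⟩
      · exact Or.inr h
    · rw [huv]
      rcases hF v with ⟨k, hk⟩ | h
      · exact Or.inl ⟨k, Or.inr ⟨hk.2, hk.1⟩⟩
      · exact Or.inr (hsymN _ _ h)

end Pool.Agent.P45
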