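import Pool.Agent.Lib.P45dba8.HostCore

/-! # Good families in coordinates and blocks along a cyclic order -/

set_option autoImplicit false

namespace Pool.Agent.P45

/-- HOST in coordinates. -/
theorem Good.core {m h : ℕ} (hm : Odd m) (hh : Odd h) (h3 : 3 ≤ h) {ι κ : Type*}
    [Nonempty (ι ⊕ κ × Bool)] {Q : ZMod m → Prop} (hQ : ∀ x, IsUnit x → Q x)
    {t : ι → ZMod m} {d u : κ → ZMod m} (hG : Good m Q t d u)
    (hD : Dist t d u) (C : ZMod m) (r : ι ⊕ κ × Bool → ZMod h) (x A : ι ⊕ κ × Bool → ZMod m)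
    (hA : ∀ i, A (Sum.inl i) = t i)
    (hP : ∀ k, (A (Sum.inr (k, false)) = d k ∧ A (Sum.inr (k, true)) = u k) ∨
      (A (Sum.inr (k, false)) = u k ∧ A (Sum.inr (k, true)) = d k) ∨
      (((A (Sum.inr (k, false)) = d k ∧ A (Sum.inr (k, true)) = d k) ∨
        (A (Sum.inr (k, false)) = u k ∧ A (Sum.inr (k, true)) = u k)) ∧
        r (Sum.inr (k, false)) ≠ r (Sum.inr (k, true)))) :
    TS (Set.univ : Set (ZMod h × ZMod m)) (fun u' v => (u'.1 = v.1 ∧ DE (FD t d u) u'.2 v.2) ∨
        v = stp C u' ∨ u' = stp C v)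
      (fun (k : Option (ι ⊕ κ × Bool)) b =>
        k.elim (bif b then ((0 : ZMod h), (0 : ZMod m)) else (-1, -C))
        (fun k => (r k, x k + (bif b then A k else 0)))) := by
  classical
  have hNZ : NeZero h := ⟨by omega⟩
  -- data of the pairs
  have hpair : ∀ k : κ, ∃ (T : Bool → ZMod h → ZMod m) (brk : Bool → Bool → ZMod h → Prop),
      T false (r (Sum.inr (k, false))) = A (Sum.inr (k, false)) ∧
      T true (r (Sum.inr (k, true))) = A (Sum.inr (k, true)) ∧
      (∀ b i, Odd (i - r (Sum.inr (k, b))).val → T b (i + 1) = T b i) ∧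
      (∀ i, Odd (i - r (Sum.inr (k, false))).val → Odd (i - r (Sum.inr (k, true))).val →
        T false i ≠ T true i ∧ T false i ≠ -T true i) ∧
      (∀ b b' i, brk b b' i → Odd (i - r (Sum.inr (k, b))).val ∧
        Odd (i - 1 - r (Sum.inr (k, b'))).val ∧ T b i = T b' i) ∧
      (¬ Odd (r (Sum.inr (k, false))).val → ¬ Odd (r (Sum.inr (k, true))).val →
        ∀ b b' i, brk b b' i → i ≠ 0 ∧ i ≠ -1) ∧
      (∀ b i, T b i = d k ∨ T b i = u k) ∧
      (∀ i, (T false i = d k ∧ T true i = u k) ∨ (T false i = u k ∧ T true i = d k) ∨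
        (((T false i = d k ∧ T true i = d k) ∨ (T false i = u k ∧ T true i = u k)) ∧
          (brk false true i ∨ brk true false i))) := by
    intro k
    have hdu := hD (Sum.inr (k, false)) (Sum.inr (k, true)) (by simp)
    have e1 : tyy t d u (Sum.inr (k, false)) = d k := rfl
    have e2 : tyy t d u (Sum.inr (k, true)) = u k := rfl
    rw [e1, e2] at hdu
    exact pair_types hh h3 (d k) (u k) hdu.1 hdu.2 _ _ (fun b => r (Sum.inr (k, b))) (hP k)
  choose T brk g1 g2 g3 g4 g5 g6 g7 g8 using hpair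
  let TT : ι ⊕ κ × Bool → ZMod h → ZMod m := fun θ i =>
    Sum.elim t (fun k : κ × Bool => T k.1 k.2 i) θ
  let BR : ι ⊕ κ × Bool → ι ⊕ κ × Bool → ZMod h → Prop := fun θ θ' i =>
    ∃ k b b', θ = Sum.inr (k, b) ∧ θ' = Sum.inr (k, b') ∧ brk k b b' i
  have key := host_core m h hm hh h3 C (FD t d u) TT r x BR ?_ ?_ ?_ ?_ ?_
  · -- conclusion
    refine key.congr ?_
    rintro (_ | (i | ⟨k, b'⟩)) b
    · rfl
    · show (r (Sum.inl i), x (Sum.inl i) + (bif b then A (Sum.inl i) else 0)) =
        (r (Sum.inl i), x (Sum.inl i) + (bif b then t i else 0))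
      rw [hA]
    · show (r (Sum.inr (k, b')), x (Sum.inr (k, b')) + (bif b then A (Sum.inr (k, b')) else 0)) =
        (r (Sum.inr (k, b')), x (Sum.inr (k, b')) +
          (bif b then T k b' (r (Sum.inr (k, b'))) else 0))
      cases b'
      · rw [g1 k]
      · rw [g2 k]
  · -- constant on active pairs
    rintro (i | ⟨k, b⟩) j hj
    · rfl
    · exact g3 k b j hj
  · -- different types on a level
    rintro (i | ⟨k, b⟩) (i' | ⟨k', b'⟩) j hne hj hj'
    · exact hD (Sum.inl i) (Sum.inl i') hne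
    · have e : ∀ z, z = d k' ∨ z = u k' → t i ≠ z ∧ t i ≠ -z := by
        rintro z (rfl | rfl)
        · exact hD (Sum.inl i) (Sum.inr (k', false)) (by simp)
        · exact hD (Sum.inl i) (Sum.inr (k', true)) (by simp)
      exact e _ (g7 k' b' j)
    · have e : ∀ z, z = d k ∨ z = u k → z ≠ t i' ∧ z ≠ -t i' := by
        rintro z (rfl | rfl)
        · exact hD (Sum.inr (k, false)) (Sum.inl i') (by simp)
        · exact hD (Sum.inr (k, true)) (Sum.inl i') (by simp)
      exact e _ (g7 k b j)
    · by_cases hk : k = k'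
      · subst hk
        have hb : b ≠ b' := by rintro rfl; exact hne rfl
        cases b <;> cases b'
        · exact absurd rfl hb
        · exact g4 k j hj hj'
        · obtain ⟨q1, q2⟩ := g4 k j hj' hj
          refine ⟨fun h' => q1 h'.symm, fun h' => q2 ?_⟩
          have h'' : T k true j = -T k false j := h'
          rw [h'', neg_neg]
        · exact absurd rfl hb
      · have e : ∀ z z', (z = d k ∨ z = u k) → (z' = d k' ∨ z' = u k') → z ≠ z' ∧ z ≠ -z' := by
          rintro z z' (rfl | rfl) (rfl | rfl)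
          · exact hD (Sum.inr (k, false)) (Sum.inr (k', false)) (by simp [hk])
          · exact hD (Sum.inr (k, false)) (Sum.inr (k', true)) (by simp)
          · exact hD (Sum.inr (k, true)) (Sum.inr (k', false)) (by simp)
          · exact hD (Sum.inr (k, true)) (Sum.inr (k', true)) (by simp [hk])
        exact e _ _ (g7 k b j) (g7 k' b' j)
  · -- breaks
    rintro θ θ' i ⟨k, b, b', rfl, rfl, hb⟩
    exact g5 k b b' i hb
  · rintro hE θ θ' i ⟨k, b, b', rfl, rfl, hb⟩
    exact g6 k (hE _) (hE _) b b' i hb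
  · -- the systems of the classes
    intro i X hX
    apply hG (fun θ => X θ) (fun θ => TT θ i)
    · intro j; rfl
    · intro k
      rcases g8 k i with h1 | h1 | ⟨h1, h2⟩
      · exact Or.inl h1
      · exact Or.inr (Or.inl h1)
      · refine Or.inr (Or.inr ⟨h1, ?_⟩)
        rcases h2 with h2 | h2
        · have := hX _ _ ⟨k, false, true, rfl, rfl, h2⟩
          have e : X (Sum.inr (k, true)) - X (Sum.inr (k, false)) =
              -(X (Sum.inr (k, false)) - X (Sum.inr (k, true))) := by ring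
          rw [e]
          exact hQ _ this.neg
        · exact hQ _ (hX _ _ ⟨k, true, false, rfl, rfl, h2⟩)

end Pool.Agent.P45
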