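import Pool.Agent.Lib.P45dba8.Hub4
import Pool.Agent.Lib.P45dba8.Cyc

/-! # MP_45dba8, hub: a unit leaf -/

set_option autoImplicit false

namespace Pool.Agent.P45

/-- The cycle of a unit `t` with the exchanged square at `P`: hole `{P, P+1}`. -/
theorem leaf_unit {n : ℕ} (hn : Odd n) (h3 : 3 ≤ n) (b P : ZMod n) (hb : IsUnit b) (hb1 : b ≠ 1)
    (hbm : b ≠ -1) :
    TS Set.univ (LeafE (fun _ : Unit => P) (fun _ : Unit => P + b) (DE (fun x => x = b)))
      (fun (_ : Unit) c => bif c then P + 1 else P) := by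
  have hNZ : NeZero n := ⟨by omega⟩
  have hF1 : Fact (1 < n) := ⟨by omega⟩
  obtain ⟨c, hc⟩ := hb.exists_right_inv
  have hb0 : b ≠ 0 := by
    intro h; rw [h, zero_mul] at hc; exact zero_ne_one hc
  have hc0 : c ≠ 0 := by
    intro h; rw [h, mul_zero] at hc; exact zero_ne_one hc
  have hc1 : c ≠ 1 := by
    intro h; rw [h, mul_one] at hc; exact hb1 hc
  have hcm : c ≠ -1 := by
    intro h; rw [h] at hc; exact hbm (by linear_combination -hc)
  obtain ⟨r3, r4⟩ := val_range' h3 hc0 hc1 hcm
  set γ := c.val with hγ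
  have cγ : (γ : ZMod n) = c := ZMod.natCast_zmod_val c
  have hvne : ∀ u w : ZMod n, u ≠ w → u.val ≠ w.val := fun u w h h' => h (ZMod.val_injective n h')
  let mb : ZMod n ≃ ZMod n :=
    { toFun := fun k => P + b * k
      invFun := fun v => c * (v - P)
      left_inv := fun k => by
        show c * (P + b * k - P) = k
        linear_combination k * hc
      right_inv := fun v => by
        show P + b * (c * (v - P)) = v
        linear_combination (v - P) * hc }
  let π2 : ZMod n ≃ ZMod n := ((Equiv.addRight (-1 : ZMod n)).trans (piE γ r4)).trans mb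
  have e2 : ∀ j, π2 j = P + b * piF γ (j + -1) := fun j => rfl
  have e2' : ∀ k, P + b * piF γ k = π2 (k + 1) := by intro k; rw [e2]; congr 3; ring
  have f20 : π2 0 = P + 1 := by
    rw [e2, zero_add, piF_neg_one γ r3 r4, cγ, hc]
  have f21 : π2 1 = P := by
    rw [e2, add_neg_cancel, piF_zero γ r4, mul_zero, add_zero]
  have hlift : ∀ x y k : ZMod n, s(x, y) = s(piF γ k, piF γ (k + 1)) →
      s(P + b * x, P + b * y) = s(π2 (k + 1), π2 (k + 1 + 1)) := by
    intro x y k hk
    rw [← e2', ← e2']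
    rw [Sym2.eq_iff] at hk ⊢
    rcases hk with ⟨h, h'⟩ | ⟨h, h'⟩
    · left; exact ⟨by rw [h], by rw [h']⟩
    · right; exact ⟨by rw [h], by rw [h']⟩
  have key1 : ∃ k, s(P + b, P + b + 1) = s(π2 k, π2 (k + 1)) := by
    obtain ⟨k, hk⟩ := piF_jump γ r3 r4 (p := n)
    refine ⟨k + 1, ?_⟩
    have h4 := hlift _ _ k hk
    rw [cγ, mul_add, hc, mul_one] at h4
    rw [← h4, show P + (1 + b) = P + b + 1 by ring]
  have key2 : ∀ u : ZMod n, u ≠ P → u ≠ P + 1 → ∃ k, s(u, u + b) = s(π2 k, π2 (k + 1)) := by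
    intro u hu0 hu1
    have h6 : b * ((u - P) * c) = u - P := by linear_combination (u - P) * hc
    have h3 : (u - P) * c ≠ 0 := by
      intro h
      apply hu0
      rw [h, mul_zero] at h6
      linear_combination -h6
    have h4 : (u - P) * c ≠ c := by
      intro h
      apply hu1
      rw [h, hc] at h6
      linear_combination -h6
    obtain ⟨k, hk⟩ := piF_edge γ r4 ((u - P) * c) h3 (hvne _ _ h4)
    refine ⟨k + 1, ?_⟩
    have h5 := hlift _ _ k hk
    rw [mul_add, h6, mul_one] at h5
    rw [← h5, show P + (u - P) = u by ring, show P + (u - P + b) = u + b by ring]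
  refine ((ham_TS hn (by omega) π2).mono ?_).ends ?_
  · rintro u - v - (⟨⟨δ, hδ, h⟩, h1, h2⟩ | ⟨_, h⟩)
    · have hδ' : δ = b := hδ
      rw [hδ'] at h
      have g1 := h1 ()
      have g2 := h2 ()
      have main : ∀ x y : ZMod n, y = x + b → s(x, y) ≠ s(P, P + b) →
          s(x, y) ≠ s(P + 1, P + b + 1) → ∃ k, s(x, y) = s(π2 k, π2 (k + 1)) := by
        rintro x y rfl k1 k2
        apply key2
        · rintro rfl
          exact k1 rfl
        · rintro rfl
          apply k2
          rw [show P + 1 + b = P + b + 1 by ring]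
      rcases h with h | h
      · exact main u v h g1 g2
      · rw [Sym2.eq_swap] at g1 g2 ⊢
        exact main v u h g1 g2
    · rw [h]
      exact key1
  · intro k
    show s(P, P + 1) = s(π2 0, π2 1)
    rw [f20, f21, Sym2.eq_swap]

end Pool.Agent.P45
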