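import Mathlib

/-! # Two Hamilton cycles of the graph of two types modulo `h` -/

set_option autoImplicit false

namespace Pool.Agent.P45

section grid

variable {h : ℕ}

/-- The class with coordinates `i`, `j`. -/
def gp (a b : ZMod h) (i j : ℕ) : ZMod h := (i : ZMod h) * a + (j : ZMod h) * b

theorem gp_a (a b : ZMod h) (i j : ℕ) : gp a b i j + a = gp a b (i + 1) j := by
  unfold gp; push_cast; ring

theorem gp_b (a b : ZMod h) (i j : ℕ) : gp a b i j + b = gp a b i (j + 1) := by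
  unfold gp; push_cast; ring

theorem gp_swap (a b : ZMod h) (i j : ℕ) : gp b a j i = gp a b i j := by
  unfold gp; ring

/-- The edges of the two types with the lower ends in `X` and in `Y`. -/
def Ed (a b : ZMod h) (X Y : ZMod h → Prop) (v w : ZMod h) : Prop :=
  (X v ∧ w = v + a) ∨ (X w ∧ v = w + a) ∨ (Y v ∧ w = v + b) ∨ (Y w ∧ v = w + b)

theorem Ed.symm {a b : ZMod h} {X Y : ZMod h → Prop} {v w : ZMod h} (H : Ed a b X Y v w) :
    Ed a b X Y w v := by
  rcases H with H | H | H | H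
  · exact Or.inr (Or.inl H)
  · exact Or.inl H
  · exact Or.inr (Or.inr (Or.inr H))
  · exact Or.inr (Or.inr (Or.inl H))

/-- Connected by the edges. -/
def Lk (a b : ZMod h) (X Y : ZMod h → Prop) : ZMod h → ZMod h → Prop :=
  Relation.EqvGen (Ed a b X Y)

variable {a b : ZMod h} {X Y : ZMod h → Prop}

theorem Lk.refl (v : ZMod h) : Lk a b X Y v v := Relation.EqvGen.refl v

theorem Lk.symm {v w : ZMod h} (H : Lk a b X Y v w) : Lk a b X Y w v :=
  Relation.EqvGen.symm _ _ H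

theorem Lk.trans {u v w : ZMod h} (H : Lk a b X Y u v) (H' : Lk a b X Y v w) :
    Lk a b X Y u w := Relation.EqvGen.trans _ _ _ H H'

theorem Lk.stepa {i j : ℕ} (H : X (gp a b i j)) :
    Lk a b X Y (gp a b i j) (gp a b (i + 1) j) :=
  Relation.EqvGen.rel _ _ (Or.inl ⟨H, (gp_a a b i j).symm⟩)

theorem Lk.stepb {i j : ℕ} (H : Y (gp a b i j)) :
    Lk a b X Y (gp a b i j) (gp a b i (j + 1)) :=
  Relation.EqvGen.rel _ _ (Or.inr (Or.inr (Or.inl ⟨H, (gp_b a b i j).symm⟩)))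

theorem Lk.up {i i' j : ℕ} (hi : i ≤ i') (H : ∀ k, i ≤ k → k < i' → X (gp a b k j)) :
    Lk a b X Y (gp a b i j) (gp a b i' j) := by
  induction i', hi using Nat.le_induction with
  | base => exact Lk.refl _
  | succ n hn ih =>
    exact (ih (fun k h1 h2 => H k h1 (by omega))).trans (Lk.stepa (H n hn (by omega)))

theorem Lk.right {i j j' : ℕ} (hj : j ≤ j') (H : ∀ k, j ≤ k → k < j' → Y (gp a b i k)) :
    Lk a b X Y (gp a b i j) (gp a b i j') := by
  induction j', hj using Nat.le_induction with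
  | base => exact Lk.refl _
  | succ n hn ih =>
    exact (ih (fun k h1 h2 => H k h1 (by omega))).trans (Lk.stepb (H n hn (by omega)))

/-- Rows and their length. -/
structure Grid (a b : ZMod h) (g L : ℕ) : Prop where
  hgL : g * L = h
  row : ∀ {i i' j j' : ℕ}, i < g → i' < g → gp a b i j = gp a b i' j' → i = i'
  col : ∀ {j j' : ℕ}, (j : ZMod h) * b = (j' : ZMod h) * b ↔ j ≡ j' [MOD L]

theorem Grid.eq_iff {g L : ℕ} (G : Grid a b g L) {i i' j j' : ℕ} (hi : i < g) (hi' : i' < g) :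
    gp a b i j = gp a b i' j' ↔ i = i' ∧ j ≡ j' [MOD L] := by
  constructor
  · intro H
    have h1 := G.row hi hi' H
    refine ⟨h1, G.col.1 ?_⟩
    unfold gp at H
    rw [h1] at H
    exact add_left_cancel H
  · rintro ⟨h1, h2⟩
    unfold gp
    rw [h1, G.col.2 h2]

theorem Grid.congr {g L : ℕ} (G : Grid a b g L) {i j j' : ℕ} (hj : j ≡ j' [MOD L]) :
    gp a b i j = gp a b i j' := by
  unfold gp
  rw [G.col.2 hj]

theorem Grid.surj {g L : ℕ} (G : Grid a b g L) (h0 : 0 < h) (v : ZMod h) :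
    ∃ i j, i < g ∧ j < L ∧ v = gp a b i j := by
  classical
  have hNZ : NeZero h := ⟨by omega⟩
  let f : Fin g × Fin L → ZMod h := fun q => gp a b q.1 q.2
  have hf : Function.Injective f := by
    rintro ⟨i, j⟩ ⟨i', j'⟩ H
    obtain ⟨h1, h2⟩ := (G.eq_iff i.2 i'.2).1 H
    have h3 : (j : ℕ) = j' := Nat.ModEq.eq_of_lt_of_lt h2 j.2 j'.2
    rw [Prod.mk.injEq]
    exact ⟨Fin.ext h1, Fin.ext h3⟩
  have hb : Function.Bijective f := by
    rw [Fintype.bijective_iff_injective_and_card]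
    refine ⟨hf, ?_⟩
    rw [Fintype.card_prod, Fintype.card_fin, Fintype.card_fin, ZMod.card, G.hgL]
  obtain ⟨⟨i, j⟩, hij⟩ := hb.2 v
  exact ⟨i, j, i.2, j.2, hij.symm⟩

theorem exists_shift_mod {L : ℕ} (hL : 0 < L) (j0 j : ℕ) : ∃ t, t < L ∧ j ≡ j0 + t [MOD L] := by
  refine ⟨(j + (L - j0 % L)) % L, Nat.mod_lt _ hL, ?_⟩
  have h1 : j0 % L ≤ L := (Nat.mod_lt _ hL).le
  have h2 : j0 + (j + (L - j0 % L)) ≡ j [MOD L] := by
    have h3 : j0 + (j + (L - j0 % L)) ≡ j0 % L + (j + (L - j0 % L)) [MOD L] :=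
      Nat.ModEq.add_right _ (Nat.mod_modEq _ _).symm
    have h4 : j0 % L + (j + (L - j0 % L)) = j + L := by omega
    rw [h4] at h3
    exact h3.trans (by simp [Nat.ModEq])
  exact (h2.symm).trans (Nat.ModEq.add_left _ (Nat.mod_modEq _ _).symm)

theorem not_modEq {L j t : ℕ} (h1 : 0 < t) (h2 : t < L) : ¬ j + t ≡ j [MOD L] := by
  intro H
  have : t ≡ 0 [MOD L] := Nat.ModEq.add_left_cancel' j H
  rw [Nat.modEq_zero_iff_dvd] at this
  exact absurd (Nat.le_of_dvd h1 this) (by omega)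

/-- The corners of the switched squares. -/
def Sw (a b : ZMod h) (g : ℕ) (c : ℕ → ℕ) (v : ZMod h) : Prop :=
  ∃ i, i + 2 ≤ g ∧ v = gp a b i (c i)

def SX (a b : ZMod h) (g : ℕ) (c : ℕ → ℕ) (v : ZMod h) : Prop := Sw a b g c v ∨ Sw a b g c (v - b)

def SY (a b : ZMod h) (g : ℕ) (c : ℕ → ℕ) (v : ZMod h) : Prop := Sw a b g c v ∨ Sw a b g c (v - a)

variable {g L : ℕ} {c : ℕ → ℕ}

theorem Grid.sw (G : Grid a b g L) {i j : ℕ} (hi : i < g) :
    Sw a b g c (gp a b i j) ↔ i + 2 ≤ g ∧ j ≡ c i [MOD L] := by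
  constructor
  · rintro ⟨i', h1, h2⟩
    obtain ⟨rfl, h3⟩ := (G.eq_iff hi (by omega)).1 h2
    exact ⟨h1, h3⟩
  · rintro ⟨h1, h2⟩
    exact ⟨i, h1, G.congr h2⟩

theorem sx_iff (v : ZMod h) : SX a b g c v ↔
    ∃ i, i + 2 ≤ g ∧ (v = gp a b i (c i) ∨ v = gp a b i (c i + 1)) := by
  constructor
  · rintro (⟨i, h1, h2⟩ | ⟨i, h1, h2⟩)
    · exact ⟨i, h1, Or.inl h2⟩
    · exact ⟨i, h1, Or.inr (by rw [← gp_b, ← h2]; ring)⟩
  · rintro ⟨i, h1, h2 | h2⟩
    · exact Or.inl ⟨i, h1, h2⟩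
    · exact Or.inr ⟨i, h1, by rw [h2, ← gp_b]; ring⟩

theorem sy_iff (v : ZMod h) : SY a b g c v ↔
    ∃ i, i + 2 ≤ g ∧ (v = gp a b i (c i) ∨ v = gp a b (i + 1) (c i)) := by
  constructor
  · rintro (⟨i, h1, h2⟩ | ⟨i, h1, h2⟩)
    · exact ⟨i, h1, Or.inl h2⟩
    · exact ⟨i, h1, Or.inr (by rw [← gp_a, ← h2]; ring)⟩
  · rintro ⟨i, h1, h2 | h2⟩
    · exact Or.inl ⟨i, h1, h2⟩
    · exact Or.inr ⟨i, h1, by rw [h2, ← gp_a]; ring⟩

theorem Grid.sx (G : Grid a b g L) {i j : ℕ} (hi : i < g) :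
    SX a b g c (gp a b i j) ↔ i + 2 ≤ g ∧ (j ≡ c i [MOD L] ∨ j ≡ c i + 1 [MOD L]) := by
  rw [sx_iff]
  constructor
  · rintro ⟨i', h1, h2 | h2⟩
    · obtain ⟨rfl, h3⟩ := (G.eq_iff hi (by omega)).1 h2
      exact ⟨h1, Or.inl h3⟩
    · obtain ⟨rfl, h3⟩ := (G.eq_iff hi (by omega)).1 h2
      exact ⟨h1, Or.inr h3⟩
  · rintro ⟨h1, h2 | h2⟩
    · exact ⟨i, h1, Or.inl (G.congr h2)⟩
    · exact ⟨i, h1, Or.inr (G.congr h2)⟩

theorem Grid.sy0 (G : Grid a b g L) {j : ℕ} (hg : 2 ≤ g) :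
    SY a b g c (gp a b 0 j) ↔ j ≡ c 0 [MOD L] := by
  rw [sy_iff]
  constructor
  · rintro ⟨i', h1, h2 | h2⟩
    · obtain ⟨h3, h4⟩ := (G.eq_iff (by omega) (by omega)).1 h2
      rw [← h3] at h4
      exact h4
    · obtain ⟨h3, h4⟩ := (G.eq_iff (by omega) (by omega)).1 h2
      omega
  · intro h1
    exact ⟨0, by omega, Or.inl (G.congr h1)⟩

theorem Grid.sy (G : Grid a b g L) {i j : ℕ} (hi : i + 1 < g) :
    SY a b g c (gp a b (i + 1) j) ↔
      (i + 3 ≤ g ∧ j ≡ c (i + 1) [MOD L]) ∨ j ≡ c i [MOD L] := by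
  rw [sy_iff]
  constructor
  · rintro ⟨i', h1, h2 | h2⟩
    · obtain ⟨h3, h4⟩ := (G.eq_iff hi (by omega)).1 h2
      rw [← h3] at h4 h1
      exact Or.inl ⟨h1, h4⟩
    · obtain ⟨h3, h4⟩ := (G.eq_iff hi (by omega)).1 h2
      have h5 : i' = i := by omega
      rw [h5] at h4
      exact Or.inr h4
  · rintro (⟨h1, h2⟩ | h2)
    · exact ⟨i + 1, h1, Or.inl (G.congr h2)⟩
    · exact ⟨i, by omega, Or.inr (G.congr h2)⟩

/-- The second graph is connected. -/
theorem Grid.conn2 (G : Grid a b g L) (hg : 2 ≤ g) (hL : 3 ≤ L)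
    (hc : ∀ i, ¬ c (i + 1) ≡ c i [MOD L]) (v : ZMod h) (h0 : 0 < h) :
    Lk a b (SX a b g c) (fun v => ¬ SY a b g c v) v (gp a b 0 (c 0 + 1)) := by
  have key : ∀ i, i < g → ∀ j,
      Lk a b (SX a b g c) (fun v => ¬ SY a b g c v) (gp a b i j) (gp a b 0 (c 0 + 1)) := by
    intro i
    induction i with
    | zero =>
      intro _ j
      obtain ⟨t, h1, h2⟩ := exists_shift_mod (L := L) (by omega) (c 0 + 1) j
      rw [G.congr h2]
      apply Lk.symm
      apply Lk.right (by omega)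
      intro k h3 h4 h5
      rw [G.sy0 hg] at h5
      have h6 : k = c 0 + (k - c 0) := by omega
      rw [h6] at h5
      exact not_modEq (by omega) (by omega) h5
    | succ i ih =>
      intro hi j
      obtain ⟨t, h1, h2⟩ := exists_shift_mod (L := L) (by omega) (c i + 1) j
      obtain ⟨t0, h3, h4⟩ := exists_shift_mod (L := L) (by omega) (c i + 1) (c (i + 1))
      have h5 : t0 ≠ L - 1 := by
        intro h5
        apply hc i
        refine h4.trans ?_
        have : c i + 1 + t0 = c i + L := by omega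
        rw [this]
        simp [Nat.ModEq]
      rw [G.congr h2]
      have blk : ∀ r, r ≠ t0 → r < L - 1 → ¬ SY a b g c (gp a b (i + 1) (c i + 1 + r)) := by
        intro r hr hrL h6
        rw [G.sy hi] at h6
        rcases h6 with ⟨-, h6⟩ | h6
        · have h7 := h6.trans h4
          have h8 : r ≡ t0 [MOD L] := Nat.ModEq.add_left_cancel' _ h7
          exact hr (Nat.ModEq.eq_of_lt_of_lt h8 (by omega) h3)
        · have : c i + 1 + r = c i + (r + 1) := by omega
          rw [this] at h6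
          exact not_modEq (by omega) (by omega) h6
      by_cases ht : t ≤ t0
      · have w1 : Lk a b (SX a b g c) (fun v => ¬ SY a b g c v)
            (gp a b (i + 1) (c i + 1)) (gp a b (i + 1) (c i + 1 + t)) := by
          apply Lk.right (by omega)
          intro k h6 h7
          have : k = c i + 1 + (k - (c i + 1)) := by omega
          rw [this]
          exact blk _ (by omega) (by omega)
        refine w1.symm.trans ((Lk.stepa (X := SX a b g c) ?_).symm.trans (ih (by omega) _))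
        exact (sx_iff _).2 ⟨i, by omega, Or.inr rfl⟩
      · have w1 : Lk a b (SX a b g c) (fun v => ¬ SY a b g c v)
            (gp a b (i + 1) (c i + 1 + t)) (gp a b (i + 1) (c i + 1 + (L - 1))) := by
          apply Lk.right (by omega)
          intro k h6 h7
          have : k = c i + 1 + (k - (c i + 1)) := by omega
          rw [this]
          exact blk _ (by omega) (by omega)
        have e : gp a b (i + 1) (c i + 1 + (L - 1)) = gp a b (i + 1) (c i) := by
          apply G.congr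
          have : c i + 1 + (L - 1) = c i + L := by omega
          rw [this]
          simp [Nat.ModEq]
        rw [e] at w1
        refine w1.trans ((Lk.stepa (X := SX a b g c) ?_).symm.trans (ih (by omega) _))
        exact (sx_iff _).2 ⟨i, by omega, Or.inl rfl⟩
  obtain ⟨i, j, h1, -, rfl⟩ := G.surj h0 v
  exact key i h1 j

end grid

end Pool.Agent.P45
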