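import Pool.Agent.Lib.P45dba8.CycLem

/-! # Two cyclic blocks which together contain all edges of two types; the rule LIFT -/

set_option autoImplicit false

namespace Pool.Agent.P45

/-- All edges of the types `x`, `y` are steps of two cyclic orders of the classes modulo `h`;
`p q` is a step of the first one and `p' q'` a step of the second one. -/
def TwoCyc (m h : ℕ) (x y p q p' q' : ZMod (m * h)) : Prop :=
  ∃ E E' : ZMod (m * h) → ZMod (m * h) → Prop, Cyc m h E p q ∧ Cyc m h E' p' q' ∧
    ∀ v v', (v' = v + x ∨ v' = v + y) → (E v v' ∨ E v' v) ∨ (E' v v' ∨ E' v' v)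

theorem TwoCyc.flip {m h : ℕ} {x y p q p' q' : ZMod (m * h)} (H : TwoCyc m h x y p q p' q') :
    TwoCyc m h x y p' q' p q := by
  obtain ⟨E, E', h1, h2, h3⟩ := H
  exact ⟨E', E, h2, h1, fun v v' hv => (h3 v v' hv).symm⟩

theorem TwoCyc.comm {m h : ℕ} {x y p q p' q' : ZMod (m * h)} (H : TwoCyc m h x y p q p' q') :
    TwoCyc m h y x p q p' q' := by
  obtain ⟨E, E', h1, h2, h3⟩ := H
  exact ⟨E, E', h1, h2, fun v v' hv => h3 v v' hv.symm⟩

theorem TwoCyc.symm₁ {m h : ℕ} {x y p q p' q' : ZMod (m * h)} (H : TwoCyc m h x y p q p' q') :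
    TwoCyc m h x y q p p' q' := by
  obtain ⟨E, E', h1, h2, h3⟩ := H
  exact ⟨E, E', h1.symm, h2, h3⟩

theorem TwoCyc.symm₂ {m h : ℕ} {x y p q p' q' : ZMod (m * h)} (H : TwoCyc m h x y p q p' q') :
    TwoCyc m h x y p q q' p' := by
  obtain ⟨E, E', h1, h2, h3⟩ := H
  exact ⟨E, E', h1, h2.symm, h3⟩

theorem TwoCyc.neg_right {m h : ℕ} {x y p q p' q' : ZMod (m * h)}
    (H : TwoCyc m h x (-y) p q p' q') : TwoCyc m h x y p q p' q' := by
  obtain ⟨E, E', h1, h2, h3⟩ := H
  refine ⟨E, E', h1, h2, ?_⟩
  rintro v v' (hv | hv)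
  · exact h3 v v' (Or.inl hv)
  · rcases h3 v' v (Or.inr (by rw [hv]; ring)) with (h4 | h4) | (h4 | h4)
    · exact Or.inl (Or.inr h4)
    · exact Or.inl (Or.inl h4)
    · exact Or.inr (Or.inr h4)
    · exact Or.inr (Or.inl h4)

/-- The two systems of cycles for a pair of types. -/
def TwoCycAll (m h : ℕ) (x y : ZMod (m * h)) : Prop :=
  (∀ p p', TwoCyc m h x y p (p + x) p' (p' + y)) ∧
  (∀ p p', IsUnit (red m h (p' - p)) → TwoCyc m h x y p (p + x) p' (p' + x)) ∧
  (∀ p p', IsUnit (red m h (p' - p)) → TwoCyc m h x y p (p + y) p' (p' + y))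

theorem TwoCycAll.comm {m h : ℕ} {x y : ZMod (m * h)} (H : TwoCycAll m h x y) :
    TwoCycAll m h y x := by
  obtain ⟨h1, h2, h3⟩ := H
  exact ⟨fun p p' => (h1 p' p).flip.comm, fun p p' hp => (h3 p p' hp).comm,
    fun p p' hp => (h2 p p' hp).comm⟩

theorem TwoCycAll.neg_right {m h : ℕ} {x y : ZMod (m * h)} (H : TwoCycAll m h x (-y)) :
    TwoCycAll m h x y := by
  obtain ⟨h1, h2, h3⟩ := H
  refine ⟨fun p p' => ?_, fun p p' hp => (h2 p p' hp).neg_right, fun p p' hp => ?_⟩
  · have := (h1 p (p' + y)).neg_right.symm₂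
    have e : p' + y + -y = p' := by ring
    rwa [e] at this
  · have := (h3 (p + y) (p' + y) (by
      have e : p' + y - (p + y) = p' - p := by ring
      rw [e]; exact hp)).neg_right.symm₂.symm₁
    have e : p' + y + -y = p' := by ring
    have e' : p + y + -y = p := by ring
    rwa [e, e'] at this

/-- LIFT from the cycles. -/
theorem Good.lift_of {m h : ℕ} (hm : Odd m) (hh : Odd h) (h3 : 3 ≤ h) {ι κ : Type*}
    {Q : ZMod m → Prop} (hQ : ∀ x, IsUnit x → Q x)
    {t : ι → ZMod m} {d u : κ → ZMod m} (hG : Good m Q t d u) (hD : Dist t d u)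
    (c : ι ⊕ κ → Bool) (hc : ∀ b, ∃ i, c i = b) (x y : ZMod (m * h))
    (H : TwoCycAll m h x y) :
    Good (m * h) IsUnit (fun i => psi m h (t i))
      (fun k : Option κ => k.elim x (fun k => psi m h (d k)))
      (fun k : Option κ => k.elim y (fun k => psi m h (u k))) := by
  classical
  have hF1 : Fact (1 < h) := ⟨by omega⟩
  intro P A hA hP
  obtain ⟨H1, H2, H3⟩ := H
  let e1 : ι ⊕ κ × Bool → ι ⊕ Option κ × Bool := Sum.map id (fun k => (some k.1, k.2))
  have hu0 : ∀ δ : ZMod (m * h), IsUnit δ → red m h δ ≠ 0 := fun δ hδ =>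
    (hδ.map (red m h)).ne_zero
  have hA1 : ∀ i, (A ∘ e1) (Sum.inl i) = psi m h (t i) := fun i => hA i
  have hP1 : ∀ k, adm (fun δ => red m h δ ≠ 0) (psi m h (d k)) (psi m h (u k))
      ((A ∘ e1) (Sum.inr (k, false))) ((A ∘ e1) (Sum.inr (k, true)))
      ((P ∘ e1) (Sum.inr (k, true)) - (P ∘ e1) (Sum.inr (k, false))) := by
    intro k
    rcases hP (some k) with h1 | h1 | ⟨h1, h2⟩
    · exact Or.inl h1
    · exact Or.inr (Or.inl h1)
    · exact Or.inr (Or.inr ⟨h1, hu0 _ h2⟩)
  have fin : ∀ q q' : ZMod (m * h), A (Sum.inr (none, false)) = q →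
      A (Sum.inr (none, true)) = q' →
      TwoCyc m h x y (P (Sum.inr (none, false))) (P (Sum.inr (none, false)) + q)
        (P (Sum.inr (none, true))) (P (Sum.inr (none, true)) + q') →
      TS Set.univ (DE (FD (fun i => psi m h (t i))
        (fun k : Option κ => k.elim x (fun k => psi m h (d k)))
        (fun k : Option κ => k.elim y (fun k => psi m h (u k))))) (fh P A) := by
    intro q q' hq hq' hT
    obtain ⟨E, E', c1, c2, c3⟩ := hT
    have key := hG.joint hm hh h3 hQ hD c hc (fun b => bif b then E' else E)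
      (fun b => bif b then P (Sum.inr (none, true)) else P (Sum.inr (none, false)))
      (fun b => bif b then P (Sum.inr (none, true)) + q' else P (Sum.inr (none, false)) + q)
      (by rintro (_ | _); exacts [c1, c2]) (P ∘ e1) (A ∘ e1) hA1 hP1
    let σ : ι ⊕ Option κ × Bool ≃ Bool ⊕ (ι ⊕ κ × Bool) :=
      { toFun := Sum.elim (fun i => Sum.inr (Sum.inl i))
          (fun k => k.1.elim (Sum.inl k.2) (fun j => Sum.inr (Sum.inr (j, k.2))))
        invFun := Sum.elim (fun b => Sum.inr (none, b)) e1
        left_inv := by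
          rintro (i | ⟨_ | k, b⟩)
          · rfl
          · rfl
          · rfl
        right_inv := by
          rintro (b | (i | ⟨k, b⟩))
          · rfl
          · rfl
          · rfl }
    refine ((key.reindex σ).mono ?_).congr ?_
    · rintro v - v' - ⟨δ, hδ, hvv⟩
      have hxy : (δ = x ∨ δ = y) →
          ∃ j : Bool, (bif j then E' else E) v v' ∨ (bif j then E' else E) v' v := by
        intro h4
        have h5 : ((E v v' ∨ E v' v) ∨ (E' v v' ∨ E' v' v)) := by
          rcases hvv with hvv | hvv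
          · exact c3 v v' (by rcases h4 with rfl | rfl; exacts [Or.inl hvv, Or.inr hvv])
          · rcases c3 v' v (by rcases h4 with rfl | rfl; exacts [Or.inl hvv, Or.inr hvv])
              with h6 | h6
            · exact Or.inl h6.symm
            · exact Or.inr h6.symm
        rcases h5 with h5 | h5
        · exact ⟨false, h5⟩
        · exact ⟨true, h5⟩
      rcases hδ with ⟨i, hi⟩ | ⟨_ | k, hk⟩
      · exact Or.inl ⟨δ, Or.inl ⟨i, hi⟩, hvv⟩
      · exact Or.inr (hxy hk)
      · exact Or.inl ⟨δ, Or.inr ⟨k, hk⟩, hvv⟩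
    · rintro (i | ⟨_ | k, b'⟩) b
      · rfl
      · cases b'
        · show P (Sum.inr (none, false)) + (bif b then A (Sum.inr (none, false)) else 0) =
            (bif b then P (Sum.inr (none, false)) + q else P (Sum.inr (none, false)))
          rw [hq]
          cases b
          · exact add_zero _
          · rfl
        · show P (Sum.inr (none, true)) + (bif b then A (Sum.inr (none, true)) else 0) =
            (bif b then P (Sum.inr (none, true)) + q' else P (Sum.inr (none, true)))
          rw [hq']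
          cases b
          · exact add_zero _
          · rfl
      · rfl
  rcases hP none with ⟨h1, h2⟩ | ⟨h1, h2⟩ | ⟨⟨h1, h2⟩ | ⟨h1, h2⟩, h4⟩
  · exact fin x y h1 h2 (H1 _ _)
  · exact fin y x h1 h2 (H1 _ _).flip
  · exact fin x x h1 h2 (H2 _ _ (h4.map (red m h)))
  · exact fin y y h1 h2 (H3 _ _ (h4.map (red m h)))

/-- Both types coprime to `h`. -/
theorem twoCyc_units {m h : ℕ} (hh : Odd h) (h3 : 3 ≤ h) (x y : ZMod (m * h))
    (hx : IsUnit (red m h x)) (hy : IsUnit (red m h y)) : TwoCycAll m h x y := by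
  classical
  have hF1 : Fact (1 < h) := ⟨by omega⟩
  have pure : ∀ (z : ZMod (m * h)), IsUnit (red m h z) → ∀ p,
      Cyc m h (fun v v' => v' = v + z) p (p + z) := by
    intro z hz p
    exact Cyc.constant (fun _ => z) (red m h z) hz (fun _ => rfl) (fun v v' hv => Or.inl hv)
      p (p + z) (Or.inl rfl)
  -- the case of equal residues
  have caseA : ∀ x y' p p' : ZMod (m * h), IsUnit (red m h x) → red m h y' = red m h x →
      red m h p ≠ red m h p' → TwoCyc m h x y' p (p + x) p' (p' + x) := by
    intro x y' p p' hx hy' hne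
    let W1 : ZMod h → ZMod (m * h) := fun a => if a = red m h p' then y' else x
    let W2 : ZMod h → ZMod (m * h) := fun a => if a = red m h p' then x else y'
    have hW1 : ∀ a, red m h (W1 a) = red m h x := by
      intro a
      show red m h (if a = red m h p' then y' else x) = _
      split_ifs
      · exact hy'
      · rfl
    have hW2 : ∀ a, red m h (W2 a) = red m h x := by
      intro a
      show red m h (if a = red m h p' then x else y') = _
      split_ifs
      · rfl
      · exact hy'
    refine ⟨fun v v' => v' = v + W1 (red m h v), fun v v' => v' = v + W2 (red m h v),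
      Cyc.constant W1 _ hx hW1 (fun v v' hv => Or.inl hv) p (p + x) (Or.inl ?_),
      Cyc.constant W2 _ hx hW2 (fun v v' hv => Or.inl hv) p' (p' + x) (Or.inl ?_), ?_⟩
    · have : W1 (red m h p) = x := if_neg hne
      rw [this]
    · have : W2 (red m h p') = x := if_pos rfl
      rw [this]
    · intro v v' hv
      by_cases h1 : red m h v = red m h p'
      · have e1 : W1 (red m h v) = y' := if_pos h1
        have e2 : W2 (red m h v) = x := if_pos h1
        rcases hv with hv | hv
        · right; left; show v' = v + W2 (red m h v); rw [e2]; exact hv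
        · left; left; show v' = v + W1 (red m h v); rw [e1]; exact hv
      · have e1 : W1 (red m h v) = x := if_neg h1
        have e2 : W2 (red m h v) = y' := if_neg h1
        rcases hv with hv | hv
        · left; left; show v' = v + W1 (red m h v); rw [e1]; exact hv
        · right; left; show v' = v + W2 (red m h v); rw [e2]; exact hv
  have dbl : ∀ x y p p' : ZMod (m * h), IsUnit (red m h x) → IsUnit (red m h y) →
      red m h p ≠ red m h p' → TwoCyc m h x y p (p + x) p' (p' + x) := by
    intro x y p p' hx hy hne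
    by_cases h1 : red m h y = red m h x
    · exact caseA x y p p' hx h1 hne
    by_cases h2 : red m h y = -red m h x
    · exact (caseA x (-y) p p' hx (by rw [map_neg, h2, neg_neg]) hne).neg_right
    have hx0 : red m h x ≠ 0 := hx.ne_zero
    have hy0 : red m h y ≠ 0 := hy.ne_zero
    have h1' : red m h x ≠ red m h y := fun h' => h1 h'.symm
    have h2' : red m h x ≠ -red m h y := fun h' => h2 (by rw [h', neg_neg])
    have h2u : IsUnit (2 : ZMod h) := by
      have : IsUnit ((2 : ℕ) : ZMod h) := by
        rw [ZMod.isUnit_iff_coprime]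
        exact Nat.coprime_two_left.2 hh
      exact_mod_cast this
    obtain ⟨a, ha1, ha2, ha3⟩ : ∃ a : ZMod h, red m h p ≠ a ∧ red m h p ≠ a + red m h y ∧
        (red m h p' = a ∨ red m h p' = a + red m h y) := by
      by_cases h4 : red m h p = red m h p' + red m h y
      · refine ⟨red m h p' - red m h y, ?_, ?_, Or.inr (by ring)⟩
        · rw [h4]
          intro h5
          have h6 : (2 : ZMod h) * red m h y = 0 := by linear_combination h5
          exact hy0 ((h2u.mul_right_eq_zero).1 h6)
        · intro h5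
          apply hne
          rw [h5]; ring
      · exact ⟨red m h p', hne, h4, Or.inl rfl⟩
    refine ⟨fun v v' => (v' = v + y ∧ (red m h v = a ∨ red m h v = a + red m h x)) ∨
        (v' = v + x ∧ red m h v ≠ a ∧ red m h v ≠ a + red m h y),
      fun v v' => (v' = v + x ∧ (red m h v = a ∨ red m h v = a + red m h y)) ∨
        (v' = v + y ∧ red m h v ≠ a ∧ red m h v ≠ a + red m h x),
      Cyc.square h3 x y hx a hy0 h1 h2 _ (fun v v' hv => hv) p (p + x)
        (Or.inr ⟨rfl, ha1, ha2⟩),
      Cyc.square h3 y x hy a hx0 h1' h2' _ (fun v v' hv => hv) p' (p' + x)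
        (Or.inl ⟨rfl, ha3⟩), ?_⟩
    rintro v v' (hv | hv)
    · by_cases h5 : red m h v = a ∨ red m h v = a + red m h y
      · exact Or.inr (Or.inl (Or.inl ⟨hv, h5⟩))
      · exact Or.inl (Or.inl (Or.inr ⟨hv, fun h' => h5 (Or.inl h'), fun h' => h5 (Or.inr h')⟩))
    · by_cases h5 : red m h v = a ∨ red m h v = a + red m h x
      · exact Or.inl (Or.inl (Or.inl ⟨hv, h5⟩))
      · exact Or.inr (Or.inl (Or.inr ⟨hv, fun h' => h5 (Or.inl h'), fun h' => h5 (Or.inr h')⟩))
  have hred : ∀ p p' : ZMod (m * h), IsUnit (red m h (p' - p)) → red m h p ≠ red m h p' := by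
    intro p p' hp h'
    apply hp.ne_zero
    rw [map_sub, h', sub_self]
  refine ⟨fun p p' => ⟨fun v v' => v' = v + x, fun v v' => v' = v + y, pure x hx p,
    pure y hy p', ?_⟩, fun p p' hp => dbl x y p p' hx hy (hred p p' hp),
    fun p p' hp => (dbl y x p p' hy hx (hred p p' hp)).comm⟩
  rintro v v' (hv | hv)
  · exact Or.inl (Or.inl hv)
  · exact Or.inr (Or.inl hv)

end Pool.Agent.P45
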