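import Pool.Agent.Lib.P45dba8.CycConn
import Pool.Agent.Lib.P45dba8.Grid
import Pool.Agent.Lib.P45dba8.TwoCyc

/-! # From connected 2-regular graphs to cyclic blocks -/

set_option autoImplicit false

namespace Pool.Agent.P45

/-- Exactly two of the four propositions hold. -/
def two4 (p q r s : Prop) : Prop :=
  (p ∧ q ∧ ¬ r ∧ ¬ s) ∨ (p ∧ ¬ q ∧ r ∧ ¬ s) ∨ (p ∧ ¬ q ∧ ¬ r ∧ s) ∨
  (¬ p ∧ q ∧ r ∧ ¬ s) ∨ (¬ p ∧ q ∧ ¬ r ∧ s) ∨ (¬ p ∧ ¬ q ∧ r ∧ s)

theorem two4.compl {p q r s : Prop} (H : two4 p q r s) : two4 (¬ p) (¬ q) (¬ r) (¬ s) := by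
  rcases H with ⟨h1, h2, h3, h4⟩ | ⟨h1, h2, h3, h4⟩ | ⟨h1, h2, h3, h4⟩ | ⟨h1, h2, h3, h4⟩ |
    ⟨h1, h2, h3, h4⟩ | ⟨h1, h2, h3, h4⟩
  · exact Or.inr (Or.inr (Or.inr (Or.inr (Or.inr ⟨not_not.2 h1, not_not.2 h2, h3, h4⟩))))
  · exact Or.inr (Or.inr (Or.inr (Or.inr (Or.inl ⟨not_not.2 h1, h2, not_not.2 h3, h4⟩))))
  · exact Or.inr (Or.inr (Or.inr (Or.inl ⟨not_not.2 h1, h2, h3, not_not.2 h4⟩)))
  · exact Or.inr (Or.inr (Or.inl ⟨h1, not_not.2 h2, not_not.2 h3, h4⟩))
  · exact Or.inr (Or.inl ⟨h1, not_not.2 h2, h3, not_not.2 h4⟩)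
  · exact Or.inl ⟨h1, h2, not_not.2 h3, not_not.2 h4⟩

theorem two4.sum {p q r s : Prop} [Decidable p] [Decidable q] [Decidable r] [Decidable s]
    (H : two4 p q r s) :
    (if p then 1 else 0) + (if q then 1 else 0) + (if r then 1 else 0) + (if s then 1 else 0)
      = (2 : ℕ) := by
  rcases H with ⟨h1, h2, h3, h4⟩ | ⟨h1, h2, h3, h4⟩ | ⟨h1, h2, h3, h4⟩ | ⟨h1, h2, h3, h4⟩ |
    ⟨h1, h2, h3, h4⟩ | ⟨h1, h2, h3, h4⟩ <;> simp [h1, h2, h3, h4]

/-- Every class has exactly two edges. -/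
def Reg {h : ℕ} (a b : ZMod h) (X Y : ZMod h → Prop) : Prop :=
  ∀ v, two4 (X v) (X (v - a)) (Y v) (Y (v - b))

theorem Ed_iff {h : ℕ} {a b : ZMod h} {X Y : ZMod h → Prop} (v w : ZMod h) :
    Ed a b X Y v w ↔ (X v ∧ w = v + a) ∨ (X (v - a) ∧ w = v - a) ∨ (Y v ∧ w = v + b) ∨
      (Y (v - b) ∧ w = v - b) := by
  have e : ∀ z : ZMod h, v = w + z ↔ w = v - z := fun z =>
    ⟨fun h' => by rw [h']; ring, fun h' => by rw [h']; ring⟩
  unfold Ed
  rw [e, e]
  constructor
  · rintro (H | ⟨h1, h2⟩ | H | ⟨h1, h2⟩)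
    · exact Or.inl H
    · exact Or.inr (Or.inl ⟨by rwa [← h2], h2⟩)
    · exact Or.inr (Or.inr (Or.inl H))
    · exact Or.inr (Or.inr (Or.inr ⟨by rwa [← h2], h2⟩))
  · rintro (H | ⟨h1, h2⟩ | H | ⟨h1, h2⟩)
    · exact Or.inl H
    · exact Or.inr (Or.inl ⟨by rwa [h2], h2⟩)
    · exact Or.inr (Or.inr (Or.inl H))
    · exact Or.inr (Or.inr (Or.inr ⟨by rwa [h2], h2⟩))

theorem Reg.deg {h : ℕ} {a b : ZMod h} {X Y : ZMod h → Prop} (H : Reg a b X Y)
    (ha : a ≠ -a) (hb : b ≠ -b) (hab : a ≠ b) (hab' : a ≠ -b) (v : ZMod h) :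
    ∃ p q, p ≠ q ∧ ∀ w, Ed a b X Y v w ↔ w = p ∨ w = q := by
  have n1 : v + a ≠ v - a := fun h' => ha (by linear_combination h')
  have n2 : v + a ≠ v + b := fun h' => hab (by linear_combination h')
  have n3 : v + a ≠ v - b := fun h' => hab' (by linear_combination h')
  have n4 : v - a ≠ v + b := fun h' => hab' (by linear_combination -h')
  have n5 : v - a ≠ v - b := fun h' => hab (by linear_combination -h')
  have n6 : v + b ≠ v - b := fun h' => hb (by linear_combination h')
  rcases H v with ⟨h1, h2, h3, h4⟩ | ⟨h1, h2, h3, h4⟩ | ⟨h1, h2, h3, h4⟩ | ⟨h1, h2, h3, h4⟩ |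
    ⟨h1, h2, h3, h4⟩ | ⟨h1, h2, h3, h4⟩
  · exact ⟨v + a, v - a, n1, fun w => by
      rw [Ed_iff]
      simp only [h1, h2, h3, h4, true_and, false_and, false_or, or_false]⟩
  · exact ⟨v + a, v + b, n2, fun w => by
      rw [Ed_iff]
      simp only [h1, h2, h3, h4, true_and, false_and, false_or, or_false]⟩
  · exact ⟨v + a, v - b, n3, fun w => by
      rw [Ed_iff]
      simp only [h1, h2, h3, h4, true_and, false_and, false_or, or_false]⟩
  · exact ⟨v - a, v + b, n4, fun w => by
      rw [Ed_iff]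
      simp only [h1, h2, h3, h4, true_and, false_and, false_or, or_false]⟩
  · exact ⟨v - a, v - b, n5, fun w => by
      rw [Ed_iff]
      simp only [h1, h2, h3, h4, true_and, false_and, false_or, or_false]⟩
  · exact ⟨v + b, v - b, n6, fun w => by
      rw [Ed_iff]
      simp only [h1, h2, h3, h4, true_and, false_and, false_or, or_false]⟩

theorem Lk.rtg {h : ℕ} {a b : ZMod h} {X Y : ZMod h → Prop} {v w : ZMod h}
    (H : Lk a b X Y v w) : Relation.ReflTransGen (Ed a b X Y) v w := by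
  have hs : ∀ u w, Relation.ReflTransGen (Ed a b X Y) u w →
      Relation.ReflTransGen (Ed a b X Y) w u := by
    intro u w h1
    induction h1 with
    | refl => exact Relation.ReflTransGen.refl
    | tail _ h2 ih => exact (Relation.ReflTransGen.single (Ed.symm h2)).trans ih
  induction H with
  | rel x y h' => exact Relation.ReflTransGen.single h'
  | refl x => exact Relation.ReflTransGen.refl
  | symm x y _ ih => exact hs _ _ ih
  | trans x y z _ _ ih1 ih2 => exact ih1.trans ih2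

/-- The cyclic order with its steps. -/
theorem exists_step {m h : ℕ} (h3 : 3 ≤ h) (x y : ZMod (m * h)) (X Y : ZMod h → Prop)
    (hx : red m h x ≠ 0) (hy : red m h y ≠ 0)
    (ha : red m h x ≠ -red m h x) (hb : red m h y ≠ -red m h y)
    (hab : red m h x ≠ red m h y) (hab' : red m h x ≠ -red m h y)
    (hreg : Reg (red m h x) (red m h y) X Y) (v0 : ZMod h)
    (hconn : ∀ v, Lk (red m h x) (red m h y) X Y v v0) :
    ∃ (Wt : ZMod h → ZMod (m * h)) (π : ZMod h ≃ ZMod h),
      (∀ i, π (i + 1) = π i + red m h (Wt (π i))) ∧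
      ∀ v v', ((v' = v + x ∧ X (red m h v)) ∨ (v' = v + y ∧ Y (red m h v))) →
        v' = v + Wt (red m h v) ∨ v = v' + Wt (red m h v') := by
  classical
  set a := red m h x with ha'
  set b := red m h y with hb'
  have hirr : ∀ v, ¬ Ed a b X Y v v := by
    intro v
    rw [Ed_iff]
    rintro (⟨-, h1⟩ | ⟨-, h1⟩ | ⟨-, h1⟩ | ⟨-, h1⟩)
    · exact hx (by linear_combination -h1)
    · exact hx (by linear_combination h1)
    · exact hy (by linear_combination -h1)
    · exact hy (by linear_combination h1)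
  obtain ⟨π, h1, h2⟩ := cyc_of_conn h3 (Ed a b X Y) (fun _ _ h' => Ed.symm h') hirr
    (hreg.deg ha hb hab hab') (fun u v => ((hconn u).trans (hconn v).symm).rtg)
  let Wt : ZMod h → ZMod (m * h) := fun v =>
    if π (π.symm v + 1) = v + a then x else if π (π.symm v + 1) = v - a then -x else
    if π (π.symm v + 1) = v + b then y else -y
  have n1 : ∀ v : ZMod h, v - a ≠ v + a := fun v h' => ha (by linear_combination -h')
  have n2 : ∀ v : ZMod h, v + b ≠ v + a := fun v h' => hab (by linear_combination -h')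
  have n3 : ∀ v : ZMod h, v - b ≠ v + a := fun v h' => hab' (by linear_combination -h')
  have n4 : ∀ v : ZMod h, v + b ≠ v - a := fun v h' => hab' (by linear_combination h')
  have n5 : ∀ v : ZMod h, v - b ≠ v - a := fun v h' => hab (by linear_combination h')
  have n6 : ∀ v : ZMod h, v - b ≠ v + b := fun v h' => hb (by linear_combination -h')
  have w1 : ∀ v, π (π.symm v + 1) = v + a → Wt v = x := fun v h' => if_pos h'
  have w2 : ∀ v, π (π.symm v + 1) = v - a → Wt v = -x := by
    intro v h'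
    show (if π (π.symm v + 1) = v + a then x else if π (π.symm v + 1) = v - a then -x else
      if π (π.symm v + 1) = v + b then y else -y) = -x
    rw [h', if_neg (n1 v), if_pos rfl]
  have w3 : ∀ v, π (π.symm v + 1) = v + b → Wt v = y := by
    intro v h'
    show (if π (π.symm v + 1) = v + a then x else if π (π.symm v + 1) = v - a then -x else
      if π (π.symm v + 1) = v + b then y else -y) = y
    rw [h', if_neg (n2 v), if_neg (n4 v), if_pos rfl]
  have w4 : ∀ v, π (π.symm v + 1) = v - b → Wt v = -y := by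
    intro v h'
    show (if π (π.symm v + 1) = v + a then x else if π (π.symm v + 1) = v - a then -x else
      if π (π.symm v + 1) = v + b then y else -y) = -y
    rw [h', if_neg (n3 v), if_neg (n5 v), if_neg (n6 v)]
  refine ⟨Wt, π, ?_, ?_⟩
  · intro i
    have e : π (π.symm (π i) + 1) = π (i + 1) := by rw [π.symm_apply_apply]
    have h4 := (Ed_iff _ _).1 (h1 i)
    rcases h4 with ⟨-, h5⟩ | ⟨-, h5⟩ | ⟨-, h5⟩ | ⟨-, h5⟩
    · rw [w1 _ (e.trans h5)]; exact h5
    · rw [w2 _ (e.trans h5), map_neg, h5]; ring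
    · rw [w3 _ (e.trans h5)]; exact h5
    · rw [w4 _ (e.trans h5), map_neg, h5]; ring
  · have fin : ∀ (v v' z : ZMod (m * h)), v' = v + z → Ed a b X Y (red m h v) (red m h v') →
        (∀ u, π (π.symm u + 1) = u + red m h z → Wt u = z) →
        (∀ u, π (π.symm u + 1) = u - red m h z → Wt u = -z) →
        v' = v + Wt (red m h v) ∨ v = v' + Wt (red m h v') := by
      intro v v' z hv hE hz hz'
      have e1 : red m h v' = red m h v + red m h z := by rw [hv, map_add]
      rcases h2 _ _ hE with h4 | h4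
      · left
        have h5 : π (π.symm (red m h v) + 1) = red m h v' := by
          rw [← h4, π.apply_symm_apply]
        rw [hz _ (h5.trans e1)]; exact hv
      · right
        have h5 : π (π.symm (red m h v') + 1) = red m h v := by
          rw [← h4, π.apply_symm_apply]
        rw [hz' _ (h5.trans (by rw [e1]; ring)), hv]; ring
    rintro v v' (⟨h4, h5⟩ | ⟨h4, h5⟩)
    · exact fin v v' x h4 (Or.inl ⟨h5, by rw [h4, map_add]⟩) w1 w2
    · exact fin v v' y h4 (Or.inr (Or.inr (Or.inl ⟨h5, by rw [h4, map_add]⟩))) w3 w4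

/-- A translated system. -/
theorem cyc_shift {m h : ℕ} (x y : ZMod (m * h)) (X Y : ZMod h → Prop)
    (H : ∃ (Wt : ZMod h → ZMod (m * h)) (π : ZMod h ≃ ZMod h),
      (∀ i, π (i + 1) = π i + red m h (Wt (π i))) ∧
      ∀ v v', ((v' = v + x ∧ X (red m h v)) ∨ (v' = v + y ∧ Y (red m h v))) →
        v' = v + Wt (red m h v) ∨ v = v' + Wt (red m h v')) (τ : ZMod h)
    (w w' : ZMod (m * h)) (hw : (w' = w + x ∧ X (red m h w - τ)) ∨
      (w' = w + y ∧ Y (red m h w - τ))) :
    Cyc m h (fun v v' => (v' = v + x ∧ X (red m h v - τ)) ∨ (v' = v + y ∧ Y (red m h v - τ)))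
      w w' := by
  obtain ⟨Wt, π, h1, h2⟩ := H
  obtain ⟨t, ht⟩ := red_surj m h τ
  have e : ∀ v, red m h (v - t) = red m h v - τ := fun v => by rw [map_sub, ht]
  have key : ∀ v v', ((v' = v + x ∧ X (red m h v - τ)) ∨ (v' = v + y ∧ Y (red m h v - τ))) →
      v' = v + Wt (red m h v - τ) ∨ v = v' + Wt (red m h v' - τ) := by
    intro v v' hv
    rcases h2 (v - t) (v' - t) (by
      rcases hv with ⟨h4, h5⟩ | ⟨h4, h5⟩
      · exact Or.inl ⟨by rw [h4]; ring, by rw [e]; exact h5⟩
      · exact Or.inr ⟨by rw [h4]; ring, by rw [e]; exact h5⟩) with h6 | h6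
    · left
      rw [e] at h6
      linear_combination h6
    · right
      rw [e] at h6
      linear_combination h6
  exact Cyc.of_step (fun v => Wt (v - τ)) (π.trans (Equiv.addRight τ)) (by
    intro i
    show π (i + 1) + τ = π i + τ + red m h (Wt (π i + τ - τ))
    rw [h1, add_sub_cancel_right]; ring) key w w' (key w w' hw)

theorem Reg.card {h : ℕ} [NeZero h] {a b : ZMod h} {X Y : ZMod h → Prop} [DecidablePred X]
    [DecidablePred Y] (H : Reg a b X Y) :
    (Finset.univ.filter X).card + (Finset.univ.filter Y).card = h := by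
  classical
  have s1 : ∑ v : ZMod h, ((if X v then 1 else 0) + (if X (v - a) then 1 else 0) +
      (if Y v then 1 else 0) + (if Y (v - b) then 1 else 0)) = 2 * h := by
    rw [Finset.sum_congr rfl (fun v _ => two4.sum (H v))]
    rw [Finset.sum_const, Finset.card_univ, ZMod.card, smul_eq_mul, mul_comm]
  rw [Finset.sum_add_distrib, Finset.sum_add_distrib, Finset.sum_add_distrib] at s1
  have t1 : ∑ v : ZMod h, (if X (v - a) then 1 else 0) = ∑ v : ZMod h, (if X v then 1 else 0) :=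
    Fintype.sum_equiv (Equiv.subRight a) _ _ (fun v => rfl)
  have t2 : ∑ v : ZMod h, (if Y (v - b) then 1 else 0) = ∑ v : ZMod h, (if Y v then 1 else 0) :=
    Fintype.sum_equiv (Equiv.subRight b) _ _ (fun v => rfl)
  have t3 : ∑ v : ZMod h, (if X v then 1 else 0) = (Finset.univ.filter X).card :=
    (Finset.card_filter X Finset.univ).symm
  have t4 : ∑ v : ZMod h, (if Y v then 1 else 0) = (Finset.univ.filter Y).card :=
    (Finset.card_filter Y Finset.univ).symm
  rw [t1, t2, t3, t4] at s1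
  omega

theorem exists_change {h : ℕ} (δ : ZMod h) (hδ : IsUnit δ) (X : ZMod h → Prop) [NeZero h]
    (u w : ZMod h) (hu : X u) (hw : ¬ X w) : ∃ v, X v ∧ ¬ X (v + δ) := by
  by_contra hcon
  push Not at hcon
  have key : ∀ k : ℕ, X (u + k * δ) := by
    intro k
    induction k with
    | zero => simpa using hu
    | succ k ih =>
      have := hcon _ ih
      have e : u + (k : ZMod h) * δ + δ = u + ((k + 1 : ℕ) : ZMod h) * δ := by push_cast; ring
      rwa [e] at this
  obtain ⟨U, rfl⟩ := hδ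
  apply hw
  have := key (((w - u) * ↑U⁻¹ : ZMod h)).val
  rw [ZMod.natCast_zmod_val, mul_assoc, Units.inv_mul, mul_one] at this
  have e : u + (w - u) = w := by ring
  rwa [e] at this

/-- The two systems from two connected graphs. -/
theorem twoCycAll_of {m h : ℕ} (hh : Odd h) (h3 : 3 ≤ h) (x y : ZMod (m * h))
    (hx : red m h x ≠ 0) (hy : red m h y ≠ 0)
    (hab : red m h x ≠ red m h y) (hab' : red m h x ≠ -red m h y)
    (X Y : ZMod h → Prop) (hreg : Reg (red m h x) (red m h y) X Y) (v1 v2 : ZMod h)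
    (hc1 : ∀ v, Lk (red m h x) (red m h y) X Y v v1)
    (hc2 : ∀ v, Lk (red m h x) (red m h y) (fun v => ¬ X v) (fun v => ¬ Y v) v v2)
    (hX1 : ∃ v, X v) (hX2 : ∃ v, ¬ X v) (hY1 : ∃ v, Y v) (hY2 : ∃ v, ¬ Y v) :
    TwoCycAll m h x y := by
  classical
  have hNZ : NeZero h := ⟨by omega⟩
  have h2u : IsUnit (2 : ZMod h) := by
    have : IsUnit ((2 : ℕ) : ZMod h) := by
      rw [ZMod.isUnit_iff_coprime]
      exact Nat.coprime_two_left.2 hh
    exact_mod_cast this
  have hneg : ∀ z : ZMod h, z ≠ 0 → z ≠ -z := by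
    intro z hz h1
    apply hz
    have : (2 : ZMod h) * z = 0 := by linear_combination h1
    exact (h2u.mul_right_eq_zero).1 this
  have hreg' : Reg (red m h x) (red m h y) (fun v => ¬ X v) (fun v => ¬ Y v) :=
    fun v => (hreg v).compl
  have S1 := exists_step h3 x y X Y hx hy (hneg _ hx) (hneg _ hy) hab hab' hreg v1 hc1
  have S2 := exists_step h3 x y _ _ hx hy (hneg _ hx) (hneg _ hy) hab hab' hreg' v2 hc2
  have C1 := cyc_shift x y X Y S1
  have C2 := cyc_shift x y (fun v => ¬ X v) (fun v => ¬ Y v) S2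
  -- the edges are covered
  have cov : ∀ (τ : ZMod h) (v v' : ZMod (m * h)), (v' = v + x ∨ v' = v + y) →
      ((v' = v + x ∧ X (red m h v - τ)) ∨ (v' = v + y ∧ Y (red m h v - τ))) ∨
      ((v' = v + x ∧ ¬ X (red m h v - τ)) ∨ (v' = v + y ∧ ¬ Y (red m h v - τ))) := by
    intro τ v v' hv
    rcases hv with hv | hv
    · by_cases h4 : X (red m h v - τ)
      · exact Or.inl (Or.inl ⟨hv, h4⟩)
      · exact Or.inr (Or.inl ⟨hv, h4⟩)
    · by_cases h4 : Y (red m h v - τ)
      · exact Or.inl (Or.inr ⟨hv, h4⟩)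
      · exact Or.inr (Or.inr ⟨hv, h4⟩)
  have mk : ∀ (τ : ZMod h) (p q p' q' : ZMod (m * h)),
      ((q = p + x ∧ X (red m h p - τ)) ∨ (q = p + y ∧ Y (red m h p - τ))) →
      ((q' = p' + x ∧ ¬ X (red m h p' - τ)) ∨ (q' = p' + y ∧ ¬ Y (red m h p' - τ))) →
      TwoCyc m h x y p q p' q' := by
    intro τ p q p' q' h1 h2
    refine ⟨_, _, C1 τ p q h1, C2 τ p' q' h2, ?_⟩
    intro v v' hv
    rcases cov τ v v' hv with h4 | h4
    · exact Or.inl (Or.inl h4)
    · exact Or.inr (Or.inl h4)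
  refine ⟨fun p p' => ?_, fun p p' hp => ?_, fun p p' hp => ?_⟩
  · -- one edge of each type
    by_cases k1 : ∃ v, X v ∧ ¬ Y (v + (red m h p' - red m h p))
    · obtain ⟨v, k2, k3⟩ := k1
      refine mk (red m h p - v) _ _ _ _ (Or.inl ⟨rfl, ?_⟩) (Or.inr ⟨rfl, ?_⟩)
      · have e : red m h p - (red m h p - v) = v := by ring
        rw [e]; exact k2
      · have e : red m h p' - (red m h p - v) = v + (red m h p' - red m h p) := by ring
        rw [e]; exact k3
    by_cases k1' : ∃ v, ¬ X v ∧ Y (v + (red m h p' - red m h p))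
    · obtain ⟨v, k2, k3⟩ := k1'
      refine (mk (red m h p - v) p' (p' + y) p (p + x) (Or.inr ⟨rfl, ?_⟩)
        (Or.inl ⟨rfl, ?_⟩)).flip
      · have e : red m h p' - (red m h p - v) = v + (red m h p' - red m h p) := by ring
        rw [e]; exact k3
      · have e : red m h p - (red m h p - v) = v := by ring
        rw [e]; exact k2
    exfalso
    push Not at k1 k1'
    have hc : (Finset.univ.filter X).card = (Finset.univ.filter Y).card := by
      apply Finset.card_bij (fun v _ => v + (red m h p' - red m h p))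
      · intro v hv
        rw [Finset.mem_filter] at hv ⊢
        exact ⟨Finset.mem_univ _, k1 v hv.2⟩
      · intro v _ v' _ hvv
        exact add_right_cancel hvv
      · intro v hv
        rw [Finset.mem_filter] at hv
        refine ⟨v - (red m h p' - red m h p), ?_, by ring⟩
        rw [Finset.mem_filter]
        refine ⟨Finset.mem_univ _, ?_⟩
        by_contra k3
        have := k1' _ k3
        rw [sub_add_cancel] at this
        exact this hv.2
    have h4 := hreg.card
    obtain ⟨r, hr⟩ := hh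
    omega
  · obtain ⟨u, hu⟩ := hX1
    obtain ⟨w, hw⟩ := hX2
    obtain ⟨v, k1, k2⟩ := exists_change _ hp X u w hu hw
    rw [map_sub] at k2
    refine mk (red m h p - v) _ _ _ _ (Or.inl ⟨rfl, ?_⟩) (Or.inl ⟨rfl, ?_⟩)
    · have e : red m h p - (red m h p - v) = v := by ring
      rw [e]; exact k1
    · have e : red m h p' - (red m h p - v) = v + (red m h p' - red m h p) := by ring
      rw [e]; exact k2
  · obtain ⟨u, hu⟩ := hY1
    obtain ⟨w, hw⟩ := hY2
    obtain ⟨v, k1, k2⟩ := exists_change _ hp Y u w hu hw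
    rw [map_sub] at k2
    refine mk (red m h p - v) _ _ _ _ (Or.inr ⟨rfl, ?_⟩) (Or.inr ⟨rfl, ?_⟩)
    · have e : red m h p - (red m h p - v) = v := by ring
      rw [e]; exact k1
    · have e : red m h p' - (red m h p - v) = v + (red m h p' - red m h p) := by ring
      rw [e]; exact k2

end Pool.Agent.P45
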