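import Pool.Agent.Lib.P45dba8.Grid2
import Pool.Agent.Lib.P45dba8.HamEd
import Pool.Agent.Lib.P45dba8.PairGood

/-! # Two Hamilton cycles for an arbitrary pair of types without common divisor -/

set_option autoImplicit false

namespace Pool.Agent.P45

theorem grid_of {h : ℕ} (h0 : 0 < h) (a b : ZMod h) (g : ℕ) (hg : g = Nat.gcd b.val h)
    (hc : Nat.Coprime a.val g) : Grid a b g (h / g) := by
  have hNZ : NeZero h := ⟨by omega⟩
  have hgh : g ∣ h := by rw [hg]; exact Nat.gcd_dvd_right _ _
  have hgb : g ∣ b.val := by rw [hg]; exact Nat.gcd_dvd_left _ _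
  have hg0 : 0 < g := Nat.pos_of_dvd_of_pos hgh h0
  have cast : ∀ i j : ℕ, gp a b i j = ((i * a.val + j * b.val : ℕ) : ZMod h) := by
    intro i j
    unfold gp
    push_cast
    rw [ZMod.natCast_zmod_val, ZMod.natCast_zmod_val]
  refine ⟨Nat.mul_div_cancel' hgh, ?_, ?_⟩
  · intro i i' j j' hi hi' H
    rw [cast, cast, ZMod.natCast_eq_natCast_iff] at H
    have h1 : i * a.val + j * b.val ≡ i' * a.val + j' * b.val [MOD g] := H.of_dvd hgh
    have h2 : ∀ k : ℕ, k * b.val ≡ 0 [MOD g] := fun k =>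
      (Nat.modEq_zero_iff_dvd).2 (Dvd.dvd.mul_left hgb k)
    have h3 : i * a.val + j * b.val ≡ i * a.val + 0 [MOD g] := Nat.ModEq.add_left _ (h2 j)
    have h4 : i' * a.val + j' * b.val ≡ i' * a.val + 0 [MOD g] := Nat.ModEq.add_left _ (h2 j')
    have h5 : i * a.val ≡ i' * a.val [MOD g] := (h3.symm.trans (h1.trans h4))
    have h6 : i ≡ i' [MOD g] := Nat.ModEq.cancel_right_of_coprime (hc.symm) h5
    exact Nat.ModEq.eq_of_lt_of_lt h6 hi hi'
  · intro j j'
    have c2 : ∀ k : ℕ, (k : ZMod h) * b = ((k * b.val : ℕ) : ZMod h) := by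
      intro k
      push_cast
      rw [ZMod.natCast_zmod_val]
    rw [c2, c2, ZMod.natCast_eq_natCast_iff]
    constructor
    · intro H
      have := Nat.ModEq.cancel_right_div_gcd h0 H
      rwa [Nat.gcd_comm, ← hg] at this
    · intro H
      obtain ⟨b', hb'⟩ := hgb
      have h1 : g * j ≡ g * j' [MOD g * (h / g)] := Nat.ModEq.mul_left' g H
      rw [Nat.mul_div_cancel' hgh] at h1
      have h2 := h1.mul_left b'
      have e : ∀ k : ℕ, k * b.val = b' * (g * k) := fun k => by rw [hb']; ring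
      rw [e, e]
      exact h2

theorem reg_sw {h : ℕ} {a b : ZMod h} {g : ℕ} {c : ℕ → ℕ}
    (H1 : ∀ v, Sw a b g c v → ¬ Sw a b g c (v + a))
    (H2 : ∀ v, Sw a b g c v → ¬ Sw a b g c (v + b)) :
    Reg a b (fun v => ¬ SX a b g c v) (SY a b g c) := by
  intro v
  have e1 : v - a + a = v := by ring
  have e2 : v - b + b = v := by ring
  have e3 : v - a - b + b = v - a := by ring
  have e4 : v - a - b + a = v - b := by ring
  have e5 : v - b - a = v - a - b := by ring
  have k1 := H1 (v - a)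
  have k2 := H2 (v - b)
  have k3 := H2 (v - a - b)
  have k4 := H1 (v - a - b)
  rw [e1] at k1
  rw [e2] at k2
  rw [e3] at k3
  rw [e4] at k4
  unfold two4 SX SY
  rw [e5]
  by_cases s0 : Sw a b g c v <;> by_cases s1 : Sw a b g c (v - b) <;>
    by_cases s2 : Sw a b g c (v - a) <;> by_cases s3 : Sw a b g c (v - a - b) <;>
    simp_all

theorem Grid.reg {h : ℕ} {a b : ZMod h} {g L : ℕ} (G : Grid a b g L) {c : ℕ → ℕ} (hL : 3 ≤ L)
    (hc : ∀ i, ¬ c (i + 1) ≡ c i [MOD L]) :
    Reg a b (fun v => ¬ SX a b g c v) (SY a b g c) := by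
  apply reg_sw
  · rintro v ⟨i, h1, rfl⟩ h2
    rw [gp_a, G.sw (by omega)] at h2
    exact hc i h2.2.symm
  · rintro v ⟨i, h1, rfl⟩ h2
    rw [gp_b, G.sw (by omega)] at h2
    exact not_modEq (by omega) (by omega) h2.2

theorem cc_nmod {u L : ℕ} (hu : u % 2 = 0) (hL : u + 3 ≤ L) (i : ℕ) :
    ¬ cc u (i + 1) ≡ cc u i [MOD L] := by
  intro H
  have h1 := cc_le u (i + 1)
  have h2 := cc_le u i
  exact cc_ne hu i (Nat.ModEq.eq_of_lt_of_lt H (by omega) (by omega))

theorem twoCycAll_grid {m h : ℕ} (hh : Odd h) (h3 : 3 ≤ h) (x y : ZMod (m * h))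
    (hx : red m h x ≠ 0) (hy : red m h y ≠ 0)
    (hab : red m h x ≠ red m h y) (hab' : red m h x ≠ -red m h y)
    {g L u : ℕ} (G : Grid (red m h x) (red m h y) g L) (hg : 3 ≤ g) (hu : u % 2 = 0)
    (hL : u + 3 ≤ L)
    (hconn : ∀ v, L1 (red m h x) (red m h y) g (cc u) v (gp (red m h x) (red m h y) 0 (cc u 0))) :
    TwoCycAll m h x y := by
  have hc := cc_nmod (L := L) hu hL
  refine twoCycAll_of hh h3 x y hx hy hab hab'
    (fun v => ¬ SX (red m h x) (red m h y) g (cc u) v) (SY (red m h x) (red m h y) g (cc u))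
    (G.reg (by omega) hc) _ (gp (red m h x) (red m h y) 0 (cc u 0 + 1)) hconn ?_ ?_ ?_ ?_ ?_
  · intro v
    have := G.conn2 (by omega) (by omega) hc v (by omega)
    have e : (fun v => ¬ ¬ SX (red m h x) (red m h y) g (cc u) v) =
        SX (red m h x) (red m h y) g (cc u) := by
      funext v
      exact propext not_not
    rw [e]
    exact this
  · refine ⟨gp (red m h x) (red m h y) (g - 1) 0, ?_⟩
    rw [G.sx (by omega)]
    omega
  · exact ⟨gp (red m h x) (red m h y) 0 (cc u 0), not_not.2 ((sx_iff _).2 ⟨0, by omega, Or.inl rfl⟩)⟩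
  · exact ⟨gp (red m h x) (red m h y) 0 (cc u 0), sy_self (by omega)⟩
  · refine ⟨gp (red m h x) (red m h y) 0 (cc u 0 + 1), ?_⟩
    rw [G.sy0 (by omega)]
    exact not_modEq (by omega) (by omega)

theorem twoCycAll_core {m h : ℕ} (hh : Odd h) (h3 : 3 ≤ h) (x y : ZMod (m * h))
    (hx : red m h x ≠ 0) (hy : red m h y ≠ 0) (hcop : cop (red m h x) (red m h y))
    (hlt : Nat.gcd (red m h x).val h < Nat.gcd (red m h y).val h) : TwoCycAll m h x y := by
  have hNZ : NeZero h := ⟨by omega⟩
  have hF1 : Fact (1 < h) := ⟨by omega⟩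
  -- the general part
  have gen : ∀ y : ZMod (m * h), red m h y ≠ 0 → cop (red m h x) (red m h y) →
      Nat.gcd (red m h x).val h < Nat.gcd (red m h y).val h →
      (Nat.gcd (red m h x).val h = 1 → ∃ γ : ℕ, red m h y = (γ : ZMod h) * red m h x ∧
        γ < h ∧ 2 * γ < h) → TwoCycAll m h x y := by
    intro y hy hcop hlt hγ
    set a := red m h x with ha
    set b := red m h y with hb
    set s := Nat.gcd a.val h with hs
    set g := Nat.gcd b.val h with hg
    have hsh : s ∣ h := Nat.gcd_dvd_right _ _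
    have hgh : g ∣ h := Nat.gcd_dvd_right _ _
    have hs0 : 0 < s := Nat.pos_of_dvd_of_pos hsh (by omega)
    have hg0 : 0 < g := Nat.pos_of_dvd_of_pos hgh (by omega)
    have hso : Odd s := hh.of_dvd_nat hsh
    have hgo : Odd g := hh.of_dvd_nat hgh
    have hsg : Nat.Coprime s g := by
      have : Nat.gcd s g ∣ 1 := by
        rw [← hcop]
        apply Nat.dvd_gcd (Nat.dvd_gcd _ _) _
        · exact ((Nat.gcd_dvd_left _ _).trans (Nat.gcd_dvd_left _ _))
        · exact ((Nat.gcd_dvd_right _ _).trans (Nat.gcd_dvd_left _ _))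
        · exact ((Nat.gcd_dvd_left _ _).trans hsh)
      exact Nat.dvd_one.1 this
    have hag : Nat.Coprime a.val g := by
      have : Nat.gcd a.val g ∣ 1 := by
        rw [← hcop]
        apply Nat.dvd_gcd (Nat.dvd_gcd (Nat.gcd_dvd_left _ _) _) _
        · exact ((Nat.gcd_dvd_right _ _).trans (Nat.gcd_dvd_left _ _))
        · exact ((Nat.gcd_dvd_right _ _).trans hgh)
      exact Nat.dvd_one.1 this
    have hbs : Nat.Coprime b.val s := by
      have : Nat.gcd b.val s ∣ 1 := by
        rw [← hcop]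
        apply Nat.dvd_gcd (Nat.dvd_gcd _ (Nat.gcd_dvd_left _ _)) _
        · exact ((Nat.gcd_dvd_right _ _).trans (Nat.gcd_dvd_left _ _))
        · exact ((Nat.gcd_dvd_right _ _).trans hsh)
      exact Nat.dvd_one.1 this
    have G : Grid a b g (h / g) := grid_of (by omega) a b g hg hag
    have G' : Grid b a s (h / s) := grid_of (by omega) b a s hs hbs
    have hsgh : s * g ∣ h := hsg.mul_dvd_of_dvd_of_dvd hsh hgh
    have hLg : g * (h / g) = h := Nat.mul_div_cancel' hgh
    have hMs : s * (h / s) = h := Nat.mul_div_cancel' hsh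
    set L := h / g with hL
    set M := h / s with hM
    have hsL : s ∣ L := by
      have : g * s ∣ g * L := by rw [hLg, mul_comm]; exact hsgh
      exact Nat.dvd_of_mul_dvd_mul_left hg0 this
    have hgM : g ∣ M := by
      have : s * g ∣ s * M := by rw [hMs]; exact hsgh
      exact Nat.dvd_of_mul_dvd_mul_left hs0 this
    have hLo : Odd L := by
      rw [← hLg] at hh
      exact (Nat.odd_mul.1 hh).2
    have hL1 : L ≠ 1 := by
      intro h1
      rw [h1, mul_one] at hLg
      have h4 : g ∣ b.val := Nat.gcd_dvd_left _ _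
      have h5 := ZMod.val_lt b
      have h6 : b.val ≠ 0 := fun h' => hy ((ZMod.val_eq_zero b).1 h')
      have := Nat.le_of_dvd (by omega) h4
      omega
    have hL3 : 3 ≤ L := by
      obtain ⟨r, hr⟩ := hLo
      omega
    have hgo' : g % 2 = 1 := Nat.odd_iff.1 hgo
    have hso' : s % 2 = 1 := Nat.odd_iff.1 hso
    have hg3 : 3 ≤ g := by omega
    have hM0 : 0 < M := by
      rcases Nat.eq_zero_or_pos M with h1 | h1
      · rw [h1, mul_zero] at hMs; omega
      · exact h1
    have hgM' : g ≤ M := Nat.le_of_dvd hM0 hgM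
    have hsL' : s ≤ L := Nat.le_of_dvd (by omega) hsL
    have hgne : ∀ z : ZMod h, (z = b ∨ z = -b) → ¬ (a = z) := by
      intro z hz haz
      have h1 : g ∣ a.val := by
        have h2 : ((a.val : ℕ) : ZMod g) = 0 := by
          have h4 : ((b.val : ℕ) : ZMod g) = 0 :=
            (ZMod.natCast_eq_zero_iff _ _).2 (Nat.gcd_dvd_left _ _)
          have h5 : ZMod.castHom hgh (ZMod g) b = 0 := by
            rw [← ZMod.natCast_zmod_val b, map_natCast]; exact h4
          have h6 : ZMod.castHom hgh (ZMod g) a = 0 := by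
            rw [haz]
            rcases hz with rfl | rfl
            · exact h5
            · rw [map_neg, h5, neg_zero]
          rw [← ZMod.natCast_zmod_val a, map_natCast] at h6
          exact h6
        exact (ZMod.natCast_eq_zero_iff _ _).1 h2
      have h2 : g ∣ Nat.gcd a.val g := Nat.dvd_gcd h1 dvd_rfl
      rw [hag] at h2
      have := Nat.dvd_one.1 h2
      omega
    have hab : a ≠ b := hgne b (Or.inl rfl)
    have hab' : a ≠ -b := hgne (-b) (Or.inr rfl)
    by_cases h1 : s = 1
    · obtain ⟨γ, k1, k2, k3⟩ := hγ h1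
      have k4 : g ∣ γ := by
        have h4 : ((b.val : ℕ) : ZMod h) = ((γ * a.val : ℕ) : ZMod h) := by
          push_cast
          rw [ZMod.natCast_zmod_val, ZMod.natCast_zmod_val]; exact k1
        rw [ZMod.natCast_eq_natCast_iff] at h4
        have h5 : b.val ≡ γ * a.val [MOD g] := h4.of_dvd hgh
        have h6 : b.val ≡ 0 [MOD g] := (Nat.modEq_zero_iff_dvd).2 (Nat.gcd_dvd_left _ _)
        have h7 : γ * a.val ≡ 0 [MOD g] := h5.symm.trans h6
        exact (Nat.Coprime.dvd_mul_right hag.symm).1 ((Nat.modEq_zero_iff_dvd).1 h7)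
      have k5 : γ ≠ 0 := by
        rintro rfl
        apply hy
        rw [k1, Nat.cast_zero, zero_mul]
      have k6 : g ≤ γ := Nat.le_of_dvd (by omega) k4
      have k7 : g ∣ h - 2 * γ := Nat.dvd_sub hgh (Dvd.dvd.mul_left k4 2)
      have k8 : g ≤ h - 2 * γ := Nat.le_of_dvd (by omega) k7
      have hMh : M = h := by rw [h1, one_mul] at hMs; exact hMs
      have G1 : Grid b a 1 M := by rw [← h1]; exact G'
      exact twoCycAll_grid hh h3 x y hx hy hab hab' G hg3 (u := 0) rfl hL3
        (G.conn1_one G1 hL3 hg3 hgo' γ k1 k6 (by omega))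
    · have h2 : 3 ≤ s := by omega
      have e : s - 3 + 3 = s := by omega
      have G1 : Grid b a (s - 3 + 3) M := by rw [e]; exact G'
      exact twoCycAll_grid hh h3 x y hx hy hab hab' G hg3 (u := s - 3) (by omega) (by omega)
        (G.conn1_big G1 (by omega) (by omega) (by omega) hgo' hgM')
  by_cases h1 : Nat.gcd (red m h x).val h = 1
  · have hu : IsUnit (red m h x) := by
      rw [← ZMod.natCast_zmod_val (red m h x), ZMod.isUnit_iff_coprime]
      exact h1
    obtain ⟨U, hU⟩ := hu
    by_cases h2 : 2 * ((red m h y) * ↑U⁻¹ : ZMod h).val < h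
    · refine gen y hy hcop hlt (fun _ => ⟨((red m h y) * ↑U⁻¹ : ZMod h).val, ?_, ZMod.val_lt _, h2⟩)
      rw [ZMod.natCast_zmod_val, ← hU, mul_assoc, Units.inv_mul, mul_one]
    · have e0 : ((red m h y) * ↑U⁻¹ : ZMod h) ≠ 0 := by
        intro h4
        apply hy
        have h5 : (red m h y) * ↑U⁻¹ * (U : ZMod h) = 0 := by rw [h4, zero_mul]
        rwa [mul_assoc, Units.inv_mul, mul_one] at h5
      have e1 : (-((red m h y) * ↑U⁻¹) : ZMod h).val = h - ((red m h y) * ↑U⁻¹ : ZMod h).val := by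
        rw [ZMod.neg_val, if_neg e0]
      have e2 := ZMod.val_lt ((red m h y) * ↑U⁻¹ : ZMod h)
      have e3 : ((red m h y) * ↑U⁻¹ : ZMod h).val ≠ 0 := fun h' => e0 ((ZMod.val_eq_zero _).1 h')
      have hyn : red m h (-y) ≠ 0 := by rw [map_neg]; exact neg_ne_zero.2 hy
      have e4 : (red m h (-y)).val = h - (red m h y).val := by
        rw [map_neg, ZMod.neg_val, if_neg hy]
      have e5 := ZMod.val_lt (red m h y)
      have e6 : Nat.gcd (red m h (-y)).val h = Nat.gcd (red m h y).val h := by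
        rw [e4]
        exact Nat.gcd_self_sub_left e5.le
      have hcopn : cop (red m h x) (red m h (-y)) := by
        have h7 : Nat.gcd (Nat.gcd (red m h x).val (red m h (-y)).val) h =
            Nat.gcd (red m h x).val (Nat.gcd (red m h (-y)).val h) := Nat.gcd_assoc _ _ _
        show Nat.gcd (Nat.gcd (red m h x).val (red m h (-y)).val) h = 1
        rw [h7, e6, ← Nat.gcd_assoc]
        exact hcop
      refine (gen (-y) hyn hcopn (by rw [e6]; exact hlt) (fun _ =>
        ⟨(-((red m h y) * ↑U⁻¹) : ZMod h).val, ?_, ZMod.val_lt _, by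
          rw [e1]
          have hodd : h % 2 = 1 := Nat.odd_iff.1 hh
          omega⟩)).neg_right
      rw [ZMod.natCast_zmod_val, ← hU, neg_mul, mul_assoc, Units.inv_mul, mul_one, map_neg]
  · exact gen y hy hcop hlt (fun h' => absurd h' h1)

/-- Two types without common divisor. -/
theorem twoCycAll {m h : ℕ} (hh : Odd h) (h3 : 3 ≤ h) (x y : ZMod (m * h))
    (hx : red m h x ≠ 0) (hy : red m h y ≠ 0) (hcop : cop (red m h x) (red m h y)) :
    TwoCycAll m h x y := by
  have hNZ : NeZero h := ⟨by omega⟩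
  rcases lt_trichotomy (Nat.gcd (red m h x).val h) (Nat.gcd (red m h y).val h) with h1 | h1 | h1
  · exact twoCycAll_core hh h3 x y hx hy hcop h1
  · have h2 : Nat.gcd (red m h x).val h = 1 := by
      have : Nat.gcd (red m h x).val h ∣ 1 := by
        rw [← hcop]
        apply Nat.dvd_gcd (Nat.dvd_gcd (Nat.gcd_dvd_left _ _) _) (Nat.gcd_dvd_right _ _)
        rw [h1]
        exact Nat.gcd_dvd_left _ _
      exact Nat.dvd_one.1 this
    have hu : ∀ z : ZMod h, Nat.gcd z.val h = 1 → IsUnit z := by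
      intro z hz
      rw [← ZMod.natCast_zmod_val z, ZMod.isUnit_iff_coprime]
      exact hz
    exact twoCyc_units hh h3 x y (hu _ h2) (hu _ (by rw [← h1]; exact h2))
  · exact (twoCycAll_core hh h3 y x hy hx (cop_symm hcop) h1).comm

/-- LIFT: a good family modulo `m` and one pair of types modulo `m h` whose residues modulo `h`
are different from zero and have no common divisor. -/
theorem Good.lift {m h : ℕ} (hm : Odd m) (hh : Odd h) (h3 : 3 ≤ h) {ι κ : Type*}
    {Q : ZMod m → Prop} (hQ : ∀ x, IsUnit x → Q x)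
    {t : ι → ZMod m} {d u : κ → ZMod m} (hG : Good m Q t d u) (hD : Dist t d u)
    (c : ι ⊕ κ → Bool) (hc : ∀ b, ∃ i, c i = b) (x y : ZMod (m * h))
    (hx : red m h x ≠ 0) (hy : red m h y ≠ 0) (hcop : cop (red m h x) (red m h y)) :
    Good (m * h) IsUnit (fun i => psi m h (t i))
      (fun k : Option κ => k.elim x (fun k => psi m h (d k)))
      (fun k : Option κ => k.elim y (fun k => psi m h (u k))) :=
  hG.lift_of hm hh h3 hQ hD c hc x y (twoCycAll hh h3 x y hx hy hcop)

end Pool.Agent.P45
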