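import Pool.Agent.Lib.P45dba8.JointL
import Pool.Agent.Lib.P45dba8.TwoCycAll
import Pool.Agent.Lib.P45dba8.Hub5

/-! # Good families with leaves

`GoodL n a t d u`: the types `t`, `d`, `u` as in `Good`; every leaf `l` has the type `a l` and its
final hole is the edge `{P l, P l + 1}` of type 1 (exchanged square at `P l`, `Q l = P l + a l`). -/

set_option autoImplicit false

namespace Pool.Agent.P45

theorem LeafE.mono {n : ℕ} {Λ : Type*} {P Q : Λ → ZMod n} {E E' : ZMod n → ZMod n → Prop}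
    (h : ∀ u v, E' u v → E u v) {u v : ZMod n} (H : LeafE P Q E' u v) : LeafE P Q E u v := by
  rcases H with ⟨h1, h2, h3⟩ | h1
  · exact Or.inl ⟨h _ _ h1, h2, h3⟩
  · exact Or.inr h1

/-- A family with leaves. -/
def GoodL (n : ℕ) {Λ ι κ : Type*} (a : Λ → ZMod n) (t : ι → ZMod n) (d u : κ → ZMod n) : Prop :=
  ∀ (PL : Λ → ZMod n) (P A : ι ⊕ κ × Bool → ZMod n), (∀ i, A (Sum.inl i) = t i) →
    (∀ k, adm IsUnit (d k) (u k) (A (Sum.inr (k, false))) (A (Sum.inr (k, true)))
      (P (Sum.inr (k, true)) - P (Sum.inr (k, false)))) →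
    TS Set.univ (LeafE PL (fun l => PL l + a l) (DE (FD (Sum.elim a t) d u)))
      (Sum.elim (fun l b => bif b then PL l + 1 else PL l) (fh P A))

/-- LIFT with leaves: a good family of `ZMod m` with at least two items, leaves which are units of
`ZMod m`, and one pair of types modulo `m h`. -/
theorem Good.liftL {m h : ℕ} (hm : Odd m) (hh : Odd h) (h3 : 3 ≤ h) {ι κ Λ : Type*}
    [Nonempty Λ] {Q : ZMod m → Prop} (hQ : ∀ x, IsUnit x → Q x)
    {t : ι → ZMod m} {d u : κ → ZMod m} (hG : Good m Q t d u)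
    (a : Λ → ZMod m) (ha : ∀ l, IsUnit (a l)) (hD : Dist (Sum.elim a t) d u)
    (hT0 : ∀ k, tyy t d u k ≠ 0) (htwo : ∃ i i' : ι ⊕ κ, i ≠ i') (x y : ZMod (m * h))
    (hx : red m h x ≠ 0) (hy : red m h y ≠ 0) (hcop : cop (red m h x) (red m h y)) :
    GoodL (m * h) (fun l => psi m h (a l)) (fun i => psi m h (t i))
      (fun k : Option κ => k.elim x (fun k => psi m h (d k)))
      (fun k : Option κ => k.elim y (fun k => psi m h (u k))) := by
  classical
  have hF1 : Fact (1 < h) := ⟨by omega⟩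
  have hinj := psi_inj m h (by omega)
  have hm0 : 0 < m := hm.pos
  have hn1 : 1 < m * h := by nlinarith
  obtain ⟨i₁, i₂, hne⟩ := htwo
  let c : ι ⊕ κ → Bool := fun i => decide (i = i₁)
  have hc : ∀ b, ∃ i, c i = b := by
    rintro (_ | _)
    · exact ⟨i₂, decide_eq_false hne.symm⟩
    · exact ⟨i₁, decide_eq_true rfl⟩
  have hone : ∀ i i', c i = true → c i' = true → i = i' := by
    intro i i' h1 h2
    exact (of_decide_eq_true h1).trans (of_decide_eq_true h2).symm
  intro PL P A hA hP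
  obtain ⟨H1, H2, H3⟩ := twoCycAll hh h3 x y hx hy hcop
  let e1 : ι ⊕ κ × Bool → ι ⊕ Option κ × Bool := Sum.map id (fun k => (some k.1, k.2))
  have hu0 : ∀ δ : ZMod (m * h), IsUnit δ → red m h δ ≠ 0 := fun δ hδ =>
    (hδ.map (red m h)).ne_zero
  have hA1 : ∀ i, (A ∘ e1) (Sum.inl i) = psi m h (t i) := fun i => hA i
  have hP1 : ∀ k, adm (fun δ => red m h δ ≠ 0) (psi m h (d k)) (psi m h (u k))
      ((A ∘ e1) (Sum.inr (k, false))) ((A ∘ e1) (Sum.inr (k, true)))
      ((P ∘ e1) (Sum.inr (k, true)) - (P ∘ e1) (Sum.inr (k, false))) := by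
    intro k
    rcases hP (some k) with h1 | h1 | ⟨h1, h2⟩
    · exact Or.inl h1
    · exact Or.inr (Or.inl h1)
    · exact Or.inr (Or.inr ⟨h1, hu0 _ h2⟩)
  have hPQ : ∀ l, PL l ≠ PL l + psi m h (a l) := by
    intro l h4
    have h5 : psi m h (a l) = psi m h 0 := by
      rw [map_zero]; linear_combination -h4
    have h6 := hinj h5
    obtain ⟨i | k, _⟩ := hc true
    · exact (hD (Sum.inl (Sum.inl l)) (Sum.inl (Sum.inr i)) (by simp)).1 (by
        have hm1 : m = 1 := by
          by_contra hm1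
          have hFm : Fact (1 < m) := ⟨by omega⟩
          exact (ha l).ne_zero h6
        subst hm1
        exact Subsingleton.elim _ _)
    · exact (hD (Sum.inl (Sum.inl l)) (Sum.inr (k, false)) (by simp)).1 (by
        have hm1 : m = 1 := by
          by_contra hm1
          have hFm : Fact (1 < m) := ⟨by omega⟩
          exact (ha l).ne_zero h6
        subst hm1
        exact Subsingleton.elim _ _)
  have fin : ∀ q q' : ZMod (m * h), A (Sum.inr (none, false)) = q →
      A (Sum.inr (none, true)) = q' →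
      TwoCyc m h x y (P (Sum.inr (none, false))) (P (Sum.inr (none, false)) + q)
        (P (Sum.inr (none, true))) (P (Sum.inr (none, true)) + q') →
      TS Set.univ (LeafE PL (fun l => PL l + psi m h (a l))
        (DE (FD (Sum.elim (fun l => psi m h (a l)) (fun i => psi m h (t i)))
        (fun k : Option κ => k.elim x (fun k => psi m h (d k)))
        (fun k : Option κ => k.elim y (fun k => psi m h (u k))))))
        (Sum.elim (fun l b => bif b then PL l + 1 else PL l) (fh P A)) := by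
    intro q q' hq hq' hT
    obtain ⟨E, E', c1, c2, c3⟩ := hT
    obtain ⟨V, key⟩ := hG.jointL hm hh h3 hQ a ha hD hT0 c hc true hone
      (fun b => bif b then E' else E)
      (fun b => bif b then P (Sum.inr (none, true)) else P (Sum.inr (none, false)))
      (fun b => bif b then P (Sum.inr (none, true)) + q' else P (Sum.inr (none, false)) + q)
      (by rintro (_ | _); exacts [c1, c2]) PL (P ∘ e1) (A ∘ e1) hA1 hP1
    have key2 := TSM.leafC hn1 PL (fun l => PL l + psi m h (a l)) V hPQ _ _ key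
    let σ : ι ⊕ Option κ × Bool ≃ Bool ⊕ (ι ⊕ κ × Bool) :=
      { toFun := Sum.elim (fun i => Sum.inr (Sum.inl i))
          (fun k => k.1.elim (Sum.inl k.2) (fun j => Sum.inr (Sum.inr (j, k.2))))
        invFun := Sum.elim (fun b => Sum.inr (none, b)) e1
        left_inv := by
          rintro (i | ⟨_ | k, b⟩)
          · rfl
          · rfl
          · rfl
        right_inv := by
          rintro (b | (i | ⟨k, b⟩))
          · rfl
          · rfl
          · rfl }
    refine ((key2.reindex (Equiv.sumCongr (Equiv.refl Λ) σ)).mono ?_).congr ?_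
    · rintro v - v' - hvv'
      refine LeafE.mono ?_ hvv'
      rintro v v' ⟨δ, hδ, hvv⟩
      have hxy : (δ = x ∨ δ = y) →
          ∃ j : Bool, (bif j then E' else E) v v' ∨ (bif j then E' else E) v' v := by
        intro h4
        have h5 : ((E v v' ∨ E v' v) ∨ (E' v v' ∨ E' v' v)) := by
          rcases hvv with hvv | hvv
          · exact c3 v v' (by rcases h4 with rfl | rfl; exacts [Or.inl hvv, Or.inr hvv])
          · rcases c3 v' v (by rcases h4 with rfl | rfl; exacts [Or.inl hvv, Or.inr hvv])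
              with h6 | h6
            · exact Or.inl h6.symm
            · exact Or.inr h6.symm
        rcases h5 with h5 | h5
        · exact ⟨false, h5⟩
        · exact ⟨true, h5⟩
      rcases hδ with ⟨l | i, hi⟩ | ⟨_ | k, hk⟩
      · exact Or.inl ⟨δ, Or.inl ⟨Sum.inl l, hi⟩, hvv⟩
      · exact Or.inl ⟨δ, Or.inl ⟨Sum.inr i, hi⟩, hvv⟩
      · exact Or.inr (hxy hk)
      · exact Or.inl ⟨δ, Or.inr ⟨k, hk⟩, hvv⟩
    · rintro (l | i | ⟨_ | k, b'⟩) b
      · rfl
      · rfl
      · cases b'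
        · show P (Sum.inr (none, false)) + (bif b then A (Sum.inr (none, false)) else 0) =
            (bif b then P (Sum.inr (none, false)) + q else P (Sum.inr (none, false)))
          rw [hq]
          cases b
          · exact add_zero _
          · rfl
        · show P (Sum.inr (none, true)) + (bif b then A (Sum.inr (none, true)) else 0) =
            (bif b then P (Sum.inr (none, true)) + q' else P (Sum.inr (none, true)))
          rw [hq']
          cases b
          · exact add_zero _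
          · rfl
      · rfl
  rcases hP none with ⟨h1, h2⟩ | ⟨h1, h2⟩ | ⟨⟨h1, h2⟩ | ⟨h1, h2⟩, h4⟩
  · exact fin x y h1 h2 (H1 _ _)
  · exact fin y x h1 h2 (H1 _ _).flip
  · exact fin x x h1 h2 (H2 _ _ (h4.map (red m h)))
  · exact fin y y h1 h2 (H3 _ _ (h4.map (red m h)))

/-- No leaves. -/
theorem Good.toL {n : ℕ} {Λ ι κ : Type*} [IsEmpty Λ] (a : Λ → ZMod n) {t : ι → ZMod n}
    {d u : κ → ZMod n} (hG : Good n IsUnit t d u) : GoodL n a t d u := by
  intro PL P A hA hP
  have h1 := hG P A hA hP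
  refine ((h1.mono ?_).reindex (Equiv.emptySum Λ _)).congr ?_
  · rintro v - v' - (⟨⟨δ, hδ, h2⟩, -, -⟩ | ⟨l, -⟩)
    · refine ⟨δ, ?_, h2⟩
      rcases hδ with ⟨l | i, hi⟩ | hk
      · exact isEmptyElim l
      · exact Or.inl ⟨i, hi⟩
      · exact Or.inr hk
    · exact isEmptyElim l
  · rintro (l | k) b
    · exact isEmptyElim l
    · rfl

/-- One unit leaf. -/
theorem goodL_unit {n : ℕ} (hn : Odd n) (h3 : 3 ≤ n) {Λ ι κ : Type*} [Unique Λ] [IsEmpty ι]
    [IsEmpty κ] (a : Λ → ZMod n) (ha : ∀ l, IsUnit (a l)) (ha1 : ∀ l, a l ≠ 1)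
    (ham : ∀ l, a l ≠ -1) (t : ι → ZMod n) (d u : κ → ZMod n) : GoodL n a t d u := by
  intro PL P A _ _
  have h1 := leaf_unit hn h3 (a default) (PL default) (ha _) (ha1 _) (ham _)
  let σ : Λ ⊕ (ι ⊕ κ × Bool) ≃ Unit :=
    { toFun := fun _ => ()
      invFun := fun _ => Sum.inl default
      left_inv := by
        rintro (l | i | k)
        · exact congrArg Sum.inl (Subsingleton.elim _ _)
        · exact isEmptyElim i
        · exact isEmptyElim k.1
      right_inv := fun _ => rfl }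
  refine ((h1.mono ?_).reindex σ).congr ?_
  · rintro v - v' - (⟨⟨δ, hδ, h2⟩, h3, h4⟩ | ⟨l, h2⟩)
    · left
      refine ⟨⟨δ, ?_, h2⟩, fun _ => h3 default, fun _ => h4 default⟩
      rcases hδ with ⟨l | i, hi⟩ | ⟨k, -⟩
      · rw [hi, Subsingleton.elim l default]; rfl
      · exact isEmptyElim i
      · exact isEmptyElim k
    · right
      rw [Subsingleton.elim l default] at h2
      exact ⟨(), h2⟩
  · rintro (l | i | k) b
    · rw [Subsingleton.elim l default]; rfl
    · exact isEmptyElim i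
    · exact isEmptyElim k.1

/-- Union. -/
theorem GoodL.union {n : ℕ} {Λ ι κ Λ' ι' κ' : Type*} {a : Λ → ZMod n} {t : ι → ZMod n}
    {d u : κ → ZMod n} {a' : Λ' → ZMod n} {t' : ι' → ZMod n} {d' u' : κ' → ZMod n}
    (hG : GoodL n a t d u) (hG' : GoodL n a' t' d' u') :
    GoodL n (Sum.elim a a') (Sum.elim t t') (Sum.elim d d') (Sum.elim u u') := by
  intro PL P A hA hP
  have h1 := hG (fun l => PL (Sum.inl l)) (fun x => P (Sum.map Sum.inl (Prod.map Sum.inl id) x))
    (fun x => A (Sum.map Sum.inl (Prod.map Sum.inl id) x)) (fun i => hA (Sum.inl i))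
    (fun k => hP (Sum.inl k))
  have h2 := hG' (fun l => PL (Sum.inr l)) (fun x => P (Sum.map Sum.inr (Prod.map Sum.inr id) x))
    (fun x => A (Sum.map Sum.inr (Prod.map Sum.inr id) x)) (fun i => hA (Sum.inr i))
    (fun k => hP (Sum.inr k))
  let σ : (Λ ⊕ Λ') ⊕ ((ι ⊕ ι') ⊕ (κ ⊕ κ') × Bool) ≃
      (Λ ⊕ (ι ⊕ κ × Bool)) ⊕ (Λ' ⊕ (ι' ⊕ κ' × Bool)) :=
    { toFun := Sum.elim (Sum.elim (fun l => Sum.inl (Sum.inl l)) (fun l => Sum.inr (Sum.inl l)))
        (Sum.elim (Sum.elim (fun i => Sum.inl (Sum.inr (Sum.inl i)))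
          (fun i => Sum.inr (Sum.inr (Sum.inl i))))
        (fun k => Sum.elim (fun k' => Sum.inl (Sum.inr (Sum.inr (k', k.2))))
          (fun k' => Sum.inr (Sum.inr (Sum.inr (k', k.2)))) k.1))
      invFun := Sum.elim (Sum.elim (fun l => Sum.inl (Sum.inl l))
          (fun x => Sum.inr (Sum.map Sum.inl (Prod.map Sum.inl id) x)))
        (Sum.elim (fun l => Sum.inl (Sum.inr l))
          (fun x => Sum.inr (Sum.map Sum.inr (Prod.map Sum.inr id) x)))
      left_inv := by
        rintro ((l | l) | ((i | i) | ⟨k | k, b⟩)) <;> rfl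
      right_inv := by
        rintro ((l | (i | ⟨k, b⟩)) | (l | (i | ⟨k, b⟩))) <;> rfl }
  refine (((h1.union h2).mono ?_).reindex σ).congr ?_
  · rintro v - v' - (⟨⟨δ, hδ, h3⟩, h4, h5⟩ | ⟨l | l, h3⟩)
    · rcases hδ with ⟨(l | l) | (i | i), hi⟩ | ⟨k | k, hk⟩
      · exact Or.inl (Or.inl ⟨⟨δ, Or.inl ⟨Sum.inl l, hi⟩, h3⟩, fun l => h4 (Sum.inl l),
          fun l => h5 (Sum.inl l)⟩)
      · exact Or.inr (Or.inl ⟨⟨δ, Or.inl ⟨Sum.inl l, hi⟩, h3⟩, fun l => h4 (Sum.inr l),
          fun l => h5 (Sum.inr l)⟩)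
      · exact Or.inl (Or.inl ⟨⟨δ, Or.inl ⟨Sum.inr i, hi⟩, h3⟩, fun l => h4 (Sum.inl l),
          fun l => h5 (Sum.inl l)⟩)
      · exact Or.inr (Or.inl ⟨⟨δ, Or.inl ⟨Sum.inr i, hi⟩, h3⟩, fun l => h4 (Sum.inr l),
          fun l => h5 (Sum.inr l)⟩)
      · exact Or.inl (Or.inl ⟨⟨δ, Or.inr ⟨k, hk⟩, h3⟩, fun l => h4 (Sum.inl l),
          fun l => h5 (Sum.inl l)⟩)
      · exact Or.inr (Or.inl ⟨⟨δ, Or.inr ⟨k, hk⟩, h3⟩, fun l => h4 (Sum.inr l),
          fun l => h5 (Sum.inr l)⟩)
    · exact Or.inl (Or.inr ⟨l, h3⟩)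
    · exact Or.inr (Or.inr ⟨l, h3⟩)
  · rintro ((l | l) | ((i | i) | ⟨k | k, b'⟩)) b <;> rfl

/-- Renaming. -/
theorem GoodL.reindex {n : ℕ} {Λ ι κ Λ' ι' κ' : Type*} {a : Λ → ZMod n} {t : ι → ZMod n}
    {d u : κ → ZMod n} (hG : GoodL n a t d u) (eL : Λ' ≃ Λ) (ei : ι' ≃ ι) (ek : κ' ≃ κ) :
    GoodL n (fun l => a (eL l)) (fun i => t (ei i)) (fun k => d (ek k)) (fun k => u (ek k)) := by
  intro PL P A hA hP
  let σ : ι' ⊕ κ' × Bool ≃ ι ⊕ κ × Bool :=
    Equiv.sumCongr ei (Equiv.prodCongr ek (Equiv.refl Bool))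
  have h1 := hG (fun l => PL (eL.symm l)) (fun x => P (σ.symm x)) (fun x => A (σ.symm x))
    (fun i => by
      have h0 : A (Sum.inl (ei.symm i)) = t (ei (ei.symm i)) := hA (ei.symm i)
      rw [Equiv.apply_symm_apply] at h0
      exact h0)
    (fun k => by
      have h0 := hP (ek.symm k)
      beta_reduce at h0
      rw [Equiv.apply_symm_apply] at h0
      exact h0)
  refine ((h1.mono ?_).reindex (Equiv.sumCongr eL σ)).congr ?_
  · rintro v - v' - (⟨⟨δ, hδ, h3⟩, h4, h5⟩ | ⟨l, h3⟩)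
    · left
      refine ⟨⟨δ, ?_, h3⟩, fun l => ?_, fun l => ?_⟩
      · rcases hδ with ⟨l | i, hi⟩ | ⟨k, hk⟩
        · exact Or.inl ⟨Sum.inl (eL l), hi⟩
        · exact Or.inl ⟨Sum.inr (ei i), hi⟩
        · exact Or.inr ⟨ek k, hk⟩
      · have h0 : s(v, v') ≠ s(PL (eL.symm l), PL (eL.symm l) + a (eL (eL.symm l))) :=
          h4 (eL.symm l)
        rw [Equiv.apply_symm_apply] at h0
        exact h0
      · have h0 : s(v, v') ≠ s(PL (eL.symm l) + 1, PL (eL.symm l) + a (eL (eL.symm l)) + 1) :=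
          h5 (eL.symm l)
        rw [Equiv.apply_symm_apply] at h0
        exact h0
    · right
      refine ⟨eL l, ?_⟩
      show s(v, v') = s(PL (eL.symm (eL l)) + a (eL l), PL (eL.symm (eL l)) + a (eL l) + 1)
      rw [Equiv.symm_apply_apply]
      exact h3
  · rintro (l | k) b
    · show (bif b then PL l + 1 else PL l) =
        (bif b then PL (eL.symm (eL l)) + 1 else PL (eL.symm (eL l)))
      rw [Equiv.symm_apply_apply]
    · show P k + (bif b then A k else 0) = P (σ.symm (σ k)) + (bif b then A (σ.symm (σ k)) else 0)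
      rw [Equiv.symm_apply_apply]

end Pool.Agent.P45
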