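import Pool.Agent.Lib.P45dba8.GoodL
import Pool.Agent.Lib.P45dba8.Process

/-! # Families with leaves: unit leaves, transport, divided families with leaves -/

set_option autoImplicit false

namespace Pool.Agent.P45

/-- Unit leaves are free. -/
theorem goodL_units {n : ℕ} (hn : Odd n) (h3 : 3 ≤ n) {Λ ι κ : Type*} [IsEmpty ι]
    [IsEmpty κ] (a : Λ → ZMod n) (ha : ∀ l, IsUnit (a l)) (ha1 : ∀ l, a l ≠ 1)
    (ham : ∀ l, a l ≠ -1) (t : ι → ZMod n) (d u : κ → ZMod n) : GoodL n a t d u := by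
  intro PL P A _ _
  have h1 := fun l => leaf_unit hn h3 (a l) (PL l) (ha l) (ha1 l) (ham l)
  let σ : Λ ⊕ (ι ⊕ κ × Bool) ≃ Σ _ : Λ, Unit :=
    { toFun := Sum.elim (fun l => ⟨l, ()⟩)
        (Sum.elim (fun i => isEmptyElim i) (fun k => isEmptyElim k.1))
      invFun := fun x => Sum.inl x.1
      left_inv := by
        rintro (l | i | k)
        · rfl
        · exact isEmptyElim i
        · exact isEmptyElim k.1
      right_inv := by
        rintro ⟨l, x⟩
        rfl }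
  refine (((TS.sigma h1).mono ?_).reindex σ).congr ?_
  · rintro v - v' - (⟨⟨δ, hδ, h2⟩, h3, h4⟩ | ⟨l, h2⟩)
    · rcases hδ with ⟨l | i, hi⟩ | ⟨k, -⟩
      · refine ⟨l, Or.inl ⟨⟨δ, ?_, h2⟩, fun _ => h3 l, fun _ => h4 l⟩⟩
        exact hi
      · exact isEmptyElim i
      · exact isEmptyElim k
    · exact ⟨l, Or.inr ⟨(), h2⟩⟩
  · rintro (l | i | k) b
    · rfl
    · exact isEmptyElim i
    · exact isEmptyElim k.1

/-- Equal families. -/
theorem GoodL.congr {n : ℕ} {Λ ι κ : Type*} {a a' : Λ → ZMod n}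
    {t t' : ι → ZMod n} {d u d' u' : κ → ZMod n} (hG : GoodL n a t d u) (h0 : ∀ l, a' l = a l)
    (h1 : ∀ i, t' i = t i) (h2 : ∀ k, d' k = d k) (h3 : ∀ k, u' k = u k) :
    GoodL n a' t' d' u' := by
  have e0 : a' = a := funext h0
  have e1 : t' = t := funext h1
  have e2 : d' = d := funext h2
  have e3 : u' = u := funext h3
  rw [e0, e1, e2, e3]
  exact hG

/-- Transport along bijections of the index types. -/
theorem GoodL.transport {n : ℕ} {Λ ι κ Λ' ι' κ' : Type*} {a' : Λ' → ZMod n} {t' : ι' → ZMod n}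
    {d' u' : κ' → ZMod n} (e : Λ → Λ') (he : Function.Bijective e) (f : ι → ι')
    (hf : Function.Bijective f) (g : κ → κ')
    (hg : Function.Bijective g) (hG : GoodL n (a' ∘ e) (t' ∘ f) (d' ∘ g) (u' ∘ g)) :
    GoodL n a' t' d' u' := by
  refine (hG.reindex (Equiv.ofBijective e he).symm (Equiv.ofBijective f hf).symm
    (Equiv.ofBijective g hg).symm).congr ?_ ?_ ?_ ?_
  · intro i
    show a' i = a' (e ((Equiv.ofBijective e he).symm i))
    rw [Equiv.ofBijective_apply_symm_apply e he]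
  · intro i
    show t' i = t' (f ((Equiv.ofBijective f hf).symm i))
    rw [Equiv.ofBijective_apply_symm_apply f hf]
  · intro i
    show d' i = d' (g ((Equiv.ofBijective g hg).symm i))
    rw [Equiv.ofBijective_apply_symm_apply g hg]
  · intro i
    show u' i = u' (g ((Equiv.ofBijective g hg).symm i))
    rw [Equiv.ofBijective_apply_symm_apply g hg]

theorem subtype_union_bij {α : Type*} (A B : Set α) (hd : ∀ x, x ∈ A → x ∈ B → False) :
    Function.Bijective (Sum.elim (fun i : {x : α // x ∈ A} => (⟨i.1, Or.inl i.2⟩ : {x : α // x ∈ A ∪ B}))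
      (fun i : {x : α // x ∈ B} => ⟨i.1, Or.inr i.2⟩)) := by
  constructor
  · rintro (x | x) (y | y) hxy
    · have h0 := congrArg Subtype.val hxy
      have h : x.1 = y.1 := h0
      rw [Subtype.ext h]
    · exfalso
      have h0 := congrArg Subtype.val hxy
      have h : x.1 = y.1 := h0
      exact hd _ x.2 (by rw [h]; exact y.2)
    · exfalso
      have h0 := congrArg Subtype.val hxy
      have h : x.1 = y.1 := h0
      exact hd _ y.2 (by rw [← h]; exact x.2)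
    · have h0 := congrArg Subtype.val hxy
      have h : x.1 = y.1 := h0
      rw [Subtype.ext h]
  · rintro ⟨x, hx | hx⟩
    · exact ⟨Sum.inl ⟨x, hx⟩, rfl⟩
    · exact ⟨Sum.inr ⟨x, hx⟩, rfl⟩

section fam

variable {Λ ι κ : Type*}

/-- The leaves of `L` and the items of `K` are good with leaves in `ZMod n`. -/
def GFL (n : ℕ) (lf : Λ → ℕ) (t : ι → ℕ) (a b : κ → ℕ) (L : Set Λ) (K : Set (ι ⊕ κ)) : Prop :=
  GoodL n (fun l : {l : Λ // l ∈ L} => ((lf l.1 : ℕ) : ZMod n))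
    (fun i : {i : ι // Sum.inl i ∈ K} => ((t i.1 : ℕ) : ZMod n))
    (fun k : {k : κ // Sum.inr k ∈ K} => ((a k.1 : ℕ) : ZMod n))
    (fun k : {k : κ // Sum.inr k ∈ K} => ((b k.1 : ℕ) : ZMod n))

variable {lf : Λ → ℕ} {t : ι → ℕ} {a b : κ → ℕ}

theorem GFL.union {n : ℕ} {L L' : Set Λ} {K K' : Set (ι ⊕ κ)} (h : GFL n lf t a b L K)
    (h' : GFL n lf t a b L' K') (hL : ∀ l, l ∈ L → l ∈ L' → False)
    (hd : ∀ x, x ∈ K → x ∈ K' → False) : GFL n lf t a b (L ∪ L') (K ∪ K') := by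
  refine GoodL.transport _ (subtype_union_bij L L' hL) _
    (subtype_union_bij {i : ι | Sum.inl i ∈ K} {i : ι | Sum.inl i ∈ K'} (fun i => hd _)) _
    (subtype_union_bij {k : κ | Sum.inr k ∈ K} {k : κ | Sum.inr k ∈ K'} (fun k => hd _))
    ((GoodL.union h h').congr ?_ ?_ ?_ ?_)
  · rintro (l | l) <;> rfl
  · rintro (l | l) <;> rfl
  · rintro (l | l) <;> rfl
  · rintro (l | l) <;> rfl

theorem GFL.ofGF {n : ℕ} (lf : Λ → ℕ) {K : Set (ι ⊕ κ)} (h : GF n 1 t a b K) :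
    GFL n lf t a b ∅ K := by
  have : IsEmpty {l : Λ // l ∈ (∅ : Set Λ)} := ⟨fun x => x.2⟩
  obtain ⟨-, -, h3⟩ := h
  refine (Good.toL (fun l : {l : Λ // l ∈ (∅ : Set Λ)} => ((lf l.1 : ℕ) : ZMod n)) h3).congr
    (fun _ => rfl) ?_ ?_ ?_
  · intro i
    show ((t i.1 : ℕ) : ZMod n) = ((t i.1 / 1 : ℕ) : ZMod n)
    rw [Nat.div_one]
  · intro k
    show ((a k.1 : ℕ) : ZMod n) = ((a k.1 / 1 : ℕ) : ZMod n)
    rw [Nat.div_one]
  · intro k
    show ((b k.1 : ℕ) : ZMod n) = ((b k.1 / 1 : ℕ) : ZMod n)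
    rw [Nat.div_one]

theorem GFL.units {n : ℕ} (hn : Odd n) (h3 : 3 ≤ n) {L : Set Λ}
    (hL : ∀ l ∈ L, Nat.gcd n (lf l) = 1) (h1 : ∀ l ∈ L, ((lf l : ℕ) : ZMod n) ≠ 1)
    (h2 : ∀ l ∈ L, ((lf l : ℕ) : ZMod n) ≠ -1) : GFL n lf t a b L ∅ := by
  have : IsEmpty {i : ι // Sum.inl i ∈ (∅ : Set (ι ⊕ κ))} := ⟨fun x => x.2⟩
  have : IsEmpty {k : κ // Sum.inr k ∈ (∅ : Set (ι ⊕ κ))} := ⟨fun x => x.2⟩
  refine goodL_units hn h3 _ ?_ (fun l => h1 _ l.2) (fun l => h2 _ l.2) _ _ _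
  intro l
  rw [ZMod.isUnit_iff_coprime, Nat.coprime_comm]
  exact hL _ l.2

theorem GFL.lift {n m h : ℕ} (hn : Odd n) (hmg : m * h = n) (h3 : 3 ≤ h)
    (hD : TDist n (Sum.elim lf t) a b) {K : Set (ι ⊕ κ)} (hK : GF m h t a b K)
    {L : Set Λ} (hL : ∀ l ∈ L, Nat.gcd n (lf l) = h) (hLne : L.Nonempty) (k0 : κ)
    (hk0 : Sum.inr k0 ∉ K) (ha : ¬ h ∣ a k0) (hb : ¬ h ∣ b k0)
    (hg : Nat.gcd (Nat.gcd h (a k0)) (b k0) = 1) (hsize : ∃ x ∈ K, ∃ y ∈ K, x ≠ y) :
    GFL n lf t a b L (K ∪ {Sum.inr k0}) := by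
  classical
  subst hmg
  obtain ⟨h1, h2, h4⟩ := hK
  have hodd : Odd m ∧ Odd h := Nat.odd_mul.1 hn
  have hh0 : 0 < h := by omega
  have hld : ∀ l ∈ L, h ∣ lf l := by
    intro l hl
    rw [← hL l hl]
    exact Nat.gcd_dvd_right _ _
  have hlu : ∀ l : {l : Λ // l ∈ L}, IsUnit (((lf l.1 / h : ℕ) : ZMod m)) := by
    intro l
    rw [ZMod.isUnit_iff_coprime, Nat.coprime_comm]
    have h5 := hL l.1 l.2
    obtain ⟨c, hc⟩ := hld l.1 l.2
    rw [hc, Nat.mul_div_cancel_left _ hh0]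
    rw [hc, mul_comm m h, Nat.gcd_mul_left] at h5
    exact Nat.eq_of_mul_eq_mul_left hh0 (by rw [h5, mul_one])
  let K' : Set ((Λ ⊕ ι) ⊕ κ) := Sum.elim (Sum.elim (fun l => l ∈ L) (fun i => Sum.inl i ∈ K))
    (fun k => Sum.inr k ∈ K)
  have g1 : ∀ i, Sum.inl i ∈ K' → h ∣ (Sum.elim lf t) i := by
    rintro (l | i) hi
    · exact hld l hi
    · exact h1 i hi
  have g2 : ∀ k, Sum.inr k ∈ K' → h ∣ a k ∧ h ∣ b k := fun k hk => h2 k hk
  obtain ⟨q1, q2⟩ := GF.dist rfl hD g1 g2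
  -- the distinctness in the form for the lift
  let up : ({l : Λ // l ∈ L} ⊕ {i : ι // Sum.inl i ∈ K}) ⊕ {k : κ // Sum.inr k ∈ K} × Bool →
      {i : Λ ⊕ ι // Sum.inl i ∈ K'} ⊕ {k : κ // Sum.inr k ∈ K'} × Bool :=
    Sum.map (Sum.elim (fun l => ⟨Sum.inl l.1, l.2⟩) (fun i => ⟨Sum.inr i.1, i.2⟩))
      (Prod.map (fun k => ⟨k.1, k.2⟩) id)
  have hup : Function.Injective up := by
    apply Function.Injective.sumMap
    · rintro (x | x) (y | y) hxy
      · have h := congrArg Subtype.val hxy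
        exact congrArg Sum.inl (Subtype.ext (Sum.inl.inj h))
      · have h := congrArg Subtype.val hxy
        exact absurd h (by simp)
      · have h := congrArg Subtype.val hxy
        exact absurd h (by simp)
      · have h := congrArg Subtype.val hxy
        exact congrArg Sum.inr (Subtype.ext (Sum.inr.inj h))
    · apply Function.Injective.prodMap _ Function.injective_id
      intro x y hxy
      have h := congrArg Subtype.val hxy
      exact Subtype.ext h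
  have hD' : Dist (Sum.elim (fun l : {l : Λ // l ∈ L} => ((lf l.1 / h : ℕ) : ZMod m))
      (fun i : {i : ι // Sum.inl i ∈ K} => ((t i.1 / h : ℕ) : ZMod m)))
      (fun k : {k : κ // Sum.inr k ∈ K} => ((a k.1 / h : ℕ) : ZMod m))
      (fun k : {k : κ // Sum.inr k ∈ K} => ((b k.1 / h : ℕ) : ZMod m)) := by
    intro x y hxy
    have := q1 (up x) (up y) (hup.ne hxy)
    rcases x with (x | x) | ⟨x, _ | _⟩ <;> rcases y with (y | y) | ⟨y, _ | _⟩ <;> exact this
  have hT0 : ∀ x, tyy (fun i : {i : ι // Sum.inl i ∈ K} => ((t i.1 / h : ℕ) : ZMod m))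
      (fun k : {k : κ // Sum.inr k ∈ K} => ((a k.1 / h : ℕ) : ZMod m))
      (fun k : {k : κ // Sum.inr k ∈ K} => ((b k.1 / h : ℕ) : ZMod m)) x ≠ 0 := by
    rintro (i | ⟨k, _ | _⟩)
    · exact q2 (Sum.inl ⟨Sum.inr i.1, i.2⟩)
    · exact q2 (Sum.inr (⟨k.1, k.2⟩, false))
    · exact q2 (Sum.inr (⟨k.1, k.2⟩, true))
  have hnd : ∀ A : ℕ, ¬ h ∣ A → red m h ((A : ℕ) : ZMod (m * h)) ≠ 0 := by
    intro A hA hz
    rw [map_natCast, ZMod.natCast_eq_zero_iff] at hz
    exact hA hz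
  have hcop : cop (red m h ((a k0 : ℕ) : ZMod (m * h)))
      (red m h ((b k0 : ℕ) : ZMod (m * h))) := by
    rw [map_natCast, map_natCast, cop_cast, Nat.gcd_comm, ← Nat.gcd_assoc]
    exact hg
  have hne : Nonempty {l : Λ // l ∈ L} := hLne.to_subtype
  have htwo : ∃ i i' : {i : ι // Sum.inl i ∈ K} ⊕ {k : κ // Sum.inr k ∈ K}, i ≠ i' := by
    obtain ⟨x, hx, y, hy, hxy⟩ := hsize
    have ex : ∀ z ∈ K, ∃ w : {i : ι // Sum.inl i ∈ K} ⊕ {k : κ // Sum.inr k ∈ K},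
        Sum.map Subtype.val Subtype.val w = z := by
      rintro (i | k) hz
      · exact ⟨Sum.inl ⟨i, hz⟩, rfl⟩
      · exact ⟨Sum.inr ⟨k, hz⟩, rfl⟩
    obtain ⟨w, hw⟩ := ex x hx
    obtain ⟨w', hw'⟩ := ex y hy
    refine ⟨w, w', ?_⟩
    rintro rfl
    exact hxy (hw.symm.trans hw')
  have key := h4.liftL hodd.1 hodd.2 h3 (fun _ hx => hx)
    (fun l : {l : Λ // l ∈ L} => ((lf l.1 / h : ℕ) : ZMod m)) hlu hD' hT0 htwo
    _ _ (hnd _ ha) (hnd _ hb) hcop
  let f : {i : ι // Sum.inl i ∈ K} → {i : ι // (Sum.inl i : ι ⊕ κ) ∈ K ∪ {Sum.inr k0}} :=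
    fun i => ⟨i.1, Or.inl i.2⟩
  let f' : Option {k : κ // Sum.inr k ∈ K} →
      {k : κ // (Sum.inr k : ι ⊕ κ) ∈ K ∪ {Sum.inr k0}} :=
    fun o => o.elim ⟨k0, Or.inr rfl⟩ (fun k => ⟨k.1, Or.inl k.2⟩)
  have hf : Function.Bijective f := by
    constructor
    · intro x y hxy
      have h := congrArg Subtype.val hxy
      exact Subtype.ext h
    · rintro ⟨i, hi | hi⟩
      · exact ⟨⟨i, hi⟩, rfl⟩
      · exact absurd hi (by simp)
  have hf' : Function.Bijective f' := by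
    constructor
    · rintro (_ | x) (_ | y) hxy
      · rfl
      · exfalso
        have h := congrArg Subtype.val hxy
        have h' : k0 = y.1 := h
        exact hk0 (by rw [h']; exact y.2)
      · exfalso
        have h := congrArg Subtype.val hxy
        have h' : x.1 = k0 := h
        exact hk0 (by rw [← h']; exact x.2)
      · have h := congrArg Subtype.val hxy
        have h' : x.1 = y.1 := h
        rw [Subtype.ext h']
    · rintro ⟨k, hk | hk⟩
      · exact ⟨some ⟨k, hk⟩, rfl⟩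
      · have : k = k0 := by simpa using hk
        subst this
        exact ⟨none, rfl⟩
  refine GoodL.transport id Function.bijective_id f hf f' hf' (key.congr ?_ ?_ ?_ ?_)
  · intro l
    exact (psi_div (hld l.1 l.2)).symm
  · intro i
    exact (psi_div (h1 i.1 i.2)).symm
  · rintro (_ | k)
    · rfl
    · exact (psi_div (h2 k.1 k.2).1).symm
  · rintro (_ | k)
    · rfl
    · exact (psi_div (h2 k.1 k.2).2).symm

end fam

end Pool.Agent.P45
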