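import Pool.Agent.Lib.P45dba8.Grid

/-! # The first graph is connected -/

set_option autoImplicit false

namespace Pool.Agent.P45

/-- The positions of the squares. -/
def cc (u i : ℕ) : ℕ := if i ≤ u + 1 then i else if i % 2 = 0 then u else u + 1

theorem cc_low {u i : ℕ} (h : i ≤ u + 1) : cc u i = i := if_pos h

theorem cc_even {u i : ℕ} (hu : u % 2 = 0) (h : u ≤ i) (hi : i % 2 = 0) : cc u i = u := by
  unfold cc; split_ifs <;> omega

theorem cc_odd {u i : ℕ} (hu : u % 2 = 0) (h : u ≤ i) (hi : i % 2 = 1) : cc u i = u + 1 := by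
  unfold cc; split_ifs <;> omega

theorem cc_le (u i : ℕ) : cc u i ≤ u + 1 := by
  unfold cc; split_ifs <;> omega

theorem cc_ge {u i j : ℕ} (h : j ≤ i) (h' : j ≤ u) : j ≤ cc u i := by
  unfold cc; split_ifs <;> omega

theorem cc_ne {u : ℕ} (hu : u % 2 = 0) (i : ℕ) : cc u (i + 1) ≠ cc u i := by
  unfold cc; split_ifs <;> omega

section conn

variable {h : ℕ}

/-- Connected in the first graph. -/
def L1 (a b : ZMod h) (g : ℕ) (c : ℕ → ℕ) : ZMod h → ZMod h → Prop :=
  Lk a b (fun v => ¬ SX a b g c v) (SY a b g c)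

variable {a b : ZMod h} {g L : ℕ}

theorem Grid.nsx (G : Grid a b g L) {u i j : ℕ} (hL : u + 3 ≤ L) (hi : i < g)
    (hj : j < L) (h1 : j ≠ cc u i) (h2 : j ≠ cc u i + 1) : ¬ SX a b g (cc u) (gp a b i j) := by
  rw [G.sx hi]
  have h3 := cc_le u i
  rintro ⟨-, h4 | h4⟩
  · exact h1 (Nat.ModEq.eq_of_lt_of_lt h4 hj (by omega))
  · exact h2 (Nat.ModEq.eq_of_lt_of_lt h4 hj (by omega))

theorem sy_self {c : ℕ → ℕ} {i : ℕ} (hi : i + 2 ≤ g) : SY a b g c (gp a b i (c i)) :=
  (sy_iff _).2 ⟨i, hi, Or.inl rfl⟩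

theorem sy_up {c : ℕ → ℕ} {i : ℕ} (hi : i + 2 ≤ g) : SY a b g c (gp a b (i + 1) (c i)) :=
  (sy_iff _).2 ⟨i, hi, Or.inr rfl⟩

/-- Both corners of a square. -/
theorem L1.sq {c : ℕ → ℕ} {i : ℕ} (hi : i + 2 ≤ g) :
    L1 a b g c (gp a b i (c i)) (gp a b i (c i + 1)) :=
  Lk.stepb (sy_self hi)

theorem L1.squ {c : ℕ → ℕ} {i : ℕ} (hi : i + 2 ≤ g) :
    L1 a b g c (gp a b (i + 1) (c i)) (gp a b (i + 1) (c i + 1)) :=
  Lk.stepb (sy_up hi)

theorem Grid.snake_odd (G : Grid a b g L) {u i : ℕ} (hu : u % 2 = 0) (hL : u + 3 ≤ L)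
    (hi : u + 1 ≤ i) (hi1 : i % 2 = 1) (hi2 : i + 2 ≤ g) :
    L1 a b g (cc u) (gp a b i (cc u i)) (gp a b (i + 1) u) := by
  have e1 : cc u i = u + 1 := cc_odd hu (by omega) hi1
  have e2 : cc u (i - 1) = u := cc_even hu (by omega) (by omega)
  have w1 := L1.squ (a := a) (b := b) (g := g) (c := cc u) (i := i - 1) (by omega)
  rw [show i - 1 + 1 = i by omega, e2] at w1
  rw [e1]
  refine (Lk.symm w1).trans (Lk.stepa (X := fun v => ¬ SX a b g (cc u) v) ?_)
  exact G.nsx hL (by omega) (by omega) (by omega) (by omega)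

theorem Grid.snake_even (G : Grid a b g L) {u i : ℕ} (hu : u % 2 = 0) (hL : u + 3 ≤ L)
    (hi : u + 1 ≤ i) (hi1 : i % 2 = 0) (hi2 : i + 3 ≤ g) :
    L1 a b g (cc u) (gp a b i (cc u i)) (gp a b (i + 1) (cc u (i + 1))) := by
  have e1 : cc u i = u := cc_even hu (by omega) hi1
  have e2 : cc u (i - 1) = u + 1 := cc_odd hu (by omega) (by omega)
  have e3 : cc u (i + 1) = u + 1 := cc_odd hu (by omega) (by omega)
  have w1 := L1.squ (a := a) (b := b) (g := g) (c := cc u) (i := i - 1) (by omega)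
  rw [show i - 1 + 1 = i by omega, e2] at w1
  have w0 := L1.sq (a := a) (b := b) (g := g) (c := cc u) (i := i) (by omega)
  have w3 := L1.sq (a := a) (b := b) (g := g) (c := cc u) (i := i + 1) (by omega)
  rw [e1] at w0
  rw [e3] at w3
  rw [e1, e3]
  have w2 : L1 a b g (cc u) (gp a b i (u + 2)) (gp a b (i + 1) (u + 2)) :=
    Lk.stepa (X := fun v => ¬ SX a b g (cc u) v)
      (G.nsx hL (by omega) (by omega) (by omega) (by omega))
  exact ((w0.trans w1).trans w2).trans w3.symm

/-- All squares above are connected. -/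
theorem Grid.snake (G : Grid a b g L) {u : ℕ} (hu : u % 2 = 0) (hL : u + 3 ≤ L) :
    ∀ i, u + 1 ≤ i → i + 2 ≤ g →
      L1 a b g (cc u) (gp a b (u + 1) (cc u (u + 1))) (gp a b i (cc u i)) := by
  intro i hi
  induction i, hi using Nat.le_induction with
  | base => intro _; exact Lk.refl _
  | succ n hn ih =>
    intro h1
    refine (ih (by omega)).trans ?_
    rcases Nat.mod_two_eq_zero_or_one n with h2 | h2
    · exact G.snake_even hu hL hn h2 (by omega)
    · have h3 := G.snake_odd hu hL hn h2 (by omega)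
      have h4 : cc u (n + 1) = u := cc_even hu (by omega) (by omega)
      rwa [h4]

/-- Every class is connected to a square, if its column meets one. -/
theorem L1.reach {c : ℕ → ℕ} (v : ZMod h) (K : ℕ) (hK : SX a b g c (v + (K : ZMod h) * a)) :
    ∃ i, i + 2 ≤ g ∧ L1 a b g c v (gp a b i (c i)) := by
  induction K generalizing v with
  | zero =>
    rw [Nat.cast_zero, zero_mul, add_zero, sx_iff] at hK
    obtain ⟨i, h1, h2 | h2⟩ := hK
    · rw [h2]; exact ⟨i, h1, Lk.refl _⟩
    · rw [h2]; exact ⟨i, h1, (L1.sq h1).symm⟩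
  | succ K ih =>
    by_cases h0 : SX a b g c v
    · obtain ⟨i, h1, h2 | h2⟩ := (sx_iff _).1 h0
      · rw [h2]; exact ⟨i, h1, Lk.refl _⟩
      · rw [h2]; exact ⟨i, h1, (L1.sq h1).symm⟩
    · obtain ⟨i, h1, h2⟩ := ih (v + a) (by
        have : v + a + (K : ZMod h) * a = v + ((K + 1 : ℕ) : ZMod h) * a := by
          push_cast; ring
        rw [this]; exact hK)
      refine ⟨i, h1, Lk.trans (Relation.EqvGen.rel _ _ (Or.inl ⟨h0, rfl⟩)) h2⟩

/-- One column. -/
theorem Grid.conn1_one (G : Grid a b g L) {M : ℕ} (G' : Grid b a 1 M) (hL : 3 ≤ L)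
    (hg : 3 ≤ g) (hgo : g % 2 = 1) (γ : ℕ) (hb : b = (γ : ZMod h) * a)
    (h1 : g ≤ γ) (h2 : 2 * γ + g ≤ M) (v : ZMod h) :
    L1 a b g (cc 0) v (gp a b 0 (cc 0 0)) := by
  have hM : 0 < M := by omega
  -- all squares are connected
  have top : L1 a b g (cc 0) (gp a b (g - 2) (cc 0 (g - 2))) (gp a b (g - 1) 0) := by
    have := G.snake_odd (u := 0) (i := g - 2) rfl hL (by omega) (by omega) (by omega)
    rwa [show g - 2 + 1 = g - 1 by omega] at this
  have egp : ∀ i j : ℕ, gp a b i j = gp b a 0 (i + j * γ) := by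
    intro i j
    unfold gp
    rw [hb]; push_cast; ring
  have outer : L1 a b g (cc 0) (gp a b (g - 1) 0) (gp a b γ 0) := by
    apply Lk.up (by omega)
    intro k h3 h4 h5
    obtain ⟨i, h6, h7⟩ := (sx_iff _).1 h5
    have h8 : ∃ e, e ≤ 2 ∧ gp a b k 0 = gp a b i e := by
      have := cc_le 0 i
      rcases h7 with h7 | h7
      · exact ⟨_, by omega, h7⟩
      · exact ⟨_, by omega, h7⟩
    obtain ⟨e, h9, h10⟩ := h8
    rw [egp, egp, G'.eq_iff Nat.one_pos Nat.one_pos] at h10
    have h11 := h10.2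
    rw [zero_mul, add_zero] at h11
    have h12 : e * γ ≤ 2 * γ := Nat.mul_le_mul_right _ h9
    have h13 : k = i + e * γ := Nat.ModEq.eq_of_lt_of_lt h11 (by omega) (by omega)
    rcases Nat.eq_zero_or_pos e with h14 | h14
    · rw [h14, zero_mul] at h13; omega
    · have : 1 * γ ≤ e * γ := Nat.mul_le_mul_right _ h14
      omega
  have e01 : gp a b γ 0 = gp a b 0 (cc 0 0 + 1) := by
    rw [egp, egp, cc_low (by omega)]
    congr 1; ring
  have all : ∀ i, i + 2 ≤ g →
      L1 a b g (cc 0) (gp a b i (cc 0 i)) (gp a b 0 (cc 0 0)) := by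
    have s1 := G.snake (u := 0) rfl hL
    have base : L1 a b g (cc 0) (gp a b 1 (cc 0 1)) (gp a b 0 (cc 0 0)) := by
      have s2 := s1 (g - 2) (by omega) (by omega)
      refine Lk.trans s2 (Lk.trans top (Lk.trans outer ?_))
      rw [e01]
      exact Lk.symm (L1.sq (i := 0) (by omega))
    intro i hi
    rcases Nat.eq_zero_or_pos i with h3 | h3
    · rw [h3]; exact Lk.refl _
    · exact Lk.trans (Lk.symm (s1 i (by omega) hi)) base
  obtain ⟨K, hK⟩ : ∃ K : ℕ, v + (K : ZMod h) * a = gp a b 0 (cc 0 0) := by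
    obtain ⟨i, j, h3, h4, h5⟩ := G'.surj (by rw [← G'.hgL]; omega) v
    have h6 : i = 0 := by omega
    obtain ⟨t, h7, h8⟩ := exists_shift_mod (L := M) hM j (0 + cc 0 0 * γ)
    refine ⟨t, ?_⟩
    rw [egp, h5, h6, G'.congr h8]
    unfold gp; push_cast; ring
  obtain ⟨i, h3, h4⟩ := L1.reach (g := g) (c := cc 0) v K (by
    rw [hK]; exact (sx_iff _).2 ⟨0, by omega, Or.inl rfl⟩)
  exact Lk.trans h4 (all i h3)

/-- At least three columns. -/
theorem Grid.conn1_big (G : Grid a b g L) {M u : ℕ} (G' : Grid b a (u + 3) M)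
    (hu : u % 2 = 0) (hL : u + 3 ≤ L) (hg : u + 4 ≤ g) (hgo : g % 2 = 1) (hM : g ≤ M)
    (v : ZMod h) :
    L1 a b g (cc u) v (gp a b 0 (cc u 0)) := by
  -- from the bottom of a column
  have bot : ∀ j, 1 ≤ j → j ≤ u + 2 →
      L1 a b g (cc u) (gp a b 0 j) (gp a b (j - 1) (cc u (j - 1))) := by
    intro j h1 h2
    have w1 : L1 a b g (cc u) (gp a b 0 j) (gp a b (j - 1) j) := by
      apply Lk.up (by omega)
      intro k h3 h4
      have h5 : cc u k = k := cc_low (by omega)
      exact G.nsx hL (by omega) (by omega) (by omega) (by omega)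
    have h5 : cc u (j - 1) = j - 1 := cc_low (by omega)
    have w2 := L1.sq (a := a) (b := b) (g := g) (c := cc u) (i := j - 1) (by omega)
    rw [h5, show j - 1 + 1 = j by omega] at w2
    rw [h5]
    exact Lk.trans w1 (Lk.symm w2)
  -- from the top of a column
  have top : ∀ j, j + 1 ≤ u →
      L1 a b g (cc u) (gp a b (g - 1) j) (gp a b (j + 1) (cc u (j + 1))) := by
    intro j h1
    have w1 : L1 a b g (cc u) (gp a b (j + 1) j) (gp a b (g - 1) j) := by
      apply Lk.up (by omega)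
      intro k h3 h4
      have h5 : j + 1 ≤ cc u k := cc_ge h3 h1
      exact G.nsx hL (by omega) (by omega) (by omega) (by omega)
    have h5 : cc u (j + 1) = j + 1 := cc_low (by omega)
    have h6 : cc u j = j := cc_low (by omega)
    have w2 := L1.squ (a := a) (b := b) (g := g) (c := cc u) (i := j) (by omega)
    rw [h6] at w2
    rw [h5]
    exact Lk.trans (Lk.symm w1) w2
  have outer : ∀ j, j ≤ u + 2 → L1 a b g (cc u) (gp a b (g - 1) j) (gp a b 0 j) := by
    intro j h1
    have e : gp a b 0 j = gp a b M j := by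
      rw [← gp_swap, ← gp_swap a b M j]
      apply G'.congr
      simp [Nat.ModEq]
    rw [e]
    apply Lk.up (by omega)
    intro k h3 h4 h5
    obtain ⟨i, h6, h7⟩ := (sx_iff _).1 h5
    have h8 : ∃ e, e ≤ u + 2 ∧ gp a b k j = gp a b i e := by
      have := cc_le u i
      rcases h7 with h7 | h7
      · exact ⟨_, by omega, h7⟩
      · exact ⟨_, by omega, h7⟩
    obtain ⟨e, h9, h10⟩ := h8
    rw [← gp_swap, ← gp_swap a b i e, G'.eq_iff (by omega) (by omega)] at h10
    have h11 : k = i := Nat.ModEq.eq_of_lt_of_lt h10.2 (by omega) (by omega)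
    omega
  have low : ∀ i, i ≤ u → L1 a b g (cc u) (gp a b i (cc u i)) (gp a b 0 (cc u 0)) := by
    intro i
    induction i using Nat.strong_induction_on with
    | _ i ih =>
      intro hi
      rcases Nat.eq_zero_or_pos i with h1 | h1
      · rw [h1]; exact Lk.refl _
      · have w1 := top (i - 1) (by omega)
        rw [show i - 1 + 1 = i by omega] at w1
        have w2 := outer (i - 1) (by omega)
        have w12 := Lk.trans (Lk.symm w1) w2
        rcases Nat.eq_zero_or_pos (i - 1) with h2 | h2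
        · rw [h2] at w12
          have e0 : cc u 0 = 0 := cc_low (by omega)
          rw [e0]; exact w12
        · exact Lk.trans w12 (Lk.trans (bot (i - 1) h2 (by omega)) (ih _ (by omega) (by omega)))
  have link : L1 a b g (cc u) (gp a b (u + 1) (cc u (u + 1))) (gp a b 0 (cc u 0)) := by
    have b2 := bot (u + 2) (by omega) (by omega)
    have b1 := bot (u + 1) (by omega) (by omega)
    rw [show u + 2 - 1 = u + 1 by omega] at b2
    rw [show u + 1 - 1 = u by omega] at b1
    have o2 := outer (u + 2) (by omega)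
    have o1 := outer (u + 1) (by omega)
    have t12 : L1 a b g (cc u) (gp a b (g - 1) (u + 1)) (gp a b (g - 1) (u + 2)) := by
      have h5 : cc u (g - 2) = u + 1 := cc_odd hu (by omega) (by omega)
      have w2 := L1.squ (a := a) (b := b) (g := g) (c := cc u) (i := g - 2) (by omega)
      rwa [h5, show g - 2 + 1 = g - 1 by omega] at w2
    exact Lk.trans (Lk.symm b2) (Lk.trans (Lk.symm o2) (Lk.trans (Lk.symm t12)
      (Lk.trans o1 (Lk.trans b1 (low u le_rfl)))))
  have s1 := G.snake (u := u) hu hL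
  have all : ∀ i, i + 2 ≤ g →
      L1 a b g (cc u) (gp a b i (cc u i)) (gp a b 0 (cc u 0)) := by
    intro i hi
    by_cases h1 : i ≤ u
    · exact low i h1
    · exact Lk.trans (Lk.symm (s1 i (by omega) hi)) link
  obtain ⟨j, i, h1, h2, h3⟩ := G'.surj
    (by rw [← G'.hgL]; exact Nat.mul_pos (by omega) (by omega)) v
  have hc : ∃ i0, i0 + 2 ≤ g ∧ SX a b g (cc u) (gp a b i0 j) := by
    by_cases h4 : j ≤ u + 1
    · refine ⟨j, by omega, (sx_iff _).2 ⟨j, by omega, Or.inl ?_⟩⟩
      rw [cc_low h4]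
    · refine ⟨u + 1, by omega, (sx_iff _).2 ⟨u + 1, by omega, Or.inr ?_⟩⟩
      rw [cc_low le_rfl]
      have : j = u + 1 + 1 := by omega
      rw [this]
  obtain ⟨i0, h4, h5⟩ := hc
  obtain ⟨t, h7, h8⟩ := exists_shift_mod (L := M) (by omega) i i0
  obtain ⟨i', h9, h10⟩ := L1.reach v t (by
    have : v + (t : ZMod h) * a = gp a b i0 j := by
      rw [h3, ← gp_swap a b i0 j, G'.congr h8]
      unfold gp; push_cast; ring
    rw [this]; exact h5)
  exact Lk.trans h10 (all i' h9)

end conn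

end Pool.Agent.P45
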