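import Mathlib

/-! # The maps `psi : ZMod m → ZMod (m * h)`, `x ↦ h x`, and the reductions -/

set_option autoImplicit false

namespace Pool.Agent.P45

/-- Multiplication by `h` as a map `ZMod m → ZMod (m * h)`. -/
def psi (m h : ℕ) : ZMod m →+ ZMod (m * h) :=
  ZMod.lift m ⟨zmultiplesHom (ZMod (m * h)) (h : ZMod (m * h)), by
    rw [zmultiplesHom_apply, zsmul_eq_mul]
    have : (((m : ℤ) : ZMod (m * h)) * (h : ZMod (m * h))) = ((m * h : ℕ) : ZMod (m * h)) := by
      push_cast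
      ring
    rw [this, ZMod.natCast_self]⟩

theorem psi_intCast (m h : ℕ) (z : ℤ) : psi m h (z : ZMod m) = (z : ZMod (m * h)) * h := by
  rw [psi, ZMod.lift_coe, zmultiplesHom_apply, zsmul_eq_mul]

theorem psi_natCast (m h : ℕ) (z : ℕ) : psi m h (z : ZMod m) = (z : ZMod (m * h)) * h := by
  have := psi_intCast m h (z : ℤ)
  simpa using this

theorem psi_inj (m h : ℕ) (hh : 0 < h) : Function.Injective (psi m h) := by
  rw [injective_iff_map_eq_zero]
  intro x hx
  obtain ⟨z, rfl⟩ := ZMod.intCast_surjective x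
  rw [psi_intCast] at hx
  have h1 : ((z * h : ℤ) : ZMod (m * h)) = 0 := by
    push_cast
    exact hx
  rw [ZMod.intCast_zmod_eq_zero_iff_dvd] at h1
  rw [ZMod.intCast_zmod_eq_zero_iff_dvd]
  push_cast at h1
  exact Int.dvd_of_mul_dvd_mul_right (by exact_mod_cast hh.ne') h1

/-- Reduction modulo `h`. -/
def red (m h : ℕ) : ZMod (m * h) →+* ZMod h := ZMod.castHom (dvd_mul_left h m) (ZMod h)

/-- Reduction modulo `m`. -/
def redm (m h : ℕ) : ZMod (m * h) →+* ZMod m := ZMod.castHom (dvd_mul_right m h) (ZMod m)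

theorem red_psi (m h : ℕ) (x : ZMod m) : red m h (psi m h x) = 0 := by
  obtain ⟨z, rfl⟩ := ZMod.intCast_surjective x
  rw [psi_intCast, map_mul, map_natCast, ZMod.natCast_self, mul_zero]

theorem exists_psi (m h : ℕ) {v : ZMod (m * h)} (hv : red m h v = 0) : ∃ x, v = psi m h x := by
  obtain ⟨z, rfl⟩ := ZMod.intCast_surjective v
  rw [map_intCast, ZMod.intCast_zmod_eq_zero_iff_dvd] at hv
  obtain ⟨y, rfl⟩ := hv
  refine ⟨(y : ZMod m), ?_⟩
  rw [psi_intCast]
  push_cast
  ring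

theorem psi_redm (m h : ℕ) (v : ZMod (m * h)) : psi m h (redm m h v) = (h : ZMod (m * h)) * v := by
  obtain ⟨z, rfl⟩ := ZMod.intCast_surjective v
  rw [map_intCast, psi_intCast]
  ring

theorem red_surj (m h : ℕ) : Function.Surjective (red m h) := by
  intro x
  obtain ⟨z, rfl⟩ := ZMod.intCast_surjective x
  exact ⟨(z : ZMod (m * h)), map_intCast _ _⟩

/-- Every element of `ZMod m`, `m` odd, is a sum of two units. -/
theorem sum_units (m : ℕ) (hm : Odd m) (x : ZMod m) :
    ∃ a b : ZMod m, IsUnit a ∧ IsUnit b ∧ a + b = x := by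
  classical
  have hm0 : m ≠ 0 := by rintro rfl; simp at hm
  obtain ⟨z, rfl⟩ := ZMod.intCast_surjective x
  -- `t` is the product of the primes of `m` which do not divide `z`
  set t : ℤ := ∏ p ∈ (m.primeFactors.filter (fun p : ℕ => ¬ ((p : ℤ) ∣ z)) : Finset ℕ),
    ((p : ℕ) : ℤ) with ht
  have key : ∀ p : ℕ, p.Prime → p ∣ m → ¬ ((p : ℤ) ∣ 2 * z + t) ∧ ¬ ((p : ℤ) ∣ z + t) := by
    intro p hp hpm
    have hpp : Prime (p : ℤ) := Nat.prime_iff_prime_int.1 hp
    have hp2 : ¬ ((p : ℤ) ∣ 2) := by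
      intro h
      have h' : p ∣ 2 := by exact_mod_cast h
      have := (Nat.prime_dvd_prime_iff_eq hp Nat.prime_two).1 h'
      subst this
      exact (Nat.not_even_iff_odd.2 hm) (even_iff_two_dvd.2 hpm)
    by_cases hz : (p : ℤ) ∣ z
    · have hpt : ¬ ((p : ℤ) ∣ t) := by
        intro h
        rw [ht, Prime.dvd_finsetProd_iff hpp] at h
        obtain ⟨q, hq, hpq⟩ := h
        rw [Finset.mem_filter, Nat.mem_primeFactors] at hq
        have h' : p ∣ q := by exact_mod_cast hpq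
        have := (Nat.prime_dvd_prime_iff_eq hp hq.1.1).1 h'
        subst this
        exact hq.2 hz
      exact ⟨fun h => hpt ((dvd_add_right (hz.mul_left 2)).1 h),
        fun h => hpt ((dvd_add_right hz).1 h)⟩
    · have hpt : (p : ℤ) ∣ t := by
        rw [ht]
        apply Finset.dvd_prod_of_mem (fun q : ℕ => (q : ℤ))
        rw [Finset.mem_filter, Nat.mem_primeFactors]
        exact ⟨⟨hp, hpm, hm0⟩, hz⟩
      refine ⟨fun h => ?_, fun h => ?_⟩
      · have h1 := (dvd_add_left hpt).1 h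
        rcases hpp.dvd_or_dvd h1 with h2 | h2
        · exact hp2 h2
        · exact hz h2
      · exact hz ((dvd_add_left hpt).1 h)
  have unit_of : ∀ y : ℤ, (∀ p : ℕ, p.Prime → p ∣ m → ¬ ((p : ℤ) ∣ y)) → IsUnit (y : ZMod m) := by
    intro y hy
    have h1 : IsCoprime y (m : ℤ) := by
      rw [Int.isCoprime_iff_gcd_eq_one]
      by_contra hne
      obtain ⟨p, hp, hpd⟩ := Nat.exists_prime_and_dvd hne
      have h2 : (p : ℤ) ∣ y := (Int.natCast_dvd_natCast.2 hpd).trans (Int.gcd_dvd_left ..)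
      have h3 : (p : ℤ) ∣ (m : ℤ) := (Int.natCast_dvd_natCast.2 hpd).trans (Int.gcd_dvd_right ..)
      exact hy p hp (by exact_mod_cast h3) h2
    exact (ZMod.coe_int_isUnit_iff_isCoprime y m).2 h1.symm
  refine ⟨((2 * z + t : ℤ) : ZMod m), ((-(z + t) : ℤ) : ZMod m), unit_of _ (fun p hp hpm =>
    (key p hp hpm).1), unit_of _ (fun p hp hpm h => (key p hp hpm).2 ((dvd_neg).1 h)), ?_⟩
  push_cast
  ring

end Pool.Agent.P45
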