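import Pool.Agent.Lib.P45dba8.GlueTS
import Pool.Agent.Lib.P45dba8.Psi

/-! # HOST: a single carrier `c` carries a good family of the subgroup `h ZMod (m h)` -/

set_option autoImplicit false

namespace Pool.Agent.P45

theorem seq_O (m : ℕ) (hm : Odd m) (h : ℕ) (h3 : 3 ≤ h) (A c : ZMod m) :
    ∃ y : ℕ → ZMod m, y (h - 1) = A ∧ (∀ j, 1 ≤ j → j ≤ h - 1 → IsUnit (y j - y (j - 1))) ∧
      IsUnit (y 0 - y (h - 1) - c) := by
  obtain ⟨a, b, ha, hb, hab⟩ := sum_units m hm (-c - (((h - 2 : ℕ) : ZMod m)))
  refine ⟨fun j => if j ≤ h - 3 then A + c + 1 + (j : ZMod m) else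
    if j = h - 2 then A + c + (((h - 2 : ℕ) : ZMod m)) + a else A, ?_, ?_, ?_⟩
  · simp only
    rw [if_neg (by omega), if_neg (by omega)]
  · intro j h1 h2
    simp only
    by_cases hj : j ≤ h - 3
    · rw [if_pos hj, if_pos (by omega), Nat.cast_sub h1]
      have : A + c + 1 + (j : ZMod m) - (A + c + 1 + ((j : ZMod m) - ((1 : ℕ) : ZMod m))) = 1 := by
        push_cast; ring
      rw [this]; exact isUnit_one
    · by_cases hj2 : j = h - 2
      · rw [if_neg hj, if_pos hj2, if_pos (by omega)]
        have e1 : ((j - 1 : ℕ) : ZMod m) = ((h - 2 : ℕ) : ZMod m) - 1 := by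
          rw [hj2, Nat.cast_sub (by omega)]; push_cast; ring
        have : A + c + (((h - 2 : ℕ) : ZMod m)) + a - (A + c + 1 + ((j - 1 : ℕ) : ZMod m)) = a := by
          rw [e1]; ring
        rw [this]; exact ha
      · rw [if_neg hj, if_neg hj2, if_neg (by omega), if_pos (by omega)]
        have : A - (A + c + (((h - 2 : ℕ) : ZMod m)) + a) = b := by
          linear_combination -hab
        rw [this]; exact hb
  · simp only
    rw [if_pos (by omega), if_neg (by omega), if_neg (by omega)]
    have : A + c + 1 + ((0 : ℕ) : ZMod m) - A - c = 1 := by push_cast; ring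
    rw [this]; exact isUnit_one

theorem seq_E (m : ℕ) (hm : Odd m) (h : ℕ) (h5 : 5 ≤ h) (A B : ZMod m) :
    ∃ y : ℕ → ZMod m, y 0 = B ∧ y (h - 2) = A ∧
      ∀ j, 1 ≤ j → j ≤ h - 2 → IsUnit (y j - y (j - 1)) := by
  obtain ⟨a, b, ha, hb, hab⟩ := sum_units m hm (A - B - (((h - 4 : ℕ) : ZMod m)))
  refine ⟨fun j => if j ≤ h - 4 then B + (j : ZMod m) else
    if j = h - 3 then B + (((h - 4 : ℕ) : ZMod m)) + a else A, ?_, ?_, ?_⟩
  · simp only
    rw [if_pos (by omega)]; push_cast; ring
  · simp only
    rw [if_neg (by omega), if_neg (by omega)]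
  · intro j h1 h2
    simp only
    by_cases hj : j ≤ h - 4
    · rw [if_pos hj, if_pos (by omega), Nat.cast_sub h1]
      have : B + (j : ZMod m) - (B + ((j : ZMod m) - ((1 : ℕ) : ZMod m))) = 1 := by
        push_cast; ring
      rw [this]; exact isUnit_one
    · by_cases hj2 : j = h - 3
      · rw [if_neg hj, if_pos hj2, if_pos (by omega)]
        have e1 : ((j - 1 : ℕ) : ZMod m) = ((h - 4 : ℕ) : ZMod m) := by
          congr 1; omega
        have : B + (((h - 4 : ℕ) : ZMod m)) + a - (B + ((j - 1 : ℕ) : ZMod m)) = a := by
          rw [e1]; ring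
        rw [this]; exact ha
      · rw [if_neg hj, if_neg hj2, if_neg (by omega), if_pos (by omega)]
        have : A - (B + (((h - 4 : ℕ) : ZMod m)) + a) = b := by
          linear_combination -hab
        rw [this]; exact hb

section

variable {h : ℕ}

theorem val_neg_one_sub (h3 : 3 ≤ h) (r : ZMod h) : (-1 - r).val = h - 1 - r.val := by
  have : NeZero h := ⟨by omega⟩
  have h1 := r.val_lt
  have e : -1 - r = ((h - 1 - r.val : ℕ) : ZMod h) := by
    rw [Nat.cast_sub (by omega), Nat.cast_sub (by omega), ZMod.natCast_self, ZMod.natCast_zmod_val]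
    push_cast; ring
  rw [e, ZMod.val_natCast_of_lt (by omega)]

theorem odd_neg_one_sub (ho : Odd h) (h3 : 3 ≤ h) (r : ZMod h) :
    Odd (-1 - r).val ↔ Odd r.val := by
  have : NeZero h := ⟨by omega⟩
  have h1 := r.val_lt
  rw [val_neg_one_sub h3]
  obtain ⟨a, ha⟩ := ho
  constructor
  · rintro ⟨b, hb⟩; exact ⟨a - b - 1, by omega⟩
  · rintro ⟨b, hb⟩; exact ⟨a - b - 1, by omega⟩

theorem odd_neg_of_even (ho : Odd h) (h3 : 3 ≤ h) {r : ZMod h} (hr : ¬ Odd r.val) (h0 : r ≠ 0) :
    Odd (0 - r).val := by
  have : NeZero h := ⟨by omega⟩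
  have h1 := r.val_lt
  rw [zero_sub, ZMod.neg_val, if_neg h0]
  rw [Nat.not_odd_iff_even] at hr
  obtain ⟨a, ha⟩ := ho
  obtain ⟨b, hb⟩ := hr
  exact ⟨a - b, by omega⟩

theorem val_neg_two (h3 : 3 ≤ h) : (-2 : ZMod h).val = h - 2 := by
  have e : (-2 : ZMod h) = -1 - 1 := by ring
  have : Fact (1 < h) := ⟨by omega⟩
  rw [e, val_neg_one_sub h3, ZMod.val_one]
  omega

theorem zval_pred (h3 : 3 ≤ h) {i : ZMod h} (hi : i ≠ 0) : (i - 1).val = i.val - 1 := by
  have h1 : i - 1 ≠ -1 := by
    intro h'
    exact hi (by linear_combination h')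
  have := zval_succ h3 h1
  rw [sub_add_cancel] at this
  omega

end

/-- The hosting theorem at the level of threads. `D` is the set of types (in `ZMod m`), `T k i`
the type of the thread `k` in the class `i`, `r k` the class of its final hole, `p k` its position.
`brk k l i`: in the class `i` the holes of `k` and `l` have to differ by a unit. -/
theorem host_a (m h : ℕ) (hm : Odd m) (hh : Odd h) (h3 : 3 ≤ h) (c w : ZMod (m * h))
    (hc : IsUnit (red m h c)) {Θ : Type*} [hne : Nonempty Θ] (D : ZMod m → Prop)
    (T : Θ → ZMod h → ZMod m) (r : Θ → ZMod h) (p : Θ → ZMod (m * h))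
    (brk : Θ → Θ → ZMod h → Prop)
    (hp : ∀ k, red m h (p k - w) = (r k + 1) * red m h c)
    (hT1 : ∀ k i, Odd (i - r k).val → T k (i + 1) = T k i)
    (hT2 : ∀ k l i, k ≠ l → Odd (i - r k).val → Odd (i - r l).val →
      T k i ≠ T l i ∧ T k i ≠ -T l i)
    (hb1 : ∀ k l i, brk k l i → Odd (i - r k).val ∧ Odd (i - 1 - r l).val ∧ T k i = T l i)
    (hb2 : (∀ k, ¬ Odd (r k).val) → ∀ k l i, brk k l i → i ≠ 0 ∧ i ≠ -1)
    (hTS : ∀ (i : ZMod h) (X : Θ → ZMod m), (∀ k l, brk k l i → IsUnit (X k - X l)) →
      TS Set.univ (fun a b => ∃ δ, D δ ∧ (b = a + δ ∨ a = b + δ))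
        (fun k b => X k + (bif b then T k i else 0))) :
    TS Set.univ (fun u v => (∃ δ, D δ ∧ (v = u + psi m h δ ∨ u = v + psi m h δ)) ∨
        v = u + c ∨ u = v + c)
      (fun (k : Option Θ) b => k.elim (bif b then w + c else w)
        (fun k => p k + (bif b then psi m h (T k (r k)) else 0))) := by
  classical
  have hm1 : m ≠ 0 := by rintro rfl; simp at hm
  have : NeZero h := ⟨by omega⟩
  have : NeZero m := ⟨hm1⟩
  have hinj := psi_inj m h (by omega)
  -- halves
  have h2u : IsUnit ((2 : ℕ) : ZMod m) := by
    rw [ZMod.isUnit_iff_coprime]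
    exact (Nat.coprime_two_left.2 hm)
  have h2u' : IsUnit (2 : ZMod m) := by exact_mod_cast h2u
  obtain ⟨hf, hhf⟩ := h2u'.exists_right_inv
  -- index function
  obtain ⟨ci, hci⟩ := hc.exists_right_inv
  let idx : ZMod (m * h) → ZMod h := fun v => red m h (v - w) * ci - 1
  let base : ZMod h → ZMod (m * h) := fun i => w + ((i.val : ZMod (m * h)) + 1) * c
  let phi : ZMod h → ZMod m → ZMod (m * h) := fun i x => base i + psi m h x
  let sh : ZMod h → ZMod m := fun i => if i = 0 then redm m h c else 0
  have idxF : ∀ v, idx (v + c) = idx v + 1 := by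
    intro v
    show red m h (v + c - w) * ci - 1 = red m h (v - w) * ci - 1 + 1
    have : v + c - w = (v - w) + c := by ring
    rw [this, map_add]
    linear_combination hci
  have idx_psi : ∀ v x, idx (v + psi m h x) = idx v := by
    intro v x
    show red m h (v + psi m h x - w) * ci - 1 = red m h (v - w) * ci - 1
    have : v + psi m h x - w = (v - w) + psi m h x := by ring
    rw [this, map_add, red_psi, add_zero]
  have idx_base : ∀ i, idx (base i) = i := by
    intro i
    show red m h (w + ((i.val : ZMod (m * h)) + 1) * c - w) * ci - 1 = i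
    have : w + ((i.val : ZMod (m * h)) + 1) * c - w = ((i.val : ZMod (m * h)) + 1) * c := by ring
    rw [this, map_mul, map_add, map_natCast, map_one, ZMod.natCast_zmod_val]
    linear_combination (i + 1) * hci
  have idx_phi : ∀ i x, idx (phi i x) = i := fun i x => (idx_psi _ _).trans (idx_base i)
  have phi_inj : ∀ i x x', phi i x = phi i x' → x = x' := fun i x x' h' =>
    hinj (add_left_cancel h')
  have phi_surj : ∀ v, ∃ x, v = phi (idx v) x := by
    intro v
    have h1 : red m h (v - base (idx v)) = 0 := by
      have e1 : v - base (idx v) = (v - w) - (((idx v).val : ZMod (m * h)) + 1) * c := by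
        show v - (w + (((idx v).val : ZMod (m * h)) + 1) * c) = _
        ring
      rw [e1, map_sub, map_mul, map_add, map_natCast, map_one, ZMod.natCast_zmod_val]
      show red m h (v - w) - (red m h (v - w) * ci - 1 + 1) * red m h c = 0
      linear_combination (-red m h (v - w)) * hci
    obtain ⟨x, hx⟩ := exists_psi m h h1
    refine ⟨x, ?_⟩
    show v = base (idx v) + psi m h x
    rw [← hx]; ring
  have base_succ : ∀ i : ZMod h, i ≠ -1 → base (i + 1) = base i + c := by
    intro i hi
    show w + (((i + 1).val : ZMod (m * h)) + 1) * c = w + ((i.val : ZMod (m * h)) + 1) * c + c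
    rw [zval_succ h3 hi]
    push_cast; ring
  have base_neg : base (-1) = w + psi m h (redm m h c) := by
    show w + (((-1 : ZMod h).val : ZMod (m * h)) + 1) * c = _
    rw [zval_neg_one h3, Nat.cast_sub (by omega), psi_redm]
    push_cast; ring
  have base_zero : base 0 = w + c := by
    show w + (((0 : ZMod h).val : ZMod (m * h)) + 1) * c = _
    rw [ZMod.val_zero]; push_cast; ring
  have phi_succ : ∀ i x, phi i x + c = phi (i + 1) (x + sh (i + 1)) := by
    intro i x
    by_cases hi : i = -1
    · have e0 : i + 1 = 0 := by rw [hi]; ring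
      show base i + psi m h x + c = base (i + 1) + psi m h (x + sh (i + 1))
      rw [e0, hi, base_neg, base_zero]
      have : sh 0 = redm m h c := if_pos rfl
      rw [this, map_add]; ring
    · have e0 : i + 1 ≠ 0 := by intro h'; exact hi (by linear_combination h')
      show base i + psi m h x + c = base (i + 1) + psi m h (x + sh (i + 1))
      have : sh (i + 1) = 0 := if_neg e0
      rw [this, add_zero, base_succ i hi]; ring
  have idx_p : ∀ k, idx (p k) = r k := by
    intro k
    show red m h (p k - w) * ci - 1 = r k
    rw [hp k]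
    linear_combination (r k + 1) * hci
  have hx : ∀ k, ∃ x, p k = phi (r k) x := by
    intro k
    obtain ⟨x, hx⟩ := phi_surj (p k)
    rw [idx_p] at hx
    exact ⟨x, hx⟩
  choose x hx using hx
  have h00 : ¬ Odd (0 : ZMod h).val := by rw [ZMod.val_zero]; simp
  -- the main step for a given choice of centres `y`
  have main : ∀ (y : ℕ → ZMod m) (s : Θ),
      (∀ k l i, brk k l i → IsUnit (y i.val - y (i - 1).val - sh i)) →
      (Odd (r s).val → y (h - 1) = -redm m h c + hf * T s (-1)) →
      (¬ Odd (r s).val → (∀ k, ¬ Odd (r k).val) ∧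
        (r s ≠ -1 → y (h - 2) = -redm m h c + hf * T s (-1)) ∧
        (r s ≠ 0 → y 0 = hf * T s 0)) →
      TS Set.univ (fun u v => (∃ δ, D δ ∧ (v = u + psi m h δ ∨ u = v + psi m h δ)) ∨
          v = u + c ∨ u = v + c)
        (fun (k : Option Θ) b => k.elim (bif b then w + c else w)
          (fun k => p k + (bif b then psi m h (T k (r k)) else 0))) := by
    intro y s hy hyO hyE
    let X : Θ → ZMod h → ZMod m := fun k i =>
      if i = r k then x k else
        if Odd (i - r k).val then y i.val - hf * T k i else
          y (i - 1).val + sh i - hf * T k i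
    have X_real : ∀ k, X k (r k) = x k := fun k => if_pos rfl
    have X_low : ∀ k i, Odd (i - r k).val → X k i = y i.val - hf * T k i := by
      intro k i hi
      have hne' : i ≠ r k := by
        rintro rfl
        rw [sub_self] at hi
        exact h00 hi
      show (if i = r k then x k else _) = _
      rw [if_neg hne', if_pos hi]
    have X_up : ∀ k i, Odd (i - 1 - r k).val → X k i = y (i - 1).val + sh i - hf * T k i := by
      intro k i hi
      have hne' : i ≠ r k := by
        rintro rfl
        have e1 : r k - 1 - r k = -1 := by ring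
        rw [e1] at hi
        exact not_odd_neg_one hh h3 hi
      have hodd : ¬ Odd (i - r k).val := by
        have e1 : i - r k = i - 1 - r k + 1 := by ring
        rw [e1]
        exact not_odd_succ hh h3 hi
      show (if i = r k then x k else _) = _
      rw [if_neg hne', if_neg hodd]
    let e : Θ → Bool → ZMod h → ZMod (m * h) := fun k b i =>
      phi i (X k i + (bif b then T k i else 0))
    have eF : ∀ k b i, Odd (i - r k).val → e k b (i + 1) = e k b i + c := by
      intro k b i hi
      have hi' : Odd (i + 1 - 1 - r k).val := by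
        rw [add_sub_cancel_right]; exact hi
      have e1 : X k (i + 1) = X k i + sh (i + 1) := by
        rw [X_low k i hi, X_up k (i + 1) hi', add_sub_cancel_right, hT1 k i hi]
        ring
      show phi (i + 1) (X k (i + 1) + (bif b then T k (i + 1) else 0)) =
        phi i (X k i + (bif b then T k i else 0)) + c
      rw [phi_succ, e1, hT1 k i hi]
      congr 1
      ring
    have disj : ∀ k l i, k ≠ l → Odd (i - r k).val → Odd (i - r l).val →
        ∀ b b', e k b i ≠ e l b' i := by
      intro k l i hkl hk hl b b' he
      obtain ⟨n1, n2⟩ := hT2 k l i hkl hk hl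
      have h1 := phi_inj _ _ _ he
      rw [X_low k i hk, X_low l i hl] at h1
      cases b <;> cases b' <;> simp only [cond_true, cond_false] at h1
      · apply n1
        linear_combination (-2) * h1 + (T l i - T k i) * hhf
      · apply n2
        linear_combination (-2) * h1 + (T l i - T k i) * hhf
      · apply n2
        linear_combination 2 * h1 + (T k i - T l i) * hhf
      · apply n1
        linear_combination 2 * h1 + (T k i - T l i) * hhf
    have hTS' : ∀ i, TS {v | idx v = i}
        (fun u v => ∃ δ, D δ ∧ (v = u + psi m h δ ∨ u = v + psi m h δ))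
        (fun k b => e k b i) := by
      intro i
      have h1 := hTS i (fun k => X k i) (by
        intro k l hb
        obtain ⟨b1, b2, b3⟩ := hb1 k l i hb
        have e1 : X k i - X l i = y i.val - y (i - 1).val - sh i := by
          rw [X_low k i b1, X_up l i b2, b3]; ring
        show IsUnit (X k i - X l i)
        rw [e1]
        exact hy k l i hb)
      refine h1.map (phi i) (fun a b => phi_inj i a b) _ _ ?_ ?_
      · intro v
        constructor
        · intro hv
          obtain ⟨a, ha⟩ := phi_surj v
          have hv' : idx v = i := hv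
          rw [hv'] at ha
          exact ⟨a, trivial, ha.symm⟩
        · rintro ⟨a, -, rfl⟩
          exact idx_phi i a
      · rintro a - b - ⟨δ, hδ, h2⟩
        refine ⟨δ, hδ, ?_⟩
        have e1 : ∀ a' : ZMod m, phi i a' + psi m h δ = phi i (a' + δ) := by
          intro a'
          show base i + psi m h a' + psi m h δ = base i + psi m h (a' + δ)
          rw [map_add]; ring
        rcases h2 with h2 | h2
        · left
          rw [e1] at h2
          exact phi_inj _ _ _ h2
        · right
          rw [e1] at h2
          exact phi_inj _ _ _ h2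
    have idxw : idx w = -1 := by
      show red m h (w - w) * ci - 1 = -1
      rw [sub_self, map_zero]; ring
    -- the special thread
    have hval2 : ((-1 : ZMod h) - 1).val = h - 2 := by
      have : (-1 : ZMod h) - 1 = -2 := by ring
      rw [this, val_neg_two h3]
    have h10 : (-1 : ZMod h) ≠ 0 := by
      intro h'
      have := zval_neg_one (g := h) h3
      rw [h', ZMod.val_zero] at this
      omega
    have hs1 : r s ≠ -1 → e s false (-1) = w := by
      intro hr
      have key : X s (-1) = -redm m h c := by
        by_cases ho : Odd (r s).val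
        · rw [X_low s (-1) ((odd_neg_one_sub hh h3 _).2 ho), zval_neg_one h3, hyO ho]; ring
        · have hodd : Odd (-1 - 1 - r s).val := by
            rcases odd_or_pred h3 (x := -1 - r s) (by
              intro h'; exact hr (by linear_combination -h')) with h1 | h1
            · exact absurd ((odd_neg_one_sub hh h3 _).1 h1) ho
            · have : (-1 : ZMod h) - 1 - r s = -1 - r s - 1 := by ring
              rw [this]; exact h1
          have : sh (-1) = 0 := if_neg h10
          rw [X_up s (-1) hodd, hval2, (hyE ho).2.1 hr, this]; ring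
      show phi (-1) (X s (-1) + 0) = w
      rw [key, add_zero]
      show base (-1) + psi m h (-redm m h c) = w
      rw [base_neg, map_neg]; ring
    have hs0 : r s ≠ 0 → e s false 0 = w + c := by
      intro hr
      by_cases ho : Odd (r s).val
      · have hr1 : r s ≠ -1 := by
          intro h'
          rw [h'] at ho
          exact not_odd_neg_one hh h3 ho
        have := eF s false (-1) ((odd_neg_one_sub hh h3 _).2 ho)
        rw [hs1 hr1] at this
        have e0 : (-1 : ZMod h) + 1 = 0 := by ring
        rw [e0] at this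
        exact this
      · have hodd : Odd (0 - r s).val := odd_neg_of_even hh h3 ho hr
        have key : X s 0 = 0 := by
          rw [X_low s 0 hodd, ZMod.val_zero, (hyE ho).2.2 hr]; ring
        show phi 0 (X s 0 + 0) = w + c
        rw [key, add_zero]
        show base 0 + psi m h 0 = w + c
        rw [base_zero, map_zero, add_zero]
    have hs : ∀ l b, l ≠ s → Odd (-1 - r l).val → e l b (-1) ≠ w := by
      intro l b hl hodd
      by_cases ho : Odd (r s).val
      · have hr1 : r s ≠ -1 := by
          intro h'
          rw [h'] at ho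
          exact not_odd_neg_one hh h3 ho
        rw [← hs1 hr1]
        exact disj l s (-1) hl hodd ((odd_neg_one_sub hh h3 _).2 ho) b false
      · exact absurd ((odd_neg_one_sub hh h3 _).1 hodd) ((hyE ho).1 l)
    have := glue_TS hh h3 (Equiv.addRight c) idx idxF
      (fun u v => ∃ δ, D δ ∧ (v = u + psi m h δ ∨ u = v + psi m h δ)) r e
      (fun k b i => idx_phi _ _) eF disj hTS' s w idxw hs1 hs0 hs
    refine (this.mono ?_).congr ?_
    · rintro u - v - (⟨δ, hδ, h1⟩ | h1 | h1)
      · left
        refine ⟨?_, δ, hδ, h1⟩
        rcases h1 with rfl | rfl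
        · exact (idx_psi _ _).symm
        · exact idx_psi _ _
      · right; left; exact h1
      · right; right; exact h1
    · intro k b
      rcases k with _ | k
      · rfl
      · show p k + (bif b then psi m h (T k (r k)) else 0) =
          phi (r k) (X k (r k) + (bif b then T k (r k) else 0))
        rw [X_real, hx k]
        show base (r k) + psi m h (x k) + (bif b then psi m h (T k (r k)) else 0) =
          base (r k) + psi m h (x k + (bif b then T k (r k) else 0))
        cases b
        · simp
        · simp only [cond_true]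
          rw [map_add]; ring
  -- choice of the centres
  have hsh0 : ∀ i, i ≠ 0 → sh i = 0 := fun i hi => if_neg hi
  have hpos : ∀ i : ZMod h, i ≠ 0 → 1 ≤ i.val := by
    intro i hi
    rcases Nat.eq_zero_or_pos i.val with h1 | h1
    · exact absurd ((ZMod.val_eq_zero i).1 h1) hi
    · exact h1
  by_cases hO : ∃ s, Odd (r s).val
  · obtain ⟨s, hs⟩ := hO
    obtain ⟨y, y1, y2, y3⟩ := seq_O m hm h h3 (-redm m h c + hf * T s (-1)) (redm m h c)
    refine main y s ?_ (fun _ => y1) (fun h' => absurd hs h')
    intro k l i _
    by_cases hi : i = 0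
    · rw [hi]
      have e1 : sh 0 = redm m h c := if_pos rfl
      rw [e1, ZMod.val_zero, zero_sub, zval_neg_one h3]
      exact y3
    · rw [hsh0 i hi, sub_zero, zval_pred h3 hi]
      exact y2 _ (hpos i hi) (by have := i.val_lt; omega)
  · have hE : ∀ k, ¬ Odd (r k).val := fun k hk => hO ⟨k, hk⟩
    have hlt : ∀ k l i, brk k l i → 1 ≤ i.val ∧ i.val ≤ h - 2 := by
      intro k l i hb
      obtain ⟨b1, b2⟩ := hb2 hE k l i hb
      have h1 := i.val_lt
      have h2 : i.val ≠ h - 1 := by
        intro h'
        apply b2
        rw [← zval_neg_one (g := h) h3] at h'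
        exact ZMod.val_injective h h'
      exact ⟨hpos i b1, by omega⟩
    have hfin : ∀ (y : ℕ → ZMod m), (∀ j, 1 ≤ j → j ≤ h - 2 → IsUnit (y j - y (j - 1))) →
        ∀ k l i, brk k l i → IsUnit (y i.val - y (i - 1).val - sh i) := by
      intro y hy k l i hb
      have hi := (hb2 hE k l i hb).1
      obtain ⟨l1, l2⟩ := hlt k l i hb
      rw [hsh0 i hi, sub_zero, zval_pred h3 hi]
      exact hy _ l1 l2
    obtain ⟨s⟩ := hne
    by_cases hr0 : r s = 0
    · refine main (fun j => -redm m h c + hf * T s (-1) - ((h - 2 : ℕ) : ZMod m) + (j : ZMod m)) s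
        (hfin (fun j => -redm m h c + hf * T s (-1) - ((h - 2 : ℕ) : ZMod m) + (j : ZMod m)) ?_)
        (fun h' => absurd h' (hE s)) (fun _ => ⟨hE, fun _ => ?_, fun h' => absurd hr0 h'⟩)
      · intro j h1 h2
        have e1 : ∀ a : ZMod m, a + (j : ZMod m) - (a + ((j - 1 : ℕ) : ZMod m)) = 1 := by
          intro a
          rw [Nat.cast_sub h1]; push_cast; ring
        rw [e1]; exact isUnit_one
      · ring
    by_cases hr1 : r s = -1
    · refine main (fun j => hf * T s 0 + (j : ZMod m)) s
        (hfin (fun j => hf * T s 0 + (j : ZMod m)) ?_)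
        (fun h' => absurd h' (hE s)) (fun _ => ⟨hE, fun h' => absurd hr1 h', fun _ => ?_⟩)
      · intro j h1 h2
        have e1 : ∀ a : ZMod m, a + (j : ZMod m) - (a + ((j - 1 : ℕ) : ZMod m)) = 1 := by
          intro a
          rw [Nat.cast_sub h1]; push_cast; ring
        rw [e1]; exact isUnit_one
      · push_cast; ring
    · -- `h ≥ 5`
      have h5 : 5 ≤ h := by
        by_contra hlt5
        have hh3 : h = 3 := by
          obtain ⟨a, ha⟩ := hh
          omega
        have v1 := (r s).val_lt
        have v2 := hE s
        have v3 := hpos _ hr0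
        have v4 : (r s).val = 2 := by
          rcases Nat.lt_or_ge (r s).val 2 with h' | h'
          · exfalso
            apply v2
            have : (r s).val = 1 := by omega
            rw [this]; exact odd_one
          · omega
        apply hr1
        have v5 : (r s).val = (-1 : ZMod h).val := by
          rw [zval_neg_one h3, v4]; omega
        exact ZMod.val_injective h v5
      obtain ⟨y, y1, y2, y3⟩ := seq_E m hm h h5 (-redm m h c + hf * T s (-1)) (hf * T s 0)
      exact main y s (hfin y y3) (fun h' => absurd h' (hE s))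
        (fun _ => ⟨hE, fun _ => y2, fun _ => y1⟩)

end Pool.Agent.P45
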