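import Pool.Agent.Lib.P45dba8.Blocks

/-! # HOST2: a good family in two parts is hosted by a pair of types, both coprime to `h` -/

set_option autoImplicit false

namespace Pool.Agent.P45

section two

variable {m h : ℕ} (hm : Odd m) (hh : Odd h) (h3 : 3 ≤ h) {ι₁ κ₁ ι₂ κ₂ : Type*}
  [Nonempty (ι₁ ⊕ κ₁ × Bool)] [Nonempty (ι₂ ⊕ κ₂ × Bool)]
  {Q₁ Q₂ : ZMod m → Prop} (hQ₁ : ∀ x, IsUnit x → Q₁ x) (hQ₂ : ∀ x, IsUnit x → Q₂ x)
  {t₁ : ι₁ → ZMod m} {d₁ u₁ : κ₁ → ZMod m} (hG₁ : Good m Q₁ t₁ d₁ u₁) (hD₁ : Dist t₁ d₁ u₁)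
  {t₂ : ι₂ → ZMod m} {d₂ u₂ : κ₂ → ZMod m} (hG₂ : Good m Q₂ t₂ d₂ u₂) (hD₂ : Dist t₂ d₂ u₂)
  (P₁ A₁ : ι₁ ⊕ κ₁ × Bool → ZMod (m * h)) (hA₁ : ∀ i, A₁ (Sum.inl i) = psi m h (t₁ i))
  (hP₁ : ∀ k, adm (fun δ => red m h δ ≠ 0) (psi m h (d₁ k)) (psi m h (u₁ k))
      (A₁ (Sum.inr (k, false))) (A₁ (Sum.inr (k, true)))
      (P₁ (Sum.inr (k, true)) - P₁ (Sum.inr (k, false))))
  (P₂ A₂ : ι₂ ⊕ κ₂ × Bool → ZMod (m * h)) (hA₂ : ∀ i, A₂ (Sum.inl i) = psi m h (t₂ i))
  (hP₂ : ∀ k, adm (fun δ => red m h δ ≠ 0) (psi m h (d₂ k)) (psi m h (u₂ k))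
      (A₂ (Sum.inr (k, false))) (A₂ (Sum.inr (k, true)))
      (P₂ (Sum.inr (k, true)) - P₂ (Sum.inr (k, false))))

/-- Single block with one pure carrier. -/
theorem Good.blk1 {m h : ℕ} (hm : Odd m) (hh : Odd h) (h3 : 3 ≤ h) {ι κ : Type*}
    [Nonempty (ι ⊕ κ × Bool)] {Q : ZMod m → Prop} (hQ : ∀ x, IsUnit x → Q x)
    {t : ι → ZMod m} {d u : κ → ZMod m} (hG : Good m Q t d u) (hD : Dist t d u)
    (x p : ZMod (m * h)) (hx : IsUnit (red m h x))
    (P A : ι ⊕ κ × Bool → ZMod (m * h)) (hA : ∀ i, A (Sum.inl i) = psi m h (t i))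
    (hP : ∀ k, adm (fun δ => red m h δ ≠ 0) (psi m h (d k)) (psi m h (u k))
      (A (Sum.inr (k, false))) (A (Sum.inr (k, true)))
      (P (Sum.inr (k, true)) - P (Sum.inr (k, false)))) :
    TS Set.univ (fun v v' => DE (FD (fun i => psi m h (t i)) (fun k => psi m h (d k))
        (fun k => psi m h (u k))) v v' ∨ v' = v + x ∨ v = v' + x)
      (fun (k : Option (ι ⊕ κ × Bool)) b =>
        k.elim (bif b then p + x else p) (fun k => fh P A k b)) :=
  hG.blkA hm hh h3 hQ hD (fun _ => x) (red m h x) hx (fun _ => rfl) p P A hA hP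

include hm hh h3 hQ₁ hQ₂ hG₁ hG₂ hD₁ hD₂ hA₁ hA₂ hP₁ hP₂

theorem two_sgl (x y p p' : ZMod (m * h)) (hx : IsUnit (red m h x)) (hy : IsUnit (red m h y)) :
    TS Set.univ (fun v v' =>
        (DE (FD (fun i => psi m h (t₁ i)) (fun k => psi m h (d₁ k)) (fun k => psi m h (u₁ k))) v v' ∨
        DE (FD (fun i => psi m h (t₂ i)) (fun k => psi m h (d₂ k)) (fun k => psi m h (u₂ k))) v v') ∨
        DE (fun δ => δ = x ∨ δ = y) v v')
      (Sum.elim (fun (k : Option (ι₁ ⊕ κ₁ × Bool)) b =>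
          k.elim (bif b then p + x else p) (fun k => fh P₁ A₁ k b))
        (fun (k : Option (ι₂ ⊕ κ₂ × Bool)) b =>
          k.elim (bif b then p' + y else p') (fun k => fh P₂ A₂ k b))) := by
  refine ((hG₁.blk1 hm hh h3 hQ₁ hD₁ x p hx P₁ A₁ hA₁ hP₁).union
    (hG₂.blk1 hm hh h3 hQ₂ hD₂ y p' hy P₂ A₂ hA₂ hP₂)).mono ?_
  rintro v - v' - ((h1 | h1) | ⟨δ, rfl | rfl, h1 | h1⟩)
  · exact Or.inl (Or.inl h1)
  · exact Or.inr (Or.inl h1)
  · exact Or.inl (Or.inr (Or.inl h1))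
  · exact Or.inl (Or.inr (Or.inr h1))
  · exact Or.inr (Or.inr (Or.inl h1))
  · exact Or.inr (Or.inr (Or.inr h1))

theorem two_dbl (x y p p' : ZMod (m * h)) (hx : IsUnit (red m h x)) (hy : IsUnit (red m h y))
    (hpp : red m h (p' - p) ≠ 0) :
    TS Set.univ (fun v v' =>
        (DE (FD (fun i => psi m h (t₁ i)) (fun k => psi m h (d₁ k)) (fun k => psi m h (u₁ k))) v v' ∨
        DE (FD (fun i => psi m h (t₂ i)) (fun k => psi m h (d₂ k)) (fun k => psi m h (u₂ k))) v v') ∨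
        DE (fun δ => δ = x ∨ δ = y) v v')
      (Sum.elim (fun (k : Option (ι₁ ⊕ κ₁ × Bool)) b =>
          k.elim (bif b then p + x else p) (fun k => fh P₁ A₁ k b))
        (fun (k : Option (ι₂ ⊕ κ₂ × Bool)) b =>
          k.elim (bif b then p' + x else p') (fun k => fh P₂ A₂ k b))) := by
  classical
  have hF1 : Fact (1 < h) := ⟨by omega⟩
  have hne : red m h p ≠ red m h p' := by
    intro h'
    apply hpp
    rw [map_sub, h', sub_self]
  -- the case of equal residues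
  have caseA : ∀ y' : ZMod (m * h), red m h y' = red m h x →
      TS Set.univ (fun v v' =>
        (DE (FD (fun i => psi m h (t₁ i)) (fun k => psi m h (d₁ k)) (fun k => psi m h (u₁ k))) v v' ∨
        DE (FD (fun i => psi m h (t₂ i)) (fun k => psi m h (d₂ k)) (fun k => psi m h (u₂ k))) v v') ∨
        DE (fun δ => δ = x ∨ δ = y') v v')
      (Sum.elim (fun (k : Option (ι₁ ⊕ κ₁ × Bool)) b =>
          k.elim (bif b then p + x else p) (fun k => fh P₁ A₁ k b))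
        (fun (k : Option (ι₂ ⊕ κ₂ × Bool)) b =>
          k.elim (bif b then p' + x else p') (fun k => fh P₂ A₂ k b))) := by
    intro y' hy'
    let W1 : ZMod h → ZMod (m * h) := fun a => if a = red m h p' then y' else x
    let W2 : ZMod h → ZMod (m * h) := fun a => if a = red m h p' then x else y'
    have hW1 : ∀ a, red m h (W1 a) = red m h x := by
      intro a
      show red m h (if a = red m h p' then y' else x) = _
      split_ifs
      · exact hy'
      · rfl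
    have hW2 : ∀ a, red m h (W2 a) = red m h x := by
      intro a
      show red m h (if a = red m h p' then x else y') = _
      split_ifs
      · rfl
      · exact hy'
    refine (((hG₁.blkA hm hh h3 hQ₁ hD₁ W1 (red m h x) hx hW1 p P₁ A₁ hA₁ hP₁).union
      (hG₂.blkA hm hh h3 hQ₂ hD₂ W2 (red m h x) hx hW2 p' P₂ A₂ hA₂ hP₂)).mono ?_).congr ?_
    · have key : ∀ v v' δ, (δ = x ∨ δ = y') → v' = v + δ →
          v' = v + W1 (red m h v) ∨ v' = v + W2 (red m h v) := by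
        rintro v v' δ hδ h1
        by_cases hv : red m h v = red m h p'
        · have e1 : W1 (red m h v) = y' := if_pos hv
          have e2 : W2 (red m h v) = x := if_pos hv
          rw [e1, e2, h1]
          rcases hδ with rfl | rfl
          · exact Or.inr rfl
          · exact Or.inl rfl
        · have e1 : W1 (red m h v) = x := if_neg hv
          have e2 : W2 (red m h v) = y' := if_neg hv
          rw [e1, e2, h1]
          rcases hδ with rfl | rfl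
          · exact Or.inl rfl
          · exact Or.inr rfl
      rintro v - v' - ((h1 | h1) | ⟨δ, hδ, h1 | h1⟩)
      · exact Or.inl (Or.inl h1)
      · exact Or.inr (Or.inl h1)
      · rcases key v v' δ hδ h1 with h2 | h2
        · exact Or.inl (Or.inr (Or.inl h2))
        · exact Or.inr (Or.inr (Or.inl h2))
      · rcases key v' v δ hδ h1 with h2 | h2
        · exact Or.inl (Or.inr (Or.inr h2))
        · exact Or.inr (Or.inr (Or.inr h2))
    · rintro ((_ | k) | (_ | k)) b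
      · show (bif b then p + x else p) = (bif b then p + W1 (red m h p) else p)
        have : W1 (red m h p) = x := if_neg hne
        rw [this]
      · rfl
      · show (bif b then p' + x else p') = (bif b then p' + W2 (red m h p') else p')
        have : W2 (red m h p') = x := if_pos rfl
        rw [this]
      · rfl
  by_cases h1 : red m h y = red m h x
  · exact caseA y h1
  by_cases h2 : red m h y = -red m h x
  · refine (caseA (-y) (by rw [map_neg, h2, neg_neg])).mono ?_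
    rintro v - v' - (h4 | ⟨δ, hδ | hδ, h5⟩)
    · exact Or.inl h4
    · exact Or.inr ⟨δ, Or.inl hδ, h5⟩
    · refine Or.inr ⟨-y, Or.inr rfl, ?_⟩
      rw [hδ] at h5
      rcases h5 with h5 | h5
      · right; rw [h5]; ring
      · left; rw [h5]; ring
  -- the general case
  have hx0 : red m h x ≠ 0 := hx.ne_zero
  have hy0 : red m h y ≠ 0 := hy.ne_zero
  have h1' : red m h x ≠ red m h y := fun h' => h1 h'.symm
  have h2' : red m h x ≠ -red m h y := fun h' => h2 (by rw [h', neg_neg])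
  have h2u : IsUnit (2 : ZMod h) := by
    have : IsUnit ((2 : ℕ) : ZMod h) := by
      rw [ZMod.isUnit_iff_coprime]
      exact Nat.coprime_two_left.2 hh
    exact_mod_cast this
  obtain ⟨a, ha1, ha2, ha3⟩ : ∃ a : ZMod h, red m h p ≠ a ∧ red m h p ≠ a + red m h y ∧
      (red m h p' = a ∨ red m h p' = a + red m h y) := by
    by_cases h4 : red m h p = red m h p' + red m h y
    · refine ⟨red m h p' - red m h y, ?_, ?_, Or.inr (by ring)⟩
      · rw [h4]
        intro h5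
        have h6 : (2 : ZMod h) * red m h y = 0 := by linear_combination h5
        exact hy0 ((h2u.mul_right_eq_zero).1 h6)
      · intro h5
        apply hne
        rw [h5]; ring
    · exact ⟨red m h p', hne, h4, Or.inl rfl⟩
  let E1 : ZMod (m * h) → ZMod (m * h) → Prop := fun v v' =>
    (v' = v + y ∧ (red m h v = a ∨ red m h v = a + red m h x)) ∨
    (v' = v + x ∧ red m h v ≠ a ∧ red m h v ≠ a + red m h y)
  let E2 : ZMod (m * h) → ZMod (m * h) → Prop := fun v v' =>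
    (v' = v + x ∧ (red m h v = a ∨ red m h v = a + red m h y)) ∨
    (v' = v + y ∧ red m h v ≠ a ∧ red m h v ≠ a + red m h x)
  have B1 := hG₁.blkB hm hh h3 hQ₁ hD₁ x y hx a hy0 h1 h2 p (p + x)
    (Or.inr ⟨rfl, ha1, ha2⟩) P₁ A₁ hA₁ hP₁ E1 (fun v v' h' => h')
  have B2 := hG₂.blkB hm hh h3 hQ₂ hD₂ y x hy a hx0 h1' h2' p' (p' + x)
    (Or.inl ⟨rfl, ha3⟩) P₂ A₂ hA₂ hP₂ E2 (fun v v' h' => h')
  refine (B1.union B2).mono ?_
  have key : ∀ v v' δ, (δ = x ∨ δ = y) → v' = v + δ → E1 v v' ∨ E2 v v' := by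
    rintro v v' δ hδ h4
    rcases hδ with hδ | hδ
    · rw [hδ] at h4
      by_cases h5 : red m h v = a ∨ red m h v = a + red m h y
      · exact Or.inr (Or.inl ⟨h4, h5⟩)
      · exact Or.inl (Or.inr ⟨h4, fun h' => h5 (Or.inl h'), fun h' => h5 (Or.inr h')⟩)
    · rw [hδ] at h4
      by_cases h5 : red m h v = a ∨ red m h v = a + red m h x
      · exact Or.inl (Or.inl ⟨h4, h5⟩)
      · exact Or.inr (Or.inr ⟨h4, fun h' => h5 (Or.inl h'), fun h' => h5 (Or.inr h')⟩)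
  rintro v - v' - ((h4 | h4) | ⟨δ, hδ, h4 | h4⟩)
  · exact Or.inl (Or.inl h4)
  · exact Or.inr (Or.inl h4)
  · rcases key v v' δ hδ h4 with h5 | h5
    · exact Or.inl (Or.inr (Or.inl h5))
    · exact Or.inr (Or.inr (Or.inl h5))
  · rcases key v' v δ hδ h4 with h5 | h5
    · exact Or.inl (Or.inr (Or.inr h5))
    · exact Or.inr (Or.inr (Or.inr h5))

end two

/-- Renaming of the threads of a union with a pair of hosts. -/
def host2Equiv (ι₁ κ₁ ι₂ κ₂ : Type*) : (ι₁ ⊕ ι₂) ⊕ Option (κ₁ ⊕ κ₂) × Bool ≃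
    Option (ι₁ ⊕ κ₁ × Bool) ⊕ Option (ι₂ ⊕ κ₂ × Bool) where
  toFun := Sum.elim (Sum.elim (fun i => Sum.inl (some (Sum.inl i)))
      (fun i => Sum.inr (some (Sum.inl i))))
    (fun k => k.1.elim (bif k.2 then Sum.inr none else Sum.inl none)
      (Sum.elim (fun j => Sum.inl (some (Sum.inr (j, k.2))))
        (fun j => Sum.inr (some (Sum.inr (j, k.2))))))
  invFun := Sum.elim
    (fun k => k.elim (Sum.inr (none, false)) (Sum.elim (fun i => Sum.inl (Sum.inl i))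
      (fun j => Sum.inr (some (Sum.inl j.1), j.2))))
    (fun k => k.elim (Sum.inr (none, true)) (Sum.elim (fun i => Sum.inl (Sum.inr i))
      (fun j => Sum.inr (some (Sum.inr j.1), j.2))))
  left_inv := by
    rintro ((i | i) | ⟨_ | (k | k), b⟩)
    · rfl
    · rfl
    · cases b <;> rfl
    · rfl
    · rfl
  right_inv := by
    rintro ((_ | (i | ⟨k, b⟩)) | (_ | (i | ⟨k, b⟩)))
    all_goals rfl

/-- HOST2 (rule R3): two good families of the subgroup together with a pair `x, y` of types, both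
coprime to `h`, form a good family. -/
theorem Good.host2 {m h : ℕ} (hm : Odd m) (hh : Odd h) (h3 : 3 ≤ h) {ι₁ κ₁ ι₂ κ₂ : Type*}
    [Nonempty (ι₁ ⊕ κ₁ × Bool)] [Nonempty (ι₂ ⊕ κ₂ × Bool)]
    {Q₁ Q₂ : ZMod m → Prop} (hQ₁ : ∀ x, IsUnit x → Q₁ x) (hQ₂ : ∀ x, IsUnit x → Q₂ x)
    {t₁ : ι₁ → ZMod m} {d₁ u₁ : κ₁ → ZMod m} (hG₁ : Good m Q₁ t₁ d₁ u₁) (hD₁ : Dist t₁ d₁ u₁)
    {t₂ : ι₂ → ZMod m} {d₂ u₂ : κ₂ → ZMod m} (hG₂ : Good m Q₂ t₂ d₂ u₂) (hD₂ : Dist t₂ d₂ u₂)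
    (x y : ZMod (m * h)) (hx : IsUnit (red m h x)) (hy : IsUnit (red m h y)) :
    Good (m * h) (fun δ => red m h δ ≠ 0)
      (Sum.elim (fun i => psi m h (t₁ i)) (fun i => psi m h (t₂ i)))
      (fun k : Option (κ₁ ⊕ κ₂) =>
        k.elim x (Sum.elim (fun k => psi m h (d₁ k)) (fun k => psi m h (d₂ k))))
      (fun k : Option (κ₁ ⊕ κ₂) =>
        k.elim y (Sum.elim (fun k => psi m h (u₁ k)) (fun k => psi m h (u₂ k)))) := by
  classical
  intro P A hA hP
  let e1 : ι₁ ⊕ κ₁ × Bool → (ι₁ ⊕ ι₂) ⊕ Option (κ₁ ⊕ κ₂) × Bool :=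
    Sum.elim (fun i => Sum.inl (Sum.inl i)) (fun k => Sum.inr (some (Sum.inl k.1), k.2))
  let e2 : ι₂ ⊕ κ₂ × Bool → (ι₁ ⊕ ι₂) ⊕ Option (κ₁ ⊕ κ₂) × Bool :=
    Sum.elim (fun i => Sum.inl (Sum.inr i)) (fun k => Sum.inr (some (Sum.inr k.1), k.2))
  -- the final step
  have fin : ∀ z z' p p' : ZMod (m * h), (∀ δ, δ = x ∨ δ = y → δ = z ∨ δ = z') →
      ∀ q q' : ZMod (m * h),
      (∀ b, fh P A (Sum.inr (none, false)) b = (bif b then p + q else p)) →
      (∀ b, fh P A (Sum.inr (none, true)) b = (bif b then p' + q' else p')) →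
      TS Set.univ (fun v v' =>
        (DE (FD (fun i => psi m h (t₁ i)) (fun k => psi m h (d₁ k)) (fun k => psi m h (u₁ k))) v v' ∨
        DE (FD (fun i => psi m h (t₂ i)) (fun k => psi m h (d₂ k)) (fun k => psi m h (u₂ k))) v v') ∨
        DE (fun δ => δ = z ∨ δ = z') v v')
      (Sum.elim (fun (k : Option (ι₁ ⊕ κ₁ × Bool)) b =>
          k.elim (bif b then p + q else p) (fun k => fh (P ∘ e1) (A ∘ e1) k b))
        (fun (k : Option (ι₂ ⊕ κ₂ × Bool)) b =>
          k.elim (bif b then p' + q' else p') (fun k => fh (P ∘ e2) (A ∘ e2) k b))) →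
      TS Set.univ (DE (FD (Sum.elim (fun i => psi m h (t₁ i)) (fun i => psi m h (t₂ i)))
        (fun k : Option (κ₁ ⊕ κ₂) =>
          k.elim x (Sum.elim (fun k => psi m h (d₁ k)) (fun k => psi m h (d₂ k))))
        (fun k : Option (κ₁ ⊕ κ₂) =>
          k.elim y (Sum.elim (fun k => psi m h (u₁ k)) (fun k => psi m h (u₂ k)))))) (fh P A) := by
    intro z z' p p' hz q q' hf ht hTS
    refine ((hTS.reindex (host2Equiv ι₁ κ₁ ι₂ κ₂)).mono ?_).congr ?_
    · rintro v - v' - ⟨δ, hδ, hvv⟩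
      rcases hδ with ⟨i | i, hi⟩ | ⟨_ | (k | k), hk⟩
      · exact Or.inl (Or.inl ⟨δ, Or.inl ⟨i, hi⟩, hvv⟩)
      · exact Or.inl (Or.inr ⟨δ, Or.inl ⟨i, hi⟩, hvv⟩)
      · exact Or.inr ⟨δ, hz δ hk, hvv⟩
      · exact Or.inl (Or.inl ⟨δ, Or.inr ⟨k, hk⟩, hvv⟩)
      · exact Or.inl (Or.inr ⟨δ, Or.inr ⟨k, hk⟩, hvv⟩)
    · rintro ((i | i) | ⟨_ | (k | k), b'⟩) b
      · rfl
      · rfl
      · cases b'
        · exact hf b
        · exact ht b
      · rfl
      · rfl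
  have hA1 : ∀ i, (A ∘ e1) (Sum.inl i) = psi m h (t₁ i) := fun i => hA (Sum.inl i)
  have hA2 : ∀ i, (A ∘ e2) (Sum.inl i) = psi m h (t₂ i) := fun i => hA (Sum.inr i)
  have hP1 := fun k => hP (some (Sum.inl k))
  have hP2 := fun k => hP (some (Sum.inr k))
  have hfh : ∀ θ b, fh P A θ b = (bif b then P θ + A θ else P θ) := by
    intro θ b
    cases b
    · exact add_zero _
    · rfl
  rcases hP none with ⟨h1, h2⟩ | ⟨h1, h2⟩ | ⟨⟨h1, h2⟩ | ⟨h1, h2⟩, h4⟩
  · have h1' : A (Sum.inr (none, false)) = x := h1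
    have h2' : A (Sum.inr (none, true)) = y := h2
    refine fin x y (P (Sum.inr (none, false))) (P (Sum.inr (none, true))) (fun δ hδ => hδ) x y
      (fun b => by rw [hfh, h1']) (fun b => by rw [hfh, h2'])
      (two_sgl hm hh h3 hQ₁ hQ₂ hG₁ hD₁ hG₂ hD₂ (P ∘ e1) (A ∘ e1) hA1 hP1 (P ∘ e2) (A ∘ e2)
        hA2 hP2 x y _ _ hx hy)
  · have h1' : A (Sum.inr (none, false)) = y := h1
    have h2' : A (Sum.inr (none, true)) = x := h2
    refine fin y x (P (Sum.inr (none, false))) (P (Sum.inr (none, true)))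
      (fun δ hδ => hδ.symm) y x
      (fun b => by rw [hfh, h1']) (fun b => by rw [hfh, h2'])
      (two_sgl hm hh h3 hQ₁ hQ₂ hG₁ hD₁ hG₂ hD₂ (P ∘ e1) (A ∘ e1) hA1 hP1 (P ∘ e2) (A ∘ e2)
        hA2 hP2 y x _ _ hy hx)
  · have h1' : A (Sum.inr (none, false)) = x := h1
    have h2' : A (Sum.inr (none, true)) = x := h2
    refine fin x y (P (Sum.inr (none, false))) (P (Sum.inr (none, true)))
      (fun δ hδ => hδ) x x
      (fun b => by rw [hfh, h1']) (fun b => by rw [hfh, h2'])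
      (two_dbl hm hh h3 hQ₁ hQ₂ hG₁ hD₁ hG₂ hD₂ (P ∘ e1) (A ∘ e1) hA1 hP1 (P ∘ e2) (A ∘ e2)
        hA2 hP2 x y _ _ hx hy h4)
  · have h1' : A (Sum.inr (none, false)) = y := h1
    have h2' : A (Sum.inr (none, true)) = y := h2
    refine fin y x (P (Sum.inr (none, false))) (P (Sum.inr (none, true)))
      (fun δ hδ => hδ.symm) y y
      (fun b => by rw [hfh, h1']) (fun b => by rw [hfh, h2'])
      (two_dbl hm hh h3 hQ₁ hQ₂ hG₁ hD₁ hG₂ hD₂ (P ∘ e1) (A ∘ e1) hA1 hP1 (P ∘ e2) (A ∘ e2)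
        hA2 hP2 y x _ _ hy hx h4)

end Pool.Agent.P45
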