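import Pool.Agent.Lib.P45dba8.GoodCore

/-! # Blocks: a good family of the subgroup hosted along a cyclic order of the classes -/

set_option autoImplicit false

namespace Pool.Agent.P45

/-- HOST along a cyclic order `π` of the classes with the translations `W`. -/
theorem Good.hostW {m h : ℕ} (hm : Odd m) (hh : Odd h) (h3 : 3 ≤ h) {ι κ : Type*}
    [Nonempty (ι ⊕ κ × Bool)] {Q : ZMod m → Prop} (hQ : ∀ x, IsUnit x → Q x)
    {t : ι → ZMod m} {d u : κ → ZMod m} (hG : Good m Q t d u) (hD : Dist t d u)
    (π : ZMod h ≃ ZMod h) (W : ZMod h → ZMod (m * h))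
    (hW : ∀ i, red m h (W i) = π (i + 1) - π i) (w : ZMod (m * h)) (hw : red m h w = π (-1))
    (P A : ι ⊕ κ × Bool → ZMod (m * h)) (hA : ∀ i, A (Sum.inl i) = psi m h (t i))
    (hP : ∀ k, adm (fun δ => red m h δ ≠ 0) (psi m h (d k)) (psi m h (u k))
      (A (Sum.inr (k, false))) (A (Sum.inr (k, true)))
      (P (Sum.inr (k, true)) - P (Sum.inr (k, false)))) :
    TS Set.univ (fun x y => DE (FD (fun i => psi m h (t i)) (fun k => psi m h (d k))
        (fun k => psi m h (u k))) x y ∨ y = x + W (π.symm (red m h x)) ∨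
        x = y + W (π.symm (red m h y)))
      (fun (k : Option (ι ⊕ κ × Bool)) b =>
        k.elim (bif b then w + W (-1) else w) (fun k => fh P A k b)) := by
  classical
  have hNZ : NeZero h := ⟨by omega⟩
  have hinj := psi_inj m h (by omega)
  let base : ZMod h → ZMod (m * h) := fun i =>
    w + W (-1) + ∑ j ∈ Finset.range i.val, W ((j : ℕ) : ZMod h)
  have base_zero : base 0 = w + W (-1) := by
    show w + W (-1) + ∑ j ∈ Finset.range (0 : ZMod h).val, W ((j : ℕ) : ZMod h) = _
    rw [ZMod.val_zero, Finset.sum_range_zero, add_zero]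
  have base_succ : ∀ i : ZMod h, i ≠ -1 → base (i + 1) = base i + W i := by
    intro i hi
    show w + W (-1) + ∑ j ∈ Finset.range (i + 1).val, W ((j : ℕ) : ZMod h) =
      w + W (-1) + ∑ j ∈ Finset.range i.val, W ((j : ℕ) : ZMod h) + W i
    rw [zval_succ h3 hi, Finset.sum_range_succ, ZMod.natCast_zmod_val]
    ring
  have red_base : ∀ i, red m h (base i) = π i := by
    have h1 : ∀ n : ℕ, n < h → red m h (base ((n : ℕ) : ZMod h)) = π ((n : ℕ) : ZMod h) := by
      intro n
      induction n with
      | zero =>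
        intro _
        rw [Nat.cast_zero, base_zero, map_add, hw, hW]
        have : (-1 : ZMod h) + 1 = 0 := by ring
        rw [this]; ring
      | succ n ih =>
        intro hn
        have hn1 : ((n : ℕ) : ZMod h) ≠ -1 := by
          intro h'
          have h2 := congrArg ZMod.val h'
          rw [zval_neg_one h3, ZMod.val_natCast_of_lt (by omega)] at h2
          omega
        rw [Nat.cast_succ, base_succ _ hn1, map_add, ih (by omega), hW]
        ring
    intro i
    have := h1 i.val i.val_lt
    rwa [ZMod.natCast_zmod_val] at this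
  obtain ⟨C, hC⟩ := exists_psi m h (v := base (-1) - w) (by
    rw [map_sub, red_base, hw, sub_self])
  have base_neg : base (-1) = w + psi m h C := by rw [← hC]; ring
  let phi : ZMod h × ZMod m → ZMod (m * h) := fun v => base v.1 + psi m h v.2
  have red_phi : ∀ v, red m h (phi v) = π v.1 := by
    intro v
    show red m h (base v.1 + psi m h v.2) = π v.1
    rw [map_add, red_base, red_psi, add_zero]
  have phi_inj : Function.Injective phi := by
    rintro ⟨i, a⟩ ⟨j, b⟩ hab
    have h1 : π i = π j := by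
      have := congrArg (red m h) hab
      rwa [red_phi, red_phi] at this
    have h2 := π.injective h1
    subst h2
    have h3' : base i + psi m h a = base i + psi m h b := hab
    rw [hinj (add_left_cancel h3')]
  have phi_surj : ∀ v, ∃ a, v = phi (π.symm (red m h v), a) := by
    intro v
    obtain ⟨a, ha⟩ := exists_psi m h (v := v - base (π.symm (red m h v))) (by
      rw [map_sub, red_base, Equiv.apply_symm_apply, sub_self])
    refine ⟨a, ?_⟩
    show v = base (π.symm (red m h v)) + psi m h a
    rw [← ha]; ring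
  have phi_stp : ∀ v, phi (stp C v) = phi v + W v.1 := by
    rintro ⟨i, a⟩
    show base (i + 1) + psi m h (a + if i + 1 = 0 then C else 0) = base i + psi m h a + W i
    by_cases hi : i = -1
    · have e0 : i + 1 = 0 := by rw [hi]; ring
      rw [if_pos e0, e0, hi, base_neg, base_zero, map_add]; ring
    · have e0 : i + 1 ≠ 0 := by intro h'; exact hi (by linear_combination h')
      rw [if_neg e0, add_zero, base_succ i hi]; ring
  -- the positions
  choose xx hxx using phi_surj
  let r : ι ⊕ κ × Bool → ZMod h := fun θ => π.symm (red m h (P θ))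
  have hrP : ∀ θ, P θ = phi (r θ, xx (P θ)) := fun θ => hxx (P θ)
  have hAA : ∀ θ, ∃ a, A θ = psi m h a := by
    rintro (i | ⟨k, b⟩)
    · exact ⟨t i, hA i⟩
    · rcases hP k with ⟨h1, h2⟩ | ⟨h1, h2⟩ | ⟨⟨h1, h2⟩ | ⟨h1, h2⟩, _⟩ <;> cases b
      · exact ⟨_, h1⟩
      · exact ⟨_, h2⟩
      · exact ⟨_, h1⟩
      · exact ⟨_, h2⟩
      · exact ⟨_, h1⟩
      · exact ⟨_, h2⟩
      · exact ⟨_, h1⟩
      · exact ⟨_, h2⟩
  choose AA hAA using hAA
  have hAinj : ∀ θ a, A θ = psi m h a → AA θ = a := by
    intro θ a h1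
    exact hinj ((hAA θ).symm.trans h1)
  have key := hG.core hm hh h3 hQ hD C r (fun θ => xx (P θ)) AA
    (fun i => hAinj _ _ (hA i)) (by
      intro k
      rcases hP k with ⟨h1, h2⟩ | ⟨h1, h2⟩ | ⟨h12, h4⟩
      · exact Or.inl ⟨hAinj _ _ h1, hAinj _ _ h2⟩
      · exact Or.inr (Or.inl ⟨hAinj _ _ h1, hAinj _ _ h2⟩)
      · refine Or.inr (Or.inr ⟨?_, ?_⟩)
        · rcases h12 with ⟨h1, h2⟩ | ⟨h1, h2⟩
          · exact Or.inl ⟨hAinj _ _ h1, hAinj _ _ h2⟩
          · exact Or.inr ⟨hAinj _ _ h1, hAinj _ _ h2⟩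
        · intro h5
          apply h4
          have h6 : red m h (P (Sum.inr (k, false))) = red m h (P (Sum.inr (k, true))) :=
            π.symm.injective h5
          rw [map_sub, h6, sub_self])
  refine (key.map phi phi_inj Set.univ _ ?_ ?_).congr ?_
  · intro v
    constructor
    · intro _
      obtain ⟨a, ha⟩ : ∃ a, v = phi (π.symm (red m h v), a) := ⟨xx v, hxx v⟩
      exact ⟨_, trivial, ha.symm⟩
    · intro _; trivial
  · have hstep : ∀ u' v : ZMod h × ZMod m, phi v = phi u' + W (π.symm (red m h (phi u'))) →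
        v = stp C u' := by
      intro u' v h1
      rw [red_phi, Equiv.symm_apply_apply, ← phi_stp] at h1
      exact phi_inj h1
    have hcls : ∀ (u' v : ZMod h × ZMod m) (δ : ZMod m), phi v = phi u' + psi m h δ →
        v.1 = u'.1 ∧ v.2 = u'.2 + δ := by
      intro u' v δ h1
      have h2 : phi v = phi (u'.1, u'.2 + δ) := by
        rw [h1]
        show base u'.1 + psi m h u'.2 + psi m h δ = base u'.1 + psi m h (u'.2 + δ)
        rw [map_add]; ring
      have h5 : v = (u'.1, u'.2 + δ) := phi_inj h2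
      rw [h5]
      exact ⟨rfl, rfl⟩
    rintro u' - v - (⟨δ', hδ', h1⟩ | h1 | h1)
    · obtain ⟨δ, hδ, rfl⟩ : ∃ δ, FD t d u δ ∧ δ' = psi m h δ := by
        rcases hδ' with ⟨i, hi⟩ | ⟨k, hk | hk⟩
        · exact ⟨t i, Or.inl ⟨i, rfl⟩, hi⟩
        · exact ⟨d k, Or.inr ⟨k, Or.inl rfl⟩, hk⟩
        · exact ⟨u k, Or.inr ⟨k, Or.inr rfl⟩, hk⟩
      left
      rcases h1 with h1 | h1
      · obtain ⟨a1, a2⟩ := hcls _ _ _ h1
        exact ⟨a1.symm, δ, hδ, Or.inl a2⟩
      · obtain ⟨a1, a2⟩ := hcls _ _ _ h1
        exact ⟨a1, δ, hδ, Or.inr a2⟩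
    · exact Or.inr (Or.inl (hstep _ _ h1))
    · exact Or.inr (Or.inr (hstep _ _ h1))
  · rintro (_ | θ) b
    · cases b
      · show w = base (-1) + psi m h (-C)
        rw [base_neg, map_neg]; ring
      · show w + W (-1) = base 0 + psi m h 0
        rw [base_zero, map_zero, add_zero]
    · show P θ + (bif b then A θ else 0) =
        base (r θ) + psi m h (xx (P θ) + (bif b then AA θ else 0))
      rw [map_add]
      have h1 : P θ = base (r θ) + psi m h (xx (P θ)) := hrP θ
      cases b
      · simp only [cond_false, map_zero, add_zero]; exact h1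
      · simp only [cond_true]
        rw [← hAA θ]
        linear_combination h1

end Pool.Agent.P45
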