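import Pool.Agent.Lib.P45dba8.TS

/-! # MP_45dba8, the hub: the cycle of type 1 after the exchange of squares

`tau` is an involution on the edges `{x, x+1}` of the cycle of type 1 (coded by their lower end `x`),
fixing the cut edge `w`; the edges `x`, `tau x` (`tau x ≠ x`) are replaced by `{x, tau x}`,
`{x+1, tau x + 1}`. If all exchanges are even (or all are odd) with respect to the cut, the result
minus the cut edge is covered by two matchings missing `w` and `w + 1`. -/

set_option autoImplicit false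

namespace Pool.Agent.P45

/-- Position of a vertex (and of the edge above it) with respect to the cut `{w, w+1}`. -/
def hpos {n : ℕ} (w x : ZMod n) : ℕ := (x - (w + 1)).val

theorem hpos_start {n : ℕ} (w : ZMod n) : hpos w (w + 1) = 0 := by
  unfold hpos; rw [sub_self, ZMod.val_zero]

theorem hpos_lt {n : ℕ} [NeZero n] (w x : ZMod n) : hpos w x < n := ZMod.val_lt _

theorem hpos_end {n : ℕ} [NeZero n] (h1 : 1 < n) (w : ZMod n) : hpos w w = n - 1 := by
  have : Fact (1 < n) := ⟨h1⟩
  unfold hpos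
  rw [show w - (w + 1) = -1 by ring, ZMod.neg_val, if_neg one_ne_zero, ZMod.val_one]

theorem hpos_inj {n : ℕ} [NeZero n] {w x y : ZMod n} (h : hpos w x = hpos w y) : x = y := by
  unfold hpos at h
  have := ZMod.val_injective n h
  exact sub_left_injective this

theorem hpos_succ {n : ℕ} [NeZero n] (h1 : 1 < n) {w x : ZMod n} (hx : x ≠ w) :
    hpos w (x + 1) = hpos w x + 1 := by
  have : Fact (1 < n) := ⟨h1⟩
  have h2 : hpos w x ≠ n - 1 := by
    intro h
    rw [← hpos_end h1 w] at h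
    exact hx (hpos_inj h)
  have h3 := hpos_lt w x
  unfold hpos at h2 h3 ⊢
  rw [show x + 1 - (w + 1) = (x - (w + 1)) + 1 by ring, ZMod.val_add_of_lt, ZMod.val_one]
  rw [ZMod.val_one]
  omega

/-- The conclusion of the hub lemma. -/
def HubM {n : ℕ} (w : ZMod n) (τ : ZMod n → ZMod n) : Prop :=
  ∃ N : Bool → ZMod n → ZMod n → Prop,
    (∀ b u v, N b u v → N b v u) ∧
    (∀ b u v v', N b u v → N b u v' → v = v') ∧
    (∀ v, ¬ N false w v) ∧ (∀ v, ¬ N true (w + 1) v) ∧
    (∀ x, x ≠ w → τ x = x → ∃ b, N b x (x + 1)) ∧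
    (∀ x, τ x ≠ x → ∃ b, N b x (τ x)) ∧
    (∀ x, τ x ≠ x → ∃ b, N b (x + 1) (τ x + 1))

theorem hub_even {n : ℕ} [NeZero n] (hn : Odd n) (h1 : 1 < n) (w : ZMod n)
    (τ : ZMod n → ZMod n) (hτ : ∀ x, τ (τ x) = x) (hw : τ w = w)
    (hpar : ∀ x, Even (hpos w (τ x) + hpos w x)) : HubM w τ := by
  let N : Bool → ZMod n → ZMod n → Prop := fun b u v => ∃ x, x ≠ w ∧
    (Odd (hpos w x) ↔ b = true) ∧
    ((τ x = x ∧ ((u = x ∧ v = x + 1) ∨ (u = x + 1 ∧ v = x))) ∨
      (τ x ≠ x ∧ ((u = x ∧ v = τ x) ∨ (u = x + 1 ∧ v = τ x + 1))))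
  have hb : ∀ x, x ≠ w → ∃ b : Bool, (Odd (hpos w x) ↔ b = true) := by
    intro x _
    rcases Nat.even_or_odd (hpos w x) with h | h
    · exact ⟨false, by simp [Nat.not_odd_iff_even.2 h]⟩
    · exact ⟨true, by simp [h]⟩
  have hwτ : ∀ x, τ x ≠ x → x ≠ w := by
    rintro x h rfl
    exact h hw
  have hnw : ∀ x, x ≠ w → τ x ≠ w := by
    intro x h h'
    rw [← h', hτ] at hw
    exact h (hw.trans h')
  -- the edge is determined by the vertex and the colour
  have huniq : ∀ (b : Bool) (u x y : ZMod n), x ≠ w → y ≠ w → (Odd (hpos w x) ↔ b = true) →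
      (Odd (hpos w y) ↔ b = true) → (u = x ∨ u = x + 1) → (u = y ∨ u = y + 1) → x = y := by
    intro b u x y hx hy hxb hyb h h'
    have hxy : Odd (hpos w x) ↔ Odd (hpos w y) := hxb.trans hyb.symm
    rcases h with rfl | rfl <;> rcases h' with h' | h'
    · exact h'
    · exfalso
      rw [h', hpos_succ h1 hy, Nat.odd_add_one] at hxy
      tauto
    · exfalso
      rw [← h', hpos_succ h1 hx, Nat.odd_add_one] at hxy
      tauto
    · exact add_right_cancel h'
  refine ⟨N, ?_, ?_, ?_, ?_, ?_, ?_, ?_⟩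
  · rintro b u v ⟨x, hx, hxb, h | h⟩
    · refine ⟨x, hx, hxb, Or.inl ⟨h.1, ?_⟩⟩
      rcases h.2 with ⟨a, c⟩ | ⟨a, c⟩
      · exact Or.inr ⟨c, a⟩
      · exact Or.inl ⟨c, a⟩
    · refine ⟨τ x, hnw x hx, ?_, Or.inr ⟨?_, ?_⟩⟩
      · rw [← hxb]
        have := hpar x
        rw [Nat.even_add] at this
        rw [← Nat.not_even_iff_odd, ← Nat.not_even_iff_odd, this]
      · rw [hτ]; exact h.1.symm
      · rw [hτ]
        rcases h.2 with ⟨a, c⟩ | ⟨a, c⟩
        · exact Or.inl ⟨c, a⟩
        · exact Or.inr ⟨c, a⟩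
  · rintro b u v v' ⟨x, hx, hxb, h⟩ ⟨y, hy, hyb, h'⟩
    have hux : u = x ∨ u = x + 1 := by tauto
    have huy : u = y ∨ u = y + 1 := by tauto
    have hxy := huniq b u x y hx hy hxb hyb hux huy
    subst hxy
    have : Fact (1 < n) := ⟨h1⟩
    have hne : x ≠ x + 1 := by
      intro h
      exact one_ne_zero (left_eq_add.1 h)
    rcases h with ⟨e, ⟨a, c⟩ | ⟨a, c⟩⟩ | ⟨e, ⟨a, c⟩ | ⟨a, c⟩⟩ <;>
      rcases h' with ⟨e', ⟨a', c'⟩ | ⟨a', c'⟩⟩ | ⟨e', ⟨a', c'⟩ | ⟨a', c'⟩⟩ <;>
      first
        | exact absurd e e'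
        | exact absurd e' e
        | exact c.trans c'.symm
        | exact absurd (a.symm.trans a') hne
        | exact absurd (a'.symm.trans a) hne
  · rintro v ⟨x, hx, hxb, h⟩
    have hux : w = x ∨ w = x + 1 := by tauto
    rcases hux with h' | h'
    · exact hx h'.symm
    · have h2 := hpos_succ h1 hx
      rw [← h', hpos_end h1] at h2
      have h3 : Odd (hpos w x) := by
        rw [Nat.odd_iff] at hn ⊢
        omega
      exact absurd (hxb.1 h3) (by simp)
  · rintro v ⟨x, hx, hxb, h⟩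
    have hux : w + 1 = x ∨ w + 1 = x + 1 := by tauto
    rcases hux with h' | h'
    · have h3 := hxb.2 rfl
      rw [← h', hpos_start] at h3
      exact absurd h3 (by decide)
    · exact hx (add_right_cancel h').symm
  · intro x hx h
    obtain ⟨b, hb⟩ := hb x hx
    exact ⟨b, x, hx, hb, Or.inl ⟨h, Or.inl ⟨rfl, rfl⟩⟩⟩
  · intro x h
    obtain ⟨b, hb⟩ := hb x (hwτ x h)
    exact ⟨b, x, hwτ x h, hb, Or.inr ⟨h, Or.inl ⟨rfl, rfl⟩⟩⟩
  · intro x h
    obtain ⟨b, hb⟩ := hb x (hwτ x h)
    exact ⟨b, x, hwτ x h, hb, Or.inr ⟨h, Or.inr ⟨rfl, rfl⟩⟩⟩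

/-- König for 2-regular bipartite multigraphs, in terms of ports. -/
theorem ports_match {X Y : Type*} [Fintype X] [Fintype Y] (hXY : Fintype.card X = Fintype.card Y)
    (ι : X × Bool → Y × Bool) (hι : Function.Injective ι) :
    ∃ f : X → Bool, Function.Injective (fun x => (ι (x, f x)).1) ∧
      Function.Injective (fun x => (ι (x, !(f x))).1) := by
  classical
  have hall : ∀ A : Finset X, A.card ≤
      (A.biUnion fun x => ({(ι (x, false)).1, (ι (x, true)).1} : Finset Y)).card := by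
    intro A
    set B := A.biUnion fun x => ({(ι (x, false)).1, (ι (x, true)).1} : Finset Y)
    have h1 : (A ×ˢ (Finset.univ : Finset Bool)).card ≤
        (B ×ˢ (Finset.univ : Finset Bool)).card := by
      apply Finset.card_le_card_of_injOn ι _ (hι.injOn)
      rintro ⟨x, b⟩ hx
      simp only [Finset.coe_product, Set.mem_prod, Finset.mem_coe, Finset.mem_univ, and_true]
        at hx ⊢
      apply Finset.mem_biUnion.2
      refine ⟨x, hx, ?_⟩
      cases b
      · simp
      · simp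
    rw [Finset.card_product, Finset.card_product, Finset.card_univ, Fintype.card_bool] at h1
    omega
  obtain ⟨g, hg, hgm⟩ := (Finset.all_card_le_biUnion_card_iff_exists_injective
    (fun x => ({(ι (x, false)).1, (ι (x, true)).1} : Finset Y))).1 hall
  have hf : ∀ x, ∃ b : Bool, (ι (x, b)).1 = g x := by
    intro x
    have := hgm x
    simp only [Finset.mem_insert, Finset.mem_singleton] at this
    rcases this with h | h
    · exact ⟨false, h.symm⟩
    · exact ⟨true, h.symm⟩
  choose f hf using hf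
  have hgf : (fun x => (ι (x, f x)).1) = g := funext hf
  refine ⟨f, by rw [hgf]; exact hg, ?_⟩
  have hgs : Function.Surjective g := ((Fintype.bijective_iff_injective_and_card g).2
    ⟨hg, hXY⟩).2
  intro x x' hxx
  simp only at hxx
  by_contra hne
  obtain ⟨z, hz⟩ := hgs (ι (x, !(f x))).1
  have e1 : (ι (z, f z)).1 = (ι (x, !(f x))).1 := (hf z).trans hz
  have n1 : ι (z, f z) ≠ ι (x, !(f x)) := by
    intro h
    have := hι h
    rw [Prod.mk.injEq] at this
    obtain ⟨rfl, h2⟩ := this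
    exact (Bool.eq_not_self (f z)) |>.mp h2 |>.elim
  have n2 : ι (z, f z) ≠ ι (x', !(f x')) := by
    intro h
    have := hι h
    rw [Prod.mk.injEq] at this
    obtain ⟨rfl, h2⟩ := this
    exact (Bool.eq_not_self (f z)) |>.mp h2 |>.elim
  have n3 : ι (x, !(f x)) ≠ ι (x', !(f x')) := by
    intro h
    have := hι h
    rw [Prod.mk.injEq] at this
    exact hne this.1
  have k1 : (ι (z, f z)).2 ≠ (ι (x, !(f x))).2 := fun h => n1 (Prod.ext e1 h)
  have k2 : (ι (z, f z)).2 ≠ (ι (x', !(f x'))).2 := fun h => n2 (Prod.ext (e1.trans hxx) h)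
  have k3 : (ι (x, !(f x))).2 ≠ (ι (x', !(f x'))).2 := fun h => n3 (Prod.ext hxx h)
  revert k1 k2 k3
  cases (ι (z, f z)).2 <;> cases (ι (x, !(f x))).2 <;> cases (ι (x', !(f x'))).2 <;> simp

theorem hub_odd {n : ℕ} [NeZero n] (hn : Odd n) (h1 : 1 < n) (w : ZMod n)
    (τ : ZMod n → ZMod n) (hτ : ∀ x, τ (τ x) = x) (hw : τ w = w)
    (hpar : ∀ x, τ x ≠ x → Odd (hpos w (τ x) + hpos w x)) : HubM w τ := by
  classical
  have hfact : Fact (1 < n) := ⟨h1⟩
  have hwτ : ∀ x, τ x ≠ x → x ≠ w := by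
    rintro x h rfl
    exact h hw
  have hnw : ∀ x, x ≠ w → τ x ≠ w := by
    intro x h h'
    rw [← h', hτ] at hw
    exact h (hw.trans h')
  have hww : w ≠ w + 1 := by
    intro h
    exact one_ne_zero (left_eq_add.1 h)
  have hend := hpos_end h1 w
  have hstart := hpos_start w
  have hevn : Even (n - 1) := by
    rw [Nat.even_iff]; rw [Nat.odd_iff] at hn; omega
  -- the ports
  let X := {v : ZMod n // Even (hpos w v)}
  let Y := Option {v : ZMod n // Odd (hpos w v)}
  have hr : ∀ v : ZMod n, Even (hpos w v) → v ≠ w → Odd (hpos w (v + 1)) := by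
    intro v hv hvw
    rw [hpos_succ h1 hvw]
    exact hv.add_one
  have hr' : ∀ v : ZMod n, Even (hpos w v) → τ v ≠ v → Odd (hpos w (τ v)) := by
    intro v hv h
    have := hpar v h
    rw [Nat.odd_add] at this
    exact this.2 hv
  have hl0 : ∀ v : ZMod n, Even (hpos w v) → v ≠ w + 1 → Odd (hpos w (v - 1)) := by
    intro v hv h
    have h2 : v - 1 ≠ w := fun h' => h (by rw [← h']; ring)
    have := hpos_succ h1 h2
    rw [sub_add_cancel] at this
    rw [this, Nat.even_add_one] at hv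
    exact Nat.not_even_iff_odd.1 hv
  have hl' : ∀ v : ZMod n, Even (hpos w v) → v ≠ w + 1 → τ (v - 1) ≠ v - 1 →
      Odd (hpos w (τ (v - 1) + 1)) := by
    intro v hv h h'
    have h2 : v - 1 ≠ w := fun h' => h (by rw [← h']; ring)
    rw [hpos_succ h1 (hnw _ h2)]
    have h3 := hpar _ h'
    rw [Nat.odd_add'] at h3
    exact (h3.1 (hl0 v hv h)).add_one
  have hcard : Fintype.card X = Fintype.card Y := by
    let e : X → Y := fun v => if h : v.1 = w then none else some ⟨v.1 + 1, hr v.1 v.2 h⟩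
    refine Fintype.card_congr (Equiv.ofBijective e ⟨?_, ?_⟩)
    · rintro ⟨v, hv⟩ ⟨v', hv'⟩ h
      change (if h : v = w then (none : Y) else some ⟨v + 1, hr v hv h⟩) =
        (if h : v' = w then (none : Y) else some ⟨v' + 1, hr v' hv' h⟩) at h
      apply Subtype.ext
      split_ifs at h with h2 h3 h3
      · exact h2.trans h3.symm
      · simp only [Option.some.injEq, Subtype.mk.injEq] at h
        exact add_right_cancel h
    · rintro (_ | ⟨u, hu⟩)
      · exact ⟨⟨w, by rw [hend]; exact hevn⟩, by simp [e]⟩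
      · have h2 : u - 1 ≠ w := by
          intro h
          have : u = w + 1 := by rw [← h]; ring
          rw [this, hstart] at hu
          exact absurd hu (by decide)
        have h3 := hpos_succ h1 h2
        rw [sub_add_cancel] at h3
        refine ⟨⟨u - 1, ?_⟩, ?_⟩
        · rw [h3, Nat.odd_add_one] at hu
          exact Nat.not_odd_iff_even.1 hu
        · simp [e, h2]
  let ιR : X → Y × Bool := fun x =>
    if h : x.1 = w then (none, true) else
      if h' : τ x.1 = x.1 then (some ⟨x.1 + 1, hr _ x.2 h⟩, false)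
      else (some ⟨τ x.1, hr' _ x.2 h'⟩, true)
  let ιL : X → Y × Bool := fun x =>
    if h : x.1 = w + 1 then (none, false) else
      if h' : τ (x.1 - 1) = x.1 - 1 then (some ⟨x.1 - 1, hl0 _ x.2 h⟩, true)
      else (some ⟨τ (x.1 - 1) + 1, hl' _ x.2 h h'⟩, false)
  let ι : X × Bool → Y × Bool := fun p => bif p.2 then ιR p.1 else ιL p.1
  let Ψ : Y × Bool → ZMod n × Bool := fun p =>
    match p with
    | (none, true) => (w, true)
    | (none, false) => (w + 1, false)
    | (some u, true) => if τ u.1 = u.1 then (u.1 + 1, false) else (τ u.1, true)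
    | (some u, false) => if τ (u.1 - 1) = u.1 - 1 then (u.1 - 1, true)
        else (τ (u.1 - 1) + 1, false)
  have hΨ : ∀ p : X × Bool, Ψ (ι p) = (p.1.1, p.2) := by
    rintro ⟨⟨v, hv⟩, c⟩
    cases c
    · show Ψ (ιL ⟨v, hv⟩) = (v, false)
      simp only [ιL]
      split_ifs with h h'
      · simp [Ψ, h]
      · simp only [Ψ]
        rw [if_pos h', sub_add_cancel]
      · simp only [Ψ]
        rw [add_sub_cancel_right, hτ, if_neg (Ne.symm h'), sub_add_cancel]
    · show Ψ (ιR ⟨v, hv⟩) = (v, true)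
      simp only [ιR]
      split_ifs with h h'
      · simp [Ψ, h]
      · simp only [Ψ]
        rw [add_sub_cancel_right, if_pos h']
      · simp only [Ψ]
        rw [hτ, if_neg (Ne.symm h')]
  have hι : Function.Injective ι := by
    intro p q h
    have h2 : (p.1.1, p.2) = (q.1.1, q.2) := by rw [← hΨ, ← hΨ, h]
    rw [Prod.mk.injEq] at h2
    exact Prod.ext (Subtype.ext h2.1) h2.2
  obtain ⟨f0, hf0, hf1⟩ := ports_match hcard ι hι
  let W : X := ⟨w, by rw [hend]; exact hevn⟩
  let W1 : X := ⟨w + 1, by rw [hstart]; decide⟩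
  obtain ⟨f, hfw, hF⟩ : ∃ f : X → Bool, f W = true ∧
      ∀ b : Bool, Function.Injective (fun x => (ι (x, xor b (f x))).1) := by
    cases h : f0 W
    · refine ⟨fun x => !(f0 x), by simp [h], ?_⟩
      intro b
      cases b
      · simpa using hf1
      · simpa using hf0
    · refine ⟨f0, h, ?_⟩
      intro b
      cases b
      · simpa using hf0
      · simpa using hf1
  have hιW : (ι (W, true)).1 = none := by simp [ι, ιR, W]
  have hιW1 : (ι (W1, false)).1 = none := by simp [ι, ιL, W1]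
  have hfw1 : f W1 = true := by
    by_contra h
    have h' : f W1 = false := by simpa using h
    have h2 := @hF false W W1 (by
      simp only [hfw, h', Bool.false_bne, Bool.xor_false]
      rw [hιW, hιW1])
    exact hww (congrArg Subtype.val h2)
  let N : Bool → ZMod n → ZMod n → Prop := fun b u v =>
    (∃ x : X, x.1 = u ∧ ∃ y : {v : ZMod n // Odd (hpos w v)},
      (ι (x, xor b (f x))).1 = some y ∧ y.1 = v) ∨
    (∃ x : X, x.1 = v ∧ ∃ y : {v : ZMod n // Odd (hpos w v)},
      (ι (x, xor b (f x))).1 = some y ∧ y.1 = u)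
  have hcov : ∀ (x : X) (c : Bool) (y : {v : ZMod n // Odd (hpos w v)}),
      (ι (x, c)).1 = some y → ∃ b, N b x.1 y.1 := by
    intro x c y h
    refine ⟨xor c (f x), Or.inl ⟨x, rfl, y, ?_, rfl⟩⟩
    rw [Bool.xor_assoc, Bool.xor_self, Bool.xor_false]
    exact h
  have hsym : ∀ b u v, N b u v → N b v u := by
    rintro b u v (h | h)
    · exact Or.inr h
    · exact Or.inl h
  refine ⟨N, hsym, ?_, ?_, ?_, ?_, ?_, ?_⟩
  · rintro b u v v' (⟨x, hx, y, hy, hv⟩ | ⟨x, hx, y, hy, hv⟩)
      (⟨x', hx', y', hy', hv'⟩ | ⟨x', hx', y', hy', hv'⟩)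
    · have : x = x' := Subtype.ext (hx.trans hx'.symm)
      subst this
      rw [hy, Option.some.injEq] at hy'
      rw [← hv, ← hv', hy']
    · exfalso
      have h2 := x.2
      rw [hx, ← hv'] at h2
      exact Nat.not_even_iff_odd.2 y'.2 h2
    · exfalso
      have h2 := x'.2
      rw [hx', ← hv] at h2
      exact Nat.not_even_iff_odd.2 y.2 h2
    · have : y = y' := Subtype.ext (hv.trans hv'.symm)
      subst this
      have h2 : x = x' := hF b (hy.trans hy'.symm)
      rw [← hx, ← hx', h2]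
  · rintro v (⟨x, hx, y, hy, hv⟩ | ⟨x, hx, y, hy, hv⟩)
    · have : x = W := Subtype.ext hx
      subst this
      rw [hfw, Bool.false_xor, hιW] at hy
      exact absurd hy (by simp)
    · have h2 := y.2
      rw [hv] at h2
      exact Nat.not_even_iff_odd.2 h2 W.2
  · rintro v (⟨x, hx, y, hy, hv⟩ | ⟨x, hx, y, hy, hv⟩)
    · have : x = W1 := Subtype.ext hx
      subst this
      rw [hfw1, Bool.xor_self, hιW1] at hy
      exact absurd hy (by simp)
    · have h2 := W1.2
      rw [show W1.1 = w + 1 from rfl, ← hv] at h2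
      exact Nat.not_even_iff_odd.2 y.2 h2
  · intro x hx h
    rcases Nat.even_or_odd (hpos w x) with he | ho
    · exact hcov ⟨x, he⟩ true ⟨x + 1, hr x he hx⟩ (by simp [ι, ιR, ιL, hx, h])
    · have he : Even (hpos w (x + 1)) := by rw [hpos_succ h1 hx]; exact ho.add_one
      obtain ⟨b, hb⟩ := hcov ⟨x + 1, he⟩ false ⟨x, ho⟩ (by simp [ι, ιR, ιL, hx, h])
      exact ⟨b, hsym _ _ _ hb⟩
  · intro x h
    rcases Nat.even_or_odd (hpos w x) with he | ho
    · exact hcov ⟨x, he⟩ true ⟨τ x, hr' x he h⟩ (by simp [ι, ιR, hwτ x h, h])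
    · have h3 := hpar x h
      rw [Nat.odd_add] at h3
      have he : Even (hpos w (τ x)) := by
        rw [← Nat.not_odd_iff_even]
        intro h4
        exact Nat.not_even_iff_odd.2 ho (h3.1 h4)
      obtain ⟨b, hb⟩ := hcov ⟨τ x, he⟩ true ⟨x, ho⟩
        (by simp [ι, ιR, hnw x (hwτ x h), hτ, Ne.symm h])
      exact ⟨b, hsym _ _ _ hb⟩
  · intro x h
    have hxw := hwτ x h
    have h3 := hpar x h
    rcases Nat.even_or_odd (hpos w x) with he | ho
    · have ho' : Odd (hpos w (x + 1)) := hr x he hxw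
      have he' : Even (hpos w (τ x + 1)) := by
        rw [hpos_succ h1 (hnw x hxw)]
        exact (hr' x he h).add_one
      obtain ⟨b, hb⟩ := hcov ⟨τ x + 1, he'⟩ false ⟨x + 1, ho'⟩
        (by simp [ι, ιL, hnw x hxw, hτ, Ne.symm h])
      exact ⟨b, hsym _ _ _ hb⟩
    · have he' : Even (hpos w (x + 1)) := by rw [hpos_succ h1 hxw]; exact ho.add_one
      have ho' : Odd (hpos w (τ x + 1)) := by
        rw [hpos_succ h1 (hnw x hxw)]
        rw [Nat.odd_add'] at h3
        exact (h3.1 ho).add_one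
      exact hcov ⟨x + 1, he'⟩ false ⟨τ x + 1, ho'⟩ (by simp [ι, ιL, hxw, h])

end Pool.Agent.P45
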