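import Mathlib

/-! # MP_45dba8, hub: distinct targets for the leaves (greedy choice) -/

set_option autoImplicit false

namespace Pool.Agent.P45

/-- Greedy choice: positions `X` in `[0, N)`, blocked positions `B`, leaves `L`. -/
theorem hub_greedy (N : ℕ) (B L : Finset ℕ) (hL0 : ∀ u ∈ L, 0 < u) (X : Finset ℕ)
    (hr : ∀ x ∈ X, ∀ u ∈ L, x + u < N ∨ u ≤ x) (hXN : ∀ x ∈ X, x < N)
    (hc : ∀ x ∈ X, (B.erase x).card + 2 * X.card ≤ L.card + 1) :
    ∃ u q : ℕ → ℕ, Set.InjOn u X ∧ Set.InjOn q X ∧
      ∀ x ∈ X, u x ∈ L ∧ q x < N ∧ q x ∉ B ∧ (q x = x + u x ∨ q x + u x = x) := by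
  classical
  induction X using Finset.induction_on with
  | empty => exact ⟨id, id, by simp, by simp, by simp⟩
  | insert a X ha ih =>
    rw [Finset.card_insert_of_notMem ha] at hc
    obtain ⟨u, q, hu, hq, h⟩ := ih
      (fun x hx => hr x (Finset.mem_insert_of_mem hx))
      (fun x hx => hXN x (Finset.mem_insert_of_mem hx))
      (fun x hx => by have := hc x (Finset.mem_insert_of_mem hx); omega)
    have hca := hc a (Finset.mem_insert_self a X)
    -- the forbidden leaves
    let F : Finset ℕ := X.image u ∪ ((B.erase a).image (fun b => (b - a) + (a - b)) ∪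
      X.image (fun x => (q x - a) + (a - q x)))
    have hF : F.card ≤ X.card + ((B.erase a).card + X.card) := by
      refine (Finset.card_union_le _ _).trans (add_le_add Finset.card_image_le ?_)
      exact (Finset.card_union_le _ _).trans
        (add_le_add Finset.card_image_le Finset.card_image_le)
    have hlt : F.card < L.card := by omega
    obtain ⟨v, hvL, hvF⟩ : ∃ v ∈ L, v ∉ F := by
      by_contra hcon
      push Not at hcon
      have : L ⊆ F := fun v hv => hcon v hv
      exact absurd (Finset.card_le_card this) (not_le.2 hlt)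
    have hv0 := hL0 v hvL
    have haN := hXN a (Finset.mem_insert_self a X)
    obtain ⟨p, hpN, hp⟩ : ∃ p, p < N ∧ (p = a + v ∨ p + v = a) := by
      rcases hr a (Finset.mem_insert_self a X) v hvL with h1 | h1
      · exact ⟨a + v, h1, Or.inl rfl⟩
      · exact ⟨a - v, by omega, Or.inr (by omega)⟩
    have hpv : (p - a) + (a - p) = v := by omega
    have hpa : p ≠ a := by omega
    have hpB : p ∉ B := by
      intro hb
      apply hvF
      refine Finset.mem_union_right _ (Finset.mem_union_left _ ?_)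
      exact Finset.mem_image.2 ⟨p, Finset.mem_erase.2 ⟨hpa, hb⟩, hpv⟩
    have hpq : ∀ x ∈ X, q x ≠ p := by
      intro x hx he
      apply hvF
      refine Finset.mem_union_right _ (Finset.mem_union_right _ ?_)
      exact Finset.mem_image.2 ⟨x, hx, by simp only [he]; exact hpv⟩
    have huv : ∀ x ∈ X, u x ≠ v := by
      intro x hx he
      apply hvF
      exact Finset.mem_union_left _ (Finset.mem_image.2 ⟨x, hx, he⟩)
    have hxa : ∀ x ∈ X, x ≠ a := by
      rintro x hx rfl
      exact ha hx
    refine ⟨Function.update u a v, Function.update q a p, ?_, ?_, ?_⟩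
    · intro x hx y hy hxy
      rw [Finset.mem_coe, Finset.mem_insert] at hx hy
      rcases hx with rfl | hx <;> rcases hy with rfl | hy
      · rfl
      · rw [Function.update_self, Function.update_of_ne (hxa y hy)] at hxy
        exact absurd hxy.symm (huv y hy)
      · rw [Function.update_self, Function.update_of_ne (hxa x hx)] at hxy
        exact absurd hxy (huv x hx)
      · rw [Function.update_of_ne (hxa x hx), Function.update_of_ne (hxa y hy)] at hxy
        exact hu hx hy hxy
    · intro x hx y hy hxy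
      rw [Finset.mem_coe, Finset.mem_insert] at hx hy
      rcases hx with rfl | hx <;> rcases hy with rfl | hy
      · rfl
      · rw [Function.update_self, Function.update_of_ne (hxa y hy)] at hxy
        exact absurd hxy.symm (hpq y hy)
      · rw [Function.update_self, Function.update_of_ne (hxa x hx)] at hxy
        exact absurd hxy (hpq x hx)
      · rw [Function.update_of_ne (hxa x hx), Function.update_of_ne (hxa y hy)] at hxy
        exact hq hx hy hxy
    · intro x hx
      rw [Finset.mem_insert] at hx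
      rcases hx with rfl | hx
      · rw [Function.update_self, Function.update_self]
        exact ⟨hvL, hpN, hpB, hp⟩
      · rw [Function.update_of_ne (hxa x hx), Function.update_of_ne (hxa x hx)]
        exact h x hx

/-- ODD regime: all positions have one parity, all leaves are odd. -/
theorem hub_greedy_odd (N : ℕ) (L : Finset ℕ) (hL : ∀ u ∈ L, Odd u) (X : Finset ℕ) (c : ℕ)
    (hX : ∀ x ∈ X, x % 2 = c % 2)
    (hr : ∀ x ∈ X, ∀ u ∈ L, x + u < N ∨ u ≤ x) (hXN : ∀ x ∈ X, x < N)
    (hc : 2 * X.card ≤ L.card + 1) :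
    ∃ u q : ℕ → ℕ, Set.InjOn u X ∧ Set.InjOn q X ∧
      ∀ x ∈ X, u x ∈ L ∧ q x < N ∧ q x ∉ X ∧ Odd (q x + x) ∧
        (q x = x + u x ∨ q x + u x = x) := by
  classical
  obtain ⟨u, q, hu, hq, h⟩ := hub_greedy N ∅ L (fun u hu => (hL u hu).pos) X hr hXN
    (fun x _ => by simpa using hc)
  refine ⟨u, q, hu, hq, ?_⟩
  intro x hx
  obtain ⟨h1, h2, -, h4⟩ := h x hx
  have h5 := hL _ h1
  have h6 : Odd (q x + x) := by
    rw [Nat.odd_iff] at h5 ⊢
    omega
  refine ⟨h1, h2, ?_, h6, h4⟩
  intro h7
  have h8 := hX _ h7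
  have h9 := hX _ hx
  rw [Nat.odd_iff] at h6
  omega

/-- EVEN regime: `X0` and `X1` the positions of the two parities, all leaves are even. -/
theorem hub_greedy_even (N : ℕ) (L : Finset ℕ) (hL0 : ∀ u ∈ L, 0 < u) (hL : ∀ u ∈ L, Even u)
    (X0 X1 : Finset ℕ) (hX0 : ∀ x ∈ X0, x % 2 = 0) (hX1 : ∀ x ∈ X1, x % 2 = 1)
    (hr : ∀ x ∈ X0 ∪ X1, ∀ u ∈ L, x + u < N ∨ u ≤ x) (hXN : ∀ x ∈ X0 ∪ X1, x < N)
    (hc0 : 3 * X0.card ≤ L.card + 2) (hc1 : X0.card + 3 * X1.card ≤ L.card + 2) :
    ∃ u q : ℕ → ℕ, Set.InjOn u ↑(X0 ∪ X1) ∧ Set.InjOn q ↑(X0 ∪ X1) ∧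
      ∀ x ∈ X0 ∪ X1, u x ∈ L ∧ q x < N ∧ q x ∉ X0 ∪ X1 ∧ Even (q x + x) ∧
        (q x = x + u x ∨ q x + u x = x) := by
  classical
  have hcard : ∀ (X : Finset ℕ), ∀ x ∈ X, (X.erase x).card + 2 * X.card = 3 * X.card - 1 := by
    intro X x hx
    rw [Finset.card_erase_of_mem hx]
    have : 0 < X.card := Finset.card_pos.2 ⟨x, hx⟩
    omega
  obtain ⟨u, q, hu, hq, h⟩ := hub_greedy N X0 L hL0 X0
    (fun x hx => hr x (Finset.mem_union_left _ hx))
    (fun x hx => hXN x (Finset.mem_union_left _ hx))
    (fun x hx => by rw [hcard X0 x hx]; omega)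
  have hLc : (L \ X0.image u).card = L.card - X0.card := by
    rw [Finset.card_sdiff_of_subset, Finset.card_image_of_injOn hu]
    intro v hv
    obtain ⟨x, hx, rfl⟩ := Finset.mem_image.1 hv
    exact (h x hx).1
  have hX0L : X0.card ≤ L.card := by
    rw [← Finset.card_image_of_injOn hu]
    apply Finset.card_le_card
    intro v hv
    obtain ⟨x, hx, rfl⟩ := Finset.mem_image.1 hv
    exact (h x hx).1
  obtain ⟨u', q', hu', hq', h'⟩ := hub_greedy N X1 (L \ X0.image u)
    (fun v hv => hL0 v (Finset.mem_sdiff.1 hv).1) X1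
    (fun x hx v hv => hr x (Finset.mem_union_right _ hx) v (Finset.mem_sdiff.1 hv).1)
    (fun x hx => hXN x (Finset.mem_union_right _ hx))
    (fun x hx => by rw [hcard X1 x hx, hLc]; omega)
  have hpar : ∀ x ∈ X0, (q x) % 2 = 0 := by
    intro x hx
    have h1 := hL _ (h x hx).1
    have h2 := hX0 x hx
    have h3 := (h x hx).2.2.2
    rw [Nat.even_iff] at h1
    omega
  have hpar' : ∀ x ∈ X1, (q' x) % 2 = 1 := by
    intro x hx
    have h1 := hL _ (Finset.mem_sdiff.1 (h' x hx).1).1
    have h2 := hX1 x hx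
    have h3 := (h' x hx).2.2.2
    rw [Nat.even_iff] at h1
    omega
  refine ⟨fun x => if x ∈ X0 then u x else u' x, fun x => if x ∈ X0 then q x else q' x,
    ?_, ?_, ?_⟩
  · have hmix : ∀ x ∈ X0, ∀ y ∈ X1, u x ≠ u' y := by
      intro x hx y hy he
      have h1 := (Finset.mem_sdiff.1 (h' y hy).1).2
      exact h1 (Finset.mem_image.2 ⟨x, hx, he⟩)
    intro x hx y hy hxy
    rw [Finset.mem_coe, Finset.mem_union] at hx hy
    simp only at hxy
    by_cases hx0 : x ∈ X0 <;> by_cases hy0 : y ∈ X0
    · rw [if_pos hx0, if_pos hy0] at hxy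
      exact hu hx0 hy0 hxy
    · rw [if_pos hx0, if_neg hy0] at hxy
      exact absurd hxy (hmix x hx0 y (hy.resolve_left hy0))
    · rw [if_neg hx0, if_pos hy0] at hxy
      exact absurd hxy.symm (hmix y hy0 x (hx.resolve_left hx0))
    · rw [if_neg hx0, if_neg hy0] at hxy
      exact hu' (hx.resolve_left hx0) (hy.resolve_left hy0) hxy
  · intro x hx y hy hxy
    rw [Finset.mem_coe, Finset.mem_union] at hx hy
    simp only at hxy
    by_cases hx0 : x ∈ X0 <;> by_cases hy0 : y ∈ X0
    · rw [if_pos hx0, if_pos hy0] at hxy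
      exact hq hx0 hy0 hxy
    · rw [if_pos hx0, if_neg hy0] at hxy
      have h1 := hpar x hx0
      have h2 := hpar' y (hy.resolve_left hy0)
      omega
    · rw [if_neg hx0, if_pos hy0] at hxy
      have h1 := hpar y hy0
      have h2 := hpar' x (hx.resolve_left hx0)
      omega
    · rw [if_neg hx0, if_neg hy0] at hxy
      exact hq' (hx.resolve_left hx0) (hy.resolve_left hy0) hxy
  · intro x hx
    rw [Finset.mem_union] at hx
    by_cases hx0 : x ∈ X0
    · simp only [if_pos hx0]
      obtain ⟨h1, h2, h3, h4⟩ := h x hx0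
      have h5 := hpar x hx0
      have h6 := hX0 x hx0
      refine ⟨h1, h2, ?_, ?_, h4⟩
      · rw [Finset.mem_union]
        rintro (h7 | h7)
        · exact h3 h7
        · have := hX1 _ h7
          omega
      · rw [Nat.even_iff]; omega
    · simp only [if_neg hx0]
      have hx1 := hx.resolve_left hx0
      obtain ⟨h1, h2, h3, h4⟩ := h' x hx1
      have h5 := hpar' x hx1
      have h6 := hX1 x hx1
      refine ⟨(Finset.mem_sdiff.1 h1).1, h2, ?_, ?_, h4⟩
      · rw [Finset.mem_union]
        rintro (h7 | h7)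
        · have := hX0 _ h7
          omega
        · exact h3 h7
      · rw [Nat.even_iff]; omega

end Pool.Agent.P45
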