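import Pool.Agent.Lib.P45dba8.Hub2

/-! # MP_45dba8, the hub as a plain colour system (to be united with the modified leaf families) -/

set_option autoImplicit false

namespace Pool.Agent.P45

/-- The edges which the hub takes: type 1 except the edges at `P l`, `Q l`; and the exchanged
edges `{P l, Q l}`, `{P l + 1, Q l + 1}`. -/
def HubE {n : ℕ} {Λ : Type*} (P Q : Λ → ZMod n) (u v : ZMod n) : Prop :=
  (∃ x, (∀ l, x ≠ P l) ∧ (∀ l, x ≠ Q l) ∧ s(u, v) = s(x, x + 1)) ∨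
    (∃ l, s(u, v) = s(P l, Q l)) ∨ (∃ l, s(u, v) = s(P l + 1, Q l + 1))

theorem hub_one {n : ℕ} [NeZero n] (hn : Odd n) (h1 : 1 < n) (w : ZMod n) {Λ : Type*}
    (P Q : Λ → ZMod n) (hP : Function.Injective P) (hQ : Function.Injective Q)
    (hPQ : ∀ l l', P l ≠ Q l') (hPw : ∀ l, P l ≠ w) (hQw : ∀ l, Q l ≠ w)
    (hpar : (∀ l, Even (hpos w (P l) + hpos w (Q l))) ∨
      (∀ l, Odd (hpos w (P l) + hpos w (Q l)))) :
    TS Set.univ (HubE P Q) (fun (_ : Unit) b => bif b then w + 1 else w) := by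
  obtain ⟨N, a1, a2, a3, a4, a5, a6, a7⟩ := hub_M hn h1 w P Q hP hQ hPQ hPw hQw hpar
  have hs : ∀ {b : Bool} {x y u v : ZMod n}, N b x y → s(u, v) = s(x, y) → N b u v := by
    intro b x y u v h hs
    rcases Sym2.eq_iff.1 hs with ⟨rfl, rfl⟩ | ⟨rfl, rfl⟩
    · exact h
    · exact a1 _ _ _ h
  refine ⟨fun _ => N, fun _ => a1, fun _ _ _ _ _ => ⟨trivial, trivial⟩, fun _ => a2, ?_, ?_⟩
  · rintro _ b v hm
    cases b
    · exact a3 v hm
    · exact a4 v hm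
  · rintro u - v - (⟨x, hx, hx', h⟩ | ⟨l, h⟩ | ⟨l, h⟩)
    · by_cases hw : x = w
      · left
        rw [hw] at h
        rcases Sym2.eq_iff.1 h with ⟨a, b⟩ | ⟨a, b⟩
        · exact ⟨(), Or.inl ⟨a, b⟩⟩
        · exact ⟨(), Or.inr ⟨a, b⟩⟩
      · obtain ⟨b, hb⟩ := a5 x hw hx hx'
        exact Or.inr ⟨(), b, hs hb h⟩
    · obtain ⟨b, hb⟩ := a6 l
      exact Or.inr ⟨(), b, hs hb h⟩
    · obtain ⟨b, hb⟩ := a7 l
      exact Or.inr ⟨(), b, hs hb h⟩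

/-- A leaf: from a system with marker to the modified family: `E` without the edges `{P, Q}`,
`{P+1, Q+1}`, plus `{Q, Q+1}`, with the hole `{P, P+1}`. -/
def LeafE {n : ℕ} {Λ : Type*} (P Q : Λ → ZMod n) (E : ZMod n → ZMod n → Prop)
    (u v : ZMod n) : Prop :=
  (E u v ∧ (∀ l, s(u, v) ≠ s(P l, Q l)) ∧ (∀ l, s(u, v) ≠ s(P l + 1, Q l + 1))) ∨
    (∃ l, s(u, v) = s(Q l, Q l + 1))

theorem TSM.leaf {n : ℕ} (h1 : 1 < n) {Λ Θ : Type*} (P Q : Λ → ZMod n)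
    (hPQ : ∀ l, P l ≠ Q l) (E : ZMod n → ZMod n → Prop) (e : Θ → Bool → ZMod n)
    (h : TSM Set.univ E (Sum.elim (fun l b => bif b then Q l else P l) e)
      (Sum.elim (fun l u v => u = P l + 1 ∧ v = Q l + 1) (fun _ _ _ => False))) :
    TS Set.univ (LeafE P Q E)
      (Sum.elim (fun l b => bif b then P l + 1 else P l) e) := by
  obtain ⟨M, m1, -, m3, m4, m5, m6⟩ := h
  have mk : ∀ l, M (Sum.inl l) true (P l + 1) (Q l + 1) := fun l => m6 (Sum.inl l) _ _ ⟨rfl, rfl⟩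
  have mQ : ∀ l v, ¬ M (Sum.inl l) true (Q l) v := fun l v => m4 (Sum.inl l) true v
  have mP : ∀ l v, ¬ M (Sum.inl l) false (P l) v := fun l v => m4 (Sum.inl l) false v
  have hfact : Fact (1 < n) := ⟨h1⟩
  have hne : ∀ x : ZMod n, x ≠ x + 1 := by
    intro x h
    exact one_ne_zero (left_eq_add.1 h)
  let L : Λ → ZMod n → ZMod n → Prop := fun l u v =>
    (M (Sum.inl l) true u v ∧ ¬ (u = P l + 1 ∧ v = Q l + 1) ∧ ¬ (u = Q l + 1 ∧ v = P l + 1)) ∨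
      (u = Q l ∧ v = Q l + 1) ∨ (u = Q l + 1 ∧ v = Q l)
  have Lsym : ∀ l u v, L l u v → L l v u := by
    rintro l u v (⟨a, b, c⟩ | ⟨a, b⟩ | ⟨a, b⟩)
    · exact Or.inl ⟨m1 _ _ _ _ a, fun h => c ⟨h.2, h.1⟩, fun h => b ⟨h.2, h.1⟩⟩
    · exact Or.inr (Or.inr ⟨b, a⟩)
    · exact Or.inr (Or.inl ⟨b, a⟩)
  have Lq : ∀ l v, ¬ (M (Sum.inl l) true (Q l + 1) v ∧ ¬ (Q l + 1 = Q l + 1 ∧ v = P l + 1)) := by
    rintro l v ⟨a, b⟩
    exact b ⟨rfl, m3 _ _ _ _ _ a (m1 _ _ _ _ (mk l))⟩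
  have Lfun : ∀ l u v v', L l u v → L l u v' → v = v' := by
    rintro l u v v' (⟨a, b, c⟩ | ⟨a, b⟩ | ⟨a, b⟩) (⟨a', b', c'⟩ | ⟨a', b'⟩ | ⟨a', b'⟩)
    · exact m3 _ _ _ _ _ a a'
    · rw [a'] at a; exact absurd a (mQ l v)
    · rw [a'] at a c; exact absurd ⟨a, c⟩ (Lq l v)
    · rw [a] at a'; exact absurd a' (mQ l v')
    · rw [b, b']
    · exact absurd (a.symm.trans a') (hne _)
    · rw [a] at a' c'; exact absurd ⟨a', c'⟩ (Lq l v')
    · exact absurd (a'.symm.trans a) (hne _)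
    · rw [b, b']
  have Lmiss : ∀ l v, ¬ L l (P l + 1) v := by
    rintro l v (⟨a, b, c⟩ | ⟨a, b⟩ | ⟨a, b⟩)
    · exact b ⟨rfl, m3 _ _ _ _ _ a (mk l)⟩
    · have := mk l
      rw [a] at this
      exact mQ l _ this
    · exact hPQ l (add_right_cancel a)
  let M' : Λ ⊕ Θ → Bool → ZMod n → ZMod n → Prop := fun k b =>
    match k with
    | Sum.inl l => bif b then L l else M (Sum.inl l) false
    | Sum.inr t => M (Sum.inr t) b
  refine ⟨M', ?_, ?_, ?_, ?_, ?_⟩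
  · rintro (l | t) b u v hm
    · cases b
      · exact m1 _ _ _ _ hm
      · exact Lsym l u v hm
    · exact m1 _ _ _ _ hm
  · intro _ _ _ _ _
    exact ⟨trivial, trivial⟩
  · rintro (l | t) b u v v' hm hm'
    · cases b
      · exact m3 _ _ _ _ _ hm hm'
      · exact Lfun l u v v' hm hm'
    · exact m3 _ _ _ _ _ hm hm'
  · rintro (l | t) b v hm
    · cases b
      · exact mP l v hm
      · exact Lmiss l v hm
    · exact m4 (Sum.inr t) b v hm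
  · rintro u - v - (⟨huv, hA, hB⟩ | ⟨l, h⟩)
    · rcases m5 u trivial v trivial huv with ⟨k | k, hk⟩ | ⟨k, b, hk⟩
      · exfalso
        apply hA k
        rcases hk with ⟨rfl, rfl⟩ | ⟨rfl, rfl⟩
        · rfl
        · exact Sym2.eq_swap
      · exact Or.inl ⟨Sum.inr k, hk⟩
      · right
        rcases k with l | t
        · cases b
          · exact ⟨Sum.inl l, false, hk⟩
          · refine ⟨Sum.inl l, true, Or.inl ⟨hk, ?_, ?_⟩⟩
            · rintro ⟨rfl, rfl⟩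
              exact hB l rfl
            · rintro ⟨rfl, rfl⟩
              exact hB l Sym2.eq_swap
        · exact ⟨Sum.inr t, b, hk⟩
    · right
      refine ⟨Sum.inl l, true, ?_⟩
      rcases Sym2.eq_iff.1 h with ⟨a, b⟩ | ⟨a, b⟩
      · exact Or.inr (Or.inl ⟨a, b⟩)
      · exact Or.inr (Or.inr ⟨a, b⟩)

end Pool.Agent.P45
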