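import Pool.Agent.Lib.P45dba8.Hub4

/-! # MP_45dba8, hub: leaves with a choice of the side, and the assembly of the hub with all
leaf families -/

set_option autoImplicit false

namespace Pool.Agent.P45

/-- Exchange at a marker, general form. Hole `{x, y}` (class `true` misses `y`) and a marker
`{x', y'}` of class `true`: remove both edges, add `{y, y'}`, the new hole is `{x, x'}`. -/
theorem TSM.exch {V Λ Θ : Type*} (x x' y y' : Λ → V) (hy : ∀ l, y l ≠ y' l)
    (hxy : ∀ l, x' l ≠ y' l) (E : V → V → Prop) (e : Θ → Bool → V)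
    (h : TSM Set.univ E (Sum.elim (fun l b => bif b then y l else x l) e)
      (Sum.elim (fun l u v => u = x' l ∧ v = y' l) (fun _ _ _ => False))) :
    TS Set.univ (fun u v => (E u v ∧ (∀ l, s(u, v) ≠ s(x l, y l)) ∧
        (∀ l, s(u, v) ≠ s(x' l, y' l))) ∨ (∃ l, s(u, v) = s(y l, y' l)))
      (Sum.elim (fun l b => bif b then x' l else x l) e) := by
  obtain ⟨M, m1, -, m3, m4, m5, m6⟩ := h
  have mk : ∀ l, M (Sum.inl l) true (x' l) (y' l) := fun l => m6 (Sum.inl l) _ _ ⟨rfl, rfl⟩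
  have mQ : ∀ l v, ¬ M (Sum.inl l) true (y l) v := fun l v => m4 (Sum.inl l) true v
  have mP : ∀ l v, ¬ M (Sum.inl l) false (x l) v := fun l v => m4 (Sum.inl l) false v
  let L : Λ → V → V → Prop := fun l u v =>
    (M (Sum.inl l) true u v ∧ ¬ (u = x' l ∧ v = y' l) ∧ ¬ (u = y' l ∧ v = x' l)) ∨
      (u = y l ∧ v = y' l) ∨ (u = y' l ∧ v = y l)
  have Lsym : ∀ l u v, L l u v → L l v u := by
    rintro l u v (⟨a, b, c⟩ | ⟨a, b⟩ | ⟨a, b⟩)
    · exact Or.inl ⟨m1 _ _ _ _ a, fun h => c ⟨h.2, h.1⟩, fun h => b ⟨h.2, h.1⟩⟩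
    · exact Or.inr (Or.inr ⟨b, a⟩)
    · exact Or.inr (Or.inl ⟨b, a⟩)
  have Lq : ∀ l v, ¬ (M (Sum.inl l) true (y' l) v ∧ ¬ (y' l = y' l ∧ v = x' l)) := by
    rintro l v ⟨a, b⟩
    exact b ⟨rfl, m3 _ _ _ _ _ a (m1 _ _ _ _ (mk l))⟩
  have Lfun : ∀ l u v v', L l u v → L l u v' → v = v' := by
    rintro l u v v' (⟨a, b, c⟩ | ⟨a, b⟩ | ⟨a, b⟩) (⟨a', b', c'⟩ | ⟨a', b'⟩ | ⟨a', b'⟩)
    · exact m3 _ _ _ _ _ a a'
    · rw [a'] at a; exact absurd a (mQ l v)
    · rw [a'] at a c; exact absurd ⟨a, c⟩ (Lq l v)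
    · rw [a] at a'; exact absurd a' (mQ l v')
    · rw [b, b']
    · exact absurd (a.symm.trans a') (hy l)
    · rw [a] at a' c'; exact absurd ⟨a', c'⟩ (Lq l v')
    · exact absurd (a'.symm.trans a) (hy l)
    · rw [b, b']
  have Lmiss : ∀ l v, ¬ L l (x' l) v := by
    rintro l v (⟨a, b, c⟩ | ⟨a, b⟩ | ⟨a, b⟩)
    · exact b ⟨rfl, m3 _ _ _ _ _ a (mk l)⟩
    · have := mk l
      rw [a] at this
      exact mQ l _ this
    · exact hxy l a
  let M' : Λ ⊕ Θ → Bool → V → V → Prop := fun k b =>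
    match k with
    | Sum.inl l => bif b then L l else M (Sum.inl l) false
    | Sum.inr t => M (Sum.inr t) b
  refine ⟨M', ?_, ?_, ?_, ?_, ?_⟩
  · rintro (l | t) b u v hm
    · cases b
      · exact m1 _ _ _ _ hm
      · exact Lsym l u v hm
    · exact m1 _ _ _ _ hm
  · intro _ _ _ _ _
    exact ⟨trivial, trivial⟩
  · rintro (l | t) b u v v' hm hm'
    · cases b
      · exact m3 _ _ _ _ _ hm hm'
      · exact Lfun l u v v' hm hm'
    · exact m3 _ _ _ _ _ hm hm'
  · rintro (l | t) b v hm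
    · cases b
      · exact mP l v hm
      · exact Lmiss l v hm
    · exact m4 (Sum.inr t) b v hm
  · rintro u - v - (⟨huv, hA, hB⟩ | ⟨l, h⟩)
    · rcases m5 u trivial v trivial huv with ⟨k | k, hk⟩ | ⟨k, b, hk⟩
      · exfalso
        apply hA k
        rcases hk with ⟨rfl, rfl⟩ | ⟨rfl, rfl⟩
        · rfl
        · exact Sym2.eq_swap
      · exact Or.inl ⟨Sum.inr k, hk⟩
      · right
        rcases k with l | t
        · cases b
          · exact ⟨Sum.inl l, false, hk⟩
          · refine ⟨Sum.inl l, true, Or.inl ⟨hk, ?_, ?_⟩⟩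
            · rintro ⟨rfl, rfl⟩
              exact hB l rfl
            · rintro ⟨rfl, rfl⟩
              exact hB l Sym2.eq_swap
        · exact ⟨Sum.inr t, b, hk⟩
    · right
      refine ⟨Sum.inl l, true, ?_⟩
      rcases Sym2.eq_iff.1 h with ⟨a, b⟩ | ⟨a, b⟩
      · exact Or.inr (Or.inl ⟨a, b⟩)
      · exact Or.inr (Or.inr ⟨a, b⟩)

/-- Leaves with a choice `c l` of the side: `c l = false`: virtual hole `{P, Q}` (class `true`
misses `Q`) and marker `{P+1, Q+1}`; `c l = true`: virtual hole `{P+1, Q+1}` (class `true` misses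
`Q+1`) and marker `{P, Q}`. In both cases the final hole is `{P, P+1}`. -/
theorem TSM.leafC {n : ℕ} (h1 : 1 < n) {Λ Θ : Type*} (P Q : Λ → ZMod n) (c : Λ → Bool)
    (hPQ : ∀ l, P l ≠ Q l) (E : ZMod n → ZMod n → Prop) (e : Θ → Bool → ZMod n)
    (h : TSM Set.univ E (Sum.elim (fun l b => (bif b then Q l else P l) + (bif c l then 1 else 0)) e)
      (Sum.elim (fun l u v => u = P l + (bif c l then 0 else 1) ∧
        v = Q l + (bif c l then 0 else 1)) (fun _ _ _ => False))) :
    TS Set.univ (LeafE P Q E)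
      (Sum.elim (fun l b => bif b then P l + 1 else P l) e) := by
  have hfact : Fact (1 < n) := ⟨h1⟩
  have hne : ∀ x : ZMod n, x ≠ x + 1 := by
    intro x h
    exact one_ne_zero (left_eq_add.1 h)
  have key := TSM.exch (V := ZMod n) (fun l => P l + (bif c l then 1 else 0))
    (fun l => P l + (bif c l then 0 else 1)) (fun l => Q l + (bif c l then 1 else 0))
    (fun l => Q l + (bif c l then 0 else 1)) ?_ ?_ E e ?_
  · have k2 := (key.mono (E' := LeafE P Q E) ?_).swap
      (Sum.elim c (fun _ : Θ => false))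
    · refine k2.congr ?_
      rintro (l | t) b
      · show (bif b then P l + 1 else P l) =
          (bif xor (c l) b then P l + (bif c l then 0 else 1) else P l + (bif c l then 1 else 0))
        cases c l <;> cases b <;> simp
      · show e t b = e t (xor false b)
        rw [Bool.false_xor]
    · rintro u - v - (⟨a, a1, a2⟩ | ⟨l, h⟩)
      · refine Or.inl ⟨a, ?_, ?_⟩
        · intro l
          cases hc : c l
          · simpa [hc] using a1 l
          · simpa [hc] using a2 l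
        · intro l
          cases hc : c l
          · simpa [hc] using a2 l
          · simpa [hc] using a1 l
      · refine Or.inr ⟨l, ?_⟩
        cases hc : c l
        · simpa [hc] using h
        · rw [h]
          simp [Sym2.eq_swap]
  · intro l
    cases hc : c l
    · simp
    · simp
  · intro l
    simpa using hPQ l
  · have e1 : (Sum.elim (fun l b => (bif b then Q l else P l) + (bif c l then 1 else 0)) e :
        Λ ⊕ Θ → Bool → ZMod n) = Sum.elim (fun l b => bif b then Q l + (bif c l then 1 else 0)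
          else P l + (bif c l then 1 else 0)) e := by
      funext k b
      rcases k with l | t
      · cases b <;> rfl
      · rfl
    rwa [e1] at h

/-- THE ASSEMBLY OF THE HUB. `J` families; the leaves of the family `j` are `Λ j`; type 1 takes
the hub system of all leaves; every family is given with its exchanged leaves. -/
theorem hub_all {n : ℕ} [NeZero n] (hn : Odd n) (h1 : 1 < n) (w : ZMod n) {J : Type*}
    {Λ Θ : J → Type*} (P Q : (j : J) → Λ j → ZMod n)
    (hP : ∀ j l j' l', P j l = P j' l' → (⟨j, l⟩ : Σ j, Λ j) = ⟨j', l'⟩)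
    (hQ : ∀ j l j' l', Q j l = Q j' l' → (⟨j, l⟩ : Σ j, Λ j) = ⟨j', l'⟩)
    (hPQ : ∀ j l j' l', P j l ≠ Q j' l') (hPw : ∀ j l, P j l ≠ w) (hQw : ∀ j l, Q j l ≠ w)
    (hpar : (∀ j l, Even (hpos w (P j l) + hpos w (Q j l))) ∨
      (∀ j l, Odd (hpos w (P j l) + hpos w (Q j l))))
    (E : J → ZMod n → ZMod n → Prop) (e : (j : J) → Θ j → Bool → ZMod n)
    (h : ∀ j, TS Set.univ (LeafE (P j) (Q j) (E j))
      (Sum.elim (fun l b => bif b then P j l + 1 else P j l) (e j))) :
    TS Set.univ (fun u v => (∃ j, E j u v) ∨ v = u + 1 ∨ u = v + 1)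
      (Sum.elim (fun (k : Σ j, Λ j ⊕ Θ j) b =>
          Sum.elim (fun l b => bif b then P k.1 l + 1 else P k.1 l) (e k.1) k.2 b)
        (fun (_ : Unit) b => bif b then w + 1 else w)) := by
  have H := hub_one hn h1 w (Λ := Σ j, Λ j) (fun k => P k.1 k.2) (fun k => Q k.1 k.2)
    (fun k k' hk => hP _ _ _ _ hk) (fun k k' hk => hQ _ _ _ _ hk)
    (fun k k' => hPQ _ _ _ _) (fun k => hPw _ _) (fun k => hQw _ _)
    (by
      rcases hpar with hp | hp
      · exact Or.inl fun k => hp _ _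
      · exact Or.inr fun k => hp _ _)
  obtain ⟨M, m1, m2, m3, m4, m5⟩ := (TS.sigma h).union H
  refine ⟨M, m1, m2, m3, m4, ?_⟩
  have cov : ∀ u v : ZMod n, (∃ x, s(u, v) = s(x, x + 1)) →
      (∃ k, (u = Sum.elim (fun (k : Σ j, Λ j ⊕ Θ j) b =>
          Sum.elim (fun l b => bif b then P k.1 l + 1 else P k.1 l) (e k.1) k.2 b)
        (fun (_ : Unit) b => bif b then w + 1 else w) k false ∧ v = Sum.elim
          (fun (k : Σ j, Λ j ⊕ Θ j) b =>
          Sum.elim (fun l b => bif b then P k.1 l + 1 else P k.1 l) (e k.1) k.2 b)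
        (fun (_ : Unit) b => bif b then w + 1 else w) k true) ∨ (u = Sum.elim
          (fun (k : Σ j, Λ j ⊕ Θ j) b =>
          Sum.elim (fun l b => bif b then P k.1 l + 1 else P k.1 l) (e k.1) k.2 b)
        (fun (_ : Unit) b => bif b then w + 1 else w) k true ∧ v = Sum.elim
          (fun (k : Σ j, Λ j ⊕ Θ j) b =>
          Sum.elim (fun l b => bif b then P k.1 l + 1 else P k.1 l) (e k.1) k.2 b)
        (fun (_ : Unit) b => bif b then w + 1 else w) k false)) ∨
      ((∃ j, LeafE (P j) (Q j) (E j) u v) ∨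
        HubE (Λ := Σ j, Λ j) (fun k => P k.1 k.2) (fun k => Q k.1 k.2) u v) := by
    rintro u v ⟨x, hx⟩
    by_cases hx1 : ∃ k : Σ j, Λ j, x = P k.1 k.2
    · obtain ⟨⟨j, l⟩, hk⟩ := hx1
      left
      refine ⟨Sum.inl ⟨j, Sum.inl l⟩, ?_⟩
      have hk' : x = P j l := hk
      rw [hk'] at hx
      rcases Sym2.eq_iff.1 hx with ⟨a, b⟩ | ⟨a, b⟩
      · exact Or.inl ⟨a, b⟩
      · exact Or.inr ⟨a, b⟩
    by_cases hx2 : ∃ k : Σ j, Λ j, x = Q k.1 k.2
    · obtain ⟨⟨j, l⟩, hk⟩ := hx2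
      right; left
      have hk' : x = Q j l := hk
      exact ⟨j, Or.inr ⟨l, by rw [← hk', hx]⟩⟩
    push Not at hx1 hx2
    exact Or.inr (Or.inr (Or.inl ⟨x, hx1, hx2, hx⟩))
  rintro u - v - (⟨j, huv⟩ | huv)
  · by_cases hA : ∃ k : Σ j, Λ j, s(u, v) = s(P k.1 k.2, Q k.1 k.2)
    · exact m5 u trivial v trivial (Or.inr (Or.inr (Or.inl hA)))
    by_cases hB : ∃ k : Σ j, Λ j, s(u, v) = s(P k.1 k.2 + 1, Q k.1 k.2 + 1)
    · exact m5 u trivial v trivial (Or.inr (Or.inr (Or.inr hB)))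
    push Not at hA hB
    exact m5 u trivial v trivial (Or.inl ⟨j, Or.inl ⟨huv, fun l => hA ⟨j, l⟩,
      fun l => hB ⟨j, l⟩⟩⟩)
  · have hx : ∃ x, s(u, v) = s(x, x + 1) := by
      rcases huv with rfl | rfl
      · exact ⟨u, rfl⟩
      · exact ⟨v, Sym2.eq_swap⟩
    rcases cov u v hx with hk | h
    · exact Or.inl hk
    · exact m5 u trivial v trivial h

end Pool.Agent.P45
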