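import Pool.Agent.Lib.P45dba8.Hub4

/-! # Choice of the leaves of the hub

Given `2r` vertices `D` of `ZMod (4k+1)` and a pool of at least `4r-3` labels which are all at most
`k` or all larger than `k`, there are a cut `w` in `D` and distinct labels for the other vertices such
that the hypotheses of the hub lemma hold. -/

set_option autoImplicit false

namespace Pool.Agent.P45

/-- The greedy choice. -/
theorem greedy_choice {α β γ : Type*} [DecidableEq α] [DecidableEq β] [DecidableEq γ]
    (X : Finset α) (L : Finset β) (tgt : α → β → γ) (Z : α → Finset γ) (g : α → Bool)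
    (hinj : ∀ P ∈ X, ∀ j ∈ L, ∀ j' ∈ L, tgt P j = tgt P j' → j = j')
    (hg : ∀ P ∈ X, ∀ P' ∈ X, ∀ j ∈ L, ∀ j' ∈ L, tgt P j = tgt P' j' → g P = g P')
    (hc : ∀ P ∈ X, (Z P).card + (X.filter (fun P' => g P' = g P)).card + X.card < L.card + 2)
    (Y : Finset α) (hY : Y ⊆ X) [Nonempty β] :
    ∃ f : α → β, (∀ P ∈ Y, f P ∈ L) ∧ (∀ P ∈ Y, tgt P (f P) ∉ Z P) ∧
      (∀ P ∈ Y, ∀ P' ∈ Y, f P = f P' → P = P') ∧
      (∀ P ∈ Y, ∀ P' ∈ Y, tgt P (f P) = tgt P' (f P') → P = P') := by
  classical
  induction Y using Finset.induction_on with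
  | empty =>
    obtain ⟨b⟩ := (inferInstance : Nonempty β)
    exact ⟨fun _ => b, by simp, by simp, by simp, by simp⟩
  | insert P Y hP ih =>
    obtain ⟨f, h1, h2, h3, h4⟩ := ih ((Finset.subset_insert _ _).trans hY)
    have hPX : P ∈ X := hY (Finset.mem_insert_self _ _)
    have hYX : ∀ P' ∈ Y, P' ∈ X := fun P' h => hY (Finset.mem_insert_of_mem h)
    let Yg := Y.filter (fun P' => g P' = g P)
    let B : Finset β := (L.filter (fun j => j ∈ Y.image f)) ∪
      ((L.filter (fun j => tgt P j ∈ Z P)) ∪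
        (L.filter (fun j => tgt P j ∈ Yg.image (fun P' => tgt P' (f P')))))
    have c1 : (L.filter (fun j => j ∈ Y.image f)).card ≤ Y.card := by
      refine (Finset.card_le_card (t := Y.image f) ?_).trans Finset.card_image_le
      intro j hj
      exact (Finset.mem_filter.1 hj).2
    have c2 : (L.filter (fun j => tgt P j ∈ Z P)).card ≤ (Z P).card := by
      apply Finset.card_le_card_of_injOn (tgt P)
      · intro j hj
        exact (Finset.mem_filter.1 hj).2
      · intro j hj j' hj' h
        exact hinj P hPX j (Finset.mem_filter.1 hj).1 j' (Finset.mem_filter.1 hj').1 h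
    have c3 : (L.filter (fun j => tgt P j ∈ Yg.image (fun P' => tgt P' (f P')))).card ≤
        Yg.card := by
      refine le_trans ?_ (Finset.card_image_le (s := Yg) (f := fun P' => tgt P' (f P')))
      apply Finset.card_le_card_of_injOn (tgt P)
      · intro j hj
        exact (Finset.mem_filter.1 hj).2
      · intro j hj j' hj' h
        exact hinj P hPX j (Finset.mem_filter.1 hj).1 j' (Finset.mem_filter.1 hj').1 h
    have c4 : Yg.card + 1 ≤ (X.filter (fun P' => g P' = g P)).card := by
      have : insert P Yg ⊆ X.filter (fun P' => g P' = g P) := by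
        intro P' hP'
        rcases Finset.mem_insert.1 hP' with rfl | h
        · exact Finset.mem_filter.2 ⟨hPX, rfl⟩
        · have := Finset.mem_filter.1 h
          exact Finset.mem_filter.2 ⟨hYX P' this.1, this.2⟩
      have h := Finset.card_le_card this
      rwa [Finset.card_insert_of_notMem (fun h => hP (Finset.mem_filter.1 h).1)] at h
    have c5 : Y.card + 1 ≤ X.card := by
      have h := Finset.card_le_card hY
      rwa [Finset.card_insert_of_notMem hP] at h
    have hB : B.card < L.card := by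
      have h5 := Finset.card_union_le (L.filter (fun j => j ∈ Y.image f))
        ((L.filter (fun j => tgt P j ∈ Z P)) ∪
        (L.filter (fun j => tgt P j ∈ Yg.image (fun P' => tgt P' (f P')))))
      have h6 := Finset.card_union_le (L.filter (fun j => tgt P j ∈ Z P))
        (L.filter (fun j => tgt P j ∈ Yg.image (fun P' => tgt P' (f P'))))
      have h7 := hc P hPX
      have h8 : B.card ≤ _ := h5
      omega
    obtain ⟨j, hjL, hjB⟩ := Finset.exists_mem_notMem_of_card_lt_card hB
    have hj1 : ∀ P' ∈ Y, f P' ≠ j := by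
      intro P' hP' h
      exact hjB (Finset.mem_union_left _ (Finset.mem_filter.2 ⟨hjL, Finset.mem_image.2 ⟨P', hP', h⟩⟩))
    have hj2 : tgt P j ∉ Z P := by
      intro h
      exact hjB (Finset.mem_union_right _ (Finset.mem_union_left _
        (Finset.mem_filter.2 ⟨hjL, h⟩)))
    have hj3 : ∀ P' ∈ Y, tgt P' (f P') ≠ tgt P j := by
      intro P' hP' h
      have hgg := hg P' (hYX P' hP') P hPX (f P') (h1 P' hP') j hjL h
      exact hjB (Finset.mem_union_right _ (Finset.mem_union_right _
        (Finset.mem_filter.2 ⟨hjL, Finset.mem_image.2 ⟨P', Finset.mem_filter.2 ⟨hP', hgg⟩, h⟩⟩)))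
    let f' : α → β := fun P' => if P' = P then j else f P'
    have e1 : f' P = j := if_pos rfl
    have e2 : ∀ P' ∈ Y, f' P' = f P' := by
      intro P' hP'
      apply if_neg
      rintro rfl
      exact hP hP'
    refine ⟨f', ?_, ?_, ?_, ?_⟩
    · intro P' hP'
      rcases Finset.mem_insert.1 hP' with rfl | h
      · rw [e1]; exact hjL
      · rw [e2 P' h]; exact h1 P' h
    · intro P' hP'
      rcases Finset.mem_insert.1 hP' with rfl | h
      · rw [e1]; exact hj2
      · rw [e2 P' h]; exact h2 P' h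
    · intro P1 hP1 P2 hP2 h
      rcases Finset.mem_insert.1 hP1 with rfl | g1 <;> rcases Finset.mem_insert.1 hP2 with rfl | g2
      · rfl
      · rw [e1, e2 P2 g2] at h
        exact absurd h.symm (hj1 P2 g2)
      · rw [e1, e2 P1 g1] at h
        exact absurd h (hj1 P1 g1)
      · rw [e2 P1 g1, e2 P2 g2] at h
        exact h3 P1 g1 P2 g2 h
    · intro P1 hP1 P2 hP2 h
      rcases Finset.mem_insert.1 hP1 with rfl | g1 <;> rcases Finset.mem_insert.1 hP2 with rfl | g2
      · rfl
      · rw [e1, e2 P2 g2] at h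
        exact absurd h.symm (hj3 P2 g2)
      · rw [e1, e2 P1 g1] at h
        exact absurd h (hj3 P1 g1)
      · rw [e2 P1 g1, e2 P2 g2] at h
        exact h4 P1 g1 P2 g2 h

/-- The number of points of `D` in the clockwise half after `w`. -/
def half (k : ℕ) (D : Finset (ZMod (4 * k + 1))) (w : ZMod (4 * k + 1)) :
    Finset (ZMod (4 * k + 1)) := D.filter (fun P => 1 ≤ (P - w).val ∧ (P - w).val ≤ 2 * k)

theorem val_sub_swap {k : ℕ} {x y : ZMod (4 * k + 1)} (h : x ≠ y) :
    (y - x).val = 4 * k + 1 - (x - y).val ∧ 1 ≤ (x - y).val := by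
  have h0 : x - y ≠ 0 := sub_ne_zero.2 h
  have : NeZero (x - y) := ⟨h0⟩
  refine ⟨?_, ?_⟩
  · rw [← neg_sub x y, ZMod.val_neg_of_ne_zero]
  · rw [Nat.one_le_iff_ne_zero]
    intro h1
    exact h0 ((ZMod.val_eq_zero _).1 h1)

/-- A point with exactly `r - 1` of the `2r` points in its clockwise half. -/
theorem circle_median (k r : ℕ) (D : Finset (ZMod (4 * k + 1))) (hr : 1 ≤ r)
    (hD : D.card = 2 * r) : ∃ w ∈ D, (half k D w).card = r - 1 := by
  classical
  -- the swapped halves
  have hswap : ∑ w ∈ D, (half k D w).card =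
      ∑ w ∈ D, (D.filter (fun P => 1 ≤ (w - P).val ∧ (w - P).val ≤ 2 * k)).card := by
    simp only [half, Finset.card_filter]
    exact Finset.sum_comm
  have hsum : ∀ w ∈ D, (half k D w).card +
      (D.filter (fun P => 1 ≤ (w - P).val ∧ (w - P).val ≤ 2 * k)).card = 2 * r - 1 := by
    intro w hw
    have h1 : (half k D w) ∪ (D.filter (fun P => 1 ≤ (w - P).val ∧ (w - P).val ≤ 2 * k)) =
        D.erase w := by
      ext P
      rw [half, Finset.mem_union, Finset.mem_filter, Finset.mem_filter, Finset.mem_erase]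
      constructor
      · rintro (⟨h1, h2, h3⟩ | ⟨h1, h2, h3⟩)
        · refine ⟨?_, h1⟩
          rintro rfl
          rw [sub_self, ZMod.val_zero] at h2
          omega
        · refine ⟨?_, h1⟩
          rintro rfl
          rw [sub_self, ZMod.val_zero] at h2
          omega
      · rintro ⟨h1, h2⟩
        obtain ⟨g1, g2⟩ := val_sub_swap h1
        have g3 := ZMod.val_lt (P - w)
        by_cases h3 : (P - w).val ≤ 2 * k
        · exact Or.inl ⟨h2, g2, h3⟩
        · exact Or.inr ⟨h2, by omega, by omega⟩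
    have h2 : Disjoint (half k D w)
        (D.filter (fun P => 1 ≤ (w - P).val ∧ (w - P).val ≤ 2 * k)) := by
      rw [Finset.disjoint_left]
      intro P hP hP'
      obtain ⟨h1, h2, h3⟩ := Finset.mem_filter.1 hP
      obtain ⟨-, h4, h5⟩ := Finset.mem_filter.1 hP'
      have hne : P ≠ w := by
        rintro rfl
        rw [sub_self, ZMod.val_zero] at h2
        omega
      obtain ⟨g1, g2⟩ := val_sub_swap hne
      have g3 := ZMod.val_lt (P - w)
      omega
    rw [← Finset.card_union_of_disjoint h2, h1, Finset.card_erase_of_mem hw, hD]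
  have hge : ∃ w ∈ D, r ≤ (half k D w).card := by
    by_contra hcon
    push Not at hcon
    have h1 : ∑ w ∈ D, (half k D w).card ≤ ∑ w ∈ D, (r - 1) :=
      Finset.sum_le_sum fun w hw => by have := hcon w hw; omega
    have h2 : ∑ w ∈ D, r ≤
        ∑ w ∈ D, (D.filter (fun P => 1 ≤ (w - P).val ∧ (w - P).val ≤ 2 * k)).card :=
      Finset.sum_le_sum fun w hw => by
        have := hcon w hw
        have := hsum w hw
        omega
    rw [Finset.sum_const, smul_eq_mul, hD] at h1 h2
    rw [← hswap] at h2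
    have h3 := h2.trans h1
    have h4 : 0 < 2 * r := by omega
    have := Nat.le_of_mul_le_mul_left h3 h4
    omega
  have hle : ∃ w ∈ D, (half k D w).card ≤ r - 1 := by
    by_contra hcon
    push Not at hcon
    have h1 : ∑ w ∈ D, r ≤ ∑ w ∈ D, (half k D w).card :=
      Finset.sum_le_sum fun w hw => by have := hcon w hw; omega
    have h2 : ∑ w ∈ D, (D.filter (fun P => 1 ≤ (w - P).val ∧ (w - P).val ≤ 2 * k)).card ≤
        ∑ w ∈ D, (r - 1) :=
      Finset.sum_le_sum fun w hw => by
        have := hcon w hw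
        have := hsum w hw
        omega
    rw [Finset.sum_const, smul_eq_mul, hD] at h1 h2
    rw [← hswap] at h2
    have h3 := h1.trans h2
    have h4 : 0 < 2 * r := by omega
    have := Nat.le_of_mul_le_mul_left h3 h4
    omega
  obtain ⟨w2, hw2, hw2c⟩ := hle
  -- the last point with a large half before `w2`
  obtain ⟨w, hw, hwmin⟩ := Finset.exists_min_image
    (D.filter (fun w => r ≤ (half k D w).card)) (fun w => (w2 - w).val) (by
      obtain ⟨w, h1, h2⟩ := hge
      exact ⟨w, Finset.mem_filter.2 ⟨h1, h2⟩⟩)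
  obtain ⟨hwD, hwc⟩ := Finset.mem_filter.1 hw
  have hw2w : w2 ≠ w := by
    rintro rfl
    omega
  -- the next point
  obtain ⟨d, hd, hdmin⟩ := Finset.exists_min_image (D.erase w) (fun d => (d - w).val)
    ⟨w2, Finset.mem_erase.2 ⟨hw2w, hw2⟩⟩
  obtain ⟨hdw, hdD⟩ := Finset.mem_erase.1 hd
  have hd1 := (val_sub_swap hdw).2
  have hdw2 := hdmin w2 (Finset.mem_erase.2 ⟨hw2w, hw2⟩)
  -- values add up
  have hadd : ∀ x : ZMod (4 * k + 1), (d - w).val ≤ (x - w).val →
      (x - d).val = (x - w).val - (d - w).val := by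
    intro x hx
    have h1 : x - d = (x - w) - (d - w) := by ring
    rw [h1, ZMod.val_sub hx]
  have hdle : (half k D d).card ≤ r - 1 := by
    by_cases hdd : d = w2
    · rw [hdd]; exact hw2c
    · by_contra hcon
      have h1 := hwmin d (Finset.mem_filter.2 ⟨hdD, by omega⟩)
      have h2 := hadd w2 hdw2
      have h1' : (w2 - w).val ≤ (w2 - d).val := h1
      have h3 := (val_sub_swap hw2w).2
      omega
  have hdge : (half k D w).card ≤ (half k D d).card + 1 := by
    have hsub : (half k D w).erase d ⊆ half k D d := by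
      intro x hx
      obtain ⟨h1, h2⟩ := Finset.mem_erase.1 hx
      obtain ⟨h3, h4, h5⟩ := Finset.mem_filter.1 h2
      have hxw : x ≠ w := by
        rintro rfl
        rw [sub_self, ZMod.val_zero] at h4
        omega
      have h6 := hdmin x (Finset.mem_erase.2 ⟨hxw, h3⟩)
      have h7 := hadd x h6
      have h8 := (val_sub_swap h1).2
      exact Finset.mem_filter.2 ⟨h3, h8, by omega⟩
    have h1 := Finset.card_le_card hsub
    have h2 := Finset.pred_card_le_card_erase (s := half k D w) (a := d)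
    omega
  exact ⟨d, hdD, by omega⟩

/-- Twice `(2k+1) x` is `x`. -/
theorem two_mul_half {k : ℕ} (x : ZMod (4 * k + 1)) :
    2 * ((2 * k + 1 : ℕ) * x) = x := by
  have h1 : ((4 * k + 1 : ℕ) : ZMod (4 * k + 1)) = 0 := ZMod.natCast_self _
  push_cast at h1 ⊢
  linear_combination x * h1

/-- The value of twice an element. -/
theorem val_two_mul {k : ℕ} (y : ZMod (4 * k + 1)) :
    (2 * y).val = if y.val ≤ 2 * k then 2 * y.val else 2 * y.val - (4 * k + 1) := by
  have h1 := ZMod.val_lt y
  have h2 : 2 * y = ((2 * y.val : ℕ) : ZMod (4 * k + 1)) := by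
    push_cast
    rw [ZMod.natCast_zmod_val]
  split_ifs with h
  · rw [h2, ZMod.val_natCast, Nat.mod_eq_of_lt (by omega)]
  · rw [h2, ZMod.val_natCast, Nat.mod_eq_sub_mod (by omega), Nat.mod_eq_of_lt (by omega)]

/-- The position of `P` in terms of the halved circle. -/
theorem hpos_odd_iff {k : ℕ} {w P : ZMod (4 * k + 1)} (h : P ≠ w) :
    Odd (hpos w P) ↔ (1 ≤ ((2 * k + 1 : ℕ) * P - (2 * k + 1 : ℕ) * w : ZMod (4 * k + 1)).val ∧
      ((2 * k + 1 : ℕ) * P - (2 * k + 1 : ℕ) * w : ZMod (4 * k + 1)).val ≤ 2 * k) := by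
  have e1 : ((2 * k + 1 : ℕ) * P - (2 * k + 1 : ℕ) * w : ZMod (4 * k + 1)) =
      (2 * k + 1 : ℕ) * (P - w) := by ring
  rw [e1]
  set y : ZMod (4 * k + 1) := (2 * k + 1 : ℕ) * (P - w) with hy
  have h2 : 2 * y = P - w := two_mul_half _
  have h3 := (val_sub_swap h).2
  have h4 : hpos w P = (P - w).val - 1 := by
    unfold hpos
    have e2 : P - (w + 1) = (P - w) - 1 := by ring
    by_cases hk : k = 0
    · subst hk
      have h5 : (P - w).val < 1 := ZMod.val_lt (P - w)
      omega
    have hF : Fact (1 < 4 * k + 1) := ⟨by omega⟩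
    rw [e2, ZMod.val_sub (by rw [ZMod.val_one]; exact h3), ZMod.val_one]
  have h5 := val_two_mul y
  rw [h2] at h5
  have h6 := ZMod.val_lt y
  have h7 := ZMod.val_lt (P - w)
  rw [h4]
  split_ifs at h5 with hc
  · rw [h5]
    constructor
    · intro _
      exact ⟨by omega, hc⟩
    · intro _
      exact ⟨y.val - 1, by omega⟩
  · rw [h5]
    constructor
    · rintro ⟨j, hj⟩
      omega
    · rintro ⟨_, h9⟩
      omega

theorem hpos_add {k : ℕ} (w P : ZMod (4 * k + 1)) {s : ℕ} (h : hpos w P + s < 4 * k + 1) :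
    hpos w (P + (s : ℕ)) = hpos w P + s := by
  have e : P + (s : ZMod (4 * k + 1)) - (w + 1) = (P - (w + 1)) + (s : ℕ) := by ring
  show (P + (s : ZMod (4 * k + 1)) - (w + 1)).val = (P - (w + 1)).val + s
  have h' : (P - (w + 1)).val + s < 4 * k + 1 := h
  have hs : ((s : ℕ) : ZMod (4 * k + 1)).val = s := ZMod.val_cast_of_lt (by omega)
  rw [e, ZMod.val_add_of_lt (by rw [hs]; exact h'), hs]

theorem hpos_sub {k : ℕ} (w P : ZMod (4 * k + 1)) {s : ℕ} (h : s ≤ hpos w P) :
    hpos w (P - (s : ℕ)) = hpos w P - s := by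
  have e : P - (s : ZMod (4 * k + 1)) - (w + 1) = (P - (w + 1)) - (s : ℕ) := by ring
  have h2 := ZMod.val_lt (P - (w + 1))
  have h' : s ≤ (P - (w + 1)).val := h
  have hs : ((s : ℕ) : ZMod (4 * k + 1)).val = s := ZMod.val_cast_of_lt (by omega)
  show (P - (s : ZMod (4 * k + 1)) - (w + 1)).val = (P - (w + 1)).val - s
  rw [e, ZMod.val_sub (by rw [hs]; exact h'), hs]

/-- THE CHOICE OF THE LEAVES. -/
theorem hub_choice (k r : ℕ) (hr : 1 ≤ r) (D : Finset (ZMod (4 * k + 1)))
    (hD : D.card = 2 * r) (L : Finset ℕ)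
    (hL : (∀ j ∈ L, 1 ≤ j ∧ j ≤ k) ∨ (∀ j ∈ L, k < j ∧ j ≤ 2 * k))
    (hc : 4 * r ≤ L.card + 3) :
    ∃ w ∈ D, ∃ (f : ZMod (4 * k + 1) → ℕ) (Q : ZMod (4 * k + 1) → ZMod (4 * k + 1)),
      (∀ P ∈ D.erase w, f P ∈ L ∧ (Q P = P + 2 * (f P : ZMod (4 * k + 1)) ∨
        Q P = P - 2 * (f P : ZMod (4 * k + 1)))) ∧
      (∀ P ∈ D.erase w, ∀ P' ∈ D.erase w, f P = f P' → P = P') ∧
      (∀ P ∈ D.erase w, ∀ P' ∈ D.erase w, Q P = Q P' → P = P') ∧
      (∀ P ∈ D.erase w, Q P ∉ D) ∧
      ((∀ P ∈ D.erase w, Even (hpos w P + hpos w (Q P))) ∨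
        (∀ P ∈ D.erase w, Odd (hpos w P + hpos w (Q P)))) := by
  classical
  have hn0 : ((4 * k + 1 : ℕ) : ZMod (4 * k + 1)) = 0 := ZMod.natCast_self _
  obtain ⟨w, hwD, hw⟩ : ∃ w ∈ D, ((D.erase w).filter (fun P => Odd (hpos w P))).card = r - 1 := by
    let c : ZMod (4 * k + 1) → ZMod (4 * k + 1) := fun x => (2 * k + 1 : ℕ) * x
    have hcinj : Function.Injective c := by
      intro x y h
      have h' : ((2 * k + 1 : ℕ) : ZMod (4 * k + 1)) * x = (2 * k + 1 : ℕ) * y := h
      rw [← two_mul_half x, ← two_mul_half y, h']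
    obtain ⟨w', hw', hwc⟩ := circle_median k r (D.image c) hr
      (by rw [Finset.card_image_of_injective _ hcinj, hD])
    obtain ⟨w, hw, rfl⟩ := Finset.mem_image.1 hw'
    refine ⟨w, hw, ?_⟩
    rw [← hwc, ← Finset.card_image_of_injective _ hcinj]
    congr 1
    ext x
    rw [Finset.mem_image, half, Finset.mem_filter, Finset.mem_image]
    constructor
    · rintro ⟨P, hP, rfl⟩
      obtain ⟨h1, h2⟩ := Finset.mem_filter.1 hP
      obtain ⟨h3, h4⟩ := Finset.mem_erase.1 h1
      exact ⟨⟨P, h4, rfl⟩, (hpos_odd_iff h3).1 h2⟩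
    · rintro ⟨⟨P, hP, rfl⟩, h1⟩
      have hPw : P ≠ w := by
        rintro rfl
        rw [sub_self, ZMod.val_zero] at h1
        omega
      exact ⟨P, Finset.mem_filter.2 ⟨Finset.mem_erase.2 ⟨hPw, hP⟩, (hpos_odd_iff hPw).2 h1⟩, rfl⟩
  have hXc : (D.erase w).card = 2 * r - 1 := by rw [Finset.card_erase_of_mem hwD, hD]
  have hww : hpos w w = 4 * k := by
    show (w - (w + 1)).val = 4 * k
    have e : w - (w + 1) = -1 := by ring
    rw [e]
    exact ZMod.val_neg_one _
  have hxlt : ∀ P ∈ D.erase w, hpos w P < 4 * k := by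
    intro P hP
    have h1 := hpos_lt w P
    have h2 : hpos w P ≠ 4 * k := by
      intro h
      exact (Finset.mem_erase.1 hP).1 (hpos_inj (h.trans hww.symm))
    omega
  -- the shifts
  let s : ℕ → ℕ := fun j => if j ≤ k then 2 * j else 4 * k + 1 - 2 * j
  have hs1 : ∀ j ∈ L, 1 ≤ s j ∧ s j ≤ 2 * k := by
    intro j hj
    show 1 ≤ (if j ≤ k then 2 * j else 4 * k + 1 - 2 * j) ∧
      (if j ≤ k then 2 * j else 4 * k + 1 - 2 * j) ≤ 2 * k
    rcases hL with hL | hL
    · have := hL j hj
      rw [if_pos this.2]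
      omega
    · have := hL j hj
      rw [if_neg (by omega)]
      omega
  have hsinj : ∀ j ∈ L, ∀ j' ∈ L, s j = s j' → j = j' := by
    intro j hj j' hj'
    show (if j ≤ k then 2 * j else 4 * k + 1 - 2 * j) =
      (if j' ≤ k then 2 * j' else 4 * k + 1 - 2 * j') → j = j'
    rcases hL with hL | hL
    · have h1 := hL j hj
      have h2 := hL j' hj'
      rw [if_pos h1.2, if_pos h2.2]
      omega
    · have h1 := hL j hj
      have h2 := hL j' hj'
      rw [if_neg (by omega), if_neg (by omega)]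
      omega
  have hspar : (∀ j ∈ L, Even (s j)) ∨ (∀ j ∈ L, Odd (s j)) := by
    rcases hL with hL | hL
    · left
      intro j hj
      show Even (if j ≤ k then 2 * j else 4 * k + 1 - 2 * j)
      rw [if_pos (hL j hj).2]
      exact even_two_mul j
    · right
      intro j hj
      have h1 := hL j hj
      show Odd (if j ≤ k then 2 * j else 4 * k + 1 - 2 * j)
      rw [if_neg (by omega)]
      exact ⟨2 * k - j, by omega⟩
  let tgt : ZMod (4 * k + 1) → ℕ → ZMod (4 * k + 1) := fun P j =>
    if hpos w P < 2 * k then P + (s j : ℕ) else P - (s j : ℕ)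
  have htp : ∀ P ∈ D.erase w, ∀ j ∈ L, (hpos w P < 2 * k ∧ hpos w (tgt P j) = hpos w P + s j) ∨
      (2 * k ≤ hpos w P ∧ hpos w (tgt P j) = hpos w P - s j) := by
    intro P hP j hj
    have h1 := hs1 j hj
    by_cases h : hpos w P < 2 * k
    · left
      refine ⟨h, ?_⟩
      show hpos w (if hpos w P < 2 * k then P + (s j : ℕ) else P - (s j : ℕ)) = _
      rw [if_pos h]
      exact hpos_add w P (by omega)
    · right
      refine ⟨by omega, ?_⟩
      show hpos w (if hpos w P < 2 * k then P + (s j : ℕ) else P - (s j : ℕ)) = _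
      rw [if_neg h]
      exact hpos_sub w P (by omega)
  have hinj : ∀ P ∈ D.erase w, ∀ j ∈ L, ∀ j' ∈ L, tgt P j = tgt P j' → j = j' := by
    intro P hP j hj j' hj' h
    have h0 : hpos w (tgt P j) = hpos w (tgt P j') := by rw [h]
    have h1 := hs1 j hj
    have h2 := hs1 j' hj'
    apply hsinj j hj j' hj'
    rcases htp P hP j hj with ⟨a1, a2⟩ | ⟨a1, a2⟩ <;>
      rcases htp P hP j' hj' with ⟨b1, b2⟩ | ⟨b1, b2⟩ <;> omega
  have htw : ∀ P ∈ D.erase w, ∀ j ∈ L, tgt P j ≠ w := by
    intro P hP j hj h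
    have h1 := hs1 j hj
    have h2 := hxlt P hP
    have h3 := congrArg (hpos w) h
    rcases htp P hP j hj with ⟨a1, a2⟩ | ⟨a1, a2⟩ <;> omega
  have htP : ∀ P ∈ D.erase w, ∀ j ∈ L, tgt P j ≠ P := by
    intro P hP j hj h
    have h1 := hs1 j hj
    rcases htp P hP j hj with ⟨a1, a2⟩ | ⟨a1, a2⟩ <;> rw [h] at a2 <;> omega
  let g : ZMod (4 * k + 1) → Bool := fun P => decide (Odd (hpos w P))
  have hgd : ∀ P P' : ZMod (4 * k + 1), g P = g P' ↔ (Odd (hpos w P) ↔ Odd (hpos w P')) := by
    intro P P'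
    exact decide_eq_decide
  have htpar : ∀ P ∈ D.erase w, ∀ j ∈ L, Even (hpos w P + hpos w (tgt P j)) ↔ Even (s j) := by
    intro P hP j hj
    have h1 := hs1 j hj
    rcases htp P hP j hj with ⟨a1, a2⟩ | ⟨a1, a2⟩
    · rw [a2, ← add_assoc, Nat.even_add]
      exact ⟨fun h => h.1 (Even.add_self _), fun h => ⟨fun _ => h, fun _ => Even.add_self _⟩⟩
    · have h3 : hpos w P + hpos w (tgt P j) + s j = 2 * hpos w P := by omega
      have h4 : Even (hpos w P + hpos w (tgt P j) + s j) := by rw [h3]; exact even_two_mul _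
      rw [Nat.even_add] at h4
      exact h4
  have hgt : ∀ P ∈ D.erase w, ∀ P' ∈ D.erase w, ∀ j ∈ L, ∀ j' ∈ L,
      tgt P j = tgt P' j' → g P = g P' := by
    intro P hP P' hP' j hj j' hj' h
    have h1 := htpar P hP j hj
    have h2 := htpar P' hP' j' hj'
    rw [← h] at h2
    rw [hgd, ← Nat.not_even_iff_odd, ← Nat.not_even_iff_odd, not_iff_not]
    rw [Nat.even_add] at h1 h2
    rcases hspar with hs | hs
    · have h3 := hs j hj
      have h4 := hs j' hj'
      tauto
    · have h3 := Nat.not_even_iff_odd.2 (hs j hj)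
      have h4 := Nat.not_even_iff_odd.2 (hs j' hj')
      tauto
  -- the sizes of the groups
  have hg1 : ∀ P ∈ D.erase w, ((D.erase w).filter (fun P' => g P' = g P)).card ≤ r := by
    intro P hP
    have hsplit := Finset.card_filter_add_card_filter_not (s := D.erase w) (fun P => Odd (hpos w P))
    by_cases ho : Odd (hpos w P)
    · have : (D.erase w).filter (fun P' => g P' = g P) =
          (D.erase w).filter (fun P => Odd (hpos w P)) := by
        ext P'
        rw [Finset.mem_filter, Finset.mem_filter, hgd]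
        exact ⟨fun h => ⟨h.1, h.2.2 ho⟩, fun h => ⟨h.1, ⟨fun _ => ho, fun _ => h.2⟩⟩⟩
      rw [this, hw]
      omega
    · have : (D.erase w).filter (fun P' => g P' = g P) =
          (D.erase w).filter (fun P => ¬ Odd (hpos w P)) := by
        ext P'
        rw [Finset.mem_filter, Finset.mem_filter, hgd]
        exact ⟨fun h => ⟨h.1, fun h' => ho (h.2.1 h')⟩,
          fun h => ⟨h.1, ⟨fun h' => absurd h' h.2, fun h' => absurd h' ho⟩⟩⟩
      rw [this]
      omega
  rcases hspar with hs | hs
  · -- even regime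
    obtain ⟨f, f1, f2, f3, f4⟩ := greedy_choice (D.erase w) L tgt
      (fun P => ((D.erase w).filter (fun P' => g P' = g P)).erase P) g hinj hgt (by
        intro P hP
        have h1 := hg1 P hP
        have h2 : P ∈ (D.erase w).filter (fun P' => g P' = g P) :=
          Finset.mem_filter.2 ⟨hP, rfl⟩
        show (((D.erase w).filter (fun P' => g P' = g P)).erase P).card + _ + _ < _
        rw [Finset.card_erase_of_mem h2, hXc]
        omega) (D.erase w) subset_rfl
    refine ⟨w, hwD, f, fun P => tgt P (f P), ?_, f3, f4, ?_, Or.inl ?_⟩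
    · intro P hP
      have h1 := f1 P hP
      refine ⟨h1, ?_⟩
      have hsj : ((s (f P) : ℕ) : ZMod (4 * k + 1)) = 2 * (f P : ZMod (4 * k + 1)) ∨
          ((s (f P) : ℕ) : ZMod (4 * k + 1)) = -(2 * (f P : ZMod (4 * k + 1))) := by
        show (((if f P ≤ k then 2 * f P else 4 * k + 1 - 2 * f P : ℕ)) : ZMod (4 * k + 1)) = _ ∨
          (((if f P ≤ k then 2 * f P else 4 * k + 1 - 2 * f P : ℕ)) : ZMod (4 * k + 1)) = _
        split_ifs with h
        · left; push_cast; ring
        · right
          have h2 : f P ≤ 2 * k := by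
            rcases hL with hL | hL
            · have := (hL _ h1).2; omega
            · exact (hL _ h1).2
          rw [Nat.cast_sub (by omega), hn0]
          push_cast; ring
      show (if hpos w P < 2 * k then P + ((s (f P) : ℕ) : ZMod (4 * k + 1))
          else P - ((s (f P) : ℕ) : ZMod (4 * k + 1))) = _ ∨
        (if hpos w P < 2 * k then P + ((s (f P) : ℕ) : ZMod (4 * k + 1))
          else P - ((s (f P) : ℕ) : ZMod (4 * k + 1))) = _
      split_ifs
      · rcases hsj with h | h
        · left; rw [h]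
        · right; rw [h]; ring
      · rcases hsj with h | h
        · right; rw [h]
        · left; rw [h]; ring
    · intro P hP hQ
      have h1 := f1 P hP
      have h2 := f2 P hP
      apply h2
      have h3 : tgt P (f P) ∈ D.erase w := Finset.mem_erase.2 ⟨htw P hP _ h1, hQ⟩
      refine Finset.mem_erase.2 ⟨htP P hP _ h1, Finset.mem_filter.2 ⟨h3, ?_⟩⟩
      rw [hgd, ← Nat.not_even_iff_odd, ← Nat.not_even_iff_odd, not_iff_not]
      have h4 := (htpar P hP _ h1).2 (hs _ h1)
      rw [Nat.even_add] at h4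
      exact h4.symm
    · intro P hP
      exact (htpar P hP _ (f1 P hP)).2 (hs _ (f1 P hP))
  · -- odd regime
    obtain ⟨f, f1, f2, f3, f4⟩ := greedy_choice (D.erase w) L tgt
      (fun P => (D.erase w).filter (fun P' => ¬ g P' = g P)) g hinj hgt (by
        intro P hP
        have hsplit := Finset.card_filter_add_card_filter_not (s := D.erase w)
          (fun P' => g P' = g P)
        show ((D.erase w).filter (fun P' => ¬ g P' = g P)).card + _ + _ < _
        omega) (D.erase w) subset_rfl
    refine ⟨w, hwD, f, fun P => tgt P (f P), ?_, f3, f4, ?_, Or.inr ?_⟩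
    · intro P hP
      have h1 := f1 P hP
      refine ⟨h1, ?_⟩
      have hsj : ((s (f P) : ℕ) : ZMod (4 * k + 1)) = 2 * (f P : ZMod (4 * k + 1)) ∨
          ((s (f P) : ℕ) : ZMod (4 * k + 1)) = -(2 * (f P : ZMod (4 * k + 1))) := by
        show (((if f P ≤ k then 2 * f P else 4 * k + 1 - 2 * f P : ℕ)) : ZMod (4 * k + 1)) = _ ∨
          (((if f P ≤ k then 2 * f P else 4 * k + 1 - 2 * f P : ℕ)) : ZMod (4 * k + 1)) = _
        split_ifs with h
        · left; push_cast; ring
        · right
          have h2 : f P ≤ 2 * k := by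
            rcases hL with hL | hL
            · have := (hL _ h1).2; omega
            · exact (hL _ h1).2
          rw [Nat.cast_sub (by omega), hn0]
          push_cast; ring
      show (if hpos w P < 2 * k then P + ((s (f P) : ℕ) : ZMod (4 * k + 1))
          else P - ((s (f P) : ℕ) : ZMod (4 * k + 1))) = _ ∨
        (if hpos w P < 2 * k then P + ((s (f P) : ℕ) : ZMod (4 * k + 1))
          else P - ((s (f P) : ℕ) : ZMod (4 * k + 1))) = _
      split_ifs
      · rcases hsj with h | h
        · left; rw [h]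
        · right; rw [h]; ring
      · rcases hsj with h | h
        · right; rw [h]
        · left; rw [h]; ring
    · intro P hP hQ
      have h1 := f1 P hP
      have h2 := f2 P hP
      apply h2
      have h3 : tgt P (f P) ∈ D.erase w := Finset.mem_erase.2 ⟨htw P hP _ h1, hQ⟩
      refine Finset.mem_filter.2 ⟨h3, ?_⟩
      rw [hgd, ← Nat.not_even_iff_odd, ← Nat.not_even_iff_odd, not_iff_not]
      have h4 := (not_congr (htpar P hP _ h1)).2 (Nat.not_even_iff_odd.2 (hs _ h1))
      rw [Nat.even_add] at h4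
      exact fun h5 => h4 h5.symm
    · intro P hP
      rw [← Nat.not_even_iff_odd, htpar P hP _ (f1 P hP), Nat.not_even_iff_odd]
      exact hs _ (f1 P hP)

end Pool.Agent.P45
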