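import Pool.Agent.Lib.P45dba8.JointL0
import Pool.Agent.Lib.P45dba8.Cyc

/-! # Joint hosting of a good family with leaves -/

set_option autoImplicit false

namespace Pool.Agent.P45

theorem Good.jointL {m h : ℕ} (hm : Odd m) (hh : Odd h) (h3 : 3 ≤ h) {ι κ J Λ : Type*}
    [hΛ : Nonempty Λ]
    {Q : ZMod m → Prop} (hQ : ∀ x, IsUnit x → Q x)
    {t : ι → ZMod m} {d u : κ → ZMod m} (hG : Good m Q t d u)
    (a : Λ → ZMod m) (ha : ∀ l, IsUnit (a l)) (hD : Dist (Sum.elim a t) d u)
    (hT0 : ∀ k, tyy t d u k ≠ 0)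
    (c : ι ⊕ κ → J) (hc : ∀ j, ∃ i, c i = j) (j₁ : J)
    (hone : ∀ i i', c i = j₁ → c i' = j₁ → i = i')
    (E : J → ZMod (m * h) → ZMod (m * h) → Prop) (w w' : J → ZMod (m * h))
    (hcyc : ∀ j, Cyc m h (E j) (w j) (w' j)) (PL : Λ → ZMod (m * h))
    (P A : ι ⊕ κ × Bool → ZMod (m * h)) (hA : ∀ i, A (Sum.inl i) = psi m h (t i))
    (hP : ∀ k, adm (fun δ => red m h δ ≠ 0) (psi m h (d k)) (psi m h (u k))
      (A (Sum.inr (k, false))) (A (Sum.inr (k, true)))
      (P (Sum.inr (k, true)) - P (Sum.inr (k, false)))) :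
    ∃ V : Λ → Bool,
    TSM Set.univ (fun v v' => DE (FD (fun i => psi m h (Sum.elim a t i)) (fun k => psi m h (d k))
        (fun k => psi m h (u k))) v v' ∨ ∃ j, E j v v' ∨ E j v' v)
      (Sum.elim (fun l b => (bif b then PL l + psi m h (a l) else PL l) +
          (bif V l then 1 else 0))
        (fun (k : J ⊕ (ι ⊕ κ × Bool)) b =>
          Sum.elim (fun j => bif b then w' j else w j) (fun θ => fh P A θ b) k))
      (Sum.elim (fun l u v => u = PL l + (bif V l then 0 else 1) ∧
        v = PL l + psi m h (a l) + (bif V l then 0 else 1)) (fun _ _ _ => False)) := by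
  classical
  have hNZ : NeZero h := ⟨by omega⟩
  have hFh : Fact (1 < h) := ⟨by omega⟩
  have hinj := psi_inj m h (by omega)
  have h1h : (1 : ZMod h) ≠ 0 := one_ne_zero
  have h2h : (2 : ZMod h) ≠ 0 := by
    have h2u : IsUnit ((2 : ℕ) : ZMod h) := by
      rw [ZMod.isUnit_iff_coprime]
      exact Nat.coprime_two_left.2 hh
    have : IsUnit (2 : ZMod h) := by exact_mod_cast h2u
    exact this.ne_zero
  -- the types
  have hDt : Dist t d u := by
    intro x y hxy
    have emb : ∀ x : ι ⊕ κ × Bool, tyy (Sum.elim a t) d u (Sum.map Sum.inr id x) = tyy t d u x := by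
      rintro (i | k) <;> rfl
    have hne : (Sum.map Sum.inr id x : (Λ ⊕ ι) ⊕ κ × Bool) ≠ Sum.map Sum.inr id y := by
      intro h'
      apply hxy
      rcases x with i | k <;> rcases y with i' | k'
      · exact congrArg Sum.inl (Sum.inr_injective (Sum.inl_injective h'))
      · simp at h'
      · simp at h'
      · exact congrArg Sum.inr (Sum.inr_injective h')
    have := hD _ _ hne
    rwa [emb, emb] at this
  have ha1 : ∀ l (k : ι ⊕ κ × Bool), a l ≠ tyy t d u k ∧ a l ≠ -tyy t d u k := by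
    rintro l (i | k)
    · exact hD (Sum.inl (Sum.inl l)) (Sum.inl (Sum.inr i)) (by simp)
    · exact hD (Sum.inl (Sum.inl l)) (Sum.inr k) (by simp)
  have ha2 : ∀ l l', l ≠ l' → a l ≠ a l' ∧ a l ≠ -a l' := by
    intro l l' hl
    exact hD (Sum.inl (Sum.inl l)) (Sum.inl (Sum.inl l')) (by simp [hl])
  obtain ⟨l₀⟩ := hΛ
  obtain ⟨θ₀⟩ : Nonempty (ι ⊕ κ × Bool) := by
    obtain ⟨i | k, _⟩ := hc j₁
    · exact ⟨Sum.inl i⟩
    · exact ⟨Sum.inr (k, false)⟩
  have hm1 : 1 < m := by
    by_contra hm1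
    obtain ⟨r0, hr0⟩ := hm
    have : m = 1 := by omega
    subst this
    exact (ha1 l₀ θ₀).1 (Subsingleton.elim _ _)
  have hFm : Fact (1 < m) := ⟨hm1⟩
  have ha0 : ∀ l, a l ≠ 0 := fun l => (ha l).ne_zero
  have hm5 : 5 ≤ m := five_le hm (ha0 l₀) (hT0 θ₀) (ha1 l₀ θ₀).1 (ha1 l₀ θ₀).2
  have h2a : ∀ l, a l + a l ≠ 0 := by
    intro l h'
    have h2u : IsUnit ((2 : ℕ) : ZMod m) := by
      rw [ZMod.isUnit_iff_coprime]
      exact Nat.coprime_two_left.2 hm
    have h2u' : IsUnit (2 : ZMod m) := by exact_mod_cast h2u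
    have h4 : (2 : ZMod m) * a l = 0 := by linear_combination h'
    exact ha0 l ((h2u'.mul_right_eq_zero).1 h4)
  let itm : ι ⊕ κ × Bool → ι ⊕ κ := Sum.map id Prod.fst
  let cl : ι ⊕ κ × Bool → J := fun θ => c (itm θ)
  choose π W hW hw hw' hE using hcyc
  have hch := fun j => exists_chart h3 (π j) (W j) (hW j) (w j) (hw j)
  choose C phi ph1 ph2 ph3 ph4 ph5 using hch
  -- coordinates
  have hfst : ∀ j v, ((phi j).symm v).1 = (π j).symm (red m h v) := by
    intro j v
    have := ph1 j ((phi j).symm v)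
    rw [Equiv.apply_symm_apply] at this
    rw [this, Equiv.symm_apply_apply]
  have hphi : ∀ j v, phi j ((π j).symm (red m h v), ((phi j).symm v).2) = v := by
    intro j v
    have : ((π j).symm (red m h v), ((phi j).symm v).2) = (phi j).symm v :=
      Prod.ext (hfst _ _).symm rfl
    rw [this, Equiv.apply_symm_apply]
  let r : ι ⊕ κ × Bool → ZMod h := fun θ => (π (cl θ)).symm (red m h (P θ))
  let x : ι ⊕ κ × Bool → ZMod m := fun θ => ((phi (cl θ)).symm (P θ)).2
  have hrx : ∀ θ, phi (cl θ) (r θ, x θ) = P θ := fun θ => hphi _ _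
  have hAA : ∀ θ, ∃ a, A θ = psi m h a := by
    rintro (i | ⟨k, b⟩)
    · exact ⟨t i, hA i⟩
    · rcases hP k with ⟨h1, h2⟩ | ⟨h1, h2⟩ | ⟨⟨h1, h2⟩ | ⟨h1, h2⟩, _⟩ <;> cases b
      · exact ⟨_, h1⟩
      · exact ⟨_, h2⟩
      · exact ⟨_, h1⟩
      · exact ⟨_, h2⟩
      · exact ⟨_, h1⟩
      · exact ⟨_, h2⟩
      · exact ⟨_, h1⟩
      · exact ⟨_, h2⟩
  choose AA hAA using hAA
  have hAinj : ∀ θ a, A θ = psi m h a → AA θ = a := by
    intro θ a h1
    exact hinj ((hAA θ).symm.trans h1)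
  -- the leaves
  let RL : Λ → Bool → ZMod h := fun l b =>
    (π j₁).symm (red m h (PL l + (bif b then 1 else 0)))
  let zL : Λ → Bool → ZMod m := fun l b =>
    ((phi j₁).symm (PL l + (bif b then 1 else 0))).2
  have hRz : ∀ l b, phi j₁ (RL l b, zL l b) = PL l + (bif b then 1 else 0) :=
    fun l b => hphi _ _
  let ρ : ZMod h ≃ ZMod h := (π j₁).trans ((Equiv.addRight (1 : ZMod h)).trans (π j₁).symm)
  have hρ : ∀ i, π j₁ (ρ i) = π j₁ i + 1 := by
    intro i
    show π j₁ ((π j₁).symm (π j₁ i + 1)) = _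
    rw [Equiv.apply_symm_apply]
  have hρ1 : ∀ i, ρ i ≠ i := by
    intro i h'
    have := hρ i
    rw [h'] at this
    exact h1h (by linear_combination -this)
  have hρ2 : ∀ i, ρ (ρ i) ≠ i := by
    intro i h'
    have h4 := hρ (ρ i)
    rw [h', hρ i] at h4
    exact h2h (by linear_combination -h4)
  let κL : ZMod h → ZMod m := fun i => ((phi j₁).symm (phi j₁ (i, 0) + 1)).2
  have hκ : ∀ i, phi j₁ (ρ i, κL i) = phi j₁ (i, 0) + 1 := by
    intro i
    have h4 := hphi j₁ (phi j₁ (i, 0) + 1)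
    have h5 : (π j₁).symm (red m h (phi j₁ (i, 0) + 1)) = ρ i := by
      rw [map_add, map_one, ph1]
      rfl
    rw [h5] at h4
    exact h4
  have hone' : ∀ l, PL l + (bif true then (1 : ZMod (m * h)) else 0) =
      phi j₁ (ρ (RL l false), κL (RL l false) + zL l false) := by
    intro l
    rw [ph3, hκ]
    have h4 := hRz l false
    have h5 : phi j₁ (RL l false, zL l false) = phi j₁ (RL l false, 0) + psi m h (zL l false) := by
      rw [← ph3, zero_add]
    rw [h5] at h4
    simp only [cond_false, add_zero] at h4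
    simp only [cond_true]
    rw [← h4]; ring
  have hR : ∀ l, RL l true = ρ (RL l false) := by
    intro l
    have h4 := hRz l true
    rw [hone' l] at h4
    exact congrArg Prod.fst ((phi j₁).injective h4)
  have hz : ∀ l, zL l true = zL l false + κL (RL l false) := by
    intro l
    have h4 := hRz l true
    rw [hone' l] at h4
    have h5 := congrArg Prod.snd ((phi j₁).injective h4)
    have h6 : zL l true = κL (RL l false) + zL l false := h5
    rw [h6]; ring
  have hRne : ∀ l b, RL l (!b) ≠ RL l b := by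
    intro l b
    cases b
    · show RL l true ≠ RL l false
      rw [hR]; exact hρ1 _
    · show RL l false ≠ RL l true
      rw [hR]; exact (hρ1 _).symm
  -- data of the pairs
  have hpair : ∀ k : κ, ∃ (T : Bool → ZMod h → ZMod m) (brk : Bool → Bool → ZMod h → Prop),
      T false (r (Sum.inr (k, false))) = AA (Sum.inr (k, false)) ∧
      T true (r (Sum.inr (k, true))) = AA (Sum.inr (k, true)) ∧
      (∀ b i, Odd (i - r (Sum.inr (k, b))).val → T b (i + 1) = T b i) ∧
      (∀ i, Odd (i - r (Sum.inr (k, false))).val → Odd (i - r (Sum.inr (k, true))).val →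
        T false i ≠ T true i ∧ T false i ≠ -T true i) ∧
      (∀ b b' i, brk b b' i → Odd (i - r (Sum.inr (k, b))).val ∧
        Odd (i - 1 - r (Sum.inr (k, b'))).val ∧ T b i = T b' i) ∧
      (¬ Odd (r (Sum.inr (k, false))).val → ¬ Odd (r (Sum.inr (k, true))).val →
        ∀ b b' i, brk b b' i → i ≠ 0 ∧ i ≠ -1) ∧
      (∀ b i, T b i = d k ∨ T b i = u k) ∧
      (∀ i, (T false i = d k ∧ T true i = u k) ∨ (T false i = u k ∧ T true i = d k) ∨
        (((T false i = d k ∧ T true i = d k) ∨ (T false i = u k ∧ T true i = u k)) ∧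
          (brk false true i ∨ brk true false i))) ∧
      ∃ i₀, ∀ b b' i, brk b b' i → i = i₀ := by
    intro k
    have hdu := hDt (Sum.inr (k, false)) (Sum.inr (k, true)) (by simp)
    have e1 : tyy t d u (Sum.inr (k, false)) = d k := rfl
    have e2 : tyy t d u (Sum.inr (k, true)) = u k := rfl
    rw [e1, e2] at hdu
    apply pair_typesS hh h3 (d k) (u k) hdu.1 hdu.2 _ _ (fun b => r (Sum.inr (k, b)))
    rcases hP k with ⟨h1, h2⟩ | ⟨h1, h2⟩ | ⟨h12, h4⟩
    · exact Or.inl ⟨hAinj _ _ h1, hAinj _ _ h2⟩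
    · exact Or.inr (Or.inl ⟨hAinj _ _ h1, hAinj _ _ h2⟩)
    · refine Or.inr (Or.inr ⟨?_, ?_⟩)
      · rcases h12 with ⟨h1, h2⟩ | ⟨h1, h2⟩
        · exact Or.inl ⟨hAinj _ _ h1, hAinj _ _ h2⟩
        · exact Or.inr ⟨hAinj _ _ h1, hAinj _ _ h2⟩
      · intro h5
        apply h4
        have h6 : red m h (P (Sum.inr (k, false))) = red m h (P (Sum.inr (k, true))) :=
          (π (c (Sum.inr k))).symm.injective h5
        rw [map_sub, h6, sub_self]
  choose T brk g1 g2 g3 g4 g5 g6 g7 g8 ist g9 using hpair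
  let TT : ι ⊕ κ × Bool → ZMod h → ZMod m := fun θ i =>
    Sum.elim t (fun k : κ × Bool => T k.1 k.2 i) θ
  let BR : ι ⊕ κ × Bool → ι ⊕ κ × Bool → ZMod h → Prop := fun θ θ' i =>
    ∃ k b b', θ = Sum.inr (k, b) ∧ θ' = Sum.inr (k, b') ∧ brk k b b' i
  have TTr : ∀ θ, TT θ (r θ) = AA θ := by
    rintro (i | ⟨k, b⟩)
    · exact (hAinj _ _ (hA i)).symm
    · cases b
      · exact g1 k
      · exact g2 k
  have TTty : ∀ θ i, ∃ θ', TT θ i = tyy t d u θ' := by
    rintro (i' | ⟨k, b⟩) i
    · exact ⟨Sum.inl i', rfl⟩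
    · rcases g7 k b i with h1 | h1
      · exact ⟨Sum.inr (k, false), h1⟩
      · exact ⟨Sum.inr (k, true), h1⟩
  have hT1 : ∀ θ i, Odd (i - r θ).val → TT θ (i + 1) = TT θ i := by
    rintro (i | ⟨k, b⟩) j hj
    · rfl
    · exact g3 k b j hj
  have hT2 : ∀ θ θ' i, θ ≠ θ' → Odd (i - r θ).val → Odd (i - r θ').val →
      TT θ i ≠ TT θ' i ∧ TT θ i ≠ -TT θ' i := by
    rintro (i | ⟨k, b⟩) (i' | ⟨k', b'⟩) j hne hj hj'
    · exact hDt (Sum.inl i) (Sum.inl i') hne
    · have e : ∀ z, z = d k' ∨ z = u k' → t i ≠ z ∧ t i ≠ -z := by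
        rintro z (rfl | rfl)
        · exact hDt (Sum.inl i) (Sum.inr (k', false)) (by simp)
        · exact hDt (Sum.inl i) (Sum.inr (k', true)) (by simp)
      exact e _ (g7 k' b' j)
    · have e : ∀ z, z = d k ∨ z = u k → z ≠ t i' ∧ z ≠ -t i' := by
        rintro z (rfl | rfl)
        · exact hDt (Sum.inr (k, false)) (Sum.inl i') (by simp)
        · exact hDt (Sum.inr (k, true)) (Sum.inl i') (by simp)
      exact e _ (g7 k b j)
    · by_cases hk : k = k'
      · subst hk
        have hb : b ≠ b' := by rintro rfl; exact hne rfl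
        cases b <;> cases b'
        · exact absurd rfl hb
        · exact g4 k j hj hj'
        · obtain ⟨q1, q2⟩ := g4 k j hj' hj
          refine ⟨fun h' => q1 h'.symm, fun h' => q2 ?_⟩
          have h'' : T k true j = -T k false j := h'
          rw [h'', neg_neg]
        · exact absurd rfl hb
      · have e : ∀ z z', (z = d k ∨ z = u k) → (z' = d k' ∨ z' = u k') → z ≠ z' ∧ z ≠ -z' := by
          rintro z z' (rfl | rfl) (rfl | rfl)
          · exact hDt (Sum.inr (k, false)) (Sum.inr (k', false)) (by simp [hk])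
          · exact hDt (Sum.inr (k, false)) (Sum.inr (k', true)) (by simp)
          · exact hDt (Sum.inr (k, true)) (Sum.inr (k', false)) (by simp)
          · exact hDt (Sum.inr (k, true)) (Sum.inr (k', true)) (by simp [hk])
        exact e _ _ (g7 k b j) (g7 k' b' j)
  have hb1 : ∀ θ θ' i, BR θ θ' i →
      Odd (i - r θ).val ∧ Odd (i - 1 - r θ').val ∧ TT θ i = TT θ' i := by
    rintro θ θ' i ⟨k, b, b', rfl, rfl, hb⟩
    exact g5 k b b' i hb
  -- threads with leaves
  let clx : Λ ⊕ (ι ⊕ κ × Bool) → J := Sum.elim (fun _ => j₁) cl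
  let rx : (Λ → Bool) → Λ ⊕ (ι ⊕ κ × Bool) → ZMod h := fun V =>
    Sum.elim (fun l => RL l (V l)) r
  let xx : (Λ → Bool) → Λ ⊕ (ι ⊕ κ × Bool) → ZMod m := fun V =>
    Sum.elim (fun l => zL l (V l)) x
  let TX : Λ ⊕ (ι ⊕ κ × Bool) → ZMod h → ZMod m := Sum.elim (fun l _ => a l) TT
  -- the block with the leaves
  have hpos1 : ∃ (V : Λ → Bool) (X : Λ ⊕ (ι ⊕ κ × Bool) → ZMod h → ZMod m)
      (s : ι ⊕ κ × Bool) (σ : ZMod h → Bool), cl s = j₁ ∧
      (∀ k, clx k = j₁ → X k (rx V k) = xx V k) ∧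
      (∀ k i, clx k = j₁ → Odd (i - rx V k).val →
        X k (i + 1) = X k i + if i + 1 = 0 then C j₁ else 0) ∧
      (∀ k l i, clx k = j₁ → clx l = j₁ → k ≠ l → Odd (i - rx V k).val →
        Odd (i - rx V l).val →
        ∀ b b', X k i + (bif b then TX k i else 0) ≠ X l i + (bif b' then TX l i else 0)) ∧
      (∀ k l i, cl k = j₁ → cl l = j₁ → BR k l i →
        IsUnit (X (Sum.inr k) i - X (Sum.inr l) i)) ∧
      (∀ i, Odd (i - r s).val → σ (i + 1) = σ i) ∧ σ (r s) = false ∧
      (r s ≠ -1 → X (Sum.inr s) (-1) + (bif σ (-1) then TT s (-1) else 0) = -C j₁) ∧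
      (r s ≠ 0 → X (Sum.inr s) 0 + (bif σ 0 then TT s 0 else 0) = 0) ∧
      (∀ k b, clx k = j₁ → k ≠ Sum.inr s → Odd (-1 - rx V k).val →
        X k (-1) + (bif b then TX k (-1) else 0) ≠ -C j₁) ∧
      (∀ l, X (Sum.inl l) (RL l (!V l)) ≠ zL l (!V l)) := by
    obtain ⟨i₁, hi₁⟩ := hc j₁
    have hne : Nonempty {θ // cl θ = j₁} := by
      rcases i₁ with i | k
      · exact ⟨⟨Sum.inl i, hi₁⟩⟩
      · exact ⟨⟨Sum.inr (k, false), hi₁⟩⟩
    -- the level of the break
    let i₀ : ZMod h := Sum.elim (fun _ => 0) ist i₁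
    have hi₀ : ∀ (k l : {θ // cl θ = j₁}) i, BR k.1 l.1 i → i = i₀ := by
      rintro ⟨θ, hθ⟩ ⟨θ', hθ'⟩ i ⟨k, b, b', rfl, rfl, hb⟩
      have h4 : Sum.inr k = i₁ := hone _ _ hθ hi₁
      rw [g9 k b b' i hb]
      show ist k = Sum.elim (fun _ => 0) ist i₁
      rw [← h4]
      rfl
    obtain ⟨V, X, s, σ, p1, p2, p3, p4, p5, p6, p7, p8, p9, p10⟩ :=
      leaf_pos m h hm hm5 hh h3 (C j₁) (Θ := {θ // cl θ = j₁}) (fun k i => TT k.1 i)
        (fun k => r k.1) (fun k => x k.1) (fun k l i => BR k.1 l.1 i)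
        (fun k i hi => hT1 k.1 i hi)
        (fun k l i hkl hk hl => hT2 k.1 l.1 i (fun h' => hkl (Subtype.ext h')) hk hl)
        (fun k i => by
          obtain ⟨θ', hθ'⟩ := TTty k.1 i
          rw [hθ']; exact hT0 θ')
        (fun k l i hb => hb1 _ _ i hb)
        (by
          rintro hEv ⟨θ, hθ⟩ ⟨θ', hθ'⟩ i ⟨k, b, b', rfl, rfl, hb⟩
          exact g6 k (hEv ⟨Sum.inr (k, false), hθ⟩) (hEv ⟨Sum.inr (k, true), hθ⟩) b b' i hb)
        i₀ hi₀
        (by
          rintro ⟨θ, hθ⟩ ⟨θ', hθ'⟩ i ⟨k, b, b', rfl, rfl, hb⟩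
          have q1 := ha1 l₀ (Sum.inr (k, false))
          have q2 := ha1 l₀ (Sum.inr (k, true))
          have q3 := hDt (Sum.inr (k, false)) (Sum.inr (k, true)) (by simp)
          exact seven_le hm (ha0 l₀) (hT0 (Sum.inr (k, false))) (hT0 (Sum.inr (k, true)))
            q1.1 q1.2 q2.1 q2.2 q3.1 q3.2)
        a ha0
        (fun l k i => by
          obtain ⟨θ', hθ'⟩ := TTty k.1 i
          rw [hθ']; exact ha1 l θ')
        ha2 RL zL ρ hρ1 hρ2 κL hR hz
    -- extension to all threads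
    let sub : ∀ k : Λ ⊕ (ι ⊕ κ × Bool), clx k = j₁ → Λ ⊕ {θ // cl θ = j₁} := fun k hk =>
      match k, hk with
      | Sum.inl l, _ => Sum.inl l
      | Sum.inr θ, hθ => Sum.inr ⟨θ, hθ⟩
    let X' : Λ ⊕ (ι ⊕ κ × Bool) → ZMod h → ZMod m := fun k i =>
      if hk : clx k = j₁ then X (sub k hk) i else 0
    have hX' : ∀ k (hk : clx k = j₁) i, X' k i = X (sub k hk) i := fun k hk i => dif_pos hk
    have hX'l : ∀ l i, X' (Sum.inl l) i = X (Sum.inl l) i := fun l i => hX' _ rfl i
    have hX'r : ∀ (θ : {θ // cl θ = j₁}) i, X' (Sum.inr θ.1) i = X (Sum.inr θ) i :=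
      fun θ i => hX' (Sum.inr θ.1) θ.2 i
    have sub_r : ∀ k (hk : clx k = j₁),
        (Sum.elim (fun l => RL l (V l)) (fun k : {θ // cl θ = j₁} => r k.1) (sub k hk)) =
          rx V k := by
      rintro (l | θ) hk
      · rfl
      · rfl
    have sub_x : ∀ k (hk : clx k = j₁),
        (Sum.elim (fun l => zL l (V l)) (fun k : {θ // cl θ = j₁} => x k.1) (sub k hk)) =
          xx V k := by
      rintro (l | θ) hk
      · rfl
      · rfl
    have sub_T : ∀ k (hk : clx k = j₁) i,
        (Sum.elim (fun l _ => a l) (fun (k : {θ // cl θ = j₁}) i => TT k.1 i) (sub k hk) i :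
          ZMod m) = TX k i := by
      rintro (l | θ) hk i
      · rfl
      · rfl
    have sub_ne : ∀ k l (hk : clx k = j₁) (hl : clx l = j₁), k ≠ l → sub k hk ≠ sub l hl := by
      rintro (l | θ) (l' | θ') hk hl hne' h'
      · exact hne' (congrArg Sum.inl (Sum.inl_injective h'))
      · exact absurd h' (by simp [sub])
      · exact absurd h' (by simp [sub])
      · exact hne' (congrArg Sum.inr (congrArg Subtype.val (Sum.inr_injective h')))
    refine ⟨V, X', s.1, σ, s.2, ?_, ?_, ?_, ?_, p5, p6, ?_, ?_, ?_, ?_⟩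
    · intro k hk
      rw [hX' k hk, ← sub_r k hk, ← sub_x k hk]
      exact p1 _
    · intro k i hk hi
      rw [hX' k hk, hX' k hk]
      apply p2
      rw [sub_r]; exact hi
    · intro k l i hk hl hkl hi hi' b b'
      rw [hX' k hk, hX' l hl, ← sub_T k hk, ← sub_T l hl]
      apply p3 _ _ i (sub_ne k l hk hl hkl)
      · rw [sub_r]; exact hi
      · rw [sub_r]; exact hi'
    · intro k l i hk hl hb
      have e1 := hX'r ⟨k, hk⟩ i
      have e2 := hX'r ⟨l, hl⟩ i
      rw [e1, e2]
      exact p4 _ _ i hb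
    · intro hr
      rw [hX'r s]; exact p7 hr
    · intro hr
      rw [hX'r s]; exact p8 hr
    · intro k b hk hks hi
      rw [hX' k hk, ← sub_T k hk]
      apply p9
      · intro h'
        apply hks
        rcases k with l | θ
        · exact absurd h' (by simp [sub])
        · have h5 : (⟨θ, hk⟩ : {θ // cl θ = j₁}) = s := Sum.inr_injective h'
          rw [← h5]
      · rw [sub_r]; exact hi
    · intro l
      rw [hX'l]
      exact p10 l
  obtain ⟨V, hpos1⟩ := hpos1
  -- all blocks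
  have hpos : ∀ j : J, ∃ (X : Λ ⊕ (ι ⊕ κ × Bool) → ZMod h → ZMod m)
      (s : ι ⊕ κ × Bool) (σ : ZMod h → Bool), cl s = j ∧
      (∀ k, clx k = j → X k (rx V k) = xx V k) ∧
      (∀ k i, clx k = j → Odd (i - rx V k).val →
        X k (i + 1) = X k i + if i + 1 = 0 then C j else 0) ∧
      (∀ k l i, clx k = j → clx l = j → k ≠ l → Odd (i - rx V k).val →
        Odd (i - rx V l).val →
        ∀ b b', X k i + (bif b then TX k i else 0) ≠ X l i + (bif b' then TX l i else 0)) ∧
      (∀ k l i, cl k = j → cl l = j → BR k l i →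
        IsUnit (X (Sum.inr k) i - X (Sum.inr l) i)) ∧
      (∀ i, Odd (i - r s).val → σ (i + 1) = σ i) ∧ σ (r s) = false ∧
      (r s ≠ -1 → X (Sum.inr s) (-1) + (bif σ (-1) then TT s (-1) else 0) = -C j) ∧
      (r s ≠ 0 → X (Sum.inr s) 0 + (bif σ 0 then TT s 0 else 0) = 0) ∧
      (∀ k b, clx k = j → k ≠ Sum.inr s → Odd (-1 - rx V k).val →
        X k (-1) + (bif b then TX k (-1) else 0) ≠ -C j) ∧
      (j = j₁ → ∀ l, X (Sum.inl l) (RL l (!V l)) ≠ zL l (!V l)) := by
    intro j
    by_cases hj : j = j₁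
    · subst hj
      obtain ⟨X, s, σ, p0, p1, p2, p3, p4, p5, p6, p7, p8, p9, p10⟩ := hpos1
      exact ⟨X, s, σ, p0, p1, p2, p3, p4, p5, p6, p7, p8, p9, fun _ => p10⟩
    · have hne : Nonempty {θ // cl θ = j} := by
        obtain ⟨i | k, hi⟩ := hc j
        · exact ⟨⟨Sum.inl i, hi⟩⟩
        · exact ⟨⟨Sum.inr (k, false), hi⟩⟩
      obtain ⟨X, s, p1, p2, p3, p4, p5, p6, p7⟩ :=
        core_pos m h hm hh h3 (C j) (Θ := {θ // cl θ = j}) (fun k i => TT k.1 i)
          (fun k => r k.1) (fun k => x k.1) (fun k l i => BR k.1 l.1 i)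
          (fun k i hi => hT1 k.1 i hi)
          (fun k l i hkl hk hl => hT2 k.1 l.1 i (fun h' => hkl (Subtype.ext h')) hk hl)
          (fun k l i hb => hb1 _ _ i hb)
          (by
            rintro hEv ⟨θ, hθ⟩ ⟨θ', hθ'⟩ i ⟨k, b, b', rfl, rfl, hb⟩
            exact g6 k (hEv ⟨Sum.inr (k, false), hθ⟩) (hEv ⟨Sum.inr (k, true), hθ⟩) b b' i hb)
      have nl : ∀ l : Λ, clx (Sum.inl l) ≠ j := fun l h' => hj h'.symm
      let X' : Λ ⊕ (ι ⊕ κ × Bool) → ZMod h → ZMod m := fun k i =>
        Sum.elim (fun _ => 0) (fun θ => if hθ : cl θ = j then X ⟨θ, hθ⟩ i else 0) k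
      have hX'r : ∀ (θ : {θ // cl θ = j}) i, X' (Sum.inr θ.1) i = X θ i :=
        fun θ i => dif_pos θ.2
      refine ⟨X', s.1, fun _ => false, s.2, ?_, ?_, ?_, ?_, fun _ _ => rfl, rfl, ?_, ?_, ?_,
        fun h' => absurd h' hj⟩
      · rintro (l | θ) hk
        · exact absurd hk (nl l)
        · rw [hX'r ⟨θ, hk⟩]; exact p1 _
      · rintro (l | θ) i hk hi
        · exact absurd hk (nl l)
        · rw [hX'r ⟨θ, hk⟩, hX'r ⟨θ, hk⟩]; exact p2 _ i hi
      · rintro (l | θ) (l' | θ') i hk hk' hne' hi hi' b b'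
        · exact absurd hk (nl l)
        · exact absurd hk (nl l)
        · exact absurd hk' (nl l')
        · rw [hX'r ⟨θ, hk⟩, hX'r ⟨θ', hk'⟩]
          exact p3 ⟨θ, hk⟩ ⟨θ', hk'⟩ i
            (fun h' => hne' (congrArg Sum.inr (congrArg Subtype.val h'))) hi hi' b b'
      · intro θ θ' i hk hk' hb
        rw [hX'r ⟨θ, hk⟩, hX'r ⟨θ', hk'⟩]
        exact p4 _ _ i hb
      · intro hr
        rw [hX'r s, p5 hr]
        show -C j + 0 = -C j
        rw [add_zero]
      · intro hr
        rw [hX'r s, p6 hr]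
        show (0 : ZMod m) + 0 = 0
        rw [add_zero]
      · rintro (l | θ) b hk hks hi
        · exact absurd hk (nl l)
        · rw [hX'r ⟨θ, hk⟩]
          exact p7 ⟨θ, hk⟩ b (fun h' => hks (congrArg Sum.inr (congrArg Subtype.val h'))) hi
  choose X s σ p0 p1 p2 p3 p4 p5 p6 p7 p8 p9 p10 using hpos
  -- the ends of the holes
  let sg : Λ ⊕ (ι ⊕ κ × Bool) → ZMod h → Bool := fun k i =>
    Sum.elim (fun _ => false) (fun θ => if θ = s (cl θ) then σ (cl θ) i else false) k
  let ee0 : Λ ⊕ (ι ⊕ κ × Bool) → Bool → ZMod h → ZMod (m * h) := fun k b y =>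
    phi (clx k) ((π (clx k)).symm y, X (clx k) k ((π (clx k)).symm y) +
      (bif b then TX k ((π (clx k)).symm y) else 0))
  let ee : Λ ⊕ (ι ⊕ κ × Bool) → Bool → ZMod h → ZMod (m * h) := fun k b y =>
    ee0 k (xor (sg k ((π (clx k)).symm y)) b) y
  have hee : ∀ j k, clx k = j → ∀ b i,
      ee k b (π j i) = phi j (i, X j k i + (bif xor (sg k i) b then TX k i else 0)) := by
    rintro j k rfl b i
    show phi (clx k) ((π (clx k)).symm (π (clx k) i), _) = _
    rw [Equiv.symm_apply_apply]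
  have red_ee0 : ∀ k b y, red m h (ee0 k b y) = y := by
    intro k b y
    show red m h (phi (clx k) _) = y
    rw [ph1]
    exact Equiv.apply_symm_apply _ _
  have red_ee : ∀ k b y, red m h (ee k b y) = y := fun k b y => red_ee0 k _ y
  have sg_s : ∀ j i, sg (Sum.inr (s j)) i = σ j i := by
    intro j i
    show (if s j = s (cl (s j)) then σ (cl (s j)) i else false) = σ j i
    rw [p0 j, if_pos rfl]
  have sg_ne : ∀ j k, clx k = j → k ≠ Sum.inr (s j) → ∀ i, sg k i = false := by
    rintro j (l | θ) hk hne i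
    · rfl
    · have hk' : cl θ = j := hk
      show (if θ = s (cl θ) then σ (cl θ) i else false) = false
      rw [hk', if_neg (fun h' => hne (congrArg Sum.inr h'))]
  have sg_r : ∀ k, sg k (rx V k) = false := by
    rintro (l | θ)
    · rfl
    · show (if θ = s (cl θ) then σ (cl θ) (r θ) else false) = false
      by_cases hθ : θ = s (cl θ)
      · rw [if_pos hθ]
        have := p6 (cl θ)
        rwa [← hθ] at this
      · rw [if_neg hθ]
  -- the systems of the classes
  let sec : ZMod h → ZMod (m * h) := fun y => ((y.val : ℕ) : ZMod (m * h))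
  have red_sec : ∀ y, red m h (sec y) = y := by
    intro y
    show red m h ((y.val : ℕ) : ZMod (m * h)) = y
    rw [map_natCast, ZMod.natCast_zmod_val]
  have hPP : ∀ k y, ∃ z, ee0 k false y - sec y = psi m h z := by
    intro k y
    exact exists_psi m h (by rw [map_sub, red_ee0, red_sec, sub_self])
  choose PP hPP using hPP
  have ee_sec : ∀ k b y, ee0 k b y = sec y + psi m h (PP k y +
      (bif b then TX k ((π (clx k)).symm y) else 0)) := by
    intro k b y
    have h1 : ee0 k false y = sec y + psi m h (PP k y) := by rw [← hPP]; ring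
    cases b
    · simp only [cond_false, add_zero]; exact h1
    · simp only [cond_true]
      rw [map_add, ← add_assoc, ← h1]
      show phi (clx k) (_, X (clx k) k _ + TX k _) = phi (clx k) (_, _ + 0) + _
      rw [ph3, add_zero]
  have TSl : ∀ (y : ZMod h) (l : Λ), TS {v | red m h v = y}
      (DE (fun δ' => ∃ δ, δ = a l ∧ δ' = psi m h δ)) (fun (_ : Unit) b => ee (Sum.inl l) b y) := by
    intro y l
    have h1 := cyc_unit hm (by omega) (a l) (PP (Sum.inl l) y) (ha l)
    refine (coset_TS (by omega) (fun _ : Unit => PP (Sum.inl l) y) (fun _ => a l) h1 y (sec y)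
      (red_sec y)).congr ?_
    intro _ b
    have e : ee (Sum.inl l) b y = ee0 (Sum.inl l) b y := by
      show ee0 (Sum.inl l) (xor false b) y = _
      rw [Bool.false_xor]
    rw [e, ee_sec]
    rfl
  have TSa : ∀ y : ZMod h, TS {v | red m h v = y}
      (DE (fun δ' => ∃ δ, FD t d u δ ∧ δ' = psi m h δ)) (fun θ b => ee (Sum.inr θ) b y) := by
    intro y
    have h1 := hG (fun θ => PP (Sum.inr θ) y) (fun θ => TT θ ((π (cl θ)).symm y))
      (fun _ => rfl) (by
      intro k
      set i := (π (c (Sum.inr k))).symm y with hi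
      rcases g8 k i with h1 | h1 | ⟨h1, h2⟩
      · exact Or.inl h1
      · exact Or.inr (Or.inl h1)
      · refine Or.inr (Or.inr ⟨h1, ?_⟩)
        have hdiff : PP (Sum.inr (Sum.inr (k, true))) y - PP (Sum.inr (Sum.inr (k, false))) y =
            X (c (Sum.inr k)) (Sum.inr (Sum.inr (k, true))) i -
            X (c (Sum.inr k)) (Sum.inr (Sum.inr (k, false))) i := by
          apply hinj
          rw [map_sub, map_sub, ← hPP, ← hPP]
          have e1 : ∀ b, ee0 (Sum.inr (Sum.inr (k, b))) false y = phi (c (Sum.inr k))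
              (i, 0 + X (c (Sum.inr k)) (Sum.inr (Sum.inr (k, b))) i) := by
            intro b
            show phi (c (Sum.inr k)) (i, X (c (Sum.inr k)) (Sum.inr (Sum.inr (k, b))) i + 0) = _
            rw [add_zero, zero_add]
          rw [e1, e1, ph3, ph3]
          ring
        show Q (PP (Sum.inr (Sum.inr (k, true))) y - PP (Sum.inr (Sum.inr (k, false))) y)
        rw [hdiff]
        rcases h2 with h2 | h2
        · have := p4 (c (Sum.inr k)) (Sum.inr (k, false)) (Sum.inr (k, true)) i rfl rfl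
            ⟨k, false, true, rfl, rfl, h2⟩
          have e : X (c (Sum.inr k)) (Sum.inr (Sum.inr (k, true))) i -
              X (c (Sum.inr k)) (Sum.inr (Sum.inr (k, false))) i =
              -(X (c (Sum.inr k)) (Sum.inr (Sum.inr (k, false))) i -
              X (c (Sum.inr k)) (Sum.inr (Sum.inr (k, true))) i) := by ring
          rw [e]
          exact hQ _ this.neg
        · exact hQ _ (p4 (c (Sum.inr k)) (Sum.inr (k, true)) (Sum.inr (k, false)) i rfl rfl
            ⟨k, true, false, rfl, rfl, h2⟩))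
    have h2 := coset_TS (h := h) (by omega) (fun θ => PP (Sum.inr θ) y)
      (fun θ => TT θ ((π (cl θ)).symm y)) (h1.congr (fun _ _ => rfl)) y (sec y) (red_sec y)
    refine (h2.swap (fun θ => sg (Sum.inr θ) ((π (cl θ)).symm y))).congr ?_
    intro θ b
    show ee0 (Sum.inr θ) (xor (sg (Sum.inr θ) ((π (cl θ)).symm y)) b) y = _
    rw [ee_sec]
    rfl
  choose Ml l1 l2 l3 l4 l5 using TSl
  choose M m1 m2 m3 m4 m5 using TSa
  let MX : ZMod h → Λ ⊕ (ι ⊕ κ × Bool) → Bool → ZMod (m * h) → ZMod (m * h) → Prop :=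
    fun y k b => Sum.elim (fun l => Ml y l () b) (fun θ => M y θ b) k
  have x1 : ∀ y k b v v', MX y k b v v' → MX y k b v' v := by
    rintro y (l | θ) b v v' hM
    · exact l1 y l () b v v' hM
    · exact m1 y θ b v v' hM
  have x2 : ∀ y k b v v', MX y k b v v' → red m h v = y ∧ red m h v' = y := by
    rintro y (l | θ) b v v' hM
    · exact l2 y l () b v v' hM
    · exact m2 y θ b v v' hM
  have x3 : ∀ y k b v v' v'', MX y k b v v' → MX y k b v v'' → v' = v'' := by
    rintro y (l | θ) b v v' v'' hM hM'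
    · exact l3 y l () b v v' v'' hM hM'
    · exact m3 y θ b v v' v'' hM hM'
  have x4 : ∀ y k b v, ¬ MX y k b (ee k b y) v := by
    rintro y (l | θ) b v hM
    · exact l4 y l () b v hM
    · exact m4 y θ b v hM
  -- the edges of a block
  let Eb : J → ZMod (m * h) → ZMod (m * h) → Prop := fun j v v' =>
    red m h v = red m h v' ∧ ((∃ k, clx k = j ∧ ∃ b, MX (red m h v) k b v v') ∨
      ∃ k, clx k = j ∧ ((v = ee k false (red m h v) ∧ v' = ee k true (red m h v)) ∨
        (v = ee k true (red m h v) ∧ v' = ee k false (red m h v))))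
  let F : J → ZMod (m * h) ≃ ZMod (m * h) := fun j =>
    (phi j).symm.trans ((stpE (C j)).trans (phi j))
  have hF : ∀ j v, F j v = v + W j ((π j).symm (red m h v)) := by
    intro j v
    show phi j (stp (C j) ((phi j).symm v)) = _
    rw [ph2, Equiv.apply_symm_apply, hfst]
  have hidxF : ∀ j v, (π j).symm (red m h (F j v)) = (π j).symm (red m h v) + 1 := by
    intro j v
    show (π j).symm (red m h (phi j (stp (C j) ((phi j).symm v)))) = _
    rw [ph1, Equiv.symm_apply_apply]
    show ((phi j).symm v).1 + 1 = _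
    rw [hfst]
  have hFw : ∀ j, F j (w j) = phi j (0, 0) := by
    intro j
    rw [hF, hw, Equiv.symm_apply_apply, ph5]
  -- the marked edges
  let gu : Λ ⊕ (ι ⊕ κ × Bool) → ZMod (m * h) :=
    Sum.elim (fun l => PL l + (bif V l then 0 else 1)) (fun _ => 0)
  let gv : Λ ⊕ (ι ⊕ κ × Bool) → ZMod (m * h) :=
    Sum.elim (fun l => PL l + psi m h (a l) + (bif V l then 0 else 1)) (fun _ => 0)
  have hgu : ∀ l, gu (Sum.inl l) = phi j₁ (RL l (!V l), zL l (!V l)) := by
    intro l
    rw [hRz]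
    show PL l + (bif V l then 0 else 1) = PL l + (bif (!V l) then 1 else 0)
    cases V l <;> rfl
  have hgv : ∀ l, gv (Sum.inl l) = phi j₁ (RL l (!V l), zL l (!V l) + a l) := by
    intro l
    rw [ph3, ← hgu]
    show PL l + psi m h (a l) + (bif V l then 0 else 1) =
      PL l + (bif V l then 0 else 1) + psi m h (a l)
    ring
  have red_gu : ∀ l, (π j₁).symm (red m h (gu (Sum.inl l))) = RL l (!V l) := by
    intro l
    rw [hgu, ph1, Equiv.symm_apply_apply]
  have blk : ∀ j, TSM Set.univ (fun v v' => ((π j).symm (red m h v) = (π j).symm (red m h v') ∧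
        Eb j v v') ∨ v' = F j v ∨ v = F j v')
      (fun (k : Option {k // clx k = j}) b => k.elim (bif b then F j (w j) else w j)
        (fun k => ee k.1 b (π j (rx V k.1))))
      (fun k v v' => ∃ k' : {k // clx k = j}, k = some k' ∧ (∃ l, k'.1 = Sum.inl l) ∧
        v = gu k'.1 ∧ v' = gv k'.1) := by
    intro j
    refine glue_leaf hh h3 (F j) (fun v => (π j).symm (red m h v)) (hidxF j) (Eb j)
      (fun k : {k // clx k = j} => rx V k.1) (fun k b i => ee k.1 b (π j i)) ?_ ?_ ?_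
      (fun i k b => MX (π j i) k.1 b) (fun i k b => x1 _ _ _) ?_ (fun i k b => x3 _ _ _)
      (fun i k b => x4 _ _ _) ?_ ⟨Sum.inr (s j), p0 j⟩ (w j)
      ?_ ?_ ?_ ?_ (fun k => ∃ l, k.1 = Sum.inl l) ?_ (fun k => gu k.1) (fun k => gv k.1) ?_ ?_
    · intro k b i
      show (π j).symm (red m h (ee k.1 b (π j i))) = i
      rw [red_ee, Equiv.symm_apply_apply]
    · rintro ⟨k, hk⟩ b i hi
      show ee k b (π j (i + 1)) = F j (ee k b (π j i))
      rw [hee j k hk, hee j k hk]
      have hsg : sg k (i + 1) = sg k i := by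
        by_cases hks : k = Sum.inr (s j)
        · rw [hks, sg_s, sg_s]
          apply p5 j i
          have hi' : Odd (i - rx V k).val := hi
          rw [hks] at hi'
          exact hi'
        · rw [sg_ne j k hk hks, sg_ne j k hk hks]
      have hTX : TX k (i + 1) = TX k i := by
        rcases k with l | θ
        · rfl
        · exact hT1 θ i hi
      have h1 : F j (phi j (i, X j k i + (bif xor (sg k i) b then TX k i else 0))) =
          phi j (stp (C j) (i, X j k i + (bif xor (sg k i) b then TX k i else 0))) := by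
        show phi j (stp (C j) ((phi j).symm (phi j _))) = _
        rw [Equiv.symm_apply_apply]
      rw [h1]
      congr 1
      show (i + 1, X j k (i + 1) + (bif xor (sg k (i + 1)) b then TX k (i + 1) else 0)) =
        (i + 1, X j k i + (bif xor (sg k i) b then TX k i else 0) + if i + 1 = 0 then C j else 0)
      rw [p2 j k i hk hi, hsg, hTX]
      congr 1
      ring
    · rintro ⟨k, hk⟩ ⟨l, hl⟩ i hkl hi hi' b b' h1
      have h2 : ee k b (π j i) = ee l b' (π j i) := h1
      rw [hee j k hk, hee j l hl] at h2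
      have h3' := (phi j).injective h2
      exact p3 j k l i hk hl (fun h' => hkl (Subtype.ext h')) hi hi' _ _ (congrArg Prod.snd h3')
    · intro i k b v v' hM
      obtain ⟨a1, a2⟩ := x2 _ _ _ _ _ hM
      refine ⟨?_, ?_⟩
      · show (π j).symm (red m h v) = i
        rw [a1, Equiv.symm_apply_apply]
      · show (π j).symm (red m h v') = i
        rw [a2, Equiv.symm_apply_apply]
    · intro i v hv v' hv' hEb
      have hv1 : (π j).symm (red m h v) = i := hv
      have hv2 : red m h v = π j i := by rw [← hv1, Equiv.apply_symm_apply]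
      rcases hEb.2 with ⟨k, hk, b, hM⟩ | ⟨k, hk, h1⟩
      · right
        rw [hv2] at hM
        exact ⟨⟨k, hk⟩, b, hM⟩
      · left
        rw [hv2] at h1
        exact ⟨⟨k, hk⟩, h1⟩
    · show (π j).symm (red m h (w j)) = -1
      rw [hw, Equiv.symm_apply_apply]
    · intro hr
      show ee (Sum.inr (s j)) false (π j (-1)) = w j
      rw [hee j (Sum.inr (s j)) (p0 j), sg_s, Bool.xor_false]
      have h4 := p7 j hr
      show phi j (-1, X j (Sum.inr (s j)) (-1) + (bif σ j (-1) then TT (s j) (-1) else 0)) = w j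
      rw [h4, ph4]
    · intro hr
      show ee (Sum.inr (s j)) false (π j 0) = F j (w j)
      rw [hee j (Sum.inr (s j)) (p0 j), sg_s, Bool.xor_false, hFw]
      have h4 := p8 j hr
      show phi j (0, X j (Sum.inr (s j)) 0 + (bif σ j 0 then TT (s j) 0 else 0)) = _
      rw [h4]
    · rintro ⟨k, hk⟩ b hks hodd h1
      have hks' : k ≠ Sum.inr (s j) := fun h' => hks (Subtype.ext h')
      have h2 : ee k b (π j (-1)) = w j := h1
      rw [hee j k hk, sg_ne j k hk hks', Bool.false_xor, ← ph4 j] at h2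
      exact p9 j k b hk hks' hodd (congrArg Prod.snd ((phi j).injective h2))
    · rintro ⟨l, hl⟩
      exact absurd hl (by simp)
    · rintro ⟨k, hk⟩ ⟨l, rfl⟩
      have hj : j₁ = j := hk
      subst hj
      show (π j₁).symm (red m h (gu (Sum.inl l))) ≠ RL l (V l)
      rw [red_gu]
      exact hRne l _
    · rintro ⟨k, hk⟩ ⟨l, rfl⟩
      have hj : j₁ = j := hk
      subst hj
      show ∃ b, MX (π j₁ ((π j₁).symm (red m h (gu (Sum.inl l))))) (Sum.inl l) b
        (gu (Sum.inl l)) (gv (Sum.inl l))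
      rw [Equiv.apply_symm_apply]
      have hgr : red m h (gv (Sum.inl l)) = red m h (gu (Sum.inl l)) := by
        rw [hgu, hgv, ph1, ph1]
      have e0 : red m h (gu (Sum.inl l)) = π j₁ (RL l (!V l)) := by rw [hgu, ph1]
      have hol : ∀ b, ee (Sum.inl l) b (red m h (gu (Sum.inl l))) = phi j₁ (RL l (!V l),
          X j₁ (Sum.inl l) (RL l (!V l)) + (bif b then a l else 0)) := by
        intro b
        rw [e0, hee j₁ (Sum.inl l) rfl]
        show phi j₁ (RL l (!V l), X j₁ (Sum.inl l) (RL l (!V l)) +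
          (bif xor false b then a l else 0)) = _
        rw [Bool.false_xor]
      have hX10 := p10 j₁ rfl l
      rcases l5 (red m h (gu (Sum.inl l))) l (gu (Sum.inl l)) rfl (gv (Sum.inl l)) hgr
        ⟨psi m h (a l), ⟨a l, rfl, rfl⟩, Or.inl (by
          show PL l + psi m h (a l) + (bif V l then 0 else 1) =
            PL l + (bif V l then 0 else 1) + psi m h (a l)
          ring)⟩ with ⟨_, ⟨h4, h5⟩ | ⟨h4, h5⟩⟩ | ⟨_, b, h4⟩
      · exfalso
        have h6 : gu (Sum.inl l) = phi j₁ (RL l (!V l), X j₁ (Sum.inl l) (RL l (!V l)) + 0) :=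
          h4.trans (hol false)
        rw [hgu] at h6
        have h7 := congrArg Prod.snd ((phi j₁).injective h6)
        apply hX10
        have h8 : zL l (!V l) = X j₁ (Sum.inl l) (RL l (!V l)) + 0 := h7
        rw [h8, add_zero]
      · exfalso
        have h6 : gu (Sum.inl l) = phi j₁ (RL l (!V l), X j₁ (Sum.inl l) (RL l (!V l)) + a l) :=
          h4.trans (hol true)
        have h6' : gv (Sum.inl l) = phi j₁ (RL l (!V l), X j₁ (Sum.inl l) (RL l (!V l)) + 0) :=
          h5.trans (hol false)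
        rw [hgu] at h6
        rw [hgv] at h6'
        have h7 : zL l (!V l) = X j₁ (Sum.inl l) (RL l (!V l)) + a l :=
          congrArg Prod.snd ((phi j₁).injective h6)
        have h7' : zL l (!V l) + a l = X j₁ (Sum.inl l) (RL l (!V l)) + 0 :=
          congrArg Prod.snd ((phi j₁).injective h6')
        apply h2a l
        linear_combination h7' - h7
      · exact ⟨b, h4⟩
  -- the union of the blocks
  let τ : Λ ⊕ (J ⊕ (ι ⊕ κ × Bool)) ≃ Σ j, Option {k // clx k = j} :=
    { toFun := Sum.elim (fun l => ⟨j₁, some ⟨Sum.inl l, rfl⟩⟩)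
        (Sum.elim (fun j => ⟨j, none⟩) (fun θ => ⟨cl θ, some ⟨Sum.inr θ, rfl⟩⟩))
      invFun := fun p => p.2.elim (Sum.inr (Sum.inl p.1))
        (fun k => Sum.elim (fun l => Sum.inl l) (fun θ => Sum.inr (Sum.inr θ)) k.1)
      left_inv := by
        rintro (l | j | θ)
        · rfl
        · rfl
        · rfl
      right_inv := by
        rintro ⟨j, _ | ⟨l | θ, rfl⟩⟩
        · rfl
        · rfl
        · rfl }
  refine ⟨V, (((TSM.sigma blk).reindex τ).mono ?_ ?_).congr ?_⟩
  · rintro v - v' - (h1 | ⟨j, h1 | h1⟩)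
    · obtain ⟨δ', hδ', h2⟩ := h1
      have h0 : red m h δ' = 0 := by
        rcases hδ' with ⟨i, hi⟩ | ⟨k, hk | hk⟩
        · rw [hi]; exact red_psi m h _
        · rw [hk]; exact red_psi m h _
        · rw [hk]; exact red_psi m h _
      have hred : red m h v = red m h v' := by
        rcases h2 with h2 | h2
        · rw [h2, map_add, h0, add_zero]
        · rw [h2, map_add, h0, add_zero]
      have hnl : (∃ δ, FD t d u δ ∧ δ' = psi m h δ) →
          ∃ j, ((π j).symm (red m h v) = (π j).symm (red m h v') ∧ Eb j v v') ∨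
            v' = F j v ∨ v = F j v' := by
        intro h4
        rcases m5 (red m h v) v rfl v' hred.symm ⟨δ', h4, h2⟩ with ⟨θ, hθ⟩ | ⟨θ, b, hM⟩
        · exact ⟨cl θ, Or.inl ⟨by rw [hred], hred, Or.inr ⟨Sum.inr θ, rfl, hθ⟩⟩⟩
        · exact ⟨cl θ, Or.inl ⟨by rw [hred], hred, Or.inl ⟨Sum.inr θ, rfl, b, hM⟩⟩⟩
      rcases hδ' with ⟨l | i, hi⟩ | ⟨k, hk | hk⟩
      · rcases l5 (red m h v) l v rfl v' hred.symm ⟨δ', ⟨a l, rfl, hi⟩, h2⟩ with
          ⟨_, hθ⟩ | ⟨_, b, hM⟩
        · exact ⟨j₁, Or.inl ⟨by rw [hred], hred, Or.inr ⟨Sum.inl l, rfl, hθ⟩⟩⟩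
        · exact ⟨j₁, Or.inl ⟨by rw [hred], hred, Or.inl ⟨Sum.inl l, rfl, b, hM⟩⟩⟩
      · exact hnl ⟨t i, Or.inl ⟨i, rfl⟩, hi⟩
      · exact hnl ⟨d k, Or.inr ⟨k, Or.inl rfl⟩, hk⟩
      · exact hnl ⟨u k, Or.inr ⟨k, Or.inr rfl⟩, hk⟩
    · rcases hE j v v' h1 with h2 | h2
      · exact ⟨j, Or.inr (Or.inl (by rw [hF]; exact h2))⟩
      · exact ⟨j, Or.inr (Or.inr (by rw [hF]; exact h2))⟩
    · rcases hE j v' v h1 with h2 | h2
      · exact ⟨j, Or.inr (Or.inr (by rw [hF]; exact h2))⟩
      · exact ⟨j, Or.inr (Or.inl (by rw [hF]; exact h2))⟩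
  · rintro (l | k) v v' hmk
    · exact ⟨⟨Sum.inl l, rfl⟩, rfl, ⟨l, rfl⟩, hmk.1, hmk.2⟩
    · exact hmk.elim
  · rintro (l | j | θ) b
    · show (bif b then PL l + psi m h (a l) else PL l) + (bif V l then 1 else 0) =
        ee (Sum.inl l) b (π j₁ (RL l (V l)))
      rw [hee j₁ (Sum.inl l) rfl]
      have h4 : X j₁ (Sum.inl l) (RL l (V l)) = zL l (V l) := p1 j₁ (Sum.inl l) rfl
      rw [h4]
      show _ = phi j₁ (RL l (V l), zL l (V l) + (bif xor false b then a l else 0))
      rw [Bool.false_xor, ph3, hRz]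
      cases b
      · simp only [cond_false, map_zero, add_zero]
      · simp only [cond_true]
        ring
    · show (bif b then w' j else w j) = (bif b then F j (w j) else w j)
      rw [hF, hw, Equiv.symm_apply_apply, hw']
    · show fh P A θ b = ee (Sum.inr θ) b (π (cl θ) (r θ))
      rw [hee (cl θ) (Sum.inr θ) rfl]
      have h4 : X (cl θ) (Sum.inr θ) (r θ) = x θ := p1 (cl θ) (Sum.inr θ) rfl
      have h5 : sg (Sum.inr θ) (r θ) = false := sg_r (Sum.inr θ)
      rw [h4, h5, Bool.false_xor]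
      show P θ + (bif b then A θ else 0) = phi (cl θ) (r θ, x θ + (bif b then TT θ (r θ) else 0))
      rw [TTr]
      cases b
      · simp only [cond_false, add_zero]
        exact (hrx θ).symm
      · simp only [cond_true]
        rw [ph3, hrx, hAA θ]

end Pool.Agent.P45
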