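import Pool.Agent.Lib.P45dba8.LeafPos
import Pool.Agent.Lib.P45dba8.GlueM
import Pool.Agent.Lib.P45dba8.Joint
import Pool.Agent.Lib.P45dba8.Hub6

/-! # Joint hosting with leaves: preparations -/

set_option autoImplicit false

namespace Pool.Agent.P45

section pairtypes

variable {h : ℕ} (ho : Odd h) (h3 : 3 ≤ h)
include ho h3

theorem pair_typesS {m : ℕ} (d u : ZMod m) (hdu : d ≠ u) (hdu' : d ≠ -u) (a a' : ZMod m)
    (r : Bool → ZMod h)
    (had : (a = d ∧ a' = u) ∨ (a = u ∧ a' = d) ∨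
      (((a = d ∧ a' = d) ∨ (a = u ∧ a' = u)) ∧ r false ≠ r true)) :
    ∃ (T : Bool → ZMod h → ZMod m) (brk : Bool → Bool → ZMod h → Prop),
      T false (r false) = a ∧ T true (r true) = a' ∧
      (∀ b i, Odd (i - r b).val → T b (i + 1) = T b i) ∧
      (∀ i, Odd (i - r false).val → Odd (i - r true).val →
        T false i ≠ T true i ∧ T false i ≠ -T true i) ∧
      (∀ b b' i, brk b b' i → Odd (i - r b).val ∧ Odd (i - 1 - r b').val ∧ T b i = T b' i) ∧
      (¬ Odd (r false).val → ¬ Odd (r true).val → ∀ b b' i, brk b b' i → i ≠ 0 ∧ i ≠ -1) ∧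
      (∀ b i, T b i = d ∨ T b i = u) ∧
      (∀ i, (T false i = d ∧ T true i = u) ∨ (T false i = u ∧ T true i = d) ∨
        (((T false i = d ∧ T true i = d) ∨ (T false i = u ∧ T true i = u)) ∧
          (brk false true i ∨ brk true false i))) ∧
      ∃ i₀, ∀ b b' i, brk b b' i → i = i₀ := by
  classical
  have hud : u ≠ d := fun h' => hdu h'.symm
  have hud' : u ≠ -d := fun h' => hdu' (by rw [h', neg_neg])
  -- constant types
  have hconst : ∀ x y : ZMod m, ((x = d ∧ y = u) ∨ (x = u ∧ y = d)) →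
      ∃ (T : Bool → ZMod h → ZMod m) (brk : Bool → Bool → ZMod h → Prop),
      T false (r false) = x ∧ T true (r true) = y ∧
      (∀ b i, Odd (i - r b).val → T b (i + 1) = T b i) ∧
      (∀ i, Odd (i - r false).val → Odd (i - r true).val →
        T false i ≠ T true i ∧ T false i ≠ -T true i) ∧
      (∀ b b' i, brk b b' i → Odd (i - r b).val ∧ Odd (i - 1 - r b').val ∧ T b i = T b' i) ∧
      (¬ Odd (r false).val → ¬ Odd (r true).val → ∀ b b' i, brk b b' i → i ≠ 0 ∧ i ≠ -1) ∧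
      (∀ b i, T b i = d ∨ T b i = u) ∧
      (∀ i, (T false i = d ∧ T true i = u) ∨ (T false i = u ∧ T true i = d) ∨
        (((T false i = d ∧ T true i = d) ∨ (T false i = u ∧ T true i = u)) ∧
          (brk false true i ∨ brk true false i))) ∧
      ∃ i₀, ∀ b b' i, brk b b' i → i = i₀ := by
    intro x y hxy
    refine ⟨fun b _ => bif b then y else x, fun _ _ _ => False, rfl, rfl, fun _ _ _ => rfl, ?_,
      fun _ _ _ h' => h'.elim, fun _ _ _ _ _ h' => h'.elim, ?_, ?_,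
      0, fun _ _ _ h' => h'.elim⟩
    · intro i _ _
      rcases hxy with ⟨rfl, rfl⟩ | ⟨rfl, rfl⟩
      · exact ⟨hdu, hdu'⟩
      · exact ⟨hud, hud'⟩
    · intro b i
      rcases hxy with ⟨rfl, rfl⟩ | ⟨rfl, rfl⟩
      · cases b
        · exact Or.inl rfl
        · exact Or.inr rfl
      · cases b
        · exact Or.inr rfl
        · exact Or.inl rfl
    · intro i
      rcases hxy with ⟨rfl, rfl⟩ | ⟨rfl, rfl⟩
      · exact Or.inl ⟨rfl, rfl⟩
      · exact Or.inr (Or.inl ⟨rfl, rfl⟩)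
  -- doubled types
  have hdbl : ∀ x y : ZMod m, ((x = d ∧ y = u) ∨ (x = u ∧ y = d)) → r false ≠ r true →
      ∃ (T : Bool → ZMod h → ZMod m) (brk : Bool → Bool → ZMod h → Prop),
      T false (r false) = x ∧ T true (r true) = x ∧
      (∀ b i, Odd (i - r b).val → T b (i + 1) = T b i) ∧
      (∀ i, Odd (i - r false).val → Odd (i - r true).val →
        T false i ≠ T true i ∧ T false i ≠ -T true i) ∧
      (∀ b b' i, brk b b' i → Odd (i - r b).val ∧ Odd (i - 1 - r b').val ∧ T b i = T b' i) ∧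
      (¬ Odd (r false).val → ¬ Odd (r true).val → ∀ b b' i, brk b b' i → i ≠ 0 ∧ i ≠ -1) ∧
      (∀ b i, T b i = d ∨ T b i = u) ∧
      (∀ i, (T false i = d ∧ T true i = u) ∨ (T false i = u ∧ T true i = d) ∨
        (((T false i = d ∧ T true i = d) ∨ (T false i = u ∧ T true i = u)) ∧
          (brk false true i ∨ brk true false i))) ∧
      ∃ i₀, ∀ b b' i, brk b b' i → i = i₀ := by
    intro x y hxy hr
    have hxy1 : x ≠ y := by
      rcases hxy with ⟨rfl, rfl⟩ | ⟨rfl, rfl⟩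
      · exact hdu
      · exact hud
    have hxy2 : x ≠ -y := by
      rcases hxy with ⟨rfl, rfl⟩ | ⟨rfl, rfl⟩
      · exact hdu'
      · exact hud'
    have hx : ∀ z : ZMod m, z = x ∨ z = y → z = d ∨ z = u := by
      intro z hz
      rcases hxy with ⟨rfl, rfl⟩ | ⟨rfl, rfl⟩
      · exact hz
      · exact hz.symm
    by_cases hev : Odd (r true - r false).val
    · -- `A = true`, `B = false`
      have hev' : ¬ Odd (r false - r true).val := by
        intro h'
        have h1 : r false - r true ≠ 0 := sub_ne_zero.2 hr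
        have hF1 : NeZero h := ⟨by omega⟩
        have e : r true - r false = -(r false - r true) := by ring
        rw [e, ZMod.neg_val, if_neg h1] at hev
        have hlt := (r false - r true).val_lt
        obtain ⟨c, hc⟩ := ho
        obtain ⟨c1, hc1⟩ := h'
        obtain ⟨c2, hc2⟩ := hev
        omega
      obtain ⟨TA, TB, g1, g2, g3, g4, g5, g6, g7, g8⟩ :=
        pair_types_even ho h3 x y hxy1 hxy2 (r true) (r false) (fun h' => hr h'.symm) hev'
      refine ⟨fun b => bif b then TA else TB, fun b b' i => b = true ∧ b' = false ∧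
        i = r true + 1, g2, g1, ?_, ?_, ?_, ?_, ?_, ?_, r true + 1, fun b b' i h' => h'.2.2⟩
      · intro b i hi
        cases b
        · exact g4 i hi
        · exact g3 i hi
      · intro i hi hi'
        obtain ⟨q1, q2⟩ := g5 i hi' hi
        exact ⟨fun h' => q1 h'.symm, fun h' => q2 (by
          show TA i = -TB i
          have h'' : TB i = -TA i := h'
          rw [h'', neg_neg])⟩
      · rintro b b' i ⟨rfl, rfl, rfl⟩
        exact g6
      · rintro hf ht b b' i ⟨rfl, rfl, rfl⟩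
        exact g7 ht hf
      · intro b i
        apply hx
        rcases g8 i with ⟨q1, q2⟩ | ⟨q1, q2⟩ | ⟨q1, q2, _⟩ <;> cases b
        · exact Or.inr q2
        · exact Or.inl q1
        · exact Or.inl q2
        · exact Or.inr q1
        · exact Or.inr q2
        · exact Or.inr q1
      · intro i
        rcases hxy with ⟨rfl, rfl⟩ | ⟨rfl, rfl⟩
        · rcases g8 i with ⟨q1, q2⟩ | ⟨q1, q2⟩ | ⟨q1, q2, q3⟩
          · exact Or.inr (Or.inl ⟨q2, q1⟩)
          · exact Or.inl ⟨q2, q1⟩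
          · exact Or.inr (Or.inr ⟨Or.inr ⟨q2, q1⟩, Or.inr ⟨rfl, rfl, q3⟩⟩)
        · rcases g8 i with ⟨q1, q2⟩ | ⟨q1, q2⟩ | ⟨q1, q2, q3⟩
          · exact Or.inl ⟨q2, q1⟩
          · exact Or.inr (Or.inl ⟨q2, q1⟩)
          · exact Or.inr (Or.inr ⟨Or.inl ⟨q2, q1⟩, Or.inr ⟨rfl, rfl, q3⟩⟩)
    · obtain ⟨TA, TB, g1, g2, g3, g4, g5, g6, g7, g8⟩ :=
        pair_types_even ho h3 x y hxy1 hxy2 (r false) (r true) hr hev
      refine ⟨fun b => bif b then TB else TA, fun b b' i => b = false ∧ b' = true ∧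
        i = r false + 1, g1, g2, ?_, ?_, ?_, ?_, ?_, ?_, r false + 1, fun b b' i h' => h'.2.2⟩
      · intro b i hi
        cases b
        · exact g3 i hi
        · exact g4 i hi
      · intro i hi hi'
        exact g5 i hi hi'
      · rintro b b' i ⟨rfl, rfl, rfl⟩
        exact g6
      · rintro hf ht b b' i ⟨rfl, rfl, rfl⟩
        exact g7 hf ht
      · intro b i
        apply hx
        rcases g8 i with ⟨q1, q2⟩ | ⟨q1, q2⟩ | ⟨q1, q2, _⟩ <;> cases b
        · exact Or.inl q1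
        · exact Or.inr q2
        · exact Or.inr q1
        · exact Or.inl q2
        · exact Or.inr q1
        · exact Or.inr q2
      · intro i
        rcases hxy with ⟨rfl, rfl⟩ | ⟨rfl, rfl⟩
        · rcases g8 i with ⟨q1, q2⟩ | ⟨q1, q2⟩ | ⟨q1, q2, q3⟩
          · exact Or.inl ⟨q1, q2⟩
          · exact Or.inr (Or.inl ⟨q1, q2⟩)
          · exact Or.inr (Or.inr ⟨Or.inr ⟨q1, q2⟩, Or.inl ⟨rfl, rfl, q3⟩⟩)
        · rcases g8 i with ⟨q1, q2⟩ | ⟨q1, q2⟩ | ⟨q1, q2, q3⟩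
          · exact Or.inr (Or.inl ⟨q1, q2⟩)
          · exact Or.inl ⟨q1, q2⟩
          · exact Or.inr (Or.inr ⟨Or.inl ⟨q1, q2⟩, Or.inl ⟨rfl, rfl, q3⟩⟩)
  rcases had with ⟨h1, h2⟩ | ⟨h1, h2⟩ | ⟨⟨h1, h2⟩ | ⟨h1, h2⟩, hr⟩
  · rw [h1, h2]; exact hconst d u (Or.inl ⟨rfl, rfl⟩)
  · rw [h1, h2]; exact hconst u d (Or.inr ⟨rfl, rfl⟩)
  · rw [h1, h2]; exact hdbl d u (Or.inl ⟨rfl, rfl⟩) hr
  · rw [h1, h2]; exact hdbl u d (Or.inr ⟨rfl, rfl⟩) hr

end pairtypes

theorem TSM.sigma {V ι : Type*} {Θ : ι → Type*} {K : Set V} {E : ι → V → V → Prop}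
    {e : (i : ι) → Θ i → Bool → V} {mk : (i : ι) → Θ i → V → V → Prop}
    (h : ∀ i, TSM K (E i) (e i) (mk i)) :
    TSM K (fun u v => ∃ i, E i u v) (fun (k : Σ i, Θ i) b => e k.1 k.2 b)
      (fun k u v => mk k.1 k.2 u v) := by
  choose M h1 h2 h3 h4 h5 h6 using h
  refine ⟨fun k b => M k.1 k.2 b, ?_, ?_, ?_, ?_, ?_, ?_⟩
  · rintro ⟨i, k⟩ b u v hm
    exact h1 i k b u v hm
  · rintro ⟨i, k⟩ b u v hm
    exact h2 i k b u v hm
  · rintro ⟨i, k⟩ b u v v' hm hm'
    exact h3 i k b u v v' hm hm'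
  · rintro ⟨i, k⟩ b v hm
    exact h4 i k b v hm
  · rintro u hu v hv ⟨i, huv⟩
    rcases h5 i u hu v hv huv with ⟨k, hk⟩ | ⟨k, b, hk⟩
    · exact Or.inl ⟨⟨i, k⟩, hk⟩
    · exact Or.inr ⟨⟨i, k⟩, b, hk⟩
  · rintro ⟨i, k⟩ u v hm
    exact h6 i k u v hm

theorem TSM.reindex {V Θ Θ' : Type*} {K : Set V} {E : V → V → Prop} {e : Θ → Bool → V}
    {mk : Θ → V → V → Prop} (h : TSM K E e mk) (σ : Θ' ≃ Θ) :
    TSM K E (fun k b => e (σ k) b) (fun k u v => mk (σ k) u v) := by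
  obtain ⟨M, h1, h2, h3, h4, h5, h6⟩ := h
  refine ⟨fun k b => M (σ k) b, fun k => h1 _, fun k => h2 _, fun k => h3 _, fun k => h4 _, ?_,
    fun k => h6 _⟩
  intro u hu v hv huv
  rcases h5 u hu v hv huv with ⟨k, hk⟩ | ⟨k, b, hk⟩
  · exact Or.inl ⟨σ.symm k, by simpa using hk⟩
  · exact Or.inr ⟨σ.symm k, b, by simpa using hk⟩

theorem TSM.congr {V Θ : Type*} {K : Set V} {E : V → V → Prop} {e e' : Θ → Bool → V}
    {mk : Θ → V → V → Prop} (h : TSM K E e mk) (he : ∀ k b, e' k b = e k b) :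
    TSM K E e' mk := by
  have : e' = e := by funext k b; exact he k b
  rw [this]; exact h

theorem five_le {m : ℕ} (hm : Odd m) {x y : ZMod m} (hx : x ≠ 0) (hy : y ≠ 0) (h1 : x ≠ y)
    (h2 : x ≠ -y) : 5 ≤ m := by
  by_contra hlt
  have h5 : m < 5 := by omega
  obtain ⟨r, hr⟩ := hm
  have hcases : m = 1 ∨ m = 3 := by omega
  rcases hcases with rfl | rfl
  · exact hx (Subsingleton.elim _ _)
  · revert x y
    decide

theorem seven_le {m : ℕ} (hm : Odd m) {x y z : ZMod m} (hx : x ≠ 0) (hy : y ≠ 0) (hz : z ≠ 0)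
    (h1 : x ≠ y) (h2 : x ≠ -y) (h3 : x ≠ z) (h4 : x ≠ -z) (h5 : y ≠ z) (h6 : y ≠ -z) :
    7 ≤ m := by
  by_contra hlt
  have h7 : m < 7 := by omega
  obtain ⟨r, hr⟩ := hm
  have hcases : m = 1 ∨ m = 3 ∨ m = 5 := by omega
  rcases hcases with rfl | rfl | rfl
  · exact hx (Subsingleton.elim _ _)
  · have key : ∀ x y : ZMod 3, ¬ (x ≠ 0 ∧ y ≠ 0 ∧ x ≠ y ∧ x ≠ -y) := by decide
    exact key x y ⟨hx, hy, h1, h2⟩
  · have key : ∀ x y z : ZMod 5, ¬ (x ≠ 0 ∧ y ≠ 0 ∧ z ≠ 0 ∧ (x ≠ y ∧ x ≠ -y) ∧ (x ≠ z ∧ x ≠ -z) ∧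
        y ≠ z ∧ y ≠ -z) := by decide
    exact key x y z ⟨hx, hy, hz, ⟨h1, h2⟩, ⟨h3, h4⟩, h5, h6⟩

/-- A system of `ZMod m` on a class modulo `h`. -/
theorem coset_TS {m h : ℕ} (hh : 0 < h) {D : ZMod m → Prop} {Θ : Type*} (P T : Θ → ZMod m)
    (H : TS Set.univ (DE D) (fun θ b => P θ + (bif b then T θ else 0))) (a : ZMod h)
    (v0 : ZMod (m * h)) (hv0 : red m h v0 = a) :
    TS {v | red m h v = a} (DE (fun δ' => ∃ δ, D δ ∧ δ' = psi m h δ))
      (fun θ b => v0 + psi m h (P θ + (bif b then T θ else 0))) := by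
  have hinj := psi_inj m h hh
  refine (H.map (fun y => v0 + psi m h y) (fun y y' hy => hinj (add_left_cancel hy))
      {v | red m h v = a} (DE (fun δ' => ∃ δ, D δ ∧ δ' = psi m h δ)) ?_ ?_).congr
      (fun _ _ => rfl)
  · intro v
    constructor
    · intro hv
      have hv' : red m h v = a := hv
      obtain ⟨y, hy⟩ := exists_psi m h (v := v - v0) (by rw [map_sub, hv0, hv', sub_self])
      exact ⟨y, trivial, by show v0 + psi m h y = v; rw [← hy]; ring⟩
    · rintro ⟨y, -, rfl⟩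
      show red m h (v0 + psi m h y) = a
      rw [map_add, hv0, red_psi, add_zero]
  · rintro y - y' - ⟨δ', ⟨δ, hδ, rfl⟩, h2⟩
    refine ⟨δ, hδ, ?_⟩
    rcases h2 with h2 | h2
    · left
      apply hinj
      rw [map_add]
      have h2' : v0 + psi m h y' = v0 + psi m h y + psi m h δ := h2
      linear_combination h2'
    · right
      apply hinj
      rw [map_add]
      have h2' : v0 + psi m h y = v0 + psi m h y' + psi m h δ := h2
      linear_combination h2'

end Pool.Agent.P45
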