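import Pool.Agent.Lib.P45dba8.L2
import Pool.Agent.Lib.P45dba8.Modif2

/-! # Pair lemma: the base type is doubled, the carrier type is unused -/

set_option autoImplicit false

namespace Pool.Agent.P45

/-- Positive even distance. -/
theorem pair_L0_pos {m h : ℕ} (hm : Odd m) (m3 : 3 ≤ m) (hh : Odd h) (h3 : 3 ≤ h)
    (c : ZMod (m * h)) (ci : ZMod h) (hci : red m h c * ci = 1) (u' : ZMod m) (hu' : IsUnit u')
    (w w' : ZMod (m * h)) (hlne : ixf m h w ci w' ≠ -1) (hl0 : ixf m h w ci w' ≠ 0)
    (hlev : ¬ Odd (ixf m h w ci w').val) :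
    TS Set.univ (DE (fun x => x = c ∨ x = psi m h u'))
      (fun (k b : Bool) => (bif k then w else w') + (bif b then psi m h u' else 0)) := by
  classical
  have hinj := psi_inj m h (by omega)
  have hNZ : NeZero h := ⟨by omega⟩
  have hF1 : Fact (1 < h) := ⟨by omega⟩
  set u := psi m h u' with hu
  set l := ixf m h w ci w' with hl
  have hu0 : u' ≠ 0 := by
    rintro rfl
    have hF : Fact (1 < m) := ⟨by omega⟩
    exact not_isUnit_zero hu'
  have uz : u ≠ 0 := fun h' => hu0 (hinj (by rw [map_zero]; exact h'))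
  let low : ZMod h → ZMod (m * h) := fun j =>
    if j = -1 then w else if j = -2 then w - c else w + ((j.val : ZMod (m * h)) + 1) * c
  have hlow : ∀ j, ixf m h w ci (low j) = j := by
    intro j
    show ixf m h w ci (if j = -1 then w else if j = -2 then w - c else
      w + ((j.val : ZMod (m * h)) + 1) * c) = j
    split_ifs with h1 h2
    · rw [h1]; exact ixf_self w ci
    · have h4 := ixf_add w c ci hci (w - c)
      rw [sub_add_cancel, ixf_self] at h4
      rw [h2]
      linear_combination -h4
    · show red m h (w + ((j.val : ZMod (m * h)) + 1) * c - w) * ci - 1 = j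
      have : w + ((j.val : ZMod (m * h)) + 1) * c - w = ((j.val : ZMod (m * h)) + 1) * c := by ring
      rw [this, map_mul, map_add, map_natCast, map_one, ZMod.natCast_zmod_val]
      linear_combination (j + 1) * hci
  let act : ZMod h → Prop := fun i => Odd (i - l).val
  have h00 : ¬ Odd (0 : ZMod h).val := by rw [ZMod.val_zero]; simp
  have hal : ¬ act l := by
    show ¬ Odd (l - l).val
    rw [sub_self]; exact h00
  have hal' : ¬ act (l - 1) := by
    show ¬ Odd (l - 1 - l).val
    have : l - 1 - l = -1 := by ring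
    rw [this]; exact not_odd_neg_one hh h3
  have hact1 : ∀ i, act i → ¬ act (i + 1) := by
    intro i hi h'
    have h2 : Odd (i + 1 - l).val := h'
    have : i + 1 - l = i - l + 1 := by ring
    rw [this] at h2
    exact not_odd_succ hh h3 hi h2
  let X : ZMod h → ZMod (m * h) := fun i => if i = l then w' else if act i then low i else
    low (i - 1) + c
  have Xl : X l = w' := if_pos rfl
  have Xa : ∀ i, act i → X i = low i := by
    intro i hi
    have h1 : i ≠ l := by rintro rfl; exact hal hi
    show (if i = l then w' else if act i then low i else low (i - 1) + c) = low i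
    rw [if_neg h1, if_pos hi]
  have Xu : ∀ i, act i → X (i + 1) = low i + c := by
    intro i hi
    have h1 : i + 1 ≠ l := by
      rintro h'
      rw [← h', add_sub_cancel_right] at hal'
      exact hal' hi
    show (if i + 1 = l then w' else if act (i + 1) then low (i + 1) else low (i + 1 - 1) + c) =
      low i + c
    rw [if_neg h1, if_neg (hact1 i hi), add_sub_cancel_right]
  have hor : ∀ i, i ≠ l → act i ∨ act (i - 1) := by
    intro i hi
    rcases odd_or_pred h3 (sub_ne_zero.2 hi) with h1 | h1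
    · exact Or.inl h1
    · right
      show Odd (i - 1 - l).val
      have : i - 1 - l = i - l - 1 := by ring
      rw [this]; exact h1
  have hX : ∀ i, ixf m h w ci (X i) = i := by
    intro i
    by_cases h1 : i = l
    · rw [h1, Xl]
    · rcases hor i h1 with h2 | h2
      · rw [Xa i h2]; exact hlow i
      · have := Xu (i - 1) h2
        rw [sub_add_cancel] at this
        rw [this, ixf_add w c ci hci, hlow]; ring
  have hlow1 : low (-1) = w := if_pos rfl
  have h12 : (-2 : ZMod h) ≠ -1 := by
    intro h'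
    exact one_ne_zero (α := ZMod h) (by linear_combination -h')
  have h02 : (0 : ZMod h) ≠ -2 := by
    intro h'
    have h5 : ((2 : ℕ) : ZMod h) = 0 := by push_cast; linear_combination h'
    rw [ZMod.natCast_eq_zero_iff] at h5
    have := Nat.le_of_dvd (by norm_num) h5
    omega
  have h01 : (0 : ZMod h) ≠ -1 := by
    intro h'
    exact one_ne_zero (α := ZMod h) (by linear_combination h')
  have hlow2 : low (-2) = w - c := by
    show (if (-2 : ZMod h) = -1 then w else if (-2 : ZMod h) = -2 then w - c else _) = _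
    rw [if_neg h12, if_pos rfl]
  have hlow0 : low 0 = w + c := by
    show (if (0 : ZMod h) = -1 then w else if (0 : ZMod h) = -2 then w - c else
      w + (((0 : ZMod h).val : ZMod (m * h)) + 1) * c) = _
    rw [if_neg h01, if_neg h02, ZMod.val_zero]; push_cast; ring
  have hXm1 : X (-1) = w := by
    rcases hor (-1) (fun h' => hlne h'.symm) with h1 | h1
    · rw [Xa _ h1, hlow1]
    · have e1 : (-1 : ZMod h) - 1 = -2 := by ring
      rw [e1] at h1
      have := Xu _ h1
      have e2 : (-2 : ZMod h) + 1 = -1 := by ring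
      rw [e2] at this
      rw [this, hlow2]; ring
  have hX0 : X 0 = w + c := by
    rcases hor 0 (fun h' => hl0 h'.symm) with h1 | h1
    · rw [Xa _ h1, hlow0]
    · have e1 : (0 : ZMod h) - 1 = -1 := by ring
      rw [e1] at h1
      have := Xu _ h1
      have e2 : (-1 : ZMod h) + 1 = 0 := by ring
      rw [e2] at this
      rw [this, hlow1]
  obtain ⟨M0, H, hM⟩ := rowGD_ok hm m3 hh h3 c w ci hci u' hu' act X (fun _ => u) True hX
    (fun _ => Or.inl rfl) hact1
    (fun i hi => by rw [Xu i hi, Xa i hi]) (fun _ _ => rfl)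
    (Or.inl ⟨trivial, fun _ => hXm1, fun _ => hX0, fun _ => hXm1⟩)
  set G := rowGD m h c w ci act X (fun _ => u) M0 True with hG
  have ha2 : act (-2) := by
    show Odd (-2 - l).val
    have h1 : ¬ Odd (-1 - l).val := fun h' => hlev ((odd_neg_one_sub hh h3 l).1 h')
    have h2 : (-1 : ZMod h) - l ≠ 0 := by
      intro h'; exact hlne (by linear_combination -h')
    rcases odd_or_pred h3 h2 with h4 | h4
    · exact absurd h4 h1
    · have e : (-1 : ZMod h) - l - 1 = -2 - l := by ring
      rw [e] at h4; exact h4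
  have mrho : Mat G.rho := ⟨fun _ _ => H.rho_symm, fun _ _ _ => H.rho_fun⟩
  have msgm : Mat G.sgm := ⟨fun _ _ => H.sgm_symm, fun _ _ _ => H.sgm_fun⟩
  have mspc : Mat G.spc := ⟨fun _ _ => H.spc_symm, fun _ _ _ => H.spc_fun⟩
  have mnrm : Mat (G.nrm () true) := ⟨fun _ _ => H.nrm_symm, fun _ _ _ => H.nrm_fun⟩
  have hS1 : G.sgm w (w + u) := by
    right
    refine ⟨-2, ?_, Or.inl ⟨(), false, ha2, Or.inr ?_⟩⟩
    · rw [val_neg_two h3]
      obtain ⟨k, hk⟩ := hh
      exact ⟨k - 1, by omega⟩
    · have e2 : (-2 : ZMod h) + 1 = -1 := by ring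
      rw [e2]
      refine ⟨?_, ?_⟩
      · show w = X (-1) + 0
        rw [add_zero, hXm1]
      · show w + u = X (-1) + u
        rw [hXm1]
  have h1 := l0_abs (DE (fun x => x = c ∨ x = psi m h u')) G.spc (G.nrm () true) G.rho G.sgm
    mspc mnrm mrho msgm w' (w' + u) w (w + u) (w + c) ?_ ?_ ?_ ?_ hS1 ?_ ?_ ?_ ?_
  · refine h1.congr ?_
    intro k b
    cases k <;> cases b <;> simp
  · intro v
    have := H.spc_miss (i := l) hlne hl0 hal hal' v
    have e1 : G.e G.s false l = w' := by
      show X l + 0 = w'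
      rw [add_zero, Xl]
    rw [e1] at this
    exact this
  · intro v
    have := H.nrm_miss (k := ()) (b := true) (i := l) hal hal' v
    have e1 : G.e () true l = w' + u := by
      show X l + u = w' + u
      rw [Xl]
    rw [e1] at this
    exact this
  · intro v
    have := H.rho_miss v
    have e1 : G.e G.s false (-1) = w := by
      show X (-1) + 0 = w
      rw [add_zero, hXm1]
    rw [e1] at this
    exact this
  · intro v
    have := H.sgm_miss v
    have e1 : G.e G.s false 0 = w + c := by
      show X 0 + 0 = w + c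
      rw [add_zero, hX0]
    rw [e1] at this
    exact this
  · intro h'
    have h4 := ixf_add w c ci hci w
    rw [← h', ixf_self] at h4
    exact H.ne1 (by linear_combination -h4)
  · intro h'
    have h4 := ixf_add w c ci hci w
    rw [← h', hu, ixf_psi, ixf_self] at h4
    exact H.ne1 (by linear_combination -h4)
  · intro h'
    exact uz (left_eq_add.1 h')
  · intro x z hxz
    rcases row_cov H hM x z hxz with ⟨_, h1⟩ | ⟨h1, h2, h3⟩ | h1 | h1 | h1 | h1
    · exact Or.inl h1
    · right; left
      have h4 : ixf m h w ci x = l := by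
        by_contra h'
        rcases hor _ h' with h5 | h5
        · exact h1 h5
        · exact h2 h5
      rw [h4, Xl] at h3
      exact h3
    · exact Or.inr (Or.inr (Or.inr (Or.inl h1)))
    · exact Or.inr (Or.inr (Or.inr (Or.inr (Or.inl h1))))
    · exact Or.inr (Or.inr (Or.inr (Or.inr (Or.inr h1))))
    · exact Or.inr (Or.inr (Or.inl h1))

/-- Adjacent classes. -/
theorem pair_L0_adj {m h : ℕ} (hm : Odd m) (m3 : 3 ≤ m) (hh : Odd h) (h3 : 3 ≤ h)
    (c : ZMod (m * h)) (ci : ZMod h) (hci : red m h c * ci = 1) (u' : ZMod m) (hu' : IsUnit u')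
    (w p : ZMod (m * h)) (hp : ixf m h w ci p = 0) :
    TS Set.univ (DE (fun x => x = c ∨ x = psi m h u'))
      (fun (k b : Bool) => (bif k then w else p) + (bif b then psi m h u' else 0)) := by
  classical
  have hinj := psi_inj m h (by omega)
  have hNZ : NeZero h := ⟨by omega⟩
  have hF1 : Fact (1 < h) := ⟨by omega⟩
  set u := psi m h u' with hu
  have hu0 : u' ≠ 0 := by
    rintro rfl
    have hF : Fact (1 < m) := ⟨by omega⟩
    exact not_isUnit_zero hu'
  have h2u0 : u' + u' ≠ 0 := by
    intro h'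
    obtain ⟨ui, hui⟩ := hu'.exists_right_inv
    have h5 : ((2 : ℕ) : ZMod m) = 0 := by
      push_cast
      linear_combination ui * h' - 2 * hui
    rw [ZMod.natCast_eq_zero_iff] at h5
    have := Nat.le_of_dvd (by norm_num) h5
    omega
  have uz : u ≠ 0 := fun h' => hu0 (hinj (by rw [map_zero]; exact h'))
  have uz2 : u + u ≠ 0 := by
    intro h'
    apply h2u0
    apply hinj
    rw [map_add, map_zero]; exact h'
  set q := w + u with hq
  set q1 := q + c with hq1
  have ixq : ixf m h w ci q = -1 := by rw [hq, hu, ixf_psi, ixf_self]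
  have ixq1 : ixf m h w ci q1 = 0 := by rw [hq1, ixf_add w c ci hci, ixq]; ring
  -- the hole in `K_0`, oriented
  obtain ⟨x0, T0, hT0, hx0q, hx0, hset⟩ : ∃ x0 T0 : ZMod (m * h), (T0 = u ∨ T0 = -u) ∧ x0 ≠ q1 ∧
      ixf m h w ci x0 = 0 ∧ s(p, p + u) = s(x0, x0 + T0) := by
    by_cases h1 : p = q1
    · refine ⟨p + u, -u, Or.inr rfl, ?_, ?_, ?_⟩
      · rw [h1]; intro h'; exact uz (add_eq_left.1 h')
      · rw [hu, ixf_psi]; exact hp
      · rw [add_neg_cancel_right, Sym2.eq_swap]
    · exact ⟨p, u, Or.inl rfl, h1, hp, rfl⟩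
  -- matchings in `K_0`
  obtain ⟨N0, hN0⟩ : ∃ M, RowSys m h w ci (psi m h u') x0 T0 M :=
    row_TS hm m3 h3 w c ci hci u' hu' x0 T0 hT0
  -- the partner of `q1`
  have hedge : ∀ z, (z = q1 + u ∨ q1 = z + u) →
      (q1 = x0 + T0 ∧ z = x0) ∨ N0 () false q1 z ∨ N0 () true q1 z := by
    intro z hz
    have i1 : ixf m h w ci q1 = ixf m h w ci x0 := by rw [ixq1, hx0]
    have i2 : ixf m h w ci z = ixf m h w ci x0 := by
      rw [hx0, ← ixq1]
      rcases hz with rfl | hz
      · rw [hu, ixf_psi]
      · rw [hz, hu, ixf_psi]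
    rcases hN0.2.2.2.2 q1 i1 z i2 ⟨u, rfl, hz⟩ with ⟨_, ⟨h1, h2⟩ | ⟨h1, h2⟩⟩ | ⟨k, b, h1⟩
    · exfalso
      rw [cond_false, add_zero] at h1
      exact hx0q h1.symm
    · left
      rw [cond_false, add_zero] at h2
      exact ⟨h1, h2⟩
    · cases b
      · exact Or.inr (Or.inl h1)
      · exact Or.inr (Or.inr h1)
  have hmissY : ∀ v, ¬ N0 () true (x0 + T0) v := by
    intro v
    exact hN0.2.2.2.1 () true v
  obtain ⟨x2, hx2, hx2N⟩ : ∃ x2, (x2 = q1 + u ∨ q1 = x2 + u) ∧ N0 () false q1 x2 := by
    have dd : q1 + u ≠ q1 - u := by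
      intro h'; exact uz2 (by linear_combination h')
    rcases hedge (q1 + u) (Or.inl rfl) with ⟨h1, h2⟩ | h1 | h1
    · rcases hedge (q1 - u) (Or.inr (by ring)) with ⟨h3, h4⟩ | h3 | h3
      · exact absurd (h2.trans h4.symm) dd
      · exact ⟨q1 - u, Or.inr (by ring), h3⟩
      · exact absurd (h1 ▸ h3) (hmissY _)
    · exact ⟨q1 + u, Or.inl rfl, h1⟩
    · rcases hedge (q1 - u) (Or.inr (by ring)) with ⟨h3, h4⟩ | h3 | h3
      · exact absurd (h3 ▸ h1) (hmissY _)
      · exact ⟨q1 - u, Or.inr (by ring), h3⟩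
      · exact absurd (hN0.2.2.1 () true _ _ _ h1 h3) dd
  set x1 := x2 - c with hx1
  set x := x1 - c with hx
  set y := q - c with hy
  have ixx2 : ixf m h w ci x2 = 0 := by
    rw [← ixq1]
    rcases hx2 with h1 | h1
    · rw [h1, hu, ixf_psi]
    · rw [h1, hu, ixf_psi]
  have ixx1 : ixf m h w ci x1 = -1 := by
    have := ixf_add w c ci hci x1
    rw [hx1, sub_add_cancel, ← hx1, ixx2] at this
    linear_combination -this
  have ixx : ixf m h w ci x = -2 := by
    have := ixf_add w c ci hci x
    rw [hx, sub_add_cancel, ← hx, ixx1] at this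
    linear_combination -this
  have ixy : ixf m h w ci y = -2 := by
    have := ixf_add w c ci hci y
    rw [hy, sub_add_cancel, ← hy, ixq] at this
    linear_combination -this
  have hTx : y - x = u ∨ y - x = -u := by
    have e1 : y - x = q1 - x2 := by rw [hy, hx, hx1, hq1]; ring
    rw [e1]
    rcases hx2 with h1 | h1
    · right; rw [h1]; ring
    · left; rw [h1]; ring
  have h12 : (-2 : ZMod h) ≠ -1 := by
    intro h'
    exact one_ne_zero (α := ZMod h) (by linear_combination -h')
  have h02 : (0 : ZMod h) ≠ -2 := by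
    intro h'
    have h5 : ((2 : ℕ) : ZMod h) = 0 := by push_cast; linear_combination h'
    rw [ZMod.natCast_eq_zero_iff] at h5
    have := Nat.le_of_dvd (by norm_num) h5
    omega
  have h01 : (0 : ZMod h) ≠ -1 := by
    intro h'
    exact one_ne_zero (α := ZMod h) (by linear_combination h')
  have v1 : (-1 : ZMod h).val = h - 1 := zval_neg_one h3
  have v2 : (-2 : ZMod h).val = h - 2 := val_neg_two h3
  -- activity
  let act : ZMod h → Prop := fun i => Odd i.val ∧ i.val + 4 ≤ h
  have na0 : ¬ act 0 := by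
    rintro ⟨h1, _⟩
    rw [ZMod.val_zero] at h1
    simp at h1
  have na1 : ¬ act (-1) := by
    rintro ⟨_, h1⟩
    rw [v1] at h1; omega
  have na2 : ¬ act (-2) := by
    rintro ⟨_, h1⟩
    rw [v2] at h1; omega
  have na3 : ¬ act (-2 - 1) := by
    rintro ⟨h4, h1⟩
    rw [zval_pred h3 h02.symm, v2] at h1 h4
    obtain ⟨k, hk⟩ := hh
    obtain ⟨k', hk'⟩ := h4
    omega
  have hact1 : ∀ i, act i → ¬ act (i + 1) := by
    rintro i ⟨h1, h2⟩ ⟨h4, _⟩
    exact not_odd_succ hh h3 h1 h4
  have hor : ∀ i, i ≠ 0 → i ≠ -1 → i ≠ -2 → act i ∨ act (i - 1) := by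
    intro i i0 i1 i2
    have hlt := i.val_lt
    have hv0 : i.val ≠ 0 := fun h' => i0 ((ZMod.val_eq_zero i).1 h')
    have hv1 : i.val ≠ h - 1 := by
      intro h'
      rw [← v1] at h'
      exact i1 (ZMod.val_injective h h')
    have hv2 : i.val ≠ h - 2 := by
      intro h'
      rw [← v2] at h'
      exact i2 (ZMod.val_injective h h')
    have hp := zval_pred h3 i0
    obtain ⟨k, hk⟩ := hh
    rcases Nat.even_or_odd i.val with he | ho
    · right
      obtain ⟨k', hk'⟩ := he
      refine ⟨⟨k' - 1, by rw [hp]; omega⟩, by rw [hp]; omega⟩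
    · left
      obtain ⟨k', hk'⟩ := ho
      exact ⟨⟨k', hk'⟩, by omega⟩
  have act_ne0 : ∀ i, act i → i ≠ 0 := by rintro i hi rfl; exact na0 hi
  have act_ne1 : ∀ i, act i → i ≠ -1 := by rintro i hi rfl; exact na1 hi
  have act_ne2 : ∀ i, act i → i ≠ -2 := by rintro i hi rfl; exact na2 hi
  let low : ZMod h → ZMod (m * h) := fun j => w + ((j.val : ZMod (m * h)) + 1) * c
  have hlow : ∀ j, ixf m h w ci (low j) = j := by
    intro j
    show red m h (w + ((j.val : ZMod (m * h)) + 1) * c - w) * ci - 1 = j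
    have : w + ((j.val : ZMod (m * h)) + 1) * c - w = ((j.val : ZMod (m * h)) + 1) * c := by ring
    rw [this, map_mul, map_add, map_natCast, map_one, ZMod.natCast_zmod_val]
    linear_combination (j + 1) * hci
  let X : ZMod h → ZMod (m * h) := fun i => if i = 0 then x0 else if i = -1 then w else
    if i = -2 then x else if act i then low i else low (i - 1) + c
  let T : ZMod h → ZMod (m * h) := fun i => if i = 0 then T0 else if i = -2 then y - x else u
  have X0 : X 0 = x0 := if_pos rfl
  have T0' : T 0 = T0 := if_pos rfl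
  have X1 : X (-1) = w := by
    show (if (-1 : ZMod h) = 0 then x0 else if (-1 : ZMod h) = -1 then w else _) = w
    rw [if_neg h01.symm, if_pos rfl]
  have T1 : T (-1) = u := by
    show (if (-1 : ZMod h) = 0 then T0 else if (-1 : ZMod h) = -2 then y - x else u) = u
    rw [if_neg h01.symm, if_neg h12.symm]
  have X2 : X (-2) = x := by
    show (if (-2 : ZMod h) = 0 then x0 else if (-2 : ZMod h) = -1 then w else
      if (-2 : ZMod h) = -2 then x else _) = x
    rw [if_neg h02.symm, if_neg h12, if_pos rfl]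
  have T2 : T (-2) = y - x := by
    show (if (-2 : ZMod h) = 0 then T0 else if (-2 : ZMod h) = -2 then y - x else u) = y - x
    rw [if_neg h02.symm, if_pos rfl]
  have Xa : ∀ i, act i → X i = low i := by
    intro i hi
    show (if i = 0 then x0 else if i = -1 then w else
      if i = -2 then x else if act i then low i else low (i - 1) + c) = low i
    rw [if_neg (act_ne0 i hi), if_neg (act_ne1 i hi), if_neg (act_ne2 i hi), if_pos hi]
  have nes : ∀ i, act i → i + 1 ≠ 0 ∧ i + 1 ≠ -1 ∧ i + 1 ≠ -2 := by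
    intro i hi
    refine ⟨fun h' => act_ne1 i hi (by linear_combination h'),
      fun h' => act_ne2 i hi (by linear_combination h'), fun h' => ?_⟩
    apply na3
    have : (-2 : ZMod h) - 1 = i := by linear_combination -h'
    rw [this]; exact hi
  have Xu : ∀ i, act i → X (i + 1) = low i + c := by
    intro i hi
    obtain ⟨n1, n2, n3⟩ := nes i hi
    show (if i + 1 = 0 then x0 else if i + 1 = -1 then w else
      if i + 1 = -2 then x else if act (i + 1) then low (i + 1) else low (i + 1 - 1) + c) =
      low i + c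
    rw [if_neg n1, if_neg n2, if_neg n3, if_neg (hact1 i hi), add_sub_cancel_right]
  have Ta : ∀ i, act i → T i = u := by
    intro i hi
    show (if i = 0 then T0 else if i = -2 then y - x else u) = u
    rw [if_neg (act_ne0 i hi), if_neg (act_ne2 i hi)]
  have Tu : ∀ i, act i → T (i + 1) = u := by
    intro i hi
    obtain ⟨n1, n2, n3⟩ := nes i hi
    show (if i + 1 = 0 then T0 else if i + 1 = -2 then y - x else u) = u
    rw [if_neg n1, if_neg n3]
  have hX : ∀ i, ixf m h w ci (X i) = i := by
    intro i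
    by_cases i0 : i = 0
    · rw [i0, X0]; exact hx0
    by_cases i1 : i = -1
    · rw [i1, X1]; exact ixf_self w ci
    by_cases i2 : i = -2
    · rw [i2, X2]; exact ixx
    rcases hor i i0 i1 i2 with h2 | h2
    · rw [Xa i h2]; exact hlow i
    · have := Xu (i - 1) h2
      rw [sub_add_cancel] at this
      rw [this, ixf_add w c ci hci, hlow]; ring
  have hT : ∀ i, T i = u ∨ T i = -u := by
    intro i
    show (if i = 0 then T0 else if i = -2 then y - x else u) = u ∨
      (if i = 0 then T0 else if i = -2 then y - x else u) = -u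
    split_ifs
    · exact hT0
    · exact hTx
    · exact Or.inl rfl
  -- all matchings
  have hMc : ∀ i, ∃ M, RowSys m h w ci (psi m h u') (X i) (T i) M :=
    fun i => row_TS hm m3 h3 w c ci hci u' hu' (X i) (T i) (hT i)
  choose Mc hMc using hMc
  obtain ⟨H, hM⟩ := rowGD_ok' hh h3 c w ci hci u' act X T False hX hT hact1
    (fun i hi => by rw [Xu i hi, Xa i hi]) (fun i hi => by rw [Tu i hi, Ta i hi])
    (Or.inr ⟨na2, na1, na0⟩) (fun i => if i = 0 then N0 else Mc i) (by
      intro i
      by_cases i0 : i = 0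
      · simp only [if_pos i0]
        rw [i0, X0, T0']; exact hN0
      · simp only [if_neg i0]
        exact hMc i)
  set G := rowGD m h c w ci act X T
    (fun k b u v => (if ixf m h w ci u = 0 then N0 else Mc (ixf m h w ci u)) k b u v) False with hG
  have mrho : Mat G.rho := ⟨fun _ _ => H.rho_symm, fun _ _ _ => H.rho_fun⟩
  have msgm : Mat G.sgm := ⟨fun _ _ => H.sgm_symm, fun _ _ _ => H.sgm_fun⟩
  have mspc : Mat G.spc := ⟨fun _ _ => H.spc_symm, fun _ _ _ => H.spc_fun⟩
  have mnrm : Mat (G.nrm () true) := ⟨fun _ _ => H.nrm_symm, fun _ _ _ => H.nrm_fun⟩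
  have hLV : ∀ i v, ¬ act i → ixf m h w ci v = i → G.LV i v (v + c) := by
    intro i v hi hv
    exact Or.inr (Or.inl ⟨hv, rfl, fun k b hk => absurd hk hi⟩)
  have hodd2 : Odd (-2 : ZMod h).val := by
    rw [v2]
    obtain ⟨k, hk⟩ := hh
    exact ⟨k - 1, by omega⟩
  have xx1 : x + c = x1 := by rw [hx]; ring
  have yq : y + c = q := by rw [hy]; ring
  have x12 : x1 + c = x2 := by rw [hx1]; ring
  have s1 : G.sgm x x1 := by
    rw [← xx1]; exact Or.inr ⟨-2, hodd2, hLV _ x na2 ixx⟩
  have s2 : G.sgm y q := by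
    have := hLV (-2) y na2 ixy
    rw [yq] at this
    exact Or.inr ⟨-2, hodd2, this⟩
  have s3 : G.sgm x2 q1 := by
    left
    refine ⟨ixx2, ?_⟩
    show (if ixf m h w ci x2 = 0 then N0 else Mc (ixf m h w ci x2)) () false x2 q1
    rw [if_pos ixx2]
    exact hN0.1 _ _ _ _ hx2N
  have t1 : G.spc x1 x2 := by
    have := hLV (-1) x1 na1 ixx1
    rw [x12] at this
    exact Or.inr (Or.inr ⟨this, fun h' => h'.1⟩)
  have t2 : G.spc q q1 := by
    exact Or.inr (Or.inr ⟨hLV (-1) q na1 ixq, fun h' => h'.1⟩)
  have nm : ∀ i, ¬ act i → ¬ act (i - 1) → ∀ v, ¬ G.nrm () true (X i + T i) v := by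
    intro i h1 h2 v
    exact H.nrm_miss (k := ()) (b := true) (i := i) h1 h2 v
  have dne : ∀ {a b : ZMod (m * h)} {i j : ZMod h}, ixf m h w ci a = i → ixf m h w ci b = j →
      i ≠ j → a ≠ b := by
    rintro a b i j h1 h2 hij rfl
    exact hij (h1.symm.trans h2)
  have ixy0 : ixf m h w ci (x0 + T0) = 0 := by
    rcases hT0 with h1 | h1
    · rw [h1, hu, ixf_psi]; exact hx0
    · rw [h1, hu, ← map_neg, ixf_psi]; exact hx0
  have dxy : x ≠ y := by
    intro h'
    rcases hTx with h1 | h1
    · exact uz (by rw [← h1, h', sub_self])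
    · exact uz (by linear_combination h1 + h')
  have dx1q : x1 ≠ q := by
    intro h'
    apply dxy
    rw [hx, hy, h']
  have dx2q1 : x2 ≠ q1 := by
    intro h'
    apply dx1q
    rw [hx1, h', hq1]; ring
  have h1 := l0adj_abs (DE (fun x => x = c ∨ x = psi m h u')) (G.nrm () true) G.spc G.rho G.sgm
    mnrm mspc mrho msgm w q q1 x0 (x0 + T0) x y x1 x2 ?_ ?_ ?_ ?_ ?_ ?_ s1 s2 s3 t1 t2
    (dne ixy0 ixy h02) (dne ixy0 ixq h01) dxy (dne ixx ixx1 h12) (dne ixx ixq h12)
    (dne ixx ixx2 h02.symm) (dne ixx ixq1 h02.symm) (dne ixy ixx1 h12) (dne ixy ixq h12)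
    (dne ixy ixx2 h02.symm) (dne ixy ixq1 h02.symm) dx1q (dne ixx1 ixx2 h01.symm)
    (dne ixx1 ixq1 h01.symm) (dne ixq ixx2 h01.symm) (dne ixq ixq1 h01.symm) dx2q1 ?_
  · refine h1.ends ?_
    intro k
    cases k
    · show s(p + 0, p + u) = s(x0, x0 + T0)
      rw [add_zero]; exact hset
    · show s(w + 0, w + u) = s(w, q)
      rw [add_zero]
  · -- nrm at y
    intro v
    have := nm (-2) na2 na3 v
    rw [X2, T2] at this
    have e : x + (y - x) = y := by ring
    rw [e] at this
    exact this
  · intro v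
    have e1 : (-1 : ZMod h) - 1 = -2 := by ring
    have := nm (-1) na1 (by rw [e1]; exact na2) v
    rw [X1, T1] at this
    exact this
  · intro v
    have e1 : (0 : ZMod h) - 1 = -1 := by ring
    have := nm 0 na0 (by rw [e1]; exact na1) v
    rw [X0, T0'] at this
    exact this
  · intro v
    have := H.spc_miss (i := -2) h12 h02.symm na2 na3 v
    have e1 : G.e G.s false (-2) = x := by
      show X (-2) + 0 = x
      rw [add_zero, X2]
    rw [e1] at this
    exact this
  · intro v
    have := H.rho_miss v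
    have e1 : G.e G.s false (-1) = w := by
      show X (-1) + 0 = w
      rw [add_zero, X1]
    rw [e1] at this
    exact this
  · intro v
    have := H.sgm_miss v
    have e1 : G.e G.s false 0 = x0 := by
      show X 0 + 0 = x0
      rw [add_zero, X0]
    rw [e1] at this
    exact this
  · intro a b hab
    rcases row_cov H hM a b hab with ⟨h1, _⟩ | ⟨h1, h2, h3⟩ | h1 | h1 | h1 | h1
    · exact h1.elim
    · by_cases i0 : ixf m h w ci a = 0
      · rw [i0, X0, T0'] at h3
        exact Or.inr (Or.inl h3)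
      by_cases i1 : ixf m h w ci a = -1
      · rw [i1, X1, T1] at h3
        exact Or.inl h3
      by_cases i2 : ixf m h w ci a = -2
      · rw [i2, X2, T2] at h3
        have e : x + (y - x) = y := by ring
        rw [e] at h3
        exact Or.inr (Or.inr (Or.inl h3))
      · rcases hor _ i0 i1 i2 with h4 | h4
        · exact absurd h4 h1
        · exact absurd h4 h2
    · exact Or.inr (Or.inr (Or.inr (Or.inl h1)))
    · exact Or.inr (Or.inr (Or.inr (Or.inr (Or.inr (Or.inl h1)))))
    · exact Or.inr (Or.inr (Or.inr (Or.inr (Or.inr (Or.inr h1)))))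
    · exact Or.inr (Or.inr (Or.inr (Or.inr (Or.inl h1))))

/-- Doubled base type, unused carrier type, holes in different classes. -/
theorem pair_L0 {m h : ℕ} (hm : Odd m) (m3 : 3 ≤ m) (hh : Odd h) (h3 : 3 ≤ h)
    (c : ZMod (m * h)) (hc : IsUnit (red m h c)) (u' : ZMod m) (hu' : IsUnit u')
    (w p : ZMod (m * h)) (hne : red m h p ≠ red m h w) :
    TS Set.univ (DE (fun x => x = c ∨ x = psi m h u'))
      (fun (k b : Bool) => (bif k then w else p) + (bif b then psi m h u' else 0)) := by
  obtain ⟨ci, hci⟩ := hc.exists_right_inv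
  have hNZ : NeZero h := ⟨by omega⟩
  have main : ∀ (c : ZMod (m * h)) (ci : ZMod h), red m h c * ci = 1 →
      ¬ Odd (ixf m h w ci p).val →
      TS Set.univ (DE (fun x => x = c ∨ x = psi m h u'))
        (fun (k b : Bool) => (bif k then w else p) + (bif b then psi m h u' else 0)) := by
    intro c ci hci hev
    have hl1 : ixf m h w ci p ≠ -1 := by
      intro h'
      have h1 : red m h (p - w) * ci - 1 = -1 := h'
      have h2 : red m h (p - w) = 0 := by
        linear_combination red m h c * h1 - red m h (p - w) * hci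
      rw [map_sub] at h2
      exact hne (sub_eq_zero.1 h2)
    by_cases h0 : ixf m h w ci p = 0
    · exact pair_L0_adj hm m3 hh h3 c ci hci u' hu' w p h0
    · exact pair_L0_pos hm m3 hh h3 c ci hci u' hu' w p hl1 h0 hev
  by_cases ho : Odd (ixf m h w ci p).val
  · have h1 := main (-c) (-ci) (by rw [map_neg]; linear_combination hci) (by
      have e : ixf m h w (-ci) p = -1 - ixf m h w ci p - 1 := by
        show red m h (p - w) * (-ci) - 1 = -1 - (red m h (p - w) * ci - 1) - 1
        ring
      rw [e]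
      have h2 := (odd_neg_one_sub hh h3 (ixf m h w ci p)).2 ho
      intro h'
      have := not_odd_succ hh h3 h'
      rw [sub_add_cancel] at this
      exact this h2)
    refine h1.mono ?_
    rintro x - z - ⟨δ, hδ, hxz⟩
    rcases hδ with hδ | hδ
    · refine ⟨-c, Or.inl rfl, ?_⟩
      rw [hδ] at hxz
      rcases hxz with hxz | hxz
      · right; rw [hxz]; ring
      · left; rw [hxz]; ring
    · exact ⟨δ, Or.inr hδ, hxz⟩
  · exact main c ci hci ho

end Pool.Agent.P45
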