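import Pool.Agent.Lib.P45dba8.Modif
import Pool.Agent.Lib.P45dba8.Row

/-! # Pair lemma: the carrier type is doubled, the base type is unused -/

set_option autoImplicit false

namespace Pool.Agent.P45

/-- Cover of all edges by the new classes, one thread. -/
theorem row_cov {m h : ℕ} {c w : ZMod (m * h)} {ci : ZMod h} {act : ZMod h → Prop}
    {X T : ZMod h → ZMod (m * h)} {M0 : Unit → Bool → ZMod (m * h) → ZMod (m * h) → Prop}
    {rf : Prop} {u' : ZMod m}
    (H : (rowGD m h c w ci act X T M0 rf).Ok)
    (hM : ∀ u v, (v = u + psi m h u' ∨ u = v + psi m h u') →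
        (∃ b, u = X (ixf m h w ci u) + (bif b then T (ixf m h w ci u) else 0) ∧
          v = X (ixf m h w ci u) + (bif !b then T (ixf m h w ci u) else 0)) ∨
        ∃ b, M0 () b u v)
    (u v : ZMod (m * h)) (huv : DE (fun x => x = c ∨ x = psi m h u') u v) :
    (rf ∧ pr w (w + c) u v) ∨
    (¬ act (ixf m h w ci u) ∧ ¬ act (ixf m h w ci u - 1) ∧
      pr (X (ixf m h w ci u)) (X (ixf m h w ci u) + T (ixf m h w ci u)) u v) ∨
    (rowGD m h c w ci act X T M0 rf).nrm () true u v ∨
    (rowGD m h c w ci act X T M0 rf).rho u v ∨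
    (rowGD m h c w ci act X T M0 rf).sgm u v ∨
    (rowGD m h c w ci act X T M0 rf).spc u v := by
  set G := rowGD m h c w ci act X T M0 rf with hG
  have hF : ∀ x, (rf ∧ x = w) ∨ G.nrm () true x (x + c) ∨ G.rho x (x + c) ∨ G.sgm x (x + c) ∨
      G.spc x (x + c) := by
    intro x
    rcases H.cov_F x with h1 | ⟨k, b, hk, h1⟩ | h1
    · exact Or.inl h1
    · right; left
      cases b
      · exact absurd ⟨Subsingleton.elim _ _, rfl⟩ hk
      · exact h1
    · exact Or.inr (Or.inr h1)
  obtain ⟨δ, hδ, h1⟩ := huv
  rcases hδ with hδ | hδ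
  · rw [hδ] at h1
    rcases h1 with h1 | h1
    · rw [h1]
      rcases hF u with ⟨h2, h3⟩ | h2 | h2 | h2 | h2
      · left
        refine ⟨h2, ?_⟩
        rw [h3]
        exact pr_self _ _
      · exact Or.inr (Or.inr (Or.inl h2))
      · exact Or.inr (Or.inr (Or.inr (Or.inl h2)))
      · exact Or.inr (Or.inr (Or.inr (Or.inr (Or.inl h2))))
      · exact Or.inr (Or.inr (Or.inr (Or.inr (Or.inr h2))))
    · rw [h1]
      rcases hF v with ⟨h2, h3⟩ | h2 | h2 | h2 | h2
      · left
        refine ⟨h2, ?_⟩
        rw [h3]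
        exact pr_self' _ _
      · exact Or.inr (Or.inr (Or.inl (H.nrm_symm h2)))
      · exact Or.inr (Or.inr (Or.inr (Or.inl (H.rho_symm h2))))
      · exact Or.inr (Or.inr (Or.inr (Or.inr (Or.inl (H.sgm_symm h2)))))
      · exact Or.inr (Or.inr (Or.inr (Or.inr (Or.inr (H.spc_symm h2)))))
  · rw [hδ] at h1
    rcases hM u v h1 with ⟨b, h2, h3⟩ | ⟨b, h2⟩
    · by_cases ha : act (ixf m h w ci u) ∨ act (ixf m h w ci u - 1)
      · have h4 := H.cov_hole (k := ()) (i := ixf m h w ci u) b ha
        have e1 : G.e () b (ixf m h w ci u) = u := h2.symm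
        have e2 : G.e () (!b) (ixf m h w ci u) = v := h3.symm
        rw [e1, e2] at h4
        exact Or.inr (Or.inr (Or.inr h4))
      · right; left
        refine ⟨fun h' => ha (Or.inl h'), fun h' => ha (Or.inr h'), ?_⟩
        cases b
        · left
          exact ⟨by rw [cond_false, add_zero] at h2; exact h2, h3⟩
        · right
          exact ⟨h2, by rw [Bool.not_true, cond_false, add_zero] at h3; exact h3⟩
    · rcases GD.cov_M0 (G := G) (k := ()) (b := b) h2 with ⟨h4, h5⟩ | h4
      · right; right; left
        cases b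
        · exact absurd ⟨Subsingleton.elim _ _, rfl⟩ h4
        · exact h5
      · exact Or.inr (Or.inr (Or.inr h4))

theorem pair_L2 {m h : ℕ} (hm : Odd m) (m3 : 3 ≤ m) (hh : Odd h) (h3 : 3 ≤ h)
    (c : ZMod (m * h)) (hc : IsUnit (red m h c)) (u' : ZMod m) (hu' : IsUnit u')
    (w w' : ZMod (m * h)) (hne : red m h w' ≠ red m h w) :
    TS Set.univ (DE (fun x => x = c ∨ x = psi m h u'))
      (fun (k b : Bool) => (bif k then w' else w) + (bif b then c else 0)) := by
  classical
  obtain ⟨ci, hci⟩ := hc.exists_right_inv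
  have hinj := psi_inj m h (by omega)
  have hNZ : NeZero h := ⟨by omega⟩
  have hF1 : Fact (1 < h) := ⟨by omega⟩
  set u := psi m h u' with hu
  set l := ixf m h w ci w' with hl
  have hu0 : u' ≠ 0 := by
    rintro rfl
    have hF : Fact (1 < m) := ⟨by omega⟩
    exact not_isUnit_zero hu'
  have h2u0 : u' + u' ≠ 0 := by
    intro h'
    obtain ⟨ui, hui⟩ := hu'.exists_right_inv
    have h5 : ((2 : ℕ) : ZMod m) = 0 := by
      push_cast
      linear_combination ui * h' - 2 * hui
    rw [ZMod.natCast_eq_zero_iff] at h5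
    have := Nat.le_of_dvd (by norm_num) h5
    omega
  have uz : u ≠ 0 := fun h' => hu0 (hinj (by rw [map_zero]; exact h'))
  have uz2 : u + u ≠ 0 := by
    intro h'
    apply h2u0
    apply hinj
    rw [map_add, map_zero]; exact h'
  have hlne : l ≠ -1 := by
    intro h'
    have h1 : red m h (w' - w) * ci - 1 = -1 := h'
    have h2 : red m h (w' - w) = 0 := by
      linear_combination red m h c * h1 - red m h (w' - w) * hci
    rw [map_sub] at h2
    exact hne (sub_eq_zero.1 h2)
  -- positions
  let low : ZMod h → ZMod (m * h) := fun j =>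
    if j = -1 then w else if j = -2 then w - c else w + ((j.val : ZMod (m * h)) + 1) * c
  have hlow : ∀ j, ixf m h w ci (low j) = j := by
    intro j
    show ixf m h w ci (if j = -1 then w else if j = -2 then w - c else
      w + ((j.val : ZMod (m * h)) + 1) * c) = j
    split_ifs with h1 h2
    · rw [h1]; exact ixf_self w ci
    · have h4 := ixf_add w c ci hci (w - c)
      rw [sub_add_cancel, ixf_self] at h4
      rw [h2]
      linear_combination -h4
    · show red m h (w + ((j.val : ZMod (m * h)) + 1) * c - w) * ci - 1 = j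
      have : w + ((j.val : ZMod (m * h)) + 1) * c - w = ((j.val : ZMod (m * h)) + 1) * c := by ring
      rw [this, map_mul, map_add, map_natCast, map_one, ZMod.natCast_zmod_val]
      linear_combination (j + 1) * hci
  let tt : ZMod h → ZMod (m * h) := fun j => if j = l + 1 ∧ low j + u = w' + c then -u else u
  have htt : ∀ j, tt j = u ∨ tt j = -u := by
    intro j
    show (if j = l + 1 ∧ low j + u = w' + c then -u else u) = u ∨
      (if j = l + 1 ∧ low j + u = w' + c then -u else u) = -u
    split_ifs
    · exact Or.inr rfl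
    · exact Or.inl rfl
  let act : ZMod h → Prop := fun i => Odd (i - l).val
  have h00 : ¬ Odd (0 : ZMod h).val := by rw [ZMod.val_zero]; simp
  have hal : ¬ act l := by
    show ¬ Odd (l - l).val
    rw [sub_self]; exact h00
  have hal' : ¬ act (l - 1) := by
    show ¬ Odd (l - 1 - l).val
    have : l - 1 - l = -1 := by ring
    rw [this]; exact not_odd_neg_one hh h3
  have hact1 : ∀ i, act i → ¬ act (i + 1) := by
    intro i hi h'
    have h2 : Odd (i + 1 - l).val := h'
    have : i + 1 - l = i - l + 1 := by ring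
    rw [this] at h2
    exact not_odd_succ hh h3 hi h2
  let X : ZMod h → ZMod (m * h) := fun i => if i = l then w' else if act i then low i else
    low (i - 1) + c
  let T : ZMod h → ZMod (m * h) := fun i => if i = l then u else if act i then tt i else tt (i - 1)
  have Xl : X l = w' := if_pos rfl
  have Tl : T l = u := if_pos rfl
  have Xa : ∀ i, act i → X i = low i := by
    intro i hi
    have h1 : i ≠ l := by rintro rfl; exact hal hi
    show (if i = l then w' else if act i then low i else low (i - 1) + c) = low i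
    rw [if_neg h1, if_pos hi]
  have Ta : ∀ i, act i → T i = tt i := by
    intro i hi
    have h1 : i ≠ l := by rintro rfl; exact hal hi
    show (if i = l then u else if act i then tt i else tt (i - 1)) = tt i
    rw [if_neg h1, if_pos hi]
  have Xu : ∀ i, act i → X (i + 1) = low i + c := by
    intro i hi
    have h1 : i + 1 ≠ l := by
      rintro h'
      rw [← h', add_sub_cancel_right] at hal'
      exact hal' hi
    show (if i + 1 = l then w' else if act (i + 1) then low (i + 1) else low (i + 1 - 1) + c) =
      low i + c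
    rw [if_neg h1, if_neg (hact1 i hi), add_sub_cancel_right]
  have Tu : ∀ i, act i → T (i + 1) = tt i := by
    intro i hi
    have h1 : i + 1 ≠ l := by
      rintro h'
      rw [← h', add_sub_cancel_right] at hal'
      exact hal' hi
    show (if i + 1 = l then u else if act (i + 1) then tt (i + 1) else tt (i + 1 - 1)) = tt i
    rw [if_neg h1, if_neg (hact1 i hi), add_sub_cancel_right]
  have hor : ∀ i, i ≠ l → act i ∨ act (i - 1) := by
    intro i hi
    rcases odd_or_pred h3 (sub_ne_zero.2 hi) with h1 | h1
    · exact Or.inl h1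
    · right
      show Odd (i - 1 - l).val
      have : i - 1 - l = i - l - 1 := by ring
      rw [this]; exact h1
  have hX : ∀ i, ixf m h w ci (X i) = i := by
    intro i
    by_cases h1 : i = l
    · rw [h1, Xl]
    · rcases hor i h1 with h2 | h2
      · rw [Xa i h2]; exact hlow i
      · have := Xu (i - 1) h2
        rw [sub_add_cancel] at this
        rw [this, ixf_add w c ci hci, hlow]; ring
  have hT : ∀ i, T i = u ∨ T i = -u := by
    intro i
    by_cases h1 : i = l
    · rw [h1, Tl]; exact Or.inl rfl
    · rcases hor i h1 with h2 | h2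
      · rw [Ta i h2]; exact htt i
      · have := Tu (i - 1) h2
        rw [sub_add_cancel] at this
        rw [this]; exact htt _
  have hlow1 : low (-1) = w := if_pos rfl
  have h12 : (-2 : ZMod h) ≠ -1 := by
    intro h'
    exact one_ne_zero (α := ZMod h) (by linear_combination -h')
  have h02 : (0 : ZMod h) ≠ -2 := by
    intro h'
    have h5 : ((2 : ℕ) : ZMod h) = 0 := by push_cast; linear_combination h'
    rw [ZMod.natCast_eq_zero_iff] at h5
    have := Nat.le_of_dvd (by norm_num) h5
    omega
  have h01 : (0 : ZMod h) ≠ -1 := by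
    intro h'
    exact one_ne_zero (α := ZMod h) (by linear_combination h')
  have hlow2 : low (-2) = w - c := by
    show (if (-2 : ZMod h) = -1 then w else if (-2 : ZMod h) = -2 then w - c else _) = _
    rw [if_neg h12, if_pos rfl]
  have hlow0 : low 0 = w + c := by
    show (if (0 : ZMod h) = -1 then w else if (0 : ZMod h) = -2 then w - c else
      w + (((0 : ZMod h).val : ZMod (m * h)) + 1) * c) = _
    rw [if_neg h01, if_neg h02, ZMod.val_zero]; push_cast; ring
  have hXm1 : X (-1) = w := by
    rcases hor (-1) (fun h' => hlne h'.symm) with h1 | h1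
    · rw [Xa _ h1, hlow1]
    · have e1 : (-1 : ZMod h) - 1 = -2 := by ring
      rw [e1] at h1
      have := Xu _ h1
      have e2 : (-2 : ZMod h) + 1 = -1 := by ring
      rw [e2] at this
      rw [this, hlow2]; ring
  have hX0 : l ≠ 0 → X 0 = w + c := by
    intro hl0
    rcases hor 0 (fun h' => hl0 h'.symm) with h1 | h1
    · rw [Xa _ h1, hlow0]
    · have e1 : (0 : ZMod h) - 1 = -1 := by ring
      rw [e1] at h1
      have := Xu _ h1
      have e2 : (-1 : ZMod h) + 1 = 0 := by ring
      rw [e2] at this
      rw [this, hlow1]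
  obtain ⟨M0, H, hM⟩ := rowGD_ok hm m3 hh h3 c w ci hci u' hu' act X T True hX hT hact1
    (fun i hi => by rw [Xu i hi, Xa i hi]) (fun i hi => by rw [Tu i hi, Ta i hi])
    (Or.inl ⟨trivial, fun _ => hXm1, fun ha => hX0 (by
      rintro h'
      have : Odd ((0 : ZMod h) - l).val := ha
      rw [h', sub_zero] at this
      exact h00 this), fun _ => hXm1⟩)
  set G := rowGD m h c w ci act X T M0 True with hG
  -- edges of the level `l`
  have hLV : ∀ x, ixf m h w ci x = l → G.LV l x (x + c) := by
    intro x hx
    refine Or.inr (Or.inl ⟨hx, rfl, ?_⟩)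
    intro k b hk
    exact absurd hk hal
  set y := w' + u with hy
  set a := w' - u with ha
  have ixy : ixf m h w ci y = l := by rw [hy, hu, ixf_psi]
  have ixa : ixf m h w ci a = l := by
    have : a = w' + psi m h (-u') := by rw [ha, map_neg, hu]; ring
    rw [this, ixf_psi]
  have ixw1 : ixf m h w ci (w' + c) = l + 1 := ixf_add w c ci hci w'
  have ixy1 : ixf m h w ci (y + c) = l + 1 := by rw [ixf_add w c ci hci, ixy]
  have ixa1 : ixf m h w ci (a + c) = l + 1 := by rw [ixf_add w c ci hci, ixa]
  have hsucc : l + 1 ≠ l := H.succ_ne l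
  -- vertices are different
  have dne : ∀ {x z : ZMod (m * h)}, ixf m h w ci x = l → ixf m h w ci z = l + 1 → x ≠ z := by
    rintro x z hx hz rfl
    exact hsucc (hz.symm.trans hx)
  have d1 : w' ≠ w' + c := dne rfl ixw1
  have d2 : w' ≠ y := by
    rw [hy]; intro h'; exact uz (left_eq_add.1 h')
  have d4 : w' ≠ a := by
    rw [ha]; intro h'; exact uz (by linear_combination h')
  have d11 : y ≠ a := by
    rw [hy, ha]; intro h'; exact uz2 (by linear_combination h')
  have d7 : w' + c ≠ y + c := fun h' => d2 (add_right_cancel h')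
  have d9 : w' + c ≠ a + c := fun h' => d4 (add_right_cancel h')
  have dya1 : y + c ≠ a + c := fun h' => d11 (add_right_cancel h')
  -- the class `K`
  have hKm : Mat (G.nrm () true) := ⟨fun _ _ => H.nrm_symm, fun _ _ _ => H.nrm_fun⟩
  have mK : ∀ v, ¬ G.nrm () true y v := by
    intro v
    have := H.nrm_miss (k := ()) (b := true) (i := l) hal hal' v
    have e1 : G.e () true l = y := by
      show X l + T l = y
      rw [Xl, Tl]
    rw [e1] at this
    exact this
  -- facts in `K_{l+1}`
  have hal1 : act (l + 1) := by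
    show Odd (l + 1 - l).val
    rw [add_sub_cancel_left, ZMod.val_one]; exact odd_one
  have hY : X (l + 1) + T (l + 1) ≠ w' + c := by
    rw [Xa _ hal1, Ta _ hal1]
    show low (l + 1) + (if l + 1 = l + 1 ∧ low (l + 1) + u = w' + c then -u else u) ≠ w' + c
    by_cases h1 : low (l + 1) + u = w' + c
    · rw [if_pos ⟨rfl, h1⟩]
      intro h'
      apply uz2
      linear_combination h1 - h'
    · rw [if_neg (fun h' => h1 h'.2)]
      exact h1
  have hedge : ∀ z, (z = w' + c + u ∨ w' + c = z + u) →
      (w' + c = X (l + 1) ∧ z = X (l + 1) + T (l + 1)) ∨ M0 () false (w' + c) z ∨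
        M0 () true (w' + c) z := by
    intro z hz
    rcases hM (w' + c) z hz with ⟨b, h1, h2⟩ | ⟨b, h1⟩
    · rw [ixw1] at h1 h2
      cases b
      · left
        exact ⟨by rw [cond_false, add_zero] at h1; exact h1, h2⟩
      · exact absurd h1.symm hY
    · cases b
      · exact Or.inr (Or.inl h1)
      · exact Or.inr (Or.inr h1)
  have hmissX : ∀ v, ¬ M0 () false (X (l + 1)) v := by
    intro v hv
    have := H.miss () false (l + 1) v
    apply this
    show M0 () false (X (l + 1) + 0) v
    rw [add_zero]; exact hv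
  have hKc : G.nrm () true (w' + c) (y + c) ∨
      (G.nrm () true (w' + c) (a + c) ∧ G.nrm () true w' a) := by
    have hwa : M0 () true w' a := by
      rcases hM w' a (Or.inr (by rw [ha]; ring)) with ⟨b, h1, h2⟩ | ⟨b, h1⟩
      · exfalso
        rw [← hl, Xl, Tl] at h1 h2
        cases b
        · exact d11 h2.symm
        · exact d2 h1
      · cases b
        · exfalso
          have := H.miss () false l a
          apply this
          show M0 () false (X l + 0) a
          rw [add_zero, Xl]; exact h1
        · exact h1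
    rcases hedge (y + c) (Or.inl (by rw [hy]; ring)) with ⟨h1, h2⟩ | h1 | h1
    · rcases hedge (a + c) (Or.inr (by rw [ha]; ring)) with ⟨h3, h4⟩ | h3 | h3
      · exact absurd (h2.trans h4.symm) dya1
      · exact absurd (h1 ▸ h3) (hmissX _)
      · exact Or.inr ⟨Or.inl h3, Or.inl hwa⟩
    · rcases hedge (a + c) (Or.inr (by rw [ha]; ring)) with ⟨h3, h4⟩ | h3 | h3
      · exact absurd (h3 ▸ h1) (hmissX _)
      · exact absurd (H.func () false _ _ _ h1 h3) dya1
      · exact Or.inr ⟨Or.inl h3, Or.inl hwa⟩
    · exact Or.inl (Or.inl h1)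
  -- cover
  have hcov : ∀ x z, DE (fun x => x = c ∨ x = psi m h u') x z →
      pr w (w + c) x z ∨ pr w' y x z ∨ G.nrm () true x z ∨ G.rho x z ∨ G.sgm x z ∨ G.spc x z := by
    intro x z hxz
    rcases row_cov H hM x z hxz with ⟨_, h1⟩ | ⟨h1, h2, h3⟩ | h1
    · exact Or.inl h1
    · right; left
      have h4 : ixf m h w ci x = l := by
        by_contra h'
        rcases hor _ h' with h5 | h5
        · exact h1 h5
        · exact h2 h5
      rw [h4, Xl, Tl] at h3
      exact h3
    · exact Or.inr (Or.inr h1)
  have mrho : Mat G.rho := ⟨fun _ _ => H.rho_symm, fun _ _ _ => H.rho_fun⟩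
  have msgm : Mat G.sgm := ⟨fun _ _ => H.sgm_symm, fun _ _ _ => H.sgm_fun⟩
  have mspc : Mat G.spc := ⟨fun _ _ => H.spc_symm, fun _ _ _ => H.spc_fun⟩
  have rho_w : ∀ v, ¬ G.rho w v := by
    intro v
    have := H.rho_miss v
    have e1 : G.e G.s false (-1) = w := by
      show X (-1) + 0 = w
      rw [add_zero, hXm1]
    rw [e1] at this
    exact this
  have hfin : ∀ (A B C : ZMod (m * h) → ZMod (m * h) → Prop) (p q : ZMod (m * h)),
      Mat A → Mat B → Mat C → (∀ v, ¬ A w' v) → (∀ v, ¬ B p v) → (∀ v, ¬ C q v) →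
      B w' (w' + c) → B y (y + c) → B a (a + c) →
      (∀ x z, DE (fun x => x = c ∨ x = psi m h u') x z →
        pr p q x z ∨ pr w' y x z ∨ A x z ∨ B x z ∨ C x z ∨ G.nrm () true x z) →
      TS Set.univ (DE (fun x => x = c ∨ x = psi m h u')) (fun (k b : Bool) =>
        bif k then (bif b then w' + c else w') else (bif b then q else p)) := by
    intro A B C p q hA hB hC mA mB mC B1 B2 B3 cov
    exact l2_abs _ A B C (G.nrm () true) hA hB hC hKm p q w' (w' + c) y (y + c) a (a + c)
      d1 d2 (dne rfl ixy1) d4 (dne rfl ixa1) (dne ixy ixw1).symm d7 (dne ixa ixw1).symm d9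
      (dne ixy ixy1) d11 (dne ixy ixa1) (dne ixa ixa1) mA mB mC mK B1 B2 B3 hKc cov
  by_cases hl0 : l = 0
  · -- `λ = rho`, `C = spc`, `A = sgm`
    have he : Even l.val := by rw [hl0, ZMod.val_zero]; simp
    have h1 := hfin G.sgm G.rho G.spc w (w + c) msgm mrho mspc ?_ rho_w ?_
      (Or.inr ⟨l, he, hlne, hLV w' rfl⟩) (Or.inr ⟨l, he, hlne, hLV y ixy⟩)
      (Or.inr ⟨l, he, hlne, hLV a ixa⟩) ?_
    · refine h1.congr ?_
      intro k b
      cases k <;> cases b <;> simp
    · intro v
      have := H.sgm_miss v
      have e1 : G.e G.s false 0 = w' := by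
        show X 0 + 0 = w'
        rw [add_zero, ← hl0, Xl]
      rw [e1] at this
      exact this
    · apply H.spc_miss_Fw trivial
      · show ¬ act 0
        rw [← hl0]; exact hal
      · show ¬ act (-1)
        have e1 : (-1 : ZMod h) = l - 1 := by rw [hl0]; ring
        rw [e1]; exact hal'
      · intro k b hk
        exact absurd (Subsingleton.elim _ _) hk
    · intro x z hxz
      rcases hcov x z hxz with h2 | h2 | h2 | h2 | h2 | h2
      · exact Or.inl h2
      · exact Or.inr (Or.inl h2)
      · exact Or.inr (Or.inr (Or.inr (Or.inr (Or.inr h2))))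
      · exact Or.inr (Or.inr (Or.inr (Or.inl h2)))
      · exact Or.inr (Or.inr (Or.inl h2))
      · exact Or.inr (Or.inr (Or.inr (Or.inr (Or.inl h2))))
  · have mspcw : ∀ v, ¬ G.spc w' v := by
      intro v
      have := H.spc_miss (i := l) hlne hl0 hal hal' v
      have e1 : G.e G.s false l = w' := by
        show X l + 0 = w'
        rw [add_zero, Xl]
      rw [e1] at this
      exact this
    have sgm_w1 : ∀ v, ¬ G.sgm (w + c) v := by
      intro v
      have := H.sgm_miss v
      have e1 : G.e G.s false 0 = w + c := by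
        show X 0 + 0 = w + c
        rw [add_zero, hX0 hl0]
      rw [e1] at this
      exact this
    rcases Nat.even_or_odd l.val with he | ho
    · have h1 := hfin G.spc G.rho G.sgm w (w + c) mspc mrho msgm mspcw rho_w sgm_w1
        (Or.inr ⟨l, he, hlne, hLV w' rfl⟩) (Or.inr ⟨l, he, hlne, hLV y ixy⟩)
        (Or.inr ⟨l, he, hlne, hLV a ixa⟩) ?_
      · refine h1.congr ?_
        intro k b
        cases k <;> cases b <;> simp
      · intro x z hxz
        rcases hcov x z hxz with h2 | h2 | h2 | h2 | h2 | h2
        · exact Or.inl h2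
        · exact Or.inr (Or.inl h2)
        · exact Or.inr (Or.inr (Or.inr (Or.inr (Or.inr h2))))
        · exact Or.inr (Or.inr (Or.inr (Or.inl h2)))
        · exact Or.inr (Or.inr (Or.inr (Or.inr (Or.inl h2))))
        · exact Or.inr (Or.inr (Or.inl h2))
    · have h1 := hfin G.spc G.sgm G.rho (w + c) w mspc msgm mrho mspcw sgm_w1 rho_w
        (Or.inr ⟨l, ho, hLV w' rfl⟩) (Or.inr ⟨l, ho, hLV y ixy⟩)
        (Or.inr ⟨l, ho, hLV a ixa⟩) ?_
      · refine h1.ends ?_
        intro k
        cases k
        · show s(w + 0, w + c) = s(w + c, w)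
          rw [add_zero, Sym2.eq_swap]
        · show s(w' + 0, w' + c) = s(w', w' + c)
          rw [add_zero]
      · intro x z hxz
        rcases hcov x z hxz with h2 | h2 | h2 | h2 | h2 | h2
        · exact Or.inl (by
            rcases h2 with ⟨p1, p2⟩ | ⟨p1, p2⟩
            · exact Or.inr ⟨p1, p2⟩
            · exact Or.inl ⟨p1, p2⟩)
        · exact Or.inr (Or.inl h2)
        · exact Or.inr (Or.inr (Or.inr (Or.inr (Or.inr h2))))
        · exact Or.inr (Or.inr (Or.inr (Or.inr (Or.inl h2))))
        · exact Or.inr (Or.inr (Or.inr (Or.inl h2)))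
        · exact Or.inr (Or.inr (Or.inl h2))

end Pool.Agent.P45
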