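import Pool.Agent.Lib.P45dba8.Centre
import Pool.Agent.Lib.P45dba8.Good
import Pool.Agent.Lib.P45dba8.CorePos

/-! # Positions of the holes of a block with leaves -/

set_option autoImplicit false

namespace Pool.Agent.P45

/-- The centre at the class `i` of a thread with the final class `r`. -/
def mcen {m h : ℕ} (sh y : ZMod h → ZMod m) (i r : ZMod h) : ZMod m :=
  if Odd (i - r).val then y i else y (i - 1) + sh i

theorem odd_val_sub_comm {h : ℕ} (ho : Odd h) (h3 : 3 ≤ h) {a b : ZMod h} (hne : a ≠ b) :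
    Odd (a - b).val ↔ ¬ Odd (b - a).val := by
  constructor
  · intro h1 h2
    have hNZ : NeZero h := ⟨by omega⟩
    have e : a - b = -(b - a) := by ring
    have hne' : b - a ≠ 0 := fun h' => hne (by linear_combination -h')
    rw [e, ZMod.neg_val, if_neg hne'] at h1
    have h3' := (b - a).val_lt
    obtain ⟨r, hr⟩ := ho
    obtain ⟨p, hp⟩ := h1
    obtain ⟨q, hq⟩ := h2
    omega
  · intro h1
    exact odd_sub_rev ho h3 hne h1

section levels

variable {h : ℕ} (ho : Odd h) (h3 : 3 ≤ h) (ρ : ZMod h ≃ ZMod h)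

/-- The two levels of a relation. -/
noncomputable def lvA (ρ : ZMod h ≃ ZMod h) (i : ZMod h) : ZMod h :=
  open Classical in if Odd (ρ i - i).val then ρ i else ρ i - 1

noncomputable def lvB (ρ : ZMod h ≃ ZMod h) (i : ZMod h) : ZMod h :=
  open Classical in if Odd (ρ i - i).val then i - 1 else i

theorem lvA_odd {ρ : ZMod h ≃ ZMod h} {i : ZMod h} (hi : Odd (ρ i - i).val) :
    lvA ρ i = ρ i := by unfold lvA; rw [if_pos hi]

theorem lvA_even {ρ : ZMod h ≃ ZMod h} {i : ZMod h} (hi : ¬ Odd (ρ i - i).val) :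
    lvA ρ i = ρ i - 1 := by unfold lvA; rw [if_neg hi]

theorem lvB_odd {ρ : ZMod h ≃ ZMod h} {i : ZMod h} (hi : Odd (ρ i - i).val) :
    lvB ρ i = i - 1 := by unfold lvB; rw [if_pos hi]

theorem lvB_even {ρ : ZMod h ≃ ZMod h} {i : ZMod h} (hi : ¬ Odd (ρ i - i).val) :
    lvB ρ i = i := by unfold lvB; rw [if_neg hi]

include ho h3

theorem lvAB_ne (i : ZMod h) : lvA ρ i ≠ lvB ρ i := by
  have hF : Fact (1 < h) := ⟨by omega⟩
  by_cases hi : Odd (ρ i - i).val
  · rw [lvA_odd hi, lvB_odd hi]
    intro h'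
    rw [h'] at hi
    have e : i - 1 - i = -1 := by ring
    rw [e] at hi
    exact not_odd_neg_one ho h3 hi
  · rw [lvA_even hi, lvB_even hi]
    intro h'
    apply hi
    have e : ρ i - i = 1 := by linear_combination h'
    rw [e, ZMod.val_one]
    exact odd_one

omit ho h3 in
theorem lvAB_card [DecidableEq (ZMod h)] [NeZero h] (j : ZMod h) :
    (Finset.univ.filter (fun i => lvA ρ i = j ∨ lvB ρ i = j)).card ≤ 4 := by
  have hsub : Finset.univ.filter (fun i => lvA ρ i = j ∨ lvB ρ i = j) ⊆
      {ρ.symm j, ρ.symm (j + 1), j + 1, j} := by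
    intro i hi
    rw [Finset.mem_filter] at hi
    simp only [Finset.mem_insert, Finset.mem_singleton]
    by_cases hodd : Odd (ρ i - i).val
    · rw [lvA_odd hodd, lvB_odd hodd] at hi
      rcases hi.2 with h1 | h1
      · left; rw [← h1, Equiv.symm_apply_apply]
      · right; right; left; rw [← h1]; ring
    · rw [lvA_even hodd, lvB_even hodd] at hi
      rcases hi.2 with h1 | h1
      · right; left
        rw [← h1, sub_add_cancel, Equiv.symm_apply_apply]
      · right; right; right; exact h1
  refine (Finset.card_le_card hsub).trans ?_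
  exact Finset.card_le_four

/-- The relations between two of the levels `0, -1, -2`. -/
theorem lv_special (hρ1 : ∀ i, ρ i ≠ i) (hρ2 : ∀ i, ρ (ρ i) ≠ i) (p q : ZMod h)
    (hpq : (p = 0 ∧ q = -2) ∨ (p = 0 ∧ q = -1) ∨ (p = -2 ∧ q = -1)) (i i' : ZMod h)
    (hi : (lvA ρ i = q ∧ lvB ρ i = p) ∨ (lvB ρ i = q ∧ lvA ρ i = p))
    (hi' : (lvA ρ i' = q ∧ lvB ρ i' = p) ∨ (lvB ρ i' = q ∧ lvA ρ i' = p)) : i = i' := by
  have hNZ : NeZero h := ⟨by omega⟩
  have hF : Fact (1 < h) := ⟨by omega⟩
  have v3 : ¬ Odd (-3 : ZMod h).val := by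
    by_cases h5 : h = 3
    · subst h5
      have e : (-3 : ZMod 3) = 0 := by decide
      rw [e, ZMod.val_zero]; simp
    · have e : (-3 : ZMod h).val = h - 3 := by
        have e1 : (3 : ZMod h) = ((3 : ℕ) : ZMod h) := by norm_num
        have hv : (3 : ZMod h).val = 3 := by
          rw [e1]; exact ZMod.val_natCast_of_lt (by omega)
        have h30 : (3 : ZMod h) ≠ 0 := by
          intro h'
          rw [h', ZMod.val_zero] at hv
          omega
        rw [ZMod.neg_val, if_neg h30, hv]
      rw [e, Nat.not_odd_iff_even]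
      obtain ⟨r, hr⟩ := ho
      exact ⟨r - 1, by omega⟩
  have v3' : (3 : ZMod h) = 0 ∨ Odd (3 : ZMod h).val := by
    by_cases h5 : h = 3
    · left; subst h5; decide
    · right
      have e1 : (3 : ZMod h) = ((3 : ℕ) : ZMod h) := by norm_num
      rw [e1, ZMod.val_natCast_of_lt (by omega)]
      exact ⟨1, rfl⟩
  -- the possible relations
  have key : ∀ i, ((lvA ρ i = q ∧ lvB ρ i = p) ∨ (lvB ρ i = q ∧ lvA ρ i = p)) →
      (p = 0 ∧ q = -2 ∧ ((i = -1 ∧ ρ i = 0) ∨ (i = 0 ∧ ρ i = -1))) ∨
      (p = 0 ∧ q = -1 ∧ ((i = 1 ∧ ρ i = -1) ∨ (i = -1 ∧ ρ i = 1))) ∨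
      (p = -2 ∧ q = -1 ∧ ((i = 0 ∧ ρ i = -2) ∨ (i = -2 ∧ ρ i = 0))) := by
    intro i hi
    by_cases hodd : Odd (ρ i - i).val
    · rw [lvA_odd hodd, lvB_odd hodd] at hi
      rcases hpq with ⟨rfl, rfl⟩ | ⟨rfl, rfl⟩ | ⟨rfl, rfl⟩
      · left
        refine ⟨rfl, rfl, ?_⟩
        rcases hi with ⟨h1, h2⟩ | ⟨h1, h2⟩
        · exfalso
          have e : ρ i - i = -3 := by linear_combination h1 - h2
          rw [e] at hodd
          exact v3 hodd
        · left; exact ⟨by linear_combination h1, h2⟩
      · right; left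
        refine ⟨rfl, rfl, ?_⟩
        rcases hi with ⟨h1, h2⟩ | ⟨h1, h2⟩
        · left; exact ⟨by linear_combination h2, h1⟩
        · exfalso
          apply hρ1 i
          linear_combination h2 - h1
      · right; right
        refine ⟨rfl, rfl, ?_⟩
        rcases hi with ⟨h1, h2⟩ | ⟨h1, h2⟩
        · exfalso
          apply hρ1 i
          linear_combination h1 - h2
        · left; exact ⟨by linear_combination h1, h2⟩
    · rw [lvA_even hodd, lvB_even hodd] at hi
      rcases hpq with ⟨rfl, rfl⟩ | ⟨rfl, rfl⟩ | ⟨rfl, rfl⟩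
      · left
        refine ⟨rfl, rfl, ?_⟩
        rcases hi with ⟨h1, h2⟩ | ⟨h1, h2⟩
        · right; exact ⟨h2, by linear_combination h1⟩
        · exfalso
          have e : ρ i - i = 3 := by linear_combination h2 - h1
          rcases v3' with h4 | h4
          · apply hρ1 i
            linear_combination e + h4
          · rw [e] at hodd
            exact hodd h4
      · right; left
        refine ⟨rfl, rfl, ?_⟩
        rcases hi with ⟨h1, h2⟩ | ⟨h1, h2⟩
        · exfalso
          apply hρ1 i
          linear_combination h1 - h2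
        · right; exact ⟨h1, by linear_combination h2⟩
      · right; right
        refine ⟨rfl, rfl, ?_⟩
        rcases hi with ⟨h1, h2⟩ | ⟨h1, h2⟩
        · right; exact ⟨h2, by linear_combination h1⟩
        · exfalso
          apply hρ1 i
          linear_combination h2 - h1
  have n1 : ∀ a b : ZMod h, ρ a = b → ρ b ≠ a := by
    intro a b h1 h2
    exact hρ2 a (by rw [h1, h2])
  have z10 : (1 : ZMod h) ≠ 0 := one_ne_zero
  have n02 : ∀ z z' : ZMod h, z = 0 → z' = -2 → z ≠ z' := by
    rintro z z' rfl rfl h'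
    have hv := val_neg_two (h := h) h3
    rw [← h', ZMod.val_zero] at hv
    omega
  have n12 : (-1 : ZMod h) ≠ -2 := by
    intro h'
    exact z10 (by linear_combination h')
  have n01 : (0 : ZMod h) ≠ -1 := by
    intro h'
    exact z10 (by linear_combination h')
  rcases key i hi with ⟨a1, a2, a3⟩ | ⟨a1, a2, a3⟩ | ⟨a1, a2, a3⟩ <;>
    rcases key i' hi' with ⟨b1, b2, b3⟩ | ⟨b1, b2, b3⟩ | ⟨b1, b2, b3⟩
  · rcases a3 with ⟨c1, c2⟩ | ⟨c1, c2⟩ <;> rcases b3 with ⟨d1, d2⟩ | ⟨d1, d2⟩
    · rw [c1, d1]
    · rw [c1] at c2; rw [d1] at d2; exact absurd d2 (n1 _ _ c2)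
    · rw [c1] at c2; rw [d1] at d2; exact absurd c2 (n1 _ _ d2)
    · rw [c1, d1]
  · exact absurd (b2.symm.trans a2) n12
  · exact absurd (a1.symm.trans b1) (n02 _ _ rfl rfl)
  · exact absurd (a2.symm.trans b2) n12
  · rcases a3 with ⟨c1, c2⟩ | ⟨c1, c2⟩ <;> rcases b3 with ⟨d1, d2⟩ | ⟨d1, d2⟩
    · rw [c1, d1]
    · rw [c1] at c2; rw [d1] at d2; exact absurd d2 (n1 _ _ c2)
    · rw [c1] at c2; rw [d1] at d2; exact absurd c2 (n1 _ _ d2)
    · rw [c1, d1]
  · exact absurd (a1.symm.trans b1) (n02 _ _ rfl rfl)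
  · exact absurd (b1.symm.trans a1) (n02 _ _ rfl rfl)
  · exact absurd (b1.symm.trans a1) (n02 _ _ rfl rfl)
  · rcases a3 with ⟨c1, c2⟩ | ⟨c1, c2⟩ <;> rcases b3 with ⟨d1, d2⟩ | ⟨d1, d2⟩
    · rw [c1, d1]
    · rw [c1] at c2; rw [d1] at d2; exact absurd d2 (n1 _ _ c2)
    · rw [c1] at c2; rw [d1] at d2; exact absurd c2 (n1 _ _ d2)
    · rw [c1, d1]

/-- A system of centres without forbidden differences. -/
theorem mcen_rel {m : ℕ} (hρ1 : ∀ i, ρ i ≠ i) (sh y κ : ZMod h → ZMod m)
    (H : ∀ i, y (lvA ρ i) - y (lvB ρ i) ≠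
      (if Odd (ρ i - i).val then κ i + sh i else κ i - sh (ρ i))) (i : ZMod h) :
    mcen sh y (ρ i) i - mcen sh y i (ρ i) ≠ κ i := by
  have h1 := H i
  by_cases hodd : Odd (ρ i - i).val
  · have hodd' : ¬ Odd (i - ρ i).val := (odd_val_sub_comm ho h3 (hρ1 i)).1 hodd
    rw [lvA_odd hodd, lvB_odd hodd, if_pos hodd] at h1
    unfold mcen
    rw [if_pos hodd, if_neg hodd']
    intro h2
    exact h1 (by linear_combination h2)
  · have hodd' : Odd (i - ρ i).val := (odd_val_sub_comm ho h3 (hρ1 i).symm).2 hodd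
    rw [lvA_even hodd, lvB_even hodd, if_neg hodd] at h1
    unfold mcen
    rw [if_neg hodd, if_pos hodd']
    intro h2
    exact h1 (by linear_combination h2)

end levels

/-- The positions of the holes in a block with leaves. -/
theorem leaf_pos (m h : ℕ) (hm : Odd m) (hm5 : 5 ≤ m) (hh : Odd h) (h3 : 3 ≤ h) (C : ZMod m)
    {Θ Λ : Type*} [hne : Nonempty Θ]
    (T : Θ → ZMod h → ZMod m) (r : Θ → ZMod h) (x : Θ → ZMod m)
    (brk : Θ → Θ → ZMod h → Prop)
    (hT1 : ∀ k i, Odd (i - r k).val → T k (i + 1) = T k i)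
    (hT2 : ∀ k l i, k ≠ l → Odd (i - r k).val → Odd (i - r l).val →
      T k i ≠ T l i ∧ T k i ≠ -T l i)
    (hT0 : ∀ k i, T k i ≠ 0)
    (hb1 : ∀ k l i, brk k l i → Odd (i - r k).val ∧ Odd (i - 1 - r l).val ∧ T k i = T l i)
    (hb2 : (∀ k, ¬ Odd (r k).val) → ∀ k l i, brk k l i → i ≠ 0 ∧ i ≠ -1)
    (istar : ZMod h) (hb3 : ∀ k l i, brk k l i → i = istar)
    (hb7 : ∀ k l i, brk k l i → 7 ≤ m)
    (a : Λ → ZMod m) (ha0 : ∀ l, a l ≠ 0) (ha1 : ∀ l k i, a l ≠ T k i ∧ a l ≠ -T k i)
    (ha2 : ∀ l l', l ≠ l' → a l ≠ a l' ∧ a l ≠ -a l')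
    (R : Λ → Bool → ZMod h) (z : Λ → Bool → ZMod m)
    (ρ : ZMod h ≃ ZMod h) (hρ1 : ∀ i, ρ i ≠ i) (hρ2 : ∀ i, ρ (ρ i) ≠ i)
    (κ : ZMod h → ZMod m)
    (hR : ∀ l, R l true = ρ (R l false)) (hz : ∀ l, z l true = z l false + κ (R l false)) :
    ∃ (ver : Λ → Bool) (X : Λ ⊕ Θ → ZMod h → ZMod m) (s : Θ) (σ : ZMod h → Bool),
      (∀ k, X k (Sum.elim (fun l => R l (ver l)) r k) = Sum.elim (fun l => z l (ver l)) x k) ∧
      (∀ k i, Odd (i - Sum.elim (fun l => R l (ver l)) r k).val →
        X k (i + 1) = X k i + if i + 1 = 0 then C else 0) ∧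
      (∀ k l i, k ≠ l → Odd (i - Sum.elim (fun l => R l (ver l)) r k).val →
        Odd (i - Sum.elim (fun l => R l (ver l)) r l).val →
        ∀ b b', X k i + (bif b then Sum.elim (fun l _ => a l) T k i else 0) ≠
          X l i + (bif b' then Sum.elim (fun l _ => a l) T l i else 0)) ∧
      (∀ k l i, brk k l i → IsUnit (X (Sum.inr k) i - X (Sum.inr l) i)) ∧
      (∀ i, Odd (i - r s).val → σ (i + 1) = σ i) ∧ σ (r s) = false ∧
      (r s ≠ -1 → X (Sum.inr s) (-1) + (bif σ (-1) then T s (-1) else 0) = -C) ∧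
      (r s ≠ 0 → X (Sum.inr s) 0 + (bif σ 0 then T s 0 else 0) = 0) ∧
      (∀ k b, k ≠ Sum.inr s → Odd (-1 - Sum.elim (fun l => R l (ver l)) r k).val →
        X k (-1) + (bif b then Sum.elim (fun l _ => a l) T k (-1) else 0) ≠ -C) ∧
      (∀ l, X (Sum.inl l) (R l (!ver l)) ≠ z l (!ver l)) := by
  classical
  have hm1 : m ≠ 0 := by omega
  have hNh : NeZero h := ⟨by omega⟩
  have hNm : NeZero m := ⟨hm1⟩
  have hFh : Fact (1 < h) := ⟨by omega⟩
  -- halves
  have h2u : IsUnit ((2 : ℕ) : ZMod m) := by
    rw [ZMod.isUnit_iff_coprime]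
    exact (Nat.coprime_two_left.2 hm)
  have h2u' : IsUnit (2 : ZMod m) := by exact_mod_cast h2u
  obtain ⟨hf, hhf⟩ := h2u'.exists_right_inv
  let sh : ZMod h → ZMod m := fun i => if i = 0 then C else 0
  have h00 : ¬ Odd (0 : ZMod h).val := by rw [ZMod.val_zero]; simp
  have n12 : (-2 : ZMod h) ≠ -1 := by
    intro h'
    exact one_ne_zero (show (1 : ZMod h) = 0 by linear_combination -h')
  have n01 : (0 : ZMod h) ≠ -1 := by
    intro h'
    exact one_ne_zero (show (1 : ZMod h) = 0 by linear_combination h')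
  have n02 : (0 : ZMod h) ≠ -2 := by
    intro h'
    have hv := val_neg_two (h := h) h3
    rw [← h', ZMod.val_zero] at hv
    omega
  have hR1 : ∀ l, R l true ≠ R l false := fun l => by rw [hR]; exact hρ1 _
  -- the main step for given centres
  have main : ∀ (y : ZMod h → ZMod m) (s : Θ) (σ : ZMod h → Bool),
      (∀ i, mcen sh y (ρ i) i - mcen sh y i (ρ i) ≠ κ i) →
      (∀ k l i, brk k l i → IsUnit (y i - y (i - 1) - sh i)) →
      (∀ i, Odd (i - r s).val → σ (i + 1) = σ i) → σ (r s) = false → σ 0 = false →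
      (Odd (r s).val → y (-1) = -C + hf * T s (-1) ∧ σ (-1) = false) →
      (¬ Odd (r s).val → (∀ k, ¬ Odd (r k).val) ∧
        (r s ≠ -1 → y (-2) = -C + hf * T s (-1) - (bif σ (-1) then T s (-1) else 0)) ∧
        (r s ≠ 0 → y 0 = hf * T s 0) ∧
        (∀ l, y (-1) - hf * a l ≠ -C ∧ y (-1) + hf * a l ≠ -C)) →
      ∃ (ver : Λ → Bool) (X : Λ ⊕ Θ → ZMod h → ZMod m) (s : Θ) (σ : ZMod h → Bool),
      (∀ k, X k (Sum.elim (fun l => R l (ver l)) r k) = Sum.elim (fun l => z l (ver l)) x k) ∧
      (∀ k i, Odd (i - Sum.elim (fun l => R l (ver l)) r k).val →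
        X k (i + 1) = X k i + if i + 1 = 0 then C else 0) ∧
      (∀ k l i, k ≠ l → Odd (i - Sum.elim (fun l => R l (ver l)) r k).val →
        Odd (i - Sum.elim (fun l => R l (ver l)) r l).val →
        ∀ b b', X k i + (bif b then Sum.elim (fun l _ => a l) T k i else 0) ≠
          X l i + (bif b' then Sum.elim (fun l _ => a l) T l i else 0)) ∧
      (∀ k l i, brk k l i → IsUnit (X (Sum.inr k) i - X (Sum.inr l) i)) ∧
      (∀ i, Odd (i - r s).val → σ (i + 1) = σ i) ∧ σ (r s) = false ∧
      (r s ≠ -1 → X (Sum.inr s) (-1) + (bif σ (-1) then T s (-1) else 0) = -C) ∧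
      (r s ≠ 0 → X (Sum.inr s) 0 + (bif σ 0 then T s 0 else 0) = 0) ∧
      (∀ k b, k ≠ Sum.inr s → Odd (-1 - Sum.elim (fun l => R l (ver l)) r k).val →
        X k (-1) + (bif b then Sum.elim (fun l _ => a l) T k (-1) else 0) ≠ -C) ∧
      (∀ l, X (Sum.inl l) (R l (!ver l)) ≠ z l (!ver l)) := by
    intro y s σ hrel hy hσ1 hσ2 hσ0 hyO hyE
    let ver : Λ → Bool := fun l =>
      if mcen sh y (R l true) (R l false) - hf * a l = z l true then true else false
    let r' : Λ ⊕ Θ → ZMod h := Sum.elim (fun l => R l (ver l)) r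
    let x' : Λ ⊕ Θ → ZMod m := Sum.elim (fun l => z l (ver l)) x
    let T' : Λ ⊕ Θ → ZMod h → ZMod m := Sum.elim (fun l _ => a l) T
    let X : Λ ⊕ Θ → ZMod h → ZMod m := fun k i =>
      if i = r' k then x' k else mcen sh y i (r' k) - hf * T' k i
    have X_real : ∀ k, X k (r' k) = x' k := fun k => if_pos rfl
    have X_ne : ∀ k i, i ≠ r' k → X k i = mcen sh y i (r' k) - hf * T' k i :=
      fun k i hi => if_neg hi
    have X_low : ∀ k i, Odd (i - r' k).val → X k i = y i - hf * T' k i := by
      intro k i hi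
      have hne' : i ≠ r' k := by
        rintro rfl
        rw [sub_self] at hi
        exact h00 hi
      rw [X_ne k i hne']
      unfold mcen
      rw [if_pos hi]
    have X_up : ∀ k i, Odd (i - 1 - r' k).val → X k i = y (i - 1) + sh i - hf * T' k i := by
      intro k i hi
      have hne' : i ≠ r' k := by
        rintro rfl
        have e1 : r' k - 1 - r' k = -1 := by ring
        rw [e1] at hi
        exact not_odd_neg_one hh h3 hi
      have hodd : ¬ Odd (i - r' k).val := by
        have e1 : i - r' k = i - 1 - r' k + 1 := by ring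
        rw [e1]
        exact not_odd_succ hh h3 hi
      rw [X_ne k i hne']
      unfold mcen
      rw [if_neg hodd]
    have hT1' : ∀ k i, Odd (i - r' k).val → T' k (i + 1) = T' k i := by
      rintro (l | k) i hi
      · rfl
      · exact hT1 k i hi
    have hT2' : ∀ k l i, k ≠ l → Odd (i - r' k).val → Odd (i - r' l).val →
        T' k i ≠ T' l i ∧ T' k i ≠ -T' l i := by
      rintro (l | k) (l' | k') i hne' hi hi'
      · exact ha2 l l' (fun h' => hne' (congrArg Sum.inl h'))
      · exact ha1 l k' i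
      · obtain ⟨q1, q2⟩ := ha1 l' k i
        refine ⟨fun h' => q1 h'.symm, fun h' => q2 ?_⟩
        have h'' : T k i = -a l' := h'
        rw [h'', neg_neg]
      · exact hT2 k k' i (fun h' => hne' (congrArg Sum.inr h')) hi hi'
    have eF : ∀ k i, Odd (i - r' k).val → X k (i + 1) = X k i + sh (i + 1) := by
      intro k i hi
      have hi' : Odd (i + 1 - 1 - r' k).val := by
        rw [add_sub_cancel_right]; exact hi
      rw [X_low k i hi, X_up k (i + 1) hi', add_sub_cancel_right, hT1' k i hi]
      ring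
    have disj : ∀ k l i, k ≠ l → Odd (i - r' k).val → Odd (i - r' l).val →
        ∀ b b', X k i + (bif b then T' k i else 0) ≠ X l i + (bif b' then T' l i else 0) := by
      intro k l i hkl hk hl b b' h1
      obtain ⟨n1, n2⟩ := hT2' k l i hkl hk hl
      rw [X_low k i hk, X_low l i hl] at h1
      cases b <;> cases b' <;> simp only [cond_true, cond_false] at h1
      · apply n1
        linear_combination (-2) * h1 + (T' l i - T' k i) * hhf
      · apply n2
        linear_combination (-2) * h1 + (T' l i - T' k i) * hhf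
      · apply n2
        linear_combination 2 * h1 + (T' k i - T' l i) * hhf
      · apply n1
        linear_combination 2 * h1 + (T' k i - T' l i) * hhf
    have e11 : (-1 : ZMod h) - 1 = -2 := by ring
    have hs1 : r s ≠ -1 → X (Sum.inr s) (-1) + (bif σ (-1) then T s (-1) else 0) = -C := by
      intro hr
      by_cases ho : Odd (r s).val
      · have h5 := X_low (Sum.inr s) (-1) ((odd_neg_one_sub hh h3 _).2 ho)
        have h6 : T' (Sum.inr s) (-1) = T s (-1) := rfl
        rw [h5, (hyO ho).1, (hyO ho).2, h6, cond_false]; ring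
      · have hodd : Odd (-1 - 1 - r s).val := by
          rcases odd_or_pred h3 (x := -1 - r s) (by
            intro h'; exact hr (by linear_combination -h')) with h1 | h1
          · exact absurd ((odd_neg_one_sub hh h3 _).1 h1) ho
          · have : (-1 : ZMod h) - 1 - r s = -1 - r s - 1 := by ring
            rw [this]; exact h1
        have h7 : sh (-1) = 0 := if_neg n01.symm
        have h5 := X_up (Sum.inr s) (-1) hodd
        have h6 : T' (Sum.inr s) (-1) = T s (-1) := rfl
        rw [h5, e11, (hyE ho).2.1 hr, h7, h6]; ring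
    have hs0 : r s ≠ 0 → X (Sum.inr s) 0 + (bif σ 0 then T s 0 else 0) = 0 := by
      intro hr
      rw [hσ0, cond_false, add_zero]
      by_cases ho : Odd (r s).val
      · have hr1 : r s ≠ -1 := by
          intro h'
          rw [h'] at ho
          exact not_odd_neg_one hh h3 ho
        have := eF (Sum.inr s) (-1) ((odd_neg_one_sub hh h3 _).2 ho)
        have h8 := hs1 hr1
        rw [(hyO ho).2, cond_false, add_zero] at h8
        rw [h8] at this
        have e0 : (-1 : ZMod h) + 1 = 0 := by ring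
        rw [e0] at this
        have e1 : sh 0 = C := if_pos rfl
        rw [this, e1]; ring
      · have hodd : Odd (0 - r s).val := odd_neg_of_even hh h3 ho hr
        have h5 := X_low (Sum.inr s) 0 hodd
        have h6 : T' (Sum.inr s) 0 = T s 0 := rfl
        rw [h5, (hyE ho).2.2.1 hr, h6]; ring
    have hs : ∀ k b, k ≠ Sum.inr s → Odd (-1 - r' k).val →
        X k (-1) + (bif b then T' k (-1) else 0) ≠ -C := by
      intro k b hk hodd
      by_cases ho : Odd (r s).val
      · have hr1 : r s ≠ -1 := by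
          intro h'
          rw [h'] at ho
          exact not_odd_neg_one hh h3 ho
        have h8 := hs1 hr1
        rw [(hyO ho).2, cond_false, add_zero] at h8
        rw [← h8]
        have := disj k (Sum.inr s) (-1) hk hodd ((odd_neg_one_sub hh h3 _).2 ho) b false
        simpa using this
      · rcases k with l | k
        · obtain ⟨q1, q2⟩ := (hyE ho).2.2.2 l
          have h5 := X_low (Sum.inl l) (-1) hodd
          have h6 : T' (Sum.inl l) (-1) = a l := rfl
          rw [h5, h6]
          cases b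
          · simp only [cond_false, add_zero]; exact q1
          · simp only [cond_true]
            intro h'
            apply q2
            linear_combination h' + (a l) * hhf
        · exact absurd ((odd_neg_one_sub hh h3 _).1 hodd) ((hyE ho).1 k)
    refine ⟨ver, X, s, σ, X_real, eF, disj, ?_, hσ1, hσ2, hs1, hs0, hs, ?_⟩
    · intro k l i hb
      obtain ⟨b1, b2, b3⟩ := hb1 k l i hb
      have e1 : X (Sum.inr k) i - X (Sum.inr l) i = y i - y (i - 1) - sh i := by
        have h5 := X_low (Sum.inr k) i b1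
        have h6 := X_up (Sum.inr l) i b2
        have h7 : T' (Sum.inr k) i = T k i := rfl
        have h8 : T' (Sum.inr l) i = T l i := rfl
        rw [h5, h6, h7, h8, b3]; ring
      rw [e1]
      exact hy k l i hb
    · intro l
      have h5 := X_ne (Sum.inl l)
      by_cases hv : mcen sh y (R l true) (R l false) - hf * a l = z l true
      · have hver : ver l = true := if_pos hv
        have hr' : r' (Sum.inl l) = R l true := by
          show R l (ver l) = R l true
          rw [hver]
        rw [hver]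
        show X (Sum.inl l) (R l false) ≠ z l false
        rw [h5 (R l false) (by rw [hr']; exact (hR1 l).symm), hr']
        show mcen sh y (R l false) (R l true) - hf * a l ≠ z l false
        intro h6
        apply hrel (R l false)
        rw [← hR l]
        linear_combination hv - h6 + hz l
      · have hver : ver l = false := if_neg hv
        have hr' : r' (Sum.inl l) = R l false := by
          show R l (ver l) = R l false
          rw [hver]
        rw [hver]
        show X (Sum.inl l) (R l true) ≠ z l true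
        rw [h5 (R l true) (by rw [hr']; exact hR1 l), hr']
        exact hv
  -- choice of the centres
  let κ' : ZMod h → ZMod m := fun i => if Odd (ρ i - i).val then κ i + sh i else κ i - sh (ρ i)
  have hAB := lvAB_ne hh h3 ρ
  have hcard := lvAB_card ρ
  let U : Prop := ∃ k l i, brk k l i
  have hU : U → 7 ≤ m ∧ Odd m := by
    rintro ⟨k, l, i, hb⟩
    exact ⟨hb7 k l i hb, hm⟩
  have hpq : istar - 1 ≠ istar := by
    intro h'
    exact one_ne_zero (show (1 : ZMod h) = 0 by linear_combination -h')
  have fin : ∀ (S0 : Finset (ZMod h)) (y0 : ZMod h → ZMod m),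
      RelOn (lvA ρ) (lvB ρ) κ' S0 y0 → (U → ¬ (istar - 1 ∈ S0 ∧ istar ∈ S0)) →
      ∃ y : ZMod h → ZMod m, (∀ j ∈ S0, y j = y0 j) ∧
        (∀ i, mcen sh y (ρ i) i - mcen sh y i (ρ i) ≠ κ i) ∧
        (∀ k l i, brk k l i → IsUnit (y i - y (i - 1) - sh i)) := by
    intro S0 y0 H0 hS
    obtain ⟨y, y1, y2, y3⟩ := RelOn.extend hm5 hAB κ' hcard U hU (istar - 1) istar hpq (sh istar)
      S0 y0 H0 hS
    refine ⟨y, y1, ?_, ?_⟩
    · apply mcen_rel hh h3 ρ hρ1
      intro i
      exact y2 i (Finset.mem_univ _) (Finset.mem_univ _)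
    · intro k l i hb
      rw [hb3 k l i hb]
      exact y3 ⟨k, l, i, hb⟩
  by_cases hO : ∃ s, Odd (r s).val
  · obtain ⟨s, hs⟩ := hO
    obtain ⟨y, y1, y2, y3⟩ := fin {-1} (fun _ => -C + hf * T s (-1)) (by
      intro i hA hB
      exact absurd ((Finset.mem_singleton.1 hA).trans (Finset.mem_singleton.1 hB).symm)
        (hAB i)) (fun _ h' => hpq ((Finset.mem_singleton.1 h'.1).trans
          (Finset.mem_singleton.1 h'.2).symm))
    exact main y s (fun _ => false) y2 y3 (fun _ _ => rfl) rfl rfl
      (fun _ => ⟨y1 (-1) (Finset.mem_singleton_self _), rfl⟩) (fun h' => absurd hs h')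
  · have hE : ∀ k, ¬ Odd (r k).val := fun k hk => hO ⟨k, hk⟩
    obtain ⟨s⟩ := hne
    have cardle : ∀ (p q : ZMod h) (S : Finset (ZMod h)),
        ((p = 0 ∧ q = -2) ∨ (p = 0 ∧ q = -1) ∨ (p = -2 ∧ q = -1)) → S ⊆ {p} →
        (Finset.univ.filter (fun i => (lvA ρ i = q ∧ lvB ρ i ∈ S) ∨
          (lvB ρ i = q ∧ lvA ρ i ∈ S))).card ≤ 1 := by
      intro p q S hp hS
      rw [Finset.card_le_one]
      intro i hi i' hi'
      rw [Finset.mem_filter] at hi hi'
      have hS' : ∀ x, x ∈ S → x = p := fun x hx => Finset.mem_singleton.1 (hS hx)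
      apply lv_special hh h3 ρ hρ1 hρ2 p q hp i i'
      · rcases hi.2 with ⟨h1, h2⟩ | ⟨h1, h2⟩
        · exact Or.inl ⟨h1, hS' _ h2⟩
        · exact Or.inr ⟨h1, hS' _ h2⟩
      · rcases hi'.2 with ⟨h1, h2⟩ | ⟨h1, h2⟩
        · exact Or.inl ⟨h1, hS' _ h2⟩
        · exact Or.inr ⟨h1, hS' _ h2⟩
    -- level 0
    obtain ⟨S1, w1, k1, k2, k3, k4⟩ : ∃ (S1 : Finset (ZMod h)) (w1 : ZMod h → ZMod m),
        S1 ⊆ {0} ∧ (0 ∈ S1 → r s ≠ 0) ∧ (r s ≠ 0 → 0 ∈ S1 ∧ w1 0 = hf * T s 0) ∧
        RelOn (lvA ρ) (lvB ρ) κ' S1 w1 := by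
      by_cases h0 : r s = 0
      · refine ⟨∅, fun _ => 0, by simp, by simp, fun h' => absurd h0 h', ?_⟩
        intro i hA
        simp at hA
      · refine ⟨{0}, fun _ => hf * T s 0, subset_rfl, fun _ => h0,
          fun _ => ⟨Finset.mem_singleton_self _, rfl⟩, ?_⟩
        intro i hA hB
        exact absurd ((Finset.mem_singleton.1 hA).trans (Finset.mem_singleton.1 hB).symm)
          (hAB i)
    have n2S1 : (-2 : ZMod h) ∉ S1 := fun h' => n02 (Finset.mem_singleton.1 (k1 h')).symm
    have n1S1 : (-1 : ZMod h) ∉ S1 := fun h' => n01 (Finset.mem_singleton.1 (k1 h')).symm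
    -- level -2
    obtain ⟨S2, w2, f, g1, g2, g3, g4, g5, g6, g7⟩ : ∃ (S2 : Finset (ZMod h))
        (w2 : ZMod h → ZMod m) (f : Bool),
        S1 ⊆ S2 ∧ S2 ⊆ insert (-2) S1 ∧ (-2 ∈ S2 → r s ≠ -1) ∧
        (r s ≠ -1 → -2 ∈ S2 ∧ w2 (-2) = -C + hf * T s (-1) - (bif f then T s (-1) else 0)) ∧
        (∀ j ∈ S1, w2 j = w1 j) ∧ RelOn (lvA ρ) (lvB ρ) κ' S2 w2 ∧
        (f = true → r s ≠ -1) := by
      by_cases h1 : r s = -1
      · refine ⟨S1, w1, false, subset_rfl, Finset.subset_insert _ _, fun h' => absurd h' n2S1,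
          fun h' => absurd h1 h', fun _ _ => rfl, k4, fun h' => by simp at h'⟩
      · have hcd : ({-C + hf * T s (-1), -C + hf * T s (-1) - T s (-1)} : Finset (ZMod m)).card
            = 2 := by
          apply Finset.card_pair
          intro h'
          exact hT0 s (-1) (by linear_combination h')
        obtain ⟨v, hv, hrel⟩ := k4.step hAB n2S1
          {-C + hf * T s (-1), -C + hf * T s (-1) - T s (-1)} (by
            have := cardle 0 (-2) S1 (Or.inl ⟨rfl, rfl⟩) k1
            omega)
        refine ⟨insert (-2) S1, Function.update w1 (-2) v,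
          if v = -C + hf * T s (-1) then false else true, Finset.subset_insert _ _, subset_rfl,
          fun _ => h1, fun _ => ⟨Finset.mem_insert_self _ _, ?_⟩, ?_, hrel, fun _ => h1⟩
        · rw [Function.update_self]
          rcases Finset.mem_insert.1 hv with h2 | h2
          · rw [if_pos h2, cond_false, sub_zero]; exact h2
          · have h2' := Finset.mem_singleton.1 h2
            have h4 : v ≠ -C + hf * T s (-1) := by
              rw [h2']
              intro h'
              exact hT0 s (-1) (by linear_combination -h')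
            rw [if_neg h4, cond_true]; exact h2'
        · intro j hj
          apply Function.update_of_ne
          rintro rfl
          exact n2S1 hj
    have n1S2 : (-1 : ZMod h) ∉ S2 := by
      intro h'
      rcases Finset.mem_insert.1 (g2 h') with h'' | h''
      · exact n12 h''.symm
      · exact n1S1 h''
    -- level -1
    have hcd3 : ({-C, -C + hf * T s (-1), -C - hf * T s (-1)} : Finset (ZMod m)).card = 3 := by
      have hfT : hf * T s (-1) ≠ 0 := by
        intro h'
        apply hT0 s (-1)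
        linear_combination 2 * h' - (T s (-1)) * hhf
      apply Finset.card_eq_three.2
      refine ⟨_, _, _, ?_, ?_, ?_, rfl⟩
      · intro h'
        exact hfT (by linear_combination -h')
      · intro h'
        exact hfT (by linear_combination h')
      · intro h'
        apply hT0 s (-1)
        linear_combination h' - (T s (-1)) * hhf
    obtain ⟨v, hv, hrel⟩ := g6.step hAB n1S2
      {-C, -C + hf * T s (-1), -C - hf * T s (-1)} (by
        rw [hcd3]
        have q1 := cardle 0 (-1) (S2 ∩ {0}) (Or.inr (Or.inl ⟨rfl, rfl⟩))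
          Finset.inter_subset_right
        have q2 := cardle (-2) (-1) (S2 ∩ {-2}) (Or.inr (Or.inr ⟨rfl, rfl⟩))
          Finset.inter_subset_right
        have q3 : (Finset.univ.filter (fun i => (lvA ρ i = -1 ∧ lvB ρ i ∈ S2) ∨
            (lvB ρ i = -1 ∧ lvA ρ i ∈ S2))) ⊆
            (Finset.univ.filter (fun i => (lvA ρ i = -1 ∧ lvB ρ i ∈ S2 ∩ {0}) ∨
            (lvB ρ i = -1 ∧ lvA ρ i ∈ S2 ∩ {0}))) ∪
            (Finset.univ.filter (fun i => (lvA ρ i = -1 ∧ lvB ρ i ∈ S2 ∩ {-2}) ∨
            (lvB ρ i = -1 ∧ lvA ρ i ∈ S2 ∩ {-2}))) := by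
          intro i hi
          rw [Finset.mem_filter] at hi
          have hsp : ∀ x, x ∈ S2 → x ∈ S2 ∩ {0} ∨ x ∈ S2 ∩ {-2} := by
            intro x hx
            rcases Finset.mem_insert.1 (g2 hx) with h' | h'
            · exact Or.inr (Finset.mem_inter.2 ⟨hx, Finset.mem_singleton.2 h'⟩)
            · exact Or.inl (Finset.mem_inter.2 ⟨hx, k1 h'⟩)
          rw [Finset.mem_union, Finset.mem_filter, Finset.mem_filter]
          rcases hi.2 with ⟨h1, h2⟩ | ⟨h1, h2⟩ <;> rcases hsp _ h2 with h4 | h4
          · exact Or.inl ⟨Finset.mem_univ _, Or.inl ⟨h1, h4⟩⟩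
          · exact Or.inr ⟨Finset.mem_univ _, Or.inl ⟨h1, h4⟩⟩
          · exact Or.inl ⟨Finset.mem_univ _, Or.inr ⟨h1, h4⟩⟩
          · exact Or.inr ⟨Finset.mem_univ _, Or.inr ⟨h1, h4⟩⟩
        have q4 := (Finset.card_le_card q3).trans (Finset.card_union_le _ _)
        omega)
    obtain ⟨y, y1, y2, y3⟩ := fin (insert (-1) S2) (Function.update w2 (-1) v) hrel (by
      rintro ⟨k, l, i, hb⟩ ⟨hp, hq⟩
      obtain ⟨b1, b2⟩ := hb2 hE k l i hb
      rw [hb3 k l i hb] at b1 b2
      have q1 : istar = -2 := by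
        rcases Finset.mem_insert.1 hq with h' | h'
        · exact absurd h' b2
        · rcases Finset.mem_insert.1 (g2 h') with h'' | h''
          · exact h''
          · exact absurd (Finset.mem_singleton.1 (k1 h'')) b1
      have hq2 : (-2 : ZMod h) ∈ S2 := by
        rcases Finset.mem_insert.1 hq with h' | h'
        · exact absurd h' b2
        · rw [q1] at h'; exact h'
      have hrs1 := g3 hq2
      rw [q1] at hp
      have e3 : (-2 : ZMod h) - 1 = -3 := by ring
      rw [e3] at hp
      rcases Finset.mem_insert.1 hp with h' | h'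
      · exact n02 (show (0 : ZMod h) = -2 by linear_combination -h')
      · rcases Finset.mem_insert.1 (g2 h') with h'' | h''
        · exact one_ne_zero (show (1 : ZMod h) = 0 by linear_combination -h'')
        · have h30 := Finset.mem_singleton.1 (k1 h'')
          rw [h30] at h''
          have hrs0 := k2 h''
          -- `h = 3`
          have hd : ((3 : ℕ) : ZMod h) = 0 := by
            push_cast
            linear_combination -h30
          rw [ZMod.natCast_eq_zero_iff] at hd
          have hh3 : h = 3 := by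
            have := Nat.le_of_dvd (by omega) hd
            omega
          have v1 := (r s).val_lt
          have v2 := hE s
          have v3 : (r s).val ≠ 0 := fun h' => hrs0 ((ZMod.val_eq_zero _).1 h')
          have v4 : (r s).val ≠ 1 := fun h' => v2 (by rw [h']; exact odd_one)
          apply hrs1
          have v5 : (r s).val = (-1 : ZMod h).val := by
            rw [zval_neg_one h3]; omega
          exact ZMod.val_injective h v5)
    have y1' : ∀ j ∈ S2, y j = w2 j := by
      intro j hj
      rw [y1 j (Finset.mem_insert_of_mem hj)]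
      apply Function.update_of_ne
      rintro rfl
      exact n1S2 hj
    have yv : y (-1) = v := by
      rw [y1 (-1) (Finset.mem_insert_self _ _), Function.update_self]
    let σ : ZMod h → Bool := fun i => f && (decide (i = -1) || decide (i = -2))
    have hrodd : ∀ i : ZMod h, f = true → Odd (i - r s).val → i ≠ -1 ∧ i ≠ -3 := by
      intro i hft hi
      have hr1 := g7 hft
      refine ⟨?_, ?_⟩
      · rintro rfl
        exact hE s ((odd_neg_one_sub hh h3 _).1 hi)
      · rintro rfl
        have h5 := not_odd_succ hh h3 hi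
        have e5 : -3 - r s + 1 = -1 - r s - 1 := by ring
        rw [e5] at h5
        rcases odd_or_pred h3 (x := -1 - r s) (by
          intro h'; exact hr1 (by linear_combination -h')) with h1 | h1
        · exact hE s ((odd_neg_one_sub hh h3 _).1 h1)
        · exact h5 h1
    refine main y s σ y2 y3 ?_ ?_ ?_ (fun h' => absurd h' (hE s)) (fun _ => ⟨hE, ?_, ?_, ?_⟩)
    · intro i hi
      cases hf' : f
      · show (f && _) = (f && _)
        rw [hf', Bool.false_and, Bool.false_and]
      · obtain ⟨q1, q2⟩ := hrodd i hf' hi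
        show (f && (decide (i + 1 = -1) || decide (i + 1 = -2))) =
          (f && (decide (i = -1) || decide (i = -2)))
        have c1 : decide (i + 1 = -1) = decide (i = -2) := by
          rw [decide_eq_decide]
          exact ⟨fun h' => by linear_combination h', fun h' => by linear_combination h'⟩
        have c2 : decide (i + 1 = -2) = false := by
          rw [decide_eq_false_iff_not]
          intro h'
          exact q2 (by linear_combination h')
        have c3 : decide (i = -1) = false := decide_eq_false q1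
        rw [c1, c2, c3, Bool.or_false, Bool.false_or]
    · show (f && (decide (r s = -1) || decide (r s = -2))) = false
      cases hf' : f
      · rfl
      · have c1 : decide (r s = -1) = false := decide_eq_false (g7 hf')
        have c2 : decide (r s = -2) = false := by
          rw [decide_eq_false_iff_not]
          intro h'
          apply hE s
          rw [h', val_neg_two h3]
          obtain ⟨q, hq⟩ := hh
          exact ⟨q - 1, by omega⟩
        rw [c1, c2]; rfl
    · show (f && (decide ((0 : ZMod h) = -1) || decide ((0 : ZMod h) = -2))) = false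
      rw [decide_eq_false n01, decide_eq_false n02]
      simp
    · intro hr
      obtain ⟨q1, q2⟩ := g4 hr
      have e1 : σ (-1) = f := by
        show (f && (decide ((-1 : ZMod h) = -1) || decide ((-1 : ZMod h) = -2))) = f
        rw [decide_eq_true rfl, Bool.true_or, Bool.and_true]
      rw [y1' _ q1, q2, e1]
    · intro hr
      obtain ⟨q1, q2⟩ := k3 hr
      rw [y1' _ (g1 q1), g5 _ q1, q2]
    · intro l
      rw [yv]
      obtain ⟨q1, q2⟩ := ha1 l s (-1)
      have q0 := ha0 l
      have hfa : hf * a l ≠ 0 := by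
        intro h'
        apply q0
        linear_combination 2 * h' - (a l) * hhf
      rcases Finset.mem_insert.1 hv with h2 | h2
      · rw [h2]
        exact ⟨fun h' => hfa (by linear_combination -h'), fun h' => hfa (by linear_combination h')⟩
      · rcases Finset.mem_insert.1 h2 with h2 | h2
        · rw [h2]
          refine ⟨fun h' => q1 ?_, fun h' => q2 ?_⟩
          · linear_combination (-2) * h' + (T s (-1) - a l) * hhf
          · linear_combination 2 * h' - (T s (-1) + a l) * hhf
        · rw [Finset.mem_singleton.1 h2]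
          refine ⟨fun h' => q2 ?_, fun h' => q1 ?_⟩
          · linear_combination (-2) * h' - (T s (-1) + a l) * hhf
          · linear_combination 2 * h' + (T s (-1) - a l) * hhf

end Pool.Agent.P45
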