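import Pool.Agent.Lib.P45dba8.Joint
import Pool.Agent.Lib.P45dba8.PairGood

/-! # One pair alone, hosted by any two blocks

The two threads of the pair go into two different blocks. The positions do not depend on the types,
and the sign of the type of a thread in the only class with two holes of one type is free. -/

set_option autoImplicit false

namespace Pool.Agent.P45

/-- Gluing of several blocks with exactly one thread in every block. -/
theorem joint_glue1 {m h : ℕ} (hh : Odd h) (h3 : 3 ≤ h) {J : Type*}
    (E0 : ZMod (m * h) → ZMod (m * h) → Prop) (hE0 : ∀ v v', E0 v v' → red m h v = red m h v')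
    (E : J → ZMod (m * h) → ZMod (m * h) → Prop) (w w' : J → ZMod (m * h))
    (π : J → (ZMod h ≃ ZMod h)) (W : J → ZMod h → ZMod (m * h))
    (hW : ∀ j i, red m h (W j i) = π j (i + 1) - π j i) (hw : ∀ j, red m h (w j) = π j (-1))
    (hw' : ∀ j, w' j = w j + W j (-1))
    (hE : ∀ j v v', E j v v' → v' = v + W j ((π j).symm (red m h v)) ∨
      v = v' + W j ((π j).symm (red m h v')))
    (r : J → ZMod h) (ee : J → Bool → ZMod h → ZMod (m * h))
    (red_ee : ∀ j b a, red m h (ee j b a) = a)
    (eF : ∀ j b i, Odd (i - r j).val → ee j b (π j (i + 1)) = ee j b (π j i) + W j i)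
    (TSa : ∀ a, TS {v | red m h v = a} E0 (fun j b => ee j b a))
    (hs1 : ∀ j, r j ≠ -1 → ee j false (π j (-1)) = w j)
    (hs0 : ∀ j, r j ≠ 0 → ee j false (π j 0) = w' j) :
    TS Set.univ (fun v v' => E0 v v' ∨ ∃ j, E j v v' ∨ E j v' v)
      (fun (k : J ⊕ J) b => Sum.elim (fun j => bif b then w' j else w j)
        (fun j => ee j b (π j (r j))) k) := by
  classical
  have hNZ : NeZero h := ⟨by omega⟩
  choose M m1 m2 m3 m4 m5 using TSa
  have ixW : ∀ j v, red m h (v + W j ((π j).symm (red m h v))) =
      π j ((π j).symm (red m h v) + 1) := by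
    intro j v
    rw [map_add, hW, Equiv.apply_symm_apply]
    ring
  let F : J → ZMod (m * h) ≃ ZMod (m * h) := fun j =>
    { toFun := fun v => v + W j ((π j).symm (red m h v))
      invFun := fun v => v - W j ((π j).symm (red m h v) - 1)
      left_inv := by
        intro v
        show v + W j ((π j).symm (red m h v)) -
          W j ((π j).symm (red m h (v + W j ((π j).symm (red m h v)))) - 1) = v
        rw [ixW, Equiv.symm_apply_apply, add_sub_cancel_right]
        ring
      right_inv := by
        intro v
        show v - W j ((π j).symm (red m h v) - 1) +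
          W j ((π j).symm (red m h (v - W j ((π j).symm (red m h v) - 1)))) = v
        have h1 : red m h (v - W j ((π j).symm (red m h v) - 1)) =
            π j ((π j).symm (red m h v) - 1) := by
          rw [map_sub, hW, sub_add_cancel, Equiv.apply_symm_apply]
          ring
        rw [h1, Equiv.symm_apply_apply]
        ring }
  have hF : ∀ j v, F j v = v + W j ((π j).symm (red m h v)) := fun _ _ => rfl
  have hidxF : ∀ j v, (π j).symm (red m h (F j v)) = (π j).symm (red m h v) + 1 := by
    intro j v
    rw [hF, ixW, Equiv.symm_apply_apply]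
  have hFw : ∀ j, F j (w j) = w' j := by
    intro j
    rw [hF, hw, Equiv.symm_apply_apply, hw']
  let Eb : J → ZMod (m * h) → ZMod (m * h) → Prop := fun j v v' =>
    red m h v = red m h v' ∧ ((∃ b, M (red m h v) j b v v') ∨
      ((v = ee j false (red m h v) ∧ v' = ee j true (red m h v)) ∨
        (v = ee j true (red m h v) ∧ v' = ee j false (red m h v))))
  have blk : ∀ j, TS Set.univ (fun v v' => ((π j).symm (red m h v) = (π j).symm (red m h v') ∧
        Eb j v v') ∨ v' = F j v ∨ v = F j v')
      (fun (k : Option Unit) b => k.elim (bif b then F j (w j) else w j)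
        (fun _ => ee j b (π j (r j)))) := by
    intro j
    refine glue_TS hh h3 (F j) (fun v => (π j).symm (red m h v)) (hidxF j) (Eb j)
      (fun _ : Unit => r j) (fun _ b i => ee j b (π j i)) ?_ ?_ ?_ ?_ () (w j) ?_ ?_ ?_ ?_
    · intro _ b i
      show (π j).symm (red m h (ee j b (π j i))) = i
      rw [red_ee, Equiv.symm_apply_apply]
    · intro _ b i hi
      show ee j b (π j (i + 1)) = F j (ee j b (π j i))
      rw [hF, red_ee, Equiv.symm_apply_apply]
      exact eF j b i hi
    · intro k l i hkl
      exact absurd rfl hkl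
    · intro i
      refine ⟨fun _ b v v' => M (π j i) j b v v', fun _ => m1 _ _, ?_, fun _ => m3 _ _,
        fun _ => m4 _ _, ?_⟩
      · intro _ b v v' hM
        obtain ⟨a1, a2⟩ := m2 _ _ _ _ _ hM
        have a1' : red m h v = π j i := a1
        have a2' : red m h v' = π j i := a2
        refine ⟨?_, ?_⟩
        · show (π j).symm (red m h v) = i
          rw [a1', Equiv.symm_apply_apply]
        · show (π j).symm (red m h v') = i
          rw [a2', Equiv.symm_apply_apply]
      · intro v hv v' hv' hEb
        have hv1 : (π j).symm (red m h v) = i := hv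
        have hv2 : red m h v = π j i := by rw [← hv1, Equiv.apply_symm_apply]
        rcases hEb.2 with ⟨b, hM⟩ | h1
        · right
          rw [hv2] at hM
          exact ⟨(), b, hM⟩
        · left
          rw [hv2] at h1
          exact ⟨(), h1⟩
    · show (π j).symm (red m h (w j)) = -1
      rw [hw, Equiv.symm_apply_apply]
    · intro hr
      exact hs1 j hr
    · intro hr
      show ee j false (π j 0) = F j (w j)
      rw [hFw]
      exact hs0 j hr
    · intro l b hl
      exact absurd rfl hl
  let σ : J ⊕ J ≃ Σ _ : J, Option Unit :=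
    { toFun := Sum.elim (fun j => ⟨j, none⟩) (fun j => ⟨j, some ()⟩)
      invFun := fun p => p.2.elim (Sum.inl p.1) (fun _ => Sum.inr p.1)
      left_inv := by rintro (j | j) <;> rfl
      right_inv := by rintro ⟨j, _ | ⟨⟩⟩ <;> rfl }
  refine (((TS.sigma blk).reindex σ).mono ?_).congr ?_
  · rintro v - v' - (h1 | ⟨j, h1 | h1⟩)
    · have hred := hE0 v v' h1
      rcases m5 (red m h v) v rfl v' hred.symm h1 with ⟨j, hj⟩ | ⟨j, b, hM⟩
      · exact ⟨j, Or.inl ⟨by rw [hred], hred, Or.inr hj⟩⟩
      · exact ⟨j, Or.inl ⟨by rw [hred], hred, Or.inl ⟨b, hM⟩⟩⟩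
    · rcases hE j v v' h1 with h2 | h2
      · exact ⟨j, Or.inr (Or.inl h2)⟩
      · exact ⟨j, Or.inr (Or.inr h2)⟩
    · rcases hE j v' v h1 with h2 | h2
      · exact ⟨j, Or.inr (Or.inr h2)⟩
      · exact ⟨j, Or.inr (Or.inl h2)⟩
  · rintro (j | j) b
    · show (bif b then w' j else w j) = (bif b then F j (w j) else w j)
      rw [hFw]
    · rfl

/-- The positions of a single thread in a block; they do not depend on its types. -/
theorem exists_st {m h : ℕ} (hh : Odd h) (h3 : 3 ≤ h) (π : ZMod h ≃ ZMod h)
    (W : ZMod h → ZMod (m * h)) (hW : ∀ i, red m h (W i) = π (i + 1) - π i) (w : ZMod (m * h))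
    (hw : red m h w = π (-1)) (P : ZMod (m * h)) :
    ∃ st : ZMod h → ZMod (m * h), (∀ a, red m h (st a) = a) ∧ st (red m h P) = P ∧
      (∀ i, Odd (i - π.symm (red m h P)).val → st (π (i + 1)) = st (π i) + W i) ∧
      (π.symm (red m h P) ≠ -1 → st (π (-1)) = w) ∧
      (π.symm (red m h P) ≠ 0 → st (π 0) = w + W (-1)) := by
  classical
  have hNZ : NeZero h := ⟨by omega⟩
  set r := π.symm (red m h P) with hr
  have hπr : π r = red m h P := by rw [hr, Equiv.apply_symm_apply]
  have h00 : ¬ Odd (0 : ZMod h).val := by rw [ZMod.val_zero]; simp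
  have n10 : (-1 : ZMod h) ≠ 0 := by
    intro h'
    have := zval_neg_one (g := h) h3
    rw [h', ZMod.val_zero] at this
    omega
  have n21 : (-2 : ZMod h) ≠ -1 := by
    intro h'
    apply n10
    linear_combination h'
  have n20 : (-2 : ZMod h) ≠ 0 := by
    intro h'
    have h1 : ((2 : ℕ) : ZMod h) = 0 := by
      push_cast
      linear_combination -h'
    rw [ZMod.natCast_eq_zero_iff] at h1
    have := Nat.le_of_dvd (by norm_num) h1
    omega
  let low : ZMod h → ZMod (m * h) := fun i =>
    if i = -1 then w else if i = -2 then w - W (-2) else if i = 0 then w + W (-1) else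
      (((π i).val : ℕ) : ZMod (m * h))
  have low1 : low (-1) = w := if_pos rfl
  have low2 : low (-2) = w - W (-2) := by
    show (if (-2 : ZMod h) = -1 then w else if (-2 : ZMod h) = -2 then w - W (-2) else _) = _
    rw [if_neg n21, if_pos rfl]
  have low0 : low 0 = w + W (-1) := by
    show (if (0 : ZMod h) = -1 then w else if (0 : ZMod h) = -2 then w - W (-2) else
      if (0 : ZMod h) = 0 then w + W (-1) else _) = _
    rw [if_neg n10.symm, if_neg n20.symm, if_pos rfl]
  have red_low : ∀ i, red m h (low i) = π i := by
    intro i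
    by_cases h1 : i = -1
    · rw [h1, low1, hw]
    by_cases h2 : i = -2
    · rw [h2, low2, map_sub, hw, hW]
      have : (-2 : ZMod h) + 1 = -1 := by ring
      rw [this]; ring
    by_cases h0 : i = 0
    · rw [h0, low0, map_add, hw, hW]
      have : (-1 : ZMod h) + 1 = 0 := by ring
      rw [this]; ring
    · show red m h (if i = -1 then w else if i = -2 then w - W (-2) else
        if i = 0 then w + W (-1) else (((π i).val : ℕ) : ZMod (m * h))) = π i
      rw [if_neg h1, if_neg h2, if_neg h0, map_natCast, ZMod.natCast_zmod_val]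
  let pos : ZMod h → ZMod (m * h) := fun i =>
    if i = r then P else if Odd (i - r).val then low i else low (i - 1) + W (i - 1)
  have pos_r : pos r = P := if_pos rfl
  have pos_low : ∀ i, Odd (i - r).val → pos i = low i := by
    intro i hi
    have hne : i ≠ r := by
      rintro h'
      rw [h', sub_self] at hi
      exact h00 hi
    show (if i = r then P else if Odd (i - r).val then low i else _) = low i
    rw [if_neg hne, if_pos hi]
  have pos_up : ∀ i, Odd (i - 1 - r).val → pos i = low (i - 1) + W (i - 1) := by
    intro i hi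
    have hne : i ≠ r := by
      rintro h'
      rw [h'] at hi
      have e1 : r - 1 - r = -1 := by ring
      rw [e1] at hi
      exact not_odd_neg_one hh h3 hi
    have hno : ¬ Odd (i - r).val := by
      have e1 : i - r = i - 1 - r + 1 := by ring
      rw [e1]
      exact not_odd_succ hh h3 hi
    show (if i = r then P else if Odd (i - r).val then low i else _) = _
    rw [if_neg hne, if_neg hno]
  have upper : ∀ i, i ≠ r → ¬ Odd (i - r).val → Odd (i - 1 - r).val := by
    intro i h1 h2
    rcases odd_or_pred h3 (x := i - r) (sub_ne_zero.2 h1) with h' | h'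
    · exact absurd h' h2
    · have : i - 1 - r = i - r - 1 := by ring
      rw [this]; exact h'
  have red_pos : ∀ i, red m h (pos i) = π i := by
    intro i
    by_cases h1 : i = r
    · rw [h1, pos_r, hπr]
    by_cases h2 : Odd (i - r).val
    · rw [pos_low i h2, red_low]
    · rw [pos_up i (upper i h1 h2), map_add, red_low, hW, sub_add_cancel]
      ring
  refine ⟨fun a => pos (π.symm a), ?_, ?_, ?_, ?_, ?_⟩
  · intro a
    show red m h (pos (π.symm a)) = a
    rw [red_pos, Equiv.apply_symm_apply]
  · exact pos_r
  · intro i hi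
    show pos (π.symm (π (i + 1))) = pos (π.symm (π i)) + W i
    rw [Equiv.symm_apply_apply, Equiv.symm_apply_apply, pos_low i hi]
    have h1 : Odd (i + 1 - 1 - r).val := by rw [add_sub_cancel_right]; exact hi
    rw [pos_up (i + 1) h1, add_sub_cancel_right]
  · intro h1
    show pos (π.symm (π (-1))) = w
    rw [Equiv.symm_apply_apply]
    by_cases h2 : Odd (-1 - r).val
    · rw [pos_low _ h2, low1]
    · rw [pos_up _ (upper _ (fun h' => h1 h'.symm) h2)]
      have : (-1 : ZMod h) - 1 = -2 := by ring
      rw [this, low2]
      ring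
  · intro h1
    show pos (π.symm (π 0)) = w + W (-1)
    rw [Equiv.symm_apply_apply]
    by_cases h2 : Odd (0 - r).val
    · rw [pos_low _ h2, low0]
    · rw [pos_up _ (upper _ (fun h' => h1 h'.symm) h2)]
      have : (0 : ZMod h) - 1 = -1 := by ring
      rw [this, low1]

/-- Signed type. -/
def sg {n : ℕ} (ε : Bool) (y : ZMod n) : ZMod n := bif ε then -y else y

section pair

variable {n : ℕ} (hn : Odd n) (h3 : 3 ≤ n) (x y : ZMod n) (hx0 : x ≠ 0) (hy0 : y ≠ 0)
  (hxy1 : x ≠ y) (hxy2 : x ≠ -y) (hxy : cop x y)
include hn h3 hx0 hy0 hxy1 hxy2 hxy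

/-- One hole of each type, any positions. -/
theorem pair_11 (p q : ZMod n) : TS Set.univ (DE (fun z => z = x ∨ z = y))
    (fun (k b : Bool) => (bif k then q else p) + (bif b then (bif k then y else x) else 0)) := by
  have h1 := good_pair hn h3 x y hx0 hy0 hxy1 hxy2 hxy
    (Sum.elim (fun e => e.elim) (fun k => bif k.2 then q else p))
    (Sum.elim (fun e => e.elim) (fun k => bif k.2 then y else x)) (fun e => e.elim)
    (fun _ => Or.inl ⟨rfl, rfl⟩)
  refine ((h1.mono ?_).reindex (Θ' := Bool)
    { toFun := fun k => Sum.inr ((), k)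
      invFun := Sum.elim (fun e => e.elim) (fun k => k.2)
      left_inv := fun _ => rfl
      right_inv := by
        rintro (e | ⟨_, b⟩)
        · exact e.elim
        · rfl }).congr ?_
  · rintro u - v - ⟨δ, hδ, huv⟩
    exact ⟨δ, Or.inr ⟨(), hδ⟩, huv⟩
  · intro k b
    cases k <;> rfl

/-- The same with signed types. -/
theorem pair_11s (ε ε' : Bool) (p q : ZMod n) : TS Set.univ (DE (fun z => z = x ∨ z = y))
    (fun (k b : Bool) => (bif k then q else p) +
      (bif b then (bif k then sg ε' y else sg ε x) else 0)) := by
  refine ((pair_11 hn h3 x y hx0 hy0 hxy1 hxy2 hxy (p - bif ε then x else 0)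
    (q - bif ε' then y else 0)).swap (fun k => bif k then ε' else ε)).congr ?_
  intro k b
  cases k <;> cases b <;> cases ε <;> cases ε' <;> simp [sg] <;> ring

/-- Two holes of the type `x`: for one of the two signs the second hole is admissible. -/
theorem pair_sign (hU : ¬ IsUnit y ∨ (IsUnit x ∧ IsUnit y)) (p q : ZMod n) :
    ∃ ε : Bool, TS Set.univ (DE (fun z => z = x ∨ z = y))
      (fun (k b : Bool) => (bif k then q else p) +
        (bif b then (bif k then sg ε x else x) else 0)) := by
  rcases hU with hy | ⟨hx, hy⟩
  · have hn0 : 0 < n := hn.pos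
    obtain ⟨g, hg⟩ : ∃ g, g = Nat.gcd y.val n := ⟨_, rfl⟩
    obtain ⟨m, hm⟩ : ∃ m, n = m * g := by
      obtain ⟨m, hm⟩ := Nat.gcd_dvd_right y.val n
      exact ⟨m, by rw [hg, mul_comm]; exact hm⟩
    subst hm
    have hg0 : 0 < g := Nat.pos_of_mul_pos_left hn0 |> fun h => h
    have hm0 : 0 < m := Nat.pos_of_ne_zero (by rintro rfl; simp at hn0)
    obtain ⟨hmo, hgo⟩ := Nat.odd_mul.1 hn
    obtain ⟨y', hy', rfl⟩ := exists_psi_unit hm0 hg0 y hg.symm
    have m3 : 3 ≤ m := by
      by_contra h
      have : m = 1 := by
        obtain ⟨k, hk⟩ := hmo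
        omega
      subst this
      apply hy0
      rw [Subsingleton.elim y' 0, map_zero]
    have g3 : 3 ≤ g := by
      by_contra h
      have : g = 1 := by
        obtain ⟨k, hk⟩ := hgo
        omega
      apply hy
      exact isUnit_of_gcd hn0 _ (hg.symm.trans this)
    have hNZ : NeZero (m * g) := ⟨hn0.ne'⟩
    have hc : IsUnit (red m g x) := by
      have h1 : red m g x = ((x.val : ℕ) : ZMod g) := by
        conv_lhs => rw [← ZMod.natCast_zmod_val x]
        rw [map_natCast]
      rw [h1, ZMod.isUnit_iff_coprime]
      apply Nat.Coprime.symm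
      rw [Nat.coprime_iff_gcd_eq_one]
      have h2 : Nat.gcd (Nat.gcd x.val (psi m g y').val) (m * g) = 1 := hxy
      rw [Nat.gcd_assoc, ← hg] at h2
      rw [Nat.gcd_comm]; exact h2
    by_cases hred : red m g q = red m g p
    · refine ⟨true, ?_⟩
      have hne : red m g (q - x) ≠ red m g p := by
        rw [map_sub, hred]
        intro h'
        have h1 : red m g x = 0 := by linear_combination -h'
        have hF : Fact (1 < g) := ⟨by omega⟩
        rw [h1] at hc
        exact not_isUnit_zero hc
      refine ((pair_L2 hmo m3 hgo g3 x hc y' hy' p (q - x) hne).swap (fun k => k)).congr ?_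
      intro k b
      cases k <;> cases b <;> (simp [sg]; try ring)
    · refine ⟨false, ?_⟩
      refine (pair_L2 hmo m3 hgo g3 x hc y' hy' p q hred).congr ?_
      intro k b
      cases k <;> cases b <;> simp [sg]
  · by_cases hpq : q = p
    · refine ⟨true, ?_⟩
      refine ((pair_units hn h3 x y hx hy hxy1 hxy2 p (-x) (neg_ne_zero.2 hx0)).swap
        (fun k => k)).congr ?_
      intro k b
      rw [hpq]
      cases k <;> cases b <;> simp [sg]
    · refine ⟨false, ?_⟩
      refine (pair_units hn h3 x y hx hy hxy1 hxy2 p (q - p) (sub_ne_zero.2 hpq)).congr ?_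
      intro k b
      cases k <;> cases b <;> simp [sg]

end pair

/-- The system of a class. -/
theorem class_TS {m h : ℕ} (h0 : 0 < h) (x y : ZMod m) (a : ZMod h) (v0 v1 : ZMod (m * h))
    (hv0 : red m h v0 = a) (hv1 : red m h v1 = a) (s0 s1 : ZMod m)
    (hT : ∀ q, psi m h q = v1 - v0 → TS Set.univ (DE (fun z => z = x ∨ z = y))
      (fun (k b : Bool) => (bif k then q else 0) +
        (bif b then (bif k then s1 else s0) else 0))) :
    TS {v | red m h v = a} (DE (fun z => z = psi m h x ∨ z = psi m h y))
      (fun (k b : Bool) => (bif k then v1 else v0) +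
        (bif b then psi m h (bif k then s1 else s0) else 0)) := by
  have hinj := psi_inj m h h0
  obtain ⟨q, hq⟩ := exists_psi m h (v := v1 - v0) (by rw [map_sub, hv0, hv1, sub_self])
  refine ((hT q hq.symm).map (fun z => v0 + psi m h z)
    (fun z z' hz => hinj (add_left_cancel hz)) {v | red m h v = a}
    (DE (fun z => z = psi m h x ∨ z = psi m h y)) ?_ ?_).congr ?_
  · intro v
    constructor
    · intro hv
      have hv' : red m h v = a := hv
      obtain ⟨z, hz⟩ := exists_psi m h (v := v - v0) (by rw [map_sub, hv', hv0, sub_self])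
      exact ⟨z, trivial, by show v0 + psi m h z = v; rw [← hz]; ring⟩
    · rintro ⟨z, -, rfl⟩
      show red m h (v0 + psi m h z) = a
      rw [map_add, hv0, red_psi, add_zero]
  · rintro z - z' - ⟨δ', hδ', h2⟩
    obtain ⟨δ, hδ, rfl⟩ : ∃ δ, (δ = x ∨ δ = y) ∧ δ' = psi m h δ := by
      rcases hδ' with hk | hk
      · exact ⟨x, Or.inl rfl, hk⟩
      · exact ⟨y, Or.inr rfl, hk⟩
    refine ⟨δ, hδ, ?_⟩
    rcases h2 with h2 | h2
    · left
      apply hinj
      rw [map_add]
      have h2' : v0 + psi m h z' = v0 + psi m h z + psi m h δ := h2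
      linear_combination h2'
    · right
      apply hinj
      rw [map_add]
      have h2' : v0 + psi m h z = v0 + psi m h z' + psi m h δ := h2
      linear_combination h2'
  · intro k b
    have e1 : v1 = v0 + psi m h q := by rw [← hq]; ring
    cases k <;> cases b <;> simp [e1, add_assoc]

/-- One pair alone: the thread `k` in the block `k`. -/
theorem pair_joint {m h : ℕ} (hm : Odd m) (hh : Odd h) (h3 : 3 ≤ h) (d u : ZMod m)
    (hd0 : d ≠ 0) (hu0 : u ≠ 0) (hdu1 : d ≠ u) (hdu2 : d ≠ -u) (hdu : cop d u)
    (E : Bool → ZMod (m * h) → ZMod (m * h) → Prop) (w w' : Bool → ZMod (m * h))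
    (hcyc : ∀ j, Cyc m h (E j) (w j) (w' j)) (P A : Bool → ZMod (m * h))
    (hP : adm (fun δ => red m h δ ≠ 0) (psi m h d) (psi m h u) (A false) (A true)
      (P true - P false)) :
    TS Set.univ (fun v v' => DE (fun z => z = psi m h d ∨ z = psi m h u) v v' ∨
        ∃ j, E j v v' ∨ E j v' v)
      (fun (k : Bool ⊕ Bool) b => Sum.elim (fun j => bif b then w' j else w j)
        (fun j => P j + (bif b then A j else 0)) k) := by
  classical
  have m3 : 3 ≤ m := by
    obtain ⟨k, hk⟩ := hm
    rcases Nat.eq_zero_or_pos k with h0 | h0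
    · exfalso
      have h1 : m = 1 := by omega
      subst h1
      exact hd0 (Subsingleton.elim d 0)
    · omega
  choose π W hW hw hw' hE using hcyc
  have hst := fun j => exists_st hh h3 (π j) (W j) (hW j) (w j) (hw j) (P j)
  choose st st1 st2 st3 st4 st5 using hst
  set r : Bool → ZMod h := fun j => (π j).symm (red m h (P j)) with hr
  have hπr : ∀ j, π j (r j) = red m h (P j) := fun j => Equiv.apply_symm_apply _ _
  have h00 : ¬ Odd (0 : ZMod h).val := by rw [ZMod.val_zero]; simp
  have act_ne : ∀ j i, Odd (i - r j).val → i ≠ r j ∧ i + 1 ≠ r j := by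
    intro j i hi
    constructor
    · intro h'
      rw [h', sub_self] at hi
      exact h00 hi
    · intro h'
      rw [← h'] at hi
      have e1 : i - (i + 1) = -1 := by ring
      rw [e1] at hi
      exact not_odd_neg_one hh h3 hi
  -- reduction to the choice of the types
  have fin : ∀ T : Bool → ZMod h → ZMod m,
      (∀ j i, Odd (i - r j).val → T j (π j (i + 1)) = T j (π j i)) →
      (∀ j, A j = psi m h (T j (red m h (P j)))) →
      (∀ a q, psi m h q = st true a - st false a →
        TS Set.univ (DE (fun z => z = d ∨ z = u)) (fun (k b : Bool) => (bif k then q else 0) +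
          (bif b then (bif k then T true a else T false a) else 0))) →
      TS Set.univ (fun v v' => DE (fun z => z = psi m h d ∨ z = psi m h u) v v' ∨
        ∃ j, E j v v' ∨ E j v' v)
      (fun (k : Bool ⊕ Bool) b => Sum.elim (fun j => bif b then w' j else w j)
        (fun j => P j + (bif b then A j else 0)) k) := by
    intro T hTc hTA hcl
    refine (joint_glue1 hh h3 (DE (fun z => z = psi m h d ∨ z = psi m h u)) ?_ E w w' π W hW hw
      hw' hE r (fun j b a => st j a + (bif b then psi m h (T j a) else 0)) ?_ ?_ ?_ ?_ ?_).congr ?_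
    · rintro v v' ⟨δ, hδ, h2⟩
      have h0 : red m h δ = 0 := by
        rcases hδ with hδ | hδ <;> rw [hδ] <;> exact red_psi m h _
      rcases h2 with h2 | h2
      · rw [h2, map_add, h0, add_zero]
      · rw [h2, map_add, h0, add_zero]
    · intro j b a
      show red m h (st j a + (bif b then psi m h (T j a) else 0)) = a
      rw [map_add, st1]
      cases b
      · simp
      · simp [red_psi]
    · intro j b i hi
      show st j (π j (i + 1)) + (bif b then psi m h (T j (π j (i + 1))) else 0) =
        st j (π j i) + (bif b then psi m h (T j (π j i)) else 0) + W j i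
      rw [st3 j i hi, hTc j i hi]
      ring
    · intro a
      refine (class_TS (by omega) d u a (st false a) (st true a) (st1 _ _) (st1 _ _)
        (T false a) (T true a) (hcl a)).congr ?_
      intro k b
      cases k <;> rfl
    · intro j hj
      show st j (π j (-1)) + 0 = w j
      rw [add_zero]
      exact st4 j hj
    · intro j hj
      show st j (π j 0) + 0 = w' j
      rw [add_zero, hw']
      exact st5 j hj
    · rintro (j | j) b
      · rfl
      · show P j + (bif b then A j else 0) =
          st j (π j (r j)) + (bif b then psi m h (T j (π j (r j))) else 0)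
        rw [hπr, st2, hTA]
  -- two holes of the same type
  have same : ∀ x y : ZMod m, x ≠ 0 → y ≠ 0 → x ≠ y → x ≠ -y → cop x y →
      (∀ z, (z = d ∨ z = u) → (z = x ∨ z = y)) → A false = psi m h x → A true = psi m h x →
      red m h (P true - P false) ≠ 0 →
      TS Set.univ (fun v v' => DE (fun z => z = psi m h d ∨ z = psi m h u) v v' ∨
        ∃ j, E j v v' ∨ E j v' v)
      (fun (k : Bool ⊕ Bool) b => Sum.elim (fun j => bif b then w' j else w j)
        (fun j => P j + (bif b then A j else 0)) k) := by
    intro x y hx0 hy0 hxy1 hxy2 hxy hdxy hA0 hA1 hne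
    have hyx1 : y ≠ x := fun h' => hxy1 h'.symm
    have hyx2 : y ≠ -x := fun h' => hxy2 (by rw [h', neg_neg])
    have hyx := cop_symm hxy
    have hne' : red m h (P true) ≠ red m h (P false) := by
      intro h'
      apply hne
      rw [map_sub, h', sub_self]
    have toDU : ∀ e : Bool → Bool → ZMod m, TS Set.univ (DE (fun z => z = x ∨ z = y)) e →
        TS Set.univ (DE (fun z => z = d ∨ z = u)) e := by
      intro e hT
      refine hT.mono ?_
      rintro v - v' - ⟨δ, hδ, h2⟩
      exact ⟨δ, hdxy δ hδ, h2⟩
    have toDU' : ∀ e : Bool → Bool → ZMod m, TS Set.univ (DE (fun z => z = y ∨ z = x)) e →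
        TS Set.univ (DE (fun z => z = d ∨ z = u)) e := by
      intro e hT
      refine toDU e (hT.mono ?_)
      rintro v - v' - ⟨δ, hδ, h2⟩
      exact ⟨δ, hδ.symm, h2⟩
    by_cases hU : ¬ IsUnit y ∨ (IsUnit x ∧ IsUnit y)
    · -- the double class is the class of `P false`
      obtain ⟨q0, hq0⟩ := exists_psi m h (v := st true (red m h (P false)) -
        st false (red m h (P false))) (by rw [map_sub, st1, st1, sub_self])
      obtain ⟨ε, hε⟩ := pair_sign hm m3 x y hx0 hy0 hxy1 hxy2 hxy hU 0 q0
      let T : Bool → ZMod h → ZMod m := fun j a => bif j then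
        (if a = red m h (P true) then x else sg ε x) else
        (if a = red m h (P false) then x else y)
      have T1 : ∀ a, T true a = if a = red m h (P true) then x else sg ε x := fun _ => rfl
      have T0 : ∀ a, T false a = if a = red m h (P false) then x else y := fun _ => rfl
      refine fin T ?_ ?_ ?_
      · intro j i hi
        obtain ⟨n1, n2⟩ := act_ne j i hi
        have n1' : π j i ≠ red m h (P j) := fun h' => n1 ((π j).injective (h'.trans (hπr j).symm))
        have n2' : π j (i + 1) ≠ red m h (P j) :=
          fun h' => n2 ((π j).injective (h'.trans (hπr j).symm))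
        cases j
        · rw [T0, T0, if_neg n1', if_neg n2']
        · rw [T1, T1, if_neg n1', if_neg n2']
      · intro j
        cases j
        · rw [T0, if_pos rfl]; exact hA0
        · rw [T1, if_pos rfl]; exact hA1
      · intro a q hq
        by_cases ha : a = red m h (P false)
        · have e1 : q = q0 := by
            apply psi_inj m h (by omega)
            rw [hq, ← hq0, ha]
          have e2 : T true a = sg ε x := by rw [T1, if_neg (by rw [ha]; exact hne'.symm)]
          have e3 : T false a = x := by rw [T0, if_pos ha]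
          rw [e1, e2, e3]
          exact toDU _ hε
        · have e3 : T false a = sg false y := by rw [T0, if_neg ha]; rfl
          by_cases ha' : a = red m h (P true)
          · have e2 : T true a = sg false x := by rw [T1, if_pos ha']; rfl
            rw [e2, e3]
            exact toDU' _ (pair_11s hm m3 y x hy0 hx0 hyx1 hyx2 hyx false false 0 q)
          · have e2 : T true a = sg ε x := by rw [T1, if_neg ha']
            rw [e2, e3]
            exact toDU' _ (pair_11s hm m3 y x hy0 hx0 hyx1 hyx2 hyx false ε 0 q)
    · -- the double class is the partner of the class of `P false`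
      have hx : ¬ IsUnit x := by
        intro h'
        apply hU
        by_cases hy : IsUnit y
        · exact Or.inr ⟨h', hy⟩
        · exact Or.inl hy
      set iA : ZMod h := (π true).symm (red m h (P false)) with hiA
      have hπA : π true iA = red m h (P false) := Equiv.apply_symm_apply _ _
      have iAne : iA ≠ r true := by
        intro h'
        apply hne'
        rw [← hπA, h', hπr]
      obtain ⟨l, hl, hlA⟩ : ∃ l, Odd (l - r true).val ∧ (iA = l ∨ iA = l + 1) := by
        by_cases ho : Odd (iA - r true).val
        · exact ⟨iA, ho, Or.inl rfl⟩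
        · rcases odd_or_pred h3 (x := iA - r true) (sub_ne_zero.2 iAne) with h' | h'
          · exact absurd h' ho
          · refine ⟨iA - 1, ?_, Or.inr (by ring)⟩
            have : iA - 1 - r true = iA - r true - 1 := by ring
            rw [this]; exact h'
      obtain ⟨v, hvA, hv⟩ : ∃ v, v ≠ iA ∧ ((iA = l ∧ v = l + 1) ∨ (iA = l + 1 ∧ v = l)) := by
        have hF : Fact (1 < h) := ⟨by omega⟩
        rcases hlA with h' | h'
        · exact ⟨l + 1, by rw [h']; exact fun h'' => one_ne_zero (add_left_cancel
            (h''.trans (add_zero l).symm)), Or.inl ⟨h', rfl⟩⟩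
        · exact ⟨l, by rw [h']; exact fun h'' => one_ne_zero (add_left_cancel
            (h''.symm.trans (add_zero l).symm)), Or.inr ⟨h', rfl⟩⟩
      obtain ⟨q0, hq0⟩ := exists_psi m h (v := st true (π true v) -
        st false (π true v)) (by rw [map_sub, st1, st1, sub_self])
      obtain ⟨ε, hε⟩ := pair_sign hm m3 y x hy0 hx0 hyx1 hyx2 hyx (Or.inl hx) 0 q0
      let T : Bool → ZMod h → ZMod m := fun j a => bif j then
        (if a = π true l ∨ a = π true (l + 1) then sg ε y else x) else
        (if a = red m h (P false) then x else y)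
      have T1 : ∀ a, T true a = if a = π true l ∨ a = π true (l + 1) then sg ε y else x :=
        fun _ => rfl
      have T0 : ∀ a, T false a = if a = red m h (P false) then x else y := fun _ => rfl
      have T1' : ∀ i, T true (π true i) = if i = l ∨ i = l + 1 then sg ε y else x := by
        intro i
        rw [T1]
        simp only [EmbeddingLike.apply_eq_iff_eq]
      obtain ⟨l1, l2⟩ := act_ne true l hl
      refine fin T ?_ ?_ ?_
      · intro j i hi
        obtain ⟨n1, n2⟩ := act_ne j i hi
        cases j
        · have n1' : π false i ≠ red m h (P false) :=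
            fun h' => n1 ((π false).injective (h'.trans (hπr false).symm))
          have n2' : π false (i + 1) ≠ red m h (P false) :=
            fun h' => n2 ((π false).injective (h'.trans (hπr false).symm))
          rw [T0, T0, if_neg n1', if_neg n2']
        · rw [T1', T1']
          by_cases hil : i = l
          · rw [if_pos (Or.inr (by rw [hil])), if_pos (Or.inl hil)]
          · have k1 : i + 1 ≠ l := by
              intro h'
              have e1 : l - r true = i - r true + 1 := by rw [← h']; ring
              rw [e1] at hl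
              exact not_odd_succ hh h3 hi hl
            have k2 : i ≠ l + 1 := by
              intro h'
              have e1 : i - r true = l - r true + 1 := by rw [h']; ring
              rw [e1] at hi
              exact not_odd_succ hh h3 hl hi
            have k3 : i + 1 ≠ l + 1 := fun h' => hil (add_right_cancel h')
            rw [if_neg (by rintro (h' | h'); exacts [k1 h', k3 h']),
              if_neg (by rintro (h' | h'); exacts [hil h', k2 h'])]
      · intro j
        cases j
        · rw [T0, if_pos rfl]; exact hA0
        · rw [← hπr true, T1', if_neg (by rintro (h' | h'); exacts [l1 h'.symm, l2 h'.symm])]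
          exact hA1
      · intro a q hq
        obtain ⟨i, rfl⟩ := (π true).surjective a
        by_cases ha : i = iA
        · have e3 : T false (π true i) = sg false x := by rw [T0, ha, if_pos hπA]; rfl
          have e2 : T true (π true i) = sg ε y := by
            rw [T1', if_pos (by
              rw [ha]
              exact hlA)]
          rw [e2, e3]
          exact toDU _ (pair_11s hm m3 x y hx0 hy0 hxy1 hxy2 hxy false ε 0 q)
        · have ha' : π true i ≠ red m h (P false) :=
            fun h' => ha ((π true).injective (h'.trans hπA.symm))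
          have e3 : T false (π true i) = y := by rw [T0, if_neg ha']
          by_cases hiv : i = v
          · have e1 : q = q0 := by
              apply psi_inj m h (by omega)
              rw [hq, ← hq0, hiv]
            have e2 : T true (π true i) = sg ε y := by
              rw [T1', if_pos (by
                rw [hiv]
                rcases hv with ⟨_, h'⟩ | ⟨_, h'⟩
                · exact Or.inr h'
                · exact Or.inl h')]
            rw [e1, e2, e3]
            exact toDU' _ hε
          · have e2 : T true (π true i) = sg false x := by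
              rw [T1', if_neg (by
                rintro (h' | h')
                · rcases hv with ⟨h1, h2⟩ | ⟨h1, h2⟩
                  · exact ha (h'.trans h1.symm)
                  · exact hiv (h'.trans h2.symm)
                · rcases hv with ⟨h1, h2⟩ | ⟨h1, h2⟩
                  · exact hiv (h'.trans h2.symm)
                  · exact ha (h'.trans h1.symm))]
              rfl
            have e3' : T false (π true i) = sg false y := e3
            rw [e2, e3']
            exact toDU' _ (pair_11s hm m3 y x hy0 hx0 hyx1 hyx2 hyx false false 0 q)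
  have hud1 : u ≠ d := fun h' => hdu1 h'.symm
  have hud2 : u ≠ -d := fun h' => hdu2 (by rw [h', neg_neg])
  rcases hP with ⟨h1, h2⟩ | ⟨h1, h2⟩ | ⟨⟨h1, h2⟩ | ⟨h1, h2⟩, h4⟩
  · refine fin (fun j _ => bif j then u else d) (fun _ _ _ => rfl) ?_ ?_
    · intro j
      cases j
      · exact h1
      · exact h2
    · intro a q _
      exact pair_11s hm m3 d u hd0 hu0 hdu1 hdu2 hdu false false 0 q
  · refine fin (fun j _ => bif j then d else u) (fun _ _ _ => rfl) ?_ ?_
    · intro j
      cases j
      · exact h1
      · exact h2
    · intro a q _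
      refine (pair_11s hm m3 u d hu0 hd0 hud1 hud2 (cop_symm hdu) false false 0 q).mono ?_
      rintro v - v' - ⟨δ, hδ, h5⟩
      exact ⟨δ, hδ.symm, h5⟩
  · exact same d u hd0 hu0 hdu1 hdu2 hdu (fun z hz => hz) h1 h2 h4
  · exact same u d hu0 hd0 hud1 hud2 (cop_symm hdu) (fun z hz => hz.symm) h1 h2 h4

/-- The same in the form of `Good.joint`. -/
theorem joint_one {m h : ℕ} (hm : Odd m) (hh : Odd h) (h3 : 3 ≤ h) {ι κ : Type*} [IsEmpty ι]
    [Unique κ] (t : ι → ZMod m) (d u : κ → ZMod m) (hd0 : ∀ k, d k ≠ 0) (hu0 : ∀ k, u k ≠ 0)
    (hdu1 : ∀ k, d k ≠ u k) (hdu2 : ∀ k, d k ≠ -u k) (hdu : ∀ k, cop (d k) (u k))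
    (E : Bool → ZMod (m * h) → ZMod (m * h) → Prop) (w w' : Bool → ZMod (m * h))
    (hcyc : ∀ j, Cyc m h (E j) (w j) (w' j))
    (P A : ι ⊕ κ × Bool → ZMod (m * h))
    (hP : ∀ k, adm (fun δ => red m h δ ≠ 0) (psi m h (d k)) (psi m h (u k))
      (A (Sum.inr (k, false))) (A (Sum.inr (k, true)))
      (P (Sum.inr (k, true)) - P (Sum.inr (k, false)))) :
    TS Set.univ (fun v v' => DE (FD (fun i => psi m h (t i)) (fun k => psi m h (d k))
        (fun k => psi m h (u k))) v v' ∨ ∃ j, E j v v' ∨ E j v' v)
      (fun (k : Bool ⊕ (ι ⊕ κ × Bool)) b =>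
        Sum.elim (fun j => bif b then w' j else w j) (fun θ => fh P A θ b) k) := by
  have h1 := pair_joint hm hh h3 (d default) (u default) (hd0 _) (hu0 _) (hdu1 _) (hdu2 _)
    (hdu _) E w w' hcyc (fun j => P (Sum.inr (default, j))) (fun j => A (Sum.inr (default, j)))
    (hP default)
  refine ((h1.mono ?_).reindex (Θ' := Bool ⊕ (ι ⊕ κ × Bool))
    { toFun := Sum.map id (Sum.elim (fun i => isEmptyElim i) Prod.snd)
      invFun := Sum.map id (fun j => Sum.inr (default, j))
      left_inv := by
        rintro (j | i | ⟨k, b⟩)
        · rfl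
        · exact isEmptyElim i
        · rw [Unique.eq_default k]; rfl
      right_inv := by rintro (j | j) <;> rfl }).congr ?_
  · rintro v - v' - (⟨δ, hδ, h2⟩ | h2)
    · left
      refine ⟨δ, ?_, h2⟩
      rcases hδ with ⟨i, _⟩ | ⟨k, hδ⟩
      · exact isEmptyElim i
      · rw [Unique.eq_default k] at hδ
        exact hδ
    · exact Or.inr h2
  · rintro (j | i | ⟨k, j⟩) b
    · rfl
    · exact isEmptyElim i
    · rw [Unique.eq_default k]; rfl

end Pool.Agent.P45
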