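import Pool.Agent.Lib.P45dba8.TwoCycAll
import Pool.Agent.Lib.P45dba8.One

/-! # The rule LIFT for one pair alone and for all families except one single alone -/

set_option autoImplicit false

namespace Pool.Agent.P45

/-- LIFT of one pair alone. -/
theorem Good.lift_one {m h : ℕ} (hm : Odd m) (hh : Odd h) (h3 : 3 ≤ h) {ι κ : Type*}
    [IsEmpty ι] [Unique κ] (t : ι → ZMod m) (d u : κ → ZMod m) (hd0 : ∀ k, d k ≠ 0)
    (hu0 : ∀ k, u k ≠ 0) (hdu1 : ∀ k, d k ≠ u k) (hdu2 : ∀ k, d k ≠ -u k)
    (hdu : ∀ k, cop (d k) (u k)) (x y : ZMod (m * h)) (hx : red m h x ≠ 0)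
    (hy : red m h y ≠ 0) (hcop : cop (red m h x) (red m h y)) :
    Good (m * h) IsUnit (fun i => psi m h (t i))
      (fun k : Option κ => k.elim x (fun k => psi m h (d k)))
      (fun k : Option κ => k.elim y (fun k => psi m h (u k))) := by
  classical
  have hF1 : Fact (1 < h) := ⟨by omega⟩
  intro P A hA hP
  obtain ⟨H1, H2, H3⟩ := twoCycAll hh h3 x y hx hy hcop
  let e1 : ι ⊕ κ × Bool → ι ⊕ Option κ × Bool := Sum.map id (fun k => (some k.1, k.2))
  have hu0' : ∀ δ : ZMod (m * h), IsUnit δ → red m h δ ≠ 0 := fun δ hδ =>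
    (hδ.map (red m h)).ne_zero
  have hA1 : ∀ i, (A ∘ e1) (Sum.inl i) = psi m h (t i) := fun i => hA i
  have hP1 : ∀ k, adm (fun δ => red m h δ ≠ 0) (psi m h (d k)) (psi m h (u k))
      ((A ∘ e1) (Sum.inr (k, false))) ((A ∘ e1) (Sum.inr (k, true)))
      ((P ∘ e1) (Sum.inr (k, true)) - (P ∘ e1) (Sum.inr (k, false))) := by
    intro k
    rcases hP (some k) with h1 | h1 | ⟨h1, h2⟩
    · exact Or.inl h1
    · exact Or.inr (Or.inl h1)
    · exact Or.inr (Or.inr ⟨h1, hu0' _ h2⟩)
  have fin : ∀ q q' : ZMod (m * h), A (Sum.inr (none, false)) = q →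
      A (Sum.inr (none, true)) = q' →
      TwoCyc m h x y (P (Sum.inr (none, false))) (P (Sum.inr (none, false)) + q)
        (P (Sum.inr (none, true))) (P (Sum.inr (none, true)) + q') →
      TS Set.univ (DE (FD (fun i => psi m h (t i))
        (fun k : Option κ => k.elim x (fun k => psi m h (d k)))
        (fun k : Option κ => k.elim y (fun k => psi m h (u k))))) (fh P A) := by
    intro q q' hq hq' hT
    obtain ⟨E, E', c1, c2, c3⟩ := hT
    have key := joint_one hm hh h3 t d u hd0 hu0 hdu1 hdu2 hdu (fun b => bif b then E' else E)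
      (fun b => bif b then P (Sum.inr (none, true)) else P (Sum.inr (none, false)))
      (fun b => bif b then P (Sum.inr (none, true)) + q' else P (Sum.inr (none, false)) + q)
      (by rintro (_ | _); exacts [c1, c2]) (P ∘ e1) (A ∘ e1) hP1
    let σ : ι ⊕ Option κ × Bool ≃ Bool ⊕ (ι ⊕ κ × Bool) :=
      { toFun := Sum.elim (fun i => Sum.inr (Sum.inl i))
          (fun k => k.1.elim (Sum.inl k.2) (fun j => Sum.inr (Sum.inr (j, k.2))))
        invFun := Sum.elim (fun b => Sum.inr (none, b)) e1
        left_inv := by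
          rintro (i | ⟨_ | k, b⟩)
          · rfl
          · rfl
          · rfl
        right_inv := by
          rintro (b | (i | ⟨k, b⟩))
          · rfl
          · rfl
          · rfl }
    refine ((key.reindex σ).mono ?_).congr ?_
    · rintro v - v' - ⟨δ, hδ, hvv⟩
      have hxy : (δ = x ∨ δ = y) →
          ∃ j : Bool, (bif j then E' else E) v v' ∨ (bif j then E' else E) v' v := by
        intro h4
        have h5 : ((E v v' ∨ E v' v) ∨ (E' v v' ∨ E' v' v)) := by
          rcases hvv with hvv | hvv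
          · exact c3 v v' (by rcases h4 with rfl | rfl; exacts [Or.inl hvv, Or.inr hvv])
          · rcases c3 v' v (by rcases h4 with rfl | rfl; exacts [Or.inl hvv, Or.inr hvv])
              with h6 | h6
            · exact Or.inl h6.symm
            · exact Or.inr h6.symm
        rcases h5 with h5 | h5
        · exact ⟨false, h5⟩
        · exact ⟨true, h5⟩
      rcases hδ with ⟨i, hi⟩ | ⟨_ | k, hk⟩
      · exact Or.inl ⟨δ, Or.inl ⟨i, hi⟩, hvv⟩
      · exact Or.inr (hxy hk)
      · exact Or.inl ⟨δ, Or.inr ⟨k, hk⟩, hvv⟩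
    · rintro (i | ⟨_ | k, b'⟩) b
      · rfl
      · cases b'
        · show P (Sum.inr (none, false)) + (bif b then A (Sum.inr (none, false)) else 0) =
            (bif b then P (Sum.inr (none, false)) + q else P (Sum.inr (none, false)))
          rw [hq]
          cases b
          · exact add_zero _
          · rfl
        · show P (Sum.inr (none, true)) + (bif b then A (Sum.inr (none, true)) else 0) =
            (bif b then P (Sum.inr (none, true)) + q' else P (Sum.inr (none, true)))
          rw [hq']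
          cases b
          · exact add_zero _
          · rfl
      · rfl
  rcases hP none with ⟨h1, h2⟩ | ⟨h1, h2⟩ | ⟨⟨h1, h2⟩ | ⟨h1, h2⟩, h4⟩
  · exact fin x y h1 h2 (H1 _ _)
  · exact fin y x h1 h2 (H1 _ _).flip
  · exact fin x x h1 h2 (H2 _ _ (h4.map (red m h)))
  · exact fin y y h1 h2 (H3 _ _ (h4.map (red m h)))

/-- LIFT for every nonempty family which is not one single alone. -/
theorem Good.lift' {m h : ℕ} (hm : Odd m) (hh : Odd h) (h3 : 3 ≤ h) {ι κ : Type*}
    {Q : ZMod m → Prop} (hQ : ∀ x, IsUnit x → Q x)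
    {t : ι → ZMod m} {d u : κ → ZMod m} (hG : Good m Q t d u) (hD : Dist t d u)
    (hne : Nonempty κ ∨ ∃ i j : ι, i ≠ j)
    (hone : ∀ k : κ, (∀ i : ι ⊕ κ, i = Sum.inr k) → d k ≠ 0 ∧ u k ≠ 0 ∧ cop (d k) (u k))
    (x y : ZMod (m * h)) (hx : red m h x ≠ 0) (hy : red m h y ≠ 0)
    (hcop : cop (red m h x) (red m h y)) :
    Good (m * h) IsUnit (fun i => psi m h (t i))
      (fun k : Option κ => k.elim x (fun k => psi m h (d k)))
      (fun k : Option κ => k.elim y (fun k => psi m h (u k))) := by
  classical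
  by_cases h2 : ∃ a b : ι ⊕ κ, a ≠ b
  · obtain ⟨a, b, hab⟩ := h2
    refine hG.lift hm hh h3 hQ hD (fun i => decide (i = b)) ?_ x y hx hy hcop
    rintro (_ | _)
    · exact ⟨a, decide_eq_false hab⟩
    · exact ⟨b, decide_eq_true rfl⟩
  · have hall : ∀ a b : ι ⊕ κ, a = b := by
      intro a b
      by_contra hab
      exact h2 ⟨a, b, hab⟩
    obtain ⟨k⟩ : Nonempty κ := by
      rcases hne with h4 | ⟨i, j, hij⟩
      · exact h4
      · exact absurd (Sum.inl.inj (hall (Sum.inl i) (Sum.inl j))) hij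
    have : IsEmpty ι := ⟨fun i => by
      have := hall (Sum.inl i) (Sum.inr k)
      cases this⟩
    let _ : Unique κ := ⟨⟨k⟩, fun k' => Sum.inr.inj (hall (Sum.inr k') (Sum.inr k))⟩
    have hk : ∀ k' : κ, k' = k := fun k' => Sum.inr.inj (hall (Sum.inr k') (Sum.inr k))
    obtain ⟨a1, a2, a3⟩ := hone k (fun i => hall _ _)
    have hdu := hD (Sum.inr (k, false)) (Sum.inr (k, true)) (by simp)
    have e1 : tyy t d u (Sum.inr (k, false)) = d k := rfl
    have e2 : tyy t d u (Sum.inr (k, true)) = u k := rfl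
    rw [e1, e2] at hdu
    exact Good.lift_one hm hh h3 t d u (fun k' => by rw [hk k']; exact a1)
      (fun k' => by rw [hk k']; exact a2) (fun k' => by rw [hk k']; exact hdu.1)
      (fun k' => by rw [hk k']; exact hdu.2) (fun k' => by rw [hk k']; exact a3) x y hx hy hcop

end Pool.Agent.P45
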