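import Pool.Agent.Lib.P45dba8.SquareTS

/-! # Three classes, two carriers: the abstract construction -/

set_option autoImplicit false

namespace Pool.Agent.P45

theorem zval_add_one {q : ℕ} [NeZero q] (x : ZMod q) (hx : x.val + 1 < q) :
    (x + 1).val = x.val + 1 := by
  have h1 : Fact (1 < q) := ⟨by omega⟩
  rw [ZMod.val_add_of_lt]
  · rw [ZMod.val_one]
  · rw [ZMod.val_one]
    exact hx

theorem zval_last {q : ℕ} [NeZero q] (x : ZMod q) (hx : x.val + 1 = q) : x + 1 = 0 := by
  have h1 : ((x.val + 1 : ℕ) : ZMod q) = 0 := by rw [hx, ZMod.natCast_self]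
  push_cast at h1
  rw [ZMod.natCast_zmod_val] at h1
  exact h1

section lone3

variable {V : Type*}

/-- Three classes: `al` inside the classes, both carriers `F`, `G` go from a class to the next one. -/
theorem lone3_abs (al F G : Equiv.Perm V) (cl : V → ZMod 3) (clA : ∀ v, cl (al v) = cl v)
    (clF : ∀ v, cl (F v) = cl v + 1) (clG : ∀ v, cl (G v) = cl v + 1)
    (comF : ∀ v, F (al v) = al (F v)) (comG : ∀ v, G (al v) = al (G v))
    (p w z : V) {q q' : ℕ} (hq : Odd q) (hq' : Odd q') (h5 : 5 ≤ q) (h3' : 3 ≤ q')
    (cF : V → ZMod q) (cG : V → ZMod q')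
    (aF : ∀ v, cF (al v) = cF v + 1) (aG : ∀ v, cG (al v) = cG v + 1)
    (fF : ∀ v, cF (F v) = cF v) (gG : ∀ v, cG (G v) = cG v) (wF : cF w = 0) (zG : cG z = 0)
    (η : ZMod q) (hη : IsUnit η) (hG3 : ∀ v, cF (G (G (G v))) = cF v + η)
    (ka : V → Bool) (ka0 : ka p = false ∧ ka (al p) = false)
    (ka1 : ∀ u, cl u = cl p → u ≠ p → ka (al u) = !ka u)
    (kF : V → Bool) (kF0 : kF w = false ∧ kF (F w) = false)
    (kF1 : ∀ u, cF u = 0 → u ≠ w → kF (F u) = !kF u)
    (kG : V → Bool) (kG0 : kG z = false ∧ kG (G z) = false)
    (kG1 : ∀ u, cG u = 0 → u ≠ z → kG (G u) = !kG u) :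
    TS Set.univ (fun u v => v = al u ∨ ∃ j : Bool, v = (bif j then G u else F u))
      (fun (k : Option Bool) b =>
        k.elim (bif b then al p else p)
          (fun j => bif b then (bif j then G z else F w) else (bif j then z else w))) := by
  classical
  have hNq : NeZero q := ⟨by omega⟩
  have hNq' : NeZero q' := ⟨by omega⟩
  -- the classes
  have h10 : (1 : ZMod 3) ≠ 0 := by decide
  have h20 : (1 : ZMod 3) + 1 ≠ 0 := by decide
  have h30 : (1 : ZMod 3) + 1 + 1 = 0 := by decide
  have c3 : ∀ c : ZMod 3, c = cl p ∨ c = cl p + 1 ∨ c = cl p + 1 + 1 := by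
    intro c
    generalize cl p = x
    revert c x
    decide
  have d01 : cl p + 1 ≠ cl p := by
    generalize cl p = x
    revert x
    decide
  have d02 : cl p + 1 + 1 ≠ cl p := by
    generalize cl p = x
    revert x
    decide
  have d12 : cl p + 1 + 1 ≠ cl p + 1 := by
    generalize cl p = x
    revert x
    decide
  have d3 : cl p + 1 + 1 + 1 = cl p := by
    generalize cl p = x
    revert x
    decide
  -- values
  have vF : ∀ v, (cF v).val < q := fun v => ZMod.val_lt _
  have vG : ∀ v, (cG v).val < q' := fun v => ZMod.val_lt _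
  have sF : ∀ v, (cF v).val + 1 < q → (cF (al v)).val = (cF v).val + 1 := by
    intro v hv
    rw [aF, zval_add_one _ hv]
  have sG : ∀ v, (cG v).val + 1 < q' → (cG (al v)).val = (cG v).val + 1 := by
    intro v hv
    rw [aG, zval_add_one _ hv]
  have lF : ∀ v, (cF v).val + 1 = q → (cF (al v)).val = 0 := by
    intro v hv
    rw [aF, zval_last _ hv, ZMod.val_zero]
  have oF : ∀ v, (cF v).val % 2 = 1 → (cF (al v)).val = (cF v).val + 1 := by
    intro v hv
    obtain ⟨x, hx⟩ := hq
    exact sF v (by have := vF v; omega)
  have oG : ∀ v, (cG v).val % 2 = 1 → (cG (al v)).val = (cG v).val + 1 := by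
    intro v hv
    obtain ⟨x, hx⟩ := hq'
    exact sG v (by have := vG v; omega)
  have w0 : (cF w).val = 0 := by rw [wF, ZMod.val_zero]
  have z0 : (cG z).val = 0 := by rw [zG, ZMod.val_zero]
  have kF1' : ∀ u, (cF u).val = 0 → u ≠ w → kF (F u) = !kF u := fun u hu =>
    kF1 u ((ZMod.val_eq_zero _).1 hu)
  have kG1' : ∀ u, (cG u).val = 0 → u ≠ z → kG (G u) = !kG u := fun u hu =>
    kG1 u ((ZMod.val_eq_zero _).1 hu)
  -- the number `e`
  obtain ⟨e, he, hep⟩ : ∃ e : ℕ, (e = 0 ∨ e = 2) ∧ (cF (G p)).val ≠ e := by
    by_cases h : (cF (G p)).val = 0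
    · exact ⟨2, Or.inr rfl, by omega⟩
    · exact ⟨0, Or.inl rfl, h⟩
  -- the squares
  let S : Bool → Set V := fun j => bif j then {v | cl v = cl p ∧ (cF (G v)).val = e ∧
    (cG v).val % 2 = 1} else {v | cl v = cl p + 1 ∧ (cF v).val % 2 = 1}
  have mS0 : ∀ v, v ∈ S false ↔ cl v = cl p + 1 ∧ (cF v).val % 2 = 1 := fun v => Iff.rfl
  have mS1 : ∀ v, v ∈ S true ↔ cl v = cl p ∧ (cF (G v)).val = e ∧ (cG v).val % 2 = 1 :=
    fun v => Iff.rfl
  -- the colours of `al`
  let cQ : V → Bool := fun v =>
    if (cF v).val = e then ka (G.symm v)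
    else if (cF v).val = e + 1 then !ka (G.symm (al.symm v))
    else if (cF v).val + 1 = q then (if e = 0 then !ka (G.symm (al v)) else true)
    else decide ((cF v).val % 2 = 1)
  have cQdef : ∀ v, cQ v = if (cF v).val = e then ka (G.symm v)
    else if (cF v).val = e + 1 then !ka (G.symm (al.symm v))
    else if (cF v).val + 1 = q then (if e = 0 then !ka (G.symm (al v)) else true)
    else decide ((cF v).val % 2 = 1) := fun v => rfl
  let ca : V → Bool := fun v =>
    if cl v = cl p then ka v else if cl v = cl p + 1 then cQ v else cQ (F.symm v)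
  have caP : ∀ v, cl v = cl p → ca v = ka v := fun v hv => if_pos hv
  have caQ : ∀ v, cl v = cl p + 1 → ca v = cQ v := by
    intro v hv
    show (if cl v = cl p then ka v else if cl v = cl p + 1 then cQ v else cQ (F.symm v)) = cQ v
    rw [if_neg (by rw [hv]; exact d01), if_pos hv]
  have caR : ∀ v, cl v = cl p + 1 → ca (F v) = cQ v := by
    intro v hv
    show (if cl (F v) = cl p then ka (F v) else if cl (F v) = cl p + 1 then cQ (F v)
      else cQ (F.symm (F v))) = cQ v
    rw [clF, hv, if_neg d02, if_neg d12, F.symm_apply_apply]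
  -- alternation on even components in the second class
  have altQ : ∀ v, (cF v).val % 2 = 0 → cQ (al v) = !cQ v := by
    intro v hev
    obtain ⟨x, hx⟩ := hq
    have hlt := vF v
    by_cases h1 : (cF v).val = e
    · have h2 : (cF (al v)).val = e + 1 := by
        rw [sF v (by omega), h1]
      rw [cQdef v, if_pos h1, cQdef (al v), if_neg (by omega), if_pos h2, al.symm_apply_apply]
    · by_cases h2 : (cF v).val + 1 = q
      · have h3 := lF v h2
        rcases he with he | he
        · rw [cQdef v, if_neg h1, if_neg (by omega), if_pos h2, if_pos he, cQdef (al v),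
            if_pos (by omega), Bool.not_not]
        · rw [cQdef v, if_neg h1, if_neg (by omega), if_pos h2, if_neg (by omega), cQdef (al v),
            if_neg (by omega), if_neg (by omega), if_neg (by omega), h3]
          rfl
      · have h3 := sF v (by omega)
        rw [cQdef v, if_neg h1, if_neg (by omega), if_neg h2, cQdef (al v),
          if_neg (by omega), if_neg (by omega), if_neg (by omega), h3]
        have e1 : decide ((cF v).val % 2 = 1) = false := decide_eq_false (by omega)
        have e2 : decide (((cF v).val + 1) % 2 = 1) = true := decide_eq_true (by omega)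
        rw [e1, e2]
        rfl
  -- the colours of `G`
  let b : V → ℕ := fun v => if (cG v).val % 2 = 1 then e else e + 1
  let ix : V → ZMod q := fun v => (cF v - (b v : ℕ)) * η⁻¹
  have hηi : η * η⁻¹ = 1 := ZMod.mul_inv_of_unit η hη
  have bG : ∀ v, b (G v) = b v := by
    intro v
    show (if (cG (G v)).val % 2 = 1 then e else e + 1) = _
    rw [gG]
  have ixG3 : ∀ v, ix (G (G (G v))) = ix v + 1 := by
    intro v
    show (cF (G (G (G v))) - (b (G (G (G v))) : ℕ)) * η⁻¹ = (cF v - (b v : ℕ)) * η⁻¹ + 1
    rw [bG, bG, bG, hG3]
    have : cF v + η - (b v : ℕ) = (cF v - (b v : ℕ)) + η := by ring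
    rw [this, add_mul, hηi]
  have ix0 : ∀ v, ix v = 0 ↔ (cF v).val = b v := by
    intro v
    have hblt : b v < q := by
      show (if (cG v).val % 2 = 1 then e else e + 1) < q
      split_ifs <;> omega
    constructor
    · intro h
      have h1 : cF v - (b v : ℕ) = 0 := by
        have h2 : (cF v - (b v : ℕ)) * η⁻¹ * η = 0 := by
          have h' : (cF v - (b v : ℕ)) * η⁻¹ = 0 := h
          rw [h', zero_mul]
        rwa [mul_assoc, mul_comm η⁻¹, hηi, mul_one] at h2
      rw [sub_eq_zero.1 h1, ZMod.val_natCast_of_lt hblt]
    · intro h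
      show (cF v - (b v : ℕ)) * η⁻¹ = 0
      have h1 : cF v = ((b v : ℕ) : ZMod q) := by
        rw [← h, ZMod.natCast_zmod_val]
      rw [h1, sub_self, zero_mul]
  let cP : V → Bool := fun v =>
    if cl v = cl p then (if ix (G v) = 0 then false else decide ((ix (G v)).val % 2 = 0))
    else if cl v = cl p + 1 then decide ((ix v).val % 2 = 1)
    else decide ((ix (G.symm v)).val % 2 = 0)
  let cc : Bool → V → Bool := fun j v => bif j then
      (if (cG v).val = 0 then kG v else cP v)
    else (if (cF v).val = 0 then kF v else decide (cl v = cl p))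
  have ccF0 : ∀ v, (cF v).val = 0 → cc false v = kF v := fun v hv => if_pos hv
  have ccF1 : ∀ v, (cF v).val ≠ 0 → cc false v = decide (cl v = cl p) := fun v hv => if_neg hv
  have ccG0 : ∀ v, (cG v).val = 0 → cc true v = kG v := fun v hv => if_pos hv
  have ccG1 : ∀ v, (cG v).val ≠ 0 → cc true v = cP v := fun v hv => if_neg hv
  have cPP : ∀ v, cl v = cl p → cP v =
      if ix (G v) = 0 then false else decide ((ix (G v)).val % 2 = 0) := fun v hv => if_pos hv
  have cPQ : ∀ v, cl v = cl p + 1 → cP v = decide ((ix v).val % 2 = 1) := by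
    intro v hv
    show (if cl v = cl p then (if ix (G v) = 0 then false else decide ((ix (G v)).val % 2 = 0))
      else if cl v = cl p + 1 then decide ((ix v).val % 2 = 1)
      else decide ((ix (G.symm v)).val % 2 = 0)) = _
    rw [if_neg (by rw [hv]; exact d01), if_pos hv]
  have cPR : ∀ v, cl v = cl p + 1 + 1 → cP v = decide ((ix (G.symm v)).val % 2 = 0) := by
    intro v hv
    show (if cl v = cl p then (if ix (G v) = 0 then false else decide ((ix (G v)).val % 2 = 0))
      else if cl v = cl p + 1 then decide ((ix v).val % 2 = 1)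
      else decide ((ix (G.symm v)).val % 2 = 0)) = _
    rw [if_neg (by rw [hv]; exact d02), if_neg (by rw [hv]; exact d12)]
  have key := TS_squares al (fun j : Bool => bif j then (G : V → V) else F) al.injective
    (by rintro (_ | _); exacts [F.injective, G.injective]) S cc ca
    (fun j => bif j then z else w) p ?_ ?_ ?_ ?_ ?_ ?_ ?_ ?_ ?_ ?_ ?_
  · refine (key.mono ?_).congr ?_
    · rintro u - v - (h | ⟨j, h⟩)
      · exact Or.inl h
      · refine Or.inr ⟨j, ?_⟩
        cases j <;> exact h
    · rintro (_ | j) b'
      · rfl
      · cases j <;> cases b' <;> rfl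
  · -- comm
    rintro (_ | _) v -
    · exact comF v
    · exact comG v
  · -- h1
    rintro (_ | _) u
    · show u = w ∨ (u ∈ S false ∨ ∃ v ∈ S false, u = al v) ∨ cc false (F u) = !cc false u
      by_cases hu : u = w
      · exact Or.inl hu
      right
      by_cases h0 : (cF u).val = 0
      · right
        rw [ccF0 u h0, ccF0 (F u) (by rw [fF]; exact h0)]
        exact kF1' u h0 hu
      · rcases c3 (cl u) with hc | hc | hc
        · right
          rw [ccF1 u h0, ccF1 (F u) (by rw [fF]; exact h0), clF, hc, decide_eq_false d01,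
            decide_eq_true rfl]
          rfl
        · left
          by_cases hodd : (cF u).val % 2 = 1
          · exact Or.inl ((mS0 u).2 ⟨hc, hodd⟩)
          · right
            refine ⟨al.symm u, (mS0 _).2 ⟨?_, ?_⟩, (al.apply_symm_apply u).symm⟩
            · rw [← clA, al.apply_symm_apply, hc]
            · have h1 := lF (al.symm u)
              have h2 := sF (al.symm u)
              rw [al.apply_symm_apply] at h1 h2
              have h3 := vF (al.symm u)
              rcases Nat.lt_or_ge ((cF (al.symm u)).val + 1) q with h4 | h4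
              · have := h2 h4
                omega
              · have := h1 (by omega)
                omega
        · right
          rw [ccF1 u h0, ccF1 (F u) (by rw [fF]; exact h0), clF, hc, d3, decide_eq_true rfl,
            decide_eq_false d02]
          rfl
    · show u = z ∨ (u ∈ S true ∨ ∃ v ∈ S true, u = al v) ∨ cc true (G u) = !cc true u
      by_cases hu : u = z
      · exact Or.inl hu
      right
      by_cases h0 : (cG u).val = 0
      · right
        rw [ccG0 u h0, ccG0 (G u) (by rw [gG]; exact h0)]
        exact kG1' u h0 hu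
      have h0' : (cG (G u)).val ≠ 0 := by rw [gG]; exact h0
      rcases c3 (cl u) with hc | hc | hc
      · by_cases hi : ix (G u) = 0
        · left
          have h1 := (ix0 _).1 hi
          rw [bG] at h1
          by_cases hodd : (cG u).val % 2 = 1
          · have h2 : b u = e := if_pos hodd
            exact Or.inl ((mS1 u).2 ⟨hc, by rw [h1, h2], hodd⟩)
          · have h2 : b u = e + 1 := if_neg hodd
            right
            refine ⟨al.symm u, (mS1 _).2 ⟨?_, ?_, ?_⟩, (al.apply_symm_apply u).symm⟩
            · rw [← clA, al.apply_symm_apply, hc]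
            · have e1 : al (G (al.symm u)) = G u := by rw [← comG, al.apply_symm_apply]
              have h3 := lF (G (al.symm u))
              have h4 := sF (G (al.symm u))
              rw [e1] at h3 h4
              have h5' := vF (G (al.symm u))
              rcases Nat.lt_or_ge ((cF (G (al.symm u))).val + 1) q with h6 | h6
              · have := h4 h6
                omega
              · have := h3 (by omega)
                omega
            · have h3 : cG (al (al.symm u)) = cG (al.symm u) + 1 := aG _
              rw [al.apply_symm_apply] at h3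
              have h4 := sG (al.symm u)
              rw [al.apply_symm_apply] at h4
              have h5' := vG (al.symm u)
              rcases Nat.lt_or_ge ((cG (al.symm u)).val + 1) q' with h6 | h6
              · have := h4 h6
                omega
              · have h7 := zval_last (cG (al.symm u)) (by omega)
                rw [← h3] at h7
                exact absurd (by rw [h7, ZMod.val_zero]) h0
        · right
          rw [ccG1 u h0, ccG1 (G u) h0', cPP u hc, if_neg hi, cPQ (G u) (by rw [clG, hc])]
          by_cases h1 : (ix (G u)).val % 2 = 1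
          · rw [decide_eq_true h1, decide_eq_false (by omega)]
            rfl
          · rw [decide_eq_false h1, decide_eq_true (by omega)]
            rfl
      · right
        rw [ccG1 u h0, ccG1 (G u) h0', cPQ u hc, cPR (G u) (by rw [clG, hc]), G.symm_apply_apply]
        by_cases h1 : (ix u).val % 2 = 1
        · rw [decide_eq_true h1, decide_eq_false (by omega)]
          rfl
        · rw [decide_eq_false h1, decide_eq_true (by omega)]
          rfl
      · right
        have e1 : ix (G (G u)) = ix (G.symm u) + 1 := by
          have := ixG3 (G.symm u)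
          rwa [G.apply_symm_apply] at this
        rw [ccG1 u h0, ccG1 (G u) h0', cPR u hc, cPP (G u) (by rw [clG, hc, d3]), e1]
        obtain ⟨x, hx⟩ := hq
        have hlt : (ix (G.symm u)).val < q := ZMod.val_lt _
        by_cases h1 : (ix (G.symm u)).val + 1 = q
        · rw [if_pos (zval_last _ h1), decide_eq_true (by omega)]
          rfl
        · have h2 := zval_add_one (ix (G.symm u)) (by omega)
          have h3 : ix (G.symm u) + 1 ≠ 0 := by
            intro h
            rw [h, ZMod.val_zero] at h2
            omega
          rw [if_neg h3, h2]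
          by_cases h4 : (ix (G.symm u)).val % 2 = 0
          · rw [decide_eq_true h4, decide_eq_false (by omega)]
            rfl
          · rw [decide_eq_false h4, decide_eq_true (by omega)]
            rfl
  · -- h2
    rintro (_ | _) v hv
    · show cc false v = cc false (al v) ∧ cc false (F v) = cc false (F (al v))
      obtain ⟨h1, h2⟩ := (mS0 v).1 hv
      have h3 := oF v h2
      have n0 : (cF v).val ≠ 0 := by omega
      have n1 : (cF (al v)).val ≠ 0 := by omega
      constructor
      · rw [ccF1 v n0, ccF1 (al v) n1, clA]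
      · rw [ccF1 (F v) (by rw [fF]; exact n0), ccF1 (F (al v)) (by rw [fF]; exact n1), clF, clF, clA]
    · show cc true v = cc true (al v) ∧ cc true (G v) = cc true (G (al v))
      obtain ⟨h1, h2, h3⟩ := (mS1 v).1 hv
      have h4 := oG v h3
      have n0 : (cG v).val ≠ 0 := by omega
      have n1 : (cG (al v)).val ≠ 0 := by omega
      have i0 : ix (G v) = 0 := by
        rw [ix0, bG, h2]
        exact (if_pos h3).symm
      have i1 : ix (G (al v)) = 0 := by
        rw [ix0, bG, comG, sF (G v) (by omega), h2]
        exact (if_neg (by omega)).symm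
      constructor
      · rw [ccG1 v n0, ccG1 (al v) n1, cPP v h1, cPP (al v) (by rw [clA]; exact h1), if_pos i0,
          if_pos i1]
      · rw [ccG1 (G v) (by rw [gG]; exact n0), ccG1 (G (al v)) (by rw [gG]; exact n1),
          cPQ (G v) (by rw [clG, h1]), cPQ (G (al v)) (by rw [clG, clA, h1]), i0, i1]
  · -- h3
    rintro (_ | _)
    · show cc false w = false ∧ cc false (F w) = false
      rw [ccF0 w w0, ccF0 (F w) (by rw [fF]; exact w0)]
      exact kF0
    · show cc true z = false ∧ cc true (G z) = false
      rw [ccG0 z z0, ccG0 (G z) (by rw [gG]; exact z0)]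
      exact kG0
  · -- h1a
    intro u
    rcases c3 (cl u) with hc | hc | hc
    · by_cases hu : u = p
      · exact Or.inl hu
      · right; right
        rw [caP u hc, caP (al u) (by rw [clA]; exact hc)]
        exact ka1 u hc hu
    · right
      by_cases hodd : (cF u).val % 2 = 1
      · exact Or.inl ⟨false, Or.inl ((mS0 u).2 ⟨hc, hodd⟩)⟩
      · right
        rw [caQ u hc, caQ (al u) (by rw [clA]; exact hc)]
        exact altQ u (by omega)
    · right
      have e1 : F (F.symm u) = u := F.apply_symm_apply u
      have hc' : cl (F.symm u) = cl p + 1 := by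
        have h1 := clF (F.symm u)
        rw [e1, hc] at h1
        exact (add_right_cancel h1).symm
      by_cases hodd : (cF (F.symm u)).val % 2 = 1
      · exact Or.inl ⟨false, Or.inr ⟨F.symm u, (mS0 _).2 ⟨hc', hodd⟩, e1.symm⟩⟩
      · right
        have h1 := altQ (F.symm u) (by omega)
        rw [← caR _ hc', ← caR (al (F.symm u)) (by rw [clA]; exact hc'), comF, e1] at h1
        exact h1
  · -- h2a
    rintro (_ | _) v hv
    · show ca v = ca (F v) ∧ ca (al v) = ca (al (F v))
      obtain ⟨h1, h2⟩ := (mS0 v).1 hv
      constructor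
      · rw [caQ v h1, caR v h1]
      · rw [← comF, caQ (al v) (by rw [clA]; exact h1), caR (al v) (by rw [clA]; exact h1)]
    · show ca v = ca (G v) ∧ ca (al v) = ca (al (G v))
      obtain ⟨h1, h2, h3⟩ := (mS1 v).1 hv
      constructor
      · rw [caP v h1, caQ (G v) (by rw [clG, h1]), cQdef, if_pos h2, G.symm_apply_apply]
      · have hvp : v ≠ p := by
          rintro rfl
          exact hep h2
        have h4 : (cF (al (G v))).val = e + 1 := by rw [sF (G v) (by omega), h2]
        rw [caP (al v) (by rw [clA]; exact h1), caQ (al (G v)) (by rw [clA, clG, h1]), cQdef,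
          if_neg (by omega), if_pos h4, al.symm_apply_apply, G.symm_apply_apply]
        exact ka1 v h1 hvp
  · -- h3a
    rw [caP p rfl, caP (al p) (clA p)]
    exact ka0
  · -- D1
    rintro (_ | _) v hv hv'
    · obtain ⟨h1, h2⟩ := (mS0 v).1 hv
      obtain ⟨h3, h4⟩ := (mS0 _).1 hv'
      have := oF v h2
      omega
    · obtain ⟨h1, h2, h3⟩ := (mS1 v).1 hv
      obtain ⟨h4, h5', h6⟩ := (mS1 _).1 hv'
      have := oG v h3
      omega
  · -- D2
    rintro (_ | _) (_ | _) v hv v' hv'
    · obtain ⟨h1, h2⟩ := (mS0 v).1 hv
      obtain ⟨h3, h4⟩ := (mS0 v').1 hv'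
      refine ⟨fun _ => rfl, ?_, fun _ => rfl⟩
      rintro rfl
      have : cl (F v') = cl v' + 1 := clF v'
      have h5' : cl (F v') = cl p + 1 := h1
      rw [h5', h3] at this
      exact d12 this.symm
    · obtain ⟨h1, h2⟩ := (mS0 v).1 hv
      obtain ⟨h3, h4, h5'⟩ := (mS1 v').1 hv'
      refine ⟨?_, ?_, ?_⟩
      · rintro rfl
        exact absurd (h1.symm.trans h3) d01
      · rintro rfl
        have h2' : (cF (G v')).val % 2 = 1 := h2
        omega
      · intro h
        have h6 : F v = G v' := h
        have h7 := congrArg cl h6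
        rw [clF, clG, h1, h3] at h7
        exact absurd h7 d12
    · obtain ⟨h1, h2, h3⟩ := (mS1 v).1 hv
      obtain ⟨h4, h5'⟩ := (mS0 v').1 hv'
      refine ⟨?_, ?_, ?_⟩
      · rintro rfl
        exact absurd (h4.symm.trans h1) d01
      · rintro rfl
        have h6 : cl (F v') = cl p := h1
        rw [clF, h4] at h6
        exact d02 h6
      · intro h
        have h6 : G v = F v' := h
        have h7 := congrArg cl h6
        rw [clF, clG, h1, h4] at h7
        exact absurd h7.symm d12
    · obtain ⟨h1, h2, h3⟩ := (mS1 v).1 hv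
      obtain ⟨h4, h5', h6⟩ := (mS1 v').1 hv'
      refine ⟨fun _ => rfl, ?_, fun _ => rfl⟩
      rintro rfl
      have h7 : cl (G v') = cl p := h1
      rw [clG, h4] at h7
      exact d01 h7
  · -- D3
    rintro (_ | _)
    · refine ⟨?_, ?_⟩
      · intro h
        have := ((mS0 w).1 h).2
        omega
      · intro v hv h
        have h1 := oF v ((mS0 v).1 hv).2
        have h2 : w = al v := h
        rw [← h2] at h1
        omega
    · refine ⟨?_, ?_⟩
      · intro h
        have := ((mS1 z).1 h).2.2
        omega
      · intro v hv h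
        have h1 := oG v ((mS1 v).1 hv).2.2
        have h2 : z = al v := h
        rw [← h2] at h1
        omega
  · -- D4
    rintro (_ | _)
    · refine ⟨?_, ?_⟩
      · intro h
        exact d01 ((mS0 p).1 h).1.symm
      · intro v hv h
        have h1 := congrArg cl h
        have h2 : cl p = cl (F v) := h1
        rw [clF, ((mS0 v).1 hv).1] at h2
        exact d02 h2.symm
    · refine ⟨?_, ?_⟩
      · intro h
        exact hep ((mS1 p).1 h).2.1
      · intro v hv h
        have h1 := congrArg cl h
        have h2 : cl p = cl (G v) := h1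
        rw [clG, ((mS1 v).1 hv).1] at h2
        exact d01 h2.symm

end lone3

end Pool.Agent.P45
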