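import Pool.Agent.Lib.P45dba8.Carrier
import Pool.Agent.Lib.P45dba8.Lone3Abs
import Pool.Agent.Lib.P45dba8.PairGood

/-! # LONE LIFT for `h = 3`, value one, no carrier Hamiltonian -/

set_option autoImplicit false

namespace Pool.Agent.P45

/-- A system for directed edges is a system for the edges. -/
theorem TS.symE {V Θ : Type*} {K : Set V} {E : V → V → Prop} {e : Θ → Bool → V}
    (h : TS K E e) : TS K (fun u v => E u v ∨ E v u) e := by
  obtain ⟨M, h1, h2, h3, h4, h5⟩ := h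
  refine ⟨M, h1, h2, h3, h4, ?_⟩
  rintro u hu v hv (h | h)
  · exact h5 u hu v hv h
  · rcases h5 v hv u hu h with ⟨k, hk | hk⟩ | ⟨k, b, hk⟩
    · exact Or.inl ⟨k, Or.inr ⟨hk.2, hk.1⟩⟩
    · exact Or.inl ⟨k, Or.inl ⟨hk.2, hk.1⟩⟩
    · exact Or.inr ⟨k, b, h1 _ _ _ _ hk⟩

theorem or3 (π : ZMod 3 ≃ ZMod 3) : (∀ i, π (i + 1) = π i + 1) ∨ (∀ i, π (i + 1) = π i - 1) := by
  have h : ∀ a b c : ZMod 3, a ≠ b → b ≠ c → c ≠ a →
      (b = a + 1 ∧ c = b + 1 ∧ a = c + 1) ∨ (b = a - 1 ∧ c = b - 1 ∧ a = c - 1) := by decide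
  have h01 : π 0 ≠ π 1 := π.injective.ne (by decide)
  have h12 : π 1 ≠ π 2 := π.injective.ne (by decide)
  have h20 : π 2 ≠ π 0 := π.injective.ne (by decide)
  have e0 : (0 : ZMod 3) + 1 = 1 := by decide
  have e1 : (1 : ZMod 3) + 1 = 2 := by decide
  have e2 : (2 : ZMod 3) + 1 = 0 := by decide
  have hi : ∀ i : ZMod 3, i = 0 ∨ i = 1 ∨ i = 2 := by decide
  rcases h _ _ _ h01 h12 h20 with ⟨a1, a2, a3⟩ | ⟨a1, a2, a3⟩
  · left
    intro i
    rcases hi i with rfl | rfl | rfl
    · rw [e0]; exact a1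
    · rw [e1]; exact a2
    · rw [e2]; exact a3
  · right
    intro i
    rcases hi i with rfl | rfl | rfl
    · rw [e0]; exact a1
    · rw [e1]; exact a2
    · rw [e2]; exact a3

theorem gcd_neg_val {m : ℕ} (hm : 0 < m) (C : ZMod m) :
    Nat.gcd m (-C).val = Nat.gcd m C.val := by
  have hNm : NeZero m := ⟨by omega⟩
  rw [ZMod.neg_val]
  split_ifs with h
  · rw [h, ZMod.val_zero]
  · have hlt := ZMod.val_lt C
    apply Nat.dvd_antisymm
    · apply Nat.dvd_gcd (Nat.gcd_dvd_left _ _)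
      have h1 := Nat.dvd_sub (Nat.gcd_dvd_left m (m - C.val)) (Nat.gcd_dvd_right m (m - C.val))
      rwa [Nat.sub_sub_self hlt.le] at h1
    · exact Nat.dvd_gcd (Nat.gcd_dvd_left _ _)
        (Nat.dvd_sub (Nat.gcd_dvd_left _ _) (Nat.gcd_dvd_right _ _))

/-- A carrier on three classes, oriented. -/
theorem oriented {m : ℕ} (hm : Odd m) {t : ZMod m} (ht : IsUnit t)
    {E : ZMod (m * 3) → ZMod (m * 3) → Prop} {w w' : ZMod (m * 3)} (π : ZMod 3 ≃ ZMod 3)
    (W : ZMod 3 → ZMod (m * 3)) (hW : ∀ i, red m 3 (W i) = π (i + 1) - π i)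
    (hw : red m 3 w = π (-1)) (hw' : w' = w + W (-1))
    (hE : ∀ v v', E v v' → v' = v + W (π.symm (red m 3 v)) ∨ v = v' + W (π.symm (red m 3 v'))) :
    ∃ (F : Equiv.Perm (ZMod (m * 3))) (C : ZMod m) (q : ℕ) (hq : q ∣ m)
      (comp : ZMod (m * 3) → ZMod q) (kF : ZMod (m * 3) → Bool) (a : ZMod (m * 3)),
      q = Nat.gcd m C.val ∧ (∀ v, red m 3 (F v) = red m 3 v + 1) ∧
      (∀ v s, F (v + psi m 3 s) = F v + psi m 3 s) ∧
      (∀ v s, comp (v + psi m 3 s) = comp v + ZMod.castHom hq (ZMod q) (s * t⁻¹)) ∧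
      (∀ v, comp (F v) = comp v) ∧ comp a = 0 ∧ (∀ v, F (F (F v)) = v + psi m 3 C) ∧
      (kF a = false ∧ kF (F a) = false) ∧ (∀ u, comp u = 0 → u ≠ a → kF (F u) = !kF u) ∧
      (∀ v v', E v v' → v' = F v ∨ v = F v') ∧ ((a = w ∧ F a = w') ∨ (a = w' ∧ F a = w)) ∧
      (psi m 3 C = ∑ i, W i ∨ psi m 3 C = -∑ i, W i) := by
  have hm0 : 0 < m := hm.pos
  obtain ⟨F, C, q, hq, comp, q1, q2, q3, q4, q5, q6, q7, q8⟩ :=
    carrier_data hm0 le_rfl ht π W hW w hw
  have hodd : Odd (3 * m) := (by decide : Odd 3).mul hm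
  have hFw : F w = w' := by
    rw [q2, hw, π.symm_apply_apply, hw']
  have hFs : ∀ v s, F (v + psi m 3 s) = F v + psi m 3 s := by
    intro v s
    rw [q2, q2, map_add, red_psi, add_zero]
    ring
  have hFr : ∀ v, red m 3 (F v) = π (π.symm (red m 3 v) + 1) := by
    intro v
    rw [q2, map_add, hW, π.apply_symm_apply]
    ring
  have hEF : ∀ v v', E v v' → v' = F v ∨ v = F v' := by
    intro v v' h
    rw [q2, q2]
    exact hE v v' h
  have hF3 : ∀ v, F (F (F v)) = v + psi m 3 C := fun v => q7 v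
  have hsum : psi m 3 C = ∑ i, W i := by
    have h1 := hF3 w
    have h2 : F (F (F w)) = w + (W (-1) + W (-1 + 1) + W (-1 + 1 + 1)) := by
      have r0 : π.symm (red m 3 w) = -1 := by rw [hw, π.symm_apply_apply]
      have r1 : π.symm (red m 3 (F w)) = -1 + 1 := by rw [hFr, r0, π.symm_apply_apply]
      have r2 : π.symm (red m 3 (F (F w))) = -1 + 1 + 1 := by rw [hFr, r1, π.symm_apply_apply]
      rw [q2 (F (F w)), r2, q2 (F w), r1, q2 w, r0]
      ring
    rw [h2] at h1
    rw [← add_left_cancel h1]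
    have e0 : (-1 : ZMod 3) = 2 := by decide
    have e1 : (-1 : ZMod 3) + 1 = 0 := by decide
    have e2 : (-1 : ZMod 3) + 1 + 1 = 1 := by decide
    rw [e2, e1, e0]
    have h3 : ∑ i : ZMod 3, W i = W 0 + W 1 + W 2 := Fin.sum_univ_three W
    rw [h3]
    ring
  rcases or3 π with hπ | hπ
  · obtain ⟨kF, k1, k2, k3⟩ := cyc_colour (F : _ → _) F.injective w hodd (q8 w)
    refine ⟨F, C, q, hq, comp, kF, w, q1, ?_, hFs, q3, q4, q5, hF3, ⟨k1, k2⟩, ?_, hEF,
      Or.inl ⟨rfl, hFw⟩, Or.inl hsum⟩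
    · intro v
      rw [hFr, hπ, π.apply_symm_apply]
    · intro u hu hne
      exact k3 u (q6 w u (by rw [hu, q5])) hne
  · have hFi : ∀ v, F (F.symm v) = v := F.apply_symm_apply
    have hsi : ∀ (i : ℕ) u v, F^[i] u = v → (F.symm : _ → _)^[i] v = u := by
      intro i
      induction i with
      | zero => intro u v h; exact h.symm
      | succ i ih =>
        intro u v h
        rw [Function.iterate_succ_apply'] at h
        rw [Function.iterate_succ_apply]
        apply ih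
        rw [← h, F.symm_apply_apply]
    obtain ⟨kF, k1, k2, k3⟩ := cyc_colour (F.symm : _ → _) F.symm.injective w' hodd
      (hsi _ _ _ (q8 w'))
    refine ⟨F.symm, -C, q, hq, comp, kF, w', ?_, ?_, ?_, q3, ?_, ?_, ?_, ⟨k1, k2⟩, ?_, ?_,
      Or.inr ⟨rfl, ?_⟩, Or.inr ?_⟩
    · rw [gcd_neg_val hm0]
      exact q1
    · intro v
      have h1 := hFr (F.symm v)
      rw [hFi, hπ, π.apply_symm_apply] at h1
      rw [h1]
      ring
    · intro v s
      rw [Equiv.symm_apply_eq, hFs, hFi]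
    · intro v
      have h1 := q4 (F.symm v)
      rw [hFi] at h1
      exact h1.symm
    · rw [← hFw, q4]
      exact q5
    · intro v
      rw [Equiv.symm_apply_eq, Equiv.symm_apply_eq, Equiv.symm_apply_eq, hF3, map_neg]
      ring
    · intro u hu hne
      apply k3 u ?_ hne
      have h1 : comp w' = 0 := by
        rw [← hFw, q4]
        exact q5
      obtain ⟨i, hi⟩ := q6 u w' (by rw [hu, h1])
      exact ⟨i, hsi _ _ _ hi⟩
    · intro v v' h
      rcases hEF v v' h with h | h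
      · right
        rw [h, F.symm_apply_apply]
      · left
        rw [h, F.symm_apply_apply]
    · rw [← hFw, F.symm_apply_apply]
    · rw [map_neg, hsum]

/-- The numbers of cycles of the two carriers are coprime. -/
theorem coprime_cycles {m : ℕ} (hm : Odd m) (F G : Equiv.Perm (ZMod (m * 3))) (C C' : ZMod m)
    (hF3 : ∀ v, F (F (F v)) = v + psi m 3 C) (hG3 : ∀ v, G (G (G v)) = v + psi m 3 C')
    (hFr : ∀ v, red m 3 (F v) = red m 3 v + 1) (hGr : ∀ v, red m 3 (G v) = red m 3 v + 1)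
    (hFs : ∀ v s, F (v + psi m 3 s) = F v + psi m 3 s)
    (hGs : ∀ v s, G (v + psi m 3 s) = G v + psi m 3 s)
    (x y : ZMod (m * 3)) (hcop : ∀ r : ℕ, r.Prime → r ∣ m → r ∣ x.val → ¬ r ∣ y.val)
    (hFG : ∀ v, (F v = v + x ∧ G v = v + y) ∨ (F v = v + y ∧ G v = v + x)) :
    Nat.Coprime (Nat.gcd m C.val) (Nat.gcd m C'.val) := by
  have hm0 : 0 < m := hm.pos
  have hNm : NeZero m := ⟨by omega⟩
  have hNm3 : NeZero (m * 3) := ⟨by omega⟩
  -- the steps in a class
  have hcl : ∀ v v', red m 3 v = red m 3 v' → F v - v = F v' - v' ∧ G v - v = G v' - v' := by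
    intro v v' h
    obtain ⟨s, hs⟩ := exists_psi m 3 (v := v' - v) (by rw [map_sub, h, sub_self])
    have e : v' = v + psi m 3 s := by rw [← hs]; ring
    rw [e, hFs, hGs]
    constructor <;> ring
  choose rep hrep using red_surj m 3
  let f : ZMod 3 → ZMod (m * 3) := fun c => F (rep c) - rep c
  let g : ZMod 3 → ZMod (m * 3) := fun c => G (rep c) - rep c
  have hf : ∀ v, F v = v + f (red m 3 v) := by
    intro v
    have := (hcl v (rep (red m 3 v)) (hrep _).symm).1
    show F v = v + (F (rep (red m 3 v)) - rep (red m 3 v))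
    rw [← this]
    ring
  have hg : ∀ v, G v = v + g (red m 3 v) := by
    intro v
    have := (hcl v (rep (red m 3 v)) (hrep _).symm).2
    show G v = v + (G (rep (red m 3 v)) - rep (red m 3 v))
    rw [← this]
    ring
  have hfg : ∀ c, (f c = x ∧ g c = y) ∨ (f c = y ∧ g c = x) := by
    intro c
    rcases hFG (rep c) with ⟨a, b⟩ | ⟨a, b⟩
    · left
      refine ⟨?_, ?_⟩
      · show F (rep c) - rep c = x
        rw [a]; ring
      · show G (rep c) - rep c = y
        rw [b]; ring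
    · right
      refine ⟨?_, ?_⟩
      · show F (rep c) - rep c = y
        rw [a]; ring
      · show G (rep c) - rep c = x
        rw [b]; ring
  have e1 : psi m 3 C = f 0 + f (0 + 1) + f (0 + 1 + 1) := by
    have h := hF3 0
    have r0 : red m 3 (0 : ZMod (m * 3)) = 0 := map_zero _
    have r1 : red m 3 (F 0) = 0 + 1 := by rw [hFr, r0]
    have r2 : red m 3 (F (F 0)) = 0 + 1 + 1 := by rw [hFr, r1]
    rw [hf (F (F 0)), r2, hf (F 0), r1, hf 0, r0] at h
    linear_combination (-1 : ZMod (m * 3)) * h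
  have e2 : psi m 3 C' = g 0 + g (0 + 1) + g (0 + 1 + 1) := by
    have h := hG3 0
    have r0 : red m 3 (0 : ZMod (m * 3)) = 0 := map_zero _
    have r1 : red m 3 (G 0) = 0 + 1 := by rw [hGr, r0]
    have r2 : red m 3 (G (G 0)) = 0 + 1 + 1 := by rw [hGr, r1]
    rw [hg (G (G 0)), r2, hg (G 0), r1, hg 0, r0] at h
    linear_combination (-1 : ZMod (m * 3)) * h
  by_contra hcon
  obtain ⟨r, hr, hr1, hr2⟩ := Nat.Prime.not_coprime_iff_dvd.1 hcon
  have rm : r ∣ m := hr1.trans (Nat.gcd_dvd_left _ _)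
  have rC : r ∣ C.val := hr1.trans (Nat.gcd_dvd_right _ _)
  have rC' : r ∣ C'.val := hr2.trans (Nat.gcd_dvd_right _ _)
  have hdvd : r * 3 ∣ m * 3 := Nat.mul_dvd_mul_right rm 3
  set φ := ZMod.castHom hdvd (ZMod (r * 3)) with hφ
  have hψ : ∀ D : ZMod m, r ∣ D.val → φ (psi m 3 D) = 0 := by
    intro D hD
    have h1 : psi m 3 D = ((D.val * 3 : ℕ) : ZMod (m * 3)) := by
      conv_lhs => rw [← ZMod.natCast_zmod_val D]
      rw [psi_natCast]
      push_cast
      rfl
    rw [h1, map_natCast, ZMod.natCast_eq_zero_iff]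
    exact Nat.mul_dvd_mul_right hD 3
  have a1 := hψ C rC
  have a2 := hψ C' rC'
  rw [e1, map_add, map_add] at a1
  rw [e2, map_add, map_add] at a2
  have key : 3 * φ x = 0 ∧ 3 * φ y = 0 := by
    rcases hfg 0 with ⟨b0, c0⟩ | ⟨b0, c0⟩ <;> rcases hfg (0 + 1) with ⟨b1, c1⟩ | ⟨b1, c1⟩ <;>
      rcases hfg (0 + 1 + 1) with ⟨b2, c2⟩ | ⟨b2, c2⟩ <;>
      rw [b0, b1, b2] at a1 <;> rw [c0, c1, c2] at a2
    · exact ⟨by linear_combination a1, by linear_combination a2⟩
    · exact ⟨by linear_combination 2 * a1 - a2, by linear_combination 2 * a2 - a1⟩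
    · exact ⟨by linear_combination 2 * a1 - a2, by linear_combination 2 * a2 - a1⟩
    · exact ⟨by linear_combination 2 * a2 - a1, by linear_combination 2 * a1 - a2⟩
    · exact ⟨by linear_combination 2 * a1 - a2, by linear_combination 2 * a2 - a1⟩
    · exact ⟨by linear_combination 2 * a2 - a1, by linear_combination 2 * a1 - a2⟩
    · exact ⟨by linear_combination 2 * a2 - a1, by linear_combination 2 * a1 - a2⟩
    · exact ⟨by linear_combination a2, by linear_combination a1⟩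
  have hv : ∀ z : ZMod (m * 3), 3 * φ z = 0 → r ∣ z.val := by
    intro z hz
    have h1 : φ z = ((z.val : ℕ) : ZMod (r * 3)) := by
      conv_lhs => rw [← ZMod.natCast_zmod_val z]
      rw [map_natCast]
    have h2 : ((z.val * 3 : ℕ) : ZMod (r * 3)) = 0 := by
      push_cast
      rw [← h1]
      linear_combination hz
    rw [ZMod.natCast_eq_zero_iff] at h2
    exact Nat.dvd_of_mul_dvd_mul_right (by norm_num) h2
  exact hcop r hr rm (hv x key.1) (hv y key.2)

theorem dvd_val_neg {n r : ℕ} (hn : 0 < n) (hr : r ∣ n) (x : ZMod n) (h : r ∣ (-x).val) :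
    r ∣ x.val := by
  have hN : NeZero n := ⟨by omega⟩
  rw [ZMod.neg_val] at h
  split_ifs at h with h0
  · rw [h0, ZMod.val_zero]
    exact dvd_zero r
  · have h1 := Nat.dvd_sub hr h
    rwa [Nat.sub_sub_self (ZMod.val_lt x).le] at h1

/-- LONE LIFT for `h = 3`, value one, no carrier Hamiltonian. -/
theorem lone3_carriers {m : ℕ} (hm : Odd m) {t : ZMod m} (ht : IsUnit t) {x y : ZMod (m * 3)}
    (hx : red m 3 x ≠ 0) (hy : red m 3 y ≠ 0) (hcop : cop x y) (hxy : x ≠ y) (hxy' : x ≠ -y)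
    {E E' : ZMod (m * 3) → ZMod (m * 3) → Prop} {w w' z z' : ZMod (m * 3)}
    (π : ZMod 3 ≃ ZMod 3) (W : ZMod 3 → ZMod (m * 3))
    (hW : ∀ i, red m 3 (W i) = π (i + 1) - π i) (hw : red m 3 w = π (-1)) (hw' : w' = w + W (-1))
    (hE : ∀ v v', E v v' → v' = v + W (π.symm (red m 3 v)) ∨ v = v' + W (π.symm (red m 3 v')))
    (π' : ZMod 3 ≃ ZMod 3) (W' : ZMod 3 → ZMod (m * 3))
    (hW' : ∀ i, red m 3 (W' i) = π' (i + 1) - π' i) (hz : red m 3 z = π' (-1))
    (hz' : z' = z + W' (-1))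
    (hE' : ∀ v v', E' v v' →
      v' = v + W' (π'.symm (red m 3 v)) ∨ v = v' + W' (π'.symm (red m 3 v')))
    (hcov : ∀ v v', (v' = v + x ∨ v' = v + y) → (E v v' ∨ E v' v) ∨ (E' v v' ∨ E' v' v))
    (hC : ∀ γ, ∑ i, W i = psi m 3 γ → ¬ IsUnit γ)
    (hC' : ∀ γ, ∑ i, W' i = psi m 3 γ → ¬ IsUnit γ) (p : ZMod (m * 3)) :
    TS Set.univ (fun v v' => (v' = v + psi m 3 t ∨ v = v' + psi m 3 t) ∨
        (v' = v + x ∨ v = v' + x ∨ v' = v + y ∨ v = v' + y))
      (fun (k : Option Bool) b => k.elim (bif b then p + psi m 3 t else p)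
        (fun j => bif b then (bif j then z' else w') else (bif j then z else w))) := by
  classical
  have hm0 : 0 < m := hm.pos
  have hNm : NeZero m := ⟨by omega⟩
  have hn0 : 0 < m * 3 := by omega
  obtain ⟨F, C, q, hq, cF, kF, a, q0, Fr, Fs, cFs, cFF, cFa, F3, kF0, kF1, EF, or1, sm1⟩ :=
    oriented hm ht π W hW hw hw' hE
  obtain ⟨G, C', q', hq', cG, kG, b, q0', Gr, Gs, cGs, cGG, cGb, G3, kG0, kG1, EG', or2, sm2⟩ :=
    oriented hm ht π' W' hW' hz hz' hE'
  have htt : t * t⁻¹ = 1 := ZMod.mul_inv_of_unit t ht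
  -- the two steps
  have hred : ∀ c : ZMod 3, c ≠ 0 → c = 1 ∨ -c = 1 := by decide
  obtain ⟨x1, hx1, hx1'⟩ : ∃ x1, (x1 = x ∨ x1 = -x) ∧ red m 3 x1 = 1 := by
    rcases hred _ hx with h | h
    · exact ⟨x, Or.inl rfl, h⟩
    · exact ⟨-x, Or.inr rfl, by rw [map_neg]; exact h⟩
  obtain ⟨y1, hy1, hy1'⟩ : ∃ y1, (y1 = y ∨ y1 = -y) ∧ red m 3 y1 = 1 := by
    rcases hred _ hy with h | h
    · exact ⟨y, Or.inl rfl, h⟩
    · exact ⟨-y, Or.inr rfl, by rw [map_neg]; exact h⟩
  have hne1 : x1 ≠ y1 := by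
    intro h
    rcases hx1 with rfl | rfl <;> rcases hy1 with rfl | rfl
    · exact hxy h
    · exact hxy' h
    · exact hxy' (by rw [← h, neg_neg])
    · exact hxy (neg_injective h)
  have h110 : ∀ c : ZMod 3, c ≠ c + 1 + 1 := by decide
  have hcv : ∀ u u' v : ZMod (m * 3), (u = v ∧ u' = v + x ∨ u = v ∧ u' = v + y) →
      (u' = F u ∨ u = F u') ∨ (u' = G u ∨ u = G u') := by
    rintro u u' v h
    have h1 : (E u u' ∨ E u' u) ∨ (E' u u' ∨ E' u' u) := by
      rcases h with ⟨rfl, h⟩ | ⟨rfl, h⟩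
      · exact hcov _ _ (Or.inl h)
      · exact hcov _ _ (Or.inr h)
    rcases h1 with (h1 | h1) | (h1 | h1)
    · exact Or.inl (EF _ _ h1)
    · exact Or.inl (EF _ _ h1).symm
    · exact Or.inr (EG' _ _ h1)
    · exact Or.inr (EG' _ _ h1).symm
  have hstep : ∀ v d, (d = x1 ∨ d = y1) → v + d = F v ∨ v + d = G v := by
    intro v d hd
    have hdr : red m 3 (v + d) = red m 3 v + 1 := by
      rw [map_add]
      rcases hd with rfl | rfl
      · rw [hx1']
      · rw [hy1']
    have h1 : ((v + d = F v ∨ v = F (v + d)) ∨ (v + d = G v ∨ v = G (v + d))) := by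
      have h2 : (d = x ∨ d = -x) ∨ (d = y ∨ d = -y) := by
        rcases hd with rfl | rfl
        · exact Or.inl hx1
        · exact Or.inr hy1
      rcases h2 with (h2 | h2) | (h2 | h2)
      · exact hcv v (v + d) v (Or.inl ⟨rfl, by rw [h2]⟩)
      · have := hcv (v + d) v (v + d) (Or.inl ⟨rfl, by rw [h2]; ring⟩)
        exact this.imp Or.symm Or.symm
      · exact hcv v (v + d) v (Or.inr ⟨rfl, by rw [h2]⟩)
      · have := hcv (v + d) v (v + d) (Or.inr ⟨rfl, by rw [h2]; ring⟩)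
        exact this.imp Or.symm Or.symm
    rcases h1 with (h1 | h1) | (h1 | h1)
    · exact Or.inl h1
    · exfalso
      have h2 := congrArg (red m 3) h1
      rw [Fr, hdr] at h2
      exact h110 _ h2
    · exact Or.inr h1
    · exfalso
      have h2 := congrArg (red m 3) h1
      rw [Gr, hdr] at h2
      exact h110 _ h2
  have hFG : ∀ v, (F v = v + x1 ∧ G v = v + y1) ∨ (F v = v + y1 ∧ G v = v + x1) := by
    intro v
    rcases hstep v x1 (Or.inl rfl) with h1 | h1 <;> rcases hstep v y1 (Or.inr rfl) with h2 | h2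
    · exact absurd (add_left_cancel (h1.trans h2.symm)) hne1
    · exact Or.inl ⟨h1.symm, h2.symm⟩
    · exact Or.inr ⟨h2.symm, h1.symm⟩
    · exact absurd (add_left_cancel (h1.trans h2.symm)) hne1
  have hcop1 : ∀ r : ℕ, r.Prime → r ∣ m → r ∣ x1.val → ¬ r ∣ y1.val := by
    intro r hr hrm h1 h2
    have hrn : r ∣ m * 3 := hrm.mul_right 3
    have h3 : r ∣ x.val := by
      rcases hx1 with rfl | rfl
      · exact h1
      · exact dvd_val_neg hn0 hrn _ h1
    have h4 : r ∣ y.val := by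
      rcases hy1 with rfl | rfl
      · exact h2
      · exact dvd_val_neg hn0 hrn _ h2
    have h5 : r ∣ Nat.gcd (Nat.gcd x.val y.val) (m * 3) := Nat.dvd_gcd (Nat.dvd_gcd h3 h4) hrn
    have h6 : Nat.gcd (Nat.gcd x.val y.val) (m * 3) = 1 := hcop
    rw [h6] at h5
    exact hr.one_lt.ne' (Nat.dvd_one.1 h5)
  have hcc := coprime_cycles hm F G C C' F3 G3 Fr Gr Fs Gs x1 y1 hcop1 hFG
  rw [← q0, ← q0'] at hcc
  -- no carrier is Hamiltonian
  have hbig : ∀ (D : ZMod m) (q : ℕ), q = Nat.gcd m D.val → ¬ IsUnit D → Odd q ∧ 3 ≤ q := by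
    intro D q hqD hD
    have h1 : Odd q := by
      rw [hqD]
      exact Odd.of_dvd_nat hm (Nat.gcd_dvd_left _ _)
    refine ⟨h1, ?_⟩
    have h2 : q ≠ 1 := by
      intro h
      apply hD
      have h3 : IsUnit ((D.val : ℕ) : ZMod m) := by
        rw [ZMod.isUnit_iff_coprime]
        show Nat.gcd D.val m = 1
        rw [Nat.gcd_comm, ← hqD, h]
      rwa [ZMod.natCast_zmod_val] at h3
    obtain ⟨j, hj⟩ := h1
    omega
  have uC : ¬ IsUnit C := by
    rcases sm1 with h | h
    · exact hC C h.symm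
    · intro hu
      exact hC (-C) (by rw [map_neg, h, neg_neg]) hu.neg
  have uC' : ¬ IsUnit C' := by
    rcases sm2 with h | h
    · exact hC' C' h.symm
    · intro hu
      exact hC' (-C') (by rw [map_neg, h, neg_neg]) hu.neg
  obtain ⟨o1, g1⟩ := hbig C q q0 uC
  obtain ⟨o2, g2⟩ := hbig C' q' q0' uC'
  -- the thread of the single
  let al : Equiv.Perm (ZMod (m * 3)) := Equiv.addRight (psi m 3 t)
  have hal : ∀ v, al v = v + psi m 3 t := fun v => rfl
  have hali : ∀ (i : ℕ) v, (al : _ → _)^[i] v = v + psi m 3 (i * t) := by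
    intro i
    induction i with
    | zero => intro v; simp
    | succ i ih =>
      intro v
      rw [Function.iterate_succ_apply', ih, hal, add_assoc, ← map_add]
      congr 2
      push_cast
      ring
  obtain ⟨ka, ka0, ka0', ka1⟩ := cyc_colour (al : _ → _) al.injective p hm
    (by rw [hali, ZMod.natCast_self, zero_mul, map_zero, add_zero])
  have ka1' : ∀ u, red m 3 u = red m 3 p → u ≠ p → ka (al u) = !ka u := by
    intro u hu hne
    refine ka1 u ?_ hne
    obtain ⟨s, hs⟩ := exists_psi m 3 (v := u - p) (by rw [map_sub, hu, sub_self])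
    refine ⟨(s * t⁻¹).val, ?_⟩
    rw [hali, ZMod.natCast_zmod_val, mul_assoc, mul_comm t⁻¹, htt, mul_one, ← hs]
    ring
  have comA : ∀ v, red m 3 (al v) = red m 3 v := by
    intro v
    rw [hal, map_add, red_psi, add_zero]
  have cF1 : ∀ v, cF (al v) = cF v + 1 := by
    intro v
    rw [hal, cFs, htt, map_one]
  have cG1 : ∀ v, cG (al v) = cG v + 1 := by
    intro v
    rw [hal, cGs, htt, map_one]
  -- the units
  have hunit : ∀ (D : ZMod m) (r r' : ℕ) (hr : r ∣ m), r' = Nat.gcd m D.val → Nat.Coprime r r' →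
      IsUnit (ZMod.castHom hr (ZMod r) (D * t⁻¹)) := by
    intro D r r' hr hrD hrr
    rw [map_mul]
    refine IsUnit.mul ?_ ?_
    · have h1 : ZMod.castHom hr (ZMod r) D = ((D.val : ℕ) : ZMod r) := by
        rw [ZMod.castHom_apply, ZMod.cast_eq_val]
      rw [h1, ZMod.isUnit_iff_coprime]
      have h2 : Nat.gcd D.val r ∣ r' := by
        rw [hrD]
        exact Nat.dvd_gcd ((Nat.gcd_dvd_right _ _).trans hr) (Nat.gcd_dvd_left _ _)
      exact Nat.dvd_one.1 (by
        rw [← hrr]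
        exact Nat.dvd_gcd (Nat.gcd_dvd_right _ _) h2)
    · exact (IsUnit.of_mul_eq_one t (by rw [mul_comm]; exact htt)).map _
  -- the raw system
  have raw : TS Set.univ (fun u v => v = al u ∨ ∃ j : Bool, v = (bif j then G u else F u))
      (fun (k : Option Bool) c =>
        k.elim (bif c then al p else p)
          (fun j => bif c then (bif j then G b else F a) else (bif j then b else a))) := by
    by_cases h5 : 5 ≤ q
    · exact lone3_abs al F G (red m 3) comA Fr Gr (fun v => Fs v t) (fun v => Gs v t) p a b o1 o2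
        h5 g2 cF cG cF1 cG1 cFF cGG cFa cGb _ (hunit C' q q' hq q0' hcc)
        (fun v => by rw [G3, cFs]) ka ⟨ka0, ka0'⟩ ka1' kF kF0 kF1 kG kG0 kG1
    · have h5' : 5 ≤ q' := by
        have h3 : q = 3 := by
          obtain ⟨j, hj⟩ := o1
          omega
        have h3' : q' ≠ 3 := by
          intro h
          rw [h3, h] at hcc
          exact absurd hcc (by decide)
        obtain ⟨j, hj⟩ := o2
        omega
      have h := lone3_abs al G F (red m 3) comA Gr Fr (fun v => Gs v t) (fun v => Fs v t) p b a o2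
        o1 h5' g1 cG cF cG1 cF1 cGG cFF cGb cFa _ (hunit C q' q hq' q0 hcc.symm)
        (fun v => by rw [F3, cGs]) ka ⟨ka0, ka0'⟩ ka1' kG kG0 kG1 kF kF0 kF1
      let σ : Option Bool ≃ Option Bool := Equiv.optionCongr Equiv.boolNot
      refine ((h.reindex σ).mono ?_).congr ?_
      · rintro u - v - (h | ⟨j, h⟩)
        · exact Or.inl h
        · exact Or.inr ⟨!j, by cases j <;> exact h⟩
      · rintro (_ | _ | _) c <;> cases c <;> rfl
  -- the ends of the holes
  obtain ⟨s1, hs1⟩ : ∃ s1 : Bool, ∀ c : Bool, (bif xor s1 c then F a else a) =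
      (bif c then w' else w) := by
    rcases or1 with ⟨h1, h2⟩ | ⟨h1, h2⟩
    · exact ⟨false, by rintro (_ | _); exacts [h1, h2]⟩
    · exact ⟨true, by rintro (_ | _); exacts [h2, h1]⟩
  obtain ⟨s2, hs2⟩ : ∃ s2 : Bool, ∀ c : Bool, (bif xor s2 c then G b else b) =
      (bif c then z' else z) := by
    rcases or2 with ⟨h1, h2⟩ | ⟨h1, h2⟩
    · exact ⟨false, by rintro (_ | _); exacts [h1, h2]⟩
    · exact ⟨true, by rintro (_ | _); exacts [h2, h1]⟩
  refine ((raw.symE.swap (fun k => k.elim false (fun j => bif j then s2 else s1))).mono ?_).congr ?_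
  · have hxx : ∀ u v, v = u + x → ((v = al u ∨ ∃ j : Bool, v = (bif j then G u else F u)) ∨
        (u = al v ∨ ∃ j : Bool, u = (bif j then G v else F v))) := by
      intro u v h
      rcases hcv u v u (Or.inl ⟨rfl, h⟩) with (h | h) | (h | h)
      · exact Or.inl (Or.inr ⟨false, h⟩)
      · exact Or.inr (Or.inr ⟨false, h⟩)
      · exact Or.inl (Or.inr ⟨true, h⟩)
      · exact Or.inr (Or.inr ⟨true, h⟩)
    have hyy : ∀ u v, v = u + y → ((v = al u ∨ ∃ j : Bool, v = (bif j then G u else F u)) ∨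
        (u = al v ∨ ∃ j : Bool, u = (bif j then G v else F v))) := by
      intro u v h
      rcases hcv u v u (Or.inr ⟨rfl, h⟩) with (h | h) | (h | h)
      · exact Or.inl (Or.inr ⟨false, h⟩)
      · exact Or.inr (Or.inr ⟨false, h⟩)
      · exact Or.inl (Or.inr ⟨true, h⟩)
      · exact Or.inr (Or.inr ⟨true, h⟩)
    rintro u - v - ((h | h) | h | h | h | h)
    · exact Or.inl (Or.inl h)
    · exact Or.inr (Or.inl h)
    · exact hxx u v h
    · exact (hxx v u h).symm
    · exact hyy u v h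
    · exact (hyy v u h).symm
  · rintro (_ | _ | _) c
    · cases c <;> rfl
    · exact (hs1 c).symm
    · exact (hs2 c).symm

end Pool.Agent.P45
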