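import Pool.Agent.Lib.P45dba8.Final
import Pool.Agent.Lib.P45dba8.Lone3

/-! # The case `h = 3` of the last input -/

set_option autoImplicit false

namespace Pool.Agent.P45

theorem chart_sum3 {m : ℕ} {π : ZMod 3 ≃ ZMod 3} {W : ZMod 3 → ZMod (m * 3)}
    {p q : ZMod (m * 3)} {C : ZMod m} {phi : ZMod 3 × ZMod m ≃ ZMod (m * 3)}
    (H : Chart m 3 π W p q C phi) : ∑ i, W i = psi m 3 C := by
  have e1 := stp_iter_all (h := 3) le_rfl C ((0 : ZMod 3), (0 : ZMod m))
  have e2 : (stp (h := 3) C)^[3] ((0 : ZMod 3), (0 : ZMod m)) =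
      stp C (stp C (stp C ((0 : ZMod 3), (0 : ZMod m)))) := rfl
  rw [e2] at e1
  have e3 := congrArg phi e1
  rw [H.r2, H.r2, H.r2] at e3
  have e4 : phi (((0 : ZMod 3), (0 : ZMod m)).1, ((0 : ZMod 3), (0 : ZMod m)).2 + C) =
      phi ((0 : ZMod 3), (0 : ZMod m)) + psi m 3 C := H.r3 0 0 C
  rw [e4] at e3
  have a1 : (stp (h := 3) C ((0 : ZMod 3), (0 : ZMod m))).1 = 1 := by
    show (0 : ZMod 3) + 1 = 1
    decide
  have a2 : (stp (h := 3) C (stp C ((0 : ZMod 3), (0 : ZMod m)))).1 = 2 := by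
    show (0 : ZMod 3) + 1 + 1 = 2
    decide
  rw [a1, a2] at e3
  have h3 : ∑ i : ZMod 3, W i = W 0 + W 1 + W 2 := Fin.sum_univ_three W
  rw [h3]
  have e5 : ((0 : ZMod 3), (0 : ZMod m)).1 = 0 := rfl
  rw [e5] at e3
  linear_combination e3

/-- THE CASE `h = 3`. -/
theorem lone3 : LoneNonHamAt 3 := by
  intro m hm m3 t ht x y hx hy hcop hxy hxy' p q p' q' π π' W W' C C' phi phi' H H' hC hC' hcov w
  have hinj := psi_inj m 3 (by norm_num)
  have key := lone3_carriers hm ht hx hy hcop hxy hxy' π W H.hW H.hp H.hq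
    (E := StepW π W) (fun v v' h => Or.inl h) π' W' H'.hW H'.hp H'.hq
    (E' := StepW π' W') (fun v v' h => Or.inl h) hcov
    (fun γ hγ hu => hC (by
      have h1 := chart_sum3 H
      rw [hγ] at h1
      rw [← hinj h1]
      exact hu))
    (fun γ hγ hu => hC' (by
      have h1 := chart_sum3 H'
      rw [hγ] at h1
      rw [← hinj h1]
      exact hu)) w
  refine (key.mono ?_).congr ?_
  · rintro u - v - ⟨δ, hδ, huv⟩
    rcases hδ with rfl | rfl | rfl
    · exact Or.inl huv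
    · rcases huv with h | h
      · exact Or.inr (Or.inl h)
      · exact Or.inr (Or.inr (Or.inl h))
    · rcases huv with h | h
      · exact Or.inr (Or.inr (Or.inr (Or.inl h)))
      · exact Or.inr (Or.inr (Or.inr (Or.inr h)))
  · rintro (_ | _ | _) (_ | _) <;> rfl

end Pool.Agent.P45
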