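import Pool.Agent.Lib.P45dba8.LoneSum

/-! # MP_45dba8: the lone single, adapter for carriers indexed by `Bool` -/

set_option autoImplicit false

namespace Pool.Agent.P45

/-- The edge relation of a colour system can be made symmetric. -/
theorem TS.symmE {V Θ : Type*} {K : Set V} {E : V → V → Prop} {e : Θ → Bool → V}
    (h : TS K E e) : TS K (fun u v => E u v ∨ E v u) e := by
  obtain ⟨M, h1, h2, h3, h4, h5⟩ := h
  refine ⟨M, h1, h2, h3, h4, ?_⟩
  rintro u hu v hv (h | h)
  · exact h5 u hu v hv h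
  · rcases h5 v hv u hu h with ⟨k, hk | hk⟩ | ⟨k, b, hk⟩
    · exact Or.inl ⟨k, Or.inr ⟨hk.2, hk.1⟩⟩
    · exact Or.inl ⟨k, Or.inl ⟨hk.2, hk.1⟩⟩
    · exact Or.inr ⟨k, b, h1 k b _ _ hk⟩

/-- The statement with two carriers indexed by `Bool`. -/
def LoneCarAll : Prop := ∀ (m h : ℕ) [NeZero h], Odd m → Odd h → 3 ≤ m → 3 ≤ h →
  ∀ t : ZMod m, IsUnit t →
  ∀ x y : ZMod (m * h), red m h x ≠ 0 → red m h y ≠ 0 → cop x y → x ≠ y → x ≠ -y →
  ∀ (π : Bool → ZMod h ≃ ZMod h) (W : Bool → ZMod h → ZMod (m * h)) (w : Bool → ZMod (m * h)),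
    (∀ b i, red m h (W b i) = π b (i + 1) - π b i) → (∀ b, red m h (w b) = π b (-1)) →
    (∀ v v', (v' = v + x ∨ v' = v + y) → ∃ b, v' = v + W b ((π b).symm (red m h v)) ∨
      v = v' + W b ((π b).symm (red m h v'))) →
    (∀ b (γ : ZMod m), ∑ i, W b i = psi m h γ → ¬ IsUnit γ) →
    ∀ p : ZMod (m * h), TS Set.univ
      (fun u v => v = u + psi m h t ∨ ∃ b, v = u + W b ((π b).symm (red m h u)))
      (fun (k : Option Bool) b => k.elim (bif b then p + psi m h t else p)
        (fun j => bif b then w j + W j (-1) else w j))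

theorem loneNonHam_of_car (H : LoneCarAll) : LoneNonHam := by
  intro m h hm hh m3 h3 t ht x y hx hy hc h1 h2 p q p' q' π π' W W' C C' phi phi' ch ch' hC hC'
    hcov w
  have hNZ : NeZero h := ⟨by omega⟩
  have key := H m h hm hh m3 h3 t ht x y hx hy hc h1 h2 (fun b => bif b then π' else π)
    (fun b => bif b then W' else W) (fun b => bif b then p' else p)
    (by rintro (_ | _) i; exacts [ch.hW i, ch'.hW i])
    (by rintro (_ | _); exacts [ch.hp, ch'.hp])
    (by
      intro v v' hv
      rcases hcov v v' hv with h4 | h4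
      · exact ⟨false, h4⟩
      · exact ⟨true, h4⟩)
    (by
      rintro (_ | _) γ hγ
      · exact ch.not_unit (by omega) (by omega) hC γ hγ
      · exact ch'.not_unit (by omega) (by omega) hC' γ hγ) w
  refine (key.symmE.mono ?_).congr ?_
  · rintro u - v - ⟨δ, hδ | hδ, hvv⟩
    · rw [hδ] at hvv
      rcases hvv with hvv | hvv
      · exact Or.inl (Or.inl hvv)
      · exact Or.inr (Or.inl hvv)
    · have h5 : (StepW π W u v ∨ StepW π W v u) ∨ (StepW π' W' u v ∨ StepW π' W' v u) := by
        rcases hvv with hvv | hvv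
        · exact hcov u v (by rcases hδ with rfl | rfl; exacts [Or.inl hvv, Or.inr hvv])
        · rcases hcov v u (by rcases hδ with rfl | rfl; exacts [Or.inl hvv, Or.inr hvv])
            with h6 | h6
          · exact Or.inl h6.symm
          · exact Or.inr h6.symm
      rcases h5 with (h6 | h6) | (h6 | h6)
      · exact Or.inl (Or.inr ⟨false, h6⟩)
      · exact Or.inr (Or.inr ⟨false, h6⟩)
      · exact Or.inl (Or.inr ⟨true, h6⟩)
      · exact Or.inr (Or.inr ⟨true, h6⟩)
  · rintro (_ | _ | _) b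
    · rfl
    · show (bif b then q else p) = (bif b then p + W (-1) else p)
      rw [ch.hq]
    · show (bif b then q' else p') = (bif b then p' + W' (-1) else p')
      rw [ch'.hq]

end Pool.Agent.P45
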