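import Pool.Agent.Lib.P45dba8.MixMatch
import Pool.Agent.Lib.P45dba8.Psi

/-! # Mixed matchings of the classes for the two cyclic blocks of a pair of types -/

set_option autoImplicit false

namespace Pool.Agent.P45

theorem card_four {α : Type*} [DecidableEq α] {a b c d : α} (h1 : a ≠ b) (h2 : a ≠ c)
    (h3 : a ≠ d) (h4 : b ≠ c) (h5 : b ≠ d) (h6 : c ≠ d) : ({a, b, c, d} : Finset α).card = 4 := by
  rw [Finset.card_insert_of_notMem, Finset.card_insert_of_notMem, Finset.card_insert_of_notMem,
    Finset.card_singleton]
  · simpa using h6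
  · simp only [Finset.mem_insert, Finset.mem_singleton, not_or]
    exact ⟨h4, h5⟩
  · simp only [Finset.mem_insert, Finset.mem_singleton, not_or]
    exact ⟨h1, h2, h3⟩

theorem card_four_le {α : Type*} [DecidableEq α] (a b c d : α) :
    ({a, b, c, d} : Finset α).card ≤ 4 := by
  have h1 := Finset.card_insert_le a ({b, c, d} : Finset α)
  have h2 := Finset.card_insert_le b ({c, d} : Finset α)
  have h3 := Finset.card_insert_le c ({d} : Finset α)
  rw [Finset.card_singleton] at h3
  omega

theorem card_three_le {α : Type*} [DecidableEq α] (b c d : α) :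
    ({b, c, d} : Finset α).card ≤ 3 := by
  have h2 := Finset.card_insert_le b ({c, d} : Finset α)
  have h3 := Finset.card_insert_le c ({d} : Finset α)
  rw [Finset.card_singleton] at h3
  omega

theorem two_ne {N : ℕ} (hN : Odd N) {x : ZMod N} (hx : x ≠ 0) : x ≠ -x := by
  intro h'
  have h2u : IsUnit (2 : ZMod N) := by
    have : IsUnit ((2 : ℕ) : ZMod N) := by
      rw [ZMod.isUnit_iff_coprime]
      exact Nat.coprime_two_left.2 hN
    exact_mod_cast this
  have h6 : (2 : ZMod N) * x = 0 := by linear_combination h'
  exact hx ((h2u.mul_right_eq_zero).1 h6)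

/-- The classes next to each other in the two orders. -/
theorem mix_hyp {m h : ℕ} (hm : Odd m) (hh : Odd h) (h3 : 3 ≤ h) {x y : ZMod (m * h)}
    (hx : red m h x ≠ 0) (hy : red m h y ≠ 0) (hxy : x ≠ y) (hxy' : x ≠ -y)
    {π π' : ZMod h ≃ ZMod h} {W W' : ZMod h → ZMod (m * h)}
    (hW : ∀ i, red m h (W i) = π (i + 1) - π i) (hW' : ∀ i, red m h (W' i) = π' (i + 1) - π' i)
    (hcov : ∀ v v', (v' = v + x ∨ v' = v + y) →
      (v' = v + W (π.symm (red m h v)) ∨ v = v' + W (π.symm (red m h v'))) ∨
      (v' = v + W' (π'.symm (red m h v)) ∨ v = v' + W' (π'.symm (red m h v'))))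
    (r : ZMod h) :
    (suc π' r ≠ suc π r ∧ suc π' r ≠ (suc π).symm r) ∨
      ∀ c, suc π' c = suc π c ∨ suc π' (suc π c) = c := by
  classical
  have hF1 : Fact (1 < h) := ⟨by omega⟩
  -- classes of the ends of the steps
  have out : ∀ (ρ : ZMod h ≃ ZMod h) (V : ZMod h → ZMod (m * h)),
      (∀ i, red m h (V i) = ρ (i + 1) - ρ i) → ∀ v : ZMod (m * h),
      red m h (v + V (ρ.symm (red m h v))) = suc ρ (red m h v) := by
    intro ρ V hV v
    rw [map_add, hV, Equiv.apply_symm_apply, suc_apply]
    ring
  have inn : ∀ (ρ : ZMod h ≃ ZMod h) (V : ZMod h → ZMod (m * h)),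
      (∀ i, red m h (V i) = ρ (i + 1) - ρ i) → ∀ v v' : ZMod (m * h),
      v = v' + V (ρ.symm (red m h v')) → red m h v' = (suc ρ).symm (red m h v) := by
    intro ρ V hV v v' hv
    rw [Equiv.eq_symm_apply, ← out ρ V hV v', ← hv]
  have inv : ∀ (ρ : ZMod h ≃ ZMod h) (V : ZMod h → ZMod (m * h)),
      (∀ i, red m h (V i) = ρ (i + 1) - ρ i) → ∀ v v' : ZMod (m * h),
      v = v' + V (ρ.symm (red m h v')) →
      v' = v - V (ρ.symm ((suc ρ).symm (red m h v))) := by
    intro ρ V hV v v' hv
    have h1 := inn ρ V hV v v' hv
    rw [← h1, hv]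
    ring
  have nb : ∀ (v z : ZMod (m * h)), (z = x ∨ z = -x ∨ z = y ∨ z = -y) →
      v + z = v + W (π.symm (red m h v)) ∨
      v + z = v - W (π.symm ((suc π).symm (red m h v))) ∨
      v + z = v + W' (π'.symm (red m h v)) ∨
      v + z = v - W' (π'.symm ((suc π').symm (red m h v))) := by
    have pos : ∀ v z : ZMod (m * h), (z = x ∨ z = y) →
        v + z = v + W (π.symm (red m h v)) ∨
        v + z = v - W (π.symm ((suc π).symm (red m h v))) ∨
        v + z = v + W' (π'.symm (red m h v)) ∨
        v + z = v - W' (π'.symm ((suc π').symm (red m h v))) := by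
      intro v z hz
      have h1 := hcov v (v + z) (by
        rcases hz with rfl | rfl
        · exact Or.inl rfl
        · exact Or.inr rfl)
      rcases h1 with (h1 | h1) | (h1 | h1)
      · exact Or.inl h1
      · exact Or.inr (Or.inl (inv π W hW _ _ h1))
      · exact Or.inr (Or.inr (Or.inl h1))
      · exact Or.inr (Or.inr (Or.inr (inv π' W' hW' _ _ h1)))
    have neg : ∀ v z : ZMod (m * h), (z = x ∨ z = y) →
        v + -z = v + W (π.symm (red m h v)) ∨
        v + -z = v - W (π.symm ((suc π).symm (red m h v))) ∨
        v + -z = v + W' (π'.symm (red m h v)) ∨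
        v + -z = v - W' (π'.symm ((suc π').symm (red m h v))) := by
      intro v z hz
      have h1 := hcov (v + -z) v (by
        rcases hz with rfl | rfl
        · exact Or.inl (by ring)
        · exact Or.inr (by ring))
      rcases h1 with (h1 | h1) | (h1 | h1)
      · exact Or.inr (Or.inl (inv π W hW _ _ h1))
      · exact Or.inl h1
      · exact Or.inr (Or.inr (Or.inr (inv π' W' hW' _ _ h1)))
      · exact Or.inr (Or.inr (Or.inl h1))
    rintro v z (rfl | rfl | rfl | rfl)
    · exact pos v _ (Or.inl rfl)
    · exact neg v _ (Or.inl rfl)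
    · exact pos v _ (Or.inr rfl)
    · exact neg v _ (Or.inr rfl)
  have redneg : ∀ (ρ : ZMod h ≃ ZMod h) (V : ZMod h → ZMod (m * h)),
      (∀ i, red m h (V i) = ρ (i + 1) - ρ i) → ∀ v : ZMod (m * h),
      red m h (v - V (ρ.symm ((suc ρ).symm (red m h v)))) = (suc ρ).symm (red m h v) := by
    intro ρ V hV v
    rw [map_sub, hV, Equiv.apply_symm_apply]
    have e : ρ (ρ.symm ((suc ρ).symm (red m h v)) + 1) = red m h v := by
      rw [← suc_apply, Equiv.apply_symm_apply]
    rw [e]
    ring
  have hx0 : x ≠ 0 := by rintro rfl; exact hx (map_zero _)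
  have hy0 : y ≠ 0 := by rintro rfl; exact hy (map_zero _)
  have hodd : Odd (m * h) := hm.mul hh
  have hxx : x ≠ -x := two_ne hodd hx0
  have hyy : y ≠ -y := two_ne hodd hy0
  have haa := two_ne hh hx
  have hbb := two_ne hh hy
  by_cases hab : red m h x = red m h y ∨ red m h x = -red m h y
  · right
    intro c
    obtain ⟨v, hv⟩ := red_surj m h c
    have hS : ({v + x, v + -x, v + y, v + -y} : Finset (ZMod (m * h))) ⊆
        {v + W (π.symm (red m h v)), v - W (π.symm ((suc π).symm (red m h v))),
          v + W' (π'.symm (red m h v)), v - W' (π'.symm ((suc π').symm (red m h v)))} := by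
      intro z hz
      simp only [Finset.mem_insert, Finset.mem_singleton] at hz ⊢
      rcases hz with rfl | rfl | rfl | rfl
      · exact nb v x (Or.inl rfl)
      · exact nb v (-x) (Or.inr (Or.inl rfl))
      · exact nb v y (Or.inr (Or.inr (Or.inl rfl)))
      · exact nb v (-y) (Or.inr (Or.inr (Or.inr rfl)))
    have hc4 : ({v + x, v + -x, v + y, v + -y} : Finset (ZMod (m * h))).card = 4 := by
      apply card_four
      · exact fun h' => hxx (add_left_cancel h')
      · exact fun h' => hxy (add_left_cancel h')
      · exact fun h' => hxy' (add_left_cancel h')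
      · exact fun h' => hxy' (by rw [← neg_neg x, add_left_cancel h'])
      · exact fun h' => hxy (neg_injective (add_left_cancel h'))
      · exact fun h' => hyy (add_left_cancel h')
    have heq := Finset.eq_of_subset_of_card_le hS (by rw [hc4]; exact card_four_le _ _ _ _)
    have cls : ∀ z, z ∈ ({v + x, v + -x, v + y, v + -y} : Finset (ZMod (m * h))) →
        red m h z = c + red m h x ∨ red m h z = c - red m h x := by
      intro z hz
      simp only [Finset.mem_insert, Finset.mem_singleton] at hz
      rcases hz with rfl | rfl | rfl | rfl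
      · left; rw [map_add, hv]
      · right; rw [map_add, map_neg, hv]; ring
      · rcases hab with hab | hab
        · left; rw [map_add, hv, hab]
        · right; rw [map_add, hv, hab]; ring
      · rcases hab with hab | hab
        · right; rw [map_add, map_neg, hv, hab]; ring
        · left; rw [map_add, map_neg, hv, hab]
    have c1 := cls (v + W (π.symm (red m h v))) (by rw [heq]; simp)
    have c3 := cls (v + W' (π'.symm (red m h v))) (by rw [heq]; simp)
    have c4 := cls (v - W' (π'.symm ((suc π').symm (red m h v)))) (by rw [heq]; simp)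
    rw [out π W hW, hv] at c1
    rw [out π' W' hW', hv] at c3
    rw [redneg π' W' hW', hv] at c4
    have hne : suc π' c ≠ (suc π').symm c := by
      intro h'
      rw [suc_apply, suc_symm_apply] at h'
      have h4 : π'.symm c + 1 = π'.symm c - 1 := π'.injective h'
      have h5 : (1 : ZMod h) = -1 := by linear_combination h4
      exact two_ne hh one_ne_zero h5
    have fin : suc π' c = suc π c ∨ (suc π').symm c = suc π c := by
      rcases c1 with c1 | c1 <;> rcases c3 with c3 | c3 <;> rcases c4 with c4 | c4
      · exact absurd (c3.trans c4.symm) hne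
      · exact Or.inl (c3.trans c1.symm)
      · exact Or.inr (c4.trans c1.symm)
      · exact absurd (c3.trans c4.symm) hne
      · exact absurd (c3.trans c4.symm) hne
      · exact Or.inr (c4.trans c1.symm)
      · exact Or.inl (c3.trans c1.symm)
      · exact absurd (c3.trans c4.symm) hne
    rcases fin with h' | h'
    · exact Or.inl h'
    · right
      rw [← h', Equiv.apply_symm_apply]
  · left
    rw [not_or] at hab
    obtain ⟨hab, hab'⟩ := hab
    obtain ⟨v, hv⟩ := red_surj m h r
    have hS : ({r + red m h x, r - red m h x, r + red m h y, r - red m h y} : Finset (ZMod h)) ⊆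
        {suc π r, (suc π).symm r, suc π' r, (suc π').symm r} := by
      have key : ∀ z, (z = x ∨ z = -x ∨ z = y ∨ z = -y) →
          red m h (v + z) = suc π r ∨ red m h (v + z) = (suc π).symm r ∨
          red m h (v + z) = suc π' r ∨ red m h (v + z) = (suc π').symm r := by
        intro z hz
        rcases nb v z hz with h1 | h1 | h1 | h1
        · left; rw [h1, out π W hW, hv]
        · right; left; rw [h1, redneg π W hW, hv]
        · right; right; left; rw [h1, out π' W' hW', hv]
        · right; right; right; rw [h1, redneg π' W' hW', hv]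
      intro z hz
      simp only [Finset.mem_insert, Finset.mem_singleton] at hz ⊢
      rcases hz with rfl | rfl | rfl | rfl
      · have := key x (Or.inl rfl)
        rwa [map_add, hv] at this
      · have := key (-x) (Or.inr (Or.inl rfl))
        rwa [map_add, map_neg, hv, ← sub_eq_add_neg] at this
      · have := key y (Or.inr (Or.inr (Or.inl rfl)))
        rwa [map_add, hv] at this
      · have := key (-y) (Or.inr (Or.inr (Or.inr rfl)))
        rwa [map_add, map_neg, hv, ← sub_eq_add_neg] at this
    have hc4 : ({r + red m h x, r - red m h x, r + red m h y, r - red m h y} :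
        Finset (ZMod h)).card = 4 := by
      apply card_four
      · intro h'; exact haa (by linear_combination h')
      · intro h'; exact hab (by linear_combination h')
      · intro h'; exact hab' (by linear_combination h')
      · intro h'; exact hab' (by linear_combination -h')
      · intro h'; exact hab (by linear_combination -h')
      · intro h'; exact hbb (by linear_combination h')
    have hle := Finset.card_le_card hS
    rw [hc4] at hle
    constructor
    · intro h'
      rw [h'] at hle
      have e : ({suc π r, (suc π).symm r, suc π r, (suc π').symm r} : Finset (ZMod h)) ⊆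
          {suc π r, (suc π).symm r, (suc π').symm r} := by
        intro z hz
        simp only [Finset.mem_insert, Finset.mem_singleton] at hz ⊢
        tauto
      have := Finset.card_le_card e
      have := card_three_le (suc π r) ((suc π).symm r) ((suc π').symm r)
      omega
    · intro h'
      rw [h'] at hle
      have e : ({suc π r, (suc π).symm r, (suc π).symm r, (suc π').symm r} :
          Finset (ZMod h)) ⊆ {suc π r, (suc π).symm r, (suc π').symm r} := by
        intro z hz
        simp only [Finset.mem_insert, Finset.mem_singleton] at hz ⊢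
        tauto
      have := Finset.card_le_card e
      have := card_three_le (suc π r) ((suc π).symm r) ((suc π').symm r)
      omega

/-- The mixed matching of the classes for the two cyclic blocks of a pair of types. -/
theorem mix_of_twoCyc {m h : ℕ} (hm : Odd m) (hh : Odd h) (h5 : 5 ≤ h) {x y : ZMod (m * h)}
    (hx : red m h x ≠ 0) (hy : red m h y ≠ 0) (hxy : x ≠ y) (hxy' : x ≠ -y)
    {π π' : ZMod h ≃ ZMod h} {W W' : ZMod h → ZMod (m * h)}
    (hW : ∀ i, red m h (W i) = π (i + 1) - π i) (hW' : ∀ i, red m h (W' i) = π' (i + 1) - π' i)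
    (hcov : ∀ v v', (v' = v + x ∨ v' = v + y) →
      (v' = v + W (π.symm (red m h v)) ∨ v = v' + W (π.symm (red m h v'))) ∨
      (v' = v + W' (π'.symm (red m h v)) ∨ v = v' + W' (π'.symm (red m h v'))))
    (r : ZMod h) :
    ∃ A B : ZMod h → Prop, (∃ c, A c) ∧ (∃ c, B c) ∧
      (∀ c, c ≠ r →
        (A c ∧ ¬ A ((suc π).symm c) ∧ ¬ B c ∧ ¬ B ((suc π').symm c)) ∨
        (¬ A c ∧ A ((suc π).symm c) ∧ ¬ B c ∧ ¬ B ((suc π').symm c)) ∨
        (¬ A c ∧ ¬ A ((suc π).symm c) ∧ B c ∧ ¬ B ((suc π').symm c)) ∨
        (¬ A c ∧ ¬ A ((suc π).symm c) ∧ ¬ B c ∧ B ((suc π').symm c))) ∧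
      ¬ A r ∧ ¬ A ((suc π).symm r) ∧ ¬ B r ∧ ¬ B ((suc π').symm r) :=
  mix_matching hh h5 π π' r (mix_hyp hm hh (by omega) hx hy hxy hxy' hW hW' hcov r)

end Pool.Agent.P45
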