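import Pool.Agent.Lib.P45dba8.Cells
import Pool.Agent.Lib.P45dba8.Final
import Pool.Agent.Lib.P45dba8.LoneAdapt
import Pool.Agent.Lib.P45dba8.MixGlue

/-! # MP_45dba8: the lone single, at least five classes -/

set_option autoImplicit false

namespace Pool.Agent.P45

/-- The case `5 ≤ h`, both carriers not Hamiltonian. -/
theorem lone_car_ge5 {m h : ℕ} [NeZero h] (hm : Odd m) (hh : Odd h) (h5 : 5 ≤ h) (t : ZMod m)
    (ht : IsUnit t) {x y : ZMod (m * h)} (hx : red m h x ≠ 0) (hy : red m h y ≠ 0) (hxy : x ≠ y)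
    (hxy' : x ≠ -y) {π : Bool → ZMod h ≃ ZMod h} {W : Bool → ZMod h → ZMod (m * h)}
    {w : Bool → ZMod (m * h)} (CW : ∀ b i, red m h (W b i) = π b (i + 1) - π b i)
    (Cw : ∀ b, red m h (w b) = π b (-1))
    (cov : ∀ v v', (v' = v + x ∨ v' = v + y) →
      ∃ b, v' = v + W b ((π b).symm (red m h v)) ∨ v = v' + W b ((π b).symm (red m h v')))
    (hγ : ∀ b γ, ∑ i, W b i = psi m h γ → ¬ IsUnit γ) (p : ZMod (m * h)) :
    TS Set.univ (fun u v => v = u + psi m h t ∨ ∃ b, v = u + W b ((π b).symm (red m h u)))
      (fun (k : Option Bool) b => k.elim (bif b then p + psi m h t else p)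
        (fun j => bif b then w j + W j (-1) else w j)) := by
  classical
  obtain ⟨A, B, k1, k2, k3, k4, k5, k6, k7⟩ :=
    mix_of_twoCyc hm hh h5 hx hy hxy hxy' (CW false) (CW true) (by
      intro v v' hv
      obtain ⟨b, h1⟩ := cov v v' hv
      cases b
      · exact Or.inl h1
      · exact Or.inr h1) (red m h p)
  have hs : ∀ b c, (suc (π b)).symm (π b ((π b).symm c + 1)) = c := by
    intro b c
    rw [Equiv.symm_apply_eq, suc_apply]
  have hs' : ∀ b c, π b ((π b).symm ((suc (π b)).symm c) + 1) = c := by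
    intro b c
    rw [← suc_apply, Equiv.apply_symm_apply]
  have hAne : ∀ c, A c → c ≠ red m h p := by
    rintro c hc rfl
    exact k4 hc
  have hBne : ∀ c, B c → c ≠ red m h p := by
    rintro c hc rfl
    exact k6 hc
  have hAne' : ∀ c, A c → π false ((π false).symm c + 1) ≠ red m h p := by
    intro c hc h1
    apply k5
    rw [← h1, hs]
    exact hc
  have hBne' : ∀ c, B c → π true ((π true).symm c + 1) ≠ red m h p := by
    intro c hc h1
    apply k7
    rw [← h1, hs]
    exact hc
  refine cells_TS hm hh t ht p π W CW w Cw hγ (fun b c => bif b then B c else A c)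
    ?_ ?_ ?_ ?_ ?_ ?_
  · rintro (_ | _)
    · exact k1
    · exact k2
  · intro c hc
    rcases k3 c hc with h1 | h1 | h1 | h1
    · exact ⟨false, Or.inl h1.1⟩
    · exact ⟨false, Or.inr ⟨_, h1.2.1, (hs' false c).symm⟩⟩
    · exact ⟨true, Or.inl h1.2.2.1⟩
    · exact ⟨true, Or.inr ⟨_, h1.2.2.2, (hs' true c).symm⟩⟩
  · have key : ∀ c, A c → B c → False := by
      intro c hc hc'
      rcases k3 c (hAne c hc) with h1 | h1 | h1 | h1
      · exact h1.2.2.1 hc'
      · exact h1.1 hc
      · exact h1.1 hc
      · exact h1.1 hc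
    rintro (_ | _) (_ | _) c h1 h2
    · rfl
    · exact (key c h1 h2).elim
    · exact (key c h2 h1).elim
    · rfl
  · rintro (_ | _) (_ | _) c c' h1 h2 h4
    · have h1' : A c := h1
      have h2' : A c' := h2
      rw [h4] at h1'
      have h6 := k3 _ (hAne _ h1')
      rw [hs false] at h6
      tauto
    · have h1' : A c := h1
      have h2' : B c' := h2
      rw [h4] at h1'
      have h6 := k3 _ (hAne _ h1')
      rw [hs true] at h6
      tauto
    · have h1' : B c := h1
      have h2' : A c' := h2
      rw [h4] at h1'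
      have h6 := k3 _ (hBne _ h1')
      rw [hs false] at h6
      tauto
    · have h1' : B c := h1
      have h2' : B c' := h2
      rw [h4] at h1'
      have h6 := k3 _ (hBne _ h1')
      rw [hs true] at h6
      tauto
  · have key : ∀ c c', A c → B c' → π false ((π false).symm c + 1) =
        π true ((π true).symm c' + 1) → False := by
      intro c c' h1 h2 h4
      have h6 := k3 _ (hAne' c h1)
      rw [hs false] at h6
      rw [h4, hs true] at h6
      tauto
    rintro (_ | _) (_ | _) c c' h1 h2 h4
    · rfl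
    · exact (key c c' h1 h2 h4).elim
    · exact (key c' c h2 h1 h4.symm).elim
    · rfl
  · rintro (_ | _) c hc
    · exact ⟨hAne c hc, hAne' c hc⟩
    · exact ⟨hBne c hc, hBne' c hc⟩

theorem lone5 (h : ℕ) (hh : Odd h) (h5 : 5 ≤ h) : LoneNonHamAt h := by
  intro m hm m3 t ht x y hx hy hc h1 h2 p q p' q' π π' W W' C C' phi phi' ch ch' hC hC'
    hcov w
  have hNZ : NeZero h := ⟨by omega⟩
  have key := lone_car_ge5 hm hh h5 t ht hx hy h1 h2 (π := fun b => bif b then π' else π)
    (W := fun b => bif b then W' else W) (w := fun b => bif b then p' else p)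
    (by rintro (_ | _) i; exacts [ch.hW i, ch'.hW i])
    (by rintro (_ | _); exacts [ch.hp, ch'.hp])
    (by
      intro v v' hv
      rcases hcov v v' hv with h4 | h4
      · exact ⟨false, h4⟩
      · exact ⟨true, h4⟩)
    (by
      rintro (_ | _) γ hγ
      · exact ch.not_unit (by omega) (by omega) hC γ hγ
      · exact ch'.not_unit (by omega) (by omega) hC' γ hγ) w
  refine (key.symmE.mono ?_).congr ?_
  · rintro u - v - ⟨δ, hδ | hδ, hvv⟩
    · rw [hδ] at hvv
      rcases hvv with hvv | hvv
      · exact Or.inl (Or.inl hvv)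
      · exact Or.inr (Or.inl hvv)
    · have h5 : (StepW π W u v ∨ StepW π W v u) ∨ (StepW π' W' u v ∨ StepW π' W' v u) := by
        rcases hvv with hvv | hvv
        · exact hcov u v (by rcases hδ with rfl | rfl; exacts [Or.inl hvv, Or.inr hvv])
        · rcases hcov v u (by rcases hδ with rfl | rfl; exacts [Or.inl hvv, Or.inr hvv])
            with h6 | h6
          · exact Or.inl h6.symm
          · exact Or.inr h6.symm
      rcases h5 with (h6 | h6) | (h6 | h6)
      · exact Or.inl (Or.inr ⟨false, h6⟩)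
      · exact Or.inr (Or.inr ⟨false, h6⟩)
      · exact Or.inl (Or.inr ⟨true, h6⟩)
      · exact Or.inr (Or.inr ⟨true, h6⟩)
  · rintro (_ | _ | _) b
    · rfl
    · show (bif b then q else p) = (bif b then p + W (-1) else p)
      rw [ch.hq]
    · show (bif b then q' else p') = (bif b then p' + W' (-1) else p')
      rw [ch'.hq]

end Pool.Agent.P45
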