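import Pool.Agent.Lib.P45dba8.LoneRed
import Pool.Agent.Lib.P45dba8.MixGlue

/-! # MP_45dba8: a lone single with a pair, from the systems of the two carriers -/

set_option autoImplicit false

namespace Pool.Agent.P45

theorem TS.symE {V Θ : Type*} {K : Set V} {E : V → V → Prop} {e : Θ → Bool → V}
    (h : TS K E e) : TS K (fun u v => E u v ∨ E v u) e := by
  obtain ⟨M, h1, h2, h3, h4, h5⟩ := h
  refine ⟨M, h1, h2, h3, h4, ?_⟩
  rintro u hu v hv (huv | huv)
  · exact h5 u hu v hv huv
  · rcases h5 v hv u hu huv with ⟨k, hk⟩ | ⟨k, b, hk⟩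
    · refine Or.inl ⟨k, ?_⟩
      rcases hk with ⟨h6, h7⟩ | ⟨h6, h7⟩
      · exact Or.inr ⟨h7, h6⟩
      · exact Or.inl ⟨h7, h6⟩
    · exact Or.inr ⟨k, b, h1 _ _ _ _ hk⟩

/-- The two carriers contain all edges of the types `x`, `y`. -/
def CarCov {m h : ℕ} (x y : ZMod (m * h)) (π : Bool → ZMod h ≃ ZMod h)
    (W : Bool → ZMod h → ZMod (m * h)) : Prop :=
  ∀ v v', (v' = v + x ∨ v' = v + y) →
    ∃ b, v' = v + W b ((π b).symm (red m h v)) ∨ v = v' + W b ((π b).symm (red m h v'))

/-- The system of the single and of the two carriers. -/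
def CarTS {m h : ℕ} (t : ZMod m) (π : Bool → ZMod h ≃ ZMod h)
    (W : Bool → ZMod h → ZMod (m * h)) (w : Bool → ZMod (m * h)) (p : ZMod (m * h)) : Prop :=
  TS Set.univ (fun u v => v = u + psi m h t ∨ ∃ b, v = u + W b ((π b).symm (red m h u)))
    (fun (k : Option Bool) b => k.elim (p + bif b then psi m h t else 0)
      (fun j => bif b then w j + W j (-1) else w j))

theorem cop_red {m h : ℕ} (hm : 0 < m) (hh : 0 < h) {x y : ZMod (m * h)} (hc : cop x y) :
    cop (red m h x) (red m h y) := by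
  have hNZ : NeZero (m * h) := ⟨(Nat.mul_pos hm hh).ne'⟩
  have hNZ' : NeZero h := ⟨hh.ne'⟩
  have key : ∀ (d : ℕ) (z : ZMod (m * h)), d ∣ (red m h z).val → d ∣ h → d ∣ z.val := by
    intro d z h1 h2
    rw [red_val, ZMod.val_natCast] at h1
    exact (Nat.dvd_mod_iff h2).1 h1
  have h1 : Nat.gcd (Nat.gcd (red m h x).val (red m h y).val) h ∣ 1 := by
    have h2 := Nat.gcd_dvd_right (Nat.gcd (red m h x).val (red m h y).val) h
    have h3 := Nat.gcd_dvd_left (Nat.gcd (red m h x).val (red m h y).val) h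
    have h4 := key _ x (h3.trans (Nat.gcd_dvd_left _ _)) h2
    have h5 := key _ y (h3.trans (Nat.gcd_dvd_right _ _)) h2
    have h6 : Nat.gcd (Nat.gcd x.val y.val) (m * h) = 1 := hc
    rw [← h6]
    exact Nat.dvd_gcd (Nat.dvd_gcd h4 h5) (h2.trans (Dvd.intro_left m rfl))
  exact Nat.dvd_one.1 h1

/-- All statuses from the systems of the carriers. -/
theorem good_lone_of {m h : ℕ} (hh : Odd h) (h3 : 3 ≤ h) (t : ZMod m) (x y : ZMod (m * h))
    (hx : red m h x ≠ 0) (hy : red m h y ≠ 0) (hcop : cop (red m h x) (red m h y))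
    (H : ∀ (π : Bool → ZMod h ≃ ZMod h) (W : Bool → ZMod h → ZMod (m * h))
      (w : Bool → ZMod (m * h)) (p : ZMod (m * h)),
      (∀ b i, red m h (W b i) = π b (i + 1) - π b i) → (∀ b, red m h (w b) = π b (-1)) →
      CarCov x y π W → CarTS t π W w p) :
    Good (m * h) IsUnit (fun _ : Unit => psi m h t) (fun _ : Unit => x) (fun _ : Unit => y) := by
  classical
  have hF1 : Fact (1 < h) := ⟨by omega⟩
  intro P A hA hP
  obtain ⟨H1, H2, H3⟩ := twoCycAll hh h3 x y hx hy hcop
  have fin : ∀ q q' : ZMod (m * h), A (Sum.inr ((), false)) = q →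
      A (Sum.inr ((), true)) = q' →
      TwoCyc m h x y (P (Sum.inr ((), false))) (P (Sum.inr ((), false)) + q)
        (P (Sum.inr ((), true))) (P (Sum.inr ((), true)) + q') →
      TS Set.univ (DE (FD (fun _ : Unit => psi m h t) (fun _ : Unit => x) (fun _ : Unit => y)))
        (fh P A) := by
    intro q q' hq hq' hT
    obtain ⟨E, E', ⟨π, W, a1, a2, a3, a4⟩, ⟨π', W', b1, b2, b3, b4⟩, c3⟩ := hT
    have hcov : CarCov x y (fun b => bif b then π' else π) (fun b => bif b then W' else W) := by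
      intro v v' hv
      rcases c3 v v' hv with (h1 | h1) | (h1 | h1)
      · exact ⟨false, a4 v v' h1⟩
      · exact ⟨false, (a4 v' v h1).symm⟩
      · exact ⟨true, b4 v v' h1⟩
      · exact ⟨true, (b4 v' v h1).symm⟩
    have key := H (fun b => bif b then π' else π) (fun b => bif b then W' else W)
      (fun b => bif b then P (Sum.inr ((), true)) else P (Sum.inr ((), false)))
      (P (Sum.inl ())) (by rintro (_ | _); exacts [a1, b1]) (by rintro (_ | _); exacts [a2, b2])
      hcov
    let σ : Unit ⊕ Unit × Bool ≃ Option Bool :=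
      { toFun := Sum.elim (fun _ => none) (fun k => some k.2)
        invFun := fun k => k.elim (Sum.inl ()) (fun b => Sum.inr ((), b))
        left_inv := by
          rintro (_ | ⟨_, b⟩)
          · rfl
          · rfl
        right_inv := by
          rintro (_ | b)
          · rfl
          · rfl }
    refine ((key.symE.reindex σ).mono ?_).congr ?_
    · rintro v - v' - ⟨δ, hδ, hvv⟩
      rcases hδ with ⟨_, hi⟩ | ⟨_, hk⟩
      · rcases hvv with hvv | hvv
        · left; left; rw [hvv, hi]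
        · right; left; rw [hvv, hi]
      · have h5 : ∃ b : Bool, v' = v + (bif b then W' else W) ((bif b then π' else π).symm
            (red m h v)) ∨ v = v' + (bif b then W' else W) ((bif b then π' else π).symm
            (red m h v')) := by
          rcases hvv with hvv | hvv
          · exact hcov v v' (by rcases hk with rfl | rfl; exacts [Or.inl hvv, Or.inr hvv])
          · obtain ⟨b, h6⟩ := hcov v' v
              (by rcases hk with rfl | rfl; exacts [Or.inl hvv, Or.inr hvv])
            exact ⟨b, h6.symm⟩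
        obtain ⟨b, h6 | h6⟩ := h5
        · exact Or.inl (Or.inr ⟨b, h6⟩)
        · exact Or.inr (Or.inr ⟨b, h6⟩)
    · rintro (i | ⟨_, b'⟩) b
      · show P (Sum.inl i) + (bif b then A (Sum.inl i) else 0) =
          P (Sum.inl ()) + (bif b then psi m h t else 0)
        rw [hA i]
      · cases b'
        · show P (Sum.inr ((), false)) + (bif b then A (Sum.inr ((), false)) else 0) =
            (bif b then P (Sum.inr ((), false)) + W (-1) else P (Sum.inr ((), false)))
          rw [hq]
          cases b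
          · exact add_zero _
          · exact a3
        · show P (Sum.inr ((), true)) + (bif b then A (Sum.inr ((), true)) else 0) =
            (bif b then P (Sum.inr ((), true)) + W' (-1) else P (Sum.inr ((), true)))
          rw [hq']
          cases b
          · exact add_zero _
          · exact b3
  rcases hP () with ⟨h1, h2⟩ | ⟨h1, h2⟩ | ⟨⟨h1, h2⟩ | ⟨h1, h2⟩, h4⟩
  · exact fin x y h1 h2 (H1 _ _)
  · exact fin y x h1 h2 (H1 _ _).flip
  · exact fin x x h1 h2 (H2 _ _ (h4.map (red m h)))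
  · exact fin y y h1 h2 (H3 _ _ (h4.map (red m h)))

/-- The matching of the classes in the form which is used by the cells. -/
theorem mix_cells {m h : ℕ} (hm : Odd m) (hh : Odd h) (h5 : 5 ≤ h) {x y : ZMod (m * h)}
    (hx : red m h x ≠ 0) (hy : red m h y ≠ 0) (hxy : x ≠ y) (hxy' : x ≠ -y)
    {π : Bool → ZMod h ≃ ZMod h} {W : Bool → ZMod h → ZMod (m * h)}
    (hW : ∀ b i, red m h (W b i) = π b (i + 1) - π b i) (hcov : CarCov x y π W) (r : ZMod h) :
    ∃ A : Bool → ZMod h → Prop, (∀ b, ∃ c, A b c) ∧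
      (∀ c, c ≠ r → ∃ b, A b c ∨ ∃ c', A b c' ∧ c = π b ((π b).symm c' + 1)) ∧
      (∀ b b' c, A b c → A b' c → b = b') ∧
      (∀ b b' c c', A b c → A b' c' → c ≠ π b' ((π b').symm c' + 1)) ∧
      (∀ b b' c c', A b c → A b' c' → π b ((π b).symm c + 1) = π b' ((π b').symm c' + 1) →
        b = b') ∧
      (∀ b c, A b c → c ≠ r ∧ π b ((π b).symm c + 1) ≠ r) := by
  obtain ⟨A, B, k1, k2, k3, k4, k5, k6, k7⟩ := mix_of_twoCyc hm hh h5 hx hy hxy hxy'
    (π := π false) (π' := π true) (W := W false) (W' := W true) (hW false) (hW true)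
    (by
      intro v v' hv
      obtain ⟨b, hb⟩ := hcov v v' hv
      cases b
      · exact Or.inl hb
      · exact Or.inr hb) r
  have prd : ∀ (ρ : ZMod h ≃ ZMod h) (c c' : ZMod h), c = ρ (ρ.symm c' + 1) →
      (suc ρ).symm c = c' := by
    intro ρ c c' hc
    rw [Equiv.symm_apply_eq, suc_apply]
    exact hc
  have prd' : ∀ (ρ : ZMod h ≃ ZMod h) (c' : ZMod h),
      (suc ρ).symm (ρ (ρ.symm c' + 1)) = c' := fun ρ c' => prd ρ _ c' rfl
  refine ⟨fun b => bif b then B else A, ?_, ?_, ?_, ?_, ?_, ?_⟩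
  · rintro (_ | _)
    · exact k1
    · exact k2
  · intro c hc
    have back : ∀ (ρ : ZMod h ≃ ZMod h), c = ρ (ρ.symm ((suc ρ).symm c) + 1) := by
      intro ρ
      rw [← suc_apply, Equiv.apply_symm_apply]
    rcases k3 c hc with ⟨a1, _⟩ | ⟨_, a2, _⟩ | ⟨_, _, a3, _⟩ | ⟨_, _, _, a4⟩
    · exact ⟨false, Or.inl a1⟩
    · exact ⟨false, Or.inr ⟨_, a2, back _⟩⟩
    · exact ⟨true, Or.inl a3⟩
    · exact ⟨true, Or.inr ⟨_, a4, back _⟩⟩
  · have key : ∀ c, A c → ¬ B c := by
      intro c h1 h2
      have hc : c ≠ r := by rintro rfl; exact k4 h1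
      rcases k3 c hc with ⟨_, _, a3, _⟩ | ⟨a1, _⟩ | ⟨a1, _⟩ | ⟨a1, _⟩
      · exact a3 h2
      · exact a1 h1
      · exact a1 h1
      · exact a1 h1
    rintro (_ | _) (_ | _) c h1 h2
    · rfl
    · exact absurd h2 (key c h1)
    · exact absurd h1 (key c h2)
    · rfl
  · rintro (_ | _) (_ | _) c c' h1 h2 h6
    · have h7 := prd _ _ _ h6
      have hc : c ≠ r := by rintro rfl; exact k4 h1
      have h8 : A ((suc (π false)).symm c) := by rw [h7]; exact h2
      rcases k3 c hc with ⟨_, a2, _, _⟩ | ⟨a1, _⟩ | ⟨a1, _⟩ | ⟨a1, _⟩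
      · exact a2 h8
      · exact a1 h1
      · exact a1 h1
      · exact a1 h1
    · have h7 := prd _ _ _ h6
      have hc : c ≠ r := by rintro rfl; exact k4 h1
      have h8 : B ((suc (π true)).symm c) := by rw [h7]; exact h2
      rcases k3 c hc with ⟨_, _, _, a4⟩ | ⟨a1, _⟩ | ⟨a1, _⟩ | ⟨a1, _⟩
      · exact a4 h8
      · exact a1 h1
      · exact a1 h1
      · exact a1 h1
    · have h7 := prd _ _ _ h6
      have hc : c ≠ r := by rintro rfl; exact k6 h1
      have h8 : A ((suc (π false)).symm c) := by rw [h7]; exact h2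
      rcases k3 c hc with ⟨_, _, a3, _⟩ | ⟨_, _, a3, _⟩ | ⟨_, a2, _⟩ | ⟨_, _, a3, _⟩
      · exact a3 h1
      · exact a3 h1
      · exact a2 h8
      · exact a3 h1
    · have h7 := prd _ _ _ h6
      have hc : c ≠ r := by rintro rfl; exact k6 h1
      have h8 : B ((suc (π true)).symm c) := by rw [h7]; exact h2
      rcases k3 c hc with ⟨_, _, a3, _⟩ | ⟨_, _, a3, _⟩ | ⟨_, _, _, a4⟩ | ⟨_, _, a3, _⟩
      · exact a3 h1
      · exact a3 h1
      · exact a4 h8
      · exact a3 h1
  · have key : ∀ c c', A c → B c' →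
        π false ((π false).symm c + 1) ≠ π true ((π true).symm c' + 1) := by
      intro c c' h1 h2 h6
      have e1 := prd' (π false) c
      have e2 := prd' (π true) c'
      rw [← h6] at e2
      have g1 : A ((suc (π false)).symm (π false ((π false).symm c + 1))) := by
        rw [e1]; exact h1
      have g2 : B ((suc (π true)).symm (π false ((π false).symm c + 1))) := by
        rw [e2]; exact h2
      have hc : π false ((π false).symm c + 1) ≠ r := by
        intro h'
        rw [h'] at g1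
        exact k5 g1
      rcases k3 _ hc with ⟨_, a2, _, _⟩ | ⟨_, _, _, a4⟩ | ⟨_, a2, _⟩ | ⟨_, a2, _⟩
      · exact a2 g1
      · exact a4 g2
      · exact a2 g1
      · exact a2 g1
    rintro (_ | _) (_ | _) c c' h1 h2 h6
    · rfl
    · exact absurd h6 (key c c' h1 h2)
    · exact absurd h6.symm (key c' c h2 h1)
    · rfl
  · rintro (_ | _) c h1
    · refine ⟨by rintro rfl; exact k4 h1, ?_⟩
      intro h'
      apply k5
      rw [← h', prd']
      exact h1
    · refine ⟨by rintro rfl; exact k6 h1, ?_⟩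
      intro h'
      apply k7
      rw [← h', prd']
      exact h1

end Pool.Agent.P45
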