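import Pool.Agent.Lib.P45dba8.LoneRed

/-! # MP_45dba8: the lone single, one of the two carriers is a Hamilton cycle -/

set_option autoImplicit false

namespace Pool.Agent.P45

/-- The orbit of `(0, 0)` under `stp C`. -/
def orb (m h : ℕ) (C : ZMod m) (k : ZMod (m * h)) : ZMod h × ZMod m :=
  (((k.val : ℕ) : ZMod h), C * ((k.val / h : ℕ) : ZMod m))

theorem orb_succ {m h : ℕ} (m0 : 0 < m) (h2 : 2 ≤ h) (C : ZMod m) (k : ZMod (m * h)) :
    orb m h C (k + 1) = stp C (orb m h C k) := by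
  have hn : 1 < m * h := by nlinarith
  have hNZ : NeZero (m * h) := ⟨by omega⟩
  have hF : Fact (1 < m * h) := ⟨hn⟩
  have hNZh : NeZero h := ⟨by omega⟩
  have hlt := k.val_lt
  have hmod : k.val % h < h := Nat.mod_lt _ (by omega)
  have hdm := Nat.div_add_mod k.val h
  have e0 : ((k.val : ℕ) : ZMod h) + 1 = ((k.val + 1 : ℕ) : ZMod h) := by push_cast; rfl
  have hz : ((k.val : ℕ) : ZMod h) + 1 = 0 ↔ h ∣ k.val + 1 := by
    rw [e0]
    exact ZMod.natCast_eq_zero_iff _ _
  -- the quotient of `k + 1`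
  have hq : (k.val + 1) / h = k.val / h + (if h ∣ k.val + 1 then 1 else 0) := by
    rw [Nat.succ_div]
  show ((((k + 1).val : ℕ) : ZMod h), C * (((k + 1).val / h : ℕ) : ZMod m)) =
    (((k.val : ℕ) : ZMod h) + 1,
      C * ((k.val / h : ℕ) : ZMod m) + if ((k.val : ℕ) : ZMod h) + 1 = 0 then C else 0)
  have hv : (k + 1).val = (k.val + 1) % (m * h) := by
    rw [ZMod.val_add, ZMod.val_one]
  have key : ((k.val + 1 : ℕ) / h : ℕ) = k.val / h + (if h ∣ k.val + 1 then 1 else 0) := hq
  have step : C * (((k.val + 1) / h : ℕ) : ZMod m) =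
      C * ((k.val / h : ℕ) : ZMod m) + if ((k.val : ℕ) : ZMod h) + 1 = 0 then C else 0 := by
    rw [key]
    by_cases hd : h ∣ k.val + 1
    · rw [if_pos hd, if_pos (hz.2 hd)]
      push_cast
      ring
    · rw [if_neg hd, if_neg (fun h' => hd (hz.1 h'))]
      push_cast
      ring
  rw [hv]
  by_cases hlast : k.val + 1 < m * h
  · rw [Nat.mod_eq_of_lt hlast, step, e0]
  · have hl : k.val + 1 = m * h := by omega
    rw [← step, hl, Nat.mod_self, Nat.zero_div, Nat.mul_div_cancel _ (by omega : 0 < h)]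
    rw [e0, hl]
    push_cast
    rw [ZMod.natCast_self, ZMod.natCast_self]
    simp

theorem orb_inj {m h : ℕ} (m0 : 0 < m) (h2 : 2 ≤ h) (C : ZMod m) (hC : IsUnit C) :
    Function.Injective (orb m h C) := by
  have hn : 0 < m * h := by nlinarith
  have hNZ : NeZero (m * h) := ⟨by omega⟩
  intro k l hkl
  obtain ⟨e1, e2⟩ := Prod.mk.inj hkl
  have e3 := hC.mul_left_cancel e2
  rw [ZMod.natCast_eq_natCast_iff] at e1 e3
  have hk := k.val_lt
  have hl := l.val_lt
  have d1 : k.val / h < m := (Nat.div_lt_iff_lt_mul (by omega)).2 hk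
  have d2 : l.val / h < m := (Nat.div_lt_iff_lt_mul (by omega)).2 hl
  have e4 : k.val / h = l.val / h := Nat.ModEq.eq_of_lt_of_lt e3 d1 d2
  have e5 : k.val % h = l.val % h := e1
  apply ZMod.val_injective
  rw [← Nat.div_add_mod k.val h, ← Nat.div_add_mod l.val h, e4, e5]

/-- A Hamilton cycle from a cyclic order of the classes with a unit as total translation. -/
theorem ham_of_cyc {m h : ℕ} (hm : Odd m) (hh : Odd h) (h3 : 3 ≤ h) (π : ZMod h ≃ ZMod h)
    (W : ZMod h → ZMod (m * h)) (w : ZMod (m * h)) (C : ZMod m)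
    (phi : ZMod h × ZMod m ≃ ZMod (m * h)) (p1 : ∀ v, red m h (phi v) = π v.1)
    (p2 : ∀ v, phi (stp C v) = phi v + W v.1) (p4 : phi (-1, -C) = w)
    (p5 : phi (0, 0) = w + W (-1)) (hC : IsUnit C) :
    TS Set.univ (fun v v' => v' = v + W (π.symm (red m h v)) ∨ v = v' + W (π.symm (red m h v')))
      (fun (_ : Unit) b => bif b then w + W (-1) else w) := by
  classical
  have m0 : 0 < m := hm.pos
  have hn : 1 < m * h := by nlinarith
  have hNZ : NeZero (m * h) := ⟨by omega⟩
  have hF : Fact (1 < m * h) := ⟨hn⟩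
  have hNZh : NeZero h := ⟨by omega⟩
  have hNZm : NeZero m := ⟨by omega⟩
  have hinj := orb_inj m0 (by omega : 2 ≤ h) C hC
  have hbij : Function.Bijective (orb m h C) := by
    rw [Fintype.bijective_iff_injective_and_card]
    refine ⟨hinj, ?_⟩
    rw [Fintype.card_prod, ZMod.card, ZMod.card, ZMod.card, mul_comm]
  let ρ : ZMod (m * h) ≃ ZMod (m * h) :=
    (Equiv.subRight (1 : ZMod (m * h))).trans ((Equiv.ofBijective _ hbij).trans phi)
  have hρ : ∀ k, ρ k = phi (orb m h C (k - 1)) := fun k => rfl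
  have hρs : ∀ k, ρ (k + 1) = ρ k + W (π.symm (red m h (ρ k))) := by
    intro k
    have e : k + 1 - 1 = k - 1 + 1 := by ring
    rw [hρ, hρ, e, orb_succ m0 (by omega), p2, p1, Equiv.symm_apply_apply]
  have o0 : orb m h C 0 = (0, 0) := by
    unfold orb
    rw [ZMod.val_zero, Nat.zero_div]
    simp
  have hst : stp (h := h) C (-1, -C) = (0, 0) := by
    show ((-1 : ZMod h) + 1, -C + if (-1 : ZMod h) + 1 = 0 then C else 0) = (0, 0)
    have : (-1 : ZMod h) + 1 = 0 := by ring
    rw [if_pos this, this]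
    simp
  have h1 : ρ 1 = w + W (-1) := by
    rw [hρ, sub_self, o0, p5]
  have h0 : ρ 0 = w := by
    have e := hρs 0
    rw [zero_add, h1] at e
    have hz : orb m h C (0 - 1) = (-1, -C) := by
      have e2 := orb_succ m0 (by omega : 2 ≤ h) C (0 - 1)
      have e3 : (0 : ZMod (m * h)) - 1 + 1 = 0 := by ring
      rw [e3, o0, ← hst] at e2
      exact ((stpE C).injective e2).symm
    rw [hρ, hz, p4]
  have hham := ham_TS (hm.mul hh) (by omega) ρ
  refine (hham.mono ?_).congr ?_
  · intro v _ v' _ hv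
    rcases hv with hv | hv
    · refine ⟨ρ.symm v, ?_⟩
      rw [hρs, Equiv.apply_symm_apply, ← hv]
    · refine ⟨ρ.symm v', ?_⟩
      rw [hρs, Equiv.apply_symm_apply, ← hv]
      exact Sym2.eq_swap
  · intro k b
    cases b
    · exact h0.symm
    · exact h1.symm

/-- A step of a cyclic order of the classes. -/
def StepW {m h : ℕ} (π : ZMod h ≃ ZMod h) (W : ZMod h → ZMod (m * h)) (v v' : ZMod (m * h)) :
    Prop := v' = v + W (π.symm (red m h v))

/-- The holes: the single type `T` at `w`, the two steps `p, q` and `p', q'`. -/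
def hol3 {V : Type*} [Add V] (T w p q p' q' : V) (k : Option Bool) (b : Bool) : V :=
  k.elim (bif b then w + T else w)
    (fun c => bif c then (bif b then q' else p') else (bif b then q else p))

/-- A chart of a cyclic order of the classes, adapted to the step `p, p + W (-1)`. -/
structure Chart (m h : ℕ) (π : ZMod h ≃ ZMod h) (W : ZMod h → ZMod (m * h)) (p q : ZMod (m * h))
    (C : ZMod m) (phi : ZMod h × ZMod m ≃ ZMod (m * h)) : Prop where
  hW : ∀ i, red m h (W i) = π (i + 1) - π i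
  hp : red m h p = π (-1)
  hq : q = p + W (-1)
  r1 : ∀ v, red m h (phi v) = π v.1
  r2 : ∀ v, phi (stp C v) = phi v + W v.1
  r3 : ∀ i a δ, phi (i, a + δ) = phi (i, a) + psi m h δ
  r4 : phi (-1, -C) = p
  r5 : phi (0, 0) = q

theorem Cyc.chart {m h : ℕ} (h3 : 3 ≤ h) {E : ZMod (m * h) → ZMod (m * h) → Prop}
    {p q : ZMod (m * h)} (H : Cyc m h E p q) : ∃ π W C phi, Chart m h π W p q C phi ∧
      ∀ v v', E v v' → StepW π W v v' ∨ StepW π W v' v := by
  obtain ⟨π, W, h1, h2, h3', h4⟩ := H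
  obtain ⟨C, phi, a1, a2, a3, a4, a5⟩ := exists_chart h3 π W h1 p h2
  exact ⟨π, W, C, phi, ⟨h1, h2, h3', a1, a2, a3, a4, by rw [a5, h3']⟩, h4⟩

theorem Chart.cyc {m h : ℕ} {π : ZMod h ≃ ZMod h} {W : ZMod h → ZMod (m * h)}
    {p q : ZMod (m * h)} {C : ZMod m} {phi : ZMod h × ZMod m ≃ ZMod (m * h)}
    (H : Chart m h π W p q C phi) : Cyc m h (StepW π W) p q :=
  ⟨π, W, H.hW, H.hp, H.hq, fun _ _ hv => Or.inl hv⟩

/-- THE HAMILTONIAN CASE: the second carrier is a Hamilton cycle, the first one hosts the single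
type. -/
theorem lone_ham {m h : ℕ} (hm : Odd m) (hh : Odd h) (m3 : 3 ≤ m) (h3 : 3 ≤ h) (t : ZMod m)
    (ht : IsUnit t) {E : ZMod (m * h) → ZMod (m * h) → Prop} {p q p' q' : ZMod (m * h)}
    (hE : Cyc m h E p q) {π' : ZMod h ≃ ZMod h} {W' : ZMod h → ZMod (m * h)} {C' : ZMod m}
    {phi' : ZMod h × ZMod m ≃ ZMod (m * h)} (H' : Chart m h π' W' p' q' C' phi')
    (hC : IsUnit C') (w : ZMod (m * h)) :
    TS Set.univ (fun v v' => DE (fun δ => δ = psi m h t) v v' ∨ (E v v' ∨ E v' v) ∨
      (StepW π' W' v v' ∨ StepW π' W' v' v)) (hol3 (psi m h t) w p q p' q') := by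
  classical
  have hne : Nonempty (Unit ⊕ Empty × Bool) := ⟨Sum.inl ()⟩
  have key := (good_single hm (by omega) IsUnit t ht).joint hm hh h3 (fun _ hx => hx) (by
    rintro (_ | ⟨k, _⟩) (_ | ⟨k', _⟩) hxy
    · exact absurd rfl hxy
    · exact k'.elim
    · exact k.elim
    · exact k.elim) (J := Unit) (fun _ => ()) (fun _ => ⟨Sum.inl (), rfl⟩) (fun _ => E)
    (fun _ => p) (fun _ => q) (fun _ => hE)
    (Sum.elim (fun _ => w) (fun k => k.1.elim)) (Sum.elim (fun _ => psi m h t) (fun k => k.1.elim))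
    (fun _ => rfl) (fun k => k.elim)
  have hq' := H'.hq
  have key2 := ham_of_cyc hm hh h3 π' W' p' C' phi' H'.r1 H'.r2 H'.r4 (by rw [H'.r5, hq']) hC
  refine (((key.union key2).mono ?_).reindex (Θ' := Option Bool)
    { toFun := fun k => k.elim (Sum.inl (Sum.inr (Sum.inl ())))
        (fun c => bif c then Sum.inr () else Sum.inl (Sum.inl ()))
      invFun := Sum.elim (Sum.elim (fun _ => some false)
        (Sum.elim (fun _ => none) (fun k => k.1.elim))) (fun _ => some true)
      left_inv := by rintro (_ | _ | _) <;> rfl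
      right_inv := by
        rintro ((_ | (_ | ⟨k, _⟩)) | _)
        · rfl
        · rfl
        · exact k.elim
        · rfl }).congr ?_
  · intro v _ v' _ hv
    rcases hv with hv | hv | hv
    · obtain ⟨δ, hδ, h4⟩ := hv
      exact Or.inl (Or.inl ⟨δ, Or.inl ⟨(), hδ⟩, h4⟩)
    · exact Or.inl (Or.inr ⟨(), hv⟩)
    · exact Or.inr hv
  · rintro (_ | _ | _) b
    · cases b
      · exact (add_zero w).symm
      · rfl
    · rfl
    · show (bif b then q' else p') = (bif b then p' + W' (-1) else p')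
      rw [hq']

theorem hol3_swap {V : Type*} [Add V] (T w p q p' q' : V) (k : Option Bool) (b : Bool) :
    hol3 T w p' q' p q (k.map not) b = hol3 T w p q p' q' k b := by
  rcases k with _ | _ | _ <;> rfl

/-- The statement for two carriers which are not Hamiltonian. -/
def LoneNonHam : Prop := ∀ (m h : ℕ), Odd m → Odd h → 3 ≤ m → 3 ≤ h → ∀ t : ZMod m, IsUnit t →
  ∀ x y : ZMod (m * h), red m h x ≠ 0 → red m h y ≠ 0 → cop x y → x ≠ y → x ≠ -y →
  ∀ (p q p' q' : ZMod (m * h)) (π π' : ZMod h ≃ ZMod h) (W W' : ZMod h → ZMod (m * h))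
    (C C' : ZMod m) (phi phi' : ZMod h × ZMod m ≃ ZMod (m * h)),
    Chart m h π W p q C phi → Chart m h π' W' p' q' C' phi' → ¬ IsUnit C → ¬ IsUnit C' →
    (∀ v v', (v' = v + x ∨ v' = v + y) →
      (StepW π W v v' ∨ StepW π W v' v) ∨ (StepW π' W' v v' ∨ StepW π' W' v' v)) →
    ∀ w, TS Set.univ (fun v v' => DE (fun δ => δ = psi m h t ∨ δ = x ∨ δ = y) v v')
      (hol3 (psi m h t) w p q p' q')

/-- THE REDUCTION to two carriers which are not Hamiltonian. -/
theorem loneLift1_of (H : LoneNonHam) : LoneLift1 := by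
  classical
  intro m h hm hh m3 h3 t ht x y hx hy hc h1 h2
  have hcm : cop (red m h x) (red m h y) := by
    have hNZ : NeZero (m * h) := ⟨(hm.mul hh).pos.ne'⟩
    show Nat.gcd (Nat.gcd (red m h x).val (red m h y).val) h = 1
    by_contra hne
    obtain ⟨p, hp, hpd⟩ := Nat.exists_prime_and_dvd hne
    have hph := hpd.trans (Nat.gcd_dvd_right _ _)
    have hpx := (hpd.trans (Nat.gcd_dvd_left _ _)).trans (Nat.gcd_dvd_left _ _)
    have hpy := (hpd.trans (Nat.gcd_dvd_left _ _)).trans (Nat.gcd_dvd_right _ _)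
    rw [red_val, ZMod.val_natCast, Nat.dvd_mod_iff hph] at hpx hpy
    have h5 : p ∣ Nat.gcd (Nat.gcd x.val y.val) (m * h) :=
      Nat.dvd_gcd (Nat.dvd_gcd hpx hpy) (hph.mul_left m)
    have hc' : Nat.gcd (Nat.gcd x.val y.val) (m * h) = 1 := hc
    rw [hc'] at h5
    exact hp.one_lt.ne' (Nat.dvd_one.1 h5)
  obtain ⟨T1, T2, T3⟩ := twoCycAll hh h3 x y hx hy hcm
  have hall : ∀ p q p' q' : ZMod (m * h), TwoCyc m h x y p q p' q' → ∀ w,
      TS Set.univ (fun v v' => DE (fun δ => δ = psi m h t ∨ δ = x ∨ δ = y) v v')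
        (hol3 (psi m h t) w p q p' q') := by
    intro p q p' q' hT w
    obtain ⟨E, E', c1, c2, c3⟩ := hT
    obtain ⟨π, W, C, phi, ch, hE⟩ := c1.chart h3
    obtain ⟨π', W', C', phi', ch', hE'⟩ := c2.chart h3
    have hcov : ∀ v v', (v' = v + x ∨ v' = v + y) →
        (StepW π W v v' ∨ StepW π W v' v) ∨ (StepW π' W' v v' ∨ StepW π' W' v' v) := by
      intro v v' hv
      rcases c3 v v' hv with (h4 | h4) | (h4 | h4)
      · exact Or.inl (hE _ _ h4)
      · exact Or.inl (hE _ _ h4).symm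
      · exact Or.inr (hE' _ _ h4)
      · exact Or.inr (hE' _ _ h4).symm
    have hcov2 : ∀ v v', DE (fun δ => δ = psi m h t ∨ δ = x ∨ δ = y) v v' →
        DE (fun δ => δ = psi m h t) v v' ∨
        ((StepW π W v v' ∨ StepW π W v' v) ∨ (StepW π' W' v v' ∨ StepW π' W' v' v)) := by
      rintro v v' ⟨δ, hδ | hδ, hvv⟩
      · exact Or.inl ⟨δ, hδ, hvv⟩
      · right
        rcases hvv with hvv | hvv
        · exact hcov v v' (by rcases hδ with rfl | rfl; exacts [Or.inl hvv, Or.inr hvv])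
        · rcases hcov v' v (by rcases hδ with rfl | rfl; exacts [Or.inl hvv, Or.inr hvv])
            with h6 | h6
          · exact Or.inl h6.symm
          · exact Or.inr h6.symm
    by_cases hC' : IsUnit C'
    · exact (lone_ham hm hh m3 h3 t ht ch.cyc ch' hC' w).mono (fun v _ v' _ hv => hcov2 v v' hv)
    by_cases hC : IsUnit C
    · refine (((lone_ham hm hh m3 h3 t ht ch'.cyc ch hC w).mono ?_).reindex
        (Equiv.optionCongr ⟨not, not, Bool.not_not, Bool.not_not⟩)).congr ?_
      · intro v _ v' _ hv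
        rcases hcov2 v v' hv with h4 | h4
        · exact Or.inl h4
        · exact Or.inr h4.symm
      · rintro (_ | _ | _) b <;> rfl
    · exact H m h hm hh m3 h3 t ht x y hx hy hc h1 h2 p q p' q' π π' W W' C C' phi phi' ch ch'
        hC hC' hcov w
  intro P A hA hP
  have hred : ∀ δ : ZMod (m * h), IsUnit δ → IsUnit (red m h δ) := fun δ hδ => hδ.map (red m h)
  have fin : ∀ a a' : ZMod (m * h), A (Sum.inr ((), false)) = a → A (Sum.inr ((), true)) = a' →
      TwoCyc m h x y (P (Sum.inr ((), false))) (P (Sum.inr ((), false)) + a)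
        (P (Sum.inr ((), true))) (P (Sum.inr ((), true)) + a') →
      TS Set.univ (DE (FD (fun _ : Unit => psi m h t) (fun _ : Unit => x) (fun _ : Unit => y)))
        (fh P A) := by
    intro a a' ha ha' hT
    refine (((hall _ _ _ _ hT (P (Sum.inl ()))).mono ?_).reindex (Θ' := Unit ⊕ Unit × Bool)
      { toFun := Sum.elim (fun _ => none) (fun k => some k.2)
        invFun := fun k => k.elim (Sum.inl ()) (fun c => Sum.inr ((), c))
        left_inv := by rintro (_ | ⟨_, _⟩) <;> rfl
        right_inv := by rintro (_ | _) <;> rfl }).congr ?_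
    · rintro v - v' - ⟨δ, hδ, hvv⟩
      refine ⟨δ, ?_, hvv⟩
      rcases hδ with ⟨_, hδ⟩ | ⟨_, hδ⟩
      · exact Or.inl hδ
      · exact Or.inr hδ
    · rintro (_ | ⟨_, _ | _⟩) b
      · show P (Sum.inl ()) + (bif b then A (Sum.inl ()) else 0) =
          (bif b then P (Sum.inl ()) + psi m h t else P (Sum.inl ()))
        rw [hA]
        cases b
        · exact add_zero _
        · rfl
      · show P (Sum.inr ((), false)) + (bif b then A (Sum.inr ((), false)) else 0) =
          (bif b then P (Sum.inr ((), false)) + a else P (Sum.inr ((), false)))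
        rw [ha]
        cases b
        · exact add_zero _
        · rfl
      · show P (Sum.inr ((), true)) + (bif b then A (Sum.inr ((), true)) else 0) =
          (bif b then P (Sum.inr ((), true)) + a' else P (Sum.inr ((), true)))
        rw [ha']
        cases b
        · exact add_zero _
        · rfl
  rcases hP () with ⟨g1, g2⟩ | ⟨g1, g2⟩ | ⟨⟨g1, g2⟩ | ⟨g1, g2⟩, h4⟩
  · exact fin x y g1 g2 (T1 _ _)
  · exact fin y x g1 g2 (T1 _ _).flip
  · exact fin x x g1 g2 (T2 _ _ (hred _ h4))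
  · exact fin y y g1 g2 (T3 _ _ (hred _ h4))

end Pool.Agent.P45
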