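import Pool.Agent.Lib.P45dba8.LoneS

/-! # MP_45dba8: reduction of the lone single to host pairs which generate -/

set_option autoImplicit false

namespace Pool.Agent.P45

/-- The single type hosts the pair if the pair does not generate. -/
theorem good_single_pair {m g : ℕ} (hm : Odd m) (hgo : Odd g) (g3 : 3 ≤ g) (s : ZMod (m * g))
    (hs : IsUnit (red m g s)) (x' y' : ZMod m) (hx0 : x' ≠ 0) (hy0 : y' ≠ 0) (h1 : x' ≠ y')
    (h2 : x' ≠ -y') (hc : cop x' y') :
    Good (m * g) IsUnit (fun _ : Unit => s) (fun _ : Unit => psi m g x')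
      (fun _ : Unit => psi m g y') := by
  have m3 : 3 ≤ m := by
    by_contra h
    have : m = 1 := by
      obtain ⟨k, hk⟩ := hm
      omega
    subst this
    exact hx0 (Subsingleton.elim _ _)
  have hG := good_pair hm m3 x' y' hx0 hy0 h1 h2 hc
  have hne : Nonempty (Empty ⊕ Unit × Bool) := ⟨Sum.inr ((), false)⟩
  have hD : Dist (fun k : Empty => (k.elim : ZMod m)) (fun _ : Unit => x') (fun _ : Unit => y') := by
    rintro (k | ⟨_, _ | _⟩) (k' | ⟨_, _ | _⟩) hxy
    · exact k.elim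
    · exact k.elim
    · exact k.elim
    · exact k'.elim
    · exact absurd rfl hxy
    · exact ⟨h1, h2⟩
    · exact k'.elim
    · exact ⟨h1.symm, fun h => h2 (by
        have h' : y' = -x' := h
        rw [h', neg_neg])⟩
    · exact absurd rfl hxy
  have hG2 := Good.host hm hgo g3 (fun _ hx => hx) hG hD s hs
  have hF : Fact (1 < g) := ⟨by omega⟩
  have hG3 := hG2.monoQ (Q' := IsUnit) (fun δ hδ h0 => by
    have h5 := hδ.map (red m g)
    rw [h0] at h5
    exact not_isUnit_zero h5)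
  let f : Option Empty → Unit := fun _ => ()
  have hf : Function.Bijective f := by
    refine ⟨?_, fun _ => ⟨none, rfl⟩⟩
    rintro (_ | k) (_ | k') _
    · rfl
    · exact k'.elim
    · exact k.elim
    · exact k.elim
  refine Good.transport f hf id Function.bijective_id (hG3.congr ?_ (fun _ => rfl) (fun _ => rfl))
  rintro (_ | k)
  · rfl
  · exact k.elim

theorem red_val {m g : ℕ} [NeZero (m * g)] (x : ZMod (m * g)) :
    red m g x = ((x.val : ℕ) : ZMod g) := by
  conv_lhs => rw [← ZMod.natCast_zmod_val x]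
  rw [map_natCast]

/-- The statement for host pairs which generate. -/
def LoneLift1 : Prop := ∀ (m h : ℕ), Odd m → Odd h → 3 ≤ m → 3 ≤ h → ∀ t : ZMod m, IsUnit t →
  ∀ x y : ZMod (m * h), red m h x ≠ 0 → red m h y ≠ 0 → cop x y → x ≠ y → x ≠ -y →
    Good (m * h) IsUnit (fun _ : Unit => psi m h t) (fun _ : Unit => x) (fun _ : Unit => y)

/-- A single type and a pair in `ZMod n` where the gcd `g` of the pair with `n` is prime to the
single type. -/
theorem good_single_pair' {n : ℕ} (hn : Odd n) (s x y : ZMod n) (hx0 : x ≠ 0) (hy0 : y ≠ 0)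
    (h1 : x ≠ y) (h2 : x ≠ -y) (g : ℕ) (hg : g = Nat.gcd (Nat.gcd x.val y.val) n) (g3 : 3 ≤ g)
    (hs : Nat.Coprime s.val g) :
    Good n IsUnit (fun _ : Unit => s) (fun _ : Unit => x) (fun _ : Unit => y) := by
  have hn0 : 0 < n := hn.pos
  have hgn : g ∣ n := by rw [hg]; exact Nat.gcd_dvd_right _ _
  have hgx : g ∣ x.val := by rw [hg]; exact (Nat.gcd_dvd_left _ _).trans (Nat.gcd_dvd_left _ _)
  have hgy : g ∣ y.val := by rw [hg]; exact (Nat.gcd_dvd_left _ _).trans (Nat.gcd_dvd_right _ _)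
  obtain ⟨m, hm⟩ := hgn
  rw [mul_comm] at hm
  subst hm
  have hNZ : NeZero (m * g) := ⟨hn0.ne'⟩
  obtain ⟨hmo, hgo⟩ := Nat.odd_mul.1 hn
  have hg0 : 0 < g := by omega
  obtain ⟨a, ha⟩ := hgx
  obtain ⟨b, hb⟩ := hgy
  have ex : x = psi m g (a : ZMod m) := by
    rw [psi_natCast, ← ZMod.natCast_zmod_val x, ha]
    push_cast
    ring
  have ey : y = psi m g (b : ZMod m) := by
    rw [psi_natCast, ← ZMod.natCast_zmod_val y, hb]
    push_cast
    ring
  have hinj := psi_inj m g hg0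
  have hsu : IsUnit (red m g s) := by
    rw [red_val, ZMod.isUnit_iff_coprime]
    exact hs
  have hcop : cop (a : ZMod m) (b : ZMod m) := by
    have hc1 : Nat.gcd (Nat.gcd a b) m = 1 := by
      rw [ha, hb, Nat.gcd_mul_left, mul_comm m g, Nat.gcd_mul_left] at hg
      have : g * Nat.gcd (Nat.gcd a b) m = g * 1 := by rw [← hg, mul_one]
      exact Nat.eq_of_mul_eq_mul_left hg0 this
    exact (cop_cast a b).2 hc1
  rw [ex, ey]
  refine good_single_pair hmo hgo g3 s hsu _ _ ?_ ?_ ?_ ?_ hcop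
  · intro h; apply hx0; rw [ex, h, map_zero]
  · intro h; apply hy0; rw [ey, h, map_zero]
  · intro h; apply h1; rw [ex, ey, h]
  · intro h; apply h2; rw [ex, ey, h, map_neg]

/-- THE REDUCTION. -/
theorem loneLift_of (H : LoneLift1) : LoneLift := by
  intro m h hm hh m3 h3 t ht x y hx hy hc h1 h2
  have hn : Odd (m * h) := hm.mul hh
  have hn0 : 0 < m * h := hn.pos
  have hNZ : NeZero (m * h) := ⟨hn0.ne'⟩
  have hNZm : NeZero m := ⟨by omega⟩
  have hx0 : x ≠ 0 := by
    rintro rfl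
    exact hx (map_zero _)
  have hy0 : y ≠ 0 := by
    rintro rfl
    exact hy (map_zero _)
  obtain ⟨g, hg⟩ : ∃ g, g = Nat.gcd (Nat.gcd x.val y.val) (m * h) := ⟨_, rfl⟩
  have hgn : g ∣ m * h := by rw [hg]; exact Nat.gcd_dvd_right _ _
  have hgx : g ∣ x.val := by rw [hg]; exact (Nat.gcd_dvd_left _ _).trans (Nat.gcd_dvd_left _ _)
  have hgy : g ∣ y.val := by rw [hg]; exact (Nat.gcd_dvd_left _ _).trans (Nat.gcd_dvd_right _ _)
  have hgo : Odd g := Odd.of_dvd_nat hn hgn
  by_cases hg1 : g = 1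
  · exact H m h hm hh m3 h3 t ht x y hx hy (hg.symm.trans hg1) h1 h2
  have g3 : 3 ≤ g := by
    obtain ⟨k, hk⟩ := hgo
    omega
  refine good_single_pair' hn _ x y hx0 hy0 h1 h2 g hg g3 ?_
  show Nat.gcd (psi m h t).val g = 1
  by_contra hne
  obtain ⟨p, hp, hpd⟩ := Nat.exists_prime_and_dvd hne
  have hps := hpd.trans (Nat.gcd_dvd_left _ _)
  have hpg := hpd.trans (Nat.gcd_dvd_right _ _)
  have hph : ¬ p ∣ h := by
    intro hph
    have e1 : p ∣ (red m h x).val := by
      rw [red_val, ZMod.val_natCast]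
      exact (Nat.dvd_mod_iff hph).2 (hpg.trans hgx)
    have e2 : p ∣ (red m h y).val := by
      rw [red_val, ZMod.val_natCast]
      exact (Nat.dvd_mod_iff hph).2 (hpg.trans hgy)
    have e3 : p ∣ Nat.gcd (Nat.gcd (red m h x).val (red m h y).val) h :=
      Nat.dvd_gcd (Nat.dvd_gcd e1 e2) hph
    have hc' : Nat.gcd (Nat.gcd (red m h x).val (red m h y).val) h = 1 := hc
    rw [hc'] at e3
    exact hp.one_lt.ne' (Nat.dvd_one.1 e3)
  have hpm : p ∣ m := (hp.dvd_mul.1 (hpg.trans hgn)).resolve_right hph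
  have hst : psi m h t = ((t.val * h : ℕ) : ZMod (m * h)) := by
    conv_lhs => rw [← ZMod.natCast_zmod_val t]
    rw [psi_natCast]
    push_cast
    rfl
  rw [hst, ZMod.val_natCast, Nat.dvd_mod_iff (hpg.trans hgn)] at hps
  have hpt : p ∣ t.val := (hp.dvd_mul.1 hps).resolve_right hph
  have htc : Nat.Coprime t.val m := by
    rw [← ZMod.isUnit_iff_coprime, ZMod.natCast_zmod_val]
    exact ht
  exact hp.one_lt.ne' (Nat.dvd_one.1 (htc ▸ Nat.dvd_gcd hpt hpm))

end Pool.Agent.P45
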