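import Pool.Agent.Lib.P45dba8.Process

/-! # MP_45dba8: the divisor processing theorem without the condition on lone singles

`LoneLift` (proved elsewhere): one single alone at a divisor can be lifted along a pair host. -/

set_option autoImplicit false

namespace Pool.Agent.P45

/-- One single alone can be lifted along any pair host. -/
def LoneLift : Prop := ∀ (m h : ℕ), Odd m → Odd h → 3 ≤ m → 3 ≤ h → ∀ t : ZMod m, IsUnit t →
  ∀ x y : ZMod (m * h), red m h x ≠ 0 → red m h y ≠ 0 → cop (red m h x) (red m h y) →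
    x ≠ y → x ≠ -y →
    Good (m * h) IsUnit (fun _ : Unit => psi m h t) (fun _ : Unit => x) (fun _ : Unit => y)

variable {ι κ : Type*} {t : ι → ℕ} {a b : κ → ℕ}

/-- Lifting along a pair host, a single alone. -/
theorem GF.lift_lone (hLL : LoneLift) {n m h g : ℕ} (hn : Odd n) (hmg : m * (h * g) = n)
    (h3 : 3 ≤ h) (hD : TDist n t a b) {K : Set (ι ⊕ κ)} (hK : GF m (h * g) t a b K) (k0 : κ)
    (ha : ¬ h * g ∣ a k0) (hb : ¬ h * g ∣ b k0)
    (hg : Nat.gcd (Nat.gcd (h * g) (a k0)) (b k0) = g)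
    (i1 : ι) (hi1 : K = {Sum.inl i1}) (hv : Nat.gcd n (t i1) = h * g) :
    GF (m * h) g t a b (K ∪ {Sum.inr k0}) := by
  classical
  have hn0 : 0 < n := hn.pos
  have hg0 : 0 < g := by
    rcases Nat.eq_zero_or_pos g with h0 | h0
    · rw [h0, mul_zero, mul_zero] at hmg
      omega
    · exact h0
  have hmh : m * h * g = n := by rw [mul_assoc]; exact hmg
  obtain ⟨h1, h2, h4⟩ := hK
  have hodd : Odd m ∧ Odd h := by
    rw [← hmg] at hn
    exact ⟨(Nat.odd_mul.1 hn).1, (Nat.odd_mul.1 (Nat.odd_mul.1 hn).2).1⟩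
  have ga : g ∣ a k0 := by
    have := (Nat.gcd_dvd_left (Nat.gcd (h * g) (a k0)) (b k0)).trans (Nat.gcd_dvd_right _ _)
    rwa [hg] at this
  have gb : g ∣ b k0 := by
    have := Nat.gcd_dvd_right (Nat.gcd (h * g) (a k0)) (b k0)
    rwa [hg] at this
  have hmem : (Sum.inl i1 : ι ⊕ κ) ∈ K := by rw [hi1]; rfl
  have d1 : ∀ i, Sum.inl i ∈ K ∪ {Sum.inr k0} → g ∣ t i := by
    rintro i (hi | hi)
    · exact (dvd_mul_left g h).trans (h1 i hi)
    · exact absurd hi (by simp)
  have d2 : ∀ k, Sum.inr k ∈ K ∪ {Sum.inr k0} → g ∣ a k ∧ g ∣ b k := by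
    rintro k (hk | hk)
    · exact ⟨(dvd_mul_left g h).trans (h2 k hk).1, (dvd_mul_left g h).trans (h2 k hk).2⟩
    · have : k = k0 := by simpa using hk
      rw [this]
      exact ⟨ga, gb⟩
  have hnd : ∀ A : ℕ, g ∣ A → ¬ h * g ∣ A → red m h ((A / g : ℕ) : ZMod (m * h)) ≠ 0 := by
    rintro A ⟨c, rfl⟩ hA hz
    rw [Nat.mul_div_cancel_left _ hg0, map_natCast, ZMod.natCast_eq_zero_iff] at hz
    apply hA
    rw [mul_comm h g]
    exact Nat.mul_dvd_mul_left g hz
  have hx := hnd _ ga ha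
  have hy := hnd _ gb hb
  have hcop : cop (red m h ((a k0 / g : ℕ) : ZMod (m * h)))
      (red m h ((b k0 / g : ℕ) : ZMod (m * h))) := by
    rw [map_natCast, map_natCast, cop_cast]
    obtain ⟨c, hc⟩ := ga
    obtain ⟨c', hc'⟩ := gb
    rw [hc, hc', Nat.mul_div_cancel_left _ hg0, Nat.mul_div_cancel_left _ hg0]
    rw [hc, hc', mul_comm h g, Nat.gcd_mul_left, Nat.gcd_mul_left] at hg
    have h5 : Nat.gcd (Nat.gcd h c) c' = 1 := Nat.eq_of_mul_eq_mul_left hg0 (by rw [hg, mul_one])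
    rw [Nat.gcd_assoc] at h5
    rw [Nat.gcd_comm]
    exact h5
  obtain ⟨q1, -⟩ := GF.dist hmh hD d1 d2
  have hk0' : (Sum.inr k0 : ι ⊕ κ) ∈ K ∪ {Sum.inr k0} := Or.inr rfl
  have q3 := q1 (Sum.inr (⟨k0, hk0'⟩, false)) (Sum.inr (⟨k0, hk0'⟩, true)) (by simp)
  have hu : IsUnit ((t i1 / (h * g) : ℕ) : ZMod m) := by
    rw [ZMod.isUnit_iff_coprime]
    have hhg : 0 < h * g := by positivity
    obtain ⟨c, hc⟩ := h1 i1 hmem
    rw [hc, Nat.mul_div_cancel_left _ hhg]
    rw [hc, ← hmg, mul_comm m, Nat.gcd_mul_left] at hv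
    have h5 : Nat.gcd m c = 1 := Nat.eq_of_mul_eq_mul_left hhg (by rw [hv, mul_one])
    rw [Nat.gcd_comm] at h5
    exact h5
  have hm3 : 3 ≤ m := by
    obtain ⟨j, hj⟩ := hodd.1
    have hm1 : m ≠ 1 := by
      intro h0
      rw [h0, one_mul] at hmg
      have h5 : n ∣ t i1 := by
        rw [← hmg, ← hv]
        exact Nat.gcd_dvd_right _ _
      have h6 := hD.1 (Sum.inl i1)
      exact h6 ((ZMod.natCast_eq_zero_iff _ _).2 h5)
    omega
  have key := hLL m h hodd.1 hodd.2 hm3 h3 _ hu _ _ hx hy hcop q3.1 q3.2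
  refine ⟨d1, d2, ?_⟩
  let f : Unit → {i : ι // (Sum.inl i : ι ⊕ κ) ∈ K ∪ {Sum.inr k0}} :=
    fun _ => ⟨i1, Or.inl hmem⟩
  let f' : Unit → {k : κ // (Sum.inr k : ι ⊕ κ) ∈ K ∪ {Sum.inr k0}} := fun _ => ⟨k0, Or.inr rfl⟩
  have hf : Function.Bijective f := by
    refine ⟨fun _ _ _ => rfl, ?_⟩
    rintro ⟨i, hi | hi⟩
    · rw [hi1] at hi
      have : i = i1 := by simpa using hi
      exact ⟨(), Subtype.ext this.symm⟩
    · exact absurd hi (by simp)
  have hf' : Function.Bijective f' := by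
    refine ⟨fun _ _ _ => rfl, ?_⟩
    rintro ⟨k, hk | hk⟩
    · rw [hi1] at hk
      exact absurd hk (by simp)
    · have : k = k0 := by simpa using hk
      exact ⟨(), Subtype.ext this.symm⟩
  refine Good.transport f hf f' hf' (key.congr ?_ ?_ ?_)
  · intro i
    exact (psi_div' hg0 (h1 i1 hmem)).symm
  · intro k
    rfl
  · intro k
    rfl

/-- A plan: the divisors `H` with the hosts `π`. -/
structure Plan2 (n : ℕ) (t : ι → ℕ) (a b : κ → ℕ) (H : Finset ℕ) (π : ℕ → ι ⊕ κ) : Prop where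
  hdvd : ∀ h ∈ H, h ∣ n
  hone : ∀ h ∈ H, 1 < h
  inj : ∀ h ∈ H, ∀ h' ∈ H, π h = π h' → h = h'
  avd : ∀ h ∈ H, av t a b h (π h)
  clo : ∀ h ∈ H, nx t a b h (π h) = 1 ∨ nx t a b h (π h) ∈ H
  start : ∀ x, (∀ h ∈ H, π h ≠ x) → nx t a b n x = 1 ∨ nx t a b n x ∈ H
  ne : ∀ h ∈ H, (∃ x, (∀ h' ∈ H, π h' ≠ x) ∧ nx t a b n x = h) ∨
    ∃ h' ∈ H, nx t a b h' (π h') = h

/-- The state before the divisors `< N` are processed: `pos x` is the divisor at which the item
`x` is, `0` for the hosts which are not used yet. -/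
structure Inv2 (n : ℕ) (t : ι → ℕ) (a b : κ → ℕ) (H : Finset ℕ) (π : ℕ → ι ⊕ κ) (N : ℕ)
    (pos : ι ⊕ κ → ℕ) : Prop where
  zero : ∀ x, pos x = 0 ↔ ∃ h ∈ H, h < N ∧ π h = x
  mem : ∀ x, pos x ≠ 0 → pos x = 1 ∨ (pos x ∈ H ∧ pos x < N)
  good : ∀ m g, m * g = n → GF m g t a b {x | pos x = g}
  ne : ∀ h ∈ H, h < N → (∃ x, pos x = h) ∨ ∃ h' ∈ H, h' < N ∧ nx t a b h' (π h') = h
  one : ∀ g m, m * g = n → ∀ x, (∀ y, pos y = g ↔ y = x) → nx t a b n x = g

theorem Plan2.lt {n : ℕ} {H : Finset ℕ} {π : ℕ → ι ⊕ κ} (P : Plan2 n t a b H π) {h : ℕ}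
    (hh : h ∈ H) : nx t a b h (π h) < h :=
  lt_of_le_of_ne (Nat.le_of_dvd (by have := P.hone h hh; omega) (nx_dvd h _)) (nx_ne (P.avd h hh))

theorem Inv2.init {n : ℕ} (hn : Odd n) (hD : TDist n t a b) {H : Finset ℕ} {π : ℕ → ι ⊕ κ}
    (P : Plan2 n t a b H π) : ∃ pos, Inv2 n t a b H π (n + 1) pos := by
  classical
  have hn0 : 0 < n := hn.pos
  have hlt : ∀ h ∈ H, h < n + 1 := fun h hh =>
    Nat.lt_succ_of_le (Nat.le_of_dvd hn0 (P.hdvd h hh))
  have hnx : ∀ x : ι ⊕ κ, nx t a b n x ≠ 0 := by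
    intro x h
    have := nx_dvd (t := t) (a := a) (b := b) n x
    rw [h, Nat.zero_dvd] at this
    omega
  let pos : ι ⊕ κ → ℕ := fun x => if ∃ h ∈ H, π h = x then 0 else nx t a b n x
  have p1 : ∀ x, (∃ h ∈ H, π h = x) → pos x = 0 := fun x hx => if_pos hx
  have p2 : ∀ x, (¬ ∃ h ∈ H, π h = x) → pos x = nx t a b n x := fun x hx => if_neg hx
  have p3 : ∀ x g, g ≠ 0 → (pos x = g ↔ (∀ h' ∈ H, π h' ≠ x) ∧ nx t a b n x = g) := by
    intro x g hg
    by_cases hx : ∃ h ∈ H, π h = x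
    · constructor
      · intro h
        exact absurd ((p1 x hx).symm.trans h).symm hg
      · rintro ⟨h, _⟩
        obtain ⟨h', h1, h2⟩ := hx
        exact absurd h2 (h h' h1)
    · rw [p2 x hx]
      push Not at hx
      exact ⟨fun h => ⟨hx, h⟩, fun h => h.2⟩
  refine ⟨pos, ?_, ?_, ?_, ?_, ?_⟩
  · intro x
    constructor
    · intro hx
      by_contra hcon
      have hcon' : ¬ ∃ h ∈ H, π h = x := by
        rintro ⟨h, h1, h2⟩
        exact hcon ⟨h, h1, hlt h h1, h2⟩
      rw [p2 x hcon'] at hx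
      exact hnx x hx
    · rintro ⟨h, h1, -, h2⟩
      exact p1 x ⟨h, h1, h2⟩
  · intro x hx
    by_cases hx' : ∃ h ∈ H, π h = x
    · exact absurd (p1 x hx') hx
    · rw [p2 x hx']
      push Not at hx'
      rcases P.start x hx' with h | h
      · exact Or.inl h
      · exact Or.inr ⟨h, hlt _ h⟩
  · intro m g hmg
    have hg : 0 < g := Nat.pos_of_ne_zero (by rintro rfl; omega)
    refine GF.exact hn hmg hg hD _ ?_ ?_
    · intro i hi
      exact ((p3 (Sum.inl i) g hg.ne').1 hi).2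
    · intro k hk
      exact ((p3 (Sum.inr k) g hg.ne').1 hk).2
  · intro h hh _
    have h1 := P.hone h hh
    rcases P.ne h hh with ⟨x, hx⟩ | ⟨h', h1, h2⟩
    · exact Or.inl ⟨x, (p3 x h (by omega)).2 hx⟩
    · exact Or.inr ⟨h', h1, hlt h' h1, h2⟩
  · intro g m hmg x hx
    have hg : 0 < g := Nat.pos_of_ne_zero (by rintro rfl; omega)
    exact ((p3 x g hg.ne').1 ((hx x).2 rfl)).2

theorem Inv2.step (hLL : LoneLift) {n : ℕ} (hn : Odd n) (hD : TDist n t a b) {H : Finset ℕ} {π : ℕ → ι ⊕ κ}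
    (P : Plan2 n t a b H π) {N : ℕ} {pos : ι ⊕ κ → ℕ} (I : Inv2 n t a b H π (N + 1) pos) :
    ∃ pos, Inv2 n t a b H π N pos := by
  classical
  have hn0 : 0 < n := hn.pos
  by_cases hN : N ∈ H
  swap
  · have hlt : ∀ h ∈ H, (h < N + 1 ↔ h < N) := by
      intro h hh
      have : h ≠ N := fun h' => hN (h' ▸ hh)
      omega
    refine ⟨pos, ?_, ?_, I.good, ?_, I.one⟩
    · intro x
      rw [I.zero x]
      constructor
      · rintro ⟨h, h1, h2, h3⟩
        exact ⟨h, h1, (hlt h h1).1 h2, h3⟩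
      · rintro ⟨h, h1, h2, h3⟩
        exact ⟨h, h1, (hlt h h1).2 h2, h3⟩
    · intro x hx
      rcases I.mem x hx with h | ⟨h1, h2⟩
      · exact Or.inl h
      · exact Or.inr ⟨h1, (hlt _ h1).1 h2⟩
    · intro h hh hh'
      rcases I.ne h hh ((hlt h hh).2 hh') with h1 | ⟨h', h1, h2, h3⟩
      · exact Or.inl h1
      · exact Or.inr ⟨h', h1, (hlt h' h1).1 h2, h3⟩
  -- the divisor `N` is processed
  set g := nx t a b N (π N) with hgdef
  have hgN : g < N := P.lt hN
  have hN1 : 1 < N := P.hone N hN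
  have hgd : g ∣ N := nx_dvd N _
  have hg0 : 0 < g := Nat.pos_of_dvd_of_pos hgd (by omega)
  have hNn : N ∣ n := P.hdvd N hN
  have hposπ : pos (π N) = 0 := (I.zero _).2 ⟨N, hN, Nat.lt_succ_self N, rfl⟩
  -- nothing of `H` below lands at `N`
  have hnoland : ¬ ∃ h' ∈ H, h' < N + 1 ∧ nx t a b h' (π h') = N := by
    rintro ⟨h', h1, h2, h3⟩
    have := P.lt h1
    omega
  obtain ⟨x0, hx0⟩ : ∃ x, pos x = N := by
    rcases I.ne N hN (Nat.lt_succ_self N) with h | h
    · exact h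
    · exact absurd h hnoland
  let pos' : ι ⊕ κ → ℕ := fun x => if x = π N ∨ pos x = N then g else pos x
  have p1 : ∀ x, (x = π N ∨ pos x = N) → pos' x = g := fun x hx => if_pos hx
  have p2 : ∀ x, ¬ (x = π N ∨ pos x = N) → pos' x = pos x := fun x hx => if_neg hx
  have hx0π : x0 ≠ π N := by
    rintro rfl
    rw [hposπ] at hx0
    omega
  -- the sets
  have sg : {x | pos' x = g} = {x | pos x = g} ∪ ({x | pos x = N} ∪ {π N}) := by
    ext x
    show pos' x = g ↔ pos x = g ∨ (pos x = N ∨ x = π N)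
    by_cases hx : x = π N ∨ pos x = N
    · rw [p1 x hx]
      exact ⟨fun _ => Or.inr hx.symm, fun _ => rfl⟩
    · rw [p2 x hx]
      constructor
      · exact fun h => Or.inl h
      · rintro (h | h)
        · exact h
        · exact absurd h.symm hx
  have so : ∀ g', g' ≠ g → g' ≠ 0 → g' ≠ N → ∀ x, pos' x = g' ↔ pos x = g' := by
    intro g' h1 h2 h3 x
    by_cases hx : x = π N ∨ pos x = N
    · rw [p1 x hx]
      constructor
      · intro h
        exact absurd h.symm h1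
      · intro h
        rcases hx with hx | hx
        · rw [hx, hposπ] at h
          exact absurd h.symm h2
        · rw [hx] at h
          exact absurd h.symm h3
    · rw [p2 x hx]
  have sN : ∀ x, pos' x ≠ N := by
    intro x hx
    by_cases h : x = π N ∨ pos x = N
    · rw [p1 x h] at hx
      omega
    · rw [p2 x h] at hx
      exact h (Or.inr hx)
  -- the lifted family
  obtain ⟨h, hh⟩ := hgd
  have hNh : N = h * g := by rw [hh, mul_comm]
  obtain ⟨m', hm'⟩ := hNn
  have hm'n : m' * (h * g) = n := by rw [← hNh, hm', mul_comm]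
  have h3 : 3 ≤ h := by
    have hNo : Odd N := by
      rw [hm'] at hn
      exact (Nat.odd_mul.1 hn).1
    rw [hNh] at hNo
    obtain ⟨j, hj⟩ := (Nat.odd_mul.1 hNo).1
    have : h ≠ 1 := by
      rintro rfl
      omega
    omega
  have hK := I.good m' N (by rw [hNh]; exact hm'n)
  have lifted : GF (m' * h) g t a b ({x | pos x = N} ∪ {π N}) := by
    have hav := P.avd N hN
    have hnot : π N ∉ {x | pos x = N} := by
      intro h
      have h' : pos (π N) = N := h
      rw [hposπ] at h'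
      omega
    have hone := I.one N m' (by rw [hNh]; exact hm'n)
    rcases hπ : π N with i | k
    · rw [hπ] at hnot hav hgdef
      rw [hNh] at hK hnot hgdef ⊢
      refine hK.host hn hm'n h3 hD ?_ i hnot hgdef.symm
      exact ⟨x0, by show pos x0 = h * g; rw [← hNh]; exact hx0⟩
    · rw [hπ] at hnot hav hgdef
      by_cases h2 : ∃ y, pos y = N ∧ y ≠ x0
      · obtain ⟨y, hy, hyx⟩ := h2
        have hsz : (∃ x ∈ {x | pos x = N}, ∃ y ∈ {x | pos x = N}, x ≠ y) ∨
          ∃ k1, {x | pos x = N} = {Sum.inr k1} ∧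
            Nat.gcd (Nat.gcd n (a k1)) (b k1) = N := Or.inl ⟨y, hy, x0, hx0, hyx⟩
        rw [hNh] at hK hnot hgdef hsz hav ⊢
        exact hK.lift hn hm'n h3 hD k hnot hav.1 hav.2 hgdef.symm hsz
      · push Not at h2
        have h4 : ∀ y, pos y = N ↔ y = x0 := fun y => ⟨h2 y, fun h => by rw [h]; exact hx0⟩
        have h5 := hone x0 h4
        have h6 : {x | pos x = N} = {x0} := by
          ext y
          exact h4 y
        rcases x0 with i | k1
        · rw [h6] at hK ⊢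
          rw [hNh] at hK hgdef hav h5
          exact hK.lift_lone hLL hn hm'n h3 hD k hav.1 hav.2 hgdef.symm i rfl h5
        · have hsz : (∃ x ∈ {x | pos x = N}, ∃ y ∈ {x | pos x = N}, x ≠ y) ∨
            ∃ k1, {x | pos x = N} = {Sum.inr k1} ∧
              Nat.gcd (Nat.gcd n (a k1)) (b k1) = N := Or.inr ⟨k1, h6, h5⟩
          rw [hNh] at hK hnot hgdef hsz hav ⊢
          exact hK.lift hn hm'n h3 hD k hnot hav.1 hav.2 hgdef.symm hsz
  refine ⟨pos', ?_, ?_, ?_, ?_, ?_⟩
  · intro x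
    constructor
    · intro hx
      have hx' : ¬ (x = π N ∨ pos x = N) := by
        intro h
        rw [p1 x h] at hx
        omega
      rw [p2 x hx'] at hx
      obtain ⟨h', h1, h2, h4⟩ := (I.zero x).1 hx
      refine ⟨h', h1, ?_, h4⟩
      have : h' ≠ N := by
        rintro rfl
        exact hx' (Or.inl h4.symm)
      omega
    · rintro ⟨h', h1, h2, h4⟩
      have h5 : pos x = 0 := (I.zero x).2 ⟨h', h1, by omega, h4⟩
      rw [p2 x, h5]
      rintro (h6 | h6)
      · rw [h6] at h4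
        have := P.inj h' h1 N hN h4
        omega
      · omega
  · intro x hx
    by_cases h : x = π N ∨ pos x = N
    · rw [p1 x h]
      rcases P.clo N hN with h' | h'
      · exact Or.inl h'
      · exact Or.inr ⟨h', hgN⟩
    · rw [p2 x h] at hx ⊢
      rcases I.mem x hx with h' | ⟨h1, h2⟩
      · exact Or.inl h'
      · refine Or.inr ⟨h1, ?_⟩
        have : pos x ≠ N := fun h' => h (Or.inr h')
        omega
  · intro m g' hmg
    have hg'0 : g' ≠ 0 := by rintro rfl; omega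
    by_cases h1 : g' = g
    · rw [h1, sg]
      rw [h1] at hmg
      have hm : m' * h = m := by
        apply Nat.eq_of_mul_eq_mul_right hg0
        rw [hmg, mul_assoc]
        exact hm'n
      rw [hm] at lifted
      refine (I.good m g hmg).union lifted ?_
      rintro x hx (hx' | hx')
      · have e1 : pos x = g := hx
        have e2 : pos x = N := hx'
        omega
      · have e1 : pos x = g := hx
        have e2 : x = π N := hx'
        rw [e2, hposπ] at e1
        omega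
    · by_cases h2 : g' = N
      · have : {x | pos' x = g'} = ∅ := by
          ext x
          rw [h2]
          exact ⟨fun h => sN x h, fun h => h.elim⟩
        rw [this]
        exact GF.empty _ _
      · have : {x | pos' x = g'} = {x | pos x = g'} := by
          ext x
          exact so g' h1 hg'0 h2 x
        rw [this]
        exact I.good m g' hmg
  · intro h' hh' hlt
    have h1' := P.hone h' hh'
    by_cases h1 : h' = g
    · exact Or.inl ⟨π N, by rw [p1 _ (Or.inl rfl), h1]⟩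
    · rcases I.ne h' hh' (by omega) with ⟨x, hx⟩ | ⟨h'', h2, h4, h5⟩
      · exact Or.inl ⟨x, (so h' h1 (by omega) (by omega) x).2 hx⟩
      · refine Or.inr ⟨h'', h2, ?_, h5⟩
        have : h'' ≠ N := by
          rintro rfl
          exact h1 h5.symm
        omega
  · intro g' m hmg x hx
    have hg'0 : g' ≠ 0 := by rintro rfl; omega
    by_cases h1 : g' = g
    · exfalso
      have e1 : π N = x := (hx _).1 (by rw [p1 _ (Or.inl rfl), h1])
      have e2 : x0 = x := (hx _).1 (by rw [p1 _ (Or.inr hx0), h1])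
      exact hx0π (e2.trans e1.symm)
    · by_cases h2 : g' = N
      · exfalso
        exact sN x (by rw [(hx x).2 rfl, h2])
      · exact I.one g' m hmg x (fun y => (so g' h1 hg'0 h2 y).symm.trans (hx y))

/-- THE PROCESSING THEOREM. -/
theorem Plan2.good (hLL : LoneLift) {n : ℕ} (hn : Odd n) (hD : TDist n t a b) {H : Finset ℕ} {π : ℕ → ι ⊕ κ}
    (P : Plan2 n t a b H π) :
    Good n IsUnit (fun i => ((t i : ℕ) : ZMod n)) (fun k => ((a k : ℕ) : ZMod n))
      (fun k => ((b k : ℕ) : ZMod n)) := by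
  have h1 : ∀ j N, N + j = n + 1 → ∃ pos, Inv2 n t a b H π N pos := by
    intro j
    induction j with
    | zero =>
      intro N hN
      have : N = n + 1 := by omega
      rw [this]
      exact Inv2.init hn hD P
    | succ j ih =>
      intro N hN
      obtain ⟨pos, I⟩ := ih (N + 1) (by omega)
      exact Inv2.step hLL hn hD P I
  obtain ⟨pos, I⟩ := h1 (n + 1) 0 (by omega)
  have h2 : ∀ x, pos x = 1 := by
    intro x
    have h3 : pos x ≠ 0 := by
      intro h
      obtain ⟨h', -, h4, -⟩ := (I.zero x).1 h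
      omega
    rcases I.mem x h3 with h4 | ⟨-, h4⟩
    · exact h4
    · omega
  obtain ⟨-, -, h5⟩ := I.good n 1 (mul_one n)
  let f : {i : ι // (Sum.inl i : ι ⊕ κ) ∈ {x | pos x = 1}} → ι := fun i => i.1
  let f' : {k : κ // (Sum.inr k : ι ⊕ κ) ∈ {x | pos x = 1}} → κ := fun i => i.1
  refine Good.transport f ⟨fun x y h => Subtype.ext h, fun i => ⟨⟨i, h2 _⟩, rfl⟩⟩ f'
    ⟨fun x y h => Subtype.ext h, fun i => ⟨⟨i, h2 _⟩, rfl⟩⟩ (h5.congr ?_ ?_ ?_)
  · intro i
    show ((t i.1 : ℕ) : ZMod n) = ((t i.1 / 1 : ℕ) : ZMod n)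
    rw [Nat.div_one]
  · intro k
    show ((a k.1 : ℕ) : ZMod n) = ((a k.1 / 1 : ℕ) : ZMod n)
    rw [Nat.div_one]
  · intro k
    show ((b k.1 : ℕ) : ZMod n) = ((b k.1 / 1 : ℕ) : ZMod n)
    rw [Nat.div_one]


end Pool.Agent.P45
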