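import Pool.Agent.Lib.P45dba8.LoneHam

/-! # MP_45dba8: the total translation of a chart -/

set_option autoImplicit false

namespace Pool.Agent.P45

theorem Chart.iter {m h : ℕ} (m0 : 0 < m) (h2 : 2 ≤ h) {π : ZMod h ≃ ZMod h}
    {W : ZMod h → ZMod (m * h)} {p q : ZMod (m * h)} {C : ZMod m}
    {phi : ZMod h × ZMod m ≃ ZMod (m * h)} (H : Chart m h π W p q C phi) (n : ℕ) :
    phi (orb m h C (n : ZMod (m * h))) = q + ∑ j ∈ Finset.range n, W ((j : ℕ) : ZMod h) := by
  have hNZ : NeZero (m * h) := ⟨by positivity⟩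
  induction n with
  | zero =>
    rw [Nat.cast_zero, Finset.sum_range_zero, add_zero, ← H.r5]
    congr 1
    unfold orb
    rw [ZMod.val_zero, Nat.zero_div]
    simp
  | succ n ih =>
    rw [Nat.cast_succ, orb_succ m0 h2, H.r2, ih, Finset.sum_range_succ, add_assoc]
    congr 2
    show W ((((n : ZMod (m * h)).val : ℕ) : ZMod h)) = W ((n : ℕ) : ZMod h)
    congr 1
    rw [ZMod.val_natCast, ZMod.natCast_eq_natCast_iff]
    exact (Nat.mod_modEq _ _).of_dvd (dvd_mul_left h m)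

/-- The total translation of a chart. -/
theorem Chart.sum {m h : ℕ} (m2 : 2 ≤ m) (h2 : 2 ≤ h) {π : ZMod h ≃ ZMod h}
    {W : ZMod h → ZMod (m * h)} {p q : ZMod (m * h)} {C : ZMod m}
    {phi : ZMod h × ZMod m ≃ ZMod (m * h)} (H : Chart m h π W p q C phi) :
    ∑ j ∈ Finset.range h, W ((j : ℕ) : ZMod h) = psi m h C := by
  have e1 := H.iter (by omega) h2 h
  have hlt : h < m * h := by nlinarith
  have e2 : orb m h C ((h : ℕ) : ZMod (m * h)) = (0, 0 + C) := by
    unfold orb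
    rw [ZMod.val_natCast_of_lt hlt, Nat.div_self (by omega), ZMod.natCast_self]
    simp
  rw [e2, H.r3, H.r5] at e1
  exact (add_left_cancel e1).symm

theorem sum_range_zmod {h : ℕ} [NeZero h] {M : Type*} [AddCommMonoid M] (W : ZMod h → M) :
    ∑ j ∈ Finset.range h, W ((j : ℕ) : ZMod h) = ∑ i, W i := by
  refine Finset.sum_nbij (fun j => ((j : ℕ) : ZMod h)) (fun _ _ => Finset.mem_univ _) ?_ ?_
    (fun _ _ => rfl)
  · intro a ha b hb hab
    rw [Finset.mem_coe, Finset.mem_range] at ha hb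
    have := congrArg ZMod.val hab
    simp only [ZMod.val_natCast_of_lt ha, ZMod.val_natCast_of_lt hb] at this
    exact this
  · intro i _
    exact ⟨i.val, Finset.mem_coe.2 (Finset.mem_range.2 i.val_lt), ZMod.natCast_zmod_val i⟩

/-- The total translation of a chart, as a sum over all classes. -/
theorem Chart.sum_univ {m h : ℕ} [NeZero h] (m2 : 2 ≤ m) (h2 : 2 ≤ h) {π : ZMod h ≃ ZMod h}
    {W : ZMod h → ZMod (m * h)} {p q : ZMod (m * h)} {C : ZMod m}
    {phi : ZMod h × ZMod m ≃ ZMod (m * h)} (H : Chart m h π W p q C phi) :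
    ∑ i, W i = psi m h C := by
  rw [← sum_range_zmod]
  exact H.sum m2 h2

/-- Not Hamiltonian, in terms of the sum of the translations. -/
theorem Chart.not_unit {m h : ℕ} [NeZero h] (m2 : 2 ≤ m) (h2 : 2 ≤ h) {π : ZMod h ≃ ZMod h}
    {W : ZMod h → ZMod (m * h)} {p q : ZMod (m * h)} {C : ZMod m}
    {phi : ZMod h × ZMod m ≃ ZMod (m * h)} (H : Chart m h π W p q C phi) (hC : ¬ IsUnit C)
    (γ : ZMod m) (hγ : ∑ i, W i = psi m h γ) : ¬ IsUnit γ := by
  rw [H.sum_univ m2 h2] at hγ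
  rwa [← psi_inj m h (by omega) hγ]

end Pool.Agent.P45
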