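import Pool.Agent.Lib.P45dba8.EvenComp

/-! # MP_45dba8: paths with a block, unused labels outside `3 ℤ` -/

set_option autoImplicit false

namespace Pool.Agent.P45

open Cert

/-! ### Counting: multiples of three and boundaries -/

/-- The number of boundaries of `p` in `[1, N-1]`. -/
def bdn (p : ℕ → Bool) (N : ℕ) : ℕ := ((Finset.Icc 1 (N - 1)).filter (fun j => p j ≠ p (j + 1))).card

/-- The number of `i` in `[1, q]` with `p (3 i)`. -/
def c3n (p : ℕ → Bool) (q : ℕ) : ℕ := ((Finset.Icc 1 q).filter (fun i => p (3 * i) = true)).card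

theorem bdn_succ (p : ℕ → Bool) {N : ℕ} (hN : 1 ≤ N) :
    bdn p (N + 1) = bdn p N + (if p N ≠ p (N + 1) then 1 else 0) := by
  unfold bdn
  have e1 : Finset.Icc 1 (N + 1 - 1) = insert N (Finset.Icc 1 (N - 1)) := by
    ext j
    rw [Finset.mem_insert, Finset.mem_Icc, Finset.mem_Icc]
    omega
  have hnot : N ∉ Finset.Icc 1 (N - 1) := by
    rw [Finset.mem_Icc]; omega
  rw [e1, Finset.filter_insert]
  split_ifs with h
  · rw [Finset.card_insert_of_notMem (fun h' => hnot (Finset.mem_filter.1 h').1)]
  · rfl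

theorem bdn_mono (p : ℕ → Bool) {M N : ℕ} (h : M ≤ N) : bdn p M ≤ bdn p N := by
  unfold bdn
  apply Finset.card_le_card
  intro j hj
  rw [Finset.mem_filter, Finset.mem_Icc] at hj ⊢
  exact ⟨⟨hj.1.1, by omega⟩, hj.2⟩

theorem c3n_succ (p : ℕ → Bool) (q : ℕ) :
    c3n p (q + 1) = c3n p q + (if p (3 * (q + 1)) = true then 1 else 0) := by
  unfold c3n
  have e1 : Finset.Icc 1 (q + 1) = insert (q + 1) (Finset.Icc 1 q) := by
    ext j
    rw [Finset.mem_insert, Finset.mem_Icc, Finset.mem_Icc]
    omega
  rw [e1, Finset.filter_insert]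
  split_ifs with h
  · rw [Finset.card_insert_of_notMem (fun h' => by
      have := (Finset.mem_Icc.1 (Finset.mem_filter.1 h').1).2
      omega)]
  · rfl

theorem bd_three (p : ℕ → Bool) (N : ℕ)
    (hno : ∀ i, 1 ≤ i → 3 * i + 3 ≤ N → ¬ (p (3 * i) = true ∧ p (3 * i + 1) = true ∧
      p (3 * i + 2) = true ∧ p (3 * i + 3) = true)) :
    ∀ q, 1 ≤ q → 3 * q ≤ N → 2 * c3n p q ≤ bdn p (3 * q) + 2 ∧
      (p (3 * q) = false → 1 ≤ c3n p q → 2 * c3n p q ≤ bdn p (3 * q) + 1) := by
  intro q hq
  induction q, hq using Nat.le_induction with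
  | base =>
    intro _
    have h1 : c3n p 1 = if p 3 = true then 1 else 0 := by
      have := c3n_succ p 0
      have h0 : c3n p 0 = 0 := by unfold c3n; simp
      rw [h0, Nat.zero_add, Nat.zero_add] at this
      exact this
    rw [h1]
    refine ⟨by split_ifs <;> omega, fun h h' => ?_⟩
    have h2 : p 3 = false := h
    rw [h2] at h'
    simp at h'
  | succ q hq ih =>
    intro hN
    obtain ⟨i1, i2⟩ := ih (by omega)
    have e : 3 * (q + 1) = 3 * q + 1 + 1 + 1 := by ring
    have b1 := bdn_succ p (N := 3 * q) (by omega)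
    have b2 := bdn_succ p (N := 3 * q + 1) (by omega)
    have b3 := bdn_succ p (N := 3 * q + 1 + 1) (by omega)
    have c1 := c3n_succ p q
    have hn := hno q hq (by omega)
    rw [e] at c1 ⊢
    rw [show 3 * q + 2 = 3 * q + 1 + 1 by ring, show 3 * q + 3 = 3 * q + 1 + 1 + 1 by ring] at hn
    rcases h0 : p (3 * q) with _ | _ <;> rcases h1 : p (3 * q + 1) with _ | _ <;>
      rcases h2 : p (3 * q + 1 + 1) with _ | _ <;> rcases h3 : p (3 * q + 1 + 1 + 1) with _ | _ <;>
      simp only [h0, h1, h2, h3] at b1 b2 b3 c1 hn i2 <;>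
      simp at b1 b2 b3 c1 hn i2 <;>
      refine ⟨?_, ?_⟩ <;> (try intro h4) <;> (try intro h5) <;> (try simp at h4) <;> omega

/-! ### Plain paths -/

/-- Paths with plain steps only. -/
inductive PlainR (w : ℕ → Bool) : ℕ → ℕ → Prop
  | init : PlainR w 0 0
  | wait {d m : ℕ} : PlainR w d m → PlainR w (d + 1) m
  | step {d m : ℕ} : PlainR w d m → w d = decide (m % 2 = 0) → PlainR w (d + 1) (m + 1)

/-- The number of boundaries up to the depth `d`. -/
def bw (w : ℕ → Bool) (d : ℕ) : ℕ := ((Finset.range d).filter (fun t => G w t ≠ G w (t + 1))).card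

theorem bw_succ (w : ℕ → Bool) (d : ℕ) :
    bw w (d + 1) = bw w d + (if G w d ≠ w d then 1 else 0) := by
  unfold bw
  rw [Finset.range_add_one, Finset.filter_insert]
  have h : G w (d + 1) = w d := rfl
  rw [h]
  split_ifs with h1
  · rw [Finset.card_insert_of_notMem (fun h' => by
      have := Finset.mem_range.1 (Finset.mem_filter.1 h').1
      omega)]
  · rfl

theorem bw_mono (w : ℕ → Bool) {d e : ℕ} (h : d ≤ e) : bw w d ≤ bw w e := by
  unfold bw
  apply Finset.card_le_card
  intro j hj
  rw [Finset.mem_filter, Finset.mem_range] at hj ⊢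
  exact ⟨by omega, hj.2⟩

theorem PlainR.count {w : ℕ → Bool} {d m : ℕ} (h : PlainR w d m) :
    m ≤ bw w d ∧ (G w d = decide (m % 2 = 0) → m + 1 ≤ bw w d) := by
  induction h with
  | init => exact ⟨Nat.zero_le _, fun h => absurd h (by simp [G])⟩
  | @wait d m _ ih =>
    obtain ⟨i1, i2⟩ := ih
    have hb := bw_succ w d
    refine ⟨by split_ifs at hb <;> omega, fun h => ?_⟩
    have h' : w d = decide (m % 2 = 0) := h
    by_cases h1 : G w d = w d
    · have := i2 (h1.trans h')
      split_ifs at hb <;> omega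
    · rw [if_pos h1] at hb
      omega
  | @step d m _ hw ih =>
    obtain ⟨i1, i2⟩ := ih
    have hb := bw_succ w d
    refine ⟨?_, fun h => ?_⟩
    · by_cases h1 : G w d = w d
      · have := i2 (h1.trans hw)
        split_ifs at hb <;> omega
      · rw [if_pos h1] at hb
        omega
    · exfalso
      have h' : w d = decide ((m + 1) % 2 = 0) := h
      rw [hw] at h'
      rcases Nat.mod_two_eq_zero_or_one m with hp | hp
      · rw [decide_eq_true hp, decide_eq_false (by omega)] at h'
        exact absurd h' (by decide)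
      · rw [decide_eq_false (by omega), decide_eq_true (by omega)] at h'
        exact absurd h' (by decide)

theorem dec_par {m e : ℕ} (he : e % 2 = 0) (hm : e ≤ m) (j : ℕ) :
    decide ((m + j) % 2 = 0) = decide ((m - e + j) % 2 = 0) := by
  have : (m + j) % 2 = (m - e + j) % 2 := by omega
  rw [this]

/-- An even number of plain steps at the start can be dropped. -/
theorem PlainR.drop {w : ℕ → Bool} {d m : ℕ} (h : PlainR w d m) :
    ∀ e, e % 2 = 0 → e ≤ m → PlainR w d (m - e) := by
  induction h with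
  | init => intro e _ he; rw [Nat.zero_sub]; exact PlainR.init
  | @wait d m _ ih => intro e he hm; exact (ih e he hm).wait
  | @step d m hr hw ih =>
    intro e he hm
    by_cases h1 : e ≤ m
    · have h2 := ih e he h1
      rw [show m + 1 - e = m - e + 1 by omega]
      refine h2.step ?_
      rw [hw]
      have := dec_par he h1 0
      rwa [Nat.add_zero, Nat.add_zero] at this
    · have h2 : m + 1 - e = 0 := by omega
      rw [h2]
      have : ∀ d, PlainR w d 0 := by
        intro d
        induction d with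
        | zero => exact PlainR.init
        | succ d ih => exact ih.wait
      exact this _

/-! ### Paths with more information -/

/-- The invariant with the additional facts on adjacent depths. -/
structure QInv (w : ℕ → Bool) (D : ℕ → ℕ) (d m : ℕ) : Prop where
  pinv : PInv w D d m
  last1 : ∀ i < m, D i + 1 = d → i + 1 = m
  adj : ∀ i < m, ∀ j < m, D j = D i + 1 → i % 2 = j % 2 →
    (∃ t, t + 1 = D i ∧ w t ≠ w (D i)) ∨ w (D i + 2) ≠ w (D i)

/-- The facts on a block which is not plain. -/
def BlkQ (r : List ℕ) (K : ℕ) : Prop :=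
  (∀ j < r.length, 1 ≤ bfun r j ∧ bfun r j + 1 < K) ∧
  (∀ i < r.length, ∀ j < r.length, (bfun r j = bfun r i + 1 ∧ i % 2 = j % 2) →
    ∃ t ∈ List.range r.length, (bfun r t + 1 = bfun r i ∨ bfun r t = bfun r i + 2) ∧ t % 2 ≠ i % 2) ∧
  (∀ q < 2, ∃ i ∈ List.range r.length, ∃ j ∈ List.range r.length, i % 2 = q ∧ j % 2 = q ∧ bfun r j = bfun r i + 1) ∧
  4 ≤ r.length ∧ r.length ≤ 8

instance (r : List ℕ) (K : ℕ) : Decidable (BlkQ r K) := by
  unfold BlkQ
  infer_instance

theorem P4_Q : ∀ b ∈ P4, b = ([0], 1) ∨ BlkQ b.1 b.2 := by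
  decide

theorem PInv.ext2 {w : ℕ → Bool} {D : ℕ → ℕ} {d m : ℕ} (h : PInv w D d m) {ρ : ℕ → ℕ} {g K : ℕ}
    (b0 : 1 ≤ g) (b1 : ∀ j < g, slot ρ j ≤ ρ j) (b2 : ∀ j < g, ρ j < K)
    (b3 : ∀ i < g, ∀ j < g, ρ i = ρ j → i = j)
    (b4 : ∀ i < g + 1, ∀ j < g + 1, i % 2 = j % 2 → slot ρ i = slot ρ j → i = j)
    (b5 : ∀ i < g + 1, i % 2 = g % 2 → slot ρ i ≤ slot ρ g)
    (b6 : ∀ i < g + 1, i % 2 ≠ g % 2 → slot ρ i + slot ρ g < K)
    (hw : ∀ j < g, w (d + ρ j) = decide ((m + j) % 2 = 0)) :
    PInv w (fun i => if i < m then D i else d + ρ (i - m)) (d + K) (m + g) := by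
  obtain ⟨D', hD'⟩ : ∃ D' : ℕ → ℕ, D' = fun i => if i < m then D i else d + ρ (i - m) := ⟨_, rfl⟩
  rw [← hD']
  have e1 : ∀ i < m, D' i = D i := fun i hi => by rw [hD']; simp only [if_pos hi]
  have e2 : ∀ j, D' (m + j) = d + ρ j := fun j => by
    rw [hD']
    simp only [show ¬ m + j < m by omega, if_false, Nat.add_sub_cancel_left]
  have s1 : ∀ i ≤ m, slot D' i = slot D i := slot_congr e1
  have hdm := h.dm
  have s2 : ∀ j ≤ g, slot D' (m + j) = (if j % 2 = 0 then slot D m else d - slot D m) + slot ρ j := by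
    intro j
    induction j with
    | zero =>
      intro _
      rw [Nat.add_zero, s1 m le_rfl]
      simp only [Nat.zero_mod, if_true]
      rfl
    | succ j ih =>
      intro hj
      have ihj := ih (by omega)
      have hle := b1 j (by omega)
      show D' (m + j) - slot D' (m + j) = _ + (ρ j - slot ρ j)
      rw [ihj, e2]
      rcases Nat.mod_two_eq_zero_or_one j with hp | hp
      · have hp' : ¬ (j + 1) % 2 = 0 := by omega
        rw [if_pos hp, if_neg hp']
        omega
      · have hp' : (j + 1) % 2 = 0 := by omega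
        rw [if_neg (by omega), if_pos hp']
        omega
  -- old vertices
  have o1 : ∀ i ≤ m, i % 2 = m % 2 → slot D' i ≤ slot D m := fun i hi hp => by
    rw [s1 i hi]; exact h.last i hi hp
  have o2 : ∀ i ≤ m, i % 2 ≠ m % 2 → slot D' i + slot D m < d := fun i hi hp => by
    rw [s1 i hi]; exact h.other i hi hp
  have z0 : slot ρ 0 = 0 := rfl
  have hpos : ∀ j ≤ g, 1 ≤ j → j % 2 = 0 → 1 ≤ slot ρ j := by
    intro j hj h1 hp
    by_contra hc
    have := b4 j (by omega) 0 (by omega) (by omega) (by rw [z0]; omega)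
    omega
  refine ⟨?_, ?_, ?_, ?_, ?_, ?_, ?_, ?_⟩
  · intro i hi
    by_cases him : i < m
    · rw [s1 i him.le, e1 i him]
      exact h.le i him
    · obtain ⟨j, rfl⟩ : ∃ j, i = m + j := ⟨i - m, by omega⟩
      rw [s2 j (by omega), e2]
      have := b1 j (by omega)
      split_ifs <;> omega
  · intro i hi
    by_cases him : i < m
    · rw [e1 i him]
      have := h.lt i him
      omega
    · obtain ⟨j, rfl⟩ : ∃ j, i = m + j := ⟨i - m, by omega⟩
      rw [e2]
      have := b2 j (by omega)
      omega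
  · intro i hi j hj hij
    by_cases him : i < m
    · by_cases hjm : j < m
      · rw [e1 i him, e1 j hjm] at hij
        exact h.inj i him j hjm hij
      · obtain ⟨j', rfl⟩ : ∃ j', j = m + j' := ⟨j - m, by omega⟩
        rw [e1 i him, e2] at hij
        have := h.lt i him
        omega
    · obtain ⟨i', rfl⟩ : ∃ i', i = m + i' := ⟨i - m, by omega⟩
      by_cases hjm : j < m
      · rw [e2, e1 j hjm] at hij
        have := h.lt j hjm
        omega
      · obtain ⟨j', rfl⟩ : ∃ j', j = m + j' := ⟨j - m, by omega⟩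
        rw [e2, e2] at hij
        have := b3 i' (by omega) j' (by omega) (by omega)
        omega
  · intro i hi
    by_cases him : i < m
    · rw [e1 i him]
      exact h.letter i him
    · obtain ⟨j, rfl⟩ : ∃ j, i = m + j := ⟨i - m, by omega⟩
      rw [e2]
      exact hw j (by omega)
  · intro i hi j hj hp hs
    by_cases him : i ≤ m
    · by_cases hjm : j ≤ m
      · rw [s1 i him, s1 j hjm] at hs
        exact h.sinj i him j hjm hp hs
      · obtain ⟨j', rfl⟩ : ∃ j', j = m + j' := ⟨j - m, by omega⟩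
        exfalso
        rw [s2 j' (by omega)] at hs
        rcases Nat.mod_two_eq_zero_or_one j' with hq | hq
        · rw [if_pos hq] at hs
          have h1 := hpos j' (by omega) (by omega) hq
          have h2 := o1 i him (by omega)
          omega
        · rw [if_neg (by omega)] at hs
          have h2 := o2 i him (by omega)
          omega
    · obtain ⟨i', rfl⟩ : ∃ i', i = m + i' := ⟨i - m, by omega⟩
      by_cases hjm : j ≤ m
      · exfalso
        rw [s2 i' (by omega)] at hs
        rcases Nat.mod_two_eq_zero_or_one i' with hq | hq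
        · rw [if_pos hq] at hs
          have h1 := hpos i' (by omega) (by omega) hq
          have h2 := o1 j hjm (by omega)
          omega
        · rw [if_neg (by omega)] at hs
          have h2 := o2 j hjm (by omega)
          omega
      · obtain ⟨j', rfl⟩ : ∃ j', j = m + j' := ⟨j - m, by omega⟩
        rw [s2 i' (by omega), s2 j' (by omega)] at hs
        have hp' : i' % 2 = j' % 2 := by omega
        rw [hp'] at hs
        have := b4 i' (by omega) j' (by omega) hp' (by omega)
        omega
  · intro i hi hp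
    rw [s2 g le_rfl]
    by_cases him : i ≤ m
    · rcases Nat.mod_two_eq_zero_or_one g with hq | hq
      · rw [if_pos hq]
        have h2 := o1 i him (by omega)
        omega
      · rw [if_neg (by omega)]
        have h2 := o2 i him (by omega)
        omega
    · obtain ⟨i', rfl⟩ : ∃ i', i = m + i' := ⟨i - m, by omega⟩
      rw [s2 i' (by omega)]
      have hp' : i' % 2 = g % 2 := by omega
      rw [hp']
      have := b5 i' (by omega) hp'
      omega
  · intro i hi hp
    rw [s2 g le_rfl]
    by_cases him : i ≤ m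
    · rcases Nat.mod_two_eq_zero_or_one g with hq | hq
      · rw [if_pos hq]
        have h2 := o2 i him (by omega)
        have h3 := b6 1 (by omega) (by omega)
        omega
      · rw [if_neg (by omega)]
        have h2 := o1 i him (by omega)
        have h3 := b6 0 (by omega) (by omega)
        rw [z0] at h3
        omega
    · obtain ⟨i', rfl⟩ : ∃ i', i = m + i' := ⟨i - m, by omega⟩
      rw [s2 i' (by omega)]
      have hp' : i' % 2 ≠ g % 2 := by omega
      have := b6 i' (by omega) hp'
      rcases Nat.mod_two_eq_zero_or_one g with hq | hq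
      · rw [if_pos hq, if_neg (by omega)]
        omega
      · rw [if_neg (show ¬ g % 2 = 0 by omega), if_pos (by omega)]
        omega
  · rw [s2 g le_rfl]
    rcases Nat.mod_two_eq_zero_or_one g with hq | hq
    · rw [if_pos hq]
      have h3 := b6 1 (by omega) (by omega)
      omega
    · rw [if_neg (by omega)]
      have h3 := b6 0 (by omega) (by omega)
      rw [z0] at h3
      omega


theorem PInv.block2 {w : ℕ → Bool} {D : ℕ → ℕ} {d m : ℕ} (h : PInv w D d m) {r : List ℕ} {K : ℕ}
    (hb : BlkOK r K) (hw : ∀ j < r.length, w (d + bfun r j) = decide ((m + j) % 2 = 0)) :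
    PInv w (fun i => if i < m then D i else d + bfun r (i - m)) (d + K) (m + r.length) := by
  obtain ⟨b0, b1, b2, b3, b4, b5, b6⟩ := hb
  exact h.ext2 b0 b1 b2 b3 b4 b5 b6 hw

theorem QInv.init (w : ℕ → Bool) (D : ℕ → ℕ) : QInv w D 0 0 where
  pinv := PInv.init w D
  last1 := by intro i hi; omega
  adj := by intro i hi; omega

theorem QInv.wait {w : ℕ → Bool} {D : ℕ → ℕ} {d m : ℕ} (h : QInv w D d m) : QInv w D (d + 1) m where
  pinv := h.pinv.wait
  last1 := by
    intro i hi he
    have := h.pinv.lt i hi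
    omega
  adj := h.adj

theorem QInv.block {w : ℕ → Bool} {D : ℕ → ℕ} {d m : ℕ} (h : QInv w D d m) (b : List ℕ × ℕ)
    (hb : b ∈ P4) (hw : ∀ j < b.1.length, w (d + bfun b.1 j) = decide ((m + j) % 2 = 0)) :
    QInv w (fun i => if i < m then D i else d + bfun b.1 (i - m)) (d + b.2) (m + b.1.length) := by
  have hp := h.pinv.block2 (P4_ok b hb) hw
  obtain ⟨D', hD'⟩ : ∃ D' : ℕ → ℕ, D' = fun i => if i < m then D i else d + bfun b.1 (i - m) :=
    ⟨_, rfl⟩
  rw [← hD'] at hp ⊢
  have e1 : ∀ i < m, D' i = D i := fun i hi => by rw [hD']; simp only [if_pos hi]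
  have e2 : ∀ j, D' (m + j) = d + bfun b.1 j := fun j => by
    rw [hD']
    simp only [show ¬ m + j < m by omega, if_false, Nat.add_sub_cancel_left]
  have hlt : ∀ i < m, D i < d := h.pinv.lt
  rcases P4_Q b hb with hb1 | ⟨q1, q2, -, q4, -⟩
  · -- plain
    subst hb1
    have hl : ([0] : List ℕ).length = 1 := rfl
    have hf : bfun [0] 0 = 0 := rfl
    have e3 : D' m = d := by
      have := e2 0
      rw [hf] at this
      exact this
    refine ⟨hp, ?_, ?_⟩
    · intro i hi he
      have hi' : i < m + 1 := hi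
      show i + 1 = m + 1
      by_cases h1 : i < m
      · rw [e1 i h1] at he
        have := hlt i h1
        have he' : D i + 1 = d + 1 := he
        omega
      · omega
    · intro i hi j hj hij hpar
      have hi' : i < m + 1 := hi
      have hj' : j < m + 1 := hj
      by_cases h1 : i < m
      · by_cases h2 : j < m
        · rw [e1 i h1]
          rw [e1 i h1, e1 j h2] at hij
          exact h.adj i h1 j h2 hij hpar
        · have h3 : j = m := by omega
          subst h3
          rw [e1 i h1, e3] at hij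
          have := h.last1 i h1 hij.symm
          omega
      · have h3 : i = m := by omega
        subst h3
        rw [e3] at hij
        by_cases h2 : j < i
        · rw [e1 j h2] at hij
          have := hlt j h2
          omega
        · have h4 : j = i := by omega
          subst h4
          omega
  · -- block
    refine ⟨hp, ?_, ?_⟩
    · intro i hi he
      exfalso
      by_cases h1 : i < m
      · rw [e1 i h1] at he
        have := hlt i h1
        have := q1 0 (by omega)
        omega
      · obtain ⟨j, rfl⟩ : ∃ j, i = m + j := ⟨i - m, by omega⟩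
        rw [e2] at he
        have := q1 j (by omega)
        omega
    · intro i hi j hj hij hpar
      by_cases h1 : i < m
      · by_cases h2 : j < m
        · rw [e1 i h1]
          rw [e1 i h1, e1 j h2] at hij
          exact h.adj i h1 j h2 hij hpar
        · obtain ⟨j', rfl⟩ : ∃ j', j = m + j' := ⟨j - m, by omega⟩
          rw [e1 i h1, e2] at hij
          have := hlt i h1
          have := q1 j' (by omega)
          omega
      · obtain ⟨i', rfl⟩ : ∃ i', i = m + i' := ⟨i - m, by omega⟩
        by_cases h2 : j < m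
        · rw [e2, e1 j h2] at hij
          have := hlt j h2
          omega
        · obtain ⟨j', rfl⟩ : ∃ j', j = m + j' := ⟨j - m, by omega⟩
          rw [e2, e2] at hij
          obtain ⟨t, ht, ht2, ht3⟩ := q2 i' (by omega) j' (by omega) ⟨by omega, by omega⟩
          have ht' := List.mem_range.1 ht
          have w1 := hw t ht'
          have w2 := hw i' (by omega)
          have hne : w (d + bfun b.1 t) ≠ w (d + bfun b.1 i') := by
            rw [w1, w2]
            rcases Nat.mod_two_eq_zero_or_one (m + t) with hq | hq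
            · rw [decide_eq_true hq, decide_eq_false (by omega)]
              decide
            · rw [decide_eq_false (by omega), decide_eq_true (by omega)]
              decide
          rw [e2]
          rcases ht2 with ht2 | ht2
          · left
            exact ⟨d + bfun b.1 t, by omega, hne⟩
          · right
            rw [show d + bfun b.1 i' + 2 = d + bfun b.1 t by omega]
            exact hne

theorem PlainR.qinv {w : ℕ → Bool} {d m : ℕ} (h : PlainR w d m) : ∃ D, QInv w D d m := by
  induction h with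
  | init => exact ⟨fun _ => 0, QInv.init w _⟩
  | wait _ ih =>
    obtain ⟨D, hD⟩ := ih
    exact ⟨D, hD.wait⟩
  | @step d m _ hw ih =>
    obtain ⟨D, hD⟩ := ih
    refine ⟨_, hD.block ([0], 1) (by decide) ?_⟩
    intro j hj
    have hj' : j < 1 := hj
    have h0 : j = 0 := by omega
    subst h0
    exact hw

/-- Two adjacent depths among the first `n` ones, of both parities. -/
def Adj2 (D : ℕ → ℕ) (n : ℕ) : Prop :=
  ∀ q < 2, ∃ i < n, ∃ j < n, i % 2 = q ∧ j % 2 = q ∧ D j = D i + 1

/-- A path is plain, or its first block is complete after any even number of plain steps has been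
dropped. -/
theorem reach_cases {w : ℕ → Bool} {d m : ℕ} (h : Reach P4 w d m) :
    PlainR w d m ∨ ∃ p g, g ≤ 8 ∧ p + g ≤ m ∧ p ≤ bw w d ∧ ∀ e, e % 2 = 0 → e ≤ p →
      ∃ D, QInv w D d (m - e) ∧ Adj2 D (p - e + g) := by
  induction h with
  | init => exact Or.inl PlainR.init
  | @wait d m _ ih =>
    rcases ih with ih | ⟨p, g, h1, h2, h3, h4⟩
    · exact Or.inl ih.wait
    · refine Or.inr ⟨p, g, h1, h2, h3.trans (bw_mono w (by omega)), fun e he hep => ?_⟩
      obtain ⟨D, hD, hA⟩ := h4 e he hep
      exact ⟨D, hD.wait, hA⟩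
  | @block d m b hb _ hw ih =>
    rcases ih with ih | ⟨p, g, h1, h2, h3, h4⟩
    · rcases P4_Q b hb with hb1 | hq
      · subst hb1
        left
        have := hw 0 (by show 0 < 1; omega)
        exact ih.step this
      · right
        obtain ⟨q1, q2, q3, q4, q5⟩ := hq
        refine ⟨m, b.1.length, q5, le_rfl, ih.count.1.trans (bw_mono w (by omega)),
          fun e he hem => ?_⟩
        obtain ⟨D, hD⟩ := (ih.drop e he hem).qinv
        refine ⟨fun i => if i < m - e then D i else d + bfun b.1 (i - (m - e)), ?_, ?_⟩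
        · rw [show m + b.1.length - e = m - e + b.1.length by omega]
          refine hD.block b hb ?_
          intro j hj
          rw [hw j hj]
          exact dec_par he hem j
        · intro q hq
          obtain ⟨i, hi, j, hj, h5, h6, h7⟩ := q3 ((q + (m - e)) % 2) (Nat.mod_lt _ (by norm_num))
          have hi' := List.mem_range.1 hi
          have hj' := List.mem_range.1 hj
          refine ⟨m - e + i, by omega, m - e + j, by omega, by omega, by omega, ?_⟩
          simp only [show ¬ m - e + j < m - e by omega, show ¬ m - e + i < m - e by omega, if_false,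
            Nat.add_sub_cancel_left]
          omega
    · refine Or.inr ⟨p, g, h1, by omega, h3.trans (bw_mono w (by omega)), fun e he hep => ?_⟩
      obtain ⟨D, hD, hA⟩ := h4 e he hep
      refine ⟨fun i => if i < m - e then D i else d + bfun b.1 (i - (m - e)), ?_, ?_⟩
      · rw [show m + b.1.length - e = m - e + b.1.length by omega]
        refine hD.block b hb ?_
        intro j hj
        rw [hw j hj]
        exact dec_par he (by omega) j
      · intro q hq
        obtain ⟨i, hi, j, hj, h5, h6, h7⟩ := hA q hq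
        refine ⟨i, hi, j, hj, h5, h6, ?_⟩
        simp only [show i < m - e by omega, show j < m - e by omega, if_true]
        exact h7

/-- A path with exactly `s` steps (`s` odd) which contains a complete block, or there are `s`
boundaries. -/
theorem reach_window {w : ℕ → Bool} {d m s : ℕ} (h : Reach P4 w d m) (hm : m % 2 = 1)
    (hs : s % 2 = 1) (hsm : s ≤ m) (h9 : 9 ≤ s) (hb : bw w d < s) :
    ∃ D, ∃ m', s ≤ m' ∧ QInv w D d m' ∧ Adj2 D s := by
  rcases reach_cases h with h1 | ⟨p, g, h1, h2, h3, h4⟩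
  · have := h1.count.1
    omega
  · by_cases h5 : p + g ≤ s
    · obtain ⟨D, hD, hA⟩ := h4 0 rfl (by omega)
      refine ⟨D, m - 0, by omega, hD, ?_⟩
      intro q hq
      obtain ⟨i, hi, j, hj, h⟩ := hA q hq
      exact ⟨i, by omega, j, by omega, h⟩
    · have he : ((p + g - s) + (p + g - s) % 2) % 2 = 0 := by omega
      obtain ⟨D, hD, hA⟩ := h4 ((p + g - s) + (p + g - s) % 2) he (by omega)
      refine ⟨D, _, by omega, hD, ?_⟩
      intro q hq
      obtain ⟨i, hi, j, hj, h⟩ := hA q hq
      exact ⟨i, by omega, j, by omega, h⟩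


/-! ### Labels -/

theorem G_dword {k : ℕ} {A : Finset ℕ} (h2k : 2 * k ∉ A) {t : ℕ} :
    G (dword k A) t = decide (2 * k - t ∈ A) := by
  cases t with
  | zero =>
    show false = decide (2 * k ∈ A)
    rw [decide_eq_false h2k]
  | succ i =>
    show decide (2 * k - 1 - i ∈ A) = decide (2 * k - (i + 1) ∈ A)
    rw [show 2 * k - 1 - i = 2 * k - (i + 1) by omega]

theorem bw_eq_bdn {k : ℕ} {A : Finset ℕ} (h2k : 2 * k ∉ A) :
    bw (dword k A) (2 * k - 1) = bdn (fun j => decide (j ∈ A)) (2 * k) := by
  unfold bw bdn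
  refine Finset.card_nbij' (fun t => 2 * k - 1 - t) (fun j => 2 * k - 1 - j) ?_ ?_ ?_ ?_
  · intro t ht
    rw [Finset.mem_coe, Finset.mem_filter, Finset.mem_range] at ht
    rw [Finset.mem_coe, Finset.mem_filter, Finset.mem_Icc]
    obtain ⟨h1, h2⟩ := ht
    rw [G_dword h2k, G_dword h2k] at h2
    have e1 : 2 * k - 1 - t + 1 = 2 * k - t := by omega
    have e2 : 2 * k - 1 - t = 2 * k - (t + 1) := by omega
    have h3 : decide (2 * k - 1 - t ∈ A) ≠ decide (2 * k - 1 - t + 1 ∈ A) := by
      rw [e1, e2]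
      exact fun h => h2 h.symm
    have h4 : 1 ≤ 2 * k - 1 - t := by omega
    have h5 : 2 * k - 1 - t ≤ 2 * k - 1 := by omega
    exact ⟨⟨h4, h5⟩, h3⟩
  · intro j hj
    rw [Finset.mem_coe, Finset.mem_filter, Finset.mem_Icc] at hj
    rw [Finset.mem_coe, Finset.mem_filter, Finset.mem_range]
    obtain ⟨h1, h2⟩ := hj
    have h2' : decide (j ∈ A) ≠ decide (j + 1 ∈ A) := h2
    have e1 : 2 * k - (2 * k - 1 - j) = j + 1 := by omega
    have e2 : 2 * k - (2 * k - 1 - j + 1) = j := by omega
    have h3 : G (dword k A) (2 * k - 1 - j) ≠ G (dword k A) (2 * k - 1 - j + 1) := by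
      rw [G_dword h2k, G_dword h2k, e1, e2]
      exact fun h => h2' h.symm
    refine ⟨?_, h3⟩
    show 2 * k - 1 - j < 2 * k - 1
    omega
  · intro t ht
    rw [Finset.mem_coe, Finset.mem_filter, Finset.mem_range] at ht
    show 2 * k - 1 - (2 * k - 1 - t) = t
    omega
  · intro j hj
    rw [Finset.mem_coe, Finset.mem_filter, Finset.mem_Icc] at hj
    show 2 * k - 1 - (2 * k - 1 - j) = j
    omega

theorem bdn_compl {k : ℕ} (A : Finset ℕ) :
    bdn (fun j => decide (j ∈ Finset.Icc 1 (2 * k) \ A)) (2 * k) =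
      bdn (fun j => decide (j ∈ A)) (2 * k) := by
  unfold bdn
  congr 1
  apply Finset.filter_congr
  intro j hj
  rw [Finset.mem_Icc] at hj
  have e : ∀ i, 1 ≤ i → i ≤ 2 * k → decide (i ∈ Finset.Icc 1 (2 * k) \ A) = !decide (i ∈ A) := by
    intro i h1 h2
    by_cases h : i ∈ A
    · rw [decide_eq_true h, decide_eq_false (fun h' => (Finset.mem_sdiff.1 h').2 h)]
      rfl
    · rw [decide_eq_false h, decide_eq_true (Finset.mem_sdiff.2 ⟨Finset.mem_Icc.2 ⟨h1, h2⟩, h⟩)]
      rfl
  show decide (j ∈ Finset.Icc 1 (2 * k) \ A) ≠ decide (j + 1 ∈ Finset.Icc 1 (2 * k) \ A) ↔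
    decide (j ∈ A) ≠ decide (j + 1 ∈ A)
  rw [e j hj.1 (by omega), e (j + 1) (by omega) (by omega)]
  constructor
  · intro h h'
    exact h (by rw [h'])
  · intro h h'
    exact h (by
      have := congrArg (fun b => !b) h'
      simpa using this)

theorem Bd_eq_bdn {k : ℕ} (A : Finset ℕ) :
    (Bd A (Finset.Icc 1 (2 * k) \ A) (2 * k)).card = bdn (fun j => decide (j ∈ A)) (2 * k) := by
  unfold Bd bdn
  congr 1
  apply Finset.filter_congr
  intro j hj
  rw [Finset.mem_Icc] at hj
  by_cases h : j ∈ A
  · by_cases h' : j + 1 ∈ A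
    · simp [h, h']
    · have : j + 1 ∈ Finset.Icc 1 (2 * k) \ A :=
        Finset.mem_sdiff.2 ⟨Finset.mem_Icc.2 (by omega), h'⟩
      simp [h, h', this]
  · by_cases h' : j + 1 ∈ A
    · have : j ∈ Finset.Icc 1 (2 * k) \ A :=
        Finset.mem_sdiff.2 ⟨Finset.mem_Icc.2 (by omega), h⟩
      simp [h, h', this]
    · simp [h, h']

theorem c3n_eq {k : ℕ} {H : Finset ℕ} (hH : H ⊆ Finset.Icc 1 (2 * k)) (h3 : (4 * k + 1) % 3 = 0) :
    c3n (fun j => decide (j ∈ H)) ((2 * k - 1) / 3) = (H.filter (fun j => 3 ∣ j)).card := by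
  unfold c3n
  refine Finset.card_nbij' (fun i => 3 * i) (fun j => j / 3) ?_ ?_ ?_ ?_
  · intro i hi
    rw [Finset.mem_coe, Finset.mem_filter, Finset.mem_Icc, decide_eq_true_iff] at hi
    rw [Finset.mem_coe, Finset.mem_filter]
    exact ⟨hi.2, Dvd.intro i rfl⟩
  · intro j hj
    rw [Finset.mem_coe, Finset.mem_filter] at hj
    obtain ⟨h1, h2⟩ := hj
    have h4 := Finset.mem_Icc.1 (hH h1)
    obtain ⟨c, rfl⟩ := h2
    rw [Finset.mem_coe, Finset.mem_filter, Finset.mem_Icc, decide_eq_true_iff]
    show (1 ≤ 3 * c / 3 ∧ 3 * c / 3 ≤ (2 * k - 1) / 3) ∧ 3 * (3 * c / 3) ∈ H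
    rw [show 3 * c / 3 = c by omega]
    exact ⟨by omega, h1⟩
  · intro i _
    show 3 * i / 3 = i
    omega
  · intro j hj
    rw [Finset.mem_coe, Finset.mem_filter] at hj
    obtain ⟨c, hc⟩ := hj.2
    show 3 * (j / 3) = j
    omega

/-- Many multiples of three and few boundaries: four labels `3 i, ..., 3 i + 3` in `H`. -/
theorem exists_four {k q : ℕ} {H : Finset ℕ} (hH : H ⊆ Finset.Icc 1 (2 * k))
    (h3 : (4 * k + 1) % 3 = 0) (hc : q + 1 ≤ (H.filter (fun j => 3 ∣ j)).card)
    (hb : bdn (fun j => decide (j ∈ H)) (2 * k) < 2 * q) :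
    ∃ i, 1 ≤ i ∧ 3 * i + 3 ≤ 2 * k - 1 ∧ 3 * i ∈ H ∧ 3 * i + 1 ∈ H ∧ 3 * i + 2 ∈ H ∧
      3 * i + 3 ∈ H := by
  by_contra hno
  push Not at hno
  have hk : 1 ≤ (2 * k - 1) / 3 := by
    by_contra h
    have h0 : (2 * k - 1) / 3 = 0 := by omega
    rw [← c3n_eq hH h3, h0] at hc
    unfold c3n at hc
    simp at hc
  have h1 := (bd_three (fun j => decide (j ∈ H)) (2 * k - 1) (by
    intro i hi hi3 ⟨a, b, c, d⟩
    rw [decide_eq_true_iff] at a b c d
    exact hno i hi hi3 a b c d) ((2 * k - 1) / 3) hk (by omega)).1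
  rw [c3n_eq hH h3] at h1
  have h2 := bdn_mono (fun j => decide (j ∈ H)) (show 3 * ((2 * k - 1) / 3) ≤ 2 * k by omega)
  omega

/-- The exposure lemma for the path with `2 q - 1` steps: there are `2 q - 1` boundaries, or the
doubled labels of both sides are not all multiples of three and a side with more than `q` multiples
of three has an unused label which is not one. -/
theorem lop_path {k q m : ℕ} (h5 : 5 ≤ q) (h3 : (4 * k + 1) % 3 = 0) {A : Finset ℕ}
    (hA : A ⊆ Finset.Icc 1 (2 * k)) (h2k : 2 * k ∉ A)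
    (h : Reach P4 (dword k A) (2 * k - 1) m) (hm : m % 2 = 1) (hq : 2 * q - 1 ≤ m) :
    2 * q - 1 ≤ (Bd A (Finset.Icc 1 (2 * k) \ A) (2 * k)).card ∨
    ∃ D, APath (dword k A) D (2 * k - 1) (2 * q - 1) ∧
      (∃ l ∈ labS k D q, ¬ 3 ∣ l) ∧ (∃ l ∈ labT k D (q - 1), ¬ 3 ∣ l) ∧
      ∀ H : Finset ℕ, (H = A ∨ H = Finset.Icc 1 (2 * k) \ A) →
        q + 1 ≤ (H.filter (fun j => 3 ∣ j)).card →
        ∃ l ∈ H, l ≠ 2 * k ∧ ¬ 3 ∣ l ∧ l ∉ labS k D q ∧ l ∉ labT k D (q - 1) := by
  by_cases hb : 2 * q - 1 ≤ bw (dword k A) (2 * k - 1)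
  · left
    rw [Bd_eq_bdn, ← bw_eq_bdn h2k]
    exact hb
  right
  obtain ⟨D, m', hm', hD, hadj⟩ := reach_window h hm (s := 2 * q - 1) (by omega) hq (by omega)
    (by omega)
  have hP := hD.pinv.aPath hm'
  have hlt : ∀ i < 2 * q - 1, D i < 2 * k - 1 := hP.lt
  refine ⟨D, hP, ?_, ?_, ?_⟩
  · obtain ⟨i, hi, j, hj, h1, h2, h4⟩ := hadj 0 (by norm_num)
    have hi' := hlt i hi
    have hj' := hlt j hj
    by_cases hd : 3 ∣ 2 * k - 1 - D i
    · refine ⟨2 * k - 1 - D j, ?_, by omega⟩
      unfold labS
      refine Finset.mem_image.2 ⟨j / 2, Finset.mem_range.2 (by omega), ?_⟩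
      rw [show 2 * (j / 2) = j by omega]
    · refine ⟨2 * k - 1 - D i, ?_, hd⟩
      unfold labS
      refine Finset.mem_image.2 ⟨i / 2, Finset.mem_range.2 (by omega), ?_⟩
      rw [show 2 * (i / 2) = i by omega]
  · obtain ⟨i, hi, j, hj, h1, h2, h4⟩ := hadj 1 (by norm_num)
    have hi' := hlt i hi
    have hj' := hlt j hj
    by_cases hd : 3 ∣ 2 * k - 1 - D i
    · refine ⟨2 * k - 1 - D j, ?_, by omega⟩
      unfold labT
      refine Finset.mem_image.2 ⟨j / 2, Finset.mem_range.2 (by omega), ?_⟩
      rw [show 2 * (j / 2) + 1 = j by omega]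
    · refine ⟨2 * k - 1 - D i, ?_, hd⟩
      unfold labT
      refine Finset.mem_image.2 ⟨i / 2, Finset.mem_range.2 (by omega), ?_⟩
      rw [show 2 * (i / 2) + 1 = i by omega]
  · intro H hH hc
    have hHs : H ⊆ Finset.Icc 1 (2 * k) := by
      rcases hH with rfl | rfl
      · exact hA
      · exact Finset.sdiff_subset
    have hbH : bdn (fun j => decide (j ∈ H)) (2 * k) < 2 * q := by
      rcases hH with rfl | rfl
      · rw [← bw_eq_bdn h2k]; omega
      · rw [bdn_compl, ← bw_eq_bdn h2k]; omega
    obtain ⟨i, hi1, hi2, a0, a1, a2, a3⟩ := exists_four hHs h3 hc hbH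
    -- the letters of the four labels are the same
    have hlet : ∀ l ∈ H, l ≤ 2 * k - 1 → ∀ l' ∈ H, l' ≤ 2 * k - 1 →
        dword k A (2 * k - 1 - l) = dword k A (2 * k - 1 - l') := by
      intro l hl hl1 l' hl' hl1'
      rcases hH with rfl | rfl
      · rw [(dword_eq_true hl1).2 hl, (dword_eq_true hl1').2 hl']
      · rw [(dword_eq_false hl1).2 (Finset.mem_sdiff.1 hl).2,
          (dword_eq_false hl1').2 (Finset.mem_sdiff.1 hl').2]
    have hused : ∀ l, 1 ≤ l → l ≤ 2 * k - 1 → (l ∈ labS k D q ∨ l ∈ labT k D (q - 1)) →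
        ∃ i < 2 * q - 1, D i = 2 * k - 1 - l := by
      intro l h1 h2 hl
      rcases hl with hl | hl
      · unfold labS at hl
        obtain ⟨i, hi, he⟩ := Finset.mem_image.1 hl
        have hi' := Finset.mem_range.1 hi
        have := hlt (2 * i) (by omega)
        exact ⟨2 * i, by omega, by omega⟩
      · unfold labT at hl
        obtain ⟨i, hi, he⟩ := Finset.mem_image.1 hl
        have hi' := Finset.mem_range.1 hi
        have := hlt (2 * i + 1) (by omega)
        exact ⟨2 * i + 1, by omega, by omega⟩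
    by_contra hno
    push Not at hno
    have u : ∀ l ∈ H, l ≤ 2 * k - 1 → 1 ≤ l → ¬ 3 ∣ l → ∃ i < 2 * q - 1, D i = 2 * k - 1 - l := by
      intro l hl h1 h2 h4
      apply hused l h2 h1
      by_cases h6 : l ∈ labS k D q
      · exact Or.inl h6
      · exact Or.inr (hno l hl (by omega) h4 h6)
    obtain ⟨x, hx, ex⟩ := u (3 * i + 2) a2 (by omega) (by omega) (by omega)
    obtain ⟨y, hy, ey⟩ := u (3 * i + 1) a1 (by omega) (by omega) (by omega)
    have lx := hP.letter x hx
    have ly := hP.letter y hy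
    have hxy := hlet (3 * i + 2) a2 (by omega) (3 * i + 1) a1 (by omega)
    rw [← ex, ← ey, lx, ly] at hxy
    have hpar : x % 2 = y % 2 := by
      by_cases h6 : x % 2 = 0
      · rw [decide_eq_true h6] at hxy
        have := of_decide_eq_true hxy.symm
        omega
      · rw [decide_eq_false h6] at hxy
        have := of_decide_eq_false hxy.symm
        omega
    rcases hD.adj x (by omega) y (by omega) (by omega) hpar with ⟨t, ht, hne⟩ | hne
    · apply hne
      rw [ex, show t = 2 * k - 1 - (3 * i + 3) by omega]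
      exact hlet _ a3 (by omega) _ a2 (by omega)
    · apply hne
      rw [ex, show 2 * k - 1 - (3 * i + 2) + 2 = 2 * k - 1 - 3 * i by omega]
      exact hlet _ a0 (by omega) _ a2 (by omega)

end Pool.Agent.P45
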