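import Pool.Agent.Lib.P45dba8.BridgeOdd
import Pool.Agent.Lib.P45dba8.Cert14Defs
import Pool.Agent.Lib.P45dba8.LopB

/-! # MP_45dba8: paths with a block and a bridge (general list of blocks) -/

set_option autoImplicit false

namespace Pool.Agent.P45

open Cert

/-! ### Counting with the ends -/

/-- The number of boundaries of `p` in `[0, N]`. -/
def bd0 (p : ℕ → Bool) (N : ℕ) : ℕ := ((Finset.range N).filter (fun j => p j ≠ p (j + 1))).card

theorem bd0_succ (p : ℕ → Bool) (N : ℕ) :
    bd0 p (N + 1) = bd0 p N + (if p N ≠ p (N + 1) then 1 else 0) := by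
  unfold bd0
  rw [Finset.range_add_one, Finset.filter_insert]
  split_ifs with h
  · rw [Finset.card_insert_of_notMem (fun h' => by
      have := Finset.mem_range.1 (Finset.mem_filter.1 h').1
      omega)]
  · rfl

theorem bd0_mono (p : ℕ → Bool) {M N : ℕ} (h : M ≤ N) : bd0 p M ≤ bd0 p N := by
  unfold bd0
  apply Finset.card_le_card
  intro j hj
  rw [Finset.mem_filter, Finset.mem_range] at hj ⊢
  exact ⟨by omega, hj.2⟩

theorem bd_three0 (p : ℕ → Bool) (N : ℕ)
    (hno : ∀ i, 3 * i + 3 ≤ N → ¬ (p (3 * i) = true ∧ p (3 * i + 1) = true ∧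
      p (3 * i + 2) = true ∧ p (3 * i + 3) = true)) :
    ∀ q, 3 * q ≤ N →
      (p 0 = true → 2 * c3n p q ≤ bd0 p (3 * q) ∧
        (p (3 * q) = false → 2 * c3n p q + 1 ≤ bd0 p (3 * q))) ∧
      (p 0 = false → 2 * c3n p q ≤ bd0 p (3 * q) + 1 ∧
        (p (3 * q) = false → 2 * c3n p q ≤ bd0 p (3 * q))) := by
  intro q
  induction q with
  | zero =>
    intro _
    have h0 : c3n p 0 = 0 := by unfold c3n; simp
    have h1 : p (3 * 0) = p 0 := rfl
    rw [h0, h1]
    refine ⟨fun h => ⟨by omega, fun h' => ?_⟩, fun h => ⟨by omega, fun _ => by omega⟩⟩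
    rw [h] at h'
    exact absurd h' (by decide)
  | succ q ih =>
    intro hN
    obtain ⟨i1, i2⟩ := ih (by omega)
    have e : 3 * (q + 1) = 3 * q + 1 + 1 + 1 := by ring
    have b1 := bd0_succ p (3 * q)
    have b2 := bd0_succ p (3 * q + 1)
    have b3 := bd0_succ p (3 * q + 1 + 1)
    have c1 := c3n_succ p q
    have hn := hno q (by omega)
    rw [e] at c1 ⊢
    rw [show 3 * q + 2 = 3 * q + 1 + 1 by ring, show 3 * q + 3 = 3 * q + 1 + 1 + 1 by ring] at hn
    refine ⟨fun hp => ?_, fun hp => ?_⟩
    · obtain ⟨j1, j2⟩ := i1 hp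
      rcases h0 : p (3 * q) with _ | _ <;> rcases h1 : p (3 * q + 1) with _ | _ <;>
        rcases h2 : p (3 * q + 1 + 1) with _ | _ <;> rcases h3 : p (3 * q + 1 + 1 + 1) with _ | _ <;>
        simp only [h0, h1, h2, h3] at b1 b2 b3 c1 hn j2 <;>
        simp at b1 b2 b3 c1 hn j2 <;>
        refine ⟨?_, ?_⟩ <;> (try intro h4) <;> (try simp at h4) <;> omega
    · obtain ⟨j1, j2⟩ := i2 hp
      rcases h0 : p (3 * q) with _ | _ <;> rcases h1 : p (3 * q + 1) with _ | _ <;>
        rcases h2 : p (3 * q + 1 + 1) with _ | _ <;> rcases h3 : p (3 * q + 1 + 1 + 1) with _ | _ <;>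
        simp only [h0, h1, h2, h3] at b1 b2 b3 c1 hn j2 <;>
        simp at b1 b2 b3 c1 hn j2 <;>
        refine ⟨?_, ?_⟩ <;> (try intro h4) <;> (try simp at h4) <;> omega

/-! ### Blocks with a bridge -/

/-- The list without the entries `i` and `i + 1`. -/
def rem2 (r : List ℕ) (i : ℕ) : List ℕ := r.take i ++ r.drop (i + 2)

theorem bfun_rem2 {r : List ℕ} {i : ℕ} (hi : i ≤ r.length) (j : ℕ) :
    bfun (rem2 r i) j = if j < i then bfun r j else bfun r (j + 2) := by
  unfold bfun rem2
  rw [List.getD_eq_getElem?_getD, List.getD_eq_getElem?_getD, List.getD_eq_getElem?_getD]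
  have hl : (r.take i).length = i := by rw [List.length_take]; omega
  by_cases h : j < i
  · rw [if_pos h, List.getElem?_append_left (by omega), List.getElem?_take_of_lt h]
  · rw [if_neg h, List.getElem?_append_right (by omega), hl, List.getElem?_drop,
      show i + 2 + (j - i) = j + 2 by omega]

theorem length_rem2 {r : List ℕ} {i : ℕ} (hi : i + 2 ≤ r.length) :
    (rem2 r i).length = r.length - 2 := by
  unfold rem2
  rw [List.length_append, List.length_take, List.length_drop]
  omega

/-- The conditions on a block which is not plain. -/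
def BlkQ' (r : List ℕ) (K : ℕ) : Prop :=
  (∀ j < r.length, 1 ≤ bfun r j ∧ bfun r j + 1 < K) ∧
  (∀ i < r.length, ∀ j < r.length, (bfun r j = bfun r i + 1 ∧ i % 2 = j % 2) →
    ∃ t ∈ List.range r.length, (bfun r t + 1 = bfun r i ∨ bfun r t = bfun r i + 2) ∧ t % 2 ≠ i % 2) ∧
  (∀ q < 2, ∃ i ∈ List.range r.length, ∃ j ∈ List.range r.length, i % 2 = q ∧ j % 2 = q ∧ bfun r j = bfun r i + 1) ∧
  4 ≤ r.length ∧ r.length ≤ 10

instance (r : List ℕ) (K : ℕ) : Decidable (BlkQ' r K) := by
  unfold BlkQ'
  infer_instance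

/-- Two consecutive steps with adjacent depths can be dropped. -/
def BlkB (r : List ℕ) (K : ℕ) : Prop :=
  ∃ i ∈ List.range r.length, i + 2 ≤ r.length ∧
    (bfun r (i + 1) = bfun r i + 1 ∨ bfun r i = bfun r (i + 1) + 1) ∧ BlkOK (rem2 r i) K

instance (r : List ℕ) (K : ℕ) : Decidable (BlkB r K) := by
  unfold BlkB
  infer_instance

/-- A list of blocks: the plain step and blocks with a bridge. -/
def GoodBlks (B : List (List ℕ × ℕ)) : Prop :=
  ∀ b ∈ B, b = ([0], 1) ∨ (BlkOK b.1 b.2 ∧ BlkQ' b.1 b.2 ∧ BlkB b.1 b.2)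

instance (B : List (List ℕ × ℕ)) : Decidable (GoodBlks B) := by
  unfold GoodBlks
  infer_instance

theorem goodBlks_P14 : GoodBlks Cert14.P14 := by
  decide

theorem QInv.blockG {w : ℕ → Bool} {D : ℕ → ℕ} {d m : ℕ} (h : QInv w D d m) (b : List ℕ × ℕ)
    (hbk : BlkOK b.1 b.2) (hb : b = ([0], 1) ∨ BlkQ' b.1 b.2)
    (hw : ∀ j < b.1.length, w (d + bfun b.1 j) = decide ((m + j) % 2 = 0)) :
    QInv w (fun i => if i < m then D i else d + bfun b.1 (i - m)) (d + b.2) (m + b.1.length) := by
  have hp := h.pinv.block2 hbk hw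
  obtain ⟨D', hD'⟩ : ∃ D' : ℕ → ℕ, D' = fun i => if i < m then D i else d + bfun b.1 (i - m) :=
    ⟨_, rfl⟩
  rw [← hD'] at hp ⊢
  have e1 : ∀ i < m, D' i = D i := fun i hi => by rw [hD']; simp only [if_pos hi]
  have e2 : ∀ j, D' (m + j) = d + bfun b.1 j := fun j => by
    rw [hD']
    simp only [show ¬ m + j < m by omega, if_false, Nat.add_sub_cancel_left]
  have hlt : ∀ i < m, D i < d := h.pinv.lt
  rcases hb with hb1 | ⟨q1, q2, -, q4, -⟩
  · -- plain
    subst hb1
    have hl : ([0] : List ℕ).length = 1 := rfl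
    have hf : bfun [0] 0 = 0 := rfl
    have e3 : D' m = d := by
      have := e2 0
      rw [hf] at this
      exact this
    refine ⟨hp, ?_, ?_⟩
    · intro i hi he
      have hi' : i < m + 1 := hi
      show i + 1 = m + 1
      by_cases h1 : i < m
      · rw [e1 i h1] at he
        have := hlt i h1
        have he' : D i + 1 = d + 1 := he
        omega
      · omega
    · intro i hi j hj hij hpar
      have hi' : i < m + 1 := hi
      have hj' : j < m + 1 := hj
      by_cases h1 : i < m
      · by_cases h2 : j < m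
        · rw [e1 i h1]
          rw [e1 i h1, e1 j h2] at hij
          exact h.adj i h1 j h2 hij hpar
        · have h3 : j = m := by omega
          subst h3
          rw [e1 i h1, e3] at hij
          have := h.last1 i h1 hij.symm
          omega
      · have h3 : i = m := by omega
        subst h3
        rw [e3] at hij
        by_cases h2 : j < i
        · rw [e1 j h2] at hij
          have := hlt j h2
          omega
        · have h4 : j = i := by omega
          subst h4
          omega
  · -- block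
    refine ⟨hp, ?_, ?_⟩
    · intro i hi he
      exfalso
      by_cases h1 : i < m
      · rw [e1 i h1] at he
        have := hlt i h1
        have := q1 0 (by omega)
        omega
      · obtain ⟨j, rfl⟩ : ∃ j, i = m + j := ⟨i - m, by omega⟩
        rw [e2] at he
        have := q1 j (by omega)
        omega
    · intro i hi j hj hij hpar
      by_cases h1 : i < m
      · by_cases h2 : j < m
        · rw [e1 i h1]
          rw [e1 i h1, e1 j h2] at hij
          exact h.adj i h1 j h2 hij hpar
        · obtain ⟨j', rfl⟩ : ∃ j', j = m + j' := ⟨j - m, by omega⟩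
          rw [e1 i h1, e2] at hij
          have := hlt i h1
          have := q1 j' (by omega)
          omega
      · obtain ⟨i', rfl⟩ : ∃ i', i = m + i' := ⟨i - m, by omega⟩
        by_cases h2 : j < m
        · rw [e2, e1 j h2] at hij
          have := hlt j h2
          omega
        · obtain ⟨j', rfl⟩ : ∃ j', j = m + j' := ⟨j - m, by omega⟩
          rw [e2, e2] at hij
          obtain ⟨t, ht, ht2, ht3⟩ := q2 i' (by omega) j' (by omega) ⟨by omega, by omega⟩
          have ht' := List.mem_range.1 ht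
          have w1 := hw t ht'
          have w2 := hw i' (by omega)
          have hne : w (d + bfun b.1 t) ≠ w (d + bfun b.1 i') := by
            rw [w1, w2]
            rcases Nat.mod_two_eq_zero_or_one (m + t) with hq | hq
            · rw [decide_eq_true hq, decide_eq_false (by omega)]
              decide
            · rw [decide_eq_false (by omega), decide_eq_true (by omega)]
              decide
          rw [e2]
          rcases ht2 with ht2 | ht2
          · left
            exact ⟨d + bfun b.1 t, by omega, hne⟩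
          · right
            rw [show d + bfun b.1 i' + 2 = d + bfun b.1 t by omega]
            exact hne

/-- A path with a bridge at the steps `t`, `t + 1`. -/
structure BInv (w : ℕ → Bool) (D : ℕ → ℕ) (d m t : ℕ) : Prop where
  q : QInv w D d m
  s : PInv w (skip D t) d (m - 2)
  t2 : t + 2 ≤ m
  near : D (t + 1) = D t + 1 ∨ D t = D (t + 1) + 1

theorem BInv.wait {w : ℕ → Bool} {D : ℕ → ℕ} {d m t : ℕ} (h : BInv w D d m t) :
    BInv w D (d + 1) m t where
  q := h.q.wait
  s := h.s.wait
  t2 := h.t2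
  near := h.near

theorem skip_ext {D : ℕ → ℕ} {d m t : ℕ} (f : ℕ → ℕ) (ht : t + 2 ≤ m) :
    skip (fun i => if i < m then D i else d + f (i - m)) t =
      fun i => if i < m - 2 then skip D t i else d + f (i - (m - 2)) := by
  funext j
  unfold skip
  by_cases h1 : j < t
  · simp only [h1, show j < m by omega, show j < m - 2 by omega, if_true]
  · by_cases h2 : j < m - 2
    · simp only [h1, h2, show j + 2 < m by omega, if_true, if_false]
    · simp only [h1, h2, show ¬ j + 2 < m by omega, if_false,
        show j + 2 - m = j - (m - 2) by omega]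

theorem BInv.block {w : ℕ → Bool} {D : ℕ → ℕ} {d m t : ℕ} (h : BInv w D d m t) (b : List ℕ × ℕ)
    (hbk : BlkOK b.1 b.2) (hb : b = ([0], 1) ∨ BlkQ' b.1 b.2)
    (hw : ∀ j < b.1.length, w (d + bfun b.1 j) = decide ((m + j) % 2 = 0)) :
    BInv w (fun i => if i < m then D i else d + bfun b.1 (i - m)) (d + b.2) (m + b.1.length) t where
  q := h.q.blockG b hbk hb hw
  s := by
    have ht := h.t2
    rw [skip_ext _ ht, show m + b.1.length - 2 = m - 2 + b.1.length by omega]
    refine h.s.block2 hbk ?_
    intro j hj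
    rw [hw j hj]
    exact dec_par rfl (by omega) j
  t2 := by have := h.t2; omega
  near := by
    have ht := h.t2
    simp only [show t < m by omega, show t + 1 < m by omega, if_true]
    exact h.near

theorem QInv.bridge {w : ℕ → Bool} {D : ℕ → ℕ} {d m : ℕ} (h : QInv w D d m) (b : List ℕ × ℕ)
    (hbk : BlkOK b.1 b.2) (hb : BlkQ' b.1 b.2) (hbb : BlkB b.1 b.2)
    (hw : ∀ j < b.1.length, w (d + bfun b.1 j) = decide ((m + j) % 2 = 0)) :
    ∃ t, BInv w (fun i => if i < m then D i else d + bfun b.1 (i - m)) (d + b.2)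
      (m + b.1.length) t := by
  obtain ⟨i, hi, hi2, hi3, hi4⟩ := hbb
  refine ⟨m + i, h.blockG b hbk (Or.inr hb) hw, ?_, by omega, ?_⟩
  · have hl := length_rem2 hi2
    have e : skip (fun i => if i < m then D i else d + bfun b.1 (i - m)) (m + i) =
        fun j => if j < m then D j else d + bfun (rem2 b.1 i) (j - m) := by
      funext j
      unfold skip
      by_cases h1 : j < m
      · simp only [h1, show j < m + i by omega, if_true]
      · rw [bfun_rem2 (by omega)]
        by_cases h2 : j < m + i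
        · simp only [h1, h2, show j - m < i by omega, if_true, if_false]
        · simp only [h1, h2, show ¬ j - m < i by omega, show ¬ j + 2 < m by omega, if_false,
            show j + 2 - m = j - m + 2 by omega]
    rw [e, show m + b.1.length - 2 = m + (rem2 b.1 i).length by omega]
    refine h.pinv.block2 hi4 ?_
    intro j hj
    rw [bfun_rem2 (by omega)]
    by_cases h2 : j < i
    · rw [if_pos h2]
      exact hw j (by omega)
    · rw [if_neg h2, hw (j + 2) (by omega)]
      have : (m + (j + 2)) % 2 = (m + j) % 2 := by omega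
      rw [this]
  · simp only [show ¬ m + i < m by omega, show ¬ m + i + 1 < m by omega, if_false,
      show m + i - m = i by omega, show m + i + 1 - m = i + 1 by omega]
    rcases hi3 with h | h
    · left; omega
    · right; omega

theorem PlainR.qinvG {w : ℕ → Bool} {d m : ℕ} (h : PlainR w d m) : ∃ D, QInv w D d m := h.qinv

/-- A path is plain, or its first block is complete after any even number of plain steps has been
dropped. -/
theorem reach_casesG {B : List (List ℕ × ℕ)} (hB : GoodBlks B) {w : ℕ → Bool} {d m : ℕ}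
    (h : Reach B w d m) :
    PlainR w d m ∨ ∃ p g, g ≤ 10 ∧ p + g ≤ m ∧ p ≤ bw w d ∧ ∀ e, e % 2 = 0 → e ≤ p →
      ∃ D t, BInv w D d (m - e) t ∧ t + 2 ≤ p - e + g ∧ Adj2 D (p - e + g) := by
  have hplain : BlkOK [0] 1 := by decide
  induction h with
  | init => exact Or.inl PlainR.init
  | @wait d m _ ih =>
    rcases ih with ih | ⟨p, g, h1, h2, h3, h4⟩
    · exact Or.inl ih.wait
    · refine Or.inr ⟨p, g, h1, h2, h3.trans (bw_mono w (by omega)), fun e he hep => ?_⟩
      obtain ⟨D, t, hD, ht, hA⟩ := h4 e he hep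
      exact ⟨D, t, hD.wait, ht, hA⟩
  | @block d m b hb _ hw ih =>
    rcases ih with ih | ⟨p, g, h1, h2, h3, h4⟩
    · rcases hB b hb with hb1 | ⟨hk, hq, hbb⟩
      · subst hb1
        left
        have := hw 0 (by show 0 < 1; omega)
        exact ih.step this
      · right
        obtain ⟨q1, q2, q3, q4, q5⟩ := id hq
        refine ⟨m, b.1.length, q5, le_rfl, ih.count.1.trans (bw_mono w (by omega)),
          fun e he hem => ?_⟩
        obtain ⟨D, hD⟩ := (ih.drop e he hem).qinv
        obtain ⟨t, ht⟩ := hD.bridge b hk hq hbb (by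
          intro j hj
          rw [hw j hj]
          exact dec_par he hem j)
        refine ⟨fun i => if i < m - e then D i else d + bfun b.1 (i - (m - e)), t, ?_, ?_, ?_⟩
        · rw [show m + b.1.length - e = m - e + b.1.length by omega]
          exact ht
        · exact ht.t2
        · intro q hq
          obtain ⟨i, hi, j, hj, h5, h6, h7⟩ := q3 ((q + (m - e)) % 2) (Nat.mod_lt _ (by norm_num))
          have hi' := List.mem_range.1 hi
          have hj' := List.mem_range.1 hj
          refine ⟨m - e + i, by omega, m - e + j, by omega, by omega, by omega, ?_⟩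
          simp only [show ¬ m - e + j < m - e by omega, show ¬ m - e + i < m - e by omega, if_false,
            Nat.add_sub_cancel_left]
          omega
    · refine Or.inr ⟨p, g, h1, by omega, h3.trans (bw_mono w (by omega)), fun e he hep => ?_⟩
      obtain ⟨D, t, hD, ht, hA⟩ := h4 e he hep
      refine ⟨fun i => if i < m - e then D i else d + bfun b.1 (i - (m - e)), t, ?_, ht, ?_⟩
      · rw [show m + b.1.length - e = m - e + b.1.length by omega]
        have hk : BlkOK b.1 b.2 := by
          rcases hB b hb with hb1 | hb1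
          · rw [hb1]; exact hplain
          · exact hb1.1
        have hq : b = ([0], 1) ∨ BlkQ' b.1 b.2 := by
          rcases hB b hb with hb1 | hb1
          · exact Or.inl hb1
          · exact Or.inr hb1.2.1
        refine hD.block b hk hq ?_
        intro j hj
        rw [hw j hj]
        exact dec_par he (by omega) j
      · intro q hq
        obtain ⟨i, hi, j, hj, h5, h6, h7⟩ := hA q hq
        refine ⟨i, hi, j, hj, h5, h6, ?_⟩
        simp only [show i < m - e by omega, show j < m - e by omega, if_true]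
        exact h7

/-- A path with exactly `s` steps (`s` odd) which contains a complete block and a bridge, or there
are `s` boundaries. -/
theorem reach_windowG {B : List (List ℕ × ℕ)} (hB : GoodBlks B) {w : ℕ → Bool} {d m s : ℕ}
    (h : Reach B w d m) (hm : m % 2 = 1) (hs : s % 2 = 1) (hsm : s ≤ m) (h11 : 11 ≤ s)
    (hb : bw w d < s) :
    ∃ D t, ∃ m', s ≤ m' ∧ BInv w D d m' t ∧ t + 2 ≤ s ∧ Adj2 D s := by
  rcases reach_casesG hB h with h1 | ⟨p, g, h1, h2, h3, h4⟩
  · have := h1.count.1
    omega
  · by_cases h5 : p + g ≤ s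
    · obtain ⟨D, t, hD, ht, hA⟩ := h4 0 rfl (by omega)
      refine ⟨D, t, m - 0, by omega, hD, by omega, ?_⟩
      intro q hq
      obtain ⟨i, hi, j, hj, h⟩ := hA q hq
      exact ⟨i, by omega, j, by omega, h⟩
    · have he : ((p + g - s) + (p + g - s) % 2) % 2 = 0 := by omega
      obtain ⟨D, t, hD, ht, hA⟩ := h4 ((p + g - s) + (p + g - s) % 2) he (by omega)
      refine ⟨D, t, _, by omega, hD, by omega, ?_⟩
      intro q hq
      obtain ⟨i, hi, j, hj, h⟩ := hA q hq
      exact ⟨i, by omega, j, by omega, h⟩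

/-! ### Labels -/

theorem bd0_eq_bw (w : ℕ → Bool) (β : Bool) (N : ℕ) :
    bd0 (fun j => decide (G w (N - j) = β)) N = bw w N := by
  unfold bd0 bw
  have key : ∀ a b : Bool, (decide (a = β) ≠ decide (b = β)) ↔ a ≠ b := by
    intro a b
    cases a <;> cases b <;> cases β <;> decide
  refine Finset.card_nbij' (fun j => N - 1 - j) (fun t => N - 1 - t) ?_ ?_ ?_ ?_
  · intro j hj
    rw [Finset.mem_coe, Finset.mem_filter, Finset.mem_range] at hj
    rw [Finset.mem_coe, Finset.mem_filter, Finset.mem_range]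
    obtain ⟨h1, h2⟩ := hj
    have h3 := (key _ _).1 h2
    have e1 : N - 1 - j = N - (j + 1) := by omega
    have e2 : N - 1 - j + 1 = N - j := by omega
    have h4 : G w (N - 1 - j) ≠ G w (N - 1 - j + 1) := by
      rw [e2, e1]
      exact fun h => h3 h.symm
    have h5 : N - 1 - j < N := by omega
    exact ⟨h5, h4⟩
  · intro t ht
    rw [Finset.mem_coe, Finset.mem_filter, Finset.mem_range] at ht
    rw [Finset.mem_coe, Finset.mem_filter, Finset.mem_range]
    obtain ⟨h1, h2⟩ := ht
    have e1 : N - (N - 1 - t) = t + 1 := by omega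
    have e2 : N - (N - 1 - t + 1) = t := by omega
    have h4 : decide (G w (N - (N - 1 - t)) = β) ≠ decide (G w (N - (N - 1 - t + 1)) = β) := by
      rw [key, e1, e2]
      exact fun h => h2 h.symm
    have h5 : N - 1 - t < N := by omega
    exact ⟨h5, h4⟩
  · intro j hj
    rw [Finset.mem_coe, Finset.mem_filter, Finset.mem_range] at hj
    show N - 1 - (N - 1 - j) = j
    omega
  · intro j hj
    rw [Finset.mem_coe, Finset.mem_filter, Finset.mem_range] at hj
    show N - 1 - (N - 1 - j) = j
    omega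

/-- Many multiples of three and few boundaries: three labels `3 i + 1, 3 i + 2, 3 i + 3` in `H` and
the letter of `3 i` is the one of `H`. -/
theorem exists_runG {k q : ℕ} {A : Finset ℕ} (hk : 1 ≤ k) (hA : A ⊆ Finset.Icc 1 (2 * k))
    (h2k : 2 * k ∉ A) (h3 : (4 * k + 1) % 3 = 0) {H : Finset ℕ} {β : Bool}
    (hH : (H = A ∧ β = true) ∨ (H = Finset.Icc 1 (2 * k) \ A ∧ β = false))
    (hc : q ≤ (H.filter (fun j => 3 ∣ j)).card) (hb : bw (dword k A) (2 * k - 1) + 1 < 2 * q) :
    ∃ i, 3 * i + 3 ≤ 2 * k - 1 ∧ 3 * i + 1 ∈ H ∧ 3 * i + 2 ∈ H ∧ 3 * i + 3 ∈ H ∧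
      dword k A (2 * k - 1 - 3 * i) = β := by
  have hHs : H ⊆ Finset.Icc 1 (2 * k) := by
    rcases hH with ⟨rfl, -⟩ | ⟨rfl, -⟩
    · exact hA
    · exact Finset.sdiff_subset
  have h0A : 0 ∉ A := fun h => by
    have := Finset.mem_Icc.1 (hA h)
    omega
  obtain ⟨p, hp⟩ : ∃ p : ℕ → Bool, p = fun j => decide (G (dword k A) (2 * k - j) = β) := ⟨_, rfl⟩
  have hG : ∀ j, j ≤ 2 * k → G (dword k A) (2 * k - j) = decide (j ∈ A) := by
    intro j hj
    rw [G_dword h2k, show 2 * k - (2 * k - j) = j by omega]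
  have hpj : ∀ j, 1 ≤ j → j ≤ 2 * k → (p j = true ↔ j ∈ H) := by
    intro j h1 h2
    rw [hp]
    show decide (G (dword k A) (2 * k - j) = β) = true ↔ j ∈ H
    rw [hG j h2, decide_eq_true_iff]
    rcases hH with ⟨rfl, rfl⟩ | ⟨rfl, rfl⟩
    · exact decide_eq_true_iff
    · rw [decide_eq_false_iff_not, Finset.mem_sdiff, Finset.mem_Icc]
      tauto
  have hp0 : p 0 = decide (false = β) := by
    rw [hp]
    show decide (G (dword k A) (2 * k - 0) = β) = _
    rw [hG 0 (by omega), decide_eq_false h0A]
  have hbd : bd0 p (2 * k) ≤ bw (dword k A) (2 * k - 1) + 1 := by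
    rw [hp, bd0_eq_bw]
    have := bw_succ (dword k A) (2 * k - 1)
    rw [show 2 * k - 1 + 1 = 2 * k by omega] at this
    rw [this]
    split_ifs <;> omega
  have hcn : c3n p ((2 * k - 1) / 3) = (H.filter (fun j => 3 ∣ j)).card := by
    rw [← c3n_eq hHs h3]
    unfold c3n
    congr 1
    apply Finset.filter_congr
    intro i hi
    rw [Finset.mem_Icc] at hi
    show p (3 * i) = true ↔ decide (3 * i ∈ H) = true
    rw [decide_eq_true_iff]
    exact hpj _ (by omega) (by omega)
  by_contra hno
  push Not at hno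
  have key := bd_three0 p (2 * k - 1) (by
    intro i hi ⟨a, b, c, d⟩
    have a1 := (hpj (3 * i + 1) (by omega) (by omega)).1 b
    have a2 := (hpj (3 * i + 2) (by omega) (by omega)).1 c
    have a3 := (hpj (3 * i + 3) (by omega) (by omega)).1 d
    refine hno i hi a1 a2 a3 ?_
    rw [hp] at a
    have a' : decide (G (dword k A) (2 * k - 3 * i) = β) = true := a
    rw [decide_eq_true_iff, show 2 * k - 3 * i = 2 * k - 1 - 3 * i + 1 by omega] at a'
    exact a') ((2 * k - 1) / 3) (by omega)
  rw [hcn] at key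
  have e3 : 3 * ((2 * k - 1) / 3) = 2 * k - 1 := by omega
  rw [e3] at key
  have hs := bd0_succ p (2 * k - 1)
  rw [show 2 * k - 1 + 1 = 2 * k by omega] at hs
  rcases hH with ⟨rfl, rfl⟩ | ⟨rfl, rfl⟩
  · have h0 : p 0 = false := by rw [hp0]; decide
    obtain ⟨k1, k2⟩ := key.2 h0
    have hl : p (2 * k) = false := by
      rcases hx : p (2 * k) with _ | _
      · rfl
      · exact absurd ((hpj (2 * k) (by omega) le_rfl).1 hx) h2k
    rcases hx : p (2 * k - 1) with _ | _
    · have := k2 hx
      split_ifs at hs <;> omega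
    · rw [hx, hl] at hs
      simp at hs
      omega
  · have h0 : p 0 = true := by rw [hp0]; decide
    obtain ⟨k1, k2⟩ := key.1 h0
    split_ifs at hs <;> omega

/-- THE NONPLAIN CASE FOR ODD `k`: there are `k` boundaries, or there is a path with `k` steps and a
bridge at the steps `t`, `t + 1`, with two adjacent labels on both sides, and every side with more
than `r` multiples of three has an unused label which is not one. -/
theorem bridge_path {B : List (List ℕ × ℕ)} (hB : GoodBlks B) {k r m : ℕ} (hk : k = 2 * r + 1)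
    (h5 : 5 ≤ r) {A : Finset ℕ} (hA : A ⊆ Finset.Icc 1 (2 * k)) (h2k : 2 * k ∉ A)
    (h : Reach B (dword k A) (2 * k - 1) m) (hm : m % 2 = 1) (hkm : k ≤ m) :
    k ≤ (Bd A (Finset.Icc 1 (2 * k) \ A) (2 * k)).card ∨
    ∃ D t, APath (dword k A) D (2 * k - 1) k ∧ APath (dword k A) (skip D t) (2 * k - 1) (k - 2) ∧
      t + 2 ≤ k ∧ (D (t + 1) = D t + 1 ∨ D t = D (t + 1) + 1) ∧
      (∃ l, l ∈ labS k D (r + 1) ∧ l + 1 ∈ labS k D (r + 1)) ∧
      (∃ l, l ∈ labT k D r ∧ l + 1 ∈ labT k D r) ∧
      ((4 * k + 1) % 3 = 0 → ∀ H : Finset ℕ, (H = A ∨ H = Finset.Icc 1 (2 * k) \ A) →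
        r + 1 ≤ (H.filter (fun j => 3 ∣ j)).card →
        ∃ l ∈ H, l ≠ 2 * k ∧ ¬ 3 ∣ l ∧ l ∉ labS k D (r + 1) ∧ l ∉ labT k D r) := by
  by_cases hb : k ≤ bw (dword k A) (2 * k - 1)
  · left
    rw [Bd_eq_bdn, ← bw_eq_bdn h2k]
    exact hb
  right
  obtain ⟨D, t, m', hm', hD, ht, hadj⟩ := reach_windowG hB h hm (s := k) (by omega) hkm (by omega)
    (by omega)
  have hP := hD.q.pinv.aPath hm'
  have hP2 : APath (dword k A) (skip D t) (2 * k - 1) (k - 2) := hD.s.aPath (by omega)
  have hlt : ∀ i < k, D i < 2 * k - 1 := hP.lt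
  refine ⟨D, t, hP, hP2, ht, hD.near, ?_, ?_, ?_⟩
  · obtain ⟨i, hi, j, hj, h1, h2, h4⟩ := hadj 0 (by norm_num)
    have hi' := hlt i hi
    have hj' := hlt j hj
    refine ⟨2 * k - 1 - D j, ?_, ?_⟩
    · unfold labS
      refine Finset.mem_image.2 ⟨j / 2, Finset.mem_range.2 (by omega), ?_⟩
      rw [show 2 * (j / 2) = j by omega]
    · unfold labS
      refine Finset.mem_image.2 ⟨i / 2, Finset.mem_range.2 (by omega), ?_⟩
      rw [show 2 * (i / 2) = i by omega]
      omega
  · obtain ⟨i, hi, j, hj, h1, h2, h4⟩ := hadj 1 (by norm_num)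
    have hi' := hlt i hi
    have hj' := hlt j hj
    refine ⟨2 * k - 1 - D j, ?_, ?_⟩
    · unfold labT
      refine Finset.mem_image.2 ⟨j / 2, Finset.mem_range.2 (by omega), ?_⟩
      rw [show 2 * (j / 2) + 1 = j by omega]
    · unfold labT
      refine Finset.mem_image.2 ⟨i / 2, Finset.mem_range.2 (by omega), ?_⟩
      rw [show 2 * (i / 2) + 1 = i by omega]
      omega
  · intro h3 H hH hc
    obtain ⟨β, hβ⟩ : ∃ β : Bool, (H = A ∧ β = true) ∨
        (H = Finset.Icc 1 (2 * k) \ A ∧ β = false) := by
      rcases hH with h | h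
      · exact ⟨true, Or.inl ⟨h, rfl⟩⟩
      · exact ⟨false, Or.inr ⟨h, rfl⟩⟩
    obtain ⟨i, hi2, a1, a2, a3, a0⟩ := exists_runG (by omega) hA h2k h3 hβ hc (by omega)
    have hlet : ∀ l ∈ H, l ≤ 2 * k - 1 → dword k A (2 * k - 1 - l) = β := by
      intro l hl hl1
      rcases hβ with ⟨rfl, rfl⟩ | ⟨rfl, rfl⟩
      · exact (dword_eq_true hl1).2 hl
      · exact (dword_eq_false hl1).2 (Finset.mem_sdiff.1 hl).2
    have hused : ∀ l, 1 ≤ l → l ≤ 2 * k - 1 → (l ∈ labS k D (r + 1) ∨ l ∈ labT k D r) →
        ∃ i < k, D i = 2 * k - 1 - l := by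
      intro l h1 h2 hl
      rcases hl with hl | hl
      · unfold labS at hl
        obtain ⟨i, hi, he⟩ := Finset.mem_image.1 hl
        have hi' := Finset.mem_range.1 hi
        have := hlt (2 * i) (by omega)
        exact ⟨2 * i, by omega, by omega⟩
      · unfold labT at hl
        obtain ⟨i, hi, he⟩ := Finset.mem_image.1 hl
        have hi' := Finset.mem_range.1 hi
        have := hlt (2 * i + 1) (by omega)
        exact ⟨2 * i + 1, by omega, by omega⟩
    by_contra hno
    push Not at hno
    have u : ∀ l ∈ H, l ≤ 2 * k - 1 → 1 ≤ l → ¬ 3 ∣ l → ∃ i < k, D i = 2 * k - 1 - l := by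
      intro l hl h1 h2 h4
      apply hused l h2 h1
      by_cases h6 : l ∈ labS k D (r + 1)
      · exact Or.inl h6
      · exact Or.inr (hno l hl (by omega) h4 h6)
    obtain ⟨x, hx, ex⟩ := u (3 * i + 2) a2 (by omega) (by omega) (by omega)
    obtain ⟨y, hy, ey⟩ := u (3 * i + 1) a1 (by omega) (by omega) (by omega)
    have lx := hP.letter x hx
    have ly := hP.letter y hy
    have hxy := (hlet (3 * i + 2) a2 (by omega)).trans (hlet (3 * i + 1) a1 (by omega)).symm
    rw [← ex, ← ey, lx, ly] at hxy
    have hpar : x % 2 = y % 2 := by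
      by_cases h6 : x % 2 = 0
      · rw [decide_eq_true h6] at hxy
        have := of_decide_eq_true hxy.symm
        omega
      · rw [decide_eq_false h6] at hxy
        have := of_decide_eq_false hxy.symm
        omega
    rcases hD.q.adj x (by omega) y (by omega) (by omega) hpar with ⟨t', ht', hne⟩ | hne
    · apply hne
      rw [ex, show t' = 2 * k - 1 - (3 * i + 3) by omega, hlet _ a3 (by omega),
        hlet _ a2 (by omega)]
    · apply hne
      rw [ex, show 2 * k - 1 - (3 * i + 2) + 2 = 2 * k - 1 - 3 * i by omega, a0,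
        hlet _ a2 (by omega)]

end Pool.Agent.P45
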