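import Pool.Agent.Lib.P45dba8.TS

/-! # Local changes of matchings -/

set_option autoImplicit false

namespace Pool.Agent.P45

variable {V : Type*}

/-- The edge `{p, q}` as a relation. -/
def pr (p q u v : V) : Prop := (u = p ∧ v = q) ∨ (u = q ∧ v = p)

theorem pr_symm {p q u v : V} (h : pr p q u v) : pr p q v u := by
  rcases h with ⟨a, b⟩ | ⟨a, b⟩
  · exact Or.inr ⟨b, a⟩
  · exact Or.inl ⟨b, a⟩

theorem pr_self (p q : V) : pr p q p q := Or.inl ⟨rfl, rfl⟩

theorem pr_self' (p q : V) : pr p q q p := Or.inr ⟨rfl, rfl⟩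

/-- A matching: symmetric and functional. -/
def Mat (R : V → V → Prop) : Prop := (∀ u v, R u v → R v u) ∧ ∀ u v v', R u v → R u v' → v = v'

/-- Remove all edges at the vertices of `S`, add the edges `Ad`. -/
def modif (R : V → V → Prop) (S : V → Prop) (Ad : V → V → Prop) (u v : V) : Prop :=
  (R u v ∧ ¬ S u ∧ ¬ S v) ∨ Ad u v

theorem Mat.modif {R : V → V → Prop} (hR : Mat R) {S : V → Prop} {Ad : V → V → Prop}
    (hA : Mat Ad) (hS : ∀ u v, Ad u v → S u) : Mat (modif R S Ad) := by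
  constructor
  · rintro u v (⟨h1, h2, h3⟩ | h)
    · exact Or.inl ⟨hR.1 _ _ h1, h3, h2⟩
    · exact Or.inr (hA.1 _ _ h)
  · rintro u v v' (⟨h1, h2, h3⟩ | h) (⟨h1', h2', h3'⟩ | h')
    · exact hR.2 _ _ _ h1 h1'
    · exact absurd (hS _ _ h') h2
    · exact absurd (hS _ _ h) h2'
    · exact hA.2 _ _ _ h h'

theorem modif_cov {R : V → V → Prop} (hR : Mat R) {S : V → Prop} {Ad : V → V → Prop} {u v : V}
    (h : R u v) : modif R S Ad u v ∨ (S u ∧ R u v) ∨ (S v ∧ R v u) := by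
  by_cases hu : S u
  · exact Or.inr (Or.inl ⟨hu, h⟩)
  by_cases hv : S v
  · exact Or.inr (Or.inr ⟨hv, hR.1 _ _ h⟩)
  · exact Or.inl (Or.inl ⟨h, hu, hv⟩)

theorem modif_miss_out {R : V → V → Prop} {S : V → Prop} {Ad : V → V → Prop} {x : V}
    (hR : ∀ v, ¬ R x v) (hA : ∀ v, ¬ Ad x v) (v : V) : ¬ modif R S Ad x v := by
  rintro (⟨h, _, _⟩ | h)
  · exact hR v h
  · exact hA v h

theorem modif_miss_in {R : V → V → Prop} {S : V → Prop} {Ad : V → V → Prop} {x : V}
    (hx : S x) (hA : ∀ v, ¬ Ad x v) (v : V) : ¬ modif R S Ad x v := by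
  rintro (⟨_, h, _⟩ | h)
  · exact h hx
  · exact hA v h

theorem Mat.pr1 {p q : V} (h : p ≠ q) : Mat (pr p q) := by
  refine ⟨fun _ _ => pr_symm, ?_⟩
  rintro u v v' (⟨rfl, rfl⟩ | ⟨rfl, rfl⟩) (⟨a, rfl⟩ | ⟨a, rfl⟩)
  · rfl
  · exact absurd a h
  · exact absurd a.symm h
  · rfl

theorem Mat.pr2 {p q p' q' : V} (h : p ≠ q) (h' : p' ≠ q') (h1 : p ≠ p') (h2 : p ≠ q')
    (h3 : q ≠ p') (h4 : q ≠ q') : Mat (fun u v => pr p q u v ∨ pr p' q' u v) := by
  refine ⟨fun _ _ hh => hh.imp pr_symm pr_symm, ?_⟩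
  rintro u v v' (hh | hh) (hh' | hh')
  · exact (Mat.pr1 h).2 _ _ _ hh hh'
  · exfalso
    rcases hh with ⟨rfl, rfl⟩ | ⟨rfl, rfl⟩ <;> rcases hh' with ⟨a, rfl⟩ | ⟨a, rfl⟩
    · exact h1 a
    · exact h2 a
    · exact h3 a
    · exact h4 a
  · exfalso
    rcases hh with ⟨rfl, rfl⟩ | ⟨rfl, rfl⟩ <;> rcases hh' with ⟨a, rfl⟩ | ⟨a, rfl⟩
    · exact h1 a.symm
    · exact h3 a.symm
    · exact h2 a.symm
    · exact h4 a.symm
  · exact (Mat.pr1 h').2 _ _ _ hh hh'

theorem Mat.pr3 {p q p' q' p'' q'' : V} (h : p ≠ q) (h' : p' ≠ q') (h'' : p'' ≠ q'')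
    (h1 : p ≠ p') (h2 : p ≠ q') (h3 : q ≠ p') (h4 : q ≠ q')
    (h5 : p ≠ p'') (h6 : p ≠ q'') (h7 : q ≠ p'') (h8 : q ≠ q'')
    (h9 : p' ≠ p'') (h10 : p' ≠ q'') (h11 : q' ≠ p'') (h12 : q' ≠ q'') :
    Mat (fun u v => pr p q u v ∨ pr p' q' u v ∨ pr p'' q'' u v) := by
  refine ⟨fun _ _ hh => hh.imp pr_symm (Or.imp pr_symm pr_symm), ?_⟩
  rintro u v v' (hh | hh) (hh' | hh')
  · exact (Mat.pr1 h).2 _ _ _ hh hh'
  · rcases hh' with hh' | hh'
    · exact (Mat.pr2 h h' h1 h2 h3 h4).2 _ _ _ (Or.inl hh) (Or.inr hh')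
    · exact (Mat.pr2 h h'' h5 h6 h7 h8).2 _ _ _ (Or.inl hh) (Or.inr hh')
  · rcases hh with hh | hh
    · exact (Mat.pr2 h h' h1 h2 h3 h4).2 _ _ _ (Or.inr hh) (Or.inl hh')
    · exact (Mat.pr2 h h'' h5 h6 h7 h8).2 _ _ _ (Or.inr hh) (Or.inl hh')
  · exact (Mat.pr2 h' h'' h9 h10 h11 h12).2 _ _ _ hh hh'

/-- Local change for: carrier doubled, base type unused. -/
theorem l2_abs (E A B C K : V → V → Prop) (hA : Mat A) (hB : Mat B) (hC : Mat C) (hK : Mat K)
    (w w1 w' w1' y y1 a a1 : V)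
    (d1 : w' ≠ w1') (d2 : w' ≠ y) (d3 : w' ≠ y1) (d4 : w' ≠ a) (d5 : w' ≠ a1)
    (d6 : w1' ≠ y) (d7 : w1' ≠ y1) (d8 : w1' ≠ a) (d9 : w1' ≠ a1)
    (d10 : y ≠ y1) (d11 : y ≠ a) (d12 : y ≠ a1) (d15 : a ≠ a1)
    (mA : ∀ v, ¬ A w' v) (mB : ∀ v, ¬ B w v) (mC : ∀ v, ¬ C w1 v) (mK : ∀ v, ¬ K y v)
    (B1 : B w' w1') (B2 : B y y1) (B3 : B a a1)
    (hKc : K w1' y1 ∨ (K w1' a1 ∧ K w' a))
    (cov : ∀ u v, E u v → pr w w1 u v ∨ pr w' y u v ∨ A u v ∨ B u v ∨ C u v ∨ K u v) :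
    TS Set.univ E (fun (k b : Bool) =>
      bif k then (bif b then w1' else w') else (bif b then w1 else w)) := by
  have hw : ∀ x z, B x z → w ≠ x := by
    rintro x z h rfl
    exact mB _ h
  have mB' := hB.1
  -- it is enough to give the new classes `B'`, `K'`
  suffices h : ∃ B' K' : V → V → Prop, Mat B' ∧ Mat K' ∧ (∀ v, ¬ B' w v) ∧ (∀ v, ¬ K' w1' v) ∧
      (∀ u v, B u v → pr w' w1' u v ∨ B' u v ∨ K' u v) ∧ (∀ u v, K u v → B' u v ∨ K' u v) ∧
      (B' w' y ∨ K' w' y) by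
    obtain ⟨B', K', hB', hK', m1, m2, c1, c2, c3⟩ := h
    refine ⟨fun k b => bif k then (bif b then K' else A) else (bif b then C else B'),
      ?_, fun _ _ _ _ _ => ⟨trivial, trivial⟩, ?_, ?_, ?_⟩
    · intro k b
      cases k <;> cases b
      exacts [hB'.1, hC.1, hA.1, hK'.1]
    · intro k b
      cases k <;> cases b
      exacts [hB'.2, hC.2, hA.2, hK'.2]
    · intro k b
      cases k <;> cases b
      exacts [m1, mC, mA, m2]
    · intro u _ v _ huv
      have hp : ∀ (k : Bool) (p q : V), pr p q u v →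
          p = (bif k then w' else w) → q = (bif k then w1' else w1) →
          ∃ k : Bool, (u = (bif k then (bif false then w1' else w') else
              (bif false then w1 else w)) ∧
            v = (bif k then (bif true then w1' else w') else (bif true then w1 else w))) ∨
            (u = (bif k then (bif true then w1' else w') else (bif true then w1 else w)) ∧
            v = (bif k then (bif false then w1' else w') else (bif false then w1 else w))) := by
        intro k p q h hp hq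
        refine ⟨k, ?_⟩
        cases k
        · rw [hp, hq] at h; exact h
        · rw [hp, hq] at h; exact h
      have hB'c : B' u v → ∃ k b : Bool,
          (bif k then (bif b then K' else A) else (bif b then C else B')) u v :=
        fun h => ⟨false, false, h⟩
      have hK'c : K' u v → ∃ k b : Bool,
          (bif k then (bif b then K' else A) else (bif b then C else B')) u v :=
        fun h => ⟨true, true, h⟩
      rcases cov u v huv with h | h | h | h | h | h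
      · exact Or.inl (hp false w w1 h rfl rfl)
      · right
        rcases c3 with c3 | c3
        · apply hB'c
          rcases h with ⟨rfl, rfl⟩ | ⟨rfl, rfl⟩
          · exact c3
          · exact hB'.1 _ _ c3
        · apply hK'c
          rcases h with ⟨rfl, rfl⟩ | ⟨rfl, rfl⟩
          · exact c3
          · exact hK'.1 _ _ c3
      · exact Or.inr ⟨true, false, h⟩
      · rcases c1 u v h with h | h | h
        · exact Or.inl (hp true w' w1' h rfl rfl)
        · exact Or.inr (hB'c h)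
        · exact Or.inr (hK'c h)
      · exact Or.inr ⟨false, true, h⟩
      · rcases c2 u v h with h | h
        · exact Or.inr (hB'c h)
        · exact Or.inr (hK'c h)
  rcases hKc with k1 | ⟨k1, k2⟩
  · -- case (a)
    refine ⟨modif B (fun x => x = w' ∨ x = w1' ∨ x = y ∨ x = y1)
        (fun u v => pr w' y u v ∨ pr y1 w1' u v),
      modif K (fun x => x = y ∨ x = y1 ∨ x = w1') (pr y y1), ?_, ?_, ?_, ?_, ?_, ?_, ?_⟩
    · apply hB.modif (Mat.pr2 d2 d7.symm d3 d1 d10 d6.symm)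
      rintro u v ((⟨rfl, _⟩ | ⟨rfl, _⟩) | (⟨rfl, _⟩ | ⟨rfl, _⟩)) <;> simp
    · apply hK.modif (Mat.pr1 d10)
      rintro u v (⟨rfl, _⟩ | ⟨rfl, _⟩) <;> simp
    · apply modif_miss_out mB
      rintro v ((⟨h, _⟩ | ⟨h, _⟩) | (⟨h, _⟩ | ⟨h, _⟩))
      · exact hw _ _ B1 h
      · exact hw _ _ B2 h
      · exact hw _ _ (mB' _ _ B2) h
      · exact hw _ _ (mB' _ _ B1) h
    · apply modif_miss_in (by simp)
      rintro v (⟨h, _⟩ | ⟨h, _⟩)
      · exact d6 h
      · exact d7 h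
    · have key : ∀ u v, (u = w' ∨ u = w1' ∨ u = y ∨ u = y1) → B u v →
          pr w' w1' u v ∨ pr y y1 u v := by
        rintro u v (rfl | rfl | rfl | rfl) h
        · rw [hB.2 _ _ _ h B1]; exact Or.inl (pr_self _ _)
        · rw [hB.2 _ _ _ h (mB' _ _ B1)]; exact Or.inl (pr_self' _ _)
        · rw [hB.2 _ _ _ h B2]; exact Or.inr (pr_self _ _)
        · rw [hB.2 _ _ _ h (mB' _ _ B2)]; exact Or.inr (pr_self' _ _)
      intro u v h
      rcases modif_cov hB (S := fun x => x = w' ∨ x = w1' ∨ x = y ∨ x = y1)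
        (Ad := fun u v => pr w' y u v ∨ pr y1 w1' u v) h with h1 | ⟨h1, h2⟩ | ⟨h1, h2⟩
      · exact Or.inr (Or.inl h1)
      · rcases key u v h1 h2 with h3 | h3
        · exact Or.inl h3
        · exact Or.inr (Or.inr (Or.inr h3))
      · rcases key v u h1 h2 with h3 | h3
        · exact Or.inl (pr_symm h3)
        · exact Or.inr (Or.inr (Or.inr (pr_symm h3)))
    · have key : ∀ u v, (u = y ∨ u = y1 ∨ u = w1') → K u v → pr y1 w1' u v := by
        rintro u v (rfl | rfl | rfl) h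
        · exact absurd h (mK v)
        · rw [hK.2 _ _ _ h (hK.1 _ _ k1)]; exact pr_self _ _
        · rw [hK.2 _ _ _ h k1]; exact pr_self' _ _
      intro u v h
      rcases modif_cov hK (S := fun x => x = y ∨ x = y1 ∨ x = w1') (Ad := pr y y1) h with
        h1 | ⟨h1, h2⟩ | ⟨h1, h2⟩
      · exact Or.inr h1
      · exact Or.inl (Or.inr (Or.inr (key u v h1 h2)))
      · exact Or.inl (Or.inr (Or.inr (pr_symm (key v u h1 h2))))
    · exact Or.inl (Or.inr (Or.inl (pr_self _ _)))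
  · -- case (b)
    refine ⟨modif B (fun x => x = w' ∨ x = w1' ∨ x = a ∨ x = a1)
        (fun u v => pr w' a u v ∨ pr a1 w1' u v),
      modif K (fun x => x = w1' ∨ x = a1 ∨ x = w' ∨ x = a ∨ x = y)
        (fun u v => pr a a1 u v ∨ pr w' y u v), ?_, ?_, ?_, ?_, ?_, ?_, ?_⟩
    · apply hB.modif (Mat.pr2 d4 d9.symm d5 d1 d15 d8.symm)
      rintro u v ((⟨rfl, _⟩ | ⟨rfl, _⟩) | (⟨rfl, _⟩ | ⟨rfl, _⟩)) <;> simp
    · apply hK.modif (Mat.pr2 d15 d2 d4.symm d11.symm d5.symm d12.symm)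
      rintro u v ((⟨rfl, _⟩ | ⟨rfl, _⟩) | (⟨rfl, _⟩ | ⟨rfl, _⟩)) <;> simp
    · apply modif_miss_out mB
      rintro v ((⟨h, _⟩ | ⟨h, _⟩) | (⟨h, _⟩ | ⟨h, _⟩))
      · exact hw _ _ B1 h
      · exact hw _ _ B3 h
      · exact hw _ _ (mB' _ _ B3) h
      · exact hw _ _ (mB' _ _ B1) h
    · apply modif_miss_in (by simp)
      rintro v ((⟨h, _⟩ | ⟨h, _⟩) | (⟨h, _⟩ | ⟨h, _⟩))
      · exact d8 h
      · exact d9 h
      · exact d1 h.symm
      · exact d6 h
    · have key : ∀ u v, (u = w' ∨ u = w1' ∨ u = a ∨ u = a1) → B u v →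
          pr w' w1' u v ∨ pr a a1 u v := by
        rintro u v (rfl | rfl | rfl | rfl) h
        · rw [hB.2 _ _ _ h B1]; exact Or.inl (pr_self _ _)
        · rw [hB.2 _ _ _ h (mB' _ _ B1)]; exact Or.inl (pr_self' _ _)
        · rw [hB.2 _ _ _ h B3]; exact Or.inr (pr_self _ _)
        · rw [hB.2 _ _ _ h (mB' _ _ B3)]; exact Or.inr (pr_self' _ _)
      intro u v h
      rcases modif_cov hB (S := fun x => x = w' ∨ x = w1' ∨ x = a ∨ x = a1)
        (Ad := fun u v => pr w' a u v ∨ pr a1 w1' u v) h with h1 | ⟨h1, h2⟩ | ⟨h1, h2⟩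
      · exact Or.inr (Or.inl h1)
      · rcases key u v h1 h2 with h3 | h3
        · exact Or.inl h3
        · exact Or.inr (Or.inr (Or.inr (Or.inl h3)))
      · rcases key v u h1 h2 with h3 | h3
        · exact Or.inl (pr_symm h3)
        · exact Or.inr (Or.inr (Or.inr (Or.inl (pr_symm h3))))
    · have key : ∀ u v, (u = w1' ∨ u = a1 ∨ u = w' ∨ u = a ∨ u = y) → K u v →
          pr a1 w1' u v ∨ pr w' a u v := by
        rintro u v (rfl | rfl | rfl | rfl | rfl) h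
        · rw [hK.2 _ _ _ h k1]; exact Or.inl (pr_self' _ _)
        · rw [hK.2 _ _ _ h (hK.1 _ _ k1)]; exact Or.inl (pr_self _ _)
        · rw [hK.2 _ _ _ h k2]; exact Or.inr (pr_self _ _)
        · rw [hK.2 _ _ _ h (hK.1 _ _ k2)]; exact Or.inr (pr_self' _ _)
        · exact absurd h (mK v)
      intro u v h
      rcases modif_cov hK (S := fun x => x = w1' ∨ x = a1 ∨ x = w' ∨ x = a ∨ x = y)
        (Ad := fun u v => pr a a1 u v ∨ pr w' y u v) h with h1 | ⟨h1, h2⟩ | ⟨h1, h2⟩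
      · exact Or.inr h1
      · rcases key u v h1 h2 with h3 | h3
        · exact Or.inl (Or.inr (Or.inr h3))
        · exact Or.inl (Or.inr (Or.inl h3))
      · rcases key v u h1 h2 with h3 | h3
        · exact Or.inl (Or.inr (Or.inr (pr_symm h3)))
        · exact Or.inl (Or.inr (Or.inl (pr_symm h3)))
    · exact Or.inr (Or.inr (Or.inr (pr_self _ _)))

end Pool.Agent.P45
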