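import Mathlib

/-! # From a shift to boundaries of labels (MODULE P45dba8.OBound, 1 h)

`n = 4k+1` (any `k ≥ 1`; NOT necessarily prime), `v` a unit of `ZMod n`; note that `2` is a unit
(`n` is odd; `2 * (2k+1) = 1` in `ZMod n`), so `2 v` is a unit. `D`, `E` are disjoint symmetric sets
(`x ∈ D → -x ∈ D`) not containing `0`.

Claim 1 (`bound_ge`): if at least `m` elements `x ∈ D` have `x + 2v ∈ E`, then at least `m` labels
`j ∈ [1, 2k-1]` are boundaries, i.e. `v * (2j)` and `v * (2(j+1))` lie on different sides.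
Proof: write `x = v * (2j)` with `j = (x * (2v)⁻¹).val ∈ [0, n-1]`. `x ≠ 0` gives `j ≠ 0` and
`x + 2v ≠ 0` gives `j ≠ n-1`. Map `x` to `φ(x) = j` if `j ≤ 2k-1` and to `n - 1 - j = 4k - j`
otherwise. `j = 2k` is impossible: `v*(2*(2k+1)) = -(v*(2*2k))` since `2(2k+1) + 4k = 2n ≡ 0`, so
`x` and `x + 2v = -x` are on the same side. In the second case `j ≥ 2k+1`, and with `j' = 4k - j`:
`v * (2 j') = v * (2 (n-1-j)) = -(v * 2(j+1)) = -(x+2v) ∈ E` and `v * (2 (j'+1)) = -(x) ∈ D`; so `j'`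
is a boundary of type (E, D), while in the first case it is of type (D, E). Hence `φ` is
injective (`D`, `E` disjoint separates the two cases) with values in the boundary set
(`Finset.card_le_card_of_injOn`).

Claim 2 (`label_card`): if `D.card = 2 c`, then exactly `c` labels `j ∈ [1, 2k]` have
`v * (2j) ∈ D`. Proof: the map `j ↦ v*(2j)`, `j ∈ [1, 4k]`, is a bijection onto the nonzero
elements; `j ↦ n - j` exchanges `[1, 2k]` and `[2k+1, 4k]` and corresponds to `x ↦ -x`. So `D` is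
the disjoint union of the images of the label set under `j ↦ v*(2j)` and `j ↦ -(v*(2j))`. -/

set_option autoImplicit false

namespace Pool.Agent.P45

namespace OBoundAux

variable {k : ℕ}

/-- the label map -/
def f (v : ZMod (4 * k + 1)) (j : ℕ) : ZMod (4 * k + 1) := v * (2 * (j : ZMod (4 * k + 1)))

/-- the label of an element -/
def g (w : ZMod (4 * k + 1)) (x : ZMod (4 * k + 1)) : ℕ := (x * w).val

theorem two_unit (v : ZMod (4 * k + 1)) (hv : IsUnit v) : ∃ w, (v * 2) * w = 1 := by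
  have h2 : (2 : ZMod (4 * k + 1)) * ((2 * k + 1 : ℕ) : ZMod (4 * k + 1)) = 1 := by
    have h3 : ((4 * k + 1 : ℕ) : ZMod (4 * k + 1)) = 0 := ZMod.natCast_self _
    have h4 : (2 : ZMod (4 * k + 1)) * ((2 * k + 1 : ℕ) : ZMod (4 * k + 1)) =
        ((4 * k + 1 : ℕ) : ZMod (4 * k + 1)) + 1 := by
      push_cast
      ring
    rw [h4, h3, zero_add]
  obtain ⟨u, rfl⟩ := hv
  refine ⟨((u⁻¹ : (ZMod (4 * k + 1))ˣ) : ZMod (4 * k + 1)) *
    ((2 * k + 1 : ℕ) : ZMod (4 * k + 1)), ?_⟩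
  calc (u : ZMod (4 * k + 1)) * 2 * (((u⁻¹ : (ZMod (4 * k + 1))ˣ) : ZMod (4 * k + 1)) *
        ((2 * k + 1 : ℕ) : ZMod (4 * k + 1))) =
      ((u : ZMod (4 * k + 1)) * ((u⁻¹ : (ZMod (4 * k + 1))ˣ) : ZMod (4 * k + 1))) *
        (2 * ((2 * k + 1 : ℕ) : ZMod (4 * k + 1))) := by ring
    _ = 1 := by rw [Units.mul_inv, h2, one_mul]

theorem fg {v w : ZMod (4 * k + 1)} (hw : (v * 2) * w = 1) (x : ZMod (4 * k + 1)) :
    f v (g w x) = x := by
  unfold f g
  rw [ZMod.natCast_zmod_val]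
  calc v * (2 * (x * w)) = x * ((v * 2) * w) := by ring
    _ = x := by rw [hw, mul_one]

theorem gf {v w : ZMod (4 * k + 1)} (hw : (v * 2) * w = 1) {j : ℕ} (hj : j < 4 * k + 1) :
    g w (f v j) = j := by
  unfold f g
  have h : v * (2 * (j : ZMod (4 * k + 1))) * w = j := by
    calc v * (2 * (j : ZMod (4 * k + 1))) * w = j * ((v * 2) * w) := by ring
      _ = j := by rw [hw, mul_one]
  rw [h, ZMod.val_natCast, Nat.mod_eq_of_lt hj]

theorem g_lt (w x : ZMod (4 * k + 1)) : g w x < 4 * k + 1 := ZMod.val_lt _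

theorem f_zero (v : ZMod (4 * k + 1)) : f v 0 = 0 := by
  unfold f
  simp

theorem f_succ (v : ZMod (4 * k + 1)) (j : ℕ) : f v (j + 1) = f v j + 2 * v := by
  unfold f
  push_cast
  ring

theorem f_sub (v : ZMod (4 * k + 1)) {j : ℕ} (hj : j ≤ 4 * k + 1) :
    f v (4 * k + 1 - j) = - f v j := by
  unfold f
  rw [Nat.cast_sub hj, ZMod.natCast_self]
  ring

end OBoundAux

open OBoundAux

theorem bound_ge (k : ℕ) (hk : 1 ≤ k) (D E : Finset (ZMod (4 * k + 1)))
    (hd : Disjoint D E) (hD : ∀ x, x ∈ D → -x ∈ D) (hE : ∀ x, x ∈ E → -x ∈ E)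
    (hD0 : (0 : ZMod (4 * k + 1)) ∉ D) (hE0 : (0 : ZMod (4 * k + 1)) ∉ E)
    (v : ZMod (4 * k + 1)) (hv : IsUnit v) (m : ℕ)
    (hm : m ≤ (D.filter (fun x => x + 2 * v ∈ E)).card) :
    m ≤ ((Finset.Icc 1 (2 * k - 1)).filter (fun j : ℕ =>
      (v * (2 * (j : ZMod (4 * k + 1))) ∈ D ∧ v * (2 * ((j + 1 : ℕ) : ZMod (4 * k + 1))) ∈ E) ∨
      (v * (2 * (j : ZMod (4 * k + 1))) ∈ E ∧
        v * (2 * ((j + 1 : ℕ) : ZMod (4 * k + 1))) ∈ D))).card := by
  classical
  obtain ⟨w, hw⟩ := two_unit v hv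
  refine hm.trans ?_
  have key : ∀ x ∈ D.filter (fun x => x + 2 * v ∈ E), 1 ≤ g w x ∧ g w x ≤ 4 * k - 1 ∧
      g w x ≠ 2 * k ∧ f v (g w x) ∈ D ∧ f v (g w x + 1) ∈ E := by
    intro x hx
    obtain ⟨hxD, hxE⟩ := Finset.mem_filter.1 hx
    have hfx := fg hw x
    have hfx1 : f v (g w x + 1) = x + 2 * v := by rw [f_succ, hfx]
    have h0 : g w x ≠ 0 := by
      intro h
      rw [h, f_zero] at hfx
      rw [← hfx] at hxD
      exact hD0 hxD
    have h4 : g w x ≠ 4 * k := by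
      intro h
      rw [h] at hfx1
      have h5 := f_sub v (j := 4 * k + 1) le_rfl
      rw [Nat.sub_self, f_zero] at h5
      have h6 : f v (4 * k + 1) = 0 := by
        rw [← neg_eq_zero]
        exact h5.symm
      rw [h6] at hfx1
      rw [← hfx1] at hxE
      exact hE0 hxE
    have h2 : g w x ≠ 2 * k := by
      intro h
      rw [h] at hfx hfx1
      have h5 := f_sub v (j := 2 * k) (by omega)
      have h6 : 4 * k + 1 - 2 * k = 2 * k + 1 := by omega
      rw [h6, hfx, hfx1] at h5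
      rw [h5] at hxE
      exact Finset.disjoint_left.1 hd (hD x hxD) hxE
    have := g_lt w x
    refine ⟨by omega, by omega, h2, ?_, ?_⟩
    · rw [hfx]
      exact hxD
    · rw [hfx1]
      exact hxE
  have key2 : ∀ j, j ≤ 4 * k - 1 → 1 ≤ j → 2 * k + 1 ≤ j → f v j ∈ D → f v (j + 1) ∈ E →
      f v (4 * k - j) ∈ E ∧ f v (4 * k - j + 1) ∈ D := by
    intro j h1 h0 h2 h3 h4
    have e1 : 4 * k - j = 4 * k + 1 - (j + 1) := by omega
    have e2 : 4 * k - j + 1 = 4 * k + 1 - j := by omega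
    rw [e2, f_sub v (by omega), e1, f_sub v (by omega)]
    exact ⟨hE _ h4, hD _ h3⟩
  refine Finset.card_le_card_of_injOn
    (fun x => if g w x ≤ 2 * k - 1 then g w x else 4 * k - g w x) ?_ ?_
  · intro x hx
    obtain ⟨h1, h2, h3, h4, h5⟩ := key x hx
    simp only [Finset.coe_filter, Finset.mem_Icc, Set.mem_ofPred_eq]
    by_cases h : g w x ≤ 2 * k - 1
    · rw [if_pos h]
      exact ⟨⟨h1, h⟩, Or.inl ⟨h4, h5⟩⟩
    · rw [if_neg h]
      obtain ⟨h6, h7⟩ := key2 _ h2 h1 (by omega) h4 h5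
      exact ⟨⟨by omega, by omega⟩, Or.inr ⟨h6, h7⟩⟩
  · intro x hx y hy hxy
    obtain ⟨h1, h2, h3, h4, h5⟩ := key x hx
    obtain ⟨i1, i2, i3, i4, i5⟩ := key y hy
    simp only at hxy
    have hgg : g w x = g w y := by
      by_cases h : g w x ≤ 2 * k - 1
      · by_cases i : g w y ≤ 2 * k - 1
        · rw [if_pos h, if_pos i] at hxy
          exact hxy
        · exfalso
          rw [if_pos h, if_neg i] at hxy
          obtain ⟨i6, i7⟩ := key2 _ i2 i1 (by omega) i4 i5
          rw [← hxy] at i6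
          exact Finset.disjoint_left.1 hd h4 i6
      · obtain ⟨h6, h7⟩ := key2 _ h2 h1 (by omega) h4 h5
        by_cases i : g w y ≤ 2 * k - 1
        · exfalso
          rw [if_neg h, if_pos i] at hxy
          rw [hxy] at h6
          exact Finset.disjoint_left.1 hd i4 h6
        · rw [if_neg h, if_neg i] at hxy
          omega
    rw [← fg hw x, hgg, fg hw y]

theorem label_card (k : ℕ) (hk : 1 ≤ k) (D : Finset (ZMod (4 * k + 1)))
    (hD : ∀ x, x ∈ D → -x ∈ D) (hD0 : (0 : ZMod (4 * k + 1)) ∉ D)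
    (v : ZMod (4 * k + 1)) (hv : IsUnit v) (c : ℕ) (hc : D.card = 2 * c) :
    ((Finset.Icc 1 (2 * k)).filter
      (fun j : ℕ => v * (2 * (j : ZMod (4 * k + 1))) ∈ D)).card = c := by
  classical
  obtain ⟨w, hw⟩ := two_unit v hv
  have hA : (D.filter (fun x => g w x ≤ 2 * k)).card = ((Finset.Icc 1 (2 * k)).filter
      (fun j : ℕ => f v j ∈ D)).card := by
    refine Finset.card_nbij' (g w) (f v) ?_ ?_ ?_ ?_
    · intro x hx
      obtain ⟨hxD, hx2⟩ := Finset.mem_filter.1 hx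
      have hfx := fg hw x
      have h0 : g w x ≠ 0 := by
        intro h
        rw [h, f_zero] at hfx
        rw [← hfx] at hxD
        exact hD0 hxD
      refine Finset.mem_filter.2 ⟨Finset.mem_Icc.2 ⟨by omega, hx2⟩, ?_⟩
      rw [hfx]
      exact hxD
    · intro j hj
      obtain ⟨hj1, hj2⟩ := Finset.mem_filter.1 hj
      have hj3 := Finset.mem_Icc.1 hj1
      refine Finset.mem_filter.2 ⟨hj2, ?_⟩
      rw [gf hw (by omega)]
      exact hj3.2
    · intro x _
      exact fg hw x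
    · intro j hj
      obtain ⟨hj1, hj2⟩ := Finset.mem_filter.1 hj
      have hj3 := Finset.mem_Icc.1 hj1
      exact gf hw (by omega)
  have hB : (D.filter (fun x => ¬ g w x ≤ 2 * k)).card = ((Finset.Icc 1 (2 * k)).filter
      (fun j : ℕ => f v j ∈ D)).card := by
    refine Finset.card_nbij' (fun x => g w (-x)) (fun j => - f v j) ?_ ?_ ?_ ?_
    · intro x hx
      obtain ⟨hxD, hx2⟩ := Finset.mem_filter.1 hx
      have hfx := fg hw x
      have hlt := g_lt w x
      have h1 := f_sub v (j := g w x) hlt.le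
      rw [hfx] at h1
      have h2 : g w (-x) = 4 * k + 1 - g w x := by
        rw [← h1, gf hw (by omega)]
      show g w (-x) ∈ (Finset.Icc 1 (2 * k)).filter (fun j : ℕ => f v j ∈ D)
      refine Finset.mem_filter.2 ⟨Finset.mem_Icc.2 ⟨by omega, by omega⟩, ?_⟩
      rw [fg hw]
      exact hD x hxD
    · intro j hj
      obtain ⟨hj1, hj2⟩ := Finset.mem_filter.1 hj
      have hj3 := Finset.mem_Icc.1 hj1
      show - f v j ∈ D.filter (fun x => ¬ g w x ≤ 2 * k)
      refine Finset.mem_filter.2 ⟨hD _ hj2, ?_⟩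
      rw [← f_sub v (j := j) (by omega), gf hw (by omega)]
      omega
    · intro x _
      simp only
      rw [fg hw, neg_neg]
    · intro j hj
      obtain ⟨hj1, hj2⟩ := Finset.mem_filter.1 hj
      have hj3 := Finset.mem_Icc.1 hj1
      simp only
      rw [neg_neg, gf hw (by omega)]
  have h1 := Finset.card_filter_add_card_filter_not (s := D) (fun x => g w x ≤ 2 * k)
  rw [hA, hB, hc] at h1
  change ((Finset.Icc 1 (2 * k)).filter (fun j : ℕ => f v j ∈ D)).card = c
  omega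

end Pool.Agent.P45
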