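import Pool.Agent.Lib.P45dba8.Even
import Pool.Agent.Lib.P45dba8.ODefs

/-! # One side: doubled labels host unused labels (MODULE P45dba8.OHost, 1 h)

`L ⊆ [1, 2k]` has `2q+1` elements: `q` doubled labels `dd l` (`l < q`), one single label `s`; the
remaining `q` labels (the unused ones) are hosted by the doubled ones.

Proof. `U := (L \ image dd (range q)).erase s` has `2q+1-q-1 = q` elements; choose an injective
enumeration `u : ℕ → ℕ` of `U` on `range q` (e.g. from `Finset.equivFin` or
`U.orderEmbOfFin`; or use an equiv `Fin q ≃ U`). For `l < q` apply `pair` (Block.lean) with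
`d := δ l`, `b := 2 * (u l)`, `x := x l`, `z := z l`: it gives
`EG {δ l, -δ l, 2 u l, -(2 u l)} {x l, x l + δ l, z l, z l + δ l}`; the side conditions
`b ≠ 0`, `d ≠ 0`, `b ≠ ± d` follow from `cast_ne_zero'`, `cast_ne`, `cast_add_ne` (Even.lean) and
cancelling the factor `2 ≠ 0` in the field `ZMod n`. For the single label use `single` (Block.lean):
`EG {e, -e} {y, y + e}`. Combine with `EG.biUnion` over `range q` and `EG.union`, and finish with
`EG.congr`: every element of `LSet k L` is `±2j` with `j ∈ L`, and `j` is `s`, a `dd l` or a `u l`.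
(Compare the end of `even_case` in Even.lean, which is the same argument.) -/

set_option autoImplicit false

namespace Pool.Agent.P45

theorem host (k q : ℕ) (hp : (4 * k + 1).Prime) (L : Finset ℕ) (hL : L ⊆ Finset.Icc 1 (2 * k))
    (hc : L.card = 2 * q + 1) (dd : ℕ → ℕ) (hdd : ∀ l < q, dd l ∈ L)
    (hinj : ∀ l < q, ∀ l' < q, dd l = dd l' → l = l') (s : ℕ) (hs : s ∈ L)
    (hsd : ∀ l < q, dd l ≠ s) (x z δ : ℕ → ZMod (4 * k + 1))
    (hδ : ∀ l < q, δ l = 2 * (dd l : ZMod (4 * k + 1)) ∨ δ l = -(2 * (dd l : ZMod (4 * k + 1))))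
    (h1 : ∀ l < q, z l ≠ x l) (h2 : ∀ l < q, z l ≠ x l + δ l) (h3 : ∀ l < q, z l + δ l ≠ x l)
    (y e : ZMod (4 * k + 1))
    (he : e = 2 * (s : ZMod (4 * k + 1)) ∨ e = -(2 * (s : ZMod (4 * k + 1))))
    (hdis : ∀ l < q, ∀ l' < q, l ≠ l' →
      Disjoint ({x l, x l + δ l, z l, z l + δ l} : Finset (ZMod (4 * k + 1)))
        {x l', x l' + δ l', z l', z l' + δ l'})
    (hy : ∀ l < q, Disjoint ({x l, x l + δ l, z l, z l + δ l} : Finset (ZMod (4 * k + 1)))
      {y, y + e}) :
    EG (LSet k L) ((Finset.range q).biUnion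
      (fun l => ({x l, x l + δ l, z l, z l + δ l} : Finset (ZMod (4 * k + 1)))) ∪ {y, y + e}) := by
  classical
  have : Fact (4 * k + 1).Prime := ⟨hp⟩
  have hodd : Odd (4 * k + 1) := ⟨2 * k, by ring⟩
  have hk : 1 ≤ k := by
    rcases Nat.eq_zero_or_pos k with h | h
    · exfalso
      rw [h] at hp
      exact Nat.not_prime_one (by simpa using hp)
    · exact h
  have h20 : (2 : ZMod (4 * k + 1)) ≠ 0 := by
    have := cast_ne_zero' (k := k) (s := 2) (by rw [Finset.mem_Icc]; omega)
    simpa using this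
  set U : Finset ℕ := (L \ (Finset.range q).image dd).erase s with hU
  have hsU : s ∈ L \ (Finset.range q).image dd := by
    rw [Finset.mem_sdiff]
    refine ⟨hs, ?_⟩
    intro h
    rw [Finset.mem_image] at h
    obtain ⟨l, hl, h⟩ := h
    exact hsd l (Finset.mem_range.mp hl) h
  have hsub : (Finset.range q).image dd ⊆ L := by
    intro j hj
    rw [Finset.mem_image] at hj
    obtain ⟨l, hl, rfl⟩ := hj
    exact hdd l (Finset.mem_range.mp hl)
  have hcU : U.card = q := by
    rw [hU, Finset.card_erase_of_mem hsU, Finset.card_sdiff_of_subset hsub,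
      Finset.card_image_of_injOn, Finset.card_range, hc]
    · omega
    · intro a ha b hb h
      rw [Finset.coe_range, Set.mem_Iio] at ha hb
      exact hinj a ha b hb h
  have eU : Fin q ≃ U := Fintype.equivOfCardEq (by
    rw [Fintype.card_fin, Fintype.card_coe, hcU])
  let u : ℕ → ℕ := fun l => if h : l < q then (eU ⟨l, h⟩).1 else 0
  have huv : ∀ l (h : l < q), u l = (eU ⟨l, h⟩).1 := fun l h => dif_pos h
  have huU : ∀ l < q, u l ∈ U := by
    intro l hl
    rw [huv l hl]
    exact (eU ⟨l, hl⟩).2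
  have huL : ∀ l < q, u l ∈ L := by
    intro l hl
    have h := Finset.mem_of_mem_erase (huU l hl)
    rw [Finset.mem_sdiff] at h
    exact h.1
  have hud : ∀ l < q, ∀ l' < q, dd l' ≠ u l := by
    intro l hl l' hl' h
    have h1 := Finset.mem_of_mem_erase (huU l hl)
    rw [Finset.mem_sdiff] at h1
    exact h1.2 (Finset.mem_image.mpr ⟨l', Finset.mem_range.mpr hl', h⟩)
  have hblock : ∀ l ∈ Finset.range q,
      EG ({δ l, -δ l, 2 * (u l : ZMod (4 * k + 1)), -(2 * (u l : ZMod (4 * k + 1)))} :
        Set (ZMod (4 * k + 1))) ({x l, x l + δ l, z l, z l + δ l} : Finset (ZMod (4 * k + 1))) := by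
    intro l hl
    rw [Finset.mem_range] at hl
    have g1 := cast_ne_zero' (hL (hdd l hl))
    have g2 := cast_ne_zero' (hL (huL l hl))
    have g3 := cast_ne (hL (hdd l hl)) (hL (huL l hl)) (hud l hl l hl)
    have g4 := cast_add_ne (hL (hdd l hl)) (hL (huL l hl))
    have f1 : (2 : ZMod (4 * k + 1)) * (u l : ZMod (4 * k + 1)) ≠ 2 * (dd l : ZMod (4 * k + 1)) :=
      fun h => g3 (mul_left_cancel₀ h20 h).symm
    have f2 : (2 : ZMod (4 * k + 1)) * (u l : ZMod (4 * k + 1)) ≠
        -(2 * (dd l : ZMod (4 * k + 1))) := by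
      intro h
      apply g4
      apply mul_left_cancel₀ h20
      linear_combination h
    apply pair hodd (δ l) (2 * (u l : ZMod (4 * k + 1))) (x l) (z l) _ (mul_ne_zero h20 g2) _ _
      (h1 l hl) (h2 l hl) (h3 l hl)
    · rcases hδ l hl with h | h
      · rw [h]; exact mul_ne_zero h20 g1
      · rw [h]; exact neg_ne_zero.mpr (mul_ne_zero h20 g1)
    · rcases hδ l hl with h | h
      · rw [h]; exact f1
      · rw [h]; exact f2
    · rcases hδ l hl with h | h
      · rw [h]; exact f2
      · rw [h, neg_neg]; exact f1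
  have hsingle : EG ({e, -e} : Set (ZMod (4 * k + 1))) {y, y + e} := by
    apply single hodd e y
    have g1 := cast_ne_zero' (hL hs)
    rcases he with h | h
    · rw [h]; exact mul_ne_zero h20 g1
    · rw [h]; exact neg_ne_zero.mpr (mul_ne_zero h20 g1)
  have hall := EG.union (EG.biUnion (Finset.range q) _ _ hblock (fun i hi j hj hij =>
    hdis i (Finset.mem_range.mp hi) j (Finset.mem_range.mp hj) hij)) hsingle (by
      rw [Finset.disjoint_biUnion_left]
      intro l hl
      exact hy l (Finset.mem_range.mp hl))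
  apply hall.congr _ (fun _ => Iff.rfl)
  intro d hd
  obtain ⟨j, hj, hdj⟩ := hd
  by_cases hjs : j = s
  · right
    rw [hjs] at hdj
    simp only [Set.mem_insert_iff, Set.mem_singleton_iff]
    rcases hdj with h | h <;> rcases he with h' | h' <;> rw [h, h'] <;> simp
  · left
    simp only [Set.mem_iUnion]
    by_cases hjd : j ∈ (Finset.range q).image dd
    · rw [Finset.mem_image] at hjd
      obtain ⟨l, hl, rfl⟩ := hjd
      refine ⟨l, hl, ?_⟩
      simp only [Set.mem_insert_iff, Set.mem_singleton_iff]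
      rcases hdj with h | h <;> rcases hδ l (Finset.mem_range.mp hl) with h' | h' <;>
        rw [h, h'] <;> simp
    · have hjU : j ∈ U := Finset.mem_erase.mpr ⟨hjs, Finset.mem_sdiff.mpr ⟨hj, hjd⟩⟩
      obtain ⟨⟨l, hl⟩, hlj⟩ := eU.surjective ⟨j, hjU⟩
      have hju : j = u l := by rw [huv l hl, hlj]
      refine ⟨l, Finset.mem_range.mpr hl, ?_⟩
      rw [hju] at hdj
      simp only [Set.mem_insert_iff, Set.mem_singleton_iff]
      rcases hdj with h | h <;> rw [h] <;> simp

end Pool.Agent.P45
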