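import Pool.Agent.Lib.P45dba8.PathX

/-! # MP_45dba8: the geometry of an alternating path, any number of tiles

From an alternating path with `2 r - 1` edges to the data of `asm_even` (`k = 2 r`) and of
`asm_odd` (`k = 2 r + 1`). -/

set_option autoImplicit false

namespace Pool.Agent.P45

variable {k : ℕ} {w : ℕ → Bool} {D : ℕ → ℕ} {d m : ℕ}

/-- THE GEOMETRY: a path with `2 r - 1` edges gives the point set `X` of `2 r` points, the perfect
matching by the labels `labS` and the matching by the labels `labT` which misses two points. -/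
theorem APath.data {r : ℕ} (hr : 1 ≤ r) (hk : 1 ≤ k) (h : APath w D d (2 * r - 1))
    (hd : d ≤ 2 * k - 1) :
    (ptsX k D (2 * r)).card = 2 * r ∧ (∀ x ∈ ptsX k D (2 * r), x + 1 ∉ ptsX k D (2 * r)) ∧
    (labS k D r).card = r ∧ (labT k D (r - 1)).card = r - 1 ∧
    (∀ l ∈ labS k D r, 1 ≤ l ∧ l ≤ 2 * k - 1 ∧ w (2 * k - 1 - l) = true) ∧
    (∀ l ∈ labT k D (r - 1), 1 ≤ l ∧ l ≤ 2 * k - 1 ∧ w (2 * k - 1 - l) = false) ∧
    (∀ x, x ∈ ptsX k D (2 * r) ↔ ∃ l ∈ labS k D r,
      x = lend k D (2 * r - 1) l ∨ x = lend k D (2 * r - 1) l + 2 * (l : ZMod (4 * k + 1))) ∧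
    (∀ x, x ∈ ptsX k D (2 * r) ↔ (∃ l ∈ labT k D (r - 1),
      x = lend k D (2 * r - 1) l ∨ x = lend k D (2 * r - 1) l + 2 * (l : ZMod (4 * k + 1))) ∨
      x = ((vpos k D 0 : ℕ) : ZMod (4 * k + 1)) ∨
      x = ((vpos k D (2 * r - 1) : ℕ) : ZMod (4 * k + 1))) := by
  have hkm : 2 * r - 1 + 1 = 2 * r := by omega
  have c1 := h.card_pts hd hk
  have c2 := h.adj_pts hd hk
  rw [hkm] at c1 c2
  obtain ⟨c3, c4⟩ := h.labS_prop (k := k) hd (r := r) (by omega)
  obtain ⟨c5, c6⟩ := h.labT_prop (k := k) hd (r := r - 1) (by omega)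
  have hmem : ∀ i < 2 * r, ((vpos k D i : ℕ) : ZMod (4 * k + 1)) ∈ ptsX k D (2 * r) := fun i hi =>
    Finset.mem_image.2 ⟨i, Finset.mem_range.2 hi, rfl⟩
  refine ⟨c1, c2, c4, c6, c3, c5, ?_, ?_⟩
  · intro x
    constructor
    · intro hx
      unfold ptsX at hx
      obtain ⟨i, hi, rfl⟩ := Finset.mem_image.1 hx
      have hi' := Finset.mem_range.1 hi
      refine ⟨2 * k - 1 - D (2 * (i / 2)), Finset.mem_image.2 ⟨i / 2, Finset.mem_range.2 (by omega),
        rfl⟩, ?_⟩
      have he := h.ends hd hk (i := 2 * (i / 2)) (by omega)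
      rcases Nat.mod_two_eq_zero_or_one i with hp | hp
      · rw [show 2 * (i / 2) = i by omega] at he ⊢
        rcases he with ⟨e1, e2⟩ | ⟨e1, e2⟩
        · left; exact e1.symm
        · right; exact e2.symm
      · have hi1 : 2 * (i / 2) + 1 = i := by omega
        rw [hi1] at he
        rcases he with ⟨e1, e2⟩ | ⟨e1, e2⟩
        · right; exact e2.symm
        · left; exact e1.symm
    · rintro ⟨l, hl, hx⟩
      unfold labS at hl
      obtain ⟨i, hi, rfl⟩ := Finset.mem_image.1 hl
      have hi' := Finset.mem_range.1 hi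
      have he := h.ends hd hk (i := 2 * i) (by omega)
      have m1 := hmem (2 * i) (by omega)
      have m2 := hmem (2 * i + 1) (by omega)
      rcases he with ⟨e1, e2⟩ | ⟨e1, e2⟩
      · rcases hx with hx | hx
        · rw [hx, e1]; exact m1
        · rw [hx, e2]; exact m2
      · rcases hx with hx | hx
        · rw [hx, e1]; exact m2
        · rw [hx, e2]; exact m1
  · intro x
    constructor
    · intro hx
      unfold ptsX at hx
      obtain ⟨i, hi, rfl⟩ := Finset.mem_image.1 hx
      have hi' := Finset.mem_range.1 hi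
      by_cases h0 : i = 0
      · subst h0
        right; left; rfl
      by_cases h1 : i = 2 * r - 1
      · subst h1
        right; right; rfl
      left
      refine ⟨2 * k - 1 - D (2 * ((i - 1) / 2) + 1), Finset.mem_image.2 ⟨(i - 1) / 2,
        Finset.mem_range.2 (by omega), rfl⟩, ?_⟩
      have he := h.ends hd hk (i := 2 * ((i - 1) / 2) + 1) (by omega)
      rcases Nat.mod_two_eq_zero_or_one i with hp | hp
      · have hi1 : 2 * ((i - 1) / 2) + 1 + 1 = i := by omega
        rw [hi1] at he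
        rcases he with ⟨e1, e2⟩ | ⟨e1, e2⟩
        · right; exact e2.symm
        · left; exact e1.symm
      · rw [show 2 * ((i - 1) / 2) + 1 = i by omega] at he ⊢
        rcases he with ⟨e1, e2⟩ | ⟨e1, e2⟩
        · left; exact e1.symm
        · right; exact e2.symm
    · rintro (⟨l, hl, hx⟩ | hx | hx)
      · unfold labT at hl
        obtain ⟨i, hi, rfl⟩ := Finset.mem_image.1 hl
        have hi' := Finset.mem_range.1 hi
        have he := h.ends hd hk (i := 2 * i + 1) (by omega)
        have m1 := hmem (2 * i + 1) (by omega)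
        have m2 := hmem (2 * i + 1 + 1) (by omega)
        rcases he with ⟨e1, e2⟩ | ⟨e1, e2⟩
        · rcases hx with hx | hx
          · rw [hx, e1]; exact m1
          · rw [hx, e2]; exact m2
        · rcases hx with hx | hx
          · rw [hx, e1]; exact m2
          · rw [hx, e2]; exact m1
      · rw [hx]
        exact hmem 0 (by omega)
      · rw [hx]
        exact hmem (2 * r - 1) (by omega)

/-- The displacement of the two ends. -/
theorem path_disp (k : ℕ) (D : ℕ → ℕ) {r : ℕ} (hr : 1 ≤ r) (hk : 1 ≤ k) :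
    ((vpos k D (2 * r - 1) : ℕ) : ZMod (4 * k + 1)) - ((vpos k D 0 : ℕ) : ZMod (4 * k + 1)) =
      ((2 * (2 * k - 1 - slot D (2 * r - 1)) : ℕ) : ZMod (4 * k + 1)) ∧
    2 * (2 * k - 1 - slot D (2 * r - 1)) < 4 * k + 1 := by
  have e0 : vpos k D 0 = 0 := by
    unfold vpos
    rw [if_pos (by norm_num)]
    show 2 * slot D 0 = 0
    rfl
  have e1 : vpos k D (2 * r - 1) = 2 * (2 * k - 1 - slot D (2 * r - 1)) := by
    unfold vpos
    rw [if_neg (by omega)]
  refine ⟨?_, by omega⟩
  rw [e0, e1]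
  simp

end Pool.Agent.P45
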