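import Pool.Agent.Lib.P45dba8.AsmAny
import Pool.Agent.Lib.P45dba8.SmallEven

/-! # MP_45dba8: `k` even, the plain zigzag with an arbitrary unused label `u₀` -/

set_option autoImplicit false

namespace Pool.Agent.P45

/-- THE PLAIN ZIGZAG, `k = 2q` even, no condition on `u₀`. -/
theorem zig_even_any (k q : ℕ) (hk : k = 2 * q) (hq : 1 ≤ q) (S T : Finset ℕ)
    (hU : S ∪ T = Finset.Icc 1 (2 * k)) (h2k : 2 * k ∈ T)
    (J : ℕ → ℕ) (hJ : AltW S T (2 * k) (k - 1) J)
    (u₀ : ℕ) (hu1 : u₀ ∈ T) (hu2 : u₀ ≠ 2 * k)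
    (σ τ : ℕ → ℕ) (hσ : Set.BijOn σ (zDS q J) (S \ zDS q J : Finset ℕ))
    (hτ : Set.BijOn τ (zDT q J) (T \ (zDT q J ∪ {2 * k, u₀}) : Finset ℕ))
    (hGS : GoodLab k (zDS q J) σ) (hGT : GoodLab k (zDT q J) τ) :
    ∃ A : Finset (ZMod (4 * k + 1)), A.card = 2 * k ∧ EG (LSet k S) A ∧ EG (LSet k T) A := by
  classical
  have hSsub : S ⊆ Finset.Icc 1 (2 * k) := hU ▸ Finset.subset_union_left
  have hTsub : T ⊆ Finset.Icc 1 (2 * k) := hU ▸ Finset.subset_union_right
  have hDSS := zDS_sub hk hq hJ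
  have hDTT := zDT_sub hk hJ
  obtain ⟨X, pS, pT, w, w', c, hXk, hadj, hXS, hXT, -, -, -⟩ := zig_geo k q hk hq S T J hJ
  have eS : zDS q J ∪ (S \ zDS q J) = S := Finset.union_sdiff_of_subset hDSS
  have eT : zDT q J ∪ (T \ (zDT q J ∪ {2 * k, u₀})) ∪ {2 * k, u₀} = T := by
    ext x
    simp only [Finset.mem_union, Finset.mem_sdiff, Finset.mem_insert, Finset.mem_singleton]
    constructor
    · rintro ((h | ⟨h, -⟩) | rfl | rfl)
      · exact hDTT h
      · exact h
      · exact h2k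
      · exact hu1
    · intro h
      by_cases h1 : x ∈ zDT q J
      · exact Or.inl (Or.inl h1)
      · by_cases h2 : x = 2 * k ∨ x = u₀
        · exact Or.inr h2
        · exact Or.inl (Or.inr ⟨h, by tauto⟩)
  have huI := Finset.mem_Icc.1 (hTsub hu1)
  have key := asm_even_any k (by omega) (zDS q J) (S \ zDS q J) (zDT q J)
    (T \ (zDT q J ∪ {2 * k, u₀})) u₀ (by rw [eS]; exact hSsub) (by
      intro x hx
      rcases Finset.mem_union.1 hx with h | h
      · exact hTsub (hDTT h)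
      · exact hTsub (Finset.mem_sdiff.1 h).1) huI.1 (by omega) X hXk hadj
    (by rw [card_zDS hk hq hJ, hk]) (by rw [card_zDT hk hJ]; omega)
    pS pT w w' hXS hXT σ τ hσ hτ hGS hGT
  rw [eS, eT] at key
  exact key

section unused

variable {k q : ℕ} (hk : k = 2 * q) (hq : 1 ≤ q) {T D : Finset ℕ} (hcT : T.card = k)
  (h2k : 2 * k ∈ T) (hDT : D ⊆ T) (cD : D.card = q - 1) (h2kD : 2 * k ∉ D)

include hk hq hcT h2k hDT cD h2kD

theorem card_unused1 : (T \ insert (2 * k) D).card = q := by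
  rw [Finset.card_sdiff_of_subset (Finset.insert_subset h2k hDT),
    Finset.card_insert_of_notMem h2kD, cD, hcT]
  omega

theorem card_unused2 {u₀ : ℕ} (hu₀T : u₀ ∈ T) (hu₀D : u₀ ∉ D) (hu₀k : u₀ ≠ 2 * k) :
    (T \ (D ∪ {2 * k, u₀})).card = q - 1 := by
  have hsub' : D ∪ {2 * k, u₀} ⊆ T := by
    intro z hz
    rcases Finset.mem_union.1 hz with h | h
    · exact hDT h
    · rw [Finset.mem_insert, Finset.mem_singleton] at h
      rcases h with rfl | rfl
      · exact h2k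
      · exact hu₀T
  rw [Finset.card_sdiff_of_subset hsub', Finset.card_union_of_disjoint, cD,
    Finset.card_pair (Ne.symm hu₀k), hcT]
  · omega
  · rw [Finset.disjoint_right]
    intro z hz
    rw [Finset.mem_insert, Finset.mem_singleton] at hz
    rcases hz with rfl | rfl
    · exact h2kD
    · exact hu₀D

end unused

/-- Every bijection problem with at least `p` pairs has a good solution. -/
def AnyOK (k p : ℕ) : Prop := ∀ D U : Finset ℕ, D ⊆ Finset.Icc 1 (2 * k) →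
  U ⊆ Finset.Icc 1 (2 * k) → Disjoint D U → D.card = U.card → p ≤ D.card →
  ∃ σ : ℕ → ℕ, Set.BijOn σ D U ∧ GoodLab k D σ

/-- The plain zigzag if every bijection problem is solvable. -/
theorem plain_of_any (k q : ℕ) (hk : k = 2 * q) (hq : 1 ≤ q) (S T : Finset ℕ)
    (hd : Disjoint S T) (hU : S ∪ T = Finset.Icc 1 (2 * k)) (hcS : S.card = k)
    (hcT : T.card = k) (h2k : 2 * k ∈ T) (hA : AnyOK k (q - 1))
    (hb : k - 1 ≤ (Bd S T (2 * k)).card) :
    ∃ A : Finset (ZMod (4 * k + 1)), A.card = 2 * k ∧ EG (LSet k S) A ∧ EG (LSet k T) A := by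
  classical
  have hSsub : S ⊆ Finset.Icc 1 (2 * k) := hU ▸ Finset.subset_union_left
  have hTsub : T ⊆ Finset.Icc 1 (2 * k) := hU ▸ Finset.subset_union_right
  have hcov : ∀ j, 1 ≤ j → j ≤ 2 * k → j ∈ S ∨ j ∈ T := by
    intro j h1 h2
    have : j ∈ S ∪ T := by rw [hU, Finset.mem_Icc]; omega
    exact Finset.mem_union.1 this
  obtain ⟨J, hJ'⟩ := alt_seq (k - 1) S T (2 * k) hd hcov h2k hb
  have hJ := hJ'.altW
  have hDS := zDS_sub hk hq hJ
  have hDT := zDT_sub hk hJ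
  have cDT := card_zDT hk hJ
  have cDS := card_zDS hk hq hJ
  have h2kn : 2 * k ∉ zDT q J := by
    intro h
    have := zDT_lt hk hJ h
    omega
  obtain ⟨u₀, hu₀⟩ : (T \ insert (2 * k) (zDT q J)).Nonempty := by
    rw [← Finset.card_pos, card_unused1 hk hq hcT h2k hDT cDT h2kn]
    omega
  rw [Finset.mem_sdiff, Finset.mem_insert, not_or] at hu₀
  obtain ⟨σ, hσ, hGS⟩ := hA (zDS q J) (S \ zDS q J) (hDS.trans hSsub)
    (Finset.sdiff_subset.trans hSsub) Finset.disjoint_sdiff (by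
      rw [Finset.card_sdiff_of_subset hDS, cDS, hcS, hk]
      omega) (by rw [cDS]; omega)
  obtain ⟨τ, hτ, hGT⟩ := hA (zDT q J) (T \ (zDT q J ∪ {2 * k, u₀})) (hDT.trans hTsub)
    (Finset.sdiff_subset.trans hTsub) (by
      rw [Finset.disjoint_right]
      intro z hz hz'
      exact (Finset.mem_sdiff.1 hz).2 (Finset.mem_union_left _ hz'))
    (by rw [cDT, card_unused2 hk hq hcT h2k hDT cDT h2kn hu₀.1 hu₀.2.2 hu₀.2.1]) (by rw [cDT])
  exact zig_even_any k q hk hq S T hU h2k J hJ u₀ hu₀.1 hu₀.2.1 σ τ hσ hτ hGS hGT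

/-- The layers from `AnyOK` and the Moebius condition. -/
theorem lay_of_any (k q : ℕ) (hk : k = 2 * q) (hq : 1 ≤ q) (hA : AnyOK k (q - 1)) (B : ℕ)
    (hBk : 4 * k < 3 * B)
    (hB : ∀ m, m ∣ 4 * k + 1 → m ≠ 1 → ArithmeticFunction.moebius m = 1 → B ≤ Nat.totient m) :
    LayOK k := by
  refine lay_of_words k (k - 1) (by omega) ?_ ?_
  · intro S hS hc
    obtain ⟨v, hv, h⟩ := bd_of_moebius k B (by omega) hBk hB S hS hc
    exact ⟨v, hv, by omega⟩
  · intro S T hd hU hcS hcT h2k hb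
    exact plain_of_any k q hk hq S T hd hU hcS hcT h2k hA hb

theorem moebius_sq {p m B : ℕ} (hp : p.Prime) (hm : m ∣ p ^ 2) (h1 : m ≠ 1)
    (h2 : ArithmeticFunction.moebius m = 1) : B ≤ Nat.totient m := by
  exfalso
  obtain ⟨i, hi, rfl⟩ := (Nat.dvd_prime_pow hp).1 hm
  interval_cases i
  · exact h1 rfl
  · rw [pow_one, ArithmeticFunction.moebius_apply_prime hp] at h2
    norm_num at h2
  · rw [ArithmeticFunction.moebius_apply_prime_pow hp (by omega), if_neg (by omega)] at h2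
    norm_num at h2

/-- `n = p²`: all values are `1` if at most `|D|` labels are multiples of `p`. -/
theorem any_of_sq (k p m : ℕ) (hp : p.Prime) (hn : 4 * k + 1 = p ^ 2)
    (hm : ∀ D U : Finset ℕ, D ⊆ Finset.Icc 1 (2 * k) → U ⊆ Finset.Icc 1 (2 * k) →
      D.card = U.card → m ≤ D.card →
      ((D ∪ U).filter (fun j => p ∣ j)).card ≤ D.card) : AnyOK k m := by
  intro D U hD hU hDU hc hmD
  obtain ⟨σ, hσ, h1⟩ := exists_bij_free D U hc hDU (fun j => p ∣ j) (hm D U hD hU hc hmD)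
  refine ⟨σ, hσ, side_good_one (Finset.empty_subset _) hD hU hDU
    (Finset.disjoint_empty_left _) (Finset.disjoint_empty_left _) hσ ?_
    (fun i hi => absurd hi (Finset.notMem_empty _))⟩
  intro d hd
  refine gcd3_one ?_
  intro r hr hrn h2 h3
  rw [hn] at hrn
  have : r = p := (Nat.prime_dvd_prime_iff_eq hr hp).1 (hr.dvd_of_dvd_pow hrn)
  subst this
  exact h1 d hd ⟨h2, h3⟩

theorem lay_sq (k q p c : ℕ) (hk : k = 2 * q) (hq : 1 ≤ q) (hp : p.Prime)
    (hn : 4 * k + 1 = p ^ 2) (hc : ((Finset.Icc 1 (2 * k)).filter (fun j => p ∣ j)).card = c)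
    (hcq : c ≤ q - 1 ∨ (q = 1 ∧ c ≤ 1)) : LayOK k := by
  classical
  refine lay_of_any k q hk hq (any_of_sq k p _ hp hn ?_) (4 * k + 1) (by omega) ?_
  · intro D U hD hU hDc hmD
    have h1 : ((D ∪ U).filter (fun j => p ∣ j)).card ≤ c := by
      rw [← hc]
      exact Finset.card_le_card (Finset.filter_subset_filter _ (Finset.union_subset hD hU))
    rcases hcq with h | ⟨h, h'⟩
    · omega
    · rcases Nat.eq_zero_or_pos D.card with h2 | h2
      · have e1 : D = ∅ := Finset.card_eq_zero.1 h2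
        have e2 : U = ∅ := Finset.card_eq_zero.1 (hDc.symm.trans h2)
        subst e1 e2
        simp
      · omega
  · intro m hm h1 h2
    rw [hn] at hm
    exact moebius_sq hp hm h1 h2

theorem lay2 : LayOK 2 := lay_sq 2 1 3 1 (by norm_num) (by norm_num) (by norm_num) (by norm_num)
  (by decide) (Or.inr ⟨rfl, le_rfl⟩)

theorem lay6 : LayOK 6 := lay_sq 6 3 5 2 (by norm_num) (by norm_num) (by norm_num) (by norm_num)
  (by decide) (Or.inl (by norm_num))

theorem lay12 : LayOK 12 := lay_sq 12 6 7 3 (by norm_num) (by norm_num) (by norm_num)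
  (by norm_num) (by decide) (Or.inl (by norm_num))

end Pool.Agent.P45
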