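import Pool.Agent.Lib.P45dba8.ZigEven

/-! # MP_45dba8: `k` odd, the bridge in an alternating sequence

`J 0 > J 1 > ... > J (k-1)` are labels below `2k`, alternately in `S` and `T`, with
`J i = J (i+1) + 1`: the steps `i` and `i+1` are made by one strand only. -/

set_option autoImplicit false

namespace Pool.Agent.P45

theorem zz_add (a : ℕ → ℤ) (l m : ℕ) :
    zz a (l + m) = zz a l + (-1) ^ l * zz (fun i => a (l + i)) m := by
  induction m with
  | zero =>
    have h : zz (fun i => a (l + i)) 0 = 0 := rfl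
    rw [h]
    simp
  | succ m ih =>
    have h1 := zz_diff a (l + m)
    have h2 := zz_diff (fun i => a (l + i)) m
    rw [pow_add] at h1
    rw [← add_assoc]
    have h3 : (-1 : ℤ) ^ l * (zz (fun i => a (l + i)) (m + 1) - zz (fun i => a (l + i)) m) =
        (-1) ^ l * ((-1) ^ m * a (l + m)) := by rw [h2]
    linarith

/-- The partial alternating sums are nested. -/
theorem zz_nest (a : ℕ → ℤ) (N : ℕ) (h0 : ∀ i < N, 0 < a i)
    (h1 : ∀ i, i + 1 < N → a (i + 1) < a i) (l m : ℕ) (hlm : l < m) (hm : m ≤ N) :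
    (Even l → zz a l < zz a m) ∧ (Odd l → zz a m < zz a l) := by
  obtain ⟨c, rfl⟩ : ∃ c, m = l + c := ⟨m - l, by omega⟩
  have h2 := zz_add a l c
  have h3 := (zz_range (fun i => a (l + i)) (N - l) (fun i hi => h0 _ (by omega))
    (fun i hi => h1 (l + i) (by omega)) c (by omega)).2 (by omega)
  constructor
  · intro he
    rw [he.neg_one_pow] at h2
    linarith [h3.1]
  · intro ho
    rw [ho.neg_one_pow] at h2
    linarith [h3.1]

/-- The label of `S` at the bridge. -/
def brS (J : ℕ → ℕ) (i : ℕ) : ℕ := if i % 2 = 0 then J i else J (i + 1)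

/-- The label of `T` at the bridge. -/
def brT (J : ℕ → ℕ) (i : ℕ) : ℕ := if i % 2 = 0 then J (i + 1) else J i

section geo

variable {k r i : ℕ} {J : ℕ → ℕ} {S T : Finset ℕ}

theorem bridge_geo (hk : k = 2 * r + 1) (hJ : AltW S T (2 * k) k J) (hi : i + 2 ≤ k)
    (hJi : J i = J (i + 1) + 1) :
    ∃ (A : Finset (ZMod (4 * k + 1))) (qs qt : ZMod (4 * k + 1)) (p p' : ℕ → ZMod (4 * k + 1))
      (w w' : ZMod (4 * k + 1)), A.card = 2 * k ∧
      (∀ v, v ∈ A ↔ (v = qs ∨ v = qs + 2 * (brS J i : ZMod (4 * k + 1))) ∨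
        ∃ d ∈ (zDS (r + 1) J).erase (brS J i), v = p d ∨ v = p d + 2 * (d : ZMod (4 * k + 1)) ∨
          v = p d + 1 ∨ v = p d + 2 * (d : ZMod (4 * k + 1)) + 1) ∧
      (∀ v, v ∈ A ↔ ((v = qt ∨ v = qt + 2 * (brT J i : ZMod (4 * k + 1))) ∨
        ∃ d ∈ (zDT (r + 1) J).erase (brT J i), v = p' d ∨ v = p' d + 2 * (d : ZMod (4 * k + 1)) ∨
          v = p' d + 1 ∨ v = p' d + 2 * (d : ZMod (4 * k + 1)) + 1) ∨
        v = w ∨ v = w + 1 ∨ v = w' ∨ v = w' + 1) ∧ w' ≠ w ∧
      w' - w = ((2 * zz (fun i => (J i : ℤ)) k - (-1) ^ i : ℤ) : ZMod (4 * k + 1)) := by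
  classical
  obtain ⟨hJ1, hJ2, hJ3, hJ4⟩ := id hJ
  obtain ⟨ix, hix⟩ : ∃ ix : ℕ → ℕ, ∀ j < k, ix (J j) = j := by
    refine ⟨fun d => if h : ∃ j < k, J j = d then h.choose else 0, ?_⟩
    intro j hj
    have h : ∃ j' < k, J j' = J j := ⟨j, hj, rfl⟩
    have e : (if h : ∃ j' < k, J j' = J j then h.choose else 0) = h.choose := dif_pos h
    show (if h : ∃ j' < k, J j' = J j then h.choose else 0) = j
    rw [e]
    exact hJ.inj h.choose_spec.1 hj h.choose_spec.2
  obtain ⟨W, hW⟩ : ∃ W : ℕ → ℤ, W = zz (fun i => (J i : ℤ)) := ⟨_, rfl⟩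
  have hW0 : W 0 = 0 := by rw [hW]; rfl
  have ha0 : ∀ j < k, (0 : ℤ) < (J j : ℤ) := by
    intro j hj
    have := (hJ1 j hj).1
    omega
  have ha1 : ∀ j, j + 1 < k → (J (j + 1) : ℤ) < (J j : ℤ) := by
    intro j hj
    have := hJ2 j hj
    omega
  have hWr : ∀ j ≤ k, 0 ≤ W j ∧ W j < 2 * k := by
    intro j hj
    have h := zz_range (fun i => (J i : ℤ)) k ha0 ha1 j hj
    rw [hW]
    refine ⟨h.1, ?_⟩
    rcases Nat.eq_zero_or_pos j with h0 | h0
    · subst h0
      rw [zz_zero]; omega
    · have h3 := (h.2 h0).2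
      have h4 := (hJ1 0 (by omega)).2
      have h3' : zz (fun i => (J i : ℤ)) j ≤ (J 0 : ℤ) := h3
      omega
  have hWk : 0 < W k := by
    rw [hW]
    exact ((zz_range (fun i => (J i : ℤ)) k ha0 ha1 k le_rfl).2 (by omega)).1
  have hWi : ∀ a ≤ k, ∀ b ≤ k, W a = W b → a = b := by
    intro a ha b hb h
    rw [hW] at h
    exact zz_inj _ k ha0 ha1 a b ha hb h
  have hWn : ∀ l m, l < m → m ≤ k → (Even l → W l < W m) ∧ (Odd l → W m < W l) := by
    intro l m h1 h2
    rw [hW]
    exact zz_nest _ k ha0 ha1 l m h1 h2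
  have hWd : ∀ j, W (j + 1) - W j = (-1) ^ j * (J j : ℤ) := by
    intro j; rw [hW]; exact zz_diff _ j
  have hWe : ∀ c, W (2 * c + 1) = W (2 * c) + J (2 * c) := by
    intro c
    have h := hWd (2 * c)
    rw [pow_mul, neg_one_sq, one_pow, one_mul] at h
    linarith
  have hWo : ∀ c, W (2 * c + 1) = W (2 * c + 2) + J (2 * c + 1) := by
    intro c
    have h := hWd (2 * c + 1)
    have e0 : (-1 : ℤ) ^ (2 * c + 1) = -1 := by
      rw [pow_succ, pow_mul, neg_one_sq, one_pow, one_mul]
    rw [e0] at h
    have e1 : 2 * c + 1 + 1 = 2 * c + 2 := rfl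
    rw [e1] at h
    linarith
  -- the bridge
  have hWe2 : Even i → W (i + 2) = W i + 1 := by
    rintro ⟨c, hc⟩
    obtain rfl : i = 2 * c := by omega
    have h1 := hWe c
    have h2 := hWo c
    rw [hJi] at h1
    push_cast at h1
    linarith
  have hWo2 : Odd i → W (i + 2) = W i - 1 := by
    rintro ⟨c, rfl⟩
    have h1 := hWo c
    have h2 := hWe (c + 1)
    rw [hJi] at h1
    rw [show 2 * (c + 1) = 2 * c + 1 + 1 by ring] at h2
    rw [show 2 * c + 2 = 2 * c + 1 + 1 by ring] at h1
    rw [show 2 * c + 1 + 2 = 2 * c + 1 + 1 + 1 by ring]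
    push_cast at h1
    linarith
  obtain ⟨ev, hev⟩ : ∃ ev : ℤ, ev = if i % 2 = 0 then 1 else -1 := ⟨_, rfl⟩
  obtain ⟨z, hz⟩ : ∃ z : ℕ → ℤ, ∀ j, z j = if (j ≤ i ↔ i % 2 = 0) then 0 else -1 := ⟨_, fun _ => rfl⟩
  -- the points
  let P : ℕ → ZMod (4 * k + 1) := fun j => ((2 * W j : ℤ) : ZMod (4 * k + 1))
  let Z : ℕ → ZMod (4 * k + 1) := fun j => ((2 * W j + z j : ℤ) : ZMod (4 * k + 1))
  have hP : ∀ j, P j = ((2 * W j : ℤ) : ZMod (4 * k + 1)) := fun _ => rfl
  have hZ : ∀ j, Z j = ((2 * W j + z j : ℤ) : ZMod (4 * k + 1)) := fun _ => rfl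
  have hzz : ∀ j, z j = 0 ∨ z j = -1 := by
    intro j
    rw [hz]
    split_ifs
    · exact Or.inl rfl
    · exact Or.inr rfl
  -- the set
  let A : Finset (ZMod (4 * k + 1)) := (Finset.range (k + 1)).image P ∪
    ((Finset.range (k + 1)).filter (fun j => j ≠ i + 1 ∧ j ≠ i + 2)).image
      (fun j => ((2 * W j + (2 * z j + 1) : ℤ) : ZMod (4 * k + 1)))
  have hcard : A.card = 2 * k := by
    show ((Finset.range (k + 1)).image P ∪
      ((Finset.range (k + 1)).filter (fun j => j ≠ i + 1 ∧ j ≠ i + 2)).image
        (fun j => ((2 * W j + (2 * z j + 1) : ℤ) : ZMod (4 * k + 1)))).card = 2 * k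
    have e1 : ((Finset.range (k + 1)).filter (fun j => j ≠ i + 1 ∧ j ≠ i + 2)).card = k - 1 := by
      have e2 : (Finset.range (k + 1)).filter (fun j => j ≠ i + 1 ∧ j ≠ i + 2) =
          (Finset.range (k + 1)) \ {i + 1, i + 2} := by
        ext j
        simp only [Finset.mem_filter, Finset.mem_sdiff, Finset.mem_insert, Finset.mem_singleton,
          not_or]
      rw [e2, Finset.card_sdiff_of_subset, Finset.card_range, Finset.card_pair (by omega)]
      · omega
      · intro j hj
        rw [Finset.mem_insert, Finset.mem_singleton] at hj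
        rw [Finset.mem_range]
        omega
    have cast1 : ∀ a b : ℤ, -1 ≤ a → a < 4 * k → -1 ≤ b → b < 4 * k →
        ((a : ℤ) : ZMod (4 * k + 1)) = ((b : ℤ) : ZMod (4 * k + 1)) → a = b := by
      intro a b h1 h2 h3 h4 h
      have h5 : ((a + 1 : ℤ) : ZMod (4 * k + 1)) = ((b + 1 : ℤ) : ZMod (4 * k + 1)) := by
        rw [Int.cast_add, Int.cast_add, h]
      have h6 := zcast_inj (k := k) (by omega) (by omega) (by omega) (by omega) h5
      omega
    rw [Finset.card_union_of_disjoint, Finset.card_image_of_injOn, Finset.card_image_of_injOn, e1,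
      Finset.card_range]
    · omega
    · intro a ha b hb h
      rw [Finset.mem_coe, Finset.mem_filter, Finset.mem_range] at ha hb
      have ra := hWr a (by omega)
      have rb := hWr b (by omega)
      have za := hzz a
      have zb := hzz b
      have h1 := cast1 _ _ (by omega) (by omega) (by omega) (by omega) h
      by_cases hab : z a = z b
      · exact hWi a (by omega) b (by omega) (by omega)
      · -- one is `≤ i`, the other one `≥ i + 3`
        exfalso
        have key : ∀ a b, a ≤ i → i + 3 ≤ b → b ≤ k →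
            W b ≠ W a + (if i % 2 = 0 then 1 else -1) := by
          intro a b h1 h2 h3 h4
          rcases Nat.even_or_odd i with he | ho
          · have he' : i % 2 = 0 := Nat.even_iff.1 he
            rw [if_pos he'] at h4
            have g1 := hWe2 he
            have g2 := (hWn (i + 2) b (by omega) h3).1 (by rw [Nat.even_add]; simp [he])
            rcases Nat.even_or_odd a with ae | ao
            · rcases Nat.lt_or_ge a i with h5 | h5
              · have := (hWn a i h5 (by omega)).1 ae
                omega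
              · have : a = i := by omega
                subst this
                omega
            · have := (hWn a b (by omega) h3).2 ao
              omega
          · have ho' : i % 2 = 1 := Nat.odd_iff.1 ho
            rw [if_neg (by omega)] at h4
            have g1 := hWo2 ho
            have g2 := (hWn (i + 2) b (by omega) h3).2 (by
              obtain ⟨c, rfl⟩ := ho
              exact ⟨c + 1, by ring⟩)
            rcases Nat.even_or_odd a with ae | ao
            · have := (hWn a b (by omega) h3).1 ae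
              omega
            · rcases Nat.lt_or_ge a i with h5 | h5
              · have := (hWn a i h5 (by omega)).2 ao
                omega
              · have : a = i := by omega
                subst this
                omega
        have za' := hz a
        have zb' := hz b
        rcases Nat.lt_or_ge i a with h2 | h2 <;> rcases Nat.lt_or_ge i b with h3 | h3
        · apply hab
          rw [za', zb']
          congr 1
          apply propext
          constructor <;> intro h4 <;> omega
        · have k1 := key b a h3 (by omega) (by omega)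
          rcases Nat.mod_two_eq_zero_or_one i with h4 | h4
          · rw [if_pos h4] at k1
            rw [if_neg (by omega)] at za'
            rw [if_pos (by omega)] at zb'
            omega
          · rw [if_neg (by omega)] at k1
            rw [if_pos (by omega)] at za'
            rw [if_neg (by omega)] at zb'
            omega
        · have k1 := key a b h2 (by omega) (by omega)
          rcases Nat.mod_two_eq_zero_or_one i with h4 | h4
          · rw [if_pos h4] at k1
            rw [if_pos (by omega)] at za'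
            rw [if_neg (by omega)] at zb'
            omega
          · rw [if_neg (by omega)] at k1
            rw [if_neg (by omega)] at za'
            rw [if_pos (by omega)] at zb'
            omega
        · apply hab
          rw [za', zb']
          congr 1
          apply propext
          constructor <;> intro h4 <;> omega
    · intro a ha b hb h
      rw [Finset.mem_coe, Finset.mem_range] at ha hb
      have ra := hWr a (by omega)
      have rb := hWr b (by omega)
      have h1 := cast1 _ _ (by omega) (by omega) (by omega) (by omega) h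
      exact hWi a (by omega) b (by omega) (by omega)
    · rw [Finset.disjoint_left]
      intro x hx hx'
      obtain ⟨a, ha, rfl⟩ := Finset.mem_image.1 hx
      obtain ⟨b, hb, h⟩ := Finset.mem_image.1 hx'
      rw [Finset.mem_filter, Finset.mem_range] at hb
      rw [Finset.mem_range] at ha
      have ra := hWr a (by omega)
      have rb := hWr b (by omega)
      have zb := hzz b
      have h1 := cast1 _ _ (by omega) (by omega) (by omega) (by omega) h
      omega
  -- membership
  let Q : ℕ → ZMod (4 * k + 1) := fun j => ((2 * W j + (2 * z j + 1) : ℤ) : ZMod (4 * k + 1))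
  have hQ : ∀ j, Q j = ((2 * W j + (2 * z j + 1) : ℤ) : ZMod (4 * k + 1)) := fun _ => rfl
  have hQQ : Q (i + 2) = Q i := by
    rw [hQ, hQ]
    congr 1
    have h1 := hz i
    have h2 := hz (i + 2)
    rcases Nat.even_or_odd i with he | ho
    · have he' : i % 2 = 0 := Nat.even_iff.1 he
      have g1 := hWe2 he
      rw [if_pos (by omega)] at h1
      rw [if_neg (by omega)] at h2
      omega
    · have ho' : i % 2 = 1 := Nat.odd_iff.1 ho
      have g1 := hWo2 ho
      rw [if_neg (by omega)] at h1
      rw [if_pos (by omega)] at h2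
      omega
  have hPZ : ∀ j, (Z j = P j ∧ Z j + 1 = Q j) ∨ (Z j = Q j ∧ Z j + 1 = P j) := by
    intro j
    rw [hZ, hP, hQ]
    rcases hzz j with h | h <;> rw [h]
    · left
      constructor
      · congr 1
        ring
      · push_cast
        ring
    · right
      constructor
      · congr 1
      · push_cast
        ring
  have hA0 : ∀ v, v ∈ A ↔ (∃ j ≤ k, v = P j) ∨ ∃ j ≤ k, j ≠ i + 1 ∧ v = Q j := by
    intro v
    show v ∈ (Finset.range (k + 1)).image P ∪
      ((Finset.range (k + 1)).filter (fun j => j ≠ i + 1 ∧ j ≠ i + 2)).image Q ↔ _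
    rw [Finset.mem_union, Finset.mem_image, Finset.mem_image]
    constructor
    · rintro (⟨j, hj, rfl⟩ | ⟨j, hj, rfl⟩)
      · rw [Finset.mem_range] at hj
        exact Or.inl ⟨j, by omega, rfl⟩
      · rw [Finset.mem_filter, Finset.mem_range] at hj
        exact Or.inr ⟨j, by omega, hj.2.1, rfl⟩
    · rintro (⟨j, hj, rfl⟩ | ⟨j, hj, hj', rfl⟩)
      · exact Or.inl ⟨j, Finset.mem_range.2 (by omega), rfl⟩
      · right
        by_cases h : j = i + 2
        · refine ⟨i, ?_, by rw [h, hQQ]⟩
          rw [Finset.mem_filter, Finset.mem_range]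
          omega
        · refine ⟨j, ?_, rfl⟩
          rw [Finset.mem_filter, Finset.mem_range]
          omega
  have hAf : ∀ f, f = i ∨ f = i + 2 → ∀ v, v ∈ A ↔
      (∃ j ≤ k, j ≠ i + 1 ∧ j ≠ f ∧ (v = Z j ∨ v = Z j + 1)) ∨ v = P f ∨ v = P (i + 1) := by
    intro f hf v
    rw [hA0]
    have inZ : ∀ j, P j = Z j ∨ P j = Z j + 1 := by
      intro j
      rcases hPZ j with h | h
      · exact Or.inl h.1.symm
      · exact Or.inr h.2.symm
    have inZQ : ∀ j, Q j = Z j ∨ Q j = Z j + 1 := by
      intro j
      rcases hPZ j with h | h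
      · exact Or.inr h.2.symm
      · exact Or.inl h.1.symm
    constructor
    · rintro (⟨j, hj, rfl⟩ | ⟨j, hj, hj', rfl⟩)
      · by_cases h1 : j = i + 1
        · right; right; rw [h1]
        · by_cases h2 : j = f
          · right; left; rw [h2]
          · exact Or.inl ⟨j, hj, h1, h2, inZ j⟩
      · left
        by_cases h2 : j = f
        · rcases hf with h | h
          · refine ⟨i + 2, by omega, by omega, by omega, ?_⟩
            rw [h2, h, ← hQQ]
            exact inZQ _
          · refine ⟨i, by omega, by omega, by omega, ?_⟩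
            rw [h2, h, hQQ]
            exact inZQ _
        · exact ⟨j, hj, hj', h2, inZQ j⟩
    · rintro (⟨j, hj, h1, h2, h3⟩ | h | h)
      · rcases h3 with rfl | rfl
        · rcases hPZ j with h | h
          · exact Or.inl ⟨j, hj, h.1⟩
          · exact Or.inr ⟨j, hj, h1, h.1⟩
        · rcases hPZ j with h | h
          · exact Or.inr ⟨j, hj, h1, h.2⟩
          · exact Or.inl ⟨j, hj, h.2⟩
      · exact Or.inl ⟨f, by omega, h⟩
      · exact Or.inl ⟨i + 1, by omega, h⟩
  -- the steps
  have hzs : ∀ m, m ≠ i → z (m + 1) = z m := by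
    intro m hm
    rw [hz, hz]
    congr 1
    apply propext
    constructor <;> intro h <;> omega
  have hPS : ∀ c, P (2 * c + 1) = P (2 * c) + 2 * ((J (2 * c) : ℕ) : ZMod (4 * k + 1)) := by
    intro c
    rw [hP, hP, hWe]
    push_cast
    ring
  have hPT : ∀ c, P (2 * c + 1) = P (2 * c + 2) + 2 * ((J (2 * c + 1) : ℕ) : ZMod (4 * k + 1)) := by
    intro c
    rw [hP, hP, hWo]
    push_cast
    ring
  have hZS : ∀ c, 2 * c ≠ i → Z (2 * c + 1) = Z (2 * c) +
      2 * ((J (2 * c) : ℕ) : ZMod (4 * k + 1)) := by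
    intro c hc
    rw [hZ, hZ, hWe, hzs _ hc]
    push_cast
    ring
  have hZT : ∀ c, 2 * c + 1 ≠ i → Z (2 * c + 1) = Z (2 * c + 2) +
      2 * ((J (2 * c + 1) : ℕ) : ZMod (4 * k + 1)) := by
    intro c hc
    have h := hzs (2 * c + 1) hc
    rw [show 2 * c + 1 + 1 = 2 * c + 2 by ring] at h
    rw [hZ, hZ, hWo, h]
    push_cast
    ring
  have hz0k : z k - z 0 = -(-1) ^ i := by
    have h1 := hz 0
    have h2 := hz k
    rcases Nat.even_or_odd i with he | ho
    · have he' : i % 2 = 0 := Nat.even_iff.1 he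
      rw [if_pos (by omega)] at h1
      rw [if_neg (by omega)] at h2
      rw [he.neg_one_pow, h1, h2]
      norm_num
    · have ho' : i % 2 = 1 := Nat.odd_iff.1 ho
      rw [if_neg (by omega)] at h1
      rw [if_pos (by omega)] at h2
      rw [ho.neg_one_pow, h1, h2]
      norm_num
  have hsgn : (-1 : ℤ) ^ i = 1 ∨ (-1 : ℤ) ^ i = -1 := neg_one_pow_eq_or ℤ i
  have hdisp : Z k - Z 0 = ((2 * W k - (-1) ^ i : ℤ) : ZMod (4 * k + 1)) := by
    rw [hZ, hZ, hW0, ← Int.cast_sub]
    congr 1
    linarith
  refine ⟨A, P (if i % 2 = 0 then i else i + 1), P (if i % 2 = 0 then i + 2 else i + 1),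
    fun d => Z (ix d), fun d => Z (ix d + 1), Z 0, Z k, hcard, ?_, ?_, ?_, ?_⟩
  · intro v
    rw [hAf (if i % 2 = 0 then i else i + 2) (by split_ifs <;> omega) v]
    obtain ⟨f, hf⟩ : ∃ f, f = if i % 2 = 0 then i else i + 2 := ⟨_, rfl⟩
    obtain ⟨m, hm⟩ : ∃ m, m = if i % 2 = 0 then i else i + 1 := ⟨_, rfl⟩
    have hbr : brS J i = J m := by
      rw [brS, hm]
      split_ifs <;> rfl
    rw [← hf, ← hm, hbr]
    have hm2 : m % 2 = 0 ∧ m + 1 ≤ k ∧ ((m = i ∧ f = i) ∨ (m = i + 1 ∧ f = i + 2)) := by
      rw [hm, hf]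
      split_ifs with h
      · exact ⟨h, by omega, Or.inl ⟨rfl, rfl⟩⟩
      · exact ⟨by omega, by omega, Or.inr ⟨rfl, rfl⟩⟩
    obtain ⟨c0, hc0⟩ : ∃ c0, m = 2 * c0 := ⟨m / 2, by omega⟩
    have e1 : (v = P f ∨ v = P (i + 1)) ↔
        (v = P m ∨ v = P m + 2 * ((J m : ℕ) : ZMod (4 * k + 1))) := by
      have h1 := hPS c0
      rw [← hc0] at h1
      rw [← h1]
      rcases hm2.2.2 with ⟨h2, h3⟩ | ⟨h2, h3⟩
      · rw [h2, h3]
      · rw [h3, h2]
        exact or_comm
    rw [e1, or_comm]
    refine or_congr Iff.rfl ?_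
    constructor
    · rintro ⟨j, hj, h1, h2, h3⟩
      rcases Nat.even_or_odd' j with ⟨c, hc | hc⟩
      · have hne : 2 * c ≠ m := by omega
        refine ⟨J (2 * c), Finset.mem_erase.2 ⟨fun h => hne (hJ.inj (by omega) (by omega) h),
          mem_zDS.2 ⟨c, by omega, rfl⟩⟩, ?_⟩
        simp only [hix (2 * c) (by omega)]
        rw [← hc]
        rcases h3 with h3 | h3
        · exact Or.inl h3
        · exact Or.inr (Or.inr (Or.inl h3))
      · have hne : 2 * c ≠ m := by omega
        refine ⟨J (2 * c), Finset.mem_erase.2 ⟨fun h => hne (hJ.inj (by omega) (by omega) h),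
          mem_zDS.2 ⟨c, by omega, rfl⟩⟩, ?_⟩
        simp only [hix (2 * c) (by omega)]
        rw [← hZS c (by omega), ← hc]
        rcases h3 with h3 | h3
        · exact Or.inr (Or.inl h3)
        · exact Or.inr (Or.inr (Or.inr h3))
    · rintro ⟨d, hd, h⟩
      rw [Finset.mem_erase] at hd
      obtain ⟨c, hc, rfl⟩ := mem_zDS.1 hd.2
      have hne : 2 * c ≠ m := fun h => hd.1 (by rw [h])
      simp only [hix (2 * c) (by omega)] at h
      rw [← hZS c (by omega)] at h
      rcases h with h | h | h | h
      · exact ⟨2 * c, by omega, by omega, by omega, Or.inl h⟩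
      · exact ⟨2 * c + 1, by omega, by omega, by omega, Or.inl h⟩
      · exact ⟨2 * c, by omega, by omega, by omega, Or.inr h⟩
      · exact ⟨2 * c + 1, by omega, by omega, by omega, Or.inr h⟩
  · intro v
    rw [hAf (if i % 2 = 0 then i + 2 else i) (by split_ifs <;> omega) v]
    obtain ⟨f, hf⟩ : ∃ f, f = if i % 2 = 0 then i + 2 else i := ⟨_, rfl⟩
    obtain ⟨m, hm⟩ : ∃ m, m = if i % 2 = 0 then i + 1 else i := ⟨_, rfl⟩
    have hbr : brT J i = J m := by
      rw [brT, hm]
      split_ifs <;> rfl
    have hm' : (if i % 2 = 0 then i + 2 else i + 1) = m + 1 := by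
      rw [hm]
      split_ifs <;> rfl
    rw [← hf, hm', hbr]
    have hm2 : m % 2 = 1 ∧ m + 1 < k ∧ ((m = i ∧ f = i) ∨ (m = i + 1 ∧ f = i + 2)) := by
      rw [hm, hf]
      split_ifs with h
      · exact ⟨by omega, by omega, Or.inr ⟨rfl, rfl⟩⟩
      · exact ⟨by omega, by omega, Or.inl ⟨rfl, rfl⟩⟩
    obtain ⟨c0, hc0⟩ : ∃ c0, m = 2 * c0 + 1 := ⟨m / 2, by omega⟩
    have e1 : (v = P f ∨ v = P (i + 1)) ↔
        (v = P (m + 1) ∨ v = P (m + 1) + 2 * ((J m : ℕ) : ZMod (4 * k + 1))) := by
      have h1 := hPT c0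
      rw [show 2 * c0 + 2 = m + 1 by omega, ← hc0] at h1
      rw [← h1]
      rcases hm2.2.2 with ⟨h2, h3⟩ | ⟨h2, h3⟩
      · rw [h3, h2]
        exact or_comm
      · rw [h3, h2]
    rw [e1]
    constructor
    · rintro (⟨j, hj, h1, h2, h3⟩ | h)
      · by_cases hj0 : j = 0
        · right
          rw [hj0] at h3
          rcases h3 with h3 | h3
          · exact Or.inl h3
          · exact Or.inr (Or.inl h3)
        · by_cases hjk : j = k
          · right
            rw [hjk] at h3
            rcases h3 with h3 | h3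
            · exact Or.inr (Or.inr (Or.inl h3))
            · exact Or.inr (Or.inr (Or.inr h3))
          · left; right
            rcases Nat.even_or_odd' j with ⟨c, hc | hc⟩
            · obtain ⟨c, rfl⟩ : ∃ c', c = c' + 1 := ⟨c - 1, by omega⟩
              have hne : 2 * c + 1 ≠ m := by omega
              refine ⟨J (2 * c + 1), Finset.mem_erase.2
                ⟨fun h => hne (hJ.inj (by omega) (by omega) h),
                mem_zDT.2 ⟨c, by omega, rfl⟩⟩, ?_⟩
              simp only [hix (2 * c + 1) (by omega)]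
              rw [show 2 * c + 1 + 1 = j by omega]
              rcases h3 with h3 | h3
              · exact Or.inl h3
              · exact Or.inr (Or.inr (Or.inl h3))
            · have hne : 2 * c + 1 ≠ m := by omega
              refine ⟨J (2 * c + 1), Finset.mem_erase.2
                ⟨fun h => hne (hJ.inj (by omega) (by omega) h),
                mem_zDT.2 ⟨c, by omega, rfl⟩⟩, ?_⟩
              simp only [hix (2 * c + 1) (by omega)]
              rw [show 2 * c + 1 + 1 = 2 * c + 2 by ring, ← hZT c (by omega), ← hc]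
              rcases h3 with h3 | h3
              · exact Or.inr (Or.inl h3)
              · exact Or.inr (Or.inr (Or.inr h3))
      · exact Or.inl (Or.inl h)
    · rintro ((h | ⟨d, hd, h⟩) | h)
      · exact Or.inr h
      · left
        rw [Finset.mem_erase] at hd
        obtain ⟨c, hc, rfl⟩ := mem_zDT.1 hd.2
        have hne : 2 * c + 1 ≠ m := fun h => hd.1 (by rw [h])
        simp only [hix (2 * c + 1) (by omega)] at h
        rw [show 2 * c + 1 + 1 = 2 * c + 2 by ring, ← hZT c (by omega)] at h
        rcases h with h | h | h | h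
        · exact ⟨2 * c + 2, by omega, by omega, by omega, Or.inl h⟩
        · exact ⟨2 * c + 1, by omega, by omega, by omega, Or.inl h⟩
        · exact ⟨2 * c + 2, by omega, by omega, by omega, Or.inr h⟩
        · exact ⟨2 * c + 1, by omega, by omega, by omega, Or.inr h⟩
      · left
        rcases h with h | h | h | h
        · exact ⟨0, by omega, by omega, by omega, Or.inl h⟩
        · exact ⟨0, by omega, by omega, by omega, Or.inr h⟩
        · exact ⟨k, by omega, by omega, by omega, Or.inl h⟩
        · exact ⟨k, by omega, by omega, by omega, Or.inr h⟩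
  · intro h
    have h1 : ((2 * W k - (-1) ^ i : ℤ) : ZMod (4 * k + 1)) = ((0 : ℤ) : ZMod (4 * k + 1)) := by
      rw [← hdisp, h, sub_self, Int.cast_zero]
    have h2 := hWr k le_rfl
    have h3 := zcast_inj (k := k) (by omega) (by omega) (by omega) (by omega) h1
    omega
  · rw [hdisp, hW]

end geo

end Pool.Agent.P45
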