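import Pool.Agent.Lib.P45dba8.BridgeOdd
import Pool.Agent.Lib.P45dba8.ZigOdd

/-! # MP_45dba8: `k` odd, the plain zigzag with a bridge, all cases -/

set_option autoImplicit false

namespace Pool.Agent.P45

/-! ## Alternating sequences of odd length -/

section gen

variable {S T : Finset ℕ} {N q : ℕ} {J : ℕ → ℕ}

theorem altW_zDS_sub (hq : 1 ≤ q) (hJ : AltW S T N (2 * q - 1) J) : zDS q J ⊆ S := by
  intro d hd'
  obtain ⟨i, hi, rfl⟩ := mem_zDS.1 hd'
  exact hJ.2.2.1 _ (by omega) ⟨i, by ring⟩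

theorem altW_zDT_sub (hJ : AltW S T N (2 * q - 1) J) : zDT q J ⊆ T := by
  intro d hd'
  obtain ⟨i, hi, rfl⟩ := mem_zDT.1 hd'
  exact hJ.2.2.2 _ (by omega) ⟨i, by ring⟩

theorem altW_zDT_lt (hJ : AltW S T N (2 * q - 1) J) {d : ℕ} (hd : d ∈ zDT q J) : d < N := by
  obtain ⟨i, hi, rfl⟩ := mem_zDT.1 hd
  exact (hJ.1 _ (by omega)).2

theorem altW_card_zDS (hq : 1 ≤ q) (hJ : AltW S T N (2 * q - 1) J) : (zDS q J).card = q := by
  show ((Finset.range q).image (fun i => J (2 * i))).card = q
  rw [Finset.card_image_of_injOn, Finset.card_range]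
  intro i hi j hj h
  rw [Finset.mem_coe, Finset.mem_range] at hi hj
  have := hJ.inj (i := 2 * i) (j := 2 * j) (by omega) (by omega) h
  omega

theorem altW_card_zDT (hJ : AltW S T N (2 * q - 1) J) : (zDT q J).card = q - 1 := by
  show ((Finset.range (q - 1)).image (fun i => J (2 * i + 1))).card = q - 1
  rw [Finset.card_image_of_injOn, Finset.card_range]
  intro i hi j hj h
  rw [Finset.mem_coe, Finset.mem_range] at hi hj
  have := hJ.inj (i := 2 * i + 1) (j := 2 * j + 1) (by omega) (by omega) h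
  omega

end gen

/-! ## The assembly -/

theorem brS_mem {k r i : ℕ} (hk : k = 2 * r + 1) (J : ℕ → ℕ) (hi : i + 2 ≤ k) :
    brS J i ∈ zDS (r + 1) J := by
  rw [mem_zDS, brS]
  split_ifs with h
  · exact ⟨i / 2, by omega, by rw [show 2 * (i / 2) = i by omega]⟩
  · exact ⟨(i + 1) / 2, by omega, by rw [show 2 * ((i + 1) / 2) = i + 1 by omega]⟩

theorem brT_mem {k r i : ℕ} (hk : k = 2 * r + 1) (J : ℕ → ℕ) (hi : i + 2 ≤ k) :
    brT J i ∈ zDT (r + 1) J := by
  rw [mem_zDT, brT]
  split_ifs with h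
  · exact ⟨i / 2, by omega, by rw [show 2 * (i / 2) + 1 = i + 1 by omega]⟩
  · exact ⟨i / 2, by omega, by rw [show 2 * (i / 2) + 1 = i by omega]⟩

section asm

variable {k r : ℕ} (hk : k = 2 * r + 1) (hr : 1 ≤ r) (S T : Finset ℕ)
  (hU : S ∪ T = Finset.Icc 1 (2 * k)) (h2k : 2 * k ∈ T) (J : ℕ → ℕ)
  (hJ : AltW S T (2 * k) k J) (i : ℕ) (hi : i + 2 ≤ k)

include hk hr hU h2k hJ hi

/-- The side `S`. -/
theorem bridge_sideS (s : ℕ) (hs : s ∈ zDS (r + 1) J) (A : Finset (ZMod (4 * k + 1)))
    (hA : A.card = 2 * k) (qs : ZMod (4 * k + 1)) (p : ℕ → ZMod (4 * k + 1))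
    (hAS : ∀ v, v ∈ A ↔ (v = qs ∨ v = qs + 2 * (s : ZMod (4 * k + 1))) ∨
        ∃ d ∈ (zDS (r + 1) J).erase s, v = p d ∨ v = p d + 2 * (d : ZMod (4 * k + 1)) ∨
          v = p d + 1 ∨ v = p d + 2 * (d : ZMod (4 * k + 1)) + 1)
    (hSS : SideOK1 k s ((zDS (r + 1) J).erase s) (S \ zDS (r + 1) J)) : EG (LSet k S) A := by
  classical
  have hSsub : S ⊆ Finset.Icc 1 (2 * k) := hU ▸ Finset.subset_union_left
  have hJ' : AltW S T (2 * k) (2 * (r + 1) - 1) J := by
    rw [show 2 * (r + 1) - 1 = k by omega]; exact hJ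
  have hDS := altW_zDS_sub (by omega) hJ'
  have cDS := altW_card_zDS (by omega) hJ'
  obtain ⟨σ, hσ, hG⟩ := hSS
  have eS : {s} ∪ (zDS (r + 1) J).erase s ∪ (S \ zDS (r + 1) J) = S := by
    rw [← Finset.insert_eq, Finset.insert_erase hs]
    exact Finset.union_sdiff_of_subset hDS
  have := side_adm (I := {s}) (K := (zDS (r + 1) J).erase s) (U := S \ zDS (r + 1) J)
    (by rw [eS]; exact hSsub) hσ hG (fun _ => qs) p (fun d => p d + 1) (fun d => d) (fun d => d)
    (fun d _ => Or.inr (Or.inr ⟨Or.inl ⟨rfl, rfl⟩, by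
      show IsUnit (p d + 1 - p d)
      rw [show p d + 1 - p d = 1 by ring]
      exact isUnit_one⟩)) A (by
      rw [hA, Finset.card_singleton, Finset.card_erase_of_mem hs, cDS]
      omega) (by
      intro v
      rw [hAS]
      refine or_congr (by simp) ?_
      refine exists_congr fun d => and_congr_right fun _ => ?_
      have e1 : p d + 2 * (d : ZMod (4 * k + 1)) + 1 = p d + 1 + 2 * (d : ZMod (4 * k + 1)) := by
        ring
      rw [e1])
  rwa [eS] at this

/-- THE PLAIN ZIGZAG WITH A BRIDGE, `k` odd, no condition on `u₀`. -/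
theorem zig_odd (hJi : J i = J (i + 1) + 1) (u₀ : ℕ) (hu1 : u₀ ∈ T) (hu2 : u₀ ≠ 2 * k)
    (hu3 : u₀ ∉ zDT (r + 1) J)
    (hSS : SideOK1 k (brS J i) ((zDS (r + 1) J).erase (brS J i)) (S \ zDS (r + 1) J))
    (hTT : SideOK1 k (brT J i) ((zDT (r + 1) J).erase (brT J i))
      (T \ (zDT (r + 1) J ∪ {2 * k, u₀}))) :
    ∃ A : Finset (ZMod (4 * k + 1)), A.card = 2 * k ∧ EG (LSet k S) A ∧ EG (LSet k T) A := by
  classical
  have hTsub : T ⊆ Finset.Icc 1 (2 * k) := hU ▸ Finset.subset_union_right
  have hJ' : AltW S T (2 * k) (2 * (r + 1) - 1) J := by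
    rw [show 2 * (r + 1) - 1 = k by omega]; exact hJ
  obtain ⟨A, qs, qt, p, p', w, w', hA, hAS, hAT, hw, -⟩ := bridge_geo hk hJ hi hJi
  refine ⟨A, hA, bridge_sideS hk hr S T hU h2k J hJ i hi _ (brS_mem hk J hi) A hA qs p hAS
    hSS, ?_⟩
  have hDT := altW_zDT_sub hJ'
  have cDT := altW_card_zDT hJ'
  have htm := brT_mem hk J hi
  obtain ⟨τ, hτ, hG⟩ := hTT
  have eT : {brT J i} ∪ ((zDT (r + 1) J).erase (brT J i) ∪ ∅) ∪
      (T \ (zDT (r + 1) J ∪ {2 * k, u₀})) ∪ {2 * k, u₀} = T := by
    rw [Finset.union_empty, ← Finset.insert_eq, Finset.insert_erase htm]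
    ext x
    simp only [Finset.mem_union, Finset.mem_sdiff, Finset.mem_insert, Finset.mem_singleton]
    constructor
    · rintro ((h | ⟨h, -⟩) | rfl | rfl)
      · exact hDT h
      · exact h
      · exact h2k
      · exact hu1
    · intro h
      by_cases h1 : x ∈ zDT (r + 1) J
      · exact Or.inl (Or.inl h1)
      · by_cases h2 : x = 2 * k ∨ x = u₀
        · exact Or.inr h2
        · exact Or.inl (Or.inr ⟨h, by tauto⟩)
  have huI := Finset.mem_Icc.1 (hTsub hu1)
  have := sideEG_two_any (k := k) (I := {brT J i}) (D := (zDT (r + 1) J).erase (brT J i))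
    (D' := ∅) (U := T \ (zDT (r + 1) J ∪ {2 * k, u₀})) (σ := τ) (by omega) (by
      intro x hx
      have : x ∈ T := by
        rw [← eT]
        exact Finset.mem_union_left _ hx
      exact hTsub this) (Finset.disjoint_empty_right _) (by rw [Finset.union_empty]; exact hτ) (by
      show GoodSide k {brT J i} ((zDT (r + 1) J).erase (brT J i) ∪ ∅) τ
      rw [Finset.union_empty]
      exact hG) u₀ huI.1 (by omega) (fun _ => qt) p' p' w w' hw A (by
      rw [hA, Finset.card_singleton, Finset.card_erase_of_mem htm, cDT, Finset.card_empty]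
      omega) (by
      intro v
      rw [hAT]
      refine or_congr ?_ Iff.rfl
      unfold sideM
      refine or_congr (by simp) ?_
      simp)
  rwa [eT] at this

/-- The plain zigzag with a bridge, the label `2k` in the family of the side `T`. -/
theorem zig_odd_top (hJi : J i = J (i + 1) + 1)
    (hSS : SideOK1 k (brS J i) ((zDS (r + 1) J).erase (brS J i)) (S \ zDS (r + 1) J))
    (hTT : SideOK1 k (brT J i) (insert (2 * k) ((zDT (r + 1) J).erase (brT J i)))
      (T \ insert (2 * k) (zDT (r + 1) J)))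
    (hW : IsCoprime (2 * zz (fun i => (J i : ℤ)) k - (-1) ^ i) (4 * k + 1 : ℤ)) :
    ∃ A : Finset (ZMod (4 * k + 1)), A.card = 2 * k ∧ EG (LSet k S) A ∧ EG (LSet k T) A := by
  classical
  have hTsub : T ⊆ Finset.Icc 1 (2 * k) := hU ▸ Finset.subset_union_right
  have hJ' : AltW S T (2 * k) (2 * (r + 1) - 1) J := by
    rw [show 2 * (r + 1) - 1 = k by omega]; exact hJ
  obtain ⟨A, qs, qt, p, p', w, w', hA, hAS, hAT, -, hww⟩ := bridge_geo hk hJ hi hJi
  refine ⟨A, hA, bridge_sideS hk hr S T hU h2k J hJ i hi _ (brS_mem hk J hi) A hA qs p hAS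
    hSS, ?_⟩
  have hDT := altW_zDT_sub hJ'
  have cDT := altW_card_zDT hJ'
  have htm := brT_mem hk J hi
  have h2kn : 2 * k ∉ zDT (r + 1) J := by
    intro h
    have := altW_zDT_lt hJ' h
    omega
  have h2kn' : 2 * k ∉ (zDT (r + 1) J).erase (brT J i) := fun h => h2kn (Finset.mem_of_mem_erase h)
  obtain ⟨τ, hτ, hG⟩ := hTT
  obtain ⟨t, ht⟩ : ∃ t, t = brT J i := ⟨_, rfl⟩
  rw [← ht] at hAT htm h2kn' hτ hG
  have e2k : (2 : ZMod (4 * k + 1)) * ((2 * k : ℕ) : ZMod (4 * k + 1)) = -1 := two_mul_2k k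
  have hwu : IsUnit (w' - w) := by
    rw [hww]
    obtain ⟨a, b, hab⟩ := hW
    refine IsUnit.of_mul_eq_one ((a : ℤ) : ZMod (4 * k + 1)) ?_
    have h0 : ((4 * k + 1 : ℤ) : ZMod (4 * k + 1)) = 0 := by
      have : ((4 * k + 1 : ℕ) : ZMod (4 * k + 1)) = 0 := ZMod.natCast_self _
      push_cast at this ⊢
      exact this
    have h1 : ((a * (2 * zz (fun i => (J i : ℤ)) k - (-1) ^ i) + b * (4 * k + 1) : ℤ) :
        ZMod (4 * k + 1)) = ((1 : ℤ) : ZMod (4 * k + 1)) := by rw [hab]
    rw [Int.cast_add, Int.cast_mul, Int.cast_mul, h0, mul_zero, add_zero, Int.cast_one] at h1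
    linear_combination h1
  have eT : {t} ∪ insert (2 * k) ((zDT (r + 1) J).erase t) ∪
      (T \ insert (2 * k) (zDT (r + 1) J)) = T := by
    ext x
    simp only [Finset.mem_union, Finset.mem_sdiff, Finset.mem_insert, Finset.mem_singleton,
      Finset.mem_erase]
    constructor
    · rintro ((rfl | rfl | ⟨-, h⟩) | ⟨h, -⟩)
      · exact hDT htm
      · exact h2k
      · exact hDT h
      · exact h
    · intro h
      by_cases h1 : x = t
      · exact Or.inl (Or.inl h1)
      · by_cases h2 : x = 2 * k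
        · exact Or.inl (Or.inr (Or.inl h2))
        · by_cases h3 : x ∈ zDT (r + 1) J
          · exact Or.inl (Or.inr (Or.inr ⟨h1, h3⟩))
          · exact Or.inr ⟨h, by tauto⟩
  have hne : ∀ d ∈ (zDT (r + 1) J).erase t, d ≠ 2 * k := fun d hd h => h2kn' (h ▸ hd)
  have := side_adm (I := {t}) (K := insert (2 * k) ((zDT (r + 1) J).erase t))
    (U := T \ insert (2 * k) (zDT (r + 1) J))
    (by rw [eT]; exact hTsub) hτ hG (fun _ => qt) (fun d => if d = 2 * k then w + 1 else p' d)
    (fun d => if d = 2 * k then w' + 1 else p' d + 1) (fun d => d) (fun d => d)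
    (fun d _ => Or.inr (Or.inr ⟨Or.inl ⟨rfl, rfl⟩, by
      show IsUnit ((if d = 2 * k then w' + 1 else p' d + 1) - (if d = 2 * k then w + 1 else p' d))
      split_ifs
      · rw [show w' + 1 - (w + 1) = w' - w by ring]
        exact hwu
      · rw [show p' d + 1 - p' d = 1 by ring]
        exact isUnit_one⟩)) A (by
      rw [hA, Finset.card_singleton, Finset.card_insert_of_notMem h2kn',
        Finset.card_erase_of_mem htm, cDT]
      omega) (by
      intro v
      rw [hAT]
      constructor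
      · rintro ((h | ⟨d, hd, h⟩) | h)
        · left
          exact ⟨t, Finset.mem_singleton_self t, h⟩
        · right
          refine ⟨d, Finset.mem_insert_of_mem hd, ?_⟩
          simp only [if_neg (hne d hd)]
          rcases h with h | h | h | h
          · exact Or.inl h
          · exact Or.inr (Or.inl h)
          · exact Or.inr (Or.inr (Or.inl h))
          · exact Or.inr (Or.inr (Or.inr (by rw [h]; ring)))
        · right
          refine ⟨2 * k, Finset.mem_insert_self _ _, ?_⟩
          simp only [if_true]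
          rw [e2k]
          rcases h with h | h | h | h
          · exact Or.inr (Or.inl (by rw [h]; ring))
          · exact Or.inl h
          · exact Or.inr (Or.inr (Or.inr (by rw [h]; ring)))
          · exact Or.inr (Or.inr (Or.inl h))
      · rintro (⟨d, hd, h⟩ | ⟨d, hd, h⟩)
        · rw [Finset.mem_singleton] at hd
          subst hd
          exact Or.inl (Or.inl h)
        · rcases Finset.mem_insert.1 hd with rfl | hd
          · right
            simp only [if_true] at h
            rw [e2k] at h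
            rcases h with h | h | h | h
            · exact Or.inr (Or.inl h)
            · exact Or.inl (by rw [h]; ring)
            · exact Or.inr (Or.inr (Or.inr h))
            · exact Or.inr (Or.inr (Or.inl (by rw [h]; ring)))
          · left; right
            refine ⟨d, hd, ?_⟩
            simp only [if_neg (hne d hd)] at h
            rcases h with h | h | h | h
            · exact Or.inl h
            · exact Or.inr (Or.inl h)
            · exact Or.inr (Or.inr (Or.inl h))
            · exact Or.inr (Or.inr (Or.inr (by rw [h]; ring))))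
  rwa [eT] at this

end asm

end Pool.Agent.P45
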