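import Pool.Agent.Lib.P45dba8.Process

/-! # MP_45dba8: existence of a plan from hosts and anchors -/

set_option autoImplicit false

namespace Pool.Agent.P45

variable {ι κ : Type*} {t : ι → ℕ} {a b : κ → ℕ}

/-- The divisors which are reached from the items of `S`. -/
inductive Rch (n : ℕ) (t : ι → ℕ) (a b : κ → ℕ) (π : ℕ → ι ⊕ κ) (S : Set (ι ⊕ κ)) : ℕ → Prop
  | base (x : ι ⊕ κ) (hx : x ∈ S) (h1 : nx t a b n x ≠ 1) : Rch n t a b π S (nx t a b n x)
  | step (h : ℕ) (hh : Rch n t a b π S h) (h1 : nx t a b h (π h) ≠ 1) :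
      Rch n t a b π S (nx t a b h (π h))

theorem plan_of_rch {n : ℕ} (T : Finset ℕ) (π : ℕ → ι ⊕ κ) (S : Set (ι ⊕ κ))
    (hdvd : ∀ h ∈ T, h ∣ n) (hone : ∀ h ∈ T, 1 < h)
    (inj : ∀ h ∈ T, ∀ h' ∈ T, π h = π h' → h = h') (avd : ∀ h ∈ T, av t a b h (π h))
    (s1 : ∀ x ∈ S, ∀ h ∈ T, Rch n t a b π S h → π h ≠ x)
    (s2 : ∀ h, Rch n t a b π S h → h ∈ T)
    (s3 : ∀ x, x ∉ S → (∃ h, Rch n t a b π S h ∧ π h = x) ∨ nx t a b n x = 1 ∨
      Rch n t a b π S (nx t a b n x))
    (s4 : ∀ h, Rch n t a b π S h → ∀ k, π h = Sum.inr k → ∀ i,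
      (∀ h', Rch n t a b π S h' → π h' ≠ Sum.inl i) → nx t a b n (Sum.inl i) = h →
      ∃ x ∈ S, x ≠ Sum.inl i ∧ nx t a b n x = h) :
    ∃ H, H ⊆ T ∧ Plan n t a b H π := by
  classical
  refine ⟨T.filter (fun h => Rch n t a b π S h), Finset.filter_subset _ _, ?_⟩
  have hm : ∀ h, h ∈ T.filter (fun h => Rch n t a b π S h) ↔ Rch n t a b π S h := by
    intro h
    rw [Finset.mem_filter]
    exact ⟨fun h => h.2, fun h => ⟨s2 _ h, h⟩⟩
  refine ⟨?_, ?_, ?_, ?_, ?_, ?_, ?_, ?_⟩
  · exact fun h hh => hdvd h (Finset.mem_filter.1 hh).1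
  · exact fun h hh => hone h (Finset.mem_filter.1 hh).1
  · exact fun h hh h' hh' => inj h (Finset.mem_filter.1 hh).1 h' (Finset.mem_filter.1 hh').1
  · exact fun h hh => avd h (Finset.mem_filter.1 hh).1
  · intro h hh
    by_cases h1 : nx t a b h (π h) = 1
    · exact Or.inl h1
    · exact Or.inr ((hm _).2 (Rch.step h ((hm h).1 hh) h1))
  · intro x hx
    by_cases h1 : nx t a b n x = 1
    · exact Or.inl h1
    · by_cases hS : x ∈ S
      · exact Or.inr ((hm _).2 (Rch.base x hS h1))
      · rcases s3 x hS with ⟨h, h2, h3⟩ | h2 | h2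
        · exact absurd h3 (hx h ((hm h).2 h2))
        · exact absurd h2 h1
        · exact Or.inr ((hm _).2 h2)
  · intro h hh
    cases (hm h).1 hh with
    | base x hx h1 =>
      exact Or.inl ⟨x, fun h' hh' => s1 x hx h' (Finset.mem_filter.1 hh').1 ((hm h').1 hh'), rfl⟩
    | step h' hh' h1 => exact Or.inr ⟨h', (hm h').2 hh', rfl⟩
  · intro h hh k hk i hi
    exfalso
    obtain ⟨h1, h2⟩ := (hi (Sum.inl i)).2 rfl
    obtain ⟨x, hx, hx1, hx2⟩ := s4 h ((hm h).1 hh) k hk i
      (fun h' hh' => h1 h' ((hm h').2 hh')) h2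
    exact hx1 ((hi x).1 ⟨fun h' hh' => s1 x hx h' (Finset.mem_filter.1 hh').1 ((hm h').1 hh'), hx2⟩)

/-- Existence of a plan: a set `T` of divisors with hosts; the hosts have anchors (items of the
same value which are not hosts), with the exception of the host of one divisor `h0`. -/
theorem exists_plan {n : ℕ} (T : Finset ℕ) (π : ℕ → ι ⊕ κ) (h0 : ℕ)
    (hdvd : ∀ h ∈ T, h ∣ n) (hone : ∀ h ∈ T, 1 < h)
    (inj : ∀ h ∈ T, ∀ h' ∈ T, π h = π h' → h = h') (avd : ∀ h ∈ T, av t a b h (π h))
    (clo : ∀ h ∈ T, nx t a b h (π h) = 1 ∨ nx t a b h (π h) ∈ T)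
    (val : ∀ x, nx t a b n x = 1 ∨ nx t a b n x ∈ T)
    (anc : ∀ h ∈ T, h ≠ h0 → nx t a b n (π h) = 1 ∨
      ∃ x, (∀ h' ∈ T, π h' ≠ x) ∧ nx t a b n x = nx t a b n (π h))
    (h0p : h0 ∈ T → ∀ i, π h0 ≠ Sum.inl i)
    (lone : ∀ i, (∀ h' ∈ T, π h' ≠ Sum.inl i) → nx t a b n (Sum.inl i) ≠ 1 →
      (∀ k, π (nx t a b n (Sum.inl i)) ≠ Sum.inr k) ∨
      ∃ x, x ≠ Sum.inl i ∧ (∀ h' ∈ T, π h' ≠ x) ∧ nx t a b n x = nx t a b n (Sum.inl i)) :
    ∃ H, H ⊆ T ∧ Plan n t a b H π := by
  classical
  set S0 : Set (ι ⊕ κ) := {x | ∀ h ∈ T, π h ≠ x} with hS0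
  have memS0 : ∀ x, x ∉ S0 → ∃ h ∈ T, π h = x := by
    intro x hx
    by_contra hcon
    apply hx
    intro h hh hx'
    exact hcon ⟨h, hh, hx'⟩
  have inT : ∀ S : Set (ι ⊕ κ), ∀ h, Rch n t a b π S h → h ∈ T := by
    intro S h hr
    induction hr with
    | base x hx h1 =>
      rcases val x with h2 | h2
      · exact absurd h2 h1
      · exact h2
    | step h' hh' h1 ih =>
      rcases clo h' ih with h2 | h2
      · exact absurd h2 h1
      · exact h2
  by_cases hc : h0 ∈ T ∧ ¬ Rch n t a b π S0 h0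
  · -- the host of `h0` is not needed
    obtain ⟨h0T, hc⟩ := hc
    have hsub : ∀ h, Rch n t a b π (S0 ∪ {π h0}) h → Rch n t a b π S0 h ∨
        h ∣ nx t a b n (π h0) := by
      intro h hr
      induction hr with
      | base x hx h1 =>
        rcases hx with hx | hx
        · exact Or.inl (Rch.base x hx h1)
        · have : x = π h0 := hx
          rw [this]
          exact Or.inr dvd_rfl
      | step h' hh' h1 ih =>
        rcases ih with ih | ih
        · exact Or.inl (Rch.step h' ih h1)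
        · exact Or.inr ((nx_dvd h' _).trans ih)
    have hno : ¬ Rch n t a b π (S0 ∪ {π h0}) h0 := by
      intro h
      rcases hsub h0 h with h1 | h1
      · exact hc h1
      · have h2 := avd h0 h0T
        rcases hπ : π h0 with i | k
        · rw [hπ] at h1 h2
          exact h2 (h1.trans (Nat.gcd_dvd_right _ _))
        · rw [hπ] at h1 h2
          exact h2.2 (h1.trans (Nat.gcd_dvd_right _ _))
    have hmono : ∀ h, Rch n t a b π S0 h → Rch n t a b π (S0 ∪ {π h0}) h := by
      intro h hr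
      induction hr with
      | base x hx h1 => exact Rch.base x (Or.inl hx) h1
      | step h' hh' h1 ih => exact Rch.step h' ih h1
    refine plan_of_rch T π (S0 ∪ {π h0}) hdvd hone inj avd ?_ (inT _) ?_ ?_
    · rintro x (hx | hx) h hh hr
      · exact hx h hh
      · have e : x = π h0 := hx
        rw [e]
        intro h1
        rw [inj h hh h0 h0T h1] at hr
        exact hno hr
    · intro x hx
      have hx1 : x ∉ S0 := fun h => hx (Or.inl h)
      obtain ⟨h, hh, hhx⟩ := memS0 x hx1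
      have hne : h ≠ h0 := by
        rintro rfl
        exact hx (Or.inr hhx.symm)
      rcases anc h hh hne with h1 | ⟨x0, h1, h2⟩
      · exact Or.inr (Or.inl (by rw [← hhx]; exact h1))
      · by_cases h3 : nx t a b n x = 1
        · exact Or.inr (Or.inl h3)
        · right; right
          rw [hhx] at h2
          rw [← h2]
          exact Rch.base x0 (Or.inl h1) (by rw [h2]; exact h3)
    · intro h hr k hk i hi hv
      by_cases hS : (Sum.inl i : ι ⊕ κ) ∈ S0
      · have h1 : nx t a b n (Sum.inl i) ≠ 1 := by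
          rw [hv]
          have := hone h (inT _ h hr)
          omega
        rcases lone i hS h1 with h2 | ⟨x, h2, h3, h4⟩
        · rw [hv] at h2
          exact absurd hk (h2 k)
        · exact ⟨x, Or.inl h3, h2, h4.trans hv⟩
      · obtain ⟨h', hh', hhx⟩ := memS0 _ hS
        have hne : h' ≠ h0 := by
          rintro rfl
          exact h0p h0T i hhx
        rcases anc h' hh' hne with h1 | ⟨x0, h1, h2⟩
        · rw [hhx, hv] at h1
          have := hone h (inT _ h hr)
          omega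
        · refine ⟨x0, Or.inl h1, ?_, ?_⟩
          · rintro rfl
            exact hS h1
          · rw [h2, hhx, hv]
  · refine plan_of_rch T π S0 hdvd hone inj avd (fun x hx h hh _ => hx h hh) (inT _) ?_ ?_
    · intro x hx
      obtain ⟨h, hh, hhx⟩ := memS0 x hx
      by_cases hr : Rch n t a b π S0 h
      · exact Or.inl ⟨h, hr, hhx⟩
      have hne : h ≠ h0 := by
        rintro rfl
        exact hc ⟨hh, hr⟩
      rcases anc h hh hne with h1 | ⟨x0, h1, h2⟩
      · exact Or.inr (Or.inl (by rw [← hhx]; exact h1))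
      · by_cases h3 : nx t a b n x = 1
        · exact Or.inr (Or.inl h3)
        · right; right
          rw [hhx] at h2
          rw [← h2]
          exact Rch.base x0 h1 (by rw [h2]; exact h3)
    · intro h hr k hk i hi hv
      by_cases hS : (Sum.inl i : ι ⊕ κ) ∈ S0
      · have h1 : nx t a b n (Sum.inl i) ≠ 1 := by
          rw [hv]
          have := hone h (inT _ h hr)
          omega
        rcases lone i hS h1 with h2 | ⟨x, h2, h3, h4⟩
        · rw [hv] at h2
          exact absurd hk (h2 k)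
        · exact ⟨x, h3, h2, h4.trans hv⟩
      · obtain ⟨h', hh', hhx⟩ := memS0 _ hS
        have hne : h' ≠ h0 := by
          rintro rfl
          exact h0p hh' i hhx
        rcases anc h' hh' hne with h1 | ⟨x0, h1, h2⟩
        · rw [hhx, hv] at h1
          have := hone h (inT _ h hr)
          omega
        · refine ⟨x0, h1, ?_, ?_⟩
          · rintro rfl
            exact hS h1
          · rw [h2, hhx, hv]

end Pool.Agent.P45
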