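import Pool.Agent.Lib.P45dba8.LoneS
import Pool.Agent.Lib.P45dba8.PlanCount2

/-! # MP_45dba8: plans without the condition on lone singles, two free hosts -/

set_option autoImplicit false

namespace Pool.Agent.P45

variable {ι κ : Type*} {t : ι → ℕ} {a b : κ → ℕ}

theorem plan2_of_rch {n : ℕ} (T : Finset ℕ) (π : ℕ → ι ⊕ κ) (S : Set (ι ⊕ κ))
    (hdvd : ∀ h ∈ T, h ∣ n) (hone : ∀ h ∈ T, 1 < h)
    (inj : ∀ h ∈ T, ∀ h' ∈ T, π h = π h' → h = h') (avd : ∀ h ∈ T, av t a b h (π h))
    (s1 : ∀ x ∈ S, ∀ h ∈ T, Rch n t a b π S h → π h ≠ x)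
    (s2 : ∀ h, Rch n t a b π S h → h ∈ T)
    (s3 : ∀ x, x ∉ S → (∃ h, Rch n t a b π S h ∧ π h = x) ∨ nx t a b n x = 1 ∨
      Rch n t a b π S (nx t a b n x)) :
    ∃ H, H ⊆ T ∧ Plan2 n t a b H π := by
  classical
  refine ⟨T.filter (fun h => Rch n t a b π S h), Finset.filter_subset _ _, ?_⟩
  have hm : ∀ h, h ∈ T.filter (fun h => Rch n t a b π S h) ↔ Rch n t a b π S h := by
    intro h
    rw [Finset.mem_filter]
    exact ⟨fun h => h.2, fun h => ⟨s2 _ h, h⟩⟩
  refine ⟨?_, ?_, ?_, ?_, ?_, ?_, ?_⟩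
  · exact fun h hh => hdvd h (Finset.mem_filter.1 hh).1
  · exact fun h hh => hone h (Finset.mem_filter.1 hh).1
  · exact fun h hh h' hh' => inj h (Finset.mem_filter.1 hh).1 h' (Finset.mem_filter.1 hh').1
  · exact fun h hh => avd h (Finset.mem_filter.1 hh).1
  · intro h hh
    by_cases h1 : nx t a b h (π h) = 1
    · exact Or.inl h1
    · exact Or.inr ((hm _).2 (Rch.step h ((hm h).1 hh) h1))
  · intro x hx
    by_cases h1 : nx t a b n x = 1
    · exact Or.inl h1
    · by_cases hS : x ∈ S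
      · exact Or.inr ((hm _).2 (Rch.base x hS h1))
      · rcases s3 x hS with ⟨h, h2, h3⟩ | h2 | h2
        · exact absurd h3 (hx h ((hm h).2 h2))
        · exact absurd h2 h1
        · exact Or.inr ((hm _).2 h2)
  · intro h hh
    cases (hm h).1 hh with
    | base x hx h1 =>
      exact Or.inl ⟨x, fun h' hh' => s1 x hx h' (Finset.mem_filter.1 hh').1 ((hm h').1 hh'), rfl⟩
    | step h' hh' h1 => exact Or.inr ⟨h', (hm h').2 hh', rfl⟩

/-- The items which are not hosts of a divisor outside `e`. -/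
def SE (T : Finset ℕ) (π : ℕ → ι ⊕ κ) (e : ℕ → Prop) : Set (ι ⊕ κ) :=
  {x | ∀ h ∈ T, π h = x → e h}

theorem Rch.mono' {n : ℕ} {π : ℕ → ι ⊕ κ} {S S' : Set (ι ⊕ κ)} (hS : S ⊆ S') {h : ℕ}
    (hr : Rch n t a b π S h) : Rch n t a b π S' h := by
  induction hr with
  | base x hx h1 => exact Rch.base x (hS hx) h1
  | step h' hh' h1 ih => exact Rch.step h' ih h1

/-- Adding the host of `h` does not reach `h`. -/
theorem Rch.not_self {n : ℕ} {T : Finset ℕ} {π : ℕ → ι ⊕ κ} {e e' : ℕ → Prop} {h0 : ℕ}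
    (hav : av t a b h0 (π h0))
    (he : ∀ h ∈ T, e' h → e h ∨ h = h0) (hr : Rch n t a b π (SE T π e') h0) :
    Rch n t a b π (SE T π e) h0 := by
  have hsub : ∀ h, Rch n t a b π (SE T π e') h → Rch n t a b π (SE T π e) h ∨
      h ∣ nx t a b n (π h0) := by
    intro h hr
    induction hr with
    | base x hx h1 =>
      by_cases hx' : x = π h0
      · right
        rw [hx']
      · left
        have hx3 : x ∈ SE T π e := by
          intro h hh hx2
          rcases he h hh (hx h hh hx2) with h3 | h3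
          · exact h3
          · exact absurd (by rw [← h3]; exact hx2.symm) hx'
        exact Rch.base x hx3 h1
    | step h' hh' h1 ih =>
      rcases ih with ih | ih
      · exact Or.inl (Rch.step h' ih h1)
      · exact Or.inr ((nx_dvd h' _).trans ih)
  rcases hsub h0 hr with h1 | h1
  · exact h1
  · exfalso
    rcases hπ : π h0 with i | k
    · rw [hπ] at h1 hav
      exact hav (h1.trans (Nat.gcd_dvd_right _ _))
    · rw [hπ] at h1 hav
      exact hav.2 (h1.trans (Nat.gcd_dvd_right _ _))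

/-- Existence of a plan with two free hosts. -/
theorem exists_plan2 {n : ℕ} (T : Finset ℕ) (π : ℕ → ι ⊕ κ) (h0 h1 : ℕ)
    (hdvd : ∀ h ∈ T, h ∣ n) (hone : ∀ h ∈ T, 1 < h)
    (inj : ∀ h ∈ T, ∀ h' ∈ T, π h = π h' → h = h') (avd : ∀ h ∈ T, av t a b h (π h))
    (clo : ∀ h ∈ T, nx t a b h (π h) = 1 ∨ nx t a b h (π h) ∈ T)
    (val : ∀ x, nx t a b n x = 1 ∨ nx t a b n x ∈ T)
    (anc : ∀ h ∈ T, h ≠ h0 → h ≠ h1 → nx t a b n (π h) = 1 ∨
      ∃ x, (∀ h' ∈ T, π h' ≠ x) ∧ nx t a b n x = nx t a b n (π h)) :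
    ∃ H, H ⊆ T ∧ Plan2 n t a b H π := by
  classical
  have inT : ∀ S : Set (ι ⊕ κ), ∀ h, Rch n t a b π S h → h ∈ T := by
    intro S h hr
    induction hr with
    | base x hx h1 =>
      rcases val x with h2 | h2
      · exact absurd h2 h1
      · exact h2
    | step h' hh' h1 ih =>
      rcases clo h' ih with h2 | h2
      · exact absurd h2 h1
      · exact h2
  have mono : ∀ e e' : ℕ → Prop, (∀ h ∈ T, e h → e' h) → ∀ h,
      Rch n t a b π (SE T π e) h → Rch n t a b π (SE T π e') h := by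
    intro e e' he h hr
    have hsub : SE T π e ⊆ SE T π e' := by
      intro x hx h' hh' hx'
      exact he h' hh' (hx h' hh' hx')
    exact hr.mono' hsub
  -- the final step
  have fin : ∀ e : ℕ → Prop, (∀ h ∈ T, e h → ¬ Rch n t a b π (SE T π e) h) →
      (∀ h ∈ T, (h = h0 ∨ h = h1) → ¬ e h → Rch n t a b π (SE T π e) h) →
      ∃ H, H ⊆ T ∧ Plan2 n t a b H π := by
    intro e e1 e2
    refine plan2_of_rch T π (SE T π e) hdvd hone inj avd ?_ (inT _) ?_
    · intro x hx h hh hr hπ
      exact e1 h hh (hx h hh hπ) hr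
    · intro x hx
      have hx' : ∃ h ∈ T, π h = x ∧ ¬ e h := by
        by_contra hcon
        push Not at hcon
        exact hx hcon
      obtain ⟨h, hh, hπ, heh⟩ := hx'
      by_cases hr : Rch n t a b π (SE T π e) h
      · exact Or.inl ⟨h, hr, hπ⟩
      have hne0 : h ≠ h0 := fun h' => hr (e2 h hh (Or.inl h') heh)
      have hne1 : h ≠ h1 := fun h' => hr (e2 h hh (Or.inr h') heh)
      rcases anc h hh hne0 hne1 with h2 | ⟨x0, h2, h3⟩
      · exact Or.inr (Or.inl (by rw [← hπ]; exact h2))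
      · by_cases h4 : nx t a b n x = 1
        · exact Or.inr (Or.inl h4)
        · right; right
          rw [hπ] at h3
          rw [← h3]
          exact Rch.base x0 (fun h' hh' hx0 => absurd hx0 (h2 h' hh')) (by rw [h3]; exact h4)
  by_cases hT0 : h0 ∈ T
  swap
  · -- only `h1`
    by_cases hr : Rch n t a b π (SE T π (fun _ => False)) h1
    · refine fin (fun _ => False) (fun h _ he => he.elim) ?_
      rintro h hh (rfl | rfl) _
      · exact absurd hh hT0
      · exact hr
    · refine fin (fun h => h = h1) ?_ ?_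
      · rintro h hh rfl hr'
        exact hr (Rch.not_self (avd h hh) (fun _ _ h' => Or.inr h') hr')
      · rintro h hh (rfl | rfl) he
        · exact absurd hh hT0
        · exact absurd rfl he
  by_cases hT1 : h1 ∈ T
  swap
  · by_cases hr : Rch n t a b π (SE T π (fun _ => False)) h0
    · refine fin (fun _ => False) (fun h _ he => he.elim) ?_
      rintro h hh (rfl | rfl) _
      · exact hr
      · exact absurd hh hT1
    · refine fin (fun h => h = h0) ?_ ?_
      · rintro h hh rfl hr'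
        exact hr (Rch.not_self (avd h hh) (fun _ _ h' => Or.inr h') hr')
      · rintro h hh (rfl | rfl) he
        · exact absurd rfl he
        · exact absurd hh hT1
  -- both
  by_cases c0 : Rch n t a b π (SE T π (fun h => h = h0 ∨ h = h1)) h0
  · have c0' : Rch n t a b π (SE T π (fun h => h = h1)) h0 :=
      Rch.not_self (avd h0 hT0) (fun h _ h' => h'.symm) c0
    by_cases c1 : Rch n t a b π (SE T π (fun h => h = h1)) h1
    · have c1' : Rch n t a b π (SE T π (fun _ => False)) h1 :=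
        Rch.not_self (avd h1 hT1) (fun h _ h' => Or.inr h') c1
      by_cases c2 : Rch n t a b π (SE T π (fun _ => False)) h0
      · refine fin (fun _ => False) (fun h _ he => he.elim) ?_
        rintro h hh (rfl | rfl) _
        · exact c2
        · exact c1'
      · refine fin (fun h => h = h0) ?_ ?_
        · rintro h hh rfl hr'
          exact c2 (Rch.not_self (avd h hh) (fun _ _ h' => Or.inr h') hr')
        · rintro h hh (rfl | rfl) he
          · exact absurd rfl he
          · exact mono _ _ (fun h _ h' => h'.elim) _ c1'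
    · refine fin (fun h => h = h1) ?_ ?_
      · rintro h hh rfl hr'
        exact c1 hr'
      · rintro h hh (rfl | rfl) he
        · exact c0'
        · exact absurd rfl he
  · by_cases c1 : Rch n t a b π (SE T π (fun h => h = h0 ∨ h = h1)) h1
    · have c1' : Rch n t a b π (SE T π (fun h => h = h0)) h1 :=
        Rch.not_self (avd h1 hT1) (fun h _ h' => h') c1
      refine fin (fun h => h = h0) ?_ ?_
      · rintro h hh rfl hr'
        exact c0 (mono _ _ (fun h _ h' => Or.inl h') _ hr')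
      · rintro h hh (rfl | rfl) he
        · exact absurd rfl he
        · exact c1'
    · refine fin (fun h => h = h0 ∨ h = h1) ?_ ?_
      · rintro h hh (rfl | rfl) hr'
        · exact c0 hr'
        · exact c1 hr'
      · intro h hh h2 he
        exact absurd h2 he

/-- A plan from counting with the free hosts `ρ h0`, `ρ h1`. -/
theorem plan2_count {n : ℕ} [Fintype κ] [DecidableEq κ] (T : Finset ℕ) (h0 h1 : ℕ)
    (ρ : ℕ → ι ⊕ κ) (hdvd : ∀ h ∈ T, h ∣ n) (hone : ∀ h ∈ T, 1 < h)
    (hT : ∀ h ∈ T, ∀ x : ι ⊕ κ, av t a b h x → nx t a b h x = 1 ∨ nx t a b h x ∈ T)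
    (val : ∀ x, nx t a b n x = 1 ∨ nx t a b n x ∈ T)
    (hρ : ∀ h ∈ T, (h = h0 ∨ h = h1) → av t a b h (ρ h))
    (hρi : h0 ∈ T → h1 ∈ T → h0 ≠ h1 → ρ h0 ≠ ρ h1)
    (cnt : ∀ h ∈ T, h ≠ h0 → h ≠ h1 → 2 * T.card ≤
      ((Finset.univ : Finset κ).filter (fun k => ¬ h ∣ a k ∧ ¬ h ∣ b k)).card + 1) :
    ∃ H π, H ⊆ T ∧ Plan2 n t a b H π := by
  classical
  set E : Finset ℕ := T.filter (fun h => h = h0 ∨ h = h1) with hE
  set F : Finset ℕ := T.filter (fun h => ¬ (h = h0 ∨ h = h1)) with hF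
  have hEF : E.card + F.card = T.card := Finset.card_filter_add_card_filter_not _
  set X : Finset κ := E.biUnion (fun h => Finset.univ.filter (fun k => ρ h = Sum.inr k)) with hX
  have hXc : X.card ≤ E.card := by
    have := Finset.card_biUnion_le_card_mul E
      (fun h => (Finset.univ : Finset κ).filter (fun k => ρ h = Sum.inr k)) 1 (by
        intro h _
        rw [Finset.card_le_one]
        intro x hx y hy
        rw [Finset.mem_filter] at hx hy
        exact Sum.inr_injective (hx.2.symm.trans hy.2))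
    rwa [mul_one] at this
  have memX : ∀ k, k ∈ X ↔ ∃ h ∈ T, (h = h0 ∨ h = h1) ∧ ρ h = Sum.inr k := by
    intro k
    rw [hX, Finset.mem_biUnion]
    constructor
    · rintro ⟨h, hh, hk⟩
      rw [Finset.mem_filter] at hk
      have := Finset.mem_filter.1 hh
      exact ⟨h, this.1, this.2, hk.2⟩
    · rintro ⟨h, h2, h3, h4⟩
      exact ⟨h, Finset.mem_filter.2 ⟨h2, h3⟩, Finset.mem_filter.2 ⟨Finset.mem_univ _, h4⟩⟩
  -- the anchors
  let α : ℕ → Finset κ := fun v =>
    if h : ∃ k, k ∉ X ∧ nx t a b n (Sum.inr k) = v then {h.choose} else ∅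
  have hα1 : ∀ v, (α v).card ≤ 1 := by
    intro v
    show (if h : ∃ k, k ∉ X ∧ nx t a b n (Sum.inr k) = v then {h.choose} else (∅ : Finset κ)).card ≤ 1
    split_ifs
    · rw [Finset.card_singleton]
    · simp
  have hα2 : ∀ v, ∀ k ∈ α v, k ∉ X ∧ nx t a b n (Sum.inr k) = v := by
    intro v k hk
    by_cases h : ∃ k, k ∉ X ∧ nx t a b n (Sum.inr k) = v
    · have e : α v = {h.choose} := dif_pos h
      rw [e, Finset.mem_singleton] at hk
      rw [hk]
      exact h.choose_spec
    · have e : α v = ∅ := dif_neg h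
      rw [e] at hk
      exact absurd hk (Finset.notMem_empty _)
  have hα3 : ∀ v, (∃ k, k ∉ X ∧ nx t a b n (Sum.inr k) = v) → ∃ k, k ∈ α v := by
    intro v h
    have e : α v = {h.choose} := dif_pos h
    exact ⟨h.choose, by rw [e]; exact Finset.mem_singleton_self _⟩
  let avl : {h // h ∈ F} → Finset κ := fun h =>
    (((Finset.univ : Finset κ).filter (fun k => ¬ h.1 ∣ a k ∧ ¬ h.1 ∣ b k)) \ X) \
      (T.erase h.1).biUnion α
  have havl : ∀ h, F.card ≤ (avl h).card := by
    intro h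
    have hh := Finset.mem_filter.1 h.2
    have hne := not_or.1 hh.2
    have c1 := cnt h.1 hh.1 hne.1 hne.2
    have c2 := Finset.le_card_sdiff X
      ((Finset.univ : Finset κ).filter (fun k => ¬ h.1 ∣ a k ∧ ¬ h.1 ∣ b k))
    have c3 := Finset.le_card_sdiff ((T.erase h.1).biUnion α)
      (((Finset.univ : Finset κ).filter (fun k => ¬ h.1 ∣ a k ∧ ¬ h.1 ∣ b k)) \ X)
    have c4 : (avl h).card = ((((Finset.univ : Finset κ).filter
      (fun k => ¬ h.1 ∣ a k ∧ ¬ h.1 ∣ b k)) \ X) \ (T.erase h.1).biUnion α).card := rfl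
    have c5 := Finset.card_biUnion_le_card_mul (T.erase h.1) α 1 (fun v _ => hα1 v)
    rw [Finset.card_erase_of_mem hh.1, mul_one] at c5
    have c6 : 0 < T.card := Finset.card_pos.2 ⟨_, hh.1⟩
    omega
  obtain ⟨f, hfi, hf⟩ := (Finset.all_card_le_biUnion_card_iff_exists_injective avl).1 (by
    intro s
    rcases s.eq_empty_or_nonempty with rfl | ⟨h, hs⟩
    · simp
    · have h1 : s.card ≤ F.card := by
        have := Finset.card_le_univ s
        rwa [Fintype.card_coe] at this
      exact (h1.trans (havl h)).trans (Finset.card_le_card (Finset.subset_biUnion_of_mem avl hs)))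
  have hf1 : ∀ h, (¬ h.1 ∣ a (f h) ∧ ¬ h.1 ∣ b (f h)) ∧ f h ∉ X ∧
      ∀ v ∈ T, f h ∉ α v := by
    intro h
    have h2 := hf h
    rw [Finset.mem_sdiff, Finset.mem_sdiff, Finset.mem_filter] at h2
    refine ⟨h2.1.1.2, h2.1.2, ?_⟩
    intro v hv hk
    by_cases hvh : v = h.1
    · have h3 := nx_pair_dvd (hα2 v _ hk).2
      rw [hvh] at h3
      exact h2.1.1.2.1 h3.1
    · exact h2.2 (Finset.mem_biUnion.2 ⟨v, Finset.mem_erase.2 ⟨hvh, hv⟩, hk⟩)
  let p : ℕ → ι ⊕ κ := fun h => if hh : h ∈ F then Sum.inr (f ⟨h, hh⟩) else ρ h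
  have p1 : ∀ h (hh : h ∈ F), p h = Sum.inr (f ⟨h, hh⟩) := fun h hh => dif_pos hh
  have p2 : ∀ h, h ∉ F → p h = ρ h := fun h hh => dif_neg hh
  have hcase : ∀ h ∈ T, h ∈ F ∨ (h ∉ F ∧ (h = h0 ∨ h = h1)) := by
    intro h hh
    by_cases h2 : h = h0 ∨ h = h1
    · right
      refine ⟨?_, h2⟩
      intro h3
      exact (Finset.mem_filter.1 h3).2 h2
    · left
      exact Finset.mem_filter.2 ⟨hh, h2⟩
  have hav : ∀ h ∈ T, av t a b h (p h) := by
    intro h hh
    rcases hcase h hh with h2 | ⟨h2, h3⟩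
    · rw [p1 h h2]
      exact (hf1 ⟨h, h2⟩).1
    · rw [p2 h h2]
      exact hρ h hh h3
  have key : ∃ H, H ⊆ T ∧ Plan2 n t a b H p := by
    refine exists_plan2 T p h0 h1 hdvd hone ?_ hav (fun h hh => hT h hh _ (hav h hh)) val ?_
    · intro h hh h' hh' he
      rcases hcase h hh with h2 | ⟨h2, h3⟩
      · rcases hcase h' hh' with h4 | ⟨h4, h5⟩
        · rw [p1 h h2, p1 h' h4] at he
          exact congrArg Subtype.val (hfi (Sum.inr_injective he))
        · exfalso
          rw [p1 h h2, p2 h' h4] at he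
          exact (hf1 ⟨h, h2⟩).2.1 ((memX _).2 ⟨h', hh', h5, he.symm⟩)
      · rcases hcase h' hh' with h4 | ⟨h4, h5⟩
        · exfalso
          rw [p2 h h2, p1 h' h4] at he
          exact (hf1 ⟨h', h4⟩).2.1 ((memX _).2 ⟨h, hh, h3, he⟩)
        · rw [p2 h h2, p2 h' h4] at he
          rcases h3 with rfl | rfl
          · rcases h5 with rfl | rfl
            · rfl
            · by_contra hne
              exact hρi hh hh' hne he
          · rcases h5 with rfl | rfl
            · by_contra hne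
              exact hρi hh' hh (fun h => hne h.symm) he.symm
            · rfl
    · intro h hh hne0 hne1
      have hF' : h ∈ F := Finset.mem_filter.2 ⟨hh, not_or.2 ⟨hne0, hne1⟩⟩
      rw [p1 h hF']
      by_cases hv1 : nx t a b n (Sum.inr (f ⟨h, hF'⟩)) = 1
      · exact Or.inl hv1
      right
      have hvT : nx t a b n (Sum.inr (f ⟨h, hF'⟩)) ∈ T := by
        rcases val (Sum.inr (f ⟨h, hF'⟩)) with h2 | h2
        · exact absurd h2 hv1
        · exact h2
      obtain ⟨k, hk⟩ := hα3 (nx t a b n (Sum.inr (f ⟨h, hF'⟩)))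
        ⟨f ⟨h, hF'⟩, (hf1 ⟨h, hF'⟩).2.1, rfl⟩
      obtain ⟨k1, k2⟩ := hα2 _ k hk
      refine ⟨Sum.inr k, ?_, k2⟩
      intro h' hh' he
      rcases hcase h' hh' with h4 | ⟨h4, h5⟩
      · rw [p1 h' h4] at he
        have := Sum.inr_injective he
        exact (hf1 ⟨h', h4⟩).2.2 _ hvT (by rw [this]; exact hk)
      · rw [p2 h' h4] at he
        exact k1 ((memX _).2 ⟨h', hh', h5, he⟩)
  obtain ⟨H, hH, P⟩ := key
  exact ⟨H, _, hH, P⟩

end Pool.Agent.P45
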