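import Pool.Agent.Lib.P45dba8.One
import Pool.Agent.Lib.P45dba8.TwoCycAll

/-! # MP_45dba8: reindexing of good families; LIFT for every nonempty family -/

set_option autoImplicit false

namespace Pool.Agent.P45

/-- Renaming the members of a family. -/
theorem Good.reindex {n : ℕ} {Q : ZMod n → Prop} {ι κ ι' κ' : Type*} {t : ι → ZMod n}
    {d u : κ → ZMod n} (hG : Good n Q t d u) (σ : ι' ≃ ι) (τ : κ' ≃ κ) :
    Good n Q (t ∘ σ) (d ∘ τ) (u ∘ τ) := by
  intro P A hA hP
  let e : ι' ⊕ κ' × Bool ≃ ι ⊕ κ × Bool := Equiv.sumCongr σ (Equiv.prodCongr τ (Equiv.refl Bool))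
  have h1 := hG (P ∘ e.symm) (A ∘ e.symm) (by
      intro i
      have := hA (σ.symm i)
      simpa [e] using this) (by
      intro k
      have := hP (τ.symm k)
      simpa [e] using this)
  refine ((h1.mono ?_).reindex e).congr ?_
  · rintro v - v' - ⟨δ, hδ, hvv⟩
    refine ⟨δ, ?_, hvv⟩
    rcases hδ with ⟨i, hi⟩ | ⟨k, hk⟩
    · exact Or.inl ⟨σ i, hi⟩
    · exact Or.inr ⟨τ k, hk⟩
  · intro x b
    simp [fh]

/-- Equal families. -/
theorem Good.congr {n : ℕ} {Q : ZMod n → Prop} {ι κ : Type*} {t t' : ι → ZMod n}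
    {d u d' u' : κ → ZMod n} (hG : Good n Q t d u) (h1 : ∀ i, t' i = t i) (h2 : ∀ k, d' k = d k)
    (h3 : ∀ k, u' k = u k) : Good n Q t' d' u' := by
  have e1 : t' = t := funext h1
  have e2 : d' = d := funext h2
  have e3 : u' = u := funext h3
  rw [e1, e2, e3]
  exact hG

/-- The empty family. -/
theorem good_empty {n : ℕ} {Q : ZMod n → Prop} {ι κ : Type*} [IsEmpty ι] [IsEmpty κ]
    (t : ι → ZMod n) (d u : κ → ZMod n) : Good n Q t d u := by
  intro P A _ _
  refine ⟨fun _ _ _ _ => False, fun _ _ _ _ h => h, fun _ _ _ _ h => h.elim,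
    fun _ _ _ _ _ h => h.elim, fun _ _ _ h => h, ?_⟩
  rintro v - v' - ⟨δ, hδ, -⟩
  rcases hδ with ⟨i, _⟩ | ⟨k, _⟩
  · exact isEmptyElim i
  · exact isEmptyElim k

/-- LIFT from a joint system along two blocks. -/
theorem good_lift_core {m h : ℕ} (h3 : 3 ≤ h) {ι κ : Type*}
    {t : ι → ZMod m} {d u : κ → ZMod m}
    (hJ : ∀ (E : Bool → ZMod (m * h) → ZMod (m * h) → Prop) (w w' : Bool → ZMod (m * h)),
      (∀ j, Cyc m h (E j) (w j) (w' j)) → ∀ P A : ι ⊕ κ × Bool → ZMod (m * h),
      (∀ i, A (Sum.inl i) = psi m h (t i)) →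
      (∀ k, adm (fun δ => red m h δ ≠ 0) (psi m h (d k)) (psi m h (u k))
        (A (Sum.inr (k, false))) (A (Sum.inr (k, true)))
        (P (Sum.inr (k, true)) - P (Sum.inr (k, false)))) →
      TS Set.univ (fun v v' => DE (FD (fun i => psi m h (t i)) (fun k => psi m h (d k))
          (fun k => psi m h (u k))) v v' ∨ ∃ j, E j v v' ∨ E j v' v)
        (fun (k : Bool ⊕ (ι ⊕ κ × Bool)) b =>
          Sum.elim (fun j => bif b then w' j else w j) (fun θ => fh P A θ b) k))
    (x y : ZMod (m * h)) (H : TwoCycAll m h x y) :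
    Good (m * h) IsUnit (fun i => psi m h (t i))
      (fun k : Option κ => k.elim x (fun k => psi m h (d k)))
      (fun k : Option κ => k.elim y (fun k => psi m h (u k))) := by
  classical
  have hF1 : Fact (1 < h) := ⟨by omega⟩
  intro P A hA hP
  obtain ⟨H1, H2, H3⟩ := H
  let e1 : ι ⊕ κ × Bool → ι ⊕ Option κ × Bool := Sum.map id (fun k => (some k.1, k.2))
  have hu0 : ∀ δ : ZMod (m * h), IsUnit δ → red m h δ ≠ 0 := fun δ hδ =>
    (hδ.map (red m h)).ne_zero
  have hA1 : ∀ i, (A ∘ e1) (Sum.inl i) = psi m h (t i) := fun i => hA i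
  have hP1 : ∀ k, adm (fun δ => red m h δ ≠ 0) (psi m h (d k)) (psi m h (u k))
      ((A ∘ e1) (Sum.inr (k, false))) ((A ∘ e1) (Sum.inr (k, true)))
      ((P ∘ e1) (Sum.inr (k, true)) - (P ∘ e1) (Sum.inr (k, false))) := by
    intro k
    rcases hP (some k) with h1 | h1 | ⟨h1, h2⟩
    · exact Or.inl h1
    · exact Or.inr (Or.inl h1)
    · exact Or.inr (Or.inr ⟨h1, hu0 _ h2⟩)
  have fin : ∀ q q' : ZMod (m * h), A (Sum.inr (none, false)) = q →
      A (Sum.inr (none, true)) = q' →
      TwoCyc m h x y (P (Sum.inr (none, false))) (P (Sum.inr (none, false)) + q)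
        (P (Sum.inr (none, true))) (P (Sum.inr (none, true)) + q') →
      TS Set.univ (DE (FD (fun i => psi m h (t i))
        (fun k : Option κ => k.elim x (fun k => psi m h (d k)))
        (fun k : Option κ => k.elim y (fun k => psi m h (u k))))) (fh P A) := by
    intro q q' hq hq' hT
    obtain ⟨E, E', c1, c2, c3⟩ := hT
    have key := hJ (fun b => bif b then E' else E)
      (fun b => bif b then P (Sum.inr (none, true)) else P (Sum.inr (none, false)))
      (fun b => bif b then P (Sum.inr (none, true)) + q' else P (Sum.inr (none, false)) + q)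
      (by rintro (_ | _); exacts [c1, c2]) (P ∘ e1) (A ∘ e1) hA1 hP1
    let σ : ι ⊕ Option κ × Bool ≃ Bool ⊕ (ι ⊕ κ × Bool) :=
      { toFun := Sum.elim (fun i => Sum.inr (Sum.inl i))
          (fun k => k.1.elim (Sum.inl k.2) (fun j => Sum.inr (Sum.inr (j, k.2))))
        invFun := Sum.elim (fun b => Sum.inr (none, b)) e1
        left_inv := by
          rintro (i | ⟨_ | k, b⟩)
          · rfl
          · rfl
          · rfl
        right_inv := by
          rintro (b | (i | ⟨k, b⟩))
          · rfl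
          · rfl
          · rfl }
    refine ((key.reindex σ).mono ?_).congr ?_
    · rintro v - v' - ⟨δ, hδ, hvv⟩
      have hxy : (δ = x ∨ δ = y) →
          ∃ j : Bool, (bif j then E' else E) v v' ∨ (bif j then E' else E) v' v := by
        intro h4
        have h5 : ((E v v' ∨ E v' v) ∨ (E' v v' ∨ E' v' v)) := by
          rcases hvv with hvv | hvv
          · exact c3 v v' (by rcases h4 with rfl | rfl; exacts [Or.inl hvv, Or.inr hvv])
          · rcases c3 v' v (by rcases h4 with rfl | rfl; exacts [Or.inl hvv, Or.inr hvv])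
              with h6 | h6
            · exact Or.inl h6.symm
            · exact Or.inr h6.symm
        rcases h5 with h5 | h5
        · exact ⟨false, h5⟩
        · exact ⟨true, h5⟩
      rcases hδ with ⟨i, hi⟩ | ⟨_ | k, hk⟩
      · exact Or.inl ⟨δ, Or.inl ⟨i, hi⟩, hvv⟩
      · exact Or.inr (hxy hk)
      · exact Or.inl ⟨δ, Or.inr ⟨k, hk⟩, hvv⟩
    · rintro (i | ⟨_ | k, b'⟩) b
      · rfl
      · cases b'
        · show P (Sum.inr (none, false)) + (bif b then A (Sum.inr (none, false)) else 0) =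
            (bif b then P (Sum.inr (none, false)) + q else P (Sum.inr (none, false)))
          rw [hq]
          cases b
          · exact add_zero _
          · rfl
        · show P (Sum.inr (none, true)) + (bif b then A (Sum.inr (none, true)) else 0) =
            (bif b then P (Sum.inr (none, true)) + q' else P (Sum.inr (none, true)))
          rw [hq']
          cases b
          · exact add_zero _
          · rfl
      · rfl
  rcases hP none with ⟨h1, h2⟩ | ⟨h1, h2⟩ | ⟨⟨h1, h2⟩ | ⟨h1, h2⟩, h4⟩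
  · exact fin x y h1 h2 (H1 _ _)
  · exact fin y x h1 h2 (H1 _ _).flip
  · exact fin x x h1 h2 (H2 _ _ (h4.map (red m h)))
  · exact fin y y h1 h2 (H3 _ _ (h4.map (red m h)))

/-- LIFT for one pair. -/
theorem good_lift_one {m h : ℕ} (hm : Odd m) (hh : Odd h) (h3 : 3 ≤ h) {ι κ : Type*}
    [IsEmpty ι] [Unique κ] (t : ι → ZMod m) (d u : κ → ZMod m) (hd0 : ∀ k, d k ≠ 0)
    (hu0 : ∀ k, u k ≠ 0) (hdu1 : ∀ k, d k ≠ u k) (hdu2 : ∀ k, d k ≠ -u k)
    (hdu : ∀ k, cop (d k) (u k)) (x y : ZMod (m * h)) (hx : red m h x ≠ 0)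
    (hy : red m h y ≠ 0) (hcop : cop (red m h x) (red m h y)) :
    Good (m * h) IsUnit (fun i => psi m h (t i))
      (fun k : Option κ => k.elim x (fun k => psi m h (d k)))
      (fun k : Option κ => k.elim y (fun k => psi m h (u k))) :=
  good_lift_core h3 (fun E w w' hcyc P A _ hP =>
    joint_one hm hh h3 t d u hd0 hu0 hdu1 hdu2 hdu E w w' hcyc P A hP) x y
    (twoCycAll hh h3 x y hx hy hcop)

end Pool.Agent.P45
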