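import Pool.Agent.Lib.P45dba8.Proc1

/-! # MP_45dba8: families of natural numbers divided by a divisor -/

set_option autoImplicit false

namespace Pool.Agent.P45

/-- Transport of a good family along bijections of the index types. -/
theorem Good.transport {n : ℕ} {Q : ZMod n → Prop} {ι κ ι' κ' : Type*} {t' : ι' → ZMod n}
    {d' u' : κ' → ZMod n} (f : ι → ι') (hf : Function.Bijective f) (g : κ → κ')
    (hg : Function.Bijective g) (hG : Good n Q (t' ∘ f) (d' ∘ g) (u' ∘ g)) :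
    Good n Q t' d' u' := by
  refine (hG.reindex (Equiv.ofBijective f hf).symm (Equiv.ofBijective g hg).symm).congr ?_ ?_ ?_
  · intro i
    show t' i = t' (f ((Equiv.ofBijective f hf).symm i))
    rw [Equiv.ofBijective_apply_symm_apply f hf]
  · intro i
    show d' i = d' (g ((Equiv.ofBijective g hg).symm i))
    rw [Equiv.ofBijective_apply_symm_apply g hg]
  · intro i
    show u' i = u' (g ((Equiv.ofBijective g hg).symm i))
    rw [Equiv.ofBijective_apply_symm_apply g hg]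

theorem psi_div {m g a : ℕ} (h : g ∣ a) :
    psi m g ((a / g : ℕ) : ZMod m) = (a : ZMod (m * g)) := by
  rw [psi_natCast, ← Nat.cast_mul, Nat.div_mul_cancel h]

theorem psi_div' {m h g a : ℕ} (hg : 0 < g) (hd : h * g ∣ a) :
    psi m h ((a / (h * g) : ℕ) : ZMod m) = ((a / g : ℕ) : ZMod (m * h)) := by
  rw [psi_natCast, ← Nat.cast_mul]
  congr 1
  obtain ⟨c, rfl⟩ := hd
  rcases Nat.eq_zero_or_pos h with rfl | hh
  · simp
  · rw [Nat.mul_div_cancel_left _ (by positivity), mul_assoc h g c, mul_left_comm,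
      Nat.mul_div_cancel_left _ hg, mul_comm]

theorem gcd_mod3 (A B h : ℕ) :
    Nat.gcd (Nat.gcd (A % h) (B % h)) h = Nat.gcd (Nat.gcd A B) h := by
  apply Nat.dvd_antisymm
  · have h1 := Nat.gcd_dvd_right (Nat.gcd (A % h) (B % h)) h
    have h2 := (Nat.gcd_dvd_left (Nat.gcd (A % h) (B % h)) h).trans (Nat.gcd_dvd_left _ _)
    have h3 := (Nat.gcd_dvd_left (Nat.gcd (A % h) (B % h)) h).trans (Nat.gcd_dvd_right _ _)
    exact Nat.dvd_gcd (Nat.dvd_gcd ((Nat.dvd_mod_iff h1).1 h2) ((Nat.dvd_mod_iff h1).1 h3)) h1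
  · have h1 := Nat.gcd_dvd_right (Nat.gcd A B) h
    have h2 := (Nat.gcd_dvd_left (Nat.gcd A B) h).trans (Nat.gcd_dvd_left _ _)
    have h3 := (Nat.gcd_dvd_left (Nat.gcd A B) h).trans (Nat.gcd_dvd_right _ _)
    exact Nat.dvd_gcd (Nat.dvd_gcd ((Nat.dvd_mod_iff h1).2 h2) ((Nat.dvd_mod_iff h1).2 h3)) h1

theorem cop_cast {n : ℕ} (A B : ℕ) : cop (A : ZMod n) (B : ZMod n) ↔
    Nat.gcd (Nat.gcd A B) n = 1 := by
  show Nat.gcd (Nat.gcd (A : ZMod n).val (B : ZMod n).val) n = 1 ↔ _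
  rw [ZMod.val_natCast, ZMod.val_natCast, gcd_mod3]

section fam

variable {ι κ : Type*}

/-- All types of the items. -/
def typ (t : ι → ℕ) (a b : κ → ℕ) : ι ⊕ κ × Bool → ℕ :=
  Sum.elim t (fun k => bif k.2 then b k.1 else a k.1)

/-- The types are nonzero and distinct up to sign in `ZMod n`. -/
def TDist (n : ℕ) (t : ι → ℕ) (a b : κ → ℕ) : Prop :=
  (∀ x, ((typ t a b x : ℕ) : ZMod n) ≠ 0) ∧
  ∀ x y, x ≠ y → ((typ t a b x : ℕ) : ZMod n) ≠ ((typ t a b y : ℕ) : ZMod n) ∧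
    ((typ t a b x : ℕ) : ZMod n) ≠ -((typ t a b y : ℕ) : ZMod n)

/-- The items of `K` divided by `g` are a good family in `ZMod m`. -/
def GF (m g : ℕ) (t : ι → ℕ) (a b : κ → ℕ) (K : Set (ι ⊕ κ)) : Prop :=
  (∀ i, Sum.inl i ∈ K → g ∣ t i) ∧ (∀ k, Sum.inr k ∈ K → g ∣ a k ∧ g ∣ b k) ∧
  Good m IsUnit (fun i : {i : ι // Sum.inl i ∈ K} => ((t i.1 / g : ℕ) : ZMod m))
    (fun k : {k : κ // Sum.inr k ∈ K} => ((a k.1 / g : ℕ) : ZMod m))
    (fun k : {k : κ // Sum.inr k ∈ K} => ((b k.1 / g : ℕ) : ZMod m))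

variable {t : ι → ℕ} {a b : κ → ℕ}

theorem GF.dist {n m g : ℕ} (hmg : m * g = n) (hD : TDist n t a b) {K : Set (ι ⊕ κ)}
    (h1 : ∀ i, Sum.inl i ∈ K → g ∣ t i) (h2 : ∀ k, Sum.inr k ∈ K → g ∣ a k ∧ g ∣ b k) :
    Dist (fun i : {i : ι // Sum.inl i ∈ K} => ((t i.1 / g : ℕ) : ZMod m))
    (fun k : {k : κ // Sum.inr k ∈ K} => ((a k.1 / g : ℕ) : ZMod m))
    (fun k : {k : κ // Sum.inr k ∈ K} => ((b k.1 / g : ℕ) : ZMod m)) ∧
    ∀ x, tyy (fun i : {i : ι // Sum.inl i ∈ K} => ((t i.1 / g : ℕ) : ZMod m))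
    (fun k : {k : κ // Sum.inr k ∈ K} => ((a k.1 / g : ℕ) : ZMod m))
    (fun k : {k : κ // Sum.inr k ∈ K} => ((b k.1 / g : ℕ) : ZMod m)) x ≠ 0 := by
  subst hmg
  obtain ⟨hD0, hD⟩ := hD
  let up : {i : ι // Sum.inl i ∈ K} ⊕ {k : κ // Sum.inr k ∈ K} × Bool → ι ⊕ κ × Bool :=
    Sum.map Subtype.val (Prod.map Subtype.val id)
  have hup : Function.Injective up := by
    apply Function.Injective.sumMap Subtype.val_injective
    exact Subtype.val_injective.prodMap Function.injective_id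
  have key : ∀ x, psi m g (tyy (fun i : {i : ι // Sum.inl i ∈ K} => ((t i.1 / g : ℕ) : ZMod m))
      (fun k : {k : κ // Sum.inr k ∈ K} => ((a k.1 / g : ℕ) : ZMod m))
      (fun k : {k : κ // Sum.inr k ∈ K} => ((b k.1 / g : ℕ) : ZMod m)) x) =
      ((typ t a b (up x) : ℕ) : ZMod (m * g)) := by
    rintro (i | ⟨k, c⟩)
    · exact psi_div (h1 i.1 i.2)
    · cases c
      · exact psi_div (h2 k.1 k.2).1
      · exact psi_div (h2 k.1 k.2).2
  refine ⟨?_, ?_⟩
  · intro x y hxy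
    obtain ⟨g1, g2⟩ := hD (up x) (up y) (hup.ne hxy)
    rw [← key, ← key] at g1 g2
    exact ⟨fun h => g1 (by rw [h]), fun h => g2 (by rw [h, map_neg])⟩
  · intro x hx
    apply hD0 (up x)
    rw [← key, hx, map_zero]

theorem GF.empty (m g : ℕ) : GF m g t a b ∅ := by
  refine ⟨fun i h => h.elim, fun k h => h.elim, ?_⟩
  have : IsEmpty {i : ι // Sum.inl i ∈ (∅ : Set (ι ⊕ κ))} := ⟨fun x => x.2⟩
  have : IsEmpty {k : κ // Sum.inr k ∈ (∅ : Set (ι ⊕ κ))} := ⟨fun x => x.2⟩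
  exact good_empty _ _ _

theorem GF.union {m g : ℕ} {K K' : Set (ι ⊕ κ)} (h : GF m g t a b K) (h' : GF m g t a b K')
    (hd : ∀ x, x ∈ K → x ∈ K' → False) : GF m g t a b (K ∪ K') := by
  obtain ⟨h1, h2, h3⟩ := h
  obtain ⟨g1, g2, g3⟩ := h'
  refine ⟨?_, ?_, ?_⟩
  · rintro i (hi | hi)
    · exact h1 i hi
    · exact g1 i hi
  · rintro k (hk | hk)
    · exact h2 k hk
    · exact g2 k hk
  let f : {i : ι // Sum.inl i ∈ K} ⊕ {i : ι // Sum.inl i ∈ K'} →
      {i : ι // (Sum.inl i : ι ⊕ κ) ∈ K ∪ K'} :=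
    Sum.elim (fun i => ⟨i.1, Or.inl i.2⟩) (fun i => ⟨i.1, Or.inr i.2⟩)
  let f' : {k : κ // Sum.inr k ∈ K} ⊕ {k : κ // Sum.inr k ∈ K'} →
      {k : κ // (Sum.inr k : ι ⊕ κ) ∈ K ∪ K'} :=
    Sum.elim (fun i => ⟨i.1, Or.inl i.2⟩) (fun i => ⟨i.1, Or.inr i.2⟩)
  have hf : Function.Bijective f := by
    constructor
    · rintro (x | x) (y | y) hxy
      · have h := congrArg Subtype.val hxy
        have : x.1 = y.1 := h
        rw [Subtype.ext this]
      · exfalso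
        have h := congrArg Subtype.val hxy
        have : x.1 = y.1 := h
        exact hd _ x.2 (by rw [this]; exact y.2)
      · exfalso
        have h := congrArg Subtype.val hxy
        have : x.1 = y.1 := h
        exact hd _ y.2 (by rw [← this]; exact x.2)
      · have h := congrArg Subtype.val hxy
        have : x.1 = y.1 := h
        rw [Subtype.ext this]
    · rintro ⟨i, hi | hi⟩
      · exact ⟨Sum.inl ⟨i, hi⟩, rfl⟩
      · exact ⟨Sum.inr ⟨i, hi⟩, rfl⟩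
  have hf' : Function.Bijective f' := by
    constructor
    · rintro (x | x) (y | y) hxy
      · have h := congrArg Subtype.val hxy
        have : x.1 = y.1 := h
        rw [Subtype.ext this]
      · exfalso
        have h := congrArg Subtype.val hxy
        have : x.1 = y.1 := h
        exact hd _ x.2 (by rw [this]; exact y.2)
      · exfalso
        have h := congrArg Subtype.val hxy
        have : x.1 = y.1 := h
        exact hd _ y.2 (by rw [← this]; exact x.2)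
      · have h := congrArg Subtype.val hxy
        have : x.1 = y.1 := h
        rw [Subtype.ext this]
    · rintro ⟨i, hi | hi⟩
      · exact ⟨Sum.inl ⟨i, hi⟩, rfl⟩
      · exact ⟨Sum.inr ⟨i, hi⟩, rfl⟩
  refine Good.transport f hf f' hf' ((h3.union g3).congr ?_ ?_ ?_)
  · rintro (i | i) <;> rfl
  · rintro (i | i) <;> rfl
  · rintro (i | i) <;> rfl

/-- The exact family: singles and pairs of value exactly `g`. -/
theorem GF.exact {n m g : ℕ} (hn : Odd n) (hmg : m * g = n) (hg : 0 < g)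
    (hD : TDist n t a b) (K : Set (ι ⊕ κ))
    (h1 : ∀ i, Sum.inl i ∈ K → Nat.gcd n (t i) = g)
    (h2 : ∀ k, Sum.inr k ∈ K → Nat.gcd (Nat.gcd n (a k)) (b k) = g) : GF m g t a b K := by
  have d1 : ∀ i, Sum.inl i ∈ K → g ∣ t i := by
    intro i hi
    rw [← h1 i hi]
    exact Nat.gcd_dvd_right _ _
  have d2 : ∀ k, Sum.inr k ∈ K → g ∣ a k ∧ g ∣ b k := by
    intro k hk
    rw [← h2 k hk]
    exact ⟨(Nat.gcd_dvd_left _ _).trans (Nat.gcd_dvd_right _ _), Nat.gcd_dvd_right _ _⟩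
  obtain ⟨q1, q2⟩ := GF.dist hmg hD d1 d2
  refine ⟨d1, d2, ?_⟩
  rcases K.eq_empty_or_nonempty with hK | ⟨x, hx⟩
  · have := GF.empty (t := t) (a := a) (b := b) m g
    rw [← hK] at this
    exact this.2.2
  have hmo : Odd m := by
    rw [← hmg] at hn
    exact (Nat.odd_mul.1 hn).1
  have m3 : 3 ≤ m := by
    have hne1 : m ≠ 1 := by
      rintro rfl
      rcases x with i | k
      · exact q2 (Sum.inl ⟨i, hx⟩) (Subsingleton.elim _ _)
      · exact q2 (Sum.inr (⟨k, hx⟩, false)) (Subsingleton.elim _ _)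
    obtain ⟨j, hj⟩ := hmo
    omega
  have hc : ∀ A : ℕ, g ∣ A → Nat.gcd n A = Nat.gcd m (A / g) * g := by
    rintro A ⟨c, rfl⟩
    rw [Nat.mul_div_cancel_left _ hg, ← hmg, mul_comm m g, Nat.gcd_mul_left, mul_comm]
  refine good_family hmo m3 _ _ _ ?_ ?_ ?_ ?_ ?_ ?_
  · rintro ⟨i, hi⟩
    have h3 := h1 i hi
    rw [hc _ (d1 i hi)] at h3
    have h4 : Nat.gcd m (t i / g) = 1 := Nat.eq_of_mul_eq_mul_right hg (by rw [h3, one_mul])
    show IsUnit ((t i / g : ℕ) : ZMod m)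
    rw [ZMod.isUnit_iff_coprime, Nat.coprime_comm]
    exact h4
  · intro k
    exact q2 (Sum.inr (k, false))
  · intro k
    exact q2 (Sum.inr (k, true))
  · intro k
    exact (q1 (Sum.inr (k, false)) (Sum.inr (k, true)) (by simp)).1
  · intro k
    exact (q1 (Sum.inr (k, false)) (Sum.inr (k, true)) (by simp)).2
  · rintro ⟨k, hk⟩
    have h3 := h2 k hk
    rw [cop_cast]
    rw [hc _ (d2 k hk).1] at h3
    obtain ⟨⟨c, hc1⟩, ⟨c', hc2⟩⟩ := d2 k hk
    rw [hc1, hc2, Nat.mul_div_cancel_left _ hg, mul_comm, Nat.gcd_mul_left] at h3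
    have h4 : Nat.gcd (Nat.gcd m c) c' = 1 := Nat.eq_of_mul_eq_mul_left hg (by rw [h3, mul_one])
    rw [hc1, hc2, Nat.mul_div_cancel_left _ hg, Nat.mul_div_cancel_left _ hg]
    rw [Nat.gcd_assoc] at h4
    rw [Nat.gcd_comm]
    exact h4

end fam

end Pool.Agent.P45
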