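import Pool.Agent.Lib.P45dba8.Proc2

/-! # MP_45dba8: lifting of divided families and the divisor processing theorem -/

set_option autoImplicit false

namespace Pool.Agent.P45

section fam

variable {ι κ : Type*} {t : ι → ℕ} {a b : κ → ℕ}

/-- Lifting along a pair host. -/
theorem GF.lift {n m h g : ℕ} (hn : Odd n) (hmg : m * (h * g) = n) (h3 : 3 ≤ h)
    (hD : TDist n t a b) {K : Set (ι ⊕ κ)} (hK : GF m (h * g) t a b K) (k0 : κ)
    (hk0 : Sum.inr k0 ∉ K)
    (ha : ¬ h * g ∣ a k0) (hb : ¬ h * g ∣ b k0)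
    (hg : Nat.gcd (Nat.gcd (h * g) (a k0)) (b k0) = g)
    (hsize : (∃ x ∈ K, ∃ y ∈ K, x ≠ y) ∨
      ∃ k1, K = {Sum.inr k1} ∧ Nat.gcd (Nat.gcd n (a k1)) (b k1) = h * g) :
    GF (m * h) g t a b (K ∪ {Sum.inr k0}) := by
  classical
  have hn0 : 0 < n := hn.pos
  have hg0 : 0 < g := by
    rcases Nat.eq_zero_or_pos g with h0 | h0
    · rw [h0, mul_zero, mul_zero] at hmg
      omega
    · exact h0
  have hmh : m * h * g = n := by rw [mul_assoc]; exact hmg
  obtain ⟨h1, h2, h4⟩ := hK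
  have hodd : Odd m ∧ Odd h := by
    rw [← hmg] at hn
    exact ⟨(Nat.odd_mul.1 hn).1, (Nat.odd_mul.1 (Nat.odd_mul.1 hn).2).1⟩
  have ga : g ∣ a k0 := by
    have := (Nat.gcd_dvd_left (Nat.gcd (h * g) (a k0)) (b k0)).trans (Nat.gcd_dvd_right _ _)
    rwa [hg] at this
  have gb : g ∣ b k0 := by
    have := Nat.gcd_dvd_right (Nat.gcd (h * g) (a k0)) (b k0)
    rwa [hg] at this
  have d1 : ∀ i, Sum.inl i ∈ K ∪ {Sum.inr k0} → g ∣ t i := by
    rintro i (hi | hi)
    · exact (dvd_mul_left g h).trans (h1 i hi)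
    · exact absurd hi (by simp)
  have d2 : ∀ k, Sum.inr k ∈ K ∪ {Sum.inr k0} → g ∣ a k ∧ g ∣ b k := by
    rintro k (hk | hk)
    · exact ⟨(dvd_mul_left g h).trans (h2 k hk).1, (dvd_mul_left g h).trans (h2 k hk).2⟩
    · have : k = k0 := by simpa using hk
      rw [this]
      exact ⟨ga, gb⟩
  obtain ⟨q1, q2⟩ := GF.dist hmg hD h1 h2
  have hnd : ∀ A : ℕ, g ∣ A → ¬ h * g ∣ A → red m h ((A / g : ℕ) : ZMod (m * h)) ≠ 0 := by
    rintro A ⟨c, rfl⟩ hA hz
    rw [Nat.mul_div_cancel_left _ hg0, map_natCast, ZMod.natCast_eq_zero_iff] at hz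
    apply hA
    rw [mul_comm h g]
    exact Nat.mul_dvd_mul_left g hz
  have hx := hnd _ ga ha
  have hy := hnd _ gb hb
  have hcop : cop (red m h ((a k0 / g : ℕ) : ZMod (m * h)))
      (red m h ((b k0 / g : ℕ) : ZMod (m * h))) := by
    rw [map_natCast, map_natCast, cop_cast]
    obtain ⟨c, hc⟩ := ga
    obtain ⟨c', hc'⟩ := gb
    rw [hc, hc', Nat.mul_div_cancel_left _ hg0, Nat.mul_div_cancel_left _ hg0]
    rw [hc, hc', mul_comm h g, Nat.gcd_mul_left, Nat.gcd_mul_left] at hg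
    have h5 : Nat.gcd (Nat.gcd h c) c' = 1 := Nat.eq_of_mul_eq_mul_left hg0 (by rw [hg, mul_one])
    rw [Nat.gcd_assoc] at h5
    rw [Nat.gcd_comm]
    exact h5
  -- the lifted family
  have key : Good (m * h) IsUnit
      (fun i : {i : ι // Sum.inl i ∈ K} => psi m h ((t i.1 / (h * g) : ℕ) : ZMod m))
      (fun k : Option {k : κ // Sum.inr k ∈ K} => k.elim ((a k0 / g : ℕ) : ZMod (m * h))
        (fun k => psi m h ((a k.1 / (h * g) : ℕ) : ZMod m)))
      (fun k : Option {k : κ // Sum.inr k ∈ K} => k.elim ((b k0 / g : ℕ) : ZMod (m * h))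
        (fun k => psi m h ((b k.1 / (h * g) : ℕ) : ZMod m))) := by
    rcases hsize with ⟨x, hxK, y, hyK, hxy⟩ | ⟨k1, hk1, hv⟩
    · refine h4.lift hodd.1 hodd.2 h3 (fun _ hx => hx) q1
        (Sum.elim (fun i => decide (Sum.inl i.1 = x)) (fun k => decide (Sum.inr k.1 = x))) ?_
        _ _ hx hy hcop
      have ex : ∀ z ∈ K, ∃ w : {i : ι // Sum.inl i ∈ K} ⊕ {k : κ // Sum.inr k ∈ K},
          Sum.elim (fun i => decide (Sum.inl i.1 = x)) (fun k => decide (Sum.inr k.1 = x)) w =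
            decide (z = x) := by
        rintro (i | k) hz
        · exact ⟨Sum.inl ⟨i, hz⟩, rfl⟩
        · exact ⟨Sum.inr ⟨k, hz⟩, rfl⟩
      rintro (_ | _)
      · obtain ⟨w, hw⟩ := ex y hyK
        exact ⟨w, by rw [hw]; exact decide_eq_false (fun h' => hxy h'.symm)⟩
      · obtain ⟨w, hw⟩ := ex x hxK
        exact ⟨w, by rw [hw]; exact decide_eq_true rfl⟩
    · have hsub : ∀ z ∈ K, z = Sum.inr k1 := by
        intro z hz
        rw [hk1] at hz
        exact hz
      have hE : IsEmpty {i : ι // Sum.inl i ∈ K} := ⟨fun i => by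
        have := hsub _ i.2
        simp at this⟩
      have hU : ∀ k : {k : κ // Sum.inr k ∈ K}, k.1 = k1 := fun k => by
        have := hsub _ k.2
        simpa using this
      have hmem : (Sum.inr k1 : ι ⊕ κ) ∈ K := by rw [hk1]; rfl
      let _ : Unique {k : κ // (Sum.inr k : ι ⊕ κ) ∈ K} :=
        { default := ⟨k1, hmem⟩
          uniq := fun k => Subtype.ext (hU k) }
      refine good_lift_one hodd.1 hodd.2 h3 _ _ _ ?_ ?_ ?_ ?_ ?_ _ _ hx hy hcop
      · intro k
        exact q2 (Sum.inr (k, false))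
      · intro k
        exact q2 (Sum.inr (k, true))
      · intro k
        exact (q1 (Sum.inr (k, false)) (Sum.inr (k, true)) (by simp)).1
      · intro k
        exact (q1 (Sum.inr (k, false)) (Sum.inr (k, true)) (by simp)).2
      · intro k
        rw [hU k, cop_cast]
        obtain ⟨⟨c, hc1⟩, ⟨c', hc2⟩⟩ := h2 k1 hmem
        have hhg : 0 < h * g := by positivity
        rw [hc1, hc2, Nat.mul_div_cancel_left _ hhg, Nat.mul_div_cancel_left _ hhg]
        rw [hc1, hc2, ← hmg, mul_comm m, Nat.gcd_mul_left, Nat.gcd_mul_left] at hv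
        have h5 : Nat.gcd (Nat.gcd m c) c' = 1 :=
          Nat.eq_of_mul_eq_mul_left hhg (by rw [hv, mul_one])
        rw [Nat.gcd_assoc] at h5
        rw [Nat.gcd_comm]
        exact h5
  refine ⟨d1, d2, ?_⟩
  let f : {i : ι // Sum.inl i ∈ K} → {i : ι // (Sum.inl i : ι ⊕ κ) ∈ K ∪ {Sum.inr k0}} :=
    fun i => ⟨i.1, Or.inl i.2⟩
  let f' : Option {k : κ // Sum.inr k ∈ K} →
      {k : κ // (Sum.inr k : ι ⊕ κ) ∈ K ∪ {Sum.inr k0}} :=
    fun o => o.elim ⟨k0, Or.inr rfl⟩ (fun k => ⟨k.1, Or.inl k.2⟩)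
  have hf : Function.Bijective f := by
    constructor
    · intro x y hxy
      have h := congrArg Subtype.val hxy
      exact Subtype.ext h
    · rintro ⟨i, hi | hi⟩
      · exact ⟨⟨i, hi⟩, rfl⟩
      · exact absurd hi (by simp)
  have hf' : Function.Bijective f' := by
    constructor
    · rintro (_ | x) (_ | y) hxy
      · rfl
      · exfalso
        have h := congrArg Subtype.val hxy
        have h' : k0 = y.1 := h
        exact hk0 (by rw [h']; exact y.2)
      · exfalso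
        have h := congrArg Subtype.val hxy
        have h' : x.1 = k0 := h
        exact hk0 (by rw [← h']; exact x.2)
      · have h := congrArg Subtype.val hxy
        have h' : x.1 = y.1 := h
        rw [Subtype.ext h']
    · rintro ⟨k, hk | hk⟩
      · exact ⟨some ⟨k, hk⟩, rfl⟩
      · have : k = k0 := by simpa using hk
        subst this
        exact ⟨none, rfl⟩
  refine Good.transport f hf f' hf' (key.congr ?_ ?_ ?_)
  · intro i
    exact (psi_div' hg0 (h1 i.1 i.2)).symm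
  · rintro (_ | k)
    · rfl
    · exact (psi_div' hg0 (h2 k.1 k.2).1).symm
  · rintro (_ | k)
    · rfl
    · exact (psi_div' hg0 (h2 k.1 k.2).2).symm

/-- Hosting along a single carrier. -/
theorem GF.host {n m h g : ℕ} (hn : Odd n) (hmg : m * (h * g) = n) (h3 : 3 ≤ h)
    (hD : TDist n t a b) {K : Set (ι ⊕ κ)} (hK : GF m (h * g) t a b K) (hne : K.Nonempty) (i0 : ι)
    (hi0 : Sum.inl i0 ∉ K) (hg : Nat.gcd (h * g) (t i0) = g) :
    GF (m * h) g t a b (K ∪ {Sum.inl i0}) := by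
  classical
  have hn0 : 0 < n := hn.pos
  have hg0 : 0 < g := by
    rcases Nat.eq_zero_or_pos g with h0 | h0
    · rw [h0, mul_zero, mul_zero] at hmg
      omega
    · exact h0
  obtain ⟨h1, h2, h4⟩ := hK
  have hodd : Odd m ∧ Odd h := by
    rw [← hmg] at hn
    exact ⟨(Nat.odd_mul.1 hn).1, (Nat.odd_mul.1 (Nat.odd_mul.1 hn).2).1⟩
  have gt : g ∣ t i0 := by
    have := Nat.gcd_dvd_right (h * g) (t i0)
    rwa [hg] at this
  have d1 : ∀ i, Sum.inl i ∈ K ∪ {Sum.inl i0} → g ∣ t i := by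
    rintro i (hi | hi)
    · exact (dvd_mul_left g h).trans (h1 i hi)
    · have : i = i0 := by simpa using hi
      rw [this]
      exact gt
  have d2 : ∀ k, Sum.inr k ∈ K ∪ {Sum.inl i0} → g ∣ a k ∧ g ∣ b k := by
    rintro k (hk | hk)
    · exact ⟨(dvd_mul_left g h).trans (h2 k hk).1, (dvd_mul_left g h).trans (h2 k hk).2⟩
    · exact absurd hk (by simp)
  obtain ⟨q1, q2⟩ := GF.dist hmg hD h1 h2
  have hc : IsUnit (red m h ((t i0 / g : ℕ) : ZMod (m * h))) := by
    rw [map_natCast, ZMod.isUnit_iff_coprime, Nat.coprime_comm]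
    obtain ⟨c, hc⟩ := gt
    rw [hc, Nat.mul_div_cancel_left _ hg0]
    rw [hc, mul_comm h g, Nat.gcd_mul_left] at hg
    exact Nat.eq_of_mul_eq_mul_left hg0 (by rw [hg, mul_one])
  have hne' : Nonempty ({i : ι // Sum.inl i ∈ K} ⊕ {k : κ // Sum.inr k ∈ K} × Bool) := by
    obtain ⟨i | k, hx⟩ := hne
    · exact ⟨Sum.inl ⟨i, hx⟩⟩
    · exact ⟨Sum.inr (⟨k, hx⟩, false)⟩
  have key := (h4.host hodd.1 hodd.2 h3 (fun _ hx => hx) q1 _ hc).monoQ
    (Q' := IsUnit) (by
      intro x hx hx0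
      have h5 := hx.map (red m h)
      rw [hx0] at h5
      have hF : Fact (1 < h) := ⟨by omega⟩
      exact not_isUnit_zero h5)
  refine ⟨d1, d2, ?_⟩
  let f : Option {i : ι // Sum.inl i ∈ K} → {i : ι // (Sum.inl i : ι ⊕ κ) ∈ K ∪ {Sum.inl i0}} :=
    fun o => o.elim ⟨i0, Or.inr rfl⟩ (fun i => ⟨i.1, Or.inl i.2⟩)
  let f' : {k : κ // Sum.inr k ∈ K} →
      {k : κ // (Sum.inr k : ι ⊕ κ) ∈ K ∪ {Sum.inl i0}} :=
    fun k => ⟨k.1, Or.inl k.2⟩
  have hf' : Function.Bijective f' := by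
    constructor
    · intro x y hxy
      have h := congrArg Subtype.val hxy
      exact Subtype.ext h
    · rintro ⟨i, hi | hi⟩
      · exact ⟨⟨i, hi⟩, rfl⟩
      · exact absurd hi (by simp)
  have hf : Function.Bijective f := by
    constructor
    · rintro (_ | x) (_ | y) hxy
      · rfl
      · exfalso
        have h := congrArg Subtype.val hxy
        have h' : i0 = y.1 := h
        exact hi0 (by rw [h']; exact y.2)
      · exfalso
        have h := congrArg Subtype.val hxy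
        have h' : x.1 = i0 := h
        exact hi0 (by rw [← h']; exact x.2)
      · have h := congrArg Subtype.val hxy
        have h' : x.1 = y.1 := h
        rw [Subtype.ext h']
    · rintro ⟨k, hk | hk⟩
      · exact ⟨some ⟨k, hk⟩, rfl⟩
      · have : k = i0 := by simpa using hk
        subst this
        exact ⟨none, rfl⟩
  refine Good.transport f hf f' hf' (key.congr ?_ ?_ ?_)
  · rintro (_ | k)
    · rfl
    · exact (psi_div' hg0 (h1 k.1 k.2)).symm
  · intro k
    exact (psi_div' hg0 (h2 k.1 k.2).1).symm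
  · intro k
    exact (psi_div' hg0 (h2 k.1 k.2).2).symm

end fam

end Pool.Agent.P45
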