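import Pool.Agent.Lib.P45dba8.GoodL2

/-! # The divisor processing theorem with leaves

As Process.lean (helper29), with leaves: a leaf is a unit or has exact value `h` for a divisor `h` of
the plan whose host is a pair with landing 1; the family at `h` must contain two items. -/

set_option autoImplicit false

namespace Pool.Agent.P45

variable {Λ ι κ : Type*} {lf : Λ → ℕ} {t : ι → ℕ} {a b : κ → ℕ}

theorem Inv.skip {n : ℕ} {H : Finset ℕ} {π : ℕ → ι ⊕ κ}
    {N : ℕ} {pos : ι ⊕ κ → ℕ} (I : Inv n t a b H π (N + 1) pos) (hN : N ∉ H) :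
    Inv n t a b H π N pos := by
  · have hlt : ∀ h ∈ H, (h < N + 1 ↔ h < N) := by
      intro h hh
      have : h ≠ N := fun h' => hN (h' ▸ hh)
      omega
    refine ⟨?_, ?_, I.good, ?_, I.one, ?_⟩
    · intro x
      rw [I.zero x]
      constructor
      · rintro ⟨h, h1, h2, h3⟩
        exact ⟨h, h1, (hlt h h1).1 h2, h3⟩
      · rintro ⟨h, h1, h2, h3⟩
        exact ⟨h, h1, (hlt h h1).2 h2, h3⟩
    · intro x hx
      rcases I.mem x hx with h | ⟨h1, h2⟩
      · exact Or.inl h
      · exact Or.inr ⟨h1, (hlt _ h1).1 h2⟩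
    · intro h hh hh'
      rcases I.ne h hh ((hlt h hh).2 hh') with h1 | ⟨h', h1, h2, h3⟩
      · exact Or.inl h1
      · exact Or.inr ⟨h', h1, (hlt h' h1).1 h2, h3⟩
    · intro h hh hh' k hk i hi
      obtain ⟨h', h1, h2, h3⟩ := I.lone h hh ((hlt h hh).2 hh') k hk i hi
      exact ⟨h', h1, (hlt h' h1).1 h2, h3⟩
open Classical in
/-- The state after `N` is processed. -/
noncomputable def nxt (t : ι → ℕ) (a b : κ → ℕ) (π : ℕ → ι ⊕ κ) (N : ℕ) (pos : ι ⊕ κ → ℕ) :
    ι ⊕ κ → ℕ := fun x => if x = π N ∨ pos x = N then nx t a b N (π N) else pos x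

theorem nxt_pos {π : ℕ → ι ⊕ κ} {N : ℕ} {pos : ι ⊕ κ → ℕ} {x : ι ⊕ κ}
    (hx : x = π N ∨ pos x = N) : nxt t a b π N pos x = nx t a b N (π N) := if_pos hx

theorem nxt_neg {π : ℕ → ι ⊕ κ} {N : ℕ} {pos : ι ⊕ κ → ℕ} {x : ι ⊕ κ}
    (hx : ¬ (x = π N ∨ pos x = N)) : nxt t a b π N pos x = pos x := if_neg hx

/-- The lifted family. -/
theorem Inv.lifted {n : ℕ} (hn : Odd n) (hD : TDist n t a b) {H : Finset ℕ} {π : ℕ → ι ⊕ κ}
    (P : Plan n t a b H π) {N : ℕ} {pos : ι ⊕ κ → ℕ} (I : Inv n t a b H π (N + 1) pos)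
    (hN : N ∈ H) {m g₁ : ℕ} (hmg : m * g₁ = n) (hg₁ : nx t a b N (π N) = g₁) :
    GF m g₁ t a b ({x | pos x = N} ∪ {π N}) := by
  classical
  have hn0 : 0 < n := hn.pos
  -- the divisor `N` is processed
  set g := nx t a b N (π N) with hgdef
  have hgN : g < N := P.lt hN
  have hN1 : 1 < N := P.hone N hN
  have hgd : g ∣ N := nx_dvd N _
  have hg0 : 0 < g := Nat.pos_of_dvd_of_pos hgd (by omega)
  have hNn : N ∣ n := P.hdvd N hN
  have hposπ : pos (π N) = 0 := (I.zero _).2 ⟨N, hN, Nat.lt_succ_self N, rfl⟩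
  -- nothing of `H` below lands at `N`
  have hnoland : ¬ ∃ h' ∈ H, h' < N + 1 ∧ nx t a b h' (π h') = N := by
    rintro ⟨h', h1, h2, h3⟩
    have := P.lt h1
    omega
  obtain ⟨x0, hx0⟩ : ∃ x, pos x = N := by
    rcases I.ne N hN (Nat.lt_succ_self N) with h | h
    · exact h
    · exact absurd h hnoland
  -- the lifted family
  obtain ⟨h, hh⟩ := hgd
  have hNh : N = h * g := by rw [hh, mul_comm]
  obtain ⟨m', hm'⟩ := hNn
  have hm'n : m' * (h * g) = n := by rw [← hNh, hm', mul_comm]
  have h3 : 3 ≤ h := by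
    have hNo : Odd N := by
      rw [hm'] at hn
      exact (Nat.odd_mul.1 hn).1
    rw [hNh] at hNo
    obtain ⟨j, hj⟩ := (Nat.odd_mul.1 hNo).1
    have : h ≠ 1 := by
      rintro rfl
      omega
    omega
  have hK := I.good m' N (by rw [hNh]; exact hm'n)
  have lifted : GF (m' * h) g t a b ({x | pos x = N} ∪ {π N}) := by
    have hav := P.avd N hN
    have hnot : π N ∉ {x | pos x = N} := by
      intro h
      have h' : pos (π N) = N := h
      rw [hposπ] at h'
      omega
    have hone := I.one N m' (by rw [hNh]; exact hm'n)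
    have hlone := I.lone N hN (Nat.lt_succ_self N)
    rcases hπ : π N with i | k
    · rw [hπ] at hnot hav hgdef
      rw [hNh] at hK hnot hgdef ⊢
      refine hK.host hn hm'n h3 hD ?_ i hnot hgdef.symm
      exact ⟨x0, by show pos x0 = h * g; rw [← hNh]; exact hx0⟩
    · have hlone' := hlone k hπ
      rw [hπ] at hnot hav hgdef
      have hsz : (∃ x ∈ {x | pos x = N}, ∃ y ∈ {x | pos x = N}, x ≠ y) ∨
          ∃ k1, {x | pos x = N} = {Sum.inr k1} ∧
            Nat.gcd (Nat.gcd n (a k1)) (b k1) = N := by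
        by_cases h2 : ∃ y, pos y = N ∧ y ≠ x0
        · obtain ⟨y, hy, hyx⟩ := h2
          exact Or.inl ⟨y, hy, x0, hx0, hyx⟩
        · right
          push Not at h2
          have h4 : ∀ y, pos y = N ↔ y = x0 := fun y => ⟨h2 y, fun h => by rw [h]; exact hx0⟩
          have h5 := hone x0 h4
          rcases x0 with i | k1
          · exact absurd (hlone' i h4) hnoland
          · refine ⟨k1, ?_, h5⟩
            ext y
            exact h4 y
      rw [hNh] at hK hnot hgdef hsz hav ⊢
      exact hK.lift hn hm'n h3 hD k hnot hav.1 hav.2 hgdef.symm hsz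
  have e1 : g = g₁ := hg₁
  have e2 : m' * h = m := by
    apply Nat.eq_of_mul_eq_mul_right hg0
    rw [mul_assoc, hm'n, e1, hmg]
  rw [← e1, ← e2]
  exact lifted

theorem Inv.proc {n : ℕ} (hn : Odd n) (hD : TDist n t a b) {H : Finset ℕ} {π : ℕ → ι ⊕ κ}
    (P : Plan n t a b H π) {N : ℕ} {pos : ι ⊕ κ → ℕ} (I : Inv n t a b H π (N + 1) pos)
    (hN : N ∈ H) : Inv n t a b H π N (nxt t a b π N pos) := by
  classical
  have hn0 : 0 < n := hn.pos
  -- the divisor `N` is processed
  set g := nx t a b N (π N) with hgdef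
  have hgN : g < N := P.lt hN
  have hN1 : 1 < N := P.hone N hN
  have hgd : g ∣ N := nx_dvd N _
  have hg0 : 0 < g := Nat.pos_of_dvd_of_pos hgd (by omega)
  have hNn : N ∣ n := P.hdvd N hN
  have hposπ : pos (π N) = 0 := (I.zero _).2 ⟨N, hN, Nat.lt_succ_self N, rfl⟩
  -- nothing of `H` below lands at `N`
  have hnoland : ¬ ∃ h' ∈ H, h' < N + 1 ∧ nx t a b h' (π h') = N := by
    rintro ⟨h', h1, h2, h3⟩
    have := P.lt h1
    omega
  obtain ⟨x0, hx0⟩ : ∃ x, pos x = N := by
    rcases I.ne N hN (Nat.lt_succ_self N) with h | h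
    · exact h
    · exact absurd h hnoland
  set pos' : ι ⊕ κ → ℕ := nxt t a b π N pos with hpos'
  have p1 : ∀ x, (x = π N ∨ pos x = N) → pos' x = g := fun x hx => nxt_pos hx
  have p2 : ∀ x, ¬ (x = π N ∨ pos x = N) → pos' x = pos x := fun x hx => nxt_neg hx
  have hx0π : x0 ≠ π N := by
    rintro rfl
    rw [hposπ] at hx0
    omega
  -- the sets
  have sg : {x | pos' x = g} = {x | pos x = g} ∪ ({x | pos x = N} ∪ {π N}) := by
    ext x
    show pos' x = g ↔ pos x = g ∨ (pos x = N ∨ x = π N)
    by_cases hx : x = π N ∨ pos x = N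
    · rw [p1 x hx]
      exact ⟨fun _ => Or.inr hx.symm, fun _ => rfl⟩
    · rw [p2 x hx]
      constructor
      · exact fun h => Or.inl h
      · rintro (h | h)
        · exact h
        · exact absurd h.symm hx
  have so : ∀ g', g' ≠ g → g' ≠ 0 → g' ≠ N → ∀ x, pos' x = g' ↔ pos x = g' := by
    intro g' h1 h2 h3 x
    by_cases hx : x = π N ∨ pos x = N
    · rw [p1 x hx]
      constructor
      · intro h
        exact absurd h.symm h1
      · intro h
        rcases hx with hx | hx
        · rw [hx, hposπ] at h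
          exact absurd h.symm h2
        · rw [hx] at h
          exact absurd h.symm h3
    · rw [p2 x hx]
  have sN : ∀ x, pos' x ≠ N := by
    intro x hx
    by_cases h : x = π N ∨ pos x = N
    · rw [p1 x h] at hx
      omega
    · rw [p2 x h] at hx
      exact h (Or.inr hx)
  -- the lifted family
  obtain ⟨h, hh⟩ := hgd
  have hNh : N = h * g := by rw [hh, mul_comm]
  obtain ⟨m', hm'⟩ := hNn
  have hm'n : m' * (h * g) = n := by rw [← hNh, hm', mul_comm]
  have h3 : 3 ≤ h := by
    have hNo : Odd N := by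
      rw [hm'] at hn
      exact (Nat.odd_mul.1 hn).1
    rw [hNh] at hNo
    obtain ⟨j, hj⟩ := (Nat.odd_mul.1 hNo).1
    have : h ≠ 1 := by
      rintro rfl
      omega
    omega
  have hK := I.good m' N (by rw [hNh]; exact hm'n)
  have lifted : GF (m' * h) g t a b ({x | pos x = N} ∪ {π N}) := by
    have hav := P.avd N hN
    have hnot : π N ∉ {x | pos x = N} := by
      intro h
      have h' : pos (π N) = N := h
      rw [hposπ] at h'
      omega
    have hone := I.one N m' (by rw [hNh]; exact hm'n)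
    have hlone := I.lone N hN (Nat.lt_succ_self N)
    rcases hπ : π N with i | k
    · rw [hπ] at hnot hav hgdef
      rw [hNh] at hK hnot hgdef ⊢
      refine hK.host hn hm'n h3 hD ?_ i hnot hgdef.symm
      exact ⟨x0, by show pos x0 = h * g; rw [← hNh]; exact hx0⟩
    · have hlone' := hlone k hπ
      rw [hπ] at hnot hav hgdef
      have hsz : (∃ x ∈ {x | pos x = N}, ∃ y ∈ {x | pos x = N}, x ≠ y) ∨
          ∃ k1, {x | pos x = N} = {Sum.inr k1} ∧
            Nat.gcd (Nat.gcd n (a k1)) (b k1) = N := by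
        by_cases h2 : ∃ y, pos y = N ∧ y ≠ x0
        · obtain ⟨y, hy, hyx⟩ := h2
          exact Or.inl ⟨y, hy, x0, hx0, hyx⟩
        · right
          push Not at h2
          have h4 : ∀ y, pos y = N ↔ y = x0 := fun y => ⟨h2 y, fun h => by rw [h]; exact hx0⟩
          have h5 := hone x0 h4
          rcases x0 with i | k1
          · exact absurd (hlone' i h4) hnoland
          · refine ⟨k1, ?_, h5⟩
            ext y
            exact h4 y
      rw [hNh] at hK hnot hgdef hsz hav ⊢
      exact hK.lift hn hm'n h3 hD k hnot hav.1 hav.2 hgdef.symm hsz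
  refine ⟨?_, ?_, ?_, ?_, ?_, ?_⟩
  · intro x
    constructor
    · intro hx
      have hx' : ¬ (x = π N ∨ pos x = N) := by
        intro h
        rw [p1 x h] at hx
        omega
      rw [p2 x hx'] at hx
      obtain ⟨h', h1, h2, h4⟩ := (I.zero x).1 hx
      refine ⟨h', h1, ?_, h4⟩
      have : h' ≠ N := by
        rintro rfl
        exact hx' (Or.inl h4.symm)
      omega
    · rintro ⟨h', h1, h2, h4⟩
      have h5 : pos x = 0 := (I.zero x).2 ⟨h', h1, by omega, h4⟩
      rw [p2 x, h5]
      rintro (h6 | h6)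
      · rw [h6] at h4
        have := P.inj h' h1 N hN h4
        omega
      · omega
  · intro x hx
    by_cases h : x = π N ∨ pos x = N
    · rw [p1 x h]
      rcases P.clo N hN with h' | h'
      · exact Or.inl h'
      · exact Or.inr ⟨h', hgN⟩
    · rw [p2 x h] at hx ⊢
      rcases I.mem x hx with h' | ⟨h1, h2⟩
      · exact Or.inl h'
      · refine Or.inr ⟨h1, ?_⟩
        have : pos x ≠ N := fun h' => h (Or.inr h')
        omega
  · intro m g' hmg
    have hg'0 : g' ≠ 0 := by rintro rfl; omega
    by_cases h1 : g' = g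
    · rw [h1, sg]
      rw [h1] at hmg
      have hm : m' * h = m := by
        apply Nat.eq_of_mul_eq_mul_right hg0
        rw [hmg, mul_assoc]
        exact hm'n
      rw [hm] at lifted
      refine (I.good m g hmg).union lifted ?_
      rintro x hx (hx' | hx')
      · have e1 : pos x = g := hx
        have e2 : pos x = N := hx'
        omega
      · have e1 : pos x = g := hx
        have e2 : x = π N := hx'
        rw [e2, hposπ] at e1
        omega
    · by_cases h2 : g' = N
      · have : {x | pos' x = g'} = ∅ := by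
          ext x
          rw [h2]
          exact ⟨fun h => sN x h, fun h => h.elim⟩
        rw [this]
        exact GF.empty _ _
      · have : {x | pos' x = g'} = {x | pos x = g'} := by
          ext x
          exact so g' h1 hg'0 h2 x
        rw [this]
        exact I.good m g' hmg
  · intro h' hh' hlt
    have h1' := P.hone h' hh'
    by_cases h1 : h' = g
    · exact Or.inl ⟨π N, by rw [p1 _ (Or.inl rfl), h1]⟩
    · rcases I.ne h' hh' (by omega) with ⟨x, hx⟩ | ⟨h'', h2, h4, h5⟩
      · exact Or.inl ⟨x, (so h' h1 (by omega) (by omega) x).2 hx⟩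
      · refine Or.inr ⟨h'', h2, ?_, h5⟩
        have : h'' ≠ N := by
          rintro rfl
          exact h1 h5.symm
        omega
  · intro g' m hmg x hx
    have hg'0 : g' ≠ 0 := by rintro rfl; omega
    by_cases h1 : g' = g
    · exfalso
      have e1 : π N = x := (hx _).1 (by rw [p1 _ (Or.inl rfl), h1])
      have e2 : x0 = x := (hx _).1 (by rw [p1 _ (Or.inr hx0), h1])
      exact hx0π (e2.trans e1.symm)
    · by_cases h2 : g' = N
      · exfalso
        exact sN x (by rw [(hx x).2 rfl, h2])
      · exact I.one g' m hmg x (fun y => (so g' h1 hg'0 h2 y).symm.trans (hx y))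
  · intro h' hh' hlt k hk i hi
    have h1' := P.hone h' hh'
    by_cases h1 : h' = g
    · exfalso
      have e1 : π N = Sum.inl i := (hi _).1 (by rw [p1 _ (Or.inl rfl), h1])
      have e2 : x0 = Sum.inl i := (hi _).1 (by rw [p1 _ (Or.inr hx0), h1])
      exact hx0π (e2.trans e1.symm)
    · obtain ⟨h'', h2, h4, h5⟩ := I.lone h' hh' (by omega) k hk i
        (fun y => (so h' h1 (by omega) (by omega) y).symm.trans (hi y))
      refine ⟨h'', h2, ?_, h5⟩
      have : h'' ≠ N := by
        rintro rfl
        exact h1 h5.symm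
      omega

open Classical in
/-- The state at the beginning. -/
noncomputable def pos0 (n : ℕ) (t : ι → ℕ) (a b : κ → ℕ) (H : Finset ℕ) (π : ℕ → ι ⊕ κ) :
    ι ⊕ κ → ℕ := fun x => if ∃ h ∈ H, π h = x then 0 else nx t a b n x

theorem pos0_neg {n : ℕ} {H : Finset ℕ} {π : ℕ → ι ⊕ κ} {x : ι ⊕ κ}
    (hx : ∀ h ∈ H, π h ≠ x) : pos0 n t a b H π x = nx t a b n x :=
  if_neg (by push Not; exact hx)

theorem Inv.start {n : ℕ} (hn : Odd n) (hD : TDist n t a b) {H : Finset ℕ} {π : ℕ → ι ⊕ κ}
    (P : Plan n t a b H π) : Inv n t a b H π (n + 1) (pos0 n t a b H π) := by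
  classical
  have hn0 : 0 < n := hn.pos
  have hlt : ∀ h ∈ H, h < n + 1 := fun h hh =>
    Nat.lt_succ_of_le (Nat.le_of_dvd hn0 (P.hdvd h hh))
  have hnx : ∀ x : ι ⊕ κ, nx t a b n x ≠ 0 := by
    intro x h
    have := nx_dvd (t := t) (a := a) (b := b) n x
    rw [h, Nat.zero_dvd] at this
    omega
  set pos : ι ⊕ κ → ℕ := pos0 n t a b H π with hpos
  have p1 : ∀ x, (∃ h ∈ H, π h = x) → pos x = 0 := fun x hx => if_pos hx
  have p2 : ∀ x, (¬ ∃ h ∈ H, π h = x) → pos x = nx t a b n x := fun x hx => if_neg hx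
  have p3 : ∀ x g, g ≠ 0 → (pos x = g ↔ (∀ h' ∈ H, π h' ≠ x) ∧ nx t a b n x = g) := by
    intro x g hg
    by_cases hx : ∃ h ∈ H, π h = x
    · constructor
      · intro h
        exact absurd ((p1 x hx).symm.trans h).symm hg
      · rintro ⟨h, _⟩
        obtain ⟨h', h1, h2⟩ := hx
        exact absurd h2 (h h' h1)
    · rw [p2 x hx]
      push Not at hx
      exact ⟨fun h => ⟨hx, h⟩, fun h => h.2⟩
  refine ⟨?_, ?_, ?_, ?_, ?_, ?_⟩
  · intro x
    constructor
    · intro hx
      by_contra hcon
      have hcon' : ¬ ∃ h ∈ H, π h = x := by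
        rintro ⟨h, h1, h2⟩
        exact hcon ⟨h, h1, hlt h h1, h2⟩
      rw [p2 x hcon'] at hx
      exact hnx x hx
    · rintro ⟨h, h1, -, h2⟩
      exact p1 x ⟨h, h1, h2⟩
  · intro x hx
    by_cases hx' : ∃ h ∈ H, π h = x
    · exact absurd (p1 x hx') hx
    · rw [p2 x hx']
      push Not at hx'
      rcases P.start x hx' with h | h
      · exact Or.inl h
      · exact Or.inr ⟨h, hlt _ h⟩
  · intro m g hmg
    have hg : 0 < g := Nat.pos_of_ne_zero (by rintro rfl; omega)
    refine GF.exact hn hmg hg hD _ ?_ ?_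
    · intro i hi
      exact ((p3 (Sum.inl i) g hg.ne').1 hi).2
    · intro k hk
      exact ((p3 (Sum.inr k) g hg.ne').1 hk).2
  · intro h hh _
    have h1 := P.hone h hh
    rcases P.ne h hh with ⟨x, hx⟩ | ⟨h', h1, h2⟩
    · exact Or.inl ⟨x, (p3 x h (by omega)).2 hx⟩
    · exact Or.inr ⟨h', h1, hlt h' h1, h2⟩
  · intro g m hmg x hx
    have hg : 0 < g := Nat.pos_of_ne_zero (by rintro rfl; omega)
    exact ((p3 x g hg.ne').1 ((hx x).2 rfl)).2
  · intro h hh _ k hk i hi
    have h1 := P.hone h hh
    obtain ⟨h', h1, h2⟩ := P.lone h hh k hk i (fun x => (p3 x h (by omega)).symm.trans (hi x))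
    exact ⟨h', h1, hlt h' h1, h2⟩


/-- The condition on the leaves. -/
def LeafOK (n : ℕ) (lf : Λ → ℕ) (t : ι → ℕ) (a b : κ → ℕ) (H : Finset ℕ) (π : ℕ → ι ⊕ κ) : Prop :=
  ∀ l h, Nat.gcd n (lf l) = h → h = 1 ∨ (h ∈ H ∧ nx t a b h (π h) = 1 ∧ (∃ k, π h = Sum.inr k) ∧
    ((∃ x y, x ≠ y ∧ (∀ h' ∈ H, π h' ≠ x) ∧ (∀ h' ∈ H, π h' ≠ y) ∧
      nx t a b n x = h ∧ nx t a b n y = h) ∨ ∃ h' ∈ H, nx t a b h' (π h') = h))

/-- The invariant with leaves. -/
structure InvL (n : ℕ) (lf : Λ → ℕ) (t : ι → ℕ) (a b : κ → ℕ) (H : Finset ℕ) (π : ℕ → ι ⊕ κ)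
    (N : ℕ) (pos : ι ⊕ κ → ℕ) : Prop where
  inv : Inv n t a b H π N pos
  gl : GFL n lf t a b {l | Nat.gcd n (lf l) = 1 ∨ N ≤ Nat.gcd n (lf l)} {x | pos x = 1}
  st : ∀ x, (∀ h' ∈ H, π h' ≠ x) → nx t a b n x < N → pos x = nx t a b n x
  ld : ∀ h ∈ H, h < N → (∃ h' ∈ H, N ≤ h' ∧ nx t a b h' (π h') = h) →
    ∃ x y, x ≠ y ∧ pos x = h ∧ pos y = h

theorem InvL.start {n : ℕ} (hn : Odd n) (h3 : 3 ≤ n) (hD0 : TDist n t a b)
    (h1 : ∀ l, ((lf l : ℕ) : ZMod n) ≠ 1) (h2 : ∀ l, ((lf l : ℕ) : ZMod n) ≠ -1)
    {H : Finset ℕ} {π : ℕ → ι ⊕ κ} (P : Plan n t a b H π) :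
    InvL n lf t a b H π (n + 1) (pos0 n t a b H π) := by
  have I := Inv.start hn hD0 P
  have hle : ∀ h ∈ H, h ≤ n := fun h hh => Nat.le_of_dvd hn.pos (P.hdvd h hh)
  refine ⟨I, ?_, fun x hx _ => pos0_neg hx, ?_⟩
  · have e1 : {l : Λ | Nat.gcd n (lf l) = 1 ∨ n + 1 ≤ Nat.gcd n (lf l)} =
        ∅ ∪ {l | Nat.gcd n (lf l) = 1} := by
      ext l
      constructor
      · rintro (h | h)
        · exact Or.inr h
        · exfalso
          have := Nat.le_of_dvd hn.pos (Nat.gcd_dvd_left n (lf l))
          omega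
      · rintro (h | h)
        · exact h.elim
        · exact Or.inl h
    have e2 : {x | pos0 n t a b H π x = 1} = {x | pos0 n t a b H π x = 1} ∪ ∅ :=
      (Set.union_empty _).symm
    rw [e1, e2]
    exact (GFL.ofGF lf (I.good n 1 (mul_one n))).union
      (GFL.units hn h3 (fun l hl => hl) (fun l _ => h1 l) (fun l _ => h2 l))
      (fun l h _ => h) (fun l _ h => h)
  · rintro h hh - ⟨h', hh', h4, -⟩
    have := hle h' hh'
    omega

theorem InvL.step {n : ℕ} (hn : Odd n) (hD : TDist n (Sum.elim lf t) a b)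
    (hD0 : TDist n t a b) {H : Finset ℕ} {π : ℕ → ι ⊕ κ} (P : Plan n t a b H π)
    (hl : LeafOK n lf t a b H π) {N : ℕ} {pos : ι ⊕ κ → ℕ} (I : InvL n lf t a b H π (N + 1) pos) :
    ∃ pos, InvL n lf t a b H π N pos := by
  classical
  by_cases hN : N ∈ H
  swap
  · refine ⟨pos, I.inv.skip hN, ?_, ?_, ?_⟩
    · have e1 : {l : Λ | Nat.gcd n (lf l) = 1 ∨ N ≤ Nat.gcd n (lf l)} =
          {l | Nat.gcd n (lf l) = 1 ∨ N + 1 ≤ Nat.gcd n (lf l)} := by
        ext l
        constructor
        · rintro (h | h)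
          · exact Or.inl h
          · rcases hl l _ rfl with h4 | ⟨h4, -⟩
            · exact Or.inl h4
            · right
              have : Nat.gcd n (lf l) ≠ N := fun h' => hN (h' ▸ h4)
              omega
        · rintro (h | h)
          · exact Or.inl h
          · exact Or.inr (by omega)
      rw [e1]
      exact I.gl
    · intro x hx h
      exact I.st x hx (by omega)
    · rintro h hh hlt ⟨h', hh', h4, h5⟩
      refine I.ld h hh (by omega) ⟨h', hh', ?_, h5⟩
      have : h' ≠ N := fun h6 => hN (h6 ▸ hh')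
      omega
  have hn0 : 0 < n := hn.pos
  have hN1 : 1 < N := P.hone N hN
  have hNn : N ∣ n := P.hdvd N hN
  have hgN := P.lt hN
  have hposπ : pos (π N) = 0 := (I.inv.zero _).2 ⟨N, hN, Nat.lt_succ_self N, rfl⟩
  have hnoland : ¬ ∃ h' ∈ H, h' < N + 1 ∧ nx t a b h' (π h') = N := by
    rintro ⟨h', h1, h2, h3⟩
    have := P.lt h1
    omega
  obtain ⟨x0, hx0⟩ : ∃ x, pos x = N := by
    rcases I.inv.ne N hN (Nat.lt_succ_self N) with h | h
    · exact h
    · exact absurd h hnoland
  have hx0π : x0 ≠ π N := by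
    rintro rfl
    rw [hposπ] at hx0
    omega
  refine ⟨nxt t a b π N pos, I.inv.proc hn hD0 P hN, ?_, ?_, ?_⟩
  · by_cases hlN : ∃ l, Nat.gcd n (lf l) = N
    · -- leaves at `N`
      obtain ⟨l0, hl0⟩ := hlN
      rcases hl l0 N hl0 with h | ⟨-, hland, ⟨k0, hk0⟩, htwo⟩
      · omega
      have hsize : ∃ x ∈ {x | pos x = N}, ∃ y ∈ {x | pos x = N}, x ≠ y := by
        rcases htwo with ⟨x, y, hxy, hx, hy, hx', hy'⟩ | ⟨h', hh', h4⟩
        · refine ⟨x, ?_, y, ?_, hxy⟩
          · show pos x = N
            rw [I.st x hx (by omega), hx']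
          · show pos y = N
            rw [I.st y hy (by omega), hy']
        · obtain ⟨x, y, hxy, hx, hy⟩ := I.ld N hN (Nat.lt_succ_self N) ⟨h', hh', by
            have := P.lt hh'
            omega, h4⟩
          exact ⟨x, hx, y, hy, hxy⟩
      obtain ⟨m, hm⟩ := hNn
      have hm' : m * N = n := by rw [hm, mul_comm]
      have hodd : Odd N := by
        rw [← hm'] at hn
        exact (Nat.odd_mul.1 hn).2
      have h3 : 3 ≤ N := by
        obtain ⟨j, hj⟩ := hodd
        omega
      have hav := P.avd N hN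
      rw [hk0] at hav hland
      have key := GFL.lift (L := {l | Nat.gcd n (lf l) = N}) hn hm' h3 hD (I.inv.good m N hm')
        (fun l hl => hl) ⟨l0, hl0⟩ k0 (by
          intro h
          have h' : pos (Sum.inr k0) = N := h
          rw [← hk0, hposπ] at h'
          omega) hav.1 hav.2 hland hsize
      have e1 : {l : Λ | Nat.gcd n (lf l) = 1 ∨ N ≤ Nat.gcd n (lf l)} =
          {l | Nat.gcd n (lf l) = 1 ∨ N + 1 ≤ Nat.gcd n (lf l)} ∪ {l | Nat.gcd n (lf l) = N} := by
        ext l
        constructor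
        · rintro (h | h)
          · exact Or.inl (Or.inl h)
          · by_cases h' : Nat.gcd n (lf l) = N
            · exact Or.inr h'
            · exact Or.inl (Or.inr (by omega))
        · rintro ((h | h) | h)
          · exact Or.inl h
          · exact Or.inr (by omega)
          · exact Or.inr (le_of_eq h.symm)
      have e2 : {x | nxt t a b π N pos x = 1} = {x | pos x = 1} ∪ ({x | pos x = N} ∪ {Sum.inr k0}) := by
        ext x
        by_cases hx : x = π N ∨ pos x = N
        · constructor
          · rintro -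
            rcases hx with hx | hx
            · exact Or.inr (Or.inr (by rw [hx, hk0]; rfl))
            · exact Or.inr (Or.inl hx)
          · rintro -
            show nxt t a b π N pos x = 1
            rw [nxt_pos hx, hk0]
            exact hland
        · constructor
          · intro h
            left
            have h' : nxt t a b π N pos x = 1 := h
            rw [nxt_neg hx] at h'
            exact h'
          · rintro (h | h | h)
            · show nxt t a b π N pos x = 1
              rw [nxt_neg hx]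
              exact h
            · exact absurd (Or.inr h) hx
            · exact absurd (Or.inl (by rw [hk0]; exact h)) hx
      rw [e1, e2]
      refine I.gl.union key ?_ ?_
      · rintro l (h | h) h'
        · have h'' : Nat.gcd n (lf l) = N := h'
          omega
        · have h'' : Nat.gcd n (lf l) = N := h'
          omega
      · rintro x h (h' | h')
        · have g1 : pos x = 1 := h
          have g2 : pos x = N := h'
          omega
        · have g1 : pos x = 1 := h
          have g2 : x = Sum.inr k0 := h'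
          rw [g2, ← hk0, hposπ] at g1
          omega
    · -- no leaf at `N`
      have e1 : {l : Λ | Nat.gcd n (lf l) = 1 ∨ N ≤ Nat.gcd n (lf l)} =
          {l | Nat.gcd n (lf l) = 1 ∨ N + 1 ≤ Nat.gcd n (lf l)} ∪ ∅ := by
        ext l
        constructor
        · rintro (h | h)
          · exact Or.inl (Or.inl h)
          · have h' : Nat.gcd n (lf l) ≠ N := fun h' => hlN ⟨l, h'⟩
            exact Or.inl (Or.inr (by omega))
        · rintro ((h | h) | h)
          · exact Or.inl h
          · exact Or.inr (by omega)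
          · exact h.elim
      by_cases hland : nx t a b N (π N) = 1
      · have e2 : {x | nxt t a b π N pos x = 1} =
            {x | pos x = 1} ∪ ({x | pos x = N} ∪ {π N}) := by
          ext x
          by_cases hx : x = π N ∨ pos x = N
          · constructor
            · rintro -
              rcases hx with hx | hx
              · exact Or.inr (Or.inr hx)
              · exact Or.inr (Or.inl hx)
            · rintro -
              show nxt t a b π N pos x = 1
              rw [nxt_pos hx]
              exact hland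
          · constructor
            · intro h
              left
              have h' : nxt t a b π N pos x = 1 := h
              rw [nxt_neg hx] at h'
              exact h'
            · rintro (h | h | h)
              · show nxt t a b π N pos x = 1
                rw [nxt_neg hx]
                exact h
              · exact absurd (Or.inr h) hx
              · exact absurd (Or.inl h) hx
        rw [e1, e2]
        refine I.gl.union (GFL.ofGF lf (I.inv.lifted hn hD0 P hN (mul_one n) hland))
          (fun l _ h => h) ?_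
        rintro x h (h' | h')
        · have g1 : pos x = 1 := h
          have g2 : pos x = N := h'
          omega
        · have g1 : pos x = 1 := h
          have g2 : x = π N := h'
          rw [g2, hposπ] at g1
          omega
      · have e2 : {x | nxt t a b π N pos x = 1} = {x | pos x = 1} := by
          ext x
          by_cases hx : x = π N ∨ pos x = N
          · constructor
            · intro h
              have h' : nxt t a b π N pos x = 1 := h
              rw [nxt_pos hx] at h'
              exact absurd h' hland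
            · intro h
              have h' : pos x = 1 := h
              rcases hx with hx | hx
              · rw [hx, hposπ] at h'
                omega
              · omega
          · constructor
            · intro h
              have h' : nxt t a b π N pos x = 1 := h
              rw [nxt_neg hx] at h'
              exact h'
            · intro h
              show nxt t a b π N pos x = 1
              rw [nxt_neg hx]
              exact h
        rw [e1, e2, Set.union_empty]
        exact I.gl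
  · intro x hx h
    have h1 := I.st x hx (by omega)
    rw [nxt_neg]
    · exact h1
    · rintro (h2 | h2)
      · exact hx N hN h2.symm
      · omega
  · rintro h hh hlt ⟨h', hh', h4, h5⟩
    by_cases h6 : h' = N
    · refine ⟨π N, x0, hx0π.symm, ?_, ?_⟩
      · rw [nxt_pos (Or.inl rfl), ← h6, h5]
      · rw [nxt_pos (Or.inr hx0), ← h6, h5]
    · obtain ⟨x, y, hxy, hx, hy⟩ := I.ld h hh (by omega) ⟨h', hh', by omega, h5⟩
      have hh1 := P.hone h hh
      have hne : ∀ z, pos z = h → ¬ (z = π N ∨ pos z = N) := by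
        rintro z hz (h7 | h7)
        · rw [h7, hposπ] at hz
          omega
        · omega
      refine ⟨x, y, hxy, ?_, ?_⟩
      · rw [nxt_neg (hne x hx)]
        exact hx
      · rw [nxt_neg (hne y hy)]
        exact hy

/-- THE PROCESSING THEOREM WITH LEAVES. -/
theorem Plan.goodL {n : ℕ} (hn : Odd n) (h3 : 3 ≤ n) (hD : TDist n (Sum.elim lf t) a b)
    (h1 : ∀ l, ((lf l : ℕ) : ZMod n) ≠ 1) (h2 : ∀ l, ((lf l : ℕ) : ZMod n) ≠ -1)
    {H : Finset ℕ} {π : ℕ → ι ⊕ κ} (P : Plan n t a b H π) (hl : LeafOK n lf t a b H π) :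
    GoodL n (fun l => ((lf l : ℕ) : ZMod n)) (fun i => ((t i : ℕ) : ZMod n))
      (fun k => ((a k : ℕ) : ZMod n)) (fun k => ((b k : ℕ) : ZMod n)) := by
  have hD0 : TDist n t a b := by
    let up : ι ⊕ κ × Bool → (Λ ⊕ ι) ⊕ κ × Bool := Sum.map Sum.inr id
    have hup : Function.Injective up := Sum.inr_injective.sumMap Function.injective_id
    have key : ∀ x, typ (Sum.elim lf t) a b (up x) = typ t a b x := by
      rintro (i | k) <;> rfl
    refine ⟨fun x => ?_, fun x y hxy => ?_⟩
    · have := hD.1 (up x)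
      rwa [key] at this
    · have := hD.2 (up x) (up y) (hup.ne hxy)
      rwa [key, key] at this
  have h1 : ∀ j N, N + j = n + 1 → ∃ pos, InvL n lf t a b H π N pos := by
    intro j
    induction j with
    | zero =>
      intro N hN
      have : N = n + 1 := by omega
      rw [this]
      exact ⟨_, InvL.start hn h3 hD0 h1 h2 P⟩
    | succ j ih =>
      intro N hN
      obtain ⟨pos, I⟩ := ih (N + 1) (by omega)
      exact I.step hn hD hD0 P hl
  obtain ⟨pos, I⟩ := h1 (n + 1) 0 (by omega)
  have h2 : ∀ x, pos x = 1 := by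
    intro x
    have h3 : pos x ≠ 0 := by
      intro h
      obtain ⟨h', -, h4, -⟩ := (I.inv.zero x).1 h
      omega
    rcases I.inv.mem x h3 with h4 | ⟨-, h4⟩
    · exact h4
    · omega
  have h5 := I.gl
  let f0 : {l : Λ // l ∈ {l : Λ | Nat.gcd n (lf l) = 1 ∨ 0 ≤ Nat.gcd n (lf l)}} → Λ :=
    fun i => i.1
  let f : {i : ι // (Sum.inl i : ι ⊕ κ) ∈ {x | pos x = 1}} → ι := fun i => i.1
  let f' : {k : κ // (Sum.inr k : ι ⊕ κ) ∈ {x | pos x = 1}} → κ := fun i => i.1
  exact GoodL.transport f0 ⟨fun x y h => Subtype.ext h, fun i => ⟨⟨i, Or.inr (Nat.zero_le _)⟩, rfl⟩⟩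
    f ⟨fun x y h => Subtype.ext h, fun i => ⟨⟨i, h2 _⟩, rfl⟩⟩ f'
    ⟨fun x y h => Subtype.ext h, fun i => ⟨⟨i, h2 _⟩, rfl⟩⟩ h5

end Pool.Agent.P45
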