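import Pool.Agent.Lib.P45dba8.CertDefs
import Pool.Agent.Lib.P45dba8.PathEven

/-! # MP_45dba8: runs with their used depths, and the reduction lemma

A run is a derivation of `Reach P4` together with the set of the used depths and a flag telling
that only plain steps are used. A run can be shortened by two steps; if it contains a block, one
can choose which one of two adjacent labels of a given letter is dropped. -/

set_option autoImplicit false

namespace Pool.Agent.P45

open Cert (P4)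

/-- Runs: depth, number of steps, used depths, flag `true` if all steps are plain. -/
inductive Run (w : ℕ → Bool) : ℕ → ℕ → Finset ℕ → Bool → Prop
  | init : Run w 0 0 ∅ true
  | wait {d m : ℕ} {U : Finset ℕ} {pl : Bool} : Run w d m U pl → Run w (d + 1) m U pl
  | step {d m : ℕ} {U : Finset ℕ} {pl : Bool} : Run w d m U pl → w d = decide (m % 2 = 0) →
      Run w (d + 1) (m + 1) (insert d U) pl
  | block {d m : ℕ} {U : Finset ℕ} {pl : Bool} (b : List ℕ × ℕ) (hb : b ∈ P4)
      (hl : 4 ≤ b.1.length) (h : Run w d m U pl)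
      (hw : ∀ j < b.1.length, w (d + bfun b.1 j) = decide ((m + j) % 2 = 0)) :
      Run w (d + b.2) (m + b.1.length)
        (U ∪ (Finset.range b.1.length).image (fun j => d + bfun b.1 j)) false

theorem P4_valid : ∀ b ∈ P4, BlkOK b.1 b.2 := by decide

theorem P4_short : ∀ b ∈ P4, ¬ 4 ≤ b.1.length → b = ([0], 1) := by decide

theorem Run.ofReach {w : ℕ → Bool} {d m : ℕ} (h : Reach P4 w d m) : ∃ U pl, Run w d m U pl := by
  induction h with
  | init => exact ⟨_, _, Run.init⟩
  | wait _ ih =>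
    obtain ⟨U, pl, h⟩ := ih
    exact ⟨U, pl, h.wait⟩
  | @block d m b hb _ hw ih =>
    obtain ⟨U, pl, h⟩ := ih
    by_cases hl : 4 ≤ b.1.length
    · exact ⟨_, _, Run.block b hb hl h hw⟩
    · have hb' := P4_short b hb hl
      subst hb'
      have h1 := hw 0 (by norm_num)
      exact ⟨insert d U, pl, h.step h1⟩

variable {w : ℕ → Bool} {d m : ℕ} {U : Finset ℕ} {pl : Bool}

theorem Run.lt (h : Run w d m U pl) : ∀ x ∈ U, x < d := by
  induction h with
  | init => intro x hx; simp at hx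
  | wait _ ih =>
    intro x hx
    have := ih x hx
    omega
  | step _ _ ih =>
    intro x hx
    rcases Finset.mem_insert.1 hx with rfl | hx
    · omega
    · have := ih x hx
      omega
  | block b hb hl _ hw ih =>
    intro x hx
    rcases Finset.mem_union.1 hx with hx | hx
    · have := ih x hx
      omega
    · obtain ⟨j, hj, rfl⟩ := Finset.mem_image.1 hx
      have := (P4_valid b hb).2.2.1 j (Finset.mem_range.1 hj)
      omega

theorem Run.waits {d' : ℕ} (h : Run w d m U pl) (hd : d ≤ d') : Run w d' m U pl := by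
  induction d', hd using Nat.le_induction with
  | base => exact h
  | succ _ _ ih => exact ih.wait

theorem Run.zero (w : ℕ → Bool) (d : ℕ) : Run w d 0 ∅ true :=
  (Run.init (w := w)).waits (Nat.zero_le d)

/-- Plain steps at the relative depths of an increasing list. -/
theorem Run.plain (h : Run w d m U pl) (l : List ℕ) (K : ℕ)
    (hK : ∀ i < l.length, bfun l i < K) (hm : ∀ i < l.length, ∀ j < i, bfun l j < bfun l i)
    (hw : ∀ j < l.length, w (d + bfun l j) = decide ((m + j) % 2 = 0)) :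
    Run w (d + K) (m + l.length)
      (U ∪ (Finset.range l.length).image (fun j => d + bfun l j)) pl := by
  have key : ∀ t ≤ l.length, ∀ e, (∀ i < t, bfun l i < e) →
      Run w (d + e) (m + t) (U ∪ (Finset.range t).image (fun j => d + bfun l j)) pl := by
    intro t
    induction t with
    | zero =>
      intro _ e _
      have : U ∪ (Finset.range 0).image (fun j => d + bfun l j) = U := by simp
      rw [this]
      exact h.waits (Nat.le_add_right d e)
    | succ t ih =>
      intro ht e he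
      have h1 := ih (by omega) (bfun l t) (fun i hi => hm t (by omega) i hi)
      have h2 := h1.step (hw t (by omega))
      have h3 := h2.waits (show d + bfun l t + 1 ≤ d + e by
        have := he t (by omega)
        omega)
      have e1 : insert (d + bfun l t) (U ∪ (Finset.range t).image (fun j => d + bfun l j)) =
          U ∪ (Finset.range (t + 1)).image (fun j => d + bfun l j) := by
        rw [Finset.range_add_one, Finset.image_insert, Finset.union_insert]
      rw [e1] at h3
      exact h3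
  exact key l.length le_rfl K hK

/-- The plain sub-runs of the blocks, two steps shorter. -/
def subs : List (List ℕ) :=
  [[1, 3], [1, 4], [2, 3], [2, 4], [1, 3, 5, 6], [1, 4, 5, 6], [2, 3, 5, 6], [2, 4, 5, 6],
    [1, 2, 3, 5], [1, 2, 3, 6], [1, 2, 4, 5], [1, 2, 4, 6],
    [1, 3, 5, 6, 7, 8], [1, 4, 5, 6, 7, 8], [2, 3, 5, 6, 7, 8], [2, 4, 5, 6, 7, 8]]

/-- `l` is a plain sub-run of the block `b`, two steps shorter. -/
def GoodSub (b : List ℕ × ℕ) (l : List ℕ) : Prop :=
  l.length + 2 = b.1.length ∧ (∀ i < l.length, bfun l i < b.2) ∧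
  (∀ i < l.length, ∀ j < i, bfun l j < bfun l i) ∧
  (∀ i < l.length, ∃ j < b.1.length, bfun l i = bfun b.1 j ∧ i % 2 = j % 2)

instance (b : List ℕ × ℕ) (l : List ℕ) : Decidable (GoodSub b l) := by
  unfold GoodSub
  infer_instance

/-- `l` keeps all the depths of the parity class `p` except `e`. -/
def SubDrop (b : List ℕ × ℕ) (p e : ℕ) (l : List ℕ) : Prop :=
  GoodSub b l ∧
    (∀ j < b.1.length, j % 2 = p → bfun b.1 j ≠ e → ∃ i < l.length, bfun l i = bfun b.1 j) ∧
    (∀ i < l.length, bfun l i ≠ e)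

instance (b : List ℕ × ℕ) (p e : ℕ) (l : List ℕ) : Decidable (SubDrop b p e l) := by
  unfold SubDrop
  infer_instance

/-- `δ` is a depth of the parity class `p` of the block. -/
def InCls (b : List ℕ × ℕ) (p δ : ℕ) : Prop := ∃ j < b.1.length, j % 2 = p ∧ bfun b.1 j = δ

instance (b : List ℕ × ℕ) (p δ : ℕ) : Decidable (InCls b p δ) := by
  unfold InCls
  infer_instance

/-- Both `δ` and `δ + 1` can be dropped. -/
def AdjDrop (b : List ℕ × ℕ) (p δ : ℕ) : Prop :=
  InCls b p δ ∧ InCls b p (δ + 1) ∧ (∃ l ∈ subs, SubDrop b p δ l) ∧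
    (∃ l ∈ subs, SubDrop b p (δ + 1) l)

instance (b : List ℕ × ℕ) (p δ : ℕ) : Decidable (AdjDrop b p δ) := by
  unfold AdjDrop
  infer_instance

theorem subs_table : ∀ b ∈ P4, 4 ≤ b.1.length → ∀ p < 2, ∃ δ < 9, AdjDrop b p δ := by
  decide +kernel

/-- Dropping one of two adjacent depths of a given letter in a run with a block. -/
theorem Run.drop (h : Run w d m U pl) (hpl : pl = false) (b : Bool) :
    ∃ δ, δ ∈ U ∧ δ + 1 ∈ U ∧ w δ = b ∧ w (δ + 1) = b ∧ 2 ≤ m ∧ ∀ e, (e = δ ∨ e = δ + 1) →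
      ∃ U' pl', Run w d (m - 2) U' pl' ∧ U' ⊆ U ∧ e ∉ U' ∧
        (∀ x ∈ U, w x = b → x ≠ e → x ∈ U') := by
  induction h with
  | init => exact absurd hpl (by decide)
  | wait _ ih =>
    obtain ⟨δ, h1, h2, h3, h4, h5, h6⟩ := ih hpl
    refine ⟨δ, h1, h2, h3, h4, h5, fun e he => ?_⟩
    obtain ⟨U', pl', g1, g2⟩ := h6 e he
    exact ⟨U', pl', g1.wait, g2⟩
  | @step d m U pl h0 hw ih =>
    obtain ⟨δ, h1, h2, h3, h4, h5, h6⟩ := ih hpl
    refine ⟨δ, Finset.mem_insert_of_mem h1, Finset.mem_insert_of_mem h2, h3, h4, by omega,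
      fun e he => ?_⟩
    obtain ⟨U', pl', g1, g2, g3, g4⟩ := h6 e he
    have hed : e < d := by
      have a1 := h0.lt _ h1
      have a2 := h0.lt _ h2
      omega
    have g5 := g1.step (show w d = decide ((m - 2) % 2 = 0) by
      rw [hw]
      congr 1
      apply propext
      omega)
    rw [show m - 2 + 1 = m + 1 - 2 by omega] at g5
    refine ⟨insert d U', pl', g5, Finset.insert_subset_insert _ g2, ?_, ?_⟩
    · intro hx
      rcases Finset.mem_insert.1 hx with h | h
      · omega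
      · exact g3 h
    · intro x hx hxb hxe
      rcases Finset.mem_insert.1 hx with h | h
      · exact Finset.mem_insert.2 (Or.inl h)
      · exact Finset.mem_insert_of_mem (g4 x h hxb hxe)
  | @block d m U pl c hc hl h0 hw _ =>
    obtain ⟨p, hp2, hp⟩ : ∃ p < 2, ∀ j, (decide ((m + j) % 2 = 0) = b ↔ j % 2 = p) := by
      by_cases hb : b = true
      · refine ⟨m % 2, by omega, fun j => ?_⟩
        rw [hb, decide_eq_true_eq]
        omega
      · have hb' : b = false := by simpa using hb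
        refine ⟨(m + 1) % 2, by omega, fun j => ?_⟩
        rw [hb', decide_eq_false_iff_not]
        omega
    obtain ⟨δ, -, ⟨j1, j1l, j1p, e1⟩, ⟨j2, j2l, j2p, e2⟩, s1, s2⟩ := subs_table c hc hl p hp2
    have hU1 : d + δ ∈ U ∪ (Finset.range c.1.length).image (fun j => d + bfun c.1 j) :=
      Finset.mem_union_right _ (Finset.mem_image.2 ⟨j1, Finset.mem_range.2 j1l, by rw [e1]⟩)
    have hU2 : d + δ + 1 ∈ U ∪ (Finset.range c.1.length).image (fun j => d + bfun c.1 j) :=
      Finset.mem_union_right _ (Finset.mem_image.2 ⟨j2, Finset.mem_range.2 j2l, by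
        show d + bfun c.1 j2 = d + δ + 1
        rw [e2]
        rfl⟩)
    have hw1 : w (d + δ) = b := by
      rw [← e1, hw j1 j1l]
      exact (hp j1).2 j1p
    have hw2 : w (d + δ + 1) = b := by
      have := hw j2 j2l
      rw [e2] at this
      rw [show d + δ + 1 = d + (δ + 1) by rfl, this]
      exact (hp j2).2 j2p
    refine ⟨d + δ, hU1, hU2, hw1, hw2, by omega, ?_⟩
    intro e he
    obtain ⟨e', he', l, -, ⟨l1, l2, l3, l4⟩, l5, l6⟩ : ∃ e', e = d + e' ∧ ∃ l ∈ subs,
        SubDrop c p e' l := by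
      rcases he with he | he
      · exact ⟨δ, he, s1⟩
      · exact ⟨δ + 1, he, s2⟩
    have hrun := h0.plain l c.2 l2 l3 (fun i hi => by
      obtain ⟨j, hj, h1, h2⟩ := l4 i hi
      rw [h1, hw j hj]
      congr 1
      apply propext
      omega)
    rw [show m + l.length = m + c.1.length - 2 by omega] at hrun
    refine ⟨_, pl, hrun, ?_, ?_, ?_⟩
    · refine Finset.union_subset_union_right ?_
      intro x hx
      obtain ⟨i, hi, rfl⟩ := Finset.mem_image.1 hx
      obtain ⟨j, hj, h1, -⟩ := l4 i (Finset.mem_range.1 hi)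
      exact Finset.mem_image.2 ⟨j, Finset.mem_range.2 hj, by
        show d + bfun c.1 j = d + bfun l i
        rw [h1]⟩
    · intro hx
      rcases Finset.mem_union.1 hx with hx | hx
      · have := h0.lt _ hx
        omega
      · obtain ⟨i, hi, h1⟩ := Finset.mem_image.1 hx
        have h1' : d + bfun l i = e := h1
        exact l6 i (Finset.mem_range.1 hi) (by omega)
    · intro x hx hxb hxe
      rcases Finset.mem_union.1 hx with hx | hx
      · exact Finset.mem_union_left _ hx
      · obtain ⟨j, hj, rfl⟩ := Finset.mem_image.1 hx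
        have hj' := Finset.mem_range.1 hj
        have hxb' : w (d + bfun c.1 j) = b := hxb
        rw [hw j hj'] at hxb'
        have hjp := (hp j).1 hxb'
        obtain ⟨i, hi, h1⟩ := l5 j hj' hjp (fun h => hxe (by
          show d + bfun c.1 j = e
          rw [h, he']))
        exact Finset.mem_union_right _ (Finset.mem_image.2 ⟨i, Finset.mem_range.2 hi, by
          show d + bfun l i = d + bfun c.1 j
          rw [h1]⟩)

/-- A run can be shortened by two steps. -/
theorem Run.red (h : Run w d m U pl) (hm : 2 ≤ m) : ∃ U' pl', Run w d (m - 2) U' pl' ∧ U' ⊆ U ∧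
    (pl = true → pl' = true) := by
  induction h with
  | init => omega
  | wait _ ih =>
    obtain ⟨U', pl', h1, h2⟩ := ih hm
    exact ⟨U', pl', h1.wait, h2⟩
  | @step d m U pl h0 hw ih =>
    by_cases h1 : m = 1
    · subst h1
      exact ⟨∅, true, Run.zero w (d + 1), Finset.empty_subset _, fun _ => rfl⟩
    · obtain ⟨U', pl', g1, g2, g3⟩ := ih (by omega)
      have g5 := g1.step (show w d = decide ((m - 2) % 2 = 0) by
        rw [hw]
        congr 1
        apply propext
        omega)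
      rw [show m - 2 + 1 = m + 1 - 2 by omega] at g5
      exact ⟨_, _, g5, Finset.insert_subset_insert _ g2, g3⟩
  | @block d m U pl c hc hl h0 hw _ =>
    obtain ⟨δ, -, -, -, -, -, h6⟩ := (Run.block c hc hl h0 hw).drop rfl true
    obtain ⟨U', pl', g1, g2, -⟩ := h6 δ (Or.inl rfl)
    exact ⟨U', pl', g1, g2, fun h => absurd h (by decide)⟩

/-- A run can be shortened to any smaller number of steps of the same parity. -/
theorem Run.reds (h : Run w d m U pl) (m' : ℕ) (hm : m' ≤ m) (hp : m' % 2 = m % 2) :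
    ∃ U' pl', Run w d m' U' pl' ∧ U' ⊆ U ∧ (pl = true → pl' = true) := by
  obtain ⟨j, hj⟩ : ∃ j, m = m' + 2 * j := ⟨(m - m') / 2, by omega⟩
  induction j generalizing m U pl with
  | zero =>
    have : m' = m := by omega
    subst this
    exact ⟨U, pl, h, Finset.Subset.refl _, id⟩
  | succ j ih =>
    obtain ⟨U1, pl1, g1, g2, g3⟩ := h.red (by omega)
    obtain ⟨U2, pl2, g4, g5, g6⟩ := ih g1 (by omega) (by omega) (by omega)
    exact ⟨U2, pl2, g4, g5.trans g2, fun h => g6 (g3 h)⟩

/-- The path of a run. -/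
theorem Run.pinv (h : Run w d m U pl) : ∃ D, PInv w D d m ∧ ∀ x, x ∈ U ↔ ∃ i < m, D i = x := by
  induction h with
  | init => exact ⟨fun _ => 0, PInv.init w _, by simp⟩
  | wait _ ih =>
    obtain ⟨D, h1, h2⟩ := ih
    exact ⟨D, h1.wait, h2⟩
  | @step d m U pl _ hw ih =>
    obtain ⟨D, h1, h2⟩ := ih
    obtain ⟨D', h3, h4, h5⟩ := h1.block' (r := [0]) (K := 1) (by decide) (by
      intro j hj
      have : j = 0 := by simpa using hj
      subst this
      exact hw)
    refine ⟨D', h3, fun x => ?_⟩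
    rw [Finset.mem_insert, h2]
    constructor
    · rintro (rfl | ⟨i, hi, rfl⟩)
      · refine ⟨m, by omega, ?_⟩
        have := h5 0
        rw [Nat.add_zero] at this
        exact this
      · exact ⟨i, by omega, h4 i hi⟩
    · rintro ⟨i, hi, rfl⟩
      by_cases him : i < m
      · exact Or.inr ⟨i, him, (h4 i him).symm⟩
      · left
        have : i = m + 0 := by omega
        rw [this, h5 0]
        rfl
  | @block d m U pl c hc hl _ hw ih =>
    obtain ⟨D, h1, h2⟩ := ih
    obtain ⟨D', h3, h4, h5⟩ := h1.block' (P4_valid c hc) hw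
    refine ⟨D', h3, fun x => ?_⟩
    rw [Finset.mem_union, h2, Finset.mem_image]
    constructor
    · rintro (⟨i, hi, rfl⟩ | ⟨j, hj, rfl⟩)
      · exact ⟨i, by omega, h4 i hi⟩
      · have := Finset.mem_range.1 hj
        exact ⟨m + j, by omega, h5 j⟩
    · rintro ⟨i, hi, rfl⟩
      by_cases him : i < m
      · exact Or.inl ⟨i, him, (h4 i him).symm⟩
      · right
        refine ⟨i - m, Finset.mem_range.2 (by omega), ?_⟩
        show d + bfun c.1 (i - m) = D' i
        rw [← h5, show m + (i - m) = i by omega]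

/-- The depths of a plain run. -/
theorem Run.depths (h : Run w d m U pl) (hpl : pl = true) : ∃ δ : ℕ → ℕ, (∀ i < m, δ i < d) ∧
    (∀ i, i + 1 < m → δ i < δ (i + 1)) ∧ ∀ i < m, w (δ i) = decide (i % 2 = 0) := by
  induction h with
  | init => exact ⟨fun _ => 0, by omega, by omega, by omega⟩
  | wait _ ih =>
    obtain ⟨δ, h1, h2, h3⟩ := ih hpl
    exact ⟨δ, fun i hi => Nat.lt_succ_of_lt (h1 i hi), h2, h3⟩
  | @step d m U pl _ hw ih =>
    obtain ⟨δ, h1, h2, h3⟩ := ih hpl
    refine ⟨fun i => if i < m then δ i else d, ?_, ?_, ?_⟩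
    · intro i hi
      show (if i < m then δ i else d) < d + 1
      split_ifs with h
      · have := h1 i h
        omega
      · omega
    · intro i hi
      show (if i < m then δ i else d) < (if i + 1 < m then δ (i + 1) else d)
      rw [if_pos (show i < m by omega)]
      split_ifs with h
      · exact h2 i h
      · exact h1 i (by omega)
    · intro i hi
      show w (if i < m then δ i else d) = _
      split_ifs with h
      · exact h3 i h
      · have : i = m := by omega
        rw [this]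
        exact hw
  | block c hc hl _ hw ih => exact absurd hpl (by decide)

theorem Run.altW {k : ℕ} {S T : Finset ℕ} (hU : S ∪ T = Finset.Icc 1 (2 * k))
    (hw : IsWord k S w) (h : Run w (2 * k - 1) m U true) : ∃ J, AltW S T (2 * k) m J := by
  obtain ⟨δ, h1, h2, h3⟩ := h.depths rfl
  have hr : ∀ i < m, 1 ≤ 2 * k - 1 - δ i ∧ 2 * k - 1 - δ i < 2 * k := fun i hi => by
    have := h1 i hi
    omega
  have he : ∀ i < m, 2 * k - 1 - (2 * k - 1 - δ i) = δ i := fun i hi => by
    have := h1 i hi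
    omega
  refine ⟨fun i => 2 * k - 1 - δ i, hr, ?_, ?_, ?_⟩
  · intro i hi
    have h4 := h2 i hi
    have h5 := h1 (i + 1) hi
    show 2 * k - 1 - δ (i + 1) < 2 * k - 1 - δ i
    omega
  · intro i hi hev
    have h4 := hr i hi
    refine (hw _ h4.1 (by omega)).1 ?_
    rw [he i hi, h3 i hi]
    exact decide_eq_true (Nat.even_iff.1 hev)
  · intro i hi hod
    have h4 := hr i hi
    have h5 : 2 * k - 1 - δ i ∈ S ∪ T := by
      rw [hU]
      exact Finset.mem_Icc.2 ⟨h4.1, by omega⟩
    rcases Finset.mem_union.1 h5 with h6 | h6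
    · exfalso
      have h7 := (hw _ h4.1 (by omega)).2 h6
      rw [he i hi, h3 i hi] at h7
      have h8 := of_decide_eq_true h7
      have := Nat.odd_iff.1 hod
      omega
    · exact h6

/-- The labels `S` of the path of a run. -/
theorem mem_labS {k r : ℕ} {D : ℕ → ℕ} (hr : 1 ≤ r) (h : PInv w D (2 * k - 1) (2 * r - 1))
    (hU : ∀ x, x ∈ U ↔ ∃ i < 2 * r - 1, D i = x) (l : ℕ) (hl1 : 1 ≤ l) (hl2 : l ≤ 2 * k - 1) :
    l ∈ labS k D r ↔ 2 * k - 1 - l ∈ U ∧ w (2 * k - 1 - l) = true := by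
  unfold labS
  rw [Finset.mem_image]
  constructor
  · rintro ⟨i, hi, hil⟩
    have hi' := Finset.mem_range.1 hi
    have h1 := h.lt (2 * i) (by omega)
    have h2 : 2 * k - 1 - l = D (2 * i) := by omega
    rw [h2, hU, h.letter (2 * i) (by omega)]
    exact ⟨⟨2 * i, by omega, rfl⟩, decide_eq_true (by omega)⟩
  · rintro ⟨h1, h2⟩
    obtain ⟨i, hi, h3⟩ := (hU _).1 h1
    rw [← h3, h.letter i hi] at h2
    have h4 := of_decide_eq_true h2
    refine ⟨i / 2, Finset.mem_range.2 (by omega), ?_⟩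
    rw [show 2 * (i / 2) = i by omega, h3]
    omega

/-- The labels `T` of the path of a run. -/
theorem mem_labT {k r : ℕ} {D : ℕ → ℕ} (hr : 1 ≤ r) (h : PInv w D (2 * k - 1) (2 * r - 1))
    (hU : ∀ x, x ∈ U ↔ ∃ i < 2 * r - 1, D i = x) (l : ℕ) (hl1 : 1 ≤ l) (hl2 : l ≤ 2 * k - 1) :
    l ∈ labT k D (r - 1) ↔ 2 * k - 1 - l ∈ U ∧ w (2 * k - 1 - l) = false := by
  unfold labT
  rw [Finset.mem_image]
  constructor
  · rintro ⟨i, hi, hil⟩
    have hi' := Finset.mem_range.1 hi
    have h1 := h.lt (2 * i + 1) (by omega)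
    have h2 : 2 * k - 1 - l = D (2 * i + 1) := by omega
    rw [h2, hU, h.letter (2 * i + 1) (by omega)]
    exact ⟨⟨2 * i + 1, by omega, rfl⟩, decide_eq_false (by omega)⟩
  · rintro ⟨h1, h2⟩
    obtain ⟨i, hi, h3⟩ := (hU _).1 h1
    rw [← h3, h.letter i hi] at h2
    have h4 := of_decide_eq_false h2
    refine ⟨i / 2, Finset.mem_range.2 (by omega), ?_⟩
    rw [show 2 * (i / 2) + 1 = i by omega, h3]
    omega

/-- THE REDUCTION LEMMA. A run with at least `2 r + 1` steps, and two depths of the letter `b` with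
the property `P` (one of any two adjacent depths has it): either there is a plain run with `2 r - 1`
steps, or a run with `2 r - 1` steps such that the letter `b` has the property `P` both at a used
and at an unused depth. -/
theorem Run.split {r : ℕ} (h : Run w d m U pl) (hm : 2 * r + 1 ≤ m) (hp : m % 2 = 1)
    (b : Bool) (P : ℕ → Prop) (hP : ∀ δ, δ + 1 < d → P δ ∨ P (δ + 1))
    (δ₁ δ₂ : ℕ) (h12 : δ₁ ≠ δ₂) (hd1 : δ₁ < d) (hd2 : δ₂ < d) (hw1 : w δ₁ = b) (hw2 : w δ₂ = b)
    (hP1 : P δ₁) (hP2 : P δ₂) (hr : 1 ≤ r) :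
    (∃ U', Run w d (2 * r - 1) U' true) ∨
    ∃ U' pl', Run w d (2 * r - 1) U' pl' ∧ (∃ δ ∈ U', w δ = b ∧ P δ) ∧
      ∃ δ < d, δ ∉ U' ∧ w δ = b ∧ P δ := by
  classical
  obtain ⟨U1, pl1, g1, -, -⟩ := h.reds (2 * r + 1) hm (by omega)
  have key : ∀ U' pl', Run w d (2 * r - 1) U' pl' → pl' = false → ∃ δ ∈ U', w δ = b ∧ P δ := by
    intro U' pl' h' hpl'
    obtain ⟨δ, a1, a2, a3, a4, -⟩ := h'.drop hpl' b
    rcases hP δ (h'.lt _ a2) with h5 | h5
    · exact ⟨δ, a1, a3, h5⟩
    · exact ⟨δ + 1, a2, a4, h5⟩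
  by_cases hall : ∀ δ < d, w δ = b → P δ → δ ∈ U1
  · cases hpl : pl1
    · obtain ⟨δ, a1, a2, a3, a4, -, a6⟩ := g1.drop hpl b
      obtain ⟨e, he, heP⟩ : ∃ e, (e = δ ∨ e = δ + 1) ∧ P e := by
        rcases hP δ (g1.lt _ a2) with h5 | h5
        · exact ⟨δ, Or.inl rfl, h5⟩
        · exact ⟨δ + 1, Or.inr rfl, h5⟩
      obtain ⟨U', pl', c1, -, c3, c4⟩ := a6 e he
      rw [show 2 * r + 1 - 2 = 2 * r - 1 by omega] at c1
      right
      refine ⟨U', pl', c1, ?_, e, ?_, c3, ?_, heP⟩
      · by_cases h1 : δ₁ = e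
        · exact ⟨δ₂, c4 δ₂ (hall _ hd2 hw2 hP2) hw2 (fun h => h12 (h1.trans h.symm)), hw2, hP2⟩
        · exact ⟨δ₁, c4 δ₁ (hall _ hd1 hw1 hP1) hw1 h1, hw1, hP1⟩
      · rcases he with rfl | rfl
        · exact g1.lt _ a1
        · exact g1.lt _ a2
      · rcases he with rfl | rfl
        · exact a3
        · exact a4
    · left
      subst hpl
      obtain ⟨U', pl', c1, -, c3⟩ := g1.red (by omega)
      rw [show 2 * r + 1 - 2 = 2 * r - 1 by omega, c3 rfl] at c1
      exact ⟨U', c1⟩
  · push Not at hall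
    obtain ⟨δ, b1, b2, b3, b4⟩ := hall
    obtain ⟨U', pl', c1, c2, -⟩ := g1.red (by omega)
    rw [show 2 * r + 1 - 2 = 2 * r - 1 by omega] at c1
    cases hpl : pl'
    · right
      exact ⟨U', pl', c1, key U' pl' c1 hpl, δ, b1, fun h => b4 (c2 h), b2, b3⟩
    · left
      rw [hpl] at c1
      exact ⟨U', c1⟩

/-- (C3)+(C4) for the labels: from `k + 1` steps, either a plain zigzag with `k - 1` steps, or a
path with `k - 1` steps such that the letter `b` has used and unused labels which are no multiples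
of `3`. -/
theorem split_labels {k r : ℕ} {S T : Finset ℕ} (hk : k = 2 * r) (hr : 1 ≤ r)
    (hU : S ∪ T = Finset.Icc 1 (2 * k)) (hST : Disjoint S T) (hw : IsWord k S w)
    (hR : Reach P4 w (2 * k - 1) m) (hm : k + 1 ≤ m) (hp : m % 2 = 1) (b : Bool)
    (l₁ l₂ : ℕ) (h12 : l₁ ≠ l₂) (hl1 : 1 ≤ l₁) (hl1' : l₁ ≤ 2 * k - 1) (hl2 : 1 ≤ l₂)
    (hl2' : l₂ ≤ 2 * k - 1) (hb1 : l₁ ∈ (if b then S else T)) (hb2 : l₂ ∈ (if b then S else T))
    (h31 : ¬ 3 ∣ l₁) (h32 : ¬ 3 ∣ l₂) :
    (∃ J, AltW S T (2 * k) (k - 1) J) ∨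
    ∃ D, APath w D (2 * k - 1) (2 * r - 1) ∧
      (if b then (∃ l ∈ labS k D r, ¬ 3 ∣ l) ∧ ∃ l ∈ S \ labS k D r, ¬ 3 ∣ l
        else (∃ l ∈ labT k D (r - 1), ¬ 3 ∣ l) ∧
          ∃ l ∈ (T \ labT k D (r - 1)).erase (2 * k), ¬ 3 ∣ l) := by
  obtain ⟨U, pl, h⟩ := Run.ofReach hR
  have hlet : ∀ l, 1 ≤ l → l ≤ 2 * k - 1 → l ∈ (if b then S else T) →
      w (2 * k - 1 - l) = b := by
    intro l h1 h2 h3
    cases b
    · have h4 : ¬ w (2 * k - 1 - l) = true := fun h5 =>
        Finset.disjoint_left.1 hST ((hw l h1 h2).1 h5) h3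
      simpa using h4
    · exact (hw l h1 h2).2 h3
  rcases h.split (r := r) (by omega) hp b (fun δ => ¬ 3 ∣ 2 * k - 1 - δ) (by
      intro δ hδ
      by_contra hc
      push Not at hc
      obtain ⟨h1, h2⟩ := hc
      omega) (2 * k - 1 - l₁) (2 * k - 1 - l₂) (by omega) (by omega) (by omega)
      (hlet l₁ hl1 hl1' hb1) (hlet l₂ hl2 hl2' hb2)
      (by show ¬ 3 ∣ 2 * k - 1 - (2 * k - 1 - l₁)
          rw [show 2 * k - 1 - (2 * k - 1 - l₁) = l₁ by omega]
          exact h31)
      (by show ¬ 3 ∣ 2 * k - 1 - (2 * k - 1 - l₂)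
          rw [show 2 * k - 1 - (2 * k - 1 - l₂) = l₂ by omega]
          exact h32) hr with ⟨U', h'⟩ | ⟨U', pl', h', ⟨δ, a1, a2, a3⟩, δ', b1, b2, b3, b4⟩
  · left
    obtain ⟨J, hJ⟩ := h'.altW hU hw
    rw [show 2 * r - 1 = k - 1 by omega] at hJ
    exact ⟨J, hJ⟩
  · right
    obtain ⟨D, hD, hDU⟩ := h'.pinv
    have hδ := h'.lt _ a1
    have e1 : 2 * k - 1 - (2 * k - 1 - δ) = δ := by omega
    have e2 : 2 * k - 1 - (2 * k - 1 - δ') = δ' := by omega
    have hin : 2 * k - 1 - δ' ∈ S ∪ T := by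
      rw [hU]
      exact Finset.mem_Icc.2 ⟨by omega, by omega⟩
    refine ⟨D, hD.aPath le_rfl, ?_⟩
    cases b
    · rw [if_neg (by decide)]
      refine ⟨⟨2 * k - 1 - δ, ?_, a3⟩, 2 * k - 1 - δ', ?_, b4⟩
      · rw [mem_labT hr hD hDU _ (by omega) (by omega), e1]
        exact ⟨a1, a2⟩
      · rw [Finset.mem_erase, Finset.mem_sdiff, mem_labT hr hD hDU _ (by omega) (by omega), e2]
        refine ⟨by omega, ?_, fun h => b2 h.1⟩
        rcases Finset.mem_union.1 hin with h6 | h6
        · exfalso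
          have := (hw _ (by omega) (by omega)).2 h6
          rw [e2, b3] at this
          exact absurd this (by decide)
        · exact h6
    · rw [if_pos rfl]
      refine ⟨⟨2 * k - 1 - δ, ?_, a3⟩, 2 * k - 1 - δ', ?_, b4⟩
      · rw [mem_labS hr hD hDU _ (by omega) (by omega), e1]
        exact ⟨a1, a2⟩
      · rw [Finset.mem_sdiff, mem_labS hr hD hDU _ (by omega) (by omega), e2]
        refine ⟨?_, fun h => b2 h.1⟩
        refine (hw _ (by omega) (by omega)).1 ?_
        rw [e2]
        exact b3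

end Pool.Agent.P45
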