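import Pool.Agent.Lib.P45dba8.Joint

/-! # The rows (cycles) of a cyclic block, numbered along a single type -/

set_option autoImplicit false

namespace Pool.Agent.P45

theorem stp_iterate {m h : ℕ} (C : ZMod m) (k : ℕ) :
    (stp C)^[k] ((0 : ZMod h), (0 : ZMod m)) =
      (((k : ℕ) : ZMod h), ((k / h : ℕ) : ZMod m) * C) := by
  induction k with
  | zero => simp
  | succ k ih =>
    rw [Function.iterate_succ_apply', ih]
    have e : ((k + 1 : ℕ) : ZMod h) = 0 ↔ h ∣ k + 1 := ZMod.natCast_eq_zero_iff _ _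
    unfold stp
    refine Prod.ext ?_ ?_
    · show ((k : ℕ) : ZMod h) + 1 = ((k + 1 : ℕ) : ZMod h)
      push_cast
      rfl
    · show ((k / h : ℕ) : ZMod m) * C + (if ((k : ℕ) : ZMod h) + 1 = 0 then C else 0) =
        (((k + 1) / h : ℕ) : ZMod m) * C
      have e' : ((k : ℕ) : ZMod h) + 1 = 0 ↔ h ∣ k + 1 := by
        rw [← e]
        push_cast
        rfl
      rw [Nat.succ_div]
      by_cases hd : h ∣ k + 1
      · rw [if_pos (e'.2 hd), if_pos hd]
        push_cast
        ring
      · rw [if_neg (fun h' => hd (e'.1 h')), if_neg hd, add_zero, add_zero]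

/-- The rows of a cyclic block: `F` is the step, `comp` the number of the row modulo `g` (the row
of the hole is `0`, the type `psi t` goes to the next row), `dist` the distance from the end of the
hole inside the row of the hole. -/
theorem Cyc.rows {m h : ℕ} (hm : Odd m) (hh : Odd h) (h3 : 3 ≤ h)
    {E : ZMod (m * h) → ZMod (m * h) → Prop} {w w' : ZMod (m * h)} (H : Cyc m h E w w')
    (t : ZMod m) (ht : IsUnit t) :
    ∃ (π : ZMod h ≃ ZMod h) (F : ZMod (m * h) ≃ ZMod (m * h)) (g : ℕ)
      (comp : ZMod (m * h) → ZMod g) (dist : ZMod (m * h) → ℕ),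
      Odd g ∧ g ∣ m ∧ (∀ v, red m h (F v) = π (π.symm (red m h v) + 1)) ∧
      (∀ v, F (v + psi m h t) = F v + psi m h t) ∧ (∀ v v', E v v' → v' = F v ∨ v = F v') ∧
      F w = w' ∧ (∀ v, comp (F v) = comp v) ∧ (∀ v, comp (v + psi m h t) = comp v + 1) ∧
      comp w = 0 ∧ dist w' = 0 ∧ (∀ v, comp v = 0 → v ≠ w → dist (F v) = dist v + 1) ∧
      dist w % 2 = 0 ∧ (∀ v, comp v = 0 → F^[dist v] w' = v) ∧ red m h w = π (-1) := by
  classical
  obtain ⟨π, W, hW, hw, hw', hE⟩ := H
  obtain ⟨C, phi, ph1, ph2, ph3, ph4, ph5⟩ := exists_chart h3 π W hW w hw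
  have hm0 : m ≠ 0 := by rintro rfl; simp at hm
  have hNm : NeZero m := ⟨hm0⟩
  have hfst : ∀ v, (phi.symm v).1 = π.symm (red m h v) := by
    intro v
    have := ph1 (phi.symm v)
    rw [Equiv.apply_symm_apply] at this
    rw [this, Equiv.symm_apply_apply]
  let F : ZMod (m * h) ≃ ZMod (m * h) := phi.symm.trans ((stpE C).trans phi)
  have hF : ∀ v, F v = phi (stp C (phi.symm v)) := fun v => rfl
  have hFW : ∀ v, F v = v + W (π.symm (red m h v)) := by
    intro v
    rw [hF, ph2, Equiv.apply_symm_apply, hfst]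
  have hFp : ∀ u, F (phi u) = phi (stp C u) := by
    intro u
    rw [hF, Equiv.symm_apply_apply]
  have hFw : F w = w' := by
    rw [hFW, hw, Equiv.symm_apply_apply, hw']
  obtain ⟨t', ht'⟩ := ht.exists_left_inv
  let g := Nat.gcd C.val m
  have hgm : g ∣ m := Nat.gcd_dvd_right _ _
  have hgC : g ∣ C.val := Nat.gcd_dvd_left _ _
  let cst := ZMod.castHom hgm (ZMod g)
  have hcC : cst C = 0 := by
    have e : C = ((C.val : ℕ) : ZMod m) := (ZMod.natCast_zmod_val C).symm
    rw [e, map_natCast]
    exact (ZMod.natCast_eq_zero_iff _ _).2 hgC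
  let comp : ZMod (m * h) → ZMod g := fun v => cst (t' * (phi.symm v).2)
  have compF : ∀ v, comp (F v) = comp v := by
    intro v
    show cst (t' * (phi.symm (phi (stp C (phi.symm v)))).2) = cst (t' * (phi.symm v).2)
    rw [Equiv.symm_apply_apply]
    show cst (t' * ((phi.symm v).2 + if (phi.symm v).1 + 1 = 0 then C else 0)) = _
    by_cases hc : (phi.symm v).1 + 1 = 0
    · rw [if_pos hc, mul_add, map_add, map_mul cst t' C, hcC, mul_zero, add_zero]
    · rw [if_neg hc, add_zero]
  have hadd : ∀ v δ, phi.symm (v + psi m h δ) = ((phi.symm v).1, (phi.symm v).2 + δ) := by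
    intro v δ
    rw [Equiv.symm_apply_eq, ph3]
    show _ = phi (phi.symm v) + _
    rw [Equiv.apply_symm_apply]
  have compA : ∀ v, comp (v + psi m h t) = comp v + 1 := by
    intro v
    show cst (t' * (phi.symm (v + psi m h t)).2) = cst (t' * (phi.symm v).2) + 1
    rw [hadd]
    show cst (t' * ((phi.symm v).2 + t)) = _
    rw [mul_add, map_add, ht', map_one]
  have compw' : comp w' = 0 := by
    rw [hw', ← ph5]
    show cst (t' * (phi.symm (phi (0, 0))).2) = 0
    rw [Equiv.symm_apply_apply]
    show cst (t' * 0) = 0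
    rw [mul_zero, map_zero]
  have compw : comp w = 0 := by
    rw [← compF, hFw, compw']
  -- iterates
  have iter : ∀ k : ℕ, F^[k] w' = phi (((k : ℕ) : ZMod h), ((k / h : ℕ) : ZMod m) * C) := by
    intro k
    rw [← stp_iterate C k, hw', ← ph5]
    induction k with
    | zero => rfl
    | succ k ih =>
      rw [Function.iterate_succ_apply', Function.iterate_succ_apply', ih, hFp]
  have reach : ∀ v, comp v = 0 → ∃ k, F^[k] w' = v := by
    intro v hv
    have h1 : cst ((phi.symm v).2) = 0 := by
      have h2 : cst (t' * (phi.symm v).2) = 0 := hv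
      have h3' : (phi.symm v).2 = t * (t' * (phi.symm v).2) := by
        rw [← mul_assoc, mul_comm t t', ht', one_mul]
      rw [h3', map_mul, h2, mul_zero]
    obtain ⟨q, hq⟩ : g ∣ (phi.symm v).2.val := by
      have e : (phi.symm v).2 = (((phi.symm v).2.val : ℕ) : ZMod m) :=
        (ZMod.natCast_zmod_val _).symm
      rw [e, map_natCast] at h1
      exact (ZMod.natCast_eq_zero_iff _ _).1 h1
    have hbez : ((g : ℕ) : ZMod m) = C * ((Nat.gcdA C.val m : ℤ) : ZMod m) := by
      have := congrArg (fun z : ℤ => (z : ZMod m)) (Nat.gcd_eq_gcd_ab C.val m)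
      simp only [Int.cast_add, Int.cast_mul, Int.cast_natCast, ZMod.natCast_self, zero_mul,
        add_zero, ZMod.natCast_zmod_val] at this
      exact this
    have ha : (phi.symm v).2 = C * ((Nat.gcdA C.val m : ℤ) : ZMod m) * (q : ZMod m) := by
      rw [← hbez, ← Nat.cast_mul, ← hq, ZMod.natCast_zmod_val]
    let s : ℕ := (((Nat.gcdA C.val m : ℤ) : ZMod m) * (q : ZMod m)).val
    have hs : ((s : ℕ) : ZMod m) = ((Nat.gcdA C.val m : ℤ) : ZMod m) * (q : ZMod m) :=
      ZMod.natCast_zmod_val _
    have hNh : NeZero h := ⟨by omega⟩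
    refine ⟨(phi.symm v).1.val + h * s, ?_⟩
    rw [iter]
    have e1 : (((phi.symm v).1.val + h * s : ℕ) : ZMod h) = (phi.symm v).1 := by
      rw [Nat.cast_add, Nat.cast_mul, ZMod.natCast_self, zero_mul, add_zero,
        ZMod.natCast_zmod_val]
    have e2 : ((phi.symm v).1.val + h * s) / h = s := by
      rw [Nat.add_mul_div_left _ _ (by omega), Nat.div_eq_of_lt (ZMod.val_lt _), zero_add]
    rw [e1, e2, hs]
    have e3 : ((Nat.gcdA C.val m : ℤ) : ZMod m) * (q : ZMod m) * C = (phi.symm v).2 := by
      rw [ha]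
      ring
    rw [e3]
    exact phi.apply_symm_apply v
  let dist : ZMod (m * h) → ℕ := fun v => if hv : ∃ k, F^[k] w' = v then Nat.find hv else 0
  have dist_spec : ∀ v (hv : ∃ k, F^[k] w' = v), F^[dist v] w' = v := by
    intro v hv
    show F^[if hv : ∃ k, F^[k] w' = v then Nat.find hv else 0] w' = v
    rw [dif_pos hv]
    exact Nat.find_spec hv
  have dist_min : ∀ v k, F^[k] w' = v → dist v ≤ k := by
    intro v k hk
    have hv : ∃ k, F^[k] w' = v := ⟨k, hk⟩
    show (if hv : ∃ k, F^[k] w' = v then Nat.find hv else 0) ≤ k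
    rw [dif_pos hv]
    exact Nat.find_min' hv hk
  have distw' : dist w' = 0 := Nat.le_zero.1 (dist_min w' 0 rfl)
  have distF : ∀ v, comp v = 0 → v ≠ w → dist (F v) = dist v + 1 := by
    intro v hv hvw
    have h1 := dist_spec v (reach v hv)
    have h2 : F^[dist v + 1] w' = F v := by rw [Function.iterate_succ_apply', h1]
    refine le_antisymm (dist_min _ _ h2) ?_
    by_contra hcon
    push Not at hcon
    have h3' := dist_spec (F v) ⟨_, h2⟩
    rcases Nat.eq_zero_or_pos (dist (F v)) with h0 | h0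
    · rw [h0] at h3'
      exact hvw (F.injective (h3'.symm.trans hFw.symm))
    · obtain ⟨j, hj⟩ : ∃ j, dist (F v) = j + 1 := ⟨dist (F v) - 1, by omega⟩
      rw [hj, Function.iterate_succ_apply'] at h3'
      have := dist_min v j (F.injective h3')
      omega
  have distw : dist w % 2 = 0 := by
    have h1 := dist_spec w (reach w compw)
    have hper : Function.IsPeriodicPt F (h * m) w' := by
      show F^[h * m] w' = w'
      rw [iter, Nat.mul_div_cancel_left _ (by omega : 0 < h), Nat.cast_mul, ZMod.natCast_self,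
        zero_mul, ZMod.natCast_self, zero_mul, ph5, hw']
    have hp1 : Function.IsPeriodicPt F (dist w + 1) w' := by
      show F^[dist w + 1] w' = w'
      rw [Function.iterate_succ_apply', h1, hFw]
    have hmin : Function.minimalPeriod F w' = dist w + 1 := by
      refine le_antisymm (hp1.minimalPeriod_le (Nat.succ_pos _)) ?_
      have hpos : 0 < Function.minimalPeriod F w' := hp1.minimalPeriod_pos (Nat.succ_pos _)
      obtain ⟨j, hj⟩ : ∃ j, Function.minimalPeriod F w' = j + 1 := ⟨_, (Nat.succ_pred_eq_of_pos hpos).symm⟩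
      have h2 : F^[j + 1] w' = w' := by
        rw [← hj]
        exact Function.iterate_minimalPeriod
      rw [Function.iterate_succ_apply'] at h2
      have := dist_min w j (F.injective (h2.trans hFw.symm))
      omega
    have hdvd := hper.minimalPeriod_dvd
    rw [hmin] at hdvd
    have hodd : Odd (dist w + 1) := (hh.mul hm).of_dvd_nat hdvd
    obtain ⟨c, hc⟩ := hodd
    omega
  refine ⟨π, F, g, comp, dist, hm.of_dvd_nat hgm, hgm, ?_, ?_, ?_, hFw, compF, compA, compw,
    distw', distF, distw, fun v hv => dist_spec v (reach v hv), hw⟩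
  · intro v
    rw [hFW, map_add, hW, Equiv.apply_symm_apply]
    ring
  · intro v
    rw [hFW, hFW, map_add, red_psi, add_zero]
    ring
  · intro v v' hvv
    rw [hFW, hFW]
    exact hE v v' hvv

end Pool.Agent.P45
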