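import Pool.Agent.Lib.P45dba8.Runs
import Pool.Agent.Lib.P45dba8.Avg20

/-! # MP_45dba8: number of boundaries for `n = 165` -/

set_option autoImplicit false

namespace Pool.Agent.P45

/-- The case `n = 165`: at least `37` boundaries, hence `r ≤ 3`. -/
theorem exists_unit_bd165 (S : Finset ℕ) (hS : S ⊆ Finset.Icc 1 (2 * 41)) (hc : S.card = 41) :
    ∃ v : ZMod (4 * 41 + 1), IsUnit v ∧
      37 ≤ (Bd (LW 41 S v) (LW 41 (Finset.Icc 1 (2 * 41) \ S) v) (2 * 41)).card := by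
  obtain ⟨y, hy, h⟩ := avg_165 (wsg 41 S) (wsg_zero S) (fun x hx => wsg_ne S hx)
    (wsg_sum S hS hc)
  obtain ⟨v, hv, -, h4⟩ := unit_half (k := 41) (by norm_num) S hS y hy
  refine ⟨v, hv, ?_⟩
  have h5 := h4 ▸ h
  by_contra hcon
  rw [not_le] at hcon
  have h6 : ((Bd (LW 41 S v) (LW 41 (Finset.Icc 1 (2 * 41) \ S) v) (2 * 41)).card : ℤ) ≤ 36 := by
    exact_mod_cast Nat.le_of_lt_succ hcon
  push_cast at h5
  linarith

end Pool.Agent.P45
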