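import Pool.Agent.Lib.P45dba8.ZigEven

/-! # MP_45dba8: separated sets of labels, exchange lemmas

`Sep A D`: between two elements of `D` there is an element of `A`. A set of labels of `S` which is
separated by `T` is the set of the doubled labels of a zigzag. -/

set_option autoImplicit false

namespace Pool.Agent.P45

/-- `a` lies strictly between `x` and `y`. -/
def Btw (a x y : ℕ) : Prop := (x < a ∧ a < y) ∨ (y < a ∧ a < x)

/-- Between two elements of `D` there is an element of `A`. -/
def Sep (A D : Finset ℕ) : Prop := ∀ x ∈ D, ∀ y ∈ D, x ≠ y → ∃ a ∈ A, Btw a x y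

theorem Sep.lt {A D : Finset ℕ} (h : Sep A D) {x y : ℕ} (hx : x ∈ D) (hy : y ∈ D) (hxy : x < y) :
    ∃ a ∈ A, x < a ∧ a < y := by
  obtain ⟨a, ha, h1⟩ := h x hx y hy (by omega)
  refine ⟨a, ha, ?_⟩
  unfold Btw at h1
  omega

theorem Sep.subset {A D D' : Finset ℕ} (h : Sep A D) (hs : D' ⊆ D) : Sep A D' :=
  fun x hx y hy => h x (hs hx) y (hs hy)

/-- The exchange: a new element `u` can replace every element, or an element `d` with nothing of
`A` between `u` and `d`. -/
theorem Sep.exch {A D : Finset ℕ} (h : Sep A D) (u : ℕ) (hu : u ∉ A) :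
    (Sep A (insert u D)) ∨
      ∃ d ∈ D, (∀ a ∈ A, ¬ Btw a u d) ∧ Sep A (insert u (D.erase d)) := by
  classical
  by_cases hc : ∀ d ∈ D, ∃ a ∈ A, Btw a u d
  · left
    intro x hx y hy hxy
    rcases Finset.mem_insert.1 hx with rfl | hx' <;> rcases Finset.mem_insert.1 hy with rfl | hy'
    · exact absurd rfl hxy
    · exact hc y hy'
    · obtain ⟨a, ha, h1⟩ := hc x hx'
      exact ⟨a, ha, by unfold Btw at h1 ⊢; omega⟩
    · exact h x hx' y hy' hxy
  · right
    push Not at hc
    obtain ⟨d, hd, hc⟩ := hc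
    refine ⟨d, hd, hc, ?_⟩
    have key : ∀ e ∈ D, e ≠ d → ∃ a ∈ A, Btw a u e := by
      intro e he hed
      obtain ⟨a, ha, h1⟩ := h e he d hd hed
      refine ⟨a, ha, ?_⟩
      have h2 := hc a ha
      have h3 : a ≠ u := fun h' => hu (h' ▸ ha)
      unfold Btw at h1 h2 ⊢
      omega
    intro x hx y hy hxy
    rcases Finset.mem_insert.1 hx with rfl | hx' <;> rcases Finset.mem_insert.1 hy with rfl | hy'
    · exact absurd rfl hxy
    · exact key y (Finset.mem_of_mem_erase hy') (Finset.ne_of_mem_erase hy')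
    · obtain ⟨a, ha, h1⟩ := key x (Finset.mem_of_mem_erase hx') (Finset.ne_of_mem_erase hx')
      exact ⟨a, ha, by unfold Btw at h1 ⊢; omega⟩
    · exact h x (Finset.mem_of_mem_erase hx') y (Finset.mem_of_mem_erase hy') hxy

/-- A separated set of labels of `S` gives a zigzag. -/
theorem altW_of_sep (S T : Finset ℕ) (q : ℕ) (D : Finset ℕ) (N : ℕ) (hD : D.card = q + 1)
    (hDS : D ⊆ S) (h1 : ∀ d ∈ D, 1 ≤ d ∧ d < N) (hsep : Sep T D) :
    ∃ J : ℕ → ℕ, AltW S T N (2 * q + 1) J ∧ zDS (q + 1) J = D := by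
  classical
  induction q generalizing D N with
  | zero =>
    obtain ⟨a, rfl⟩ := Finset.card_eq_one.1 hD
    have ha := h1 a (Finset.mem_singleton_self a)
    refine ⟨fun _ => a, ⟨fun i _ => ha, fun i hi => by omega,
      fun i _ _ => hDS (Finset.mem_singleton_self a), fun i hi ho => ?_⟩, ?_⟩
    · obtain ⟨c, hc⟩ := ho
      omega
    · simp [zDS]
  | succ q ih =>
    have hne : D.Nonempty := Finset.card_pos.1 (by omega)
    obtain ⟨a, ha, hmax⟩ : ∃ a ∈ D, ∀ d ∈ D, d ≤ a :=
      ⟨D.max' hne, D.max'_mem hne, fun d hd => D.le_max' d hd⟩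
    have hD' : (D.erase a).card = q + 1 := by
      rw [Finset.card_erase_of_mem ha, hD]
      omega
    have hne' : (D.erase a).Nonempty := Finset.card_pos.1 (by omega)
    obtain ⟨b, hb, hmax'⟩ : ∃ b ∈ D.erase a, ∀ d ∈ D.erase a, d ≤ b :=
      ⟨(D.erase a).max' hne', (D.erase a).max'_mem hne', fun d hd => (D.erase a).le_max' d hd⟩
    have hba : b < a := lt_of_le_of_ne (hmax b (Finset.mem_of_mem_erase hb))
      (Finset.ne_of_mem_erase hb)
    obtain ⟨t, ht, ht1, ht2⟩ := hsep.lt (Finset.mem_of_mem_erase hb) ha hba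
    obtain ⟨J', ⟨g1, g2, g3, g4⟩, g5⟩ := ih (D.erase a) t hD'
      (fun x hx => hDS (Finset.mem_of_mem_erase hx)) (fun d hd => ⟨(h1 d
        (Finset.mem_of_mem_erase hd)).1, lt_of_le_of_lt (hmax' d hd) ht1⟩)
      (hsep.subset (Finset.erase_subset _ _))
    have ha' := h1 a ha
    have hb' := h1 b (Finset.mem_of_mem_erase hb)
    refine ⟨fun i => Nat.casesOn i a (fun i => Nat.casesOn i t J'), ⟨?_, ?_, ?_, ?_⟩, ?_⟩
    · intro i hi
      match i, hi with
      | 0, _ => exact ha'
      | 1, _ => exact ⟨by show 1 ≤ t; omega, by show t < N; omega⟩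
      | i + 2, hi =>
        have := g1 i (by omega)
        exact ⟨this.1, by show J' i < N; omega⟩
    · intro i hi
      match i, hi with
      | 0, _ => exact ht2
      | 1, _ => exact (g1 0 (by omega)).2
      | i + 2, hi => exact g2 i (by omega)
    · intro i hi he
      match i, hi, he with
      | 0, _, _ => exact hDS ha
      | 1, _, he => exact absurd he (by decide)
      | i + 2, hi, he => exact g3 i (by omega) (by
          obtain ⟨c, hc⟩ := he
          exact ⟨c - 1, by omega⟩)
    · intro i hi ho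
      match i, hi, ho with
      | 0, _, ho => exact absurd ho (by decide)
      | 1, _, _ => exact ht
      | i + 2, hi, ho => exact g4 i (by omega) (by
          obtain ⟨c, hc⟩ := ho
          exact ⟨c - 1, by omega⟩)
    · ext x
      rw [mem_zDS]
      constructor
      · rintro ⟨i, hi, rfl⟩
        rcases Nat.eq_zero_or_pos i with rfl | hi0
        · exact ha
        · obtain ⟨j, rfl⟩ : ∃ j, i = j + 1 := ⟨i - 1, by omega⟩
          have : J' (2 * j) ∈ zDS (q + 1) J' := mem_zDS.2 ⟨j, by omega, rfl⟩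
          rw [g5] at this
          exact Finset.mem_of_mem_erase this
      · intro hx
        by_cases hxa : x = a
        · exact ⟨0, by omega, hxa.symm⟩
        · have : x ∈ zDS (q + 1) J' := by
            rw [g5]
            exact Finset.mem_erase.2 ⟨hxa, hx⟩
          obtain ⟨i, hi, hi'⟩ := mem_zDS.1 this
          exact ⟨i + 1, by omega, hi'⟩

/-- A set of labels of `T` which is separated by `S`, with the sentinels `lo` and `hi`, gives a
zigzag. -/
theorem altW_of_sepT (S T : Finset ℕ) (p : ℕ) (D : Finset ℕ) (lo N : ℕ) (hD : D.card = p)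
    (hDT : D ⊆ T) (hlh : lo < N) (h1 : ∀ d ∈ D, lo < d ∧ d < N)
    (hsep : Sep S (insert lo (insert N D))) :
    ∃ J : ℕ → ℕ, AltW S T N (2 * p + 1) J ∧ zDT (p + 1) J = D ∧ ∀ i < 2 * p + 1, lo < J i := by
  classical
  induction p generalizing D N with
  | zero =>
    have hD0 : D = ∅ := Finset.card_eq_zero.1 hD
    subst hD0
    obtain ⟨s, hs, hs1, hs2⟩ := hsep.lt (Finset.mem_insert_self lo _)
      (Finset.mem_insert_of_mem (Finset.mem_insert_self N _)) hlh
    refine ⟨fun _ => s, ⟨fun i _ => ⟨by show 1 ≤ s; omega, hs2⟩, fun i hi => by omega, fun i _ _ => hs,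
      fun i hi ho => ?_⟩, ?_, fun i _ => hs1⟩
    · obtain ⟨c, hc⟩ := ho
      omega
    · simp [zDT]
  | succ p ih =>
    have hne : D.Nonempty := Finset.card_pos.1 (by omega)
    obtain ⟨a, ha, hmax⟩ : ∃ a ∈ D, ∀ d ∈ D, d ≤ a :=
      ⟨D.max' hne, D.max'_mem hne, fun d hd => D.le_max' d hd⟩
    have hD' : (D.erase a).card = p := by
      rw [Finset.card_erase_of_mem ha, hD]
      omega
    have ha' := h1 a ha
    obtain ⟨s, hs, hs1, hs2⟩ := hsep.lt
      (Finset.mem_insert_of_mem (Finset.mem_insert_of_mem ha))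
      (Finset.mem_insert_of_mem (Finset.mem_insert_self N _)) ha'.2
    obtain ⟨J', ⟨g1, g2, g3, g4⟩, g5, g6⟩ := ih (D.erase a) a hD'
      (fun x hx => hDT (Finset.mem_of_mem_erase hx)) ha'.1 (fun d hd => ⟨(h1 d
        (Finset.mem_of_mem_erase hd)).1, lt_of_le_of_ne (hmax d (Finset.mem_of_mem_erase hd))
          (Finset.ne_of_mem_erase hd)⟩)
      (hsep.subset (by
        intro x hx
        rcases Finset.mem_insert.1 hx with rfl | hx
        · exact Finset.mem_insert_self _ _
        · rcases Finset.mem_insert.1 hx with rfl | hx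
          · exact Finset.mem_insert_of_mem (Finset.mem_insert_of_mem ha)
          · exact Finset.mem_insert_of_mem (Finset.mem_insert_of_mem
              (Finset.mem_of_mem_erase hx))))
    refine ⟨fun i => Nat.casesOn i s (fun i => Nat.casesOn i a J'), ⟨?_, ?_, ?_, ?_⟩, ?_, ?_⟩
    · intro i hi
      match i, hi with
      | 0, _ => exact ⟨by show 1 ≤ s; omega, hs2⟩
      | 1, _ => exact ⟨by show 1 ≤ a; omega, ha'.2⟩
      | i + 2, hi =>
        have := g1 i (by omega)
        exact ⟨this.1, by show J' i < N; omega⟩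
    · intro i hi
      match i, hi with
      | 0, _ => exact hs1
      | 1, _ => exact (g1 0 (by omega)).2
      | i + 2, hi => exact g2 i (by omega)
    · intro i hi he
      match i, hi, he with
      | 0, _, _ => exact hs
      | 1, _, he => exact absurd he (by decide)
      | i + 2, hi, he => exact g3 i (by omega) (by
          obtain ⟨c, hc⟩ := he
          exact ⟨c - 1, by omega⟩)
    · intro i hi ho
      match i, hi, ho with
      | 0, _, ho => exact absurd ho (by decide)
      | 1, _, _ => exact hDT ha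
      | i + 2, hi, ho => exact g4 i (by omega) (by
          obtain ⟨c, hc⟩ := ho
          exact ⟨c - 1, by omega⟩)
    · ext x
      rw [mem_zDT]
      constructor
      · rintro ⟨i, hi, rfl⟩
        rcases Nat.eq_zero_or_pos i with rfl | hi0
        · exact ha
        · obtain ⟨j, rfl⟩ : ∃ j, i = j + 1 := ⟨i - 1, by omega⟩
          have : J' (2 * j + 1) ∈ zDT (p + 1) J' := mem_zDT.2 ⟨j, by omega, rfl⟩
          rw [g5] at this
          exact Finset.mem_of_mem_erase this
      · intro hx
        by_cases hxa : x = a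
        · exact ⟨0, by omega, hxa.symm⟩
        · have : x ∈ zDT (p + 1) J' := by
            rw [g5]
            exact Finset.mem_erase.2 ⟨hxa, hx⟩
          obtain ⟨i, hi, hi'⟩ := mem_zDT.1 this
          exact ⟨i + 1, by omega, hi'⟩
    · intro i hi
      match i, hi with
      | 0, _ => show lo < s; omega
      | 1, _ => exact ha'.1
      | i + 2, hi => exact g6 i (by omega)

/-- The doubled labels of a zigzag are separated. -/
theorem AltW.sepS {S T : Finset ℕ} {N q : ℕ} {J : ℕ → ℕ} (hJ : AltW S T N (2 * q - 1) J) :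
    Sep T (zDS q J) := by
  intro x hx y hy hxy
  obtain ⟨i, hi, rfl⟩ := mem_zDS.1 hx
  obtain ⟨j, hj, rfl⟩ := mem_zDS.1 hy
  rcases lt_trichotomy i j with h | h | h
  · exact ⟨J (2 * i + 1), hJ.2.2.2 _ (by omega) ⟨i, rfl⟩,
      Or.inr ⟨hJ.anti (by omega) (by omega), hJ.anti (by omega) (by omega)⟩⟩
  · exact absurd (by rw [h]) hxy
  · exact ⟨J (2 * j + 1), hJ.2.2.2 _ (by omega) ⟨j, rfl⟩,
      Or.inl ⟨hJ.anti (by omega) (by omega), hJ.anti (by omega) (by omega)⟩⟩

theorem AltW.sepT {S T : Finset ℕ} {N q : ℕ} (hq : 1 ≤ q) {J : ℕ → ℕ}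
    (hJ : AltW S T N (2 * q - 1) J) : Sep S (insert 0 (insert N (zDT q J))) := by
  have hS : ∀ i < q, J (2 * i) ∈ S := fun i hi => hJ.2.2.1 _ (by omega) ⟨i, by ring⟩
  have key : ∀ x ∈ insert 0 (insert N (zDT q J)), ∀ y ∈ insert 0 (insert N (zDT q J)), x < y →
      ∃ a ∈ S, x < a ∧ a < y := by
    intro x hx y hy hxy
    have b0 := hJ.1 0 (by omega)
    have bl := hJ.1 (2 * (q - 1)) (by omega)
    simp only [Finset.mem_insert] at hx hy
    rcases hx with rfl | rfl | hx
    · rcases hy with rfl | rfl | hy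
      · omega
      · exact ⟨J 0, hS 0 (by omega), by omega, b0.2⟩
      · obtain ⟨j, hj, rfl⟩ := mem_zDT.1 hy
        exact ⟨J (2 * (q - 1)), hS _ (by omega), by omega, hJ.anti (by omega) (by omega)⟩
    · rcases hy with rfl | rfl | hy
      · omega
      · omega
      · obtain ⟨j, hj, rfl⟩ := mem_zDT.1 hy
        have := hJ.1 (2 * j + 1) (by omega)
        omega
    · obtain ⟨i, hi, rfl⟩ := mem_zDT.1 hx
      rcases hy with rfl | rfl | hy
      · omega
      · exact ⟨J (2 * i), hS i (by omega), hJ.anti (by omega) (by omega),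
          (hJ.1 (2 * i) (by omega)).2⟩
      · obtain ⟨j, hj, rfl⟩ := mem_zDT.1 hy
        have hji : j < i := by
          by_contra hcon
          rcases Nat.lt_or_ge i j with h | h
          · have := hJ.anti (i := 2 * i + 1) (j := 2 * j + 1) (by omega) (by omega)
            omega
          · have : i = j := by omega
            subst this
            omega
        exact ⟨J (2 * i), hS i (by omega), hJ.anti (by omega) (by omega),
          hJ.anti (by omega) (by omega)⟩
  intro x hx y hy hxy
  rcases Nat.lt_or_gt_of_ne hxy with h | h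
  · obtain ⟨a, ha, h1⟩ := key x hx y hy h
    exact ⟨a, ha, Or.inl h1⟩
  · obtain ⟨a, ha, h1⟩ := key y hy x hx h
    exact ⟨a, ha, Or.inr h1⟩

end Pool.Agent.P45
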