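import Pool.Agent.Lib.P45dba8.SmallCov
import Pool.Agent.Lib.P45dba8.SmallTm

/-! # MP_45dba8, small odd `k`: from the cover by templates to the layers -/

set_option autoImplicit false

namespace Pool.Agent.P45.Sm

/-- the label of `v j` -/
def vlab (n v j : ℕ) : ℕ := bif Nat.ble (Nat.mul 2 (Nat.mod (Nat.mul v j) n)) n then
  Nat.mod (Nat.mul v j) n else Nat.sub n (Nat.mod (Nat.mul v j) n)

/-- the digit of the label of `v j`; nothing for the label `m + 1` -/
def wgt (n m v j : ℕ) : ℕ := bif Nat.beq (vlab n v j) (Nat.succ m) then 0 else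
  Nat.shiftLeft 1 (Nat.mul 2 (Nat.sub m (vlab n v j)))

/-- the digits of the labels of a list -/
noncomputable def wm (n m v : ℕ) (L : List ℕ) : ℕ :=
  List.rec (motive := fun _ => ℕ) 0 (fun j _ ih => Nat.lor (wgt n m v j) ih) L

/-- the label `m + 1` occurs -/
noncomputable def anyTop (n m v : ℕ) (L : List ℕ) : Bool :=
  List.rec (motive := fun _ => Bool) false
    (fun j _ ih => bif Nat.beq (vlab n v j) (Nat.succ m) then true else ih) L

/-- the cube: labels of `A` inside, labels of `B` outside (none if the label `m + 1` is in `A`) -/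
noncomputable def code (n m v : ℕ) (A B l : List ℕ) : List ℕ :=
  bif anyTop n m v A then l
  else Nat.lor (wm n m v A) (Nat.shiftLeft (wm n m v B) 1) :: l

/-- all cubes -/
noncomputable def codes (n m k : ℕ) (us : List ℕ) (tms : List Tm) : List ℕ :=
  List.rec (motive := fun _ => List ℕ) [] (fun t _ ih =>
    List.rec (motive := fun _ => List ℕ) ih (fun v _ ih' =>
      code n m v t.SL (t.TL k) (code n m v (t.TL k) t.SL ih')) us) tms

theorem anyTop_iff {n m v : ℕ} (L : List ℕ) :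
    anyTop n m v L = true ↔ ∃ j ∈ L, vlab n v j = m + 1 := by
  induction L with
  | nil =>
    constructor
    · intro h
      have h' : false = true := h
      exact absurd h' (by decide)
    · rintro ⟨j, hj, -⟩
      exact absurd hj List.not_mem_nil
  | cons a L ih =>
    have e : anyTop n m v (a :: L) = bif Nat.beq (vlab n v a) (Nat.succ m) then true
      else anyTop n m v L := rfl
    rw [e]
    by_cases h : vlab n v a = m + 1
    · have h' : Nat.beq (vlab n v a) (Nat.succ m) = true := by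
        rw [Nat.beq_eq]
        exact h
      rw [h', cond_true]
      exact ⟨fun _ => ⟨a, List.mem_cons_self, h⟩, fun _ => rfl⟩
    · have h' : Nat.beq (vlab n v a) (Nat.succ m) = false := by
        rw [← Bool.not_eq_true, Nat.beq_eq]
        exact h
      rw [h', cond_false, ih]
      constructor
      · rintro ⟨j, hj, hj'⟩
        exact ⟨j, List.mem_cons_of_mem _ hj, hj'⟩
      · rintro ⟨j, hj, hj'⟩
        rcases List.mem_cons.1 hj with rfl | hj
        · exact absurd hj' h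
        · exact ⟨j, hj, hj'⟩

/-- `T` is the code of `A`, `B` -/
def IsCode (n m v : ℕ) (A B : List ℕ) (T : ℕ) : Prop :=
  (¬ ∃ j ∈ A, vlab n v j = m + 1) ∧ T = Nat.lor (wm n m v A) (Nat.shiftLeft (wm n m v B) 1)

theorem mem_code' {n m v : ℕ} {A B l : List ℕ} {T : ℕ} (h : T ∈ code n m v A B l) :
    IsCode n m v A B T ∨ T ∈ l := by
  unfold code at h
  by_cases hA : anyTop n m v A = true
  · rw [hA, cond_true] at h
    exact Or.inr h
  · rw [Bool.not_eq_true] at hA
    rw [hA, cond_false] at h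
    rcases List.mem_cons.1 h with h | h
    · left
      refine ⟨fun h' => ?_, h⟩
      rw [(anyTop_iff A).2 h'] at hA
      exact absurd hA (by decide)
    · exact Or.inr h

theorem mem_codes {n m k : ℕ} {us : List ℕ} {tms : List Tm} {T : ℕ}
    (h : T ∈ codes n m k us tms) : ∃ t ∈ tms, ∃ v ∈ us,
      IsCode n m v t.SL (t.TL k) T ∨ IsCode n m v (t.TL k) t.SL T := by
  induction tms with
  | nil =>
    have h' : T ∈ ([] : List ℕ) := h
    exact absurd h' List.not_mem_nil
  | cons t tms ih =>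
    have key : ∀ vs : List ℕ, T ∈ (List.rec (motive := fun _ => List ℕ) (codes n m k us tms)
        (fun v _ ih' => code n m v t.SL (t.TL k) (code n m v (t.TL k) t.SL ih')) vs : List ℕ) →
        (∃ v ∈ vs, IsCode n m v t.SL (t.TL k) T ∨ IsCode n m v (t.TL k) t.SL T) ∨
          T ∈ codes n m k us tms := by
      intro vs
      induction vs with
      | nil => exact fun h => Or.inr h
      | cons v vs ihv =>
        intro h
        rcases mem_code' h with h | h
        · exact Or.inl ⟨v, List.mem_cons_self, Or.inl h⟩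
        rcases mem_code' h with h | h
        · exact Or.inl ⟨v, List.mem_cons_self, Or.inr h⟩
        rcases ihv h with ⟨v', hv', h⟩ | h
        · exact Or.inl ⟨v', List.mem_cons_of_mem _ hv', h⟩
        · exact Or.inr h
    rcases key us h with ⟨v, hv, h⟩ | h
    · exact ⟨t, List.mem_cons_self, v, hv, h⟩
    · obtain ⟨t', ht', h'⟩ := ih h
      exact ⟨t', List.mem_cons_of_mem _ ht', h'⟩

theorem testBit_wm {n m v : ℕ} {L : List ℕ} {j : ℕ} (hj : j ∈ L) (hm : vlab n v j ≤ m) :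
    (wm n m v L).testBit (2 * (m - vlab n v j)) = true := by
  induction L with
  | nil => exact absurd hj List.not_mem_nil
  | cons a L ih =>
    show (wgt n m v a ||| wm n m v L).testBit _ = true
    rw [Nat.testBit_or, Bool.or_eq_true]
    rcases List.mem_cons.1 hj with rfl | hj
    · left
      have h : Nat.beq (vlab n v j) (Nat.succ m) = false := by
        rw [← Bool.not_eq_true, Nat.beq_eq]
        omega
      unfold wgt
      rw [h, cond_false]
      show (1 <<< (2 * (m - vlab n v j))).testBit _ = true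
      rw [Nat.one_shiftLeft, Nat.testBit_two_pow]
      exact decide_eq_true rfl
    · exact Or.inr (ih hj)

theorem wm_odd {n m v : ℕ} (L : List ℕ) (i : ℕ) : (wm n m v L).testBit (2 * i + 1) = false := by
  induction L with
  | nil =>
    show (0 : ℕ).testBit _ = false
    exact Nat.zero_testBit _
  | cons a L ih =>
    show (wgt n m v a ||| wm n m v L).testBit _ = false
    rw [Nat.testBit_or, ih, Bool.or_false]
    unfold wgt
    cases Nat.beq (vlab n v a) (Nat.succ m)
    · show (1 <<< (2 * (m - vlab n v a))).testBit _ = false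
      rw [Nat.one_shiftLeft, Nat.testBit_two_pow]
      exact decide_eq_false (by omega)
    · exact Nat.zero_testBit _

theorem mem_code {n m v : ℕ} {A B : List ℕ} {T c : ℕ} (hT : IsCode n m v A B T) (hs : Sat m T c)
    (h1 : ∀ j ∈ A, 1 ≤ vlab n v j ∧ vlab n v j ≤ m + 1)
    (h2 : ∀ j ∈ B, 1 ≤ vlab n v j ∧ vlab n v j ≤ m + 1) :
    (∀ j ∈ A, vlab n v j ≤ m ∧ c.testBit (vlab n v j - 1) = true) ∧
      ∀ j ∈ B, vlab n v j ≤ m → c.testBit (vlab n v j - 1) = false := by
  obtain ⟨hA, hT⟩ := hT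
  have hT' : T = wm n m v A ||| (wm n m v B) <<< 1 := hT
  constructor
  · intro j hj
    have hne : vlab n v j ≠ m + 1 := fun h => hA ⟨j, hj, h⟩
    have h3 := h1 j hj
    have hle : vlab n v j ≤ m := by omega
    refine ⟨hle, (hs (vlab n v j - 1) (by omega)).1 ?_⟩
    rw [show m - 1 - (vlab n v j - 1) = m - vlab n v j by omega, hT', Nat.testBit_or,
      testBit_wm hj hle, Bool.true_or]
  · intro j hj hle
    have h3 := h2 j hj
    refine (hs (vlab n v j - 1) (by omega)).2 ?_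
    rw [show m - 1 - (vlab n v j - 1) = m - vlab n v j by omega, hT', Nat.testBit_or,
      Nat.testBit_shiftLeft]
    rw [show 2 * (m - vlab n v j) + 1 - 1 = 2 * (m - vlab n v j) by omega, testBit_wm hj hle]
    simp

theorem vlab_spec {k v j : ℕ} (hv : Nat.Coprime v (4 * k + 1)) (h1 : 1 ≤ j) (h2 : j ≤ 2 * k) :
    (1 ≤ vlab (4 * k + 1) v j ∧ vlab (4 * k + 1) v j ≤ 2 * k) ∧
      ((v : ZMod (4 * k + 1)) * (j : ZMod (4 * k + 1)) = (vlab (4 * k + 1) v j : ℕ) ∨
        (v : ZMod (4 * k + 1)) * (j : ZMod (4 * k + 1)) = -((vlab (4 * k + 1) v j : ℕ) :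
          ZMod (4 * k + 1))) := by
  have hx : (v * j) % (4 * k + 1) ≠ 0 := by
    intro h
    have h3 : 4 * k + 1 ∣ v * j := Nat.dvd_of_mod_eq_zero h
    have h4 : 4 * k + 1 ∣ j := (Nat.Coprime.symm hv).dvd_of_dvd_mul_left h3
    have := Nat.le_of_dvd (by omega) h4
    omega
  have hlt := Nat.mod_lt (v * j) (show 0 < 4 * k + 1 by omega)
  have hc : (((v * j) % (4 * k + 1) : ℕ) : ZMod (4 * k + 1)) =
      (v : ZMod (4 * k + 1)) * (j : ZMod (4 * k + 1)) := by
    rw [ZMod.natCast_mod, Nat.cast_mul]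
  by_cases h : 2 * ((v * j) % (4 * k + 1)) ≤ 4 * k + 1
  · have e : vlab (4 * k + 1) v j = (v * j) % (4 * k + 1) := by
      have h' : Nat.ble (Nat.mul 2 (Nat.mod (Nat.mul v j) (4 * k + 1))) (4 * k + 1) = true := by
        rw [Nat.ble_eq]
        exact h
      unfold vlab
      rw [h', cond_true]
      rfl
    rw [e]
    exact ⟨⟨by omega, by omega⟩, Or.inl hc.symm⟩
  · have e : vlab (4 * k + 1) v j = (4 * k + 1) - (v * j) % (4 * k + 1) := by
      have h' : Nat.ble (Nat.mul 2 (Nat.mod (Nat.mul v j) (4 * k + 1))) (4 * k + 1) = false := by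
        rw [← Bool.not_eq_true, Nat.ble_eq]
        exact h
      unfold vlab
      rw [h', cond_false]
      rfl
    rw [e]
    refine ⟨⟨by omega, by omega⟩, Or.inr ?_⟩
    rw [Nat.cast_sub hlt.le, hc, ZMod.natCast_self]
    ring

variable {k : ℕ}

theorem mem_LW_vlab (S : Finset ℕ) {v j : ℕ} (hv : Nat.Coprime v (4 * k + 1)) (h1 : 1 ≤ j)
    (h2 : j ≤ 2 * k) : j ∈ LW k S (v : ZMod (4 * k + 1)) ↔ vlab (4 * k + 1) v j ∈ LW k S 1 := by
  obtain ⟨h3, h4⟩ := vlab_spec hv h1 h2
  rw [mem_LW, mem_LW, and_iff_right ⟨h1, h2⟩, and_iff_right h3, one_mul]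
  have e : (v : ZMod (4 * k + 1)) * (2 * (j : ZMod (4 * k + 1))) =
      2 * ((v : ZMod (4 * k + 1)) * (j : ZMod (4 * k + 1))) := by ring
  rw [e]
  rcases h4 with h4 | h4
  · rw [h4]
  · rw [h4, mul_neg]
    constructor
    · intro h
      have := dset_neg k S _ h
      rwa [neg_neg] at this
    · exact dset_neg k S _

/-- THE SMALL CASES: all words from the two finite checks. -/
theorem small_layers (h3 : 3 ∣ 4 * k + 1) (hk5 : 5 ≤ k) (hR : Rule k) (us : List ℕ)
    (hu : ∀ v ∈ us, Nat.Coprime v (4 * k + 1)) (tms : List Tm) (ht : ∀ t ∈ tms, t.ok k = true)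
    (hcov : Nat.beq (Nat.land ((row (2 * k - 1)).getD k 0)
      (covN (2 * k - 1) (codes (4 * k + 1) (2 * k - 1) k us tms)))
      ((row (2 * k - 1)).getD k 0) = true)
    (hrg : ∀ t ∈ tms, ∀ j ∈ t.SL ++ t.TL k, 1 ≤ j ∧ j ≤ 2 * k)
    (S : Finset ℕ) (hS : S ⊆ Finset.Icc 1 (2 * k)) (hc : S.card = k) :
    ∃ (v v' : ZMod (4 * k + 1)) (A : Finset (ZMod (4 * k + 1))), v * v' = 1 ∧ A.card = 2 * k ∧
      EG (LSet k (LW k S v)) A ∧ EG (LSet k (LW k (Finset.Icc 1 (2 * k) \ S) v)) A := by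
  classical
  have hL1 : LW k S 1 ⊆ Finset.Icc 1 (2 * k) := LW_subset S 1
  have hLc : (LW k S 1).card = k := by
    rw [LW_card (by omega) S hS 1 isUnit_one, hc]
  obtain ⟨P, hP⟩ : ∃ P, P = if 2 * k ∈ LW k S 1 then Finset.Icc 1 (2 * k) \ LW k S 1
      else LW k S 1 := ⟨_, rfl⟩
  have hPc : P.card = k := by
    rw [hP]
    split_ifs
    · rw [Finset.card_sdiff_of_subset hL1, Nat.card_Icc, hLc]
      omega
    · exact hLc
  have hPs : ∀ j ∈ P, 1 ≤ j ∧ j ≤ 2 * k - 1 := by
    intro j hj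
    rw [hP] at hj
    split_ifs at hj with h
    · obtain ⟨g1, g2⟩ := Finset.mem_sdiff.1 hj
      have g3 := Finset.mem_Icc.1 g1
      have : j ≠ 2 * k := by
        rintro rfl
        exact g2 h
      omega
    · have g3 := Finset.mem_Icc.1 (hL1 hj)
      have : j ≠ 2 * k := by
        rintro rfl
        exact h hj
      omega
  obtain ⟨c, hcdef⟩ : ∃ c, c = Nat.ofBits (fun i : Fin (2 * k - 1) => decide (i.1 + 1 ∈ P)) :=
    ⟨_, rfl⟩
  have hcb : ∀ i < 2 * k - 1, (c.testBit i = true ↔ i + 1 ∈ P) := by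
    intro i hi
    rw [hcdef, Nat.testBit_ofBits_lt _ _ hi, decide_eq_true_eq]
  have hc2 : c < 2 ^ (2 * k - 1) := by
    rw [hcdef]
    exact Nat.ofBits_lt_two_pow _
  obtain ⟨T, hT, hsat⟩ := exists_cube hcov c hc2 (by
    refine Eq.trans ?_ hPc
    rw [← Finset.card_image_of_injective _ (Nat.succ_injective)]
    congr 1
    ext j
    rw [Finset.mem_image]
    constructor
    · rintro ⟨i, hi, rfl⟩
      obtain ⟨g1, g2⟩ := Finset.mem_filter.1 hi
      exact (hcb i (Finset.mem_range.1 g1)).1 g2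
    · intro hj
      have g := hPs j hj
      refine ⟨j - 1, Finset.mem_filter.2 ⟨Finset.mem_range.2 (by omega), ?_⟩, ?_⟩
      · rw [hcb (j - 1) (by omega), Nat.sub_add_cancel g.1]
        exact hj
      · show j - 1 + 1 = j
        omega)
  obtain ⟨t, htm, v, hvm, hT⟩ := mem_codes hT
  have hv := hu v hvm
  have hr := hrg t htm
  have hrS : ∀ j ∈ t.SL, 1 ≤ j ∧ j ≤ 2 * k := fun j hj => hr j (List.mem_append_left _ hj)
  have hrT : ∀ j ∈ t.TL k, 1 ≤ j ∧ j ≤ 2 * k := fun j hj => hr j (List.mem_append_right _ hj)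
  have hunit : IsUnit (v : ZMod (4 * k + 1)) := (ZMod.isUnit_iff_coprime v _).2 hv
  obtain ⟨v', hv'⟩ := hunit.exists_right_inv
  have hX : ∀ j, 1 ≤ j → j ≤ 2 * k → (j ∈ LW k S (v : ZMod (4 * k + 1)) ↔
      vlab (4 * k + 1) v j ∈ LW k S 1) := fun j g1 g2 => mem_LW_vlab S hv g1 g2
  have hY : ∀ j, j ∈ LW k (Finset.Icc 1 (2 * k) \ S) (v : ZMod (4 * k + 1)) ↔
      j ∈ Finset.Icc 1 (2 * k) \ LW k S (v : ZMod (4 * k + 1)) := by
    intro j
    rw [LW_compl S hS _ hunit]
  -- the two lists of labels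
  have key : ∃ A B : List ℕ, ((A = t.SL ∧ B = t.TL k) ∨ (A = t.TL k ∧ B = t.SL)) ∧
      (∀ j ∈ A, vlab (4 * k + 1) v j ∈ P) ∧ ∀ j ∈ B, vlab (4 * k + 1) v j ∉ P := by
    have fin : ∀ A B : List ℕ, IsCode (4 * k + 1) (2 * k - 1) v A B T →
        (∀ j ∈ A, 1 ≤ j ∧ j ≤ 2 * k) → (∀ j ∈ B, 1 ≤ j ∧ j ≤ 2 * k) →
        (∀ j ∈ A, vlab (4 * k + 1) v j ∈ P) ∧ ∀ j ∈ B, vlab (4 * k + 1) v j ∉ P := by
      intro A B hc gA gB
      obtain ⟨h4, h5⟩ := mem_code hc hsat
        (fun j hj => by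
          have := (vlab_spec hv (gA j hj).1 (gA j hj).2).1
          omega)
        (fun j hj => by
          have := (vlab_spec hv (gB j hj).1 (gB j hj).2).1
          omega)
      constructor
      · intro j hj
        obtain ⟨h6, h7⟩ := h4 j hj
        have h8 := (vlab_spec hv (gA j hj).1 (gA j hj).2).1
        have h9 := (hcb _ (by omega)).1 h7
        rwa [Nat.sub_add_cancel h8.1] at h9
      · intro j hj hin
        have h8 := hPs _ hin
        have h7 := h5 j hj h8.2
        have h9 := (hcb (vlab (4 * k + 1) v j - 1) (by omega)).2 (by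
          rw [Nat.sub_add_cancel h8.1]
          exact hin)
        rw [h7] at h9
        exact absurd h9 (by simp)
    rcases hT with hT | hT
    · exact ⟨_, _, Or.inl ⟨rfl, rfl⟩, fin _ _ hT hrS hrT⟩
    · exact ⟨_, _, Or.inr ⟨rfl, rfl⟩, fin _ _ hT hrT hrS⟩
  obtain ⟨A, B, hAB, hA, hB⟩ := key
  have rgA : ∀ j ∈ A, 1 ≤ j ∧ j ≤ 2 * k := by
    rcases hAB with ⟨rfl, rfl⟩ | ⟨rfl, rfl⟩
    · exact hrS
    · exact hrT
  have rgB : ∀ j ∈ B, 1 ≤ j ∧ j ≤ 2 * k := by
    rcases hAB with ⟨rfl, rfl⟩ | ⟨rfl, rfl⟩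
    · exact hrT
    · exact hrS
  obtain ⟨X, hXdef⟩ : ∃ X, X = LW k S (v : ZMod (4 * k + 1)) := ⟨_, rfl⟩
  obtain ⟨Y, hYdef⟩ : ∃ Y, Y = LW k (Finset.Icc 1 (2 * k) \ S) (v : ZMod (4 * k + 1)) := ⟨_, rfl⟩
  have hXY : ((∀ j ∈ A, j ∈ X) ∧ ∀ j ∈ B, j ∈ Y) ∨ ((∀ j ∈ A, j ∈ Y) ∧ ∀ j ∈ B, j ∈ X) := by
    by_cases h2 : 2 * k ∈ LW k S 1
    · rw [if_pos h2] at hP
      right
      constructor
      · intro j hj
        have g := hA j hj
        rw [hP, Finset.mem_sdiff] at g
        rw [hYdef, hY, Finset.mem_sdiff, Finset.mem_Icc, hX j (rgA j hj).1 (rgA j hj).2]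
        exact ⟨rgA j hj, g.2⟩
      · intro j hj
        have g := hB j hj
        rw [hP, Finset.mem_sdiff, Finset.mem_Icc, not_and, not_not] at g
        rw [hXdef, hX j (rgB j hj).1 (rgB j hj).2]
        exact g (vlab_spec hv (rgB j hj).1 (rgB j hj).2).1
    · rw [if_neg h2] at hP
      left
      constructor
      · intro j hj
        have g := hA j hj
        rw [hP] at g
        rw [hXdef, hX j (rgA j hj).1 (rgA j hj).2]
        exact g
      · intro j hj
        have g := hB j hj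
        rw [hP] at g
        rw [hYdef, hY, Finset.mem_sdiff, Finset.mem_Icc, hX j (rgB j hj).1 (rgB j hj).2]
        exact ⟨rgB j hj, g⟩
  have hXs : X ⊆ Finset.Icc 1 (2 * k) := by rw [hXdef]; exact LW_subset _ _
  have hYs : Y ⊆ Finset.Icc 1 (2 * k) := by rw [hYdef]; exact LW_subset _ _
  have hXc : X.card = k := by
    rw [hXdef, LW_card (by omega) S hS _ hunit, hc]
  have hYc : Y.card = k := by
    rw [hYdef, LW_compl S hS _ hunit, Finset.card_sdiff_of_subset (LW_subset _ _), Nat.card_Icc,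
      LW_card (by omega) S hS _ hunit, hc]
    omega
  have hd : Disjoint X Y := by
    rw [hXdef, hYdef, LW_compl S hS _ hunit]
    exact Finset.disjoint_sdiff
  have htok := ht t htm
  have fin : ∃ A : Finset (ZMod (4 * k + 1)), A.card = 2 * k ∧ EG (LSet k X) A ∧
      EG (LSet k Y) A := by
    have f1 : ((∀ j ∈ t.SL, j ∈ X) ∧ ∀ j ∈ t.TL k, j ∈ Y) ∨
        ((∀ j ∈ t.SL, j ∈ Y) ∧ ∀ j ∈ t.TL k, j ∈ X) := by
      rcases hAB with ⟨rfl, rfl⟩ | ⟨rfl, rfl⟩
      · exact hXY
      · rcases hXY with h | h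
        · exact Or.inr ⟨h.2, h.1⟩
        · exact Or.inl ⟨h.2, h.1⟩
    rcases f1 with ⟨g1, g2⟩ | ⟨g1, g2⟩
    · exact Tm.sound h3 hk5 hR t htok X Y hXs hYs hd hXc hYc g1 g2
    · obtain ⟨A, e1, e2, e3⟩ := Tm.sound h3 hk5 hR t htok Y X hYs hXs hd.symm hYc hXc g1 g2
      exact ⟨A, e1, e3, e2⟩
  obtain ⟨A', e1, e2, e3⟩ := fin
  exact ⟨v, v', A', hv', e1, by rw [← hXdef]; exact e2, by rw [← hYdef]; exact e3⟩

end Pool.Agent.P45.Sm
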