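import Pool.Agent.Lib.P45dba8.SmallData21
import Pool.Agent.Lib.P45dba8.SmallMain
import Pool.Agent.Lib.P45dba8.SmallRules

/-! # MP_45dba8: `n = 21` -/

set_option autoImplicit false

namespace Pool.Agent.P45.Sm

theorem ok21 : ∀ t ∈ tms21, t.ok 5 = true := by decide +kernel

theorem range21 : ∀ t ∈ tms21, ∀ j ∈ t.SL ++ t.TL 5, 1 ≤ j ∧ j ≤ 2 * 5 := by decide +kernel

theorem cov21 : Nat.beq (Nat.land ((row (2 * 5 - 1)).getD 5 0)
    (covN (2 * 5 - 1) (codes (4 * 5 + 1) (2 * 5 - 1) 5 [1, 2, 4, 5, 8, 10] tms21)))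
    ((row (2 * 5 - 1)).getD 5 0) = true := by decide +kernel

/-- The layers for `n = 21`. -/
theorem layers21 (S : Finset ℕ) (hS : S ⊆ Finset.Icc 1 (2 * 5)) (hc : S.card = 5) :
    ∃ (v v' : ZMod (4 * 5 + 1)) (A : Finset (ZMod (4 * 5 + 1))), v * v' = 1 ∧ A.card = 2 * 5 ∧
      EG (LSet 5 (LW 5 S v)) A ∧ EG (LSet 5 (LW 5 (Finset.Icc 1 (2 * 5) \ S) v)) A :=
  small_layers (by norm_num) le_rfl rule5 [1, 2, 4, 5, 8, 10] (by decide) tms21 ok21 cov21 range21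
    S hS hc

end Pool.Agent.P45.Sm
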