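import Pool.Agent.Lib.P45dba8.SmallTm

/-! # MP_45dba8: the templates for `n = 21` -/

set_option autoImplicit false

namespace Pool.Agent.P45.Sm

def tms21_0 : List Tm := [
  ⟨8, 4, 2, 0, 1, 20, 9, [(5, 0), (3, 2)], [(4, 2)]⟩,
  ⟨1, 4, 2, 0, 8, 6, 9, [(5, 0), (3, 2)], [(4, 2)]⟩,
  ⟨2, 19, 1, 0, 9, 1, 15, [(8, 0), (4, 6)], [(5, 6)]⟩,
  ⟨4, 16, 8, 0, 1, 1, 9, [(5, 0), (2, 4)], [(3, 4)]⟩,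
  ⟨4, 9, 6, 9, 8, 1, 15, [(9, 0), (5, 4)], [(7, 4)]⟩,
  ⟨8, 10, 5, 0, 2, 1, 15, [(9, 0), (1, 12)], [(3, 12)]⟩,
  ⟨2, 2, 1, 0, 8, 6, 11, [(6, 0), (3, 4)], [(4, 4)]⟩,
  ⟨8, 19, 7, 0, 9, 1, 9, [(6, 0), (1, 6)], [(3, 6)]⟩]

/-- the templates for `n = 21` -/
def tms21 : List Tm := tms21_0

end Pool.Agent.P45.Sm
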