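import Pool.Agent.Lib.P45dba8.SmallEven2

/-! # MP_45dba8: `n = 33` -/

set_option autoImplicit false

namespace Pool.Agent.P45

theorem cover33 : ∀ S ∈ Finset.powersetCard 8 ({1, 2, 4, 5, 7, 8, 10, 11, 13, 14} : Finset ℕ),
    ({13, 10, 7, 4} : Finset ℕ) ⊆ S ∨ ({14, 11, 8, 1} : Finset ℕ) ⊆ S ∨
    ({13, 11, 5, 2} : Finset ℕ) ⊆ S ∨ ({14, 10, 5, 2} : Finset ℕ) ⊆ S ∨
    ({13, 7, 4, 1} : Finset ℕ) ⊆ S ∨ ({10, 7, 4, 1} : Finset ℕ) ⊆ S := by
  decide +kernel

theorem lay8 : LayOK 8 := by
  classical
  have h33 : (4 * 8 + 1 : ℕ) = 3 * 11 := by norm_num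
  have hH : HostOK 8 3 := (threep_host (p := 11) (by norm_num) (by norm_num) h33).mono (by norm_num)
  have hF : FreeOK 8 3 := (threep_free (p := 11) (by norm_num) (by norm_num) h33).mono (by norm_num)
  refine lay_of_words 8 7 (by norm_num) ?_ ?_
  · intro S hS hc
    obtain ⟨v, hv, h⟩ := bd_of_moebius 8 20 (by norm_num) (by norm_num) (by
      intro m hm h1 h2
      rw [h33] at hm
      exact moebius_pq Nat.prime_three (by norm_num : Nat.Prime 11) (by norm_num) hm h1 h2) S hS hc
    exact ⟨v, hv, by omega⟩
  · intro S T hd hU hcS hcT h2k hb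
    have hTs : T ⊆ Finset.Icc 1 (2 * 8) := hU ▸ Finset.subset_union_right
    have hSs : S ⊆ Finset.Icc 1 (2 * 8) := hU ▸ Finset.subset_union_left
    by_cases h3 : 3 ≤ ((T.erase (2 * 8)).filter (fun j => ¬ 3 ∣ j)).card
    · exact even3_all (q := 4) (by norm_num) le_rfl S T hd hU hcS hcT h2k (by norm_num)
        hH hF (threep_unit (p := 11) (by norm_num) (by norm_num) h33) 2 (by norm_num)
        (fun w => threep_cop (p := 11) (by norm_num) (by norm_num) h33 w) h3 hb
    · -- all multiples of 3 lie in `T`
      have e1 := Finset.card_filter_add_card_filter_not (s := T.erase (2 * 8)) (fun j => 3 ∣ j)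
      rw [Finset.card_erase_of_mem h2k, hcT] at e1
      have e2 : (T.erase (2 * 8)).filter (fun j => 3 ∣ j) ⊆
          (Finset.Icc 1 (2 * 8)).filter (fun j => 3 ∣ j) :=
        Finset.filter_subset_filter _ ((Finset.erase_subset _ _).trans hTs)
      have e3 := card_mult 8 3 (by norm_num)
      have e4 : (T.erase (2 * 8)).filter (fun j => 3 ∣ j) =
          (Finset.Icc 1 (2 * 8)).filter (fun j => 3 ∣ j) := by
        refine Finset.eq_of_subset_of_card_le e2 ?_
        rw [e3]
        omega
      have e5 := Finset.card_le_card e2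
      rw [e3] at e5
      have hT3 : ∀ t, 1 ≤ t → t ≤ 16 → 3 ∣ t → t ∈ T := by
        intro t h1 h2 h3
        have : t ∈ (T.erase (2 * 8)).filter (fun j => 3 ∣ j) := by
          rw [e4, Finset.mem_filter, Finset.mem_Icc]
          exact ⟨⟨h1, h2⟩, h3⟩
        exact Finset.mem_of_mem_erase (Finset.mem_filter.1 this).1
      have hSX : S ⊆ ({1, 2, 4, 5, 7, 8, 10, 11, 13, 14} : Finset ℕ) := by
        intro s hs
        have h1 := Finset.mem_Icc.1 (hSs hs)
        have h4 : s ≠ 16 := fun h => Finset.disjoint_left.1 hd hs (h ▸ h2k)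
        have h5 : ¬ 3 ∣ s := fun h => Finset.disjoint_left.1 hd hs (hT3 s h1.1 h1.2 h)
        simp only [Finset.mem_insert, Finset.mem_singleton]
        omega
      have hS0 : (S.filter (fun j => 3 ∣ j)).card ≤ 4 := by
        rw [Finset.card_eq_zero.2]
        · norm_num
        · rw [Finset.filter_eq_empty_iff]
          intro s hs h
          have h1 := Finset.mem_Icc.1 (hSs hs)
          exact Finset.disjoint_left.1 hd hs (hT3 s h1.1 h1.2 h)
      have tm : ∀ x1 t1 x2 t2 x3 t3 x4 : ℕ, x1 < 16 → t1 < x1 → x2 < t1 → t2 < x2 → x3 < t2 →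
          t3 < x3 → x4 < t3 → 1 ≤ x4 → 3 ∣ t1 → 3 ∣ t2 → 3 ∣ t3 →
          ({x1, x2, x3, x4} : Finset ℕ) ⊆ S →
          IsCoprime ((x1 : ℤ) - (t1 - (x2 - (t2 - (x3 - (t3 - (x4 - 0))))))) (4 * (8 : ℕ) + 1 : ℤ) →
          ∃ A : Finset (ZMod (4 * 8 + 1)), A.card = 2 * 8 ∧ EG (LSet 8 S) A ∧ EG (LSet 8 T) A := by
        intro x1 t1 x2 t2 x3 t3 x4 l1 l2 l3 l4 l5 l6 l7 l8 d1 d2 d3 hsub hW
        have m1 : x1 ∈ S := hsub (by simp)
        have m2 : x2 ∈ S := hsub (by simp)
        have m3 : x3 ∈ S := hsub (by simp)
        have m4 : x4 ∈ S := hsub (by simp)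
        obtain ⟨J, hJ⟩ : ∃ J : ℕ → ℕ, J = fun i => match i with
          | 0 => x1 | 1 => t1 | 2 => x2 | 3 => t2 | 4 => x3 | 5 => t3 | 6 => x4 | _ => 0 :=
          ⟨_, rfl⟩
        have hJ' : AltW S T (2 * 8) (8 - 1) J := by
          refine ⟨?_, ?_, ?_, ?_⟩
          · intro i hi
            rw [hJ]
            interval_cases i <;> simp only <;> omega
          · intro i hi
            rw [hJ]
            have : i < 6 := by omega
            interval_cases i <;> simp only <;> omega
          · intro i hi he
            rw [hJ]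
            interval_cases i <;> first | exact m1 | exact m2 | exact m3 | exact m4 | skip
            all_goals exact absurd he (by decide)
          · intro i hi ho
            rw [hJ]
            interval_cases i
            · exact absurd ho (by decide)
            · exact hT3 t1 (by omega) (by omega) d1
            · exact absurd ho (by decide)
            · exact hT3 t2 (by omega) (by omega) d2
            · exact absurd ho (by decide)
            · exact hT3 t3 (by omega) (by omega) d3
            · exact absurd ho (by decide)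
        refine even3_top (q := 4) (by norm_num) le_rfl S T hd hU hcS hcT h2k (by norm_num)
          hH hF J hJ' hS0 ?_ (by omega) ?_
        · intro d hd'
          obtain ⟨i, hi, rfl⟩ := mem_zDT.1 hd'
          rw [hJ]
          interval_cases i
          · exact d1
          · exact d2
          · exact d3
        · have : zz (fun i => (J i : ℤ)) (8 - 1) =
              (x1 : ℤ) - (t1 - (x2 - (t2 - (x3 - (t3 - (x4 - 0)))))) := by
            rw [hJ]
            rfl
          rw [this]
          exact hW
      have cop : ∀ x : ℤ, x = 7 ∨ x = 10 ∨ x = 4 → IsCoprime x (4 * (8 : ℕ) + 1 : ℤ) := by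
        rintro x (rfl | rfl | rfl)
        · exact ⟨-14, 3, by norm_num⟩
        · exact ⟨10, -3, by norm_num⟩
        · exact ⟨-8, 1, by norm_num⟩
      rcases cover33 S (Finset.mem_powersetCard.2 ⟨hSX, hcS⟩) with h | h | h | h | h | h
      · exact tm 13 12 10 9 7 6 4 (by norm_num) (by norm_num) (by norm_num) (by norm_num)
          (by norm_num) (by norm_num) (by norm_num) (by norm_num) (by norm_num) (by norm_num)
          (by norm_num) h (cop _ (by norm_num))
      · exact tm 14 12 11 9 8 3 1 (by norm_num) (by norm_num) (by norm_num) (by norm_num)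
          (by norm_num) (by norm_num) (by norm_num) (by norm_num) (by norm_num) (by norm_num)
          (by norm_num) h (cop _ (by norm_num))
      · exact tm 13 12 11 6 5 3 2 (by norm_num) (by norm_num) (by norm_num) (by norm_num)
          (by norm_num) (by norm_num) (by norm_num) (by norm_num) (by norm_num) (by norm_num)
          (by norm_num) h (cop _ (by norm_num))
      · exact tm 14 12 10 6 5 3 2 (by norm_num) (by norm_num) (by norm_num) (by norm_num)
          (by norm_num) (by norm_num) (by norm_num) (by norm_num) (by norm_num) (by norm_num)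
          (by norm_num) h (cop _ (by norm_num))
      · exact tm 13 9 7 6 4 3 1 (by norm_num) (by norm_num) (by norm_num) (by norm_num)
          (by norm_num) (by norm_num) (by norm_num) (by norm_num) (by norm_num) (by norm_num)
          (by norm_num) h (cop _ (by norm_num))
      · exact tm 10 9 7 6 4 3 1 (by norm_num) (by norm_num) (by norm_num) (by norm_num)
          (by norm_num) (by norm_num) (by norm_num) (by norm_num) (by norm_num) (by norm_num)
          (by norm_num) h (cop _ (by norm_num))

end Pool.Agent.P45
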