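import Pool.Agent.Lib.P45dba8.SmallData45
import Pool.Agent.Lib.P45dba8.SmallMain

/-! # MP_45dba8: `n = 45`, the templates cover all words -/

set_option autoImplicit false

namespace Pool.Agent.P45.Sm

theorem cov45 : Nat.beq (Nat.land ((row (2 * 11 - 1)).getD 11 0)
    (covN (2 * 11 - 1) (codes (4 * 11 + 1) (2 * 11 - 1) 11
      [1, 2, 4, 7, 8, 11, 13, 14, 16, 17, 19, 22] tms45)))
    ((row (2 * 11 - 1)).getD 11 0) = true := by decide +kernel

end Pool.Agent.P45.Sm
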