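import Mathlib

/-! # MP_45dba8, small odd `k`: the cover of all words by templates

A word is a set of labels in `[1, m]`, coded by the number `c` whose digit `i` says whether the
label `i + 1` belongs to it. A cube is a number `T` whose digit pair `2 (m - 1 - i)`,
`2 (m - 1 - i) + 1` says that the label `i + 1` has to be in the word, has to be outside.
`covN m l` is the set of all words covered by the cubes of `l`, as a number. -/

set_option autoImplicit false

namespace Pool.Agent.P45.Sm

/-- the cubes with the leading digit pair `s`, without it -/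
noncomputable def sel (s : ℕ) (l : List ℕ) : List ℕ :=
  List.rec [] (fun T _ ih => bif Nat.beq (Nat.mod T 4) s then Nat.div T 4 :: ih else ih) l

theorem mem_sel (s : ℕ) (l : List ℕ) (x : ℕ) : x ∈ sel s l ↔ ∃ T ∈ l, T % 4 = s ∧ T / 4 = x := by
  induction l with
  | nil =>
    show x ∈ ([] : List ℕ) ↔ _
    simp
  | cons T l ih =>
    have e : sel s (T :: l) = bif Nat.beq (Nat.mod T 4) s then Nat.div T 4 :: sel s l
      else sel s l := rfl
    rw [e]
    by_cases h : T % 4 = s
    · have h' : Nat.beq (Nat.mod T 4) s = true := by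
        rw [Nat.beq_eq]
        exact h
      rw [h', cond_true, List.mem_cons, ih]
      constructor
      · rintro (rfl | ⟨T', hT', h1⟩)
        · exact ⟨T, List.mem_cons_self, h, rfl⟩
        · exact ⟨T', List.mem_cons_of_mem _ hT', h1⟩
      · rintro ⟨T', hT', h1, h2⟩
        rcases List.mem_cons.1 hT' with rfl | hT'
        · exact Or.inl h2.symm
        · exact Or.inr ⟨T', hT', h1, h2⟩
    · have h' : Nat.beq (Nat.mod T 4) s = false := by
        rw [← Bool.not_eq_true, Nat.beq_eq]
        exact h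
      rw [h', cond_false, ih]
      constructor
      · rintro ⟨T', hT', h1⟩
        exact ⟨T', List.mem_cons_of_mem _ hT', h1⟩
      · rintro ⟨T', hT', h1, h2⟩
        rcases List.mem_cons.1 hT' with rfl | hT'
        · exact absurd h1 h
        · exact ⟨T', hT', h1, h2⟩

/-- the words of one cube -/
noncomputable def cubeN (m : ℕ) : ℕ → ℕ :=
  Nat.rec (motive := fun _ => ℕ → ℕ) (fun _ => 1) (fun m ih T =>
    bif Nat.beq (Nat.mod T 4) 0 then
      Nat.lor (ih (Nat.div T 4)) (Nat.shiftLeft (ih (Nat.div T 4)) (Nat.pow 2 m))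
    else bif Nat.beq (Nat.mod T 4) 1 then Nat.shiftLeft (ih (Nat.div T 4)) (Nat.pow 2 m)
    else bif Nat.beq (Nat.mod T 4) 2 then ih (Nat.div T 4) else 0) m

/-- the words covered by a list of cubes -/
noncomputable def covN (m : ℕ) : List ℕ → ℕ :=
  Nat.rec (motive := fun _ => List ℕ → ℕ)
    (fun l => List.rec (motive := fun _ => ℕ) 0 (fun _ _ _ => 1) l)
    (fun m ih l => List.rec (motive := fun _ => ℕ) 0 (fun T l' _ =>
      List.rec (motive := fun _ => ℕ) (cubeN (Nat.succ m) T) (fun _ _ _ =>
      Nat.lor (Nat.lor (ih (sel 2 l)) (ih (sel 0 l)))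
        (Nat.shiftLeft (Nat.lor (ih (sel 1 l)) (ih (sel 0 l))) (Nat.pow 2 m))) l') l) m

/-- the word `c` satisfies the cube `T` -/
def Sat (m T c : ℕ) : Prop := ∀ i < m,
  (T.testBit (2 * (m - 1 - i)) = true → c.testBit i = true) ∧
    (T.testBit (2 * (m - 1 - i) + 1) = true → c.testBit i = false)

theorem testBit_div4 (T j : ℕ) : (T / 4).testBit j = T.testBit (j + 2) := by
  rw [show T / 4 = T / 2 / 2 by omega, ← Nat.testBit_succ, ← Nat.testBit_succ]

theorem Sat.step {m T c : ℕ} (h : Sat m (T / 4) (c % 2 ^ m))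
    (h0 : T.testBit 0 = true → c.testBit m = true) (h1 : T.testBit 1 = true → c.testBit m = false) :
    Sat (m + 1) T c := by
  intro i hi
  rcases Nat.lt_succ_iff_lt_or_eq.1 hi with hi | rfl
  · have h2 := h i hi
    rw [testBit_div4, testBit_div4, Nat.testBit_mod_two_pow, decide_eq_true hi, Bool.true_and] at h2
    rw [show 2 * (m + 1 - 1 - i) = 2 * (m - 1 - i) + 2 by omega]
    exact h2
  · rw [show 2 * (i + 1 - 1 - i) = 0 by omega]
    exact ⟨h0, h1⟩

theorem Sat.low {m T c : ℕ} (hc : c < 2 ^ m) (h : Sat m (T / 4) c) (h0 : T % 4 ≠ 1)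
    (h3 : T % 4 < 3) : c < 2 ^ (m + 1) ∧ Sat (m + 1) T c := by
  have hm : c.testBit m = false := Nat.testBit_lt_two_pow hc
  refine ⟨hc.trans (Nat.pow_lt_pow_right (by norm_num) (Nat.lt_succ_self m)), ?_⟩
  refine Sat.step ?_ ?_ fun _ => hm
  · rw [Nat.mod_eq_of_lt hc]
    exact h
  · intro h5
    rw [Nat.testBit_zero, decide_eq_true_eq] at h5
    omega

theorem Sat.high {m T c : ℕ} (hle : 2 ^ m ≤ c) (hc : c - 2 ^ m < 2 ^ m)
    (h : Sat m (T / 4) (c - 2 ^ m)) (h0 : T % 4 ≠ 2) (h3 : T % 4 < 3) :
    c < 2 ^ (m + 1) ∧ Sat (m + 1) T c := by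
  have hc2 : c % 2 ^ m = c - 2 ^ m := by
    rw [Nat.mod_eq_sub_mod hle, Nat.mod_eq_of_lt hc]
  have hm : c.testBit m = true := by
    have h5 : c = (c - 2 ^ m) + 2 ^ m := by omega
    rw [h5, Nat.add_comm, Nat.testBit_two_pow_add_eq, Nat.testBit_lt_two_pow hc]
    rfl
  refine ⟨by rw [pow_succ]; omega, ?_⟩
  refine Sat.step ?_ (fun _ => hm) ?_
  · rw [hc2]
    exact h
  · intro h5
    rw [show (1 : ℕ) = 0 + 1 by rfl, Nat.testBit_succ, Nat.testBit_zero,
      decide_eq_true_eq] at h5
    omega

theorem cubeN_spec (m : ℕ) : ∀ (T c : ℕ), (cubeN m T).testBit c = true →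
    c < 2 ^ m ∧ Sat m T c := by
  induction m with
  | zero =>
    intro T c h
    have h' : (1 : ℕ).testBit c = true := h
    have hc : c = 0 := by
      rcases c with _ | c
      · rfl
      · rw [Nat.testBit_succ] at h'
        simp at h'
    subst hc
    exact ⟨by norm_num, fun i hi => absurd hi (Nat.not_lt_zero i)⟩
  | succ m ih =>
    intro T c h
    have e : cubeN (m + 1) T = bif Nat.beq (Nat.mod T 4) 0 then
        cubeN m (T / 4) ||| (cubeN m (T / 4)) <<< (2 ^ m)
      else bif Nat.beq (Nat.mod T 4) 1 then (cubeN m (T / 4)) <<< (2 ^ m)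
      else bif Nat.beq (Nat.mod T 4) 2 then cubeN m (T / 4) else 0 := rfl
    have hb : ∀ s, Nat.beq (Nat.mod T 4) s = true ↔ T % 4 = s := by
      intro s
      rw [Nat.beq_eq]
      rfl
    have hhigh : 2 ^ m ≤ c → (cubeN m (T / 4)).testBit (c - 2 ^ m) = true → T % 4 ≠ 2 →
        T % 4 < 3 → c < 2 ^ (m + 1) ∧ Sat (m + 1) T c := by
      intro hle hc h1 h2
      obtain ⟨h4, h5⟩ := ih _ _ hc
      exact Sat.high hle h4 h5 h1 h2
    rw [e] at h
    by_cases h0 : T % 4 = 0
    · rw [(hb 0).2 h0, cond_true, Nat.testBit_or, Nat.testBit_shiftLeft, Bool.or_eq_true,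
        Bool.and_eq_true, decide_eq_true_eq] at h
      rcases h with h | ⟨h, h'⟩
      · obtain ⟨h4, h5⟩ := ih _ _ h
        exact Sat.low h4 h5 (by omega) (by omega)
      · exact hhigh h h' (by omega) (by omega)
    rw [Bool.eq_false_iff.2 (fun h' => h0 ((hb 0).1 h')), cond_false] at h
    by_cases h1 : T % 4 = 1
    · rw [(hb 1).2 h1, cond_true, Nat.testBit_shiftLeft, Bool.and_eq_true,
        decide_eq_true_eq] at h
      exact hhigh h.1 h.2 (by omega) (by omega)
    rw [Bool.eq_false_iff.2 (fun h' => h1 ((hb 1).1 h')), cond_false] at h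
    by_cases h2 : T % 4 = 2
    · rw [(hb 2).2 h2, cond_true] at h
      obtain ⟨h4, h5⟩ := ih _ _ h
      exact Sat.low h4 h5 (by omega) (by omega)
    rw [Bool.eq_false_iff.2 (fun h' => h2 ((hb 2).1 h')), cond_false] at h
    simp at h

theorem covN_spec (m : ℕ) : ∀ (l : List ℕ) (c : ℕ), (covN m l).testBit c = true →
    c < 2 ^ m ∧ ∃ T ∈ l, Sat m T c := by
  induction m with
  | zero =>
    intro l c h
    rcases l with _ | ⟨T, l⟩
    · have h' : (0 : ℕ).testBit c = true := h
      simp at h'
    · have h' : (1 : ℕ).testBit c = true := h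
      have hc : c = 0 := by
        rcases c with _ | c
        · rfl
        · rw [Nat.testBit_succ] at h'
          simp at h'
      subst hc
      exact ⟨by norm_num, T, List.mem_cons_self, fun i hi => absurd hi (Nat.not_lt_zero i)⟩
  | succ m ih =>
    intro l c h
    rcases l with _ | ⟨T0, l0⟩
    · have h' : (0 : ℕ).testBit c = true := h
      simp at h'
    · rcases l0 with _ | ⟨T1, l1⟩
      · have h' : (cubeN (m + 1) T0).testBit c = true := h
        obtain ⟨h1, h2⟩ := cubeN_spec _ _ _ h'
        exact ⟨h1, T0, List.mem_cons_self, h2⟩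
      obtain ⟨l, hl⟩ : ∃ l, l = T0 :: T1 :: l1 := ⟨_, rfl⟩
      have e : covN (m + 1) (T0 :: T1 :: l1) =
          (covN m (sel 2 (T0 :: T1 :: l1)) ||| covN m (sel 0 (T0 :: T1 :: l1))) |||
          (covN m (sel 1 (T0 :: T1 :: l1)) ||| covN m (sel 0 (T0 :: T1 :: l1))) <<< (2 ^ m) := rfl
      rw [e, ← hl] at h
      rw [← hl]
      rw [Nat.testBit_or, Nat.testBit_or, Nat.testBit_shiftLeft, Nat.testBit_or, Bool.or_eq_true,
        Bool.or_eq_true, Bool.and_eq_true, Bool.or_eq_true, decide_eq_true_eq] at h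
      have low : ∀ s, s ≠ 1 → s < 3 → (covN m (sel s l)).testBit c = true → c < 2 ^ (m + 1) ∧
          ∃ T ∈ l, Sat (m + 1) T c := by
        intro s hs1 hs3 hc
        obtain ⟨h1, T', hT', h2⟩ := ih _ _ hc
        obtain ⟨T, hT, h3, h4⟩ := (mem_sel _ _ _).1 hT'
        obtain ⟨h5, h6⟩ := Sat.low (T := T) h1 (by rw [h4]; exact h2) (by omega) (by omega)
        exact ⟨h5, T, hT, h6⟩
      have high : ∀ s, s ≠ 2 → s < 3 → 2 ^ m ≤ c → (covN m (sel s l)).testBit (c - 2 ^ m) = true →
          c < 2 ^ (m + 1) ∧ ∃ T ∈ l, Sat (m + 1) T c := by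
        intro s hs1 hs3 hle hc
        obtain ⟨h1, T', hT', h2⟩ := ih _ _ hc
        obtain ⟨T, hT, h3, h4⟩ := (mem_sel _ _ _).1 hT'
        obtain ⟨h5, h6⟩ := Sat.high (T := T) hle h1 (by rw [h4]; exact h2) (by omega) (by omega)
        exact ⟨h5, T, hT, h6⟩
      rcases h with (h | h) | ⟨h, h' | h'⟩
      · exact low 2 (by norm_num) (by norm_num) h
      · exact low 0 (by norm_num) (by norm_num) h
      · exact high 1 (by norm_num) (by norm_num) h h'
      · exact high 0 (by norm_num) (by norm_num) h h'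

/-- auxiliary: one step of the rows of words of given weight -/
noncomputable def comb (s : ℕ) (l : List ℕ) : ℕ → List ℕ :=
  List.rec (motive := fun _ => ℕ → List ℕ) (fun p => [Nat.shiftLeft p s])
    (fun x _ ih p => Nat.lor x (Nat.shiftLeft p s) :: ih x) l

theorem comb_getD (s : ℕ) (l : List ℕ) : ∀ (p r : ℕ), (comb s l p).getD r 0 =
    l.getD r 0 ||| ((if r = 0 then p else l.getD (r - 1) 0) <<< s) := by
  induction l with
  | nil =>
    intro p r
    show [p <<< s].getD r 0 = _
    rcases r with _ | r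
    · simp
    · simp
  | cons x l ih =>
    intro p r
    show ((x ||| p <<< s) :: comb s l x).getD r 0 = _
    rcases r with _ | r
    · simp
    · rw [List.getD_cons_succ, ih x r, List.getD_cons_succ, if_neg (Nat.succ_ne_zero r)]
      congr 2
      rcases r with _ | r
      · simp
      · simp

/-- the words of `m` labels of weight `r`, all `r` -/
noncomputable def row (m : ℕ) : List ℕ :=
  Nat.rec (motive := fun _ => List ℕ) [1] (fun m ih => comb (Nat.pow 2 m) ih 0) m

theorem row_spec (m : ℕ) : ∀ c < 2 ^ m, ((row m).getD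
    ((Finset.range m).filter (fun i => c.testBit i = true)).card 0).testBit c = true := by
  induction m with
  | zero =>
    intro c hc
    have : c = 0 := by simpa using hc
    subst this
    rfl
  | succ m ih =>
    intro c hc
    have e : row (m + 1) = comb (2 ^ m) (row m) 0 := rfl
    rw [e, comb_getD, Nat.testBit_or, Bool.or_eq_true]
    rw [Finset.range_add_one, Finset.filter_insert]
    by_cases h : c < 2 ^ m
    · have hm : c.testBit m = false := Nat.testBit_lt_two_pow h
      left
      rw [hm, if_neg (by simp)]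
      exact ih c h
    · right
      have hle : 2 ^ m ≤ c := not_lt.1 h
      have h1 : c - 2 ^ m < 2 ^ m := by
        rw [pow_succ] at hc
        omega
      have h5 : c = 2 ^ m + (c - 2 ^ m) := by omega
      have hm : c.testBit m = true := by
        rw [h5, Nat.testBit_two_pow_add_eq, Nat.testBit_lt_two_pow h1]
        rfl
      rw [if_pos hm, Finset.card_insert_of_notMem (by simp), if_neg (Nat.succ_ne_zero _),
        Nat.testBit_shiftLeft, Bool.and_eq_true, decide_eq_true_eq]
      refine ⟨hle, ?_⟩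
      have h2 := ih _ h1
      rw [Nat.add_sub_cancel]
      have h3 : (Finset.range m).filter (fun i => c.testBit i = true) =
          (Finset.range m).filter (fun i => (c - 2 ^ m).testBit i = true) := by
        refine Finset.filter_congr fun i hi => ?_
        have hi' := Finset.mem_range.1 hi
        have h6 : c.testBit i = (c - 2 ^ m).testBit i := by
          conv_lhs => rw [h5]
          exact Nat.testBit_two_pow_add_gt hi' _
        rw [h6]
      rw [h3]
      exact h2

/-- THE COVER: if the check is true, every word of weight `r` satisfies a cube. -/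
theorem exists_cube {m r : ℕ} {l : List ℕ}
    (h : Nat.beq (Nat.land ((row m).getD r 0) (covN m l)) ((row m).getD r 0) = true)
    (c : ℕ) (hc : c < 2 ^ m)
    (hr : ((Finset.range m).filter (fun i => c.testBit i = true)).card = r) :
    ∃ T ∈ l, Sat m T c := by
  have h1 : (row m).getD r 0 &&& covN m l = (row m).getD r 0 := Nat.eq_of_beq_eq_true h
  have h2 := row_spec m c hc
  rw [hr, ← h1, Nat.testBit_and, Bool.and_eq_true] at h2
  exact (covN_spec m l c h2.2).2

end Pool.Agent.P45.Sm
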