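import Pool.Agent.Lib.P45dba8.SmallTm

/-! # MP_45dba8: the templates for `n = 45` -/

set_option autoImplicit false

namespace Pool.Agent.P45.Sm

def tms45_0 : List Tm := [
  ⟨7, 44, 16, 13, 1, 44, 17, [(14, 0), (12, 2), (9, 4), (6, 6), (4, 8)], [(13, 2), (11, 4), (8, 6), (5, 8)]⟩,
  ⟨1, 11, 17, 11, 6, 1, 27, [(20, 0), (14, 4), (12, 6), (4, 20), (2, 22)], [(18, 4), (13, 6), (5, 20), (3, 22)]⟩,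
  ⟨4, 2, 1, 0, 18, 10, 29, [(19, 0), (15, 6), (13, 8), (7, 16), (5, 18)], [(16, 6), (14, 8), (9, 16), (6, 18)]⟩,
  ⟨11, 26, 21, 3, 10, 26, 33, [(20, 0), (16, 6), (7, 22), (3, 28), (1, 30)], [(17, 6), (8, 22), (4, 28), (2, 30)]⟩,
  ⟨16, 23, 5, 0, 11, 1, 17, [(18, 0), (13, 2), (10, 4), (7, 6), (4, 8)], [(17, 2), (12, 4), (9, 6), (6, 8)]⟩,
  ⟨17, 7, 19, 7, 20, 1, 23, [(15, 0), (13, 2), (11, 4), (7, 10), (4, 14)], [(14, 2), (12, 4), (8, 10), (5, 14)]⟩,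
  ⟨1, 27, 9, 27, 14, 1, 23, [(20, 0), (16, 6), (11, 12), (8, 14), (2, 18)], [(17, 6), (13, 12), (10, 14), (6, 18)]⟩,
  ⟨11, 14, 18, 0, 16, 14, 17, [(19, 0), (14, 4), (9, 6), (5, 8), (3, 10)], [(17, 4), (13, 6), (8, 8), (4, 10)]⟩,
  ⟨16, 6, 3, 0, 4, 38, 15, [(15, 0), (11, 2), (9, 4), (6, 8), (2, 10)], [(14, 2), (10, 4), (7, 8), (5, 10)]⟩,
  ⟨4, 44, 19, 7, 1, 44, 23, [(17, 0), (15, 2), (13, 4), (9, 10), (5, 12)], [(16, 2), (14, 4), (10, 10), (8, 12)]⟩,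
  ⟨17, 15, 15, 15, 21, 4, 13, [(19, 0), (13, 2), (7, 6), (4, 8), (1, 10)], [(18, 2), (11, 6), (6, 8), (3, 10)]⟩,
  ⟨7, 17, 14, 17, 15, 1, 19, [(19, 0), (11, 6), (8, 8), (4, 12), (2, 14)], [(16, 6), (10, 8), (6, 12), (3, 14)]⟩,
  ⟨16, 43, 7, 16, 13, 17, 1, [(17, 0), (10, 4), (6, 8), (4, 10), (1, 14)], [(15, 4), (8, 8), (5, 10), (2, 14)]⟩,
  ⟨4, 12, 3, 20, 15, 27, 1, [(21, 0), (18, 4), (16, 6), (10, 10), (6, 14)], [(19, 4), (17, 6), (14, 10), (8, 14)]⟩,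
  ⟨14, 31, 7, 0, 15, 1, 13, [(17, 0), (13, 2), (11, 4), (6, 6), (2, 8)], [(16, 2), (12, 4), (10, 6), (5, 8)]⟩,
  ⟨13, 6, 16, 0, 20, 6, 31, [(21, 0), (17, 4), (11, 14), (8, 18), (5, 20)], [(19, 4), (12, 14), (9, 18), (7, 20)]⟩,
  ⟨4, 25, 10, 25, 16, 1, 21, [(21, 0), (14, 2), (11, 4), (6, 10), (1, 18)], [(20, 2), (13, 4), (8, 10), (2, 18)]⟩,
  ⟨19, 12, 20, 5, 17, 12, 19, [(14, 0), (9, 6), (7, 8), (5, 10), (2, 14)], [(11, 6), (8, 8), (6, 10), (3, 14)]⟩,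
  ⟨19, 40, 20, 0, 16, 1, 21, [(17, 0), (12, 6), (8, 10), (5, 14), (2, 16)], [(14, 6), (10, 10), (6, 14), (4, 16)]⟩,
  ⟨13, 12, 19, 0, 17, 12, 21, [(21, 0), (12, 6), (9, 8), (7, 10), (1, 18)], [(18, 6), (11, 8), (8, 10), (3, 18)]⟩,
  ⟨8, 32, 21, 3, 7, 32, 25, [(19, 0), (15, 6), (10, 8), (5, 16), (3, 18)], [(16, 6), (14, 8), (6, 16), (4, 18)]⟩,
  ⟨19, 16, 8, 0, 4, 1, 29, [(21, 0), (15, 10), (11, 12), (5, 22), (1, 26)], [(16, 10), (14, 12), (6, 22), (3, 26)]⟩,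
  ⟨7, 3, 14, 17, 1, 1, 27, [(21, 0), (17, 4), (11, 12), (5, 18), (2, 22)], [(19, 4), (13, 12), (8, 18), (3, 22)]⟩,
  ⟨16, 35, 11, 0, 17, 1, 21, [(21, 0), (19, 2), (14, 4), (8, 8), (2, 16)], [(20, 2), (18, 4), (12, 8), (4, 16)]⟩,
  ⟨1, 33, 6, 33, 17, 1, 13, [(13, 0), (11, 2), (9, 4), (4, 6), (2, 8)], [(12, 2), (10, 4), (8, 6), (3, 8)]⟩,
  ⟨4, 41, 2, 0, 20, 1, 25, [(18, 0), (16, 2), (12, 6), (8, 12), (5, 14)], [(17, 2), (14, 6), (9, 12), (7, 14)]⟩,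
  ⟨17, 19, 21, 22, 15, 23, 1, [(19, 0), (13, 10), (11, 12), (8, 14), (3, 16)], [(14, 10), (12, 12), (10, 14), (7, 16)]⟩,
  ⟨19, 37, 13, 37, 17, 30, 1, [(21, 0), (16, 6), (12, 10), (7, 12), (1, 16)], [(18, 6), (14, 10), (11, 12), (5, 16)]⟩,
  ⟨16, 2, 1, 0, 6, 34, 25, [(20, 0), (15, 6), (11, 10), (8, 14), (4, 16)], [(17, 6), (13, 10), (9, 14), (7, 16)]⟩,
  ⟨14, 3, 7, 31, 1, 1, 21, [(21, 0), (17, 4), (11, 12), (9, 14), (2, 16)], [(19, 4), (13, 12), (10, 14), (8, 16)]⟩,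
  ⟨13, 16, 8, 0, 2, 42, 21, [(20, 0), (16, 2), (14, 4), (11, 8), (4, 12)], [(19, 2), (15, 4), (12, 8), (9, 12)]⟩,
  ⟨17, 33, 1, 22, 4, 25, 1, [(21, 0), (14, 2), (11, 6), (9, 8), (7, 10)], [(20, 2), (12, 6), (10, 8), (8, 10)]⟩,
  ⟨19, 43, 1, 43, 5, 36, 17, [(14, 0), (12, 2), (9, 4), (7, 6), (4, 8)], [(13, 2), (11, 4), (8, 6), (6, 8)]⟩,
  ⟨14, 8, 8, 20, 16, 21, 1, [(17, 0), (13, 4), (11, 6), (5, 14), (2, 16)], [(15, 4), (12, 6), (7, 14), (4, 16)]⟩,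
  ⟨19, 40, 20, 0, 16, 1, 21, [(14, 0), (10, 6), (5, 14), (3, 16), (1, 18)], [(11, 6), (6, 14), (4, 16), (2, 18)]⟩,
  ⟨13, 6, 7, 6, 17, 32, 1, [(20, 0), (18, 2), (12, 10), (9, 12), (1, 18)], [(19, 2), (14, 10), (11, 12), (6, 18)]⟩,
  ⟨4, 43, 1, 43, 20, 6, 27, [(18, 0), (16, 2), (14, 4), (11, 8), (5, 16)], [(17, 2), (15, 4), (12, 8), (7, 16)]⟩,
  ⟨7, 2, 1, 0, 15, 16, 29, [(19, 0), (16, 4), (12, 10), (9, 12), (3, 22)], [(17, 4), (13, 10), (11, 12), (4, 22)]⟩,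
  ⟨14, 20, 16, 16, 21, 20, 1, [(19, 0), (13, 4), (8, 8), (6, 10), (1, 14)], [(17, 4), (11, 8), (7, 10), (4, 14)]⟩,
  ⟨11, 18, 20, 0, 14, 18, 27, [(21, 0), (12, 8), (8, 14), (4, 20), (1, 24)], [(17, 8), (9, 14), (5, 20), (2, 24)]⟩,
  ⟨11, 38, 19, 0, 7, 1, 19, [(16, 0), (13, 4), (9, 6), (6, 8), (3, 12)], [(14, 4), (12, 6), (8, 8), (4, 12)]⟩,
  ⟨14, 19, 1, 0, 9, 1, 21, [(20, 0), (15, 4), (8, 12), (6, 14), (2, 16)], [(18, 4), (11, 12), (7, 14), (5, 16)]⟩,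
  ⟨19, 20, 14, 30, 17, 31, 1, [(21, 0), (13, 10), (10, 14), (5, 22), (1, 28)], [(16, 10), (11, 14), (6, 22), (2, 28)]⟩,
  ⟨17, 10, 5, 0, 1, 44, 33, [(21, 0), (13, 14), (11, 16), (7, 22), (2, 28)], [(14, 14), (12, 16), (8, 22), (4, 28)]⟩,
  ⟨13, 11, 16, 24, 6, 25, 1, [(19, 0), (14, 4), (9, 12), (5, 16), (1, 22)], [(17, 4), (10, 12), (7, 16), (2, 22)]⟩,
  ⟨8, 37, 4, 37, 19, 8, 17, [(16, 0), (12, 2), (10, 4), (6, 6), (1, 14)], [(15, 2), (11, 4), (9, 6), (2, 14)]⟩,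
  ⟨8, 36, 15, 22, 16, 36, 1, [(20, 0), (14, 2), (10, 8), (4, 16), (1, 20)], [(19, 2), (11, 8), (6, 16), (2, 20)]⟩,
  ⟨4, 39, 1, 0, 19, 1, 27, [(20, 0), (16, 4), (14, 6), (8, 12), (6, 14)], [(18, 4), (15, 6), (11, 12), (7, 14)]⟩,
  ⟨14, 31, 19, 31, 17, 25, 1, [(21, 0), (16, 6), (8, 16), (4, 18), (1, 22)], [(18, 6), (11, 16), (7, 18), (2, 22)]⟩,
  ⟨19, 20, 10, 0, 6, 1, 25, [(17, 0), (14, 2), (12, 4), (4, 18), (1, 22)], [(16, 2), (13, 4), (5, 18), (2, 22)]⟩]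

def tms45_1 : List Tm := [
  ⟨19, 44, 4, 37, 1, 44, 23, [(16, 0), (12, 6), (10, 8), (8, 10), (5, 12)], [(13, 6), (11, 8), (9, 10), (7, 12)]⟩,
  ⟨14, 23, 7, 6, 1, 21, 1, [(21, 0), (16, 2), (11, 4), (8, 8), (2, 16)], [(20, 2), (15, 4), (9, 8), (4, 16)]⟩,
  ⟨13, 17, 1, 43, 8, 1, 21, [(19, 0), (12, 4), (10, 6), (7, 8), (4, 12)], [(17, 4), (11, 6), (9, 8), (5, 12)]⟩,
  ⟨19, 42, 21, 0, 17, 1, 19, [(18, 0), (14, 4), (11, 6), (5, 12), (2, 14)], [(16, 4), (13, 6), (8, 12), (4, 14)]⟩,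
  ⟨13, 17, 1, 43, 8, 1, 27, [(19, 0), (16, 2), (14, 4), (7, 14), (3, 20)], [(18, 2), (15, 4), (9, 14), (4, 20)]⟩,
  ⟨13, 38, 8, 22, 2, 19, 1, [(18, 0), (14, 6), (9, 12), (6, 16), (1, 20)], [(15, 6), (11, 12), (7, 16), (4, 20)]⟩,
  ⟨1, 21, 18, 21, 5, 13, 1, [(17, 0), (14, 2), (7, 4), (4, 6), (2, 8)], [(16, 2), (13, 4), (6, 6), (3, 8)]⟩,
  ⟨13, 18, 1, 18, 11, 44, 1, [(19, 0), (17, 2), (9, 8), (7, 10), (4, 12)], [(18, 2), (14, 8), (8, 10), (6, 12)]⟩,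
  ⟨17, 33, 13, 33, 19, 22, 1, [(21, 0), (18, 2), (10, 6), (4, 10), (1, 12)], [(20, 2), (16, 6), (8, 10), (3, 12)]⟩,
  ⟨16, 17, 2, 0, 8, 1, 23, [(20, 0), (17, 2), (11, 8), (4, 18), (1, 20)], [(19, 2), (14, 8), (6, 18), (3, 20)]⟩,
  ⟨8, 13, 16, 13, 14, 1, 27, [(21, 0), (17, 4), (9, 16), (5, 20), (2, 22)], [(19, 4), (11, 16), (7, 20), (4, 22)]⟩,
  ⟨14, 6, 17, 0, 20, 6, 23, [(19, 0), (12, 12), (7, 14), (4, 18), (1, 20)], [(13, 12), (11, 14), (5, 18), (3, 20)]⟩,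
  ⟨19, 2, 1, 0, 3, 40, 17, [(18, 0), (12, 4), (8, 6), (6, 8), (2, 12)], [(16, 4), (11, 6), (7, 8), (4, 12)]⟩,
  ⟨17, 8, 21, 0, 19, 8, 21, [(16, 0), (13, 2), (11, 4), (7, 10), (2, 16)], [(15, 2), (12, 4), (8, 10), (4, 16)]⟩,
  ⟨2, 33, 4, 37, 16, 1, 17, [(19, 0), (13, 4), (11, 6), (6, 12), (1, 14)], [(17, 4), (12, 6), (8, 12), (5, 14)]⟩,
  ⟨17, 44, 6, 33, 1, 44, 25, [(20, 0), (14, 8), (9, 12), (7, 14), (2, 20)], [(16, 8), (12, 12), (8, 14), (4, 20)]⟩,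
  ⟨19, 4, 8, 26, 11, 27, 1, [(20, 0), (15, 8), (12, 10), (4, 20), (2, 22)], [(16, 8), (14, 10), (7, 20), (3, 22)]⟩,
  ⟨2, 32, 18, 0, 7, 32, 17, [(17, 0), (14, 2), (8, 8), (4, 12), (1, 14)], [(16, 2), (11, 8), (6, 12), (3, 14)]⟩,
  ⟨11, 9, 16, 31, 5, 9, 1, [(19, 0), (15, 2), (12, 4), (7, 12), (2, 14)], [(18, 2), (14, 4), (8, 12), (6, 14)]⟩,
  ⟨19, 36, 18, 0, 14, 1, 19, [(13, 0), (10, 4), (7, 8), (4, 12), (1, 16)], [(11, 4), (8, 8), (5, 12), (2, 16)]⟩,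
  ⟨4, 20, 10, 0, 9, 28, 23, [(18, 0), (16, 2), (13, 6), (7, 10), (2, 18)], [(17, 2), (14, 6), (11, 10), (3, 18)]⟩,
  ⟨13, 14, 20, 0, 16, 14, 19, [(21, 0), (14, 4), (8, 10), (6, 12), (1, 16)], [(19, 4), (11, 10), (7, 12), (4, 16)]⟩,
  ⟨14, 38, 19, 21, 11, 38, 1, [(17, 0), (13, 2), (9, 4), (6, 6), (2, 10)], [(16, 2), (12, 4), (8, 6), (4, 10)]⟩,
  ⟨2, 32, 18, 0, 7, 32, 15, [(17, 0), (14, 2), (11, 4), (5, 10), (1, 12)], [(16, 2), (13, 4), (8, 10), (4, 12)]⟩,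
  ⟨8, 43, 1, 43, 16, 14, 25, [(20, 0), (18, 2), (11, 10), (4, 18), (2, 20)], [(19, 2), (14, 10), (7, 18), (3, 20)]⟩,
  ⟨13, 28, 14, 0, 4, 1, 17, [(17, 0), (12, 2), (9, 4), (7, 6), (1, 14)], [(16, 2), (11, 4), (8, 6), (3, 14)]⟩,
  ⟨13, 8, 17, 0, 19, 8, 19, [(16, 0), (9, 10), (7, 12), (3, 14), (1, 16)], [(11, 10), (8, 12), (6, 14), (2, 16)]⟩,
  ⟨7, 37, 3, 0, 18, 1, 15, [(17, 0), (14, 2), (9, 4), (5, 10), (1, 12)], [(16, 2), (13, 4), (6, 10), (4, 12)]⟩,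
  ⟨13, 29, 8, 29, 18, 10, 17, [(16, 0), (14, 2), (6, 8), (3, 12), (1, 14)], [(15, 2), (11, 8), (4, 12), (2, 14)]⟩,
  ⟨19, 5, 20, 5, 21, 1, 21, [(18, 0), (16, 2), (11, 8), (8, 10), (1, 18)], [(17, 2), (13, 8), (10, 10), (4, 18)]⟩,
  ⟨2, 17, 14, 17, 10, 1, 27, [(20, 0), (16, 2), (11, 8), (7, 14), (4, 18)], [(19, 2), (13, 8), (8, 14), (5, 18)]⟩,
  ⟨4, 9, 16, 22, 3, 17, 1, [(20, 0), (17, 4), (10, 10), (5, 14), (1, 20)], [(18, 4), (14, 10), (8, 14), (2, 20)]⟩,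
  ⟨13, 7, 19, 7, 16, 1, 15, [(15, 0), (11, 2), (9, 4), (5, 8), (2, 10)], [(14, 2), (10, 4), (7, 8), (4, 10)]⟩,
  ⟨4, 11, 13, 19, 5, 1, 25, [(19, 0), (15, 6), (8, 14), (6, 16), (1, 22)], [(16, 6), (11, 14), (7, 16), (3, 22)]⟩,
  ⟨17, 44, 19, 33, 14, 44, 1, [(20, 0), (13, 8), (9, 12), (7, 14), (4, 18)], [(16, 8), (11, 12), (8, 14), (5, 18)]⟩,
  ⟨14, 41, 2, 41, 11, 24, 21, [(19, 0), (17, 2), (13, 4), (7, 14), (1, 18)], [(18, 2), (16, 4), (8, 14), (5, 18)]⟩,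
  ⟨11, 31, 7, 31, 19, 8, 21, [(20, 0), (16, 6), (13, 10), (8, 12), (2, 16)], [(17, 6), (14, 10), (12, 12), (6, 16)]⟩,
  ⟨14, 21, 12, 21, 21, 4, 23, [(20, 0), (17, 2), (13, 6), (4, 16), (2, 18)], [(19, 2), (15, 6), (8, 16), (3, 18)]⟩,
  ⟨4, 40, 21, 3, 3, 40, 27, [(17, 0), (14, 4), (11, 8), (8, 12), (1, 24)], [(15, 4), (12, 8), (9, 12), (2, 24)]⟩,
  ⟨11, 7, 19, 7, 14, 1, 31, [(21, 0), (16, 8), (12, 14), (6, 22), (2, 26)], [(17, 8), (13, 14), (8, 22), (4, 26)]⟩,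
  ⟨19, 3, 2, 41, 1, 1, 23, [(18, 0), (15, 4), (13, 6), (7, 10), (3, 16)], [(16, 4), (14, 6), (11, 10), (4, 16)]⟩,
  ⟨4, 39, 1, 0, 19, 1, 25, [(16, 0), (13, 4), (11, 6), (6, 14), (2, 20)], [(14, 4), (12, 6), (7, 14), (3, 20)]⟩,
  ⟨7, 33, 1, 0, 16, 1, 21, [(21, 0), (13, 4), (11, 6), (8, 8), (2, 16)], [(19, 4), (12, 6), (10, 8), (4, 16)]⟩,
  ⟨4, 30, 19, 0, 8, 30, 27, [(21, 0), (17, 6), (14, 8), (11, 12), (5, 16)], [(18, 6), (16, 8), (12, 12), (9, 16)]⟩,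
  ⟨17, 20, 2, 20, 8, 9, 1, [(20, 0), (16, 2), (14, 4), (11, 6), (7, 10)], [(19, 2), (15, 4), (13, 6), (9, 10)]⟩,
  ⟨8, 5, 12, 21, 2, 1, 31, [(21, 0), (16, 8), (13, 12), (10, 16), (4, 22)], [(17, 8), (14, 12), (11, 16), (7, 22)]⟩,
  ⟨14, 19, 1, 0, 9, 1, 17, [(20, 0), (13, 4), (8, 8), (5, 10), (2, 12)], [(18, 4), (11, 8), (7, 10), (4, 12)]⟩,
  ⟨13, 4, 15, 0, 21, 4, 19, [(18, 0), (16, 2), (10, 6), (7, 10), (1, 16)], [(17, 2), (14, 6), (8, 10), (4, 16)]⟩,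
  ⟨16, 35, 2, 18, 8, 19, 1, [(19, 0), (14, 4), (11, 6), (5, 14), (1, 16)], [(17, 4), (13, 6), (7, 14), (4, 16)]⟩,
  ⟨7, 38, 17, 18, 13, 38, 1, [(21, 0), (14, 4), (8, 8), (4, 12), (2, 14)], [(19, 4), (12, 8), (6, 12), (3, 14)]⟩]

def tms45_2 : List Tm := [
  ⟨2, 3, 19, 7, 1, 1, 25, [(16, 0), (13, 4), (9, 10), (7, 12), (5, 14)], [(14, 4), (10, 10), (8, 12), (6, 14)]⟩,
  ⟨7, 9, 11, 23, 4, 1, 29, [(19, 0), (16, 4), (12, 10), (8, 14), (1, 26)], [(17, 4), (13, 10), (10, 14), (2, 26)]⟩,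
  ⟨17, 16, 4, 16, 10, 5, 1, [(20, 0), (15, 8), (11, 14), (8, 18), (2, 20)], [(16, 8), (12, 14), (9, 18), (7, 20)]⟩,
  ⟨4, 44, 19, 7, 1, 44, 33, [(21, 0), (15, 8), (10, 16), (7, 20), (2, 28)], [(17, 8), (11, 16), (8, 20), (3, 28)]⟩,
  ⟨8, 16, 16, 0, 15, 16, 19, [(19, 0), (13, 4), (9, 8), (4, 12), (2, 14)], [(17, 4), (11, 8), (7, 12), (3, 14)]⟩,
  ⟨19, 18, 17, 11, 14, 18, 29, [(21, 0), (16, 6), (12, 12), (6, 22), (1, 26)], [(18, 6), (13, 12), (7, 22), (4, 26)]⟩,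
  ⟨16, 17, 19, 24, 12, 25, 1, [(21, 0), (17, 2), (14, 6), (4, 18), (2, 20)], [(20, 2), (15, 6), (8, 18), (3, 20)]⟩,
  ⟨4, 14, 1, 22, 17, 25, 1, [(19, 0), (14, 8), (12, 10), (7, 16), (2, 20)], [(15, 8), (13, 10), (9, 16), (5, 20)]⟩,
  ⟨13, 21, 19, 21, 16, 15, 1, [(20, 0), (12, 6), (8, 8), (6, 10), (1, 12)], [(17, 6), (11, 8), (7, 10), (5, 12)]⟩,
  ⟨11, 10, 16, 0, 18, 10, 15, [(20, 0), (14, 2), (8, 6), (4, 8), (1, 12)], [(19, 2), (12, 6), (7, 8), (2, 12)]⟩,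
  ⟨17, 17, 3, 0, 8, 1, 23, [(18, 0), (13, 4), (10, 8), (5, 14), (1, 20)], [(16, 4), (11, 8), (7, 14), (2, 20)]⟩,
  ⟨4, 18, 3, 12, 16, 26, 1, [(19, 0), (14, 4), (11, 6), (8, 8), (1, 10)], [(17, 4), (13, 6), (10, 8), (7, 10)]⟩,
  ⟨14, 16, 7, 16, 16, 44, 1, [(19, 0), (17, 2), (11, 12), (4, 24), (1, 28)], [(18, 2), (12, 12), (5, 24), (2, 28)]⟩,
  ⟨16, 6, 19, 0, 20, 6, 21, [(17, 0), (11, 10), (8, 12), (4, 14), (1, 18)], [(12, 10), (10, 12), (7, 14), (2, 18)]⟩,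
  ⟨16, 40, 17, 27, 11, 40, 1, [(21, 0), (15, 4), (9, 6), (6, 10), (1, 14)], [(19, 4), (14, 6), (7, 10), (4, 14)]⟩,
  ⟨17, 24, 1, 24, 7, 13, 1, [(20, 0), (16, 2), (12, 8), (8, 14), (4, 18)], [(19, 2), (13, 8), (9, 14), (6, 18)]⟩,
  ⟨4, 39, 1, 0, 19, 1, 25, [(18, 0), (15, 4), (13, 6), (8, 10), (2, 20)], [(16, 4), (14, 6), (11, 10), (3, 20)]⟩,
  ⟨19, 31, 7, 31, 11, 24, 19, [(20, 0), (14, 6), (10, 8), (5, 12), (2, 14)], [(17, 6), (13, 8), (8, 12), (4, 14)]⟩,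
  ⟨17, 14, 21, 3, 16, 14, 29, [(19, 0), (12, 12), (6, 20), (4, 22), (1, 26)], [(13, 12), (8, 20), (5, 22), (2, 26)]⟩,
  ⟨13, 27, 9, 27, 19, 8, 17, [(18, 0), (16, 2), (14, 4), (6, 10), (1, 14)], [(17, 2), (15, 4), (11, 10), (4, 14)]⟩,
  ⟨19, 43, 1, 43, 5, 36, 25, [(17, 0), (15, 2), (11, 8), (8, 12), (4, 16)], [(16, 2), (12, 8), (9, 12), (6, 16)]⟩,
  ⟨13, 42, 12, 18, 2, 19, 1, [(20, 0), (17, 4), (15, 6), (8, 8), (4, 10)], [(18, 4), (16, 6), (14, 8), (7, 10)]⟩,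
  ⟨4, 35, 1, 43, 17, 1, 17, [(19, 0), (15, 2), (13, 4), (9, 8), (2, 12)], [(18, 2), (14, 4), (11, 8), (7, 12)]⟩,
  ⟨4, 4, 2, 0, 17, 12, 29, [(20, 0), (18, 2), (12, 8), (8, 14), (6, 16)], [(19, 2), (15, 8), (9, 14), (7, 16)]⟩,
  ⟨13, 30, 17, 11, 8, 30, 13, [(19, 0), (16, 2), (12, 4), (4, 6), (2, 8)], [(18, 2), (15, 4), (11, 6), (3, 8)]⟩,
  ⟨11, 29, 3, 0, 14, 1, 23, [(20, 0), (18, 2), (13, 4), (7, 10), (1, 20)], [(19, 2), (17, 4), (10, 10), (2, 20)]⟩,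
  ⟨8, 24, 12, 0, 3, 40, 15, [(17, 0), (14, 2), (9, 4), (5, 8), (2, 10)], [(16, 2), (13, 4), (7, 8), (4, 10)]⟩,
  ⟨1, 32, 17, 0, 7, 32, 27, [(21, 0), (13, 12), (9, 18), (5, 20), (2, 22)], [(15, 12), (10, 18), (8, 20), (4, 22)]⟩,
  ⟨13, 13, 16, 13, 19, 1, 23, [(20, 0), (15, 6), (8, 16), (5, 18), (1, 20)], [(17, 6), (10, 16), (7, 18), (4, 20)]⟩,
  ⟨11, 40, 14, 17, 3, 40, 21, [(17, 0), (15, 2), (12, 6), (6, 14), (1, 18)], [(16, 2), (13, 6), (8, 14), (4, 18)]⟩,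
  ⟨2, 32, 9, 18, 16, 32, 1, [(21, 0), (13, 8), (8, 12), (4, 14), (1, 16)], [(17, 8), (11, 12), (7, 14), (3, 16)]⟩,
  ⟨11, 34, 17, 0, 5, 1, 23, [(20, 0), (14, 2), (12, 4), (6, 12), (2, 18)], [(19, 2), (13, 4), (8, 12), (3, 18)]⟩,
  ⟨14, 35, 1, 18, 7, 21, 1, [(19, 0), (17, 2), (10, 4), (8, 6), (3, 14)], [(18, 2), (16, 4), (9, 6), (4, 14)]⟩,
  ⟨11, 15, 16, 37, 5, 15, 1, [(19, 0), (14, 4), (12, 6), (7, 12), (1, 22)], [(17, 4), (13, 6), (9, 12), (2, 22)]⟩,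
  ⟨16, 15, 1, 0, 7, 1, 23, [(17, 0), (13, 6), (11, 8), (6, 12), (3, 16)], [(14, 6), (12, 8), (9, 12), (4, 16)]⟩,
  ⟨1, 34, 7, 22, 17, 34, 1, [(20, 0), (14, 4), (12, 6), (8, 8), (5, 12)], [(18, 4), (13, 6), (11, 8), (6, 12)]⟩,
  ⟨17, 40, 7, 26, 1, 27, 1, [(19, 0), (13, 10), (11, 12), (9, 14), (5, 16)], [(14, 10), (12, 12), (10, 14), (8, 16)]⟩,
  ⟨4, 42, 13, 24, 14, 42, 1, [(18, 0), (16, 2), (8, 12), (5, 16), (1, 22)], [(17, 2), (11, 12), (6, 16), (2, 22)]⟩,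
  ⟨8, 33, 16, 33, 14, 21, 1, [(19, 0), (17, 2), (11, 6), (5, 14), (2, 16)], [(18, 2), (15, 6), (7, 14), (4, 16)]⟩,
  ⟨8, 9, 16, 22, 1, 23, 1, [(19, 0), (17, 2), (12, 10), (7, 12), (4, 14)], [(18, 2), (13, 10), (11, 12), (6, 14)]⟩,
  ⟨16, 34, 17, 0, 10, 1, 23, [(19, 0), (15, 2), (13, 4), (8, 12), (4, 14)], [(18, 2), (14, 4), (9, 12), (7, 14)]⟩,
  ⟨13, 4, 8, 4, 18, 30, 1, [(20, 0), (15, 2), (9, 10), (4, 14), (2, 16)], [(19, 2), (11, 10), (7, 14), (3, 16)]⟩,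
  ⟨16, 28, 14, 0, 7, 1, 21, [(17, 0), (13, 4), (6, 12), (3, 16), (1, 18)], [(15, 4), (9, 12), (4, 16), (2, 18)]⟩,
  ⟨7, 26, 13, 0, 3, 40, 15, [(17, 0), (15, 2), (12, 4), (6, 6), (2, 10)], [(16, 2), (14, 4), (11, 6), (4, 10)]⟩,
  ⟨7, 28, 3, 22, 13, 42, 1, [(18, 0), (16, 2), (12, 6), (9, 8), (2, 18)], [(17, 2), (14, 6), (11, 8), (4, 18)]⟩,
  ⟨1, 30, 15, 0, 7, 32, 23, [(21, 0), (17, 4), (14, 6), (8, 8), (3, 16)], [(19, 4), (16, 6), (13, 8), (4, 16)]⟩,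
  ⟨7, 4, 2, 0, 14, 18, 15, [(17, 0), (13, 2), (8, 6), (5, 10), (1, 12)], [(16, 2), (11, 6), (6, 10), (4, 12)]⟩,
  ⟨4, 3, 17, 11, 1, 1, 31, [(21, 0), (13, 14), (9, 18), (7, 20), (3, 24)], [(14, 14), (11, 18), (8, 20), (5, 24)]⟩,
  ⟨11, 13, 16, 13, 17, 1, 27, [(19, 0), (13, 10), (8, 16), (5, 20), (2, 22)], [(14, 10), (10, 16), (6, 20), (4, 22)]⟩,
  ⟨11, 41, 2, 41, 14, 18, 33, [(21, 0), (17, 4), (15, 6), (12, 10), (8, 16)], [(19, 4), (16, 6), (13, 10), (9, 16)]⟩]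

def tms45_3 : List Tm := [
  ⟨16, 18, 9, 0, 2, 1, 25, [(20, 0), (15, 6), (12, 8), (10, 10), (4, 16)], [(17, 6), (14, 8), (11, 10), (7, 16)]⟩,
  ⟨4, 16, 2, 24, 16, 29, 1, [(21, 0), (19, 2), (12, 12), (5, 22), (1, 26)], [(20, 2), (14, 12), (7, 22), (3, 26)]⟩,
  ⟨17, 9, 1, 43, 4, 1, 19, [(20, 0), (18, 2), (13, 6), (8, 10), (3, 12)], [(19, 2), (16, 6), (11, 10), (7, 12)]⟩,
  ⟨8, 41, 2, 41, 17, 12, 17, [(19, 0), (14, 2), (12, 4), (7, 6), (4, 8)], [(18, 2), (13, 4), (11, 6), (6, 8)]⟩,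
  ⟨8, 7, 19, 7, 11, 1, 21, [(16, 0), (14, 2), (12, 4), (7, 10), (2, 16)], [(15, 2), (13, 4), (9, 10), (4, 16)]⟩,
  ⟨11, 13, 16, 13, 17, 1, 21, [(21, 0), (14, 4), (9, 6), (6, 10), (3, 14)], [(19, 4), (13, 6), (7, 10), (4, 14)]⟩,
  ⟨1, 33, 5, 35, 16, 1, 21, [(19, 0), (14, 2), (11, 4), (7, 10), (2, 16)], [(18, 2), (13, 4), (8, 10), (4, 16)]⟩,
  ⟨7, 19, 17, 33, 2, 19, 1, [(19, 0), (15, 6), (12, 10), (8, 12), (1, 20)], [(16, 6), (13, 10), (11, 12), (4, 20)]⟩,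
  ⟨13, 38, 19, 0, 9, 1, 25, [(17, 0), (12, 6), (10, 8), (7, 12), (4, 16)], [(14, 6), (11, 8), (8, 12), (5, 16)]⟩,
  ⟨14, 42, 10, 25, 2, 42, 21, [(19, 0), (17, 2), (13, 4), (8, 12), (3, 14)], [(18, 2), (16, 4), (9, 12), (7, 14)]⟩,
  ⟨1, 37, 4, 37, 19, 1, 17, [(17, 0), (14, 2), (10, 6), (7, 10), (2, 12)], [(16, 2), (12, 6), (8, 10), (6, 12)]⟩,
  ⟨19, 29, 2, 22, 1, 27, 1, [(21, 0), (16, 8), (11, 12), (7, 16), (4, 18)], [(17, 8), (14, 12), (9, 16), (6, 18)]⟩,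
  ⟨2, 43, 8, 2, 12, 19, 1, [(20, 0), (14, 8), (7, 10), (4, 14), (1, 16)], [(16, 8), (13, 10), (5, 14), (3, 16)]⟩,
  ⟨7, 41, 2, 41, 18, 10, 31, [(21, 0), (17, 4), (14, 6), (8, 16), (5, 20)], [(19, 4), (16, 6), (9, 16), (6, 20)]⟩,
  ⟨14, 11, 17, 22, 8, 23, 1, [(20, 0), (13, 8), (7, 12), (3, 18), (1, 20)], [(16, 8), (11, 12), (4, 18), (2, 20)]⟩,
  ⟨16, 19, 11, 6, 5, 19, 1, [(19, 0), (17, 2), (12, 10), (8, 14), (1, 26)], [(18, 2), (13, 10), (10, 14), (2, 26)]⟩,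
  ⟨14, 16, 8, 0, 1, 44, 31, [(21, 0), (17, 4), (12, 12), (10, 14), (4, 22)], [(19, 4), (13, 12), (11, 14), (6, 22)]⟩,
  ⟨1, 7, 13, 26, 9, 9, 1, [(20, 0), (17, 2), (11, 12), (4, 20), (2, 22)], [(19, 2), (12, 12), (7, 20), (3, 22)]⟩,
  ⟨4, 39, 17, 39, 9, 29, 1, [(18, 0), (13, 8), (11, 10), (7, 16), (2, 24)], [(14, 8), (12, 10), (8, 16), (3, 24)]⟩,
  ⟨19, 18, 3, 18, 7, 11, 1, [(21, 0), (16, 8), (13, 12), (11, 14), (2, 20)], [(17, 8), (14, 12), (12, 14), (8, 20)]⟩,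
  ⟨16, 5, 4, 37, 2, 1, 23, [(20, 0), (15, 2), (12, 6), (10, 8), (5, 12)], [(19, 2), (13, 6), (11, 8), (8, 12)]⟩,
  ⟨14, 12, 8, 24, 16, 25, 1, [(19, 0), (17, 2), (10, 10), (5, 16), (1, 22)], [(18, 2), (13, 10), (7, 16), (2, 22)]⟩,
  ⟨17, 18, 9, 0, 3, 1, 21, [(21, 0), (12, 10), (8, 12), (5, 14), (2, 16)], [(16, 10), (11, 12), (7, 14), (4, 16)]⟩,
  ⟨14, 15, 1, 43, 7, 1, 29, [(19, 0), (17, 2), (15, 4), (9, 12), (3, 22)], [(18, 2), (16, 4), (11, 12), (4, 22)]⟩,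
  ⟨14, 8, 18, 0, 19, 8, 31, [(20, 0), (16, 6), (8, 18), (3, 26), (1, 28)], [(17, 6), (10, 18), (4, 26), (2, 28)]⟩,
  ⟨17, 40, 8, 24, 2, 25, 1, [(19, 0), (15, 6), (13, 8), (7, 16), (1, 22)], [(16, 6), (14, 8), (9, 16), (4, 22)]⟩,
  ⟨2, 44, 10, 24, 11, 3, 1, [(20, 0), (16, 6), (14, 8), (7, 12), (3, 18)], [(17, 6), (15, 8), (12, 12), (4, 18)]⟩,
  ⟨14, 15, 15, 15, 21, 1, 21, [(18, 0), (13, 2), (9, 6), (7, 8), (4, 12)], [(17, 2), (11, 6), (8, 8), (5, 12)]⟩,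
  ⟨13, 26, 17, 18, 19, 26, 1, [(18, 0), (11, 8), (8, 12), (3, 14), (1, 16)], [(14, 8), (9, 12), (7, 14), (2, 16)]⟩,
  ⟨13, 40, 8, 24, 2, 21, 1, [(19, 0), (14, 4), (11, 8), (7, 12), (4, 16)], [(17, 4), (12, 8), (9, 12), (5, 16)]⟩,
  ⟨14, 23, 11, 23, 20, 6, 19, [(19, 0), (17, 2), (13, 4), (7, 10), (3, 12)], [(18, 2), (16, 4), (10, 10), (6, 12)]⟩,
  ⟨4, 35, 1, 43, 17, 1, 21, [(18, 0), (13, 4), (11, 6), (9, 8), (5, 10)], [(16, 4), (12, 6), (10, 8), (8, 10)]⟩,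
  ⟨13, 26, 19, 7, 10, 26, 17, [(18, 0), (14, 2), (8, 8), (3, 12), (1, 14)], [(17, 2), (11, 8), (6, 12), (2, 14)]⟩,
  ⟨17, 42, 13, 16, 7, 17, 1, [(19, 0), (15, 6), (8, 8), (4, 12), (1, 14)], [(16, 6), (14, 8), (6, 12), (3, 14)]⟩,
  ⟨19, 9, 10, 2, 7, 9, 1, [(16, 0), (12, 6), (6, 14), (4, 16), (1, 20)], [(13, 6), (8, 14), (5, 16), (2, 20)]⟩,
  ⟨2, 8, 4, 0, 17, 12, 25, [(19, 0), (16, 2), (13, 6), (7, 16), (3, 18)], [(18, 2), (14, 6), (8, 16), (6, 18)]⟩,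
  ⟨4, 15, 15, 15, 11, 1, 21, [(21, 0), (17, 4), (13, 6), (9, 8), (5, 10)], [(19, 4), (16, 6), (12, 8), (8, 10)]⟩,
  ⟨7, 44, 11, 22, 5, 13, 1, [(20, 0), (14, 6), (12, 8), (4, 16), (1, 20)], [(17, 6), (13, 8), (8, 16), (2, 20)]⟩,
  ⟨17, 31, 7, 31, 13, 20, 15, [(18, 0), (12, 4), (10, 6), (4, 8), (1, 12)], [(16, 4), (11, 6), (9, 8), (2, 12)]⟩,
  ⟨14, 3, 11, 26, 2, 27, 1, [(21, 0), (17, 4), (15, 6), (7, 20), (1, 24)], [(19, 4), (16, 6), (8, 20), (5, 24)]⟩,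
  ⟨13, 17, 1, 43, 8, 1, 29, [(20, 0), (16, 2), (14, 4), (10, 10), (3, 22)], [(19, 2), (15, 4), (11, 10), (4, 22)]⟩,
  ⟨7, 27, 2, 41, 13, 1, 23, [(19, 0), (17, 2), (14, 4), (11, 8), (4, 14)], [(18, 2), (16, 4), (12, 8), (8, 14)]⟩,
  ⟨7, 41, 2, 41, 18, 10, 23, [(19, 0), (14, 4), (11, 6), (8, 8), (3, 16)], [(17, 4), (13, 6), (10, 8), (4, 16)]⟩,
  ⟨19, 42, 21, 0, 17, 1, 25, [(16, 0), (13, 4), (10, 8), (8, 10), (2, 20)], [(14, 4), (11, 8), (9, 10), (3, 20)]⟩,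
  ⟨7, 17, 14, 17, 15, 1, 19, [(21, 0), (19, 2), (11, 6), (4, 12), (2, 14)], [(20, 2), (17, 6), (8, 12), (3, 14)]⟩,
  ⟨13, 30, 17, 11, 8, 30, 29, [(21, 0), (19, 2), (15, 8), (9, 16), (1, 26)], [(20, 2), (16, 8), (11, 16), (4, 26)]⟩,
  ⟨17, 2, 13, 2, 19, 36, 1, [(20, 0), (12, 10), (8, 16), (6, 18), (1, 26)], [(15, 10), (9, 16), (7, 18), (2, 26)]⟩,
  ⟨8, 41, 6, 0, 20, 1, 21, [(19, 0), (16, 4), (13, 6), (7, 10), (2, 16)], [(17, 4), (15, 6), (11, 10), (4, 16)]⟩,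
  ⟨17, 44, 6, 33, 1, 44, 23, [(19, 0), (14, 6), (9, 12), (5, 14), (2, 18)], [(16, 6), (11, 12), (8, 14), (3, 18)]⟩,
  ⟨19, 44, 14, 37, 11, 44, 1, [(17, 0), (15, 2), (7, 14), (4, 16), (1, 18)], [(16, 2), (9, 14), (6, 16), (3, 18)]⟩]

def tms45_4 : List Tm := [
  ⟨11, 41, 2, 41, 14, 18, 21, [(17, 0), (13, 4), (9, 6), (7, 8), (4, 12)], [(15, 4), (12, 6), (8, 8), (5, 12)]⟩,
  ⟨7, 42, 17, 11, 2, 42, 23, [(18, 0), (14, 4), (12, 6), (10, 8), (3, 16)], [(16, 4), (13, 6), (11, 8), (6, 16)]⟩,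
  ⟨8, 4, 10, 0, 21, 4, 19, [(19, 0), (14, 2), (11, 6), (7, 10), (2, 14)], [(18, 2), (12, 6), (9, 10), (5, 14)]⟩,
  ⟨19, 3, 21, 3, 20, 1, 19, [(18, 0), (14, 4), (11, 6), (3, 14), (1, 16)], [(16, 4), (13, 6), (7, 14), (2, 16)]⟩,
  ⟨14, 19, 20, 24, 11, 25, 1, [(19, 0), (15, 6), (12, 10), (5, 20), (1, 22)], [(16, 6), (13, 10), (7, 20), (4, 22)]⟩,
  ⟨17, 33, 11, 0, 16, 1, 27, [(19, 0), (14, 8), (9, 12), (6, 16), (1, 24)], [(15, 8), (12, 12), (7, 16), (2, 24)]⟩,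
  ⟨11, 13, 19, 35, 8, 13, 1, [(21, 0), (15, 10), (10, 16), (4, 22), (1, 26)], [(16, 10), (12, 16), (7, 22), (2, 26)]⟩,
  ⟨13, 9, 18, 9, 17, 1, 29, [(21, 0), (14, 10), (10, 16), (7, 18), (2, 24)], [(16, 10), (11, 16), (9, 18), (4, 24)]⟩,
  ⟨4, 20, 14, 0, 13, 20, 19, [(21, 0), (18, 4), (12, 10), (9, 12), (2, 14)], [(19, 4), (15, 10), (11, 12), (8, 14)]⟩,
  ⟨13, 42, 11, 23, 2, 42, 21, [(20, 0), (18, 2), (16, 4), (8, 8), (4, 12)], [(19, 2), (17, 4), (14, 8), (6, 12)]⟩,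
  ⟨7, 38, 19, 0, 3, 1, 15, [(17, 0), (14, 2), (10, 8), (5, 10), (1, 12)], [(16, 2), (11, 8), (9, 10), (4, 12)]⟩,
  ⟨19, 14, 5, 14, 9, 7, 1, [(21, 0), (13, 8), (10, 12), (4, 18), (1, 22)], [(17, 8), (11, 12), (7, 18), (2, 22)]⟩,
  ⟨17, 14, 7, 0, 1, 1, 23, [(20, 0), (13, 8), (11, 10), (4, 16), (2, 18)], [(16, 8), (12, 10), (8, 16), (3, 18)]⟩,
  ⟨19, 34, 17, 0, 13, 1, 29, [(20, 0), (14, 8), (9, 14), (7, 16), (5, 18)], [(16, 8), (11, 14), (8, 16), (6, 18)]⟩,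
  ⟨4, 27, 15, 35, 3, 21, 1, [(21, 0), (17, 4), (11, 6), (5, 12), (1, 18)], [(19, 4), (16, 6), (8, 12), (2, 18)]⟩,
  ⟨17, 37, 14, 37, 20, 26, 1, [(19, 0), (13, 6), (10, 8), (4, 14), (1, 18)], [(16, 6), (12, 8), (7, 14), (2, 18)]⟩,
  ⟨14, 14, 21, 0, 16, 14, 17, [(17, 0), (12, 4), (8, 6), (6, 8), (3, 10)], [(15, 4), (11, 6), (7, 8), (5, 10)]⟩,
  ⟨2, 14, 7, 0, 14, 18, 13, [(20, 0), (18, 2), (16, 4), (8, 6), (1, 10)], [(19, 2), (17, 4), (15, 6), (6, 10)]⟩,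
  ⟨8, 41, 12, 41, 18, 21, 1, [(17, 0), (14, 4), (11, 6), (7, 10), (2, 16)], [(15, 4), (13, 6), (9, 10), (4, 16)]⟩,
  ⟨17, 27, 8, 0, 13, 1, 19, [(19, 0), (16, 2), (14, 4), (6, 10), (2, 14)], [(18, 2), (15, 4), (11, 10), (4, 14)]⟩,
  ⟨14, 7, 19, 7, 17, 1, 21, [(16, 0), (13, 2), (11, 4), (5, 12), (1, 18)], [(15, 2), (12, 4), (7, 12), (2, 18)]⟩,
  ⟨4, 5, 13, 32, 14, 5, 1, [(21, 0), (15, 10), (9, 18), (7, 20), (2, 28)], [(16, 10), (11, 18), (8, 20), (3, 28)]⟩,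
  ⟨8, 14, 15, 0, 16, 14, 25, [(20, 0), (17, 2), (11, 10), (5, 18), (2, 20)], [(19, 2), (13, 10), (7, 18), (4, 20)]⟩,
  ⟨19, 3, 21, 3, 20, 1, 19, [(16, 0), (11, 6), (8, 8), (5, 10), (3, 12)], [(13, 6), (10, 8), (7, 10), (4, 12)]⟩,
  ⟨2, 39, 12, 43, 8, 23, 1, [(18, 0), (16, 2), (11, 6), (5, 14), (3, 16)], [(17, 2), (14, 6), (7, 14), (4, 16)]⟩,
  ⟨13, 34, 17, 0, 7, 1, 17, [(20, 0), (14, 2), (11, 6), (4, 10), (2, 12)], [(19, 2), (12, 6), (9, 10), (3, 12)]⟩,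
  ⟨4, 42, 13, 24, 14, 42, 1, [(19, 0), (16, 2), (9, 12), (3, 20), (1, 22)], [(18, 2), (11, 12), (5, 20), (2, 22)]⟩,
  ⟨2, 4, 4, 0, 21, 4, 23, [(19, 0), (15, 6), (12, 10), (8, 14), (1, 20)], [(16, 6), (13, 10), (10, 14), (5, 20)]⟩,
  ⟨4, 36, 18, 0, 1, 44, 21, [(21, 0), (17, 4), (12, 6), (8, 8), (5, 10)], [(19, 4), (16, 6), (11, 8), (7, 10)]⟩,
  ⟨14, 44, 11, 22, 2, 23, 1, [(18, 0), (16, 2), (10, 8), (6, 12), (3, 16)], [(17, 2), (13, 8), (8, 12), (4, 16)]⟩,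
  ⟨7, 24, 12, 0, 4, 38, 17, [(20, 0), (16, 2), (9, 4), (6, 6), (1, 14)], [(19, 2), (15, 4), (8, 6), (2, 14)]⟩,
  ⟨2, 40, 11, 22, 14, 40, 1, [(18, 0), (15, 4), (8, 10), (6, 12), (3, 16)], [(16, 4), (12, 10), (7, 12), (4, 16)]⟩,
  ⟨7, 4, 2, 0, 14, 18, 23, [(19, 0), (17, 2), (13, 6), (8, 10), (4, 14)], [(18, 2), (15, 6), (11, 10), (6, 14)]⟩,
  ⟨19, 39, 11, 39, 15, 32, 1, [(18, 0), (16, 2), (7, 8), (4, 12), (1, 14)], [(17, 2), (13, 8), (5, 12), (3, 14)]⟩,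
  ⟨2, 13, 14, 17, 6, 1, 23, [(19, 0), (17, 2), (13, 6), (11, 8), (4, 14)], [(18, 2), (15, 6), (12, 8), (8, 14)]⟩,
  ⟨7, 33, 16, 33, 13, 21, 1, [(18, 0), (14, 6), (6, 12), (3, 16), (1, 18)], [(15, 6), (11, 12), (4, 16), (2, 18)]⟩,
  ⟨8, 33, 14, 33, 16, 17, 1, [(19, 0), (13, 2), (9, 6), (4, 10), (1, 14)], [(18, 2), (11, 6), (7, 10), (2, 14)]⟩,
  ⟨4, 35, 1, 43, 17, 1, 17, [(19, 0), (14, 2), (12, 4), (8, 6), (2, 12)], [(18, 2), (13, 4), (11, 6), (5, 12)]⟩,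
  ⟨7, 40, 20, 0, 4, 1, 25, [(19, 0), (14, 6), (11, 10), (8, 14), (2, 20)], [(16, 6), (12, 10), (9, 14), (5, 20)]⟩,
  ⟨11, 17, 14, 17, 19, 1, 25, [(21, 0), (16, 2), (13, 4), (7, 14), (2, 20)], [(20, 2), (15, 4), (8, 14), (4, 20)]⟩,
  ⟨1, 28, 14, 0, 8, 30, 25, [(21, 0), (19, 2), (13, 8), (11, 10), (3, 18)], [(20, 2), (16, 8), (12, 10), (7, 18)]⟩,
  ⟨7, 25, 10, 25, 19, 1, 19, [(17, 0), (14, 2), (11, 6), (5, 12), (2, 14)], [(16, 2), (12, 6), (8, 12), (4, 14)]⟩,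
  ⟨4, 36, 11, 22, 16, 36, 1, [(21, 0), (14, 4), (10, 8), (6, 12), (2, 18)], [(19, 4), (12, 8), (8, 12), (3, 18)]⟩,
  ⟨17, 43, 1, 43, 7, 32, 19, [(15, 0), (12, 2), (6, 10), (4, 12), (2, 14)], [(14, 2), (8, 10), (5, 12), (3, 14)]⟩,
  ⟨11, 16, 1, 16, 13, 38, 1, [(20, 0), (10, 6), (7, 10), (4, 12), (2, 14)], [(17, 6), (8, 10), (6, 12), (3, 14)]⟩,
  ⟨13, 17, 1, 43, 8, 1, 23, [(19, 0), (17, 2), (12, 6), (7, 12), (4, 14)], [(18, 2), (15, 6), (9, 12), (6, 14)]⟩,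
  ⟨4, 20, 10, 0, 9, 28, 25, [(20, 0), (16, 2), (13, 6), (5, 16), (1, 22)], [(19, 2), (14, 6), (8, 16), (2, 22)]⟩,
  ⟨19, 5, 1, 43, 2, 1, 23, [(18, 0), (16, 2), (12, 6), (8, 12), (4, 14)], [(17, 2), (14, 6), (9, 12), (7, 14)]⟩,
  ⟨16, 22, 21, 12, 18, 22, 1, [(20, 0), (14, 2), (8, 4), (4, 6), (1, 10)], [(19, 2), (13, 4), (7, 6), (2, 10)]⟩,
  ⟨1, 9, 18, 9, 5, 1, 25, [(19, 0), (14, 6), (9, 12), (7, 14), (2, 20)], [(16, 6), (11, 12), (8, 14), (4, 20)]⟩]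

def tms45_5 : List Tm := [
  ⟨8, 40, 17, 22, 14, 40, 1, [(21, 0), (16, 2), (10, 12), (5, 14), (2, 18)], [(20, 2), (11, 12), (9, 14), (3, 18)]⟩,
  ⟨7, 17, 14, 17, 15, 1, 23, [(18, 0), (13, 2), (8, 10), (3, 18), (1, 20)], [(17, 2), (9, 10), (4, 18), (2, 20)]⟩,
  ⟨7, 43, 1, 43, 17, 12, 29, [(18, 0), (13, 8), (9, 14), (4, 22), (2, 24)], [(14, 8), (10, 14), (5, 22), (3, 24)]⟩,
  ⟨16, 26, 13, 0, 6, 1, 29, [(19, 0), (14, 8), (9, 16), (5, 20), (2, 24)], [(15, 8), (10, 16), (7, 20), (3, 24)]⟩,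
  ⟨2, 25, 8, 29, 12, 1, 21, [(18, 0), (14, 4), (10, 10), (5, 16), (1, 18)], [(16, 4), (11, 10), (7, 16), (4, 18)]⟩,
  ⟨1, 27, 17, 29, 4, 19, 1, [(18, 0), (14, 6), (8, 8), (5, 10), (2, 14)], [(15, 6), (13, 8), (7, 10), (3, 14)]⟩,
  ⟨13, 11, 17, 11, 18, 1, 15, [(20, 0), (16, 2), (12, 4), (6, 6), (1, 12)], [(19, 2), (15, 4), (11, 6), (3, 12)]⟩,
  ⟨14, 15, 1, 43, 7, 1, 25, [(20, 0), (18, 2), (16, 4), (11, 10), (4, 16)], [(19, 2), (17, 4), (13, 10), (8, 16)]⟩,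
  ⟨7, 42, 17, 11, 2, 42, 21, [(19, 0), (15, 2), (12, 4), (8, 6), (4, 12)], [(18, 2), (14, 4), (11, 6), (5, 12)]⟩,
  ⟨8, 32, 12, 24, 19, 32, 1, [(20, 0), (14, 10), (11, 12), (6, 14), (1, 22)], [(15, 10), (13, 12), (10, 14), (2, 22)]⟩,
  ⟨13, 43, 1, 43, 11, 24, 19, [(20, 0), (16, 2), (12, 4), (6, 8), (3, 12)], [(19, 2), (15, 4), (10, 8), (4, 12)]⟩,
  ⟨13, 3, 8, 29, 1, 1, 33, [(21, 0), (17, 6), (15, 8), (5, 24), (3, 26)], [(18, 6), (16, 8), (7, 24), (4, 26)]⟩,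
  ⟨2, 28, 4, 20, 17, 32, 1, [(20, 0), (15, 8), (13, 10), (9, 16), (1, 18)], [(16, 8), (14, 10), (10, 16), (8, 18)]⟩,
  ⟨4, 7, 19, 7, 7, 1, 21, [(16, 0), (13, 4), (10, 8), (5, 12), (1, 18)], [(14, 4), (11, 8), (8, 12), (2, 18)]⟩,
  ⟨19, 43, 7, 22, 10, 23, 1, [(20, 0), (15, 8), (8, 10), (5, 14), (3, 16)], [(16, 8), (14, 10), (6, 14), (4, 16)]⟩,
  ⟨11, 32, 19, 16, 15, 32, 1, [(17, 0), (14, 2), (10, 4), (7, 6), (1, 14)], [(16, 2), (13, 4), (9, 6), (3, 14)]⟩,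
  ⟨4, 8, 8, 0, 19, 8, 29, [(20, 0), (14, 10), (11, 12), (5, 20), (1, 26)], [(15, 10), (13, 12), (7, 20), (2, 26)]⟩,
  ⟨19, 25, 4, 18, 1, 25, 1, [(18, 0), (16, 2), (13, 6), (9, 10), (7, 12)], [(17, 2), (14, 6), (11, 10), (8, 12)]⟩,
  ⟨19, 15, 4, 0, 7, 1, 25, [(20, 0), (16, 4), (12, 10), (10, 12), (1, 22)], [(18, 4), (13, 10), (11, 12), (5, 22)]⟩,
  ⟨2, 39, 1, 43, 19, 1, 25, [(18, 0), (16, 2), (14, 4), (8, 10), (6, 12)], [(17, 2), (15, 4), (11, 10), (7, 12)]⟩,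
  ⟨7, 28, 14, 0, 2, 42, 23, [(17, 0), (12, 8), (10, 10), (4, 18), (1, 20)], [(13, 8), (11, 10), (6, 18), (3, 20)]⟩,
  ⟨19, 22, 11, 0, 7, 1, 17, [(16, 0), (14, 2), (12, 4), (5, 8), (3, 10)], [(15, 2), (13, 4), (10, 8), (4, 10)]⟩,
  ⟨2, 40, 20, 0, 1, 44, 15, [(17, 0), (12, 2), (8, 4), (6, 6), (3, 8)], [(16, 2), (11, 4), (7, 6), (5, 8)]⟩,
  ⟨1, 39, 2, 41, 19, 1, 19, [(18, 0), (15, 2), (12, 6), (8, 8), (4, 10)], [(17, 2), (13, 6), (11, 8), (7, 10)]⟩,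
  ⟨19, 42, 21, 0, 17, 1, 27, [(20, 0), (16, 4), (11, 10), (7, 16), (2, 22)], [(18, 4), (13, 10), (8, 16), (4, 22)]⟩,
  ⟨17, 3, 21, 3, 18, 1, 25, [(20, 0), (13, 8), (8, 14), (6, 16), (2, 20)], [(16, 8), (10, 14), (7, 16), (4, 20)]⟩,
  ⟨19, 3, 21, 3, 20, 1, 23, [(18, 0), (14, 4), (12, 6), (8, 8), (1, 20)], [(16, 4), (13, 6), (11, 8), (2, 20)]⟩,
  ⟨7, 4, 9, 0, 21, 4, 17, [(20, 0), (14, 6), (11, 8), (8, 10), (1, 14)], [(17, 6), (13, 8), (10, 10), (6, 14)]⟩,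
  ⟨7, 37, 4, 37, 20, 6, 23, [(21, 0), (16, 8), (13, 12), (6, 16), (2, 18)], [(17, 8), (14, 12), (11, 16), (5, 18)]⟩,
  ⟨16, 16, 8, 0, 1, 1, 19, [(21, 0), (17, 4), (13, 8), (11, 10), (2, 14)], [(19, 4), (15, 8), (12, 10), (9, 14)]⟩,
  ⟨7, 33, 1, 0, 16, 1, 19, [(19, 0), (12, 4), (10, 6), (6, 8), (3, 12)], [(17, 4), (11, 6), (9, 8), (4, 12)]⟩,
  ⟨19, 37, 4, 37, 8, 30, 17, [(21, 0), (18, 2), (13, 6), (7, 10), (2, 12)], [(20, 2), (16, 6), (11, 10), (6, 12)]⟩,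
  ⟨11, 8, 4, 0, 8, 30, 23, [(17, 0), (15, 2), (12, 4), (5, 16), (1, 20)], [(16, 2), (14, 4), (6, 16), (3, 20)]⟩,
  ⟨19, 43, 1, 43, 5, 36, 19, [(17, 0), (13, 2), (11, 4), (6, 10), (2, 14)], [(16, 2), (12, 4), (8, 10), (4, 14)]⟩,
  ⟨2, 28, 16, 0, 9, 28, 17, [(20, 0), (18, 2), (15, 4), (4, 12), (1, 14)], [(19, 2), (17, 4), (11, 12), (3, 14)]⟩,
  ⟨8, 4, 2, 0, 13, 20, 25, [(21, 0), (17, 6), (15, 8), (7, 16), (1, 22)], [(18, 6), (16, 8), (11, 16), (4, 22)]⟩,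
  ⟨16, 20, 19, 7, 13, 20, 23, [(17, 0), (14, 4), (8, 10), (6, 12), (3, 16)], [(15, 4), (11, 10), (7, 12), (4, 16)]⟩,
  ⟨11, 41, 12, 41, 21, 21, 1, [(17, 0), (14, 4), (9, 6), (6, 10), (2, 16)], [(15, 4), (13, 6), (7, 10), (3, 16)]⟩,
  ⟨2, 3, 19, 7, 1, 1, 29, [(20, 0), (14, 10), (11, 12), (8, 16), (3, 22)], [(15, 10), (13, 12), (9, 16), (5, 22)]⟩,
  ⟨1, 21, 12, 21, 11, 1, 15, [(20, 0), (17, 2), (15, 4), (10, 6), (2, 10)], [(19, 2), (16, 4), (14, 6), (8, 10)]⟩,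
  ⟨17, 25, 7, 0, 12, 1, 33, [(21, 0), (13, 12), (5, 26), (3, 28), (1, 30)], [(15, 12), (6, 26), (4, 28), (2, 30)]⟩,
  ⟨13, 7, 19, 7, 16, 1, 21, [(18, 0), (9, 8), (6, 12), (3, 16), (1, 18)], [(14, 8), (7, 12), (4, 16), (2, 18)]⟩,
  ⟨4, 40, 6, 28, 13, 3, 1, [(19, 0), (16, 4), (9, 16), (5, 20), (1, 26)], [(17, 4), (10, 16), (7, 20), (2, 26)]⟩,
  ⟨19, 28, 8, 12, 4, 13, 1, [(18, 0), (16, 2), (14, 4), (6, 6), (2, 8)], [(17, 2), (15, 4), (13, 6), (5, 8)]⟩,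
  ⟨16, 19, 3, 0, 9, 1, 23, [(19, 0), (13, 8), (7, 12), (4, 16), (1, 20)], [(15, 8), (11, 12), (5, 16), (2, 20)]⟩,
  ⟨13, 24, 20, 5, 11, 24, 19, [(17, 0), (15, 2), (9, 8), (5, 10), (1, 16)], [(16, 2), (12, 8), (8, 10), (2, 16)]⟩,
  ⟨2, 40, 9, 22, 12, 44, 1, [(21, 0), (15, 4), (13, 6), (6, 16), (1, 20)], [(19, 4), (14, 6), (8, 16), (4, 20)]⟩,
  ⟨13, 9, 16, 22, 6, 23, 1, [(20, 0), (14, 10), (11, 14), (8, 16), (2, 18)], [(15, 10), (12, 14), (10, 16), (7, 18)]⟩,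
  ⟨16, 6, 19, 0, 20, 6, 21, [(18, 0), (13, 8), (8, 12), (3, 16), (1, 18)], [(14, 8), (11, 12), (6, 16), (2, 18)]⟩,
  ⟨17, 34, 11, 23, 6, 34, 25, [(19, 0), (15, 2), (13, 4), (7, 12), (4, 16)], [(18, 2), (14, 4), (9, 12), (5, 16)]⟩]

def tms45_6 : List Tm := [
  ⟨8, 10, 13, 0, 18, 10, 23, [(21, 0), (17, 4), (14, 6), (7, 14), (3, 16)], [(19, 4), (16, 6), (10, 14), (6, 16)]⟩,
  ⟨13, 7, 19, 7, 16, 1, 27, [(21, 0), (15, 8), (12, 10), (7, 14), (5, 16)], [(17, 8), (14, 10), (10, 14), (6, 16)]⟩,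
  ⟨8, 33, 2, 0, 16, 1, 21, [(19, 0), (14, 8), (7, 12), (4, 16), (1, 18)], [(15, 8), (12, 12), (5, 16), (3, 18)]⟩,
  ⟨2, 28, 14, 0, 7, 32, 25, [(21, 0), (19, 2), (16, 6), (11, 12), (3, 18)], [(20, 2), (17, 6), (13, 12), (8, 18)]⟩,
  ⟨17, 38, 9, 27, 4, 38, 23, [(20, 0), (16, 2), (13, 4), (6, 16), (2, 18)], [(19, 2), (15, 4), (7, 16), (5, 18)]⟩,
  ⟨7, 30, 15, 0, 1, 44, 17, [(20, 0), (18, 2), (16, 4), (10, 8), (3, 10)], [(19, 2), (17, 4), (14, 8), (9, 10)]⟩,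
  ⟨4, 35, 5, 35, 21, 1, 15, [(15, 0), (13, 2), (11, 4), (8, 6), (2, 10)], [(14, 2), (12, 4), (10, 6), (6, 10)]⟩,
  ⟨2, 40, 20, 0, 1, 44, 21, [(17, 0), (14, 2), (9, 6), (7, 8), (3, 14)], [(16, 2), (12, 6), (8, 8), (4, 14)]⟩,
  ⟨4, 21, 8, 29, 10, 1, 17, [(19, 0), (16, 2), (14, 4), (6, 6), (2, 12)], [(18, 2), (15, 4), (13, 6), (3, 12)]⟩,
  ⟨8, 21, 12, 21, 18, 1, 27, [(21, 0), (15, 8), (9, 12), (6, 16), (2, 22)], [(17, 8), (13, 12), (7, 16), (3, 22)]⟩,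
  ⟨2, 12, 8, 0, 17, 12, 29, [(21, 0), (18, 4), (15, 8), (7, 20), (3, 22)], [(19, 4), (16, 8), (9, 20), (6, 22)]⟩,
  ⟨11, 4, 13, 0, 21, 4, 21, [(20, 0), (16, 6), (9, 10), (5, 12), (1, 18)], [(17, 6), (14, 10), (8, 12), (2, 18)]⟩,
  ⟨4, 7, 19, 7, 7, 1, 23, [(17, 0), (15, 2), (9, 10), (6, 12), (2, 18)], [(16, 2), (11, 10), (8, 12), (3, 18)]⟩,
  ⟨2, 33, 6, 33, 18, 1, 13, [(20, 0), (13, 2), (8, 6), (4, 8), (1, 10)], [(19, 2), (11, 6), (7, 8), (3, 10)]⟩,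
  ⟨16, 5, 4, 37, 2, 1, 21, [(19, 0), (13, 8), (11, 10), (9, 12), (3, 14)], [(15, 8), (12, 10), (10, 12), (8, 14)]⟩,
  ⟨2, 31, 7, 31, 17, 1, 27, [(21, 0), (15, 10), (12, 14), (10, 16), (4, 18)], [(16, 10), (13, 14), (11, 16), (9, 18)]⟩,
  ⟨17, 15, 15, 15, 21, 4, 25, [(20, 0), (18, 2), (8, 16), (6, 18), (1, 22)], [(19, 2), (11, 16), (7, 18), (4, 22)]⟩,
  ⟨13, 6, 16, 0, 20, 6, 21, [(17, 0), (12, 4), (8, 8), (4, 14), (1, 18)], [(15, 4), (10, 8), (5, 14), (2, 18)]⟩,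
  ⟨16, 37, 4, 37, 11, 24, 21, [(20, 0), (15, 2), (12, 4), (5, 12), (2, 16)], [(19, 2), (14, 4), (8, 12), (3, 16)]⟩,
  ⟨8, 27, 18, 27, 12, 19, 1, [(20, 0), (17, 2), (13, 4), (6, 8), (1, 16)], [(19, 2), (16, 4), (11, 8), (2, 16)]⟩,
  ⟨4, 6, 3, 0, 16, 14, 21, [(20, 0), (14, 10), (12, 12), (6, 16), (1, 18)], [(15, 10), (13, 12), (10, 16), (5, 18)]⟩,
  ⟨14, 24, 19, 7, 11, 24, 17, [(18, 0), (16, 2), (9, 8), (5, 10), (1, 14)], [(17, 2), (13, 8), (8, 10), (3, 14)]⟩,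
  ⟨16, 44, 7, 31, 1, 44, 29, [(20, 0), (17, 2), (12, 10), (9, 14), (4, 20)], [(19, 2), (13, 10), (10, 14), (6, 20)]⟩,
  ⟨17, 14, 7, 0, 1, 1, 23, [(20, 0), (14, 10), (10, 12), (4, 16), (2, 18)], [(15, 10), (13, 12), (8, 16), (3, 18)]⟩,
  ⟨17, 15, 2, 0, 7, 1, 25, [(19, 0), (15, 6), (13, 8), (8, 10), (3, 18)], [(16, 6), (14, 8), (12, 10), (4, 18)]⟩,
  ⟨14, 44, 9, 27, 1, 44, 23, [(21, 0), (18, 2), (16, 4), (11, 12), (4, 14)], [(20, 2), (17, 4), (12, 12), (10, 14)]⟩,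
  ⟨2, 14, 7, 0, 14, 18, 21, [(19, 0), (13, 4), (11, 6), (6, 10), (4, 12)], [(17, 4), (12, 6), (9, 10), (5, 12)]⟩,
  ⟨16, 6, 3, 0, 4, 38, 23, [(20, 0), (15, 2), (10, 10), (6, 16), (2, 18)], [(19, 2), (11, 10), (7, 16), (5, 18)]⟩,
  ⟨2, 44, 10, 24, 11, 3, 1, [(20, 0), (16, 4), (13, 6), (6, 18), (1, 22)], [(18, 4), (15, 6), (7, 18), (4, 22)]⟩,
  ⟨7, 28, 4, 20, 12, 42, 1, [(20, 0), (15, 8), (9, 12), (6, 14), (2, 16)], [(16, 8), (13, 12), (8, 14), (5, 16)]⟩,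
  ⟨11, 11, 6, 33, 5, 1, 27, [(18, 0), (13, 8), (8, 14), (3, 22), (1, 24)], [(14, 8), (10, 14), (4, 22), (2, 24)]⟩,
  ⟨8, 3, 13, 19, 1, 1, 29, [(20, 0), (16, 4), (10, 14), (4, 22), (2, 24)], [(18, 4), (11, 14), (6, 22), (3, 24)]⟩,
  ⟨16, 6, 19, 0, 20, 6, 23, [(18, 0), (13, 8), (11, 10), (5, 18), (1, 20)], [(14, 8), (12, 10), (7, 18), (4, 20)]⟩,
  ⟨7, 18, 16, 0, 14, 18, 21, [(21, 0), (18, 4), (10, 10), (4, 14), (2, 16)], [(19, 4), (15, 10), (8, 14), (3, 16)]⟩,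
  ⟨13, 16, 1, 16, 11, 42, 1, [(18, 0), (16, 2), (10, 4), (7, 6), (4, 10)], [(17, 2), (15, 4), (9, 6), (5, 10)]⟩,
  ⟨16, 43, 7, 16, 13, 17, 1, [(14, 0), (10, 6), (5, 10), (3, 12), (1, 14)], [(11, 6), (8, 10), (4, 12), (2, 14)]⟩,
  ⟨16, 39, 2, 26, 4, 31, 1, [(21, 0), (18, 4), (12, 12), (8, 18), (5, 20)], [(19, 4), (14, 12), (9, 18), (7, 20)]⟩,
  ⟨1, 15, 14, 17, 7, 1, 35, [(21, 0), (15, 10), (10, 18), (5, 26), (3, 28)], [(16, 10), (11, 18), (6, 26), (4, 28)]⟩,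
  ⟨11, 38, 19, 0, 7, 1, 21, [(20, 0), (12, 6), (8, 12), (4, 16), (1, 18)], [(17, 6), (9, 12), (6, 16), (3, 18)]⟩,
  ⟨11, 42, 13, 19, 2, 42, 27, [(20, 0), (17, 4), (14, 6), (6, 20), (1, 24)], [(18, 4), (16, 6), (7, 20), (4, 24)]⟩,
  ⟨17, 3, 21, 3, 18, 1, 21, [(19, 0), (14, 6), (8, 14), (4, 16), (1, 18)], [(16, 6), (10, 14), (7, 16), (3, 18)]⟩,
  ⟨17, 27, 19, 27, 20, 21, 1, [(21, 0), (15, 10), (13, 12), (4, 14), (1, 18)], [(16, 10), (14, 12), (12, 14), (2, 18)]⟩,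
  ⟨8, 19, 5, 35, 9, 1, 25, [(19, 0), (14, 2), (11, 6), (3, 20), (1, 22)], [(18, 2), (12, 6), (4, 20), (2, 22)]⟩,
  ⟨19, 41, 17, 0, 20, 1, 21, [(16, 0), (10, 6), (6, 12), (4, 14), (1, 18)], [(13, 6), (7, 12), (5, 14), (2, 18)]⟩,
  ⟨14, 3, 7, 31, 1, 1, 25, [(20, 0), (17, 4), (11, 6), (8, 10), (2, 20)], [(18, 4), (16, 6), (9, 10), (3, 20)]⟩,
  ⟨4, 18, 2, 18, 21, 26, 1, [(18, 0), (15, 2), (13, 4), (8, 12), (3, 16)], [(17, 2), (14, 4), (9, 12), (6, 16)]⟩,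
  ⟨7, 21, 12, 21, 17, 1, 23, [(19, 0), (13, 6), (8, 10), (5, 14), (2, 18)], [(16, 6), (11, 10), (6, 14), (3, 18)]⟩,
  ⟨14, 24, 19, 7, 11, 24, 27, [(21, 0), (13, 8), (7, 16), (5, 18), (2, 22)], [(17, 8), (9, 16), (6, 18), (3, 22)]⟩,
  ⟨4, 26, 5, 16, 14, 34, 1, [(19, 0), (17, 2), (13, 6), (8, 8), (3, 10)], [(18, 2), (15, 6), (12, 8), (7, 10)]⟩,
  ⟨7, 8, 4, 0, 12, 22, 19, [(21, 0), (16, 4), (8, 10), (3, 14), (1, 16)], [(19, 4), (13, 10), (6, 14), (2, 16)]⟩]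

def tms45_7 : List Tm := [
  ⟨11, 13, 16, 13, 17, 1, 25, [(21, 0), (15, 6), (12, 8), (5, 16), (3, 18)], [(18, 6), (14, 8), (8, 16), (4, 18)]⟩,
  ⟨1, 3, 13, 24, 11, 3, 1, [(21, 0), (14, 10), (10, 14), (8, 16), (2, 20)], [(16, 10), (12, 14), (9, 16), (6, 20)]⟩,
  ⟨17, 19, 4, 0, 9, 1, 33, [(21, 0), (19, 2), (11, 16), (6, 24), (1, 30)], [(20, 2), (12, 16), (7, 24), (3, 30)]⟩,
  ⟨7, 13, 16, 13, 13, 1, 25, [(21, 0), (17, 4), (12, 8), (9, 10), (2, 20)], [(19, 4), (15, 8), (11, 10), (4, 20)]⟩,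
  ⟨19, 42, 15, 35, 12, 42, 1, [(20, 0), (10, 6), (8, 8), (6, 10), (3, 14)], [(17, 6), (9, 8), (7, 10), (4, 14)]⟩,
  ⟨2, 39, 7, 43, 13, 13, 1, [(15, 0), (12, 2), (8, 4), (5, 8), (1, 10)], [(14, 2), (11, 4), (6, 8), (4, 10)]⟩,
  ⟨13, 35, 5, 16, 4, 27, 1, [(20, 0), (18, 2), (15, 6), (10, 8), (8, 10)], [(19, 2), (16, 6), (14, 8), (9, 10)]⟩,
  ⟨17, 33, 11, 0, 16, 1, 27, [(19, 0), (14, 8), (9, 12), (7, 14), (1, 24)], [(15, 8), (12, 12), (8, 14), (2, 24)]⟩,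
  ⟨19, 41, 17, 0, 20, 1, 25, [(18, 0), (14, 4), (8, 12), (5, 16), (3, 18)], [(16, 4), (10, 12), (6, 16), (4, 18)]⟩,
  ⟨1, 27, 9, 27, 14, 1, 19, [(21, 0), (18, 2), (13, 4), (7, 8), (4, 10)], [(20, 2), (17, 4), (11, 8), (6, 10)]⟩,
  ⟨1, 36, 8, 22, 16, 36, 1, [(17, 0), (12, 8), (10, 10), (4, 16), (2, 18)], [(13, 8), (11, 10), (7, 16), (3, 18)]⟩,
  ⟨8, 42, 21, 0, 6, 1, 19, [(17, 0), (14, 2), (12, 4), (7, 6), (4, 10)], [(16, 2), (13, 4), (11, 6), (5, 10)]⟩,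
  ⟨16, 35, 11, 0, 17, 1, 27, [(20, 0), (13, 12), (6, 18), (4, 20), (1, 24)], [(14, 12), (10, 18), (5, 20), (2, 24)]⟩,
  ⟨1, 16, 8, 0, 14, 18, 31, [(20, 0), (18, 2), (13, 8), (10, 12), (2, 26)], [(19, 2), (15, 8), (11, 12), (3, 26)]⟩,
  ⟨11, 13, 5, 35, 6, 1, 25, [(21, 0), (19, 2), (15, 8), (9, 10), (2, 20)], [(20, 2), (16, 8), (14, 10), (4, 20)]⟩,
  ⟨1, 15, 15, 15, 8, 1, 29, [(20, 0), (16, 6), (12, 10), (10, 12), (3, 22)], [(17, 6), (14, 10), (11, 12), (5, 22)]⟩,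
  ⟨13, 30, 4, 22, 6, 11, 1, [(21, 0), (15, 8), (11, 14), (9, 16), (1, 20)], [(17, 8), (12, 14), (10, 16), (7, 20)]⟩,
  ⟨2, 34, 19, 0, 6, 34, 23, [(16, 0), (14, 2), (10, 8), (5, 14), (3, 16)], [(15, 2), (11, 8), (7, 14), (4, 16)]⟩,
  ⟨19, 10, 5, 0, 1, 1, 31, [(21, 0), (12, 14), (10, 16), (4, 24), (2, 26)], [(14, 14), (11, 16), (6, 24), (3, 26)]⟩,
  ⟨1, 5, 19, 7, 2, 1, 29, [(21, 0), (16, 8), (12, 12), (9, 14), (5, 18)], [(17, 8), (14, 12), (11, 14), (7, 18)]⟩,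
  ⟨11, 17, 3, 39, 8, 1, 19, [(17, 0), (14, 2), (10, 6), (6, 8), (4, 10)], [(16, 2), (12, 6), (9, 8), (5, 10)]⟩,
  ⟨4, 7, 19, 7, 7, 1, 23, [(20, 0), (15, 8), (11, 12), (3, 18), (1, 20)], [(16, 8), (13, 12), (8, 18), (2, 20)]⟩,
  ⟨2, 17, 21, 24, 4, 17, 1, [(19, 0), (17, 2), (11, 8), (8, 12), (3, 18)], [(18, 2), (14, 8), (9, 12), (5, 18)]⟩,
  ⟨8, 39, 16, 39, 14, 27, 1, [(18, 0), (15, 2), (11, 8), (5, 18), (2, 22)], [(17, 2), (12, 8), (6, 18), (3, 22)]⟩,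
  ⟨2, 44, 9, 30, 16, 44, 1, [(19, 0), (12, 12), (10, 14), (6, 20), (3, 24)], [(13, 12), (11, 14), (7, 20), (4, 24)]⟩,
  ⟨16, 32, 13, 19, 7, 32, 21, [(20, 0), (18, 2), (10, 10), (5, 12), (3, 14)], [(19, 2), (14, 10), (9, 12), (4, 14)]⟩,
  ⟨13, 11, 4, 37, 5, 1, 19, [(17, 0), (14, 4), (8, 12), (3, 14), (1, 16)], [(15, 4), (10, 12), (7, 14), (2, 16)]⟩,
  ⟨4, 20, 2, 28, 16, 33, 1, [(21, 0), (19, 2), (13, 12), (8, 18), (5, 22)], [(20, 2), (14, 12), (10, 18), (6, 22)]⟩,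
  ⟨7, 37, 3, 0, 18, 1, 27, [(20, 0), (15, 8), (11, 12), (6, 16), (4, 18)], [(16, 8), (13, 12), (9, 16), (5, 18)]⟩,
  ⟨8, 2, 1, 0, 14, 18, 23, [(21, 0), (17, 4), (12, 6), (6, 12), (4, 14)], [(19, 4), (16, 6), (9, 12), (5, 14)]⟩,
  ⟨4, 39, 1, 0, 19, 1, 27, [(21, 0), (17, 6), (14, 8), (9, 12), (6, 14)], [(18, 6), (16, 8), (12, 12), (8, 14)]⟩,
  ⟨11, 32, 18, 9, 7, 32, 19, [(19, 0), (13, 4), (8, 6), (4, 12), (1, 16)], [(17, 4), (12, 6), (5, 12), (2, 16)]⟩,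
  ⟨19, 34, 17, 27, 14, 34, 1, [(18, 0), (13, 4), (11, 6), (4, 10), (1, 14)], [(16, 4), (12, 6), (9, 10), (2, 14)]⟩,
  ⟨19, 25, 20, 25, 21, 21, 1, [(18, 0), (14, 2), (12, 4), (8, 6), (2, 16)], [(17, 2), (13, 4), (11, 6), (3, 16)]⟩,
  ⟨8, 34, 14, 22, 17, 34, 1, [(21, 0), (19, 2), (10, 10), (6, 16), (2, 18)], [(20, 2), (15, 10), (7, 16), (5, 18)]⟩,
  ⟨4, 35, 1, 43, 17, 1, 27, [(20, 0), (14, 10), (9, 12), (7, 14), (2, 22)], [(15, 10), (13, 12), (8, 14), (3, 22)]⟩,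
  ⟨19, 43, 7, 22, 10, 23, 1, [(20, 0), (15, 8), (8, 10), (5, 14), (2, 18)], [(16, 8), (14, 10), (6, 14), (3, 18)]⟩,
  ⟨11, 36, 20, 18, 14, 36, 1, [(17, 0), (13, 2), (10, 4), (8, 6), (5, 8)], [(16, 2), (12, 4), (9, 6), (7, 8)]⟩,
  ⟨16, 12, 5, 12, 12, 44, 1, [(21, 0), (17, 4), (13, 10), (10, 14), (3, 16)], [(19, 4), (14, 10), (11, 14), (9, 16)]⟩,
  ⟨13, 25, 8, 6, 1, 23, 1, [(21, 0), (17, 2), (11, 8), (9, 10), (2, 18)], [(20, 2), (14, 8), (10, 10), (5, 18)]⟩,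
  ⟨8, 42, 21, 0, 6, 1, 19, [(16, 0), (13, 2), (9, 6), (4, 14), (1, 16)], [(15, 2), (11, 6), (5, 14), (3, 16)]⟩,
  ⟨16, 20, 10, 0, 3, 1, 25, [(19, 0), (17, 2), (13, 8), (8, 12), (5, 14)], [(18, 2), (14, 8), (11, 12), (7, 14)]⟩,
  ⟨17, 31, 3, 20, 2, 27, 1, [(20, 0), (18, 2), (14, 6), (9, 10), (6, 14)], [(19, 2), (16, 6), (12, 10), (7, 14)]⟩,
  ⟨11, 11, 17, 11, 16, 1, 23, [(20, 0), (18, 2), (13, 8), (4, 18), (1, 20)], [(19, 2), (15, 8), (8, 18), (3, 20)]⟩,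
  ⟨11, 17, 3, 39, 8, 1, 27, [(18, 0), (12, 10), (9, 14), (4, 20), (1, 24)], [(13, 10), (10, 14), (6, 20), (2, 24)]⟩,
  ⟨16, 43, 15, 0, 21, 1, 21, [(19, 0), (17, 2), (13, 8), (5, 12), (3, 14)], [(18, 2), (14, 8), (11, 12), (4, 14)]⟩,
  ⟨16, 38, 20, 25, 14, 38, 1, [(17, 0), (12, 4), (6, 14), (3, 16), (1, 18)], [(15, 4), (7, 14), (5, 16), (2, 18)]⟩,
  ⟨8, 32, 16, 0, 1, 1, 21, [(20, 0), (13, 4), (9, 6), (4, 14), (2, 16)], [(18, 4), (12, 6), (5, 14), (3, 16)]⟩,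
  ⟨7, 40, 20, 0, 4, 1, 15, [(14, 0), (12, 2), (9, 4), (6, 6), (1, 12)], [(13, 2), (11, 4), (8, 6), (3, 12)]⟩,
  ⟨4, 35, 1, 43, 17, 1, 25, [(20, 0), (18, 2), (12, 6), (9, 8), (6, 12)], [(19, 2), (16, 6), (11, 8), (7, 12)]⟩]

def tms45_8 : List Tm := [
  ⟨14, 43, 13, 0, 21, 1, 17, [(20, 0), (9, 4), (7, 6), (5, 8), (3, 10)], [(18, 4), (8, 6), (6, 8), (4, 10)]⟩,
  ⟨14, 25, 16, 25, 20, 13, 1, [(10, 0), (8, 2), (6, 4), (4, 6), (1, 10)], [(9, 2), (7, 4), (5, 6), (2, 10)]⟩,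
  ⟨7, 2, 12, 2, 17, 27, 1, [(21, 0), (15, 10), (5, 20), (3, 22), (1, 24)], [(16, 10), (10, 20), (4, 22), (2, 24)]⟩,
  ⟨13, 17, 12, 43, 3, 17, 1, [(20, 0), (18, 2), (14, 6), (7, 14), (2, 18)], [(19, 2), (16, 6), (10, 14), (5, 18)]⟩,
  ⟨19, 6, 11, 22, 14, 23, 1, [(21, 0), (15, 8), (10, 12), (8, 14), (3, 16)], [(17, 8), (13, 12), (9, 14), (7, 16)]⟩,
  ⟨16, 44, 11, 22, 4, 23, 1, [(20, 0), (18, 2), (14, 8), (8, 16), (1, 20)], [(19, 2), (15, 8), (10, 16), (6, 20)]⟩,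
  ⟨7, 7, 12, 21, 3, 1, 17, [(18, 0), (14, 2), (10, 4), (5, 12), (1, 14)], [(17, 2), (13, 4), (6, 12), (4, 14)]⟩,
  ⟨19, 5, 20, 5, 21, 1, 25, [(18, 0), (15, 2), (12, 6), (3, 20), (1, 22)], [(17, 2), (13, 6), (5, 20), (2, 22)]⟩,
  ⟨11, 10, 5, 0, 7, 32, 21, [(20, 0), (15, 4), (10, 6), (8, 8), (4, 12)], [(18, 4), (14, 6), (9, 8), (6, 12)]⟩,
  ⟨19, 14, 14, 24, 17, 25, 1, [(21, 0), (16, 2), (12, 8), (10, 10), (1, 22)], [(20, 2), (13, 8), (11, 10), (4, 22)]⟩,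
  ⟨11, 37, 8, 14, 3, 31, 1, [(21, 0), (17, 6), (14, 10), (10, 12), (6, 18)], [(18, 6), (15, 10), (13, 12), (7, 18)]⟩,
  ⟨7, 29, 1, 43, 14, 1, 23, [(18, 0), (16, 2), (12, 8), (4, 16), (2, 18)], [(17, 2), (13, 8), (8, 16), (3, 18)]⟩,
  ⟨8, 34, 17, 0, 2, 1, 29, [(20, 0), (18, 2), (15, 6), (11, 8), (6, 16)], [(19, 2), (16, 6), (14, 8), (7, 16)]⟩,
  ⟨16, 7, 17, 18, 10, 19, 1, [(20, 0), (13, 2), (9, 4), (6, 8), (3, 12)], [(19, 2), (12, 4), (7, 8), (4, 12)]⟩,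
  ⟨19, 3, 2, 41, 1, 1, 29, [(21, 0), (16, 6), (13, 8), (8, 14), (3, 22)], [(18, 6), (15, 8), (10, 14), (4, 22)]⟩,
  ⟨8, 2, 1, 0, 14, 18, 25, [(21, 0), (18, 4), (11, 8), (7, 12), (5, 14)], [(19, 4), (16, 8), (9, 12), (6, 14)]⟩,
  ⟨13, 16, 21, 0, 15, 16, 19, [(20, 0), (11, 8), (8, 10), (5, 12), (2, 14)], [(16, 8), (10, 10), (7, 12), (4, 14)]⟩,
  ⟨2, 7, 16, 24, 9, 7, 1, [(21, 0), (13, 14), (11, 16), (7, 18), (1, 22)], [(14, 14), (12, 16), (10, 18), (5, 22)]⟩,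
  ⟨19, 20, 1, 20, 5, 13, 1, [(18, 0), (14, 4), (11, 6), (8, 8), (6, 10)], [(16, 4), (13, 6), (10, 8), (7, 10)]⟩,
  ⟨2, 37, 14, 37, 10, 21, 1, [(19, 0), (13, 4), (9, 6), (7, 8), (3, 14)], [(17, 4), (12, 6), (8, 8), (4, 14)]⟩,
  ⟨2, 30, 15, 0, 6, 34, 21, [(18, 0), (12, 4), (9, 8), (4, 16), (1, 18)], [(16, 4), (10, 8), (5, 16), (3, 18)]⟩,
  ⟨13, 36, 18, 0, 8, 1, 21, [(20, 0), (16, 2), (12, 4), (7, 8), (5, 10)], [(19, 2), (15, 4), (10, 8), (6, 10)]⟩,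
  ⟨13, 24, 20, 5, 11, 24, 23, [(19, 0), (12, 10), (8, 16), (4, 18), (1, 20)], [(14, 10), (9, 16), (7, 18), (3, 20)]⟩,
  ⟨13, 33, 5, 14, 4, 25, 1, [(21, 0), (17, 2), (10, 8), (8, 10), (6, 12)], [(20, 2), (14, 8), (9, 10), (7, 12)]⟩,
  ⟨19, 33, 6, 33, 10, 26, 23, [(21, 0), (15, 10), (12, 12), (8, 14), (1, 20)], [(16, 10), (14, 12), (11, 14), (5, 20)]⟩,
  ⟨4, 10, 5, 0, 14, 18, 21, [(21, 0), (13, 6), (11, 8), (8, 12), (2, 16)], [(18, 6), (12, 8), (9, 12), (6, 16)]⟩,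
  ⟨4, 32, 10, 20, 17, 32, 1, [(21, 0), (13, 4), (9, 8), (6, 12), (1, 18)], [(19, 4), (11, 8), (7, 12), (3, 18)]⟩,
  ⟨11, 4, 2, 0, 10, 26, 25, [(19, 0), (17, 2), (12, 8), (8, 14), (1, 22)], [(18, 2), (14, 8), (9, 14), (4, 22)]⟩,
  ⟨13, 9, 18, 9, 17, 1, 23, [(21, 0), (14, 4), (10, 10), (8, 12), (2, 18)], [(19, 4), (11, 10), (9, 12), (5, 18)]⟩,
  ⟨11, 19, 2, 41, 9, 1, 27, [(19, 0), (15, 6), (10, 12), (7, 16), (3, 20)], [(16, 6), (12, 12), (8, 16), (5, 20)]⟩,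
  ⟨17, 41, 2, 41, 8, 30, 25, [(18, 0), (15, 4), (13, 6), (10, 8), (5, 14)], [(16, 4), (14, 6), (12, 8), (7, 14)]⟩,
  ⟨11, 22, 7, 30, 18, 31, 1, [(19, 0), (13, 10), (9, 16), (4, 24), (2, 26)], [(14, 10), (10, 16), (5, 24), (3, 26)]⟩,
  ⟨14, 20, 10, 0, 1, 1, 23, [(21, 0), (17, 6), (15, 8), (7, 12), (4, 14)], [(18, 6), (16, 8), (13, 12), (6, 14)]⟩,
  ⟨14, 11, 17, 11, 19, 1, 27, [(20, 0), (10, 14), (7, 18), (3, 22), (1, 24)], [(13, 14), (8, 18), (5, 22), (2, 24)]⟩,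
  ⟨2, 18, 1, 20, 21, 21, 1, [(20, 0), (18, 2), (14, 4), (9, 6), (6, 8)], [(19, 2), (17, 4), (13, 6), (8, 8)]⟩,
  ⟨19, 10, 5, 0, 1, 1, 31, [(21, 0), (16, 8), (8, 18), (6, 20), (3, 24)], [(17, 8), (11, 18), (7, 20), (4, 24)]⟩,
  ⟨1, 21, 11, 23, 10, 1, 27, [(19, 0), (17, 2), (12, 6), (8, 12), (4, 18)], [(18, 2), (15, 6), (9, 12), (5, 18)]⟩,
  ⟨11, 33, 4, 10, 7, 19, 1, [(15, 0), (13, 2), (10, 4), (3, 14), (1, 16)], [(14, 2), (12, 4), (5, 14), (2, 16)]⟩,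
  ⟨7, 13, 16, 13, 13, 1, 17, [(21, 0), (18, 2), (10, 8), (5, 10), (1, 14)], [(20, 2), (15, 8), (9, 10), (3, 14)]⟩,
  ⟨11, 38, 21, 15, 10, 38, 1, [(15, 0), (9, 2), (6, 6), (4, 8), (1, 10)], [(14, 2), (7, 6), (5, 8), (3, 10)]⟩,
  ⟨17, 37, 13, 0, 18, 1, 13, [(21, 0), (10, 2), (7, 4), (5, 6), (2, 8)], [(20, 2), (9, 4), (6, 6), (4, 8)]⟩,
  ⟨16, 16, 8, 0, 1, 1, 23, [(21, 0), (15, 4), (11, 6), (9, 8), (4, 14)], [(19, 4), (14, 6), (10, 8), (6, 14)]⟩,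
  ⟨17, 37, 4, 37, 10, 26, 21, [(21, 0), (13, 4), (9, 6), (7, 8), (2, 16)], [(19, 4), (12, 6), (8, 8), (3, 16)]⟩,
  ⟨17, 5, 20, 5, 19, 1, 19, [(15, 0), (11, 6), (7, 10), (4, 14), (1, 16)], [(12, 6), (9, 10), (5, 14), (3, 16)]⟩,
  ⟨16, 39, 13, 0, 19, 1, 23, [(20, 0), (15, 6), (6, 16), (3, 18), (1, 20)], [(17, 6), (10, 16), (5, 18), (2, 20)]⟩,
  ⟨4, 36, 18, 0, 1, 44, 15, [(17, 0), (14, 2), (12, 4), (6, 6), (3, 8)], [(16, 2), (13, 4), (11, 6), (5, 8)]⟩,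
  ⟨17, 5, 12, 39, 7, 5, 1, [(16, 0), (14, 2), (6, 10), (4, 12), (2, 14)], [(15, 2), (10, 10), (5, 12), (3, 14)]⟩,
  ⟨17, 7, 2, 41, 3, 1, 21, [(16, 0), (13, 4), (8, 8), (6, 10), (4, 12)], [(14, 4), (11, 8), (7, 10), (5, 12)]⟩,
  ⟨19, 37, 15, 0, 18, 1, 15, [(12, 0), (9, 2), (7, 4), (4, 8), (2, 10)], [(11, 2), (8, 4), (5, 8), (3, 10)]⟩,
  ⟨13, 26, 16, 20, 20, 26, 1, [(21, 0), (12, 12), (9, 14), (7, 16), (1, 18)], [(15, 12), (11, 14), (8, 16), (6, 18)]⟩]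

def tms45_9 : List Tm := [
  ⟨7, 28, 21, 0, 9, 28, 23, [(20, 0), (17, 2), (15, 4), (3, 18), (1, 20)], [(19, 2), (16, 4), (8, 18), (2, 20)]⟩,
  ⟨7, 37, 4, 37, 20, 6, 27, [(19, 0), (15, 4), (11, 10), (6, 16), (1, 24)], [(17, 4), (12, 10), (8, 16), (2, 24)]⟩,
  ⟨2, 28, 14, 0, 7, 32, 19, [(21, 0), (19, 2), (11, 4), (9, 6), (3, 12)], [(20, 2), (18, 4), (10, 6), (6, 12)]⟩,
  ⟨4, 18, 9, 0, 10, 26, 25, [(20, 0), (17, 4), (15, 6), (13, 8), (2, 20)], [(18, 4), (16, 6), (14, 8), (7, 20)]⟩,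
  ⟨17, 4, 19, 0, 21, 4, 19, [(16, 0), (12, 6), (8, 8), (4, 12), (1, 16)], [(13, 6), (11, 8), (6, 12), (2, 16)]⟩,
  ⟨8, 9, 18, 9, 12, 1, 21, [(17, 0), (14, 4), (11, 6), (5, 16), (1, 18)], [(15, 4), (13, 6), (6, 16), (4, 18)]⟩,
  ⟨8, 27, 1, 43, 13, 1, 23, [(18, 0), (16, 2), (12, 6), (6, 12), (3, 16)], [(17, 2), (14, 6), (9, 12), (4, 16)]⟩,
  ⟨13, 36, 18, 0, 8, 1, 25, [(19, 0), (15, 4), (11, 10), (9, 12), (3, 18)], [(17, 4), (12, 10), (10, 12), (6, 18)]⟩,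
  ⟨13, 11, 17, 11, 18, 1, 19, [(16, 0), (12, 2), (10, 4), (8, 6), (5, 8)], [(15, 2), (11, 4), (9, 6), (7, 8)]⟩,
  ⟨4, 4, 6, 0, 21, 4, 23, [(18, 0), (16, 2), (10, 8), (3, 18), (1, 20)], [(17, 2), (13, 8), (5, 18), (2, 20)]⟩,
  ⟨19, 36, 8, 29, 5, 36, 25, [(21, 0), (16, 2), (11, 10), (4, 18), (1, 22)], [(20, 2), (12, 10), (7, 18), (2, 22)]⟩,
  ⟨2, 43, 1, 0, 21, 1, 31, [(20, 0), (17, 4), (13, 10), (8, 16), (4, 22)], [(18, 4), (14, 10), (10, 16), (5, 22)]⟩,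
  ⟨17, 43, 8, 16, 13, 17, 1, [(20, 0), (18, 2), (11, 6), (4, 10), (2, 12)], [(19, 2), (16, 6), (9, 10), (3, 12)]⟩,
  ⟨8, 3, 13, 19, 1, 1, 21, [(18, 0), (15, 4), (12, 6), (5, 12), (3, 14)], [(16, 4), (14, 6), (9, 12), (4, 14)]⟩]

/-- the templates for `n = 45` -/
def tms45 : List Tm := tms45_0 ++ tms45_1 ++ tms45_2 ++ tms45_3 ++ tms45_4 ++ tms45_5 ++ tms45_6 ++ tms45_7 ++ tms45_8 ++ tms45_9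

end Pool.Agent.P45.Sm
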