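import Pool.Agent.Lib.P45dba8.TS

/-! # Squares: one thread `al` and several carriers `phi j` -/

set_option autoImplicit false

namespace Pool.Agent.P45

section squares

variable {V J : Type*}

/-- The carrier edge leaving `u` is used by a square. -/
def sqX (al : V → V) (S : J → Set V) (j : J) (u : V) : Prop := u ∈ S j ∨ ∃ v ∈ S j, u = al v

/-- The edge of `al` leaving `u` is used by a square. -/
def sqY (phi : J → V → V) (S : J → Set V) (u : V) : Prop :=
  ∃ j, u ∈ S j ∨ ∃ v ∈ S j, u = phi j v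

/-- The leaving slot of `u` in the carrier `j`. -/
def sqF (al : V → V) (phi : J → V → V) (S : J → Set V) (w : J → V) (j : J) (u v : V) : Prop :=
  (u ∈ S j ∧ v = al u) ∨ (v ∈ S j ∧ u = al v) ∨ (¬ sqX al S j u ∧ u ≠ w j ∧ v = phi j u)

/-- The entering slot of `u` in the carrier `j`. -/
def sqB (al : V → V) (phi : J → V → V) (S : J → Set V) (w : J → V) (j : J) (u v : V) : Prop :=
  (∃ s ∈ S j, u = phi j s ∧ v = phi j (al s)) ∨ (∃ s ∈ S j, v = phi j s ∧ u = phi j (al s)) ∨
    (¬ sqX al S j v ∧ v ≠ w j ∧ u = phi j v)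

/-- The leaving slot of `u` in the thread `al`. -/
def sqFa (al : V → V) (phi : J → V → V) (S : J → Set V) (p : V) (u v : V) : Prop :=
  (∃ j, u ∈ S j ∧ v = phi j u) ∨ (∃ j, v ∈ S j ∧ u = phi j v) ∨
    (¬ sqY phi S u ∧ u ≠ p ∧ v = al u)

/-- The entering slot of `u` in the thread `al`. -/
def sqBa (al : V → V) (phi : J → V → V) (S : J → Set V) (p : V) (u v : V) : Prop :=
  (∃ j, ∃ s ∈ S j, u = al s ∧ v = al (phi j s)) ∨ (∃ j, ∃ s ∈ S j, v = al s ∧ u = al (phi j s)) ∨
    (¬ sqY phi S v ∧ v ≠ p ∧ u = al v)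

/-- THE SQUARE LEMMA. -/
theorem TS_squares (al : V → V) (phi : J → V → V) (hal : Function.Injective al)
    (hphi : ∀ j, Function.Injective (phi j)) (S : J → Set V) (c : J → V → Bool) (ca : V → Bool)
    (w : J → V) (p : V)
    (comm : ∀ j, ∀ v ∈ S j, phi j (al v) = al (phi j v))
    (h1 : ∀ j u, u = w j ∨ (u ∈ S j ∨ ∃ v ∈ S j, u = al v) ∨ c j (phi j u) = !c j u)
    (h2 : ∀ j, ∀ v ∈ S j, c j v = c j (al v) ∧ c j (phi j v) = c j (phi j (al v)))
    (h3 : ∀ j, c j (w j) = false ∧ c j (phi j (w j)) = false)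
    (h1a : ∀ u, u = p ∨ (∃ j, u ∈ S j ∨ ∃ v ∈ S j, u = phi j v) ∨ ca (al u) = !ca u)
    (h2a : ∀ j, ∀ v ∈ S j, ca v = ca (phi j v) ∧ ca (al v) = ca (al (phi j v)))
    (h3a : ca p = false ∧ ca (al p) = false)
    (D1 : ∀ j, ∀ v ∈ S j, al v ∉ S j)
    (D2 : ∀ j j', ∀ v ∈ S j, ∀ v' ∈ S j',
      (v = v' → j = j') ∧ v ≠ phi j' v' ∧ (phi j v = phi j' v' → j = j'))
    (D3 : ∀ j, w j ∉ S j ∧ ∀ v ∈ S j, w j ≠ al v)
    (D4 : ∀ j, p ∉ S j ∧ ∀ v ∈ S j, p ≠ phi j v) :
    TS Set.univ (fun u v => v = al u ∨ ∃ j, v = phi j u)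
      (fun (k : Option J) b =>
        k.elim (bif b then al p else p) (fun j => bif b then phi j (w j) else w j)) := by
  classical
  refine ⟨fun k b u v => k.elim
      ((sqFa al phi S p u v ∧ ca u = b) ∨ (sqBa al phi S p u v ∧ (!ca u) = b))
      (fun j => (sqF al phi S w j u v ∧ c j u = b) ∨ (sqB al phi S w j u v ∧ (!c j u) = b)),
      ?_, ?_, ?_, ?_, ?_⟩
  · -- symmetric
    rintro (_ | j) b u v h
    · change (sqFa al phi S p u v ∧ ca u = b) ∨ (sqBa al phi S p u v ∧ (!ca u) = b) at h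
      show (sqFa al phi S p v u ∧ ca v = b) ∨ (sqBa al phi S p v u ∧ (!ca v) = b)
      rcases h with ⟨h | h | ⟨q1, q2, q3⟩, hc⟩ | ⟨h | h | ⟨q1, q2, q3⟩, hc⟩
      · obtain ⟨j, hu, hv⟩ := h
        left
        refine ⟨Or.inr (Or.inl ⟨j, hu, hv⟩), ?_⟩
        rw [hv, ← (h2a j u hu).1]
        exact hc
      · obtain ⟨j, hv, hu⟩ := h
        left
        refine ⟨Or.inl ⟨j, hv, hu⟩, ?_⟩
        rw [(h2a j v hv).1, ← hu]
        exact hc
      · right
        refine ⟨Or.inr (Or.inr ⟨q1, q2, q3⟩), ?_⟩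
        rcases h1a u with g | g | g
        · exact absurd g q2
        · exact absurd g q1
        · rw [q3, g, Bool.not_not]
          exact hc
      · obtain ⟨j, s, hs, hu, hv⟩ := h
        right
        refine ⟨Or.inr (Or.inl ⟨j, s, hs, hu, hv⟩), ?_⟩
        rw [hv, ← (h2a j s hs).2, ← hu]
        exact hc
      · obtain ⟨j, s, hs, hv, hu⟩ := h
        right
        refine ⟨Or.inl ⟨j, s, hs, hv, hu⟩, ?_⟩
        rw [hv, (h2a j s hs).2, ← hu]
        exact hc
      · left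
        refine ⟨Or.inr (Or.inr ⟨q1, q2, q3⟩), ?_⟩
        rcases h1a v with g | g | g
        · exact absurd g q2
        · exact absurd g q1
        · rw [← hc, q3, g, Bool.not_not]
    · change (sqF al phi S w j u v ∧ c j u = b) ∨ (sqB al phi S w j u v ∧ (!c j u) = b) at h
      show (sqF al phi S w j v u ∧ c j v = b) ∨ (sqB al phi S w j v u ∧ (!c j v) = b)
      rcases h with ⟨h | h | ⟨q1, q2, q3⟩, hc⟩ | ⟨h | h | ⟨q1, q2, q3⟩, hc⟩
      · obtain ⟨hu, hv⟩ := h
        left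
        refine ⟨Or.inr (Or.inl ⟨hu, hv⟩), ?_⟩
        rw [hv, ← (h2 j u hu).1]
        exact hc
      · obtain ⟨hv, hu⟩ := h
        left
        refine ⟨Or.inl ⟨hv, hu⟩, ?_⟩
        rw [(h2 j v hv).1, ← hu]
        exact hc
      · right
        refine ⟨Or.inr (Or.inr ⟨q1, q2, q3⟩), ?_⟩
        rcases h1 j u with g | g | g
        · exact absurd g q2
        · exact absurd g q1
        · rw [q3, g, Bool.not_not]
          exact hc
      · obtain ⟨s, hs, hu, hv⟩ := h
        right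
        refine ⟨Or.inr (Or.inl ⟨s, hs, hu, hv⟩), ?_⟩
        rw [hv, ← (h2 j s hs).2, ← hu]
        exact hc
      · obtain ⟨s, hs, hv, hu⟩ := h
        right
        refine ⟨Or.inl ⟨s, hs, hv, hu⟩, ?_⟩
        rw [hv, (h2 j s hs).2, ← hu]
        exact hc
      · left
        refine ⟨Or.inr (Or.inr ⟨q1, q2, q3⟩), ?_⟩
        rcases h1 j v with g | g | g
        · exact absurd g q2
        · exact absurd g q1
        · rw [← hc, q3, g, Bool.not_not]
  · exact fun k b u v _ => ⟨Set.mem_univ _, Set.mem_univ _⟩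
  · -- unique
    rintro (_ | j) b u v v' h h'
    · change (sqFa al phi S p u v ∧ ca u = b) ∨ (sqBa al phi S p u v ∧ (!ca u) = b) at h
      change (sqFa al phi S p u v' ∧ ca u = b) ∨ (sqBa al phi S p u v' ∧ (!ca u) = b) at h'
      have hF : sqFa al phi S p u v → sqFa al phi S p u v' → v = v' := by
        rintro (⟨j, a1, a2⟩ | ⟨j, a1, a2⟩ | ⟨a1, a2, a3⟩) (⟨j', b1, b2⟩ | ⟨j', b1, b2⟩ | ⟨b1, b2, b3⟩)
        · obtain rfl := (D2 j j' u a1 u b1).1 rfl
          rw [a2, b2]
        · exact absurd b2 (D2 j j' u a1 v' b1).2.1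
        · exact absurd ⟨j, Or.inl a1⟩ b1
        · exact absurd a2 (D2 j' j u b1 v a1).2.1
        · obtain rfl := (D2 j j' v a1 v' b1).2.2 (a2.symm.trans b2)
          exact hphi _ (a2.symm.trans b2)
        · exact absurd ⟨j, Or.inr ⟨v, a1, a2⟩⟩ b1
        · exact absurd ⟨j', Or.inl b1⟩ a1
        · exact absurd ⟨j', Or.inr ⟨v', b1, b2⟩⟩ a1
        · rw [a3, b3]
      have hB : sqBa al phi S p u v → sqBa al phi S p u v' → v = v' := by
        rintro (⟨j, s, a1, a2, a3⟩ | ⟨j, s, a1, a2, a3⟩ | ⟨a1, a2, a3⟩)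
          (⟨j', s', b1, b2, b3⟩ | ⟨j', s', b1, b2, b3⟩ | ⟨b1, b2, b3⟩)
        · have e : s = s' := hal (a2.symm.trans b2)
          obtain rfl := (D2 j j' s a1 s' b1).1 e
          rw [a3, b3, e]
        · exact absurd (hal (a2.symm.trans b3)) (D2 j j' s a1 s' b1).2.1
        · have e : s = v' := hal (a2.symm.trans b3)
          rw [← e] at b1
          exact absurd ⟨j, Or.inl a1⟩ b1
        · exact absurd (hal (b2.symm.trans a3)) (D2 j' j s' b1 s a1).2.1
        · have e : phi j s = phi j' s' := hal (a3.symm.trans b3)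
          obtain rfl := (D2 j j' s a1 s' b1).2.2 e
          rw [a2, b2, hphi _ e]
        · have e : phi j s = v' := hal (a3.symm.trans b3)
          rw [← e] at b1
          exact absurd ⟨j, Or.inr ⟨s, a1, rfl⟩⟩ b1
        · have e : s' = v := hal (b2.symm.trans a3)
          rw [← e] at a1
          exact absurd ⟨j', Or.inl b1⟩ a1
        · have e : phi j' s' = v := hal (b3.symm.trans a3)
          rw [← e] at a1
          exact absurd ⟨j', Or.inr ⟨s', b1, rfl⟩⟩ a1
        · exact hal (a3.symm.trans b3)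
      rcases h with ⟨h, hc⟩ | ⟨h, hc⟩ <;> rcases h' with ⟨h', hc'⟩ | ⟨h', hc'⟩
      · exact hF h h'
      · rw [← hc'] at hc
        cases ca u <;> simp at hc
      · rw [← hc'] at hc
        cases ca u <;> simp at hc
      · exact hB h h'
    · change (sqF al phi S w j u v ∧ c j u = b) ∨ (sqB al phi S w j u v ∧ (!c j u) = b) at h
      change (sqF al phi S w j u v' ∧ c j u = b) ∨ (sqB al phi S w j u v' ∧ (!c j u) = b) at h'
      have hF : sqF al phi S w j u v → sqF al phi S w j u v' → v = v' := by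
        rintro (⟨a1, a2⟩ | ⟨a1, a2⟩ | ⟨a1, a2, a3⟩) (⟨b1, b2⟩ | ⟨b1, b2⟩ | ⟨b1, b2, b3⟩)
        · rw [a2, b2]
        · exact absurd a1 (by rw [b2]; exact D1 j v' b1)
        · exact absurd (Or.inl a1) b1
        · exact absurd b1 (by rw [a2]; exact D1 j v a1)
        · exact hal (a2.symm.trans b2)
        · exact absurd (Or.inr ⟨v, a1, a2⟩) b1
        · exact absurd (Or.inl b1) a1
        · exact absurd (Or.inr ⟨v', b1, b2⟩) a1
        · rw [a3, b3]
      have hB : sqB al phi S w j u v → sqB al phi S w j u v' → v = v' := by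
        rintro (⟨s, a1, a2, a3⟩ | ⟨s, a1, a2, a3⟩ | ⟨a1, a2, a3⟩)
          (⟨s', b1, b2, b3⟩ | ⟨s', b1, b2, b3⟩ | ⟨b1, b2, b3⟩)
        · rw [a3, b3, hphi j (a2.symm.trans b2)]
        · have e : s = al s' := hphi j (a2.symm.trans b3)
          exact absurd a1 (by rw [e]; exact D1 j s' b1)
        · have e : s = v' := hphi j (a2.symm.trans b3)
          rw [← e] at b1
          exact absurd (Or.inl a1) b1
        · have e : s' = al s := hphi j (b2.symm.trans a3)
          exact absurd b1 (by rw [e]; exact D1 j s a1)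
        · have e : al s = al s' := hphi j (a3.symm.trans b3)
          rw [a2, b2, hal e]
        · have e : al s = v' := hphi j (a3.symm.trans b3)
          rw [← e] at b1
          exact absurd (Or.inr ⟨s, a1, rfl⟩) b1
        · have e : s' = v := hphi j (b2.symm.trans a3)
          rw [← e] at a1
          exact absurd (Or.inl b1) a1
        · have e : al s' = v := hphi j (b3.symm.trans a3)
          rw [← e] at a1
          exact absurd (Or.inr ⟨s', b1, rfl⟩) a1
        · exact hphi j (a3.symm.trans b3)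
      rcases h with ⟨h, hc⟩ | ⟨h, hc⟩ <;> rcases h' with ⟨h', hc'⟩ | ⟨h', hc'⟩
      · exact hF h h'
      · rw [← hc'] at hc
        cases c j u <;> simp at hc
      · rw [← hc'] at hc
        cases c j u <;> simp at hc
      · exact hB h h'
  · -- the holes
    rintro (_ | j) (_ | _) v h
    · change (sqFa al phi S p p v ∧ ca p = false) ∨ (sqBa al phi S p p v ∧ (!ca p) = false) at h
      rcases h with ⟨h, -⟩ | ⟨-, hc⟩
      · rcases h with ⟨j, a1, a2⟩ | ⟨j, a1, a2⟩ | ⟨-, a2, -⟩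
        · exact (D4 j).1 a1
        · exact (D4 j).2 v a1 a2
        · exact a2 rfl
      · rw [h3a.1] at hc
        simp at hc
    · change (sqFa al phi S p (al p) v ∧ ca (al p) = true) ∨
        (sqBa al phi S p (al p) v ∧ (!ca (al p)) = true) at h
      rcases h with ⟨-, hc⟩ | ⟨h, -⟩
      · rw [h3a.2] at hc
        simp at hc
      · rcases h with ⟨j, s, a1, a2, -⟩ | ⟨j, s, a1, -, a3⟩ | ⟨-, a2, a3⟩
        · exact (D4 j).1 (by rw [hal a2]; exact a1)
        · exact (D4 j).2 s a1 (hal a3)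
        · exact a2 (hal a3).symm
    · change (sqF al phi S w j (w j) v ∧ c j (w j) = false) ∨
        (sqB al phi S w j (w j) v ∧ (!c j (w j)) = false) at h
      rcases h with ⟨h, -⟩ | ⟨-, hc⟩
      · rcases h with ⟨a1, -⟩ | ⟨a1, a2⟩ | ⟨-, a2, -⟩
        · exact (D3 j).1 a1
        · exact (D3 j).2 v a1 a2
        · exact a2 rfl
      · rw [(h3 j).1] at hc
        simp at hc
    · change (sqF al phi S w j (phi j (w j)) v ∧ c j (phi j (w j)) = true) ∨
        (sqB al phi S w j (phi j (w j)) v ∧ (!c j (phi j (w j))) = true) at h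
      rcases h with ⟨-, hc⟩ | ⟨h, -⟩
      · rw [(h3 j).2] at hc
        simp at hc
      · rcases h with ⟨s, a1, a2, -⟩ | ⟨s, a1, -, a3⟩ | ⟨-, a2, a3⟩
        · exact (D3 j).1 (by rw [hphi j a2]; exact a1)
        · exact (D3 j).2 s a1 (hphi j a3)
        · exact a2 (hphi j a3).symm
  · -- all edges are covered
    rintro u - v - (hv | ⟨j, hv⟩)
    · by_cases hp : u = p
      · left
        refine ⟨none, Or.inl ⟨hp, ?_⟩⟩
        rw [hv, hp]
        rfl
      right
      by_cases hY : sqY phi S u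
      · obtain ⟨j, hu | ⟨s, hs, hu⟩⟩ := hY
        · exact ⟨some j, c j u, Or.inl ⟨Or.inl ⟨hu, hv⟩, rfl⟩⟩
        · refine ⟨some j, !c j u, Or.inr ⟨Or.inl ⟨s, hs, hu, ?_⟩, rfl⟩⟩
          rw [hv, hu, comm j s hs]
      · exact ⟨none, ca u, Or.inl ⟨Or.inr (Or.inr ⟨hY, hp, hv⟩), rfl⟩⟩
    · by_cases hw : u = w j
      · left
        refine ⟨some j, Or.inl ⟨hw, ?_⟩⟩
        rw [hv, hw]
        rfl
      right
      by_cases hX : sqX al S j u
      · rcases hX with hu | ⟨s, hs, hu⟩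
        · exact ⟨none, ca u, Or.inl ⟨Or.inl ⟨j, hu, hv⟩, rfl⟩⟩
        · refine ⟨none, !ca u, Or.inr ⟨Or.inl ⟨j, s, hs, hu, ?_⟩, rfl⟩⟩
          rw [hv, hu, comm j s hs]
      · exact ⟨some j, c j u, Or.inl ⟨Or.inr (Or.inr ⟨hX, hw, hv⟩), rfl⟩⟩

end squares

end Pool.Agent.P45
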