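import Pool.Agent.Lib.P45dba8.AvgAll
import Pool.Agent.Lib.P45dba8.Runs

/-! # MP_45dba8: the autocorrelation at lag `l` in terms of the word of labels -/

set_option autoImplicit false

namespace Pool.Agent.P45

/-- The sign of the letter `j` in the word with the side `A`. -/
noncomputable def wd (A : Finset ℕ) (j : ℕ) : ℤ := by
  classical exact if j ∈ A then 1 else -1

theorem wd_mem {A : Finset ℕ} {j : ℕ} (h : j ∈ A) : wd A j = 1 := by
  classical
  rw [wd, if_pos h]

theorem wd_not_mem {A : Finset ℕ} {j : ℕ} (h : j ∉ A) : wd A j = -1 := by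
  classical
  rw [wd, if_neg h]

theorem wd_abs (A : Finset ℕ) (j : ℕ) : |wd A j| = 1 := by
  by_cases h : j ∈ A
  · rw [wd_mem h]; norm_num
  · rw [wd_not_mem h]; norm_num

theorem wd_sq (A : Finset ℕ) (j : ℕ) : wd A j * wd A j = 1 := by
  by_cases h : j ∈ A
  · rw [wd_mem h]; norm_num
  · rw [wd_not_mem h]; norm_num

/-- The inner part of the autocorrelation of the word on `[1, N]` at the lag `l`. -/
noncomputable def wcor (A : Finset ℕ) (N l : ℕ) : ℤ :=
  ∑ j ∈ Finset.Icc 1 (N - l), wd A j * wd A (j + l)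

/-- The edge part of the autocorrelation at the lag `l`. -/
noncomputable def wedge (A : Finset ℕ) (N l : ℕ) : ℤ :=
  ∑ j ∈ Finset.Icc (N + 1 - l) N, wd A j * wd A (2 * N + 1 - l - j) +
    ∑ j ∈ Finset.Icc 1 (l - 1), wd A j * wd A (l - j)

theorem wedge_abs (A : Finset ℕ) (N l : ℕ) (h1 : 1 ≤ l) (h2 : l ≤ N) :
    |wedge A N l| ≤ 2 * (l : ℤ) - 1 := by
  have e1 : |∑ j ∈ Finset.Icc (N + 1 - l) N, wd A j * wd A (2 * N + 1 - l - j)| ≤ (l : ℤ) := by
    refine (Finset.abs_sum_le_sum_abs _ _).trans ?_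
    have : ∀ j ∈ Finset.Icc (N + 1 - l) N, |wd A j * wd A (2 * N + 1 - l - j)| = 1 := by
      intro j _
      rw [abs_mul, wd_abs, wd_abs, one_mul]
    rw [Finset.sum_congr rfl this, Finset.sum_const, Nat.card_Icc, nsmul_eq_mul, mul_one]
    have : N + 1 - (N + 1 - l) = l := by omega
    rw [this]
  have e2 : |∑ j ∈ Finset.Icc 1 (l - 1), wd A j * wd A (l - j)| ≤ (l : ℤ) - 1 := by
    refine (Finset.abs_sum_le_sum_abs _ _).trans ?_
    have : ∀ j ∈ Finset.Icc 1 (l - 1), |wd A j * wd A (l - j)| = 1 := by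
      intro j _
      rw [abs_mul, wd_abs, wd_abs, one_mul]
    rw [Finset.sum_congr rfl this, Finset.sum_const, Nat.card_Icc, nsmul_eq_mul, mul_one]
    have : l - 1 + 1 - 1 = l - 1 := by omega
    rw [this, Nat.cast_sub h1]
    norm_num
  unfold wedge
  refine (abs_add_le _ _).trans ?_
  linarith

section corr

variable {k : ℕ}

open OBoundAux in
theorem f_add_lag (v : ZMod (4 * k + 1)) (j l : ℕ) : f v (j + l) = f v j + (l : ZMod (4 * k + 1)) * (2 * v) := by
  unfold f
  push_cast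
  ring

open OBoundAux in
theorem f_period (v : ZMod (4 * k + 1)) (j : ℕ) : f v (4 * k + 1 + j) = f v j := by
  unfold f
  have : ((4 * k + 1 + j : ℕ) : ZMod (4 * k + 1)) = (j : ZMod (4 * k + 1)) := by
    rw [Nat.cast_add, ZMod.natCast_self, zero_add]
  rw [this]

open OBoundAux in
/-- The autocorrelation `C (l (2 v))` in terms of the word of labels. -/
theorem corr_lag (S : Finset ℕ) (hS : S ⊆ Finset.Icc 1 (2 * k))
    (v : ZMod (4 * k + 1)) (hv : IsUnit v) (l : ℕ) (h1 : 1 ≤ l) (h2 : l ≤ 2 * k) :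
    ∑ x, wsg k S x * wsg k S (x + (l : ZMod (4 * k + 1)) * (2 * v)) =
      2 * wcor (LW k S v) (2 * k) l + wedge (LW k S v) (2 * k) l := by
  classical
  obtain ⟨w, hw⟩ := two_unit v hv
  set a : ℕ → ℤ := fun j => wsg k S (f v j) with ha
  have s1 : ∑ x, wsg k S x * wsg k S (x + (l : ZMod (4 * k + 1)) * (2 * v)) =
      ∑ j ∈ Finset.range (4 * k + 1), a j * a (j + l) := by
    symm
    refine Finset.sum_nbij' (f v) (g w) ?_ ?_ ?_ ?_ ?_
    · intro j _
      exact Finset.mem_univ _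
    · intro x _
      exact Finset.mem_range.2 (g_lt w x)
    · intro j hj
      exact gf hw (Finset.mem_range.1 hj)
    · intro x _
      exact fg hw x
    · intro j _
      show a j * a (j + l) = wsg k S (f v j) * wsg k S (f v j + (l : ZMod (4 * k + 1)) * (2 * v))
      rw [← f_add_lag]
  have a0 : a 0 = 0 := by
    show wsg k S (f v 0) = 0
    rw [f_zero, wsg_zero]
  have arefl : ∀ j, j ≤ 4 * k + 1 → a (4 * k + 1 - j) = a j := by
    intro j hj
    show wsg k S (f v (4 * k + 1 - j)) = wsg k S (f v j)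
    rw [f_sub v hj, wsg_neg]
  have aper : ∀ j, a (4 * k + 1 + j) = a j := by
    intro j
    show wsg k S (f v (4 * k + 1 + j)) = wsg k S (f v j)
    rw [f_period]
  have hne : ∀ j, 1 ≤ j → j ≤ 2 * k → f v j ≠ 0 := fun j h1 h2 => label_ne_zero v hv h1 h2
  have hmem : ∀ j, 1 ≤ j → j ≤ 2 * k → a j = wd (LW k S v) j := by
    intro j h1 h2
    by_cases h : f v j ∈ DSet k S
    · rw [wd_mem (mem_LW.2 ⟨⟨h1, h2⟩, h⟩)]
      exact wsg_mem S hS h
    · have h' := (dset_compl k S hS _ (hne j h1 h2)).2 h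
      rw [wd_not_mem (fun hh => h (mem_LW.1 hh).2)]
      exact wsg_compl S hS h'
  have s2 : ∑ j ∈ Finset.range (4 * k + 1), a j * a (j + l) =
      a 0 * a l + ∑ j ∈ Finset.Ico 1 (2 * k - l + 1), a j * a (j + l) +
        ∑ j ∈ Finset.Ico (2 * k - l + 1) (2 * k + 1), a j * a (j + l) +
        ∑ j ∈ Finset.Ico (2 * k + 1) (4 * k + 2 - l), a j * a (j + l) +
        ∑ j ∈ Finset.Ico (4 * k + 2 - l) (4 * k + 1), a j * a (j + l) := by
    rw [Finset.range_eq_Ico, ← Finset.sum_Ico_consecutive _ (Nat.zero_le 1) (by omega : 1 ≤ 4 * k + 1),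
      ← Finset.sum_Ico_consecutive _ (by omega : 1 ≤ 2 * k - l + 1) (by omega : 2 * k - l + 1 ≤ 4 * k + 1),
      ← Finset.sum_Ico_consecutive _ (by omega : 2 * k - l + 1 ≤ 2 * k + 1)
        (by omega : 2 * k + 1 ≤ 4 * k + 1),
      ← Finset.sum_Ico_consecutive _ (by omega : 2 * k + 1 ≤ 4 * k + 2 - l)
        (by omega : 4 * k + 2 - l ≤ 4 * k + 1)]
    rw [show Finset.Ico 0 1 = {0} from rfl, Finset.sum_singleton, zero_add]
    ring
  have t1 : ∑ j ∈ Finset.Ico 1 (2 * k - l + 1), a j * a (j + l) = wcor (LW k S v) (2 * k) l := by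
    unfold wcor
    have e : Finset.Ico 1 (2 * k - l + 1) = Finset.Icc 1 (2 * k - l) := by
      ext j
      rw [Finset.mem_Ico, Finset.mem_Icc]
      omega
    rw [e]
    apply Finset.sum_congr rfl
    intro j hj
    rw [Finset.mem_Icc] at hj
    rw [hmem j hj.1 (by omega), hmem (j + l) (by omega) (by omega)]
  have t2 : ∑ j ∈ Finset.Ico (2 * k - l + 1) (2 * k + 1), a j * a (j + l) =
      ∑ j ∈ Finset.Icc (2 * k + 1 - l) (2 * k), wd (LW k S v) j * wd (LW k S v) (2 * (2 * k) + 1 - l - j) := by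
    have e : Finset.Ico (2 * k - l + 1) (2 * k + 1) = Finset.Icc (2 * k + 1 - l) (2 * k) := by
      ext j
      rw [Finset.mem_Ico, Finset.mem_Icc]
      omega
    rw [e]
    apply Finset.sum_congr rfl
    intro j hj
    rw [Finset.mem_Icc] at hj
    have q1 := arefl (2 * (2 * k) + 1 - l - j) (by omega)
    have q2 : 4 * k + 1 - (2 * (2 * k) + 1 - l - j) = j + l := by omega
    rw [q2] at q1
    rw [q1, hmem j (by omega) hj.2, hmem (2 * (2 * k) + 1 - l - j) (by omega) (by omega)]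
  have t3 : ∑ j ∈ Finset.Ico (2 * k + 1) (4 * k + 2 - l), a j * a (j + l) =
      wcor (LW k S v) (2 * k) l := by
    rw [← t1]
    have e : Finset.Ico (2 * k + 1) (4 * k + 2 - l) = insert (4 * k + 1 - l) (Finset.Ico (2 * k + 1) (4 * k + 1 - l)) := by
      ext j
      rw [Finset.mem_insert, Finset.mem_Ico, Finset.mem_Ico]
      omega
    rw [e, Finset.sum_insert (by rw [Finset.mem_Ico]; omega)]
    have z : a (4 * k + 1 - l + l) = 0 := by
      have : 4 * k + 1 - l + l = 4 * k + 1 + 0 := by omega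
      rw [this, aper, a0]
    rw [z, mul_zero, zero_add]
    refine Finset.sum_nbij' (fun j => 4 * k + 1 - l - j) (fun j => 4 * k + 1 - l - j) ?_ ?_ ?_ ?_ ?_
    · intro j hj
      rw [Finset.mem_Ico] at hj ⊢
      omega
    · intro j hj
      rw [Finset.mem_Ico] at hj ⊢
      omega
    · intro j hj
      rw [Finset.mem_Ico] at hj
      show 4 * k + 1 - l - (4 * k + 1 - l - j) = j
      omega
    · intro j hj
      rw [Finset.mem_Ico] at hj
      show 4 * k + 1 - l - (4 * k + 1 - l - j) = j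
      omega
    · intro j hj
      rw [Finset.mem_Ico] at hj
      show a j * a (j + l) = a (4 * k + 1 - l - j) * a (4 * k + 1 - l - j + l)
      have q1 := arefl j (by omega)
      have q2 := arefl (j + l) (by omega)
      have q3 : 4 * k + 1 - (j + l) = 4 * k + 1 - l - j := by omega
      have q4 : 4 * k + 1 - l - j + l = 4 * k + 1 - j := by omega
      rw [q4, q1, ← q3, q2, mul_comm]
  have t4 : ∑ j ∈ Finset.Ico (4 * k + 2 - l) (4 * k + 1), a j * a (j + l) =
      ∑ j ∈ Finset.Icc 1 (l - 1), wd (LW k S v) j * wd (LW k S v) (l - j) := by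
    refine Finset.sum_nbij' (fun j => 4 * k + 1 - j) (fun j => 4 * k + 1 - j) ?_ ?_ ?_ ?_ ?_
    · intro j hj
      rw [Finset.mem_Ico] at hj
      rw [Finset.mem_Icc]
      omega
    · intro j hj
      rw [Finset.mem_Icc] at hj
      rw [Finset.mem_Ico]
      omega
    · intro j hj
      rw [Finset.mem_Ico] at hj
      show 4 * k + 1 - (4 * k + 1 - j) = j
      omega
    · intro j hj
      rw [Finset.mem_Icc] at hj
      show 4 * k + 1 - (4 * k + 1 - j) = j
      omega
    · intro j hj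
      rw [Finset.mem_Ico] at hj
      show a j * a (j + l) = wd (LW k S v) (4 * k + 1 - j) * wd (LW k S v) (l - (4 * k + 1 - j))
      have q1 := arefl j (by omega)
      have q2 : j + l = 4 * k + 1 + (l - (4 * k + 1 - j)) := by omega
      rw [← q1, q2, aper, hmem (4 * k + 1 - j) (by omega) (by omega),
        hmem (l - (4 * k + 1 - j)) (by omega) (by omega)]
  rw [s1, s2, a0, zero_mul, t1, t2, t3, t4]
  unfold wedge
  ring

/-- One unit for which a linear combination of the autocorrelations of the word is small: the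
coefficients `c`, the bound `M` of the combination of the Ramanujan energies. -/
theorem exists_unit_comb (S : Finset ℕ) (hS : S ⊆ Finset.Icc 1 (2 * k))
    (hc : S.card = k) (L : Finset ℕ) (hL : ∀ l ∈ L, 1 ≤ l ∧ l ≤ 2 * k) (c : ℕ → ℝ) (M : ℝ)
    (hM : ∀ d, d ∣ 4 * k + 1 → d ≠ 1 → ∑ l ∈ L, c l *
      ((ArithmeticFunction.moebius (d / Nat.gcd d l) : ℝ) / Nat.totient (d / Nat.gcd d l)) ≤ M) :
    ∃ v : ZMod (4 * k + 1), IsUnit v ∧ ∑ l ∈ L, c l *
      (2 * (wcor (LW k S v) (2 * k) l : ℝ) + (wedge (LW k S v) (2 * k) l : ℝ)) ≤ M * (4 * k) := by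
  classical
  obtain ⟨P, hP0, hP1, hPs, hP⟩ := avg_all (4 * k + 1) (wsg k S) (wsg_zero S)
    (fun x hx => wsg_ne S hx) (wsg_sum S hS hc)
  set n := 4 * k + 1 with hn
  have hphi : (0 : ℝ) < Nat.totient n := by
    exact_mod_cast Nat.totient_pos.2 (by omega)
  -- the average of the combination
  have hav : ∑ u : (ZMod n)ˣ, ∑ l ∈ L, c l *
      ((∑ x, wsg k S x * wsg k S (x + (l : ZMod n) * u) : ℤ) : ℝ) ≤
        ∑ _u : (ZMod n)ˣ, M * (4 * k) := by
    rw [Finset.sum_comm]
    have e1 : ∀ l ∈ L, ∑ u : (ZMod n)ˣ, c l *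
        ((∑ x, wsg k S x * wsg k S (x + (l : ZMod n) * u) : ℤ) : ℝ) =
        c l * ((Nat.totient n : ℝ) * ∑ d ∈ n.divisors,
          P d * ((ArithmeticFunction.moebius (d / Nat.gcd d l) : ℝ) / Nat.totient (d / Nat.gcd d l))) := by
      intro l _
      rw [← Finset.mul_sum, hP l]
    rw [Finset.sum_congr rfl e1]
    have e2 : ∑ l ∈ L, c l * ((Nat.totient n : ℝ) * ∑ d ∈ n.divisors,
          P d * ((ArithmeticFunction.moebius (d / Nat.gcd d l) : ℝ) / Nat.totient (d / Nat.gcd d l))) =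
        (Nat.totient n : ℝ) * ∑ d ∈ n.divisors, P d * ∑ l ∈ L, c l *
          ((ArithmeticFunction.moebius (d / Nat.gcd d l) : ℝ) / Nat.totient (d / Nat.gcd d l)) := by
      simp only [Finset.mul_sum]
      rw [Finset.sum_comm]
      refine Finset.sum_congr rfl (fun d _ => Finset.sum_congr rfl (fun l _ => ?_))
      ring
    rw [e2]
    have e3 : ∑ d ∈ n.divisors, P d * ∑ l ∈ L, c l *
          ((ArithmeticFunction.moebius (d / Nat.gcd d l) : ℝ) / Nat.totient (d / Nat.gcd d l)) ≤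
        ∑ d ∈ n.divisors, P d * M := by
      refine Finset.sum_le_sum (fun d hd => ?_)
      by_cases h1 : d = 1
      · rw [h1, hP1, zero_mul, zero_mul]
      · exact mul_le_mul_of_nonneg_left (hM d (Nat.dvd_of_mem_divisors hd) h1) (hP0 d)
    rw [← Finset.sum_mul, hPs] at e3
    rw [Finset.sum_const, Finset.card_univ, ZMod.card_units_eq_totient, nsmul_eq_mul]
    refine (mul_le_mul_of_nonneg_left e3 hphi.le).trans (le_of_eq ?_)
    rw [hn]
    push_cast
    ring
  obtain ⟨u, -, hu⟩ := Finset.exists_le_of_sum_le Finset.univ_nonempty hav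
  have h2 : IsUnit (2 * (k : ZMod (4 * k + 1)) + 1) :=
    IsUnit.of_mul_eq_one 2 (by linear_combination two_inv k)
  have h3 : 2 * ((2 * (k : ZMod (4 * k + 1)) + 1) * (u : ZMod n)) = (u : ZMod n) := by
    rw [← mul_assoc, two_inv, one_mul]
  refine ⟨(2 * k + 1) * (u : ZMod n), h2.mul u.isUnit, ?_⟩
  refine (le_of_eq (Finset.sum_congr rfl (fun l hl => ?_))).trans hu
  have h4 := corr_lag S hS _ (h2.mul u.isUnit) l (hL l hl).1 (hL l hl).2
  rw [h3] at h4
  rw [h4]
  push_cast
  rfl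

end corr

end Pool.Agent.P45
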