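import Pool.Agent.Lib.P45dba8.XRow

/-! # Pair lemma with leaves: the glue data -/

set_option autoImplicit false

namespace Pool.Agent.P45

/-- Glue data with a special thread (given by `act0`, `e0`, `N0`) and leaves. -/
noncomputable def yGD (m h : ℕ) {Λ : Type*} (c w : ZMod (m * h)) (ci : ZMod h) (hf : ZMod m)
    (Z : ZMod h → ZMod (m * h)) (act0 : ZMod h → Prop) (e0 : Bool → ZMod h → ZMod (m * h))
    (N0 : Bool → ZMod (m * h) → ZMod (m * h) → Prop) (r : Λ → ZMod h) (p : Λ → ZMod (m * h))
    (a : Λ → ZMod m) (f : Λ → ZMod h → Bool)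
    (M : Λ → ZMod h → Bool → ZMod (m * h) → ZMod (m * h) → Prop) (rf : Prop) :
    GD (ZMod (m * h)) (Option Λ) h where
  F := Equiv.addRight c
  idx := ixf m h w ci
  act := fun k i => k.elim (act0 i) (fun l => Odd (i - r l).val)
  e := fun k b i => k.elim (e0 b i) (fun l => thE m h c hf Z (r l) (p l) (a l) (f l) b i)
  M0 := fun k b u v => k.elim (N0 b u v)
    (fun l => M l (ixf m h w ci u) (xor (f l (ixf m h w ci u)) b) u v)
  s := none
  w := w
  rf := rf

theorem x_main {m h : ℕ} (hm : Odd m) (m3 : 3 ≤ m) (hh : Odd h) (h3 : 3 ≤ h) {Λ : Type*}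
    (c w : ZMod (m * h)) (ci : ZMod h) (hci : red m h c * ci = 1) (hf : ZMod m)
    (hhf : 2 * hf = 1) (Z : ZMod h → ZMod (m * h)) (hZ : ∀ i, ixf m h w ci (Z i) = i)
    (hrel : ∀ i, cenZ Z c (i + ci) i - cenZ Z c i (i + ci) ≠ 1)
    (a : Λ → ZMod m) (ha : ∀ l, IsUnit (a l)) (ha2 : ∀ l l', l ≠ l' → a l ≠ a l' ∧ a l ≠ -a l')
    (PL : Λ → ZMod (m * h)) (rf : Prop)
    (act0 : ZMod h → Prop) (e0 : Bool → ZMod h → ZMod (m * h))
    (N0 : Bool → ZMod (m * h) → ZMod (m * h) → Prop)
    (q1 : ∀ b i, ixf m h w ci (e0 b i) = i) (q2 : ∀ b i, act0 i → e0 b (i + 1) = e0 b i + c)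
    (q3 : ∀ i, act0 i → ¬ act0 (i + 1))
    (q4 : ∀ i, act0 i → ∀ l b, e0 b i ≠ Z i + psi m h (hf * a l) ∧
      e0 b i ≠ Z i - psi m h (hf * a l))
    (n1 : ∀ b u v, N0 b u v → N0 b v u)
    (n2 : ∀ b u v, N0 b u v → ixf m h w ci u = ixf m h w ci v)
    (n3 : ∀ b u v v', N0 b u v → N0 b u v' → v = v') (n4 : ∀ b i v, ¬ N0 b (e0 b i) v)
    (D0 : ZMod (m * h) → Prop)
    (n5 : ∀ u v, DE D0 u v → (∃ b, u = e0 b (ixf m h w ci u) ∧ v = e0 (!b) (ixf m h w ci u)) ∨
      ∃ b, N0 b u v)
    (sp : (rf ∧ (act0 (-2) → e0 false (-1) = w) ∧ (act0 0 → e0 false 0 = w + c) ∧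
      (act0 (-1) → e0 false (-1) = w) ∧
      ∀ l, Z (-1) + psi m h (hf * a l) ≠ w ∧ Z (-1) - psi m h (hf * a l) ≠ w) ∨
      (¬ act0 (-2) ∧ ¬ act0 (-1) ∧ ¬ act0 0)) :
    ∃ (V : Λ → Bool) (f : Λ → ZMod h → Bool)
      (M : Λ → ZMod h → Bool → ZMod (m * h) → ZMod (m * h) → Prop)
      (G : GD (ZMod (m * h)) (Option Λ) h),
      G = yGD m h c w ci hf Z act0 e0 N0
        (fun l => ixf m h w ci (PL l + (bif V l then 1 else 0)))
        (fun l => PL l + (bif V l then 1 else 0)) a f M rf ∧ G.Ok ∧
      ∃ E1 : ZMod (m * h) → ZMod (m * h) → Prop,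
      (∀ u v, DE (fun x => x = c ∨ (∃ l, x = psi m h (a l)) ∨ D0 x) u v →
        (rf ∧ pr w (w + c) u v) ∨
        (∃ i, ¬ act0 i ∧ ¬ act0 (i - 1) ∧ pr (e0 false i) (e0 true i) u v) ∨ E1 u v ∨
        G.nrm none true u v ∨ G.rho u v ∨ G.sgm u v ∨ G.spc u v) ∧
      TSM Set.univ E1 (fun l b => (bif b then PL l + psi m h (a l) else PL l) +
          (bif V l then 1 else 0))
        (fun l u v => u = PL l + (bif V l then 0 else 1) ∧
          v = PL l + psi m h (a l) + (bif V l then 0 else 1)) := by
  classical
  have hNZ : NeZero h := ⟨by omega⟩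
  have hFh : Fact (1 < h) := ⟨by omega⟩
  have hFm : Fact (1 < m) := ⟨by omega⟩
  have hinj := psi_inj m h (by omega)
  have h2u : IsUnit (2 : ZMod m) := by
    have : IsUnit ((2 : ℕ) : ZMod m) := by
      rw [ZMod.isUnit_iff_coprime]
      exact Nat.coprime_two_left.2 hm
    exact_mod_cast this
  have h2a : ∀ l, psi m h (a l) + psi m h (a l) ≠ 0 := by
    intro l h'
    rw [← map_add, ← map_zero (psi m h)] at h'
    have h4 : (2 : ZMod m) * a l = 0 := by linear_combination hinj h'
    exact (ha l).ne_zero ((h2u.mul_right_eq_zero).1 h4)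
  have red1 : ∀ v : ZMod (m * h), ixf m h w ci (v + 1) = ixf m h w ci v + ci := by
    intro v
    show red m h (v + 1 - w) * ci - 1 = red m h (v - w) * ci - 1 + ci
    have : v + 1 - w = (v - w) + 1 := by ring
    rw [this, map_add, map_one]; ring
  have ci0 : ci ≠ 0 := by
    rintro rfl
    rw [mul_zero] at hci
    exact zero_ne_one hci
  -- choice of the side
  let V : Λ → Bool := fun l =>
    if cenZ Z c (ixf m h w ci (PL l) + ci) (ixf m h w ci (PL l)) - psi m h (hf * a l) = PL l + 1
    then true else false
  let p : Λ → ZMod (m * h) := fun l => PL l + (bif V l then 1 else 0)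
  let r : Λ → ZMod h := fun l => ixf m h w ci (p l)
  let gu : Λ → ZMod (m * h) := fun l => PL l + (bif V l then 0 else 1)
  have hne : ∀ l, ixf m h w ci (gu l) ≠ r l := by
    intro l
    show ixf m h w ci (PL l + (bif V l then 0 else 1)) ≠
      ixf m h w ci (PL l + (bif V l then 1 else 0))
    cases V l
    · simp only [cond_false, add_zero]
      rw [red1]
      intro h'
      exact ci0 (by linear_combination h')
    · simp only [cond_true, add_zero]
      rw [red1]
      intro h'
      exact ci0 (by linear_combination -h')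
  have hX : ∀ l, thE m h c hf Z (r l) (p l) (a l) (fun _ => false) false (ixf m h w ci (gu l)) ≠
      gu l := by
    intro l
    have e1 : thE m h c hf Z (r l) (p l) (a l) (fun _ => false) false (ixf m h w ci (gu l)) =
        cenZ Z c (ixf m h w ci (gu l)) (r l) - psi m h (hf * a l) := by
      unfold thE
      rw [if_neg (hne l)]
      simp
    rw [e1]
    by_cases hv : cenZ Z c (ixf m h w ci (PL l) + ci) (ixf m h w ci (PL l)) -
        psi m h (hf * a l) = PL l + 1
    · have hV : V l = true := if_pos hv
      have e2 : r l = ixf m h w ci (PL l) + ci := by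
        show ixf m h w ci (PL l + (bif V l then 1 else 0)) = _
        rw [hV, cond_true, red1]
      have e3 : gu l = PL l := by
        show PL l + (bif V l then 0 else 1) = PL l
        rw [hV, cond_true, add_zero]
      rw [e2, e3]
      intro h'
      apply hrel (ixf m h w ci (PL l))
      linear_combination hv - h'
    · have hV : V l = false := if_neg hv
      have e2 : r l = ixf m h w ci (PL l) := by
        show ixf m h w ci (PL l + (bif V l then 1 else 0)) = _
        rw [hV, cond_false, add_zero]
      have e3 : gu l = PL l + 1 := by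
        show PL l + (bif V l then 0 else 1) = PL l + 1
        rw [hV, cond_false]
      rw [e2, e3, red1]
      exact hv
  -- the systems
  have hM := fun l => thM_exists hm m3 h3 w c ci hci hf Z (r l) (p l) (a l) (ha l)
    (fun i => thE_ix hh h3 hhf hci hZ rfl false i)
  choose M m1 m2 m3' m4 m5 using hM
  have hβ : ∀ l, ∃ b, M l (ixf m h w ci (gu l)) b (gu l) (gu l + psi m h (a l)) := by
    intro l
    rcases m5 l (ixf m h w ci (gu l)) (gu l) (gu l + psi m h (a l)) rfl (Or.inl rfl) with
      ⟨b, h1, h2⟩ | h1
    · exfalso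
      cases b
      · exact hX l h1.symm
      · have e1 : thE m h c hf Z (r l) (p l) (a l) (fun _ => false) true
            (ixf m h w ci (gu l)) = thE m h c hf Z (r l) (p l) (a l) (fun _ => false) false
            (ixf m h w ci (gu l)) + psi m h (a l) := by
          unfold thE
          simp
        rw [e1] at h1
        rw [Bool.not_true] at h2
        apply h2a l
        linear_combination h2 - h1
    · exact h1
  choose β hβ using hβ
  let f : Λ → ZMod h → Bool := fun l i => !(β l) && !decide (i = r l)
  have hfr : ∀ l, f l (r l) = false := by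
    intro l
    show (!(β l) && !decide (r l = r l)) = false
    simp
  have hfne : ∀ l i, i ≠ r l → f l i = !(β l) := by
    intro l i hi
    show (!(β l) && !decide (i = r l)) = _
    simp [hi]
  have hfs : ∀ l i, Odd (i - r l).val → f l (i + 1) = f l i := by
    intro l i hi
    have n1 : i ≠ r l := by
      rintro h'
      rw [h'] at hi
      exact odd_self_sub h _ hi
    have n2 : i + 1 ≠ r l := by
      intro h'
      rw [← h'] at hi
      have : i - (i + 1) = -1 := by ring
      rw [this] at hi
      exact not_odd_neg_one hh h3 hi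
    rw [hfne l _ n1, hfne l _ n2]
  have ixl : ∀ l b i, ixf m h w ci (thE m h c hf Z (r l) (p l) (a l) (f l) b i) = i :=
    fun l b i => thE_ix hh h3 hhf hci hZ rfl b i
  -- the glue data
  have hpos : ∀ l b i, Odd (i - r l).val →
      thE m h c hf Z (r l) (p l) (a l) (f l) b i = Z i + psi m h (hf * a l) ∨
      thE m h c hf Z (r l) (p l) (a l) (f l) b i = Z i - psi m h (hf * a l) := by
    intro l b i hi
    rw [thE_low hhf hi]
    cases xor (f l i) b
    · right; simp only [cond_false]; ring
    · left; rfl
  have hfinj : ∀ x y : ZMod m, hf * x = hf * y → x = y := by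
    intro x y hxy
    linear_combination 2 * hxy - (x - y) * hhf
  let G := yGD m h c w ci hf Z act0 e0 N0 r p a f M rf
  have H : G.Ok :=
    { odd := hh
      three := h3
      idxF := fun v => ixf_add w c ci hci v
      idxe := by
        rintro (_ | l) b i
        · exact q1 b i
        · exact ixl l b i
      eF := by
        rintro (_ | l) b i hi
        · exact q2 b i hi
        · exact thE_step hh h3 hhf hi (hfs l i hi) b
      act1 := by
        rintro (_ | l) i hi
        · exact q3 i hi
        · intro h'
          have h2 : Odd (i + 1 - r l).val := h'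
          have e : i + 1 - r l = i - r l + 1 := by ring
          rw [e] at h2
          exact not_odd_succ hh h3 hi h2
      disj := by
        rintro (_ | l) (_ | l') i hkl hk hl b b'
        · exact absurd rfl hkl
        · intro h'
          have h2 : e0 b i = thE m h c hf Z (r l') (p l') (a l') (f l') b' i := h'
          obtain ⟨g1, g2⟩ := q4 i hk l' b
          rcases hpos l' b' i hl with h4 | h4
          · exact g1 (h2.trans h4)
          · exact g2 (h2.trans h4)
        · intro h'
          have h2 : thE m h c hf Z (r l) (p l) (a l) (f l) b i = e0 b' i := h'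
          obtain ⟨g1, g2⟩ := q4 i hl l b'
          rcases hpos l b i hk with h4 | h4
          · exact g1 (h2.symm.trans h4)
          · exact g2 (h2.symm.trans h4)
        · intro h'
          have h2 : thE m h c hf Z (r l) (p l) (a l) (f l) b i =
            thE m h c hf Z (r l') (p l') (a l') (f l') b' i := h'
          obtain ⟨g1, g2⟩ := ha2 l l' (fun h4 => hkl (congrArg some h4))
          rcases hpos l b i hk with h4 | h4 <;> rcases hpos l' b' i hl with h5 | h5 <;>
            rw [h4, h5] at h2
          · apply g1
            apply hfinj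
            exact hinj (add_left_cancel h2)
          · apply g2
            apply hfinj
            apply hinj
            rw [mul_neg, map_neg]
            linear_combination h2
          · apply g2
            apply hfinj
            apply hinj
            rw [mul_neg, map_neg]
            linear_combination -h2
          · apply g1
            apply hfinj
            apply hinj
            linear_combination -h2
      sym := by
        rintro (_ | l) b u v hM
        · exact n1 b u v hM
        · have h1 : M l (ixf m h w ci u) (xor (f l (ixf m h w ci u)) b) u v := hM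
          have h2 := (m2 l _ _ _ _ h1).2
          show M l (ixf m h w ci v) (xor (f l (ixf m h w ci v)) b) v u
          rw [h2]
          exact m1 l _ _ _ _ h1
      func := by
        rintro (_ | l) b u v v' hM hM'
        · exact n3 b u v v' hM hM'
        · exact m3' l _ _ _ _ _ hM hM'
      inn := by
        rintro (_ | l) b u v hM
        · exact n2 b u v hM
        · have h1 : M l (ixf m h w ci u) (xor (f l (ixf m h w ci u)) b) u v := hM
          exact (m2 l _ _ _ _ h1).2.symm
      miss := by
        rintro (_ | l) b i v hM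
        · exact n4 b i v hM
        · have h1 : M l (ixf m h w ci (thE m h c hf Z (r l) (p l) (a l) (f l) b i))
              (xor (f l (ixf m h w ci (thE m h c hf Z (r l) (p l) (a l) (f l) b i))) b)
              (thE m h c hf Z (r l) (p l) (a l) (f l) b i) v := hM
          rw [ixl, thE_xor] at h1
          exact m4 l i _ v h1
      idxw := ixf_self w ci
      special := by
        rcases sp with ⟨g0, g1, g2, g3, g4⟩ | sp
        · refine Or.inl ⟨g0, g1, g2, g3, ?_⟩
          rintro (_ | l) b hl hact
          · exact absurd rfl hl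
          · show thE m h c hf Z (r l) (p l) (a l) (f l) b (-1) ≠ w
            rcases hpos l b (-1) hact with h4 | h4
            · rw [h4]; exact (g4 l).1
            · rw [h4]; exact (g4 l).2
        · exact Or.inr sp }
  have hreal : ∀ l b, G.e (some l) b (r l) = p l + (bif b then psi m h (a l) else 0) :=
    fun l b => thE_real (hfr l) b
  have hnotact : ∀ l, ¬ G.act (some l) (r l) ∧ ¬ G.act (some l) (r l - 1) :=
    fun l => ⟨odd_self_sub h _, odd_pred_sub hh h3 _⟩
  refine ⟨V, f, M, G, rfl, H, _, ?_, ((GD.others H r hnotact).congr ?_).mono (fun _ _ _ _ h => h) ?_⟩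
  · intro u v huv
    have h1 := GD.cov_all H (fun u v => (∃ l, v = u + psi m h (a l) ∨ u = v + psi m h (a l)) ∨
      DE D0 u v) (by
        rintro u v (⟨l, h1⟩ | h1)
        · rcases m5 l (ixf m h w ci u) u v rfl h1 with ⟨b, h2, h4⟩ | ⟨b, h2⟩
          · left
            refine ⟨some l, xor (f l (ixf m h w ci u)) b, ?_, ?_⟩
            · show u = thE m h c hf Z (r l) (p l) (a l) (f l)
                (xor (f l (ixf m h w ci u)) b) (ixf m h w ci u)
              rw [thE_xor]
              have e : xor (f l (ixf m h w ci u)) (xor (f l (ixf m h w ci u)) b) = b := by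
                cases f l (ixf m h w ci u) <;> cases b <;> rfl
              rw [e]; exact h2
            · show v = thE m h c hf Z (r l) (p l) (a l) (f l)
                (!(xor (f l (ixf m h w ci u)) b)) (ixf m h w ci u)
              rw [thE_xor]
              have e : xor (f l (ixf m h w ci u)) (!(xor (f l (ixf m h w ci u)) b)) = !b := by
                cases f l (ixf m h w ci u) <;> cases b <;> rfl
              rw [e]; exact h4
          · right
            refine ⟨some l, xor (f l (ixf m h w ci u)) b, ?_⟩
            show M l (ixf m h w ci u) (xor (f l (ixf m h w ci u))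
              (xor (f l (ixf m h w ci u)) b)) u v
            have e : xor (f l (ixf m h w ci u)) (xor (f l (ixf m h w ci u)) b) = b := by
              cases f l (ixf m h w ci u) <;> cases b <;> rfl
            rw [e]; exact h2
        · rcases n5 u v h1 with ⟨b, h2, h4⟩ | ⟨b, h2⟩
          · exact Or.inl ⟨none, b, h2, h4⟩
          · exact Or.inr ⟨none, b, h2⟩) u v (by
        obtain ⟨δ, hδ, h1⟩ := huv
        rcases hδ with hδ | ⟨l, hδ⟩ | hδ
        · rw [hδ] at h1; exact Or.inr h1
        · rw [hδ] at h1; exact Or.inl (Or.inl ⟨l, h1⟩)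
        · exact Or.inl (Or.inr ⟨δ, hδ, h1⟩))
    rcases h1 with h1 | ⟨_ | l, i, h1, h2, h4⟩ | ⟨_ | l, b, h1, h2⟩ | h1
    · exact Or.inl h1
    · exact Or.inr (Or.inl ⟨i, h1, h2, h4⟩)
    · have hi : i = r l := by
        by_contra hi
        rcases odd_or_pred h3 (sub_ne_zero.2 hi) with h5 | h5
        · exact h1 h5
        · have e : i - r l - 1 = i - 1 - r l := by ring
          rw [e] at h5
          exact h2 h5
      rw [hi] at h4
      exact Or.inr (Or.inr (Or.inl (Or.inl ⟨l, h4⟩)))
    · cases b
      · exact absurd ⟨rfl, rfl⟩ h1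
      · exact Or.inr (Or.inr (Or.inr (Or.inl h2)))
    · exact Or.inr (Or.inr (Or.inl (Or.inr ⟨l, b, h2⟩)))
    · exact Or.inr (Or.inr (Or.inr (Or.inr h1)))
  · intro l b
    rw [hreal]
    show _ = PL l + (bif V l then 1 else 0) + (bif b then psi m h (a l) else 0)
    cases b
    · simp only [cond_false, add_zero]
    · simp only [cond_true]; ring
  · rintro l u v ⟨hu, hv⟩
    have hu' : u = gu l := hu
    have hv' : v = gu l + psi m h (a l) := by
      rw [hv]
      show _ = PL l + (bif V l then 0 else 1) + psi m h (a l)
      ring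
    rw [hu', hv']
    left
    show M l (ixf m h w ci (gu l)) (xor (f l (ixf m h w ci (gu l))) true) (gu l)
      (gu l + psi m h (a l))
    rw [hfne l _ (hne l)]
    have e : xor (!(β l)) true = β l := by cases β l <;> rfl
    rw [e]
    exact hβ l

end Pool.Agent.P45
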