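import Pool.Agent.Lib.P45dba8.L2
import Pool.Agent.Lib.P45dba8.JointL0

/-! # Pair lemma with leaves: the threads -/

set_option autoImplicit false

namespace Pool.Agent.P45

/-- All edges are covered by the new classes. -/
theorem GD.cov_all {V Θ : Type*} {g : ℕ} {G : GD V Θ g} (H : G.Ok) (E : V → V → Prop)
    (hE : ∀ u v, E u v → (∃ k b, u = G.e k b (G.idx u) ∧ v = G.e k (!b) (G.idx u)) ∨
      ∃ k b, G.M0 k b u v) (u v : V) (huv : E u v ∨ v = G.F u ∨ u = G.F v) :
    (G.rf ∧ pr G.w (G.F G.w) u v) ∨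
    (∃ k i, ¬ G.act k i ∧ ¬ G.act k (i - 1) ∧ pr (G.e k false i) (G.e k true i) u v) ∨
    (∃ k b, ¬ (k = G.s ∧ b = false) ∧ G.nrm k b u v) ∨ G.rho u v ∨ G.sgm u v ∨ G.spc u v := by
  rcases huv with huv | huv | huv
  · rcases hE u v huv with ⟨k, b, h1, h2⟩ | ⟨k, b, h1⟩
    · by_cases ha : G.act k (G.idx u) ∨ G.act k (G.idx u - 1)
      · have h3 := H.cov_hole (k := k) (i := G.idx u) b ha
        rw [← h1, ← h2] at h3
        exact Or.inr (Or.inr (Or.inr h3))
      · right; left
        refine ⟨k, G.idx u, fun h' => ha (Or.inl h'), fun h' => ha (Or.inr h'), ?_⟩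
        cases b
        · exact Or.inl ⟨h1, h2⟩
        · exact Or.inr ⟨h1, h2⟩
    · rcases GD.cov_M0 (G := G) h1 with ⟨h2, h3⟩ | h2
      · exact Or.inr (Or.inr (Or.inl ⟨k, b, h2, h3⟩))
      · exact Or.inr (Or.inr (Or.inr h2))
  · rw [huv]
    rcases H.cov_F u with ⟨h1, h2⟩ | h1 | h1
    · exact Or.inl ⟨h1, Or.inl ⟨h2, by rw [h2]⟩⟩
    · exact Or.inr (Or.inr (Or.inl h1))
    · exact Or.inr (Or.inr (Or.inr h1))
  · rw [huv]
    rcases H.cov_F v with ⟨h1, h2⟩ | ⟨k, b, h1, h2⟩ | h1 | h1 | h1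
    · exact Or.inl ⟨h1, Or.inr ⟨by rw [h2], h2⟩⟩
    · exact Or.inr (Or.inr (Or.inl ⟨k, b, h1, H.nrm_symm h2⟩))
    · exact Or.inr (Or.inr (Or.inr (Or.inl (H.rho_symm h1))))
    · exact Or.inr (Or.inr (Or.inr (Or.inr (Or.inl (H.sgm_symm h1)))))
    · exact Or.inr (Or.inr (Or.inr (Or.inr (Or.inr (H.spc_symm h1)))))

theorem TS.unionM {V Θ Θ' : Type*} {E E' : V → V → Prop} {e : Θ → Bool → V} {e' : Θ' → Bool → V}
    {mk : Θ' → V → V → Prop} (h : TS Set.univ E e) (h' : TSM Set.univ E' e' mk) :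
    TSM Set.univ (fun u v => E u v ∨ E' u v) (Sum.elim e' e)
      (Sum.elim mk (fun _ _ _ => False)) := by
  obtain ⟨M, m1, m2, m3, m4, m5⟩ := h
  obtain ⟨N, n1, n2, n3, n4, n5, n6⟩ := h'
  refine ⟨Sum.elim N M, ?_, ?_, ?_, ?_, ?_, ?_⟩
  · rintro (k | k)
    · exact n1 k
    · exact m1 k
  · rintro (k | k)
    · exact n2 k
    · exact m2 k
  · rintro (k | k)
    · exact n3 k
    · exact m3 k
  · rintro (k | k)
    · exact n4 k
    · exact m4 k
  · rintro u hu v hv (huv | huv)
    · rcases m5 u hu v hv huv with ⟨k, hk⟩ | ⟨k, b, hk⟩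
      · exact Or.inl ⟨Sum.inr k, hk⟩
      · exact Or.inr ⟨Sum.inr k, b, hk⟩
    · rcases n5 u hu v hv huv with ⟨k, hk⟩ | ⟨k, b, hk⟩
      · exact Or.inl ⟨Sum.inl k, hk⟩
      · exact Or.inr ⟨Sum.inl k, b, hk⟩
  · rintro (k | k) u v hm
    · exact n6 k u v hm
    · exact hm.elim

/-- The classes of the other threads. -/
theorem GD.others {V Λ : Type*} {g : ℕ} {G : GD V (Option Λ) g} (H : G.Ok) (r : Λ → ZMod g)
    (hr : ∀ l, ¬ G.act (some l) (r l) ∧ ¬ G.act (some l) (r l - 1)) :
    TSM Set.univ (fun u v => (∃ l, pr (G.e (some l) false (r l)) (G.e (some l) true (r l)) u v) ∨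
      ∃ l b, G.nrm (some l) b u v) (fun l b => G.e (some l) b (r l))
      (fun l u v => G.nrm (some l) true u v) := by
  refine ⟨fun l b => G.nrm (some l) b, ?_, ?_, ?_, ?_, ?_, ?_⟩
  · intro k b u v h
    exact H.nrm_symm h
  · intro _ _ _ _ _
    exact ⟨trivial, trivial⟩
  · intro k b u v v' h h'
    exact H.nrm_fun h h'
  · intro k b v
    exact H.nrm_miss (hr k).1 (hr k).2 v
  · rintro u - v - (⟨l, h⟩ | ⟨l, b, h⟩)
    · exact Or.inl ⟨l, h⟩
    · exact Or.inr ⟨l, b, h⟩
  · intro _ _ _ h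
    exact h

/-- Centre of the hole of a thread. -/
noncomputable def cenZ {m h : ℕ} (Z : ZMod h → ZMod (m * h)) (c : ZMod (m * h)) (i r : ZMod h) :
    ZMod (m * h) :=
  open Classical in if Odd (i - r).val then Z i else Z (i - 1) + c

/-- Ends of the holes of a thread with the type `t`, the real hole `{p, p + psi t}` in the class
`r` and the orientation `f`. -/
noncomputable def thE (m h : ℕ) (c : ZMod (m * h)) (hf : ZMod m) (Z : ZMod h → ZMod (m * h))
    (r : ZMod h) (p : ZMod (m * h)) (t : ZMod m) (f : ZMod h → Bool) (b : Bool) (i : ZMod h) :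
    ZMod (m * h) :=
  (if i = r then p else cenZ Z c i r - psi m h (hf * t)) + (bif xor (f i) b then psi m h t else 0)

section

variable {m h : ℕ} {c : ZMod (m * h)} {hf : ZMod m} {Z : ZMod h → ZMod (m * h)}
  {r : ZMod h} {p : ZMod (m * h)} {t : ZMod m} {f : ZMod h → Bool}

theorem thE_real (hr : f r = false) (b : Bool) :
    thE m h c hf Z r p t f b r = p + (bif b then psi m h t else 0) := by
  unfold thE
  rw [if_pos rfl, hr, Bool.false_xor]

theorem odd_self_sub (h : ℕ) (i : ZMod h) : ¬ Odd (i - i).val := by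
  rw [sub_self, ZMod.val_zero]; simp

theorem odd_pred_sub {h : ℕ} (ho : Odd h) (h3 : 3 ≤ h) (i : ZMod h) : ¬ Odd (i - 1 - i).val := by
  have : i - 1 - i = -1 := by ring
  rw [this]; exact not_odd_neg_one ho h3

theorem thE_low (hhf : 2 * hf = 1) {i : ZMod h} (hi : Odd (i - r).val) (b : Bool) :
    thE m h c hf Z r p t f b i =
      Z i + (bif xor (f i) b then psi m h (hf * t) else - psi m h (hf * t)) := by
  have hne : i ≠ r := by
    rintro rfl
    exact odd_self_sub h i hi
  unfold thE cenZ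
  rw [if_neg hne, if_pos hi]
  cases xor (f i) b
  · simp only [cond_false]; ring
  · simp only [cond_true]
    have e : psi m h t = psi m h (hf * t) + psi m h (hf * t) := by
      rw [← map_add]
      congr 1
      linear_combination (-t) * hhf
    rw [e]; ring

theorem thE_up (ho : Odd h) (h3 : 3 ≤ h) (hhf : 2 * hf = 1) {i : ZMod h}
    (hi : Odd (i - r).val) (b : Bool) :
    thE m h c hf Z r p t f b (i + 1) =
      Z i + c + (bif xor (f (i + 1)) b then psi m h (hf * t) else - psi m h (hf * t)) := by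
  have hne : i + 1 ≠ r := by
    rintro rfl
    have e : i - (i + 1) = -1 := by ring
    rw [e] at hi
    exact not_odd_neg_one ho h3 hi
  have hodd : ¬ Odd (i + 1 - r).val := by
    have e : i + 1 - r = i - r + 1 := by ring
    rw [e]
    exact not_odd_succ ho h3 hi
  unfold thE cenZ
  rw [if_neg hne, if_neg hodd, add_sub_cancel_right]
  cases xor (f (i + 1)) b
  · simp only [cond_false]; ring
  · simp only [cond_true]
    have e : psi m h t = psi m h (hf * t) + psi m h (hf * t) := by
      rw [← map_add]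
      congr 1
      linear_combination (-t) * hhf
    rw [e]; ring

theorem thE_step (ho : Odd h) (h3 : 3 ≤ h) (hhf : 2 * hf = 1) {i : ZMod h}
    (hi : Odd (i - r).val) (hfi : f (i + 1) = f i) (b : Bool) :
    thE m h c hf Z r p t f b (i + 1) = thE m h c hf Z r p t f b i + c := by
  rw [thE_up ho h3 hhf hi, thE_low hhf hi, hfi]; ring

theorem thE_ix {w : ZMod (m * h)} {ci : ZMod h} (ho : Odd h) (h3 : 3 ≤ h) (hhf : 2 * hf = 1)
    (hci : red m h c * ci = 1) (hZ : ∀ i, ixf m h w ci (Z i) = i) (hp : ixf m h w ci p = r)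
    (b : Bool) (i : ZMod h) : ixf m h w ci (thE m h c hf Z r p t f b i) = i := by
  have half : ∀ (x : ZMod (m * h)) (b : Bool), ixf m h w ci
      (x + (bif b then psi m h (hf * t) else - psi m h (hf * t))) = ixf m h w ci x := by
    intro x b
    cases b
    · simp only [cond_false]
      rw [← map_neg]
      exact ixf_psi w ci x _
    · exact ixf_psi w ci x _
  by_cases hi : i = r
  · rw [hi]
    unfold thE
    rw [if_pos rfl]
    cases xor (f r) b
    · simp only [cond_false, add_zero]; exact hp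
    · simp only [cond_true]
      rw [ixf_psi]; exact hp
  · rcases odd_or_pred h3 (sub_ne_zero.2 hi) with h1 | h1
    · rw [thE_low hhf h1, half]; exact hZ i
    · have e : i - r - 1 = i - 1 - r := by ring
      rw [e] at h1
      have := thE_up (m := m) (c := c) (Z := Z) (p := p) (t := t) (f := f) ho h3 hhf h1 b
      rw [sub_add_cancel] at this
      rw [this, half, ixf_add w c ci hci, hZ, sub_add_cancel]

/-- The ends of the other orientation. -/
theorem thE_xor (b : Bool) (i : ZMod h) :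
    thE m h c hf Z r p t f b i = thE m h c hf Z r p t (fun _ => false) (xor (f i) b) i := by
  unfold thE
  simp

theorem thE_sub (b : Bool) (i : ZMod h) :
    thE m h c hf Z r p t f (!b) i = thE m h c hf Z r p t f b i + psi m h t ∨
      thE m h c hf Z r p t f b i = thE m h c hf Z r p t f (!b) i + psi m h t := by
  unfold thE
  cases f i <;> cases b <;> simp

end

/-- The systems of one thread in the classes. -/
theorem thM_exists {m h : ℕ} (hm : Odd m) (m3 : 3 ≤ m) (h3 : 3 ≤ h)
    (w c : ZMod (m * h)) (ci : ZMod h) (hci : red m h c * ci = 1) (hf : ZMod m)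
    (Z : ZMod h → ZMod (m * h)) (r : ZMod h) (p : ZMod (m * h)) (t : ZMod m) (ht : IsUnit t)
    (hix : ∀ i, ixf m h w ci (thE m h c hf Z r p t (fun _ => false) false i) = i) :
    ∃ M : ZMod h → Bool → ZMod (m * h) → ZMod (m * h) → Prop,
      (∀ i b u v, M i b u v → M i b v u) ∧
      (∀ i b u v, M i b u v → ixf m h w ci u = i ∧ ixf m h w ci v = i) ∧
      (∀ i b u v v', M i b u v → M i b u v' → v = v') ∧
      (∀ i b v, ¬ M i b (thE m h c hf Z r p t (fun _ => false) b i) v) ∧
      (∀ i u v, ixf m h w ci u = i → (v = u + psi m h t ∨ u = v + psi m h t) →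
        (∃ b, u = thE m h c hf Z r p t (fun _ => false) b i ∧
          v = thE m h c hf Z r p t (fun _ => false) (!b) i) ∨ ∃ b, M i b u v) := by
  have key : ∀ i, TS {v | ixf m h w ci v = i} (DE (fun x => x = psi m h t))
      (fun (_ : Unit) b => thE m h c hf Z r p t (fun _ => false) false i +
        (bif b then psi m h t else 0)) := by
    intro i
    have h1 := row_TS hm m3 h3 w c ci hci t ht
      (thE m h c hf Z r p t (fun _ => false) false i) (psi m h t) (Or.inl rfl)
    have e : {v | ixf m h w ci v =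
        ixf m h w ci (thE m h c hf Z r p t (fun _ => false) false i)} =
        {v | ixf m h w ci v = i} := by rw [hix]
    rw [e] at h1
    exact h1
  choose M m1 m2 m3' m4 m5 using key
  have ee : ∀ b i, thE m h c hf Z r p t (fun _ => false) b i =
      thE m h c hf Z r p t (fun _ => false) false i + (bif b then psi m h t else 0) := by
    intro b i
    unfold thE
    cases b <;> simp
  refine ⟨fun i b => M i () b, fun i b => m1 i () b, fun i b => m2 i () b, fun i b => m3' i () b,
    ?_, ?_⟩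
  · intro i b v
    rw [ee]
    exact m4 i () b v
  · intro i u v hu huv
    have hv : ixf m h w ci v = i := by
      rcases huv with rfl | rfl
      · rw [ixf_psi]; exact hu
      · rw [ixf_psi] at hu; exact hu
    rcases m5 i u hu v hv ⟨_, rfl, huv⟩ with ⟨_, ⟨h1, h2⟩ | ⟨h1, h2⟩⟩ | ⟨_, b, h1⟩
    · refine Or.inl ⟨false, ?_, ?_⟩
      · rw [ee]; exact h1
      · rw [Bool.not_false, ee true]; exact h2
    · refine Or.inl ⟨true, ?_, ?_⟩
      · rw [ee true]; exact h1
      · rw [Bool.not_true, ee false]; exact h2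
    · exact Or.inr ⟨b, h1⟩

end Pool.Agent.P45
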